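import Pool.Agent.Lib.HKR.ADefs
/-!
HKR.A1.  The residue functional of F[x,y]/(A(x),B(y)) (a Frobenius algebra).
A, B monic of degrees α ≥ 1, β ≥ 1 (natDegree).  res A B f := the coefficient of x^(α-1) y^(β-1) in the
normal form of f modulo A(x), B(y) (reduce x-powers mod A and y-powers mod B).  DEFINE it by the seat:
e.g. linear functionals lamA : F[X] → F, lamA f := (f %ₘ A).coeff (α-1), lamB, and res A B :=
the linear map on MvPolynomial (Fin 2) F with res (monomial (i,j)) = lamA (X^i) * lamB (X^j)
(e.g. `MvPolynomial.basisMonomials.constr` or `Finsupp.lsum`).  Facts (as the existence theorem below):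
(i)   res vanishes on the ideal (A(x),B(y)): enough for uni 0 A * x^i y^j: = lamA (A X^i) lamB (X^j) = 0.
(ii)  res (monomial (i,j)) = 0 if i + j < α + β - 2 (i < α-1: X^i reduced of degree < α-1; or j < β-1).
(iii) if i + j = α + β - 2 then res (monomial (i,j)) = 1 if (i,j) = (α-1,β-1) and 0 otherwise (if i ≥ α then
      j ≤ β-2, so lamB (X^j) = 0; symmetric).
(iv)  nondegenerate: if res (f h) = 0 for all h then f ∈ abI A B.  Proof: modulo abI f is Σ_{i<α,j<β} c_ij
      x^i y^j (division by monic polynomials); test h = x^(α-1-i) y^(β-1-j) with (i,j) a nonzero c_ij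
      with i + j maximal: by (ii),(iii) only c_ij contributes, so c_ij = 0.  Contradiction, so f ∈ abI.
(v)   every linear functional η on MvPolynomial (Fin 2) F that vanishes on abI A B is h ↦ res (C h) for
      some C: the quotient by abI is spanned by the αβ monomials x^i y^j (i<α, j<β), finite dimensional;
      the map C ↦ res (C ·) from span of these monomials to functionals vanishing on abI (dimension
      ≤ αβ, determined by values on these monomials) is injective by (iv) (and a reduced C in abI is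
      0), so bijective.  Or construct C by descending induction from the triangular Gram matrix.
-/
open MvPolynomial
namespace HKR
variable {F : Type} [Field F]

/-! auxiliary lemmas -/

/-- the univariate residue functional -/
private noncomputable def A1lam (A : Polynomial F) : Polynomial F →ₗ[F] F :=
  (Polynomial.lcoeff F (A.natDegree - 1)).comp (Polynomial.modByMonicHom A)

private lemma A1lam_apply (A f : Polynomial F) :
    A1lam A f = (f %ₘ A).coeff (A.natDegree - 1) := by
  simp [A1lam, Polynomial.modByMonicHom, Polynomial.lcoeff_apply]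

private lemma A1lam_mod (A : Polynomial F) (hA : A.Monic) (f g : Polynomial F) (h : A ∣ f - g) :
    A1lam A f = A1lam A g := by
  have : A1lam A (f - g) = 0 := by
    rw [A1lam_apply, (Polynomial.modByMonic_eq_zero_iff_dvd hA).2 h]; simp
  rw [map_sub] at this
  exact sub_eq_zero.1 this

private lemma A1lam_small (A : Polynomial F) (hA : A.Monic) (hα : 1 ≤ A.natDegree)
    (f : Polynomial F) (hf : f.natDegree < A.natDegree) :
    A1lam A f = f.coeff (A.natDegree - 1) := by
  rw [A1lam_apply]
  have : f %ₘ A = f := by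
    rw [Polynomial.modByMonic_eq_self_iff hA]
    by_cases h0 : f = 0
    · subst h0
      rw [Polynomial.degree_zero]
      exact Ne.bot_lt (by
        intro h; rw [Polynomial.degree_eq_bot] at h; exact hA.ne_zero h)
    · exact Polynomial.degree_lt_degree hf
  rw [this]

private lemma A1lam_pow (A : Polynomial F) (hA : A.Monic) (hα : 1 ≤ A.natDegree)
    (i : ℕ) (hi : i < A.natDegree) :
    A1lam A (Polynomial.X ^ i) = if i + 1 = A.natDegree then 1 else 0 := by
  rw [A1lam_small A hA hα _ (by simpa using hi), Polynomial.coeff_X_pow]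
  by_cases h : i + 1 = A.natDegree
  · rw [if_pos h, if_pos (by omega)]
  · rw [if_neg h, if_neg (by omega)]

private lemma A1lam_dvd (A : Polynomial F) (hA : A.Monic) (f : Polynomial F) (h : A ∣ f) :
    A1lam A f = 0 := by
  have := A1lam_mod A hA f 0 (by simpa using h)
  rw [this, map_zero]

/-- nondegeneracy of the univariate functional -/
private lemma A1lam_nondeg (A : Polynomial F) (hA : A.Monic) (hα : 1 ≤ A.natDegree)
    (f : Polynomial F) (hf : f.natDegree < A.natDegree)
    (h : ∀ j < A.natDegree, A1lam A (f * Polynomial.X ^ j) = 0) : f = 0 := by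
  by_contra h0
  have h1 := h (A.natDegree - 1 - f.natDegree) (by omega)
  have h2 : (f * Polynomial.X ^ (A.natDegree - 1 - f.natDegree)).natDegree = A.natDegree - 1 := by
    rw [Polynomial.natDegree_mul_X_pow _ h0]
    omega
  rw [A1lam_small A hA hα _ (by omega)] at h1
  have h3 : (f * Polynomial.X ^ (A.natDegree - 1 - f.natDegree)).leadingCoeff = 0 := by
    rw [Polynomial.leadingCoeff, h2]; exact h1
  rw [Polynomial.leadingCoeff_mul_X_pow] at h3
  exact h0 (Polynomial.leadingCoeff_eq_zero.1 h3)

/-- polynomial with given coefficients -/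
private noncomputable def A1pol (n : ℕ) : (Fin n → F) →ₗ[F] Polynomial F :=
  ∑ i : Fin n, (Polynomial.monomial (i : ℕ)).comp (LinearMap.proj i)

private lemma A1pol_apply (n : ℕ) (a : Fin n → F) :
    A1pol n a = ∑ i : Fin n, Polynomial.monomial (i : ℕ) (a i) := by
  simp [A1pol]

private lemma A1pol_coeff (n : ℕ) (a : Fin n → F) (i : Fin n) :
    (A1pol n a).coeff i = a i := by
  rw [A1pol_apply, Polynomial.finset_sum_coeff]
  simp only [Polynomial.coeff_monomial]
  rw [Finset.sum_eq_single i]
  · simp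
  · intro b _ hb
    rw [if_neg]
    intro h; exact hb (Fin.ext h)
  · intro h; exact absurd (Finset.mem_univ _) h

private lemma A1pol_deg (n : ℕ) (hn : 1 ≤ n) (a : Fin n → F) : (A1pol n a).natDegree < n := by
  rw [A1pol_apply]
  refine lt_of_le_of_lt (Polynomial.natDegree_sum_le_of_forall_le (n := n - 1) _ _ ?_) (by omega)
  intro i _
  refine (Polynomial.natDegree_monomial_le _).trans ?_
  have := i.2
  omega

private lemma A1pol_inj (n : ℕ) (a : Fin n → F) (h : A1pol n a = 0) : a = 0 := by
  funext i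
  rw [← A1pol_coeff n a i, h]; simp

private lemma A1pol_surj (n : ℕ) (f : Polynomial F) (hf : f.natDegree < n) :
    f = A1pol n (fun i => f.coeff i) := by
  rw [A1pol_apply]
  conv_lhs => rw [f.as_sum_range' n hf]
  rw [Finset.sum_range]

/-- the dual basis -/
private lemma A1dual (A : Polynomial F) (hA : A.Monic) (hα : 1 ≤ A.natDegree)
    (i : ℕ) : ∃ u : Polynomial F, ∀ j < A.natDegree,
      A1lam A (u * Polynomial.X ^ j) = if i = j then 1 else 0 := by
  let n := A.natDegree
  let Φ : (Fin n → F) →ₗ[F] (Fin n → F) :=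
    LinearMap.pi fun j => (A1lam A).comp
      (((LinearMap.mulRight F (Polynomial.X ^ (j : ℕ) : Polynomial F))).comp (A1pol n))
  have hΦ : ∀ a j, Φ a j = A1lam A (A1pol n a * Polynomial.X ^ (j : ℕ)) := by
    intro a j; rfl
  have hinj : Function.Injective Φ := by
    rw [injective_iff_map_eq_zero]
    intro a ha
    apply A1pol_inj
    apply A1lam_nondeg A hA hα _ (A1pol_deg n hα a)
    intro j hj
    have := hΦ a ⟨j, hj⟩
    rw [ha] at this
    simpa using this.symm
  have hsurj := LinearMap.injective_iff_surjective.1 hinj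
  obtain ⟨a, ha⟩ := hsurj (fun j => if i = (j : ℕ) then 1 else 0)
  refine ⟨A1pol n a, fun j hj => ?_⟩
  have := hΦ a ⟨j, hj⟩
  rw [ha] at this
  exact this.symm

/-! two variables -/

private lemma A1uni_mul (i : Fin 2) (P Q : Polynomial F) : uni i (P * Q) = uni i P * uni i Q := by
  simp [uni]

private lemma A1uni_sub (i : Fin 2) (P Q : Polynomial F) : uni i (P - Q) = uni i P - uni i Q := by
  simp [uni]

private lemma A1uni_pow (i : Fin 2) (n : ℕ) :
    uni i (Polynomial.X ^ n : Polynomial F) = X i ^ n := by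
  simp [uni]

private lemma A1monomial (u : Fin 2 →₀ ℕ) (a : F) :
    monomial u a = C a * (uni 0 (Polynomial.X ^ (u 0)) * uni 1 (Polynomial.X ^ (u 1))) := by
  rw [A1uni_pow, A1uni_pow, MvPolynomial.monomial_eq, Finsupp.prod_fintype _ _ (by simp),
    Fin.prod_univ_two]

/-- induction on a linear statement -/
private lemma A1induct {p : MvPolynomial (Fin 2) F → Prop}
    (hadd : ∀ f g, p f → p g → p (f + g))
    (hm : ∀ (a : F) (i j : ℕ), p (C a * (uni 0 (Polynomial.X ^ i) * uni 1 (Polynomial.X ^ j)))) :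
    ∀ f, p f := by
  intro f
  induction f using MvPolynomial.induction_on' with
  | monomial u a => rw [A1monomial]; exact hm _ _ _
  | add f g hf hg => exact hadd _ _ hf hg

/-- the residue functional in two variables -/
private noncomputable def A1res (A B : Polynomial F) : MvPolynomial (Fin 2) F →ₗ[F] F :=
  (MvPolynomial.basisMonomials (Fin 2) F).constr F
    (fun m => A1lam A (Polynomial.X ^ (m 0)) * A1lam B (Polynomial.X ^ (m 1)))

private lemma A1res_monomial (A B : Polynomial F) (m : Fin 2 →₀ ℕ) :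
    A1res A B (monomial m 1) =
      A1lam A (Polynomial.X ^ (m 0)) * A1lam B (Polynomial.X ^ (m 1)) := by
  have := (MvPolynomial.basisMonomials (Fin 2) F).constr_basis F
    (fun m => A1lam A (Polynomial.X ^ (m 0)) * A1lam B (Polynomial.X ^ (m 1))) m
  simpa [A1res] using this

private lemma A1res_pow (A B : Polynomial F) (i j : ℕ) :
    A1res A B (X 0 ^ i * X 1 ^ j) =
      A1lam A (Polynomial.X ^ i) * A1lam B (Polynomial.X ^ j) := by
  have h : (X 0 ^ i * X 1 ^ j : MvPolynomial (Fin 2) F) =
      monomial (Finsupp.single 0 i + Finsupp.single 1 j) 1 := by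
    rw [MvPolynomial.X_pow_eq_monomial, MvPolynomial.X_pow_eq_monomial, monomial_mul]
    simp
  rw [h, A1res_monomial]
  simp

private lemma A1res_C (A B : Polynomial F) (a : F) (f : MvPolynomial (Fin 2) F) :
    A1res A B (C a * f) = a * A1res A B f := by
  rw [← MvPolynomial.smul_eq_C_mul, map_smul, smul_eq_mul]

private lemma A1res_uni (A B P Q : Polynomial F) :
    A1res A B (uni 0 P * uni 1 Q) = A1lam A P * A1lam B Q := by
  induction P using Polynomial.induction_on' with
  | add P P' hP hP' =>
    have : uni 0 (P + P') = uni 0 P + uni 0 P' := by simp [uni]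
    rw [this, add_mul, map_add, hP, hP', map_add, add_mul]
  | monomial n a =>
    induction Q using Polynomial.induction_on' with
    | add Q Q' hQ hQ' =>
      have : uni 1 (Q + Q') = uni 1 Q + uni 1 Q' := by simp [uni]
      rw [this, mul_add, map_add, hQ, hQ', map_add, mul_add]
    | monomial m b =>
      have h1 : uni 0 (Polynomial.monomial n a) * uni 1 (Polynomial.monomial m b) =
          C (a * b) * (X 0 ^ n * X 1 ^ m) := by
        simp only [uni, Polynomial.aeval_monomial, MvPolynomial.algebraMap_eq, map_mul]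
        ring
      rw [h1, A1res_C, A1res_pow]
      rw [← Polynomial.C_mul_X_pow_eq_monomial, ← Polynomial.C_mul_X_pow_eq_monomial,
        ← Polynomial.smul_eq_C_mul, ← Polynomial.smul_eq_C_mul, map_smul, map_smul, smul_eq_mul,
        smul_eq_mul]
      ring

private lemma A1res_ideal (A B : Polynomial F) (hA : A.Monic) (hB : B.Monic)
    (f : MvPolynomial (Fin 2) F) (hf : f ∈ abI A B) : A1res A B f = 0 := by
  rw [abI, Ideal.mem_span_pair] at hf
  obtain ⟨a, b, rfl⟩ := hf
  rw [map_add]
  have h1 : A1res A B (a * uni 0 A) = 0 := by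
    induction a using A1induct with
    | hadd f g hf hg => rw [add_mul, map_add, hf, hg, add_zero]
    | hm a i j =>
      have : C a * (uni 0 (Polynomial.X ^ i) * uni 1 (Polynomial.X ^ j)) * uni 0 A =
        C a * (uni 0 (Polynomial.X ^ i * A) * uni 1 (Polynomial.X ^ j)) := by
        rw [A1uni_mul]; ring
      rw [this, A1res_C, A1res_uni, A1lam_dvd A hA _ (Dvd.intro_left _ rfl)]
      simp
  have h2 : A1res A B (b * uni 1 B) = 0 := by
    induction b using A1induct with
    | hadd f g hf hg => rw [add_mul, map_add, hf, hg, add_zero]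
    | hm a i j =>
      have : C a * (uni 0 (Polynomial.X ^ i) * uni 1 (Polynomial.X ^ j)) * uni 1 B =
        C a * (uni 0 (Polynomial.X ^ i) * uni 1 (Polynomial.X ^ j * B)) := by
        rw [A1uni_mul]; ring
      rw [this, A1res_C, A1res_uni, A1lam_dvd B hB _ (Dvd.intro_left _ rfl)]
      simp
  rw [h1, h2, add_zero]

/-- the polynomial with coefficients `c i j` -/
private noncomputable def A1two (n m : ℕ) (c : Fin n → Fin m → F) : MvPolynomial (Fin 2) F :=
  ∑ i : Fin n, ∑ j : Fin m,
    C (c i j) * (uni 0 (Polynomial.X ^ (i : ℕ)) * uni 1 (Polynomial.X ^ (j : ℕ)))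

private lemma A1two_add (n m : ℕ) (c d : Fin n → Fin m → F) :
    A1two n m (c + d) = A1two n m c + A1two n m d := by
  unfold A1two
  rw [← Finset.sum_add_distrib]
  refine Finset.sum_congr rfl fun i _ => ?_
  rw [← Finset.sum_add_distrib]
  refine Finset.sum_congr rfl fun j _ => ?_
  simp only [Pi.add_apply, map_add]
  ring

private lemma A1uni_pol (i : Fin 2) (n : ℕ) (a : Fin n → F) :
    uni i (A1pol n a) = ∑ k : Fin n, C (a k) * uni i (Polynomial.X ^ (k : ℕ)) := by
  rw [A1pol_apply]
  simp only [uni, map_sum, Polynomial.aeval_monomial, map_pow, Polynomial.aeval_X,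
    MvPolynomial.algebraMap_eq]

private lemma A1red (A B : Polynomial F) (hA : A.Monic) (hB : B.Monic) (hα : 1 ≤ A.natDegree)
    (hβ : 1 ≤ B.natDegree) (f : MvPolynomial (Fin 2) F) :
    ∃ c : Fin A.natDegree → Fin B.natDegree → F, f - A1two _ _ c ∈ abI A B := by
  induction f using A1induct with
  | hadd f g hf hg =>
    obtain ⟨c, hc⟩ := hf
    obtain ⟨d, hd⟩ := hg
    refine ⟨c + d, ?_⟩
    rw [A1two_add]
    have := (abI A B).add_mem hc hd
    convert this using 1
    ring
  | hm a i j =>
    set P : Polynomial F := Polynomial.X ^ i with hP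
    set Q : Polynomial F := Polynomial.X ^ j with hQ
    have hPd : (P %ₘ A).natDegree < A.natDegree :=
      Polynomial.natDegree_modByMonic_lt P hA (by
        intro h; rw [h] at hα; simp at hα)
    have hQd : (Q %ₘ B).natDegree < B.natDegree :=
      Polynomial.natDegree_modByMonic_lt Q hB (by
        intro h; rw [h] at hβ; simp at hβ)
    refine ⟨fun k l => a * ((P %ₘ A).coeff k * (Q %ₘ B).coeff l), ?_⟩
    have h1 : A1two _ _ (fun (k : Fin A.natDegree) (l : Fin B.natDegree) =>
        a * ((P %ₘ A).coeff k * (Q %ₘ B).coeff l)) = C a * (uni 0 (P %ₘ A) * uni 1 (Q %ₘ B)) := by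
      conv_rhs => rw [A1pol_surj _ _ hPd, A1pol_surj _ _ hQd, A1uni_pol, A1uni_pol]
      unfold A1two
      rw [Finset.sum_mul_sum, Finset.mul_sum]
      refine Finset.sum_congr rfl fun k _ => ?_
      rw [Finset.mul_sum]
      refine Finset.sum_congr rfl fun l _ => ?_
      simp only [map_mul]
      ring
    rw [h1]
    have h2 : uni 0 P - uni 0 (P %ₘ A) = uni 0 A * uni 0 (P /ₘ A) := by
      rw [← A1uni_sub, ← A1uni_mul]
      congr 1
      have := Polynomial.modByMonic_add_div P A
      linear_combination (-1 : Polynomial F) * this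
    have h3 : uni 1 Q - uni 1 (Q %ₘ B) = uni 1 B * uni 1 (Q /ₘ B) := by
      rw [← A1uni_sub, ← A1uni_mul]
      congr 1
      have := Polynomial.modByMonic_add_div Q B
      linear_combination (-1 : Polynomial F) * this
    rw [abI, Ideal.mem_span_pair]
    refine ⟨C a * uni 0 (P /ₘ A) * uni 1 Q, C a * uni 0 (P %ₘ A) * uni 1 (Q /ₘ B), ?_⟩
    linear_combination (- C a * uni 1 Q) * h2 - (C a * uni 0 (P %ₘ A)) * h3

private lemma A1two_zero (n m : ℕ) (c : Fin n → Fin m → F) (h : ∀ i j, c i j = 0) :
    A1two n m c = 0 := by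
  unfold A1two
  simp [h]

private lemma A1res_two (A B : Polynomial F) (n m : ℕ) (c : Fin n → Fin m → F)
    (p q : ℕ) : A1res A B (A1two n m c * (uni 0 (Polynomial.X ^ p) * uni 1 (Polynomial.X ^ q))) =
      A1lam A (A1pol n (fun i => A1lam B (A1pol m (c i) * Polynomial.X ^ q)) *
        Polynomial.X ^ p) := by
  unfold A1two
  rw [Finset.sum_mul, map_sum]
  rw [A1pol_apply, Finset.sum_mul, map_sum]
  refine Finset.sum_congr rfl fun i _ => ?_
  rw [Finset.sum_mul, map_sum]
  have h1 : Polynomial.monomial (i : ℕ) (A1lam B (A1pol m (c i) * Polynomial.X ^ q)) *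
      Polynomial.X ^ p = (A1lam B (A1pol m (c i) * Polynomial.X ^ q)) •
        (Polynomial.X ^ (i : ℕ) * Polynomial.X ^ p) := by
    rw [← Polynomial.C_mul_X_pow_eq_monomial, Polynomial.smul_eq_C_mul]; ring
  rw [h1, map_smul, smul_eq_mul, A1pol_apply, Finset.sum_mul, map_sum, Finset.sum_mul]
  refine Finset.sum_congr rfl fun j _ => ?_
  have h2 : C (c i j) * (uni 0 (Polynomial.X ^ (i : ℕ)) * uni 1 (Polynomial.X ^ (j : ℕ))) *
      (uni 0 (Polynomial.X ^ p) * uni 1 (Polynomial.X ^ q)) =
      C (c i j) * (uni 0 (Polynomial.X ^ (i : ℕ) * Polynomial.X ^ p) *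
        uni 1 (Polynomial.X ^ (j : ℕ) * Polynomial.X ^ q)) := by
    rw [A1uni_mul, A1uni_mul]; ring
  have h3 : Polynomial.monomial (j : ℕ) (c i j) * Polynomial.X ^ q =
      (c i j) • (Polynomial.X ^ (j : ℕ) * Polynomial.X ^ q) := by
    rw [← Polynomial.C_mul_X_pow_eq_monomial, Polynomial.smul_eq_C_mul]; ring
  rw [h2, A1res_C, A1res_uni, h3, map_smul, smul_eq_mul]
  ring

private lemma A1nondeg (A B : Polynomial F) (hA : A.Monic) (hB : B.Monic) (hα : 1 ≤ A.natDegree)
    (hβ : 1 ≤ B.natDegree) (c : Fin A.natDegree → Fin B.natDegree → F)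
    (h : ∀ g, A1res A B (A1two _ _ c * g) = 0) : ∀ i j, c i j = 0 := by
  have h1 : ∀ q : ℕ, A1pol A.natDegree
      (fun i => A1lam B (A1pol B.natDegree (c i) * Polynomial.X ^ q)) = 0 := by
    intro q
    apply A1lam_nondeg A hA hα _ (A1pol_deg _ hα _)
    intro p _
    rw [← A1res_two]
    exact h _
  have h2 : ∀ i, A1pol B.natDegree (c i) = 0 := by
    intro i
    apply A1lam_nondeg B hB hβ _ (A1pol_deg _ hβ _)
    intro q _
    have := A1pol_inj _ _ (h1 q)
    exact congrFun this i
  intro i j
  have := A1pol_inj _ _ (h2 i)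
  exact congrFun this j

theorem exists_res (A B : Polynomial F) (hA : A.Monic) (hB : B.Monic) (hα : 1 ≤ A.natDegree)
    (hβ : 1 ≤ B.natDegree) : ∃ res : MvPolynomial (Fin 2) F →ₗ[F] F,
      (∀ f ∈ abI A B, res f = 0) ∧
      (∀ f : MvPolynomial (Fin 2) F, f.totalDegree + 3 ≤ A.natDegree + B.natDegree → res f = 0) ∧
      (∀ i j : ℕ, i + j + 2 = A.natDegree + B.natDegree →
        res (X 0 ^ i * X 1 ^ j) = if i + 1 = A.natDegree then 1 else 0) ∧
      (∀ f, (∀ h, res (f * h) = 0) → f ∈ abI A B) ∧
      (∀ η : MvPolynomial (Fin 2) F →ₗ[F] F, (∀ f ∈ abI A B, η f = 0) →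
        ∃ c, ∀ h, η h = res (c * h)) := by
  refine ⟨A1res A B, A1res_ideal A B hA hB, ?_, ?_, ?_, ?_⟩
  · intro f hf
    rw [f.as_sum, map_sum]
    refine Finset.sum_eq_zero fun m hm => ?_
    rw [A1monomial, A1res_C, A1res_uni]
    have h1 : m.sum (fun _ e => e) ≤ f.totalDegree := MvPolynomial.le_totalDegree hm
    rw [Finsupp.sum_fintype _ _ (by simp), Fin.sum_univ_two] at h1
    by_cases h2 : m 0 + 1 < A.natDegree
    · rw [A1lam_pow A hA hα _ (by omega), if_neg (by omega)]
      simp
    · rw [A1lam_pow B hB hβ _ (by omega), if_neg (by omega)]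
      simp
  · intro i j hij
    rw [A1res_pow]
    by_cases h1 : i + 1 = A.natDegree
    · rw [if_pos h1, A1lam_pow A hA hα _ (by omega), A1lam_pow B hB hβ _ (by omega), if_pos h1,
        if_pos (by omega)]
      simp
    · rw [if_neg h1]
      by_cases h2 : i + 1 < A.natDegree
      · rw [A1lam_pow A hA hα _ (by omega), if_neg (by omega)]
        simp
      · rw [A1lam_pow B hB hβ j (by omega), if_neg (by omega)]
        simp
  · intro f hf
    obtain ⟨c, hc⟩ := A1red A B hA hB hα hβ f
    have h1 : ∀ g, A1res A B (A1two _ _ c * g) = 0 := by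
      intro g
      have h2 : A1res A B ((f - A1two _ _ c) * g) = 0 :=
        A1res_ideal A B hA hB _ (Ideal.mul_mem_right _ _ hc)
      rw [sub_mul, map_sub, hf g, zero_sub, neg_eq_zero] at h2
      exact h2
    rw [A1two_zero _ _ c (A1nondeg A B hA hB hα hβ c h1), sub_zero] at hc
    exact hc
  · intro η hη
    choose u hu using A1dual A hA hα
    choose v hv using A1dual B hB hβ
    refine ⟨∑ i : Fin A.natDegree, ∑ j : Fin B.natDegree,
      C (η (uni 0 (Polynomial.X ^ (i : ℕ)) * uni 1 (Polynomial.X ^ (j : ℕ)))) *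
        (uni 0 (u i) * uni 1 (v j)), ?_⟩
    intro h
    set cc := ∑ i : Fin A.natDegree, ∑ j : Fin B.natDegree,
      C (η (uni 0 (Polynomial.X ^ (i : ℕ)) * uni 1 (Polynomial.X ^ (j : ℕ)))) *
        (uni 0 (u i) * uni 1 (v j)) with hcc
    have key : ∀ (p : Fin A.natDegree) (q : Fin B.natDegree),
        A1res A B (cc * (uni 0 (Polynomial.X ^ (p : ℕ)) * uni 1 (Polynomial.X ^ (q : ℕ)))) =
        η (uni 0 (Polynomial.X ^ (p : ℕ)) * uni 1 (Polynomial.X ^ (q : ℕ))) := by
      intro p q
      rw [hcc, Finset.sum_mul, map_sum, Finset.sum_eq_single p]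
      · rw [Finset.sum_mul, map_sum, Finset.sum_eq_single q]
        · have : C (η (uni 0 (Polynomial.X ^ (p : ℕ)) * uni 1 (Polynomial.X ^ (q : ℕ)))) *
            (uni 0 (u p) * uni 1 (v q)) *
            (uni 0 (Polynomial.X ^ (p : ℕ)) * uni 1 (Polynomial.X ^ (q : ℕ))) =
            C (η (uni 0 (Polynomial.X ^ (p : ℕ)) * uni 1 (Polynomial.X ^ (q : ℕ)))) *
            (uni 0 (u p * Polynomial.X ^ (p : ℕ)) * uni 1 (v q * Polynomial.X ^ (q : ℕ))) := by
            rw [A1uni_mul, A1uni_mul]; ring
          rw [this, A1res_C, A1res_uni, hu _ _ p.2, hv _ _ q.2]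
          simp
        · intro j _ hj
          have : C (η (uni 0 (Polynomial.X ^ (p : ℕ)) * uni 1 (Polynomial.X ^ (j : ℕ)))) *
            (uni 0 (u p) * uni 1 (v j)) *
            (uni 0 (Polynomial.X ^ (p : ℕ)) * uni 1 (Polynomial.X ^ (q : ℕ))) =
            C (η (uni 0 (Polynomial.X ^ (p : ℕ)) * uni 1 (Polynomial.X ^ (j : ℕ)))) *
            (uni 0 (u p * Polynomial.X ^ (p : ℕ)) * uni 1 (v j * Polynomial.X ^ (q : ℕ))) := by
            rw [A1uni_mul, A1uni_mul]; ring
          rw [this, A1res_C, A1res_uni, hv _ _ q.2, if_neg (fun hh => hj (Fin.ext hh))]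
          simp
        · intro hh; exact absurd (Finset.mem_univ _) hh
      · intro i _ hi
        rw [Finset.sum_mul, map_sum]
        refine Finset.sum_eq_zero fun j _ => ?_
        have : C (η (uni 0 (Polynomial.X ^ (i : ℕ)) * uni 1 (Polynomial.X ^ (j : ℕ)))) *
            (uni 0 (u i) * uni 1 (v j)) *
            (uni 0 (Polynomial.X ^ (p : ℕ)) * uni 1 (Polynomial.X ^ (q : ℕ))) =
            C (η (uni 0 (Polynomial.X ^ (i : ℕ)) * uni 1 (Polynomial.X ^ (j : ℕ)))) *
            (uni 0 (u i * Polynomial.X ^ (p : ℕ)) * uni 1 (v j * Polynomial.X ^ (q : ℕ))) := by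
            rw [A1uni_mul, A1uni_mul]; ring
        rw [this, A1res_C, A1res_uni, hu _ _ p.2, if_neg (fun hh => hi (Fin.ext hh))]
        simp
      · intro hh; exact absurd (Finset.mem_univ _) hh
    obtain ⟨c, hc⟩ := A1red A B hA hB hα hβ h
    have h1 : η h = η (A1two _ _ c) := by
      have := hη _ hc
      rw [map_sub] at this
      exact sub_eq_zero.1 this
    have h2 : A1res A B (cc * h) = A1res A B (cc * A1two _ _ c) := by
      have := A1res_ideal A B hA hB _ (Ideal.mul_mem_left _ cc hc)
      rw [mul_sub, map_sub] at this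
      exact sub_eq_zero.1 this
    rw [h1, h2]
    unfold A1two
    rw [map_sum, Finset.mul_sum, map_sum]
    refine Finset.sum_congr rfl fun p _ => ?_
    rw [map_sum, Finset.mul_sum, map_sum]
    refine Finset.sum_congr rfl fun q _ => ?_
    rw [← MvPolynomial.smul_eq_C_mul, map_smul, mul_smul_comm, map_smul, key]

end HKR
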