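import Pool.Agent.Lib.HKR.ADefs
/-!
HKR.A10 (transfer).  R a subring of ℂ (any domain inside ℂ), φ : R → F a surjective ring map to a field.
Points P j ∈ R² (j < s), pairwise different in ℂ² and with pairwise different images in F².  If SurjP holds
over F for the images then it holds over ℂ.
(SurjP for a family: Q = image of the family; μ given on the index j.)
PROOF.  For a point P of R² the R-module R[x,y]/(x - P 0, y - P 1)^μ is free with basis
u^a v^b, a + b < μ (u = x - P 0, v = y - P 1) (Taylor expansion), compatible with base change.  Let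
b_1..b_N be the tuples (0,..,u^a v^b,..,0) in ∏_j R[x,y].  By SurjP over F and surjectivity of φ there are
h_i ∈ R[x,y], h_i = 0 or totalDegree h_i + 3 ≤ D (lift coefficientwise the solution over F, with support in
the same monomials), whose Taylor coefficient vectors are δ + (matrix over ker φ).  The determinant of this
N×N matrix is mapped by φ to 1, so it is nonzero in R ⊆ ℂ, so over ℂ the Taylor vectors of the h_i form a
basis: every tuple of germs over ℂ is hit by a ℂ-combination of the h_i.
-/
open MvPolynomial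
namespace HKR

/-- the translation `X i ↦ X i + P i` -/
private noncomputable def a10T {A : Type} [CommRing A] (P : Fin 2 → A) :
    MvPolynomial (Fin 2) A →ₐ[A] MvPolynomial (Fin 2) A :=
  aeval (fun i => X i + C (P i))

private theorem a10T_X {A : Type} [CommRing A] (P : Fin 2 → A) (i : Fin 2) :
    a10T P (X i) = X i + C (P i) := by
  simp [a10T]

private theorem a10T_C {A : Type} [CommRing A] (P : Fin 2 → A) (a : A) :
    a10T P (C a) = C a := by
  simp [a10T, algebraMap_eq]

private theorem a10T_comp {A : Type} [CommRing A] (P : Fin 2 → A) (g : MvPolynomial (Fin 2) A) :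
    a10T P (a10T (-P) g) = g := by
  have h : (a10T P).comp (a10T (-P)) = AlgHom.id A _ := by
    apply MvPolynomial.algHom_ext
    intro i
    simp [a10T_X, a10T_C]
  exact DFunLike.congr_fun h g

private theorem a10T_inj {A : Type} [CommRing A] (P : Fin 2 → A) :
    Function.Injective (a10T P) := by
  intro a b h
  have h1 := congrArg (a10T (-P)) h
  have h2 := a10T_comp (-P) a
  have h3 := a10T_comp (-P) b
  rw [neg_neg] at h2 h3
  rw [h2, h3] at h1
  exact h1

private theorem a10T_map {A B : Type} [CommRing A] [CommRing B] (ψ : A →+* B) (P : Fin 2 → A)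
    (g : MvPolynomial (Fin 2) A) :
    map ψ (a10T P g) = a10T (fun i => ψ (P i)) (map ψ g) := by
  have h : (map ψ).comp (a10T P : MvPolynomial (Fin 2) A →+* MvPolynomial (Fin 2) A) =
      (a10T (fun i => ψ (P i)) : MvPolynomial (Fin 2) B →+* MvPolynomial (Fin 2) B).comp
        (map ψ) := by
    apply MvPolynomial.ringHom_ext
    · intro r
      simp [a10T_C]
    · intro i
      simp [a10T_X]
  exact DFunLike.congr_fun h g

private theorem a10_mem {K : Type} [Field K] (P : Fin 2 → K) (μ : ℕ)
    (g : MvPolynomial (Fin 2) K) :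
    g ∈ pI P ^ μ ↔ ∀ d : Fin 2 →₀ ℕ, d.degree < μ → coeff d (a10T P g) = 0 := by
  have hmap : Ideal.map (a10T P) (pI P) = idealOfVars (Fin 2) K := by
    rw [pI, Ideal.map_span, idealOfVars]
    congr 1
    ext z
    simp only [Set.mem_image, Set.mem_insert_iff, Set.mem_singleton_iff, Set.mem_range]
    constructor
    · rintro ⟨x, hx | hx, rfl⟩
      · exact ⟨0, by simp [hx, a10T_X, a10T_C]⟩
      · exact ⟨1, by simp [hx, a10T_X, a10T_C]⟩
    · rintro ⟨i, rfl⟩
      fin_cases i
      · exact ⟨X 0 - C (P 0), Or.inl rfl, by simp [a10T_X, a10T_C]⟩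
      · exact ⟨X 1 - C (P 1), Or.inr rfl, by simp [a10T_X, a10T_C]⟩
  have hsurj : Function.Surjective (a10T P) := fun y => ⟨a10T (-P) y, a10T_comp P y⟩
  rw [← mem_pow_idealOfVars_iff', ← hmap, ← Ideal.map_pow]
  constructor
  · intro h
    exact Ideal.mem_map_of_mem _ h
  · intro h
    rw [Ideal.mem_map_iff_of_surjective _ hsurj] at h
    obtain ⟨x, hx, hxg⟩ := h
    rw [a10T_inj P hxg] at hx
    exact hx

private abbrev A10I {s : ℕ} (μ : Fin s → ℕ) : Type :=
  Σ j : Fin s, {d : Fin 2 →₀ ℕ // d.degree < μ j}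

private abbrev A10M (D : ℕ) : Type := {m : Fin 2 →₀ ℕ // m.degree + 3 ≤ D}

private local instance a10_fin1 (n : ℕ) : Finite {d : Fin 2 →₀ ℕ // d.degree < n} := by
  have h : {d : Fin 2 →₀ ℕ | d.degree < n}.Finite :=
    (Finsupp.finite_of_degree_le (σ := Fin 2) n).subset
      (fun d hd => le_of_lt (show d.degree < n from hd))
  exact h.to_subtype

private local instance a10_fin2 (D : ℕ) : Finite (A10M D) := by
  have h : {d : Fin 2 →₀ ℕ | d.degree + 3 ≤ D}.Finite := by
    refine (Finsupp.finite_of_degree_le (σ := Fin 2) D).subset (fun d hd => ?_)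
    have h1 : d.degree + 3 ≤ D := hd
    show d.degree ≤ D
    omega
  exact h.to_subtype

private noncomputable local instance a10_fint0 (n : ℕ) : Fintype {d : Fin 2 →₀ ℕ // d.degree < n} :=
  Fintype.ofFinite _

private noncomputable local instance a10_fint1 {s : ℕ} (μ : Fin s → ℕ) : Fintype (A10I μ) :=
  Fintype.ofFinite _

private noncomputable local instance a10_fint2 (D : ℕ) : Fintype (A10M D) := Fintype.ofFinite _

/-- the polynomial with coefficients `c` -/
private noncomputable def a10h {A : Type} [CommRing A] {D : ℕ} (c : A10M D → A) :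
    MvPolynomial (Fin 2) A := ∑ m, monomial m.1 (c m)

private theorem a10h_deg {A : Type} [CommRing A] {D : ℕ} (c : A10M D → A) :
    a10h c = 0 ∨ (a10h c).totalDegree + 3 ≤ D := by
  by_cases h0 : a10h c = 0
  · exact Or.inl h0
  right
  have hsup : ∀ d ∈ (a10h c).support, d.degree + 3 ≤ D := by
    intro d hd
    rw [mem_support_iff, a10h, coeff_sum] at hd
    obtain ⟨m, -, hm⟩ := Finset.exists_ne_zero_of_sum_ne_zero hd
    rw [coeff_monomial] at hm
    by_cases hmd : m.1 = d
    · rw [← hmd]; exact m.2
    · simp [hmd] at hm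
  obtain ⟨d, hd⟩ := Finset.nonempty_of_ne_empty (mt support_eq_empty.1 h0)
  have h3 := hsup d hd
  have : (a10h c).totalDegree ≤ D - 3 := by
    refine Finset.sup_le ?_
    intro e he
    have h4 := hsup e he
    have h5 : (e.sum fun _ k => k) = e.degree := rfl
    omega
  omega

/-- the Taylor matrix -/
private noncomputable def a10A {A : Type} [CommRing A] {s : ℕ} (P : Fin s → Fin 2 → A)
    (μ : Fin s → ℕ) (D : ℕ) : Matrix (A10I μ) (A10M D) A :=
  fun x m => coeff x.2.1 (a10T (P x.1) (monomial m.1 1))

private theorem a10A_mul {A : Type} [CommRing A] {s : ℕ} (P : Fin s → Fin 2 → A)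
    (μ : Fin s → ℕ) (D : ℕ) (c : A10M D → A) (x : A10I μ) :
    (a10A P μ D).mulVec c x = coeff x.2.1 (a10T (P x.1) (a10h c)) := by
  rw [a10h, map_sum, coeff_sum, Matrix.mulVec, dotProduct]
  refine Finset.sum_congr rfl fun m _ => ?_
  have : (monomial m.1 (c m) : MvPolynomial (Fin 2) A) = c m • monomial m.1 1 := by
    rw [smul_monomial, smul_eq_mul, mul_one]
  rw [this, map_smul, coeff_smul, smul_eq_mul, mul_comm]
  rfl

private theorem a10A_map {A B : Type} [CommRing A] [CommRing B] (ψ : A →+* B) {s : ℕ}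
    (P : Fin s → Fin 2 → A) (μ : Fin s → ℕ) (D : ℕ) :
    (a10A P μ D).map ψ = a10A (fun j t => ψ (P j t)) μ D := by
  ext x m
  simp only [Matrix.map_apply, a10A]
  have h := a10T_map ψ (P x.1) (monomial m.1 1)
  rw [map_monomial, RingHom.map_one ψ] at h
  rw [← h, coeff_map]

open Classical in
theorem surjP_transfer (R : Subring ℂ) (F : Type) [Field F] (φ : R →+* F)
    (hφ : Function.Surjective φ) {s : ℕ} (P : Fin s → Fin 2 → R) (μ : Fin s → ℕ) (D : ℕ)
    (hinj : Function.Injective (fun j => fun t => φ (P j t)))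
    (hS : ∀ f : Fin s → MvPolynomial (Fin 2) F, ∃ h : MvPolynomial (Fin 2) F,
      (h = 0 ∨ h.totalDegree + 3 ≤ D) ∧ ∀ j, f j - h ∈ pI (fun t => φ (P j t)) ^ μ j) :
    ∀ f : Fin s → MvPolynomial (Fin 2) ℂ, ∃ h : MvPolynomial (Fin 2) ℂ,
      (h = 0 ∨ h.totalDegree + 3 ≤ D) ∧ ∀ j, f j - h ∈ pI (fun t => (P j t : ℂ)) ^ μ j := by
  -- surjectivity of the Taylor matrix over `F`
  have hF : ∀ t : A10I μ → F, ∃ c : A10M D → F,
      (a10A (fun j t => φ (P j t)) μ D).mulVec c = t := by
    intro t
    obtain ⟨h, hdeg, hh⟩ := hS (fun j => a10T (-(fun t => φ (P j t)))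
      (∑ d : {d : Fin 2 →₀ ℕ // d.degree < μ j}, monomial d.1 (t ⟨j, d⟩)))
    refine ⟨fun m => coeff m.1 h, ?_⟩
    have hc : a10h (fun m : A10M D => coeff m.1 h) = h := by
      ext d
      rw [a10h, coeff_sum]
      simp only [coeff_monomial]
      by_cases hd : d.degree + 3 ≤ D
      · rw [Finset.sum_eq_single (⟨d, hd⟩ : A10M D)]
        · simp
        · intro m _ hm
          rw [if_neg]
          intro h1
          exact hm (Subtype.ext h1)
        · intro h1
          exact absurd (Finset.mem_univ _) h1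
      · rw [Finset.sum_eq_zero]
        · rcases hdeg with h0 | h0
          · simp [h0]
          · symm
            by_contra hne
            have h1 : (d.sum fun _ k => k) ≤ h.totalDegree :=
              le_totalDegree (mem_support_iff.2 hne)
            have h5 : (d.sum fun _ k => k) = d.degree := rfl
            omega
        · intro m _
          rw [if_neg]
          intro h1
          exact hd (h1 ▸ m.2)
    ext x
    rw [a10A_mul, hc]
    have h1 := (a10_mem _ _ _).1 (hh x.1) x.2.1 x.2.2
    rw [map_sub, a10T_comp, coeff_sub, sub_eq_zero] at h1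
    rw [← h1, coeff_sum]
    simp only [coeff_monomial]
    rw [Finset.sum_eq_single x.2]
    · simp
    · intro m _ hm
      rw [if_neg]
      intro h1
      exact hm (Subtype.ext h1)
    · intro h1
      exact absurd (Finset.mem_univ _) h1
  choose c hc using fun x : A10I μ => hF (Pi.single x 1)
  choose g hg using fun y : F => hφ y
  let BR : Matrix (A10M D) (A10I μ) R := fun m x => g (c x m)
  have hBF : (a10A (fun j t => φ (P j t)) μ D) * (BR.map φ) = 1 := by
    ext x y
    have h1 := congrFun (hc y) x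
    rw [Matrix.mul_apply]
    rw [Matrix.mulVec, dotProduct] at h1
    have h2 : ∀ m, (BR.map φ) m y = c y m := fun m => hg _
    simp only [h2]
    rw [h1, Matrix.one_apply]
    by_cases hxy : x = y
    · subst hxy; simp
    · rw [Pi.single_eq_of_ne hxy, if_neg hxy]
  have hdetR : φ ((a10A P μ D * BR).det) = 1 := by
    rw [RingHom.map_det, RingHom.mapMatrix_apply, Matrix.map_mul, a10A_map, hBF, Matrix.det_one]
  have hdet0 : (a10A P μ D * BR).det ≠ 0 := by
    intro h0
    rw [h0, map_zero] at hdetR
    exact zero_ne_one hdetR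
  have hdetC : (a10A (fun j t => (P j t : ℂ)) μ D * BR.map R.subtype).det ≠ 0 := by
    have h1 : (a10A (fun j t => (P j t : ℂ)) μ D * BR.map R.subtype) =
        (R.subtype).mapMatrix (a10A P μ D * BR) := by
      rw [RingHom.mapMatrix_apply, Matrix.map_mul, a10A_map]
      rfl
    rw [h1, ← RingHom.map_det]
    intro h0
    apply hdet0
    exact Subtype.ext h0
  intro f
  let t : A10I μ → ℂ := fun x => coeff x.2.1 (a10T (fun u => (P x.1 u : ℂ)) (f x.1))
  let v : A10I μ → ℂ := (a10A (fun j t => (P j t : ℂ)) μ D * BR.map R.subtype)⁻¹.mulVec t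
  let c' : A10M D → ℂ := (BR.map R.subtype).mulVec v
  have hc' : (a10A (fun j t => (P j t : ℂ)) μ D).mulVec c' = t := by
    show (a10A (fun j t => (P j t : ℂ)) μ D).mulVec ((BR.map R.subtype).mulVec v) = t
    rw [Matrix.mulVec_mulVec]
    show (a10A (fun j t => (P j t : ℂ)) μ D * BR.map R.subtype).mulVec
      ((a10A (fun j t => (P j t : ℂ)) μ D * BR.map R.subtype)⁻¹.mulVec t) = t
    rw [Matrix.mulVec_mulVec, Matrix.mul_nonsing_inv _ (isUnit_iff_ne_zero.2 hdetC),
      Matrix.one_mulVec]
  refine ⟨a10h c', a10h_deg c', fun j => ?_⟩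
  rw [a10_mem]
  intro d hd
  have h1 := congrFun hc' ⟨j, ⟨d, hd⟩⟩
  rw [a10A_mul] at h1
  rw [map_sub, coeff_sub, sub_eq_zero]
  exact h1.symm

end HKR
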