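import Pool.Agent.Lib.HKR.ADefs
/-!
HKR.A11.  (a) Surj implies SurjP (Chinese remainder: the ideals pI P ^ μ P, P ∈ Q, are pairwise
comaximal, so one polynomial f is congruent to f P mod pI P ^ μ P for all P ∈ Q; cf.
`Ideal.exists_forall_sub_mem_ideal`).
(b) The line inequality.  Lines l i pairwise non-proportional, weights 0 ≤ β i < 1, Σ β i = d,
m P := floor (Σ_{i : P on l i} β i) for P ∈ Q; p ∈ Q with m p < d; s a line through p.  Then
  Σ_{P ∈ Q, P ≠ p, P on s} (m P - 1) + m p + 1 ≤ d   (truncated subtraction).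
PROOF of (b).  If all m P - 1 (P ≠ p on s) are 0: m p + 1 ≤ d.  Else:
Case 1: s is not proportional to any l i.  Different points P, P' of s share no line l i (the line
through both is s).  So Σ_{P on s} (Σ_{i ∋ P} β i) ≤ Σ β i = d; m P ≤ Σ_{i ∋ P} β i; and m P - 1 ≤ m P with
strict inequality for one P (the one with m P ≥ 2).  So Σ (m P - 1) + m p < d.
Case 2: s is proportional to l j (j unique).  Write Σ_{i∋P} β i = β j + r P, r P = Σ_{i ∋ P, i ≠ j} β i; then
Σ_{P on s} r P ≤ d - β j.  For P ≠ p: m P - 1 ≤ r P (real numbers, as m P ≤ β j + r P < 1 + r P), strictly if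
m P ≥ 1; m p ≤ β j + r p.  Sum: Σ (m P - 1) + m p ≤ d, strictly since some m P ≥ 2.
-/
open MvPolynomial
namespace HKR
variable {F : Type} [Field F]

private theorem a11_coprime {P P' : Fin 2 → F} (hPP : P ≠ P') : IsCoprime (pI P) (pI P') := by
  obtain ⟨j, hj⟩ : ∃ j, P j ≠ P' j := by
    by_contra hcon
    push Not at hcon
    exact hPP (funext hcon)
  rw [Ideal.isCoprime_iff_exists]
  have hmem : ∀ (R : Fin 2 → F), (X j - C (R j) : MvPolynomial (Fin 2) F) ∈ pI R := by
    intro R
    unfold pI
    apply Ideal.subset_span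
    fin_cases j
    · simp
    · simp
  have hne : P' j - P j ≠ 0 := sub_ne_zero.mpr (Ne.symm hj)
  refine ⟨C (P' j - P j)⁻¹ * (X j - C (P j)), Ideal.mul_mem_left _ _ (hmem P),
    C (-(P' j - P j)⁻¹) * (X j - C (P' j)), Ideal.mul_mem_left _ _ (hmem P'), ?_⟩
  have h1 : (C (P' j - P j)⁻¹ * C (P' j - P j) : MvPolynomial (Fin 2) F) = 1 := by
    rw [← C_mul, inv_mul_cancel₀ hne, C_1]
  rw [C_neg]
  rw [C_sub] at h1
  linear_combination h1

theorem SurjP.of_surj {Q : Finset (Fin 2 → F)} {μ : (Fin 2 → F) → ℕ} {D : ℕ}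
    (h : Surj Q μ D) : SurjP Q μ D := by
  intro f
  obtain ⟨g, hg⟩ := Ideal.exists_forall_sub_mem_ideal (I := fun P : Q => pI P.1 ^ μ P.1)
    (fun P P' hPP => (a11_coprime (fun h => hPP (Subtype.ext h))).pow) (fun P => f P.1)
  obtain ⟨h0, hdeg, hh⟩ := h g
  refine ⟨h0, hdeg, ?_⟩
  intro P hP
  have h1 : g - h0 ∈ pI P ^ μ P := by
    unfold fatI at hh
    simp only [Ideal.mem_iInf] at hh
    exact hh P hP
  have h2 : g - f P ∈ pI P ^ μ P := hg ⟨P, hP⟩
  have h3 : f P - h0 = (g - h0) - (g - f P) := by ring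
  rw [h3]
  exact Ideal.sub_mem _ h1 h2

private theorem a11_prop {l s : Fin 3 → F} (hs : s 1 ≠ 0 ∨ s 2 ≠ 0) {P P' : Fin 2 → F}
    (hPP : P ≠ P') (h1 : On P l) (h2 : On P' l) (h3 : On P s) (h4 : On P' s) :
    ∃ c : F, l = c • s := by
  unfold On at h1 h2 h3 h4
  have hl : l 1 * (P' 0 - P 0) + l 2 * (P' 1 - P 1) = 0 := by linear_combination h2 - h1
  have hs' : s 1 * (P' 0 - P 0) + s 2 * (P' 1 - P 1) = 0 := by linear_combination h4 - h3
  rcases hs with hs1 | hs2
  · have hv : P' 1 - P 1 ≠ 0 := by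
      intro hv
      have hv0 : P' 0 - P 0 = 0 := by
        rw [hv, mul_zero, add_zero] at hs'
        exact (mul_eq_zero.mp hs').resolve_left hs1
      apply hPP
      funext j
      fin_cases j
      · exact (sub_eq_zero.mp hv0).symm
      · exact (sub_eq_zero.mp hv).symm
    have e2 : l 2 * s 1 = l 1 * s 2 := by
      apply mul_right_cancel₀ hv
      linear_combination (s 1) * hl - (l 1) * hs'
    refine ⟨l 1 / s 1, ?_⟩
    funext j
    fin_cases j
    · show l 0 = l 1 / s 1 * s 0
      field_simp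
      linear_combination (s 1) * h1 - (l 1) * h3 - (P 1) * e2
    · show l 1 = l 1 / s 1 * s 1
      field_simp
    · show l 2 = l 1 / s 1 * s 2
      field_simp
      linear_combination e2
  · have hv : P' 0 - P 0 ≠ 0 := by
      intro hv
      have hv0 : P' 1 - P 1 = 0 := by
        rw [hv, mul_zero, zero_add] at hs'
        exact (mul_eq_zero.mp hs').resolve_left hs2
      apply hPP
      funext j
      fin_cases j
      · exact (sub_eq_zero.mp hv).symm
      · exact (sub_eq_zero.mp hv0).symm
    have e2 : l 1 * s 2 = l 2 * s 1 := by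
      apply mul_right_cancel₀ hv
      linear_combination (s 2) * hl - (l 2) * hs'
    refine ⟨l 2 / s 2, ?_⟩
    funext j
    fin_cases j
    · show l 0 = l 2 / s 2 * s 0
      field_simp
      linear_combination (s 2) * h1 - (l 2) * h3 - (P 0) * e2
    · show l 1 = l 2 / s 2 * s 1
      field_simp
      linear_combination e2
    · show l 2 = l 2 / s 2 * s 2
      field_simp

private theorem a11_dep {u v s : Fin 3 → F} (hind : LinearIndependent F ![u, v])
    (hu : ∃ c : F, u = c • s) (hv : ∃ c : F, v = c • s) : False := by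
  obtain ⟨c, hc⟩ := hu
  obtain ⟨c', hc'⟩ := hv
  rw [LinearIndependent.pair_iff] at hind
  have h1 := hind c' (-c) (by rw [hc, hc', smul_smul, smul_smul, ← add_smul]; ring_nf; simp)
  have h2 : c = 0 := by simpa using h1.2
  have hu0 : u = 0 := by rw [hc, h2, zero_smul]
  have h3 := hind 1 0 (by rw [hu0]; simp)
  exact one_ne_zero h3.1

open Classical in
theorem line_ineq {k : ℕ} (l : Fin k → Fin 3 → F)
    (hind : ∀ i j, i ≠ j → LinearIndependent F ![l i, l j])
    (β : Fin k → ℚ) (h0 : ∀ i, 0 ≤ β i) (h1 : ∀ i, β i < 1) (d : ℕ) (hd : ∑ i, β i = d)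
    (Q : Finset (Fin 2 → F)) (m : (Fin 2 → F) → ℕ)
    (hm : ∀ P ∈ Q, (m P : ℤ) = ⌊∑ i ∈ Finset.univ.filter (fun i => On P (l i)), β i⌋)
    (p : Fin 2 → F) (hp : p ∈ Q) (hpd : m p < d) (s : Fin 3 → F) (hs : s 1 ≠ 0 ∨ s 2 ≠ 0)
    (hps : On p s) :
    ∑ P ∈ (Q.erase p).filter (fun P => On P s), (m P - 1) + m p + 1 ≤ d := by
  set T := (Q.erase p).filter (fun P => On P s) with hT
  by_cases hall : ∀ P ∈ T, m P - 1 = 0
  · rw [Finset.sum_eq_zero hall]
    omega
  push Not at hall
  obtain ⟨P0, hP0, hP02⟩ := hall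
  have hpT : p ∉ T := by simp [hT]
  -- weights
  let pr : Fin k → Prop := fun i => ∃ c : F, l i = c • s
  let β' : Fin k → ℚ := fun i => if pr i then 0 else β i
  let γ : Fin k → ℚ := fun i => if pr i then β i else 0
  have hβγ : ∀ i, β i = γ i + β' i := by
    intro i
    by_cases hi : pr i
    · simp [β', γ, hi]
    · simp [β', γ, hi]
  have hβ'0 : ∀ i, 0 ≤ β' i := by
    intro i
    by_cases hi : pr i
    · simp [β', hi]
    · simp [β', hi, h0 i]
  have hγ0 : ∀ i, 0 ≤ γ i := by
    intro i
    by_cases hi : pr i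
    · simp [γ, hi, h0 i]
    · simp [γ, hi]
  set b : ℚ := ∑ i, γ i with hb
  have hb0 : 0 ≤ b := Finset.sum_nonneg (fun i _ => hγ0 i)
  have hb1 : b < 1 := by
    by_cases hj : ∃ j, pr j
    · obtain ⟨j, hj⟩ := hj
      have : b = γ j := by
        rw [hb]
        apply Finset.sum_eq_single j
        · intro i _ hij
          have : ¬ pr i := fun hi => a11_dep (hind i j hij) hi hj
          simp [γ, this]
        · intro h; exact absurd (Finset.mem_univ j) h
      rw [this]
      simp only [γ, hj, if_true]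
      exact h1 j
    · push Not at hj
      have : b = 0 := by
        rw [hb]
        apply Finset.sum_eq_zero
        intro i _
        simp only [γ, hj i, if_false]
      rw [this]; norm_num
  -- the sums
  let r : (Fin 2 → F) → ℚ := fun P => ∑ i ∈ Finset.univ.filter (fun i => On P (l i)), β i
  let r' : (Fin 2 → F) → ℚ := fun P => ∑ i, if On P (l i) then β' i else 0
  have hr'0 : ∀ P, 0 ≤ r' P := by
    intro P
    apply Finset.sum_nonneg
    intro i _
    split_ifs
    · exact hβ'0 i
    · exact le_refl _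
  have hr : ∀ P, r P ≤ b + r' P := by
    intro P
    show ∑ i ∈ Finset.univ.filter (fun i => On P (l i)), β i ≤ b + r' P
    rw [hb, Finset.sum_filter, ← Finset.sum_add_distrib]
    apply Finset.sum_le_sum
    intro i _
    split_ifs
    · rw [hβγ i]
    · linarith [hγ0 i]
  have hmr : ∀ P ∈ Q, (m P : ℚ) ≤ r P := by
    intro P hP
    have h := hm P hP
    have h2 : ((m P : ℤ) : ℚ) ≤ r P := by
      rw [h]
      exact Int.floor_le _
    exact_mod_cast h2
  -- the total
  have htot : ∑ P ∈ insert p T, r' P ≤ d - b := by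
    have e1 : ∑ P ∈ insert p T, r' P
        = ∑ i, ∑ P ∈ insert p T, (if On P (l i) then β' i else 0) := Finset.sum_comm
    have e2 : (d : ℚ) - b = ∑ i, β' i := by
      rw [← hd, hb, ← Finset.sum_sub_distrib]
      apply Finset.sum_congr rfl
      intro i _
      linarith [hβγ i]
    rw [e1, e2]
    apply Finset.sum_le_sum
    intro i _
    by_cases hi : pr i
    · have : β' i = 0 := by simp only [β', hi, if_true]
      rw [this]
      simp
    · rw [← Finset.sum_filter, Finset.sum_const, nsmul_eq_mul]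
      have hcard : ((insert p T).filter (fun P => On P (l i))).card ≤ 1 := by
        rw [Finset.card_le_one]
        intro P hP P' hP'
        by_contra hne
        apply hi
        rw [Finset.mem_filter] at hP hP'
        have hon : ∀ R ∈ insert p T, On R s := by
          intro R hR
          rw [Finset.mem_insert] at hR
          rcases hR with hR | hR
          · rw [hR]; exact hps
          · rw [hT, Finset.mem_filter] at hR
            exact hR.2
        exact a11_prop hs hne hP.2 hP'.2 (hon P hP.1) (hon P' hP'.1)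
      have hcard' : (((insert p T).filter (fun P => On P (l i))).card : ℚ) ≤ 1 := by
        exact_mod_cast hcard
      have := mul_le_mul_of_nonneg_right hcard' (hβ'0 i)
      linarith
  have hTQ : ∀ P ∈ T, P ∈ Q := by
    intro P hP
    rw [hT, Finset.mem_filter, Finset.mem_erase] at hP
    exact hP.1.2
  have hstep : ∀ P ∈ T, ((m P - 1 : ℕ) : ℚ) ≤ r' P := by
    intro P hP
    rcases Nat.eq_zero_or_pos (m P) with hz | hpos
    · rw [hz]; simpa using hr'0 P
    · rw [Nat.cast_sub hpos]
      have := hmr P (hTQ P hP)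
      have := hr P
      push_cast
      linarith
  have hstrict : ((m P0 - 1 : ℕ) : ℚ) < r' P0 := by
    have hpos : 1 ≤ m P0 := by omega
    rw [Nat.cast_sub hpos]
    have := hmr P0 (hTQ P0 hP0)
    have := hr P0
    push_cast
    linarith
  have hsum : ∑ P ∈ T, ((m P - 1 : ℕ) : ℚ) < ∑ P ∈ T, r' P :=
    Finset.sum_lt_sum hstep ⟨P0, hP0, hstrict⟩
  rw [Finset.sum_insert hpT] at htot
  have hmp := hmr p hp
  have hrp := hr p
  have hfin : ((∑ P ∈ T, (m P - 1) + m p : ℕ) : ℚ) < (d : ℚ) := by
    push_cast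
    linarith
  have hfin' : ∑ P ∈ T, (m P - 1) + m p < d := by exact_mod_cast hfin
  omega

end HKR
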