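import Pool.Agent.Lib.HKR.ADefs
/-!
HKR.A9.  (a) A finitely generated subring R of ℂ: all but finitely many primes are non-units in R.
PROOF.  S finite, R = Algebra.adjoin ℤ S (or Subring.closure S).  R' := Algebra.adjoin ℚ S ⊆ ℂ, a nonzero
finitely generated ℚ-algebra; take a maximal ideal 𝔫 of R'; E := R'/𝔫 is a finite extension of ℚ
(Zariski lemma: `finite_of_finite_type_of_isJacobsonRing`).  φ : R' → E.  Each φ(s), s ∈ S, is algebraic over
ℚ, so N φ(s) is integral over ℤ for a common integer N ≥ 1.  So for every x ∈ R some N^a φ(x) is integral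
over ℤ (adjoin induction).  If the prime ℓ is a unit of R, x ℓ = 1, φ(x) = 1/ℓ, so N^a/ℓ ∈ ℚ is integral over
ℤ, hence an integer: ℓ ∣ N^a, ℓ ∣ N.
(b) Hence, for ℓ not dividing N, a maximal ideal 𝔪 of R containing ℓ; R/𝔪 is a field of characteristic ℓ,
a finitely generated F_ℓ-algebra, so finite, so perfect.
-/
namespace HKR

private theorem a9_mul {E : Type} [Field E] [CharZero E] (halg : ∀ s : E, IsAlgebraic ℤ s)
    (S : Finset E) : ∃ N : ℕ, 0 < N ∧ ∀ s ∈ S, IsIntegral ℤ ((N : E) * s) := by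
  classical
  have h1 : ∀ s : E, ∃ N : ℕ, 0 < N ∧ IsIntegral ℤ ((N : E) * s) := by
    intro s
    obtain ⟨y, hy, hi⟩ := (halg s).exists_integral_multiple
    refine ⟨y.natAbs, Int.natAbs_pos.2 hy, ?_⟩
    rcases Int.natAbs_eq y with h | h
    · have h2 : ((y.natAbs : ℕ) : E) * s = y • s := by
        rw [zsmul_eq_mul]
        conv_rhs => rw [h]
        simp
      rw [h2]
      exact hi
    · have h2 : ((y.natAbs : ℕ) : E) * s = -(y • s) := by
        rw [zsmul_eq_mul]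
        conv_rhs => rw [h]
        simp
      rw [h2]
      exact hi.neg
  choose N hN hNi using h1
  refine ⟨∏ s ∈ S, N s, Finset.prod_pos fun s _ => hN s, fun s hs => ?_⟩
  rw [← Finset.mul_prod_erase S N hs]
  push_cast
  have h2 : (N s : E) * (∏ x ∈ S.erase s, (N x : E)) * s =
      ((∏ x ∈ S.erase s, N x : ℕ) : E) * ((N s : E) * s) := by
    push_cast
    ring
  rw [h2]
  exact (isIntegral_algebraMap (R := ℤ) (A := E) (x := ((∏ x ∈ S.erase s, N x : ℕ) : ℤ))).mul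
    (hNi s) |> fun h => by simpa using h

private theorem a9_core (S : Finset ℂ) {E : Type} [Field E] [CharZero E] [Algebra ℚ E]
    [Module.Finite ℚ E] (ψ : Algebra.adjoin ℤ (S : Set ℂ) →+* E) :
    ∃ N : ℕ, 0 < N ∧ ∀ ℓ : ℕ, ℓ.Prime → ¬ ℓ ∣ N →
    ¬ IsUnit ((ℓ : ℕ) : Algebra.adjoin ℤ (S : Set ℂ)) := by
  classical
  let SE : Finset E := S.attach.image fun s => ψ ⟨s.1, Algebra.subset_adjoin s.2⟩
  have halg : ∀ s : E, IsAlgebraic ℤ s := by
    intro s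
    rw [IsFractionRing.isAlgebraic_iff ℤ ℚ E]
    exact Algebra.IsAlgebraic.isAlgebraic s
  obtain ⟨N, hN, hNi⟩ := a9_mul halg SE
  refine ⟨N, hN, fun ℓ hℓ hℓN hu => hℓN ?_⟩
  have key : ∀ x : Algebra.adjoin ℤ (S : Set ℂ), ∃ a : ℕ, IsIntegral ℤ ((N : E) ^ a * ψ x) := by
    rintro ⟨x, hx⟩
    induction hx using Algebra.adjoin_induction with
    | mem x hx =>
      refine ⟨1, ?_⟩
      rw [pow_one]
      refine hNi _ ?_
      exact Finset.mem_image.2 ⟨⟨x, hx⟩, Finset.mem_attach _ _, rfl⟩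
    | algebraMap r =>
      refine ⟨0, ?_⟩
      rw [pow_zero, one_mul]
      have : ψ ⟨algebraMap ℤ ℂ r, Subalgebra.algebraMap_mem _ r⟩ = algebraMap ℤ E r := by
        have e : (⟨algebraMap ℤ ℂ r, Subalgebra.algebraMap_mem _ r⟩ :
            Algebra.adjoin ℤ (S : Set ℂ)) = ((r : ℤ) : Algebra.adjoin ℤ (S : Set ℂ)) := by
          apply Subtype.ext
          simp
        rw [e, map_intCast]
        simp
      rw [this]
      exact isIntegral_algebraMap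
    | add x y hx hy ihx ihy =>
      obtain ⟨a, ha⟩ := ihx
      obtain ⟨b, hb⟩ := ihy
      refine ⟨a + b, ?_⟩
      have e : (⟨x + y, Subalgebra.add_mem _ hx hy⟩ : Algebra.adjoin ℤ (S : Set ℂ)) =
          ⟨x, hx⟩ + ⟨y, hy⟩ := rfl
      rw [e, map_add]
      have hNI : IsIntegral ℤ (N : E) := by
        have := isIntegral_algebraMap (R := ℤ) (A := E) (x := (N : ℤ))
        simpa using this
      have h2 : (N : E) ^ (a + b) * (ψ ⟨x, hx⟩ + ψ ⟨y, hy⟩) =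
          (N : E) ^ b * ((N : E) ^ a * ψ ⟨x, hx⟩) + (N : E) ^ a * ((N : E) ^ b * ψ ⟨y, hy⟩) := by
        ring
      rw [h2]
      exact ((hNI.pow b).mul ha).add ((hNI.pow a).mul hb)
    | mul x y hx hy ihx ihy =>
      obtain ⟨a, ha⟩ := ihx
      obtain ⟨b, hb⟩ := ihy
      refine ⟨a + b, ?_⟩
      have e : (⟨x * y, Subalgebra.mul_mem _ hx hy⟩ : Algebra.adjoin ℤ (S : Set ℂ)) =
          ⟨x, hx⟩ * ⟨y, hy⟩ := rfl
      rw [e, map_mul]
      have h2 : (N : E) ^ (a + b) * (ψ ⟨x, hx⟩ * ψ ⟨y, hy⟩) =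
          ((N : E) ^ a * ψ ⟨x, hx⟩) * ((N : E) ^ b * ψ ⟨y, hy⟩) := by
        ring
      rw [h2]
      exact ha.mul hb
  obtain ⟨u, hu⟩ := hu
  obtain ⟨a, ha⟩ := key ((u⁻¹ : (Algebra.adjoin ℤ (S : Set ℂ))ˣ) : Algebra.adjoin ℤ (S : Set ℂ))
  have hℓ0 : (ℓ : E) ≠ 0 := by exact_mod_cast hℓ.ne_zero
  have h3 : ψ ((u⁻¹ : (Algebra.adjoin ℤ (S : Set ℂ))ˣ) : Algebra.adjoin ℤ (S : Set ℂ)) =
      (ℓ : E)⁻¹ := by
    apply eq_inv_of_mul_eq_one_left
    have h4 : ψ ((u : Algebra.adjoin ℤ (S : Set ℂ))) = (ℓ : E) := by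
      rw [hu, map_natCast]
    rw [← h4, ← map_mul, Units.inv_mul, map_one]
  rw [h3] at ha
  have h5 : (N : E) ^ a * (ℓ : E)⁻¹ = algebraMap ℚ E ((N : ℚ) ^ a * (ℓ : ℚ)⁻¹) := by
    simp
  rw [h5, isIntegral_algebraMap_iff (algebraMap ℚ E).injective] at ha
  obtain ⟨c, hc⟩ := IsIntegrallyClosed.isIntegral_iff.1 ha
  have h6 : (c : ℚ) * ℓ = (N : ℚ) ^ a := by
    have hℓq : (ℓ : ℚ) ≠ 0 := by exact_mod_cast hℓ.ne_zero
    have h7 : (c : ℚ) = (N : ℚ) ^ a * (ℓ : ℚ)⁻¹ := by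
      rw [← hc]
      simp
    rw [h7, inv_mul_cancel_right₀ hℓq]
  have h8 : c * (ℓ : ℤ) = (N : ℤ) ^ a := by exact_mod_cast h6
  have h9 : (ℓ : ℤ) ∣ ((N ^ a : ℕ) : ℤ) := by
    push_cast
    rw [← h8]
    exact dvd_mul_left _ _
  exact hℓ.dvd_of_dvd_pow (Int.natCast_dvd_natCast.1 h9)

private theorem a9_unit (S : Finset ℂ) : ∃ N : ℕ, 0 < N ∧ ∀ ℓ : ℕ, ℓ.Prime → ¬ ℓ ∣ N →
    ¬ IsUnit ((ℓ : ℕ) : Algebra.adjoin ℤ (S : Set ℂ)) := by
  classical
  let R' := Algebra.adjoin ℚ (S : Set ℂ)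
  have hft : Algebra.FiniteType ℚ R' := by
    rw [← Subalgebra.fg_iff_finiteType]
    exact Subalgebra.fg_adjoin_finset S
  obtain ⟨𝔫, h𝔫⟩ := Ideal.exists_maximal R'
  let E := R' ⧸ 𝔫
  let fE : Field E := Ideal.Quotient.field 𝔫
  have hftE : Algebra.FiniteType ℚ E :=
    Algebra.FiniteType.of_surjective (Ideal.Quotient.mkₐ ℚ 𝔫) Ideal.Quotient.mk_surjective
  let aE : Algebra ℚ E := Ideal.Quotient.algebra ℚ
  have hfin : Module.Finite ℚ E := finite_of_finite_type_of_isJacobsonRing ℚ E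
  have hch : CharZero E := algebraRat.charZero E
  have hle : Algebra.adjoin ℤ (S : Set ℂ) ≤ R'.restrictScalars ℤ := by
    refine Algebra.adjoin_le fun x hx => ?_
    exact Algebra.subset_adjoin hx
  let ψ : Algebra.adjoin ℤ (S : Set ℂ) →+* E :=
    (Ideal.Quotient.mk 𝔫).comp (Subalgebra.inclusion hle).toRingHom
  exact @a9_core S E fE hch aE hfin ψ

theorem exists_red (S : Finset ℂ) : ∃ N : ℕ, 0 < N ∧ ∀ ℓ : ℕ, ℓ.Prime → ¬ ℓ ∣ N →
    ∃ (F : Type) (_ : Field F) (_ : CharP F ℓ) (_ : PerfectField F)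
      (φ : Algebra.adjoin ℤ (S : Set ℂ) →+* F), Function.Surjective φ := by
  obtain ⟨N, hN, h⟩ := a9_unit S
  refine ⟨N, hN, fun ℓ hℓ hℓN => ?_⟩
  obtain ⟨𝔪, h𝔪, hmem⟩ := exists_max_ideal_of_mem_nonunits (h ℓ hℓ hℓN)
  have hft : Algebra.FiniteType ℤ (Algebra.adjoin ℤ (S : Set ℂ)) := by
    rw [← Subalgebra.fg_iff_finiteType]
    exact Subalgebra.fg_adjoin_finset S
  let F := Algebra.adjoin ℤ (S : Set ℂ) ⧸ 𝔪
  let _ : Field F := Ideal.Quotient.field 𝔪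
  have h0 : ((ℓ : ℕ) : F) = 0 := by
    have h1 : Ideal.Quotient.mk 𝔪 ((ℓ : ℕ) : Algebra.adjoin ℤ (S : Set ℂ)) = 0 :=
      Ideal.Quotient.eq_zero_iff_mem.2 hmem
    rw [map_natCast] at h1
    exact h1
  have hch : CharP F ℓ := (CharP.charP_iff_prime_eq_zero hℓ).2 h0
  have hF : Fact ℓ.Prime := ⟨hℓ⟩
  let _ : Algebra (ZMod ℓ) F := ZMod.algebra F ℓ
  have hftF : Algebra.FiniteType ℤ F :=
    Algebra.FiniteType.of_surjective (Ideal.Quotient.mkₐ ℤ 𝔪) Ideal.Quotient.mk_surjective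
  have htow : IsScalarTower ℤ (ZMod ℓ) F := IsScalarTower.of_algebraMap_eq' (RingHom.ext_int _ _)
  have hftL : Algebra.FiniteType (ZMod ℓ) F :=
    Algebra.FiniteType.of_restrictScalars_finiteType ℤ (ZMod ℓ) F
  have hfin : Module.Finite (ZMod ℓ) F := finite_of_finite_type_of_isJacobsonRing (ZMod ℓ) F
  have hfi : Finite F := Module.finite_of_finite (ZMod ℓ)
  exact ⟨F, inferInstance, hch, inferInstance, Ideal.Quotient.mk 𝔪, Ideal.Quotient.mk_surjective⟩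

end HKR
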