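import Pool.Agent.Lib.HKR.A8
import Pool.Agent.Lib.HKR.A9
import Pool.Agent.Lib.HKR.A10
import Pool.Agent.Lib.HKR.A11
/-!
HKR.A12 (vanishing over ℂ).
PROOF.  n' := a common denominator of the β i.  S ⊆ ℂ finite: all coordinates of the l i and of the
P ∈ Q; for each pair i ≠ j the inverse of a nonzero 2×2 minor of ![l i, l j]; for each i the inverse of
l i 1 or l i 2 (a nonzero one); for P ≠ P' in Q the inverse of P t - P' t for a t where it is nonzero;
for P, P', P'' ∈ Q with nonzero determinant of (1, P), (1, P'), (1, P'') its inverse.  R := adjoin ℤ S.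
`exists_red` gives N.  Choose a prime ℓ ≡ 1 mod n' with ℓ > N, ℓ ≥ k, ℓ ≥ Σ_{P∈Q} m P + 1
(Nat.exists_prime_gt_modEq_one).  φ : R → F surjective, F perfect of characteristic ℓ.
e i := (ℓ-1) β i ∈ ℕ, < ℓ.  The images of l i, P satisfy the hypotheses of surj_char: inverses in R make
the nonzero quantities nonzero in F, so images of points are distinct, lines nonproportional,
nonconstant; On P l implies On of the images, so (ℓ-1) m P ≤ Σ_{On P (l i)} e i ≤ the sum over F.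
Line condition: let s be a line over F through the image of p.  The points P ≠ p of Q whose images
are on s: any two of them P, P' satisfy det(p,P,P') ↦ 0, so the determinant is 0 over ℂ, so they all lie
with p on one line s' over ℂ; line_ineq for s' (if there is no such P: m p + 1 ≤ d).
surj_char, SurjP.of_surj, surjP_transfer, then back to Surj over ℂ (Surj.of_surjP).
-/
open MvPolynomial
namespace HKR

/-- the line through two points -/
private def A12_ln {K : Type} [Field K] (a b : Fin 2 → K) : Fin 3 → K :=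
  ![a 0 * b 1 - a 1 * b 0, a 1 - b 1, b 0 - a 0]

private theorem A12_on_iff {K : Type} [Field K] (a b c : Fin 2 → K) :
    On c (A12_ln a b) ↔
      a 0 * b 1 - a 1 * b 0 + (a 1 - b 1) * c 0 + (b 0 - a 0) * c 1 = 0 := by
  simp [On, A12_ln]

private theorem A12_ln_ne {K : Type} [Field K] {a b : Fin 2 → K} (h : a ≠ b) :
    A12_ln a b 1 ≠ 0 ∨ A12_ln a b 2 ≠ 0 := by
  by_contra hcon
  push Not at hcon
  obtain ⟨h1, h2⟩ := hcon
  apply h
  simp only [A12_ln, Matrix.cons_val_one, Matrix.cons_val] at h1 h2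
  funext t
  fin_cases t
  · exact (sub_eq_zero.1 h2).symm
  · exact sub_eq_zero.1 h1

private theorem A12_three {K : Type} [Field K] {a b c : Fin 2 → K} {s : Fin 3 → K}
    (hs : s 1 ≠ 0 ∨ s 2 ≠ 0) (ha : On a s) (hb : On b s) (hc : On c s) : On c (A12_ln a b) := by
  rw [A12_on_iff]
  unfold On at ha hb hc
  rcases hs with h | h
  · apply mul_left_cancel₀ h
    linear_combination (b 1 - c 1) * ha + (c 1 - a 1) * hb + (a 1 - b 1) * hc
  · apply mul_left_cancel₀ h
    linear_combination (c 0 - b 0) * ha - (c 0 - a 0) * hb + (b 0 - a 0) * hc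

private theorem A12_minor {K : Type} [Field K] {u v : Fin 3 → K}
    (h : LinearIndependent K ![u, v]) : ∃ a b, u a * v b - u b * v a ≠ 0 := by
  by_contra hcon
  push Not at hcon
  rw [LinearIndependent.pair_iff] at h
  have hu : ∀ a, u a = 0 := by
    intro a
    have h1 := h (v a) (-(u a)) (by
      funext b
      simp only [Pi.add_apply, Pi.smul_apply, smul_eq_mul, Pi.zero_apply]
      linear_combination -hcon a b)
    exact neg_eq_zero.1 h1.2
  have h2 := h 1 0 (by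
    funext b
    simp [hu b])
  exact one_ne_zero h2.1

private theorem A12_indep {K : Type} [Field K] {u v : Fin 3 → K} {a b : Fin 3}
    (h : u a * v b - u b * v a ≠ 0) : LinearIndependent K ![u, v] := by
  rw [LinearIndependent.pair_iff]
  intro s t hst
  have h1 : s * u a + t * v a = 0 := by simpa using congrFun hst a
  have h2 : s * u b + t * v b = 0 := by simpa using congrFun hst b
  constructor
  · apply (mul_eq_zero.1 (show s * (u a * v b - u b * v a) = 0 by
      linear_combination v b * h1 - v a * h2)).resolve_right h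
  · apply (mul_eq_zero.1 (show t * (u a * v b - u b * v a) = 0 by
      linear_combination u a * h2 - u b * h1)).resolve_right h

open Classical in
/-- the statement over the finite field -/
private theorem A12_F {ℓ : ℕ} [Fact ℓ.Prime] {F : Type} [Field F] [CharP F ℓ] [PerfectField F]
    {k s : ℕ} (pt : Fin s → Fin 2 → ℂ) (l : Fin k → Fin 3 → ℂ) (im : Fin s → Fin 2 → F)
    (l' : Fin k → Fin 3 → F) (hpt : Function.Injective pt) (him : Function.Injective im)
    (hind : ∀ i j, i ≠ j → LinearIndependent ℂ ![l i, l j])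
    (hl' : ∀ i, l' i 1 ≠ 0 ∨ l' i 2 ≠ 0)
    (hind' : ∀ i j, i ≠ j → LinearIndependent F ![l' i, l' j])
    (hOn : ∀ j i, On (pt j) (l i) → On (im j) (l' i))
    (hdet : ∀ a b c, On (im c) (A12_ln (im a) (im b)) → On (pt c) (A12_ln (pt a) (pt b)))
    (β : Fin k → ℚ) (h0 : ∀ i, 0 ≤ β i) (h1 : ∀ i, β i < 1) (d : ℕ) (hd : ∑ i, β i = d)
    (e : Fin k → ℕ) (he : ∀ i, (e i : ℚ) = (ℓ - 1 : ℕ) * β i)
    (m : (Fin 2 → ℂ) → ℕ)
    (hm : ∀ j, (m (pt j) : ℤ) = ⌊∑ i ∈ Finset.univ.filter (fun i => On (pt j) (l i)), β i⌋)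
    (j₀ : Fin s) (hpd : m (pt j₀) < d) (hk : k ≤ ℓ) (hbig : ∑ j, m (pt j) + 1 ≤ ℓ) :
    ∀ f : Fin s → MvPolynomial (Fin 2) F, ∃ h : MvPolynomial (Fin 2) F,
      (h = 0 ∨ h.totalDegree + 3 ≤ d + 1) ∧
        ∀ j, f j - h ∈ pI (im j) ^ (if j = j₀ then m (pt j) else m (pt j) - 1) := by
  have hℓ : 1 < ℓ := (Fact.out : ℓ.Prime).one_lt
  have hℓq : (0 : ℚ) < (ℓ - 1 : ℕ) := by exact_mod_cast (by omega : 0 < ℓ - 1)
  set Q' : Finset (Fin 2 → F) := Finset.univ.image im with hQ'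
  set m' : (Fin 2 → F) → ℕ := Function.extend im (fun j => m (pt j)) 0 with hm'
  have hm'j : ∀ j, m' (im j) = m (pt j) := fun j => him.extend_apply _ _ j
  have heℓ : ∀ i, e i < ℓ := by
    intro i
    have h2 : (e i : ℚ) < (ℓ - 1 : ℕ) := by
      rw [he i]
      calc ((ℓ - 1 : ℕ) : ℚ) * β i < (ℓ - 1 : ℕ) * 1 := mul_lt_mul_of_pos_left (h1 i) hℓq
        _ = _ := mul_one _
    have h3 : e i < ℓ - 1 := by exact_mod_cast h2
    omega
  have hed : ∑ i, e i = (ℓ - 1) * d := by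
    have h2 : ((∑ i, e i : ℕ) : ℚ) = (((ℓ - 1) * d : ℕ) : ℚ) := by
      rw [Nat.cast_sum, Nat.cast_mul, ← hd, Finset.mul_sum]
      exact Finset.sum_congr rfl fun i _ => he i
    exact_mod_cast h2
  have hmF : ∀ P ∈ Q', (ℓ - 1) * m' P ≤
      ∑ i ∈ Finset.univ.filter (fun i => On P (l' i)), e i := by
    intro P hP
    obtain ⟨j, -, rfl⟩ := Finset.mem_image.1 hP
    rw [hm'j]
    have h2 : ((m (pt j) : ℕ) : ℚ) ≤ ∑ i ∈ Finset.univ.filter (fun i => On (pt j) (l i)), β i := by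
      have h3 := Int.floor_le (∑ i ∈ Finset.univ.filter (fun i => On (pt j) (l i)), β i)
      rw [← hm j] at h3
      exact_mod_cast h3
    have h3 : (((ℓ - 1) * m (pt j) : ℕ) : ℚ) ≤
        ((∑ i ∈ Finset.univ.filter (fun i => On (pt j) (l i)), e i : ℕ) : ℚ) := by
      rw [Nat.cast_sum, Nat.cast_mul, Finset.sum_congr rfl fun i _ => he i, ← Finset.mul_sum]
      exact mul_le_mul_of_nonneg_left h2 hℓq.le
    have h4 : (ℓ - 1) * m (pt j) ≤
        ∑ i ∈ Finset.univ.filter (fun i => On (pt j) (l i)), e i := by exact_mod_cast h3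
    refine h4.trans (Finset.sum_le_sum_of_subset ?_)
    intro i hi
    exact Finset.mem_filter.2 ⟨Finset.mem_univ _, hOn j i (Finset.mem_filter.1 hi).2⟩
  have hbig' : ∑ P ∈ Q'.erase (im j₀), (m' P - 1) ≤ m' (im j₀) + ℓ - 1 := by
    have h2 : ∑ P ∈ Q'.erase (im j₀), (m' P - 1) ≤ ∑ P ∈ Q', m' P :=
      (Finset.sum_le_sum fun P _ => Nat.sub_le _ _).trans
        (Finset.sum_le_sum_of_subset (Finset.erase_subset _ _))
    have h3 : ∑ P ∈ Q', m' P = ∑ j, m (pt j) := by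
      rw [hQ', Finset.sum_image fun x _ y _ h => him h]
      exact Finset.sum_congr rfl fun j _ => hm'j j
    omega
  have hline : ∀ t : Fin 3 → F, (t 1 ≠ 0 ∨ t 2 ≠ 0) → On (im j₀) t →
      ∑ P ∈ (Q'.erase (im j₀)).filter (fun P => On P t), (m' P - 1) + m' (im j₀) + 1 ≤ d := by
    intro t ht hjt
    have h2 : (Q'.erase (im j₀)).filter (fun P => On P t) =
        ((Finset.univ.erase j₀).filter (fun j => On (im j) t)).image im := by
      ext P
      simp only [hQ', Finset.mem_filter, Finset.mem_erase, Finset.mem_image, Finset.mem_univ,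
        true_and, and_true]
      constructor
      · rintro ⟨⟨h3, j, rfl⟩, h4⟩
        exact ⟨j, ⟨fun h5 => h3 (by rw [h5]), h4⟩, rfl⟩
      · rintro ⟨j, ⟨h3, h4⟩, rfl⟩
        exact ⟨⟨fun h5 => h3 (him h5), j, rfl⟩, h4⟩
    rw [h2, Finset.sum_image fun x _ y _ h => him h, Finset.sum_congr rfl fun j _ => by
      rw [hm'j j], hm'j]
    rcases ((Finset.univ.erase j₀).filter (fun j => On (im j) t)).eq_empty_or_nonempty with h3 | h3
    · rw [h3, Finset.sum_empty]
      omega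
    · obtain ⟨j₁, hj₁⟩ := h3
      obtain ⟨hj₁, hj₁t⟩ := Finset.mem_filter.1 hj₁
      have hne : pt j₀ ≠ pt j₁ := fun h => (Finset.mem_erase.1 hj₁).1 (hpt h).symm
      have h4 := line_ineq l hind β h0 h1 d hd (Finset.univ.image pt) m
        (fun P hP => by
          obtain ⟨j, -, rfl⟩ := Finset.mem_image.1 hP
          exact hm j) (pt j₀) (Finset.mem_image_of_mem _ (Finset.mem_univ _)) hpd
        (A12_ln (pt j₀) (pt j₁)) (A12_ln_ne hne) ((A12_on_iff _ _ _).2 (by ring))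
      refine le_trans ?_ h4
      have h5 : ∑ j ∈ (Finset.univ.erase j₀).filter (fun j => On (im j) t), (m (pt j) - 1) ≤
          ∑ P ∈ ((Finset.univ.image pt).erase (pt j₀)).filter
            (fun P => On P (A12_ln (pt j₀) (pt j₁))), (m P - 1) := by
        rw [← Finset.sum_image (f := fun P => m P - 1) (g := pt) fun x _ y _ h => hpt h]
        refine Finset.sum_le_sum_of_subset ?_
        intro P hP
        obtain ⟨j, hj, rfl⟩ := Finset.mem_image.1 hP
        obtain ⟨h6, h7⟩ := Finset.mem_filter.1 hj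
        refine Finset.mem_filter.2 ⟨Finset.mem_erase.2 ⟨fun h => (Finset.mem_erase.1 h6).1 (hpt h),
          Finset.mem_image_of_mem _ (Finset.mem_univ _)⟩, ?_⟩
        exact hdet _ _ _ (A12_three ht hjt hj₁t h7)
      omega
  have key := SurjP.of_surj (surj_char ℓ hk l' hl' hind' e heℓ d hed Q' m' hmF (im j₀)
    (Finset.mem_image_of_mem _ (Finset.mem_univ _)) hbig' hline)
  intro f
  obtain ⟨h, hh, hf⟩ := key (Function.extend im f 0)
  refine ⟨h, hh, fun j => ?_⟩
  have h2 := hf (im j) (Finset.mem_image_of_mem _ (Finset.mem_univ _))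
  rw [him.extend_apply] at h2
  have h3 : (if im j = im j₀ then m' (im j) else m' (im j) - 1) =
      if j = j₀ then m (pt j) else m (pt j) - 1 := by
    rw [hm'j]
    by_cases h4 : j = j₀
    · rw [if_pos h4, if_pos (by rw [h4])]
    · rw [if_neg h4, if_neg fun h5 => h4 (him h5)]
  rw [← h3]
  exact h2

open Classical in
theorem surj_C {k : ℕ} (l : Fin k → Fin 3 → ℂ) (hl : ∀ i, l i 1 ≠ 0 ∨ l i 2 ≠ 0)
    (hind : ∀ i j, i ≠ j → LinearIndependent ℂ ![l i, l j])
    (β : Fin k → ℚ) (h0 : ∀ i, 0 ≤ β i) (h1 : ∀ i, β i < 1) (d : ℕ) (hd : ∑ i, β i = d)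
    (Q : Finset (Fin 2 → ℂ)) (m : (Fin 2 → ℂ) → ℕ)
    (hm : ∀ P ∈ Q, (m P : ℤ) = ⌊∑ i ∈ Finset.univ.filter (fun i => On P (l i)), β i⌋)
    (p : Fin 2 → ℂ) (hp : p ∈ Q) (hpd : m p < d) :
    Surj Q (fun P => if P = p then m P else m P - 1) (d + 1) := by
  -- the family of points
  set pt : Fin Q.card → Fin 2 → ℂ := fun j => (Q.equivFin.symm j).1 with hptdef
  have hpt : Function.Injective pt := fun a b h =>
    Q.equivFin.symm.injective (Subtype.ext h)
  have hptQ : ∀ j, pt j ∈ Q := fun j => (Q.equivFin.symm j).2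
  have hsurj : ∀ P ∈ Q, ∃ j, pt j = P := fun P hP =>
    ⟨Q.equivFin ⟨P, hP⟩, by rw [hptdef]; simp⟩
  obtain ⟨j₀, hj₀⟩ := hsurj p hp
  -- the finite set
  set T₀ : Finset ℂ := (Finset.univ.image fun x : Fin k × Fin 3 => l x.1 x.2) ∪
    (Finset.univ.image fun x : Fin Q.card × Fin 2 => pt x.1 x.2) with hT₀
  set T₁ : Finset ℂ := (Finset.univ.image fun x : Fin k × Fin 3 => l x.1 x.2) ∪
    (Finset.univ.image fun x : Fin Q.card × Fin Q.card × Fin 2 => pt x.1 x.2.2 - pt x.2.1 x.2.2) ∪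
    (Finset.univ.image fun x : (Fin k × Fin k) × (Fin 3 × Fin 3) =>
      l x.1.1 x.2.1 * l x.1.2 x.2.2 - l x.1.1 x.2.2 * l x.1.2 x.2.1) ∪
    (Finset.univ.image fun x : Fin Q.card × Fin Q.card × Fin Q.card =>
      pt x.1 0 * pt x.2.1 1 - pt x.1 1 * pt x.2.1 0 + (pt x.1 1 - pt x.2.1 1) * pt x.2.2 0 +
        (pt x.2.1 0 - pt x.1 0) * pt x.2.2 1) with hT₁
  set S : Finset ℂ := T₀ ∪ T₁.image (fun x => x⁻¹) with hS
  have hlR : ∀ i t, l i t ∈ Algebra.adjoin ℤ (S : Set ℂ) := fun i t =>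
    Algebra.subset_adjoin (Finset.mem_coe.2 (Finset.mem_union_left _ (Finset.mem_union_left _
      (Finset.mem_image_of_mem (fun x : Fin k × Fin 3 => l x.1 x.2) (Finset.mem_univ (i, t))))))
  have hpR : ∀ j t, pt j t ∈ Algebra.adjoin ℤ (S : Set ℂ) := fun j t =>
    Algebra.subset_adjoin (Finset.mem_coe.2 (Finset.mem_union_left _ (Finset.mem_union_right _
      (Finset.mem_image_of_mem (fun x : Fin Q.card × Fin 2 => pt x.1 x.2)
        (Finset.mem_univ (j, t))))))
  have hinv : ∀ x ∈ T₁, x⁻¹ ∈ Algebra.adjoin ℤ (S : Set ℂ) := fun x hx =>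
    Algebra.subset_adjoin (Finset.mem_coe.2 (Finset.mem_union_right _
      (Finset.mem_image_of_mem _ hx)))
  obtain ⟨N, hN, hred⟩ := exists_red S
  -- the prime
  set n' : ℕ := ∏ i, (β i).den with hn'
  have hn'0 : n' ≠ 0 := Finset.prod_ne_zero_iff.2 fun i _ => (β i).den_ne_zero
  have hden : ∀ i, ∃ b : ℕ, (n' : ℚ) * β i = b := by
    intro i
    obtain ⟨c, hc⟩ : (β i).den ∣ n' := Finset.dvd_prod_of_mem _ (Finset.mem_univ i)
    have h2 : (0 : ℤ) ≤ (β i).num := Rat.num_nonneg.2 (h0 i)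
    refine ⟨c * (β i).num.toNat, ?_⟩
    have h3 : ((β i).num.toNat : ℚ) = (β i).num := by exact_mod_cast Int.toNat_of_nonneg h2
    rw [hc, Nat.cast_mul, Nat.cast_mul, h3]
    have h4 : ((β i).den : ℚ) * β i = (β i).num := by
      rw [mul_comm]
      exact Rat.mul_den_eq_num _
    linear_combination (c : ℚ) * h4
  choose b hb using hden
  obtain ⟨ℓ, hℓ, hℓN, hℓ1⟩ := Nat.exists_prime_gt_modEq_one (k := n')
    (N + k + ∑ j, m (pt j) + 1) hn'0
  haveI : Fact ℓ.Prime := ⟨hℓ⟩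
  obtain ⟨c, hc⟩ : n' ∣ ℓ - 1 := (Nat.modEq_iff_dvd' hℓ.one_lt.le).1 hℓ1.symm
  obtain ⟨F, _, _, _, φ, hφ⟩ := hred ℓ hℓ fun h => by
    have := Nat.le_of_dvd hN h
    omega
  -- the images
  set im : Fin Q.card → Fin 2 → F := fun j t => φ ⟨pt j t, hpR j t⟩ with him
  set l' : Fin k → Fin 3 → F := fun i t => φ ⟨l i t, hlR i t⟩ with hl'
  have hne : ∀ (x : Algebra.adjoin ℤ (S : Set ℂ)), (x : ℂ) ∈ T₁ → (x : ℂ) ≠ 0 → φ x ≠ 0 := by
    intro x hx hx0 h
    have h2 : x * ⟨(x : ℂ)⁻¹, hinv _ hx⟩ = 1 := Subtype.ext (mul_inv_cancel₀ hx0)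
    have h3 := congrArg φ h2
    rw [map_mul, h, zero_mul, map_one] at h3
    exact zero_ne_one h3
  have himinj : Function.Injective im := by
    intro a a' h
    by_contra hab
    obtain ⟨t, ht⟩ := Function.ne_iff.1 (hpt.ne hab)
    refine hne (⟨pt a t, hpR a t⟩ - ⟨pt a' t, hpR a' t⟩) ?_ (sub_ne_zero.2 ht) ?_
    · refine Finset.mem_union_left _ (Finset.mem_union_left _ (Finset.mem_union_right _ ?_))
      exact Finset.mem_image.2 ⟨(a, a', t), Finset.mem_univ _, rfl⟩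
    · rw [map_sub, sub_eq_zero]
      exact congrFun h t
  have hl'ne : ∀ i t, l i t ≠ 0 → l' i t ≠ 0 := by
    intro i t h
    refine hne ⟨l i t, hlR i t⟩ ?_ h
    refine Finset.mem_union_left _ (Finset.mem_union_left _ (Finset.mem_union_left _ ?_))
    exact Finset.mem_image.2 ⟨(i, t), Finset.mem_univ _, rfl⟩
  have hind' : ∀ i j, i ≠ j → LinearIndependent F ![l' i, l' j] := by
    intro i j hij
    obtain ⟨a, a', h⟩ := A12_minor (hind i j hij)
    refine A12_indep (a := a) (b := a') ?_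
    have h2 := hne (⟨l i a, hlR i a⟩ * ⟨l j a', hlR j a'⟩ - ⟨l i a', hlR i a'⟩ * ⟨l j a, hlR j a⟩)
      ?_ h
    · rw [map_sub, map_mul, map_mul] at h2
      exact h2
    · refine Finset.mem_union_left _ (Finset.mem_union_right _ ?_)
      exact Finset.mem_image.2 ⟨((i, j), (a, a')), Finset.mem_univ _, rfl⟩
  have hOn : ∀ j i, On (pt j) (l i) → On (im j) (l' i) := by
    intro j i h
    have h2 : (⟨l i 0, hlR i 0⟩ + ⟨l i 1, hlR i 1⟩ * ⟨pt j 0, hpR j 0⟩ +
        ⟨l i 2, hlR i 2⟩ * ⟨pt j 1, hpR j 1⟩ : Algebra.adjoin ℤ (S : Set ℂ)) = 0 :=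
      Subtype.ext h
    have h3 := congrArg φ h2
    rw [map_add, map_add, map_mul, map_mul, map_zero] at h3
    exact h3
  have hdet : ∀ a b c, On (im c) (A12_ln (im a) (im b)) → On (pt c) (A12_ln (pt a) (pt b)) := by
    intro a a' a'' h
    rw [A12_on_iff] at h ⊢
    by_contra hcon
    have h2 := hne (⟨pt a 0, hpR a 0⟩ * ⟨pt a' 1, hpR a' 1⟩ -
      ⟨pt a 1, hpR a 1⟩ * ⟨pt a' 0, hpR a' 0⟩ +
      (⟨pt a 1, hpR a 1⟩ - ⟨pt a' 1, hpR a' 1⟩) * ⟨pt a'' 0, hpR a'' 0⟩ +
      (⟨pt a' 0, hpR a' 0⟩ - ⟨pt a 0, hpR a 0⟩) * ⟨pt a'' 1, hpR a'' 1⟩) ?_ hcon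
    · apply h2
      simp only [map_add, map_sub, map_mul]
      exact h
    · refine Finset.mem_union_right _ ?_
      exact Finset.mem_image.2 ⟨(a, a', a''), Finset.mem_univ _, rfl⟩
  have he : ∀ i, ((c * b i : ℕ) : ℚ) = (ℓ - 1 : ℕ) * β i := by
    intro i
    rw [hc, Nat.cast_mul, Nat.cast_mul, ← hb i]
    ring
  have keyF := A12_F pt l im l' hpt himinj hind (fun i => (hl i).imp (hl'ne i 1) (hl'ne i 2)) hind'
    hOn hdet β h0 h1 d hd (fun i => c * b i) he m (fun j => hm _ (hptQ j)) j₀ (by rw [hj₀]; exact hpd)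
    (by omega) (by omega)
  have keyC := surjP_transfer (Algebra.adjoin ℤ (S : Set ℂ)).toSubring F φ hφ
    (fun j t => ⟨pt j t, hpR j t⟩) (fun j => if j = j₀ then m (pt j) else m (pt j) - 1) (d + 1)
    himinj keyF
  intro f
  obtain ⟨h, hh, hf⟩ := keyC fun _ => f
  refine ⟨h, hh, ?_⟩
  unfold fatI
  simp only [Submodule.mem_iInf]
  intro P hP
  obtain ⟨j, rfl⟩ := hsurj P hP
  have h2 := hf j
  have h3 : (if pt j = p then m (pt j) else m (pt j) - 1) =
      if j = j₀ then m (pt j) else m (pt j) - 1 := by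
    by_cases h4 : j = j₀
    · rw [if_pos h4, if_pos (by rw [h4, hj₀])]
    · rw [if_neg h4, if_neg fun h5 => h4 (hpt (h5.trans hj₀.symm))]
  rw [h3]
  exact h2

end HKR
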