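import Pool.Agent.Lib.HKR.A1
/-!
HKR.A2.  Duality, both directions (Q a finite set of points, 𝔄 = (A(x),B(y)) inside the fat ideal).
(a) If Surj Q μ D, and C satisfies C*h ∈ abI A B for all h ∈ fatI Q μ, and
    totalDegree C + D ≤ deg A + deg B, then C ∈ abI A B.
    Proof: for f write f = h + j, (h = 0 or deg h + 3 ≤ D), j ∈ fatI: res (C f) = res (C h) + res (C j) = 0:
    totalDegree (C h) ≤ totalDegree C + totalDegree h ≤ α+β-3, and C j ∈ abI.  Use (iv).
    (If deg A = 0 or deg B = 0 the ideal is ⊤.)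
(b) Conversely if abI A B ≤ fatI Q μ and every C with these two properties lies in abI A B, then
    Surj Q μ D.  Proof: let U := {h + j}, a subspace (polynomials of degree ≤ D-3, or 0, plus fatI).  If
    U ≠ ⊤ there is a functional η ≠ 0 vanishing on U (Submodule.exists_le_ker_of_notMem or similar);
    by (v) η = res (c ·).  WLOG nothing else: c h ∈ abI for h ∈ fatI, as res (c h h') = η (h h') = 0 for all h'.
    Degree: replace c by a representative modulo abI of minimal total degree; claim
    totalDegree c + D ≤ α + β.  If not, take the reduced representative: c = Σ_{i<α,j<β} c_ij x^i y^j and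
    (i,j) with c_ij ≠ 0, i + j = totalDegree c maximal, i + j + D > α + β; h := x^(α-1-i) y^(β-1-j) has
    degree α+β-2-(i+j) ≤ D-3, so η h = 0; but res (c h) = c_ij by (ii),(iii).  Contradiction.
    So c ∈ abI, η = 0, contradiction.
-/
open MvPolynomial
namespace HKR
variable {F : Type} [Field F]

private theorem uni_mul_mem {A B : Polynomial F} (p : MvPolynomial (Fin 2) F) :
    uni 0 A * p ∈ abI A B :=
  Ideal.mul_mem_right _ _ (Ideal.subset_span (by simp))

private theorem uni_mul_mem' {A B : Polynomial F} (p : MvPolynomial (Fin 2) F) :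
    uni 1 B * p ∈ abI A B :=
  Ideal.mul_mem_right _ _ (Ideal.subset_span (by simp))

private theorem abI_top_left {A B : Polynomial F} (hA : A.Monic) (h : A.natDegree = 0) :
    abI A B = ⊤ := by
  have h1 : A = 1 := Polynomial.eq_one_of_monic_natDegree_zero hA h
  rw [Ideal.eq_top_iff_one]
  have := uni_mul_mem (A := A) (B := B) 1
  simpa [h1, uni] using this

private theorem abI_top_right {A B : Polynomial F} (hB : B.Monic) (h : B.natDegree = 0) :
    abI A B = ⊤ := by
  have h1 : B = 1 := Polynomial.eq_one_of_monic_natDegree_zero hB h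
  rw [Ideal.eq_top_iff_one]
  have := uni_mul_mem' (A := A) (B := B) 1
  simpa [h1, uni] using this

theorem mem_abI_of_surj {Q : Finset (Fin 2 → F)} {μ : (Fin 2 → F) → ℕ} {D : ℕ}
    (hS : Surj Q μ D) (A B : Polynomial F) (hA : A.Monic) (hB : B.Monic)
    (c : MvPolynomial (Fin 2) F) (hc : ∀ h ∈ fatI Q μ, c * h ∈ abI A B)
    (hd : c.totalDegree + D ≤ A.natDegree + B.natDegree) : c ∈ abI A B := by
  rcases Nat.eq_zero_or_pos A.natDegree with hα | hα
  · rw [abI_top_left hA hα]; trivial
  rcases Nat.eq_zero_or_pos B.natDegree with hβ | hβ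
  · rw [abI_top_right hB hβ]; trivial
  obtain ⟨res, h1, h2, -, h4, -⟩ := exists_res A B hA hB hα hβ
  apply h4
  intro f
  obtain ⟨h, hh, hf⟩ := hS f
  have e1 : c * f = c * h + c * (f - h) := by ring
  rw [e1, map_add, h1 _ (hc _ hf), add_zero]
  rcases hh with rfl | hh
  · simp
  · apply h2
    have := MvPolynomial.totalDegree_mul c h
    omega

private theorem degreeOf_uni_self (i : Fin 2) (p : Polynomial F) :
    degreeOf i (uni i p) ≤ p.natDegree := by
  unfold uni
  rw [Polynomial.aeval_eq_sum_range]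
  refine (degreeOf_sum_le _ _ _).trans ?_
  refine Finset.sup_le ?_
  intro k hk
  rw [Finset.mem_range] at hk
  rw [Algebra.smul_def, MvPolynomial.algebraMap_eq]
  refine (degreeOf_C_mul_le _ _ _).trans ?_
  refine (degreeOf_pow_le _ _ _).trans ?_
  have : degreeOf i (X i : MvPolynomial (Fin 2) F) ≤ 1 := by
    rw [degreeOf_X]; simp
  calc k * degreeOf i (X i : MvPolynomial (Fin 2) F) ≤ k * 1 := Nat.mul_le_mul_left _ this
    _ ≤ p.natDegree := by omega

private theorem degreeOf_uni_ne {i j : Fin 2} (hij : i ≠ j) (p : Polynomial F) :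
    degreeOf i (uni j p) = 0 := by
  apply Nat.eq_zero_of_le_zero
  unfold uni
  rw [Polynomial.aeval_eq_sum_range]
  refine (degreeOf_sum_le _ _ _).trans ?_
  refine Finset.sup_le ?_
  intro k _
  rw [Algebra.smul_def, MvPolynomial.algebraMap_eq]
  refine (degreeOf_C_mul_le _ _ _).trans ?_
  refine (degreeOf_pow_le _ _ _).trans ?_
  rw [degreeOf_X_of_ne hij]
  simp

private theorem uni_div {i : Fin 2} {A : Polynomial F} (k : ℕ) :
    (X i : MvPolynomial (Fin 2) F) ^ k =
      uni i (Polynomial.X ^ k %ₘ A) + uni i A * uni i (Polynomial.X ^ k /ₘ A) := by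
  have h := congrArg (uni i)
    (Polynomial.modByMonic_add_div (Polynomial.X ^ k : Polynomial F) A)
  have h' : uni i (Polynomial.X ^ k : Polynomial F) = (X i : MvPolynomial (Fin 2) F) ^ k := by
    simp [uni]
  rw [h'] at h
  rw [← h]
  simp [uni]

private theorem exists_reduced (A B : Polynomial F) (hA : A.Monic) (hB : B.Monic)
    (hα : 1 ≤ A.natDegree) (hβ : 1 ≤ B.natDegree) (c : MvPolynomial (Fin 2) F) :
    ∃ c', c - c' ∈ abI A B ∧ degreeOf 0 c' < A.natDegree ∧ degreeOf 1 c' < B.natDegree := by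
  induction c using MvPolynomial.induction_on' with
  | monomial u a =>
    have hA1 : A ≠ 1 := by rintro rfl; simp at hα
    have hB1 : B ≠ 1 := by rintro rfl; simp at hβ
    refine ⟨C a * (uni 0 (Polynomial.X ^ u 0 %ₘ A) * uni 1 (Polynomial.X ^ u 1 %ₘ B)), ?_, ?_, ?_⟩
    · have e0 := uni_div (i := 0) (A := A) (u 0)
      have e1 := uni_div (i := 1) (A := B) (u 1)
      have e2 : (monomial u a : MvPolynomial (Fin 2) F) = C a * (X 0 ^ u 0 * X 1 ^ u 1) := by
        rw [MvPolynomial.monomial_eq]
        simp [Finsupp.prod_fintype]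
      rw [e2, e0, e1]
      have e3 : C a * ((uni 0 (Polynomial.X ^ u 0 %ₘ A) + uni 0 A * uni 0 (Polynomial.X ^ u 0 /ₘ A)) *
          (uni 1 (Polynomial.X ^ u 1 %ₘ B) + uni 1 B * uni 1 (Polynomial.X ^ u 1 /ₘ B))) -
          C a * (uni 0 (Polynomial.X ^ u 0 %ₘ A) * uni 1 (Polynomial.X ^ u 1 %ₘ B)) =
          uni 0 A * (C a * uni 0 (Polynomial.X ^ u 0 /ₘ A) *
            (uni 1 (Polynomial.X ^ u 1 %ₘ B) + uni 1 B * uni 1 (Polynomial.X ^ u 1 /ₘ B))) +
          uni 1 B * (C a * uni 0 (Polynomial.X ^ u 0 %ₘ A) * uni 1 (Polynomial.X ^ u 1 /ₘ B)) := by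
        ring
      rw [e3]
      exact Ideal.add_mem _ (uni_mul_mem _) (uni_mul_mem' _)
    · refine lt_of_le_of_lt ((degreeOf_C_mul_le _ _ _).trans (degreeOf_mul_le _ _ _)) ?_
      rw [degreeOf_uni_ne (by decide : (0 : Fin 2) ≠ 1), add_zero]
      exact lt_of_le_of_lt (degreeOf_uni_self 0 _) (Polynomial.natDegree_modByMonic_lt _ hA hA1)
    · refine lt_of_le_of_lt ((degreeOf_C_mul_le _ _ _).trans (degreeOf_mul_le _ _ _)) ?_
      rw [degreeOf_uni_ne (by decide : (1 : Fin 2) ≠ 0), zero_add]
      exact lt_of_le_of_lt (degreeOf_uni_self 1 _) (Polynomial.natDegree_modByMonic_lt _ hB hB1)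
  | add p q hp hq =>
    obtain ⟨p', hp1, hp2, hp3⟩ := hp
    obtain ⟨q', hq1, hq2, hq3⟩ := hq
    refine ⟨p' + q', ?_, ?_, ?_⟩
    · have : p + q - (p' + q') = (p - p') + (q - q') := by ring
      rw [this]
      exact Ideal.add_mem _ hp1 hq1
    · exact lt_of_le_of_lt (degreeOf_add_le _ _ _) (max_lt hp2 hq2)
    · exact lt_of_le_of_lt (degreeOf_add_le _ _ _) (max_lt hp3 hq3)

/-- the test of a top coefficient -/
private theorem res_top (A B : Polynomial F) (res : MvPolynomial (Fin 2) F →ₗ[F] F)
    (h2 : ∀ f : MvPolynomial (Fin 2) F, f.totalDegree + 3 ≤ A.natDegree + B.natDegree → res f = 0)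
    (h3 : ∀ i j : ℕ, i + j + 2 = A.natDegree + B.natDegree →
        res (X 0 ^ i * X 1 ^ j) = if i + 1 = A.natDegree then 1 else 0)
    (c : MvPolynomial (Fin 2) F) (m : Fin 2 →₀ ℕ) (hm : m 0 + m 1 = c.totalDegree)
    (hi : m 0 < A.natDegree) (hj : m 1 < B.natDegree) :
    res (c * (X 0 ^ (A.natDegree - 1 - m 0) * X 1 ^ (B.natDegree - 1 - m 1))) = coeff m c := by
  set a := A.natDegree - 1 - m 0 with ha
  set b := B.natDegree - 1 - m 1 with hb
  have key : ∀ u ∈ c.support, res (monomial u (coeff u c) * (X 0 ^ a * X 1 ^ b)) =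
      if u = m then coeff u c else 0 := by
    intro u hu
    have hud : u 0 + u 1 ≤ c.totalDegree := by
      have := MvPolynomial.le_totalDegree hu
      rwa [Finsupp.sum_fintype _ _ (by simp), Fin.sum_univ_two] at this
    have e2 : (monomial u (coeff u c) : MvPolynomial (Fin 2) F) * (X 0 ^ a * X 1 ^ b) =
        (coeff u c) • (X 0 ^ (u 0 + a) * X 1 ^ (u 1 + b)) := by
      rw [MvPolynomial.monomial_eq, MvPolynomial.smul_eq_C_mul]
      simp only [Finsupp.prod_fintype, pow_zero, implies_true, Fin.prod_univ_two]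
      ring
    rw [e2, map_smul, smul_eq_mul]
    rcases lt_or_eq_of_le hud with hlt | heq
    · rw [h2 _ ?_, mul_zero, if_neg]
      · rintro rfl; omega
      · have h5 := MvPolynomial.totalDegree_mul
          ((X 0 : MvPolynomial (Fin 2) F) ^ (u 0 + a)) (X 1 ^ (u 1 + b))
        have h6 := MvPolynomial.totalDegree_X_pow (R := F) (0 : Fin 2) (u 0 + a)
        have h7 := MvPolynomial.totalDegree_X_pow (R := F) (1 : Fin 2) (u 1 + b)
        omega
    · rw [h3 _ _ (by omega)]
      by_cases hum : u = m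
      · subst hum
        rw [if_pos (by omega), if_pos rfl, mul_one]
      · rw [if_neg, if_neg hum, mul_zero]
        intro h8
        apply hum
        have h9 : u 0 = m 0 := by omega
        have h10 : u 1 = m 1 := by omega
        ext t
        fin_cases t
        · exact h9
        · exact h10
  conv_lhs => rw [MvPolynomial.as_sum c]
  rw [Finset.sum_mul, map_sum, Finset.sum_congr rfl key, Finset.sum_ite_eq' c.support m]
  split_ifs with hms
  · rfl
  · exact (MvPolynomial.notMem_support_iff.mp hms).symm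

theorem surj_of_mem_abI {Q : Finset (Fin 2 → F)} {μ : (Fin 2 → F) → ℕ} {D : ℕ}
    (A B : Polynomial F) (hA : A.Monic) (hB : B.Monic) (hle : abI A B ≤ fatI Q μ)
    (H : ∀ c : MvPolynomial (Fin 2) F, (∀ h ∈ fatI Q μ, c * h ∈ abI A B) →
      c.totalDegree + D ≤ A.natDegree + B.natDegree → c ∈ abI A B) : Surj Q μ D := by
  rcases Nat.eq_zero_or_pos A.natDegree with hα | hα
  · intro f
    refine ⟨0, Or.inl rfl, hle ?_⟩
    rw [abI_top_left hA hα]; trivial
  rcases Nat.eq_zero_or_pos B.natDegree with hβ | hβ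
  · intro f
    refine ⟨0, Or.inl rfl, hle ?_⟩
    rw [abI_top_right hB hβ]; trivial
  obtain ⟨res, h1, h2, h3, h4, h5⟩ := exists_res A B hA hB hα hβ
  intro f
  -- the subspace
  let V : Submodule F (MvPolynomial (Fin 2) F) :=
    { carrier := {h | h = 0 ∨ h.totalDegree + 3 ≤ D}
      zero_mem' := Or.inl rfl
      add_mem' := by
        rintro p q (rfl | hp) (rfl | hq)
        · left; simp
        · right; simpa using hq
        · right; simpa using hp
        · right
          have := MvPolynomial.totalDegree_add p q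
          have h' : max p.totalDegree q.totalDegree + 3 ≤ D := by omega
          omega
      smul_mem' := by
        rintro a p (rfl | hp)
        · left; simp
        · right
          have := MvPolynomial.totalDegree_smul_le a p
          omega }
  let W : Submodule F (MvPolynomial (Fin 2) F) := V ⊔ (fatI Q μ).restrictScalars F
  by_cases hfW : f ∈ W
  · obtain ⟨h, hh, j, hj, rfl⟩ := Submodule.mem_sup.mp hfW
    refine ⟨h, hh, ?_⟩
    rw [add_sub_cancel_left]
    exact hj
  · exfalso
    obtain ⟨η, hηf, hηW⟩ := Submodule.exists_le_ker_of_notMem hfW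
    have hηfat : ∀ h ∈ fatI Q μ, η h = 0 := fun h hh =>
      hηW (Submodule.mem_sup_right (by exact hh))
    have hηV : ∀ h : MvPolynomial (Fin 2) F, h.totalDegree + 3 ≤ D → η h = 0 := fun h hh =>
      hηW (Submodule.mem_sup_left (Or.inr hh))
    obtain ⟨c, hc⟩ := h5 η (fun g hg => hηfat g (hle hg))
    have hcfat : ∀ h ∈ fatI Q μ, c * h ∈ abI A B := by
      intro h hh
      apply h4
      intro g
      rw [mul_assoc, ← hc]
      exact hηfat _ (Ideal.mul_mem_right _ _ hh)
    obtain ⟨c', hcc, hc0, hc1⟩ := exists_reduced A B hA hB hα hβ c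
    have hres : ∀ h, res (c' * h) = η h := by
      intro h
      have e : c' * h = c * h - (c - c') * h := by ring
      rw [e, map_sub, h1 _ (Ideal.mul_mem_right _ _ hcc), sub_zero, ← hc]
    have hc'fat : ∀ h ∈ fatI Q μ, c' * h ∈ abI A B := by
      intro h hh
      have e : c' * h = c * h - (c - c') * h := by ring
      rw [e]
      exact Ideal.sub_mem _ (hcfat h hh) (Ideal.mul_mem_right _ _ hcc)
    have hc'mem : c' ∈ abI A B := by
      by_cases hz : c' = 0
      · rw [hz]; exact Ideal.zero_mem _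
      apply H c' hc'fat
      by_contra hlt
      push Not at hlt
      obtain ⟨m, hm, hmd⟩ : ∃ m ∈ c'.support, m 0 + m 1 = c'.totalDegree := by
        have hne : c'.support.Nonempty := MvPolynomial.support_nonempty.mpr hz
        obtain ⟨m, hm, hmd⟩ := Finset.exists_mem_eq_sup c'.support hne
          (fun s => s.sum fun _ e => e)
        refine ⟨m, hm, ?_⟩
        rw [MvPolynomial.totalDegree, hmd, Finsupp.sum_fintype _ _ (by simp), Fin.sum_univ_two]
      have hm0 : m 0 < A.natDegree := lt_of_le_of_lt (MvPolynomial.le_degreeOf_of_mem_support 0 hm) hc0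
      have hm1 : m 1 < B.natDegree := lt_of_le_of_lt (MvPolynomial.le_degreeOf_of_mem_support 1 hm) hc1
      have hr := res_top A B res h2 h3 c' m hmd hm0 hm1
      rw [hres] at hr
      have hz' : η (X 0 ^ (A.natDegree - 1 - m 0) * X 1 ^ (B.natDegree - 1 - m 1)) = 0 := by
        apply hηV
        have h5 := MvPolynomial.totalDegree_mul
          ((X 0 : MvPolynomial (Fin 2) F) ^ (A.natDegree - 1 - m 0))
          (X 1 ^ (B.natDegree - 1 - m 1))
        have h6 := MvPolynomial.totalDegree_X_pow (R := F) (0 : Fin 2) (A.natDegree - 1 - m 0)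
        have h7 := MvPolynomial.totalDegree_X_pow (R := F) (1 : Fin 2) (B.natDegree - 1 - m 1)
        omega
      rw [hz'] at hr
      exact (MvPolynomial.mem_support_iff.mp hm) hr.symm
    apply hηf
    rw [← hres]
    exact h1 _ (Ideal.mul_mem_right _ _ hc'mem)

end HKR
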