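import Pool.Agent.Lib.HKR.ADefs
/-!
HKR.A3 (Horace step).  g a line (l 1, l 2 not both 0).  If Σ_{P ∈ Q on g} μ P + 2 ≤ D and
SurjP Q μ' (D-1), where μ' P = μ P - 1 on g and μ' P = μ P off g, then SurjP Q μ D.
PROOF.  Given germs f P.  Choose a parametrisation T ↦ P0 + T v of g (v = (-l 2, l 1) ≠ 0) and a linear
polynomial τ in x, y with τ(P0 + T v) = T.
(1) CRT in one variable: r : F[X], degree < Σ_{P on g} μ P, with r ≡ (f P)(P0 + X v) mod (X - T_P)^(μ P) for
    the P ∈ Q on g (T_P the parameter of P, distinct).  If the sum is 0 take r = 0.  h0 := r(τ): h0 = 0 or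
    totalDegree h0 + 3 ≤ D  (deg r ≤ Σ - 1 ≤ D - 3).
(2) For P on g: f P - h0 restricted to g is divisible by (X - T_P)^(μ P).  Every polynomial u is
    u(P0 + τ v) + al g * u' (the kernel of restriction to the line is generated by al g).  So
    f P - h0 = (τ - T_P)^(μ P) * (...) + al g * k P, and (τ - T_P) ∈ pI P.
    For P off g: al g is invertible modulo pI P ^ μ P (al g = value + element of pI P, value ≠ 0; or:
    IsCoprime), so f P - h0 - al g * k P ∈ pI P ^ μ P for some k P.
(3) Apply SurjP Q μ' (D-1) to k: h1; h := h0 + al g * h1.  f P - h = (f P - h0 - al g * k P) +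
    al g * (k P - h1), in pI P ^ μ P: on g al g ∈ pI P and μ P ≤ (μ P - 1) + 1.  totalDegree ≤ 1 + deg h1.
-/
open MvPolynomial
namespace HKR
variable {F : Type} [Field F]

private theorem A3_sub_eval_mem (P : Fin 2 → F) (u : MvPolynomial (Fin 2) F) :
    u - C (eval P u) ∈ pI P := by
  have key : (Ideal.Quotient.mkₐ F (pI P)) =
      (Algebra.ofId F (MvPolynomial (Fin 2) F ⧸ pI P)).comp (aeval P) := by
    apply MvPolynomial.algHom_ext
    intro i
    have hi : (X i - C (P i) : MvPolynomial (Fin 2) F) ∈ pI P := by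
      apply Ideal.subset_span
      fin_cases i <;> simp
    have h1 : Ideal.Quotient.mk (pI P) (X i) = Ideal.Quotient.mk (pI P) (C (P i)) :=
      Ideal.Quotient.eq.2 hi
    simp only [Ideal.Quotient.mkₐ_eq_mk, AlgHom.comp_apply, aeval_X]
    rw [h1]
    rfl
  have h2 := congrArg (fun φ => φ u) key
  simp only [Ideal.Quotient.mkₐ_eq_mk, AlgHom.comp_apply] at h2
  apply Ideal.Quotient.eq.1
  rw [h2]
  have h3 : (aeval P) u = eval P u := by
    rw [MvPolynomial.aeval_eq_eval]
  rw [h3]
  rfl

private theorem A3_mem_of_eval {P : Fin 2 → F} {u : MvPolynomial (Fin 2) F} (h : eval P u = 0) :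
    u ∈ pI P := by
  have := A3_sub_eval_mem P u
  simpa [h] using this

private theorem A3_eval_al (P : Fin 2 → F) (l : Fin 3 → F) :
    eval P (al l) = l 0 + l 1 * P 0 + l 2 * P 1 := by
  simp only [al, map_add, map_mul, eval_C, eval_X]; ring

private theorem A3_line (l : Fin 3 → F) (hl : l 1 ≠ 0 ∨ l 2 ≠ 0) :
    ∃ (P0 v : Fin 2 → F) (τ : MvPolynomial (Fin 2) F), τ.totalDegree ≤ 1 ∧
      (∀ P, On P l → ∀ i, P i = P0 i + eval P τ * v i) ∧
      (∀ i, ∃ c : F, (X i - C (P0 i) - C (v i) * τ : MvPolynomial (Fin 2) F) = C c * al l) := by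
  rcases hl with h | h
  · refine ⟨![-(l 0) / l 1, 0], ![-(l 2) / l 1, 1], X 1, ?_, ?_, ?_⟩
    · exact (totalDegree_X (R := F) (1 : Fin 2)).le
    · intro P hP i
      unfold On at hP
      fin_cases i
      · simp only [Fin.zero_eta, Fin.isValue, Matrix.cons_val_zero, eval_X]
        field_simp
        linear_combination hP
      · simp
    · intro i
      fin_cases i
      · refine ⟨1 / l 1, ?_⟩
        simp only [Fin.zero_eta, Fin.isValue, Matrix.cons_val_zero, al]
        have e1 : (C (1 / l 1) * (C (l 1) * X 0 + C (l 2) * X 1 + C (l 0)) :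
            MvPolynomial (Fin 2) F) = C (1 / l 1 * l 1) * X 0 + C (1 / l 1 * l 2) * X 1
              + C (1 / l 1 * l 0) := by
          simp only [C_mul]; ring
        rw [e1, one_div_mul_cancel h, C_1]
        have e2 : -(l 0) / l 1 = -(1 / l 1 * l 0) := by ring
        have e3 : -(l 2) / l 1 = -(1 / l 1 * l 2) := by ring
        rw [e2, e3, C_neg, C_neg]
        ring
      · exact ⟨0, by simp⟩
  · refine ⟨![0, -(l 0) / l 2], ![1, -(l 1) / l 2], X 0, ?_, ?_, ?_⟩
    · exact (totalDegree_X (R := F) (0 : Fin 2)).le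
    · intro P hP i
      unfold On at hP
      fin_cases i
      · simp
      · simp only [Fin.mk_one, Fin.isValue, Matrix.cons_val_one, Matrix.cons_val_fin_one, eval_X]
        field_simp
        linear_combination hP
    · intro i
      fin_cases i
      · exact ⟨0, by simp⟩
      · refine ⟨1 / l 2, ?_⟩
        simp only [Fin.mk_one, Fin.isValue, Matrix.cons_val_one, Matrix.cons_val_fin_one, al]
        have e1 : (C (1 / l 2) * (C (l 1) * X 0 + C (l 2) * X 1 + C (l 0)) :
            MvPolynomial (Fin 2) F) = C (1 / l 2 * l 1) * X 0 + C (1 / l 2 * l 2) * X 1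
              + C (1 / l 2 * l 0) := by
          simp only [C_mul]; ring
        rw [e1, one_div_mul_cancel h, C_1]
        have e2 : -(l 0) / l 2 = -(1 / l 2 * l 0) := by ring
        have e3 : -(l 1) / l 2 = -(1 / l 2 * l 1) := by ring
        rw [e2, e3, C_neg, C_neg]
        ring

private theorem A3_lift (l : Fin 3 → F) (P0 v : Fin 2 → F) (τ : MvPolynomial (Fin 2) F)
    (h : ∀ i, ∃ c : F, (X i - C (P0 i) - C (v i) * τ : MvPolynomial (Fin 2) F) = C c * al l)
    (u : MvPolynomial (Fin 2) F) :
    u - Polynomial.aeval τ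
      (aeval (fun i => Polynomial.C (P0 i) + Polynomial.C (v i) * Polynomial.X) u)
      ∈ Ideal.span {al l} := by
  have key : (Ideal.Quotient.mkₐ F (Ideal.span {al l})) =
      (Ideal.Quotient.mkₐ F (Ideal.span {al l})).comp ((Polynomial.aeval τ).comp
      (aeval (fun i => Polynomial.C (P0 i) + Polynomial.C (v i) * Polynomial.X))) := by
    apply MvPolynomial.algHom_ext
    intro i
    simp only [Ideal.Quotient.mkₐ_eq_mk, AlgHom.comp_apply, aeval_X]
    apply Ideal.Quotient.eq.2
    obtain ⟨c, hc⟩ := h i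
    simp only [map_add, map_mul, Polynomial.aeval_C, Polynomial.aeval_X]
    have e : (X i - (algebraMap F (MvPolynomial (Fin 2) F) (P0 i) +
        algebraMap F (MvPolynomial (Fin 2) F) (v i) * τ) : MvPolynomial (Fin 2) F)
        = C c * al l := by
      rw [← hc]
      simp only [MvPolynomial.algebraMap_eq]
      ring
    rw [e]
    exact Ideal.mul_mem_left _ _ (Ideal.subset_span rfl)
  have h2 := congrArg (fun φ => φ u) key
  simp only [Ideal.Quotient.mkₐ_eq_mk, AlgHom.comp_apply] at h2
  exact Ideal.Quotient.eq.1 h2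

private theorem A3_crt (S : Finset (Fin 2 → F)) (t : (Fin 2 → F) → F)
    (ht : ∀ P ∈ S, ∀ P' ∈ S, t P = t P' → P = P') (μ : (Fin 2 → F) → ℕ)
    (g : (Fin 2 → F) → Polynomial F) :
    ∃ r : Polynomial F, (r = 0 ∨ r.natDegree + 1 ≤ ∑ P ∈ S, μ P) ∧
      ∀ P ∈ S, (Polynomial.X - Polynomial.C (t P)) ^ μ P ∣ g P - r := by
  classical
  obtain ⟨r, hr⟩ := Ideal.exists_forall_sub_mem_ideal (ι := S)
    (I := fun P => Ideal.span {(Polynomial.X - Polynomial.C (t P)) ^ μ P})
    (by
      intro P P' hne
      show IsCoprime (Ideal.span _) (Ideal.span _)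
      rw [Ideal.isCoprime_span_singleton_iff]
      apply IsCoprime.pow
      apply Polynomial.isCoprime_X_sub_C_of_isUnit_sub
      rw [isUnit_iff_ne_zero, sub_ne_zero]
      intro hh
      exact hne (Subtype.ext (ht _ P.2 _ P'.2 hh)))
    (fun P => g P)
  set m : Polynomial F := ∏ P ∈ S, (Polynomial.X - Polynomial.C (t P)) ^ μ P with hm
  have hmm : m.Monic := Polynomial.monic_prod_of_monic _ _
    (fun P _ => (Polynomial.monic_X_sub_C _).pow _)
  have hdeg : m.natDegree = ∑ P ∈ S, μ P := by
    rw [hm, Polynomial.natDegree_prod_of_monic _ _ (fun P _ => (Polynomial.monic_X_sub_C _).pow _)]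
    apply Finset.sum_congr rfl
    intro P _
    rw [Polynomial.natDegree_pow, Polynomial.natDegree_X_sub_C, mul_one]
  refine ⟨r %ₘ m, ?_, ?_⟩
  · by_cases h0 : r %ₘ m = 0
    · exact Or.inl h0
    · right
      by_cases hm1 : m = 1
      · exact absurd (by rw [hm1, Polynomial.modByMonic_one]) h0
      · have := Polynomial.natDegree_modByMonic_lt r hmm hm1
        rw [hdeg] at this
        exact this
  · intro P hP
    have h1 : (Polynomial.X - Polynomial.C (t P)) ^ μ P ∣ r - g P := by
      have := hr ⟨P, hP⟩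
      rwa [Ideal.mem_span_singleton] at this
    have h2 : (Polynomial.X - Polynomial.C (t P)) ^ μ P ∣ m :=
      Finset.dvd_prod_of_mem (fun P => (Polynomial.X - Polynomial.C (t P)) ^ μ P) hP
    have h3 : g P - r %ₘ m = m * (r /ₘ m) - (r - g P) := by
      have := Polynomial.modByMonic_add_div r m
      linear_combination (-1 : Polynomial F) * this
    rw [h3]
    exact dvd_sub (h2.mul_right _) h1

private theorem A3_deg_aeval (τ : MvPolynomial (Fin 2) F) (hτ : τ.totalDegree ≤ 1)
    (r : Polynomial F) : (Polynomial.aeval τ r).totalDegree ≤ r.natDegree := by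
  rw [Polynomial.aeval_eq_sum_range]
  apply (totalDegree_finsetSum _ _).trans
  apply Finset.sup_le
  intro i hi
  rw [Finset.mem_range] at hi
  apply (totalDegree_smul_le _ _).trans
  apply (totalDegree_pow _ _).trans
  calc i * τ.totalDegree ≤ i * 1 := Nat.mul_le_mul_left _ hτ
    _ ≤ r.natDegree := by omega

private theorem A3_off {P : Fin 2 → F} {a : MvPolynomial (Fin 2) F} (h : eval P a ≠ 0) (n : ℕ)
    (w : MvPolynomial (Fin 2) F) : ∃ k, w - a * k ∈ pI P ^ n := by
  have htop : Ideal.span {a} ⊔ pI P = ⊤ := by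
    rw [Ideal.eq_top_iff_one]
    have h1 : a - C (eval P a) ∈ pI P := A3_sub_eval_mem P a
    have h2 : (1 : MvPolynomial (Fin 2) F) =
        C (eval P a)⁻¹ * a + (- C (eval P a)⁻¹) * (a - C (eval P a)) := by
      have : (C (eval P a)⁻¹ * C (eval P a) : MvPolynomial (Fin 2) F) = 1 := by
        rw [← C_mul, inv_mul_cancel₀ h, C_1]
      linear_combination -this
    rw [h2]
    apply Submodule.add_mem_sup
    · exact Ideal.mul_mem_left _ _ (Ideal.subset_span rfl)
    · exact Ideal.mul_mem_left _ _ h1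
  have htop2 : Ideal.span {a} ⊔ pI P ^ n = ⊤ := Ideal.sup_pow_eq_top htop
  have h1 : (1 : MvPolynomial (Fin 2) F) ∈ Ideal.span {a} ⊔ pI P ^ n := by
    rw [htop2]; exact Submodule.mem_top
  obtain ⟨x, hx, y, hy, hxy⟩ := Submodule.mem_sup.1 h1
  obtain ⟨c, rfl⟩ := Ideal.mem_span_singleton'.1 hx
  refine ⟨w * c, ?_⟩
  have : w - a * (w * c) = w * y := by linear_combination (-w) * hxy
  rw [this]
  exact Ideal.mul_mem_left _ _ hy

open Classical in
theorem horace {Q : Finset (Fin 2 → F)} {μ : (Fin 2 → F) → ℕ} {D : ℕ} (l : Fin 3 → F)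
    (hl : l 1 ≠ 0 ∨ l 2 ≠ 0)
    (hsum : ∑ P ∈ Q.filter (fun P => On P l), μ P + 2 ≤ D)
    (hS : SurjP Q (fun P => if On P l then μ P - 1 else μ P) (D - 1)) : SurjP Q μ D := by
  intro f
  obtain ⟨P0, v, τ, hτ, hpar, hgen⟩ := A3_line l hl
  obtain ⟨r, hr, hrdiv⟩ := A3_crt (Q.filter (fun P => On P l)) (fun P => eval P τ)
    (by
      intro P hP P' hP' h
      funext i
      rw [hpar P (Finset.mem_filter.1 hP).2 i, hpar P' (Finset.mem_filter.1 hP').2 i]
      rw [h]) μ
    (fun P => aeval (fun i => Polynomial.C (P0 i) + Polynomial.C (v i) * Polynomial.X) (f P))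
  set h0 : MvPolynomial (Fin 2) F := Polynomial.aeval τ r with hh0
  have hdeg0 : h0 = 0 ∨ h0.totalDegree + 3 ≤ D := by
    rcases hr with hr | hr
    · left; rw [hh0, hr, map_zero]
    · right
      have := A3_deg_aeval τ hτ r
      rw [← hh0] at this
      omega
  have hk : ∀ P ∈ Q, ∃ k : MvPolynomial (Fin 2) F, f P - h0 - al l * k ∈ pI P ^ μ P := by
    intro P hP
    by_cases hon : On P l
    · have h1 := A3_lift l P0 v τ hgen (f P)
      obtain ⟨c, hc⟩ := Ideal.mem_span_singleton'.1 h1
      refine ⟨c, ?_⟩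
      obtain ⟨q, hq⟩ := hrdiv P (Finset.mem_filter.2 ⟨hP, hon⟩)
      have h2 : f P - h0 - al l * c = Polynomial.aeval τ
          ((Polynomial.X - Polynomial.C (eval P τ)) ^ μ P * q) := by
        rw [← hq, map_sub, ← hh0]
        linear_combination -hc
      rw [h2, map_mul, map_pow]
      apply Ideal.mul_mem_right
      apply Ideal.pow_mem_pow
      have := A3_sub_eval_mem P τ
      simpa [MvPolynomial.algebraMap_eq] using this
    · apply A3_off
      rw [A3_eval_al]
      exact hon
  choose! k hk using hk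
  obtain ⟨h1, hh1, hk1⟩ := hS k
  have hal : (al l).totalDegree ≤ 1 := by
    unfold al
    apply (totalDegree_add _ _).trans
    apply max_le
    · apply (totalDegree_add _ _).trans
      apply max_le
      · apply (totalDegree_mul _ _).trans
        rw [totalDegree_C, totalDegree_X]
      · apply (totalDegree_mul _ _).trans
        rw [totalDegree_C, totalDegree_X]
    · rw [totalDegree_C]; exact Nat.zero_le _
  refine ⟨h0 + al l * h1, ?_, ?_⟩
  · rcases hh1 with hh1 | hh1
    · rw [hh1, mul_zero, add_zero]; exact hdeg0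
    · right
      have e1 := totalDegree_mul (al l) h1
      rcases hdeg0 with hd | hd
      · rw [hd, zero_add]; omega
      · have e2 := totalDegree_add h0 (al l * h1)
        have e3 : max h0.totalDegree (al l * h1).totalDegree + 3 ≤ D := by
          rcases le_total h0.totalDegree (al l * h1).totalDegree with e | e
          · rw [max_eq_right e]; omega
          · rw [max_eq_left e]; omega
        omega
  · intro P hP
    have e : f P - (h0 + al l * h1) = (f P - h0 - al l * k P) + al l * (k P - h1) := by ring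
    rw [e]
    apply Ideal.add_mem _ (hk P hP)
    have h2 := hk1 P hP
    by_cases hon : On P l
    · simp only [if_pos hon] at h2
      have h3 : al l ∈ pI P := A3_mem_of_eval (by rw [A3_eval_al]; exact hon)
      have h4 : al l * (k P - h1) ∈ pI P * pI P ^ (μ P - 1) := Ideal.mul_mem_mul h3 h2
      rw [← pow_succ'] at h4
      exact Ideal.pow_le_pow_right (by omega) h4
    · simp only [if_neg hon] at h2
      exact Ideal.mul_mem_left _ _ h2

end HKR
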