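import Pool.Agent.Lib.HKR.A3
/-!
HKR.A4 (Horace induction).  p ∈ Q with μ p ≥ Σ_{P ∈ Q, P ≠ p} μ P, and for every line l through p
Σ_{P ∈ Q on l} μ P + 2 ≤ D.  Then SurjP Q μ D.
PROOF: induction on μ p (generalizing μ, D).  μ p = 0: all μ P = 0, h = 0 works (pI P ^ 0 = ⊤).
μ p = s + 1: if some P1 ∈ Q, P1 ≠ p has μ P1 > 0 take l = line through p and P1, else any line through
p.  Apply `horace`; the new μ' has μ' p = s ≥ Σ_{P ≠ p} μ' P, and for every line l' through p the sum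
of μ' drops by at least 1 (because of p), so ≤ (D-1) - 2 (note D ≥ 3 here).
-/
open MvPolynomial
namespace HKR
variable {F : Type} [Field F]

private theorem a4_line (Q : Finset (Fin 2 → F)) (μ : (Fin 2 → F) → ℕ) (p : Fin 2 → F) :
    ∃ l : Fin 3 → F, (l 1 ≠ 0 ∨ l 2 ≠ 0) ∧ On p l ∧
      ((∃ P ∈ Q, P ≠ p ∧ 0 < μ P) → ∃ P ∈ Q, P ≠ p ∧ 0 < μ P ∧ On P l) := by
  by_cases h : ∃ P ∈ Q, P ≠ p ∧ 0 < μ P
  · obtain ⟨P1, h1, h2, h3⟩ := h
    refine ⟨![(P1 1 - p 1) * p 0 - (P1 0 - p 0) * p 1, -(P1 1 - p 1), P1 0 - p 0], ?_, ?_,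
      fun _ => ⟨P1, h1, h2, h3, ?_⟩⟩
    · by_contra hc
      push Not at hc
      apply h2
      have e1 : P1 1 - p 1 = 0 := by
        have h4 : -(P1 1 - p 1) = 0 := hc.1
        exact neg_eq_zero.1 h4
      have e2 : P1 0 - p 0 = 0 := hc.2
      funext i
      fin_cases i
      · exact sub_eq_zero.1 e2
      · exact sub_eq_zero.1 e1
    · simp only [On, Matrix.cons_val_zero, Matrix.cons_val_one, Matrix.cons_val]
      ring
    · simp only [On, Matrix.cons_val_zero, Matrix.cons_val_one, Matrix.cons_val]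
      ring
  · refine ⟨![-p 0, 1, 0], Or.inl ?_, ?_, fun h' => absurd h' h⟩
    · simp
    · simp [On]

open Classical in
theorem surjP_of_big {Q : Finset (Fin 2 → F)} {μ : (Fin 2 → F) → ℕ} {D : ℕ} {p : Fin 2 → F}
    (hp : p ∈ Q) (hbig : ∑ P ∈ Q.erase p, μ P ≤ μ p)
    (hl : ∀ l : Fin 3 → F, (l 1 ≠ 0 ∨ l 2 ≠ 0) → On p l →
      ∑ P ∈ Q.filter (fun P => On P l), μ P + 2 ≤ D) : SurjP Q μ D := by
  obtain ⟨s, hs⟩ : ∃ s, μ p = s := ⟨_, rfl⟩
  induction s generalizing μ D with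
  | zero =>
    intro f
    refine ⟨0, Or.inl rfl, fun P hP => ?_⟩
    have h0 : μ P = 0 := by
      by_cases hPp : P = p
      · rw [hPp, hs]
      · have h1 : μ P ≤ ∑ P ∈ Q.erase p, μ P :=
          Finset.single_le_sum (f := μ) (fun _ _ => Nat.zero_le _) (Finset.mem_erase.2 ⟨hPp, hP⟩)
        omega
    rw [h0, pow_zero, Ideal.one_eq_top]
    exact Submodule.mem_top
  | succ s ih =>
    obtain ⟨l, hl1, hl2, hl3⟩ := a4_line Q μ p
    refine horace l hl1 (hl l hl1 hl2) ?_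
    have hle : ∀ P, (if On P l then μ P - 1 else μ P) ≤ μ P := fun P => by
      split_ifs <;> omega
    have hp' : (if On p l then μ p - 1 else μ p) = s := by
      rw [if_pos hl2, hs]; rfl
    refine ih (μ := fun P => if On P l then μ P - 1 else μ P) ?_ ?_ hp'
    · simp only [hp']
      by_cases h : ∃ P ∈ Q, P ≠ p ∧ 0 < μ P
      · obtain ⟨P, hP, hPp, hP0, hPl⟩ := hl3 h
        have h1 : ∑ P ∈ Q.erase p, (if On P l then μ P - 1 else μ P) < ∑ P ∈ Q.erase p, μ P := by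
          refine Finset.sum_lt_sum (fun P _ => hle P) ⟨P, Finset.mem_erase.2 ⟨hPp, hP⟩, ?_⟩
          rw [if_pos hPl]; omega
        omega
      · have h1 : ∑ P ∈ Q.erase p, (if On P l then μ P - 1 else μ P) = 0 := by
          refine Finset.sum_eq_zero fun P hP => ?_
          have h2 := Finset.mem_erase.1 hP
          have h3 : μ P = 0 := by
            by_contra hc
            exact h ⟨P, h2.2, h2.1, Nat.pos_of_ne_zero hc⟩
          have := hle P
          omega
        omega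
    · intro l' hl' hpl'
      have h1 := hl l' hl' hpl'
      have h2 : ∑ P ∈ Q.filter (fun P => On P l'), (if On P l then μ P - 1 else μ P) <
          ∑ P ∈ Q.filter (fun P => On P l'), μ P := by
        refine Finset.sum_lt_sum (fun P _ => hle P) ⟨p, Finset.mem_filter.2 ⟨hp, hpl'⟩, ?_⟩
        rw [hp', hs]; exact Nat.lt_succ_self s
      show ∑ P ∈ Q.filter (fun P => On P l'), (if On P l then μ P - 1 else μ P) + 2 ≤ D - 1
      omega

theorem Surj.of_surjP {Q : Finset (Fin 2 → F)} {μ : (Fin 2 → F) → ℕ} {D : ℕ}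
    (h : SurjP Q μ D) : Surj Q μ D := by
  intro f
  obtain ⟨g, hg1, hg2⟩ := h fun _ => f
  refine ⟨g, hg1, ?_⟩
  unfold fatI
  simp only [Submodule.mem_iInf]
  exact hg2

end HKR
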