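import Pool.Agent.Lib.HKR.ADefs
/-!
HKR.A5 (degree control).  f ∈ (A(x),B(y)), A, B monic.  Then f = a B(y) + b A(x) with
totalDegree a + deg B ≤ totalDegree f (or a = 0) and totalDegree b + deg A ≤ totalDegree f (or b = 0).
PROOF.  Divide f by the monic A(x) (induction on degree in x: the top x-part x^i y^j with i ≥ α is
replaced by x^(i-α) y^j (x^α - A(x)), total degree does not grow, quotient terms x^(i-α) y^j have degree
≤ totalDegree f - α): f = b A + R, degree of R in x < α, totalDegree R ≤ totalDegree f.  R ∈ (A,B).  Divide R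
by B(y): R = a B + R', R' reduced in x and y, same degree control.  R' ∈ (A,B) reduced implies R' = 0
(e.g. from `exists_res`: or directly: F[x,y]/(A,B) = (F[y]/B)[x]/A is free with basis the monomials).
-/
open MvPolynomial
namespace HKR
variable {F : Type} [Field F]

private def Dg (k d : ℕ) (a : MvPolynomial (Fin 2) F) : Prop := a = 0 ∨ a.totalDegree + k ≤ d

private theorem Dg_add {k d : ℕ} {a b : MvPolynomial (Fin 2) F} (ha : Dg k d a) (hb : Dg k d b) :
    Dg k d (a + b) := by
  rcases ha with rfl | ha
  · simpa using hb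
  rcases hb with rfl | hb
  · simpa [Dg] using Or.inr ha
  · right
    have := totalDegree_add a b
    omega

private theorem totalDegree_uni (i : Fin 2) (q : Polynomial F) :
    (uni i q).totalDegree ≤ q.natDegree := by
  unfold uni
  rw [Polynomial.aeval_eq_sum_range]
  refine totalDegree_finsetSum_le fun k hk => ?_
  refine (totalDegree_smul_le _ _).trans ?_
  rw [Finset.mem_range] at hk
  rw [totalDegree_X_pow]
  omega

private noncomputable def Th : Polynomial (Polynomial F) →+* MvPolynomial (Fin 2) F :=
  Polynomial.eval₂RingHom (Polynomial.aeval (X 0 : MvPolynomial (Fin 2) F)).toRingHom (X 1)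

private theorem Th_C (q : Polynomial F) : Th (Polynomial.C q) = uni 0 q := by
  simp [Th, uni]

private theorem Th_map (q : Polynomial F) : Th (q.map Polynomial.C) = uni 1 q := by
  simp only [Th, uni, Polynomial.coe_eval₂RingHom, Polynomial.eval₂_map, Polynomial.aeval_def]
  congr 1
  ext x
  simp [MvPolynomial.algebraMap_eq]

private noncomputable def Ps (A : Polynomial F) :
    MvPolynomial (Fin 2) F →ₐ[F] Polynomial (AdjoinRoot A) :=
  MvPolynomial.aeval ![Polynomial.C (AdjoinRoot.root A), Polynomial.X]

private theorem Ps_Th (A : Polynomial F) (P : Polynomial (Polynomial F)) :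
    Ps A (Th P) = P.map (AdjoinRoot.mk A) := by
  have : ((Ps A : MvPolynomial (Fin 2) F →+* Polynomial (AdjoinRoot A))).comp Th =
      Polynomial.mapRingHom (AdjoinRoot.mk A) := by
    refine Polynomial.ringHom_ext' ?_ ?_
    · refine Polynomial.ringHom_ext' ?_ ?_
      · ext a
        simp [Th_C, uni, Ps]
      · simp [Th_C, uni, Ps]
    · simp [Th, Ps]
  exact DFunLike.congr_fun this P

private theorem Ps_A (A : Polynomial F) : Ps A (uni 0 A) = 0 := by
  rw [← Th_C, Ps_Th]
  simp

private theorem Ps_B (A B : Polynomial F) :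
    Ps A (uni 1 B) = B.map (algebraMap F (AdjoinRoot A)) := by
  rw [← Th_map, Ps_Th, Polynomial.map_map]
  rfl

private theorem red_zero {A B : Polynomial F} (_hA : A.Monic) (hB : B.Monic)
    {P : Polynomial (Polynomial F)} (hP : P.degree < B.degree)
    (hc : ∀ j, (P.coeff j).degree < A.degree) (hm : Th P ∈ abI A B) : P = 0 := by
  obtain ⟨a, b, hab⟩ := Ideal.mem_span_pair.1 hm
  have h1 : P.map (AdjoinRoot.mk A) = Ps A b * B.map (algebraMap F (AdjoinRoot A)) := by
    rw [← Ps_Th, ← hab, map_add, map_mul, map_mul, Ps_A, Ps_B]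
    simp
  have h2 : P.map (AdjoinRoot.mk A) = 0 := by
    by_contra h
    have hnt : Nontrivial (AdjoinRoot A) := by
      by_contra hn
      rw [not_nontrivial_iff_subsingleton] at hn
      exact h (Subsingleton.elim _ _)
    refine (hB.map (algebraMap F (AdjoinRoot A))).not_dvd_of_degree_lt h ?_ ⟨Ps A b, ?_⟩
    · rw [hB.degree_map]
      exact lt_of_le_of_lt Polynomial.degree_map_le hP
    · rw [h1, mul_comm]
  ext1 j
  have h3 : AdjoinRoot.mk A (P.coeff j) = 0 := by
    rw [← Polynomial.coeff_map, h2, Polynomial.coeff_zero]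
  rw [AdjoinRoot.mk_eq_zero] at h3
  rw [Polynomial.coeff_zero]
  exact Polynomial.eq_zero_of_dvd_of_degree_lt h3 (hc j)

private def Good (A B : Polynomial F) (d : ℕ) (f : MvPolynomial (Fin 2) F) : Prop :=
  ∃ (a b : MvPolynomial (Fin 2) F) (P : Polynomial (Polynomial F)),
    f = a * uni 1 B + b * uni 0 A + Th P ∧ Dg B.natDegree d a ∧ Dg A.natDegree d b ∧
    P.degree < B.degree ∧ ∀ j, (P.coeff j).degree < A.degree

private theorem Good_add {A B : Polynomial F} {d : ℕ} {f g : MvPolynomial (Fin 2) F}
    (hf : Good A B d f) (hg : Good A B d g) : Good A B d (f + g) := by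
  obtain ⟨a, b, P, h1, h2, h3, h4, h5⟩ := hf
  obtain ⟨a', b', P', h1', h2', h3', h4', h5'⟩ := hg
  refine ⟨a + a', b + b', P + P', ?_, Dg_add h2 h2', Dg_add h3 h3', ?_, fun j => ?_⟩
  · rw [h1, h1', map_add]; ring
  · exact lt_of_le_of_lt (Polynomial.degree_add_le _ _) (max_lt h4 h4')
  · rw [Polynomial.coeff_add]
    exact lt_of_le_of_lt (Polynomial.degree_add_le _ _) (max_lt (h5 j) (h5' j))

private theorem Good_zero {A B : Polynomial F} (hA : A.Monic) (hB : B.Monic) (d : ℕ) :
    Good A B d 0 := by
  refine ⟨0, 0, 0, by simp, Or.inl rfl, Or.inl rfl, ?_, fun j => ?_⟩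
  · rw [Polynomial.degree_zero, Polynomial.degree_eq_natDegree hB.ne_zero]
    exact WithBot.bot_lt_coe _
  · rw [Polynomial.coeff_zero, Polynomial.degree_zero, Polynomial.degree_eq_natDegree hA.ne_zero]
    exact WithBot.bot_lt_coe _

private theorem Good_mon {A B : Polynomial F} (hA : A.Monic) (hB : B.Monic) {d i j : ℕ} (c : F)
    (hij : i + j ≤ d) : Good A B d (C c * (X 0 ^ i * X 1 ^ j)) := by
  set q : Polynomial F := Polynomial.X ^ i /ₘ A with hq
  set r : Polynomial F := Polynomial.X ^ i %ₘ A with hr
  set p : Polynomial F := Polynomial.X ^ j /ₘ B with hp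
  set s : Polynomial F := Polynomial.X ^ j %ₘ B with hs
  have e1 : (Polynomial.X ^ i : Polynomial F) = r + A * q := (Polynomial.modByMonic_add_div _ A).symm
  have e2 : (Polynomial.X ^ j : Polynomial F) = s + B * p := (Polynomial.modByMonic_add_div _ B).symm
  have u1 : (X 0 ^ i : MvPolynomial (Fin 2) F) = uni 0 r + uni 0 A * uni 0 q := by
    have := congrArg (uni 0) e1
    simpa [uni] using this
  have u2 : (X 1 ^ j : MvPolynomial (Fin 2) F) = uni 1 s + uni 1 B * uni 1 p := by
    have := congrArg (uni 1) e2
    simpa [uni] using this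
  have hrn : r.natDegree ≤ i := by
    have h := Polynomial.natDegree_modByMonic_le_left (p := (Polynomial.X ^ i : Polynomial F)) (q := A)
    simpa [hr] using h
  have hqd : q = 0 ∨ q.natDegree + A.natDegree ≤ i := by
    by_cases h : q = 0
    · exact Or.inl h
    · right
      have h1 : A.degree ≤ (Polynomial.X ^ i : Polynomial F).degree := by
        by_contra hlt
        exact h ((Polynomial.divByMonic_eq_zero_iff hA).2 (not_le.1 hlt))
      have h2 := Polynomial.natDegree_divByMonic (Polynomial.X ^ i : Polynomial F) hA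
      have h3 := Polynomial.natDegree_le_natDegree h1
      rw [Polynomial.natDegree_X_pow] at h2 h3
      rw [hq, h2]
      omega
  have hpd : p = 0 ∨ p.natDegree + B.natDegree ≤ j := by
    by_cases h : p = 0
    · exact Or.inl h
    · right
      have h1 : B.degree ≤ (Polynomial.X ^ j : Polynomial F).degree := by
        by_contra hlt
        exact h ((Polynomial.divByMonic_eq_zero_iff hB).2 (not_le.1 hlt))
      have h2 := Polynomial.natDegree_divByMonic (Polynomial.X ^ j : Polynomial F) hB
      have h3 := Polynomial.natDegree_le_natDegree h1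
      rw [Polynomial.natDegree_X_pow] at h2 h3
      rw [hp, h2]
      omega
  refine ⟨C c * (uni 0 r * uni 1 p), C c * (uni 0 q * X 1 ^ j),
    Polynomial.C (Polynomial.C c * r) * s.map Polynomial.C, ?_, ?_, ?_, ?_, fun k => ?_⟩
  · rw [map_mul, Th_C, Th_map]
    have : uni 0 (Polynomial.C c * r) = (C c * uni 0 r : MvPolynomial (Fin 2) F) := by
      simp [uni, MvPolynomial.algebraMap_eq]
    rw [this, u1, u2]
    ring
  · rcases hpd with h | h
    · left; rw [h]; simp [uni]
    · right
      have t1 := totalDegree_mul (C c : MvPolynomial (Fin 2) F) (uni 0 r * uni 1 p)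
      have t2 := totalDegree_mul (uni 0 r : MvPolynomial (Fin 2) F) (uni 1 p)
      have t3 := totalDegree_uni 0 r
      have t4 := totalDegree_uni 1 p
      rw [totalDegree_C] at t1
      omega
  · rcases hqd with h | h
    · left; rw [h]; simp [uni]
    · right
      have t1 := totalDegree_mul (C c : MvPolynomial (Fin 2) F) (uni 0 q * X 1 ^ j)
      have t2 := totalDegree_mul (uni 0 q : MvPolynomial (Fin 2) F) (X 1 ^ j)
      have t3 := totalDegree_uni 0 q
      rw [totalDegree_C] at t1
      rw [totalDegree_X_pow] at t2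
      omega
  · rw [← Polynomial.smul_eq_C_mul]
    refine lt_of_le_of_lt (Polynomial.degree_smul_le _ _) ?_
    refine lt_of_le_of_lt Polynomial.degree_map_le ?_
    exact Polynomial.degree_modByMonic_lt _ hB
  · rw [Polynomial.coeff_C_mul, Polynomial.coeff_map]
    have : Polynomial.C c * r * Polynomial.C (s.coeff k) = Polynomial.C (c * s.coeff k) * r := by
      rw [Polynomial.C_mul]; ring
    rw [this, ← Polynomial.smul_eq_C_mul]
    refine lt_of_le_of_lt (Polynomial.degree_smul_le _ _) ?_
    exact Polynomial.degree_modByMonic_lt _ hA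

private theorem Good_all {A B : Polynomial F} (hA : A.Monic) (hB : B.Monic)
    (f : MvPolynomial (Fin 2) F) : Good A B f.totalDegree f := by
  have key : Good A B f.totalDegree (∑ v ∈ f.support, monomial v (coeff v f)) := by
    refine Finset.sum_induction _ _ (fun _ _ => Good_add) (Good_zero hA hB _) fun v hv => ?_
    have h := le_totalDegree hv
    rw [Finsupp.sum_fintype _ _ (fun _ => rfl), Fin.sum_univ_two] at h
    have h2 : (monomial v (coeff v f) : MvPolynomial (Fin 2) F) =
        C (coeff v f) * (X 0 ^ v 0 * X 1 ^ v 1) := by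
      rw [monomial_eq, Finsupp.prod_fintype _ _ (fun _ => pow_zero _), Fin.prod_univ_two]
    rw [h2]
    exact Good_mon hA hB _ h
  rwa [support_sum_monomial_coeff] at key

theorem abI_degree {A B : Polynomial F} (hA : A.Monic) (hB : B.Monic)
    {f : MvPolynomial (Fin 2) F} (hf : f ∈ abI A B) :
    ∃ a b : MvPolynomial (Fin 2) F, f = a * uni 1 B + b * uni 0 A ∧
      (a = 0 ∨ a.totalDegree + B.natDegree ≤ f.totalDegree) ∧
      (b = 0 ∨ b.totalDegree + A.natDegree ≤ f.totalDegree) := by
  obtain ⟨a, b, P, h1, h2, h3, h4, h5⟩ := Good_all hA hB f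
  have hP : P = 0 := by
    refine red_zero hA hB h4 h5 ?_
    have : Th P = f - (a * uni 1 B + b * uni 0 A) := by
      rw [eq_sub_iff_add_eq]; rw [h1]; ring
    rw [this]
    refine Ideal.sub_mem _ hf (Ideal.add_mem _ (Ideal.mul_mem_left _ _ ?_)
      (Ideal.mul_mem_left _ _ ?_))
    · exact Ideal.subset_span (by simp)
    · exact Ideal.subset_span (by simp)
  refine ⟨a, b, ?_, h2, h3⟩
  rw [h1, hP, map_zero, add_zero]

end HKR
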