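import Pool.Agent.Lib.HKR.ADefs
/-!
HKR.A6 (Frobenius descent, the key lemma).  F a perfect field of characteristic ℓ, lines l i (i < k)
pairwise non-proportional and non-constant, g = ∏ (al (l i))^(b i) with b i < ℓ.  Suppose
   g C^ℓ = a B^ℓ + b A^ℓ      (A = uni 0 A0, B = uni 1 B0, A0, B0 monic of positive degree)
with a = 0 or totalDegree a + k ≤ ℓ deg A0.  Then C ∈ (A, B).
PROOF.  Λ := ∏ al (l i).  For θ = pderiv 0, pderiv 1 let σ := Σ_i b_i θ(al (l i)) ∏_{j≠i} al (l j); then
Λ θ(g) = σ g.  θ kills ℓ-th powers.  So Λ θ(g C^ℓ) = σ g C^ℓ, hence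
   (Λ θ a - σ a) B^ℓ = -(Λ θ b - σ b) A^ℓ.
A^ℓ and B^ℓ are relatively prime (polynomials in different variables: IsRelPrime (uni 0 A0) (uni 1 B0)),
so A^ℓ divides Λ θ a - σ a, of total degree ≤ totalDegree a + k - 1 < ℓ deg A0 = totalDegree A^ℓ; so it is 0
(also if a = 0), and then Λ θ b - σ b = 0.
Then Λ θ(a g^(ℓ-1)) = g^(ℓ-1) (Λ θ a + (ℓ-1) σ a) = g^(ℓ-1) (Λ θ a - σ a) = 0, for both θ; a polynomial all of
whose partial derivatives vanish is an ℓ-th power (F perfect: only exponents divisible by ℓ, take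
ℓ-th roots of the coefficients): a g^(ℓ-1) = W^ℓ, b g^(ℓ-1) = W'^ℓ.
(g C)^ℓ = g C^ℓ g^(ℓ-1) = (W B + W' A)^ℓ, so g C = W B + W' A (char ℓ, domain).
g ∣ W: al (l i) is prime, (al (l i))^(b i (ℓ-1)) ∣ W^ℓ, so if v = multiplicity in W, ℓ v ≥ b i (ℓ-1) > ℓ (b i - 1)
(b i < ℓ), so v ≥ b i; the al (l i) are pairwise coprime (non-associated primes), so g ∣ W; same W'.
Cancel g: C = (W/g) B + (W'/g) A ∈ abI A0 B0.
(Two lemmas may be split off: `pow_of_pderiv_zero` and `prod_dvd`.)
-/
open MvPolynomial
namespace HKR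
variable {F : Type} [Field F]

/-! auxiliary lemmas -/

private lemma A6_coeff_uni (A : Polynomial F) (n : ℕ) :
    coeff (Finsupp.single 0 n) (uni 0 A) = A.coeff n := by
  unfold uni
  rw [Polynomial.aeval_eq_sum_range, coeff_sum]
  have h : ∀ i ∈ Finset.range (A.natDegree + 1),
      coeff (Finsupp.single (0 : Fin 2) n) (A.coeff i • (X 0 : MvPolynomial (Fin 2) F) ^ i) =
        if i = n then A.coeff n else 0 := by
    intro i _
    rw [coeff_smul, coeff_X_pow, smul_eq_mul]
    by_cases hin : i = n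
    · subst hin
      simp
    · rw [if_neg hin, if_neg]
      · simp
      · intro h
        apply hin
        have := congrArg (fun f => f 0) h
        simpa using this
  rw [Finset.sum_congr rfl h, Finset.sum_ite_eq' (Finset.range (A.natDegree + 1)) n]
  split_ifs with hn
  · rfl
  · rw [Finset.mem_range, not_lt] at hn
    rw [Polynomial.coeff_eq_zero_of_natDegree_lt (by omega)]

private lemma A6_uni_pow (i : Fin 2) (A : Polynomial F) (n : ℕ) :
    uni i A ^ n = uni i (A ^ n) := by
  simp [uni]

private lemma A6_deg_uni (A : Polynomial F) (hA : A.Monic) :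
    A.natDegree ≤ (uni 0 A).totalDegree := by
  have h : Finsupp.single (0 : Fin 2) A.natDegree ∈ (uni 0 A).support := by
    rw [mem_support_iff, A6_coeff_uni]
    have : A.coeff A.natDegree = 1 := hA
    rw [this]
    exact one_ne_zero
  have := le_totalDegree h
  simpa [Finsupp.sum_single_index] using this

private lemma A6_degreeOf_uni_ne {i j : Fin 2} (hij : i ≠ j) (p : Polynomial F) :
    degreeOf i (uni j p) = 0 := by
  apply Nat.eq_zero_of_le_zero
  unfold uni
  rw [Polynomial.aeval_eq_sum_range]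
  refine (degreeOf_sum_le _ _ _).trans ?_
  refine Finset.sup_le ?_
  intro k _
  rw [Algebra.smul_def, MvPolynomial.algebraMap_eq]
  refine (degreeOf_C_mul_le _ _ _).trans ?_
  refine (degreeOf_pow_le _ _ _).trans ?_
  rw [degreeOf_X_of_ne hij]
  simp

private lemma A6_uni_inj (i : Fin 2) : Function.Injective (uni (F := F) i) := by
  intro A B h
  have h1 := congrArg (aeval (fun _ : Fin 2 => (Polynomial.X : Polynomial F))) h
  have key : ∀ A : Polynomial F, aeval (fun _ : Fin 2 => (Polynomial.X : Polynomial F)) (uni i A) = A := by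
    intro A
    unfold uni
    rw [← Polynomial.aeval_algHom_apply]
    simp
  rwa [key, key] at h1

private lemma A6_uni_ne (i : Fin 2) {A : Polynomial F} (hA : A.Monic) : uni i A ≠ 0 := by
  intro h
  have h0 : uni i (0 : Polynomial F) = 0 := by simp [uni]
  have := A6_uni_inj i (h.trans h0.symm)
  exact hA.ne_zero this

private lemma A6_relprime {A B : Polynomial F} (hA : A.Monic) (hB : B.Monic) :
    IsRelPrime (uni 0 A) (uni 1 B) := by
  intro d hd0 hd1
  have e1 : degreeOf 1 d = 0 := by
    obtain ⟨e, he⟩ := hd0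
    have hne := A6_uni_ne 0 hA
    rw [he] at hne
    have h1 : d ≠ 0 := left_ne_zero_of_mul hne
    have h2 : e ≠ 0 := right_ne_zero_of_mul hne
    have h3 := A6_degreeOf_uni_ne (i := 1) (j := 0) (by decide) A
    rw [he, degreeOf_mul_eq h1 h2] at h3
    omega
  have hd0' : d ≠ 0 := by
    intro h
    rw [h, zero_dvd_iff] at hd0
    exact A6_uni_ne 0 hA hd0
  have e0 : degreeOf 0 d = 0 := by
    obtain ⟨e, he⟩ := hd1
    have hne := A6_uni_ne 1 hB
    rw [he] at hne
    have h1 : d ≠ 0 := left_ne_zero_of_mul hne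
    have h2 : e ≠ 0 := right_ne_zero_of_mul hne
    have h3 := A6_degreeOf_uni_ne (i := 0) (j := 1) (by decide) B
    rw [he, degreeOf_mul_eq h1 h2] at h3
    omega
  have ht : d.totalDegree = 0 := by
    rw [totalDegree_eq_zero_iff]
    intro m hm x
    have hx : degreeOf x d = 0 := by
      fin_cases x
      · exact e0
      · exact e1
    have := monomial_le_degreeOf x hm
    omega
  rw [totalDegree_eq_zero_iff_eq_C] at ht
  rw [ht]
  have hc : coeff 0 d ≠ 0 := by
    intro h
    rw [h, C_0] at ht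
    exact hd0' ht
  exact (IsUnit.mk0 _ hc).map C

private lemma A6_al_coeff0 (l : Fin 3 → F) : coeff (Finsupp.single 0 1) (al l) = l 1 := by
  have h0 : (0 : Fin 2 →₀ ℕ) ≠ Finsupp.single 0 1 := by
    intro h
    have := congrArg (fun f => f 0) h
    simp at this
  unfold al
  simp [coeff_X, coeff_C, Finsupp.single_left_inj, h0]

private lemma A6_al_coeff1 (l : Fin 3 → F) : coeff (Finsupp.single 1 1) (al l) = l 2 := by
  have h0 : (0 : Fin 2 →₀ ℕ) ≠ Finsupp.single 1 1 := by
    intro h
    have := congrArg (fun f => f 1) h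
    simp at this
  unfold al
  simp [coeff_X, coeff_C, Finsupp.single_left_inj, h0]

private lemma A6_al_coeff (l : Fin 3 → F) : coeff 0 (al l) = l 0 := by
  unfold al
  simp

private lemma A6_totalDegree_al_le (l : Fin 3 → F) : (al l).totalDegree ≤ 1 := by
  unfold al
  refine (totalDegree_add _ _).trans (max_le ?_ ?_)
  · refine (totalDegree_add _ _).trans (max_le ?_ ?_)
    · refine (totalDegree_mul _ _).trans ?_
      simp
    · refine (totalDegree_mul _ _).trans ?_
      simp
  · simp

private lemma A6_totalDegree_al (l : Fin 3 → F) (hl : l 1 ≠ 0 ∨ l 2 ≠ 0) :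
    (al l).totalDegree = 1 := by
  apply le_antisymm (A6_totalDegree_al_le l)
  rcases hl with h | h
  · have hm : Finsupp.single (0 : Fin 2) 1 ∈ (al l).support := by
      rw [mem_support_iff, A6_al_coeff0]
      exact h
    have := le_totalDegree hm
    simpa using this
  · have hm : Finsupp.single (1 : Fin 2) 1 ∈ (al l).support := by
      rw [mem_support_iff, A6_al_coeff1]
      exact h
    have := le_totalDegree hm
    simpa using this

private lemma A6_irr (l : Fin 3 → F) (hl : l 1 ≠ 0 ∨ l 2 ≠ 0) : Irreducible (al l) := by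
  apply irreducible_of_totalDegree_eq_one (A6_totalDegree_al l hl)
  intro x hx
  apply IsUnit.mk0
  intro h0
  subst h0
  rcases hl with h | h
  · have := hx (Finsupp.single 0 1)
    rw [A6_al_coeff0, zero_dvd_iff] at this
    exact h this
  · have := hx (Finsupp.single 1 1)
    rw [A6_al_coeff1, zero_dvd_iff] at this
    exact h this

private lemma A6_al_ne (l : Fin 3 → F) (hl : l 1 ≠ 0 ∨ l 2 ≠ 0) : al l ≠ 0 :=
  (A6_irr l hl).ne_zero

private lemma A6_not_dvd (l l' : Fin 3 → F) (hl : l 1 ≠ 0 ∨ l 2 ≠ 0) (hl' : l' 1 ≠ 0 ∨ l' 2 ≠ 0)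
    (hind : LinearIndependent F ![l, l']) : ¬ al l ∣ al l' := by
  rintro ⟨u, hu⟩
  have hne := A6_al_ne l' hl'
  rw [hu] at hne
  have h1 : al l ≠ 0 := left_ne_zero_of_mul hne
  have h2 : u ≠ 0 := right_ne_zero_of_mul hne
  have h3 := congrArg totalDegree hu
  rw [totalDegree_mul_of_isDomain h1 h2, A6_totalDegree_al l hl, A6_totalDegree_al l' hl'] at h3
  have h4 : u.totalDegree = 0 := by omega
  rw [totalDegree_eq_zero_iff_eq_C] at h4
  set t := coeff 0 u with ht
  have hu2 : al l' = C t * al l := by rw [hu, h4, mul_comm]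
  have c0 := congrArg (coeff 0) hu2
  have c1 := congrArg (coeff (Finsupp.single 0 1)) hu2
  have c2 := congrArg (coeff (Finsupp.single 1 1)) hu2
  rw [coeff_C_mul, A6_al_coeff, A6_al_coeff] at c0
  rw [coeff_C_mul, A6_al_coeff0, A6_al_coeff0] at c1
  rw [coeff_C_mul, A6_al_coeff1, A6_al_coeff1] at c2
  rw [LinearIndependent.pair_iff] at hind
  have hz := hind t (-1) (by
    funext i
    fin_cases i
    · simp [c0]
    · simp [c1]
    · simp [c2])
  exact one_ne_zero (neg_eq_zero.mp hz.2)

/-- the derivative of a product of powers of linear forms -/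
private lemma A6_logder {k : ℕ} (l : Fin k → Fin 3 → F) (e : Fin k → ℕ) (t : Fin 2)
    (s : Finset (Fin k)) :
    ∃ σ : MvPolynomial (Fin 2) F, (σ = 0 ∨ σ.totalDegree + 1 ≤ s.card) ∧
      (∏ i ∈ s, al (l i)) * pderiv t (∏ i ∈ s, al (l i) ^ e i) = σ * ∏ i ∈ s, al (l i) ^ e i := by
  classical
  induction s using Finset.induction_on with
  | empty => exact ⟨0, Or.inl rfl, by simp⟩
  | insert a s ha ih =>
    obtain ⟨σ, hσ, hs⟩ := ih
    have hprod : (∏ i ∈ s, al (l i)).totalDegree ≤ s.card := by
      refine (totalDegree_finsetProd _ _).trans ?_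
      calc ∑ i ∈ s, (al (l i)).totalDegree ≤ ∑ i ∈ s, 1 :=
            Finset.sum_le_sum (fun i _ => A6_totalDegree_al_le (l i))
        _ = s.card := by simp
    have hder : ∃ c : F, pderiv t (al (l a)) = C c := by
      unfold al
      fin_cases t
      · exact ⟨l a 1, by simp [pderiv_X]⟩
      · exact ⟨l a 2, by simp [pderiv_X]⟩
    obtain ⟨c, hc⟩ := hder
    refine ⟨al (l a) * σ + C ((e a : F) * c) * ∏ i ∈ s, al (l i), Or.inr ?_, ?_⟩
    · rw [Finset.card_insert_of_notMem ha]
      refine Nat.succ_le_succ ?_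
      refine (totalDegree_add _ _).trans (max_le ?_ ?_)
      · rcases hσ with h | h
        · rw [h]; simp
        · refine (totalDegree_mul _ _).trans ?_
          have := A6_totalDegree_al_le (l a)
          omega
      · refine (totalDegree_mul _ _).trans ?_
        rw [totalDegree_C, zero_add]
        exact hprod
    · rw [Finset.prod_insert ha, Finset.prod_insert ha, pderiv_mul, pderiv_pow, hc]
      rcases Nat.eq_zero_or_pos (e a) with he | he
      · rw [he]
        simp only [pow_zero, Nat.cast_zero, zero_mul, one_mul, zero_add, C_0, add_zero]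
        rw [mul_assoc, hs]
        ring
      · obtain ⟨n, hn⟩ : ∃ n, e a = n + 1 := ⟨e a - 1, by omega⟩
        rw [hn]
        simp only [Nat.add_sub_cancel]
        rw [C_mul]
        have hnat : (C (((n + 1 : ℕ) : F)) : MvPolynomial (Fin 2) F) = ((n + 1 : ℕ) : MvPolynomial (Fin 2) F) := by
          simp
        rw [hnat]
        linear_combination al (l a) ^ (n + 2) * hs

private lemma A6_pderiv_pow (ℓ : ℕ) [CharP F ℓ] (t : Fin 2) (u : MvPolynomial (Fin 2) F) :
    pderiv t (u ^ ℓ) = 0 := by
  rw [pderiv_pow]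
  have : ((ℓ : ℕ) : MvPolynomial (Fin 2) F) = 0 := CharP.cast_eq_zero _ _
  rw [this]
  simp

private lemma A6_root (ℓ : ℕ) [Fact ℓ.Prime] [CharP F ℓ] [PerfectField F]
    (u : MvPolynomial (Fin 2) F) (h : ∀ t, pderiv t u = 0) : ∃ w, u = w ^ ℓ := by
  classical
  have : PerfectRing F ℓ := PerfectField.toPerfectRing ℓ
  have hfrob : ∀ c : F, ∃ d : F, d ^ ℓ = c := by
    intro c
    obtain ⟨d, hd⟩ := (bijective_frobenius F ℓ).2 c
    exact ⟨d, hd⟩
  choose r hr using hfrob
  have hdiv : ∀ m ∈ u.support, ∀ t, ℓ ∣ m t := by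
    intro m hm t
    rw [mem_support_iff] at hm
    by_contra hnd
    have hpos : 0 < m t := by
      rcases Nat.eq_zero_or_pos (m t) with h0 | h0
      · rw [h0] at hnd
        exact absurd (dvd_zero _) hnd
      · exact h0
    have h1 := congrArg (coeff (m - Finsupp.single t 1)) (h t)
    rw [coeff_pderiv, coeff_zero] at h1
    have h2 : m - Finsupp.single t 1 + Finsupp.single t 1 = m := by
      ext x
      by_cases hx : x = t
      · subst hx
        simp
        omega
      · simp [Finsupp.single_apply, Ne.symm hx]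
    rw [h2] at h1
    have h3 : (((m - Finsupp.single t 1 : Fin 2 →₀ ℕ) t : ℕ) : F) + 1 = ((m t : ℕ) : F) := by
      have : (m - Finsupp.single t 1 : Fin 2 →₀ ℕ) t = m t - 1 := by simp
      rw [this]
      have h4 : m t = (m t - 1) + 1 := by omega
      conv_rhs => rw [h4]
      push_cast
      ring
    rw [h3] at h1
    rcases mul_eq_zero.mp h1 with h4 | h4
    · exact hm h4
    · rw [CharP.cast_eq_zero_iff F ℓ] at h4
      exact hnd h4
  refine ⟨∑ m ∈ u.support, monomial (m.mapRange (fun n => n / ℓ) (by simp)) (r (coeff m u)), ?_⟩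
  rw [sum_pow_char]
  conv_lhs => rw [u.as_sum]
  apply Finset.sum_congr rfl
  intro m hm
  rw [monomial_pow, hr]
  have hmm : ℓ • Finsupp.mapRange (fun n => n / ℓ) (by simp) m = m := by
    ext t
    simp only [Finsupp.smul_apply, Finsupp.mapRange_apply, smul_eq_mul]
    exact Nat.mul_div_cancel' (hdiv m hm t)
  rw [hmm]

private lemma A6_dvd (ℓ : ℕ) [Fact ℓ.Prime] [CharP F ℓ] {k : ℕ}
    (l : Fin k → Fin 3 → F) (hl : ∀ i, l i 1 ≠ 0 ∨ l i 2 ≠ 0)
    (hind : ∀ i j, i ≠ j → LinearIndependent F ![l i, l j])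
    (e : Fin k → ℕ) (he : ∀ i, e i < ℓ) (w u : MvPolynomial (Fin 2) F)
    (h : u * (∏ i, al (l i) ^ e i) ^ (ℓ - 1) = w ^ ℓ) : (∏ i, al (l i) ^ e i) ∣ w := by
  classical
  apply Finset.prod_dvd_of_isRelPrime
  · intro i _ j _ hij
    apply IsRelPrime.pow
    rw [(A6_irr (l i) (hl i)).isRelPrime_iff_not_dvd]
    exact A6_not_dvd _ _ (hl i) (hl j) (hind i j hij)
  · intro i _
    by_cases hw : w = 0
    · rw [hw]; exact dvd_zero _
    have hp : Prime (al (l i)) := (A6_irr (l i) (hl i)).prime
    have h1 : al (l i) ^ (e i * (ℓ - 1)) ∣ w ^ ℓ := by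
      rw [← h, pow_mul]
      apply dvd_mul_of_dvd_right
      apply pow_dvd_pow_of_dvd
      exact Finset.dvd_prod_of_mem (fun i => al (l i) ^ e i) (Finset.mem_univ i)
    have hfin : FiniteMultiplicity (al (l i)) w :=
      FiniteMultiplicity.of_prime_left hp hw
    have hfin2 : FiniteMultiplicity (al (l i)) (w ^ ℓ) :=
      FiniteMultiplicity.of_prime_left hp (pow_ne_zero _ hw)
    have h2 := hfin2.le_multiplicity_of_pow_dvd h1
    rw [FiniteMultiplicity.multiplicity_pow hp hfin] at h2
    have h3 : e i ≤ multiplicity (al (l i)) w := by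
      by_contra hlt
      push Not at hlt
      have hl0 : 2 ≤ ℓ := (Fact.out : ℓ.Prime).two_le
      have h4 := he i
      obtain ⟨m, rfl⟩ : ∃ m, ℓ = m + 1 := ⟨ℓ - 1, by omega⟩
      simp only [Nat.add_sub_cancel] at h2
      have h5 : multiplicity (al (l i)) w + 1 ≤ e i := hlt
      nlinarith
    exact (pow_dvd_pow _ h3).trans (pow_multiplicity_dvd _ _)

theorem frob_descent (ℓ : ℕ) [Fact ℓ.Prime] [CharP F ℓ] [PerfectField F] {k : ℕ}
    (l : Fin k → Fin 3 → F) (hl : ∀ i, l i 1 ≠ 0 ∨ l i 2 ≠ 0)
    (hind : ∀ i j, i ≠ j → LinearIndependent F ![l i, l j])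
    (e : Fin k → ℕ) (he : ∀ i, e i < ℓ) (A B : Polynomial F) (hA : A.Monic) (hB : B.Monic)
    (c a b : MvPolynomial (Fin 2) F)
    (h : (∏ i, al (l i) ^ e i) * c ^ ℓ = a * uni 1 B ^ ℓ + b * uni 0 A ^ ℓ)
    (ha : a = 0 ∨ a.totalDegree + k ≤ ℓ * A.natDegree) : c ∈ abI A B := by
  classical
  have hl0 : 2 ≤ ℓ := (Fact.out : ℓ.Prime).two_le
  rcases Nat.eq_zero_or_pos A.natDegree with hA0 | hA0
  · have hA1 : A = 1 := hA.natDegree_eq_zero.mp hA0
    have : (1 : MvPolynomial (Fin 2) F) ∈ abI A B := by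
      apply Ideal.subset_span
      left
      rw [hA1]
      simp [uni]
    rw [(Ideal.eq_top_iff_one _).mpr this]
    trivial
  set g : MvPolynomial (Fin 2) F := ∏ i, al (l i) ^ e i with hg
  have hg0 : g ≠ 0 := by
    rw [hg]
    exact Finset.prod_ne_zero_iff.mpr (fun i _ => pow_ne_zero _ (A6_al_ne _ (hl i)))
  have hL0 : (∏ i, al (l i)) ≠ 0 :=
    Finset.prod_ne_zero_iff.mpr (fun i _ => A6_al_ne _ (hl i))
  have hLdeg : (∏ i, al (l i)).totalDegree ≤ k := by
    refine (totalDegree_finsetProd _ _).trans ?_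
    calc ∑ i, (al (l i)).totalDegree ≤ ∑ _i : Fin k, 1 :=
          Finset.sum_le_sum (fun i _ => A6_totalDegree_al_le (l i))
      _ = k := by simp
  have hrel : IsRelPrime (uni 0 A ^ ℓ) (uni 1 B ^ ℓ) := (A6_relprime hA hB).pow
  have hA' : uni 0 A ^ ℓ ≠ 0 := pow_ne_zero _ (A6_uni_ne 0 hA)
  have hB' : uni 1 B ^ ℓ ≠ 0 := pow_ne_zero _ (A6_uni_ne 1 hB)
  have hAdeg : ℓ * A.natDegree ≤ (uni 0 A ^ ℓ).totalDegree := by
    rw [A6_uni_pow]
    have := A6_deg_uni (A ^ ℓ) (hA.pow ℓ)
    rwa [hA.natDegree_pow] at this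
  -- the derivations
  have main : ∀ t : Fin 2, pderiv t (a * g ^ (ℓ - 1)) = 0 ∧ pderiv t (b * g ^ (ℓ - 1)) = 0 := by
    intro t
    obtain ⟨σ, hσ, hs⟩ := A6_logder l e t Finset.univ
    rw [Finset.card_univ, Fintype.card_fin] at hσ
    set L : MvPolynomial (Fin 2) F := ∏ i, al (l i) with hL
    rw [← hg] at hs
    have hd := congrArg (pderiv t) h
    rw [pderiv_mul, map_add, pderiv_mul, pderiv_mul, A6_pderiv_pow, A6_pderiv_pow,
      A6_pderiv_pow] at hd
    simp only [mul_zero, add_zero] at hd
    -- Λ θ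
    have hk : (L * pderiv t a - σ * a) * uni 1 B ^ ℓ = -((L * pderiv t b - σ * b) * uni 0 A ^ ℓ) := by
      linear_combination (-L) * hd + c ^ ℓ * hs + σ * h
    have hdv : uni 0 A ^ ℓ ∣ L * pderiv t a - σ * a := by
      apply hrel.dvd_of_dvd_mul_right
      rw [hk]
      exact (Dvd.intro_left _ rfl).neg_right
    have hz : L * pderiv t a - σ * a = 0 := by
      by_contra hne
      have h1 := totalDegree_le_of_dvd_of_isDomain hdv hne
      rcases ha with ha | ha
      · apply hne
        rw [ha]
        simp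
      · have hpd : L * pderiv t a = 0 ∨ (L * pderiv t a).totalDegree + 1 ≤ a.totalDegree + k := by
          by_cases hpa : pderiv t a = 0
          · left; rw [hpa, mul_zero]
          · right
            have hda : (pderiv t a).totalDegree + 1 ≤ a.totalDegree := by
              obtain ⟨m, hm, hmd⟩ : ∃ m ∈ (pderiv t a).support,
                  (pderiv t a).totalDegree = m.sum fun _ x => x := by
                have hne' : (pderiv t a).support.Nonempty := by
                  rw [support_nonempty]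
                  exact hpa
                obtain ⟨m, hm, hmd⟩ := Finset.exists_mem_eq_sup _ hne'
                  (fun m : Fin 2 →₀ ℕ => m.sum fun _ x => x)
                exact ⟨m, hm, hmd⟩
              rw [mem_support_iff, coeff_pderiv] at hm
              have hm2 : m + Finsupp.single t 1 ∈ a.support := by
                rw [mem_support_iff]
                exact left_ne_zero_of_mul hm
              have h5 := le_totalDegree hm2
              rw [Finsupp.sum_add_index' (fun _ => rfl) (fun _ _ _ => rfl),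
                Finsupp.sum_single_index rfl] at h5
              rw [hmd]
              exact h5
            have := totalDegree_mul L (pderiv t a)
            omega
        have hsd : σ * a = 0 ∨ (σ * a).totalDegree + 1 ≤ a.totalDegree + k := by
          rcases hσ with h0 | h0
          · left; rw [h0, zero_mul]
          · right
            have := totalDegree_mul σ a
            omega
        have hfin : (L * pderiv t a - σ * a).totalDegree + 1 ≤ a.totalDegree + k := by
          rcases hpd with h0 | h0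
          · rcases hsd with h6 | h6
            · exact absurd (by rw [h0, h6, sub_zero]) hne
            · rw [h0, zero_sub, totalDegree_neg]
              exact h6
          · rcases hsd with h6 | h6
            · rw [h6, sub_zero]
              exact h0
            · have := totalDegree_sub (L * pderiv t a) (σ * a)
              omega
        omega
    have hzb : L * pderiv t b - σ * b = 0 := by
      rw [hz, zero_mul] at hk
      have h7 := neg_eq_zero.mp hk.symm
      exact (mul_eq_zero.mp h7).resolve_right hA'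
    have hgp : L * pderiv t (g ^ (ℓ - 1)) = - (σ * g ^ (ℓ - 1)) := by
      have h8 : pderiv t (g * g ^ (ℓ - 1)) = 0 := by
        rw [← pow_succ']
        have : ℓ - 1 + 1 = ℓ := by omega
        rw [this]
        exact A6_pderiv_pow ℓ t g
      rw [pderiv_mul] at h8
      have h9 : g * (L * pderiv t (g ^ (ℓ - 1)) + σ * g ^ (ℓ - 1)) = 0 := by
        linear_combination L * h8 - g ^ (ℓ - 1) * hs
      have h10 := (mul_eq_zero.mp h9).resolve_left hg0
      exact eq_neg_of_add_eq_zero_left h10
    constructor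
    · have h11 : L * pderiv t (a * g ^ (ℓ - 1)) = 0 := by
        rw [pderiv_mul]
        linear_combination g ^ (ℓ - 1) * hz + a * hgp
      exact (mul_eq_zero.mp h11).resolve_left hL0
    · have h11 : L * pderiv t (b * g ^ (ℓ - 1)) = 0 := by
        rw [pderiv_mul]
        linear_combination g ^ (ℓ - 1) * hzb + b * hgp
      exact (mul_eq_zero.mp h11).resolve_left hL0
  obtain ⟨w, hw⟩ := A6_root ℓ (a * g ^ (ℓ - 1)) (fun t => (main t).1)
  obtain ⟨w', hw'⟩ := A6_root ℓ (b * g ^ (ℓ - 1)) (fun t => (main t).2)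
  have hgw : g ∣ w := A6_dvd ℓ l hl hind e he w a hw
  have hgw' : g ∣ w' := A6_dvd ℓ l hl hind e he w' b hw'
  have hpow : (g * c) ^ ℓ = (w * uni 1 B + w' * uni 0 A) ^ ℓ := by
    rw [add_pow_char, mul_pow, mul_pow, mul_pow, ← hw, ← hw']
    have h12 : g ^ ℓ = g ^ (ℓ - 1) * g := by
      rw [← pow_succ]
      congr 1
      omega
    rw [h12]
    linear_combination g ^ (ℓ - 1) * h
  have heq : g * c = w * uni 1 B + w' * uni 0 A := by
    have := frobenius_inj (MvPolynomial (Fin 2) F) ℓ
    exact this (by simpa [frobenius_def] using hpow)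
  obtain ⟨v, hv⟩ := hgw
  obtain ⟨v', hv'⟩ := hgw'
  have hc : c = v * uni 1 B + v' * uni 0 A := by
    apply mul_left_cancel₀ hg0
    rw [heq, hv, hv']
    ring
  rw [hc]
  apply Ideal.add_mem
  · exact Ideal.mul_mem_left _ _ (Ideal.subset_span (by right; rfl))
  · exact Ideal.mul_mem_left _ _ (Ideal.subset_span (by left; rfl))

end HKR
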