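import Pool.Agent.Lib.HKR.ADefs
/-!
HKR.A7 (local Frobenius).  char F = ℓ.  C with C h ∈ (A,B) for all h ∈ fatI Q μ.  g a polynomial and μ'
such that for every P ∈ Q: μ P = 0, or g ∈ pI P ^ s with s + μ' P ≥ ℓ (μ P + 1) - 1.  Then
g C^ℓ h ∈ (A^ℓ,B^ℓ) for all h ∈ fatI Q μ'.
PROOF.  For P ∈ Q: g h ∈ (pI P ^ μ P)^[ℓ] := the ideal spanned by ℓ-th powers of elements of pI P ^ μ P:
if μ P = 0 it is ⊤; else g h ∈ pI P ^ (ℓ(μ P + 1) - 1), spanned by u^i v^j, i + j = ℓ(μ+1)-1 (u = x - P 0,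
v = y - P 1), and i/ℓ + j/ℓ ≥ μ, so u^i v^j is a multiple of (u^(i/ℓ) v^(j/ℓ))^ℓ.
The ideals pI P ^ μ P (P ∈ Q) are pairwise comaximal, so fatI Q μ = ∏_P pI P ^ μ P (Ideal.iInf / prod), and
the Frobenius power of the product is the product of the Frobenius powers (Ideal.map (frobenius) of a
product is the product of the maps!  I^[ℓ] = Ideal.map (frobenius _ ℓ) I), which are again pairwise
comaximal, so their product is the intersection.  Hence g h ∈ Ideal.map (frobenius) (fatI Q μ), i.e.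
g h = Σ c_j h_j^ℓ with h_j ∈ fatI Q μ, and g C^ℓ h = Σ c_j (h_j C)^ℓ with (h_j C)^ℓ ∈ (A^ℓ, B^ℓ)
(frobenius maps abI A B into abI (A^ℓ) (B^ℓ)).
-/
open MvPolynomial
namespace HKR
variable {F : Type} [Field F]

private theorem a7_pair_pow {R : Type} [CommRing R] (u v : R) (k : ℕ) :
    Ideal.span {u, v} ^ k ≤ Ideal.span {x : R | ∃ i j : ℕ, i + j = k ∧ x = u ^ i * v ^ j} := by
  induction k with
  | zero =>
    have : (1 : R) ∈ Ideal.span {x : R | ∃ i j : ℕ, i + j = 0 ∧ x = u ^ i * v ^ j} :=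
      Ideal.subset_span ⟨0, 0, rfl, by simp⟩
    rw [(Ideal.eq_top_iff_one _).2 this]
    exact le_top
  | succ k ih =>
    rw [pow_succ]
    refine (Ideal.mul_mono_left ih).trans ?_
    rw [Ideal.span_mul_span', Ideal.span_le]
    rintro _ ⟨x, ⟨i, j, hij, rfl⟩, y, hy, rfl⟩
    rcases hy with rfl | hy
    · exact Ideal.subset_span ⟨i + 1, j, by omega, by ring⟩
    · rw [Set.mem_singleton_iff] at hy
      subst hy
      exact Ideal.subset_span ⟨i, j + 1, by omega, by ring⟩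

private theorem a7_frob_pow {R : Type} [CommRing R] (ℓ : ℕ) [Fact ℓ.Prime] [ExpChar R ℓ]
    (u v : R) (m n : ℕ) (hn : ℓ * (m + 1) ≤ n + 1) :
    Ideal.span {u, v} ^ n ≤ Ideal.map (frobenius R ℓ) (Ideal.span {u, v} ^ m) := by
  refine (a7_pair_pow u v n).trans ?_
  rw [Ideal.span_le]
  rintro _ ⟨i, j, hij, rfl⟩
  have hℓ : 0 < ℓ := (Fact.out : ℓ.Prime).pos
  have hi := Nat.div_add_mod i ℓ
  have hj := Nat.div_add_mod j ℓ
  have hi2 := Nat.mod_lt i hℓ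
  have hj2 := Nat.mod_lt j hℓ
  have hm : m ≤ i / ℓ + j / ℓ := by
    by_contra hcon
    have h1 : i / ℓ + j / ℓ + 1 ≤ m := by omega
    have h2 : ℓ * (i / ℓ + j / ℓ + 1 + 1) ≤ ℓ * (m + 1) := Nat.mul_le_mul_left _ (by omega)
    have h3 : ℓ * (i / ℓ + j / ℓ + 1 + 1) = ℓ * (i / ℓ) + ℓ * (j / ℓ) + 2 * ℓ := by ring
    omega
  have hmem : u ^ (i / ℓ) * v ^ (j / ℓ) ∈ Ideal.span {u, v} ^ m := by
    refine Ideal.pow_le_pow_right hm ?_
    rw [pow_add]
    exact Ideal.mul_mem_mul (Ideal.pow_mem_pow (Ideal.subset_span (by simp)) _)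
      (Ideal.pow_mem_pow (Ideal.subset_span (by simp)) _)
  have h := Ideal.mem_map_of_mem (frobenius R ℓ) hmem
  have e : u ^ i * v ^ j
      = u ^ (i % ℓ) * v ^ (j % ℓ) * frobenius R ℓ (u ^ (i / ℓ) * v ^ (j / ℓ)) := by
    rw [frobenius_def, mul_pow, ← pow_mul, ← pow_mul]
    conv_lhs => rw [← hi, ← hj, pow_add, pow_add]
    rw [mul_comm (i / ℓ) ℓ, mul_comm (j / ℓ) ℓ]
    ring
  rw [SetLike.mem_coe, e]
  exact Ideal.mul_mem_left _ _ h

private theorem a7_coprime {P P' : Fin 2 → F} (h : P ≠ P') : IsCoprime (pI P) (pI P') := by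
  rw [Ideal.isCoprime_iff_sup_eq, Ideal.eq_top_iff_one]
  have key : ∀ i : Fin 2, P i ≠ P' i → (1 : MvPolynomial (Fin 2) F) ∈ pI P ⊔ pI P' := by
    intro i hi
    have h1 : (X i - C (P i) : MvPolynomial (Fin 2) F) ∈ pI P ⊔ pI P' := by
      refine Ideal.mem_sup_left (Ideal.subset_span ?_)
      fin_cases i <;> simp
    have h2 : (X i - C (P' i) : MvPolynomial (Fin 2) F) ∈ pI P ⊔ pI P' := by
      refine Ideal.mem_sup_right (Ideal.subset_span ?_)
      fin_cases i <;> simp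
    have h3 := Ideal.sub_mem _ h2 h1
    have h4 := Ideal.mul_mem_left (pI P ⊔ pI P') (C (P i - P' i)⁻¹) h3
    have h5 : (C (P i - P' i)⁻¹ * (X i - C (P' i) - (X i - C (P i))) : MvPolynomial (Fin 2) F)
        = 1 := by
      have : (X i - C (P' i) - (X i - C (P i)) : MvPolynomial (Fin 2) F) = C (P i - P' i) := by
        rw [C_sub]; ring
      rw [this, ← C_mul, inv_mul_cancel₀ (sub_ne_zero.2 hi), C_1]
    rwa [h5] at h4
  obtain ⟨i, hi⟩ := Function.ne_iff.1 h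
  exact key i hi

private theorem a7_frob_ab (ℓ : ℕ) [Fact ℓ.Prime] [CharP F ℓ] (A B : Polynomial F)
    (x : MvPolynomial (Fin 2) F) (hx : x ∈ abI A B) : x ^ ℓ ∈ abI (A ^ ℓ) (B ^ ℓ) := by
  obtain ⟨r, s, rfl⟩ := Ideal.mem_span_pair.1 hx
  rw [add_pow_char, mul_pow, mul_pow]
  have e0 : uni 0 A ^ ℓ = uni 0 (A ^ ℓ) := by rw [uni, uni, map_pow]
  have e1 : uni 1 B ^ ℓ = uni 1 (B ^ ℓ) := by rw [uni, uni, map_pow]
  rw [e0, e1]
  exact Ideal.mem_span_pair.2 ⟨_, _, rfl⟩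

theorem frob_local (ℓ : ℕ) [Fact ℓ.Prime] [CharP F ℓ] {Q : Finset (Fin 2 → F)}
    {μ μ' : (Fin 2 → F) → ℕ} (A B : Polynomial F) (c g : MvPolynomial (Fin 2) F)
    (hc : ∀ h ∈ fatI Q μ, c * h ∈ abI A B)
    (hg : ∀ P ∈ Q, μ P = 0 ∨ ∃ s, g ∈ pI P ^ s ∧ ℓ * (μ P + 1) ≤ s + μ' P + 1) :
    ∀ h ∈ fatI Q μ', g * c ^ ℓ * h ∈ abI (A ^ ℓ) (B ^ ℓ) := by
  intro h hh
  have hcop : Set.Pairwise (Q : Set (Fin 2 → F))
      (Function.onFun IsCoprime (fun P => pI P ^ μ P)) := by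
    intro P _ P' _ hne
    exact (a7_coprime hne).pow
  have hcop2 : Set.Pairwise (Q : Set (Fin 2 → F))
      (Function.onFun IsCoprime
        (fun P => Ideal.map (frobenius (MvPolynomial (Fin 2) F) ℓ) (pI P ^ μ P))) := by
    intro P _ P' _ hne
    exact IsCoprime.map ((a7_coprime hne).pow) (Ideal.mapHom (frobenius _ ℓ))
  have hmem : g * h ∈ Ideal.map (frobenius (MvPolynomial (Fin 2) F) ℓ) (fatI Q μ) := by
    have e : Ideal.map (frobenius (MvPolynomial (Fin 2) F) ℓ) (fatI Q μ)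
        = ⨅ P ∈ Q, Ideal.map (frobenius (MvPolynomial (Fin 2) F) ℓ) (pI P ^ μ P) := by
      rw [fatI, ← Ideal.prod_eq_iInf_of_pairwise_isCoprime hcop,
        ← Ideal.prod_eq_iInf_of_pairwise_isCoprime hcop2]
      exact map_prod (Ideal.mapHom (frobenius (MvPolynomial (Fin 2) F) ℓ)) _ _
    rw [e]
    simp only [Ideal.mem_iInf]
    intro P hP
    rcases hg P hP with h0 | ⟨s, hs, hle⟩
    · rw [h0, pow_zero, Ideal.one_eq_top, Ideal.map_top]
      trivial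
    · have hhP : h ∈ pI P ^ μ' P := by
        have := hh
        rw [fatI] at this
        simp only [Ideal.mem_iInf] at this
        exact this P hP
      refine a7_frob_pow ℓ _ _ (μ P) (s + μ' P) hle ?_
      rw [pow_add]
      exact Ideal.mul_mem_mul hs hhP
  have key : ∀ x ∈ Ideal.map (frobenius (MvPolynomial (Fin 2) F) ℓ) (fatI Q μ),
      x * c ^ ℓ ∈ abI (A ^ ℓ) (B ^ ℓ) := by
    intro x hx
    rw [Ideal.map] at hx
    refine Submodule.span_induction ?_ ?_ ?_ ?_ hx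
    · rintro _ ⟨y, hy, rfl⟩
      have := a7_frob_ab ℓ A B _ (hc y hy)
      rwa [mul_pow, mul_comm] at this
    · rw [zero_mul]; exact Ideal.zero_mem _
    · intro x y _ _ hx hy
      rw [add_mul]; exact Ideal.add_mem _ hx hy
    · intro a x _ hx
      rw [smul_eq_mul, mul_assoc]
      exact Ideal.mul_mem_left _ _ hx
  have := key _ hmem
  have e : g * c ^ ℓ * h = g * h * c ^ ℓ := by ring
  rw [e]
  exact this

end HKR
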