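import Pool.Agent.Lib.HKR.A2
import Pool.Agent.Lib.HKR.A4
import Pool.Agent.Lib.HKR.A5
import Pool.Agent.Lib.HKR.A6
import Pool.Agent.Lib.HKR.A7
/-!
HKR.A8 (surjectivity in characteristic ℓ).  Data: lines l i, exponents e i < ℓ, Σ e i = (ℓ-1) d; m P for P ∈ Q
with (ℓ-1) m P ≤ Σ_{i : P on l i} e i; p ∈ Q; ℓ ≥ k; m p + ℓ - 1 ≥ Σ_{P ≠ p} (m P - 1); for every line through p:
Σ_{P on the line, P ≠ p} (m P - 1) + m p + 1 ≤ d  (truncated subtraction).  Then Surj Q μ (d+1) with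
μ P = m P - 1 for P ≠ p and μ p = m p.
PROOF.  Apply surj_of_mem_abI with A := (∏_{P∈Q} (X - P 0))^r, B := (∏ (X - P 1))^r, r ≥ all μ P and r ≥ 1
(so abI A B ≤ fatI Q μ; Q is nonempty so degrees α, β are positive).  Let c satisfy the two hypotheses with D = d+1.
g := ∏ al (l i)^(e i), totalDegree g ≤ (ℓ-1) d.  By frob_local with μ' P = m P - 1 (P ≠ p), μ' p = m p + ℓ - 1
(g ∈ pI P ^ (Σ_{P on l i} e i); numbers: P ≠ p, m P ≥ 1: (ℓ-1) m P + m P - 1 + 1 = ℓ m P ✓.;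
p: (ℓ-1) m p + m p + ℓ - 1 + 1 = ℓ (m p + 1) ✓.): g c^ℓ h ∈ abI (A^ℓ) (B^ℓ) for h ∈ fatI Q μ'.
By surjP_of_big (μ', D' = d + ℓ): Surj Q μ' (d + ℓ).  totalDegree (g c^ℓ) + (d + ℓ) ≤
(ℓ-1) d + ℓ (α + β - d - 1) + d + ℓ = ℓ (α+β).  So mem_abI_of_surj: g c^ℓ ∈ abI (A^ℓ) (B^ℓ).  By abI_degree
g c^ℓ = a B^ℓ + b A^ℓ with a = 0 or totalDegree a ≤ totalDegree (g c^ℓ) - ℓ β ≤ ℓ α - d - ℓ, so
totalDegree a + k ≤ ℓ α as k ≤ ℓ.  frob_descent: c ∈ abI A B.
-/
open MvPolynomial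
namespace HKR
variable {F : Type} [Field F]

private theorem totalDegree_al (l : Fin 3 → F) : (al l).totalDegree ≤ 1 := by
  unfold al
  refine (totalDegree_add _ _).trans (max_le ((totalDegree_add _ _).trans (max_le ?_ ?_)) ?_)
  · refine (totalDegree_mul _ _).trans ?_
    rw [totalDegree_C, zero_add]
    exact (totalDegree_X (R := F) (0 : Fin 2)).le
  · refine (totalDegree_mul _ _).trans ?_
    rw [totalDegree_C, zero_add]
    exact (totalDegree_X (R := F) (1 : Fin 2)).le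
  · rw [totalDegree_C]; exact Nat.zero_le _

private theorem al_mem {P : Fin 2 → F} {l : Fin 3 → F} (h : On P l) : al l ∈ pI P := by
  have h0 : (X 0 - C (P 0) : MvPolynomial (Fin 2) F) ∈ pI P :=
    Ideal.subset_span (by simp)
  have h1 : (X 1 - C (P 1) : MvPolynomial (Fin 2) F) ∈ pI P :=
    Ideal.subset_span (by simp)
  have h2 : al l = C (l 1) * (X 0 - C (P 0)) + C (l 2) * (X 1 - C (P 1)) := by
    have h3 : (C (l 0 + l 1 * P 0 + l 2 * P 1) : MvPolynomial (Fin 2) F) = 0 := by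
      rw [h, C_0]
    rw [C_add, C_add, C_mul, C_mul] at h3
    unfold al
    linear_combination h3
  rw [h2]
  exact Ideal.add_mem _ (Ideal.mul_mem_left _ _ h0) (Ideal.mul_mem_left _ _ h1)

private theorem uni_mem (i : Fin 2) (Q : Finset (Fin 2 → F)) (P : Fin 2 → F) (hP : P ∈ Q)
    (r n : ℕ) (hn : n ≤ r) :
    uni i ((∏ R ∈ Q, (Polynomial.X - Polynomial.C (R i))) ^ r) ∈ pI P ^ n := by
  have h0 : (X i - C (P i) : MvPolynomial (Fin 2) F) ∈ pI P := by
    apply Ideal.subset_span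
    fin_cases i <;> simp
  have h1 : uni i (∏ R ∈ Q, (Polynomial.X - Polynomial.C (R i))) ∈ pI P := by
    have h2 : (Polynomial.X - Polynomial.C (P i)) ∣
        ∏ R ∈ Q, (Polynomial.X - Polynomial.C (R i)) := Finset.dvd_prod_of_mem _ hP
    obtain ⟨u, hu⟩ := h2
    rw [hu]
    unfold uni
    rw [map_mul, map_sub, Polynomial.aeval_X, Polynomial.aeval_C, algebraMap_eq]
    exact Ideal.mul_mem_right _ _ h0
  have h3 : uni i ((∏ R ∈ Q, (Polynomial.X - Polynomial.C (R i))) ^ r)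
      = (uni i (∏ R ∈ Q, (Polynomial.X - Polynomial.C (R i)))) ^ r := by
    unfold uni
    rw [map_pow]
  rw [h3]
  exact Ideal.pow_le_pow_right hn (Ideal.pow_mem_pow h1 r)

open Classical in
private theorem prod_al_mem {k : ℕ} (l : Fin k → Fin 3 → F) (e : Fin k → ℕ) (P : Fin 2 → F) :
    (∏ i, al (l i) ^ e i) ∈
      pI P ^ (∑ i ∈ Finset.univ.filter (fun i => On P (l i)), e i) := by
  rw [← Finset.prod_filter_mul_prod_filter_not Finset.univ (fun i => On P (l i))]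
  refine Ideal.mul_mem_right _ _ ?_
  rw [← Finset.prod_pow_eq_pow_sum]
  refine Ideal.prod_mem_prod ?_
  intro i hi
  exact Ideal.pow_mem_pow (al_mem (Finset.mem_filter.mp hi).2) _

private theorem totalDegree_prod_al {k : ℕ} (l : Fin k → Fin 3 → F) (e : Fin k → ℕ) :
    (∏ i, al (l i) ^ e i).totalDegree ≤ ∑ i, e i := by
  refine (totalDegree_finsetProd _ _).trans (Finset.sum_le_sum fun i _ => ?_)
  refine (totalDegree_pow _ _).trans ?_
  calc e i * (al (l i)).totalDegree ≤ e i * 1 := Nat.mul_le_mul_left _ (totalDegree_al _)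
    _ = e i := mul_one _

open Classical in
theorem surj_char (ℓ : ℕ) [Fact ℓ.Prime] [CharP F ℓ] [PerfectField F] {k : ℕ} (hk : k ≤ ℓ)
    (l : Fin k → Fin 3 → F) (hl : ∀ i, l i 1 ≠ 0 ∨ l i 2 ≠ 0)
    (hind : ∀ i j, i ≠ j → LinearIndependent F ![l i, l j])
    (e : Fin k → ℕ) (he : ∀ i, e i < ℓ) (d : ℕ) (hd : ∑ i, e i = (ℓ - 1) * d)
    (Q : Finset (Fin 2 → F)) (m : (Fin 2 → F) → ℕ)
    (hm : ∀ P ∈ Q, (ℓ - 1) * m P ≤ ∑ i ∈ Finset.univ.filter (fun i => On P (l i)), e i)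
    (p : Fin 2 → F) (hp : p ∈ Q) (hbig : ∑ P ∈ Q.erase p, (m P - 1) ≤ m p + ℓ - 1)
    (hline : ∀ s : Fin 3 → F, (s 1 ≠ 0 ∨ s 2 ≠ 0) → On p s →
      ∑ P ∈ (Q.erase p).filter (fun P => On P s), (m P - 1) + m p + 1 ≤ d) :
    Surj Q (fun P => if P = p then m P else m P - 1) (d + 1) := by
  have hℓ : 1 ≤ ℓ := (Fact.out : ℓ.Prime).one_lt.le
  set μ : (Fin 2 → F) → ℕ := fun P => if P = p then m P else m P - 1 with hμ
  set μ' : (Fin 2 → F) → ℕ := fun P => if P = p then m P + ℓ - 1 else m P - 1 with hμ'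
  set r : ℕ := ∑ P ∈ Q, m P with hr
  have hmr : ∀ P ∈ Q, μ P ≤ r := by
    intro P hP
    have h1 : m P ≤ r := Finset.single_le_sum (f := m) (fun _ _ => Nat.zero_le _) hP
    have h2 : μ P ≤ m P := by
      simp only [hμ]
      split_ifs <;> omega
    exact h2.trans h1
  set A : Polynomial F := (∏ R ∈ Q, (Polynomial.X - Polynomial.C (R 0))) ^ r with hAdef
  set B : Polynomial F := (∏ R ∈ Q, (Polynomial.X - Polynomial.C (R 1))) ^ r with hBdef
  have hA : A.Monic :=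
    (Polynomial.monic_prod_of_monic _ _ fun R _ => Polynomial.monic_X_sub_C _).pow r
  have hB : B.Monic :=
    (Polynomial.monic_prod_of_monic _ _ fun R _ => Polynomial.monic_X_sub_C _).pow r
  have hle : abI A B ≤ fatI Q μ := by
    unfold abI fatI
    rw [Ideal.span_le]
    intro f hf
    rw [SetLike.mem_coe, Submodule.mem_iInf]
    intro P
    rw [Submodule.mem_iInf]
    intro hP
    rcases hf with rfl | hf
    · exact uni_mem 0 Q P hP r _ (hmr P hP)
    · rw [Set.mem_singleton_iff] at hf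
      rw [hf]
      exact uni_mem 1 Q P hP r _ (hmr P hP)
  refine surj_of_mem_abI A B hA hB hle ?_
  intro c hc hd1
  set g : MvPolynomial (Fin 2) F := ∏ i, al (l i) ^ e i with hgdef
  have hgd : g.totalDegree ≤ (ℓ - 1) * d := hd ▸ totalDegree_prod_al l e
  have hgP : ∀ P ∈ Q, μ P = 0 ∨ ∃ s, g ∈ pI P ^ s ∧ ℓ * (μ P + 1) ≤ s + μ' P + 1 := by
    intro P hP
    have hmP := hm P hP
    obtain ⟨ℓ', rfl⟩ : ∃ ℓ', ℓ = ℓ' + 1 := ⟨ℓ - 1, by omega⟩
    rw [Nat.add_sub_cancel] at hmP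
    by_cases hPp : P = p
    · right
      refine ⟨_, prod_al_mem l e P, ?_⟩
      simp only [hμ, hμ', if_pos hPp]
      have h1 : (ℓ' + 1) * (m P + 1) = ℓ' * m P + m P + ℓ' + 1 := by ring
      rw [h1]
      omega
    · rcases Nat.eq_zero_or_pos (m P) with h0 | h0
      · left
        simp only [hμ, if_neg hPp, h0]
      · right
        refine ⟨_, prod_al_mem l e P, ?_⟩
        simp only [hμ, hμ', if_neg hPp]
        have h2 : m P - 1 + 1 = m P := by omega
        have h1 : (ℓ' + 1) * m P = ℓ' * m P + m P := by ring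
        rw [h2, h1]
        omega
  have hloc := frob_local ℓ A B c g hc hgP
  have hS : Surj Q μ' (d + ℓ) := by
    apply Surj.of_surjP
    refine surjP_of_big (p := p) hp ?_ ?_
    · have h1 : ∑ P ∈ Q.erase p, μ' P = ∑ P ∈ Q.erase p, (m P - 1) := by
        refine Finset.sum_congr rfl fun P hP => ?_
        simp only [hμ', if_neg (Finset.ne_of_mem_erase hP)]
      rw [h1]
      simpa only [hμ', if_pos rfl] using hbig
    · intro s hs hps
      have h2 := hline s hs hps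
      have h3 : Q.filter (fun P => On P s) = insert p ((Q.erase p).filter (fun P => On P s)) := by
        ext P
        simp only [Finset.mem_filter, Finset.mem_insert, Finset.mem_erase]
        constructor
        · rintro ⟨h4, h5⟩
          by_cases h6 : P = p
          · exact Or.inl h6
          · exact Or.inr ⟨⟨h6, h4⟩, h5⟩
        · rintro (h4 | ⟨⟨_, h5⟩, h6⟩)
          · rw [h4]; exact ⟨hp, hps⟩
          · exact ⟨h5, h6⟩
      have h4 : p ∉ (Q.erase p).filter (fun P => On P s) := by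
        simp
      rw [h3, Finset.sum_insert h4]
      have h5 : ∑ P ∈ (Q.erase p).filter (fun P => On P s), μ' P
          = ∑ P ∈ (Q.erase p).filter (fun P => On P s), (m P - 1) := by
        refine Finset.sum_congr rfl fun P hP => ?_
        simp only [hμ', if_neg (Finset.ne_of_mem_erase (Finset.mem_filter.mp hP).1)]
      have h6 : μ' p = m p + ℓ - 1 := by simp only [hμ', if_pos]
      rw [h5, h6]
      omega
  have hα : (A ^ ℓ).natDegree = ℓ * A.natDegree := hA.natDegree_pow ℓ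
  have hβ : (B ^ ℓ).natDegree = ℓ * B.natDegree := hB.natDegree_pow ℓ
  have hdeg : (g * c ^ ℓ).totalDegree + (d + ℓ) ≤ ℓ * A.natDegree + ℓ * B.natDegree := by
    have h1 : (g * c ^ ℓ).totalDegree ≤ (ℓ - 1) * d + ℓ * c.totalDegree :=
      (totalDegree_mul _ _).trans (add_le_add hgd (totalDegree_pow _ _))
    have h2 : ℓ * (c.totalDegree + (d + 1)) ≤ ℓ * (A.natDegree + B.natDegree) :=
      Nat.mul_le_mul_left _ hd1
    have h3 : (ℓ - 1) * d + d = ℓ * d := by
      obtain ⟨ℓ', rfl⟩ : ∃ ℓ', ℓ = ℓ' + 1 := ⟨ℓ - 1, by omega⟩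
      rw [Nat.add_sub_cancel]; ring
    have h4 : ℓ * (c.totalDegree + (d + 1)) = ℓ * c.totalDegree + ℓ * d + ℓ := by ring
    have h5 : ℓ * (A.natDegree + B.natDegree) = ℓ * A.natDegree + ℓ * B.natDegree := by ring
    omega
  have hmem : g * c ^ ℓ ∈ abI (A ^ ℓ) (B ^ ℓ) := by
    refine mem_abI_of_surj hS (A ^ ℓ) (B ^ ℓ) (hA.pow ℓ) (hB.pow ℓ) (g * c ^ ℓ) hloc ?_
    rw [hα, hβ]
    exact hdeg
  obtain ⟨a, b, hab, ha, -⟩ := abI_degree (hA.pow ℓ) (hB.pow ℓ) hmem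
  have hA' : uni 0 (A ^ ℓ) = uni 0 A ^ ℓ := by unfold uni; rw [map_pow]
  have hB' : uni 1 (B ^ ℓ) = uni 1 B ^ ℓ := by unfold uni; rw [map_pow]
  rw [hA', hB'] at hab
  refine frob_descent ℓ l hl hind e he A B hA hB c a b hab ?_
  rcases ha with ha | ha
  · exact Or.inl ha
  · right
    rw [hβ] at ha
    omega

end HKR
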