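import Mathlib

/-!
HKR, part A (algebra of fat points).  Definitions, by helper90.
-/

open MvPolynomial

namespace HKR

variable {F : Type} [Field F]

/-- the ideal of the point `P` of the affine plane -/
noncomputable def pI (P : Fin 2 → F) : Ideal (MvPolynomial (Fin 2) F) :=
  Ideal.span {X 0 - C (P 0), X 1 - C (P 1)}

/-- the affine linear polynomial `a x + b y + c` -/
noncomputable def al (l : Fin 3 → F) : MvPolynomial (Fin 2) F :=
  C (l 1) * X 0 + C (l 2) * X 1 + C (l 0)

/-- `P` lies on the line `l` -/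
def On (P : Fin 2 → F) (l : Fin 3 → F) : Prop := l 0 + l 1 * P 0 + l 2 * P 1 = 0

/-- the ideal of the fat point scheme `Σ μ(P) P`, `P ∈ Q` -/
noncomputable def fatI (Q : Finset (Fin 2 → F)) (μ : (Fin 2 → F) → ℕ) : Ideal (MvPolynomial (Fin 2) F) :=
  ⨅ P ∈ Q, pI P ^ μ P

/-- product form of surjectivity: every tuple of germs is congruent to one polynomial of degree
at most `D - 3` -/
def SurjP (Q : Finset (Fin 2 → F)) (μ : (Fin 2 → F) → ℕ) (D : ℕ) : Prop :=
  ∀ f : (Fin 2 → F) → MvPolynomial (Fin 2) F, ∃ h : MvPolynomial (Fin 2) F,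
    (h = 0 ∨ h.totalDegree + 3 ≤ D) ∧ ∀ P ∈ Q, f P - h ∈ pI P ^ μ P

/-- every polynomial is congruent to one of degree at most `D - 3` modulo the fat point ideal -/
def Surj (Q : Finset (Fin 2 → F)) (μ : (Fin 2 → F) → ℕ) (D : ℕ) : Prop :=
  ∀ f : MvPolynomial (Fin 2) F, ∃ h : MvPolynomial (Fin 2) F,
    (h = 0 ∨ h.totalDegree + 3 ≤ D) ∧ f - h ∈ fatI Q μ

/-- the image in two variables of a polynomial in one variable -/
noncomputable def uni (i : Fin 2) (A : Polynomial F) : MvPolynomial (Fin 2) F :=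
  Polynomial.aeval (X i) A

/-- the ideal `(A(x), B(y))` -/
noncomputable def abI (A B : Polynomial F) : Ideal (MvPolynomial (Fin 2) F) :=
  Ideal.span {uni 0 A, uni 1 B}

end HKR
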