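import Pool.Agent.Lib.HKR.Defs

/-!
HKR, stage B: rigidity of the surface in the sense of the problem (formal arcs of deformations) and
rigidity of the configuration in the sense of the problem.  Definitions, by helper90.
-/

open MvPolynomial

namespace HKR

/-- an automorphism of `K[[t]]` over `ℂ[[t]]` that is the identity modulo `t` -/
structure ArcAut (K : Type) [Field K] [Algebra ℂ K] where
  toEquiv : PowerSeries K ≃+* PowerSeries K
  map_X : toEquiv PowerSeries.X = PowerSeries.X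
  map_C : ∀ c : ℂ, toEquiv (PowerSeries.C (algebraMap ℂ K c)) = PowerSeries.C (algebraMap ℂ K c)
  map_zero : ∀ f, PowerSeries.constantCoeff (toEquiv f) = PowerSeries.constantCoeff f

/-- power series whose coefficients are integral over the local ring at `y` : `O_{S,y}[[t]]` -/
def IntS {k : ℕ} (L : Fin k → Fin 3 → ℂ) {K : Type} [Field K] [Algebra Fn K] (y : Pt)
    (f : PowerSeries K) : Prop :=
  ∀ n, Int L y (PowerSeries.coeff n f)

/-- the two deformed local rings `φ(O_{S,y}[[t]])` and `ψ(O_{S,y}[[t]])` agree -/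
def SameAt {k : ℕ} (L : Fin k → Fin 3 → ℂ) {K : Type} [Field K] [Algebra ℂ K] [Algebra Fn K]
    (y : Pt) (φ ψ : ArcAut K) : Prop :=
  φ.toEquiv '' {f | IntS L y f} = ψ.toEquiv '' {f | IntS L y f}

/-- a formal one-parameter deformation of the surface: near each point `y` the deformed
structure sheaf is `φ_y(O_S[[t]])` -/
def Deform {k : ℕ} (L : Fin k → Fin 3 → ℂ) {K : Type} [Field K] [Algebra ℂ K] [Algebra Fn K]
    (φ : Pt → ArcAut K) : Prop :=
  ∀ y, ∃ T : Finset Fn, (∀ f ∈ T, Regular L y f) ∧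
    ∀ y', (∀ f ∈ T, Regular L y' f) → SameAt L y' (φ y') (φ y)

/-- every formal one-parameter deformation of the surface is trivial -/
def ArcRigid {k : ℕ} (L : Fin k → Fin 3 → ℂ) (K : Type) [Field K] [Algebra ℂ K] [Algebra Fn K] :
    Prop :=
  ∀ φ : Pt → ArcAut K, Deform L φ → ∃ ψ : ArcAut K, ∀ y, SameAt L y (φ y) ψ

/-- the configuration is rigid: every configuration near it with the same incidences is its
image under a projective transformation -/
def NearRigid {k : ℕ} (L : Fin k → Fin 3 → ℂ) : Prop :=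
  ∃ ε : ℝ, 0 < ε ∧ ∀ L' : Fin k → Fin 3 → ℂ, (∀ i j, ‖L' i j - L i j‖ < ε) →
    (∀ i j l, det3 (L' i) (L' j) (L' l) = 0 ↔ det3 (L i) (L j) (L l) = 0) →
    ∃ (g : Matrix (Fin 3) (Fin 3) ℂ) (c : Fin k → ℂ), g.det ≠ 0 ∧ (∀ i, c i ≠ 0) ∧
      ∀ i, L' i = c i • Matrix.vecMul (L i) g

/-- formal version: every formal arc of configurations with the same incidences is trivial -/
def FormalRigid {k : ℕ} (L : Fin k → Fin 3 → ℂ) : Prop :=
  ∀ M : Fin k → Fin 3 → PowerSeries ℂ, (∀ i j, PowerSeries.constantCoeff (M i j) = L i j) →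
    (∀ i j l, det3 (L i) (L j) (L l) = 0 → Matrix.det (Matrix.of ![M i, M j, M l]) = 0) →
    ∃ (g : Matrix (Fin 3) (Fin 3) (PowerSeries ℂ)) (c : Fin k → PowerSeries ℂ),
      (∀ i, IsUnit (c i)) ∧
      ∀ i, M i = c i • Matrix.vecMul (fun j => PowerSeries.C (L i j)) g

/-- Stage B, positive part -/
def StageB : Prop :=
  ∀ (k : ℕ) (L : Fin (k + 6) → Fin 3 → ℂ), Config L → NearRigid L →
    ∃ N : ℕ, ∀ n ≥ N, ∀ (K : Type) [Field K] [Algebra Fn K] [Algebra ℂ K] [IsScalarTower ℂ Fn K]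
      (z : Fin (k + 6) → K), Kum L n K z → ArcRigid L K

/-- the full classification -/
def StageC : Prop :=
  ∀ (k : ℕ) [NeZero k] (L : Fin k → Fin 3 → ℂ), 3 ≤ k → Config L → NearRigid L →
    ((∃ N : ℕ, ∀ n ≥ N, ∀ (K : Type) [Field K] [Algebra Fn K] [Algebra ℂ K]
      [IsScalarTower ℂ Fn K] (z : Fin k → K), Kum L n K z → ArcRigid L K) ↔ k ≠ 4 ∧ k ≠ 5)

end HKR
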