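import Pool.Agent.Lib.HKR.ArcDefs

/-!
HKR, stage B: operations on `ArcAut`.  Definitions, by helper90.
-/

open MvPolynomial

namespace HKR

variable {K : Type} [Field K] [Algebra ℂ K]

theorem ArcAut.ext' {φ ψ : ArcAut K} (h : φ.toEquiv = ψ.toEquiv) : φ = ψ := by
  cases φ; cases ψ; cases h; rfl

noncomputable instance : One (ArcAut K) := ⟨⟨RingEquiv.refl _, rfl, fun _ => rfl, fun _ => rfl⟩⟩

noncomputable instance : Mul (ArcAut K) :=
  ⟨fun φ ψ => ⟨ψ.toEquiv.trans φ.toEquiv,
    by rw [RingEquiv.trans_apply, ψ.map_X, φ.map_X],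
    fun c => by rw [RingEquiv.trans_apply, ψ.map_C, φ.map_C],
    fun f => by rw [RingEquiv.trans_apply, φ.map_zero, ψ.map_zero]⟩⟩

noncomputable instance : Inv (ArcAut K) :=
  ⟨fun φ => ⟨φ.toEquiv.symm,
    by rw [RingEquiv.symm_apply_eq, φ.map_X],
    fun c => by rw [RingEquiv.symm_apply_eq, φ.map_C],
    fun f => by rw [← φ.map_zero, RingEquiv.apply_symm_apply]⟩⟩

theorem ArcAut.mul_apply (φ ψ : ArcAut K) (f : PowerSeries K) :
    (φ * ψ).toEquiv f = φ.toEquiv (ψ.toEquiv f) := rfl

theorem ArcAut.one_apply (f : PowerSeries K) : (1 : ArcAut K).toEquiv f = f := rfl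

theorem ArcAut.inv_apply (φ : ArcAut K) (f : PowerSeries K) :
    (φ⁻¹).toEquiv f = φ.toEquiv.symm f := rfl

noncomputable instance : Group (ArcAut K) where
  mul_assoc a b c := ArcAut.ext' (by ext f; rfl)
  one_mul a := ArcAut.ext' (by ext f; rfl)
  mul_one a := ArcAut.ext' (by ext f; rfl)
  inv_mul_cancel a := ArcAut.ext' (by
    apply RingEquiv.ext; intro f
    rw [ArcAut.mul_apply, ArcAut.inv_apply, RingEquiv.symm_apply_apply, ArcAut.one_apply])

/-- `φ ≡ ψ` modulo `t^m` (on constants, hence everywhere) -/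
def Cong (m : ℕ) (φ ψ : ArcAut K) : Prop :=
  ∀ x : K, ∀ j < m, PowerSeries.coeff j (φ.toEquiv (PowerSeries.C x)) =
    PowerSeries.coeff j (ψ.toEquiv (PowerSeries.C x))

/-- the series `Σ_r D^r(x)/r! t^(m r)` -/
noncomputable def expS (m : ℕ) (D : Derivation ℂ K K) (x : K) : PowerSeries K :=
  PowerSeries.mk (fun j => if m ∣ j then
    algebraMap ℂ K (1 / ((j / m).factorial : ℂ)) * (D^[j / m]) x else 0)

open Classical in
/-- `exp(t^m D)` -/
noncomputable def expA (m : ℕ) (D : Derivation ℂ K K) : ArcAut K :=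
  if h : ∃ φ : ArcAut K, ∀ x, φ.toEquiv (PowerSeries.C x) = expS m D x then h.choose else 1

/-- `φ` maps `O_{S,y}[[t]]` onto itself -/
def Pres {k : ℕ} (L : Fin k → Fin 3 → ℂ) [Algebra Fn K] (y : Pt) (φ : ArcAut K) : Prop :=
  SameAt L y φ 1

/-- the coefficientwise action of a field automorphism on power series -/
noncomputable def mapE (σ : K ≃+* K) : PowerSeries K ≃+* PowerSeries K where
  toFun f := PowerSeries.map (σ : K →+* K) f
  invFun f := PowerSeries.map (σ.symm : K →+* K) f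
  left_inv f := by ext n; simp [PowerSeries.coeff_map]
  right_inv f := by ext n; simp [PowerSeries.coeff_map]
  map_mul' f g := map_mul _ f g
  map_add' f g := map_add _ f g

theorem mapE_apply (σ : K ≃+* K) (f : PowerSeries K) :
    mapE σ f = PowerSeries.map (σ : K →+* K) f := rfl

theorem coeff_mapE (σ : K ≃+* K) (f : PowerSeries K) (n : ℕ) :
    PowerSeries.coeff n (mapE σ f) = σ (PowerSeries.coeff n f) := by
  rw [mapE_apply, PowerSeries.coeff_map]; rfl

theorem mapE_C (σ : K ≃+* K) (x : K) : mapE σ (PowerSeries.C x) = PowerSeries.C (σ x) := by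
  rw [mapE_apply, PowerSeries.map_C]; rfl

theorem mapE_X (σ : K ≃+* K) : mapE σ PowerSeries.X = PowerSeries.X := by
  rw [mapE_apply, PowerSeries.map_X]

theorem mapE_symm (σ : K ≃+* K) (f : PowerSeries K) : mapE σ (mapE σ.symm f) = f := by
  ext n; simp [coeff_mapE]

/-- conjugation by a field automorphism over `Fn` -/
noncomputable def conjA [Algebra Fn K] [IsScalarTower ℂ Fn K] (σ : K ≃ₐ[Fn] K) (φ : ArcAut K) :
    ArcAut K where
  toEquiv := ((mapE (σ : K ≃+* K).symm).trans φ.toEquiv).trans (mapE (σ : K ≃+* K))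
  map_X := by
    rw [RingEquiv.trans_apply, RingEquiv.trans_apply, mapE_X, φ.map_X, mapE_X]
  map_C c := by
    have h1 : (σ : K ≃+* K).symm (algebraMap ℂ K c) = algebraMap ℂ K c := by
      rw [RingEquiv.symm_apply_eq]
      have := σ.commutes (algebraMap ℂ Fn c)
      rw [← IsScalarTower.algebraMap_apply] at this
      exact this.symm
    rw [RingEquiv.trans_apply, RingEquiv.trans_apply, mapE_C, h1, φ.map_C, mapE_C]
    congr 1
    rw [← RingEquiv.eq_symm_apply, h1]
  map_zero f := by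
    rw [RingEquiv.trans_apply, RingEquiv.trans_apply]
    have h1 := φ.map_zero (mapE (σ : K ≃+* K).symm f)
    have key : ∀ (τ : K ≃+* K) (g : PowerSeries K),
        PowerSeries.constantCoeff (mapE τ g) = τ (PowerSeries.constantCoeff g) := by
      intro τ g
      have := coeff_mapE τ g 0
      simpa using this
    rw [key, h1, key]
    exact RingEquiv.apply_symm_apply _ _

theorem conjA_apply [Algebra Fn K] [IsScalarTower ℂ Fn K] (σ : K ≃ₐ[Fn] K) (φ : ArcAut K)
    (f : PowerSeries K) :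
    (conjA σ φ).toEquiv f =
      mapE (σ : K ≃+* K) (φ.toEquiv (mapE (σ : K ≃+* K).symm f)) := rfl

/-- deformation with explicit neighbourhoods `U_y = {y' : all of T y regular at y'}` -/
def DeformT {k : ℕ} (L : Fin k → Fin 3 → ℂ) [Algebra Fn K] (T : Pt → Finset Fn)
    (φ : Pt → ArcAut K) : Prop :=
  ∀ y, (∀ f ∈ T y, Regular L y f) ∧ ∀ y', (∀ f ∈ T y, Regular L y' f) → SameAt L y' (φ y') (φ y)

end HKR
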