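import Pool.Agent.Lib.HKR.BDefs
/-!
HKR.B1.  Regular functions at y form a local ring with value map Val.
FACTS.  along is multiplicative and additive (an algebra map in A); along A q (a v + b q): not needed.
aff is injective on forms of one degree e (aff A = A(1,x,y); A homogeneous and A(1,x,y) = 0 implies A = 0).
Hence if f = A/B = A'/B' (data (e,r), (e',r')), A B' = A' B as forms, so comparing the coefficients of
T^(r+r') of along (·) q w (products of the leading coefficients, lower ones vanish):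
a_r b'_r' = a'_r' b_r: uniqueness of the value.
add: f + f' = (A B' + A' B)/(B B'), order r + r'.  inv: if c ≠ 0, f⁻¹ = B/A.
-/
open MvPolynomial
namespace HKR
variable {k : ℕ} {L : Fin k → Fin 3 → ℂ} {y : Pt}

private noncomputable def b1dh : MvPolynomial (Fin 3) ℂ →ₐ[ℂ] MvPolynomial (Fin 2) ℂ :=
  MvPolynomial.aeval ![1, X 0, X 1]

private theorem b1_aff (A : MvPolynomial (Fin 3) ℂ) :
    aff A = algebraMap (MvPolynomial (Fin 2) ℂ) Fn (b1dh A) := by
  have h : aff = (IsScalarTower.toAlgHom ℂ (MvPolynomial (Fin 2) ℂ) Fn).comp b1dh := by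
    apply MvPolynomial.algHom_ext
    intro i
    fin_cases i <;> simp [aff, b1dh]
  rw [h]; rfl

private theorem b1_eval_smul {e : ℕ} {A : MvPolynomial (Fin 3) ℂ} (hA : A.IsHomogeneous e) (a : ℂ)
    (x : Fin 3 → ℂ) : MvPolynomial.eval (fun i => a * x i) A = a ^ e * MvPolynomial.eval x A := by
  rw [MvPolynomial.eval_eq', MvPolynomial.eval_eq', Finset.mul_sum]
  refine Finset.sum_congr rfl fun d hd => ?_
  have h1 : ∑ i, d i = e := by
    have h2 : d.degree = e := by
      rw [Finsupp.degree_eq_weight_one]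
      exact hA (MvPolynomial.mem_support_iff.1 hd)
    rw [Finsupp.degree_eq_sum] at h2
    exact h2
  have h3 : ∏ i, (a * x i) ^ d i = a ^ e * ∏ i, x i ^ d i := by
    rw [← h1, ← Finset.prod_pow_eq_pow_sum, ← Finset.prod_mul_distrib]
    exact Finset.prod_congr rfl fun i _ => mul_pow _ _ _
  rw [h3]; ring

theorem aff_inj {e : ℕ} {A : MvPolynomial (Fin 3) ℂ} (hA : A.IsHomogeneous e) (h : aff A = 0) :
    A = 0 := by
  rw [b1_aff] at h
  have h0 : b1dh A = 0 := by
    have := (IsFractionRing.injective (MvPolynomial (Fin 2) ℂ) Fn) (h.trans (map_zero _).symm)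
    exact this
  have h1 : ∀ s t : ℂ, MvPolynomial.eval ![1, s, t] A = 0 := by
    intro s t
    have h2 : (MvPolynomial.aeval ![s, t] : MvPolynomial (Fin 2) ℂ →ₐ[ℂ] ℂ).comp b1dh =
        MvPolynomial.aeval ![1, s, t] := by
      apply MvPolynomial.algHom_ext
      intro i
      fin_cases i <;> simp [b1dh]
    have h3 := DFunLike.congr_fun h2 A
    rw [AlgHom.comp_apply, h0, map_zero] at h3
    rw [← MvPolynomial.coe_aeval_eq_eval]
    exact h3.symm
  have h2 : (X 0 : MvPolynomial (Fin 3) ℂ) * A = 0 := by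
    apply MvPolynomial.funext
    intro x
    rw [map_mul, map_zero, MvPolynomial.eval_X]
    by_cases hx : x 0 = 0
    · rw [hx, zero_mul]
    · have h3 := b1_eval_smul hA (x 0) ![1, x 1 / x 0, x 2 / x 0]
      rw [h1, mul_zero] at h3
      have h4 : (fun i => x 0 * (![1, x 1 / x 0, x 2 / x 0] : Fin 3 → ℂ) i) = x := by
        funext i
        fin_cases i
        · simp
        · simp only [Fin.mk_one, Matrix.cons_val_one, Matrix.cons_val_zero]
          field_simp
        · show x 0 * (x 2 / x 0) = x 2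
          field_simp
      rw [h4] at h3
      rw [h3, mul_zero]
  rcases mul_eq_zero.1 h2 with h3 | h3
  · exact absurd h3 (MvPolynomial.X_ne_zero 0)
  · exact h3

private theorem b1_lin_hom (l : Fin 3 → ℂ) : (lin l).IsHomogeneous 1 :=
  MvPolynomial.IsHomogeneous.sum _ _ _ fun _ _ => MvPolynomial.isHomogeneous_C_mul_X _ _

theorem fl_ne_zero {l : Fin 3 → ℂ} (hl : l ≠ 0) : fl l ≠ 0 := by
  intro h
  apply hl
  have h1 : lin l = 0 := aff_inj (b1_lin_hom l) h
  funext j
  have h2 : MvPolynomial.eval (Pi.single j 1) (lin l) = l j := by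
    simp [lin, Pi.single_apply]
  rw [h1, map_zero] at h2
  exact h2.symm

private theorem b1_mul (A B : MvPolynomial (Fin 3) ℂ) (q v : Fin 3 → ℂ) :
    along (A * B) q v = along A q v * along B q v := map_mul _ _ _

private theorem b1_add (A B : MvPolynomial (Fin 3) ℂ) (q v : Fin 3 → ℂ) :
    along (A + B) q v = along A q v + along B q v := map_add _ _ _

private theorem b1_coeff {P Q : Polynomial ℂ} {r s : ℕ} (hP : Polynomial.X ^ r ∣ P)
    (hQ : Polynomial.X ^ s ∣ Q) : (P * Q).coeff (r + s) = P.coeff r * Q.coeff s := by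
  obtain ⟨P1, rfl⟩ := hP
  obtain ⟨Q1, rfl⟩ := hQ
  have h1 : Polynomial.X ^ r * P1 * (Polynomial.X ^ s * Q1) =
      Polynomial.X ^ (r + s) * (P1 * Q1) := by ring
  have h2 := Polynomial.coeff_X_pow_mul (P1 * Q1) (r + s) 0
  have h3 := Polynomial.coeff_X_pow_mul P1 r 0
  have h4 := Polynomial.coeff_X_pow_mul Q1 s 0
  rw [zero_add] at h2 h3 h4
  rw [h1, h2, h3, h4, Polynomial.mul_coeff_zero]

private theorem b1_lin (l q v : Fin 3 → ℂ) : along (lin l) q v =
    Polynomial.C (l ⬝ᵥ q) + Polynomial.X * Polynomial.C (l ⬝ᵥ v) := by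
  simp only [along, lin, map_add, map_mul, MvPolynomial.aeval_X, MvPolynomial.aeval_C,
    dotProduct, Polynomial.algebraMap_eq, Fin.sum_univ_three]
  ring

theorem regular_iff_val {f : Fn} : Regular L y f ↔ ∃ c, Val L y f c := by
  constructor
  · rintro ⟨e, r, A, B, h1, h2, h3, h4, h5, h6, h7⟩
    exact ⟨(along A y.q y.w).coeff r / (along B y.q y.w).coeff r, e, r, A, B, h1, h2, h3, h4, h5,
      h6, h7, (div_mul_cancel₀ _ h6).symm⟩
  · rintro ⟨c, e, r, A, B, h1, h2, h3, h4, h5, h6, h7, h8⟩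
    exact ⟨e, r, A, B, h1, h2, h3, h4, h5, h6, h7⟩

theorem Val.unique {f : Fn} {c c' : ℂ} (h : Val L y f c) (h' : Val L y f c') : c = c' := by
  obtain ⟨e, r, A, B, h1, h2, h3, h4, h5, h6, h7, h8⟩ := h
  obtain ⟨e', r', A', B', h1', h2', h3', h4', h5', h6', h7', h8'⟩ := h'
  have e1 : A * B' = A' * B := by
    rw [← sub_eq_zero]
    have e2 : (A' * B).IsHomogeneous (e + e') := by
      rw [add_comm e e']; exact h1'.mul h2
    refine aff_inj ((h1.mul h2').sub e2) ?_
    rw [map_sub, map_mul, map_mul, ← h7, ← h7']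
    ring
  have e3 := congrArg (fun P => (along P y.q y.w).coeff (r + r')) e1
  simp only [b1_mul] at e3
  rw [b1_coeff (h4 _) (h5' _), add_comm r r', b1_coeff (h4' _) (h5 _), h8, h8'] at e3
  have e4 : (c - c') * ((along B y.q y.w).coeff r * (along B' y.q y.w).coeff r') = 0 := by
    linear_combination e3
  rcases mul_eq_zero.1 e4 with e5 | e5
  · exact sub_eq_zero.1 e5
  · exact absurd e5 (mul_ne_zero h6 h6')

theorem Val.const (c : ℂ) : Val L y (algebraMap ℂ Fn c) c := by
  refine ⟨0, 0, C c, 1, isHomogeneous_C _ _, isHomogeneous_one _ _, Or.inl rfl, fun v => ?_,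
    fun v => ?_, ?_, ?_, ?_⟩
  · rw [pow_zero]; exact one_dvd _
  · rw [pow_zero]; exact one_dvd _
  · simp [along]
  · rw [map_one, mul_one, ← MvPolynomial.algebraMap_eq, aff.commutes]
  · simp [along]

theorem Val.add {f f' : Fn} {c c' : ℂ} (h : Val L y f c) (h' : Val L y f' c') :
    Val L y (f + f') (c + c') := by
  obtain ⟨e, r, A, B, h1, h2, h3, h4, h5, h6, h7, h8⟩ := h
  obtain ⟨e', r', A', B', h1', h2', h3', h4', h5', h6', h7', h8'⟩ := h'
  refine ⟨e + e', r + r', A * B' + A' * B, B * B', ?_, h2.mul h2', ?_, fun v => ?_, fun v => ?_,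
    ?_, ?_, ?_⟩
  · refine (h1.mul h2').add ?_
    rw [add_comm e e']; exact h1'.mul h2
  · rcases h3 with h3 | h3
    · rcases h3' with h3' | h3'
      · left; omega
      · right; exact h3'
    · right; exact h3
  · rw [b1_add, b1_mul, b1_mul, pow_add]
    refine dvd_add (mul_dvd_mul (h4 v) (h5' v)) ?_
    rw [mul_comm (along A' y.q v)]
    exact mul_dvd_mul (h5 v) (h4' v)
  · rw [b1_mul, pow_add]; exact mul_dvd_mul (h5 v) (h5' v)
  · rw [b1_mul, b1_coeff (h5 _) (h5' _)]; exact mul_ne_zero h6 h6'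
  · rw [map_add, map_mul, map_mul, map_mul, ← h7, ← h7']; ring
  · rw [b1_add, b1_mul, b1_mul, b1_mul, Polynomial.coeff_add, b1_coeff (h4 _) (h5' _),
      b1_coeff (h5 _) (h5' _), mul_comm (along A' y.q y.w), b1_coeff (h5 _) (h4' _), h8, h8']
    ring

theorem Val.mul {f f' : Fn} {c c' : ℂ} (h : Val L y f c) (h' : Val L y f' c') :
    Val L y (f * f') (c * c') := by
  obtain ⟨e, r, A, B, h1, h2, h3, h4, h5, h6, h7, h8⟩ := h
  obtain ⟨e', r', A', B', h1', h2', h3', h4', h5', h6', h7', h8'⟩ := h'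
  refine ⟨e + e', r + r', A * A', B * B', h1.mul h1', h2.mul h2', ?_, fun v => ?_, fun v => ?_,
    ?_, ?_, ?_⟩
  · rcases h3 with h3 | h3
    · rcases h3' with h3' | h3'
      · left; omega
      · right; exact h3'
    · right; exact h3
  · rw [b1_mul, pow_add]; exact mul_dvd_mul (h4 v) (h4' v)
  · rw [b1_mul, pow_add]; exact mul_dvd_mul (h5 v) (h5' v)
  · rw [b1_mul, b1_coeff (h5 _) (h5' _)]; exact mul_ne_zero h6 h6'
  · rw [map_mul, map_mul, ← h7, ← h7']; ring
  · rw [b1_mul, b1_mul, b1_coeff (h4 _) (h4' _), b1_coeff (h5 _) (h5' _), h8, h8']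
    ring

theorem Val.ne_zero {f : Fn} {c : ℂ} (h : Val L y f c) (hc : c ≠ 0) : f ≠ 0 := by
  obtain ⟨e, r, A, B, h1, h2, h3, h4, h5, h6, h7, h8⟩ := h
  rintro rfl
  rw [zero_mul] at h7
  have hA : A = 0 := aff_inj h1 h7.symm
  rw [hA] at h8
  have h9 : (along 0 y.q y.w).coeff r = 0 := by simp [along]
  rw [h9] at h8
  exact mul_ne_zero hc h6 h8.symm

theorem Val.inv {f : Fn} {c : ℂ} (h : Val L y f c) (hc : c ≠ 0) : Val L y f⁻¹ c⁻¹ := by
  have hf := h.ne_zero hc
  obtain ⟨e, r, A, B, h1, h2, h3, h4, h5, h6, h7, h8⟩ := h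
  refine ⟨e, r, B, A, h2, h1, h3, h5, h4, ?_, ?_, ?_⟩
  · rw [h8]; exact mul_ne_zero hc h6
  · rw [← h7, inv_mul_cancel_left₀ hf]
  · rw [h8, inv_mul_cancel_left₀ hc]

/-- ratio of linear forms, denominator nonzero at `q` -/
theorem Val.ratio {l l' : Fin 3 → ℂ} (h : l' ⬝ᵥ y.q ≠ 0) :
    Val L y (fl l / fl l') (l ⬝ᵥ y.q / l' ⬝ᵥ y.q) := by
  have hl' : fl l' ≠ 0 := by
    apply fl_ne_zero
    rintro rfl
    exact h (zero_dotProduct _)
  refine ⟨1, 0, lin l, lin l', b1_lin_hom l, b1_lin_hom l', Or.inl rfl, fun v => ?_, fun v => ?_,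
    ?_, ?_, ?_⟩
  · rw [pow_zero]; exact one_dvd _
  · rw [pow_zero]; exact one_dvd _
  · rw [b1_lin]; simpa using h
  · exact div_mul_cancel₀ _ hl'
  · rw [b1_lin, b1_lin]
    simp only [Polynomial.coeff_add, Polynomial.coeff_C_zero, Polynomial.mul_coeff_zero,
      Polynomial.coeff_X_zero, zero_mul, add_zero]
    rw [div_mul_cancel₀ _ h]

/-- ratio of linear forms vanishing at the multiple point `q` -/
theorem Val.ratio_mult (hm : Multiple L y.q) {l l' : Fin 3 → ℂ} (h0 : l ⬝ᵥ y.q = 0)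
    (h0' : l' ⬝ᵥ y.q = 0) (h : l' ⬝ᵥ y.w ≠ 0) :
    Val L y (fl l / fl l') (l ⬝ᵥ y.w / l' ⬝ᵥ y.w) := by
  have hl' : fl l' ≠ 0 := by
    apply fl_ne_zero
    rintro rfl
    exact h (zero_dotProduct _)
  refine ⟨1, 1, lin l, lin l', b1_lin_hom l, b1_lin_hom l', Or.inr hm, fun v => ?_, fun v => ?_,
    ?_, ?_, ?_⟩
  · rw [b1_lin, h0, map_zero, zero_add, pow_one]; exact dvd_mul_right _ _
  · rw [b1_lin, h0', map_zero, zero_add, pow_one]; exact dvd_mul_right _ _
  · rw [b1_lin, h0', map_zero, zero_add]; simpa using h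
  · exact div_mul_cancel₀ _ hl'
  · rw [b1_lin, b1_lin, h0, h0', map_zero, zero_add, zero_add]
    simp only [Polynomial.coeff_X_mul, Polynomial.coeff_C_zero]
    rw [div_mul_cancel₀ _ h]

theorem Regular.const (c : ℂ) : Regular L y (algebraMap ℂ Fn c) := regular_iff_val.2 ⟨c, Val.const c⟩

theorem Regular.add {f f' : Fn} (h : Regular L y f) (h' : Regular L y f') :
    Regular L y (f + f') := by
  obtain ⟨c, hc⟩ := regular_iff_val.1 h
  obtain ⟨c', hc'⟩ := regular_iff_val.1 h'
  exact regular_iff_val.2 ⟨_, hc.add hc'⟩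

theorem Regular.mul {f f' : Fn} (h : Regular L y f) (h' : Regular L y f') :
    Regular L y (f * f') := by
  obtain ⟨c, hc⟩ := regular_iff_val.1 h
  obtain ⟨c', hc'⟩ := regular_iff_val.1 h'
  exact regular_iff_val.2 ⟨_, hc.mul hc'⟩

theorem Regular.neg {f : Fn} (h : Regular L y f) : Regular L y (-f) := by
  have h1 : Regular L y (algebraMap ℂ Fn (-1) * f) := (Regular.const (-1)).mul h
  simpa using h1

theorem Regular.sub {f f' : Fn} (h : Regular L y f) (h' : Regular L y f') :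
    Regular L y (f - f') := by
  rw [sub_eq_add_neg]; exact h.add h'.neg

end HKR
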