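import Pool.Agent.Lib.HKR.B1
/-!
HKR.B2 (coordinates).  lx, ly, lz independent linear forms; x := lx/lz, y := ly/lz.
PROOFS.
coordP: psi (lx/lz) (ly/lz) is injective with fraction field Fn: a linear substitution g ∈ GL3 of the forms
of degree e in x0,x1,x2: for P of total degree ≤ e, psi P * (fl lz)^e = aff (P^h(lz,lx,ly)) with P^h the
homogenisation; (aff_inj).  Generation: every element of Fn is aff A / aff B with A, B forms of the
same degree (homogenise numerator and denominator), and A = A'(lz,lx,ly).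
coordB: x = s, y = s t: psi (lx/lz) (ly/lx) P(s,t): for injectivity multiply by a power of s.
regP: y with lz(q) ≠ 0 and q not multiple: Regular means f = A/B with forms of degree e, B(q) ≠ 0 (r = 0,
  along B q w has constant coefficient B(q)).  Dehomogenise by lz: Q := B/lz^e as polynomial in x, y, value
  B(q)/lz(q)^e ≠ 0.  Conversely homogenise P, Q to the same degree e: Q^h(q) = lz(q)^e Q(a,b) ≠ 0.
regB: q multiple, lx(q) = ly(q) = 0, lz(q) ≠ 0, lx(w) ≠ 0; a = 0, b = ly(w)/lx(w).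
  (→) f = A/B, A, B forms of degree e with order ≥ r at q: A = Σ_{i+j ≥ r} a_ij lx^i ly^j lz^(e-i-j) (order ≥ r in
  every direction v means the components of degree < r in (lx,ly) vanish), so A/(lz^(e-r) lx^r) =
  Σ a_ij s^(i+j-r) t^j is a polynomial in s, t; same for B, with value at (0,b): Σ_{i+j=r} b_ij b^j =
  (coefficient of T^r of B(q+Tw))/(lz(q)^(e-r) lx(w)^r) ≠ 0.
  (←) given P, Q in s, t take r, e large: multiply by lz^(e-r) lx^r: s^i t^j lx^r lz^(e-r) =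
  lx^(i+r-j) ly^j lz^(e-r-i) is a form of degree e of order ≥ r at q if r ≥ j, e ≥ r + i.
regB': lz(q) ≠ 0, lx(q) ≠ 0, q not multiple: from regP, since s = x, t = y/x and x(q) ≠ 0.
-/

open MvPolynomial
namespace HKR
variable {k : ℕ} {L : Fin k → Fin 3 → ℂ}

section aux

private theorem b2_comp3 {A B : Type} [CommRing A] [Algebra ℂ A] [CommRing B] [Algebra ℂ B]
    (φ : A →ₐ[ℂ] B) (a b c : A) (P : MvPolynomial (Fin 3) ℂ) :
    φ (aeval ![a, b, c] P) = aeval ![φ a, φ b, φ c] P := by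
  rw [comp_aeval_apply]
  congr 2
  funext i
  fin_cases i <;> rfl

private theorem b2_comp2 {A B : Type} [CommRing A] [Algebra ℂ A] [CommRing B] [Algebra ℂ B]
    (φ : A →ₐ[ℂ] B) (a b : A) (P : MvPolynomial (Fin 2) ℂ) :
    φ (aeval ![a, b] P) = aeval ![φ a, φ b] P := by
  rw [comp_aeval_apply]
  congr 2
  funext i
  fin_cases i <;> rfl

private theorem b2_scale {A : Type} [CommRing A] [Algebra ℂ A] {e : ℕ}
    {P : MvPolynomial (Fin 3) ℂ} (hP : P.IsHomogeneous e) (z a b c : A) :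
    aeval ![a * z, b * z, c * z] P = z ^ e * aeval ![a, b, c] P := by
  rw [aeval_def, aeval_def, eval₂_eq', eval₂_eq', Finset.mul_sum]
  refine Finset.sum_congr rfl fun d hd => ?_
  have h1 : d 0 + d 1 + d 2 = e := by
    have h2 := hP.degree_eq_sum_deg_support hd
    rw [h2, ← Fin.sum_univ_three (fun i => d i)]
    exact (Finset.sum_subset (Finset.subset_univ _) fun i _ hi => by simpa using hi).symm
  rw [Fin.prod_univ_three, Fin.prod_univ_three, ← h1]
  simp only [Matrix.cons_val_zero, Matrix.cons_val_one, Matrix.cons_val_two, Matrix.head_cons,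
    Matrix.tail_cons]
  ring

/-- the inverse matrix -/
private theorem b2_mat {lx ly lz : Fin 3 → ℂ} (h : LinearIndependent ℂ ![lx, ly, lz]) :
    ∃ N : Matrix (Fin 3) (Fin 3) ℂ, Matrix.of ![lx, ly, lz] * N = 1 ∧
      N * Matrix.of ![lx, ly, lz] = 1 := by
  have h1 : IsUnit (Matrix.of ![lx, ly, lz]) := by
    rw [← Matrix.linearIndependent_rows_iff_isUnit]
    exact h
  obtain ⟨u, hu⟩ := h1
  refine ⟨(u⁻¹ : (Matrix (Fin 3) (Fin 3) ℂ)ˣ), ?_, ?_⟩
  · rw [← hu, Units.mul_inv]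
  · rw [← hu, Units.inv_mul]

/-- vectors with prescribed values -/
private theorem b2_vec {lx ly lz : Fin 3 → ℂ} (h : LinearIndependent ℂ ![lx, ly, lz])
    (a b c : ℂ) : ∃ v : Fin 3 → ℂ, lx ⬝ᵥ v = a ∧ ly ⬝ᵥ v = b ∧ lz ⬝ᵥ v = c := by
  obtain ⟨N, hN, -⟩ := b2_mat h
  have h1 : (Matrix.of ![lx, ly, lz]).mulVec (N.mulVec ![a, b, c]) = ![a, b, c] := by
    rw [Matrix.mulVec_mulVec, hN, Matrix.one_mulVec]
  exact ⟨N.mulVec ![a, b, c], congrFun h1 0, congrFun h1 1, congrFun h1 2⟩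

private theorem b2_lin_hom (l : Fin 3 → ℂ) : (lin l).IsHomogeneous 1 := by
  unfold lin
  exact IsHomogeneous.sum _ _ _ fun j _ => isHomogeneous_C_mul_X _ _

private theorem b2_sub_hom (lx ly lz : Fin 3 → ℂ) {e : ℕ} {A : MvPolynomial (Fin 3) ℂ}
    (hA : A.IsHomogeneous e) :
    (aeval ![lin lx, lin ly, lin lz] A : MvPolynomial (Fin 3) ℂ).IsHomogeneous e := by
  have h1 := hA.aeval ![lin lx, lin ly, lin lz] (n := 1) (fun i => by
    fin_cases i <;> exact b2_lin_hom _)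
  rwa [one_mul] at h1

private theorem b2_repr {lx ly lz : Fin 3 → ℂ} (h : LinearIndependent ℂ ![lx, ly, lz]) {e : ℕ}
    {A : MvPolynomial (Fin 3) ℂ} (hA : A.IsHomogeneous e) :
    ∃ A' : MvPolynomial (Fin 3) ℂ, A'.IsHomogeneous e ∧
      A = aeval ![lin lx, lin ly, lin lz] A' := by
  obtain ⟨N, -, hN⟩ := b2_mat h
  refine ⟨aeval (fun j => C (N j 0) * X 0 + C (N j 1) * X 1 + C (N j 2) * X 2) A, ?_, ?_⟩
  · have h1 := hA.aeval (fun j => C (N j 0) * X 0 + C (N j 1) * X 1 + C (N j 2) * X 2 :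
      Fin 3 → MvPolynomial (Fin 3) ℂ) (n := 1) (fun j =>
        ((isHomogeneous_C_mul_X _ _).add (isHomogeneous_C_mul_X _ _)).add
          (isHomogeneous_C_mul_X _ _))
    rwa [one_mul] at h1
  · rw [comp_aeval_apply]
    conv_lhs => rw [← aeval_X_left_apply A]
    congr 2
    funext j
    simp only [map_add, map_mul, aeval_X, algHom_C, algebraMap_eq, Matrix.cons_val_zero,
      Matrix.cons_val_one, Matrix.cons_val]
    unfold lin
    simp only [Fin.sum_univ_three]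
    have h0 := fun i => congrFun (congrFun hN j) i
    simp only [Matrix.mul_apply, Fin.sum_univ_three, Matrix.of_apply, Matrix.cons_val_zero,
      Matrix.cons_val_one, Matrix.cons_val] at h0
    have e1 : ∀ i, (C (N j 0) * C (lx i) + C (N j 1) * C (ly i) + C (N j 2) * C (lz i) :
        MvPolynomial (Fin 3) ℂ) = C ((1 : Matrix (Fin 3) (Fin 3) ℂ) j i) := by
      intro i
      rw [← h0 i]
      simp only [C_add, C_mul]
    have e2 : (X j : MvPolynomial (Fin 3) ℂ) = C ((1 : Matrix (Fin 3) (Fin 3) ℂ) j 0) * X 0 +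
        C ((1 : Matrix (Fin 3) (Fin 3) ℂ) j 1) * X 1 +
        C ((1 : Matrix (Fin 3) (Fin 3) ℂ) j 2) * X 2 := by
      fin_cases j <;> simp [Matrix.one_apply]
    rw [e2, ← e1 0, ← e1 1, ← e1 2]
    ring

private theorem b2_aff (lx ly lz : Fin 3 → ℂ) (A : MvPolynomial (Fin 3) ℂ) :
    aff (aeval ![lin lx, lin ly, lin lz] A) = aeval ![fl lx, fl ly, fl lz] A :=
  b2_comp3 aff _ _ _ A

/-- `along` as an algebra homomorphism -/
private noncomputable def b2_al (q v : Fin 3 → ℂ) : MvPolynomial (Fin 3) ℂ →ₐ[ℂ] Polynomial ℂ :=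
  MvPolynomial.aeval (fun j => Polynomial.C (q j) + Polynomial.X * Polynomial.C (v j))

private theorem b2_al_lin (q v l : Fin 3 → ℂ) :
    b2_al q v (lin l) = Polynomial.C (l ⬝ᵥ q) + Polynomial.X * Polynomial.C (l ⬝ᵥ v) := by
  unfold b2_al lin
  simp only [Fin.sum_univ_three, map_add, map_mul, aeval_X, algHom_C, dotProduct,
    Polynomial.algebraMap_eq]
  ring

private theorem b2_along (lx ly lz q v : Fin 3 → ℂ) (A : MvPolynomial (Fin 3) ℂ) :
    along (aeval ![lin lx, lin ly, lin lz] A) q v =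
      aeval ![Polynomial.C (lx ⬝ᵥ q) + Polynomial.X * Polynomial.C (lx ⬝ᵥ v),
        Polynomial.C (ly ⬝ᵥ q) + Polynomial.X * Polynomial.C (ly ⬝ᵥ v),
        Polynomial.C (lz ⬝ᵥ q) + Polynomial.X * Polynomial.C (lz ⬝ᵥ v)] A := by
  change b2_al q v _ = _
  rw [b2_comp3, b2_al_lin, b2_al_lin, b2_al_lin]

/-- homogenisation -/
private theorem b2_hom (P : MvPolynomial (Fin 2) ℂ) : ∃ e0 : ℕ, ∀ e ≥ e0,
    ∃ A : MvPolynomial (Fin 3) ℂ, A.IsHomogeneous e ∧
      ∀ (R : Type) [CommRing R] [Algebra ℂ R] (x y z : R),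
        aeval ![x * z, y * z, z] A = z ^ e * aeval ![x, y] P := by
  induction P using MvPolynomial.induction_on with
  | C c =>
    refine ⟨0, fun e _ => ⟨C c * X 2 ^ e, ?_, fun R _ _ x y z => ?_⟩⟩
    · exact isHomogeneous_C_mul_X_pow _ _ _
    · simp only [map_mul, map_pow, algHom_C, aeval_X, Matrix.cons_val]
      ring
  | add P Q hP hQ =>
    obtain ⟨e1, h1⟩ := hP
    obtain ⟨e2, h2⟩ := hQ
    refine ⟨max e1 e2, fun e he => ?_⟩
    obtain ⟨A, hA, hA'⟩ := h1 e (le_trans (le_max_left _ _) he)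
    obtain ⟨B, hB, hB'⟩ := h2 e (le_trans (le_max_right _ _) he)
    refine ⟨A + B, hA.add hB, fun R _ _ x y z => ?_⟩
    rw [map_add, hA', hB', map_add]
    ring
  | mul_X P i hP =>
    obtain ⟨e1, h1⟩ := hP
    refine ⟨e1 + 1, fun e he => ?_⟩
    obtain ⟨e', rfl⟩ : ∃ e', e = e' + 1 := ⟨e - 1, by omega⟩
    obtain ⟨A, hA, hA'⟩ := h1 e' (by omega)
    fin_cases i
    · refine ⟨A * X 0, hA.mul (isHomogeneous_X _ _), fun R _ _ x y z => ?_⟩
      rw [map_mul, hA', map_mul]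
      simp only [aeval_X, Matrix.cons_val, Fin.zero_eta]
      ring
    · refine ⟨A * X 1, hA.mul (isHomogeneous_X _ _), fun R _ _ x y z => ?_⟩
      rw [map_mul, hA', map_mul]
      simp only [aeval_X, Matrix.cons_val, Fin.mk_one]
      ring

/-- the substitution `t = y / x` -/
private theorem b2_up (P : MvPolynomial (Fin 2) ℂ) : ∃ e0 : ℕ, ∀ e ≥ e0,
    ∃ A : MvPolynomial (Fin 2) ℂ,
      ∀ (R : Type) [CommRing R] [Algebra ℂ R] (x t : R),
        aeval ![x, x * t] A = x ^ e * aeval ![x, t] P := by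
  induction P using MvPolynomial.induction_on with
  | C c =>
    refine ⟨0, fun e _ => ⟨C c * X 0 ^ e, fun R _ _ x t => ?_⟩⟩
    simp only [map_mul, map_pow, algHom_C, aeval_X, Matrix.cons_val]
    ring
  | add P Q hP hQ =>
    obtain ⟨e1, h1⟩ := hP
    obtain ⟨e2, h2⟩ := hQ
    refine ⟨max e1 e2, fun e he => ?_⟩
    obtain ⟨A, hA'⟩ := h1 e (le_trans (le_max_left _ _) he)
    obtain ⟨B, hB'⟩ := h2 e (le_trans (le_max_right _ _) he)
    refine ⟨A + B, fun R _ _ x t => ?_⟩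
    rw [map_add, hA', hB', map_add]
    ring
  | mul_X P i hP =>
    obtain ⟨e1, h1⟩ := hP
    refine ⟨e1 + 1, fun e he => ?_⟩
    obtain ⟨e', rfl⟩ : ∃ e', e = e' + 1 := ⟨e - 1, by omega⟩
    fin_cases i
    · obtain ⟨A, hA'⟩ := h1 (e' + 1) (by omega)
      refine ⟨A * X 0, fun R _ _ x t => ?_⟩
      rw [map_mul, hA', map_mul]
      simp only [aeval_X, Matrix.cons_val, Fin.zero_eta]
      ring
    · obtain ⟨A, hA'⟩ := h1 e' (by omega)
      refine ⟨A * X 1, fun R _ _ x t => ?_⟩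
      rw [map_mul, hA', map_mul]
      simp only [aeval_X, Matrix.cons_val, Fin.mk_one]
      ring

/-- forms of high order at the point -/
private theorem b2_blow (P : MvPolynomial (Fin 2) ℂ) : ∃ r0 : ℕ, ∀ r ≥ r0, ∃ e0 : ℕ, ∀ e ≥ e0,
    ∃ A : MvPolynomial (Fin 3) ℂ, A.IsHomogeneous e ∧
      (∀ (R : Type) [CommRing R] [Algebra ℂ R] (x t z : R),
        aeval ![x * z, x * t * z, z] A = z ^ e * x ^ r * aeval ![x, t] P) ∧
      ∀ (R : Type) [CommRing R] [Algebra ℂ R] (T a b z : R),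
        T ^ r ∣ aeval ![T * a, T * b, z] A := by
  induction P using MvPolynomial.induction_on with
  | C c =>
    refine ⟨0, fun r _ => ⟨r, fun e he => ⟨C c * X 0 ^ r * X 2 ^ (e - r), ?_, fun R _ _ x t z => ?_,
      fun R _ _ T a b z => ?_⟩⟩⟩
    · have h1 := (isHomogeneous_C_mul_X_pow (σ := Fin 3) c 0 r).mul
        (isHomogeneous_X_pow (R := ℂ) (σ := Fin 3) 2 (e - r))
      rwa [Nat.add_sub_cancel' he] at h1
    · obtain ⟨d, rfl⟩ := Nat.exists_eq_add_of_le he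
      simp only [map_mul, map_pow, algHom_C, aeval_X, Matrix.cons_val, Nat.add_sub_cancel_left]
      ring
    · simp only [map_mul, map_pow, algHom_C, aeval_X, Matrix.cons_val]
      exact Dvd.intro (algebraMap ℂ R c * a ^ r * z ^ (e - r)) (by ring)
  | add P Q hP hQ =>
    obtain ⟨r1, h1⟩ := hP
    obtain ⟨r2, h2⟩ := hQ
    refine ⟨max r1 r2, fun r hr => ?_⟩
    obtain ⟨e1, h1⟩ := h1 r (le_trans (le_max_left _ _) hr)
    obtain ⟨e2, h2⟩ := h2 r (le_trans (le_max_right _ _) hr)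
    refine ⟨max e1 e2, fun e he => ?_⟩
    obtain ⟨A, hA, hA', hA''⟩ := h1 e (le_trans (le_max_left _ _) he)
    obtain ⟨B, hB, hB', hB''⟩ := h2 e (le_trans (le_max_right _ _) he)
    refine ⟨A + B, hA.add hB, fun R _ _ x t z => ?_, fun R _ _ T a b z => ?_⟩
    · rw [map_add, hA', hB', map_add]
      ring
    · rw [map_add]
      exact dvd_add (hA'' R T a b z) (hB'' R T a b z)
  | mul_X P i hP =>
    obtain ⟨r1, h1⟩ := hP
    refine ⟨r1 + 1, fun r hr => ?_⟩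
    obtain ⟨r', rfl⟩ : ∃ r', r = r' + 1 := ⟨r - 1, by omega⟩
    fin_cases i
    · obtain ⟨e1, h1⟩ := h1 (r' + 1) (by omega)
      refine ⟨e1 + 1, fun e he => ?_⟩
      obtain ⟨e', rfl⟩ : ∃ e', e = e' + 1 := ⟨e - 1, by omega⟩
      obtain ⟨A, hA, hA', hA''⟩ := h1 e' (by omega)
      refine ⟨A * X 0, hA.mul (isHomogeneous_X _ _), fun R _ _ x t z => ?_,
        fun R _ _ T a b z => ?_⟩
      · rw [map_mul, hA', map_mul]
        simp only [aeval_X, Matrix.cons_val, Fin.zero_eta]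
        ring
      · rw [map_mul]
        exact Dvd.dvd.mul_right (hA'' R T a b z) _
    · obtain ⟨e1, h1⟩ := h1 r' (by omega)
      refine ⟨e1 + 1, fun e he => ?_⟩
      obtain ⟨e', rfl⟩ : ∃ e', e = e' + 1 := ⟨e - 1, by omega⟩
      obtain ⟨A, hA, hA', hA''⟩ := h1 e' (by omega)
      refine ⟨A * X 1, hA.mul (isHomogeneous_X _ _), fun R _ _ x t z => ?_,
        fun R _ _ T a b z => ?_⟩
      · rw [map_mul, hA', map_mul]
        simp only [aeval_X, Matrix.cons_val, Fin.mk_one]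
        ring
      · rw [map_mul, pow_succ]
        refine mul_dvd_mul (hA'' R T a b z) ?_
        simp only [aeval_X, Matrix.cons_val]
        exact dvd_mul_right _ _

/-- division by powers of `X 0` -/
private theorem b2_dvd1 (P : MvPolynomial (Fin 2) ℂ) :
    ∃ Q, P = X 0 * Q + aeval ![0, X 1] P := by
  induction P using MvPolynomial.induction_on with
  | C c => exact ⟨0, by simp⟩
  | add P Q hP hQ =>
    obtain ⟨A, hA⟩ := hP
    obtain ⟨B, hB⟩ := hQ
    refine ⟨A + B, ?_⟩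
    conv_lhs => rw [hA, hB]
    rw [map_add]
    ring
  | mul_X P i hP =>
    obtain ⟨A, hA⟩ := hP
    fin_cases i
    · refine ⟨P, ?_⟩
      simp only [map_mul, aeval_X, Matrix.cons_val, Fin.zero_eta]
      ring
    · refine ⟨A * X 1, ?_⟩
      conv_lhs => rw [hA]
      simp only [map_mul, aeval_X, Matrix.cons_val, Fin.mk_one]
      ring

private theorem b2_dvd (r : ℕ) (P : MvPolynomial (Fin 2) ℂ)
    (h : ∀ b : ℂ, Polynomial.X ^ r ∣
      (aeval ![Polynomial.X, Polynomial.C b] P : Polynomial ℂ)) :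
    ∃ Q, P = X 0 ^ r * Q := by
  induction r with
  | zero => exact ⟨P, by simp⟩
  | succ r ih =>
    obtain ⟨Q, rfl⟩ := ih fun b => dvd_trans (pow_dvd_pow _ (Nat.le_succ r)) (h b)
    obtain ⟨Q', hQ'⟩ := b2_dvd1 Q
    have h1 : (aeval ![0, X 1] Q : MvPolynomial (Fin 2) ℂ) = 0 := by
      refine MvPolynomial.funext fun v => ?_
      have h2 := h (v 1)
      simp only [map_mul, map_pow, aeval_X, Matrix.cons_val, pow_succ] at h2
      have h3 : Polynomial.X ∣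
          (aeval ![Polynomial.X, Polynomial.C (v 1)] Q : Polynomial ℂ) :=
        (mul_dvd_mul_iff_left (pow_ne_zero r Polynomial.X_ne_zero)).1 h2
      rw [Polynomial.X_dvd_iff, Polynomial.coeff_zero_eq_eval_zero,
        ← Polynomial.coe_aeval_eq_eval, b2_comp2] at h3
      simp only [Polynomial.aeval_X, Polynomial.aeval_C, Algebra.algebraMap_self,
        RingHom.id_apply] at h3
      rw [map_zero]
      have h4 := b2_comp2 (MvPolynomial.aeval v : MvPolynomial (Fin 2) ℂ →ₐ[ℂ] ℂ) 0 (X 1) Q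
      rw [map_zero, aeval_X, h3] at h4
      exact h4
    rw [h1, add_zero] at hQ'
    exact ⟨Q', by rw [hQ']; ring⟩

private noncomputable def b2_cc : PowerSeries ℂ →ₐ[ℂ] ℂ :=
  { PowerSeries.constantCoeff (R := ℂ) with
    commutes' := fun r => by
      simp }

private theorem b2_cc_apply (f : PowerSeries ℂ) : b2_cc f = PowerSeries.constantCoeff f := rfl

/-- the leading coefficient -/
private theorem b2_coef {e r : ℕ} {A : MvPolynomial (Fin 3) ℂ} {Q : MvPolynomial (Fin 2) ℂ}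
    (h : ∀ (R : Type) [CommRing R] [Algebra ℂ R] (x t z : R),
      aeval ![x * z, x * t * z, z] A = z ^ e * x ^ r * aeval ![x, t] Q) (a b c d : ℂ)
    (hc : c ≠ 0) :
    (aeval ![Polynomial.X * Polynomial.C a, Polynomial.X * Polynomial.C (a * b),
      Polynomial.C c + Polynomial.X * Polynomial.C d] A : Polynomial ℂ).coeff r =
      c ^ e * (a / c) ^ r * aeval ![(0 : ℂ), b] Q := by
  set z : PowerSeries ℂ := PowerSeries.C c + PowerSeries.X * PowerSeries.C d with hz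
  have hcz : PowerSeries.constantCoeff z = c := by simp [hz]
  have hzu : z * z⁻¹ = 1 := PowerSeries.mul_inv_cancel z (by rw [hcz]; exact hc)
  set x : PowerSeries ℂ := PowerSeries.X * PowerSeries.C a * z⁻¹ with hx
  have h1 := h (PowerSeries ℂ) x (PowerSeries.C b) z
  have h2 : x * z = PowerSeries.X * PowerSeries.C a := by
    rw [hx, mul_assoc, mul_comm z⁻¹ z, hzu, mul_one]
  have h3 : x * PowerSeries.C b * z = PowerSeries.X * PowerSeries.C (a * b) := by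
    rw [mul_right_comm, h2, map_mul, mul_assoc]
  rw [h2, h3] at h1
  have h4 : ((aeval ![Polynomial.X * Polynomial.C a, Polynomial.X * Polynomial.C (a * b),
      Polynomial.C c + Polynomial.X * Polynomial.C d] A : Polynomial ℂ) : PowerSeries ℂ) =
      z ^ e * x ^ r * aeval ![x, PowerSeries.C b] Q := by
    rw [← h1]
    have h5 := b2_comp3 (Polynomial.coeToPowerSeries.algHom (R := ℂ) ℂ)
      (Polynomial.X * Polynomial.C a) (Polynomial.X * Polynomial.C (a * b))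
      (Polynomial.C c + Polynomial.X * Polynomial.C d) A
    simp only [Polynomial.coeToPowerSeries.algHom_apply, Polynomial.coe_mul, Polynomial.coe_X,
      Polynomial.coe_C, Polynomial.coe_add, Algebra.algebraMap_self, PowerSeries.map_id] at h5
    exact h5
  rw [← Polynomial.coeff_coe, h4]
  have h6 : z ^ e * x ^ r * aeval ![x, PowerSeries.C b] Q =
      PowerSeries.X ^ r * (z ^ e * (PowerSeries.C a * z⁻¹) ^ r * aeval ![x, PowerSeries.C b] Q) := by
    rw [hx, mul_assoc PowerSeries.X, mul_pow PowerSeries.X]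
    ring
  rw [h6, PowerSeries.coeff_X_pow_mul', if_pos le_rfl, Nat.sub_self,
    PowerSeries.coeff_zero_eq_constantCoeff_apply]
  have hcx : PowerSeries.constantCoeff x = 0 := by simp [hx]
  have h7 : PowerSeries.constantCoeff (aeval ![x, PowerSeries.C b] Q) =
      aeval ![(0 : ℂ), b] Q := by
    have h8 := b2_comp2 (b2_cc) x (PowerSeries.C b) Q
    rw [b2_cc_apply, b2_cc_apply, b2_cc_apply, hcx, PowerSeries.constantCoeff_C] at h8
    exact h8
  rw [map_mul, map_mul, map_pow, map_pow, map_mul, h7, hcz, PowerSeries.constantCoeff_C,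
    PowerSeries.constantCoeff_inv, hcz, div_eq_mul_inv]

end aux

private theorem b2_lz {lx ly lz : Fin 3 → ℂ} (h : LinearIndependent ℂ ![lx, ly, lz]) :
    fl lz ≠ 0 := fl_ne_zero (h.ne_zero 2)

private theorem b2_lx {lx ly lz : Fin 3 → ℂ} (h : LinearIndependent ℂ ![lx, ly, lz]) :
    fl lx ≠ 0 := fl_ne_zero (h.ne_zero 0)

private theorem b2_lin_eval (v l : Fin 3 → ℂ) : aeval v (lin l) = l ⬝ᵥ v := by
  unfold lin
  simp [dotProduct]

private theorem b2_eval (lx ly lz v : Fin 3 → ℂ) (A : MvPolynomial (Fin 3) ℂ) :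
    aeval v (aeval ![lin lx, lin ly, lin lz] A : MvPolynomial (Fin 3) ℂ) =
      aeval ![lx ⬝ᵥ v, ly ⬝ᵥ v, lz ⬝ᵥ v] A := by
  have h1 := b2_comp3 (MvPolynomial.aeval v : MvPolynomial (Fin 3) ℂ →ₐ[ℂ] ℂ) (lin lx) (lin ly)
    (lin lz) A
  rw [b2_lin_eval, b2_lin_eval, b2_lin_eval] at h1
  exact h1

private theorem b2_along0 (A : MvPolynomial (Fin 3) ℂ) (q v : Fin 3 → ℂ) :
    (along A q v).coeff 0 = aeval q A := by
  unfold along
  rw [Polynomial.coeff_zero_eq_eval_zero, ← Polynomial.coe_aeval_eq_eval, comp_aeval_apply]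
  congr 2
  funext j
  simp

/-- K1 -/
private theorem b2_k1 {lx ly lz : Fin 3 → ℂ} (h : LinearIndependent ℂ ![lx, ly, lz]) {e : ℕ}
    {A : MvPolynomial (Fin 3) ℂ} {P : MvPolynomial (Fin 2) ℂ}
    (hA : ∀ (R : Type) [CommRing R] [Algebra ℂ R] (x y z : R),
        aeval ![x * z, y * z, z] A = z ^ e * aeval ![x, y] P) :
    aff (aeval ![lin lx, lin ly, lin lz] A) =
      (fl lz) ^ e * psi (fl lx / fl lz) (fl ly / fl lz) P := by
  have hz := b2_lz h
  rw [b2_aff]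
  have h1 := hA Fn (fl lx / fl lz) (fl ly / fl lz) (fl lz)
  rw [div_mul_cancel₀ _ hz, div_mul_cancel₀ _ hz] at h1
  exact h1

/-- K2 -/
private theorem b2_k2 {lx ly lz : Fin 3 → ℂ} (h : LinearIndependent ℂ ![lx, ly, lz]) {e : ℕ}
    {A : MvPolynomial (Fin 3) ℂ} (hA : A.IsHomogeneous e) :
    ∃ P : MvPolynomial (Fin 2) ℂ,
      aff A = (fl lz) ^ e * psi (fl lx / fl lz) (fl ly / fl lz) P ∧
      ∀ v, lz ⬝ᵥ v ≠ 0 → aeval v A =
        (lz ⬝ᵥ v) ^ e * aeval ![lx ⬝ᵥ v / lz ⬝ᵥ v, ly ⬝ᵥ v / lz ⬝ᵥ v] P := by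
  obtain ⟨A', hA', rfl⟩ := b2_repr h hA
  have key : ∀ (R : Type) [CommRing R] [Algebra ℂ R] (x y z : R),
      aeval ![x * z, y * z, z] A' =
        z ^ e * aeval ![x, y] (aeval ![X 0, X 1, 1] A' : MvPolynomial (Fin 2) ℂ) := by
    intro R _ _ x y z
    have h1 := b2_scale hA' z x y 1
    rw [one_mul] at h1
    rw [h1]
    have h2 := b2_comp3 (MvPolynomial.aeval ![x, y] : MvPolynomial (Fin 2) ℂ →ₐ[ℂ] R) (X 0) (X 1)
      1 A'
    rw [aeval_X, aeval_X, map_one] at h2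
    rw [h2]
    rfl
  refine ⟨aeval ![X 0, X 1, 1] A', b2_k1 h key, fun v hv => ?_⟩
  rw [b2_eval]
  have h1 := key ℂ (lx ⬝ᵥ v / lz ⬝ᵥ v) (ly ⬝ᵥ v / lz ⬝ᵥ v) (lz ⬝ᵥ v)
  rwa [div_mul_cancel₀ _ hv, div_mul_cancel₀ _ hv] at h1

theorem coordP {lx ly lz : Fin 3 → ℂ} (h : LinearIndependent ℂ ![lx, ly, lz]) :
    Coord (fl lx / fl lz) (fl ly / fl lz) := by
  have hz := b2_lz h
  constructor
  · intro P hP
    obtain ⟨e, he⟩ := b2_hom P
    obtain ⟨A, hA, hA'⟩ := he e le_rfl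
    have h1 : aff (aeval ![lin lx, lin ly, lin lz] A) = 0 := by
      rw [b2_k1 h hA', hP, mul_zero]
    have h2 := aff_inj (b2_sub_hom lx ly lz hA) h1
    refine MvPolynomial.funext fun v => ?_
    obtain ⟨u, hu0, hu1, hu2⟩ := b2_vec h (v 0) (v 1) 1
    have h3 := b2_eval lx ly lz u A
    rw [h2, map_zero, hu0, hu1, hu2] at h3
    have h4 := hA' ℂ (v 0) (v 1) 1
    rw [mul_one, mul_one, ← h3, one_pow, one_mul] at h4
    rw [map_zero]
    have h5 : (![v 0, v 1] : Fin 2 → ℂ) = v := by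
      funext i; fin_cases i <;> rfl
    rw [h5] at h4
    exact h4.symm
  · intro f
    obtain ⟨p, q, hq, hf⟩ := IsFractionRing.div_surjective (A := MvPolynomial (Fin 2) ℂ) f
    have hq0 : q ≠ 0 := nonZeroDivisors.ne_zero hq
    obtain ⟨e1, h1⟩ := b2_hom p
    obtain ⟨e2, h2⟩ := b2_hom q
    obtain ⟨A, hA, hA'⟩ := h1 (max e1 e2) (le_max_left _ _)
    obtain ⟨B, hB, hB'⟩ := h2 (max e1 e2) (le_max_right _ _)
    set e := max e1 e2
    have hgen : ∀ (p : MvPolynomial (Fin 2) ℂ) (A : MvPolynomial (Fin 3) ℂ),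
        A.IsHomogeneous e → (∀ (R : Type) [CommRing R] [Algebra ℂ R] (x y z : R),
        aeval ![x * z, y * z, z] A = z ^ e * aeval ![x, y] p) →
        ∃ P, algebraMap (MvPolynomial (Fin 2) ℂ) Fn p =
          (fl lz) ^ e * psi (fl lx / fl lz) (fl ly / fl lz) P := by
      intro p A hA hA'
      have hU : (aeval ![X 1, X 2, X 0] A : MvPolynomial (Fin 3) ℂ).IsHomogeneous e := by
        have h1 := hA.aeval (![X 1, X 2, X 0] : Fin 3 → MvPolynomial (Fin 3) ℂ) (n := 1) (fun i => by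
          fin_cases i
          · exact isHomogeneous_X ℂ (1 : Fin 3)
          · exact isHomogeneous_X ℂ (2 : Fin 3)
          · exact isHomogeneous_X ℂ (0 : Fin 3))
        rwa [one_mul] at h1
      obtain ⟨P, hP, -⟩ := b2_k2 h hU
      refine ⟨P, ?_⟩
      rw [← hP, b2_comp3]
      have h3 := hA' Fn (algebraMap (MvPolynomial (Fin 2) ℂ) Fn (X 0))
        (algebraMap (MvPolynomial (Fin 2) ℂ) Fn (X 1)) 1
      rw [mul_one, mul_one, one_pow, one_mul] at h3
      have h4 : aff (X 1) = algebraMap (MvPolynomial (Fin 2) ℂ) Fn (X 0) := by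
        unfold aff; rw [aeval_X]; rfl
      have h5 : aff (X 2) = algebraMap (MvPolynomial (Fin 2) ℂ) Fn (X 1) := by
        unfold aff; rw [aeval_X]; rfl
      have h6 : aff (X 0) = 1 := by
        unfold aff; rw [aeval_X]; rfl
      rw [h4, h5, h6, h3]
      have h7 := b2_comp2 (IsScalarTower.toAlgHom ℂ (MvPolynomial (Fin 2) ℂ) Fn) (X 0) (X 1) p
      have h8 : (![X 0, X 1] : Fin 2 → MvPolynomial (Fin 2) ℂ) = X := by
        funext i; fin_cases i <;> rfl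
      rw [h8, aeval_X_left_apply] at h7
      exact h7
    obtain ⟨P, hP⟩ := hgen p A hA hA'
    obtain ⟨Q, hQ⟩ := hgen q B hB hB'
    have hq1 : algebraMap (MvPolynomial (Fin 2) ℂ) Fn q ≠ 0 := by
      rw [Ne, FaithfulSMul.algebraMap_eq_zero_iff]
      exact hq0
    refine ⟨P, Q, ?_, ?_⟩
    · rintro rfl
      rw [map_zero, mul_zero] at hQ
      exact hq1 hQ
    · have h3 : f * algebraMap (MvPolynomial (Fin 2) ℂ) Fn q =
          algebraMap (MvPolynomial (Fin 2) ℂ) Fn p := by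
        rw [← hf, div_mul_cancel₀ _ hq1]
      rw [hP, hQ] at h3
      refine mul_left_cancel₀ (pow_ne_zero e hz) ?_
      rw [← h3]
      ring

private theorem b2_st {lx ly lz : Fin 3 → ℂ} (h : LinearIndependent ℂ ![lx, ly, lz]) :
    fl lx / fl lz * (fl ly / fl lx) = fl ly / fl lz := by
  have hx := b2_lx h
  have hz := b2_lz h
  field_simp

private theorem b2_down {A : Type} [CommRing A] [Algebra ℂ A] (s t : A)
    (P : MvPolynomial (Fin 2) ℂ) :
    aeval ![s, t] (aeval ![X 0, X 0 * X 1] P : MvPolynomial (Fin 2) ℂ) =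
      aeval ![s, s * t] P := by
  have h2 := b2_comp2 (MvPolynomial.aeval ![s, t] : MvPolynomial (Fin 2) ℂ →ₐ[ℂ] A) (X 0)
    (X 0 * X 1) P
  rw [map_mul, aeval_X, aeval_X] at h2
  exact h2

theorem coordB {lx ly lz : Fin 3 → ℂ} (h : LinearIndependent ℂ ![lx, ly, lz]) :
    Coord (fl lx / fl lz) (fl ly / fl lx) := by
  have hst := b2_st h
  have hP := coordP h
  constructor
  · intro P hP0
    obtain ⟨e, he⟩ := b2_up P
    obtain ⟨A, hA⟩ := he e le_rfl
    have h1 := hA Fn (fl lx / fl lz) (fl ly / fl lx)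
    rw [hst] at h1
    have h2 : psi (fl lx / fl lz) (fl ly / fl lz) A = 0 := by
      refine h1.trans ?_
      change _ * psi (fl lx / fl lz) (fl ly / fl lx) P = 0
      rw [hP0, mul_zero]
    have h3 := hP.inj A h2
    have h4 := hA (MvPolynomial (Fin 2) ℂ) (X 0) (X 1)
    have h8 : (![X 0, X 1] : Fin 2 → MvPolynomial (Fin 2) ℂ) = X := by
      funext i; fin_cases i <;> rfl
    rw [h3, map_zero, h8, aeval_X_left_apply] at h4
    exact (mul_eq_zero.1 h4.symm).resolve_left (pow_ne_zero _ (X_ne_zero 0))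
  · intro f
    obtain ⟨P, Q, hQ, hf⟩ := hP.gen f
    refine ⟨aeval ![X 0, X 0 * X 1] P, aeval ![X 0, X 0 * X 1] Q, ?_, ?_⟩
    · intro h0
      refine hQ (hP.inj Q ?_)
      have h1 := b2_down (fl lx / fl lz) (fl ly / fl lx) Q
      rw [h0, map_zero, hst] at h1
      exact h1.symm
    · unfold psi at hf ⊢
      rw [b2_down, b2_down, hst]
      exact hf

theorem regP {lx ly lz : Fin 3 → ℂ} (h : LinearIndependent ℂ ![lx, ly, lz]) {y : Pt}
    (hz : lz ⬝ᵥ y.q ≠ 0) (hq : ¬ Multiple L y.q) (f : Fn) :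
    Regular L y f ↔
      RLoc (fl lx / fl lz) (fl ly / fl lz) (lx ⬝ᵥ y.q / lz ⬝ᵥ y.q) (ly ⬝ᵥ y.q / lz ⬝ᵥ y.q) f := by
  have hz' := b2_lz h
  constructor
  · rintro ⟨e, r, A, B, hA, hB, hr, -, -, hBc, hf⟩
    obtain rfl : r = 0 := hr.resolve_right hq
    obtain ⟨P, hP, -⟩ := b2_k2 h hA
    obtain ⟨Q, hQ, hQ'⟩ := b2_k2 h hB
    refine ⟨P, Q, ?_, ?_⟩
    · intro h0
      rw [b2_along0, hQ' _ hz] at hBc
      refine hBc ?_
      change (aeval _ Q : ℂ) = 0 at h0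
      rw [h0, mul_zero]
    · rw [hP, hQ] at hf
      refine mul_left_cancel₀ (pow_ne_zero e hz') ?_
      rw [← hf]
      ring
  · rintro ⟨P, Q, hQ, hf⟩
    obtain ⟨e1, h1⟩ := b2_hom P
    obtain ⟨e2, h2⟩ := b2_hom Q
    obtain ⟨A, hA, hA'⟩ := h1 (max e1 e2) (le_max_left _ _)
    obtain ⟨B, hB, hB'⟩ := h2 (max e1 e2) (le_max_right _ _)
    set e := max e1 e2
    refine ⟨e, 0, aeval ![lin lx, lin ly, lin lz] A, aeval ![lin lx, lin ly, lin lz] B,
      b2_sub_hom _ _ _ hA, b2_sub_hom _ _ _ hB, Or.inl rfl, fun v => ?_, fun v => ?_, ?_, ?_⟩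
    · rw [pow_zero]; exact one_dvd _
    · rw [pow_zero]; exact one_dvd _
    · rw [b2_along0, b2_eval]
      have h3 := hB' ℂ (lx ⬝ᵥ y.q / lz ⬝ᵥ y.q) (ly ⬝ᵥ y.q / lz ⬝ᵥ y.q) (lz ⬝ᵥ y.q)
      rw [div_mul_cancel₀ _ hz, div_mul_cancel₀ _ hz] at h3
      rw [h3]
      exact mul_ne_zero (pow_ne_zero _ hz) hQ
    · rw [b2_k1 h hA', b2_k1 h hB', ← hf]
      ring

private theorem b2_ind0 {lx ly lz : Fin 3 → ℂ} (h : LinearIndependent ℂ ![lx, ly, lz])
    {q : Fin 3 → ℂ} (hx : lx ⬝ᵥ q = 0) (hy : ly ⬝ᵥ q = 0) (hq : q ≠ 0) : lz ⬝ᵥ q ≠ 0 := by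
  intro hz
  obtain ⟨N, -, hN⟩ := b2_mat h
  refine hq ?_
  have h1 : (Matrix.of ![lx, ly, lz]).mulVec q = 0 := by
    funext i
    fin_cases i
    · exact hx
    · exact hy
    · exact hz
  have h2 : N.mulVec ((Matrix.of ![lx, ly, lz]).mulVec q) = q := by
    rw [Matrix.mulVec_mulVec, hN, Matrix.one_mulVec]
  rw [← h2, h1, Matrix.mulVec_zero]

/-- K3 -/
private theorem b2_k3 {lx ly lz : Fin 3 → ℂ} (h : LinearIndependent ℂ ![lx, ly, lz])
    {q : Fin 3 → ℂ} (hx : lx ⬝ᵥ q = 0) (hy : ly ⬝ᵥ q = 0) (hq : q ≠ 0) {e r : ℕ}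
    {A : MvPolynomial (Fin 3) ℂ} (hA : A.IsHomogeneous e)
    (hv : ∀ v, Polynomial.X ^ r ∣ along (aeval ![lin lx, lin ly, lin lz] A) q v) :
    ∃ P : MvPolynomial (Fin 2) ℂ, ∀ (R : Type) [CommRing R] [Algebra ℂ R] (x t z : R),
      aeval ![x * z, x * t * z, z] A = z ^ e * x ^ r * aeval ![x, t] P := by
  have hc := b2_ind0 h hx hy hq
  set c := lz ⬝ᵥ q with hcdef
  have key : ∀ (R : Type) [CommRing R] [Algebra ℂ R] (x t : R),
      aeval ![x, t] (aeval ![X 0, X 0 * X 1, 1] A : MvPolynomial (Fin 2) ℂ) =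
        aeval ![x, x * t, 1] A := by
    intro R _ _ x t
    have h2 := b2_comp3 (MvPolynomial.aeval ![x, t] : MvPolynomial (Fin 2) ℂ →ₐ[ℂ] R) (X 0)
      (X 0 * X 1) 1 A
    rw [map_mul, aeval_X, aeval_X, map_one] at h2
    exact h2
  obtain ⟨P, hP⟩ := b2_dvd r (aeval ![X 0, X 0 * X 1, 1] A) fun b => by
    rw [key]
    obtain ⟨v, hv0, hv1, hv2⟩ := b2_vec h c (c * b) 0
    have h1 := hv v
    rw [b2_along, hx, hy, hv0, hv1, hv2, ← hcdef] at h1
    have h2 := b2_scale hA (Polynomial.C c) Polynomial.X (Polynomial.X * Polynomial.C b) 1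
    have e1 : Polynomial.C 0 + Polynomial.X * Polynomial.C c = Polynomial.X * Polynomial.C c := by
      rw [map_zero, zero_add]
    have e2 : Polynomial.C 0 + Polynomial.X * Polynomial.C (c * b) =
        Polynomial.X * Polynomial.C b * Polynomial.C c := by
      rw [map_zero, zero_add, map_mul]; ring
    have e3 : Polynomial.C c + Polynomial.X * Polynomial.C 0 = 1 * Polynomial.C c := by
      rw [map_zero, mul_zero, add_zero, one_mul]
    rw [e1, e2, e3, h2] at h1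
    have hu : IsUnit ((Polynomial.C c : Polynomial ℂ) ^ e) :=
      (Polynomial.isUnit_C.2 (isUnit_iff_ne_zero.2 hc)).pow e
    exact (hu.dvd_mul_left).1 h1
  refine ⟨P, fun R _ _ x t z => ?_⟩
  have h1 := b2_scale hA z x (x * t) 1
  rw [one_mul] at h1
  rw [h1, ← key, hP, map_mul, map_pow, aeval_X]
  simp only [Matrix.cons_val_zero]
  ring

private theorem b2_k4 {lx ly lz : Fin 3 → ℂ} (h : LinearIndependent ℂ ![lx, ly, lz]) {e r : ℕ}
    {A : MvPolynomial (Fin 3) ℂ} {P : MvPolynomial (Fin 2) ℂ}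
    (hA : ∀ (R : Type) [CommRing R] [Algebra ℂ R] (x t z : R),
      aeval ![x * z, x * t * z, z] A = z ^ e * x ^ r * aeval ![x, t] P) :
    aff (aeval ![lin lx, lin ly, lin lz] A) =
      (fl lz) ^ e * (fl lx / fl lz) ^ r * psi (fl lx / fl lz) (fl ly / fl lx) P := by
  have hz := b2_lz h
  rw [b2_aff]
  have h1 := hA Fn (fl lx / fl lz) (fl ly / fl lx) (fl lz)
  rw [b2_st h, div_mul_cancel₀ _ hz, div_mul_cancel₀ _ hz] at h1
  exact h1

private theorem b2_k5 {lx ly lz : Fin 3 → ℂ} {q w : Fin 3 → ℂ} (hx : lx ⬝ᵥ q = 0)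
    (hy : ly ⬝ᵥ q = 0) (hz : lz ⬝ᵥ q ≠ 0) (hw : lx ⬝ᵥ w ≠ 0) {e r : ℕ}
    {A : MvPolynomial (Fin 3) ℂ} {P : MvPolynomial (Fin 2) ℂ}
    (hA : ∀ (R : Type) [CommRing R] [Algebra ℂ R] (x t z : R),
      aeval ![x * z, x * t * z, z] A = z ^ e * x ^ r * aeval ![x, t] P) :
    (along (aeval ![lin lx, lin ly, lin lz] A) q w).coeff r =
      (lz ⬝ᵥ q) ^ e * (lx ⬝ᵥ w / lz ⬝ᵥ q) ^ r * aeval ![(0 : ℂ), ly ⬝ᵥ w / lx ⬝ᵥ w] P := by
  rw [b2_along, hx, hy]
  have h1 := b2_coef hA (lx ⬝ᵥ w) (ly ⬝ᵥ w / lx ⬝ᵥ w) (lz ⬝ᵥ q) (lz ⬝ᵥ w) hz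
  rw [mul_div_cancel₀ _ hw] at h1
  rw [map_zero, zero_add, zero_add]
  exact h1

theorem regB {lx ly lz : Fin 3 → ℂ} (h : LinearIndependent ℂ ![lx, ly, lz]) {y : Pt}
    (hx : lx ⬝ᵥ y.q = 0) (hy : ly ⬝ᵥ y.q = 0) (hq : Multiple L y.q) (hw : lx ⬝ᵥ y.w ≠ 0) (f : Fn) :
    Regular L y f ↔
      RLoc (fl lx / fl lz) (fl ly / fl lx) 0 (ly ⬝ᵥ y.w / lx ⬝ᵥ y.w) f := by
  have hz' := b2_lz h
  have hx' := b2_lx h
  have hs : fl lx / fl lz ≠ 0 := div_ne_zero hx' hz'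
  have hq0 : y.q ≠ 0 := y.ind.ne_zero 0
  have hc := b2_ind0 h hx hy hq0
  constructor
  · rintro ⟨e, r, A, B, hA, hB, -, hAv, hBv, hBc, hf⟩
    obtain ⟨A', hA', hAA⟩ := b2_repr h hA
    obtain ⟨B', hB', hBB⟩ := b2_repr h hB
    rw [hAA] at hAv hf
    rw [hBB] at hBv hBc hf
    obtain ⟨P, hP⟩ := b2_k3 h hx hy hq0 hA' hAv
    obtain ⟨Q, hQ⟩ := b2_k3 h hx hy hq0 hB' hBv
    rw [b2_k5 hx hy hc hw hQ] at hBc
    refine ⟨P, Q, right_ne_zero_of_mul hBc, ?_⟩
    rw [b2_k4 h hP, b2_k4 h hQ] at hf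
    refine mul_left_cancel₀ (mul_ne_zero (pow_ne_zero e hz') (pow_ne_zero r hs)) ?_
    rw [← hf]
    ring
  · rintro ⟨P, Q, hQ, hf⟩
    obtain ⟨r1, h1⟩ := b2_blow P
    obtain ⟨r2, h2⟩ := b2_blow Q
    obtain ⟨e1, h1⟩ := h1 (max r1 r2) (le_max_left _ _)
    obtain ⟨e2, h2⟩ := h2 (max r1 r2) (le_max_right _ _)
    obtain ⟨A, hA, hA', hA''⟩ := h1 (max e1 e2) (le_max_left _ _)
    obtain ⟨B, hB, hB', hB''⟩ := h2 (max e1 e2) (le_max_right _ _)
    set e := max e1 e2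
    set r := max r1 r2
    refine ⟨e, r, aeval ![lin lx, lin ly, lin lz] A, aeval ![lin lx, lin ly, lin lz] B,
      b2_sub_hom _ _ _ hA, b2_sub_hom _ _ _ hB, Or.inr hq, fun v => ?_, fun v => ?_, ?_, ?_⟩
    · rw [b2_along, hx, hy, map_zero, zero_add, zero_add]
      exact hA'' _ _ _ _ _
    · rw [b2_along, hx, hy, map_zero, zero_add, zero_add]
      exact hB'' _ _ _ _ _
    · rw [b2_k5 hx hy hc hw hB']
      exact mul_ne_zero (mul_ne_zero (pow_ne_zero _ hc) (pow_ne_zero _ (div_ne_zero hw hc))) hQ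
    · rw [b2_k4 h hA', b2_k4 h hB', ← hf]
      ring

theorem regB' {lx ly lz : Fin 3 → ℂ} (h : LinearIndependent ℂ ![lx, ly, lz]) {y : Pt}
    (hz : lz ⬝ᵥ y.q ≠ 0) (hx : lx ⬝ᵥ y.q ≠ 0) (hq : ¬ Multiple L y.q) (f : Fn) :
    Regular L y f ↔
      RLoc (fl lx / fl lz) (fl ly / fl lx) (lx ⬝ᵥ y.q / lz ⬝ᵥ y.q) (ly ⬝ᵥ y.q / lx ⬝ᵥ y.q) f := by
  rw [regP h hz hq]
  have hst := b2_st h
  have ha0 : lx ⬝ᵥ y.q / lz ⬝ᵥ y.q ≠ 0 := div_ne_zero hx hz
  have hab0 : ∀ p q r : ℂ, q ≠ 0 → r ≠ 0 → p / r = q / r * (p / q) := by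
    intro p q r hq hr
    field_simp
  rw [hab0 (ly ⬝ᵥ y.q) (lx ⬝ᵥ y.q) (lz ⬝ᵥ y.q) hx hz]
  clear hab0
  revert ha0
  generalize lx ⬝ᵥ y.q / lz ⬝ᵥ y.q = a
  generalize ly ⬝ᵥ y.q / lx ⬝ᵥ y.q = b
  intro ha0
  constructor
  · rintro ⟨P, Q, hQ, hf⟩
    refine ⟨aeval ![X 0, X 0 * X 1] P, aeval ![X 0, X 0 * X 1] Q, ?_, ?_⟩
    · have h1 := b2_down a b Q
      intro h0
      refine hQ ?_
      change (aeval _ Q : ℂ) = 0
      rw [← h1]
      exact h0
    · unfold psi at hf ⊢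
      rw [b2_down, b2_down, hst]
      exact hf
  · rintro ⟨P, Q, hQ, hf⟩
    obtain ⟨e1, h1⟩ := b2_up P
    obtain ⟨e2, h2⟩ := b2_up Q
    obtain ⟨A, hA⟩ := h1 (max e1 e2) (le_max_left _ _)
    obtain ⟨B, hB⟩ := h2 (max e1 e2) (le_max_right _ _)
    refine ⟨A, B, ?_, ?_⟩
    · intro h0
      change (aeval _ B : ℂ) = 0 at h0
      rw [hB] at h0
      exact (mul_ne_zero (pow_ne_zero _ ha0) hQ) h0
    · unfold psi at hf ⊢
      rw [← hst, hA, hB, ← hf]
      ring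

end HKR
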