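import Pool.Agent.Lib.HKR.B1
/-!
HKR.B3 (twisted sections).
exists_forms: complete y.q, y.w to a basis of ℂ³ and take the dual basis.
sect_iff: if (lam,sig), (lam',sig') are two admissible pairs, then fl lam/fl lam' has value
  lam(q)/lam'(q) ≠ 0; if q is multiple, fl sig/fl sig' has value sig(w)/sig'(w) ≠ 0; so the products differ
  by units (zpow of units; Val.mul, Val.inv).  If q is not multiple muq = 0 and sig does not occur.
mono: f * lam^(D-μ') sig^(μ') = f * lam^(D-μ) sig^μ * (sig/lam)^(μ'-μ), sig/lam regular.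
line i: fl (L i) is a section of O(H - L_i) : Sect (-1) (fun S => if i ∈ S then -1 else 0): q multiple on
  line i: fl (L i) * lam^0 * sig^(-1) regular by Val.ratio_mult; otherwise fl (L i)/lam.
inverse of a line not through y (L i (q) ≠ 0, or q multiple, on line i, L i (w) ≠ 0): unit.
-/
open MvPolynomial
namespace HKR
variable {k : ℕ} {L : Fin k → Fin 3 → ℂ} {y : Pt}

private theorem q_ne (y : Pt) : y.q ≠ 0 := by
  have h := y.ind.ne_zero 0
  simpa using h

private theorem ne_of_dot {l v : Fin 3 → ℂ} (h : l ⬝ᵥ v ≠ 0) : l ≠ 0 := by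
  rintro rfl
  exact h (zero_dotProduct v)

private theorem fl_ne {l v : Fin 3 → ℂ} (h : l ⬝ᵥ v ≠ 0) : fl l ≠ 0 := fl_ne_zero (ne_of_dot h)

private theorem Val.one' : Val L y (1 : Fn) 1 := by
  have h := Val.const (L := L) (y := y) 1
  simpa using h

private theorem Val.pow' {u : Fn} {c : ℂ} (h : Val L y u c) (n : ℕ) : Val L y (u ^ n) (c ^ n) := by
  induction n with
  | zero => simpa using Val.one'
  | succ n ih => rw [pow_succ, pow_succ]; exact ih.mul h

private theorem Val.regular' {u : Fn} {c : ℂ} (h : Val L y u c) : Regular L y u :=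
  regular_iff_val.2 ⟨c, h⟩

private theorem Val.zpow' {u : Fn} {c : ℂ} (h : Val L y u c) (hc : c ≠ 0) (n : ℤ) :
    Val L y (u ^ n) (c ^ n) := by
  rcases n with n | n
  · simpa using h.pow' n
  · have h1 := (h.pow' (n + 1)).inv (pow_ne_zero _ hc)
    rw [zpow_negSucc, zpow_negSucc]
    exact h1

private theorem Regular.pow' {u : Fn} (h : Regular L y u) (n : ℕ) : Regular L y (u ^ n) := by
  obtain ⟨c, hc⟩ := regular_iff_val.1 h
  exact (hc.pow' n).regular'

private theorem sub_sig {D : ℤ} {m : Finset (Fin k) → ℤ} {f : Fn} {lam sig lam1 sig1 : Fin 3 → ℂ}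
    (h1 : lam ⬝ᵥ y.q ≠ 0) (h2 : sig ⬝ᵥ y.q = 0) (h3 : sig ⬝ᵥ y.w ≠ 0)
    (h1' : lam1 ⬝ᵥ y.q ≠ 0) (h2' : sig1 ⬝ᵥ y.q = 0) (h3' : sig1 ⬝ᵥ y.w ≠ 0)
    (h : Regular L y (f * fl lam1 ^ (D - muq L m y) * fl sig1 ^ (muq L m y))) :
    Regular L y (f * fl lam ^ (D - muq L m y) * fl sig ^ (muq L m y)) := by
  have e1 := fl_ne h1
  have e1' := fl_ne h1'
  have e3 := fl_ne h3
  have e3' := fl_ne h3'
  have hl : Regular L y ((fl lam / fl lam1) ^ (D - muq L m y)) :=
    ((Val.ratio (L := L) (l := lam) h1').zpow' (div_ne_zero h1 h1') _).regular'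
  have hs : Regular L y ((fl sig / fl sig1) ^ (muq L m y)) := by
    by_cases hm : Multiple L y.q
    · exact ((Val.ratio_mult (L := L) hm h2 h2' h3').zpow' (div_ne_zero h3 h3') _).regular'
    · have h0 : muq L m y = 0 := by
        unfold muq
        rw [if_neg hm]
      rw [h0, zpow_zero]
      exact Val.one'.regular'
  have h5 := (h.mul hl).mul hs
  have h6 : f * fl lam1 ^ (D - muq L m y) * fl sig1 ^ (muq L m y) *
      (fl lam / fl lam1) ^ (D - muq L m y) * (fl sig / fl sig1) ^ (muq L m y) =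
      f * fl lam ^ (D - muq L m y) * fl sig ^ (muq L m y) := by
    rw [div_zpow, div_zpow]
    have a1 : fl lam1 ^ (D - muq L m y) ≠ 0 := zpow_ne_zero _ e1'
    have a3 : fl sig1 ^ (muq L m y) ≠ 0 := zpow_ne_zero _ e3'
    field_simp
  rw [h6] at h5
  exact h5

theorem exists_forms (y : Pt) : ∃ lam sig tau : Fin 3 → ℂ, lam ⬝ᵥ y.q = 1 ∧ lam ⬝ᵥ y.w = 0 ∧
    sig ⬝ᵥ y.q = 0 ∧ sig ⬝ᵥ y.w = 1 ∧ tau ⬝ᵥ y.q = 0 ∧ tau ⬝ᵥ y.w = 0 ∧
    LinearIndependent ℂ ![lam, sig, tau] := by
  let f : (Fin 2 → ℂ) →ₗ[ℂ] (Fin 3 → ℂ) := Fintype.linearCombination ℂ ![y.q, y.w]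
  have hf : LinearMap.ker f = ⊥ := by
    rw [LinearMap.ker_eq_bot]
    exact y.ind.fintypeLinearCombination_injective
  obtain ⟨g, hg⟩ := f.exists_leftInverse_of_injective hf
  have hdot : ∀ (i : Fin 2) (v : Fin 3 → ℂ),
      (fun j => g (Pi.single j 1) i) ⬝ᵥ v = g v i := by
    intro i v
    have hv : v = ∑ j, v j • (Pi.single j 1 : Fin 3 → ℂ) := by
      ext j
      simp [Finset.sum_apply, Pi.single_apply]
    conv_rhs => rw [hv, map_sum]
    simp only [map_smul, Finset.sum_apply, Pi.smul_apply, smul_eq_mul, dotProduct]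
    exact Finset.sum_congr rfl fun j _ => mul_comm _ _
  have hq : f (Pi.single 0 1) = y.q := by
    simp [f, Fintype.linearCombination_apply]
  have hw : f (Pi.single 1 1) = y.w := by
    simp [f, Fintype.linearCombination_apply]
  have hgq : g y.q = Pi.single 0 1 := by
    rw [← hq]; exact LinearMap.congr_fun hg _
  have hgw : g y.w = Pi.single 1 1 := by
    rw [← hw]; exact LinearMap.congr_fun hg _
  have ht : crossProduct y.q y.w ≠ 0 := crossProduct_ne_zero_iff_linearIndependent.2 y.ind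
  have t1 : crossProduct y.q y.w ⬝ᵥ y.q = 0 := by
    rw [dotProduct_comm]; exact dot_self_cross _ _
  have t2 : crossProduct y.q y.w ⬝ᵥ y.w = 0 := by
    rw [dotProduct_comm]; exact dot_cross_self _ _
  have a1 : (fun j => g (Pi.single j 1) 0) ⬝ᵥ y.q = 1 := by rw [hdot, hgq]; simp
  have a2 : (fun j => g (Pi.single j 1) 0) ⬝ᵥ y.w = 0 := by rw [hdot, hgw]; simp
  have a3 : (fun j => g (Pi.single j 1) 1) ⬝ᵥ y.q = 0 := by rw [hdot, hgq]; simp
  have a4 : (fun j => g (Pi.single j 1) 1) ⬝ᵥ y.w = 1 := by rw [hdot, hgw]; simp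
  refine ⟨_, _, crossProduct y.q y.w, a1, a2, a3, a4, t1, t2, ?_⟩
  rw [Fintype.linearIndependent_iff]
  intro c hc
  rw [Fin.sum_univ_three] at hc
  simp only [Matrix.cons_val_zero, Matrix.cons_val_one, Matrix.cons_val] at hc
  have b1 := congrArg (fun v => v ⬝ᵥ y.q) hc
  have b2 := congrArg (fun v => v ⬝ᵥ y.w) hc
  simp only [add_dotProduct, smul_dotProduct, a1, a2, a3, a4, t1, t2, zero_dotProduct,
    smul_eq_mul, mul_one, mul_zero, add_zero, zero_add] at b1 b2
  rw [b1, b2, zero_smul, zero_smul, zero_add, zero_add] at hc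
  have b3 : c 2 = 0 := (smul_eq_zero.1 hc).resolve_right ht
  intro i
  fin_cases i
  · exact b1
  · exact b2
  · exact b3

theorem sect_iff {D : ℤ} {m : Finset (Fin k) → ℤ} {f : Fn} {lam sig : Fin 3 → ℂ}
    (h1 : lam ⬝ᵥ y.q ≠ 0) (h2 : sig ⬝ᵥ y.q = 0) (h3 : sig ⬝ᵥ y.w ≠ 0) :
    Sect L D m y f ↔ Regular L y (f * fl lam ^ (D - muq L m y) * fl sig ^ (muq L m y)) := by
  constructor
  · rintro ⟨lam1, sig1, h1', h2', h3', h⟩
    exact sub_sig h1 h2 h3 h1' h2' h3' h
  · intro h
    exact ⟨lam, sig, h1, h2, h3, h⟩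

theorem Sect.congr_m {D : ℤ} {m m' : Finset (Fin k) → ℤ} {f : Fn} (h : Sect L D m y f)
    (hm : Multiple L y.q → m (SS L y.q) = m' (SS L y.q)) : Sect L D m' y f := by
  have e : muq L m' y = muq L m y := by
    unfold muq
    split_ifs with h0
    · exact (hm h0).symm
    · rfl
  obtain ⟨lam, sig, h1, h2, h3, h4⟩ := h
  exact ⟨lam, sig, h1, h2, h3, by rw [e]; exact h4⟩

private theorem exists_two (y : Pt) : ∃ lam sig : Fin 3 → ℂ, lam ⬝ᵥ y.q ≠ 0 ∧ sig ⬝ᵥ y.q = 0 ∧
    sig ⬝ᵥ y.w ≠ 0 := by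
  obtain ⟨lam, sig, tau, h1, h2, h3, h4, h5, h6, h7⟩ := exists_forms y
  exact ⟨lam, sig, by rw [h1]; exact one_ne_zero, h3, by rw [h4]; exact one_ne_zero⟩

theorem Sect.zero {D : ℤ} {m : Finset (Fin k) → ℤ} : Sect L D m y 0 := by
  obtain ⟨lam, sig, h1, h2, h3⟩ := exists_two y
  refine ⟨lam, sig, h1, h2, h3, ?_⟩
  rw [zero_mul, zero_mul]
  have h := Regular.const (L := L) (y := y) 0
  simpa using h

theorem Sect.add {D : ℤ} {m : Finset (Fin k) → ℤ} {f f' : Fn} (h : Sect L D m y f)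
    (h' : Sect L D m y f') : Sect L D m y (f + f') := by
  obtain ⟨lam, sig, h1, h2, h3, h4⟩ := h
  rw [sect_iff h1 h2 h3] at h' ⊢
  rw [add_mul, add_mul]
  exact h4.add h'

theorem Sect.neg {D : ℤ} {m : Finset (Fin k) → ℤ} {f : Fn} (h : Sect L D m y f) :
    Sect L D m y (-f) := by
  obtain ⟨lam, sig, h1, h2, h3, h4⟩ := h
  refine ⟨lam, sig, h1, h2, h3, ?_⟩
  rw [neg_mul, neg_mul]
  exact h4.neg

theorem Sect.sub {D : ℤ} {m : Finset (Fin k) → ℤ} {f f' : Fn} (h : Sect L D m y f)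
    (h' : Sect L D m y f') : Sect L D m y (f - f') := by
  rw [sub_eq_add_neg]; exact h.add h'.neg

private theorem muq_add (m m' : Finset (Fin k) → ℤ) :
    muq L (fun S => m S + m' S) y = muq L m y + muq L m' y := by
  unfold muq
  split_ifs <;> simp

theorem Sect.mul {D D' : ℤ} {m m' : Finset (Fin k) → ℤ} {f f' : Fn} (h : Sect L D m y f)
    (h' : Sect L D' m' y f') : Sect L (D + D') (fun S => m S + m' S) y (f * f') := by
  obtain ⟨lam, sig, h1, h2, h3, h4⟩ := h
  rw [sect_iff h1 h2 h3] at h' ⊢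
  have e1 := fl_ne h1
  have e3 := fl_ne h3
  have h5 := h4.mul h'
  rw [muq_add, show D + D' - (muq L m y + muq L m' y) =
    (D - muq L m y) + (D' - muq L m' y) by ring, zpow_add₀ e1, zpow_add₀ e3]
  have e : f * f' * (fl lam ^ (D - muq L m y) * fl lam ^ (D' - muq L m' y)) *
      (fl sig ^ muq L m y * fl sig ^ muq L m' y) =
      f * fl lam ^ (D - muq L m y) * fl sig ^ muq L m y *
      (f' * fl lam ^ (D' - muq L m' y) * fl sig ^ muq L m' y) := by ring
  rw [e]
  exact h5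

private theorem muq_zero : muq L (fun _ => 0) y = 0 := by
  unfold muq
  split_ifs <;> rfl

theorem sect_zero_iff {f : Fn} : Sect L 0 (fun _ => 0) y f ↔ Regular L y f := by
  obtain ⟨lam, sig, h1, h2, h3⟩ := exists_two y
  rw [sect_iff h1 h2 h3, muq_zero, sub_zero, zpow_zero, zpow_zero, mul_one, mul_one]

theorem Sect.mul_reg {D : ℤ} {m : Finset (Fin k) → ℤ} {f g : Fn} (h : Sect L D m y f)
    (h' : Regular L y g) : Sect L D m y (f * g) := by
  have h1 := h.mul (sect_zero_iff.2 h')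
  rw [add_zero] at h1
  exact h1.congr_m fun _ => add_zero _

theorem Sect.smul {D : ℤ} {m : Finset (Fin k) → ℤ} {f : Fn} (h : Sect L D m y f) (c : ℂ) :
    Sect L D m y (algebraMap ℂ Fn c * f) := by
  rw [mul_comm]
  exact h.mul_reg (Regular.const c)

theorem Sect.pow {D : ℤ} {m : Finset (Fin k) → ℤ} {f : Fn} (h : Sect L D m y f) (j : ℕ) :
    Sect L (j * D) (fun S => j * m S) y (f ^ j) := by
  obtain ⟨lam, sig, h1, h2, h3, h4⟩ := h
  refine ⟨lam, sig, h1, h2, h3, ?_⟩
  have h5 := h4.pow' j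
  have e : muq L (fun S => (j : ℤ) * m S) y = j * muq L m y := by
    unfold muq
    split_ifs <;> simp
  rw [e, show (j : ℤ) * D - j * muq L m y = (D - muq L m y) * j by ring,
    show (j : ℤ) * muq L m y = muq L m y * j by ring, zpow_mul, zpow_mul, zpow_natCast,
    zpow_natCast, ← mul_pow, ← mul_pow]
  exact h5

theorem Sect.mono {D : ℤ} {m m' : Finset (Fin k) → ℤ} {f : Fn} (h : Sect L D m y f)
    (hm : Multiple L y.q → m (SS L y.q) ≤ m' (SS L y.q)) : Sect L D m' y f := by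
  obtain ⟨lam, sig, h1, h2, h3, h4⟩ := h
  refine ⟨lam, sig, h1, h2, h3, ?_⟩
  have hle : muq L m y ≤ muq L m' y := by
    unfold muq
    split_ifs with h0
    · exact hm h0
    · exact le_rfl
  obtain ⟨n, hn⟩ := Int.eq_ofNat_of_zero_le (sub_nonneg.2 hle)
  have e1 := fl_ne h1
  have e3 := fl_ne h3
  have h5 : Regular L y ((fl sig / fl lam) ^ n) :=
    ((Val.ratio (L := L) (l := sig) h1).regular').pow' n
  have h6 := h4.mul h5
  have e : f * fl lam ^ (D - muq L m y) * fl sig ^ (muq L m y) * (fl sig / fl lam) ^ n =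
      f * fl lam ^ (D - muq L m' y) * fl sig ^ (muq L m' y) := by
    have x1 : fl lam ^ (D - muq L m' y) = fl lam ^ (D - muq L m y) / fl lam ^ n := by
      rw [show D - muq L m' y = (D - muq L m y) - (n : ℤ) by omega, zpow_sub₀ e1, zpow_natCast]
    have x2 : fl sig ^ (muq L m' y) = fl sig ^ (muq L m y) * fl sig ^ n := by
      rw [show muq L m' y = muq L m y + (n : ℤ) by omega, zpow_add₀ e3, zpow_natCast]
    rw [x1, x2, div_pow]
    have a1 : fl lam ^ n ≠ 0 := pow_ne_zero _ e1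
    field_simp
  rw [e] at h6
  exact h6

/-- every linear form is a section of `O(H)` -/
theorem sect_lin (l : Fin 3 → ℂ) : Sect L (-1) (fun _ => 0) y (fl l) := by
  obtain ⟨lam, sig, h1, h2, h3⟩ := exists_two y
  refine ⟨lam, sig, h1, h2, h3, ?_⟩
  rw [muq_zero, zpow_zero, mul_one, sub_zero, zpow_neg_one, ← div_eq_mul_inv]
  exact (Val.ratio (L := L) (l := l) h1).regular'

private theorem sect_mult {m : Finset (Fin k) → ℤ} {l : Fin 3 → ℂ} (hq : Multiple L y.q)
    (h0 : l ⬝ᵥ y.q = 0) (hm : m (SS L y.q) = -1) : Sect L (-1) m y (fl l) := by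
  obtain ⟨lam, sig, h1, h2, h3⟩ := exists_two y
  refine ⟨lam, sig, h1, h2, h3, ?_⟩
  have e : muq L m y = -1 := by
    unfold muq
    rw [if_pos hq, hm]
  rw [e, sub_self, zpow_zero, mul_one, zpow_neg_one, ← div_eq_mul_inv]
  exact (Val.ratio_mult (L := L) hq h0 h2 h3).regular'

open Classical in
/-- `ℓᵢ` is a section of `O(H - Lᵢ)` twisted: it vanishes along `E_q` for `q` on the line -/
theorem sect_line (i : Fin k) : Sect L (-1) (fun S => if i ∈ S then -1 else 0) y (fl (L i)) := by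
  by_cases hq : Multiple L y.q ∧ i ∈ SS L y.q
  · refine sect_mult hq.1 ?_ (if_pos hq.2)
    have h := hq.2
    unfold SS at h
    exact (Finset.mem_filter.1 h).2
  · refine (sect_lin (L i)).congr_m fun h => ?_
    rw [if_neg fun h' => hq ⟨h, h'⟩]

private theorem par {u v p q : Fin 3 → ℂ} (h : LinearIndependent ℂ ![u, v]) (hp : p ≠ 0)
    (h1 : u ⬝ᵥ p = 0) (h2 : v ⬝ᵥ p = 0) (h3 : u ⬝ᵥ q = 0) (h4 : v ⬝ᵥ q = 0) :
    ∃ c : ℂ, q = c • p := by
  have hc : crossProduct u v ≠ 0 := crossProduct_ne_zero_iff_linearIndependent.2 h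
  obtain ⟨j, hj⟩ := Function.ne_iff.1 hc
  have key : ∀ x : Fin 3 → ℂ, u ⬝ᵥ x = 0 → v ⬝ᵥ x = 0 →
      ∀ i, x i * (crossProduct u v) j = x j * (crossProduct u v) i := by
    intro x hx hy i
    have h0 : crossProduct x (crossProduct u v) = 0 := by
      rw [cross_cross_eq_smul_sub_smul', hx, dotProduct_comm x v, hy, zero_smul, zero_smul,
        sub_zero]
    generalize crossProduct u v = c at h0 ⊢
    rw [cross_apply] at h0
    have e0 := congrFun h0 0
    have e1 := congrFun h0 1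
    have e2 := congrFun h0 2
    simp only [Matrix.cons_val_zero, Matrix.cons_val_one, Matrix.cons_val, Pi.zero_apply] at e0 e1 e2
    fin_cases i <;> fin_cases j <;> simp only [Fin.zero_eta, Fin.mk_one, Fin.reduceFinMk] <;>
      first
      | rfl
      | linear_combination e0
      | linear_combination e1
      | linear_combination e2
      | linear_combination -e0
      | linear_combination -e1
      | linear_combination -e2
  have kp := key p h1 h2
  have kq := key q h3 h4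
  simp only [Pi.zero_apply] at hj
  have hpj : p j ≠ 0 := by
    intro h0
    apply hp
    funext i
    have := kp i
    rw [h0, zero_mul] at this
    exact (mul_eq_zero.1 this).resolve_right hj
  refine ⟨q j / p j, ?_⟩
  funext i
  have a := kp i
  have b := kq i
  rw [Pi.smul_apply, smul_eq_mul]
  have c : q i * p j = q j * p i := by
    have : (q i * p j - q j * p i) * (crossProduct u v) j = 0 := by
      linear_combination p j * b - q j * a
    exact sub_eq_zero.1 ((mul_eq_zero.1 this).resolve_right hj)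
  field_simp
  linear_combination c

open Classical in
/-- a form vanishing at `p` -/
theorem sect_through {p : Fin 3 → ℂ} {l : Fin 3 → ℂ} (hp : Multiple L p) (hp0 : p ≠ 0)
    (hC : Config L) (hl : l ⬝ᵥ p = 0) :
    Sect L (-1) (fun S => if S = SS L p then -1 else 0) y (fl l) := by
  by_cases hq : Multiple L y.q ∧ SS L y.q = SS L p
  · refine sect_mult hq.1 ?_ (if_pos hq.2)
    obtain ⟨a, b, c, hab, hac, hbc, ha, hb, hc⟩ := hp
    have ma : a ∈ SS L y.q := by
      rw [hq.2]; unfold SS; exact Finset.mem_filter.2 ⟨Finset.mem_univ _, ha⟩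
    have mb : b ∈ SS L y.q := by
      rw [hq.2]; unfold SS; exact Finset.mem_filter.2 ⟨Finset.mem_univ _, hb⟩
    unfold SS at ma mb
    obtain ⟨c, hc⟩ := par (hC.ind a b hab) hp0 ha hb (Finset.mem_filter.1 ma).2
      (Finset.mem_filter.1 mb).2
    rw [hc, dotProduct_smul, hl, smul_zero]
  · refine (sect_lin l).congr_m fun h => ?_
    rw [if_neg fun h' => hq ⟨h, h'⟩]

/-- the inverse of a linear form not vanishing at `q` -/
theorem sect_inv {l : Fin 3 → ℂ} (h : l ⬝ᵥ y.q ≠ 0) : Sect L 1 (fun _ => 0) y (fl l)⁻¹ := by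
  obtain ⟨lam, sig, h1, h2, h3⟩ := exists_two y
  refine ⟨l, sig, h, h2, h3, ?_⟩
  rw [muq_zero, zpow_zero, mul_one, sub_zero, zpow_one, inv_mul_cancel₀ (fl_ne h)]
  exact Val.one'.regular'

open Classical in
/-- the inverse of a linear form vanishing at the multiple point `q`, not in the direction `w` -/
theorem sect_inv_mult {l : Fin 3 → ℂ} (hq : Multiple L y.q) (h0 : l ⬝ᵥ y.q = 0)
    (h : l ⬝ᵥ y.w ≠ 0) :
    Sect L 1 (fun S => if S = SS L y.q then 1 else 0) y (fl l)⁻¹ := by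
  obtain ⟨lam, sig, h1, h2, h3⟩ := exists_two y
  refine ⟨lam, l, h1, h0, h, ?_⟩
  have e : muq L (fun S => if S = SS L y.q then 1 else 0) y = 1 := by
    unfold muq
    rw [if_pos hq]
    exact if_pos rfl
  rw [e, sub_self, zpow_zero, mul_one, zpow_one, inv_mul_cancel₀ (fl_ne h)]
  exact Val.one'.regular'

end HKR
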