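import Pool.Agent.Lib.HKR.B3
/-!
HKR.B4 (global sections).  If f is a section of O(-N), N = (D;m), at all points y with y.q not multiple:
D > 0: f = 0.  D = 0: f constant.  D = -1: f = fl l.  (The hypotheses are only used at non-multiple points.)
-/
open MvPolynomial
namespace HKR
variable {k : ℕ} {L : Fin k → Fin 3 → ℂ}

private theorem b4_hom (P : MvPolynomial (Fin 2) ℂ) : ∃ e0 : ℕ, ∀ e ≥ e0,
    ∃ A : MvPolynomial (Fin 3) ℂ, A.IsHomogeneous e ∧
      aff A = algebraMap (MvPolynomial (Fin 2) ℂ) Fn P := by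
  induction P using MvPolynomial.induction_on with
  | C c =>
    refine ⟨0, fun e _ => ⟨C c * X 0 ^ e, isHomogeneous_C_mul_X_pow _ _ _, ?_⟩⟩
    rw [map_mul, map_pow]
    have h0 : aff (X 0) = 1 := by simp [aff]
    rw [h0, one_pow, mul_one, algHom_C]
    rfl
  | add P Q hP hQ =>
    obtain ⟨e1, h1⟩ := hP
    obtain ⟨e2, h2⟩ := hQ
    refine ⟨max e1 e2, fun e he => ?_⟩
    obtain ⟨A, hA, hA'⟩ := h1 e (le_trans (le_max_left _ _) he)
    obtain ⟨B, hB, hB'⟩ := h2 e (le_trans (le_max_right _ _) he)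
    exact ⟨A + B, hA.add hB, by rw [map_add, hA', hB', map_add]⟩
  | mul_X P i hP =>
    obtain ⟨e1, h1⟩ := hP
    refine ⟨e1 + 1, fun e he => ?_⟩
    obtain ⟨e', rfl⟩ : ∃ e', e = e' + 1 := ⟨e - 1, by omega⟩
    obtain ⟨A, hA, hA'⟩ := h1 e' (by omega)
    have h0 : ∃ j : Fin 3, aff (X j) = algebraMap (MvPolynomial (Fin 2) ℂ) Fn (X i) := by
      fin_cases i
      · exact ⟨1, by simp [aff]⟩
      · exact ⟨2, by simp [aff]⟩
    obtain ⟨j, hj⟩ := h0
    exact ⟨A * X j, hA.mul (isHomogeneous_X _ _), by rw [map_mul, hA', hj, map_mul]⟩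

private theorem b4_lin_hom (l : Fin 3 → ℂ) : (lin l).IsHomogeneous 1 :=
  MvPolynomial.IsHomogeneous.sum _ _ _ fun _ _ => MvPolynomial.isHomogeneous_C_mul_X _ _

private theorem b4_lin_eval (v l : Fin 3 → ℂ) : aeval v (lin l) = l ⬝ᵥ v := by
  simp [lin, dotProduct]

private theorem b4_along0 (A : MvPolynomial (Fin 3) ℂ) (q v : Fin 3 → ℂ) :
    (along A q v).coeff 0 = aeval q A := by
  unfold along
  rw [Polynomial.coeff_zero_eq_eval_zero, ← Polynomial.coe_aeval_eq_eval, comp_aeval_apply]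
  congr 2
  funext j
  simp

private theorem b4_lin_zero {l : Fin 3 → ℂ} (h : lin l = 0) : l = 0 := by
  funext j
  have h2 : MvPolynomial.eval (Pi.single j 1) (lin l) = l j := by
    simp [lin, Pi.single_apply]
  rw [h, map_zero] at h2
  exact h2.symm

private theorem b4_comp {b a : ℕ} {B C : MvPolynomial (Fin 3) ℂ} (hB : B.IsHomogeneous b) :
    homogeneousComponent (b + a) (B * C) = B * homogeneousComponent a C := by
  conv_lhs => rw [← sum_homogeneousComponent (φ := C), Finset.mul_sum, map_sum]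
  have h1 : ∀ i ∈ Finset.range (C.totalDegree + 1),
      homogeneousComponent (b + a) (B * homogeneousComponent i C) =
        if i = a then B * homogeneousComponent a C else 0 := by
    intro i _
    rw [homogeneousComponent_of_mem (n := b + i)
      (hB.mul (homogeneousComponent_isHomogeneous i C))]
    by_cases h : i = a
    · rw [h, if_pos rfl, if_pos rfl]
    · rw [if_neg (by omega), if_neg h]
  rw [Finset.sum_congr rfl h1, Finset.sum_ite_eq']
  split_ifs with h
  · rfl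
  · rw [homogeneousComponent_eq_zero, mul_zero]
    rw [Finset.mem_range] at h
    omega

/-- a prime dividing two linear forms: they are proportional -/
private theorem b4_two {p : MvPolynomial (Fin 3) ℂ} (hp : Prime p) {u v : Fin 3 → ℂ}
    (h : LinearIndependent ℂ ![u, v]) (hu : p ∣ lin u) (hv : p ∣ lin v) : False := by
  have hu0 : u ≠ 0 := by
    have := h.ne_zero 0
    simpa using this
  have hv0 : v ≠ 0 := by
    have := h.ne_zero 1
    simpa using this
  have hp1 : 1 ≤ p.totalDegree := by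
    by_contra h0
    have h1 : p.totalDegree = 0 := by omega
    rw [totalDegree_eq_zero_iff_eq_C] at h1
    apply hp.not_isUnit
    rw [h1]
    refine IsUnit.map _ (isUnit_iff_ne_zero.2 ?_)
    intro h2
    rw [h2, map_zero] at h1
    exact hp.ne_zero h1
  have key : ∀ w : Fin 3 → ℂ, w ≠ 0 → p ∣ lin w → ∃ c : ℂ, c ≠ 0 ∧ lin w = p * C c := by
    rintro w hw ⟨a, ha⟩
    have hlw : lin w ≠ 0 := fun h0 => hw (b4_lin_zero h0)
    have ha0 : a ≠ 0 := by
      rintro rfl
      rw [mul_zero] at ha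
      exact hlw ha
    have h1 := totalDegree_mul_of_isDomain hp.ne_zero ha0
    rw [← ha, (b4_lin_hom w).totalDegree hlw] at h1
    have h2 : a.totalDegree = 0 := by omega
    rw [totalDegree_eq_zero_iff_eq_C] at h2
    refine ⟨coeff 0 a, ?_, ?_⟩
    · intro h3
      rw [h3, map_zero] at h2
      exact ha0 h2
    · rw [← h2]; exact ha
  obtain ⟨a, ha0, ha⟩ := key u hu0 hu
  obtain ⟨b, hb0, hb⟩ := key v hv0 hv
  have h1 : lin (b • u + (-a) • v) = 0 := by
    have e : lin (b • u + (-a) • v) = C b * lin u + C (-a) * lin v := by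
      simp only [lin, Fin.sum_univ_three, Pi.add_apply, Pi.smul_apply, smul_eq_mul, map_add,
        map_mul]
      ring
    rw [e, ha, hb, map_neg]
    ring
  have h2 := b4_lin_zero h1
  rw [LinearIndependent.pair_iff] at h
  exact hb0 (h _ _ h2).1

private theorem b4_pt {p W : MvPolynomial (Fin 3) ℂ} (hp : Prime p) (h : ¬ p ∣ W) :
    ∃ q : Fin 3 → ℂ, aeval q p = 0 ∧ aeval q W ≠ 0 := by
  have hP : (Ideal.span {p}).IsPrime := (Ideal.span_singleton_prime hp.ne_zero).2 hp
  have h1 : W ∉ vanishingIdeal ℂ (zeroLocus ℂ (Ideal.span {p})) := by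
    rw [IsPrime.vanishingIdeal_zeroLocus, Ideal.mem_span_singleton]
    exact h
  rw [mem_vanishingIdeal_iff] at h1
  push Not at h1
  obtain ⟨q, hq, hq'⟩ := h1
  exact ⟨q, hq p (Ideal.mem_span_singleton_self p), hq'⟩

private theorem b4_w {q : Fin 3 → ℂ} (hq : q ≠ 0) : ∃ w : Fin 3 → ℂ,
    LinearIndependent ℂ ![q, w] := by
  obtain ⟨j, hj⟩ := Function.ne_iff.1 hq
  obtain ⟨i, hi⟩ := exists_ne j
  refine ⟨Pi.single i 1, ?_⟩
  rw [LinearIndependent.pair_iff]
  intro s t hst
  have h1 := congrFun hst j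
  simp only [Pi.add_apply, Pi.smul_apply, smul_eq_mul, Pi.zero_apply,
    Pi.single_eq_of_ne hi.symm, mul_zero, add_zero] at h1 hj
  have hs : s = 0 := (mul_eq_zero.1 h1).resolve_right hj
  refine ⟨hs, ?_⟩
  have h2 := congrFun hst i
  simpa [hs] using h2

open Classical in
private theorem b4_key (hC : Config L) {D : ℤ} {m : Finset (Fin k) → ℤ} {f : Fn}
    (h : ∀ y : Pt, ¬ Multiple L y.q → Sect L D m y f) {a b : ℕ} {A B : MvPolynomial (Fin 3) ℂ}
    (hA : A.IsHomogeneous a) (hB : B.IsHomogeneous b) (hab : (b : ℤ) = a + D) (hB0 : B ≠ 0)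
    (hf : f * aff B = aff A) : B ∣ A := by
  obtain ⟨A1, B1, G, hrel, hA1, hB1⟩ := UniqueFactorizationMonoid.exists_reduced_factors' A B hB0
  have hG0 : G ≠ 0 := by
    rintro rfl
    rw [zero_mul] at hB1
    exact hB0 hB1.symm
  have hB10 : B1 ≠ 0 := by
    rintro rfl
    rw [mul_zero] at hB1
    exact hB0 hB1.symm
  by_cases hu : IsUnit B1
  · obtain ⟨u, hu⟩ := hu
    refine ⟨↑u⁻¹ * A1, ?_⟩
    rw [← hA1, ← hB1, ← hu]
    rw [mul_assoc, ← mul_assoc (u : MvPolynomial (Fin 3) ℂ), Units.mul_inv, one_mul]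
  · exfalso
    obtain ⟨p, hpi, hpB⟩ := WfDvdMonoid.exists_irreducible_factor hu hB10
    have hp : Prime p := UniqueFactorizationMonoid.irreducible_iff_prime.1 hpi
    have hpA : ¬ p ∣ A1 := fun h1 => hpi.not_isUnit (hrel h1 hpB)
    have hj : ∃ j : Fin 3, ¬ p ∣ X j := by
      by_contra h0
      push Not at h0
      have h1 : Associated p (X 0) := hpi.associated_of_dvd (X_prime (R := ℂ)).irreducible (h0 0)
      have h2 : (X 0 : MvPolynomial (Fin 3) ℂ) ∣ X 1 := h1.symm.dvd.trans (h0 1)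
      rw [X_dvd_X] at h2
      exact absurd h2 (by decide)
    obtain ⟨j, hj⟩ := hj
    let M : MvPolynomial (Fin 3) ℂ :=
      ∏ i ∈ Finset.univ.filter (fun i => ¬ p ∣ lin (L i)), lin (L i)
    have hM : ¬ p ∣ M := by
      intro h1
      obtain ⟨i, hi, hi'⟩ := (hp.dvd_finsetProd_iff _).1 h1
      exact (Finset.mem_filter.1 hi).2 hi'
    have hW : ¬ p ∣ A1 * M * X j := by
      intro h1
      rcases hp.dvd_or_dvd h1 with h2 | h2
      · rcases hp.dvd_or_dvd h2 with h3 | h3
        · exact hpA h3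
        · exact hM h3
      · exact hj h2
    obtain ⟨q, hq0, hq1⟩ := b4_pt hp hW
    rw [map_mul, map_mul, aeval_X] at hq1
    have hqA : aeval q A1 ≠ 0 := left_ne_zero_of_mul (left_ne_zero_of_mul hq1)
    have hqM : aeval q M ≠ 0 := right_ne_zero_of_mul (left_ne_zero_of_mul hq1)
    have hqj : q j ≠ 0 := right_ne_zero_of_mul hq1
    have hq : q ≠ 0 := by
      rintro rfl
      exact hqj rfl
    obtain ⟨w, hw⟩ := b4_w hq
    have hmul : ∀ i, L i ⬝ᵥ q = 0 → p ∣ lin (L i) := by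
      intro i hi
      by_contra h0
      apply hqM
      have h1 : i ∈ Finset.univ.filter (fun i => ¬ p ∣ lin (L i)) :=
        Finset.mem_filter.2 ⟨Finset.mem_univ _, h0⟩
      change aeval q (∏ i ∈ Finset.univ.filter (fun i => ¬ p ∣ lin (L i)), lin (L i)) = 0
      rw [map_prod]
      exact Finset.prod_eq_zero h1 (by rw [b4_lin_eval, hi])
    have hnm : ¬ Multiple L q := by
      rintro ⟨x, y, z, hxy, hxz, hyz, hx, hy, hz⟩
      exact b4_two hp (hC.ind x y hxy) (hmul x hx) (hmul y hy)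
    have hy := h ⟨q, w, hw⟩ hnm
    obtain ⟨lam, sig, h1, h2, h3, e, r, A', B', hA', hB', hr, hAv, hBv, hBc, hf'⟩ := hy
    have hr0 : r = 0 := hr.resolve_right hnm
    subst hr0
    have hmu : muq L m ⟨q, w, hw⟩ = 0 := by
      unfold muq
      rw [if_neg hnm]
    rw [hmu, sub_zero, zpow_zero, mul_one] at hf'
    rw [b4_along0] at hBc
    change lam ⬝ᵥ q ≠ 0 at h1
    change aeval q B' ≠ 0 at hBc
    have hlam : fl lam ≠ 0 := by
      apply fl_ne_zero
      rintro rfl
      exact h1 (zero_dotProduct _)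
    obtain ⟨n1, n2, hn⟩ : ∃ n1 n2 : ℕ, D = n1 - n2 := ⟨D.toNat, (-D).toNat, by omega⟩
    have hz : fl lam ^ D * fl lam ^ n2 = fl lam ^ n1 := by
      rw [← zpow_natCast, ← zpow_natCast, ← zpow_add₀ hlam, hn]
      congr 1
      ring
    have e1 : A * lin lam ^ n1 * B' = A' * B * lin lam ^ n2 := by
      rw [← sub_eq_zero]
      have hd1 : (A * lin lam ^ n1 * B').IsHomogeneous (a + n1 + e) := by
        have := (hA.mul ((b4_lin_hom lam).pow n1)).mul hB'
        rwa [one_mul] at this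
      have hd2 : (A' * B * lin lam ^ n2).IsHomogeneous (a + n1 + e) := by
        have := (hA'.mul hB).mul ((b4_lin_hom lam).pow n2)
        rw [one_mul] at this
        have he : e + b + n2 = a + n1 + e := by omega
        rwa [he] at this
      refine aff_inj (hd1.sub hd2) ?_
      rw [map_sub, map_mul, map_mul, map_pow, map_mul, map_mul, map_pow, ← hf, ← hf']
      change f * aff B * fl lam ^ n1 * aff B' - f * fl lam ^ D * aff B' * aff B * fl lam ^ n2 = 0
      rw [← hz]
      ring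
    have e2 : A1 * lin lam ^ n1 * B' = A' * B1 * lin lam ^ n2 := by
      refine mul_left_cancel₀ hG0 ?_
      rw [← hA1, ← hB1] at e1
      linear_combination e1
    have e3 := congrArg (aeval q) e2
    rw [map_mul, map_mul, map_mul, map_mul, map_pow, map_pow, b4_lin_eval] at e3
    have e4 : aeval q B1 = 0 := by
      obtain ⟨c, rfl⟩ := hpB
      rw [map_mul, hq0, zero_mul]
    rw [e4, mul_zero, zero_mul] at e3
    exact mul_ne_zero (mul_ne_zero hqA (pow_ne_zero _ h1)) hBc e3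

private theorem b4_forms (D : ℤ) (f : Fn) : ∃ (a b : ℕ) (A B : MvPolynomial (Fin 3) ℂ),
    A.IsHomogeneous a ∧ B.IsHomogeneous b ∧ (b : ℤ) = a + D ∧ B ≠ 0 ∧ f * aff B = aff A := by
  obtain ⟨p, q, hq, hf⟩ := IsFractionRing.div_surjective (A := MvPolynomial (Fin 2) ℂ) f
  have hq0 : q ≠ 0 := nonZeroDivisors.ne_zero hq
  obtain ⟨e1, h1⟩ := b4_hom p
  obtain ⟨e2, h2⟩ := b4_hom q
  obtain ⟨a, ha1, ha2⟩ : ∃ a : ℕ, e1 ≤ a ∧ (e2 : ℤ) ≤ a + D :=
    ⟨max e1 (e2 - D).toNat, le_max_left _ _, by omega⟩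
  obtain ⟨b, hb⟩ : ∃ b : ℕ, (b : ℤ) = a + D := ⟨(a + D).toNat, by omega⟩
  obtain ⟨A, hA, hA'⟩ := h1 a ha1
  obtain ⟨B, hB, hB'⟩ := h2 b (by omega)
  have hq1 : algebraMap (MvPolynomial (Fin 2) ℂ) Fn q ≠ 0 := by
    rw [Ne, FaithfulSMul.algebraMap_eq_zero_iff]
    exact hq0
  refine ⟨a, b, A, B, hA, hB, hb, ?_, ?_⟩
  · rintro rfl
    rw [map_zero] at hB'
    exact hq1 hB'.symm
  · rw [hA', hB', ← hf, div_mul_cancel₀ _ hq1]

private theorem b4_aff_ne {b : ℕ} {B : MvPolynomial (Fin 3) ℂ} (hB : B.IsHomogeneous b)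
    (h : B ≠ 0) : aff B ≠ 0 := fun h0 => h (aff_inj hB h0)

private theorem b4_main (hC : Config L) {D : ℤ} {m : Finset (Fin k) → ℤ} {f : Fn}
    (h : ∀ y : Pt, ¬ Multiple L y.q → Sect L D m y f) {n : ℕ} (hn : D = -n) :
    ∃ A : MvPolynomial (Fin 3) ℂ, A.IsHomogeneous n ∧ f = aff A := by
  obtain ⟨a, b, A, B, hA, hB, hab, hB0, hf⟩ := b4_forms D f
  obtain ⟨E, hE⟩ := b4_key hC h hA hB hab hB0 hf
  have hab' : a = b + n := by omega
  subst hab'
  have h1 := b4_comp (a := n) (C := E) hB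
  rw [← hE, homogeneousComponent_eq_self hA] at h1
  refine ⟨homogeneousComponent n E, homogeneousComponent_isHomogeneous n E, ?_⟩
  rw [h1, map_mul, mul_comm] at hf
  exact mul_left_cancel₀ (b4_aff_ne hB hB0) hf

theorem h0_neg (hC : Config L) {D : ℤ} (hD : 0 < D) {m : Finset (Fin k) → ℤ} {f : Fn}
    (h : ∀ y : Pt, ¬ Multiple L y.q → Sect L D m y f) : f = 0 := by
  obtain ⟨a, b, A, B, hA, hB, hab, hB0, hf⟩ := b4_forms D f
  obtain ⟨E, hE⟩ := b4_key hC h hA hB hab hB0 hf
  by_cases hA0 : A = 0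
  · rw [hA0, map_zero] at hf
    exact (mul_eq_zero.1 hf).resolve_right (b4_aff_ne hB hB0)
  · exfalso
    have hE0 : E ≠ 0 := by
      rintro rfl
      rw [mul_zero] at hE
      exact hA0 hE
    have h1 := totalDegree_mul_of_isDomain hB0 hE0
    rw [← hE, hA.totalDegree hA0, hB.totalDegree hB0] at h1
    omega

theorem h0_zero (hC : Config L) {m : Finset (Fin k) → ℤ} {f : Fn}
    (h : ∀ y : Pt, ¬ Multiple L y.q → Sect L 0 m y f) : ∃ c : ℂ, f = algebraMap ℂ Fn c := by
  obtain ⟨A, hA, hf⟩ := b4_main hC h (n := 0) (by simp)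
  have h1 := hA.totalDegree_le
  have h2 : A.totalDegree = 0 := by omega
  rw [totalDegree_eq_zero_iff_eq_C] at h2
  refine ⟨coeff 0 A, ?_⟩
  rw [hf, h2, algHom_C]
  simp

theorem h0_one (hC : Config L) {m : Finset (Fin k) → ℤ} {f : Fn}
    (h : ∀ y : Pt, ¬ Multiple L y.q → Sect L (-1) m y f) : ∃ l : Fin 3 → ℂ, f = fl l := by
  obtain ⟨A, hA, hf⟩ := b4_main hC h (n := 1) (by simp)
  refine ⟨fun j => coeff (Finsupp.single j 1) A, ?_⟩
  rw [hf, fl]
  congr 1
  ext d
  by_cases hd : d.degree = 1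
  · obtain ⟨j, rfl⟩ : ∃ j, d = Finsupp.single j 1 := by
      rw [Finsupp.degree_eq_sum] at hd
      have hex : ∃ j, d j ≠ 0 := by
        by_contra h0
        push Not at h0
        rw [Finset.sum_eq_zero fun j _ => h0 j] at hd
        exact absurd hd (by decide)
      obtain ⟨j, hj⟩ := hex
      refine ⟨j, ?_⟩
      rw [← Finset.add_sum_erase _ _ (Finset.mem_univ j)] at hd
      have h1 : ∑ x ∈ Finset.univ.erase j, d x = 0 := by omega
      rw [Finset.sum_eq_zero_iff] at h1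
      ext i
      by_cases hi : i = j
      · subst hi
        rw [Finsupp.single_eq_same]
        omega
      · rw [Finsupp.single_eq_of_ne hi]
        exact h1 i (Finset.mem_erase.2 ⟨hi, Finset.mem_univ _⟩)
    simp only [lin, coeff_sum, coeff_C_mul, coeff_X]
    rw [Finset.sum_eq_single j]
    · simp
    · intro i _ hi
      rw [if_neg, mul_zero]
      intro h0
      exact hi (Finsupp.single_left_injective one_ne_zero h0)
    · intro h0
      exact absurd (Finset.mem_univ j) h0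
  · have h1 : coeff d A = 0 := hA.coeff_eq_zero hd
    have h2 := (b4_lin_hom (fun j => coeff (Finsupp.single j 1) A)).coeff_eq_zero hd
    rw [h1, h2]

end HKR
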