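import Pool.Agent.Lib.HKR.Defs

/-!
HKR, part B (local rings of the blow-up, twisted sections).  Definitions, by helper90.
-/

open MvPolynomial

namespace HKR

open Classical in
/-- the lines through `q` -/
noncomputable def SS {k : ℕ} (L : Fin k → Fin 3 → ℂ) (q : Fin 3 → ℂ) : Finset (Fin k) :=
  Finset.univ.filter (fun i => L i ⬝ᵥ q = 0)

open Classical in
/-- the multiplicity at `y` of the class `(D; m)`; `m` is a function of the set of lines through a
multiple point -/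
noncomputable def muq {k : ℕ} (L : Fin k → Fin 3 → ℂ) (m : Finset (Fin k) → ℤ) (y : Pt) : ℤ :=
  if Multiple L y.q then m (SS L y.q) else 0

/-- `Sect L D m y f`: `f` is a section near `y` of `O(-N)`, `N = D H - Σ m_q E_q`: a homogeneous
fraction of degree `-D` with a pole of order at most `m_q` along `E_q` (written dehomogenised);
`lam`, `sig` are linear forms with `lam(q) ≠ 0`, `sig(q) = 0`, `sig(w) ≠ 0` -/
def Sect {k : ℕ} (L : Fin k → Fin 3 → ℂ) (D : ℤ) (m : Finset (Fin k) → ℤ) (y : Pt) (f : Fn) :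
    Prop :=
  ∃ lam sig : Fin 3 → ℂ, lam ⬝ᵥ y.q ≠ 0 ∧ sig ⬝ᵥ y.q = 0 ∧ sig ⬝ᵥ y.w ≠ 0 ∧
    Regular L y (f * fl lam ^ (D - muq L m y) * fl sig ^ (muq L m y))

/-- `f` is regular at `y` with value `c` -/
def Val {k : ℕ} (L : Fin k → Fin 3 → ℂ) (y : Pt) (f : Fn) (c : ℂ) : Prop :=
  ∃ (e r : ℕ) (A B : MvPolynomial (Fin 3) ℂ), A.IsHomogeneous e ∧ B.IsHomogeneous e ∧
    (r = 0 ∨ Multiple L y.q) ∧
    (∀ v, Polynomial.X ^ r ∣ along A y.q v) ∧ (∀ v, Polynomial.X ^ r ∣ along B y.q v) ∧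
    (along B y.q y.w).coeff r ≠ 0 ∧ f * aff B = aff A ∧
    (along A y.q y.w).coeff r = c * (along B y.q y.w).coeff r

/-- the substitution `x ↦ s`, `y ↦ t` -/
noncomputable def psi (s t : Fn) : MvPolynomial (Fin 2) ℂ →ₐ[ℂ] Fn := MvPolynomial.aeval ![s, t]

/-- `f` is in the local ring at `(a,b)` of the plane with coordinates `s`, `t` -/
def RLoc (s t : Fn) (a b : ℂ) (f : Fn) : Prop :=
  ∃ P Q : MvPolynomial (Fin 2) ℂ, MvPolynomial.eval ![a, b] Q ≠ 0 ∧ f * psi s t Q = psi s t P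

/-- `s`, `t` are coordinates: algebraically independent and generating -/
structure Coord (s t : Fn) : Prop where
  inj : ∀ P, psi s t P = 0 → P = 0
  gen : ∀ f : Fn, ∃ P Q : MvPolynomial (Fin 2) ℂ, Q ≠ 0 ∧ f * psi s t Q = psi s t P

end HKR
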