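import Pool.Agent.Lib.HKR.CRig
/-!
HKR.C1 (config 1).  For a multiple point p the lines off p are not concurrent.
PROOF.  Suppose v ≠ 0 and all lines off p pass through v.  If v is proportional to p, all lines pass
through p, contradiction with nonconc.  So p, v independent and every line passes through p or v.
A := lines through p not v, B := lines through v not p; at most one line i0 through both (it is
proportional to λ0 := crossProduct p v).  |A| + |B| + [i0] = k ≥ 6.
(1) A point q ≠ 0 on three distinct lines is proportional to p or to v: of three lines through q at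
    most one is in A (a line through p and q, if q not prop. to p), at most one in B, and i0; if i0
    passes through q then q = αp + βv and a line of A through q would vanish at v, so it passes
    through v: not in A; similarly B.  So at most 2 lines pass through q.
(2) Let j ∈ A, μ a form with μ(p) = 0 independent of L j (exists: p^⊥ is a plane).  w := μ at j, 0
    elsewhere.  Exactness for AffRigid: for a triple a b c with det3 = 0: if two indices agree the
    deformed det3 has two equal rows; if j is not among them nothing changes; else distinct: there is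
    q ≠ 0 killed by the three forms (singular matrix), by (1) q ∥ p or q ∥ v, q ∥ v impossible as j
    is not through v, so q ∥ p, and all three deformed forms vanish at p, so det3 = 0.
    AffRigid gives g, c with: L i g = -c i L i for i ≠ j, and μ = c j L j + L j g.
    If g acts on p^⊥ as a scalar (eigen_pencil with three forms of p^⊥) then L j g ∥ L j, so μ ∥ L j,
    contradiction.  So: NOT three pairwise independent eigenforms of g in p^⊥.
    Same with p and v exchanged (j ∈ B, μ(v) = 0).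
(3) Eigenforms in p^⊥: the lines of A other than j; and λ0 if i0 exists or if |B| ≥ 3 (then g acts
    on v^⊥ as a scalar by eigen_pencil, and λ0 ∈ v^⊥).
    |A| ≥ 4: three others in A.  |A| = 3: two others and λ0 (i0 exists or |B| ≥ 3 since k ≥ 6).
    |A| ≤ 2: p is multiple so |A| = 2 and i0 exists, |B| = k - 3 ≥ 3; exchange the roles: j ∈ B, two
    others in B and λ0 = i0.
(Suggestion: prove (2)+(3) as one lemma symmetric in p, v: hypotheses p v independent, every line
through p or v, j through p not v, and three pairwise independent forms in p^⊥ that are eigenforms of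
EVERY g having all L i, i ≠ j, as eigenforms; conclusion False.)
-/
namespace HKR

open Matrix

/-- cross product -/
private def c1cr (p v : Fin 3 → ℂ) : Fin 3 → ℂ :=
  ![p 1 * v 2 - p 2 * v 1, p 2 * v 0 - p 0 * v 2, p 0 * v 1 - p 1 * v 0]

private theorem c1dot (f x : Fin 3 → ℂ) : f ⬝ᵥ x = f 0 * x 0 + f 1 * x 1 + f 2 * x 2 := by
  simp [dotProduct, Fin.sum_univ_three]

private theorem c1cr_left (p v : Fin 3 → ℂ) : c1cr p v ⬝ᵥ p = 0 := by
  rw [c1dot]
  simp [c1cr]
  ring

private theorem c1cr_right (p v : Fin 3 → ℂ) : c1cr p v ⬝ᵥ v = 0 := by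
  rw [c1dot]
  simp [c1cr]
  ring

private theorem c1cr_ne {p v : Fin 3 → ℂ} (h : LinearIndependent ℂ ![p, v]) : c1cr p v ≠ 0 := by
  intro h0
  have e0 : p 1 * v 2 - p 2 * v 1 = 0 := congrFun h0 0
  have e1 : p 2 * v 0 - p 0 * v 2 = 0 := congrFun h0 1
  have e2 : p 0 * v 1 - p 1 * v 0 = 0 := congrFun h0 2
  rw [LinearIndependent.pair_iff] at h
  have key : ∀ i : Fin 3, p i = 0 := by
    intro i
    have h1 := h (v i) (- p i) (by
      funext j
      simp only [Pi.add_apply, Pi.smul_apply, smul_eq_mul, Pi.zero_apply]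
      fin_cases i <;> fin_cases j <;> simp <;>
        first
          | ring1
          | linear_combination e0
          | linear_combination -e0
          | linear_combination e1
          | linear_combination -e1
          | linear_combination e2
          | linear_combination -e2)
    have h2 := h1.2
    simpa using h2
  have hp : p = 0 := funext key
  have h3 := h 1 0 (by rw [hp]; simp)
  exact one_ne_zero h3.1

/-- a vector killed by two independent forms is a multiple of the cross product -/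
private theorem c1ker {f g x : Fin 3 → ℂ} (h : LinearIndependent ℂ ![f, g]) (hf : f ⬝ᵥ x = 0)
    (hg : g ⬝ᵥ x = 0) : ∃ α : ℂ, x = α • c1cr f g := by
  have hn := c1cr_ne h
  rw [c1dot] at hf hg
  set n := c1cr f g with hndef
  have n0 : n 0 = f 1 * g 2 - f 2 * g 1 := rfl
  have n1 : n 1 = f 2 * g 0 - f 0 * g 2 := rfl
  have n2 : n 2 = f 0 * g 1 - f 1 * g 0 := rfl
  have h01 : x 0 * n 1 - x 1 * n 0 = 0 := by
    rw [n0, n1]; linear_combination f 2 * hg - g 2 * hf
  have h12 : x 1 * n 2 - x 2 * n 1 = 0 := by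
    rw [n1, n2]; linear_combination f 0 * hg - g 0 * hf
  have h20 : x 2 * n 0 - x 0 * n 2 = 0 := by
    rw [n0, n2]; linear_combination f 1 * hg - g 1 * hf
  have hex : ∃ j, n j ≠ 0 := by
    by_contra hcon
    push Not at hcon
    exact hn (funext hcon)
  obtain ⟨j, hj⟩ := hex
  refine ⟨x j / n j, ?_⟩
  funext i
  rw [Pi.smul_apply, smul_eq_mul, div_mul_eq_mul_div, eq_div_iff hj]
  fin_cases i <;> fin_cases j <;> simp <;>
    first
      | ring1
      | linear_combination h01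
      | linear_combination -h01
      | linear_combination h12
      | linear_combination -h12
      | linear_combination h20
      | linear_combination -h20

/-- two points killed by two independent forms are proportional -/
private theorem c1par {f g p q : Fin 3 → ℂ} (h : LinearIndependent ℂ ![f, g]) (hf : f ⬝ᵥ q = 0)
    (hg : g ⬝ᵥ q = 0) (hf' : f ⬝ᵥ p = 0) (hg' : g ⬝ᵥ p = 0) (hq : q ≠ 0) :
    ∃ c : ℂ, p = c • q := by
  obtain ⟨α, hα⟩ := c1ker h hf hg
  obtain ⟨β, hβ⟩ := c1ker h hf' hg'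
  have hα0 : α ≠ 0 := by
    rintro rfl
    exact hq (by rw [hα, zero_smul])
  refine ⟨β / α, ?_⟩
  rw [hβ, hα, smul_smul, div_mul_cancel₀ _ hα0]

private theorem c1det {a b c q : Fin 3 → ℂ} (hq : q ≠ 0) (ha : a ⬝ᵥ q = 0) (hb : b ⬝ᵥ q = 0)
    (hc : c ⬝ᵥ q = 0) : det3 a b c = 0 := by
  unfold det3
  rw [← Matrix.exists_mulVec_eq_zero_iff]
  refine ⟨q, hq, ?_⟩
  funext i
  fin_cases i
  · exact ha
  · exact hb
  · exact hc

private theorem c1det' {a b c : Fin 3 → ℂ} (h : det3 a b c = 0) :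
    ∃ q : Fin 3 → ℂ, q ≠ 0 ∧ a ⬝ᵥ q = 0 ∧ b ⬝ᵥ q = 0 ∧ c ⬝ᵥ q = 0 := by
  unfold det3 at h
  rw [← Matrix.exists_mulVec_eq_zero_iff] at h
  obtain ⟨q, hq, hm⟩ := h
  exact ⟨q, hq, congrFun hm 0, congrFun hm 1, congrFun hm 2⟩

/-- three distinct concurrent lines, one of them through `p` and not through `v`, pass
through `p` -/
private theorem c1conc {k : ℕ} {L : Fin k → Fin 3 → ℂ} (hC : Config L) {p v : Fin 3 → ℂ}
    (hpv : ∀ i, L i ⬝ᵥ p = 0 ∨ L i ⬝ᵥ v = 0) {j a b : Fin k} (hjp : L j ⬝ᵥ p = 0)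
    (hjv : L j ⬝ᵥ v ≠ 0) (hja : j ≠ a) (hjb : j ≠ b) (hab : a ≠ b) {q : Fin 3 → ℂ} (hq : q ≠ 0)
    (hj : L j ⬝ᵥ q = 0) (ha : L a ⬝ᵥ q = 0) (hb : L b ⬝ᵥ q = 0) : L a ⬝ᵥ p = 0 := by
  by_contra hap
  have hav : L a ⬝ᵥ v = 0 := (hpv a).resolve_left hap
  rcases hpv b with hbp | hbv
  · obtain ⟨c, hc⟩ := c1par (hC.ind j b hjb) hj hb hjp hbp hq
    apply hap
    rw [hc, dotProduct_smul, ha, smul_zero]
  · obtain ⟨c, hc⟩ := c1par (hC.ind a b hab) ha hb hav hbv hq
    apply hjv
    rw [hc, dotProduct_smul, hj, smul_zero]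

private theorem c1core {k : ℕ} {L : Fin k → Fin 3 → ℂ} (hC : Config L) (hR : AffRigid L)
    {p v : Fin 3 → ℂ} (hp0 : p ≠ 0) (hind : LinearIndependent ℂ ![p, v])
    (hpv : ∀ i, L i ⬝ᵥ p = 0 ∨ L i ⬝ᵥ v = 0) {j : Fin k} (hjp : L j ⬝ᵥ p = 0)
    (hjv : L j ⬝ᵥ v ≠ 0) {f1 f2 f3 : Fin 3 → ℂ} (h1 : f1 ⬝ᵥ p = 0) (h2 : f2 ⬝ᵥ p = 0)
    (h3 : f3 ⬝ᵥ p = 0) (h12 : LinearIndependent ℂ ![f1, f2]) (h13 : LinearIndependent ℂ ![f1, f3])
    (h23 : LinearIndependent ℂ ![f2, f3])
    (hE : ∀ g : Matrix (Fin 3) (Fin 3) ℂ, (∀ i, i ≠ j → ∃ x : ℂ, vecMul (L i) g = x • L i) →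
      (∃ x : ℂ, vecMul f1 g = x • f1) ∧ (∃ x : ℂ, vecMul f2 g = x • f2) ∧
      (∃ x : ℂ, vecMul f3 g = x • f3)) : False := by
  classical
  set m0 := c1cr p v with hm0
  have hm0p : m0 ⬝ᵥ p = 0 := c1cr_left p v
  have hm0v : m0 ⬝ᵥ v = 0 := c1cr_right p v
  have hm0n : m0 ≠ 0 := c1cr_ne hind
  let w : Fin k → Fin 3 → ℂ := fun i => if i = j then m0 else 0
  have hwp : ∀ i, w i ⬝ᵥ p = 0 := by
    intro i
    by_cases hi : i = j
    · simp only [w, if_pos hi, hm0p]
    · simp only [w, if_neg hi, zero_dotProduct]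
  have hw0 : ∀ i, i ≠ j → w i = 0 := by
    intro i hi
    simp only [w, if_neg hi]
  obtain ⟨g, c, hg⟩ := hR w (by
    intro x y z hdet t
    by_cases hxy : x = y
    · subst hxy
      unfold det3
      exact Matrix.det_zero_of_row_eq (i := 0) (j := 1) (by decide) rfl
    by_cases hxz : x = z
    · subst hxz
      unfold det3
      exact Matrix.det_zero_of_row_eq (i := 0) (j := 2) (by decide) rfl
    by_cases hyz : y = z
    · subst hyz
      unfold det3
      exact Matrix.det_zero_of_row_eq (i := 1) (j := 2) (by decide) rfl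
    obtain ⟨q, hq, hqx, hqy, hqz⟩ := c1det' hdet
    have hdef : ∀ i, L i ⬝ᵥ p = 0 → (L i + t • w i) ⬝ᵥ p = 0 := by
      intro i hi
      rw [add_dotProduct, smul_dotProduct, hi, hwp, smul_zero, add_zero]
    by_cases hjx : j = x
    · subst hjx
      have a1 := c1conc hC hpv hjp hjv hxy hxz hyz hq hqx hqy hqz
      have a2 := c1conc hC hpv hjp hjv hxz hxy (Ne.symm hyz) hq hqx hqz hqy
      exact c1det hp0 (hdef _ hjp) (hdef _ a1) (hdef _ a2)
    by_cases hjy : j = y
    · subst hjy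
      have a1 := c1conc hC hpv hjp hjv (Ne.symm hxy) hyz hxz hq hqy hqx hqz
      have a2 := c1conc hC hpv hjp hjv hyz (Ne.symm hxy) (Ne.symm hxz) hq hqy hqz hqx
      exact c1det hp0 (hdef _ a1) (hdef _ hjp) (hdef _ a2)
    by_cases hjz : j = z
    · subst hjz
      have a1 := c1conc hC hpv hjp hjv (Ne.symm hxz) (Ne.symm hyz) hxy hq hqz hqx hqy
      have a2 := c1conc hC hpv hjp hjv (Ne.symm hyz) (Ne.symm hxz) (Ne.symm hxy) hq hqz hqy hqx
      exact c1det hp0 (hdef _ a1) (hdef _ a2) (hdef _ hjp)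
    rw [hw0 x (Ne.symm hjx), hw0 y (Ne.symm hjy), hw0 z (Ne.symm hjz), smul_zero, add_zero,
      add_zero, add_zero]
    exact hdet)
  have hE' := hE g (by
    intro i hi
    refine ⟨- c i, ?_⟩
    have h4 := hg i
    rw [hw0 i hi] at h4
    rw [neg_smul]
    exact (neg_eq_of_add_eq_zero_right h4.symm).symm)
  obtain ⟨e1, e2, e3⟩ := hE'
  obtain ⟨s, m, hs⟩ := eigen_pencil hp0 g h1 h2 h3 h12 h13 h23 e1 e2 e3
  have h5 := hs (L j)
  rw [hjp, zero_smul, add_zero] at h5
  have h6 := hg j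
  have h7 : w j = m0 := by simp only [w, if_true]
  rw [h7, h5, ← add_smul] at h6
  have h8 : (c j + s) * (L j ⬝ᵥ v) = 0 := by
    rw [← smul_eq_mul, ← smul_dotProduct, ← h6, hm0v]
  rcases mul_eq_zero.1 h8 with h9 | h9
  · rw [h9, zero_smul] at h6
    exact hm0n h6
  · exact hjv h9

/-- `c1core` with the cross product as one of the forms -/
private theorem c1cross {f m0 v : Fin 3 → ℂ} (hf : f ⬝ᵥ v ≠ 0) (hm : m0 ⬝ᵥ v = 0) (h0 : m0 ≠ 0) :
    LinearIndependent ℂ ![f, m0] := by
  rw [LinearIndependent.pair_iff]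
  intro s t hst
  have h1 : s * (f ⬝ᵥ v) = 0 := by
    have h2 := congrArg (fun z => z ⬝ᵥ v) hst
    simp only [add_dotProduct, smul_dotProduct, hm, mul_zero, add_zero, zero_dotProduct,
      smul_eq_mul] at h2
    exact h2
  have hs : s = 0 := (mul_eq_zero.1 h1).resolve_right hf
  rw [hs, zero_smul, zero_add] at hst
  exact ⟨hs, (smul_eq_zero.1 hst).resolve_right h0⟩

private theorem c1eig {k : ℕ} {L : Fin k → Fin 3 → ℂ} {p v : Fin 3 → ℂ}
    (hind : LinearIndependent ℂ ![p, v]) {i0 : Fin k} (hp : L i0 ⬝ᵥ p = 0) (hv : L i0 ⬝ᵥ v = 0)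
    (h0 : L i0 ≠ 0) (g : Matrix (Fin 3) (Fin 3) ℂ) (he : ∃ x : ℂ, vecMul (L i0) g = x • L i0) :
    ∃ x : ℂ, vecMul (c1cr p v) g = x • c1cr p v := by
  obtain ⟨α, hα⟩ := c1ker (x := L i0) hind (by rw [dotProduct_comm]; exact hp)
    (by rw [dotProduct_comm]; exact hv)
  have hα0 : α ≠ 0 := by
    rintro rfl
    exact h0 (by rw [hα, zero_smul])
  obtain ⟨x, hx⟩ := he
  refine ⟨x, ?_⟩
  rw [hα, smul_vecMul, smul_comm] at hx
  exact smul_right_injective _ hα0 hx

private theorem c1ne {k : ℕ} {L : Fin k → Fin 3 → ℂ} (hC : Config L) {i j : Fin k} (h : i ≠ j) :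
    L i ≠ 0 := by
  intro h0
  have h1 := hC.ind i j h
  rw [LinearIndependent.pair_iff] at h1
  have h2 := h1 1 0 (by rw [h0]; simp)
  exact one_ne_zero h2.1

private theorem c1one {k : ℕ} {L : Fin k → Fin 3 → ℂ} (hC : Config L) {p v : Fin 3 → ℂ}
    (hind : LinearIndependent ℂ ![p, v]) {i j : Fin k} (hip : L i ⬝ᵥ p = 0) (hiv : L i ⬝ᵥ v = 0)
    (hjp : L j ⬝ᵥ p = 0) (hjv : L j ⬝ᵥ v = 0) : i = j := by
  by_contra hij
  obtain ⟨α, hα⟩ := c1ker (x := L i) hind (by rw [dotProduct_comm]; exact hip)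
    (by rw [dotProduct_comm]; exact hiv)
  obtain ⟨β, hβ⟩ := c1ker (x := L j) hind (by rw [dotProduct_comm]; exact hjp)
    (by rw [dotProduct_comm]; exact hjv)
  have h1 := hC.ind i j hij
  rw [LinearIndependent.pair_iff] at h1
  have h2 := h1 β (-α) (by rw [hα, hβ, smul_smul, smul_smul, ← add_smul]; ring_nf; simp)
  have h3 : α = 0 := by simpa using h2.2
  exact c1ne hC hij (by rw [hα, h3, zero_smul])

theorem c1 {k : ℕ} {L : Fin k → Fin 3 → ℂ} (hk : 6 ≤ k) (hC : Config L) (hR : AffRigid L)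
    {p : Fin 3 → ℂ} (hp0 : p ≠ 0) (hp : Multiple L p) (v : Fin 3 → ℂ)
    (hv : ∀ i, L i ⬝ᵥ p ≠ 0 → L i ⬝ᵥ v = 0) : v = 0 := by
  classical
  by_contra hv0
  have hpv : ∀ i, L i ⬝ᵥ p = 0 ∨ L i ⬝ᵥ v = 0 := by
    intro i
    by_cases h : L i ⬝ᵥ p = 0
    · exact Or.inl h
    · exact Or.inr (hv i h)
  have hvp : ∀ i, L i ⬝ᵥ v = 0 ∨ L i ⬝ᵥ p = 0 := fun i => (hpv i).symm
  -- independence
  have hind : LinearIndependent ℂ ![p, v] := by
    rw [LinearIndependent.pair_iff' hp0]
    intro c hc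
    apply hp0
    apply hC.nonconc
    intro i
    by_contra hi
    have h1 := hv i hi
    rw [← hc, dotProduct_smul, smul_eq_mul] at h1
    rcases mul_eq_zero.1 h1 with h2 | h2
    · rw [h2, zero_smul] at hc
      exact hv0 hc.symm
    · exact hi h2
  have hind' : LinearIndependent ℂ ![v, p] := by
    rw [LinearIndependent.pair_iff] at hind ⊢
    intro s t hst
    have h1 := hind t s (by rw [add_comm]; exact hst)
    exact ⟨h1.2, h1.1⟩
  set A := Finset.univ.filter (fun i : Fin k => L i ⬝ᵥ p = 0 ∧ L i ⬝ᵥ v ≠ 0) with hA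
  set B := Finset.univ.filter (fun i : Fin k => L i ⬝ᵥ v = 0 ∧ L i ⬝ᵥ p ≠ 0) with hB
  set I := Finset.univ.filter (fun i : Fin k => L i ⬝ᵥ p = 0 ∧ L i ⬝ᵥ v = 0) with hI
  have mA : ∀ i, i ∈ A ↔ (L i ⬝ᵥ p = 0 ∧ L i ⬝ᵥ v ≠ 0) := by intro i; simp [hA]
  have mB : ∀ i, i ∈ B ↔ (L i ⬝ᵥ v = 0 ∧ L i ⬝ᵥ p ≠ 0) := by intro i; simp [hB]
  have mI : ∀ i, i ∈ I ↔ (L i ⬝ᵥ p = 0 ∧ L i ⬝ᵥ v = 0) := by intro i; simp [hI]
  have hcard : k ≤ A.card + B.card + I.card := by
    have h1 : (Finset.univ : Finset (Fin k)) ⊆ A ∪ B ∪ I := by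
      intro i _
      rw [Finset.mem_union, Finset.mem_union, mA, mB, mI]
      rcases hpv i with h | h
      · by_cases h2 : L i ⬝ᵥ v = 0
        · exact Or.inr ⟨h, h2⟩
        · exact Or.inl (Or.inl ⟨h, h2⟩)
      · by_cases h2 : L i ⬝ᵥ p = 0
        · exact Or.inr ⟨h2, h⟩
        · exact Or.inl (Or.inr ⟨h, h2⟩)
    have h2 := Finset.card_le_card h1
    rw [Finset.card_univ, Fintype.card_fin] at h2
    have h3 := Finset.card_union_le (A ∪ B) I
    have h4 := Finset.card_union_le A B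
    omega
  have hI1 : I.card ≤ 1 := by
    rw [Finset.card_le_one]
    intro i hi j hj
    rw [mI] at hi hj
    exact c1one hC hind hi.1 hi.2 hj.1 hj.2
  have hAI : 3 ≤ A.card + I.card := by
    obtain ⟨a, b, c, hab, hac, hbc, ha, hb, hc⟩ := hp
    have h1 : ({a, b, c} : Finset (Fin k)) ⊆ A ∪ I := by
      have h2 : ∀ i, L i ⬝ᵥ p = 0 → i ∈ A ∪ I := by
        intro i hi
        rw [Finset.mem_union, mA, mI]
        by_cases h3 : L i ⬝ᵥ v = 0
        · exact Or.inr ⟨hi, h3⟩
        · exact Or.inl ⟨hi, h3⟩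
      intro i hi
      simp only [Finset.mem_insert, Finset.mem_singleton] at hi
      rcases hi with rfl | rfl | rfl
      · exact h2 _ ha
      · exact h2 _ hb
      · exact h2 _ hc
    have h3 := Finset.card_le_card h1
    rw [Finset.card_eq_three.2 ⟨a, b, c, hab, hac, hbc, rfl⟩] at h3
    exact h3.trans (Finset.card_union_le A I)
  by_cases hA4 : 4 ≤ A.card
  · -- four lines
    obtain ⟨j, hj⟩ : A.Nonempty := Finset.card_pos.1 (by omega)
    have h1 : 2 < (A.erase j).card := by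
      rw [Finset.card_erase_of_mem hj]
      omega
    obtain ⟨a, b, c, ha, hb, hc, hab, hac, hbc⟩ := Finset.two_lt_card_iff.1 h1
    rw [Finset.mem_erase, mA] at ha hb hc
    rw [mA] at hj
    refine c1core hC hR hp0 hind hpv hj.1 hj.2 ha.2.1 hb.2.1 hc.2.1 (hC.ind a b hab)
      (hC.ind a c hac) (hC.ind b c hbc) (fun g hg => ⟨hg a ha.1, hg b hb.1, hg c hc.1⟩)
  · by_cases hA3 : 3 ≤ A.card
    · -- three lines
      obtain ⟨j, a, b, hj, ha, hb, hja, hjb, hab⟩ := Finset.two_lt_card_iff.1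
        (show 2 < A.card by omega)
      rw [mA] at hj ha hb
      have hm0v : c1cr p v ⬝ᵥ v = 0 := c1cr_right p v
      have hm0n : c1cr p v ≠ 0 := c1cr_ne hind
      refine c1core hC hR hp0 hind hpv hj.1 hj.2 ha.1 hb.1 (c1cr_left p v) (hC.ind a b hab)
        (c1cross ha.2 hm0v hm0n) (c1cross hb.2 hm0v hm0n)
        (fun g hg => ⟨hg a (Ne.symm hja), hg b (Ne.symm hjb), ?_⟩)
      by_cases hI0 : I.Nonempty
      · obtain ⟨i0, hi0⟩ := hI0
        rw [mI] at hi0
        have hne : i0 ≠ j := by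
          rintro rfl
          exact hj.2 hi0.2
        exact c1eig hind hi0.1 hi0.2 (c1ne hC hne) g (hg i0 hne)
      · have hI0' : I.card = 0 := by
          rw [Finset.card_eq_zero]
          exact Finset.not_nonempty_iff_eq_empty.1 hI0
        obtain ⟨x, y, z, hx, hy, hz, hxy, hxz, hyz⟩ := Finset.two_lt_card_iff.1
          (show 2 < B.card by omega)
        rw [mB] at hx hy hz
        have hne : ∀ i, L i ⬝ᵥ v = 0 → i ≠ j := by
          rintro i hi rfl
          exact hj.2 hi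
        obtain ⟨s, m, hs⟩ := eigen_pencil hv0 g hx.1 hy.1 hz.1 (hC.ind x y hxy) (hC.ind x z hxz)
          (hC.ind y z hyz) (hg x (hne x hx.1)) (hg y (hne y hy.1)) (hg z (hne z hz.1))
        refine ⟨s, ?_⟩
        rw [hs, hm0v, zero_smul, add_zero]
    · -- two lines
      have hIc : I.card = 1 := by omega
      have hBc : 3 ≤ B.card := by omega
      obtain ⟨i0, hi0⟩ : I.Nonempty := Finset.card_pos.1 (by omega)
      obtain ⟨j, a, b, hj, ha, hb, hja, hjb, hab⟩ := Finset.two_lt_card_iff.1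
        (show 2 < B.card by omega)
      rw [mB] at hj ha hb
      rw [mI] at hi0
      have hm0v : c1cr v p ⬝ᵥ p = 0 := c1cr_right v p
      have hm0n : c1cr v p ≠ 0 := c1cr_ne hind'
      have hne : i0 ≠ j := by
        rintro rfl
        exact hj.2 hi0.1
      exact c1core hC hR hv0 hind' hvp hj.1 hj.2 ha.1 hb.1 (c1cr_left v p) (hC.ind a b hab)
        (c1cross ha.2 hm0v hm0n) (c1cross hb.2 hm0v hm0n)
        (fun g hg => ⟨hg a (Ne.symm hja), hg b (Ne.symm hjb),
          c1eig hind' hi0.2 hi0.1 (c1ne hC hne) g (hg i0 hne)⟩)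

end HKR
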