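import Pool.Agent.Lib.HKR.C1
/-!
HKR.C2 (config 2).  (a) Every line has two different multiple points.  (b) Third point.
PROOF (a).  Suppose not, for the line i.  Choose p ≠ 0 with L i ⬝ p = 0 such that every multiple q ≠ 0
with L i ⬝ q = 0 is proportional to p (the multiple point if there is one, else any point).  Take μ,
μ(p) = 0, independent of L i, and w := μ at i, 0 elsewhere.  Exact: a triple of distinct lines
containing i with det3 = 0 has a common point q ≠ 0, multiple, on i, so q ∥ p and the deformed forms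
vanish at q.  AffRigid: g, c with L j g = -c j L j for j ≠ i and μ = c i L i + L i g; so g is not a
scalar matrix.  There are k-1 ≥ 5 eigenforms L j (j ≠ i), pairwise independent.
  - If three independent ones have the same eigenvalue, g is scalar: contradiction.
  - If three (pairwise independent, dependent) ones have the same eigenvalue e, they span q^⊥ for a point
    q; not all L j, j ≠ i, ... : the eigenvectors with eigenvalue ≠ e are all proportional to one another
    (q^⊥ is inside the e-eigenspace, of dimension 2 as g is not scalar; eigenvectors of other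
    eigenvalues: total dimension of the other eigenspaces ≤ 1), and an eigenvector with eigenvalue e lies
    in q^⊥.  So all but at most one of the L j (j ≠ i) pass through q; q is multiple (≥ 4 lines); the
    lines off q are at most two (i and one more), so they have a common point v ≠ 0: contradicts c1.
  - Otherwise every eigenvalue belongs to at most 2 of the ≥ 5 lines, so there are ≥ 3 distinct
    eigenvalues, so every eigenspace has dimension ≤ 1, so there are at most 3 pairwise independent
    eigenvectors: contradiction.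
PROOF (b).  Suppose every e ≠ i has det3 (L i) (L e) (L a) = 0 or det3 (L i) (L e) (L b) = 0.  Let P be the
intersection of L i and L a, P' of L i and L b: every line passes through P or P'.  If P ∥ P' all lines
are concurrent, contradiction.  By (a) the line i has two independent multiple points; a multiple point
q on i not ∥ P, P' would be on a line e ≠ i, which passes through P or P', so it meets i in two
different points: impossible.  So P and P' are the two multiple points.  All lines off P pass through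
P': contradicts c1 (p := P, v := P').
-/
namespace HKR

open Matrix

private lemma par_of_cross {u v : Fin 3 → ℂ} (hu : u ≠ 0) (h : ¬ LinearIndependent ℂ ![u, v]) :
    ∃ t : ℂ, v = t • u := by
  by_contra hc
  exact h ((LinearIndependent.pair_iff' hu).2 fun a ha => hc ⟨a, ha.symm⟩)

private lemma cross_ne {u v : Fin 3 → ℂ} (h : LinearIndependent ℂ ![u, v]) :
    crossProduct u v ≠ 0 := crossProduct_ne_zero_iff_linearIndependent.2 h

/-- a point on two independent lines is a multiple of the cross product -/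
private lemma on_two {a b q : Fin 3 → ℂ} (h : LinearIndependent ℂ ![a, b])
    (ha : a ⬝ᵥ q = 0) (hb : b ⬝ᵥ q = 0) : ∃ t : ℂ, q = t • crossProduct a b := by
  apply par_of_cross (cross_ne h)
  intro hi
  apply crossProduct_ne_zero_iff_linearIndependent.2 hi
  rw [cross_cross_eq_smul_sub_smul, ha, hb]
  simp

private lemma det3_eq (a b c : Fin 3 → ℂ) : det3 a b c = a ⬝ᵥ crossProduct b c :=
  (triple_product_eq_det a b c).symm

private lemma det3_zero_of {a b c q : Fin 3 → ℂ} (hq : q ≠ 0) (ha : a ⬝ᵥ q = 0) (hb : b ⬝ᵥ q = 0)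
    (hc : c ⬝ᵥ q = 0) : det3 a b c = 0 := by
  unfold det3
  refine Matrix.exists_mulVec_eq_zero_iff.1 ⟨q, hq, ?_⟩
  ext j
  fin_cases j
  · exact ha
  · exact hb
  · exact hc

private lemma exists_of_det3 {a b c : Fin 3 → ℂ} (h : det3 a b c = 0) :
    ∃ q : Fin 3 → ℂ, q ≠ 0 ∧ a ⬝ᵥ q = 0 ∧ b ⬝ᵥ q = 0 ∧ c ⬝ᵥ q = 0 := by
  unfold det3 at h
  obtain ⟨q, hq, hM⟩ := Matrix.exists_mulVec_eq_zero_iff.2 h
  exact ⟨q, hq, congrFun hM 0, congrFun hM 1, congrFun hM 2⟩

private lemma exists_indep {l p : Fin 3 → ℂ} (hl : l ≠ 0) (hp : p ≠ 0) (h : l ⬝ᵥ p = 0) :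
    ∃ μ : Fin 3 → ℂ, μ ⬝ᵥ p = 0 ∧ LinearIndependent ℂ ![l, μ] := by
  obtain ⟨j, hj⟩ := Function.ne_iff.1 hl
  refine ⟨crossProduct (Pi.single j 1) p, ?_, ?_⟩
  · rw [dotProduct_comm]
    exact dot_cross_self _ _
  · apply crossProduct_ne_zero_iff_linearIndependent.1
    rw [cross_cross_eq_smul_sub_smul', h]
    intro h0
    have h1 : Pi.single j (1 : ℂ) ⬝ᵥ l = l j := by simp
    have h2 : (l j) • p = 0 := by
      have := h0
      simp only [zero_smul, h1, zero_sub, neg_eq_zero] at this
      exact this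
    rcases smul_eq_zero.1 h2 with h3 | h3
    · exact hj h3
    · exact hp h3

/-- at most three different eigenvalues -/
private lemma two_equal {k : ℕ} {L : Fin k → Fin 3 → ℂ} (h0 : ∀ i, L i ≠ 0)
    (g : Matrix (Fin 3) (Fin 3) ℂ) (e : Fin k → ℂ) (T : Finset (Fin k)) (hT : 4 ≤ T.card)
    (he : ∀ j ∈ T, Matrix.vecMul (L j) g = e j • L j) :
    ∃ a ∈ T, ∃ b ∈ T, a ≠ b ∧ e a = e b := by
  by_contra hc
  push Not at hc
  have hinj : Function.Injective fun j : T => e j.1 := by
    intro a b hab
    by_contra hne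
    exact hc a.1 a.2 b.1 b.2 (fun h => hne (Subtype.ext h)) hab
  have hli := Module.End.eigenvectors_linearIndependent' (Matrix.vecMulLinear g)
    (fun j : T => e j.1) hinj (fun j : T => L j.1) (by
      intro j
      refine ⟨?_, h0 _⟩
      rw [Module.End.mem_eigenspace_iff]
      exact he j.1 j.2)
  have h1 := hli.fintype_card_le_finrank
  rw [Module.finrank_fin_fun, Fintype.card_coe] at h1
  omega

private lemma no_two_planes {a b c d : Fin 3 → ℂ} (g : Matrix (Fin 3) (Fin 3) ℂ) {x y : ℂ}
    (hxy : x ≠ y) (ha : Matrix.vecMul a g = x • a) (hb : Matrix.vecMul b g = x • b)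
    (hc : Matrix.vecMul c g = y • c) (hd : Matrix.vecMul d g = y • d)
    (hab : LinearIndependent ℂ ![a, b]) (hcd : LinearIndependent ℂ ![c, d]) : False := by
  have hli : LinearIndependent ℂ ![a, b, c, d] := by
    rw [Fintype.linearIndependent_iff]
    intro s hs
    rw [Fin.sum_univ_four] at hs
    simp only [Matrix.cons_val] at hs
    have h1 : s 0 • a + s 1 • b = -(s 2 • c + s 3 • d) := by
      rw [eq_neg_iff_add_eq_zero, ← hs]
      abel
    have h2 : Matrix.vecMul (s 0 • a + s 1 • b) g = x • (s 0 • a + s 1 • b) := by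
      rw [Matrix.add_vecMul, Matrix.smul_vecMul, Matrix.smul_vecMul, ha, hb, smul_add,
        smul_comm x, smul_comm x]
    have h3 : Matrix.vecMul (s 2 • c + s 3 • d) g = y • (s 2 • c + s 3 • d) := by
      rw [Matrix.add_vecMul, Matrix.smul_vecMul, Matrix.smul_vecMul, hc, hd, smul_add,
        smul_comm y, smul_comm y]
    have h4 : x • (s 0 • a + s 1 • b) = y • (s 0 • a + s 1 • b) := by
      rw [← h2]
      conv_rhs => rw [h1, smul_neg, ← h3]
      rw [h1, Matrix.neg_vecMul]
    have h5 : s 0 • a + s 1 • b = 0 := by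
      have h6 : (x - y) • (s 0 • a + s 1 • b) = 0 := by rw [sub_smul, h4, sub_self]
      rcases smul_eq_zero.1 h6 with h7 | h7
      · exact absurd (sub_eq_zero.1 h7) hxy
      · exact h7
    have h6 : s 2 • c + s 3 • d = 0 := by
      rw [h5] at h1
      exact neg_eq_zero.1 h1.symm
    obtain ⟨h7, h8⟩ := LinearIndependent.pair_iff.1 hab _ _ h5
    obtain ⟨h9, h10⟩ := LinearIndependent.pair_iff.1 hcd _ _ h6
    intro i
    fin_cases i
    · exact h7
    · exact h8
    · exact h9
    · exact h10
  have h1 := hli.fintype_card_le_finrank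
  rw [Module.finrank_fin_fun, Fintype.card_fin] at h1
  omega

private lemma line_ne {k : ℕ} {L : Fin k → Fin 3 → ℂ} (hk : 6 ≤ k) (hC : Config L) (i : Fin k) :
    L i ≠ 0 := by
  obtain ⟨j, hj⟩ : ∃ j : Fin k, i ≠ j := by
    have : Nontrivial (Fin k) := Fin.nontrivial_iff_two_le.2 (by omega)
    obtain ⟨j, hj⟩ := exists_ne i
    exact ⟨j, hj.symm⟩
  exact (hC.ind i j hj).ne_zero 0

/-- three eigenforms with the same eigenvalue -/
private lemma case_three {k : ℕ} {L : Fin k → Fin 3 → ℂ} (hk : 6 ≤ k) (hC : Config L)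
    (hR : AffRigid L) (i : Fin k) (g : Matrix (Fin 3) (Fin 3) ℂ) (e : Fin k → ℂ)
    (he : ∀ j, j ≠ i → Matrix.vecMul (L j) g = e j • L j)
    (hi : ∀ x : ℂ, Matrix.vecMul (L i) g ≠ x • L i) {a b d : Fin k} (ha : a ≠ i) (hb : b ≠ i)
    (hd : d ≠ i) (hab : a ≠ b) (had : a ≠ d) (hbd : b ≠ d) (hea : e a = e b) (hed : e a = e d) :
    False := by
  by_cases hdet : det3 (L a) (L b) (L d) = 0
  · obtain ⟨q, hq, qa, qb, qd⟩ := exists_of_det3 hdet
    obtain ⟨s, m, hsm⟩ := eigen_pencil hq g qa qb qd (hC.ind a b hab) (hC.ind a d had)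
      (hC.ind b d hbd) ⟨_, he a ha⟩ ⟨_, he b hb⟩ ⟨_, he d hd⟩
    have hmul : Multiple L q := ⟨a, b, d, hab, had, hbd, qa, qb, qd⟩
    have qi : L i ⬝ᵥ q ≠ 0 := by
      intro h
      apply hi s
      rw [hsm, h, zero_smul, add_zero]
    have hoff : ∀ j, j ≠ i → L j ⬝ᵥ q ≠ 0 → ∃ t : ℂ, m = t • L j := by
      intro j hj hjq
      refine ⟨(L j ⬝ᵥ q)⁻¹ * (e j - s), ?_⟩
      have h1 := hsm (L j)
      rw [he j hj] at h1
      have h2 : (L j ⬝ᵥ q) • m = (e j - s) • L j := by
        rw [sub_smul, h1]
        abel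
      rw [mul_smul, ← h2, smul_smul, inv_mul_cancel₀ hjq, one_smul]
    have hm : m ≠ 0 := by
      intro h
      apply hi s
      rw [hsm, h, smul_zero, add_zero]
    by_cases hj0 : ∃ j0, j0 ≠ i ∧ L j0 ⬝ᵥ q ≠ 0
    · obtain ⟨j0, hj0i, hj0q⟩ := hj0
      have hv := c1 hk hC hR hq hmul (crossProduct (L i) (L j0)) (by
        intro j hj
        by_cases hji : j = i
        · rw [hji]
          exact dot_self_cross _ _
        · have : j = j0 := by
            by_contra hne
            obtain ⟨t, ht⟩ := hoff j hji hj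
            obtain ⟨t', ht'⟩ := hoff j0 hj0i hj0q
            have ht0 : t ≠ 0 := by
              rintro rfl
              exact hm (by rw [ht, zero_smul])
            have h1 : t • L j + (-t') • L j0 = 0 := by
              rw [neg_smul, ← ht, ← ht']
              abel
            exact ht0 (LinearIndependent.pair_iff.1 (hC.ind j j0 hne) _ _ h1).1
          rw [this]
          exact dot_cross_self _ _)
      exact cross_ne (hC.ind i j0 (Ne.symm hj0i)) hv
    · push Not at hj0
      have hv := c1 hk hC hR hq hmul (crossProduct (L i) (L a)) (by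
        intro j hj
        by_cases hji : j = i
        · rw [hji]
          exact dot_self_cross _ _
        · exact absurd (hj0 j hji) hj)
      exact cross_ne (hC.ind i a (Ne.symm ha)) hv
  · -- scalar
    have hli : LinearIndependent ℂ ![L a, L b, L d] := by
      have := Matrix.linearIndependent_rows_iff_isUnit.2
        ((Matrix.isUnit_iff_isUnit_det _).2 (isUnit_iff_ne_zero.2 hdet))
      exact this
    have hspan : Submodule.span ℂ (Set.range ![L a, L b, L d]) = ⊤ :=
      hli.span_eq_top_of_card_eq_finrank (by simp)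
    apply hi (e a)
    have hmem : L i ∈ Submodule.span ℂ (Set.range ![L a, L b, L d]) := by
      rw [hspan]
      trivial
    have hle : Submodule.span ℂ (Set.range ![L a, L b, L d]) ≤
        Module.End.eigenspace (Matrix.vecMulLinear g) (e a) := by
      rw [Submodule.span_le]
      rintro _ ⟨j, rfl⟩
      rw [SetLike.mem_coe, Module.End.mem_eigenspace_iff]
      fin_cases j
      · exact he a ha
      · change Matrix.vecMul (L b) g = e a • L b
        rw [hea]
        exact he b hb
      · change Matrix.vecMul (L d) g = e a • L d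
        rw [hed]
        exact he d hd
    exact Module.End.mem_eigenspace_iff.1 (hle hmem)

theorem c2 {k : ℕ} {L : Fin k → Fin 3 → ℂ} (hk : 6 ≤ k) (hC : Config L) (hR : AffRigid L)
    (i : Fin k) : ∃ p p' : Fin 3 → ℂ, Multiple L p ∧ Multiple L p' ∧ L i ⬝ᵥ p = 0 ∧
      L i ⬝ᵥ p' = 0 ∧ LinearIndependent ℂ ![p, p'] := by
  classical
  by_contra hcon
  have h0 := line_ne hk hC
  -- the point p
  obtain ⟨p, hp0, hip, hpar⟩ : ∃ p : Fin 3 → ℂ, p ≠ 0 ∧ L i ⬝ᵥ p = 0 ∧
      ∀ q : Fin 3 → ℂ, Multiple L q → L i ⬝ᵥ q = 0 → ∃ t : ℂ, q = t • p := by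
    by_cases hex : ∃ p : Fin 3 → ℂ, p ≠ 0 ∧ Multiple L p ∧ L i ⬝ᵥ p = 0
    · obtain ⟨p, hp0, hpm, hip⟩ := hex
      refine ⟨p, hp0, hip, fun q hq hiq => par_of_cross hp0 fun hli => hcon ⟨p, q, hpm, hq, hip,
        hiq, hli⟩⟩
    · obtain ⟨j, hj⟩ : ∃ j : Fin k, i ≠ j := by
        have : Nontrivial (Fin k) := Fin.nontrivial_iff_two_le.2 (by omega)
        obtain ⟨j, hj⟩ := exists_ne i
        exact ⟨j, hj.symm⟩
      refine ⟨crossProduct (L i) (L j), cross_ne (hC.ind i j hj), dot_self_cross _ _,
        fun q hq hiq => ⟨0, ?_⟩⟩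
      rw [zero_smul]
      by_contra hq0
      exact hex ⟨q, hq0, hq, hiq⟩
  obtain ⟨μ, hμp, hμ⟩ := exists_indep (h0 i) hp0 hip
  set w : Fin k → Fin 3 → ℂ := fun j => if j = i then μ else 0 with hw
  have hwp : ∀ j, w j ⬝ᵥ p = 0 := by
    intro j
    simp only [hw]
    split_ifs
    · exact hμp
    · exact zero_dotProduct _
  obtain ⟨g, c, hgc⟩ := hR w (by
    intro a b d habd t
    by_cases hab : a = b
    · subst hab
      unfold det3
      exact Matrix.det_zero_of_row_eq (i := 0) (j := 1) (by decide) rfl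
    by_cases had : a = d
    · subst had
      unfold det3
      exact Matrix.det_zero_of_row_eq (i := 0) (j := 2) (by decide) rfl
    by_cases hbd : b = d
    · subst hbd
      unfold det3
      exact Matrix.det_zero_of_row_eq (i := 1) (j := 2) (by decide) rfl
    obtain ⟨q, hq, qa, qb, qd⟩ := exists_of_det3 habd
    by_cases hiq : L i ⬝ᵥ q = 0
    · obtain ⟨s, hs⟩ := hpar q ⟨a, b, d, hab, had, hbd, qa, qb, qd⟩ hiq
      have hs0 : s ≠ 0 := by
        rintro rfl
        exact hq (by rw [hs, zero_smul])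
      have key : ∀ j, L j ⬝ᵥ q = 0 → (L j + t • w j) ⬝ᵥ p = 0 := by
        intro j hj
        rw [hs, dotProduct_smul, smul_eq_mul] at hj
        rw [add_dotProduct, smul_dotProduct, hwp j, smul_zero, add_zero]
        exact (mul_eq_zero.1 hj).resolve_left hs0
      exact det3_zero_of hp0 (key a qa) (key b qb) (key d qd)
    · have key : ∀ j, L j ⬝ᵥ q = 0 → (L j + t • w j) ⬝ᵥ q = 0 := by
        intro j hj
        have hji : j ≠ i := by
          rintro rfl
          exact hiq hj
        simp only [hw, if_neg hji, smul_zero, add_zero]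
        exact hj
      exact det3_zero_of hq (key a qa) (key b qb) (key d qd))
  have hej : ∀ j, j ≠ i → Matrix.vecMul (L j) g = (-c j) • L j := by
    intro j hj
    have h1 := hgc j
    simp only [hw, if_neg hj] at h1
    rw [neg_smul]
    exact (neg_eq_of_add_eq_zero_right h1.symm).symm
  have hi : ∀ x : ℂ, Matrix.vecMul (L i) g ≠ x • L i := by
    intro x hx
    have h1 := hgc i
    simp only [hw, if_true] at h1
    rw [hx, ← add_smul] at h1
    exact (LinearIndependent.pair_iff' (h0 i)).1 hμ _ h1.symm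
  have hcard : 5 ≤ (Finset.univ.erase i).card := by
    rw [Finset.card_erase_of_mem (Finset.mem_univ i), Finset.card_univ, Fintype.card_fin]
    omega
  obtain ⟨a, haT, b, hbT, hab, heab⟩ := two_equal h0 g (fun j => -c j) (Finset.univ.erase i)
    (by omega) (fun j hj => hej j (Finset.ne_of_mem_erase hj))
  have ha := Finset.ne_of_mem_erase haT
  have hb := Finset.ne_of_mem_erase hbT
  obtain ⟨u, huT, v, hvT, huv, heuv⟩ := two_equal h0 g (fun j => -c j)
    ((Finset.univ.erase i).erase a) (by
      rw [Finset.card_erase_of_mem haT]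
      omega) (fun j hj => hej j (Finset.ne_of_mem_erase (Finset.mem_of_mem_erase hj)))
  have hu := Finset.ne_of_mem_erase (Finset.mem_of_mem_erase huT)
  have hv := Finset.ne_of_mem_erase (Finset.mem_of_mem_erase hvT)
  have hua := Finset.ne_of_mem_erase huT
  have hva := Finset.ne_of_mem_erase hvT
  have main := @case_three k L hk hC hR i g (fun j => -c j) hej hi
  by_cases hbu : b = u
  · subst hbu
    exact main (a := a) (b := b) (d := v) ha hb hv hab (Ne.symm hva) huv heab (heab.trans heuv)
  by_cases hbv : b = v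
  · subst hbv
    exact main (a := a) (b := b) (d := u) ha hb hu hab (Ne.symm hua) (Ne.symm huv) heab
      (heab.trans heuv.symm)
  by_cases heau : -c a = -c u
  · exact main (a := a) (b := b) (d := u) ha hb hu hab (Ne.symm hua) hbu heab heau
  have heab' : -c a = -c b := heab
  have heuv' : -c u = -c v := heuv
  exact no_two_planes g heau (hej a ha) (by rw [heab']; exact hej b hb) (hej u hu)
    (by rw [heuv']; exact hej v hv) (hC.ind a b hab) (hC.ind u v huv)

theorem c2_third {k : ℕ} {L : Fin k → Fin 3 → ℂ} (hk : 6 ≤ k) (hC : Config L) (hR : AffRigid L)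
    (i a b : Fin k) (ha : a ≠ i) (hb : b ≠ i) : ∃ e, e ≠ i ∧
      det3 (L i) (L e) (L a) ≠ 0 ∧ det3 (L i) (L e) (L b) ≠ 0 := by
  classical
  by_contra hcon
  push Not at hcon
  set P := crossProduct (L a) (L i) with hP
  set P' := crossProduct (L b) (L i) with hP'
  have hP0 : P ≠ 0 := cross_ne (hC.ind a i ha)
  have hP0' : P' ≠ 0 := cross_ne (hC.ind b i hb)
  have e1 : ∀ e, det3 (L i) (L e) (L a) = L e ⬝ᵥ P := by
    intro e
    rw [det3_eq, hP, triple_product_permutation]
  have e2 : ∀ e, det3 (L i) (L e) (L b) = L e ⬝ᵥ P' := by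
    intro e
    rw [det3_eq, hP', triple_product_permutation]
  have hiP : L i ⬝ᵥ P = 0 := dot_cross_self _ _
  have hiP' : L i ⬝ᵥ P' = 0 := dot_cross_self _ _
  have hall : ∀ e, L e ⬝ᵥ P = 0 ∨ L e ⬝ᵥ P' = 0 := by
    intro e
    by_cases hei : e = i
    · left
      rw [hei]
      exact hiP
    · by_cases h1 : det3 (L i) (L e) (L a) = 0
      · left
        rw [← e1]
        exact h1
      · right
        rw [← e2]
        exact hcon e hei h1
  obtain ⟨p, p', hpm, -, hip, -, hli⟩ := c2 hk hC hR i
  have hp0 : p ≠ 0 := hli.ne_zero 0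
  -- a line e ≠ i through p
  obtain ⟨e, hei, hep⟩ : ∃ e, e ≠ i ∧ L e ⬝ᵥ p = 0 := by
    obtain ⟨x, y, z, hxy, -, -, hx, hy, -⟩ := hpm
    by_cases hxi : x = i
    · exact ⟨y, fun h => hxy (hxi.trans h.symm), hy⟩
    · exact ⟨x, hxi, hx⟩
  obtain ⟨t, ht⟩ := on_two (hC.ind e i hei) hep hip
  have ht0 : t ≠ 0 := by
    rintro rfl
    exact hp0 (by rw [ht, zero_smul])
  have trans : ∀ Q : Fin 3 → ℂ, Q ≠ 0 → L i ⬝ᵥ Q = 0 → L e ⬝ᵥ Q = 0 → Multiple L Q := by
    intro Q _ hiQ heQ
    obtain ⟨r, hr⟩ := on_two (hC.ind e i hei) heQ hiQ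
    obtain ⟨x, y, z, hxy, hxz, hyz, hx, hy, hz⟩ := hpm
    have hQp : Q = (r * t⁻¹) • p := by
      rw [ht, hr, smul_smul, mul_assoc, inv_mul_cancel₀ ht0, mul_one]
    refine ⟨x, y, z, hxy, hxz, hyz, ?_, ?_, ?_⟩ <;> rw [hQp, dotProduct_smul]
    · rw [hx, smul_zero]
    · rw [hy, smul_zero]
    · rw [hz, smul_zero]
  rcases hall e with h | h
  · exact hP0' (c1 hk hC hR hP0 (trans P hP0 hiP h) P' fun j hj => (hall j).resolve_left hj)
  · exact hP0 (c1 hk hC hR hP0' (trans P' hP0' hiP' h) P fun j hj => (hall j).resolve_right hj)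

end HKR
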