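import Pool.Agent.Lib.HKR.C2

/-!
HKR.C3 (config 3).  Connectivity: for every p ≠ 0 and every proper nonempty set S of lines some
multiple point q not proportional to p lies on a line of S and on a line outside S.
PROOF.  Suppose not, T := complement of S.  Then for a multiple q not ∥ p all lines through q are in S
or all in T.
(1) For every matrix g0 with g0 p = 0 (mulVec), put w i := vecMul (L i) g0 for i ∈ S, 0 for i ∈ T.
    Exact: a triple with det3 = 0 and two equal indices is clear; distinct indices: common point q ≠ 0,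
    multiple.  If q ∥ p: all deformed forms vanish at p.  Else all three in S (then
    det3 (L (1+t g0)) = det3 L * det (1 + t g0) = 0) or all in T.  So AffRigid gives g', c with
    L i g' = -c i L i on T and L i (g0 - g') = c i L i on S.
(2) By c2 a line of S has two independent multiple points, one of them, q1, is not ∥ p; all lines
    through q1 are in S (≥ 3 lines).  Same for T: q2.  q1, q2 are independent (else lines through it are
    in S and in T).  By eigen_pencil: g0 - g' = s1 + (l ↦ (l ⬝ q1) m1), g' = s2 + (l ↦ (l ⬝ q2) m2).  So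
    for all l:  vecMul l g0 = (s1+s2) l + (l ⬝ q1) m1 + (l ⬝ q2) m2.
(3) Choose u not in span(q1,q2), π := the form (crossProduct q1 q2) vanishing at q1 and q2, so
    π(u) ≠ 0; choose ν ∈ p^⊥ (plane) not ∥ π.  g0 := vecMulVec u ν (so vecMul l g0 = (l ⬝ u) ν, and
    g0 p = 0).  With l = π in (2): π(u) ν = (s1+s2) π, so ν ∥ π: contradiction.
-/

namespace HKR

open Matrix

private lemma c3_par {u v : Fin 3 → ℂ} (hu : u ≠ 0) (h : ¬ LinearIndependent ℂ ![u, v]) :
    ∃ t : ℂ, v = t • u := by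
  by_contra hc
  exact h ((LinearIndependent.pair_iff' hu).2 fun a ha => hc ⟨a, ha.symm⟩)

private lemma c3_det0 {a b c q : Fin 3 → ℂ} (hq : q ≠ 0) (ha : a ⬝ᵥ q = 0) (hb : b ⬝ᵥ q = 0)
    (hc : c ⬝ᵥ q = 0) : det3 a b c = 0 := by
  unfold det3
  refine Matrix.exists_mulVec_eq_zero_iff.1 ⟨q, hq, ?_⟩
  ext j
  fin_cases j
  · exact ha
  · exact hb
  · exact hc

private lemma c3_exists {a b c : Fin 3 → ℂ} (h : det3 a b c = 0) :
    ∃ q : Fin 3 → ℂ, q ≠ 0 ∧ a ⬝ᵥ q = 0 ∧ b ⬝ᵥ q = 0 ∧ c ⬝ᵥ q = 0 := by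
  unfold det3 at h
  obtain ⟨q, hq, hM⟩ := Matrix.exists_mulVec_eq_zero_iff.2 h
  exact ⟨q, hq, congrFun hM 0, congrFun hM 1, congrFun hM 2⟩

private lemma c3_indep {l p : Fin 3 → ℂ} (hl : l ≠ 0) (hp : p ≠ 0) :
    ∃ μ : Fin 3 → ℂ, μ ⬝ᵥ p = 0 ∧ LinearIndependent ℂ ![l, μ] := by
  by_contra hcon
  push Not at hcon
  have h1 : ∀ a : Fin 3, crossProduct l (crossProduct (Pi.single a (1 : ℂ)) p) = 0 := by
    intro a
    by_contra hne
    refine hcon (crossProduct (Pi.single a (1 : ℂ)) p) ?_ ?_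
    · rw [dotProduct_comm]
      exact dot_cross_self _ _
    · exact crossProduct_ne_zero_iff_linearIndependent.1 hne
  have h2 := h1 0
  have h3 := h1 1
  have h4 := h1 2
  rw [cross_cross_eq_smul_sub_smul'] at h2 h3 h4
  have e2 := fun b => congrFun h2 b
  have e3 := fun b => congrFun h3 b
  have e4 := fun b => congrFun h4 b
  simp only [Pi.sub_apply, Pi.smul_apply, smul_eq_mul, Pi.zero_apply, dotProduct,
    Fin.sum_univ_three, Pi.single_apply] at e2 e3 e4
  have a0 := e2 0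
  have a1 := e2 1
  have a2 := e2 2
  have b0 := e3 0
  have b1 := e3 1
  have b2 := e3 2
  have c0 := e4 0
  have c1 := e4 1
  have c2 := e4 2
  simp at a0 a1 a2 b0 b1 b2 c0 c1 c2
  obtain ⟨i, hi⟩ := Function.ne_iff.1 hl
  obtain ⟨j, hj⟩ := Function.ne_iff.1 hp
  have hS : l 0 * p 0 + l 1 * p 1 + l 2 * p 2 = 0 := by
    linear_combination (1 / 2 : ℂ) * a0 + (1 / 2 : ℂ) * b1 + (1 / 2 : ℂ) * c2
  have d0 : l 0 * p 0 = 0 := by linear_combination hS - a0
  have d1 : l 1 * p 1 = 0 := by linear_combination hS - b1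
  have d2 : l 2 * p 2 = 0 := by linear_combination hS - c2
  have key : l i * p j = 0 := by
    fin_cases i <;> fin_cases j
    · exact d0
    · exact mul_eq_zero.2 a1
    · exact mul_eq_zero.2 a2
    · exact mul_eq_zero.2 b0
    · exact d1
    · exact mul_eq_zero.2 b2
    · exact mul_eq_zero.2 c0
    · exact mul_eq_zero.2 c1
    · exact d2
  rcases mul_eq_zero.1 key with h | h
  · exact hi h
  · exact hj h

private lemma c3_mul (a b d : Fin 3 → ℂ) (G : Matrix (Fin 3) (Fin 3) ℂ) :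
    det3 (vecMul a G) (vecMul b G) (vecMul d G) = det3 a b d * G.det := by
  unfold det3
  rw [← Matrix.det_mul]
  congr 1
  ext i j
  rw [Matrix.mul_apply]
  fin_cases i <;> rfl

/-- a line of `S` has a multiple point not proportional to `p` -/
private lemma c3_pt {k : ℕ} {L : Fin k → Fin 3 → ℂ} (hk : 6 ≤ k) (hC : Config L) (hR : AffRigid L)
    {p : Fin 3 → ℂ} (hp0 : p ≠ 0) (i : Fin k) :
    ∃ q : Fin 3 → ℂ, Multiple L q ∧ L i ⬝ᵥ q = 0 ∧ LinearIndependent ℂ ![p, q] := by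
  obtain ⟨p1, p2, h1, h2, e1, e2, hli⟩ := c2 hk hC hR i
  by_contra hcon
  push Not at hcon
  obtain ⟨t1, ht1⟩ := c3_par hp0 (hcon p1 h1 e1)
  obtain ⟨t2, ht2⟩ := c3_par hp0 (hcon p2 h2 e2)
  have h3 := LinearIndependent.pair_iff.1 hli t2 (-t1) (by
    rw [ht1, ht2, smul_smul, smul_smul, neg_mul, mul_comm t1 t2, neg_smul, add_neg_cancel])
  have h4 : t1 = 0 := neg_eq_zero.1 h3.2
  exact hli.ne_zero 0 (by
    change p1 = 0
    rw [ht1, h4, zero_smul])

theorem c3 {k : ℕ} {L : Fin k → Fin 3 → ℂ} (hk : 6 ≤ k) (hC : Config L) (hR : AffRigid L)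
    {p : Fin 3 → ℂ} (hp0 : p ≠ 0) (S : Set (Fin k)) (hS : ∃ i, i ∈ S) (hT : ∃ i, i ∉ S) :
    ∃ i ∈ S, ∃ j, j ∉ S ∧ ∃ q : Fin 3 → ℂ, Multiple L q ∧ L i ⬝ᵥ q = 0 ∧ L j ⬝ᵥ q = 0 ∧
      LinearIndependent ℂ ![p, q] := by
  classical
  by_contra hcon0
  have hcon : ∀ i, i ∈ S → ∀ j, j ∉ S → ∀ q : Fin 3 → ℂ, Multiple L q → L i ⬝ᵥ q = 0 →
      L j ⬝ᵥ q = 0 → LinearIndependent ℂ ![p, q] → False := by
    intro i hi j hj q h1 h2 h3 h4
    exact hcon0 ⟨i, hi, j, hj, q, h1, h2, h3, h4⟩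
  obtain ⟨i0, hi0⟩ := hS
  obtain ⟨j0, hj0⟩ := hT
  obtain ⟨q1, hm1, hiq1, hpq1⟩ := c3_pt hk hC hR hp0 i0
  obtain ⟨q2, hm2, hjq2, hpq2⟩ := c3_pt hk hC hR hp0 j0
  have hq1 : q1 ≠ 0 := hpq1.ne_zero 1
  have hq2 : q2 ≠ 0 := hpq2.ne_zero 1
  have hall1 : ∀ a, L a ⬝ᵥ q1 = 0 → a ∈ S := by
    intro a ha
    by_contra haS
    exact hcon i0 hi0 a haS q1 hm1 hiq1 ha hpq1
  have hall2 : ∀ a, L a ⬝ᵥ q2 = 0 → a ∉ S := by
    intro a ha haS
    exact hcon a haS j0 hj0 q2 hm2 ha hjq2 hpq2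
  have hq12 : LinearIndependent ℂ ![q1, q2] := by
    by_contra h
    obtain ⟨t, ht⟩ := c3_par hq1 h
    exact hall2 i0 (by rw [ht, dotProduct_smul, hiq1, smul_zero]) hi0
  have hπ : crossProduct q1 q2 ≠ 0 := crossProduct_ne_zero_iff_linearIndependent.2 hq12
  obtain ⟨ν, hνp, hν⟩ := c3_indep hπ hp0
  obtain ⟨j, hj⟩ := Function.ne_iff.1 hπ
  set u : Fin 3 → ℂ := Pi.single j 1 with hu
  set g0 : Matrix (Fin 3) (Fin 3) ℂ := Matrix.vecMulVec u ν with hg0
  have hg0m : ∀ l : Fin 3 → ℂ, vecMul l g0 = (l ⬝ᵥ u) • ν := by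
    intro l
    rw [hg0, Matrix.vecMul_vecMulVec]
  set w : Fin k → Fin 3 → ℂ := fun i => if i ∈ S then vecMul (L i) g0 else 0 with hw
  have hwS : ∀ i, i ∈ S → w i = vecMul (L i) g0 := by
    intro i hi
    simp only [hw, if_pos hi]
  have hwT : ∀ i, i ∉ S → w i = 0 := by
    intro i hi
    simp only [hw, if_neg hi]
  have hwp : ∀ i, w i ⬝ᵥ p = 0 := by
    intro i
    by_cases hi : i ∈ S
    · rw [hwS i hi, hg0m, smul_dotProduct, hνp, smul_zero]
    · rw [hwT i hi, zero_dotProduct]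
  obtain ⟨g', c, hgc⟩ := hR w (by
    intro a b d habd t
    by_cases hab : a = b
    · subst hab
      unfold det3
      exact Matrix.det_zero_of_row_eq (i := 0) (j := 1) (by decide) rfl
    by_cases had : a = d
    · subst had
      unfold det3
      exact Matrix.det_zero_of_row_eq (i := 0) (j := 2) (by decide) rfl
    by_cases hbd : b = d
    · subst hbd
      unfold det3
      exact Matrix.det_zero_of_row_eq (i := 1) (j := 2) (by decide) rfl
    obtain ⟨q, hq, qa, qb, qd⟩ := c3_exists habd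
    by_cases hpq : LinearIndependent ℂ ![p, q]
    · have hm : Multiple L q := ⟨a, b, d, hab, had, hbd, qa, qb, qd⟩
      by_cases haS : a ∈ S
      · have hbS : b ∈ S := by
          by_contra h
          exact hcon a haS b h q hm qa qb hpq
        have hdS : d ∈ S := by
          by_contra h
          exact hcon a haS d h q hm qa qd hpq
        have key : ∀ i, i ∈ S → L i + t • w i = vecMul (L i) (1 + t • g0) := by
          intro i hi
          rw [hwS i hi, Matrix.vecMul_add, Matrix.vecMul_one, Matrix.vecMul_smul]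
        rw [key a haS, key b hbS, key d hdS, c3_mul, habd, zero_mul]
      · have hbS : b ∉ S := fun h => hcon b h a haS q hm qb qa hpq
        have hdS : d ∉ S := fun h => hcon d h a haS q hm qd qa hpq
        rw [hwT a haS, hwT b hbS, hwT d hdS, smul_zero, add_zero, add_zero, add_zero]
        exact habd
    · obtain ⟨s, hs⟩ := c3_par hp0 hpq
      have hs0 : s ≠ 0 := by
        rintro rfl
        exact hq (by rw [hs, zero_smul])
      have key : ∀ i, L i ⬝ᵥ q = 0 → (L i + t • w i) ⬝ᵥ p = 0 := by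
        intro i hi
        rw [hs, dotProduct_smul, smul_eq_mul] at hi
        rw [add_dotProduct, smul_dotProduct, hwp i, smul_zero, add_zero]
        exact (mul_eq_zero.1 hi).resolve_left hs0
      exact c3_det0 hp0 (key a qa) (key b qb) (key d qd))
  have hT1 : ∀ i, i ∉ S → vecMul (L i) g' = (-c i) • L i := by
    intro i hi
    have h1 := hgc i
    rw [hwT i hi] at h1
    rw [neg_smul]
    exact (neg_eq_of_add_eq_zero_right h1.symm).symm
  have hS1 : ∀ i, i ∈ S → vecMul (L i) (g0 - g') = c i • L i := by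
    intro i hi
    have h1 := hgc i
    rw [hwS i hi] at h1
    rw [Matrix.vecMul_sub, h1, add_sub_cancel_right]
  obtain ⟨a1, b1, d1, hab1, had1, hbd1, ha1, hb1, hd1⟩ := hm1
  obtain ⟨a2, b2, d2, hab2, had2, hbd2, ha2, hb2, hd2⟩ := hm2
  obtain ⟨s1, m1, hsm1⟩ := eigen_pencil hq1 (g0 - g') ha1 hb1 hd1 (hC.ind _ _ hab1)
    (hC.ind _ _ had1) (hC.ind _ _ hbd1) ⟨_, hS1 _ (hall1 _ ha1)⟩ ⟨_, hS1 _ (hall1 _ hb1)⟩
    ⟨_, hS1 _ (hall1 _ hd1)⟩
  obtain ⟨s2, m2, hsm2⟩ := eigen_pencil hq2 g' ha2 hb2 hd2 (hC.ind _ _ hab2)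
    (hC.ind _ _ had2) (hC.ind _ _ hbd2) ⟨_, hT1 _ (hall2 _ ha2)⟩ ⟨_, hT1 _ (hall2 _ hb2)⟩
    ⟨_, hT1 _ (hall2 _ hd2)⟩
  have e1 := hsm1 (crossProduct q1 q2)
  have e2 := hsm2 (crossProduct q1 q2)
  have hz1 : crossProduct q1 q2 ⬝ᵥ q1 = 0 := by
    rw [dotProduct_comm]
    exact dot_self_cross _ _
  have hz2 : crossProduct q1 q2 ⬝ᵥ q2 = 0 := by
    rw [dotProduct_comm]
    exact dot_cross_self _ _
  rw [hz1, zero_smul, add_zero, Matrix.vecMul_sub] at e1
  rw [hz2, zero_smul, add_zero] at e2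
  rw [e2, hg0m] at e1
  have hπu : crossProduct q1 q2 ⬝ᵥ u ≠ 0 := by
    rw [hu, dotProduct_single, mul_one]
    exact hj
  have e3 : (-(s1 + s2)) • crossProduct q1 q2 + (crossProduct q1 q2 ⬝ᵥ u) • ν = 0 := by
    have e4 : (crossProduct q1 q2 ⬝ᵥ u) • ν = s1 • crossProduct q1 q2 + s2 • crossProduct q1 q2 :=
      sub_eq_iff_eq_add.1 e1
    rw [e4]
    module
  exact hπu (LinearIndependent.pair_iff.1 hν _ _ e3).2

end HKR
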