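import Pool.Agent.Lib.HKR.C1
/-!
HKR.C4 (config 4).  Formality: p multiple; w : Fin k → ℂ such that for every multiple q not ∥ p there is
v with w i = L i ⬝ v for the lines i through q.  Then there is one v with w i = L i ⬝ v for all i.
PROOF.  For a form λ with λ(p) = 0 the deformation L i + t (w i) λ is exact: a triple with two equal
indices is clear; distinct with det3 = 0: common point q ≠ 0, multiple; if q ∥ p the three deformed
forms vanish at p; else with v of the hypothesis L i + t (w i) λ = vecMul (L i) (1 + t (vecMulVec v λ)), so the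
det3 is det3 L * det = 0.  So AffRigid: (w i) λ = c i L i + vecMul (L i) g.  Take λ, μ a basis of p^⊥:
   (w i) λ = c i L i + L i g,   (w i) μ = c' i L i + L i g'.
At p:  0 = c i (L i ⬝ p) + L i ⬝ (g p).  For i through p: L i ⬝ (g p) = 0; two independent such forms, so
g p = ρ p; then for i off p: c i = -ρ.  Replace g by g - ρ (G := g - ρ 1, G p = 0):
   (w i) λ = L i G for i off p;  same  (w i) μ = L i G',  G' p = 0.
By c1 only x = 0 is killed by all L i, i off p.  If λ(x) = 0 then L i ⬝ (G x) = 0 for i off p, so G x = 0: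
G = vecMulVec v λ for some v (choose x0 with λ(x0) = 1, v := G x0), and w i = L i ⬝ v for i off p (λ ≠ 0).
Same with μ: G' = vecMulVec v' μ, w i = L i ⬝ v' for i off p, so v' = v by c1.
For i through p: (w i) λ = (c i + ρ) L i + (L i ⬝ v) λ and (w i) μ = (c' i + ρ') L i + (L i ⬝ v) μ, so
(w i - L i ⬝ v) λ ∥ L i and (w i - L i ⬝ v) μ ∥ L i; λ, μ independent, so w i = L i ⬝ v.
-/
namespace HKR

open Matrix

private theorem c4_par {a b p x : Fin 3 → ℂ} (hab : LinearIndependent ℂ ![a, b]) (hp : p ≠ 0)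
    (ap : a ⬝ᵥ p = 0) (bp : b ⬝ᵥ p = 0) (ax : a ⬝ᵥ x = 0) (bx : b ⬝ᵥ x = 0) :
    ∃ r : ℂ, x = r • p := by
  by_contra hcon
  have hli : LinearIndependent ℂ ![p, x] :=
    (LinearIndependent.pair_iff' hp).2 (fun r hr => hcon ⟨r, hr.symm⟩)
  have h1 : p ⨯₃ x ≠ 0 := crossProduct_ne_zero_iff_linearIndependent.2 hli
  have h2 : a ⨯₃ b ≠ 0 := crossProduct_ne_zero_iff_linearIndependent.2 hab
  have par : ∀ y : Fin 3 → ℂ, y ⬝ᵥ p = 0 → y ⬝ᵥ x = 0 → ∃ r : ℂ, r • (p ⨯₃ x) = y := by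
    intro y yp yx
    by_contra hc
    push Not at hc
    have h3 := crossProduct_ne_zero_iff_linearIndependent.2
      ((LinearIndependent.pair_iff' h1).2 hc)
    apply h3
    rw [cross_cross_eq_smul_sub_smul, dotProduct_comm p y, dotProduct_comm x y, yp, yx]
    simp
  obtain ⟨r, hr⟩ := par a ap ax
  obtain ⟨s, hs⟩ := par b bp bx
  apply h2
  rw [← hr, ← hs]
  simp [cross_self]

private theorem c4_exact {k : ℕ} {L : Fin k → Fin 3 → ℂ} {p : Fin 3 → ℂ} (hp0 : p ≠ 0)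
    (w : Fin k → ℂ)
    (hw : ∀ q, Multiple L q → LinearIndependent ℂ ![p, q] →
      ∃ v : Fin 3 → ℂ, ∀ i, L i ⬝ᵥ q = 0 → w i = L i ⬝ᵥ v) (m : Fin 3 → ℂ) (hm : m ⬝ᵥ p = 0)
    (i j l : Fin k) (hd : det3 (L i) (L j) (L l) = 0) (t : ℂ) :
    det3 (L i + t • (w i • m)) (L j + t • (w j • m)) (L l + t • (w l • m)) = 0 := by
  by_cases hij : i = j
  · subst hij
    simp only [det3, Matrix.det_fin_three, Matrix.of_apply, Matrix.cons_val]
    ring
  by_cases hil : i = l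
  · subst hil
    simp only [det3, Matrix.det_fin_three, Matrix.of_apply, Matrix.cons_val]
    ring
  by_cases hjl : j = l
  · subst hjl
    simp only [det3, Matrix.det_fin_three, Matrix.of_apply, Matrix.cons_val]
    ring
  obtain ⟨q, hq0, hq⟩ := Matrix.exists_mulVec_eq_zero_iff.2 hd
  have qi : L i ⬝ᵥ q = 0 := congrFun hq 0
  have qj : L j ⬝ᵥ q = 0 := congrFun hq 1
  have ql : L l ⬝ᵥ q = 0 := congrFun hq 2
  by_cases hli : LinearIndependent ℂ ![p, q]
  · obtain ⟨v, hv⟩ := hw q ⟨i, j, l, hij, hil, hjl, qi, qj, ql⟩ hli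
    have row : ∀ s, L s ⬝ᵥ q = 0 →
        L s + t • (w s • m) = Matrix.vecMul (L s) (1 + t • Matrix.vecMulVec v m) := by
      intro s hs
      rw [hv s hs, Matrix.vecMul_add, Matrix.vecMul_one, Matrix.vecMul_smul,
        Matrix.vecMul_vecMulVec]
    have key : Matrix.of ![L i + t • (w i • m), L j + t • (w j • m), L l + t • (w l • m)]
        = Matrix.of ![L i, L j, L l] * (1 + t • Matrix.vecMulVec v m) := by
      rw [row i qi, row j qj, row l ql]
      ext a b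
      rw [Matrix.mul_apply_eq_vecMul]
      fin_cases a <;> rfl
    unfold det3 at hd ⊢
    rw [key, Matrix.det_mul, hd, zero_mul]
  · obtain ⟨c, hc⟩ : ∃ c : ℂ, c • p = q := by
      by_contra hcon
      push Not at hcon
      exact hli ((LinearIndependent.pair_iff' hp0).2 hcon)
    have hc0 : c ≠ 0 := by
      rintro rfl
      rw [zero_smul] at hc
      exact hq0 hc.symm
    have thr : ∀ s, L s ⬝ᵥ q = 0 → L s ⬝ᵥ p = 0 := by
      intro s hs
      rw [← hc, dotProduct_smul, smul_eq_mul] at hs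
      exact (mul_eq_zero.1 hs).resolve_left hc0
    apply Matrix.exists_mulVec_eq_zero_iff.1
    refine ⟨p, hp0, ?_⟩
    have row : ∀ s, L s ⬝ᵥ q = 0 → (L s + t • (w s • m)) ⬝ᵥ p = 0 := by
      intro s hs
      rw [add_dotProduct, smul_dotProduct, smul_dotProduct, hm, thr s hs]
      simp
    ext s
    fin_cases s
    · exact row i qi
    · exact row j qj
    · exact row l ql

private theorem c4_half {k : ℕ} {L : Fin k → Fin 3 → ℂ} (hR : AffRigid L)
    {p : Fin 3 → ℂ} (hp0 : p ≠ 0) (w : Fin k → ℂ)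
    (hw : ∀ q, Multiple L q → LinearIndependent ℂ ![p, q] →
      ∃ v : Fin 3 → ℂ, ∀ i, L i ⬝ᵥ q = 0 → w i = L i ⬝ᵥ v)
    (hkill : ∀ x : Fin 3 → ℂ, (∀ i, L i ⬝ᵥ p ≠ 0 → L i ⬝ᵥ x = 0) → x = 0)
    {a b : Fin k} (hab : LinearIndependent ℂ ![L a, L b]) (pa : L a ⬝ᵥ p = 0)
    (pb : L b ⬝ᵥ p = 0) (m : Fin 3 → ℂ) (hm : m ⬝ᵥ p = 0) (hm0 : m ≠ 0) :
    ∃ v : Fin 3 → ℂ, (∀ i, L i ⬝ᵥ p ≠ 0 → w i = L i ⬝ᵥ v) ∧
      ∀ i, ∃ c : ℂ, (w i - L i ⬝ᵥ v) • m = c • L i := by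
  obtain ⟨g, c, hg⟩ := hR (fun i => w i • m) (fun i j l hd t => c4_exact hp0 w hw m hm i j l hd t)
  have dot : ∀ i (x : Fin 3 → ℂ), w i * (m ⬝ᵥ x) = c i * (L i ⬝ᵥ x) + L i ⬝ᵥ (g *ᵥ x) := by
    intro i x
    have := congrArg (fun y => y ⬝ᵥ x) (hg i)
    simp only [smul_dotProduct, add_dotProduct, smul_eq_mul] at this
    rw [this, Matrix.dotProduct_mulVec]
  have ga : L a ⬝ᵥ (g *ᵥ p) = 0 := by
    have := dot a p
    rw [hm, pa] at this
    simpa using this.symm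
  have gb : L b ⬝ᵥ (g *ᵥ p) = 0 := by
    have := dot b p
    rw [hm, pb] at this
    simpa using this.symm
  obtain ⟨r, hr⟩ := c4_par hab hp0 pa pb ga gb
  have hc : ∀ i, L i ⬝ᵥ p ≠ 0 → c i = -r := by
    intro i hi
    have h := dot i p
    rw [hm, hr, dotProduct_smul, smul_eq_mul] at h
    have h' : (c i + r) * (L i ⬝ᵥ p) = 0 := by linear_combination -h
    have := (mul_eq_zero.1 h').resolve_right hi
    linear_combination this
  -- `G = g - r`
  set G : (Fin 3 → ℂ) → (Fin 3 → ℂ) := fun x => g *ᵥ x - r • x with hG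
  have Goff : ∀ i, L i ⬝ᵥ p ≠ 0 → ∀ x, L i ⬝ᵥ G x = w i * (m ⬝ᵥ x) := by
    intro i hi x
    have h := dot i x
    rw [hc i hi] at h
    simp only [hG, dotProduct_sub, dotProduct_smul, smul_eq_mul]
    linear_combination -h
  have Gker : ∀ x, m ⬝ᵥ x = 0 → G x = 0 := by
    intro x hx
    apply hkill
    intro i hi
    rw [Goff i hi, hx, mul_zero]
  obtain ⟨x0, hx0⟩ : ∃ x0 : Fin 3 → ℂ, m ⬝ᵥ x0 = 1 := by
    obtain ⟨y, hy⟩ : ∃ y : Fin 3 → ℂ, m ⬝ᵥ y ≠ 0 := by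
      by_contra hcon
      push Not at hcon
      exact hm0 (dotProduct_eq_zero m hcon)
    exact ⟨(m ⬝ᵥ y)⁻¹ • y, by rw [dotProduct_smul, smul_eq_mul, inv_mul_cancel₀ hy]⟩
  have Gall : ∀ x, G x = (m ⬝ᵥ x) • G x0 := by
    intro x
    have h := Gker (x - (m ⬝ᵥ x) • x0) (by
      rw [dotProduct_sub, dotProduct_smul, hx0, smul_eq_mul, mul_one, sub_self])
    have h2 : G (x - (m ⬝ᵥ x) • x0) = G x - (m ⬝ᵥ x) • G x0 := by
      simp only [hG, Matrix.mulVec_sub, Matrix.mulVec_smul]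
      module
    rw [h2] at h
    exact sub_eq_zero.1 h
  refine ⟨G x0, ?_, ?_⟩
  · intro i hi
    rw [Goff i hi, hx0, mul_one]
  · intro i
    refine ⟨c i + r, ?_⟩
    apply dotProduct_eq
    intro x
    have h := dot i x
    have h3 : L i ⬝ᵥ (g *ᵥ x) = (m ⬝ᵥ x) * (L i ⬝ᵥ G x0) + r * (L i ⬝ᵥ x) := by
      have h4 : g *ᵥ x = (m ⬝ᵥ x) • G x0 + r • x := by
        rw [← Gall x]
        simp [hG]
      rw [h4, dotProduct_add, dotProduct_smul, dotProduct_smul, smul_eq_mul, smul_eq_mul]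
    rw [h3] at h
    simp only [smul_dotProduct, smul_eq_mul]
    linear_combination h

theorem c4 {k : ℕ} {L : Fin k → Fin 3 → ℂ} (hk : 6 ≤ k) (hC : Config L) (hR : AffRigid L)
    {p : Fin 3 → ℂ} (hp0 : p ≠ 0) (hp : Multiple L p) (w : Fin k → ℂ)
    (hw : ∀ q, Multiple L q → LinearIndependent ℂ ![p, q] →
      ∃ v : Fin 3 → ℂ, ∀ i, L i ⬝ᵥ q = 0 → w i = L i ⬝ᵥ v) :
    ∃ v : Fin 3 → ℂ, ∀ i, w i = L i ⬝ᵥ v := by
  have hkill : ∀ x : Fin 3 → ℂ, (∀ i, L i ⬝ᵥ p ≠ 0 → L i ⬝ᵥ x = 0) → x = 0 :=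
    fun x hx => c1 hk hC hR hp0 hp x hx
  obtain ⟨a, b, _, hab, _, _, pa, pb, _⟩ := id hp
  have hli := hC.ind a b hab
  have ha0 : L a ≠ 0 := by simpa using hli.ne_zero 0
  have hb0 : L b ≠ 0 := by simpa using hli.ne_zero 1
  obtain ⟨v, hv, hv2⟩ := c4_half hR hp0 w hw hkill hli pa pb (L a) pa ha0
  obtain ⟨v', hv', hv2'⟩ := c4_half hR hp0 w hw hkill hli pa pb (L b) pb hb0
  have hvv : v = v' := by
    apply sub_eq_zero.1
    apply hkill
    intro i hi
    rw [dotProduct_sub, ← hv i hi, ← hv' i hi, sub_self]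
  subst hvv
  refine ⟨v, fun i => ?_⟩
  by_contra hne
  have hd : w i - L i ⬝ᵥ v ≠ 0 := sub_ne_zero.2 hne
  obtain ⟨c, hc⟩ := hv2 i
  obtain ⟨c', hc'⟩ := hv2' i
  rw [LinearIndependent.pair_iff] at hli
  have h := hli (c' * (w i - L i ⬝ᵥ v)) (-(c * (w i - L i ⬝ᵥ v))) (by
    rw [mul_smul, neg_smul, mul_smul, hc, hc', smul_smul, smul_smul, mul_comm c' c,
      add_neg_cancel])
  have hc'0 : c' = 0 := (mul_eq_zero.1 h.1).resolve_right hd
  rw [hc'0, zero_smul] at hc'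
  exact hb0 ((smul_eq_zero.1 hc').resolve_left hd)

end HKR
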