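import Pool.Agent.Lib.HKR.C2
/-!
HKR.C5.  A matrix having all L i as eigenforms is scalar.
PROOF.  By c2 some line (k ≥ 6 > 0) contains two independent multiple points p, p'.  eigen_pencil at p and at p' (three
distinct lines through each): vecMul l g = x l + (l ⬝ p) m = x' l + (l ⬝ p') m' for all l.  l = L i (vanishing at p and
p'): x = x'.  l with l ⬝ p = 1, l ⬝ p' = 0: m = 0.
-/
namespace HKR

theorem eig_scalar {k : ℕ} {L : Fin k → Fin 3 → ℂ} (hk : 6 ≤ k) (hC : Config L) (hR : AffRigid L)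
    (g : Matrix (Fin 3) (Fin 3) ℂ) (h : ∀ i, ∃ x : ℂ, Matrix.vecMul (L i) g = x • L i) :
    ∃ x : ℂ, ∀ l : Fin 3 → ℂ, Matrix.vecMul l g = x • l := by
  obtain ⟨p, p', hp, hp', hip, hip', hpp⟩ := c2 hk hC hR ⟨0, by omega⟩
  have hp0 : p ≠ 0 := by simpa using hpp.ne_zero 0
  have hp0' : p' ≠ 0 := by simpa using hpp.ne_zero 1
  have key : ∀ q : Fin 3 → ℂ, q ≠ 0 → Multiple L q →
      ∃ (s : ℂ) (m : Fin 3 → ℂ), ∀ l : Fin 3 → ℂ, Matrix.vecMul l g = s • l + (l ⬝ᵥ q) • m := by
    intro q hq hm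
    obtain ⟨a, b, c, hab, hac, hbc, ha, hb, hc⟩ := hm
    exact eigen_pencil hq g ha hb hc (hC.ind a b hab) (hC.ind a c hac) (hC.ind b c hbc)
      (h a) (h b) (h c)
  obtain ⟨x, m, hx⟩ := key p hp0 hp
  obtain ⟨x', m', hx'⟩ := key p' hp0' hp'
  have hLi : L ⟨0, by omega⟩ ≠ 0 := by
    have h1 := (hC.ind ⟨0, by omega⟩ ⟨1, by omega⟩ (by simp)).ne_zero 0
    simpa using h1
  have e1 : x = x' := by
    have h1 := hx (L ⟨0, by omega⟩)
    rw [hx' (L ⟨0, by omega⟩), hip, hip', zero_smul, zero_smul, add_zero, add_zero] at h1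
    obtain ⟨j, hj⟩ := Function.ne_iff.1 hLi
    have h2 := congrFun h1 j
    simp only [Pi.smul_apply, smul_eq_mul] at h2
    exact (mul_right_cancel₀ hj h2).symm
  subst e1
  have hn : crossProduct p p' ≠ 0 := crossProduct_ne_zero_iff_linearIndependent.2 hpp
  obtain ⟨j, hj⟩ := Function.ne_iff.1 hn
  have l1 : crossProduct p' (Pi.single j 1) ⬝ᵥ p' = 0 := by
    rw [dotProduct_comm]
    exact dot_self_cross _ _
  have l2 : crossProduct p' (Pi.single j 1) ⬝ᵥ p = crossProduct p p' j := by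
    rw [dotProduct_comm, triple_product_permutation, triple_product_permutation,
      single_dotProduct, one_mul]
  have h1 := hx (crossProduct p' (Pi.single j 1))
  rw [hx' (crossProduct p' (Pi.single j 1)), l1, l2, zero_smul, add_zero] at h1
  have h2 : crossProduct p p' j • m = 0 := by
    have h3 := add_left_cancel (a := x • crossProduct p' (Pi.single j 1)) (b := 0)
      (c := crossProduct p p' j • m) (by rw [add_zero]; exact h1)
    exact h3.symm
  have hm0 : m = 0 := by
    rcases smul_eq_zero.1 h2 with h3 | h3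
    · exact absurd h3 hj
    · exact h3
  refine ⟨x, fun l => ?_⟩
  rw [hx l, hm0, smul_zero, add_zero]

end HKR
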