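import Pool.Agent.Lib.HKR.Defs
/-!
HKR.CRig (config 0).  Two small facts.
(a) InfRigid -> AffRigid: if det3 (L i + t w i) (L j + t w j) (L l + t w l) = 0 for all t, its
    coefficient of t (the sum of three determinants) is 0: expand det3 (it is the polynomial
    det3 L L L + t S1 + t^2 S2 + t^3 S3, zero for all t, e.g. use t = 1, -1, 2 and the value 0 at t = 0);
    then InfRigid with L' = w.
(b) eigen lemma: let q ≠ 0, g a matrix, and a b c three pairwise independent forms vanishing at q, each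
    with `vecMul a g = x • a` etc.  Then there are s and m (a form) with
    `g = s • 1 + vecMulVec q m`, that is `vecMul l g = s • l + (l ⬝ᵥ q) • m` for all forms l.
    Proof: c = α a + β b with α, β ≠ 0 (the forms vanishing at q are a plane), so the three eigenvalues
    agree, = s.  So vecMul l (g - s 1) = 0 for l in the plane q^⊥ (spanned by a, b); choose l0 with
    l0 ⬝ q = 1 and m := vecMul l0 (g - s 1); every l is (l ⬝ q) • l0 + (element of q^⊥).
-/
namespace HKR

theorem affRigid_of_infRigid {k : ℕ} {L : Fin k → Fin 3 → ℂ} (h : InfRigid L) : AffRigid L := by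
  intro w hw
  refine h w fun i j l h0 => ?_
  have h1 := hw i j l h0 1
  have h2 := hw i j l h0 (-1)
  have h3 := hw i j l h0 2
  simp only [det3, Matrix.det_fin_three, Matrix.of_apply, Matrix.cons_val_zero,
    Matrix.cons_val_one, Matrix.cons_val_two, Matrix.head_cons, Matrix.tail_cons,
    Matrix.cons_val, Pi.add_apply, Pi.smul_apply, smul_eq_mul] at h0 h1 h2 h3 ⊢
  linear_combination (1 : ℂ) * h1 - (1 / 3 : ℂ) * h2 - (1 / 6 : ℂ) * h3 - (1 / 2 : ℂ) * h0

private theorem crig_span {q : Fin 3 → ℂ} (hq : q ≠ 0) {a b r : Fin 3 → ℂ} (ha : a ⬝ᵥ q = 0)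
    (hb : b ⬝ᵥ q = 0) (hr : r ⬝ᵥ q = 0) (hab : LinearIndependent ℂ ![a, b]) :
    ∃ x y : ℂ, r = x • a + y • b := by
  have hdet : (Matrix.of ![a, b, r]).det = 0 := by
    rw [← Matrix.exists_mulVec_eq_zero_iff]
    refine ⟨q, hq, ?_⟩
    ext i
    fin_cases i
    · exact ha
    · exact hb
    · exact hr
  rw [← Matrix.exists_vecMul_eq_zero_iff] at hdet
  obtain ⟨v, hv, hv0⟩ := hdet
  have hsum : v 0 • a + v 1 • b + v 2 • r = 0 := by
    ext i
    have h1 := congrFun hv0 i
    simp only [Matrix.vecMul, dotProduct, Fin.sum_univ_three, Matrix.of_apply, Pi.zero_apply,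
      Matrix.cons_val] at h1
    simp only [Pi.add_apply, Pi.smul_apply, smul_eq_mul, Pi.zero_apply]
    exact h1
  have h2 : v 2 ≠ 0 := by
    intro h2
    rw [h2, zero_smul, add_zero] at hsum
    obtain ⟨h0, h1⟩ := (LinearIndependent.pair_iff.mp hab) _ _ hsum
    apply hv
    ext i
    fin_cases i
    · exact h0
    · exact h1
    · exact h2
  refine ⟨-(v 0) / v 2, -(v 1) / v 2, ?_⟩
  ext i
  have h3 := congrFun hsum i
  simp only [Pi.add_apply, Pi.smul_apply, smul_eq_mul, Pi.zero_apply] at h3 ⊢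
  field_simp
  linear_combination h3

theorem eigen_pencil {q : Fin 3 → ℂ} (hq : q ≠ 0) (g : Matrix (Fin 3) (Fin 3) ℂ)
    {a b c : Fin 3 → ℂ} (ha : a ⬝ᵥ q = 0) (hb : b ⬝ᵥ q = 0) (hc : c ⬝ᵥ q = 0)
    (hab : LinearIndependent ℂ ![a, b]) (hac : LinearIndependent ℂ ![a, c])
    (hbc : LinearIndependent ℂ ![b, c])
    (ea : ∃ x : ℂ, Matrix.vecMul a g = x • a) (eb : ∃ x : ℂ, Matrix.vecMul b g = x • b)
    (ec : ∃ x : ℂ, Matrix.vecMul c g = x • c) :
    ∃ (s : ℂ) (m : Fin 3 → ℂ), ∀ l : Fin 3 → ℂ, Matrix.vecMul l g = s • l + (l ⬝ᵥ q) • m := by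
  obtain ⟨xa, ea⟩ := ea
  obtain ⟨xb, eb⟩ := eb
  obtain ⟨xc, ec⟩ := ec
  obtain ⟨u, v, hcuv⟩ := crig_span hq ha hb hc hab
  have hu : u ≠ 0 := by
    intro hu
    have h1 : v • b + (-1 : ℂ) • c = 0 := by
      rw [hcuv, hu]; module
    have h2 := (LinearIndependent.pair_iff.mp hbc) _ _ h1
    exact absurd h2.2 (by norm_num)
  have hv : v ≠ 0 := by
    intro hv
    have h1 : u • a + (-1 : ℂ) • c = 0 := by
      rw [hcuv, hv]; module
    have h2 := (LinearIndependent.pair_iff.mp hac) _ _ h1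
    exact absurd h2.2 (by norm_num)
  have h1 : (u * (xa - xc)) • a + (v * (xb - xc)) • b = 0 := by
    have h2 : Matrix.vecMul c g = u • xa • a + v • xb • b := by
      rw [hcuv, Matrix.add_vecMul, Matrix.smul_vecMul, Matrix.smul_vecMul, ea, eb]
    rw [ec, hcuv] at h2
    have h3 : (u * (xa - xc)) • a + (v * (xb - xc)) • b =
        (u • xa • a + v • xb • b) - xc • (u • a + v • b) := by module
    rw [h3, ← h2, sub_self]
  obtain ⟨h2, h3⟩ := (LinearIndependent.pair_iff.mp hab) _ _ h1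
  have hxa : xa = xc := by
    rcases mul_eq_zero.mp h2 with h | h
    · exact absurd h hu
    · exact sub_eq_zero.mp h
  have hxb : xb = xc := by
    rcases mul_eq_zero.mp h3 with h | h
    · exact absurd h hv
    · exact sub_eq_zero.mp h
  have hker : ∀ r : Fin 3 → ℂ, r ⬝ᵥ q = 0 → Matrix.vecMul r g = xc • r := by
    intro r hr
    obtain ⟨x, y, hxy⟩ := crig_span hq ha hb hr hab
    rw [hxy, Matrix.add_vecMul, Matrix.smul_vecMul, Matrix.smul_vecMul, ea, eb, hxa, hxb]
    module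
  obtain ⟨j, hj⟩ : ∃ j, q j ≠ 0 := by
    by_contra hcon
    push Not at hcon
    exact hq (funext hcon)
  set l0 : Fin 3 → ℂ := Pi.single j (q j)⁻¹ with hl0
  have hl0q : l0 ⬝ᵥ q = 1 := by
    rw [hl0, single_dotProduct, inv_mul_cancel₀ hj]
  refine ⟨xc, Matrix.vecMul l0 g - xc • l0, fun l => ?_⟩
  have h4 : (l - (l ⬝ᵥ q) • l0) ⬝ᵥ q = 0 := by
    rw [sub_dotProduct, smul_dotProduct, hl0q, smul_eq_mul, mul_one, sub_self]
  have h5 := hker _ h4
  rw [Matrix.sub_vecMul, Matrix.smul_vecMul] at h5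
  have h6 : Matrix.vecMul l g = xc • (l - (l ⬝ᵥ q) • l0) + (l ⬝ᵥ q) • Matrix.vecMul l0 g := by
    rw [← h5]; module
  rw [h6]
  module

end HKR
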