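import Pool.Agent.Lib.HKR.DDefs
/-!
HKR.D1 (affine plane with coordinates s, t; local rings RLoc s t a b).
(1) RLoc is a subring containing psi P; RLoc.inv_psi: psi Q inverse if Q(a,b) ≠ 0.
(2) rloc_open: finitely many functions regular at (a,b) are regular on a set D(H), H(a,b) ≠ 0 (product of
    the denominators Q).
(3) rloc_inter: f regular at all points of D(H) implies f = psi P / psi H^N.  Proof: the ideal
    I = {Q : f psi Q ∈ range psi} of ℂ[x,y] has no zero in D(H), so H vanishes on the zero set of I,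
    so H^N ∈ I (Nullstellensatz: MvPolynomial.vanishingIdeal_zeroLocus_eq_radical).
(4) cousin_affine.  If G = 0: nothing to prove.  Let I be the ideal generated by all H_(a,b), (a,b) ∈ D(G)
    (given by the hypothesis); it has no zero in D(G), so G^N0 = Σ_j c_j H_j (finite; H_j = H_(a_j,b_j),
    e_j = e a_j b_j).  On D(G H_i H_j): e_i - e_j is regular (both differences with e a b), so by (3)
    (e_i - e_j) psi (G H_i H_j)^M = psi P_ij, M uniform (finitely many pairs).  A power of the relation: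
    G^N = Σ_j c'_j H_j^M.  e0 := Σ_j psi (c'_j H_j^M) e_j / psi G^N.  At (a,b) ∈ D(G) some H_i(a,b) ≠ 0 (from
    G^N0(a,b) ≠ 0): e0 - e a b = (e_i - e a b) + Σ_j psi(c'_j H_j^M)(e_j - e_i)/psi G^N, and
    psi(H_j^M)(e_j - e_i) = psi P_ji / psi (G H_i)^M is regular at (a,b).
(5) hartogs: f = psi P/psi Q, P, Q coprime.  If Q(a0,b0) = 0 let π ∣ Q irreducible with π(a0,b0) = 0.  At a
    point (a,b) ≠ (a0,b0) of V(π) ∩ D(H): f psi Q' = psi P', Q'(a,b) ≠ 0, so P Q' = P' Q, P(a,b) = 0.  So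
    P H (x - a0) and P H (y - b0) vanish on V(π), so π divides both (π prime, Nullstellensatz); π ∤ P,
    π ∤ H, so π ∣ x - a0 and π ∣ y - b0: impossible.  So Q(a0,b0) ≠ 0.
-/
open MvPolynomial
namespace HKR
variable {s t : Fn}

private theorem d1_eta (x : Fin 2 → ℂ) : (![x 0, x 1] : Fin 2 → ℂ) = x := by
  ext i; fin_cases i <;> rfl

private theorem d1_nss (I : Ideal (MvPolynomial (Fin 2) ℂ)) (H : MvPolynomial (Fin 2) ℂ)
    (h : ∀ a b : ℂ, (∀ Q ∈ I, eval ![a, b] Q = 0) → eval ![a, b] H = 0) :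
    ∃ N : ℕ, H ^ N ∈ I := by
  have h1 : H ∈ vanishingIdeal ℂ (zeroLocus ℂ I) := by
    rw [mem_vanishingIdeal_iff]
    intro x hx
    rw [mem_zeroLocus_iff] at hx
    have h2 := h (x 0) (x 1) (by
      intro Q hQ
      rw [d1_eta]
      have := hx Q hQ
      rwa [← coe_aeval_eq_eval])
    rw [d1_eta] at h2
    rw [← h2, ← coe_aeval_eq_eval]
    rfl
  rw [vanishingIdeal_zeroLocus_eq_radical] at h1
  exact h1

private theorem d1_ne (hc : Coord s t) {Q : MvPolynomial (Fin 2) ℂ} (hQ : Q ≠ 0) :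
    HKR.psi s t Q ≠ 0 := fun h => hQ (hc.inj Q h)

private theorem d1_ne_of_eval {a b : ℂ} {Q : MvPolynomial (Fin 2) ℂ}
    (hQ : eval ![a, b] Q ≠ 0) : Q ≠ 0 := by
  rintro rfl
  simp at hQ

theorem RLoc.psi (a b : ℂ) (P : MvPolynomial (Fin 2) ℂ) : RLoc s t a b (psi s t P) := by
  exact ⟨P, 1, by simp, by simp⟩

theorem RLoc.add {a b : ℂ} {f g : Fn} (hf : RLoc s t a b f) (hg : RLoc s t a b g) :
    RLoc s t a b (f + g) := by
  obtain ⟨P, Q, hQ, h⟩ := hf
  obtain ⟨P', Q', hQ', h'⟩ := hg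
  refine ⟨P * Q' + P' * Q, Q * Q', by rw [map_mul]; exact mul_ne_zero hQ hQ', ?_⟩
  rw [map_add, map_mul, map_mul, map_mul, ← h, ← h']
  ring

theorem RLoc.mul {a b : ℂ} {f g : Fn} (hf : RLoc s t a b f) (hg : RLoc s t a b g) :
    RLoc s t a b (f * g) := by
  obtain ⟨P, Q, hQ, h⟩ := hf
  obtain ⟨P', Q', hQ', h'⟩ := hg
  refine ⟨P * P', Q * Q', by rw [map_mul]; exact mul_ne_zero hQ hQ', ?_⟩
  rw [map_mul, map_mul, ← h, ← h']
  ring

theorem RLoc.neg {a b : ℂ} {f : Fn} (hf : RLoc s t a b f) : RLoc s t a b (-f) := by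
  obtain ⟨P, Q, hQ, h⟩ := hf
  refine ⟨-P, Q, hQ, ?_⟩
  rw [map_neg, ← h]
  ring

private theorem d1_zero {a b : ℂ} : RLoc s t a b 0 := by
  have := RLoc.psi (s := s) (t := t) a b 0
  rwa [map_zero] at this

private theorem d1_sum {ι : Type*} {a b : ℂ} (T : Finset ι) (f : ι → Fn)
    (h : ∀ i ∈ T, RLoc s t a b (f i)) : RLoc s t a b (∑ i ∈ T, f i) := by
  classical
  induction T using Finset.induction_on with
  | empty => simpa using d1_zero
  | insert i T hi ih =>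
    rw [Finset.sum_insert hi]
    exact (h i (Finset.mem_insert_self _ _)).add
      (ih fun j hj => h j (Finset.mem_insert_of_mem hj))

theorem RLoc.inv_psi (hc : Coord s t) {a b : ℂ} {Q : MvPolynomial (Fin 2) ℂ}
    (hQ : eval ![a, b] Q ≠ 0) : RLoc s t a b (HKR.psi s t Q)⁻¹ := by
  refine ⟨1, Q, hQ, ?_⟩
  rw [map_one]
  exact inv_mul_cancel₀ (d1_ne hc (d1_ne_of_eval hQ))

theorem rloc_open {a b : ℂ} (T : Finset Fn) (hT : ∀ f ∈ T, RLoc s t a b f) :
    ∃ H : MvPolynomial (Fin 2) ℂ, eval ![a, b] H ≠ 0 ∧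
      ∀ a' b', eval ![a', b'] H ≠ 0 → ∀ f ∈ T, RLoc s t a' b' f := by
  classical
  induction T using Finset.induction_on with
  | empty => exact ⟨1, by simp, by simp⟩
  | insert f T hf ih =>
    obtain ⟨H, h1, h2⟩ := ih fun g hg => hT g (Finset.mem_insert_of_mem hg)
    obtain ⟨P, Q, hQ, h⟩ := hT f (Finset.mem_insert_self _ _)
    refine ⟨H * Q, by rw [map_mul]; exact mul_ne_zero h1 hQ, ?_⟩
    intro a' b' h' g hg
    rw [map_mul] at h'
    rw [Finset.mem_insert] at hg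
    rcases hg with rfl | hg
    · exact ⟨P, Q, right_ne_zero_of_mul h', h⟩
    · exact h2 a' b' (left_ne_zero_of_mul h') g hg

theorem rloc_inter (hc : Coord s t) (H : MvPolynomial (Fin 2) ℂ) (f : Fn)
    (h : ∀ a b, eval ![a, b] H ≠ 0 → RLoc s t a b f) :
    ∃ (N : ℕ) (P : MvPolynomial (Fin 2) ℂ), f * HKR.psi s t (H ^ N) = HKR.psi s t P := by
  let I : Ideal (MvPolynomial (Fin 2) ℂ) :=
    { carrier := {Q | ∃ P, f * HKR.psi s t Q = HKR.psi s t P}
      add_mem' := by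
        rintro Q Q' ⟨P, hP⟩ ⟨P', hP'⟩
        exact ⟨P + P', by rw [map_add, map_add, mul_add, hP, hP']⟩
      zero_mem' := ⟨0, by simp⟩
      smul_mem' := by
        rintro c Q ⟨P, hP⟩
        refine ⟨c * P, ?_⟩
        rw [smul_eq_mul, map_mul, map_mul, ← hP]
        ring }
  obtain ⟨N, P, hP⟩ := d1_nss I H (by
    intro a b hI
    by_contra hne
    obtain ⟨P, Q, hQ, hPQ⟩ := h a b hne
    exact hQ (hI Q ⟨P, hPQ⟩))
  exact ⟨N, P, hP⟩

theorem cousin_affine (hc : Coord s t) (G : MvPolynomial (Fin 2) ℂ) (e : ℂ → ℂ → Fn)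
    (h : ∀ a b, eval ![a, b] G ≠ 0 → ∃ H : MvPolynomial (Fin 2) ℂ, eval ![a, b] H ≠ 0 ∧
      ∀ a' b', eval ![a', b'] G ≠ 0 → eval ![a', b'] H ≠ 0 → RLoc s t a' b' (e a' b' - e a b)) :
    ∃ e0 : Fn, ∀ a b, eval ![a, b] G ≠ 0 → RLoc s t a b (e0 - e a b) := by
  classical
  by_cases hG : G = 0
  · subst hG
    exact ⟨0, fun a b hab => absurd (by simp) hab⟩
  -- the ideal generated by the `H`
  let S : Set (MvPolynomial (Fin 2) ℂ) := {H | ∃ a b, eval ![a, b] G ≠ 0 ∧ eval ![a, b] H ≠ 0 ∧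
      ∀ a' b', eval ![a', b'] G ≠ 0 → eval ![a', b'] H ≠ 0 → RLoc s t a' b' (e a' b' - e a b)}
  obtain ⟨N0, hN0⟩ := d1_nss (Ideal.span S) G (by
    intro a b hI
    by_contra hne
    obtain ⟨H, h1, h2⟩ := h a b hne
    exact h1 (hI H (Ideal.subset_span ⟨a, b, hne, h1, h2⟩)))
  obtain ⟨n, c, g, hsum⟩ := (Submodule.mem_span_set' (R := MvPolynomial (Fin 2) ℂ)).1 hN0
  have hg : ∀ j : Fin n, ∃ a b, eval ![a, b] G ≠ 0 ∧ eval ![a, b] (g j : MvPolynomial (Fin 2) ℂ) ≠ 0 ∧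
      ∀ a' b', eval ![a', b'] G ≠ 0 → eval ![a', b'] (g j : MvPolynomial (Fin 2) ℂ) ≠ 0 →
        RLoc s t a' b' (e a' b' - e a b) := fun j => (g j).2
  choose A B hAB0 hAB1 hAB2 using hg
  -- differences on the intersections
  have hdiff : ∀ i j : Fin n, ∃ (N : ℕ) (P : MvPolynomial (Fin 2) ℂ),
      (e (A i) (B i) - e (A j) (B j)) *
        HKR.psi s t ((G * (g i : MvPolynomial (Fin 2) ℂ) * g j) ^ N) = HKR.psi s t P := by
    intro i j
    refine rloc_inter hc _ _ ?_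
    intro a b hab
    rw [map_mul, map_mul] at hab
    have h1 := left_ne_zero_of_mul (left_ne_zero_of_mul hab)
    have h2 := right_ne_zero_of_mul (left_ne_zero_of_mul hab)
    have h3 := right_ne_zero_of_mul hab
    have h4 := (hAB2 i a b h1 h2).neg.add (hAB2 j a b h1 h3)
    have h5 : e (A i) (B i) - e (A j) (B j)
        = -(e a b - e (A i) (B i)) + (e a b - e (A j) (B j)) := by ring
    rw [h5]; exact h4
  choose Nf Pf hPf using hdiff
  -- uniform exponent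
  obtain ⟨M, hM⟩ : ∃ M : ℕ, ∀ i j, Nf i j ≤ M := by
    refine ⟨∑ i, ∑ j, Nf i j, fun i j => ?_⟩
    calc Nf i j ≤ ∑ j, Nf i j := Finset.single_le_sum (fun _ _ => Nat.zero_le _) (Finset.mem_univ j)
      _ ≤ ∑ i, ∑ j, Nf i j := Finset.single_le_sum (f := fun i => ∑ j, Nf i j)
          (fun _ _ => Nat.zero_le _) (Finset.mem_univ i)
  have hdiffM : ∀ i j : Fin n, ∃ P : MvPolynomial (Fin 2) ℂ,
      (e (A i) (B i) - e (A j) (B j)) *
        HKR.psi s t ((G * (g i : MvPolynomial (Fin 2) ℂ) * g j) ^ (M + 1)) = HKR.psi s t P := by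
    intro i j
    refine ⟨Pf i j * (G * (g i : MvPolynomial (Fin 2) ℂ) * g j) ^ (M + 1 - Nf i j), ?_⟩
    have h1 := hM i j
    rw [map_mul, ← hPf i j, mul_assoc (e (A i) (B i) - e (A j) (B j)), ← map_mul, ← pow_add]
    have h2 : Nf i j + (M + 1 - Nf i j) = M + 1 := by omega
    rw [h2]
  -- power relation
  obtain ⟨N, hN⟩ := d1_nss (Ideal.span (Set.range fun j : Fin n =>
      (g j : MvPolynomial (Fin 2) ℂ) ^ (M + 1))) G (by
    intro a b hI
    have h1 : ∀ j, eval ![a, b] (g j : MvPolynomial (Fin 2) ℂ) = 0 := by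
      intro j
      have := hI _ (Ideal.subset_span ⟨j, rfl⟩)
      rw [map_pow] at this
      exact pow_eq_zero_iff (Nat.succ_ne_zero M) |>.1 this
    have h2 : eval ![a, b] (G ^ N0) = 0 := by
      rw [← hsum, map_sum]
      refine Finset.sum_eq_zero fun j _ => ?_
      rw [smul_eq_mul, map_mul, h1 j, mul_zero]
    rw [map_pow] at h2
    exact eq_zero_of_pow_eq_zero h2)
  rw [Ideal.mem_span_range_iff_exists_fun] at hN
  obtain ⟨c', hc'⟩ := hN
  have hGN : HKR.psi s t (G ^ N) ≠ 0 := d1_ne hc (pow_ne_zero _ hG)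
  refine ⟨(∑ j, HKR.psi s t (c' j * (g j : MvPolynomial (Fin 2) ℂ) ^ (M + 1)) * e (A j) (B j)) *
    (HKR.psi s t (G ^ N))⁻¹, ?_⟩
  intro a b hab
  obtain ⟨i, hi⟩ : ∃ i, eval ![a, b] (g i : MvPolynomial (Fin 2) ℂ) ≠ 0 := by
    by_contra hcon
    push Not at hcon
    have h2 : eval ![a, b] (G ^ N0) = 0 := by
      rw [← hsum, map_sum]
      refine Finset.sum_eq_zero fun j _ => ?_
      rw [smul_eq_mul, map_mul, hcon j, mul_zero]
    rw [map_pow] at h2
    exact hab (eq_zero_of_pow_eq_zero h2)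
  have hsumG : ∑ j, HKR.psi s t (c' j * (g j : MvPolynomial (Fin 2) ℂ) ^ (M + 1))
      = HKR.psi s t (G ^ N) := by
    rw [← map_sum, hc']
  have hkey : (∑ j, HKR.psi s t (c' j * (g j : MvPolynomial (Fin 2) ℂ) ^ (M + 1)) * e (A j) (B j)) *
    (HKR.psi s t (G ^ N))⁻¹ - e a b = -(e a b - e (A i) (B i)) +
      (∑ j, HKR.psi s t (c' j) * (HKR.psi s t ((g j : MvPolynomial (Fin 2) ℂ) ^ (M + 1)) *
        (e (A j) (B j) - e (A i) (B i)))) * (HKR.psi s t (G ^ N))⁻¹ := by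
    have h1 : ∑ j, HKR.psi s t (c' j) * (HKR.psi s t ((g j : MvPolynomial (Fin 2) ℂ) ^ (M + 1)) *
        (e (A j) (B j) - e (A i) (B i)))
        = (∑ j, HKR.psi s t (c' j * (g j : MvPolynomial (Fin 2) ℂ) ^ (M + 1)) * e (A j) (B j))
          - HKR.psi s t (G ^ N) * e (A i) (B i) := by
      rw [← hsumG, Finset.sum_mul, ← Finset.sum_sub_distrib]
      refine Finset.sum_congr rfl fun j _ => ?_
      rw [map_mul]; ring
    rw [h1, sub_mul]
    have h2 : HKR.psi s t (G ^ N) * e (A i) (B i) * (HKR.psi s t (G ^ N))⁻¹ = e (A i) (B i) := by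
      rw [mul_comm (HKR.psi s t (G ^ N)), mul_assoc, mul_inv_cancel₀ hGN, mul_one]
    rw [h2]; ring
  rw [hkey]
  refine (hAB2 i a b hab hi).neg.add (RLoc.mul (d1_sum _ _ fun j _ => RLoc.mul (RLoc.psi _ _ _) ?_)
    (RLoc.inv_psi hc (by rw [map_pow]; exact pow_ne_zero _ hab)))
  obtain ⟨P, hP⟩ := hdiffM j i
  refine ⟨P, (G * (g i : MvPolynomial (Fin 2) ℂ)) ^ (M + 1), ?_, ?_⟩
  · rw [map_pow, map_mul]
    exact pow_ne_zero _ (mul_ne_zero hab hi)
  · rw [← hP, mul_comm (HKR.psi s t ((g j : MvPolynomial (Fin 2) ℂ) ^ (M + 1))), mul_assoc,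
      ← map_mul]
    congr 2
    ring

private theorem d1_exists_prime {a b : ℂ} (Q : MvPolynomial (Fin 2) ℂ) (hQ : Q ≠ 0) :
    eval ![a, b] Q = 0 → ∃ p : MvPolynomial (Fin 2) ℂ, Irreducible p ∧ p ∣ Q ∧
      eval ![a, b] p = 0 := by
  induction Q using WfDvdMonoid.induction_on_irreducible with
  | zero => exact absurd rfl hQ
  | unit u hu =>
    intro h
    exact absurd (hu.map (eval ![a, b])) (by rw [h]; exact not_isUnit_zero)
  | mul q p hq hp ih =>
    intro h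
    rw [map_mul] at h
    by_cases hp0 : eval ![a, b] p = 0
    · exact ⟨p, hp, Dvd.intro _ rfl, hp0⟩
    · obtain ⟨p', h1, h2, h3⟩ := ih hq ((mul_eq_zero.1 h).resolve_left hp0)
      exact ⟨p', h1, h2.mul_left _, h3⟩

private theorem d1_prime_dvd {p F : MvPolynomial (Fin 2) ℂ} (hp : Irreducible p)
    (h : ∀ a b : ℂ, eval ![a, b] p = 0 → eval ![a, b] F = 0) : p ∣ F := by
  obtain ⟨N, hN⟩ := d1_nss (Ideal.span {p}) F (by
    intro a b hI
    exact h a b (hI p (Ideal.mem_span_singleton_self p)))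
  rw [Ideal.mem_span_singleton] at hN
  exact hp.prime.dvd_of_dvd_pow hN

private theorem d1_no_dvd {p : MvPolynomial (Fin 2) ℂ} {a b : ℂ} (hp : Irreducible p)
    (h1 : p ∣ X 0 - C a) (h2 : p ∣ X 1 - C b) : False := by
  have hirr : Irreducible (X 0 - C a : MvPolynomial (Fin 2) ℂ) := by
    refine irreducible_of_totalDegree_eq_one ?_ ?_
    · have : (X 0 - C a : MvPolynomial (Fin 2) ℂ) = X 0 + C (-a) := by
        rw [map_neg]; ring
      rw [this, totalDegree_add_eq_left_of_totalDegree_lt]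
      · exact totalDegree_X _
      · rw [totalDegree_C, totalDegree_X]; exact zero_lt_one
    · intro x hx
      have h3 := hx (Finsupp.single 0 1)
      have h4 : coeff (Finsupp.single 0 1) (X 0 - C a : MvPolynomial (Fin 2) ℂ) = 1 := by
        have h5 : ¬ ((0 : Fin 2 →₀ ℕ) = Finsupp.single 0 1) := by
          intro h5
          have := DFunLike.congr_fun h5 0
          simp at this
        rw [coeff_sub, coeff_X', coeff_C, if_pos rfl, if_neg h5, sub_zero]
      rw [h4] at h3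
      exact isUnit_of_dvd_one h3
  have hassoc : Associated p (X 0 - C a) := hp.associated_of_dvd hirr h1
  have h3 : (X 0 - C a : MvPolynomial (Fin 2) ℂ) ∣ X 1 - C b := hassoc.dvd_iff_dvd_left.1 h2
  obtain ⟨u, hu⟩ := h3
  have h4 := congrArg (eval ![a, b + 1]) hu
  simp at h4

theorem hartogs (hc : Coord s t) (H : MvPolynomial (Fin 2) ℂ) {a0 b0 : ℂ}
    (hH : eval ![a0, b0] H ≠ 0) (f : Fn)
    (h : ∀ a b, eval ![a, b] H ≠ 0 → (a ≠ a0 ∨ b ≠ b0) → RLoc s t a b f) :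
    RLoc s t a0 b0 f := by
  obtain ⟨P0, Q0, hQ0, hPQ0⟩ := hc.gen f
  obtain ⟨P, Q, c, hrel, hcP, hcQ⟩ :=
    UniqueFactorizationMonoid.exists_reduced_factors' P0 Q0 hQ0
  have hc0 : c ≠ 0 := by
    rintro rfl
    rw [zero_mul] at hcQ
    exact hQ0 hcQ.symm
  have hQ1 : Q ≠ 0 := by
    rintro rfl
    rw [mul_zero] at hcQ
    exact hQ0 hcQ.symm
  have hPQ : f * HKR.psi s t Q = HKR.psi s t P := by
    rw [← hcP, ← hcQ, map_mul, map_mul] at hPQ0
    have : HKR.psi s t c * (f * HKR.psi s t Q) = HKR.psi s t c * HKR.psi s t P := by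
      rw [← hPQ0]; ring
    exact mul_left_cancel₀ (d1_ne hc hc0) this
  by_cases hQ : eval ![a0, b0] Q = 0
  swap
  · exact ⟨P, Q, hQ, hPQ⟩
  exfalso
  obtain ⟨p, hp, hpQ, hp0⟩ := d1_exists_prime Q hQ1 hQ
  -- P vanishes at the other points of V(p) in D(H)
  have hvan : ∀ a b, eval ![a, b] p = 0 → eval ![a, b] H ≠ 0 → (a ≠ a0 ∨ b ≠ b0) →
      eval ![a, b] P = 0 := by
    intro a b h1 h2 h3
    obtain ⟨P', Q', hQ', hPQ'⟩ := h a b h2 h3
    have h4 : P * Q' = P' * Q := by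
      have h5 : HKR.psi s t (P * Q' - P' * Q) = 0 := by
        rw [map_sub, map_mul, map_mul, ← hPQ, ← hPQ']
        ring
      exact sub_eq_zero.1 (hc.inj _ h5)
    have h6 := congrArg (eval ![a, b]) h4
    rw [map_mul, map_mul] at h6
    have h7 : eval ![a, b] Q = 0 := by
      obtain ⟨u, hu⟩ := hpQ
      rw [hu, map_mul, h1, zero_mul]
    rw [h7, mul_zero] at h6
    exact (mul_eq_zero.1 h6).resolve_right hQ'
  have hpP : ¬ p ∣ P := fun h1 => hp.not_isUnit (hrel h1 hpQ)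
  have hpH : ¬ p ∣ H := by
    rintro ⟨u, hu⟩
    exact hH (by rw [hu, map_mul, hp0, zero_mul])
  have hx : p ∣ P * H * (X 0 - C a0) := by
    refine d1_prime_dvd hp ?_
    intro a b h1
    rw [map_mul, map_mul]
    by_cases h2 : eval ![a, b] H = 0
    · rw [h2]; ring
    by_cases h3 : a = a0
    · have : eval ![a, b] (X 0 - C a0 : MvPolynomial (Fin 2) ℂ) = 0 := by simp [h3]
      rw [this, mul_zero]
    · rw [hvan a b h1 h2 (Or.inl h3)]; ring
  have hy : p ∣ P * H * (X 1 - C b0) := by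
    refine d1_prime_dvd hp ?_
    intro a b h1
    rw [map_mul, map_mul]
    by_cases h2 : eval ![a, b] H = 0
    · rw [h2]; ring
    by_cases h3 : b = b0
    · have : eval ![a, b] (X 1 - C b0 : MvPolynomial (Fin 2) ℂ) = 0 := by simp [h3]
      rw [this, mul_zero]
    · rw [hvan a b h1 h2 (Or.inr h3)]; ring
  have hPH : ¬ p ∣ P * H := fun h1 => (hp.prime.dvd_or_dvd h1).elim hpP hpH
  exact d1_no_dvd hp ((hp.prime.dvd_or_dvd hx).resolve_left hPH)
    ((hp.prime.dvd_or_dvd hy).resolve_left hPH)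

end HKR
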