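import Pool.Agent.Lib.HKR.D1
/-!
HKR.D5 (algebra of the ideals (A(x),B(y)) over ℂ).
(a) mem_abI_local: if for every common zero (a,b) of A(x), B(y) some H with H(a,b) ≠ 0 has H C ∈ abI A B,
    then C ∈ abI A B.  (The ideal {H : H C ∈ abI A B} contains uni 0 A, uni 1 B and has no zero: it is
    ⊤ by the Nullstellensatz.)
(b) abI_cancel: (A(x) B(y))^j C ∈ abI (A^(r+j)) (B^(r+j)) implies C ∈ abI (A^r) (B^r), A, B monic:
    A^j B^j C = u A^(r+j) + v B^(r+j); B^j is prime to A, so B^j divides u: u = B^j u', and A^j ∣ v: v = A^j v';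
    cancel: C = u' A^r + v' B^r.  (uni 0 A, uni 1 B are relatively prime: different variables, monic.)
(c) triv_local: s,t coordinates; f psi(A^r B^r) = psi C; f = f1 - f2, f1 psi((A H)^N) = psi P1,
    f2 psi((B H)^N) = psi P2.  Then H^N' C ∈ abI (A^r) (B^r) for some N'.
    (Multiply: C (A B H)^N = A^r B^r (P1 B^N - P2 A^N); WLOG N ≥ r (multiply P1, P2 by more factors); so
    H^N C A^(N-r) B^(N-r) = P1 B^N - P2 A^N, and (b).)
-/
open MvPolynomial
namespace HKR

private theorem D5_eta (x : Fin 2 → ℂ) : (![x 0, x 1] : Fin 2 → ℂ) = x := by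
  ext i; fin_cases i <;> rfl

private theorem D5_nss (I : Ideal (MvPolynomial (Fin 2) ℂ)) (H : MvPolynomial (Fin 2) ℂ)
    (h : ∀ a b : ℂ, (∀ Q ∈ I, eval ![a, b] Q = 0) → eval ![a, b] H = 0) :
    ∃ N : ℕ, H ^ N ∈ I := by
  have h1 : H ∈ vanishingIdeal ℂ (zeroLocus ℂ I) := by
    rw [mem_vanishingIdeal_iff]
    intro x hx
    rw [mem_zeroLocus_iff] at hx
    have h2 := h (x 0) (x 1) (by
      intro Q hQ
      rw [D5_eta]
      have := hx Q hQ
      rwa [← coe_aeval_eq_eval])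
    rw [D5_eta] at h2
    rw [← h2, ← coe_aeval_eq_eval]
    rfl
  rw [vanishingIdeal_zeroLocus_eq_radical] at h1
  exact h1

private theorem D5_no_dvd {p : MvPolynomial (Fin 2) ℂ} {a b : ℂ} (hp : Irreducible p)
    (h1 : p ∣ X 0 - C a) (h2 : p ∣ X 1 - C b) : False := by
  have hirr : Irreducible (X 0 - C a : MvPolynomial (Fin 2) ℂ) := by
    refine irreducible_of_totalDegree_eq_one ?_ ?_
    · have : (X 0 - C a : MvPolynomial (Fin 2) ℂ) = X 0 + C (-a) := by
        rw [map_neg]; ring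
      rw [this, totalDegree_add_eq_left_of_totalDegree_lt]
      · exact totalDegree_X _
      · rw [totalDegree_C, totalDegree_X]; exact zero_lt_one
    · intro x hx
      have h3 := hx (Finsupp.single 0 1)
      have h4 : coeff (Finsupp.single 0 1) (X 0 - C a : MvPolynomial (Fin 2) ℂ) = 1 := by
        have h5 : ¬ ((0 : Fin 2 →₀ ℕ) = Finsupp.single 0 1) := by
          intro h5
          have := DFunLike.congr_fun h5 0
          simp at this
        rw [coeff_sub, coeff_X, coeff_C, if_pos rfl, if_neg h5, sub_zero]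
      rw [h4] at h3
      exact isUnit_of_dvd_one h3
  have hassoc : Associated p (X 0 - C a) := hp.associated_of_dvd hirr h1
  have h3 : (X 0 - C a : MvPolynomial (Fin 2) ℂ) ∣ X 1 - C b := hassoc.dvd_iff_dvd_left.1 h2
  obtain ⟨u, hu⟩ := h3
  have h4 := congrArg (eval ![a, b + 1]) hu
  simp at h4

private theorem D5_eval0 (A : Polynomial ℂ) (a b : ℂ) :
    eval ![a, b] (uni 0 A) = A.eval a := by
  have h : (eval ![a, b]).comp (algebraMap ℂ (MvPolynomial (Fin 2) ℂ)) = RingHom.id ℂ := by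
    ext <;> simp
  rw [uni, Polynomial.aeval_def, Polynomial.hom_eval₂, h, Polynomial.eval₂_id]
  simp

private theorem D5_eval1 (A : Polynomial ℂ) (a b : ℂ) :
    eval ![a, b] (uni 1 A) = A.eval b := by
  have h : (eval ![a, b]).comp (algebraMap ℂ (MvPolynomial (Fin 2) ℂ)) = RingHom.id ℂ := by
    ext <;> simp
  rw [uni, Polynomial.aeval_def, Polynomial.hom_eval₂, h, Polynomial.eval₂_id]
  simp

private theorem D5_pow (i : Fin 2) (A : Polynomial ℂ) (n : ℕ) : uni i (A ^ n) = uni i A ^ n := by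
  simp [uni]

private theorem D5_ne (i : Fin 2) {A : Polynomial ℂ} (hA : A ≠ 0) : uni i A ≠ 0 := by
  obtain ⟨x, hx⟩ : ∃ x, A.eval x ≠ 0 := by
    by_contra hcon
    push Not at hcon
    exact hA (Polynomial.funext fun x => by simpa using hcon x)
  intro h0
  have h1 : eval ![x, x] (uni i A) = A.eval x := by
    fin_cases i
    · exact D5_eval0 A x x
    · exact D5_eval1 A x x
  rw [h0, map_zero] at h1
  exact hx h1.symm

private theorem D5_prod (i : Fin 2) {A : Polynomial ℂ} (hA : A.Monic) :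
    uni i A = (A.roots.map fun a => (X i - C a : MvPolynomial (Fin 2) ℂ)).prod := by
  conv_lhs => rw [(IsAlgClosed.splits A).eq_prod_roots_of_monic hA]
  rw [uni, map_multiset_prod, Multiset.map_map]
  congr 1
  refine Multiset.map_congr rfl fun a _ => ?_
  simp [MvPolynomial.algebraMap_eq]

private theorem D5_rel {A B : Polynomial ℂ} (hA : A.Monic) (hB : B.Monic) :
    IsRelPrime (uni 0 A) (uni 1 B) := by
  rw [UniqueFactorizationMonoid.isRelPrime_iff_no_prime_factors (D5_ne 0 hA.ne_zero)]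
  intro p h1 h2 hp
  rw [D5_prod 0 hA] at h1
  rw [D5_prod 1 hB] at h2
  obtain ⟨a, -, ha⟩ := hp.exists_mem_multiset_map_dvd h1
  obtain ⟨b, -, hb⟩ := hp.exists_mem_multiset_map_dvd h2
  exact D5_no_dvd hp.irreducible ha hb

theorem mem_abI_local {A B : Polynomial ℂ} (C : MvPolynomial (Fin 2) ℂ)
    (h : ∀ a b : ℂ, A.eval a = 0 → B.eval b = 0 →
      ∃ H : MvPolynomial (Fin 2) ℂ, eval ![a, b] H ≠ 0 ∧ H * C ∈ abI A B) : C ∈ abI A B := by
  let I : Ideal (MvPolynomial (Fin 2) ℂ) :=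
    { carrier := {H | H * C ∈ abI A B}
      add_mem' := by
        intro Q Q' h1 h2
        have h3 := (abI A B).add_mem h1 h2
        rw [← add_mul] at h3
        exact h3
      zero_mem' := by
        have h3 := (abI A B).zero_mem
        show (0 : MvPolynomial (Fin 2) ℂ) * C ∈ abI A B
        rw [zero_mul]; exact h3
      smul_mem' := by
        intro c Q hQ
        have h3 := (abI A B).mul_mem_left c hQ
        show c • Q * C ∈ abI A B
        rw [smul_eq_mul, mul_assoc]; exact h3 }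
  obtain ⟨N, hN⟩ := D5_nss I 1 (by
    intro a b hI
    exfalso
    have hA0 : uni 0 A ∈ abI A B := Ideal.subset_span (by simp)
    have hB0 : uni 1 B ∈ abI A B := Ideal.subset_span (by simp)
    have h1 : uni 0 A ∈ I := (abI A B).mul_mem_right C hA0
    have h2 : uni 1 B ∈ I := (abI A B).mul_mem_right C hB0
    have h3 := hI _ h1
    have h4 := hI _ h2
    rw [D5_eval0] at h3
    rw [D5_eval1] at h4
    obtain ⟨H, hH, hHC⟩ := h a b h3 h4
    exact hH (hI H hHC))
  rw [one_pow] at hN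
  have h5 : (1 : MvPolynomial (Fin 2) ℂ) * C ∈ abI A B := hN
  rwa [one_mul] at h5

theorem abI_cancel {A B : Polynomial ℂ} (hA : A.Monic) (hB : B.Monic) {r j : ℕ}
    {C : MvPolynomial (Fin 2) ℂ}
    (h : (uni 0 A * uni 1 B) ^ j * C ∈ abI (A ^ (r + j)) (B ^ (r + j))) :
    C ∈ abI (A ^ r) (B ^ r) := by
  have hrel := D5_rel hA hB
  rw [abI, Ideal.mem_span_pair] at h
  obtain ⟨u, v, huv⟩ := h
  rw [D5_pow, D5_pow] at huv
  have hA0 := D5_ne 0 hA.ne_zero
  have hB0 := D5_ne 1 hB.ne_zero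
  set a := uni 0 A with ha
  set b := uni 1 B with hb
  have h1 : b ^ j ∣ u * a ^ (r + j) := by
    refine ⟨a ^ j * C - v * b ^ r, ?_⟩
    have : u * a ^ (r + j) = (a * b) ^ j * C - v * b ^ (r + j) := by rw [← huv]; ring
    rw [this]; ring
  have h2 : a ^ j ∣ v * b ^ (r + j) := by
    refine ⟨b ^ j * C - u * a ^ r, ?_⟩
    have : v * b ^ (r + j) = (a * b) ^ j * C - u * a ^ (r + j) := by rw [← huv]; ring
    rw [this]; ring
  obtain ⟨u', hu'⟩ : b ^ j ∣ u := (hrel.symm.pow (m := j) (n := r + j)).dvd_of_dvd_mul_right h1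
  obtain ⟨v', hv'⟩ : a ^ j ∣ v := (hrel.pow (m := j) (n := r + j)).dvd_of_dvd_mul_right h2
  rw [abI, Ideal.mem_span_pair]
  refine ⟨u', v', ?_⟩
  rw [D5_pow, D5_pow, ← ha, ← hb]
  have h3 : (a * b) ^ j * (u' * a ^ r + v' * b ^ r) = (a * b) ^ j * C := by
    rw [← huv, hu', hv']; ring
  exact mul_left_cancel₀ (pow_ne_zero _ (mul_ne_zero hA0 hB0)) h3

theorem triv_local {s t : Fn} (hc : Coord s t) {A B : Polynomial ℂ} (hA : A.Monic) (hB : B.Monic)
    {r N : ℕ} {f f1 f2 : Fn} {C H P1 P2 : MvPolynomial (Fin 2) ℂ}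
    (hf : f * psi s t (uni 0 (A ^ r) * uni 1 (B ^ r)) = psi s t C) (h12 : f = f1 - f2)
    (h1 : f1 * psi s t ((uni 0 A * H) ^ N) = psi s t P1)
    (h2 : f2 * psi s t ((uni 1 B * H) ^ N) = psi s t P2) :
    ∃ N' : ℕ, H ^ N' * C ∈ abI (A ^ r) (B ^ r) := by
  have hA0 := D5_ne 0 hA.ne_zero
  have hB0 := D5_ne 1 hB.ne_zero
  rw [D5_pow, D5_pow] at hf
  refine ⟨N + r, abI_cancel hA hB (j := N) ?_⟩
  rw [abI, Ideal.mem_span_pair]
  refine ⟨-(P2 * (uni 1 B * H) ^ r), P1 * (uni 0 A * H) ^ r, ?_⟩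
  rw [D5_pow, D5_pow]
  set a := uni 0 A with ha
  set b := uni 1 B with hb
  -- the relation in the polynomial ring
  have h3 : C * (a * b * H) ^ (N + r)
      = a ^ r * b ^ r * (P1 * (a * H) ^ r * b ^ (N + r) - P2 * (b * H) ^ r * a ^ (N + r)) := by
    have h4 : psi s t (C * (a * b * H) ^ (N + r)
      - a ^ r * b ^ r * (P1 * (a * H) ^ r * b ^ (N + r) - P2 * (b * H) ^ r * a ^ (N + r))) = 0 := by
      simp only [map_sub, map_mul, map_pow] at hf h1 h2 ⊢
      rw [← hf, ← h1, ← h2, h12]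
      ring
    exact sub_eq_zero.1 (hc.inj _ h4)
  have h5 : (a ^ r * b ^ r) * (-(P2 * (b * H) ^ r) * a ^ (r + N) + P1 * (a * H) ^ r * b ^ (r + N))
      = (a ^ r * b ^ r) * ((a * b) ^ N * (H ^ (N + r) * C)) := by
    have h6 : (a ^ r * b ^ r) * ((a * b) ^ N * (H ^ (N + r) * C)) = C * (a * b * H) ^ (N + r) := by
      rw [mul_pow (a * b) H, mul_pow a b (N + r), pow_add a, pow_add b, mul_pow a b N]; ring
    rw [h6, h3, add_comm r N]; ring
  exact mul_left_cancel₀ (mul_ne_zero (pow_ne_zero _ hA0) (pow_ne_zero _ hB0)) h5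

end HKR
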