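import Pool.Agent.Lib.HKR.D4
import Pool.Agent.Lib.HKR.D5
/-!
HKR.D6 (extra zeros).  y0 not multiple, lz(y0.q) ≠ 0, coordinates (a0,b0).  eA, eB represent the family on
UQ lx, UQ ly.  (eA - eB) lz^D psi(A^r B^r) = psi C.  Then some H with H(a0,b0) ≠ 0 has H C ∈ abI (A^r) (B^r).
PROOF.  LC at y0: T; rloc_open: H0 with H0(a0,b0) ≠ 0 such that all of T is RLoc on D(H0).  H := H0 * (a
polynomial nonzero at (a0,b0) and zero at all points (lx q, ly q), q ∈ Q; product over q of X - lx q or Y - ly q),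
so points of the plane lz ≠ 0 in D(H) are not multiple (nz, memQ) and T is regular there.  f1 := (eA - e y0) lz^D,
f2 := (eB - e y0) lz^D.  At (a,b) with A(a) H(a,b) ≠ 0 the point y (q = e_z + a e_x + b e_y) is in UQ lx and
eA - e y, e y - e y0 are sections: f1 is RLoc.  rloc_inter for A(x) H: f1 psi((A H)^N) = psi P1; same f2
with B (take the same N).  triv_local.
-/
open MvPolynomial
namespace HKR
variable {k : ℕ} {L : Fin k → Fin 3 → ℂ} {lx ly lz : Fin 3 → ℂ} {Q : Finset (Fin 3 → ℂ)}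

private theorem d6_q_ne (y : Pt) : y.q ≠ 0 := by
  have := y.ind.ne_zero 0
  simpa using this

private theorem d6_vec (h : LinearIndependent ℂ ![lx, ly, lz]) :
    IsUnit (Matrix.of ![lx, ly, lz]) :=
  Matrix.linearIndependent_rows_iff_isUnit.1 h

private theorem d6_inj (h : LinearIndependent ℂ ![lx, ly, lz]) {p q : Fin 3 → ℂ}
    (hx : lx ⬝ᵥ p = lx ⬝ᵥ q) (hy : ly ⬝ᵥ p = ly ⬝ᵥ q) (hz : lz ⬝ᵥ p = lz ⬝ᵥ q) : p = q := by
  have h2 := d6_vec h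
  have h3 : (Matrix.of ![lx, ly, lz]).mulVec p = (Matrix.of ![lx, ly, lz]).mulVec q := by
    ext i
    fin_cases i
    · exact hx
    · exact hy
    · exact hz
  have h4 := congrArg (fun v => (Matrix.of ![lx, ly, lz])⁻¹.mulVec v) h3
  simp only [Matrix.mulVec_mulVec, Matrix.nonsing_inv_mul _ ((Matrix.isUnit_iff_isUnit_det _).1 h2),
    Matrix.one_mulVec] at h4
  exact h4

private theorem d6_pt (h : LinearIndependent ℂ ![lx, ly, lz]) (a b : ℂ) :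
    ∃ y : Pt, lx ⬝ᵥ y.q = a ∧ ly ⬝ᵥ y.q = b ∧ lz ⬝ᵥ y.q = 1 := by
  have h2 := d6_vec h
  have h3 : (Matrix.of ![lx, ly, lz]).mulVec
      ((Matrix.of ![lx, ly, lz])⁻¹.mulVec ![a, b, 1]) = ![a, b, 1] := by
    rw [Matrix.mulVec_mulVec, Matrix.mul_nonsing_inv _ ((Matrix.isUnit_iff_isUnit_det _).1 h2),
      Matrix.one_mulVec]
  set q := (Matrix.of ![lx, ly, lz])⁻¹.mulVec ![a, b, 1] with hqdef
  have h4 : lz ⬝ᵥ q = 1 := congrFun h3 2
  have hq : q ≠ 0 := by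
    intro h0
    rw [h0, dotProduct_zero] at h4
    exact zero_ne_one h4
  have hr : 1 < Module.finrank ℂ (Fin 3 → ℂ) := by simp
  obtain ⟨w, hw⟩ := exists_linearIndependent_pair_of_one_lt_finrank hr hq
  exact ⟨⟨q, w, hw⟩, congrFun h3 0, congrFun h3 1, h4⟩

private theorem d6_mult_smul {L : Fin k → Fin 3 → ℂ} {q : Fin 3 → ℂ} (c : ℂ)
    (hm : Multiple L q) : Multiple L (c • q) := by
  obtain ⟨a, b, d, h1, h2, h3, h4, h5, h6⟩ := hm
  exact ⟨a, b, d, h1, h2, h3, by rw [dotProduct_smul, h4, smul_zero],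
    by rw [dotProduct_smul, h5, smul_zero], by rw [dotProduct_smul, h6, smul_zero]⟩

private theorem d6_eval_uni (a b : ℂ) (A : Polynomial ℂ) (i : Fin 2) :
    eval ![a, b] (uni i A) = A.eval (![a, b] i) := by
  unfold uni
  have h := Polynomial.aeval_algHom_apply (MvPolynomial.aeval ![a, b] : MvPolynomial (Fin 2) ℂ →ₐ[ℂ] ℂ)
    (X i) A
  rw [aeval_X] at h
  rw [← MvPolynomial.coe_aeval_eq_eval]
  simp only [RingHom.coe_coe]
  rw [← h]
  rfl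

private theorem d6_eval_PQ {l : Fin 3 → ℂ} (a : ℂ) (h : (PQ l Q).eval a ≠ 0) :
    ∀ q ∈ Q, a ≠ l ⬝ᵥ q := by
  intro q hq ha
  apply h
  rw [PQ, Polynomial.eval_prod]
  exact Finset.prod_eq_zero hq (by simp [ha])

private theorem d6_monic (l : Fin 3 → ℂ) : (PQ l Q).Monic :=
  Polynomial.monic_prod_of_monic _ _ fun _ _ => Polynomial.monic_X_sub_C _

/-- for a section of `O(-D)` at a nonmultiple point, with `lz = 1` -/
private theorem d6_sect (h : LinearIndependent ℂ ![lx, ly, lz]) {D : ℕ} {m : Finset (Fin k) → ℤ}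
    {f : Fn} {a b : ℂ} {y : Pt} (h1 : lx ⬝ᵥ y.q = a) (h2 : ly ⬝ᵥ y.q = b) (h3 : lz ⬝ᵥ y.q = 1)
    (hnm : ¬ Multiple L y.q) (hs : Sect L D m y f) :
    RLoc (fl lx / fl lz) (fl ly / fl lz) a b (f * fl lz ^ D) := by
  obtain ⟨lam, sig, tau, -, -, hs1, hs2, -⟩ := exists_forms y
  have hz : lz ⬝ᵥ y.q ≠ 0 := by rw [h3]; exact one_ne_zero
  rw [sect_iff hz hs1 (by rw [hs2]; exact one_ne_zero)] at hs
  have hmu : muq L m y = 0 := by
    unfold muq; rw [if_neg hnm]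
  rw [hmu, sub_zero, zpow_zero, mul_one, zpow_natCast, regP h hz hnm, h1, h2, h3, div_one,
    div_one] at hs
  exact hs

theorem extra_zero (hX : Ctx L lx ly lz Q) {D : ℕ} {m : Finset (Fin k) → ℤ} (e : Pt → Fn)
    (he : LC L (Sect L D m) e) {eA eB : Fn} (hA : ∀ y, UQ lx lz Q y → Sect L D m y (eA - e y))
    (hB : ∀ y, UQ ly lz Q y → Sect L D m y (eB - e y)) {r : ℕ} {C : MvPolynomial (Fin 2) ℂ}
    (hf : (eA - eB) * fl lz ^ D * psi (fl lx / fl lz) (fl ly / fl lz)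
        (uni 0 (PQ lx Q ^ r) * uni 1 (PQ ly Q ^ r)) = psi (fl lx / fl lz) (fl ly / fl lz) C)
    (y0 : Pt) (hz : lz ⬝ᵥ y0.q ≠ 0) (hm : ¬ Multiple L y0.q) :
    ∃ H : MvPolynomial (Fin 2) ℂ,
      eval ![lx ⬝ᵥ y0.q / lz ⬝ᵥ y0.q, ly ⬝ᵥ y0.q / lz ⬝ᵥ y0.q] H ≠ 0 ∧
      H * C ∈ abI (PQ lx Q ^ r) (PQ ly Q ^ r) := by
  classical
  have hc := coordP hX.ind
  have hz' : (lz ⬝ᵥ y0.q)⁻¹ * (lz ⬝ᵥ y0.q) = 1 := inv_mul_cancel₀ hz
  -- the neighbourhood of `y0`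
  obtain ⟨T, hT1, hT2⟩ := he y0
  obtain ⟨H0, hH0, hH0'⟩ := rloc_open T fun f hf => (regP hX.ind hz hm f).1 (hT1 f hf)
  set a0 := lx ⬝ᵥ y0.q / lz ⬝ᵥ y0.q with ha0
  set b0 := ly ⬝ᵥ y0.q / lz ⬝ᵥ y0.q with hb0
  have hsep : ∀ q ∈ Q, a0 ≠ lx ⬝ᵥ q ∨ b0 ≠ ly ⬝ᵥ q := by
    intro q hq
    by_contra hcon
    push Not at hcon
    obtain ⟨hc1, hc2⟩ := hcon
    have hq' := (hX.memQ q).1 hq
    have h1 : (lz ⬝ᵥ y0.q)⁻¹ • y0.q = q := by
      apply d6_inj hX.ind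
      · rw [dotProduct_smul, smul_eq_mul, ← hc1, ha0, div_eq_inv_mul]
      · rw [dotProduct_smul, smul_eq_mul, ← hc2, hb0, div_eq_inv_mul]
      · rw [dotProduct_smul, smul_eq_mul, hz', hq'.2]
    apply hm
    have h2 := d6_mult_smul (lz ⬝ᵥ y0.q) hq'.1
    rw [← h1, smul_smul, mul_inv_cancel₀ hz, one_smul] at h2
    exact h2
  let g : (Fin 3 → ℂ) → MvPolynomial (Fin 2) ℂ := fun q =>
    if a0 ≠ lx ⬝ᵥ q then X 0 - MvPolynomial.C (lx ⬝ᵥ q) else X 1 - MvPolynomial.C (ly ⬝ᵥ q)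
  have hg1 : ∀ q ∈ Q, eval ![a0, b0] (g q) ≠ 0 := by
    intro q hq
    by_cases h1 : a0 ≠ lx ⬝ᵥ q
    · simp only [g, if_pos h1, map_sub, eval_X, eval_C, Matrix.cons_val_zero]
      exact sub_ne_zero.2 h1
    · simp only [g, if_neg h1, map_sub, eval_X, eval_C, Matrix.cons_val_one, Matrix.cons_val_zero]
      exact sub_ne_zero.2 ((hsep q hq).resolve_left h1)
  have hg2 : ∀ q, eval ![lx ⬝ᵥ q, ly ⬝ᵥ q] (g q) = 0 := by
    intro q
    by_cases h1 : a0 ≠ lx ⬝ᵥ q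
    · simp only [g, if_pos h1, map_sub, eval_X, eval_C, Matrix.cons_val_zero]
      exact sub_self _
    · simp only [g, if_neg h1, map_sub, eval_X, eval_C, Matrix.cons_val_one, Matrix.cons_val_zero]
      exact sub_self _
  let H := H0 * ∏ q ∈ Q, g q
  have hH : eval ![a0, b0] H ≠ 0 := by
    simp only [H, map_mul, map_prod]
    exact mul_ne_zero hH0 (Finset.prod_ne_zero_iff.2 hg1)
  -- the points of `D(H)`
  have hpt : ∀ a b, eval ![a, b] H ≠ 0 → ∃ y : Pt, lx ⬝ᵥ y.q = a ∧ ly ⬝ᵥ y.q = b ∧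
      lz ⬝ᵥ y.q = 1 ∧ ¬ Multiple L y.q ∧ Sect L D m y (e y - e y0) := by
    intro a b hab
    simp only [H, map_mul, map_prod] at hab
    obtain ⟨y, h1, h2, h3⟩ := d6_pt hX.ind a b
    have hnm : ¬ Multiple L y.q := by
      intro hmy
      have hyQ : y.q ∈ Q := (hX.memQ y.q).2 ⟨hmy, h3⟩
      have h4 := Finset.prod_ne_zero_iff.1 (right_ne_zero_of_mul hab) y.q hyQ
      rw [← h1, ← h2] at h4
      exact h4 (hg2 y.q)
    refine ⟨y, h1, h2, h3, hnm, hT2 y fun f hf => ?_⟩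
    have hz1 : lz ⬝ᵥ y.q ≠ 0 := by rw [h3]; exact one_ne_zero
    rw [regP hX.ind hz1 hnm, h1, h2, h3, div_one, div_one]
    exact hH0' a b (left_ne_zero_of_mul hab) f hf
  -- the two functions
  have hI1 : ∀ a b, eval ![a, b] (uni 0 (PQ lx Q) * H) ≠ 0 →
      RLoc (fl lx / fl lz) (fl ly / fl lz) a b ((eA - e y0) * fl lz ^ D) := by
    intro a b hab
    rw [map_mul, d6_eval_uni] at hab
    obtain ⟨y, h1, h2, h3, hnm, hs⟩ := hpt a b (right_ne_zero_of_mul hab)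
    have hU : UQ lx lz Q y := by
      intro q hq
      rw [h1, h3, mul_one]
      exact d6_eval_PQ a (left_ne_zero_of_mul hab) q hq
    have h4 := (hA y hU).add hs
    rw [sub_add_sub_cancel] at h4
    exact d6_sect hX.ind h1 h2 h3 hnm h4
  have hI2 : ∀ a b, eval ![a, b] (uni 1 (PQ ly Q) * H) ≠ 0 →
      RLoc (fl lx / fl lz) (fl ly / fl lz) a b ((eB - e y0) * fl lz ^ D) := by
    intro a b hab
    rw [map_mul, d6_eval_uni] at hab
    obtain ⟨y, h1, h2, h3, hnm, hs⟩ := hpt a b (right_ne_zero_of_mul hab)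
    have hU : UQ ly lz Q y := by
      intro q hq
      rw [h2, h3, mul_one]
      exact d6_eval_PQ b (left_ne_zero_of_mul hab) q hq
    have h4 := (hB y hU).add hs
    rw [sub_add_sub_cancel] at h4
    exact d6_sect hX.ind h1 h2 h3 hnm h4
  obtain ⟨N1, P1, hP1⟩ := rloc_inter hc _ _ hI1
  obtain ⟨N2, P2, hP2⟩ := rloc_inter hc _ _ hI2
  have hP1' : (eA - e y0) * fl lz ^ D * psi (fl lx / fl lz) (fl ly / fl lz)
      ((uni 0 (PQ lx Q) * H) ^ (N1 + N2)) =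
      psi (fl lx / fl lz) (fl ly / fl lz) (P1 * (uni 0 (PQ lx Q) * H) ^ N2) := by
    rw [pow_add, map_mul (psi _ _) ((uni 0 (PQ lx Q) * H) ^ N1), ← mul_assoc, hP1,
      map_mul (psi _ _) P1]
  have hP2' : (eB - e y0) * fl lz ^ D * psi (fl lx / fl lz) (fl ly / fl lz)
      ((uni 1 (PQ ly Q) * H) ^ (N1 + N2)) =
      psi (fl lx / fl lz) (fl ly / fl lz) (P2 * (uni 1 (PQ ly Q) * H) ^ N1) := by
    rw [add_comm N1 N2, pow_add, map_mul (psi _ _) ((uni 1 (PQ ly Q) * H) ^ N2), ← mul_assoc, hP2,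
      map_mul (psi _ _) P2]
  obtain ⟨N', hN'⟩ := triv_local hc (d6_monic lx) (d6_monic ly) hf
    (f1 := (eA - e y0) * fl lz ^ D) (f2 := (eB - e y0) * fl lz ^ D) (by ring) hP1' hP2'
  exact ⟨H ^ N', by rw [map_pow]; exact pow_ne_zero _ hH, hN'⟩

end HKR
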