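import Pool.Agent.Lib.HKR.D4
import Pool.Agent.Lib.HKR.D5
/-!
HKR.D7 (local condition at a multiple point q0 ∈ Q, multiplicity m0 = m (SS L q0) ≥ 0).
Claim: for h ∈ pI (lx q0, ly q0)^(m0 - 1) some H with H ≠ 0 at (lx q0, ly q0) has H (C h) ∈ abI (A^r) (B^r).
NOTATION.  x0 = lx q0, y0 = ly q0; lx' = lx - x0 lz, ly' = ly - y0 lz; X = fl lx'/fl lz, Y = fl ly'/fl lz.
G1 := ∏_{q ∈ Q, lx q ≠ x0} (T - (lx q - x0)), G2 same with ly.  chart_blow for (lx',ly',lz,q0,G1): e1, valid on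
  V1 = {lz ≠ 0, X ≠ 0, G1(X) ≠ 0} ∪ {directions w at q0 with lx'(w) ≠ 0}; chart_blow for (ly',lx',lz,q0,G2): e2 on V2.
  (Points of V1 with X ≠ 0 are not multiple: a multiple q has lx' q/lz q = lx q1 - x0 for q1 ∈ Q, nonzero only
  if a root of G1.)
(1) split: g := (e1 - e2) lz^D.  At points (a,b) of the chart s = X, t = Y/X with G1(a) ≠ 0, b ≠ 0, G2(ab) ≠ 0 the
  function g X^m0 is RLoc (point in V1 ∩ V2; at a = 0 use sections at q0 in direction e_x + b e_y, multiplicity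
  m0; at a ≠ 0 X is a unit).  rloc_inter: g X^m0 (G1(X) G2(Y) Y/X)^N = P(X, Y/X).  So with G := G1(X) G2(Y)
  (as polynomial: G1(x - x0) G2(y - y0)):  g G^N = Σ c_ij X^(i-m0-j+N) Y^(j-N), a finite sum of c X^α Y^β with
  α + β ≥ -m0 (integers exponents).
(2) h = Σ of monomials X^a Y^b, a + b ≥ m0 - 1 (truncated), so h g G^N = Σ c X^α Y^β with α + β ≥ -m0 and
  α + β ≥ -1; so β ≥ 0 or α ≥ 0.  T1 := the part β ≥ 0, T2 := the part β < 0 (α ≥ 0 there).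
  T1 X^m0 is a polynomial in X, Y/X; T2 Y^m0 is a polynomial in Y, X/Y.
(3) e' := G^N h e1 - T1 lz^(-D) = G^N h e2 + T2 lz^(-D).  So e' - G^N h e_y is a section at all y ∈ V1 and at all
  y ∈ V2.  A point (a,b) of the plane lz ≠ 0 with A(a) G(a,b) ≠ 0 is in UQ lx ∩ V1 (a ≠ x0 since A(x0) = 0), so
  f1 := (G^N h eA - e') lz^D is RLoc there; (a,b) with B(b) G(a,b) ≠ 0 is in UQ ly ∩ V2:
  f2 := (G^N h eB - e') lz^D is RLoc.  rloc_inter, triv_local applied to f1 - f2 = G^N h (eA - eB) lz^D and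
  C G^N h:  G^N' C G^N h ∈ abI.  H := G^(N+N').
-/
open MvPolynomial
namespace HKR
variable {k : ℕ} {L : Fin k → Fin 3 → ℂ} {lx ly lz : Fin 3 → ℂ} {Q : Finset (Fin 3 → ℂ)}

/-! ### linear algebra -/

private theorem d7_vec (h : LinearIndependent ℂ ![lx, ly, lz]) (a b c : ℂ) :
    ∃ q : Fin 3 → ℂ, lx ⬝ᵥ q = a ∧ ly ⬝ᵥ q = b ∧ lz ⬝ᵥ q = c := by
  have h2 : IsUnit (Matrix.of ![lx, ly, lz]) :=
    Matrix.linearIndependent_rows_iff_isUnit.1 h
  have h3 : (Matrix.of ![lx, ly, lz]).mulVec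
      ((Matrix.of ![lx, ly, lz])⁻¹.mulVec ![a, b, c]) = ![a, b, c] := by
    rw [Matrix.mulVec_mulVec, Matrix.mul_nonsing_inv _ ((Matrix.isUnit_iff_isUnit_det _).1 h2),
      Matrix.one_mulVec]
  refine ⟨(Matrix.of ![lx, ly, lz])⁻¹.mulVec ![a, b, c], ?_, ?_, ?_⟩
  · exact congrFun h3 0
  · exact congrFun h3 1
  · exact congrFun h3 2

private theorem d7_pt (h : LinearIndependent ℂ ![lx, ly, lz]) (a b c : ℂ)
    (h0 : a ≠ 0 ∨ b ≠ 0 ∨ c ≠ 0) :
    ∃ y : Pt, lx ⬝ᵥ y.q = a ∧ ly ⬝ᵥ y.q = b ∧ lz ⬝ᵥ y.q = c := by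
  obtain ⟨q, h1, h2, h3⟩ := d7_vec h a b c
  have hq : q ≠ 0 := by
    rintro rfl
    simp only [dotProduct_zero] at h1 h2 h3
    rcases h0 with h0 | h0 | h0
    · exact h0 h1.symm
    · exact h0 h2.symm
    · exact h0 h3.symm
  have hr : 1 < Module.finrank ℂ (Fin 3 → ℂ) := by simp
  obtain ⟨w, hw⟩ := exists_linearIndependent_pair_of_one_lt_finrank hr hq
  exact ⟨⟨q, w, hw⟩, h1, h2, h3⟩

private theorem d7_q_ne (y : Pt) : y.q ≠ 0 := by
  have := y.ind.ne_zero 0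
  simpa using this

private theorem d7_ind_iff {a b c : Fin 3 → ℂ} : LinearIndependent ℂ ![a, b, c] ↔
    ∀ x y z : ℂ, x • a + y • b + z • c = 0 → x = 0 ∧ y = 0 ∧ z = 0 := by
  rw [Fintype.linearIndependent_iff]
  constructor
  · intro h x y z hxyz
    have h1 := h ![x, y, z] (by simpa [Fin.sum_univ_three] using hxyz)
    exact ⟨h1 0, h1 1, h1 2⟩
  · intro h g hg i
    have h1 := h (g 0) (g 1) (g 2) (by simpa [Fin.sum_univ_three] using hg)
    fin_cases i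
    · exact h1.1
    · exact h1.2.1
    · exact h1.2.2

private theorem d7_shift (h : LinearIndependent ℂ ![lx, ly, lz]) (c d : ℂ) :
    LinearIndependent ℂ ![lx - c • lz, ly - d • lz, lz] := by
  rw [d7_ind_iff] at h ⊢
  intro x y z hxyz
  obtain ⟨h2, h3, h4⟩ := h x y (z - x * c - y * d) (by
    rw [← hxyz]; module)
  refine ⟨h2, h3, ?_⟩
  rw [h2, h3] at h4; simpa using h4

private theorem d7_swap (h : LinearIndependent ℂ ![lx, ly, lz]) :
    LinearIndependent ℂ ![ly, lx, lz] := by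
  rw [d7_ind_iff] at h ⊢
  intro x y z hxyz
  have h1 := h y x z (by
    rw [← hxyz]; module)
  exact ⟨h1.2.1, h1.1, h1.2.2⟩

private theorem d7_fl_sub (l l' : Fin 3 → ℂ) (c : ℂ) :
    fl (l - c • l') = fl l - algebraMap ℂ Fn c * fl l' := by
  have h1 : lin (l - c • l') = lin l - C c * lin l' := by
    simp only [lin, Pi.sub_apply, Pi.smul_apply, smul_eq_mul, map_sub, map_mul, sub_mul,
      Finset.sum_sub_distrib, Finset.mul_sum, mul_assoc]
  have h2 : aff (C c) = algebraMap ℂ Fn c := aff.commutes c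
  unfold fl
  rw [h1, map_sub, map_mul, h2]

/-! ### charts -/

open Classical in
private noncomputable def d7gq (l : Fin 3 → ℂ) (Q : Finset (Fin 3 → ℂ)) (q0 : Fin 3 → ℂ) :
    Polynomial ℂ :=
  ∏ q ∈ Q.filter (fun q => l ⬝ᵥ q ≠ l ⬝ᵥ q0), (Polynomial.X - Polynomial.C (l ⬝ᵥ q - l ⬝ᵥ q0))

private theorem d7gq_zero (l q0 : Fin 3 → ℂ) : (d7gq l Q q0).eval 0 ≠ 0 := by
  unfold d7gq
  rw [Polynomial.eval_prod, Finset.prod_ne_zero_iff]
  intro q hq
  rw [Finset.mem_filter] at hq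
  rw [Polynomial.eval_sub, Polynomial.eval_X, Polynomial.eval_C, zero_sub, neg_ne_zero,
    sub_ne_zero]
  exact hq.2

private theorem d7gq_nm (hX : Ctx L lx ly lz Q) {l q0 : Fin 3 → ℂ} {y : Pt}
    (hz : lz ⬝ᵥ y.q ≠ 0) (h1 : (l - (l ⬝ᵥ q0) • lz) ⬝ᵥ y.q ≠ 0)
    (h2 : (d7gq l Q q0).eval ((l - (l ⬝ᵥ q0) • lz) ⬝ᵥ y.q / lz ⬝ᵥ y.q) ≠ 0) :
    ¬ Multiple L y.q := by
  intro hm
  have hmem : (lz ⬝ᵥ y.q)⁻¹ • y.q ∈ Q := by
    rw [hX.memQ]
    constructor
    · obtain ⟨a, b, c, h1, h2, h3, h4, h5, h6⟩ := hm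
      exact ⟨a, b, c, h1, h2, h3, by rw [dotProduct_smul, h4, smul_zero],
        by rw [dotProduct_smul, h5, smul_zero], by rw [dotProduct_smul, h6, smul_zero]⟩
    · rw [dotProduct_smul, smul_eq_mul, inv_mul_cancel₀ hz]
  have e1 : (l - (l ⬝ᵥ q0) • lz) ⬝ᵥ y.q / lz ⬝ᵥ y.q =
      l ⬝ᵥ ((lz ⬝ᵥ y.q)⁻¹ • y.q) - l ⬝ᵥ q0 := by
    rw [dotProduct_smul, sub_dotProduct, smul_dotProduct, smul_eq_mul, smul_eq_mul]
    field_simp
  apply h2
  unfold d7gq
  rw [Polynomial.eval_prod]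
  refine Finset.prod_eq_zero (i := (lz ⬝ᵥ y.q)⁻¹ • y.q) ?_ ?_
  · rw [Finset.mem_filter]
    refine ⟨hmem, ?_⟩
    rw [← sub_ne_zero, ← e1]
    exact div_ne_zero h1 hz
  · rw [Polynomial.eval_sub, Polynomial.eval_X, Polynomial.eval_C, e1, sub_self]

private theorem d7_chart (hX : Ctx L lx ly lz Q) {l l' q0 : Fin 3 → ℂ}
    (hi : LinearIndependent ℂ ![l, l', lz]) (hq0 : q0 ∈ Q) {D : ℤ} {m : Finset (Fin k) → ℤ}
    (e : Pt → Fn) (he : LC L (Sect L D m) e) :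
    ∃ e0 : Fn,
      (∀ y : Pt, lz ⬝ᵥ y.q ≠ 0 → (l - (l ⬝ᵥ q0) • lz) ⬝ᵥ y.q ≠ 0 →
        (d7gq l Q q0).eval ((l - (l ⬝ᵥ q0) • lz) ⬝ᵥ y.q / lz ⬝ᵥ y.q) ≠ 0 →
        Sect L D m y (e0 - e y)) ∧
      (∀ y : Pt, y.q = q0 → (l - (l ⬝ᵥ q0) • lz) ⬝ᵥ y.w ≠ 0 → Sect L D m y (e0 - e y)) := by
  have h1 := (hX.memQ q0).1 hq0
  have hq0' : q0 ≠ 0 := by
    rintro rfl
    rw [dotProduct_zero] at h1
    exact zero_ne_one h1.2
  have h2 : ∀ l : Fin 3 → ℂ, (l - (l ⬝ᵥ q0) • lz) ⬝ᵥ q0 = 0 := by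
    intro l
    rw [sub_dotProduct, smul_dotProduct, h1.2, smul_eq_mul, mul_one, sub_self]
  obtain ⟨e0, h3, h4⟩ := chart_blow (d7_shift hi (l ⬝ᵥ q0) (l' ⬝ᵥ q0)) hX.cfg hq0' h1.1 (h2 l)
    (h2 l') (d7gq l Q q0) (d7gq_zero l q0) (fun y hz hy hG => d7gq_nm hX hz hy hG) e he
  refine ⟨e0, h3, ?_⟩
  intro y hy hw
  exact h4 y (by rw [hy]; exact h2 l) (by rw [hy]; exact h2 l') hw

private theorem d7_sect_plane {D : ℤ} {m : Finset (Fin k) → ℤ} {y : Pt} {f : Fn}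
    (hz : lz ⬝ᵥ y.q ≠ 0) (hm : ¬ Multiple L y.q) :
    Sect L D m y f ↔ Regular L y (f * fl lz ^ D) := by
  obtain ⟨lam, sig, tau, h1, h2, h3, h4, h5, h6, h7⟩ := exists_forms y
  rw [sect_iff hz h3 (by rw [h4]; exact one_ne_zero)]
  have h0 : muq L m y = 0 := by
    unfold muq
    rw [if_neg hm]
  rw [h0, sub_zero, zpow_zero, mul_one]

/-! ### the spaces spanned by monomials -/

private noncomputable def d7S (u v : Fn) (n : ℤ) : Submodule ℂ Fn :=
  Submodule.span ℂ {F | ∃ α β : ℤ, n ≤ α + β ∧ F = u ^ α * v ^ β}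

private theorem d7S_mem {u v : Fn} {n α β : ℤ} (h : n ≤ α + β) : u ^ α * v ^ β ∈ d7S u v n :=
  Submodule.subset_span ⟨α, β, h, rfl⟩

private theorem d7S_mul {u v : Fn} (hu : u ≠ 0) (hv : v ≠ 0) {n n' : ℤ} {F F' : Fn}
    (h : F ∈ d7S u v n) (h' : F' ∈ d7S u v n') : F * F' ∈ d7S u v (n + n') := by
  have h1 := Submodule.mul_mem_mul h h'
  unfold d7S at h1
  rw [Submodule.span_mul_span] at h1
  refine Submodule.span_mono ?_ h1
  rintro _ ⟨F, ⟨α, β, h1, rfl⟩, F', ⟨α', β', h2, rfl⟩, rfl⟩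
  refine ⟨α + α', β + β', by omega, ?_⟩
  rw [zpow_add₀ hu, zpow_add₀ hv]
  ring

private theorem d7S_mono {u v : Fn} {n n' : ℤ} (h : n' ≤ n) {F : Fn} (hF : F ∈ d7S u v n) :
    F ∈ d7S u v n' := by
  refine Submodule.span_mono ?_ hF
  rintro F ⟨α, β, h1, h2⟩
  exact ⟨α, β, by omega, h2⟩

private theorem d7S_one {u v : Fn} : (1 : Fn) ∈ d7S u v 0 := by
  have h := d7S_mem (u := u) (v := v) (n := 0) (α := 0) (β := 0) (by simp)
  simpa using h

private theorem d7S_alg {u v : Fn} (a : ℂ) : algebraMap ℂ Fn a ∈ d7S u v 0 := by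
  rw [Algebra.algebraMap_eq_smul_one]
  exact Submodule.smul_mem _ _ d7S_one

private theorem d7S_psi {u v : Fn} (hu : u ≠ 0) (hv : v ≠ 0) {s t : Fn} (hs : s ∈ d7S u v 0)
    (ht : t ∈ d7S u v 0) (P : MvPolynomial (Fin 2) ℂ) : psi s t P ∈ d7S u v 0 := by
  induction P using MvPolynomial.induction_on with
  | C a =>
    have h1 : psi s t (C a) = algebraMap ℂ Fn a := (psi s t).commutes a
    rw [h1]
    exact d7S_alg a
  | add p q hp hq => rw [map_add]; exact Submodule.add_mem _ hp hq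
  | mul_X p i hp =>
    rw [map_mul]
    have h1 : psi s t (X i) ∈ d7S u v 0 := by
      fin_cases i
      · simpa [psi] using hs
      · simpa [psi] using ht
    have h2 := d7S_mul hu hv hp h1
    rwa [add_zero] at h2

private theorem d7S_pI {u v : Fn} (hu : u ≠ 0) (hv : v ≠ 0) {s t : Fn} {a b : ℂ}
    (hs : s - algebraMap ℂ Fn a = u) (ht : t - algebraMap ℂ Fn b = v) (n : ℕ) :
    ∀ P ∈ pI ![a, b] ^ n, psi s t P ∈ d7S u v n := by
  have hu1 : u ∈ d7S u v 1 := by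
    have h := d7S_mem (u := u) (v := v) (n := 1) (α := 1) (β := 0) (by simp)
    simpa using h
  have hv1 : v ∈ d7S u v 1 := by
    have h := d7S_mem (u := u) (v := v) (n := 1) (α := 0) (β := 1) (by simp)
    simpa using h
  have hs0 : s ∈ d7S u v 0 := by
    rw [← sub_add_cancel s (algebraMap ℂ Fn a), hs]
    exact Submodule.add_mem _ (d7S_mono (by norm_num) hu1) (d7S_alg a)
  have ht0 : t ∈ d7S u v 0 := by
    rw [← sub_add_cancel t (algebraMap ℂ Fn b), ht]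
    exact Submodule.add_mem _ (d7S_mono (by norm_num) hv1) (d7S_alg b)
  have h1 : ∀ P ∈ pI ![a, b], psi s t P ∈ d7S u v 1 := by
    intro P hP
    unfold pI at hP
    induction hP using Submodule.span_induction with
    | mem x hx =>
      rcases hx with rfl | hx
      · have e1 : psi s t (X 0 - C (![a, b] 0)) = u := by
          rw [map_sub, ← hs]
          congr 1
          · simp [psi]
          · exact (psi s t).commutes a
        rw [e1]; exact hu1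
      · rw [Set.mem_singleton_iff] at hx
        subst hx
        have e1 : psi s t (X 1 - C (![a, b] 1)) = v := by
          rw [map_sub, ← ht]
          congr 1
          · simp [psi]
          · exact (psi s t).commutes b
        rw [e1]; exact hv1
    | zero => rw [map_zero]; exact Submodule.zero_mem _
    | add x y _ _ hx hy => rw [map_add]; exact Submodule.add_mem _ hx hy
    | smul c x _ hx =>
      rw [smul_eq_mul, map_mul]
      have h2 := d7S_mul hu hv (d7S_psi hu hv hs0 ht0 c) hx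
      rwa [zero_add] at h2
  induction n with
  | zero => intro P _; exact_mod_cast d7S_psi hu hv hs0 ht0 P
  | succ n ih =>
    intro P hP
    rw [pow_succ] at hP
    induction hP using Submodule.mul_induction_on' with
    | mem_mul_mem p hp q hq =>
      rw [map_mul]
      have h2 := d7S_mul hu hv (ih p hp) (h1 q hq)
      exact_mod_cast h2
    | add x _ y _ hx hy => rw [map_add]; exact Submodule.add_mem _ hx hy

private theorem d7_rloc_zpow {s t : Fn} (hc : Coord s t) {a b : ℂ} {P : MvPolynomial (Fin 2) ℂ}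
    (hP : eval ![a, b] P ≠ 0) (n : ℤ) : RLoc s t a b (psi s t P ^ n) := by
  rcases n with n | n
  · rw [Int.ofNat_eq_natCast, zpow_natCast, ← map_pow]
    exact RLoc.psi _ _ _
  · rw [zpow_negSucc, ← map_pow]
    exact RLoc.inv_psi hc (by rw [map_pow]; exact pow_ne_zero _ hP)

private theorem d7_split {u v s t : Fn} (hc : Coord s t) {a0 b0 : ℂ}
    (hs : s - algebraMap ℂ Fn a0 = u) (ht : t - algebraMap ℂ Fn b0 = v) {F : Fn}
    (hF : F ∈ d7S u v (-1)) :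
    ∃ T1 T2 : Fn, F = T1 + T2 ∧ (∀ a b, a ≠ a0 → RLoc s t a b T1) ∧
      (∀ a b, b ≠ b0 → RLoc s t a b T2) := by
  have e1 : psi s t (X 0 - C a0) = u := by
    rw [map_sub, ← hs]
    congr 1
    · simp [psi]
    · exact (psi s t).commutes a0
  have e2 : psi s t (X 1 - C b0) = v := by
    rw [map_sub, ← ht]
    congr 1
    · simp [psi]
    · exact (psi s t).commutes b0
  unfold d7S at hF
  induction hF using Submodule.span_induction with
  | mem x hx =>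
    obtain ⟨α, β, h1, rfl⟩ := hx
    by_cases hβ : 0 ≤ β
    · obtain ⟨n, rfl⟩ := Int.eq_ofNat_of_zero_le hβ
      refine ⟨u ^ α * v ^ (n : ℤ), 0, (add_zero _).symm, ?_, ?_⟩
      · intro a b ha
        refine RLoc.mul ?_ ?_
        · rw [← e1]
          exact d7_rloc_zpow hc (by simpa [sub_ne_zero] using ha) _
        · rw [← e2, zpow_natCast, ← map_pow]
          exact RLoc.psi _ _ _
      · intro a b _
        have := RLoc.psi (s := s) (t := t) a b 0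
        rwa [map_zero] at this
    · obtain ⟨n, rfl⟩ := Int.eq_ofNat_of_zero_le (show 0 ≤ α by omega)
      refine ⟨0, u ^ (n : ℤ) * v ^ β, (zero_add _).symm, ?_, ?_⟩
      · intro a b _
        have := RLoc.psi (s := s) (t := t) a b 0
        rwa [map_zero] at this
      · intro a b hb
        refine RLoc.mul ?_ ?_
        · rw [← e1, zpow_natCast, ← map_pow]
          exact RLoc.psi _ _ _
        · rw [← e2]
          exact d7_rloc_zpow hc (by simpa [sub_ne_zero] using hb) _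
  | zero =>
    have h0 : ∀ a b, RLoc s t a b (0 : Fn) := by
      intro a b
      have := RLoc.psi (s := s) (t := t) a b 0
      rwa [map_zero] at this
    exact ⟨0, 0, (add_zero _).symm, fun a b _ => h0 a b, fun a b _ => h0 a b⟩
  | add x y _ _ hx hy =>
    obtain ⟨T1, T2, h1, h2, h3⟩ := hx
    obtain ⟨T1', T2', h1', h2', h3'⟩ := hy
    refine ⟨T1 + T1', T2 + T2', by rw [h1, h1']; ring, fun a b ha => (h2 a b ha).add (h2' a b ha),
      fun a b hb => (h3 a b hb).add (h3' a b hb)⟩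
  | smul c x _ hx =>
    obtain ⟨T1, T2, h1, h2, h3⟩ := hx
    have h4 : ∀ a b, RLoc s t a b (algebraMap ℂ Fn c) := by
      intro a b
      have h5 := RLoc.psi (s := s) (t := t) a b (C c)
      have h6 : psi s t (C c) = algebraMap ℂ Fn c := (psi s t).commutes c
      rwa [h6] at h5
    refine ⟨algebraMap ℂ Fn c * T1, algebraMap ℂ Fn c * T2, ?_, fun a b ha => (h4 a b).mul (h2 a b ha),
      fun a b hb => (h4 a b).mul (h3 a b hb)⟩
    rw [h1, Algebra.smul_def, mul_add]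

/-! ### the difference of the two charts at `q0` -/

private theorem d7_key {l1 l2 : Fin 3 → ℂ} (hi : LinearIndependent ℂ ![l1, l2, lz])
    {q0 : Fin 3 → ℂ} (h1 : l1 ⬝ᵥ q0 = 0) (h2 : l2 ⬝ᵥ q0 = 0) (hz : lz ⬝ᵥ q0 = 1)
    (hq0 : Multiple L q0) {D : ℤ} {m : Finset (Fin k) → ℤ} (hm : 0 ≤ m (SS L q0))
    (G1 G2 : Polynomial ℂ)
    (hG : ∀ y : Pt, lz ⬝ᵥ y.q ≠ 0 → l1 ⬝ᵥ y.q ≠ 0 → G1.eval (l1 ⬝ᵥ y.q / lz ⬝ᵥ y.q) ≠ 0 →
      ¬ Multiple L y.q) {g : Fn}
    (he : ∀ y : Pt, lz ⬝ᵥ y.q ≠ 0 → l1 ⬝ᵥ y.q ≠ 0 → G1.eval (l1 ⬝ᵥ y.q / lz ⬝ᵥ y.q) ≠ 0 →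
      l2 ⬝ᵥ y.q ≠ 0 → G2.eval (l2 ⬝ᵥ y.q / lz ⬝ᵥ y.q) ≠ 0 → Sect L D m y g)
    (he' : ∀ y : Pt, y.q = q0 → l1 ⬝ᵥ y.w ≠ 0 → l2 ⬝ᵥ y.w ≠ 0 → Sect L D m y g) :
    ∃ N : ℕ, g * fl lz ^ D * (Polynomial.aeval (fl l1 / fl lz) G1 *
      Polynomial.aeval (fl l2 / fl lz) G2) ^ N ∈
      d7S (fl l1 / fl lz) (fl l2 / fl lz) (-m (SS L q0)) := by
  have n1 : fl l1 ≠ 0 := fl_ne_zero (by simpa using hi.ne_zero 0)
  have n2 : fl l2 ≠ 0 := fl_ne_zero (by simpa using hi.ne_zero 1)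
  have nz : fl lz ≠ 0 := fl_ne_zero (by simpa using hi.ne_zero 2)
  have hc := coordB hi
  have hreg : ∀ a b : ℂ, eval ![a, b] (uni 0 G1 * X 1 * Polynomial.aeval (X 0 * X 1) G2 :
      MvPolynomial (Fin 2) ℂ) ≠ 0 →
      RLoc (fl l1 / fl lz) (fl l2 / fl l1) a b
        (g * fl lz ^ D * (fl l1 / fl lz) ^ m (SS L q0)) := by
    intro a b hab
    have ev0 : eval ![a, b] (uni 0 G1 : MvPolynomial (Fin 2) ℂ) = G1.eval a := by
      unfold uni
      rw [← MvPolynomial.coe_aeval_eq_eval, RingHom.coe_coe, ← Polynomial.aeval_algHom_apply]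
      simp
    have ev1 : eval ![a, b] (Polynomial.aeval (X 0 * X 1) G2 : MvPolynomial (Fin 2) ℂ) =
        G2.eval (a * b) := by
      rw [← MvPolynomial.coe_aeval_eq_eval, RingHom.coe_coe, ← Polynomial.aeval_algHom_apply]
      simp
    rw [map_mul, map_mul, ev0, ev1, eval_X] at hab
    have hb : b ≠ 0 := by
      have := right_ne_zero_of_mul (left_ne_zero_of_mul hab)
      simpa using this
    have hGa : G1.eval a ≠ 0 := left_ne_zero_of_mul (left_ne_zero_of_mul hab)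
    have hGb : G2.eval (a * b) ≠ 0 := right_ne_zero_of_mul hab
    by_cases ha : a = 0
    · subst ha
      obtain ⟨w, w1, w2, w3⟩ := d7_vec hi 1 b 0
      have hind : LinearIndependent ℂ ![q0, w] := by
        rw [LinearIndependent.pair_iff]
        intro c d hcd
        have k1 := congrArg (fun v => lz ⬝ᵥ v) hcd
        have k2 := congrArg (fun v => l1 ⬝ᵥ v) hcd
        simp only [dotProduct_add, dotProduct_smul, hz, w3, h1, w1, smul_eq_mul, mul_one,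
          mul_zero, add_zero, zero_add, dotProduct_zero] at k1 k2
        exact ⟨k1, k2⟩
      have hS := he' ⟨q0, w, hind⟩ rfl (by show l1 ⬝ᵥ w ≠ 0; rw [w1]; exact one_ne_zero)
        (by show l2 ⬝ᵥ w ≠ 0; rw [w2]; exact hb)
      have hw1 : l1 ⬝ᵥ w ≠ 0 := by rw [w1]; exact one_ne_zero
      rw [sect_iff (lam := lz) (sig := l1) (by show lz ⬝ᵥ q0 ≠ 0; rw [hz]; exact one_ne_zero) h1
        hw1] at hS
      have hmu : muq L m ⟨q0, w, hind⟩ = m (SS L q0) := by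
        unfold muq
        rw [if_pos hq0]
      rw [hmu, regB hi (y := ⟨q0, w, hind⟩) h1 h2 hq0 hw1] at hS
      have e1 : g * fl lz ^ (D - m (SS L q0)) * fl l1 ^ m (SS L q0) =
          g * fl lz ^ D * (fl l1 / fl lz) ^ m (SS L q0) := by
        rw [zpow_sub₀ nz, div_zpow]
        ring
      have e2 : l2 ⬝ᵥ w / l1 ⬝ᵥ w = b := by rw [w1, w2, div_one]
      rw [e1] at hS
      simpa only [e2] using hS
    · obtain ⟨y, y1, y2, y3⟩ := d7_pt hi a (a * b) 1 (Or.inl ha)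
      have z1 : lz ⬝ᵥ y.q ≠ 0 := by rw [y3]; exact one_ne_zero
      have z2 : l1 ⬝ᵥ y.q ≠ 0 := by rw [y1]; exact ha
      have z3 : l2 ⬝ᵥ y.q ≠ 0 := by rw [y2]; exact mul_ne_zero ha hb
      have z4 : G1.eval (l1 ⬝ᵥ y.q / lz ⬝ᵥ y.q) ≠ 0 := by rw [y1, y3, div_one]; exact hGa
      have z5 : G2.eval (l2 ⬝ᵥ y.q / lz ⬝ᵥ y.q) ≠ 0 := by rw [y2, y3, div_one]; exact hGb
      have hS := he y z1 z2 z4 z3 z5
      have z6 := hG y z1 z2 z4
      rw [d7_sect_plane z1 z6, regB' hi z1 z2 z6] at hS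
      have e1 : l1 ⬝ᵥ y.q / lz ⬝ᵥ y.q = a := by rw [y1, y3, div_one]
      have e2 : l2 ⬝ᵥ y.q / l1 ⬝ᵥ y.q = b := by rw [y2, y1]; field_simp
      rw [e1, e2] at hS
      refine hS.mul ?_
      obtain ⟨n, hn⟩ := Int.eq_ofNat_of_zero_le hm
      have e3 : psi (fl l1 / fl lz) (fl l2 / fl l1) (X 0) = fl l1 / fl lz := by simp [psi]
      rw [hn, zpow_natCast, ← e3, ← map_pow, e3]
      exact RLoc.psi _ _ _
  obtain ⟨N, P, hP⟩ := rloc_inter hc _ _ hreg
  refine ⟨N, ?_⟩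
  have e0 : psi (fl l1 / fl lz) (fl l2 / fl l1) (uni 0 G1 * X 1 * Polynomial.aeval (X 0 * X 1) G2) =
      (Polynomial.aeval (fl l1 / fl lz) G1 * Polynomial.aeval (fl l2 / fl lz) G2) *
        ((fl l2 / fl lz) / (fl l1 / fl lz)) := by
    have k1 : psi (fl l1 / fl lz) (fl l2 / fl l1) (uni 0 G1) =
        Polynomial.aeval (fl l1 / fl lz) G1 := by
      unfold uni
      rw [← Polynomial.aeval_algHom_apply]
      simp [psi]
    have k2 : psi (fl l1 / fl lz) (fl l2 / fl l1) (Polynomial.aeval (X 0 * X 1) G2) =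
        Polynomial.aeval (fl l2 / fl lz) G2 := by
      rw [← Polynomial.aeval_algHom_apply]
      congr 1
      have : psi (fl l1 / fl lz) (fl l2 / fl l1) (X 0 * X 1) =
        (fl l1 / fl lz) * (fl l2 / fl l1) := by simp [psi]
      rw [this]
      field_simp
    have k3 : psi (fl l1 / fl lz) (fl l2 / fl l1) (X 1) = fl l2 / fl l1 := by simp [psi]
    rw [map_mul, map_mul, k1, k2, k3]
    field_simp
  rw [map_pow, e0, mul_pow] at hP
  set u := fl l1 / fl lz with hu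
  set v := fl l2 / fl lz with hv
  have nu : u ≠ 0 := div_ne_zero n1 nz
  have nv : v ≠ 0 := div_ne_zero n2 nz
  have e4 : fl l2 / fl l1 = v / u := by rw [hu, hv]; field_simp
  have e5 : g * fl lz ^ D * (Polynomial.aeval u G1 * Polynomial.aeval v G2) ^ N =
      u ^ (-m (SS L q0) + N) * v ^ (-(N : ℤ)) * psi u (fl l2 / fl l1) P := by
    clear_value u v
    rw [← hP, zpow_add₀ nu, zpow_neg, zpow_neg, zpow_natCast, zpow_natCast, div_pow]
    have a1 : u ^ m (SS L q0) ≠ 0 := zpow_ne_zero _ nu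
    have a2 : u ^ N ≠ 0 := pow_ne_zero _ nu
    have a3 : v ^ N ≠ 0 := pow_ne_zero _ nv
    generalize u ^ m (SS L q0) = A at a1 ⊢
    generalize u ^ N = B at a2 ⊢
    generalize v ^ N = B' at a3 ⊢
    field_simp
  rw [e5]
  have hu0 : u ∈ d7S u v 0 := by
    have h := d7S_mem (u := u) (v := v) (n := 0) (α := 1) (β := 0) (by simp)
    simpa using h
  have hw0 : fl l2 / fl l1 ∈ d7S u v 0 := by
    have h := d7S_mem (u := u) (v := v) (n := 0) (α := -1) (β := 1) (by simp)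
    rw [e4, div_eq_mul_inv, mul_comm]
    simpa using h
  have h3 := d7S_mul nu nv (d7S_mem (u := u) (v := v) (n := -m (SS L q0))
    (α := -m (SS L q0) + N) (β := -(N : ℤ)) (by omega)) (d7S_psi nu nv hu0 hw0 P)
  rwa [add_zero] at h3

theorem mult_zero (hX : Ctx L lx ly lz Q) {D : ℕ} {m : Finset (Fin k) → ℤ} (e : Pt → Fn)
    (he : LC L (Sect L D m) e) {eA eB : Fn} (hA : ∀ y, UQ lx lz Q y → Sect L D m y (eA - e y))
    (hB : ∀ y, UQ ly lz Q y → Sect L D m y (eB - e y)) {r : ℕ} {C : MvPolynomial (Fin 2) ℂ}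
    (hf : (eA - eB) * fl lz ^ D * psi (fl lx / fl lz) (fl ly / fl lz)
        (uni 0 (PQ lx Q ^ r) * uni 1 (PQ ly Q ^ r)) = psi (fl lx / fl lz) (fl ly / fl lz) C)
    {q0 : Fin 3 → ℂ} (hq0 : q0 ∈ Q) (hm : 0 ≤ m (SS L q0)) {h : MvPolynomial (Fin 2) ℂ}
    (hh : h ∈ pI ![lx ⬝ᵥ q0, ly ⬝ᵥ q0] ^ (m (SS L q0) - 1).toNat) :
    ∃ H : MvPolynomial (Fin 2) ℂ, eval ![lx ⬝ᵥ q0, ly ⬝ᵥ q0] H ≠ 0 ∧
      H * (C * h) ∈ abI (PQ lx Q ^ r) (PQ ly Q ^ r) := by
  have hq0' := (hX.memQ q0).1 hq0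
  have hzero : ∀ l : Fin 3 → ℂ, (l - (l ⬝ᵥ q0) • lz) ⬝ᵥ q0 = 0 := by
    intro l
    rw [sub_dotProduct, smul_dotProduct, hq0'.2, smul_eq_mul, mul_one, sub_self]
  have nz : fl lz ≠ 0 := fl_ne_zero (by simpa using hX.ind.ne_zero 2)
  obtain ⟨e1, e1a, e1b⟩ := d7_chart hX hX.ind hq0 e he
  obtain ⟨e2, e2a, e2b⟩ := d7_chart hX (d7_swap hX.ind) hq0 e he
  have hi := d7_shift hX.ind (lx ⬝ᵥ q0) (ly ⬝ᵥ q0)
  obtain ⟨N, hN⟩ := d7_key hi (hzero lx) (hzero ly) hq0'.2 hq0'.1 (D := D) hm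
    (d7gq lx Q q0) (d7gq ly Q q0) (fun y hz hy hG => d7gq_nm hX hz hy hG) (g := e1 - e2)
    (by
      intro y z1 z2 z3 z4 z5
      have := (e1a y z1 z2 z3).sub (e2a y z1 z4 z5)
      rwa [sub_sub_sub_cancel_right] at this)
    (by
      intro y z1 z2 z3
      have := (e1b y z1 z2).sub (e2b y z1 z3)
      rwa [sub_sub_sub_cancel_right] at this)
  have hzz : ∀ {y : Pt} {l : Fin 3 → ℂ} {c : ℂ}, (l - c • lz) ⬝ᵥ y.q = l ⬝ᵥ y.q - c * (lz ⬝ᵥ y.q) := by
    intro y l c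
    rw [sub_dotProduct, smul_dotProduct, smul_eq_mul]
  have hc := coordP hX.ind
  have hus : fl lx / fl lz - algebraMap ℂ Fn (lx ⬝ᵥ q0) = fl (lx - (lx ⬝ᵥ q0) • lz) / fl lz := by
    rw [d7_fl_sub]
    field_simp
  have hvt : fl ly / fl lz - algebraMap ℂ Fn (ly ⬝ᵥ q0) = fl (ly - (ly ⬝ᵥ q0) • lz) / fl lz := by
    rw [d7_fl_sub]
    field_simp
  have nu : fl (lx - (lx ⬝ᵥ q0) • lz) / fl lz ≠ 0 :=
    div_ne_zero (fl_ne_zero (by simpa using hi.ne_zero 0)) nz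
  have nv : fl (ly - (ly ⬝ᵥ q0) • lz) / fl lz ≠ 0 :=
    div_ne_zero (fl_ne_zero (by simpa using hi.ne_zero 1)) nz
  have hh1 := d7S_pI nu nv hus hvt _ h hh
  have hF := d7S_mono (n' := -1) (by omega) (d7S_mul nu nv hh1 hN)
  obtain ⟨T1, T2, hT, hT1, hT2⟩ := d7_split hc hus hvt hF
  -- the polynomial `G`
  have hGG : psi (fl lx / fl lz) (fl ly / fl lz)
      (Polynomial.aeval (X 0 - MvPolynomial.C (lx ⬝ᵥ q0)) (d7gq lx Q q0) *
        Polynomial.aeval (X 1 - MvPolynomial.C (ly ⬝ᵥ q0)) (d7gq ly Q q0)) =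
      Polynomial.aeval (fl (lx - (lx ⬝ᵥ q0) • lz) / fl lz) (d7gq lx Q q0) *
        Polynomial.aeval (fl (ly - (ly ⬝ᵥ q0) • lz) / fl lz) (d7gq ly Q q0) := by
    rw [map_mul, ← Polynomial.aeval_algHom_apply, ← Polynomial.aeval_algHom_apply]
    congr 2
    · rw [← hus, map_sub]
      congr 1
      simp [psi]
    · rw [← hvt, map_sub]
      congr 1
      simp [psi]
  rw [← hGG] at hT
  have hGe : ∀ a b : ℂ, eval ![a, b]
      (Polynomial.aeval (X 0 - MvPolynomial.C (lx ⬝ᵥ q0)) (d7gq lx Q q0) *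
        Polynomial.aeval (X 1 - MvPolynomial.C (ly ⬝ᵥ q0)) (d7gq ly Q q0)) =
      (d7gq lx Q q0).eval (a - lx ⬝ᵥ q0) * (d7gq ly Q q0).eval (b - ly ⬝ᵥ q0) := by
    intro a b
    rw [map_mul, ← MvPolynomial.coe_aeval_eq_eval, RingHom.coe_coe,
      ← Polynomial.aeval_algHom_apply, ← Polynomial.aeval_algHom_apply]
    simp
  generalize (Polynomial.aeval (X 0 - MvPolynomial.C (lx ⬝ᵥ q0)) (d7gq lx Q q0) *
        Polynomial.aeval (X 1 - MvPolynomial.C (ly ⬝ᵥ q0)) (d7gq ly Q q0) :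
          MvPolynomial (Fin 2) ℂ) = G at hGe hT
  set s := fl lx / fl lz with hs
  set t := fl ly / fl lz with ht
  -- the function `e'`
  have hR : ∀ (y : Pt), lz ⬝ᵥ y.q ≠ 0 → ¬ Multiple L y.q → Regular L y (psi s t (G ^ N * h)) := by
    intro y hz hm
    rw [regP hX.ind hz hm]
    exact RLoc.psi _ _ _
  have hD : fl lz ^ D ≠ 0 := pow_ne_zero _ nz
  have side1 : ∀ a b : ℂ, eval ![a, b] (uni 0 (PQ lx Q) * G) ≠ 0 → RLoc s t a b
      ((psi s t (G ^ N * h) * eA - (psi s t (G ^ N * h) * e1 - T1 / fl lz ^ D)) * fl lz ^ D) := by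
    intro a b hab
    rw [map_mul, hGe] at hab
    have hA1 : eval ![a, b] (uni 0 (PQ lx Q)) = (PQ lx Q).eval a := by
      unfold uni
      rw [← MvPolynomial.coe_aeval_eq_eval, RingHom.coe_coe, ← Polynomial.aeval_algHom_apply]
      simp
    rw [hA1] at hab
    have hA2 : ∀ q ∈ Q, a ≠ lx ⬝ᵥ q := by
      intro q hq hq'
      apply left_ne_zero_of_mul hab
      unfold PQ
      rw [Polynomial.eval_prod]
      refine Finset.prod_eq_zero hq ?_
      rw [Polynomial.eval_sub, Polynomial.eval_X, Polynomial.eval_C, hq', sub_self]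
    obtain ⟨y, y1, y2, y3⟩ := d7_pt hX.ind a b 1 (Or.inr (Or.inr one_ne_zero))
    have z1 : lz ⬝ᵥ y.q ≠ 0 := by rw [y3]; exact one_ne_zero
    have z2 : (lx - (lx ⬝ᵥ q0) • lz) ⬝ᵥ y.q ≠ 0 := by
      rw [hzz, y1, y3, mul_one, sub_ne_zero]
      exact hA2 q0 hq0
    have z3 : (d7gq lx Q q0).eval ((lx - (lx ⬝ᵥ q0) • lz) ⬝ᵥ y.q / lz ⬝ᵥ y.q) ≠ 0 := by
      rw [hzz, y1, y3, mul_one, div_one]
      exact left_ne_zero_of_mul (right_ne_zero_of_mul hab)
    have z4 : UQ lx lz Q y := by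
      intro q hq
      rw [y1, y3, mul_one]
      exact hA2 q hq
    have z5 := d7gq_nm hX z1 z2 z3
    have hS := ((hA y z4).sub (e1a y z1 z2 z3)).mul_reg (hR y z1 z5)
    rw [d7_sect_plane z1 z5, regP hX.ind z1 z5, y1, y2, y3, div_one, div_one] at hS
    have hS2 := hS.add (hT1 a b (hA2 q0 hq0))
    have e3 : (psi s t (G ^ N * h) * eA - (psi s t (G ^ N * h) * e1 - T1 / fl lz ^ D)) * fl lz ^ D =
        (eA - e y - (e1 - e y)) * psi s t (G ^ N * h) * fl lz ^ (D : ℤ) + T1 := by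
      rw [zpow_natCast]
      field_simp
      ring
    rw [e3]
    exact hS2
  have side2 : ∀ a b : ℂ, eval ![a, b] (uni 1 (PQ ly Q) * G) ≠ 0 → RLoc s t a b
      ((psi s t (G ^ N * h) * eB - (psi s t (G ^ N * h) * e2 + T2 / fl lz ^ D)) * fl lz ^ D) := by
    intro a b hab
    rw [map_mul, hGe] at hab
    have hA1 : eval ![a, b] (uni 1 (PQ ly Q)) = (PQ ly Q).eval b := by
      unfold uni
      rw [← MvPolynomial.coe_aeval_eq_eval, RingHom.coe_coe, ← Polynomial.aeval_algHom_apply]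
      simp
    rw [hA1] at hab
    have hA2 : ∀ q ∈ Q, b ≠ ly ⬝ᵥ q := by
      intro q hq hq'
      apply left_ne_zero_of_mul hab
      unfold PQ
      rw [Polynomial.eval_prod]
      refine Finset.prod_eq_zero hq ?_
      rw [Polynomial.eval_sub, Polynomial.eval_X, Polynomial.eval_C, hq', sub_self]
    obtain ⟨y, y1, y2, y3⟩ := d7_pt hX.ind a b 1 (Or.inr (Or.inr one_ne_zero))
    have z1 : lz ⬝ᵥ y.q ≠ 0 := by rw [y3]; exact one_ne_zero
    have z2 : (ly - (ly ⬝ᵥ q0) • lz) ⬝ᵥ y.q ≠ 0 := by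
      rw [hzz, y2, y3, mul_one, sub_ne_zero]
      exact hA2 q0 hq0
    have z3 : (d7gq ly Q q0).eval ((ly - (ly ⬝ᵥ q0) • lz) ⬝ᵥ y.q / lz ⬝ᵥ y.q) ≠ 0 := by
      rw [hzz, y2, y3, mul_one, div_one]
      exact right_ne_zero_of_mul (right_ne_zero_of_mul hab)
    have z4 : UQ ly lz Q y := by
      intro q hq
      rw [y2, y3, mul_one]
      exact hA2 q hq
    have z5 := d7gq_nm hX z1 z2 z3
    have hS := ((hB y z4).sub (e2a y z1 z2 z3)).mul_reg (hR y z1 z5)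
    rw [d7_sect_plane z1 z5, regP hX.ind z1 z5, y1, y2, y3, div_one, div_one] at hS
    have hS2 := hS.add (hT2 a b (hA2 q0 hq0)).neg
    have e3 : (psi s t (G ^ N * h) * eB - (psi s t (G ^ N * h) * e2 + T2 / fl lz ^ D)) * fl lz ^ D =
        (eB - e y - (e2 - e y)) * psi s t (G ^ N * h) * fl lz ^ (D : ℤ) + -T2 := by
      rw [zpow_natCast]
      field_simp
      ring
    rw [e3]
    exact hS2
  obtain ⟨N1, P1, hP1⟩ := rloc_inter hc _ _ side1
  obtain ⟨N2, P2, hP2⟩ := rloc_inter hc _ _ side2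
  have hmonic : ∀ l : Fin 3 → ℂ, (PQ l Q).Monic := fun l =>
    Polynomial.monic_prod_of_monic _ _ fun q _ => Polynomial.monic_X_sub_C _
  have hP1' : (psi s t (G ^ N * h) * eA - (psi s t (G ^ N * h) * e1 - T1 / fl lz ^ D)) *
      fl lz ^ D * psi s t ((uni 0 (PQ lx Q) * G) ^ (N1 + N2)) =
      psi s t (P1 * (uni 0 (PQ lx Q) * G) ^ N2) := by
    rw [map_mul (psi s t) P1, ← hP1, pow_add, map_mul (psi s t) (_ ^ N1) (_ ^ N2)]
    ring
  have hP2' : (psi s t (G ^ N * h) * eB - (psi s t (G ^ N * h) * e2 + T2 / fl lz ^ D)) *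
      fl lz ^ D * psi s t ((uni 1 (PQ ly Q) * G) ^ (N1 + N2)) =
      psi s t (P2 * (uni 1 (PQ ly Q) * G) ^ N1) := by
    rw [map_mul (psi s t) P2, ← hP2, pow_add, map_mul (psi s t) (_ ^ N1) (_ ^ N2)]
    ring
  have hdiff : psi s t (G ^ N * h) * (eA - eB) * fl lz ^ D =
      (psi s t (G ^ N * h) * eA - (psi s t (G ^ N * h) * e1 - T1 / fl lz ^ D)) * fl lz ^ D -
      (psi s t (G ^ N * h) * eB - (psi s t (G ^ N * h) * e2 + T2 / fl lz ^ D)) * fl lz ^ D := by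
    have k1 : T1 + T2 = psi s t (G ^ N * h) * (e1 - e2) * fl lz ^ D := by
      rw [← hT, map_mul, map_pow, zpow_natCast]
      ring
    have k2 : T1 = psi s t (G ^ N * h) * (e1 - e2) * fl lz ^ D - T2 := by rw [← k1]; ring
    rw [k2]
    field_simp
    ring
  have hf' : psi s t (G ^ N * h) * (eA - eB) * fl lz ^ D *
      psi s t (uni 0 (PQ lx Q ^ r) * uni 1 (PQ ly Q ^ r)) = psi s t (G ^ N * h * C) := by
    rw [map_mul (psi s t) (G ^ N * h) C, ← hf]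
    ring
  obtain ⟨N', hN'⟩ := triv_local hc (hmonic lx) (hmonic ly) hf' hdiff hP1' hP2'
  refine ⟨G ^ N' * G ^ N, ?_, ?_⟩
  · have k0 : eval ![lx ⬝ᵥ q0, ly ⬝ᵥ q0] G ≠ 0 := by
      rw [hGe, sub_self, sub_self]
      exact mul_ne_zero (d7gq_zero _ _) (d7gq_zero _ _)
    rw [map_mul, map_pow, map_pow]
    exact mul_ne_zero (pow_ne_zero _ k0) (pow_ne_zero _ k0)
  · have k1 : G ^ N' * G ^ N * (C * h) = G ^ N' * (G ^ N * h * C) := by ring
    rw [k1]
    exact hN'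

end HKR
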