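import Pool.Agent.Lib.HKR.D4
import Pool.Agent.Lib.HKR.A5
/-!
HKR.D8 (glue).  If C ∈ abI (A^r) (B^r) with totalDegree C + D ≤ 2 r |Q| there is e representing the family
on UQ lx and on UQ ly.
PROOF.  abI_degree (A^r, B^r have degree r |Q|): C = a B(y)^r + b A(x)^r, a = 0 or totalDegree a + D ≤ r |Q|, same b.
So (eA - eB) lz^D = psi a/psi A^r + psi b/psi B^r.  e := eA - psi a/psi A^r lz^(-D) = eB + psi b/psi B^r lz^(-D).
Need: psi a/psi(uni 0 (PQ lx Q ^ r)) * lz^(-D) is a section at every y ∈ UQ lx (also where lz(q) = 0): for a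
monomial x^i y^j with i + j + D ≤ r|Q| it is lx^i ly^j lz^(r|Q|-D-i-j) / ∏_q (lx - lx(q) lz)^r; multiplied by lam^D
(lam(y.q) ≠ 0) it is a product of r|Q| ratios of linear forms numerator/(lx - lx(q) lz) with denominators
nonzero at y.q (Val.ratio; count: numerator has i + j + (r|Q|-D-i-j) + D = r|Q| linear factors).  y ∈ UQ lx is
not multiple (nz, memQ), so Sect is Regular of the product with lam^D (sect_iff).
-/
open MvPolynomial
namespace HKR
variable {k : ℕ} {L : Fin k → Fin 3 → ℂ} {lx ly lz : Fin 3 → ℂ} {Q : Finset (Fin 3 → ℂ)}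

private theorem d8_not_mult {l : Fin 3 → ℂ} (hX : Ctx L lx ly lz Q) {y : Pt} (hU : UQ l lz Q y) :
    ¬ Multiple L y.q := by
  intro hm
  have hq0 : y.q ≠ 0 := by
    have := y.ind.ne_zero 0
    simpa using this
  have hz := hX.nz y.q hq0 hm
  have hmem : (lz ⬝ᵥ y.q)⁻¹ • y.q ∈ Q := by
    rw [hX.memQ]
    constructor
    · obtain ⟨a, b, c, h1, h2, h3, h4, h5, h6⟩ := hm
      exact ⟨a, b, c, h1, h2, h3, by rw [dotProduct_smul, h4, smul_zero],
        by rw [dotProduct_smul, h5, smul_zero], by rw [dotProduct_smul, h6, smul_zero]⟩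
    · rw [dotProduct_smul, smul_eq_mul, inv_mul_cancel₀ hz]
  apply hU _ hmem
  rw [dotProduct_smul, smul_eq_mul]
  field_simp

private theorem d8_aff_C (c : ℂ) : aff (C c) = algebraMap ℂ Fn c := by
  simp [aff]

private theorem d8_fl_sub (a b : Fin 3 → ℂ) (c : ℂ) :
    fl (a - c • b) = fl a - algebraMap ℂ Fn c * fl b := by
  have h : lin (a - c • b) = lin a - C c * lin b := by
    simp only [lin, Pi.sub_apply, Pi.smul_apply, smul_eq_mul, map_sub, map_mul, sub_mul,
      Finset.sum_sub_distrib, Finset.mul_sum, mul_assoc]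
  unfold fl
  rw [h, map_sub, map_mul, d8_aff_C]

private theorem d8_psi_uni (s t : Fn) (A : Polynomial ℂ) (i : Fin 2) :
    psi s t (uni i A) = Polynomial.aeval (![s, t] i) A := by
  unfold psi uni
  rw [← Polynomial.aeval_algHom_apply, aeval_X]

private theorem d8_PQ {l : Fin 3 → ℂ} (hz : fl lz ≠ 0) :
    Polynomial.aeval (fl l / fl lz) (PQ l Q) * fl lz ^ Q.card =
      ∏ q ∈ Q, fl (l - (l ⬝ᵥ q) • lz) := by
  rw [PQ, map_prod, ← Finset.prod_const, ← Finset.prod_mul_distrib]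
  refine Finset.prod_congr rfl fun q _ => ?_
  rw [d8_fl_sub, map_sub, Polynomial.aeval_X, Polynomial.aeval_C]
  field_simp

private theorem d8_monic (l : Fin 3 → ℂ) : (PQ l Q).Monic :=
  Polynomial.monic_prod_of_monic _ _ fun q _ => Polynomial.monic_X_sub_C _

private theorem d8_deg (l : Fin 3 → ℂ) (r : ℕ) : (PQ l Q ^ r).natDegree = r * Q.card := by
  rw [(d8_monic l).natDegree_pow, PQ, Polynomial.natDegree_prod_of_monic _ _
    (fun q _ => Polynomial.monic_X_sub_C _)]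
  simp

private theorem d8_mul {y : Pt} {D D' E : ℤ} {f f' : Fn} (h : Sect L D (fun _ => 0) y f)
    (h' : Sect L D' (fun _ => 0) y f') (hE : D + D' = E) : Sect L E (fun _ => 0) y (f * f') := by
  rw [← hE]
  exact (h.mul h').congr_m fun _ => add_zero _

private theorem d8_pow {y : Pt} {D E : ℤ} {f : Fn} (h : Sect L D (fun _ => 0) y f) (j : ℕ)
    (hE : j * D = E) : Sect L E (fun _ => 0) y (f ^ j) := by
  rw [← hE]
  exact (h.pow j).congr_m fun _ => mul_zero _

private theorem d8_prod {y : Pt} {l : Fin 3 → ℂ} (s : Finset (Fin 3 → ℂ))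
    (hU : ∀ q ∈ s, (l - (l ⬝ᵥ q) • lz) ⬝ᵥ y.q ≠ 0) :
    Sect L s.card (fun _ => 0) y (∏ q ∈ s, (fl (l - (l ⬝ᵥ q) • lz))⁻¹) := by
  classical
  induction s using Finset.induction_on with
  | empty =>
    rw [Finset.prod_empty, Finset.card_empty, Nat.cast_zero]
    have h := sect_zero_iff.2 (Regular.const (L := L) (y := y) 1)
    rwa [map_one] at h
  | insert q s hq ih =>
    rw [Finset.prod_insert hq, Finset.card_insert_of_notMem hq]
    refine d8_mul (sect_inv (hU q (Finset.mem_insert_self _ _)))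
      (ih fun q' hq' => hU q' (Finset.mem_insert_of_mem hq')) ?_
    push_cast; ring

private theorem d8_sum {ι : Type} {y : Pt} {D : ℤ} {m : Finset (Fin k) → ℤ} (s : Finset ι) (f : ι → Fn)
    (h : ∀ i ∈ s, Sect L D m y (f i)) : Sect L D m y (∑ i ∈ s, f i) := by
  classical
  induction s using Finset.induction_on with
  | empty => rw [Finset.sum_empty]; exact Sect.zero
  | insert i s hi ih =>
    rw [Finset.sum_insert hi]
    exact (h i (Finset.mem_insert_self _ _)).add (ih fun j hj => h j (Finset.mem_insert_of_mem hj))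

private theorem d8_sect {l : Fin 3 → ℂ} (hX : Ctx L lx ly lz Q) (hz : fl lz ≠ 0) {y : Pt}
    (hU : UQ l lz Q y) {D r : ℕ} {m : Finset (Fin k) → ℤ} {a : MvPolynomial (Fin 2) ℂ}
    (ha : a = 0 ∨ a.totalDegree + D ≤ r * Q.card) :
    Sect L D m y (psi (fl lx / fl lz) (fl ly / fl lz) a /
      Polynomial.aeval (fl l / fl lz) (PQ l Q) ^ r * (fl lz ^ D)⁻¹) := by
  have hnm := d8_not_mult hX hU
  refine Sect.congr_m (m := fun _ => 0) ?_ (fun h => absurd h hnm)
  rcases ha with ha | ha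
  · rw [ha, map_zero, zero_div, zero_mul]; exact Sect.zero
  have hU' : ∀ q ∈ Q, (l - (l ⬝ᵥ q) • lz) ⬝ᵥ y.q ≠ 0 := by
    intro q hq
    rw [sub_dotProduct, smul_dotProduct, smul_eq_mul, sub_ne_zero]
    exact hU q hq
  have hfl : ∀ q ∈ Q, fl (l - (l ⬝ᵥ q) • lz) ≠ 0 := by
    intro q hq
    refine fl_ne_zero ?_
    intro h0
    apply hU' q hq
    rw [h0, zero_dotProduct]
  have hW := d8_PQ (l := l) (Q := Q) hz
  set PA := Polynomial.aeval (fl l / fl lz) (PQ l Q) with hPA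
  have hW0 : (∏ q ∈ Q, fl (l - (l ⬝ᵥ q) • lz)) ≠ 0 := Finset.prod_ne_zero_iff.2 hfl
  have hPA0 : PA ≠ 0 := by
    intro h0
    rw [h0, zero_mul] at hW
    exact hW0 hW.symm
  have hkey : psi (fl lx / fl lz) (fl ly / fl lz) a / PA ^ r * (fl lz ^ D)⁻¹ =
      ∑ d ∈ a.support, algebraMap ℂ Fn (coeff d a) *
        (fl lx ^ d 0 * fl ly ^ d 1 * fl lz ^ (r * Q.card - D - (d 0 + d 1)) *
          (∏ q ∈ Q, (fl (l - (l ⬝ᵥ q) • lz))⁻¹) ^ r) := by
    rw [Finset.prod_inv_distrib, ← hW]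
    unfold psi
    rw [MvPolynomial.aeval_def, MvPolynomial.eval₂_eq', div_mul_eq_mul_div, Finset.sum_mul,
      Finset.sum_div]
    refine Finset.sum_congr rfl fun d hd => ?_
    have h1 : d 0 + d 1 ≤ a.totalDegree := by
      have h1 := le_totalDegree hd
      rwa [Finsupp.sum_fintype _ _ (fun _ => rfl), Fin.sum_univ_two] at h1
    simp only [Fin.prod_univ_two, Matrix.cons_val_zero, Matrix.cons_val_one]
    have h2 : fl lz ^ (r * Q.card) = fl lz ^ D * (fl lz ^ (d 0) * fl lz ^ (d 1)) *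
        fl lz ^ (r * Q.card - D - (d 0 + d 1)) := by
      rw [← pow_add, ← pow_add, ← pow_add]; congr 1; omega
    have h3 : (PA * fl lz ^ Q.card)⁻¹ ^ r = (PA ^ r)⁻¹ * (fl lz ^ (r * Q.card))⁻¹ := by
      rw [inv_pow, mul_pow, ← pow_mul, mul_comm Q.card r, mul_inv]
    rw [h3, h2, div_pow, div_pow]
    field_simp
  rw [hkey]
  refine d8_sum _ _ fun d hd => Sect.smul ?_ _
  have h1 : d 0 + d 1 ≤ a.totalDegree := by
    have h1 := le_totalDegree hd
    rwa [Finsupp.sum_fintype _ _ (fun _ => rfl), Fin.sum_univ_two] at h1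
  refine d8_mul (d8_mul (d8_mul (d8_pow (sect_lin lx) (d 0) rfl) (d8_pow (sect_lin ly) (d 1) rfl) rfl)
    (d8_pow (sect_lin lz) _ rfl) rfl) (d8_pow (d8_prod Q hU') r rfl) ?_
  have h2 : ((r * Q.card - D - (d 0 + d 1) : ℕ) : ℤ) = r * Q.card - D - (d 0 + d 1) := by
    have h3 : D + (d 0 + d 1) ≤ r * Q.card := by omega
    rw [Nat.sub_sub, Nat.cast_sub h3]
    push_cast; ring
  rw [h2]; ring

private theorem d8_aux (hz : fl lz ≠ 0) {l : Fin 3 → ℂ} (hl : ∀ c : ℂ, l - c • lz ≠ 0) :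
    Polynomial.aeval (fl l / fl lz) (PQ l Q) ≠ 0 := by
  intro h0
  have hW := d8_PQ (l := l) (Q := Q) hz
  rw [h0, zero_mul] at hW
  exact (Finset.prod_ne_zero_iff.2 fun q _ => fl_ne_zero (hl _)) hW.symm

theorem glue (hX : Ctx L lx ly lz Q) {D : ℕ} {m : Finset (Fin k) → ℤ} (e : Pt → Fn)
    {eA eB : Fn} (hA : ∀ y, UQ lx lz Q y → Sect L D m y (eA - e y))
    (hB : ∀ y, UQ ly lz Q y → Sect L D m y (eB - e y)) {r : ℕ} {C : MvPolynomial (Fin 2) ℂ}
    (hf : (eA - eB) * fl lz ^ D * psi (fl lx / fl lz) (fl ly / fl lz)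
        (uni 0 (PQ lx Q ^ r) * uni 1 (PQ ly Q ^ r)) = psi (fl lx / fl lz) (fl ly / fl lz) C)
    (hd : C.totalDegree + D ≤ 2 * r * Q.card) (hC : C ∈ abI (PQ lx Q ^ r) (PQ ly Q ^ r)) :
    ∃ e0 : Fn, (∀ y, UQ lx lz Q y → Sect L D m y (e0 - e y)) ∧
      (∀ y, UQ ly lz Q y → Sect L D m y (e0 - e y)) := by
  have hlz : lz ≠ 0 := by simpa using hX.ind.ne_zero 2
  have hz := fl_ne_zero hlz
  have hind := Fintype.linearIndependent_iff.1 hX.ind
  have hx1 : ∀ c : ℂ, lx - c • lz ≠ 0 := by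
    intro c hc
    have h1 := hind ![1, 0, -c] (by
      simp only [Fin.sum_univ_three]
      change (1 : ℂ) • lx + (0 : ℂ) • ly + (-c) • lz = 0
      rw [← hc]; module) 0
    simp at h1
  have hy1 : ∀ c : ℂ, ly - c • lz ≠ 0 := by
    intro c hc
    have h1 := hind ![0, 1, -c] (by
      simp only [Fin.sum_univ_three]
      change (0 : ℂ) • lx + (1 : ℂ) • ly + (-c) • lz = 0
      rw [← hc]; module) 1
    simp at h1
  have hA0 := d8_aux (Q := Q) hz hx1
  have hB0 := d8_aux (Q := Q) hz hy1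
  obtain ⟨a, b, hab, ha, hb⟩ := abI_degree ((d8_monic (Q := Q) lx).pow r) ((d8_monic (Q := Q) ly).pow r) hC
  rw [d8_deg] at ha hb
  have ha' : a = 0 ∨ a.totalDegree + D ≤ r * Q.card := by
    rcases ha with ha | ha
    · exact Or.inl ha
    · right
      have : 2 * r * Q.card = r * Q.card + r * Q.card := by ring
      omega
  have hb' : b = 0 ∨ b.totalDegree + D ≤ r * Q.card := by
    rcases hb with hb | hb
    · exact Or.inl hb
    · right
      have : 2 * r * Q.card = r * Q.card + r * Q.card := by ring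
      omega
  have hsa : ∀ y, UQ lx lz Q y → Sect L D m y _ := fun y hU =>
    d8_sect (ly := ly) (D := D) (r := r) (m := m) (a := a) hX hz hU ha'
  have hsb : ∀ y, UQ ly lz Q y → Sect L D m y _ := fun y hU =>
    d8_sect (ly := ly) (D := D) (r := r) (m := m) (a := b) hX hz hU hb'
  rw [hab, map_mul, map_add, map_mul, map_mul] at hf
  simp only [d8_psi_uni, Matrix.cons_val_zero, Matrix.cons_val_one, map_pow] at hf
  set PA := Polynomial.aeval (fl lx / fl lz) (PQ lx Q) with hPA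
  set PB := Polynomial.aeval (fl ly / fl lz) (PQ ly Q) with hPB
  set pa := psi (fl lx / fl lz) (fl ly / fl lz) a with hpa
  set pb := psi (fl lx / fl lz) (fl ly / fl lz) b with hpb
  have hPA' := pow_ne_zero r hA0
  have hPB' := pow_ne_zero r hB0
  have hzD := pow_ne_zero D hz
  have hE : eA - pa / PA ^ r * (fl lz ^ D)⁻¹ = eB + pb / PB ^ r * (fl lz ^ D)⁻¹ := by
    field_simp
    linear_combination hf
  refine ⟨eA - pa / PA ^ r * (fl lz ^ D)⁻¹, fun y hU => ?_, fun y hU => ?_⟩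
  · have h1 := (hA y hU).sub (hsa y hU)
    have h2 : eA - pa / PA ^ r * (fl lz ^ D)⁻¹ - e y = eA - e y - pa / PA ^ r * (fl lz ^ D)⁻¹ := by ring
    rw [h2]; exact h1
  · have h1 := (hB y hU).add (hsb y hU)
    have h2 : eA - pa / PA ^ r * (fl lz ^ D)⁻¹ - e y = eB - e y + pb / PB ^ r * (fl lz ^ D)⁻¹ := by
      rw [hE]; ring
    rw [h2]; exact h1

end HKR
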