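import Pool.Agent.Lib.HKR.B2
import Pool.Agent.Lib.HKR.D1
/-!
HKR.D9 (blow-up of a point, two charts).  X = fl lx/fl lz, Y = fl ly/fl lz; chart 1: (X, Y/X), chart 2:
(Y, X/Y); G1, G2 one-variable polynomials nonzero at 0.
(a) rloc_swap: for b ≠ 0: RLoc X (Y/X) a b g ↔ RLoc Y (X/Y) (a b) (1/b) g.  (Substitute X = Y (X/Y), Y/X = 1/(X/Y),
    clear denominators with powers of X/Y, nonzero value 1/b.)
(b) descent: f1 is RLoc in chart 1 at the points a ≠ 0, G1(a) ≠ 0; f2 in chart 2 at the points a ≠ 0,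
    G2(a) ≠ 0; (f1 - f2) X^m0 is RLoc in chart 1 at (a,b) with G1(a) ≠ 0, b ≠ 0, G2(ab) ≠ 0.  Then f1 X^m0 is RLoc at
    (0,b) in chart 1 for all b, and f2 Y^m0 at (0,b) in chart 2 for all b.
    PROOF.  rloc_inter on D(s G1(s)): f1 X^a G1(X)^N = P1(X,Y/X), f2 Y^a G2(Y)^N = P2(Y,X/Y) (same a, N).
    If a ≤ m0: f1 X^m0 = X^(m0-a) f1 X^a: done.  If a > m0: for b ≠ 0 take values at (0,b) (chart 1; the value
    of an RLoc function P/Q is P(0,b)/Q(0,b)): (f1 - f2) X^a = X^(a-m0) (f1-f2) X^m0 has value 0;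
    f1 X^a has value P1(0,b)/G1(0)^N; f2 X^a = (f2 Y^a)(X/Y)^a has value (1/b)^a P2(0,1/b)/G2(0)^N.  So
    p(b) = b^(-a) p2(1/b) for all b ≠ 0, p, p2 polynomials (p = P1(0,·)/G1(0)^N, p2 = P2(0,·)/G2(0)^N).
    As a > 0 (a > m0 ≥ 0): b^(a + deg p2) p(b) is a polynomial of degree ≤ deg p2, so p = 0, so p2 = 0.  Hence s
    divides P1 and P2 and a may be replaced by a - 1.  Induction.
(c) const: f1 RLoc in chart 1 at all points with G1(a) ≠ 0, f2 in chart 2 at all points with G2(a) ≠ 0, and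
    (f1 - f2)/X RLoc in chart 1 at (0,b), b ≠ 0.  Then there is κ with (f1 - κ)/X RLoc at (0,b) in chart 1 and
    (f2 - κ)/Y RLoc at (0,b) in chart 2 for all b: as in (b) with a = 0: p(b) = p2(1/b), so p, p2 are
    the same constant κ.
-/
open MvPolynomial
namespace HKR
variable {lx ly lz : Fin 3 → ℂ}

private theorem d9_eval (M : MvPolynomial (Fin 2) ℂ) (G : Polynomial ℂ) (x : Fin 2 → ℂ) :
    eval x (Polynomial.aeval M G) = G.eval (eval x M) := by
  rw [Polynomial.aeval_def, Polynomial.hom_eval₂]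
  have : (eval x).comp (algebraMap ℂ (MvPolynomial (Fin 2) ℂ)) = RingHom.id ℂ := by
    ext z; simp
  rw [this, Polynomial.eval₂_id]

private theorem d9_psi (s t : Fn) (M : MvPolynomial (Fin 2) ℂ) (G : Polynomial ℂ) :
    psi s t (Polynomial.aeval M G) = Polynomial.aeval (psi s t M) G :=
  (Polynomial.aeval_algHom_apply (psi s t) M G).symm

private theorem d9_X0 (s t : Fn) : psi s t (X 0) = s := by simp [psi]

private theorem d9_X1 (s t : Fn) : psi s t (X 1) = t := by simp [psi]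

private theorem d9_C (s t : Fn) (c : ℂ) : psi s t (C c) = algebraMap ℂ Fn c := by
  simp [psi]

private theorem d9_conv {s1 t1 s2 t2 : Fn} (h2 : s1 = s2 * t2) (h1 : t1 * t2 = 1)
    (Q : MvPolynomial (Fin 2) ℂ) :
    ∃ (N : ℕ) (Q' : MvPolynomial (Fin 2) ℂ), psi s2 t2 Q' = t2 ^ N * psi s1 t1 Q ∧
      ∀ a b : ℂ, b ≠ 0 → eval ![a * b, b⁻¹] Q' = b⁻¹ ^ N * eval ![a, b] Q := by
  induction Q using MvPolynomial.induction_on with
  | C c =>
    refine ⟨0, C c, ?_, ?_⟩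
    · rw [d9_C, d9_C, pow_zero, one_mul]
    · intro a b _
      simp
  | add p q hp hq =>
    obtain ⟨N, P', hP, hP'⟩ := hp
    obtain ⟨M, Q', hQ, hQ'⟩ := hq
    refine ⟨N + M, P' * X 1 ^ M + Q' * X 1 ^ N, ?_, ?_⟩
    · simp only [map_add, map_mul, map_pow, d9_X1, hP, hQ]
      ring
    · intro a b hb
      simp only [map_add, map_mul, map_pow, eval_X, hP' a b hb, hQ' a b hb, Matrix.cons_val_one,
        Matrix.cons_val_zero]
      ring
  | mul_X p i hp =>
    obtain ⟨N, P', hP, hP'⟩ := hp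
    fin_cases i
    · refine ⟨N, P' * X 0 * X 1, ?_, ?_⟩
      · simp only [map_mul, d9_X1, d9_X0, hP, Fin.zero_eta, h2]
        ring
      · intro a b hb
        simp only [map_mul, eval_X, hP' a b hb, Matrix.cons_val_one,
          Matrix.cons_val_zero, Fin.zero_eta]
        field_simp
    · refine ⟨N + 1, P', ?_, ?_⟩
      · simp only [map_mul, d9_X1, hP, Fin.mk_one]
        have : t2 ^ (N + 1) * (psi s1 t1 p * t1) = t2 ^ N * psi s1 t1 p * (t1 * t2) := by ring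
        rw [this, h1, mul_one]
      · intro a b hb
        simp only [map_mul, eval_X, hP' a b hb, Matrix.cons_val_one,
          Matrix.cons_val_zero, Fin.mk_one]
        have : b⁻¹ ^ (N + 1) * (eval ![a, b] p * b) = b⁻¹ ^ N * eval ![a, b] p * (b⁻¹ * b) := by
          ring
        rw [this, inv_mul_cancel₀ hb, mul_one]

private theorem d9_swap {s1 t1 s2 t2 : Fn} (h2 : s1 = s2 * t2) (h1 : t1 * t2 = 1) {a b : ℂ}
    (hb : b ≠ 0) (g : Fn) (h : RLoc s1 t1 a b g) : RLoc s2 t2 (a * b) b⁻¹ g := by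
  obtain ⟨P, Q, hQ, hPQ⟩ := h
  obtain ⟨N, P', hP1, hP2⟩ := d9_conv h2 h1 P
  obtain ⟨M, Q', hQ1, hQ2⟩ := d9_conv h2 h1 Q
  refine ⟨P' * X 1 ^ M, Q' * X 1 ^ N, ?_, ?_⟩
  · rw [map_mul, hQ2 a b hb]
    refine mul_ne_zero (mul_ne_zero (pow_ne_zero _ (inv_ne_zero hb)) hQ) ?_
    simp only [map_pow, eval_X, Matrix.cons_val_one, Matrix.cons_val_zero]
    exact pow_ne_zero _ (inv_ne_zero hb)
  · simp only [map_mul, map_pow, d9_X1, hP1, hQ1]
    rw [← hPQ]; ring

private theorem d9_dec (P : MvPolynomial (Fin 2) ℂ) : ∃ (p : Polynomial ℂ)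
    (P' : MvPolynomial (Fin 2) ℂ), P = Polynomial.aeval (X 1) p + X 0 * P' := by
  induction P using MvPolynomial.induction_on with
  | C c => exact ⟨Polynomial.C c, 0, by simp⟩
  | add p q hp hq =>
    obtain ⟨p1, P', hP⟩ := hp
    obtain ⟨q1, Q', hQ⟩ := hq
    refine ⟨p1 + q1, P' + Q', ?_⟩
    rw [map_add]
    linear_combination hP + hQ
  | mul_X p i hp =>
    obtain ⟨p1, P', hP⟩ := hp
    fin_cases i
    · refine ⟨0, p, ?_⟩
      rw [map_zero, zero_add]
      exact mul_comm _ _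
    · refine ⟨p1 * Polynomial.X, P' * X 1, ?_⟩
      rw [map_mul, Polynomial.aeval_X]
      simp only [Fin.mk_one]
      linear_combination (X 1) * hP

private theorem d9_evdec {P P' : MvPolynomial (Fin 2) ℂ} {p : Polynomial ℂ}
    (h : P = Polynomial.aeval (X 1) p + X 0 * P') (b : ℂ) : eval ![0, b] P = p.eval b := by
  rw [h, map_add, map_mul, d9_eval]
  simp

private theorem d9_dvd {P : MvPolynomial (Fin 2) ℂ} (h : ∀ b : ℂ, eval ![0, b] P = 0) :
    ∃ P', P = X 0 * P' := by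
  obtain ⟨p, P', hP⟩ := d9_dec P
  have : p = 0 := by
    apply Polynomial.funext
    intro b
    rw [← d9_evdec hP b, h b]; simp
  refine ⟨P', ?_⟩
  rw [hP, this]; simp

private theorem d9_const1 {p q : Polynomial ℂ} (h : ∀ b : ℂ, b ≠ 0 → p.eval b = q.eval b⁻¹) :
    ∃ c, p = Polynomial.C c := by
  have h1 : Polynomial.X ^ q.natDegree * p = q.reverse := by
    apply Polynomial.eq_of_infinite_eval_eq
    refine Set.Infinite.mono (s := {b : ℂ | b ≠ 0}) ?_ ?_
    · intro b hb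
      have hb' : b ≠ 0 := hb
      show Polynomial.eval b _ = Polynomial.eval b _
      rw [Polynomial.eval_mul, Polynomial.eval_pow, Polynomial.eval_X, h b hb']
      letI : Invertible b⁻¹ := invertibleOfNonzero (inv_ne_zero hb')
      have h3 := Polynomial.eval₂_reverse_mul_pow (RingHom.id ℂ) b⁻¹ q
      rw [invOf_eq_inv, inv_inv, Polynomial.eval₂_id, Polynomial.eval₂_id] at h3
      rw [← h3]
      have h4 : b ^ q.natDegree * b⁻¹ ^ q.natDegree = 1 := by
        rw [← mul_pow, mul_inv_cancel₀ hb', one_pow]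
      linear_combination (Polynomial.eval b q.reverse) * h4
    · exact (Set.finite_singleton (0 : ℂ)).infinite_compl
  by_cases hp : p = 0
  · exact ⟨0, by rw [hp]; simp⟩
  · have h2 := congrArg Polynomial.natDegree h1
    rw [Polynomial.natDegree_X_pow_mul _ hp] at h2
    have h3 := Polynomial.reverse_natDegree_le q
    exact ⟨p.coeff 0, Polynomial.eq_C_of_natDegree_eq_zero (by omega)⟩

private theorem d9_const {p q : Polynomial ℂ} (h : ∀ b : ℂ, b ≠ 0 → p.eval b = q.eval b⁻¹) :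
    ∃ c, p = Polynomial.C c ∧ q = Polynomial.C c := by
  obtain ⟨c, hc⟩ := d9_const1 h
  obtain ⟨d, hd⟩ := d9_const1 (p := q) (q := p) (by
    intro b hb
    have := h b⁻¹ (inv_ne_zero hb)
    rw [inv_inv] at this
    exact this.symm)
  refine ⟨c, hc, ?_⟩
  have := h 1 one_ne_zero
  rw [inv_one, hc, hd] at this
  simp only [Polynomial.eval_C] at this
  rw [hd, this]

/-- comparison of the two charts -/
private theorem d9_match {s1 t1 s2 t2 : Fn} (hc : Coord s1 t1) (h2 : s2 = s1 * t1)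
    (h1 : t2 * t1 = 1) {G1 G2 : Polynomial ℂ} {f1 f2 : Fn} {n N1 N2 : ℕ}
    {P1 P2 : MvPolynomial (Fin 2) ℂ}
    (hP1 : f1 * s1 ^ n * psi s1 t1 (Polynomial.aeval (X 0) G1 ^ N1) = psi s1 t1 P1)
    (hP2 : f2 * s2 ^ n * psi s2 t2 (Polynomial.aeval (X 0) G2 ^ N2) = psi s2 t2 P2) {b : ℂ}
    (hb : b ≠ 0) {R S : MvPolynomial (Fin 2) ℂ} (hS : eval ![0, b] S ≠ 0)
    (hRS : (f1 - f2) * s1 ^ n * psi s1 t1 S = s1 * psi s1 t1 R) :
    eval ![0, b] P1 * b ^ n * G2.eval 0 ^ N2 = eval ![0, b⁻¹] P2 * G1.eval 0 ^ N1 := by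
  obtain ⟨N, P2', hA, hB⟩ := d9_conv (s1 := s2) (t1 := t2) (s2 := s1) (t2 := t1) h2 h1 P2
  have hB' := hB 0 b⁻¹ (inv_ne_zero hb)
  rw [zero_mul, inv_inv] at hB'
  have hD : psi s2 t2 (Polynomial.aeval (X 0) G2 ^ N2) =
      psi s1 t1 (Polynomial.aeval (X 0 * X 1) G2 ^ N2) := by
    rw [map_pow, map_pow, d9_psi, d9_psi, map_mul, d9_X0, d9_X0, d9_X1, h2]
  have hpoly : S * (P1 * X 1 ^ (n + N) * Polynomial.aeval (X 0 * X 1) G2 ^ N2 -
      P2' * Polynomial.aeval (X 0) G1 ^ N1) =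
      X 0 * (R * X 1 ^ (n + N) * Polynomial.aeval (X 0 * X 1) G2 ^ N2 *
        Polynomial.aeval (X 0) G1 ^ N1) := by
    rw [← sub_eq_zero]
    apply hc.inj
    have e1 : psi s1 t1 (S * (P1 * X 1 ^ (n + N) * Polynomial.aeval (X 0 * X 1) G2 ^ N2 -
      P2' * Polynomial.aeval (X 0) G1 ^ N1) - X 0 * (R * X 1 ^ (n + N) *
        Polynomial.aeval (X 0 * X 1) G2 ^ N2 * Polynomial.aeval (X 0) G1 ^ N1)) =
      psi s1 t1 S * (psi s1 t1 P1 * t1 ^ (n + N) *
        psi s1 t1 (Polynomial.aeval (X 0 * X 1) G2 ^ N2) -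
        psi s1 t1 P2' * psi s1 t1 (Polynomial.aeval (X 0) G1 ^ N1)) -
      s1 * (psi s1 t1 R * t1 ^ (n + N) * psi s1 t1 (Polynomial.aeval (X 0 * X 1) G2 ^ N2) *
        psi s1 t1 (Polynomial.aeval (X 0) G1 ^ N1)) := by
      simp only [map_sub, map_mul, map_pow, d9_X0, d9_X1]
    rw [e1, hA, ← hP1, ← hP2, hD, h2]
    linear_combination (t1 ^ (n + N) * psi s1 t1 (Polynomial.aeval (X 0 * X 1) G2 ^ N2) *
      psi s1 t1 (Polynomial.aeval (X 0) G1 ^ N1)) * hRS
  have h3 := congrArg (eval ![0, b]) hpoly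
  simp only [map_mul, map_sub, map_pow, d9_eval, eval_X, Matrix.cons_val_zero,
    Matrix.cons_val_one, zero_mul] at h3
  have h4 : eval ![0, b] P1 * b ^ (n + N) * G2.eval 0 ^ N2 -
      eval ![0, b] P2' * G1.eval 0 ^ N1 = 0 := (mul_eq_zero.1 h3).resolve_left hS
  rw [hB', pow_add] at h4
  have h5 : b ^ N * (eval ![0, b] P1 * b ^ n * G2.eval 0 ^ N2 -
      eval ![0, b⁻¹] P2 * G1.eval 0 ^ N1) = 0 := by linear_combination h4
  exact sub_eq_zero.1 ((mul_eq_zero.1 h5).resolve_left (pow_ne_zero _ hb))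

private theorem d9_ne (h : LinearIndependent ℂ ![lx, ly, lz]) :
    fl lx ≠ 0 ∧ fl ly ≠ 0 ∧ fl lz ≠ 0 :=
  ⟨fl_ne_zero (h.ne_zero 0), fl_ne_zero (h.ne_zero 1), fl_ne_zero (h.ne_zero 2)⟩

private theorem d9_perm (h : LinearIndependent ℂ ![lx, ly, lz]) :
    LinearIndependent ℂ ![ly, lx, lz] := by
  have h1 := h.comp ![1, 0, 2] (by decide)
  convert h1 using 1
  funext i
  fin_cases i <;> rfl

theorem rloc_swap (h : LinearIndependent ℂ ![lx, ly, lz]) {a b : ℂ} (hb : b ≠ 0) (g : Fn) :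
    RLoc (fl lx / fl lz) (fl ly / fl lx) a b g ↔
      RLoc (fl ly / fl lz) (fl lx / fl ly) (a * b) b⁻¹ g := by
  obtain ⟨hx, hy, hz⟩ := d9_ne h
  constructor
  · intro h1
    refine d9_swap ?_ ?_ hb g h1
    · field_simp
    · field_simp
  · intro h1
    have h2 := d9_swap (s2 := fl lx / fl lz) (t2 := fl ly / fl lx) (by field_simp) (by field_simp)
      (inv_ne_zero hb) g h1
    rw [inv_inv, mul_assoc, mul_inv_cancel₀ hb, mul_one] at h2
    exact h2

theorem descent (h : LinearIndependent ℂ ![lx, ly, lz]) {G1 G2 : Polynomial ℂ}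
    (hG1 : G1.eval 0 ≠ 0) (hG2 : G2.eval 0 ≠ 0) {f1 f2 : Fn} (m0 : ℕ)
    (h1 : ∀ a b, a ≠ 0 → G1.eval a ≠ 0 → RLoc (fl lx / fl lz) (fl ly / fl lx) a b f1)
    (h2 : ∀ a b, a ≠ 0 → G2.eval a ≠ 0 → RLoc (fl ly / fl lz) (fl lx / fl ly) a b f2)
    (h12 : ∀ a b, G1.eval a ≠ 0 → b ≠ 0 → G2.eval (a * b) ≠ 0 →
      RLoc (fl lx / fl lz) (fl ly / fl lx) a b ((f1 - f2) * (fl lx / fl lz) ^ m0)) :
    (∀ b, RLoc (fl lx / fl lz) (fl ly / fl lx) 0 b (f1 * (fl lx / fl lz) ^ m0)) ∧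
      (∀ b, RLoc (fl ly / fl lz) (fl lx / fl ly) 0 b (f2 * (fl ly / fl lz) ^ m0)) := by
  obtain ⟨hx, hy, hz⟩ := d9_ne h
  have hc1 := coordB h
  have hc2 := coordB (d9_perm h)
  have e2 : fl ly / fl lz = fl lx / fl lz * (fl ly / fl lx) := by field_simp
  have e1 : fl lx / fl ly * (fl ly / fl lx) = 1 := by field_simp
  have hX0 : fl lx / fl lz ≠ 0 := div_ne_zero hx hz
  have hY0 : fl ly / fl lz ≠ 0 := div_ne_zero hy hz
  generalize fl lx / fl lz = s1 at *
  generalize fl ly / fl lz = s2 at *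
  generalize fl ly / fl lx = t1 at *
  generalize fl lx / fl ly = t2 at *
  obtain ⟨N1, P1, hP1⟩ := rloc_inter hc1 (X 0 * Polynomial.aeval (X 0) G1) f1 (by
    intro a b hab
    rw [map_mul, d9_eval] at hab
    simp only [eval_X, Matrix.cons_val_zero] at hab
    exact h1 a b (left_ne_zero_of_mul hab) (right_ne_zero_of_mul hab))
  obtain ⟨N2, P2, hP2⟩ := rloc_inter hc2 (X 0 * Polynomial.aeval (X 0) G2) f2 (by
    intro a b hab
    rw [map_mul, d9_eval] at hab
    simp only [eval_X, Matrix.cons_val_zero] at hab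
    exact h2 a b (left_ne_zero_of_mul hab) (right_ne_zero_of_mul hab))
  have key : ∀ k : ℕ, (∃ Q1 Q2 : MvPolynomial (Fin 2) ℂ,
      f1 * s1 ^ (m0 + k) * psi s1 t1 (Polynomial.aeval (X 0) G1 ^ N1) = psi s1 t1 Q1 ∧
      f2 * s2 ^ (m0 + k) * psi s2 t2 (Polynomial.aeval (X 0) G2 ^ N2) = psi s2 t2 Q2) →
      (∃ Q1 Q2 : MvPolynomial (Fin 2) ℂ,
      f1 * s1 ^ m0 * psi s1 t1 (Polynomial.aeval (X 0) G1 ^ N1) = psi s1 t1 Q1 ∧
      f2 * s2 ^ m0 * psi s2 t2 (Polynomial.aeval (X 0) G2 ^ N2) = psi s2 t2 Q2) := by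
    intro k
    induction k with
    | zero => intro hk; exact hk
    | succ k ih =>
      rintro ⟨Q1, Q2, hQ1, hQ2⟩
      apply ih
      have hm : ∀ b : ℂ, b ≠ 0 → eval ![0, b] Q1 * b ^ (m0 + (k + 1)) * G2.eval 0 ^ N2 =
          eval ![0, b⁻¹] Q2 * G1.eval 0 ^ N1 := by
        intro b hb
        obtain ⟨R, S, hS, hRS⟩ := h12 0 b hG1 hb (by rw [zero_mul]; exact hG2)
        refine d9_match hc1 e2 e1 hQ1 hQ2 hb (R := X 0 ^ k * R) hS ?_
        rw [map_mul, ← hRS, map_pow, d9_X0]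
        ring
      obtain ⟨q1, Q1', hq1⟩ := d9_dec Q1
      obtain ⟨q2, Q2', hq2⟩ := d9_dec Q2
      obtain ⟨c, hc, hd⟩ := d9_const (p := q1 * Polynomial.X ^ (m0 + (k + 1)) *
          Polynomial.C (G2.eval 0 ^ N2)) (q := q2 * Polynomial.C (G1.eval 0 ^ N1)) (by
        intro b hb
        have := hm b hb
        rw [d9_evdec hq1, d9_evdec hq2] at this
        simpa using this)
      have hc0 : c = 0 := by
        have := congrArg (Polynomial.eval 0) hc
        simp only [Polynomial.eval_mul, Polynomial.eval_pow, Polynomial.eval_X,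
          Polynomial.eval_C] at this
        rw [← this, zero_pow (by omega)]
        ring
      rw [hc0, Polynomial.C_0] at hc hd
      have hq10 : q1 = 0 := by
        rcases mul_eq_zero.1 hc with h3 | h3
        · rcases mul_eq_zero.1 h3 with h4 | h4
          · exact h4
          · exact absurd h4 (pow_ne_zero _ Polynomial.X_ne_zero)
        · rw [Polynomial.C_eq_zero] at h3
          exact absurd h3 (pow_ne_zero _ hG2)
      have hq20 : q2 = 0 := by
        rcases mul_eq_zero.1 hd with h3 | h3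
        · exact h3
        · rw [Polynomial.C_eq_zero] at h3
          exact absurd h3 (pow_ne_zero _ hG1)
      rw [hq10, map_zero, zero_add] at hq1
      rw [hq20, map_zero, zero_add] at hq2
      refine ⟨Q1', Q2', ?_, ?_⟩
      · rw [hq1, map_mul, d9_X0] at hQ1
        apply mul_left_cancel₀ hX0
        rw [← hQ1]; ring
      · rw [hq2, map_mul, d9_X0] at hQ2
        apply mul_left_cancel₀ hY0
        rw [← hQ2]; ring
  obtain ⟨Q1, Q2, hQ1, hQ2⟩ := key (N1 + N2) ⟨X 0 ^ (m0 + N2) * P1, X 0 ^ (m0 + N1) * P2, by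
      rw [map_mul (psi s1 t1) (X 0 ^ (m0 + N2)) P1, ← hP1]
      simp only [mul_pow, map_mul, map_pow, d9_X0]
      ring, by
      rw [map_mul (psi s2 t2) (X 0 ^ (m0 + N1)) P2, ← hP2]
      simp only [mul_pow, map_mul, map_pow, d9_X0]
      ring⟩
  constructor
  · intro b
    refine ⟨Q1, Polynomial.aeval (X 0) G1 ^ N1, ?_, hQ1⟩
    rw [map_pow, d9_eval]
    simpa using pow_ne_zero N1 hG1
  · intro b
    refine ⟨Q2, Polynomial.aeval (X 0) G2 ^ N2, ?_, hQ2⟩
    rw [map_pow, d9_eval]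
    simpa using pow_ne_zero N2 hG2

theorem const_E (h : LinearIndependent ℂ ![lx, ly, lz]) {G1 G2 : Polynomial ℂ}
    (hG1 : G1.eval 0 ≠ 0) (hG2 : G2.eval 0 ≠ 0) {f1 f2 : Fn}
    (h1 : ∀ a b, G1.eval a ≠ 0 → RLoc (fl lx / fl lz) (fl ly / fl lx) a b f1)
    (h2 : ∀ a b, G2.eval a ≠ 0 → RLoc (fl ly / fl lz) (fl lx / fl ly) a b f2)
    (h12 : ∀ b, b ≠ 0 →
      RLoc (fl lx / fl lz) (fl ly / fl lx) 0 b ((f1 - f2) / (fl lx / fl lz))) :
    ∃ c : ℂ, (∀ b, RLoc (fl lx / fl lz) (fl ly / fl lx) 0 b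
        ((f1 - algebraMap ℂ Fn c) / (fl lx / fl lz))) ∧
      (∀ b, RLoc (fl ly / fl lz) (fl lx / fl ly) 0 b
        ((f2 - algebraMap ℂ Fn c) / (fl ly / fl lz))) := by
  obtain ⟨hx, hy, hz⟩ := d9_ne h
  have hc1 := coordB h
  have hc2 := coordB (d9_perm h)
  have e2 : fl ly / fl lz = fl lx / fl lz * (fl ly / fl lx) := by field_simp
  have e1 : fl lx / fl ly * (fl ly / fl lx) = 1 := by field_simp
  have hX0 : fl lx / fl lz ≠ 0 := div_ne_zero hx hz
  have hY0 : fl ly / fl lz ≠ 0 := div_ne_zero hy hz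
  generalize fl lx / fl lz = s1 at *
  generalize fl ly / fl lz = s2 at *
  generalize fl ly / fl lx = t1 at *
  generalize fl lx / fl ly = t2 at *
  obtain ⟨N1, P1, hP1⟩ := rloc_inter hc1 (Polynomial.aeval (X 0) G1) f1 (by
    intro a b hab
    rw [d9_eval] at hab
    simp only [eval_X, Matrix.cons_val_zero] at hab
    exact h1 a b hab)
  obtain ⟨N2, P2, hP2⟩ := rloc_inter hc2 (Polynomial.aeval (X 0) G2) f2 (by
    intro a b hab
    rw [d9_eval] at hab
    simp only [eval_X, Matrix.cons_val_zero] at hab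
    exact h2 a b hab)
  have hm : ∀ b : ℂ, b ≠ 0 → eval ![0, b] P1 * b ^ 0 * G2.eval 0 ^ N2 =
      eval ![0, b⁻¹] P2 * G1.eval 0 ^ N1 := by
    intro b hb
    obtain ⟨R, S, hS, hRS⟩ := h12 b hb
    refine d9_match hc1 e2 e1 (f1 := f1) (f2 := f2) (n := 0) ?_ ?_ hb (R := R) hS ?_
    · rw [pow_zero, mul_one]; exact hP1
    · rw [pow_zero, mul_one]; exact hP2
    · rw [← hRS, pow_zero, mul_one]
      field_simp
  obtain ⟨q1, Q1', hq1⟩ := d9_dec P1
  obtain ⟨q2, Q2', hq2⟩ := d9_dec P2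
  obtain ⟨c, hc, hd⟩ := d9_const (p := q1 * Polynomial.C (G2.eval 0 ^ N2))
      (q := q2 * Polynomial.C (G1.eval 0 ^ N1)) (by
    intro b hb
    have := hm b hb
    rw [d9_evdec hq1, d9_evdec hq2] at this
    simpa using this)
  have hg1 : G1.eval 0 ^ N1 ≠ 0 := pow_ne_zero _ hG1
  have hg2 : G2.eval 0 ^ N2 ≠ 0 := pow_ne_zero _ hG2
  refine ⟨c / (G1.eval 0 ^ N1 * G2.eval 0 ^ N2), ?_, ?_⟩
  · obtain ⟨R, hR⟩ := d9_dvd (P := P1 - C (c / (G1.eval 0 ^ N1 * G2.eval 0 ^ N2)) *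
      Polynomial.aeval (X 0) G1 ^ N1) (by
      intro b
      rw [map_sub, map_mul, map_pow, d9_eval, d9_evdec hq1]
      have := congrArg (Polynomial.eval b) hc
      simp only [Polynomial.eval_mul, Polynomial.eval_C] at this
      simp only [eval_C, eval_X, Matrix.cons_val_zero]
      rw [← this]
      field_simp
      ring)
    intro b
    refine ⟨R, Polynomial.aeval (X 0) G1 ^ N1, ?_, ?_⟩
    · rw [map_pow, d9_eval]
      simpa using hg1
    · have h3 := congrArg (psi s1 t1) hR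
      rw [map_sub, map_mul, map_mul, d9_X0, d9_C, ← hP1] at h3
      rw [div_mul_eq_mul_div, div_eq_iff hX0]
      rw [mul_comm (psi s1 t1 R), ← h3]
      ring
  · obtain ⟨R, hR⟩ := d9_dvd (P := P2 - C (c / (G1.eval 0 ^ N1 * G2.eval 0 ^ N2)) *
      Polynomial.aeval (X 0) G2 ^ N2) (by
      intro b
      rw [map_sub, map_mul, map_pow, d9_eval, d9_evdec hq2]
      have := congrArg (Polynomial.eval b) hd
      simp only [Polynomial.eval_mul, Polynomial.eval_C] at this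
      simp only [eval_C, eval_X, Matrix.cons_val_zero]
      rw [← this]
      field_simp
      ring)
    intro b
    refine ⟨R, Polynomial.aeval (X 0) G2 ^ N2, ?_, ?_⟩
    · rw [map_pow, d9_eval]
      simpa using hg2
    · have h3 := congrArg (psi s2 t2) hR
      rw [map_sub, map_mul, map_mul, d9_X0, d9_C, ← hP2] at h3
      rw [div_mul_eq_mul_div, div_eq_iff hY0]
      rw [mul_comm (psi s2 t2 R), ← h3]
      ring

end HKR
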