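import Pool.Agent.Lib.HKR.A2
import Pool.Agent.Lib.HKR.D6
import Pool.Agent.Lib.HKR.D7
import Pool.Agent.Lib.HKR.D8
import Pool.Agent.Lib.HKR.D9
/-!
HKR.D10 (Cousin theorem).  m ≥ 0, N = (D;m), and every polynomial is congruent to one of degree ≤ D-3 modulo
the ideals pI(q)^(m_q - 1), q ∈ Q.  Then every locally constant family mod O(-N) is global.
PROOF.  eA, eB by solveU_x, solveU_y; eA - eB is a section on UQ lx ∩ UQ ly; formU: r, C.  For h in the fat ideal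
fatI Q' μ (Q' = image of Q under (lx,ly), μ = m - 1 truncated): C h ∈ abI (A^r) (B^r) by mem_abI_local: at a common
zero (a,b) of A^r, B^r: either (a,b) = (lx q0, ly q0) for q0 ∈ Q: mult_zero; or the point q = e_z + a e_x + b e_y is
not multiple (a multiple point with lz = 1 is in Q): extra_zero times h.  mem_abI_of_surj (r|Q| + r|Q| is the
degree sum): C ∈ abI (A^r) (B^r).  glue: e0.
Final check at every y:
 - lz(y.q) = 0: y is in UQ lx or in UQ ly (else lx(y.q) = 0 = ly(y.q) = lz(y.q)).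
 - y ∈ UQ lx or UQ ly: done.
 - otherwise lz ≠ 0, y not multiple: (a0,b0) is a common zero of A, B.  LC at y: T, rloc_open: H0.  H := H0 * (product
   killing all the other points (lx q, ly q'), q, q' ∈ Q, different from (a0,b0)); points of D(H) other than
   (a0,b0) in the plane lz ≠ 0 are in UQ lx or UQ ly and not multiple.  hartogs for (e0 - e y) lz^D.
 - y.q multiple: y.q = c q0, q0 ∈ Q.  With e1, e2 as in D7 (chart_blow at q0): f1 := (e0 - e1) lz^D,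
   f2 := (e0 - e2) lz^D, descent with m0 = m_q0 gives: e0 - e1 is a section at the directions w with
   lx'(w) ≠ 0, e0 - e2 at those with ly'(w) ≠ 0; one of them holds.  (Hypotheses of descent: a point of chart 1 with
   a ≠ 0, G1(a) ≠ 0 may be in neither UQ lx nor UQ ly, but such a y is not multiple, and by the previous cases
   e0 - e y is a section at y: so e0 - e1 is.)
-/
open MvPolynomial
namespace HKR
variable {k : ℕ} {L : Fin k → Fin 3 → ℂ} {lx ly lz : Fin 3 → ℂ} {Q : Finset (Fin 3 → ℂ)}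

/-! ### linear algebra -/

private theorem d10_vec (h : LinearIndependent ℂ ![lx, ly, lz]) (a b c : ℂ) :
    ∃ q : Fin 3 → ℂ, lx ⬝ᵥ q = a ∧ ly ⬝ᵥ q = b ∧ lz ⬝ᵥ q = c := by
  have h2 : IsUnit (Matrix.of ![lx, ly, lz]) :=
    Matrix.linearIndependent_rows_iff_isUnit.1 h
  have h3 : (Matrix.of ![lx, ly, lz]).mulVec
      ((Matrix.of ![lx, ly, lz])⁻¹.mulVec ![a, b, c]) = ![a, b, c] := by
    rw [Matrix.mulVec_mulVec, Matrix.mul_nonsing_inv _ ((Matrix.isUnit_iff_isUnit_det _).1 h2),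
      Matrix.one_mulVec]
  refine ⟨(Matrix.of ![lx, ly, lz])⁻¹.mulVec ![a, b, c], ?_, ?_, ?_⟩
  · exact congrFun h3 0
  · exact congrFun h3 1
  · exact congrFun h3 2

private theorem d10_pt (h : LinearIndependent ℂ ![lx, ly, lz]) (a b c : ℂ)
    (h0 : a ≠ 0 ∨ b ≠ 0 ∨ c ≠ 0) :
    ∃ y : Pt, lx ⬝ᵥ y.q = a ∧ ly ⬝ᵥ y.q = b ∧ lz ⬝ᵥ y.q = c := by
  obtain ⟨q, h1, h2, h3⟩ := d10_vec h a b c
  have hq : q ≠ 0 := by
    rintro rfl
    simp only [dotProduct_zero] at h1 h2 h3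
    rcases h0 with h0 | h0 | h0
    · exact h0 h1.symm
    · exact h0 h2.symm
    · exact h0 h3.symm
  have hr : 1 < Module.finrank ℂ (Fin 3 → ℂ) := by simp
  obtain ⟨w, hw⟩ := exists_linearIndependent_pair_of_one_lt_finrank hr hq
  exact ⟨⟨q, w, hw⟩, h1, h2, h3⟩

private theorem d10_q_ne (y : Pt) : y.q ≠ 0 := by
  have := y.ind.ne_zero 0
  simpa using this

private theorem d10_ind_iff {a b c : Fin 3 → ℂ} : LinearIndependent ℂ ![a, b, c] ↔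
    ∀ x y z : ℂ, x • a + y • b + z • c = 0 → x = 0 ∧ y = 0 ∧ z = 0 := by
  rw [Fintype.linearIndependent_iff]
  constructor
  · intro h x y z hxyz
    have h1 := h ![x, y, z] (by simpa [Fin.sum_univ_three] using hxyz)
    exact ⟨h1 0, h1 1, h1 2⟩
  · intro h g hg i
    have h1 := h (g 0) (g 1) (g 2) (by simpa [Fin.sum_univ_three] using hg)
    fin_cases i
    · exact h1.1
    · exact h1.2.1
    · exact h1.2.2

private theorem d10_shift (h : LinearIndependent ℂ ![lx, ly, lz]) (c d : ℂ) :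
    LinearIndependent ℂ ![lx - c • lz, ly - d • lz, lz] := by
  rw [d10_ind_iff] at h ⊢
  intro x y z hxyz
  obtain ⟨h2, h3, h4⟩ := h x y (z - x * c - y * d) (by
    rw [← hxyz]; module)
  refine ⟨h2, h3, ?_⟩
  rw [h2, h3] at h4; simpa using h4

private theorem d10_swap (h : LinearIndependent ℂ ![lx, ly, lz]) :
    LinearIndependent ℂ ![ly, lx, lz] := by
  rw [d10_ind_iff] at h ⊢
  intro x y z hxyz
  have h1 := h y x z (by
    rw [← hxyz]; module)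
  exact ⟨h1.2.1, h1.1, h1.2.2⟩

private theorem d10_fl_sub (l l' : Fin 3 → ℂ) (c : ℂ) :
    fl (l - c • l') = fl l - algebraMap ℂ Fn c * fl l' := by
  have h1 : lin (l - c • l') = lin l - C c * lin l' := by
    simp only [lin, Pi.sub_apply, Pi.smul_apply, smul_eq_mul, map_sub, map_mul, sub_mul,
      Finset.sum_sub_distrib, Finset.mul_sum, mul_assoc]
  have h2 : aff (C c) = algebraMap ℂ Fn c := aff.commutes c
  unfold fl
  rw [h1, map_sub, map_mul, h2]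

/-! ### charts -/

open Classical in
private noncomputable def d10gq (l : Fin 3 → ℂ) (Q : Finset (Fin 3 → ℂ)) (q0 : Fin 3 → ℂ) :
    Polynomial ℂ :=
  ∏ q ∈ Q.filter (fun q => l ⬝ᵥ q ≠ l ⬝ᵥ q0), (Polynomial.X - Polynomial.C (l ⬝ᵥ q - l ⬝ᵥ q0))

private theorem d10gq_zero (l q0 : Fin 3 → ℂ) : (d10gq l Q q0).eval 0 ≠ 0 := by
  unfold d10gq
  rw [Polynomial.eval_prod, Finset.prod_ne_zero_iff]
  intro q hq
  rw [Finset.mem_filter] at hq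
  rw [Polynomial.eval_sub, Polynomial.eval_X, Polynomial.eval_C, zero_sub, neg_ne_zero,
    sub_ne_zero]
  exact hq.2

private theorem d10gq_nm (hX : Ctx L lx ly lz Q) {l q0 : Fin 3 → ℂ} {y : Pt}
    (hz : lz ⬝ᵥ y.q ≠ 0) (h1 : (l - (l ⬝ᵥ q0) • lz) ⬝ᵥ y.q ≠ 0)
    (h2 : (d10gq l Q q0).eval ((l - (l ⬝ᵥ q0) • lz) ⬝ᵥ y.q / lz ⬝ᵥ y.q) ≠ 0) :
    ¬ Multiple L y.q := by
  intro hm
  have hmem : (lz ⬝ᵥ y.q)⁻¹ • y.q ∈ Q := by
    rw [hX.memQ]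
    constructor
    · obtain ⟨a, b, c, h1, h2, h3, h4, h5, h6⟩ := hm
      exact ⟨a, b, c, h1, h2, h3, by rw [dotProduct_smul, h4, smul_zero],
        by rw [dotProduct_smul, h5, smul_zero], by rw [dotProduct_smul, h6, smul_zero]⟩
    · rw [dotProduct_smul, smul_eq_mul, inv_mul_cancel₀ hz]
  have e1 : (l - (l ⬝ᵥ q0) • lz) ⬝ᵥ y.q / lz ⬝ᵥ y.q =
      l ⬝ᵥ ((lz ⬝ᵥ y.q)⁻¹ • y.q) - l ⬝ᵥ q0 := by
    rw [dotProduct_smul, sub_dotProduct, smul_dotProduct, smul_eq_mul, smul_eq_mul]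
    field_simp
  apply h2
  unfold d10gq
  rw [Polynomial.eval_prod]
  refine Finset.prod_eq_zero (i := (lz ⬝ᵥ y.q)⁻¹ • y.q) ?_ ?_
  · rw [Finset.mem_filter]
    refine ⟨hmem, ?_⟩
    rw [← sub_ne_zero, ← e1]
    exact div_ne_zero h1 hz
  · rw [Polynomial.eval_sub, Polynomial.eval_X, Polynomial.eval_C, e1, sub_self]

private theorem d10_sect_plane {D : ℤ} {m : Finset (Fin k) → ℤ} {y : Pt} {f : Fn}
    (hz : lz ⬝ᵥ y.q ≠ 0) (hm : ¬ Multiple L y.q) :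
    Sect L D m y f ↔ Regular L y (f * fl lz ^ D) := by
  obtain ⟨lam, sig, tau, h1, h2, h3, h4, h5, h6, h7⟩ := exists_forms y
  rw [sect_iff hz h3 (by rw [h4]; exact one_ne_zero)]
  have h0 : muq L m y = 0 := by
    unfold muq
    rw [if_neg hm]
  rw [h0, sub_zero, zpow_zero, mul_one]

private theorem d10_mem (hX : Ctx L lx ly lz Q) {y : Pt} (hm : Multiple L y.q) :
    (lz ⬝ᵥ y.q)⁻¹ • y.q ∈ Q := by
  have hz := hX.nz y.q (d10_q_ne y) hm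
  rw [hX.memQ]
  constructor
  · obtain ⟨a, b, c, h1, h2, h3, h4, h5, h6⟩ := hm
    exact ⟨a, b, c, h1, h2, h3, by rw [dotProduct_smul, h4, smul_zero],
      by rw [dotProduct_smul, h5, smul_zero], by rw [dotProduct_smul, h6, smul_zero]⟩
  · rw [dotProduct_smul, smul_eq_mul, inv_mul_cancel₀ hz]

private theorem d10_not_mult {l : Fin 3 → ℂ} (hX : Ctx L lx ly lz Q) {y : Pt} (hU : UQ l lz Q y) :
    ¬ Multiple L y.q := by
  intro hm
  have hz := hX.nz y.q (d10_q_ne y) hm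
  apply hU _ (d10_mem hX hm)
  rw [dotProduct_smul, smul_eq_mul]
  field_simp

private theorem d10_ker (h : LinearIndependent ℂ ![lx, ly, lz]) {v : Fin 3 → ℂ}
    (h1 : lx ⬝ᵥ v = 0) (h2 : ly ⬝ᵥ v = 0) (h3 : lz ⬝ᵥ v = 0) : v = 0 := by
  have hu : IsUnit (Matrix.of ![lx, ly, lz]) :=
    Matrix.linearIndependent_rows_iff_isUnit.1 h
  have hdet : (Matrix.of ![lx, ly, lz]).det ≠ 0 := ((Matrix.isUnit_iff_isUnit_det _).1 hu).ne_zero
  apply Matrix.eq_zero_of_mulVec_eq_zero hdet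
  funext i
  fin_cases i
  · exact h1
  · exact h2
  · exact h3

private theorem d10_SS_smul {p : Fin 3 → ℂ} {c : ℂ} (hc : c ≠ 0) : SS L (c • p) = SS L p := by
  unfold SS
  ext i
  simp [dotProduct_smul, hc]

/-! ### the ideal membership -/

private theorem d10_PQ_ne {l : Fin 3 → ℂ} {a : ℂ} {r : ℕ} (hr : 1 ≤ r)
    (h : (PQ l Q ^ r).eval a = 0) : ∃ q ∈ Q, a = l ⬝ᵥ q := by
  rw [Polynomial.eval_pow] at h
  have h1 := eq_zero_of_pow_eq_zero h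
  unfold PQ at h1
  rw [Polynomial.eval_prod, Finset.prod_eq_zero_iff] at h1
  obtain ⟨q, hq, h2⟩ := h1
  refine ⟨q, hq, ?_⟩
  rw [Polynomial.eval_sub, Polynomial.eval_X, Polynomial.eval_C, sub_eq_zero] at h2
  exact h2

private theorem d10_deg (l : Fin 3 → ℂ) (r : ℕ) : (PQ l Q ^ r).natDegree = r * Q.card := by
  have h1 : (PQ l Q).Monic :=
    Polynomial.monic_prod_of_monic _ _ fun q _ => Polynomial.monic_X_sub_C _
  rw [h1.natDegree_pow, PQ, Polynomial.natDegree_prod_of_monic _ _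
    (fun q _ => Polynomial.monic_X_sub_C _)]
  simp

open Classical in
private noncomputable def d10mu (L : Fin k → Fin 3 → ℂ) (lx ly : Fin 3 → ℂ)
    (Q : Finset (Fin 3 → ℂ)) (m : Finset (Fin k) → ℤ) (P : Fin 2 → ℂ) : ℕ :=
  ∑ q ∈ Q.filter (fun q => (![lx ⬝ᵥ q, ly ⬝ᵥ q] : Fin 2 → ℂ) = P), (m (SS L q) - 1).toNat

private theorem d10mu_eq (hX : Ctx L lx ly lz Q) (m : Finset (Fin k) → ℤ) {q : Fin 3 → ℂ}
    (hq : q ∈ Q) : d10mu L lx ly Q m ![lx ⬝ᵥ q, ly ⬝ᵥ q] = (m (SS L q) - 1).toNat := by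
  classical
  unfold d10mu
  have h1 : Q.filter (fun q' => (![lx ⬝ᵥ q', ly ⬝ᵥ q'] : Fin 2 → ℂ) = ![lx ⬝ᵥ q, ly ⬝ᵥ q]) = {q} := by
    ext q'
    rw [Finset.mem_filter, Finset.mem_singleton]
    constructor
    · rintro ⟨h2, h3⟩
      have e1 : lx ⬝ᵥ q' = lx ⬝ᵥ q := congrFun h3 0
      have e2 : ly ⬝ᵥ q' = ly ⬝ᵥ q := congrFun h3 1
      have e3 : lz ⬝ᵥ q' = lz ⬝ᵥ q := by
        rw [((hX.memQ q').1 h2).2, ((hX.memQ q).1 hq).2]
      have := d10_ker hX.ind (v := q' - q) (by rw [dotProduct_sub, e1, sub_self])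
        (by rw [dotProduct_sub, e2, sub_self]) (by rw [dotProduct_sub, e3, sub_self])
      exact sub_eq_zero.1 this
    · rintro rfl
      exact ⟨hq, rfl⟩
  rw [h1, Finset.sum_singleton]

private theorem d10_C_mem (hX : Ctx L lx ly lz Q) {D : ℕ} {m : Finset (Fin k) → ℤ}
    (hm : ∀ S, 0 ≤ m S)
    (hS : ∀ f : MvPolynomial (Fin 2) ℂ, ∃ h : MvPolynomial (Fin 2) ℂ,
      (h = 0 ∨ h.totalDegree + 3 ≤ D) ∧
      ∀ q ∈ Q, f - h ∈ pI ![lx ⬝ᵥ q, ly ⬝ᵥ q] ^ (m (SS L q) - 1).toNat)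
    (e : Pt → Fn) (he : LC L (Sect L D m) e) {eA eB : Fn}
    (hA : ∀ y, UQ lx lz Q y → Sect L D m y (eA - e y))
    (hB : ∀ y, UQ ly lz Q y → Sect L D m y (eB - e y)) {r : ℕ} (hr : 1 ≤ r)
    {C : MvPolynomial (Fin 2) ℂ}
    (hf : (eA - eB) * fl lz ^ D * psi (fl lx / fl lz) (fl ly / fl lz)
        (uni 0 (PQ lx Q ^ r) * uni 1 (PQ ly Q ^ r)) = psi (fl lx / fl lz) (fl ly / fl lz) C)
    (hd : C.totalDegree + D ≤ 2 * r * Q.card) : C ∈ abI (PQ lx Q ^ r) (PQ ly Q ^ r) := by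
  classical
  have hmonic : ∀ l : Fin 3 → ℂ, (PQ l Q ^ r).Monic := fun l =>
    (Polynomial.monic_prod_of_monic _ _ fun q _ => Polynomial.monic_X_sub_C _).pow r
  refine mem_abI_of_surj (Q := Q.image fun q => (![lx ⬝ᵥ q, ly ⬝ᵥ q] : Fin 2 → ℂ))
    (μ := d10mu L lx ly Q m) (D := D) ?_ _ _ (hmonic lx) (hmonic ly) C ?_ ?_
  · intro f
    obtain ⟨h, h1, h2⟩ := hS f
    refine ⟨h, h1, ?_⟩
    unfold fatI
    rw [Ideal.mem_iInf]
    intro P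
    rw [Ideal.mem_iInf]
    intro hP
    rw [Finset.mem_image] at hP
    obtain ⟨q, hq, rfl⟩ := hP
    rw [d10mu_eq hX m hq]
    exact h2 q hq
  · intro h hh
    have hh' : ∀ q ∈ Q, h ∈ pI ![lx ⬝ᵥ q, ly ⬝ᵥ q] ^ (m (SS L q) - 1).toNat := by
      intro q hq
      unfold fatI at hh
      rw [Ideal.mem_iInf] at hh
      have h1 := hh ![lx ⬝ᵥ q, ly ⬝ᵥ q]
      rw [Ideal.mem_iInf] at h1
      have h2 := h1 (Finset.mem_image_of_mem _ hq)
      rwa [d10mu_eq hX m hq] at h2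
    refine mem_abI_local _ ?_
    intro a b ha hb
    obtain ⟨y, y1, y2, y3⟩ := d10_pt hX.ind a b 1 (Or.inr (Or.inr one_ne_zero))
    by_cases hmul : Multiple L y.q
    · have hyQ : y.q ∈ Q := (hX.memQ y.q).2 ⟨hmul, y3⟩
      obtain ⟨H, h1, h2⟩ := mult_zero hX e he hA hB hf hyQ (hm _) (hh' y.q hyQ)
      rw [y1, y2] at h1
      exact ⟨H, h1, h2⟩
    · obtain ⟨H, h1, h2⟩ := extra_zero hX e he hA hB hf y (by rw [y3]; exact one_ne_zero) hmul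
      rw [y1, y2, y3, div_one, div_one] at h1
      refine ⟨H, h1, ?_⟩
      rw [← mul_assoc]
      exact Ideal.mul_mem_right _ _ h2
  · rw [d10_deg, d10_deg]
    calc C.totalDegree + D ≤ 2 * r * Q.card := hd
      _ = r * Q.card + r * Q.card := by ring

/-! ### points that are not multiple -/

private theorem d10_plane (hX : Ctx L lx ly lz Q) {D : ℕ} {m : Finset (Fin k) → ℤ}
    (e : Pt → Fn) (he : LC L (Sect L D m) e) {e0 : Fn}
    (hA : ∀ y, UQ lx lz Q y → Sect L D m y (e0 - e y))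
    (hB : ∀ y, UQ ly lz Q y → Sect L D m y (e0 - e y)) (y : Pt) (hnm : ¬ Multiple L y.q) :
    Sect L D m y (e0 - e y) := by
  classical
  by_cases hUx : UQ lx lz Q y
  · exact hA y hUx
  by_cases hUy : UQ ly lz Q y
  · exact hB y hUy
  have hx : ∃ q ∈ Q, lx ⬝ᵥ y.q = (lx ⬝ᵥ q) * (lz ⬝ᵥ y.q) := by
    unfold UQ at hUx
    push Not at hUx
    exact hUx
  have hy : ∃ q ∈ Q, ly ⬝ᵥ y.q = (ly ⬝ᵥ q) * (lz ⬝ᵥ y.q) := by
    unfold UQ at hUy
    push Not at hUy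
    exact hUy
  have hz : lz ⬝ᵥ y.q ≠ 0 := by
    intro h
    obtain ⟨q, -, h1⟩ := hx
    obtain ⟨q', -, h2⟩ := hy
    rw [h, mul_zero] at h1 h2
    exact d10_q_ne y (d10_ker hX.ind h1 h2 h)
  set a0 := lx ⬝ᵥ y.q / lz ⬝ᵥ y.q with ha0
  set b0 := ly ⬝ᵥ y.q / lz ⬝ᵥ y.q with hb0
  have hc := coordP hX.ind
  obtain ⟨T, hT, hT'⟩ := he y
  obtain ⟨H0, hH0, hH0'⟩ := rloc_open (s := fl lx / fl lz) (t := fl ly / fl lz) (a := a0) (b := b0) T
    (fun f hf => (regP hX.ind hz hnm f).1 (hT f hf))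
  set K1 : MvPolynomial (Fin 2) ℂ := ∏ q ∈ Q.filter (fun q => lx ⬝ᵥ q ≠ a0),
    (X 0 - MvPolynomial.C (lx ⬝ᵥ q)) with hK1
  set K2 : MvPolynomial (Fin 2) ℂ := ∏ q ∈ Q.filter (fun q => ly ⬝ᵥ q ≠ b0),
    (X 1 - MvPolynomial.C (ly ⬝ᵥ q)) with hK2
  have eK1 : ∀ a b : ℂ, eval ![a, b] K1 ≠ 0 ↔ ∀ q ∈ Q, lx ⬝ᵥ q ≠ a0 → a ≠ lx ⬝ᵥ q := by
    intro a b
    rw [hK1, map_prod, Finset.prod_ne_zero_iff]
    constructor
    · intro h q hq h1
      have := h q (Finset.mem_filter.2 ⟨hq, h1⟩)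
      simpa [sub_ne_zero] using this
    · intro h q hq
      rw [Finset.mem_filter] at hq
      have := h q hq.1 hq.2
      simpa [sub_ne_zero] using this
  have eK2 : ∀ a b : ℂ, eval ![a, b] K2 ≠ 0 ↔ ∀ q ∈ Q, ly ⬝ᵥ q ≠ b0 → b ≠ ly ⬝ᵥ q := by
    intro a b
    rw [hK2, map_prod, Finset.prod_ne_zero_iff]
    constructor
    · intro h q hq h1
      have := h q (Finset.mem_filter.2 ⟨hq, h1⟩)
      simpa [sub_ne_zero] using this
    · intro h q hq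
      rw [Finset.mem_filter] at hq
      have := h q hq.1 hq.2
      simpa [sub_ne_zero] using this
  have hH : eval ![a0, b0] (H0 * (K1 * K2)) ≠ 0 := by
    rw [map_mul, map_mul]
    refine mul_ne_zero hH0 (mul_ne_zero ((eK1 a0 b0).2 ?_) ((eK2 a0 b0).2 ?_))
    · intro q _ h; exact h.symm
    · intro q _ h; exact h.symm
  have hmain : RLoc (fl lx / fl lz) (fl ly / fl lz) a0 b0 ((e0 - e y) * fl lz ^ (D : ℤ)) := by
    refine hartogs hc (H0 * (K1 * K2)) hH _ ?_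
    intro a b hab hne
    rw [map_mul, map_mul] at hab
    have h0 := left_ne_zero_of_mul hab
    have h1 := (eK1 a b).1 (left_ne_zero_of_mul (right_ne_zero_of_mul hab))
    have h2 := (eK2 a b).1 (right_ne_zero_of_mul (right_ne_zero_of_mul hab))
    obtain ⟨y', y1, y2, y3⟩ := d10_pt hX.ind a b 1 (Or.inr (Or.inr one_ne_zero))
    have z1 : lz ⬝ᵥ y'.q ≠ 0 := by rw [y3]; exact one_ne_zero
    have hU : ¬ Multiple L y'.q ∧ Sect L D m y' (e0 - e y') := by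
      rcases hne with hne | hne
      · have hU : UQ lx lz Q y' := by
          intro q hq
          rw [y1, y3, mul_one]
          by_cases h3 : lx ⬝ᵥ q = a0
          · rw [h3]; exact hne
          · exact h1 q hq h3
        exact ⟨d10_not_mult hX hU, hA y' hU⟩
      · have hU : UQ ly lz Q y' := by
          intro q hq
          rw [y2, y3, mul_one]
          by_cases h3 : ly ⬝ᵥ q = b0
          · rw [h3]; exact hne
          · exact h2 q hq h3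
        exact ⟨d10_not_mult hX hU, hB y' hU⟩
    have hreg : ∀ f ∈ T, Regular L y' f := by
      intro f hf
      rw [regP hX.ind z1 hU.1, y1, y2, y3, div_one, div_one]
      exact hH0' a b h0 f hf
    have hS := hU.2.add (hT' y' hreg)
    rw [sub_add_sub_cancel, d10_sect_plane z1 hU.1, regP hX.ind z1 hU.1, y1, y2, y3, div_one,
      div_one] at hS
    exact hS
  rw [d10_sect_plane hz hnm, regP hX.ind hz hnm]
  exact hmain

/-! ### multiple points -/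

private theorem d10_chart (hX : Ctx L lx ly lz Q) {l l' q0 : Fin 3 → ℂ}
    (hi : LinearIndependent ℂ ![l, l', lz]) (hq0 : q0 ∈ Q) {D : ℤ} {m : Finset (Fin k) → ℤ}
    (e : Pt → Fn) (he : LC L (Sect L D m) e) :
    ∃ e0 : Fn,
      (∀ y : Pt, lz ⬝ᵥ y.q ≠ 0 → (l - (l ⬝ᵥ q0) • lz) ⬝ᵥ y.q ≠ 0 →
        (d10gq l Q q0).eval ((l - (l ⬝ᵥ q0) • lz) ⬝ᵥ y.q / lz ⬝ᵥ y.q) ≠ 0 →
        Sect L D m y (e0 - e y)) ∧
      (∀ y : Pt, (l - (l ⬝ᵥ q0) • lz) ⬝ᵥ y.q = 0 → (l' - (l' ⬝ᵥ q0) • lz) ⬝ᵥ y.q = 0 →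
        (l - (l ⬝ᵥ q0) • lz) ⬝ᵥ y.w ≠ 0 → Sect L D m y (e0 - e y)) := by
  have h1 := (hX.memQ q0).1 hq0
  have hq0' : q0 ≠ 0 := by
    rintro rfl
    rw [dotProduct_zero] at h1
    exact zero_ne_one h1.2
  have h2 : ∀ l : Fin 3 → ℂ, (l - (l ⬝ᵥ q0) • lz) ⬝ᵥ q0 = 0 := by
    intro l
    rw [sub_dotProduct, smul_dotProduct, h1.2, smul_eq_mul, mul_one, sub_self]
  exact chart_blow (d10_shift hi (l ⬝ᵥ q0) (l' ⬝ᵥ q0)) hX.cfg hq0' h1.1 (h2 l)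
    (h2 l') (d10gq l Q q0) (d10gq_zero l q0) (fun y hz hy hG => d10gq_nm hX hz hy hG) e he

private theorem d10_reg {l1 l2 : Fin 3 → ℂ} (hi : LinearIndependent ℂ ![l1, l2, lz])
    {q0 : Fin 3 → ℂ} (h1 : l1 ⬝ᵥ q0 = 0) (h2 : l2 ⬝ᵥ q0 = 0) (hz : lz ⬝ᵥ q0 = 1)
    (hq0 : Multiple L q0) {D : ℤ} {m : Finset (Fin k) → ℤ} {m0 : ℕ} (hm : m (SS L q0) = m0)
    (G1 G2 : Polynomial ℂ)
    (hG : ∀ y : Pt, lz ⬝ᵥ y.q ≠ 0 → l1 ⬝ᵥ y.q ≠ 0 → G1.eval (l1 ⬝ᵥ y.q / lz ⬝ᵥ y.q) ≠ 0 →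
      ¬ Multiple L y.q) {g : Fn}
    (he : ∀ y : Pt, lz ⬝ᵥ y.q ≠ 0 → l1 ⬝ᵥ y.q ≠ 0 → G1.eval (l1 ⬝ᵥ y.q / lz ⬝ᵥ y.q) ≠ 0 →
      l2 ⬝ᵥ y.q ≠ 0 → G2.eval (l2 ⬝ᵥ y.q / lz ⬝ᵥ y.q) ≠ 0 → Sect L D m y g)
    (he' : ∀ y : Pt, y.q = q0 → l1 ⬝ᵥ y.w ≠ 0 → l2 ⬝ᵥ y.w ≠ 0 → Sect L D m y g) {a b : ℂ}
    (hGa : G1.eval a ≠ 0) (hb : b ≠ 0) (hGb : G2.eval (a * b) ≠ 0) :
    RLoc (fl l1 / fl lz) (fl l2 / fl l1) a b (g * fl lz ^ D * (fl l1 / fl lz) ^ m0) := by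
  have n1 : fl l1 ≠ 0 := fl_ne_zero (by simpa using hi.ne_zero 0)
  have nz : fl lz ≠ 0 := fl_ne_zero (by simpa using hi.ne_zero 2)
  by_cases ha : a = 0
  · subst ha
    obtain ⟨w, w1, w2, w3⟩ := d10_vec hi 1 b 0
    have hind : LinearIndependent ℂ ![q0, w] := by
      rw [LinearIndependent.pair_iff]
      intro c d hcd
      have k1 := congrArg (fun v => lz ⬝ᵥ v) hcd
      have k2 := congrArg (fun v => l1 ⬝ᵥ v) hcd
      simp only [dotProduct_add, dotProduct_smul, hz, w3, h1, w1, smul_eq_mul, mul_one,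
        mul_zero, add_zero, zero_add, dotProduct_zero] at k1 k2
      exact ⟨k1, k2⟩
    have hS := he' ⟨q0, w, hind⟩ rfl (by show l1 ⬝ᵥ w ≠ 0; rw [w1]; exact one_ne_zero)
      (by show l2 ⬝ᵥ w ≠ 0; rw [w2]; exact hb)
    have hw1 : l1 ⬝ᵥ w ≠ 0 := by rw [w1]; exact one_ne_zero
    rw [sect_iff (lam := lz) (sig := l1) (by show lz ⬝ᵥ q0 ≠ 0; rw [hz]; exact one_ne_zero) h1
      hw1] at hS
    have hmu : muq L m ⟨q0, w, hind⟩ = m0 := by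
      unfold muq
      rw [if_pos hq0]
      exact hm
    rw [hmu, regB hi (y := ⟨q0, w, hind⟩) h1 h2 hq0 hw1] at hS
    have e1 : g * fl lz ^ (D - (m0 : ℤ)) * fl l1 ^ (m0 : ℤ) =
        g * fl lz ^ D * (fl l1 / fl lz) ^ m0 := by
      rw [zpow_sub₀ nz, div_pow, zpow_natCast, zpow_natCast]
      ring
    have e2 : l2 ⬝ᵥ w / l1 ⬝ᵥ w = b := by rw [w1, w2, div_one]
    rw [e1] at hS
    simpa only [e2] using hS
  · obtain ⟨y, y1, y2, y3⟩ := d10_pt hi a (a * b) 1 (Or.inl ha)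
    have z1 : lz ⬝ᵥ y.q ≠ 0 := by rw [y3]; exact one_ne_zero
    have z2 : l1 ⬝ᵥ y.q ≠ 0 := by rw [y1]; exact ha
    have z3 : l2 ⬝ᵥ y.q ≠ 0 := by rw [y2]; exact mul_ne_zero ha hb
    have z4 : G1.eval (l1 ⬝ᵥ y.q / lz ⬝ᵥ y.q) ≠ 0 := by rw [y1, y3, div_one]; exact hGa
    have z5 : G2.eval (l2 ⬝ᵥ y.q / lz ⬝ᵥ y.q) ≠ 0 := by rw [y2, y3, div_one]; exact hGb
    have hS := he y z1 z2 z4 z3 z5
    have z6 := hG y z1 z2 z4
    rw [d10_sect_plane z1 z6, regB' hi z1 z2 z6] at hS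
    have e1 : l1 ⬝ᵥ y.q / lz ⬝ᵥ y.q = a := by rw [y1, y3, div_one]
    have e2 : l2 ⬝ᵥ y.q / l1 ⬝ᵥ y.q = b := by rw [y2, y1]; field_simp
    rw [e1, e2] at hS
    refine hS.mul ?_
    have e3 : psi (fl l1 / fl lz) (fl l2 / fl l1) (X 0) = fl l1 / fl lz := by simp [psi]
    have e4 := RLoc.psi (s := fl l1 / fl lz) (t := fl l2 / fl l1) a b (X 0 ^ m0)
    rwa [map_pow, e3] at e4

/-- sections on the first chart away from the exceptional curve -/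
private theorem d10_off {l1 l2 : Fin 3 → ℂ} (hi : LinearIndependent ℂ ![l1, l2, lz]) {D : ℤ}
    {m : Finset (Fin k) → ℤ} (G1 : Polynomial ℂ)
    (hG : ∀ y : Pt, lz ⬝ᵥ y.q ≠ 0 → l1 ⬝ᵥ y.q ≠ 0 → G1.eval (l1 ⬝ᵥ y.q / lz ⬝ᵥ y.q) ≠ 0 →
      ¬ Multiple L y.q) {g : Fn}
    (he : ∀ y : Pt, lz ⬝ᵥ y.q ≠ 0 → l1 ⬝ᵥ y.q ≠ 0 → G1.eval (l1 ⬝ᵥ y.q / lz ⬝ᵥ y.q) ≠ 0 →
      Sect L D m y g) {a b : ℂ} (ha : a ≠ 0) (hGa : G1.eval a ≠ 0) :
    RLoc (fl l1 / fl lz) (fl l2 / fl l1) a b (g * fl lz ^ D) := by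
  obtain ⟨y, y1, y2, y3⟩ := d10_pt hi a (a * b) 1 (Or.inl ha)
  have z1 : lz ⬝ᵥ y.q ≠ 0 := by rw [y3]; exact one_ne_zero
  have z2 : l1 ⬝ᵥ y.q ≠ 0 := by rw [y1]; exact ha
  have z4 : G1.eval (l1 ⬝ᵥ y.q / lz ⬝ᵥ y.q) ≠ 0 := by rw [y1, y3, div_one]; exact hGa
  have hS := he y z1 z2 z4
  have z6 := hG y z1 z2 z4
  rw [d10_sect_plane z1 z6, regB' hi z1 z2 z6] at hS
  have e1 : l1 ⬝ᵥ y.q / lz ⬝ᵥ y.q = a := by rw [y1, y3, div_one]
  have e2 : l2 ⬝ᵥ y.q / l1 ⬝ᵥ y.q = b := by rw [y2, y1]; field_simp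
  rw [e1, e2] at hS
  exact hS

/-- sections on the exceptional curve -/
private theorem d10_on {l1 l2 : Fin 3 → ℂ} (hi : LinearIndependent ℂ ![l1, l2, lz]) {y : Pt}
    (hmul : Multiple L y.q) (h1 : l1 ⬝ᵥ y.q = 0) (h2 : l2 ⬝ᵥ y.q = 0) (hz : lz ⬝ᵥ y.q ≠ 0)
    (hw : l1 ⬝ᵥ y.w ≠ 0) {D : ℤ} {m : Finset (Fin k) → ℤ} {m0 : ℕ} (hm : m (SS L y.q) = m0)
    {g : Fn}
    (h : ∀ b, RLoc (fl l1 / fl lz) (fl l2 / fl l1) 0 b (g * fl lz ^ D * (fl l1 / fl lz) ^ m0)) :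
    Sect L D m y g := by
  have nz : fl lz ≠ 0 := fl_ne_zero (by simpa using hi.ne_zero 2)
  rw [sect_iff hz h1 hw]
  have hmu : muq L m y = m0 := by
    unfold muq
    rw [if_pos hmul]
    exact hm
  rw [hmu, regB hi h1 h2 hmul hw]
  have e1 : g * fl lz ^ (D - (m0 : ℤ)) * fl l1 ^ (m0 : ℤ) =
      g * fl lz ^ D * (fl l1 / fl lz) ^ m0 := by
    rw [zpow_sub₀ nz, div_pow, zpow_natCast, zpow_natCast]
    ring
  rw [e1]
  exact h _

private theorem d10_mult (hX : Ctx L lx ly lz Q) {D : ℕ} {m : Finset (Fin k) → ℤ}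
    (hm : ∀ S, 0 ≤ m S) (e : Pt → Fn) (he : LC L (Sect L D m) e) {e0 : Fn}
    (h0 : ∀ y, ¬ Multiple L y.q → Sect L D m y (e0 - e y)) (y : Pt) (hmul : Multiple L y.q) :
    Sect L D m y (e0 - e y) := by
  have hz := hX.nz y.q (d10_q_ne y) hmul
  set q0 := (lz ⬝ᵥ y.q)⁻¹ • y.q with hq0d
  have hq0 : q0 ∈ Q := d10_mem hX hmul
  have hq0' := (hX.memQ q0).1 hq0
  have hyq : y.q = (lz ⬝ᵥ y.q) • q0 := by
    rw [hq0d, smul_smul, mul_inv_cancel₀ hz, one_smul]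
  have hzero : ∀ l : Fin 3 → ℂ, (l - (l ⬝ᵥ q0) • lz) ⬝ᵥ q0 = 0 := by
    intro l
    rw [sub_dotProduct, smul_dotProduct, hq0'.2, smul_eq_mul, mul_one, sub_self]
  have hzero' : ∀ l : Fin 3 → ℂ, (l - (l ⬝ᵥ q0) • lz) ⬝ᵥ y.q = 0 := by
    intro l
    rw [hyq, dotProduct_smul, hzero, smul_zero]
  obtain ⟨m0, hm0⟩ := Int.eq_ofNat_of_zero_le (hm (SS L q0))
  have hm0' : m (SS L y.q) = m0 := by
    have : SS L y.q = SS L q0 := by
      rw [hq0d, d10_SS_smul (inv_ne_zero hz)]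
    rw [this, hm0]
  clear_value q0
  obtain ⟨e1, e1a, e1b⟩ := d10_chart hX hX.ind hq0 e he
  obtain ⟨e2, e2a, e2b⟩ := d10_chart hX (d10_swap hX.ind) hq0 e he
  have hi := d10_shift hX.ind (lx ⬝ᵥ q0) (ly ⬝ᵥ q0)
  have hi' := d10_swap hi
  obtain ⟨d1, d2⟩ := descent hi (d10gq_zero (Q := Q) lx q0) (d10gq_zero (Q := Q) ly q0)
    (f1 := (e0 - e1) * fl lz ^ (D : ℤ)) (f2 := (e0 - e2) * fl lz ^ (D : ℤ)) m0
    (by
      intro a b ha hGa
      refine d10_off (m := m) hi (d10gq lx Q q0) (fun y hz hy hG => d10gq_nm hX hz hy hG) ?_ ha hGa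
      intro y' z1 z2 z3
      have := (h0 y' (d10gq_nm hX z1 z2 z3)).sub (e1a y' z1 z2 z3)
      rwa [sub_sub_sub_cancel_right] at this)
    (by
      intro a b ha hGa
      refine d10_off (m := m) hi' (d10gq ly Q q0) (fun y hz hy hG => d10gq_nm hX hz hy hG) ?_ ha hGa
      intro y' z1 z2 z3
      have := (h0 y' (d10gq_nm hX z1 z2 z3)).sub (e2a y' z1 z2 z3)
      rwa [sub_sub_sub_cancel_right] at this)
    (by
      intro a b hGa hb hGb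
      have h1 := d10_reg hi (hzero lx) (hzero ly) hq0'.2 hq0'.1 (D := D) (m := m) hm0
        (d10gq lx Q q0) (d10gq ly Q q0) (fun y hz hy hG => d10gq_nm hX hz hy hG) (g := e2 - e1)
        (by
          intro y z1 z2 z3 z4 z5
          have := (e2a y z1 z4 z5).sub (e1a y z1 z2 z3)
          rwa [sub_sub_sub_cancel_right] at this)
        (by
          intro y' z1 z2 z3
          have z4 : ∀ l : Fin 3 → ℂ, (l - (l ⬝ᵥ q0) • lz) ⬝ᵥ y'.q = 0 := by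
            intro l; rw [z1]; exact hzero l
          have := (e2b y' (z4 ly) (z4 lx) z3).sub (e1b y' (z4 lx) (z4 ly) z2)
          rwa [sub_sub_sub_cancel_right] at this) hGa hb hGb
      have e3 : (e0 - e1) * fl lz ^ (D : ℤ) - (e0 - e2) * fl lz ^ (D : ℤ) =
          (e2 - e1) * fl lz ^ (D : ℤ) := by ring
      rw [e3]
      exact h1)
  by_cases hw1 : (lx - (lx ⬝ᵥ q0) • lz) ⬝ᵥ y.w ≠ 0
  · have h1 := d10_on (L := L) (m := m) hi hmul (hzero' lx) (hzero' ly) hz hw1 hm0' d1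
    have h2 := h1.add (e1b y (hzero' lx) (hzero' ly) hw1)
    rwa [sub_add_sub_cancel] at h2
  by_cases hw2 : (ly - (ly ⬝ᵥ q0) • lz) ⬝ᵥ y.w ≠ 0
  · have h1 := d10_on (L := L) (m := m) hi' hmul (hzero' ly) (hzero' lx) hz hw2 hm0' d2
    have h2 := h1.add (e2b y (hzero' ly) (hzero' lx) hw2)
    rwa [sub_add_sub_cancel] at h2
  exfalso
  push Not at hw1 hw2
  have h3 : y.w - (lz ⬝ᵥ y.w / lz ⬝ᵥ y.q) • y.q = 0 := by
    refine d10_ker hi ?_ ?_ ?_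
    · rw [dotProduct_sub, dotProduct_smul, hw1, hzero' lx, smul_zero, sub_zero]
    · rw [dotProduct_sub, dotProduct_smul, hw2, hzero' ly, smul_zero, sub_zero]
    · rw [dotProduct_sub, dotProduct_smul, smul_eq_mul, div_mul_cancel₀ _ hz, sub_self]
  have h4 := LinearIndependent.pair_iff.1 y.ind (-(lz ⬝ᵥ y.w / lz ⬝ᵥ y.q)) 1 (by
    rw [one_smul, neg_smul, neg_add_eq_sub]
    exact h3)
  exact one_ne_zero h4.2

theorem cousin (hX : Ctx L lx ly lz Q) {D : ℕ} {m : Finset (Fin k) → ℤ} (hm : ∀ S, 0 ≤ m S)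
    (hS : ∀ f : MvPolynomial (Fin 2) ℂ, ∃ h : MvPolynomial (Fin 2) ℂ,
      (h = 0 ∨ h.totalDegree + 3 ≤ D) ∧
      ∀ q ∈ Q, f - h ∈ pI ![lx ⬝ᵥ q, ly ⬝ᵥ q] ^ (m (SS L q) - 1).toNat)
    (e : Pt → Fn) (he : LC L (Sect L D m) e) : Glob (Sect L D m) e := by
  obtain ⟨eA, hA⟩ := solveU_x hX e he
  obtain ⟨eB, hB⟩ := solveU_y hX e he
  obtain ⟨r, C, hr, hf, hd⟩ := formU (D := D) (m := m) hX (eA - eB) (by
    intro y h1 h2
    have := (hA y h1).sub (hB y h2)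
    rwa [sub_sub_sub_cancel_right] at this)
  have hC := d10_C_mem hX hm hS e he hA hB hr hf hd
  obtain ⟨e0, h1, h2⟩ := glue hX e hA hB hf hd hC
  refine ⟨e0, fun y => ?_⟩
  by_cases hmul : Multiple L y.q
  · exact d10_mult hX hm e he (fun y hy => d10_plane hX e he h1 h2 y hy) y hmul
  · exact d10_plane hX e he h1 h2 y hmul

end HKR
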