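import Pool.Agent.Lib.HKR.B2
import Pool.Agent.Lib.HKR.D1
/-!
HKR.D2 (Cousin problem on one chart).
chart_plane: open set lz ≠ 0, G(lx/lz, ly/lz) ≠ 0, containing no multiple point.
PROOF.  (a,b) ↦ the point y(a,b) with q = e_z + a e_x + b e_y (dual basis of lx,ly,lz), w := e_x or any direction
independent of q.  For non-multiple y, Sect L D m y f ↔ Regular L y (f fl lz^D) ↔ RLoc at (a,b) (sect_iff with
lam = lz, muq = 0; regP).  e' a b := e (y(a,b)) fl lz^D.  The LC hypothesis at y(a,b) gives T, rloc_open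
gives H.  cousin_affine: e0'; e0 := e0' fl lz^(-D).  For an arbitrary y in the open set with coordinates
(a,b): the functions T of y(a,b) are regular at y too (regP for both), so Sect y (e y - e (y(a,b))) by LC.
chart_blow: q0 multiple, lx(q0) = ly(q0) = 0; G one-variable with G(0) ≠ 0; the open set: lz(q) ≠ 0,
lx(q) ≠ 0, G(lx/lz) ≠ 0 (no multiple points there), and the directions w at q0 with lx(w) ≠ 0.
Coordinates s = lx/lz, t = ly/lx; point (a,b): q = e_z + a(e_x + b e_y), w = e_x + b e_y (independent).  For a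
= 0 q ∥ q0 is multiple: Sect L D m y f ↔ Regular (f fl lz^(D-μ) fl lx^μ), μ = m (SS L q0); for a ≠ 0:
Sect ↔ Regular (f fl lz^D) ↔ Regular (f fl lz^(D-μ) fl lx^μ) since lx/lz is a unit there.  So with
e' := e fl lz^(D-μ) fl lx^μ apply cousin_affine (G as polynomial in s), regB, regB'.
-/
open MvPolynomial
namespace HKR
variable {k : ℕ} {L : Fin k → Fin 3 → ℂ}

private theorem d2_abs {s t : Fn} (hc : Coord s t) (G : MvPolynomial (Fin 2) ℂ) {D : ℤ}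
    {m : Finset (Fin k) → ℤ} (e : Pt → Fn) (he : LC L (Sect L D m) e) (Good : Pt → ℂ → ℂ → Prop)
    {u : Fn} (hu : u ≠ 0) (Ym : ℂ → ℂ → Pt)
    (hreg : ∀ y a b f, Good y a b → (Regular L y f ↔ RLoc s t a b f))
    (hsect : ∀ y a b f, Good y a b → (Sect L D m y f ↔ RLoc s t a b (f * u)))
    (hY : ∀ a b, eval ![a, b] G ≠ 0 → Good (Ym a b) a b) :
    ∃ e0 : Fn, ∀ y a b, Good y a b → eval ![a, b] G ≠ 0 → Sect L D m y (e0 - e y) := by
  obtain ⟨e0', he0⟩ := cousin_affine hc G (fun a b => e (Ym a b) * u) (by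
    intro a b hab
    obtain ⟨T, hT, hT'⟩ := he (Ym a b)
    obtain ⟨H, h1, h2⟩ := rloc_open (s := s) (t := t) T (fun f hf =>
      (hreg _ a b f (hY a b hab)).1 (hT f hf))
    refine ⟨H, h1, fun a' b' hG' hH' => ?_⟩
    have h3 := hT' (Ym a' b') (fun f hf => (hreg _ a' b' f (hY a' b' hG')).2 (h2 a' b' hH' f hf))
    have h4 := (hsect _ a' b' _ (hY a' b' hG')).1 h3
    rw [sub_mul] at h4
    exact h4)
  refine ⟨e0' * u⁻¹, fun y a b hy hab => ?_⟩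
  rw [hsect y a b _ hy]
  obtain ⟨T, hT, hT'⟩ := he (Ym a b)
  have h1 : Sect L D m y (e y - e (Ym a b)) :=
    hT' y fun f hf => (hreg y a b f hy).2 ((hreg _ a b f (hY a b hab)).1 (hT f hf))
  have h2 := (hsect y a b _ hy).1 h1
  have h3 := (he0 a b hab).add h2.neg
  have h4 : e0' - e (Ym a b) * u + -((e y - e (Ym a b)) * u) = (e0' * u⁻¹ - e y) * u := by
    rw [sub_mul, sub_mul, mul_assoc, inv_mul_cancel₀ hu, mul_one]; ring
  rw [h4] at h3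
  exact h3

private theorem d2_dual {lx ly lz : Fin 3 → ℂ} (hi : LinearIndependent ℂ ![lx, ly, lz]) :
    ∃ ex ey ez : Fin 3 → ℂ, (lx ⬝ᵥ ex = 1 ∧ ly ⬝ᵥ ex = 0 ∧ lz ⬝ᵥ ex = 0) ∧
      (lx ⬝ᵥ ey = 0 ∧ ly ⬝ᵥ ey = 1 ∧ lz ⬝ᵥ ey = 0) ∧
      (lx ⬝ᵥ ez = 0 ∧ ly ⬝ᵥ ez = 0 ∧ lz ⬝ᵥ ez = 1) := by
  set M : Matrix (Fin 3) (Fin 3) ℂ := Matrix.of ![lx, ly, lz] with hM
  have hu : IsUnit M := Matrix.linearIndependent_rows_iff_isUnit.1 hi
  have hdet : IsUnit M.det := (Matrix.isUnit_iff_isUnit_det M).1 hu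
  have h1 : M * M⁻¹ = 1 := Matrix.mul_nonsing_inv M hdet
  have h2 : ∀ i j, M i ⬝ᵥ (fun r => M⁻¹ r j) = (1 : Matrix (Fin 3) (Fin 3) ℂ) i j := by
    intro i j
    rw [← h1]; rfl
  have a00 := h2 0 0
  have a10 := h2 1 0
  have a20 := h2 2 0
  have a01 := h2 0 1
  have a11 := h2 1 1
  have a21 := h2 2 1
  have a02 := h2 0 2
  have a12 := h2 1 2
  have a22 := h2 2 2
  refine ⟨fun r => M⁻¹ r 0, fun r => M⁻¹ r 1, fun r => M⁻¹ r 2, ⟨?_, ?_, ?_⟩, ⟨?_, ?_, ?_⟩,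
    ⟨?_, ?_, ?_⟩⟩
  · exact a00.trans (by simp)
  · exact a10.trans (by simp)
  · exact a20.trans (by simp)
  · exact a01.trans (by simp)
  · exact a11.trans (by simp)
  · exact a21.trans (by simp)
  · exact a02.trans (by simp)
  · exact a12.trans (by simp)
  · exact a22.trans (by simp)

private theorem d2_ind {q r : Fin 3 → ℂ} {l l' : Fin 3 → ℂ} (h1 : l ⬝ᵥ q ≠ 0) (h2 : l ⬝ᵥ r = 0)
    (h3 : l' ⬝ᵥ r ≠ 0) : LinearIndependent ℂ ![q, r] := by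
  rw [LinearIndependent.pair_iff]
  intro s t hst
  have e1 := congrArg (fun v => l ⬝ᵥ v) hst
  simp only [dotProduct_add, dotProduct_smul, h2, smul_eq_mul, mul_zero, add_zero,
    dotProduct_zero] at e1
  have hs : s = 0 := (mul_eq_zero.1 e1).resolve_right h1
  rw [hs, zero_smul, zero_add] at hst
  have e2 := congrArg (fun v => l' ⬝ᵥ v) hst
  simp only [dotProduct_smul, smul_eq_mul, dotProduct_zero] at e2
  exact ⟨hs, (mul_eq_zero.1 e2).resolve_right h3⟩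

private theorem d2_fl {l v : Fin 3 → ℂ} (h : l ⬝ᵥ v ≠ 0) : fl l ≠ 0 := by
  apply fl_ne_zero
  rintro rfl
  exact h (zero_dotProduct v)

private theorem d2_sig (y : Pt) : ∃ sig : Fin 3 → ℂ, sig ⬝ᵥ y.q = 0 ∧ sig ⬝ᵥ y.w ≠ 0 := by
  obtain ⟨lam, sig, tau, h1, h2, h3, h4, h5, h6, h7⟩ := exists_forms y
  exact ⟨sig, h3, by rw [h4]; exact one_ne_zero⟩

private theorem d2_nonmult {y : Pt} {lz : Fin 3 → ℂ} (hz : lz ⬝ᵥ y.q ≠ 0)
    (hq : ¬ Multiple L y.q) {D : ℤ} {m : Finset (Fin k) → ℤ} (f : Fn) :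
    Sect L D m y f ↔ Regular L y (f * fl lz ^ D) := by
  obtain ⟨sig, h2, h3⟩ := d2_sig y
  have h0 : muq L m y = 0 := by
    unfold muq
    rw [if_neg hq]
  rw [sect_iff hz h2 h3, h0, sub_zero, zpow_zero, mul_one]

theorem chart_plane {lx ly lz : Fin 3 → ℂ} (hi : LinearIndependent ℂ ![lx, ly, lz])
    (G : MvPolynomial (Fin 2) ℂ)
    (hG : ∀ y : Pt, lz ⬝ᵥ y.q ≠ 0 →
      eval ![lx ⬝ᵥ y.q / lz ⬝ᵥ y.q, ly ⬝ᵥ y.q / lz ⬝ᵥ y.q] G ≠ 0 → ¬ Multiple L y.q)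
    {D : ℤ} {m : Finset (Fin k) → ℤ} (e : Pt → Fn) (he : LC L (Sect L D m) e) :
    ∃ e0 : Fn, ∀ y : Pt, lz ⬝ᵥ y.q ≠ 0 →
      eval ![lx ⬝ᵥ y.q / lz ⬝ᵥ y.q, ly ⬝ᵥ y.q / lz ⬝ᵥ y.q] G ≠ 0 → Sect L D m y (e0 - e y) := by
  obtain ⟨ex, ey, ez, ⟨x1, x2, x3⟩, ⟨y1, y2, y3⟩, ⟨z1, z2, z3⟩⟩ := d2_dual hi
  have hzq : ∀ a b : ℂ, lz ⬝ᵥ (ez + a • ex + b • ey) = 1 := fun a b => by
    simp only [dotProduct_add, dotProduct_smul, x3, y3, z3, smul_eq_mul, mul_zero, add_zero]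
  have hxq : ∀ a b : ℂ, lx ⬝ᵥ (ez + a • ex + b • ey) = a := fun a b => by
    simp only [dotProduct_add, dotProduct_smul, x1, y1, z1, smul_eq_mul, mul_zero, add_zero,
      zero_add, mul_one]
  have hyq : ∀ a b : ℂ, ly ⬝ᵥ (ez + a • ex + b • ey) = b := fun a b => by
    simp only [dotProduct_add, dotProduct_smul, x2, y2, z2, smul_eq_mul, mul_zero, add_zero,
      zero_add, mul_one]
  have hYi : ∀ a b : ℂ, LinearIndependent ℂ ![ez + a • ex + b • ey, ex] := fun a b =>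
    d2_ind (l := lz) (l' := lx) (by rw [hzq]; exact one_ne_zero) x3
      (by rw [x1]; exact one_ne_zero)
  obtain ⟨e0, he0⟩ := d2_abs (coordP hi) G e he
    (fun y a b => lz ⬝ᵥ y.q ≠ 0 ∧ ¬ Multiple L y.q ∧ a = lx ⬝ᵥ y.q / lz ⬝ᵥ y.q ∧
      b = ly ⬝ᵥ y.q / lz ⬝ᵥ y.q) (u := fl lz ^ D)
    (zpow_ne_zero _ (d2_fl (l := lz) (v := ez) (by rw [z3]; exact one_ne_zero)))
    (fun a b => ⟨ez + a • ex + b • ey, ex, hYi a b⟩)
    (by
      rintro y a b f ⟨h1, h2, rfl, rfl⟩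
      exact regP hi h1 h2 f)
    (by
      rintro y a b f ⟨h1, h2, rfl, rfl⟩
      rw [d2_nonmult h1 h2]
      exact regP hi h1 h2 _)
    (by
      intro a b hab
      have h1 : lz ⬝ᵥ (ez + a • ex + b • ey) ≠ 0 := by rw [hzq]; exact one_ne_zero
      have h2 : a = lx ⬝ᵥ (ez + a • ex + b • ey) / lz ⬝ᵥ (ez + a • ex + b • ey) := by
        rw [hzq, hxq, div_one]
      have h3 : b = ly ⬝ᵥ (ez + a • ex + b • ey) / lz ⬝ᵥ (ez + a • ex + b • ey) := by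
        rw [hzq, hyq, div_one]
      refine ⟨h1, ?_, h2, h3⟩
      apply hG ⟨ez + a • ex + b • ey, ex, hYi a b⟩ h1
      show eval ![lx ⬝ᵥ (ez + a • ex + b • ey) / lz ⬝ᵥ (ez + a • ex + b • ey),
        ly ⬝ᵥ (ez + a • ex + b • ey) / lz ⬝ᵥ (ez + a • ex + b • ey)] G ≠ 0
      rw [← h2, ← h3]
      exact hab)
  exact ⟨e0, fun y hz hGy => he0 y _ _ ⟨hz, hG y hz hGy, rfl, rfl⟩ hGy⟩

private theorem d2_vpow {y : Pt} {u : Fn} {c : ℂ} (h : Val L y u c) (n : ℕ) :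
    Val L y (u ^ n) (c ^ n) := by
  induction n with
  | zero =>
    rw [pow_zero, pow_zero]
    have h := Val.const (L := L) (y := y) 1
    simpa using h
  | succ n ih => rw [pow_succ, pow_succ]; exact ih.mul h

private theorem d2_vzpow {y : Pt} {u : Fn} {c : ℂ} (h : Val L y u c) (hc : c ≠ 0) (n : ℤ) :
    Regular L y (u ^ n) := by
  rcases n with n | n
  · have := d2_vpow h n
    rw [Int.ofNat_eq_natCast, zpow_natCast]
    exact regular_iff_val.2 ⟨_, this⟩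
  · have h1 := (d2_vpow h (n + 1)).inv (pow_ne_zero _ hc)
    rw [zpow_negSucc]
    exact regular_iff_val.2 ⟨_, h1⟩

private theorem d2_mult_smul {p : Fin 3 → ℂ} {c : ℂ} (h : Multiple L p) : Multiple L (c • p) := by
  obtain ⟨i, j, l, h1, h2, h3, h4, h5, h6⟩ := h
  refine ⟨i, j, l, h1, h2, h3, ?_, ?_, ?_⟩
  · rw [dotProduct_smul, h4, smul_zero]
  · rw [dotProduct_smul, h5, smul_zero]
  · rw [dotProduct_smul, h6, smul_zero]

private theorem d2_SS_smul {p : Fin 3 → ℂ} {c : ℂ} (hc : c ≠ 0) : SS L (c • p) = SS L p := by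
  unfold SS
  apply Finset.filter_congr
  intro i _
  rw [dotProduct_smul, smul_eq_mul, mul_eq_zero]
  exact or_iff_right hc

theorem chart_blow {lx ly lz : Fin 3 → ℂ} (hi : LinearIndependent ℂ ![lx, ly, lz])
    (hC : Config L) {q0 : Fin 3 → ℂ} (h0 : q0 ≠ 0) (hq0 : Multiple L q0) (hx : lx ⬝ᵥ q0 = 0)
    (hy : ly ⬝ᵥ q0 = 0) (G : Polynomial ℂ) (hG0 : G.eval 0 ≠ 0)
    (hG : ∀ y : Pt, lz ⬝ᵥ y.q ≠ 0 → lx ⬝ᵥ y.q ≠ 0 → G.eval (lx ⬝ᵥ y.q / lz ⬝ᵥ y.q) ≠ 0 →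
      ¬ Multiple L y.q)
    {D : ℤ} {m : Finset (Fin k) → ℤ} (e : Pt → Fn) (he : LC L (Sect L D m) e) :
    ∃ e0 : Fn,
      (∀ y : Pt, lz ⬝ᵥ y.q ≠ 0 → lx ⬝ᵥ y.q ≠ 0 → G.eval (lx ⬝ᵥ y.q / lz ⬝ᵥ y.q) ≠ 0 →
        Sect L D m y (e0 - e y)) ∧
      (∀ y : Pt, lx ⬝ᵥ y.q = 0 → ly ⬝ᵥ y.q = 0 → lx ⬝ᵥ y.w ≠ 0 → Sect L D m y (e0 - e y)) := by
  obtain ⟨ex, ey, ez, ⟨x1, x2, x3⟩, ⟨y1, y2, y3⟩, ⟨z1, z2, z3⟩⟩ := d2_dual hi
  -- every vector is determined by its three coordinates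
  have hdec : ∀ v : Fin 3 → ℂ, v = (lx ⬝ᵥ v) • ex + (ly ⬝ᵥ v) • ey + (lz ⬝ᵥ v) • ez := by
    intro v
    set d : Fin 3 → ℂ := v - ((lx ⬝ᵥ v) • ex + (ly ⬝ᵥ v) • ey + (lz ⬝ᵥ v) • ez) with hd
    have d1 : lx ⬝ᵥ d = 0 := by
      rw [hd]
      simp only [dotProduct_sub, dotProduct_add, dotProduct_smul, x1, y1, z1, smul_eq_mul,
        mul_zero, mul_one, add_zero, sub_self]
    have d2 : ly ⬝ᵥ d = 0 := by
      rw [hd]
      simp only [dotProduct_sub, dotProduct_add, dotProduct_smul, x2, y2, z2, smul_eq_mul,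
        mul_zero, mul_one, add_zero, zero_add, sub_self]
    have d3 : lz ⬝ᵥ d = 0 := by
      rw [hd]
      simp only [dotProduct_sub, dotProduct_add, dotProduct_smul, x3, y3, z3, smul_eq_mul,
        mul_zero, mul_one, zero_add, sub_self]
    have hd0 : d = 0 := by
      set M : Matrix (Fin 3) (Fin 3) ℂ := Matrix.of ![lx, ly, lz] with hM
      have hu : IsUnit M := Matrix.linearIndependent_rows_iff_isUnit.1 hi
      have hdet : M.det ≠ 0 := ((Matrix.isUnit_iff_isUnit_det M).1 hu).ne_zero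
      apply Matrix.eq_zero_of_mulVec_eq_zero hdet
      funext i
      fin_cases i
      · exact d1
      · exact d2
      · exact d3
    exact sub_eq_zero.1 hd0
  have hcz : lz ⬝ᵥ q0 ≠ 0 := by
    intro h
    apply h0
    rw [hdec q0, hx, hy, h, zero_smul, zero_smul, zero_smul, add_zero, add_zero]
  have hq0e : q0 = (lz ⬝ᵥ q0) • ez := by
    have := hdec q0
    rwa [hx, hy, zero_smul, zero_smul, zero_add, zero_add] at this
  -- points over `q0`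
  have hover : ∀ y : Pt, lx ⬝ᵥ y.q = 0 → ly ⬝ᵥ y.q = 0 →
      lz ⬝ᵥ y.q ≠ 0 ∧ Multiple L y.q ∧ SS L y.q = SS L q0 := by
    intro y h1 h2
    have hyq : y.q ≠ 0 := by
      have h := y.ind.ne_zero 0
      simpa using h
    have e1 : y.q = (lz ⬝ᵥ y.q) • ez := by
      have := hdec y.q
      rwa [h1, h2, zero_smul, zero_smul, zero_add, zero_add] at this
    have hc : lz ⬝ᵥ y.q ≠ 0 := by
      intro h
      apply hyq
      rw [e1, h, zero_smul]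
    have e2 : y.q = ((lz ⬝ᵥ y.q) / (lz ⬝ᵥ q0)) • q0 := by
      calc y.q = (lz ⬝ᵥ y.q) • ez := e1
        _ = ((lz ⬝ᵥ y.q) / (lz ⬝ᵥ q0)) • ((lz ⬝ᵥ q0) • ez) := by
            rw [smul_smul, div_mul_cancel₀ _ hcz]
        _ = ((lz ⬝ᵥ y.q) / (lz ⬝ᵥ q0)) • q0 := by rw [← hq0e]
    refine ⟨hc, ?_, ?_⟩
    · rw [e2]; exact d2_mult_smul hq0
    · rw [e2]; exact d2_SS_smul (div_ne_zero hc hcz)
  set μ : ℤ := m (SS L q0) with hμ
  have hflz : fl lz ≠ 0 := d2_fl hcz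
  have hflx : fl lx ≠ 0 := d2_fl (l := lx) (v := ex) (by rw [x1]; exact one_ne_zero)
  have hcl : ∀ (y : Pt) (f : Fn), lz ⬝ᵥ y.q ≠ 0 → lx ⬝ᵥ y.q ≠ 0 → ¬ Multiple L y.q →
      (Sect L D m y f ↔ Regular L y (f * (fl lz ^ (D - μ) * fl lx ^ μ))) := by
    intro y f h1 h2 h3
    rw [d2_nonmult h1 h3]
    have hv : Val L y (fl lx / fl lz) (lx ⬝ᵥ y.q / lz ⬝ᵥ y.q) := Val.ratio h1
    have hc : lx ⬝ᵥ y.q / lz ⬝ᵥ y.q ≠ 0 := div_ne_zero h2 h1
    have a1 : fl lz ^ D ≠ 0 := zpow_ne_zero _ hflz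
    have a2 : fl lz ^ μ ≠ 0 := zpow_ne_zero _ hflz
    have a3 : fl lx ^ μ ≠ 0 := zpow_ne_zero _ hflx
    constructor
    · intro h
      have h4 := h.mul (d2_vzpow hv hc μ)
      have h5 : f * fl lz ^ D * (fl lx / fl lz) ^ μ = f * (fl lz ^ (D - μ) * fl lx ^ μ) := by
        rw [div_zpow, zpow_sub₀ hflz]; field_simp
      rw [h5] at h4
      exact h4
    · intro h
      have h4 := h.mul (d2_vzpow hv hc (-μ))
      have h5 : f * (fl lz ^ (D - μ) * fl lx ^ μ) * (fl lx / fl lz) ^ (-μ) = f * fl lz ^ D := by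
        rw [zpow_neg, div_zpow, zpow_sub₀ hflz]; field_simp
      rw [h5] at h4
      exact h4
  have hcl0 : ∀ (y : Pt) (f : Fn), lx ⬝ᵥ y.q = 0 → ly ⬝ᵥ y.q = 0 → lx ⬝ᵥ y.w ≠ 0 →
      (Sect L D m y f ↔ Regular L y (f * (fl lz ^ (D - μ) * fl lx ^ μ))) := by
    intro y f h1 h2 h3
    obtain ⟨h4, h5, h6⟩ := hover y h1 h2
    have h7 : muq L m y = μ := by
      unfold muq
      rw [if_pos h5, h6]
    rw [sect_iff h4 h1 h3, h7, mul_assoc]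
  have hzq : ∀ a b : ℂ, lz ⬝ᵥ (ez + a • (ex + b • ey)) = 1 := fun a b => by
    simp only [dotProduct_add, dotProduct_smul, x3, y3, z3, smul_eq_mul, mul_zero, add_zero]
  have hxq : ∀ a b : ℂ, lx ⬝ᵥ (ez + a • (ex + b • ey)) = a := fun a b => by
    simp only [dotProduct_add, dotProduct_smul, x1, y1, z1, smul_eq_mul, mul_zero, add_zero,
      zero_add, mul_one]
  have hyq : ∀ a b : ℂ, ly ⬝ᵥ (ez + a • (ex + b • ey)) = a * b := fun a b => by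
    simp only [dotProduct_add, dotProduct_smul, x2, y2, z2, smul_eq_mul, zero_add, mul_one]
  have hxw : ∀ b : ℂ, lx ⬝ᵥ (ex + b • ey) = 1 := fun b => by
    simp only [dotProduct_add, dotProduct_smul, x1, y1, smul_eq_mul, mul_zero, add_zero]
  have hyw : ∀ b : ℂ, ly ⬝ᵥ (ex + b • ey) = b := fun b => by
    simp only [dotProduct_add, dotProduct_smul, x2, y2, smul_eq_mul, zero_add, mul_one]
  have hzw : ∀ b : ℂ, lz ⬝ᵥ (ex + b • ey) = 0 := fun b => by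
    simp only [dotProduct_add, dotProduct_smul, x3, y3, smul_eq_mul, mul_zero, add_zero]
  have hYi : ∀ a b : ℂ, LinearIndependent ℂ ![ez + a • (ex + b • ey), ex + b • ey] := fun a b =>
    d2_ind (l := lz) (l' := lx) (by rw [hzq]; exact one_ne_zero) (hzw b)
      (by rw [hxw]; exact one_ne_zero)
  have hev : ∀ a b : ℂ, eval ![a, b] (Polynomial.aeval (X 0 : MvPolynomial (Fin 2) ℂ) G) =
      G.eval a := by
    intro a b
    have h1 : (MvPolynomial.aeval ![a, b] : MvPolynomial (Fin 2) ℂ →ₐ[ℂ] ℂ)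
        (Polynomial.aeval (X 0 : MvPolynomial (Fin 2) ℂ) G) = Polynomial.aeval a G := by
      rw [← Polynomial.aeval_algHom_apply]
      simp
    rw [← MvPolynomial.coe_aeval_eq_eval]
    rw [Polynomial.coe_aeval_eq_eval] at h1
    exact h1
  obtain ⟨e0, he0⟩ := d2_abs (coordB hi) (Polynomial.aeval (X 0 : MvPolynomial (Fin 2) ℂ) G) e he
    (fun y a b => (lx ⬝ᵥ y.q = 0 ∧ ly ⬝ᵥ y.q = 0 ∧ lx ⬝ᵥ y.w ≠ 0 ∧ a = 0 ∧
        b = ly ⬝ᵥ y.w / lx ⬝ᵥ y.w) ∨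
      (lz ⬝ᵥ y.q ≠ 0 ∧ lx ⬝ᵥ y.q ≠ 0 ∧ ¬ Multiple L y.q ∧ a = lx ⬝ᵥ y.q / lz ⬝ᵥ y.q ∧
      b = ly ⬝ᵥ y.q / lx ⬝ᵥ y.q)) (u := fl lz ^ (D - μ) * fl lx ^ μ)
    (mul_ne_zero (zpow_ne_zero _ hflz) (zpow_ne_zero _ hflx))
    (fun a b => ⟨ez + a • (ex + b • ey), ex + b • ey, hYi a b⟩)
    (by
      rintro y a b f (⟨h1, h2, h3, rfl, rfl⟩ | ⟨h1, h2, h3, rfl, rfl⟩)
      · exact regB hi h1 h2 (hover y h1 h2).2.1 h3 f
      · exact regB' hi h1 h2 h3 f)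
    (by
      rintro y a b f (⟨h1, h2, h3, rfl, rfl⟩ | ⟨h1, h2, h3, rfl, rfl⟩)
      · rw [hcl0 y f h1 h2 h3]
        exact regB hi h1 h2 (hover y h1 h2).2.1 h3 _
      · rw [hcl y f h1 h2 h3]
        exact regB' hi h1 h2 h3 _)
    (by
      intro a b hab
      rw [hev] at hab
      by_cases ha : a = 0
      · left
        refine ⟨?_, ?_, ?_, ha, ?_⟩
        · show lx ⬝ᵥ (ez + a • (ex + b • ey)) = 0
          rw [hxq, ha]
        · show ly ⬝ᵥ (ez + a • (ex + b • ey)) = 0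
          rw [hyq, ha, zero_mul]
        · show lx ⬝ᵥ (ex + b • ey) ≠ 0
          rw [hxw]; exact one_ne_zero
        · show b = ly ⬝ᵥ (ex + b • ey) / lx ⬝ᵥ (ex + b • ey)
          rw [hxw, hyw, div_one]
      · right
        have h1 : lz ⬝ᵥ (ez + a • (ex + b • ey)) ≠ 0 := by rw [hzq]; exact one_ne_zero
        have h2 : lx ⬝ᵥ (ez + a • (ex + b • ey)) ≠ 0 := by rw [hxq]; exact ha
        have h3 : a = lx ⬝ᵥ (ez + a • (ex + b • ey)) / lz ⬝ᵥ (ez + a • (ex + b • ey)) := by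
          rw [hzq, hxq, div_one]
        refine ⟨h1, h2, ?_, h3, ?_⟩
        · apply hG ⟨ez + a • (ex + b • ey), ex + b • ey, hYi a b⟩ h1 h2
          show G.eval (lx ⬝ᵥ (ez + a • (ex + b • ey)) / lz ⬝ᵥ (ez + a • (ex + b • ey))) ≠ 0
          rw [← h3]; exact hab
        · show b = ly ⬝ᵥ (ez + a • (ex + b • ey)) / lx ⬝ᵥ (ez + a • (ex + b • ey))
          rw [hxq, hyq, mul_comm, mul_div_assoc, div_self ha, mul_one])
  refine ⟨e0, fun y hz hxy hGy => ?_, fun y h1 h2 h3 => ?_⟩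
  · refine he0 y _ _ (Or.inr ⟨hz, hxy, hG y hz hxy hGy, rfl, rfl⟩) ?_
    rw [hev]; exact hGy
  · refine he0 y _ _ (Or.inl ⟨h1, h2, h3, rfl, rfl⟩) ?_
    rw [hev]; exact hG0

end HKR
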