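import Pool.Agent.Lib.HKR.DDefs
/-!
HKR.D3 (coordinates).  exists_ctx: for a configuration with a multiple point there are lx, ly, lz, Q as in
Ctx with moreover no L i proportional to lz.
PROOF.  The set {q | Multiple L q ∧ lz ⬝ q = 1} is finite for every lz: a multiple q is on two different lines
a, b, so q ∥ crossProduct (L a) (L b); at most one such q with lz ⬝ q = 1 per pair (a,b).  Choose lz with
lz ⬝ crossProduct (L a) (L b) ≠ 0 for all a ≠ b and lz ⬝ v_i ≠ 0 for a chosen v_i ≠ 0 with L i ⬝ v_i = 0: finitely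
many nonzero vectors v, a form nonzero at all of them exists (ℂ infinite; e.g. lz = (1,t,t²) for t outside
the finite set of roots of the nonzero polynomials v 0 + t v 1 + t² v 2).  Complete lz to a basis.
-/
open MvPolynomial
namespace HKR
variable {k : ℕ} {L : Fin k → Fin 3 → ℂ}

/-- a form `(1,t,t²)` nonzero at finitely many given nonzero vectors -/
private theorem d3_form {ι : Type*} (s : Finset ι) (v : ι → Fin 3 → ℂ) (hv : ∀ i ∈ s, v i ≠ 0) :
    ∃ t : ℂ, ∀ i ∈ s, (![1, t, t ^ 2] : Fin 3 → ℂ) ⬝ᵥ v i ≠ 0 := by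
  classical
  let P : ι → Polynomial ℂ := fun i =>
    Polynomial.C (v i 0) + Polynomial.C (v i 1) * Polynomial.X +
      Polynomial.C (v i 2) * Polynomial.X ^ 2
  have hP : ∀ i ∈ s, P i ≠ 0 := by
    intro i hi h0
    apply hv i hi
    have h1 : (P i).coeff 0 = 0 := by rw [h0]; simp
    have h2 : (P i).coeff 1 = 0 := by rw [h0]; simp
    have h3 : (P i).coeff 2 = 0 := by rw [h0]; simp
    simp [P, Polynomial.coeff_X, Polynomial.coeff_C, Polynomial.coeff_X_pow] at h1 h2 h3
    funext j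
    fin_cases j
    · simpa using h1
    · simpa using h2
    · simpa using h3
  have hprod : (∏ i ∈ s, P i) ≠ 0 := Finset.prod_ne_zero_iff.mpr hP
  have hex : ∃ t : ℂ, (∏ i ∈ s, P i).eval t ≠ 0 := by
    by_contra hcon
    push Not at hcon
    apply hprod
    apply Polynomial.funext
    intro r
    rw [hcon r]; simp
  obtain ⟨t, ht⟩ := hex
  refine ⟨t, fun i hi => ?_⟩
  rw [Polynomial.eval_prod] at ht
  have h1 := (Finset.prod_ne_zero_iff.mp ht) i hi
  have h2 : (P i).eval t = (![1, t, t ^ 2] : Fin 3 → ℂ) ⬝ᵥ v i := by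
    simp only [P, Polynomial.eval_add, Polynomial.eval_mul, Polynomial.eval_C, Polynomial.eval_X,
      Polynomial.eval_pow, dotProduct, Fin.sum_univ_three, Matrix.cons_val_zero,
      Matrix.cons_val_one, Matrix.cons_val_two, Matrix.tail_cons, Matrix.head_cons,
      Matrix.cons_val]
    ring
  rwa [h2] at h1

/-- a vector orthogonal to two independent vectors is a multiple of their cross product -/
private theorem d3_prop {u v q : Fin 3 → ℂ} (h : LinearIndependent ℂ ![u, v])
    (hu : u ⬝ᵥ q = 0) (hv : v ⬝ᵥ q = 0) : ∃ μ : ℂ, q = μ • crossProduct u v := by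
  have hc : crossProduct u v ≠ 0 := crossProduct_ne_zero_iff_linearIndependent.mpr h
  have h1 : crossProduct q (crossProduct u v) = 0 := by
    have hu' : u 0 * q 0 + u 1 * q 1 + u 2 * q 2 = 0 := by
      simpa [dotProduct, Fin.sum_univ_three] using hu
    have hv' : v 0 * q 0 + v 1 * q 1 + v 2 * q 2 = 0 := by
      simpa [dotProduct, Fin.sum_univ_three] using hv
    funext j
    fin_cases j
    · simp [crossProduct]
      linear_combination u 0 * hv' - v 0 * hu'
    · simp [crossProduct]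
      linear_combination u 1 * hv' - v 1 * hu'
    · simp [crossProduct]
      linear_combination u 2 * hv' - v 2 * hu'
  have h2 : ¬ LinearIndependent ℂ ![q, crossProduct u v] := by
    intro h3
    exact crossProduct_ne_zero_iff_linearIndependent.mpr h3 h1
  rw [LinearIndependent.pair_iff] at h2
  push Not at h2
  obtain ⟨s, t, hst, hne⟩ := h2
  have hs : s ≠ 0 := by
    intro hs0
    have h4 : t • crossProduct u v = 0 := by simpa [hs0] using hst
    rcases smul_eq_zero.mp h4 with h5 | h5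
    · exact hne hs0 h5
    · exact hc h5
  refine ⟨-(t / s), ?_⟩
  have h5 : s • q = -(t • crossProduct u v) := eq_neg_of_add_eq_zero_left hst
  have h6 : q = s⁻¹ • (s • q) := by rw [smul_smul, inv_mul_cancel₀ hs, one_smul]
  rw [h6, h5, smul_neg, smul_smul, neg_smul]
  congr 2
  field_simp

theorem exists_ctx (hC : Config L) (hm : ∃ q, q ≠ 0 ∧ Multiple L q) :
    ∃ (lx ly lz : Fin 3 → ℂ) (Q : Finset (Fin 3 → ℂ)), Ctx L lx ly lz Q ∧
      ∀ i, LinearIndependent ℂ ![L i, lz] := by
  classical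
  obtain ⟨t, ht⟩ := d3_form (Finset.univ.filter fun p : Fin k × Fin k => p.1 ≠ p.2)
    (fun p => crossProduct (L p.1) (L p.2)) (by
      intro p hp
      exact crossProduct_ne_zero_iff_linearIndependent.mpr
        (hC.ind p.1 p.2 (Finset.mem_filter.mp hp).2))
  set lz : Fin 3 → ℂ := ![1, t, t ^ 2] with hlz
  have hz : ∀ a b : Fin k, a ≠ b → lz ⬝ᵥ crossProduct (L a) (L b) ≠ 0 := by
    intro a b hab
    exact ht (a, b) (Finset.mem_filter.mpr ⟨Finset.mem_univ _, hab⟩)
  have hnz : ∀ q, q ≠ 0 → Multiple L q → lz ⬝ᵥ q ≠ 0 := by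
    rintro q hq ⟨a, b, c, hab, -, -, ha, hb, -⟩
    obtain ⟨μ, hμ⟩ := d3_prop (hC.ind a b hab) ha hb
    rw [hμ, dotProduct_smul, smul_eq_mul]
    refine mul_ne_zero ?_ (hz a b hab)
    rintro rfl
    exact hq (by rw [hμ, zero_smul])
  have hfin : {q : Fin 3 → ℂ | Multiple L q ∧ lz ⬝ᵥ q = 1}.Finite := by
    apply Set.Finite.subset (Set.finite_range fun p : Fin k × Fin k =>
      (lz ⬝ᵥ crossProduct (L p.1) (L p.2))⁻¹ • crossProduct (L p.1) (L p.2))
    rintro q ⟨⟨a, b, c, hab, -, -, ha, hb, -⟩, hq⟩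
    obtain ⟨μ, hμ⟩ := d3_prop (hC.ind a b hab) ha hb
    refine ⟨(a, b), ?_⟩
    have h1 : μ * (lz ⬝ᵥ crossProduct (L a) (L b)) = 1 := by
      rw [hμ, dotProduct_smul, smul_eq_mul] at hq
      exact hq
    have h2 : (lz ⬝ᵥ crossProduct (L a) (L b))⁻¹ = μ := by
      rw [eq_comm]
      exact eq_inv_of_mul_eq_one_left h1
    simp only [h2]
    exact hμ.symm
  obtain ⟨q₀, hq₀, hm₀⟩ := hm
  refine ⟨![0, 1, 0], ![0, 0, 1], lz, hfin.toFinset, ⟨hC, ?_, ?_, hnz, ?_⟩, ?_⟩
  · rw [Fintype.linearIndependent_iff]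
    intro g hg
    rw [Fin.sum_univ_three] at hg
    have e0 := congrFun hg 0
    have e1 := congrFun hg 1
    have e2 := congrFun hg 2
    simp [hlz] at e0 e1 e2
    intro i
    fin_cases i
    · simpa [e0] using e1
    · simpa [e0] using e2
    · simpa using e0
  · intro q
    rw [Set.Finite.mem_toFinset]
    rfl
  · refine ⟨(lz ⬝ᵥ q₀)⁻¹ • q₀, ?_⟩
    rw [Set.Finite.mem_toFinset]
    have h1 := hnz q₀ hq₀ hm₀
    obtain ⟨a, b, c, hab, hac, hbc, ha, hb, hc⟩ := hm₀
    refine ⟨⟨a, b, c, hab, hac, hbc, ?_, ?_, ?_⟩, ?_⟩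
    · rw [dotProduct_smul, ha, smul_zero]
    · rw [dotProduct_smul, hb, smul_zero]
    · rw [dotProduct_smul, hc, smul_zero]
    · rw [dotProduct_smul, smul_eq_mul, inv_mul_cancel₀ h1]
  · intro i
    obtain ⟨a, b, c, hab, -, -, -, -, -⟩ := hm₀
    have hj : ∃ j, i ≠ j := by
      by_cases h : i = a
      · exact ⟨b, by rw [h]; exact hab⟩
      · exact ⟨a, h⟩
    obtain ⟨j, hij⟩ := hj
    have hLi : L i ≠ 0 := by
      have := (hC.ind i j hij).ne_zero 0
      simpa using this
    have h0 : L i ⬝ᵥ crossProduct (L i) (L j) = 0 := by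
      simp [crossProduct, dotProduct, Fin.sum_univ_three]
      ring
    rw [LinearIndependent.pair_iff]
    intro s r hsr
    have h1 : (s • L i + r • lz) ⬝ᵥ crossProduct (L i) (L j) = 0 := by
      rw [hsr, zero_dotProduct]
    rw [add_dotProduct, smul_dotProduct, smul_dotProduct, h0, smul_zero, zero_add,
      smul_eq_mul] at h1
    have hr : r = 0 := by
      rcases mul_eq_zero.mp h1 with h2 | h2
      · exact h2
      · exact absurd h2 (hz i j hij)
    subst hr
    rw [zero_smul, add_zero] at hsr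
    rcases smul_eq_zero.mp hsr with h2 | h2
    · exact ⟨h2, rfl⟩
    · exact absurd h2 hLi

end HKR
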