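import Pool.Agent.Lib.HKR.D2
import Pool.Agent.Lib.HKR.B4
/-!
HKR.D4.  (a) solveU: on the open set UQ l lz Q (l = lx or ly; complement contains all multiple points) a
locally constant family is globally represented.
PROOF.  q1 ∈ Q, lam := l - l(q1) lz.  UQ is inside lam ≠ 0 (take q = q1).  Use chart_plane with the
coordinates lz/lam, l'/lam (l' = the other one), G := ∏_{q ∈ Q} (1 + (l(q1) - l(q)) X_0):
(l - l(q) lz)/lam = 1 + (l(q1) - l(q)) lz/lam.  If y.q is multiple then y.q = c q with q ∈ Q (nz, memQ), so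
l(y.q) = l(q) lz(y.q): not in UQ.
(b) formU: f a section of O(-D) at all points of UQ lx ∩ UQ ly.  Then with x = lx/lz, y = ly/lz, A = PQ lx Q,
B = PQ ly Q:  f lz^D psi(A(x)^r B(y)^r) = psi C with totalDegree C + D ≤ 2 r |Q|.
PROOF.  For lz ≠ 0 and A(a) B(b) ≠ 0 the point is in UQ lx ∩ UQ ly, not multiple, so f lz^D is RLoc at (a,b); by
rloc_inter f lz^D psi(AB)^r = psi C.  If f ≠ 0, let c := totalDegree C and suppose c + D > 2 r |Q|.  Let C_c be
the top homogeneous part of C, nonzero, so C_c(x0,y0) ≠ 0 for some (x0,y0) with x0 y0 ≠ 0.  Let q be the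
point with lz = 0, lx = x0, ly = y0: it is in UQ lx ∩ UQ ly.  f lam^D is regular at (q,w): A'/B', B'(q) ≠ 0 with
forms of the same degree.  With C^h = lz^c C(lx/lz,ly/lz) (a form of degree c), A^h = ∏ (lx - lx(q') lz), B^h:
f (A^h B^h)^r lz^D lz^(c - 2r|Q|) = C^h, i.e. multiplying out: C^h B' lam^D = A' (A^h B^h)^r lz^(c+D-2r|Q|)
(aff_inj), and at q the right side is 0 and the left side is C_c(x0,y0) B'(q) lam(q)^D ≠ 0.
-/
open MvPolynomial
namespace HKR
variable {k : ℕ} {L : Fin k → Fin 3 → ℂ} {lx ly lz : Fin 3 → ℂ} {Q : Finset (Fin 3 → ℂ)}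

private theorem d4_vec (h : LinearIndependent ℂ ![lx, ly, lz]) (a b c : ℂ) :
    ∃ q : Fin 3 → ℂ, lx ⬝ᵥ q = a ∧ ly ⬝ᵥ q = b ∧ lz ⬝ᵥ q = c := by
  have h2 : IsUnit (Matrix.of ![lx, ly, lz]) :=
    Matrix.linearIndependent_rows_iff_isUnit.1 h
  have h3 : (Matrix.of ![lx, ly, lz]).mulVec
      ((Matrix.of ![lx, ly, lz])⁻¹.mulVec ![a, b, c]) = ![a, b, c] := by
    rw [Matrix.mulVec_mulVec, Matrix.mul_nonsing_inv _ ((Matrix.isUnit_iff_isUnit_det _).1 h2),
      Matrix.one_mulVec]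
  refine ⟨(Matrix.of ![lx, ly, lz])⁻¹.mulVec ![a, b, c], ?_, ?_, ?_⟩
  · exact congrFun h3 0
  · exact congrFun h3 1
  · exact congrFun h3 2

private theorem d4_pt (h : LinearIndependent ℂ ![lx, ly, lz]) (a b c : ℂ)
    (h0 : a ≠ 0 ∨ b ≠ 0 ∨ c ≠ 0) :
    ∃ y : Pt, lx ⬝ᵥ y.q = a ∧ ly ⬝ᵥ y.q = b ∧ lz ⬝ᵥ y.q = c := by
  obtain ⟨q, h1, h2, h3⟩ := d4_vec h a b c
  have hq : q ≠ 0 := by
    rintro rfl
    simp only [dotProduct_zero] at h1 h2 h3
    rcases h0 with h0 | h0 | h0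
    · exact h0 h1.symm
    · exact h0 h2.symm
    · exact h0 h3.symm
  have hr : 1 < Module.finrank ℂ (Fin 3 → ℂ) := by simp
  obtain ⟨w, hw⟩ := exists_linearIndependent_pair_of_one_lt_finrank hr hq
  exact ⟨⟨q, w, hw⟩, h1, h2, h3⟩

private theorem d4_q_ne (y : Pt) : y.q ≠ 0 := by
  have := y.ind.ne_zero 0
  simpa using this

private theorem d4_ind_iff {a b c : Fin 3 → ℂ} : LinearIndependent ℂ ![a, b, c] ↔
    ∀ x y z : ℂ, x • a + y • b + z • c = 0 → x = 0 ∧ y = 0 ∧ z = 0 := by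
  rw [Fintype.linearIndependent_iff]
  constructor
  · intro h x y z hxyz
    have h1 := h ![x, y, z] (by simpa [Fin.sum_univ_three] using hxyz)
    exact ⟨h1 0, h1 1, h1 2⟩
  · intro h g hg i
    have h1 := h (g 0) (g 1) (g 2) (by simpa [Fin.sum_univ_three] using hg)
    fin_cases i
    · exact h1.1
    · exact h1.2.1
    · exact h1.2.2

private theorem d4_swap (h : LinearIndependent ℂ ![lx, ly, lz]) (c : ℂ) :
    LinearIndependent ℂ ![lz, ly, lx - c • lz] := by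
  rw [d4_ind_iff] at h ⊢
  intro x y z hxyz
  have h1 := h z y (x - z * c) (by
    rw [← hxyz]; module)
  obtain ⟨h2, h3, h4⟩ := h1
  refine ⟨?_, h3, h2⟩
  rw [h2] at h4; simpa using h4

private theorem d4_swap' (h : LinearIndependent ℂ ![lx, ly, lz]) :
    LinearIndependent ℂ ![ly, lx, lz] := by
  rw [d4_ind_iff] at h ⊢
  intro x y z hxyz
  have h1 := h y x z (by
    rw [← hxyz]; module)
  exact ⟨h1.2.1, h1.1, h1.2.2⟩

private theorem d4_not_mult {l : Fin 3 → ℂ} (hX : Ctx L lx ly lz Q) {y : Pt} (hU : UQ l lz Q y) :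
    ¬ Multiple L y.q := by
  intro hm
  have hz := hX.nz y.q (d4_q_ne y) hm
  have hmem : (lz ⬝ᵥ y.q)⁻¹ • y.q ∈ Q := by
    rw [hX.memQ]
    constructor
    · obtain ⟨a, b, c, h1, h2, h3, h4, h5, h6⟩ := hm
      exact ⟨a, b, c, h1, h2, h3, by rw [dotProduct_smul, h4, smul_zero],
        by rw [dotProduct_smul, h5, smul_zero], by rw [dotProduct_smul, h6, smul_zero]⟩
    · rw [dotProduct_smul, smul_eq_mul, inv_mul_cancel₀ hz]
  apply hU _ hmem
  rw [dotProduct_smul, smul_eq_mul]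
  field_simp

private theorem d4_solve (hX : Ctx L lx ly lz Q) {l l' : Fin 3 → ℂ}
    (hi : LinearIndependent ℂ ![l, l', lz]) {D : ℤ} {m : Finset (Fin k) → ℤ} (e : Pt → Fn)
    (he : LC L (Sect L D m) e) : ∃ e0 : Fn, ∀ y, UQ l lz Q y → Sect L D m y (e0 - e y) := by
  obtain ⟨q1, hq1⟩ := hX.ne
  have hi' := d4_swap hi (l ⬝ᵥ q1)
  have key : ∀ y : Pt, (l - (l ⬝ᵥ q1) • lz) ⬝ᵥ y.q ≠ 0 →
      (eval ![lz ⬝ᵥ y.q / (l - (l ⬝ᵥ q1) • lz) ⬝ᵥ y.q, l' ⬝ᵥ y.q / (l - (l ⬝ᵥ q1) • lz) ⬝ᵥ y.q]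
        (∏ q ∈ Q, (1 + C (l ⬝ᵥ q1 - l ⬝ᵥ q) * X 0) : MvPolynomial (Fin 2) ℂ) ≠ 0 ↔ UQ l lz Q y) := by
    intro y hy
    rw [map_prod, Finset.prod_ne_zero_iff]
    unfold UQ
    refine forall₂_congr fun q hq => ?_
    simp only [map_add, map_one, map_mul, eval_C, eval_X, Matrix.cons_val_zero]
    have hlam : (l - (l ⬝ᵥ q1) • lz) ⬝ᵥ y.q = l ⬝ᵥ y.q - (l ⬝ᵥ q1) * (lz ⬝ᵥ y.q) := by
      rw [sub_dotProduct, smul_dotProduct, smul_eq_mul]
    rw [hlam] at hy ⊢
    rw [not_iff_not]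
    constructor
    · intro h
      field_simp at h
      linear_combination h
    · intro h
      field_simp
      linear_combination h
  obtain ⟨e0, h0⟩ := chart_plane hi' (∏ q ∈ Q, (1 + C (l ⬝ᵥ q1 - l ⬝ᵥ q) * X 0))
    (fun y hy hG => d4_not_mult hX ((key y hy).1 hG)) e he
  refine ⟨e0, fun y hU => ?_⟩
  have hy : (l - (l ⬝ᵥ q1) • lz) ⬝ᵥ y.q ≠ 0 := by
    rw [sub_dotProduct, smul_dotProduct, smul_eq_mul, sub_ne_zero]
    exact hU q1 hq1
  exact h0 y hy ((key y hy).2 hU)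

theorem solveU_x (hX : Ctx L lx ly lz Q) {D : ℤ} {m : Finset (Fin k) → ℤ} (e : Pt → Fn)
    (he : LC L (Sect L D m) e) : ∃ e0 : Fn, ∀ y, UQ lx lz Q y → Sect L D m y (e0 - e y) :=
  d4_solve hX hX.ind e he

theorem solveU_y (hX : Ctx L lx ly lz Q) {D : ℤ} {m : Finset (Fin k) → ℤ} (e : Pt → Fn)
    (he : LC L (Sect L D m) e) : ∃ e0 : Fn, ∀ y, UQ ly lz Q y → Sect L D m y (e0 - e y) :=
  d4_solve hX (d4_swap' hX.ind) e he

/-! ### linear forms -/

private theorem d4_eval_lin (l v : Fin 3 → ℂ) : eval v (lin l) = l ⬝ᵥ v := by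
  simp [lin, dotProduct]

private theorem d4_lin_hom (l : Fin 3 → ℂ) : (lin l).IsHomogeneous 1 := by
  unfold lin
  refine IsHomogeneous.sum _ _ _ fun j _ => ?_
  simpa using (isHomogeneous_C (Fin 3) (l j)).mul (isHomogeneous_X ℂ j)

private theorem d4_lin_sub (a b : Fin 3 → ℂ) (c : ℂ) : lin (a - c • b) = lin a - C c * lin b := by
  simp only [lin, Pi.sub_apply, Pi.smul_apply, smul_eq_mul, map_sub, map_mul, sub_mul,
    Finset.sum_sub_distrib, Finset.mul_sum, mul_assoc]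

private theorem d4_aff_C (c : ℂ) : aff (C c) = algebraMap ℂ Fn c := by
  simp [aff]

private theorem d4_fl_sub (a b : Fin 3 → ℂ) (c : ℂ) :
    fl (a - c • b) = fl a - algebraMap ℂ Fn c * fl b := by
  unfold fl
  rw [d4_lin_sub, map_sub, map_mul, d4_aff_C]

private theorem d4_along_zero (B : MvPolynomial (Fin 3) ℂ) (q w : Fin 3 → ℂ) :
    (along B q w).coeff 0 = eval q B := by
  rw [Polynomial.coeff_zero_eq_aeval_zero, along, MvPolynomial.comp_aeval_apply,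
    ← MvPolynomial.coe_aeval_eq_eval, RingHom.coe_coe]
  congr 2
  ext j
  simp

/-! ### homogenisation -/

/-- homogenisation -/
private noncomputable def d4_hom (lx ly lz : Fin 3 → ℂ) (c : ℕ) (P : MvPolynomial (Fin 2) ℂ) :
    MvPolynomial (Fin 3) ℂ :=
  ∑ d ∈ P.support, C (coeff d P) * (lin lx ^ d 0 * lin ly ^ d 1 * lin lz ^ (c - (d 0 + d 1)))

private theorem d4_deg {c : ℕ} {P : MvPolynomial (Fin 2) ℂ} (hP : P.totalDegree ≤ c) {d : Fin 2 →₀ ℕ}
    (hd : d ∈ P.support) : d 0 + d 1 ≤ c := by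
  have h1 := le_totalDegree hd
  have h2 : (d.sum fun _ e => e) = d 0 + d 1 := by
    rw [Finsupp.sum_fintype _ _ (fun _ => rfl), Fin.sum_univ_two]
  omega

private theorem d4_hom_hom {c : ℕ} {P : MvPolynomial (Fin 2) ℂ} (hP : P.totalDegree ≤ c) :
    (d4_hom lx ly lz c P).IsHomogeneous c := by
  unfold d4_hom
  refine IsHomogeneous.sum _ _ _ fun d hd => ?_
  have h1 := d4_deg hP hd
  have h2 := (isHomogeneous_C (Fin 3) (coeff d P)).mul
    ((((d4_lin_hom lx).pow (d 0)).mul ((d4_lin_hom ly).pow (d 1))).mul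
      ((d4_lin_hom lz).pow (c - (d 0 + d 1))))
  have h3 : 0 + (1 * d 0 + 1 * d 1 + 1 * (c - (d 0 + d 1))) = c := by omega
  rwa [h3] at h2

private theorem d4_hom_aff (hz : fl lz ≠ 0) {c : ℕ} {P : MvPolynomial (Fin 2) ℂ} (hP : P.totalDegree ≤ c) :
    aff (d4_hom lx ly lz c P) = psi (fl lx / fl lz) (fl ly / fl lz) P * fl lz ^ c := by
  unfold d4_hom psi
  rw [map_sum, MvPolynomial.aeval_def, MvPolynomial.eval₂_eq', Finset.sum_mul]
  refine Finset.sum_congr rfl fun d hd => ?_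
  have h1 := d4_deg hP hd
  simp only [map_mul, map_pow, d4_aff_C, Fin.prod_univ_two, Matrix.cons_val_zero, Matrix.cons_val_one]
  change _ * (fl lx ^ d 0 * fl ly ^ d 1 * fl lz ^ (c - (d 0 + d 1))) = _
  have h2 : fl lz ^ c = fl lz ^ (d 0) * fl lz ^ (d 1) * fl lz ^ (c - (d 0 + d 1)) := by
    rw [← pow_add, ← pow_add]; congr 1; omega
  rw [h2, div_pow, div_pow]
  field_simp

private theorem d4_hom_eval {c : ℕ} {P : MvPolynomial (Fin 2) ℂ} (hP : P.totalDegree ≤ c)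
    {q : Fin 3 → ℂ} (hq : lz ⬝ᵥ q = 0) :
    eval q (d4_hom lx ly lz c P) = eval ![lx ⬝ᵥ q, ly ⬝ᵥ q] (homogeneousComponent c P) := by
  unfold d4_hom
  rw [map_sum, homogeneousComponent_apply, map_sum, Finset.sum_filter]
  refine Finset.sum_congr rfl fun d hd => ?_
  have h1 := d4_deg hP hd
  have hdeg : d.degree = d 0 + d 1 := by
    rw [Finsupp.degree_eq_sum, Fin.sum_univ_two]
  simp only [map_mul, map_pow, d4_eval_lin, eval_C, hq, hdeg]
  by_cases h : d 0 + d 1 = c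
  · rw [if_pos h, h, Nat.sub_self, pow_zero, mul_one, eval_monomial,
      Finsupp.prod_fintype _ _ (fun _ => pow_zero _), Fin.prod_univ_two]
    rfl
  · rw [if_neg h, zero_pow (by omega), mul_zero, mul_zero]

private theorem d4_top {P : MvPolynomial (Fin 2) ℂ} (hP : P ≠ 0) :
    homogeneousComponent P.totalDegree P ≠ 0 := by
  obtain ⟨d, hd, hd'⟩ : ∃ d ∈ P.support, P.totalDegree = d.sum fun _ e => e := by
    exact Finset.exists_mem_eq_sup _ (support_nonempty.2 hP) _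
  intro h0
  have h1 := congrArg (coeff d) h0
  rw [coeff_homogeneousComponent, if_pos, coeff_zero] at h1
  · exact (mem_support_iff.1 hd) h1
  · rw [hd']; rfl

private theorem d4_top_pt {P : MvPolynomial (Fin 2) ℂ} (hP : P ≠ 0) :
    ∃ x0 y0 : ℂ, x0 ≠ 0 ∧ y0 ≠ 0 ∧ eval ![x0, y0] (homogeneousComponent P.totalDegree P) ≠ 0 := by
  have h1 : X 0 * X 1 * homogeneousComponent P.totalDegree P ≠ 0 :=
    mul_ne_zero (mul_ne_zero (X_ne_zero _) (X_ne_zero _)) (d4_top hP)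
  have h2 : ∃ v : Fin 2 → ℂ, eval v (X 0 * X 1 * homogeneousComponent P.totalDegree P) ≠ 0 := by
    by_contra hcon
    push Not at hcon
    exact h1 (MvPolynomial.funext fun v => by rw [hcon v, map_zero])
  obtain ⟨v, hv⟩ := h2
  rw [map_mul, map_mul, eval_X, eval_X] at hv
  refine ⟨v 0, v 1, ?_, ?_, ?_⟩
  · intro h; apply hv; rw [h]; ring
  · intro h; apply hv; rw [h]; ring
  · intro h; apply hv
    have : v = ![v 0, v 1] := by
      ext i; fin_cases i <;> rfl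
    rw [this]
    simp only [Matrix.cons_val_zero, Matrix.cons_val_one]
    rw [h, mul_zero]

/-! ### the products -/

private theorem d4_psi_uni (s t : Fn) (A : Polynomial ℂ) (i : Fin 2) :
    psi s t (uni i A) = Polynomial.aeval (![s, t] i) A := by
  unfold psi uni
  rw [← Polynomial.aeval_algHom_apply, aeval_X]

private theorem d4_psi_PQ {l : Fin 3 → ℂ} (hz : fl lz ≠ 0) :
    Polynomial.aeval (fl l / fl lz) (PQ l Q) * fl lz ^ Q.card =
      aff (∏ q ∈ Q, lin (l - (l ⬝ᵥ q) • lz)) := by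
  rw [map_prod, PQ, map_prod, ← Finset.prod_const, ← Finset.prod_mul_distrib]
  refine Finset.prod_congr rfl fun q _ => ?_
  change _ = fl _
  rw [d4_fl_sub, map_sub, Polynomial.aeval_X, Polynomial.aeval_C]
  field_simp

private theorem d4_prod_hom {l : Fin 3 → ℂ} :
    (∏ q ∈ Q, lin (l - (l ⬝ᵥ q) • lz)).IsHomogeneous Q.card := by
  have h := IsHomogeneous.prod Q (fun q => lin (l - (l ⬝ᵥ q) • lz)) (fun _ => 1)
    (fun q _ => d4_lin_hom _)
  simpa using h

private theorem d4_eval_uni (a b : ℂ) (A : Polynomial ℂ) (i : Fin 2) :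
    eval ![a, b] (uni i A) = A.eval (![a, b] i) := by
  unfold uni
  have h := Polynomial.aeval_algHom_apply (MvPolynomial.aeval ![a, b] : MvPolynomial (Fin 2) ℂ →ₐ[ℂ] ℂ)
    (X i) A
  rw [aeval_X] at h
  rw [← MvPolynomial.coe_aeval_eq_eval]
  simp only [RingHom.coe_coe]
  rw [← h]
  rfl

private theorem d4_eval_PQ {l : Fin 3 → ℂ} (a : ℂ) (h : (PQ l Q).eval a ≠ 0) :
    ∀ q ∈ Q, a ≠ l ⬝ᵥ q := by
  intro q hq ha
  apply h
  rw [PQ, Polynomial.eval_prod]
  exact Finset.prod_eq_zero hq (by simp [ha])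


private theorem d4_multpt (hX : Ctx L lx ly lz Q) {D : ℕ} {m : Finset (Fin k) → ℤ} {f : Fn}
    (h : ∀ y, UQ lx lz Q y → UQ ly lz Q y → Sect L D m y f) (a b : ℂ)
    (hH : eval ![a, b] (uni 0 (PQ lx Q) * uni 1 (PQ ly Q)) ≠ 0) :
    RLoc (fl lx / fl lz) (fl ly / fl lz) a b (f * fl lz ^ D) := by
  rw [map_mul, d4_eval_uni, d4_eval_uni] at hH
  have ha := d4_eval_PQ (l := lx) (Q := Q) a (left_ne_zero_of_mul hH)
  have hb := d4_eval_PQ (l := ly) (Q := Q) b (right_ne_zero_of_mul hH)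
  obtain ⟨y, h1, h2, h3⟩ := d4_pt hX.ind a b 1 (Or.inr (Or.inr one_ne_zero))
  have hUx : UQ lx lz Q y := by
    intro q hq
    rw [h1, h3, mul_one]
    exact ha q hq
  have hUy : UQ ly lz Q y := by
    intro q hq
    rw [h2, h3, mul_one]
    exact hb q hq
  have hnm := d4_not_mult hX hUx
  have hs := h y hUx hUy
  obtain ⟨lam, sig, tau, -, -, hs1, hs2, -⟩ := exists_forms y
  have hz : lz ⬝ᵥ y.q ≠ 0 := by rw [h3]; exact one_ne_zero
  rw [sect_iff hz hs1 (by rw [hs2]; exact one_ne_zero)] at hs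
  have hmu : muq L m y = 0 := by
    unfold muq; rw [if_neg hnm]
  rw [hmu, sub_zero, zpow_zero, mul_one, zpow_natCast, regP hX.ind hz hnm, h1, h2, h3, div_one,
    div_one] at hs
  exact hs

theorem formU (hX : Ctx L lx ly lz Q) {D : ℕ} {m : Finset (Fin k) → ℤ} (f : Fn)
    (h : ∀ y, UQ lx lz Q y → UQ ly lz Q y → Sect L D m y f) :
    ∃ (r : ℕ) (C : MvPolynomial (Fin 2) ℂ), 1 ≤ r ∧
      f * fl lz ^ D * psi (fl lx / fl lz) (fl ly / fl lz)
        (uni 0 (PQ lx Q ^ r) * uni 1 (PQ ly Q ^ r)) = psi (fl lx / fl lz) (fl ly / fl lz) C ∧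
      C.totalDegree + D ≤ 2 * r * Q.card := by
  classical
  have hcard : 1 ≤ Q.card := Finset.card_pos.2 hX.ne
  have hlz : lz ≠ 0 := by simpa using hX.ind.ne_zero 2
  have hlx : lx ≠ 0 := by simpa using hX.ind.ne_zero 0
  have hz := fl_ne_zero hlz
  have hx := fl_ne_zero hlx
  by_cases hf : f = 0
  · refine ⟨D + 1, 0, by omega, by rw [hf]; simp, ?_⟩
    rw [totalDegree_zero]
    nlinarith
  obtain ⟨N, P, hP⟩ := rloc_inter (coordP hX.ind) (uni 0 (PQ lx Q) * uni 1 (PQ ly Q))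
    (f * fl lz ^ D) (d4_multpt hX h)
  set H := uni 0 (PQ lx Q) * uni 1 (PQ ly Q) with hHdef
  have huni : ∀ (i : Fin 2) (A : Polynomial ℂ) (n : ℕ), uni i (A ^ n) = uni i A ^ n := by
    intro i A n
    unfold uni
    rw [map_pow]
  have hpow : uni 0 (PQ lx Q ^ (N + 1)) * uni 1 (PQ ly Q ^ (N + 1)) = H ^ (N + 1) := by
    rw [huni, huni, hHdef, mul_pow]
  have hPe : f * fl lz ^ D * psi (fl lx / fl lz) (fl ly / fl lz) (H ^ (N + 1)) =
      psi (fl lx / fl lz) (fl ly / fl lz) (P * H) := by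
    rw [pow_succ, map_mul (psi (fl lx / fl lz) (fl ly / fl lz)) (H ^ N) H, ← mul_assoc, hP,
      map_mul (psi (fl lx / fl lz) (fl ly / fl lz)) P H]
  refine ⟨N + 1, P * H, by omega, by rw [hpow, hPe], ?_⟩
  -- the products
  have hA := d4_psi_PQ (l := lx) (Q := Q) hz
  have hB := d4_psi_PQ (l := ly) (Q := Q) hz
  set Ah := ∏ q ∈ Q, lin (lx - (lx ⬝ᵥ q) • lz) with hAh
  set Bh := ∏ q ∈ Q, lin (ly - (ly ⬝ᵥ q) • lz) with hBh
  have hAhom : Ah.IsHomogeneous Q.card := d4_prod_hom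
  have hBhom : Bh.IsHomogeneous Q.card := d4_prod_hom
  have hpsiH : psi (fl lx / fl lz) (fl ly / fl lz) H * fl lz ^ (2 * Q.card) = aff (Ah * Bh) := by
    rw [hHdef, map_mul, d4_psi_uni, d4_psi_uni, map_mul, ← hA, ← hB]
    simp only [Matrix.cons_val_zero, Matrix.cons_val_one]
    ring
  have hAh0 : aff Ah ≠ 0 := by
    rw [hAh, map_prod, Finset.prod_ne_zero_iff]
    intro q hq
    refine fl_ne_zero ?_
    intro h0
    obtain ⟨v, hv1, -, hv3⟩ := d4_vec hX.ind 1 0 0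
    have h1 := congrArg (fun u => u ⬝ᵥ v) h0
    simp only [sub_dotProduct, smul_dotProduct, hv1, hv3, smul_zero, sub_zero, zero_dotProduct] at h1
    exact one_ne_zero h1
  have hBh0 : aff Bh ≠ 0 := by
    rw [hBh, map_prod, Finset.prod_ne_zero_iff]
    intro q hq
    refine fl_ne_zero ?_
    intro h0
    obtain ⟨v, -, hv2, hv3⟩ := d4_vec hX.ind 0 1 0
    have h1 := congrArg (fun u => u ⬝ᵥ v) h0
    simp only [sub_dotProduct, smul_dotProduct, hv2, hv3, smul_zero, sub_zero, zero_dotProduct] at h1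
    exact one_ne_zero h1
  have hpsiH0 : psi (fl lx / fl lz) (fl ly / fl lz) H ≠ 0 := by
    intro h0
    rw [h0, zero_mul, map_mul] at hpsiH
    exact mul_ne_zero hAh0 hBh0 hpsiH.symm
  have hC0 : P * H ≠ 0 := by
    intro h0
    rw [h0, map_zero, map_pow] at hPe
    exact mul_ne_zero (mul_ne_zero hf (pow_ne_zero _ hz)) (pow_ne_zero _ hpsiH0) hPe
  by_contra hcon
  push Not at hcon
  obtain ⟨x0, y0, hx0, hy0, hev⟩ := d4_top_pt hC0
  obtain ⟨y, h1, h2, h3⟩ := d4_pt hX.ind x0 y0 0 (Or.inl hx0)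
  have hUx : UQ lx lz Q y := by
    intro q hq
    rw [h1, h3, mul_zero]
    exact hx0
  have hUy : UQ ly lz Q y := by
    intro q hq
    rw [h2, h3, mul_zero]
    exact hy0
  have hnm := d4_not_mult hX hUx
  have hs := h y hUx hUy
  obtain ⟨lam, sig, tau, -, -, hs1, hs2, -⟩ := exists_forms y
  have hxq : lx ⬝ᵥ y.q ≠ 0 := by rw [h1]; exact hx0
  rw [sect_iff hxq hs1 (by rw [hs2]; exact one_ne_zero)] at hs
  have hmu : muq L m y = 0 := by
    unfold muq; rw [if_neg hnm]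
  rw [hmu, sub_zero, zpow_zero, mul_one, zpow_natCast] at hs
  obtain ⟨e, r, A', B', hA', hB', hr, -, -, hBr, hfe⟩ := hs
  have hr0 : r = 0 := hr.resolve_right hnm
  rw [hr0, d4_along_zero] at hBr
  -- the identity of forms
  set c := (P * H).totalDegree with hc
  have hhom := d4_hom_hom (lx := lx) (ly := ly) (lz := lz) (le_refl c)
  have haff := d4_hom_aff (lx := lx) (ly := ly) hz (le_refl c)
  set Ch := d4_hom lx ly lz c (P * H) with hCh
  obtain ⟨j, hj⟩ : ∃ j, c + D = 2 * (N + 1) * Q.card + (j + 1) := by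
    refine ⟨c + D - 2 * (N + 1) * Q.card - 1, by omega⟩
  have hid : aff (Ch * lin lx ^ D * B' - A' * lin lz ^ (j + 1) * (Ah * Bh) ^ (N + 1)) = 0 := by
    rw [map_sub, map_mul, map_mul, map_mul, map_mul, map_pow, map_pow, map_pow, haff, ← hPe, ← hfe,
      ← hpsiH, sub_eq_zero]
    change _ * fl lx ^ D * _ = _ * fl lz ^ (j + 1) * _
    rw [map_pow, mul_pow, ← pow_mul]
    have h4 : fl lz ^ D * fl lz ^ c = fl lz ^ (j + 1) * fl lz ^ (2 * Q.card * (N + 1)) := by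
      rw [← pow_add, ← pow_add]; congr 1; rw [add_comm D c, hj]; ring
    linear_combination (f * psi (fl lx / fl lz) (fl ly / fl lz) H ^ (N + 1) * fl lx ^ D * aff B') * h4
  have hhom2 : (Ch * lin lx ^ D * B' - A' * lin lz ^ (j + 1) * (Ah * Bh) ^ (N + 1)).IsHomogeneous
      (c + D + e) := by
    have h5 := (hhom.mul ((d4_lin_hom lx).pow D)).mul hB'
    have h6 := (hA'.mul ((d4_lin_hom lz).pow (j + 1))).mul ((hAhom.mul hBhom).pow (N + 1))
    have e5 : c + 1 * D + e = c + D + e := by ring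
    have e6 : e + 1 * (j + 1) + (Q.card + Q.card) * (N + 1) = c + D + e := by
      rw [hj]; ring
    rw [e5] at h5
    rw [e6] at h6
    exact h5.sub h6
  have hzero := aff_inj hhom2 hid
  have hevz := congrArg (eval y.q) hzero
  rw [map_sub, map_mul, map_mul, map_mul, map_mul, map_pow, map_pow, d4_eval_lin, d4_eval_lin, h3,
    zero_pow (Nat.succ_ne_zero j), mul_zero, zero_mul, sub_zero, map_zero, hCh,
    d4_hom_eval (le_refl c) h3, h1, h2] at hevz
  exact mul_ne_zero (mul_ne_zero hev (pow_ne_zero _ hx0)) hBr hevz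

end HKR
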