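import Pool.Agent.Lib.HKR.B3
import Pool.Agent.Lib.HKR.ADefs

/-!
HKR, part D (Cousin theorem for functions on the blow-up).  Definitions, by helper90.
-/

open MvPolynomial

namespace HKR

/-- the setting: coordinates `lx, ly, lz` with `lz ≠ 0` at the multiple points, and `Q` the finite set
of multiple points, normalised by `lz = 1` -/
structure Ctx {k : ℕ} (L : Fin k → Fin 3 → ℂ) (lx ly lz : Fin 3 → ℂ) (Q : Finset (Fin 3 → ℂ)) :
    Prop where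
  cfg : Config L
  ind : LinearIndependent ℂ ![lx, ly, lz]
  memQ : ∀ q, q ∈ Q ↔ Multiple L q ∧ lz ⬝ᵥ q = 1
  nz : ∀ q, q ≠ 0 → Multiple L q → lz ⬝ᵥ q ≠ 0
  ne : Q.Nonempty

/-- `∏ (X - l(q))` over the multiple points -/
noncomputable def PQ (l : Fin 3 → ℂ) (Q : Finset (Fin 3 → ℂ)) : Polynomial ℂ :=
  ∏ q ∈ Q, (Polynomial.X - Polynomial.C (l ⬝ᵥ q))

/-- the open set where the form `∏ (l - l(q) lz)` is nonzero -/
def UQ (l lz : Fin 3 → ℂ) (Q : Finset (Fin 3 → ℂ)) (y : Pt) : Prop :=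
  ∀ q ∈ Q, l ⬝ᵥ y.q ≠ (l ⬝ᵥ q) * (lz ⬝ᵥ y.q)

end HKR
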