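import Mathlib

/-!
HKR: Hirzebruch-Kummer coverings of rigid line arrangements (MP_bcb2f6_ag), by helper90.
Basic definitions.  See /team-store/MP_bcb2f6_paper90.md for the paper proof.
-/

open MvPolynomial

namespace HKR

/-- the function field `ℂ(x₁/x₀, x₂/x₀)` of the plane -/
abbrev Fn := FractionRing (MvPolynomial (Fin 2) ℂ)

/-- dehomogenisation `x₀ ↦ 1`, `x₁ ↦ x`, `x₂ ↦ y` -/
noncomputable def aff : MvPolynomial (Fin 3) ℂ →ₐ[ℂ] Fn :=
  MvPolynomial.aeval ![1, algebraMap (MvPolynomial (Fin 2) ℂ) Fn (X 0),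
    algebraMap (MvPolynomial (Fin 2) ℂ) Fn (X 1)]

/-- the linear form with coefficient vector `l` -/
noncomputable def lin (l : Fin 3 → ℂ) : MvPolynomial (Fin 3) ℂ := ∑ j, C (l j) * X j

/-- the dehomogenised linear form with coefficient vector `l`, an element of `Fn` -/
noncomputable def fl (l : Fin 3 → ℂ) : Fn := aff (lin l)

/-- the polynomial `A(q + T v)` in `T` -/
noncomputable def along (A : MvPolynomial (Fin 3) ℂ) (q v : Fin 3 → ℂ) : Polynomial ℂ :=
  MvPolynomial.aeval (fun j => Polynomial.C (q j) + Polynomial.X * Polynomial.C (v j)) A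

/-- a point of the plane with a tangent direction -/
structure Pt where
  q : Fin 3 → ℂ
  w : Fin 3 → ℂ
  ind : LinearIndependent ℂ ![q, w]

/-- `q` is a point where at least three lines of the configuration meet -/
def Multiple {k : ℕ} (L : Fin k → Fin 3 → ℂ) (q : Fin 3 → ℂ) : Prop :=
  ∃ a b c : Fin k, a ≠ b ∧ a ≠ c ∧ b ≠ c ∧ L a ⬝ᵥ q = 0 ∧ L b ⬝ᵥ q = 0 ∧ L c ⬝ᵥ q = 0

/-- `f` is regular at the point `y` of the blow-up of the plane at the multiple points:
`f = A / B` with forms `A`, `B` of the same degree, vanishing to order at least `r` at `q`, where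
the leading form of order `r` of `B` is nonzero in the direction `w`; `r = 0` unless `q` is
a multiple point -/
def Regular {k : ℕ} (L : Fin k → Fin 3 → ℂ) (y : Pt) (f : Fn) : Prop :=
  ∃ (e r : ℕ) (A B : MvPolynomial (Fin 3) ℂ), A.IsHomogeneous e ∧ B.IsHomogeneous e ∧
    (r = 0 ∨ Multiple L y.q) ∧
    (∀ v, Polynomial.X ^ r ∣ along A y.q v) ∧ (∀ v, Polynomial.X ^ r ∣ along B y.q v) ∧
    (along B y.q y.w).coeff r ≠ 0 ∧ f * aff B = aff A

/-- the determinant of three linear forms -/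
noncomputable def det3 (a b c : Fin 3 → ℂ) : ℂ := Matrix.det (Matrix.of ![a, b, c])

/-- every first-order deformation of the lines that keeps all concurrences is trivial -/
def InfRigid {k : ℕ} (L : Fin k → Fin 3 → ℂ) : Prop :=
  ∀ L' : Fin k → Fin 3 → ℂ,
    (∀ i j l, det3 (L i) (L j) (L l) = 0 →
      det3 (L' i) (L j) (L l) + det3 (L i) (L' j) (L l) + det3 (L i) (L j) (L' l) = 0) →
    ∃ (g : Matrix (Fin 3) (Fin 3) ℂ) (c : Fin k → ℂ),
      ∀ i, L' i = c i • L i + Matrix.vecMul (L i) g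

/-- every deformation `ℓᵢ + t wᵢ` of the lines, linear in `t`, that keeps all concurrences
has trivial first-order part -/
def AffRigid {k : ℕ} (L : Fin k → Fin 3 → ℂ) : Prop :=
  ∀ w : Fin k → Fin 3 → ℂ,
    (∀ i j l, det3 (L i) (L j) (L l) = 0 →
      ∀ t : ℂ, det3 (L i + t • w i) (L j + t • w j) (L l + t • w l) = 0) →
    ∃ (g : Matrix (Fin 3) (Fin 3) ℂ) (c : Fin k → ℂ),
      ∀ i, w i = c i • L i + Matrix.vecMul (L i) g

/-- a configuration: the lines are distinct and do not all pass through one point -/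
structure Config {k : ℕ} (L : Fin k → Fin 3 → ℂ) : Prop where
  ind : ∀ i j, i ≠ j → LinearIndependent ℂ ![L i, L j]
  nonconc : ∀ q : Fin 3 → ℂ, (∀ i, L i ⬝ᵥ q = 0) → q = 0

/-- `x` is integral over the local ring of the blow-up at `y` -/
def Int {k : ℕ} (L : Fin k → Fin 3 → ℂ) {K : Type} [Field K] [Algebra Fn K] (y : Pt) (x : K) :
    Prop :=
  ∃ p : Polynomial Fn, p.Monic ∧ (∀ m, Regular L y (p.coeff m)) ∧ Polynomial.aeval x p = 0

/-- the derivation `D` maps the integral closure of the local ring at `y` to itself -/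
def Preserves {k : ℕ} (L : Fin k → Fin 3 → ℂ) {K : Type} [Field K] [Algebra ℂ K] [Algebra Fn K]
    (y : Pt) (D : Derivation ℂ K K) : Prop :=
  ∀ x : K, Int L y x → Int L y (D x)

/-- locally constant families modulo the local condition `P` -/
def LC {k : ℕ} (L : Fin k → Fin 3 → ℂ) {V : Type} [AddCommGroup V] (P : Pt → V → Prop)
    (D : Pt → V) : Prop :=
  ∀ y, ∃ T : Finset Fn, (∀ f ∈ T, Regular L y f) ∧
    ∀ y', (∀ f ∈ T, Regular L y' f) → P y' (D y' - D y)

/-- the family `D` is globally trivial modulo `P` -/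
def Glob {V : Type} [AddCommGroup V] (P : Pt → V → Prop) (D : Pt → V) : Prop :=
  ∃ E : V, ∀ y, P y (E - D y)

/-- `K` is generated over `Fn` by `n`-th roots of the ratios `ℓᵢ/ℓ₀` -/
structure Kum {k : ℕ} [NeZero k] (L : Fin k → Fin 3 → ℂ) (n : ℕ) (K : Type) [Field K]
    [Algebra Fn K] (z : Fin k → K) : Prop where
  pow : ∀ i, z i ^ n * algebraMap Fn K (fl (L 0)) = algebraMap Fn K (fl (L i))
  gen : IntermediateField.adjoin Fn (Set.range z) = ⊤

/-- Stage A. -/
def StageA : Prop :=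
  ∀ (k : ℕ) (L : Fin (k + 6) → Fin 3 → ℂ), Config L → InfRigid L →
    ∃ N : ℕ, ∀ n ≥ N, ∀ (K : Type) [Field K] [Algebra Fn K] [Algebra ℂ K] [IsScalarTower ℂ Fn K]
      (z : Fin (k + 6) → K), Kum L n K z →
      ∀ D : Pt → Derivation ℂ K K, LC L (fun y D => Preserves L y D) D →
        Glob (fun y D => Preserves L y D) D

end HKR
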