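import Pool.Agent.Lib.HKR.K10
/-!
HKR.K11 (chart at a point which is not multiple).  Take i, j, l of sel_non, lam := L l, sig any form with sig(q) = 0, sig(w) ≠ 0 (exists_forms).
s := fl (L i)/fl (L l), t := fl (L j)/fl (L l), a := L i(q)/L l(q), b := L j(q)/L l(q), bs := (L i ⬝ q = 0), bt := (L j ⬝ q = 0),
al c := if L i ⬝ q = 0 then c i else 0, be c := if L j ⬝ q = 0 then c j else 0, h c := fl (L 0)^(dd n c) * fl lam^(-(dd n c)).
LocData: coordP, regP; pow: pw_gg (not multiple, mm = 0): ∏_m (fl (L m)/fl (L l))^(c m) = s^(c i) t^(c j) ∏_{m ≠ i,j} unit; if L i ⬝ q ≠ 0 s is a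
unit as well (Val.ratio).  lt: c m < n for c ∈ AA.  exs: c := 1 at i, n - 1 at l, 0 elsewhere (i ≠ l, j ≠ l, i ≠ j by independence);
ext: 1 at j, n - 1 at l.
FCond ↔ LCond: fcond_iff (mm = 0, ee = 0) with D'' := (fl lam^dd) • D: for all m ≠ m': Regular (cij D'' m m' gg m^bl gg m'^bl), gg m = fl (L m)/fl (L l), cij = δ(gg m) - δ(gg m')
(δ g := D'' g/g; cij_gg, no line is inS).  gg m is a unit for m ≠ i, j, gg i = s, gg j = t, gg l = 1.
(→) pair (i,l): δ(s) s^(bl i) regular: if L i ⬝ q ≠ 0, s is a unit so δ(s), D''s are regular; if L i ⬝ q = 0: bl i = 1 ↔ c i + 1 = n: D''s regular;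
    otherwise D''s/s regular, so D''s too.  Same with (j,l).
(←) D''(gg m) is regular for all m (gg m = αs + βt + γ with constants: L m is a combination of L i, L j, L l; so D''(gg m) = α D''s + β D''t).
    So δ(gg m) gg m^(bl m) is regular for every m: gg m unit: clear; m = i, L i ⬝ q = 0: bl i = 1: D''s; bl i = 0: D''s/s.
    cij gg m^bl gg m'^bl = (δ(gg m) gg m^bl) gg m'^bl - ....  (Case i = j does not occur.)
The last clause of exists_loc: D'' = (fl lam^(dd) fl sig^0) • D = (fl (L 0)^(dd) / h c) • D.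
-/
open MvPolynomial
namespace HKR
variable {k : ℕ} {L : Fin k → Fin 3 → ℂ}

private theorem k11_fl_add (l l' : Fin 3 → ℂ) : fl (l + l') = fl l + fl l' := by
  unfold fl
  rw [← map_add]
  congr 1
  unfold lin
  rw [← Finset.sum_add_distrib]
  refine Finset.sum_congr rfl fun j _ => ?_
  rw [Pi.add_apply, C_add, add_mul]

private theorem k11_fl_smul (c : ℂ) (l : Fin 3 → ℂ) :
    fl (c • l) = algebraMap ℂ Fn c * fl l := by
  unfold fl
  have h : lin (c • l) = algebraMap ℂ _ c * lin l := by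
    unfold lin
    rw [Finset.mul_sum]
    refine Finset.sum_congr rfl fun j _ => ?_
    rw [Pi.smul_apply, smul_eq_mul, C_mul, MvPolynomial.algebraMap_eq, mul_assoc]
  rw [h, map_mul, AlgHom.commutes]

private theorem k11_reg_pow {y : Pt} {f : Fn} (h : Regular L y f) (m : ℕ) :
    Regular L y (f ^ m) := by
  induction m with
  | zero =>
    rw [pow_zero, ← map_one (algebraMap ℂ Fn)]
    exact Regular.const 1
  | succ m ih => rw [pow_succ]; exact ih.mul h

private theorem k11_val_prod {y : Pt} {ι : Type} [DecidableEq ι] (T : Finset ι) (f : ι → Fn)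
    (h : ∀ i ∈ T, ∃ e : ℂ, Val L y (f i) e ∧ e ≠ 0) : ∃ e : ℂ, Val L y (∏ i ∈ T, f i) e ∧ e ≠ 0 := by
  induction T using Finset.induction_on with
  | empty =>
    refine ⟨1, ?_, one_ne_zero⟩
    rw [Finset.prod_empty, ← map_one (algebraMap ℂ Fn)]
    exact Val.const 1
  | insert a T ha ih =>
    obtain ⟨e, he, he0⟩ := ih fun i hi => h i (Finset.mem_insert_of_mem hi)
    obtain ⟨e', he', he0'⟩ := h a (Finset.mem_insert_self _ _)
    rw [Finset.prod_insert ha]
    exact ⟨_, he'.mul he, mul_ne_zero he0' he0⟩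

private theorem k11_val_pow {y : Pt} {f : Fn} {e : ℂ} (h : Val L y f e) (h0 : e ≠ 0) (m : ℕ) :
    ∃ e : ℂ, Val L y (f ^ m) e ∧ e ≠ 0 := by
  induction m with
  | zero =>
    refine ⟨1, ?_, one_ne_zero⟩
    rw [pow_zero, ← map_one (algebraMap ℂ Fn)]
    exact Val.const 1
  | succ m ih =>
    obtain ⟨e', he', he0'⟩ := ih
    rw [pow_succ]
    exact ⟨_, he'.mul h, mul_ne_zero he0' h0⟩

private theorem k11_lt {n : ℕ} {c : Fin k → ℕ} (hc : c ∈ AA k n) (m : Fin k) : c m < n :=
  Finset.mem_range.1 (Fintype.mem_piFinset.1 (Finset.mem_filter.1 hc).1 m)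

private theorem k11_ex {n : ℕ} (hn : 2 ≤ n) {i l : Fin k} (hil : i ≠ l) :
    ∃ c ∈ AA k n, c i = 1 ∧ ∀ m, m ≠ i → m ≠ l → c m = 0 := by
  refine ⟨Pi.single i 1 + Pi.single l (n - 1), ?_, ?_, ?_⟩
  · refine Finset.mem_filter.2 ⟨Fintype.mem_piFinset.2 fun m => Finset.mem_range.2 ?_, ?_⟩
    · rw [Pi.add_apply]
      by_cases h1 : m = i
      · subst h1
        rw [Pi.single_eq_same, Pi.single_eq_of_ne hil]
        omega
      · rw [Pi.single_eq_of_ne h1]
        by_cases h2 : m = l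
        · subst h2
          rw [Pi.single_eq_same]
          omega
        · rw [Pi.single_eq_of_ne h2]
          omega
    · have h1 : ∑ m, (Pi.single i 1 + Pi.single l (n - 1) : Fin k → ℕ) m = n := by
        simp only [Pi.add_apply]
        rw [Finset.sum_add_distrib, Finset.sum_pi_single', Finset.sum_pi_single',
          if_pos (Finset.mem_univ _), if_pos (Finset.mem_univ _)]
        omega
      rw [h1]
  · rw [Pi.add_apply, Pi.single_eq_same, Pi.single_eq_of_ne hil, add_zero]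
  · intro m h1 h2
    rw [Pi.add_apply, Pi.single_eq_of_ne h1, Pi.single_eq_of_ne h2, add_zero]

/-- the local computation -/
private theorem k11_main {n : ℕ} {y : Pt} {i j l : Fin k} (hij : i ≠ j)
    (hil : i ≠ l) (hjl : j ≠ l) (G : Fin k → Fn) (hG0 : ∀ m, G m ≠ 0) (hGr : ∀ m, Regular L y (G m))
    (hl : G l = 1) (hu : ∀ m, L m ⬝ᵥ y.q ≠ 0 → Regular L y (G m)⁻¹)
    (hm : ∀ m, m ≠ i → m ≠ j → L m ⬝ᵥ y.q ≠ 0)
    (hlin : ∀ m, ∃ α β γ : ℂ, G m = algebraMap ℂ Fn α * G i + algebraMap ℂ Fn β * G j +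
      algebraMap ℂ Fn γ) (c : Fin k → ℕ) (al be : ℕ)
    (hal : L i ⬝ᵥ y.q = 0 → al = c i) (hbe : L j ⬝ᵥ y.q = 0 → be = c j)
    (E : Derivation ℂ Fn Fn) :
    (∀ m m', m ≠ m' → Regular L y ((E (G m) / G m - E (G m') / G m') * G m ^ (bl n c m) *
      G m' ^ (bl n c m'))) ↔
    LCond L y (G i) (G j) (L i ⬝ᵥ y.q = 0) (L j ⬝ᵥ y.q = 0) n al be E := by
  have hbl0 : ∀ m, c m + 1 ≠ n → bl n c m = 0 := fun m h => by unfold bl; rw [if_neg h]
  have hbl1 : ∀ m, c m + 1 = n → bl n c m = 1 := fun m h => by unfold bl; rw [if_pos h]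
  constructor
  · intro h
    have key : ∀ m, m ≠ l → Regular L y (E (G m) / G m * G m ^ (bl n c m)) := by
      intro m hml
      have h1 := h m l hml
      have e1 : (E (G m) / G m - E (G l) / G l) * G m ^ (bl n c m) * G l ^ (bl n c l) =
          E (G m) / G m * G m ^ (bl n c m) := by
        rw [hl, one_pow, E.map_one_eq_zero, zero_div, sub_zero, mul_one]
      rw [e1] at h1
      exact h1
    have key2 : ∀ m, m ≠ l → Regular L y (E (G m)) := by
      intro m hml
      by_cases hc : c m + 1 = n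
      · have h1 := key m hml
        rw [hbl1 m hc, pow_one, div_mul_cancel₀ _ (hG0 m)] at h1
        exact h1
      · have h1 := key m hml
        rw [hbl0 m hc, pow_zero, mul_one] at h1
        have h2 := h1.mul (hGr m)
        rw [div_mul_cancel₀ _ (hG0 m)] at h2
        exact h2
    refine ⟨key2 i hil, key2 j hjl, fun h1 h2 => ?_, fun h1 h2 => ?_⟩
    · have h3 := key i hil
      rw [hal h1] at h2
      rwa [hbl0 i h2, pow_zero, mul_one] at h3
    · have h3 := key j hjl
      rw [hbe h1] at h2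
      rwa [hbl0 j h2, pow_zero, mul_one] at h3
  · rintro ⟨hs, ht, hs', ht'⟩
    have hE : ∀ m, Regular L y (E (G m)) := by
      intro m
      obtain ⟨α, β, γ, h1⟩ := hlin m
      have e1 : E (G m) = algebraMap ℂ Fn α * E (G i) + algebraMap ℂ Fn β * E (G j) := by
        rw [h1, map_add, map_add, E.map_algebraMap, add_zero, E.leibniz, E.leibniz,
          E.map_algebraMap, E.map_algebraMap]
        simp only [smul_eq_mul, mul_zero, add_zero]
      rw [e1]
      exact ((Regular.const α).mul hs).add ((Regular.const β).mul ht)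
    have key : ∀ m, Regular L y (E (G m) / G m * G m ^ (bl n c m)) := by
      intro m
      by_cases hq : L m ⬝ᵥ y.q = 0
      · have hmi : m = i ∨ m = j := by
          by_contra hcon
          push Not at hcon
          exact hm m hcon.1 hcon.2 hq
        by_cases hc : c m + 1 = n
        · rw [hbl1 m hc, pow_one, div_mul_cancel₀ _ (hG0 m)]
          exact hE m
        · rw [hbl0 m hc, pow_zero, mul_one]
          rcases hmi with rfl | rfl
          · refine hs' hq ?_
            rw [hal hq]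
            exact hc
          · refine ht' hq ?_
            rw [hbe hq]
            exact hc
      · rw [div_eq_mul_inv]
        exact ((hE m).mul (hu m hq)).mul (k11_reg_pow (hGr m) _)
    intro m m' _
    have e1 : (E (G m) / G m - E (G m') / G m') * G m ^ (bl n c m) * G m' ^ (bl n c m') =
        (E (G m) / G m * G m ^ (bl n c m)) * G m' ^ (bl n c m') -
          (E (G m') / G m' * G m' ^ (bl n c m')) * G m ^ (bl n c m) := by ring
    rw [e1]
    exact ((key m).mul (k11_reg_pow (hGr m') _)).sub ((key m').mul (k11_reg_pow (hGr m) _))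

private theorem k11_comb {u v w : Fin 3 → ℂ} (h : LinearIndependent ℂ ![u, v, w])
    (x : Fin 3 → ℂ) : ∃ α β γ : ℂ, x = α • u + β • v + γ • w := by
  have h1 : x ∈ Submodule.span ℂ (Set.range ![u, v, w]) := by
    rw [h.span_eq_top_of_card_eq_finrank (by simp)]
    trivial
  obtain ⟨c, hc⟩ := (Submodule.mem_span_range_iff_exists_fun ℂ).1 h1
  refine ⟨c 0, c 1, c 2, ?_⟩
  rw [← hc, Fin.sum_univ_three]
  rfl

theorem exists_loc_non [NeZero k] (hC : Config L) {n : ℕ} (hn : 2 ≤ n) {y : Pt}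
    (hq : ¬ Multiple L y.q) :
    ∃ (s t : Fn) (a b : ℂ) (bs bt : Prop) (al be : (Fin k → ℕ) → ℕ) (h : (Fin k → ℕ) → Fn),
      LocData L n y s t a b bs bt al be h ∧ ∀ c ∈ AA k n, ∀ D : Derivation ℂ Fn Fn,
        (FCond L n c y D ↔
          LCond L y s t bs bt n (al c) (be c) ((fl (L 0) ^ (dd n c) / h c) • D)) := by
  classical
  have hq0 : y.q ≠ 0 := y.ind.ne_zero 0
  obtain ⟨i, j, l, hind, hlq, hm⟩ := sel_non hC hq0 hq
  obtain ⟨-, sig, -, -, -, hsq, hsw, -⟩ := exists_forms y
  have hsw' : sig ⬝ᵥ y.w ≠ 0 := by rw [hsw]; exact one_ne_zero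
  have hinj := hind.injective
  have hij : i ≠ j := by
    rintro rfl
    exact absurd (hinj (a₁ := 0) (a₂ := 1) rfl) (by decide)
  have hil : i ≠ l := by
    rintro rfl
    exact absurd (hinj (a₁ := 0) (a₂ := 2) rfl) (by decide)
  have hjl : j ≠ l := by
    rintro rfl
    exact absurd (hinj (a₁ := 1) (a₂ := 2) rfl) (by decide)
  have hLne : ∀ m, L m ≠ 0 := by
    intro m
    rcases eq_or_ne m i with rfl | hmi
    · exact (hC.ind m j hij).ne_zero 0
    · exact (hC.ind m i hmi).ne_zero 0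
  have hfl : ∀ m, fl (L m) ≠ 0 := fun m => fl_ne_zero (hLne m)
  have hmm : ∀ c, mm L n c y = 0 := fun c => by unfold mm; rw [if_neg hq]
  have hee : ∀ c m m', ee L n c y m m' = 0 := fun c m m' => by
    unfold ee
    rw [if_neg fun h => hq h.1]
  have hinS : ∀ m, ¬ inS L y m := fun m h => hq h.1
  have hgg : ∀ m, gg L y (L l) sig m = fl (L m) / fl (L l) := fun m => by
    unfold gg
    rw [if_neg (hinS m)]
  have hG0 : ∀ m, fl (L m) / fl (L l) ≠ 0 := fun m => div_ne_zero (hfl m) (hfl l)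
  have hGr : ∀ m, Regular L y (fl (L m) / fl (L l)) := fun m =>
    regular_iff_val.2 ⟨_, Val.ratio hlq⟩
  have hGl : fl (L l) / fl (L l) = 1 := div_self (hfl l)
  have hu : ∀ m, L m ⬝ᵥ y.q ≠ 0 → Regular L y (fl (L m) / fl (L l))⁻¹ := fun m h =>
    regular_iff_val.2 ⟨_, (Val.ratio hlq).inv (div_ne_zero h hlq)⟩
  have hlin : ∀ m, ∃ α β γ : ℂ, fl (L m) / fl (L l) =
      algebraMap ℂ Fn α * (fl (L i) / fl (L l)) + algebraMap ℂ Fn β * (fl (L j) / fl (L l)) +
        algebraMap ℂ Fn γ := by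
    intro m
    obtain ⟨α, β, γ, h1⟩ := k11_comb hind (L m)
    refine ⟨α, β, γ, ?_⟩
    rw [h1, k11_fl_add, k11_fl_add, k11_fl_smul, k11_fl_smul, k11_fl_smul]
    have := hfl l
    field_simp
  refine ⟨fl (L i) / fl (L l), fl (L j) / fl (L l), L i ⬝ᵥ y.q / L l ⬝ᵥ y.q,
    L j ⬝ᵥ y.q / L l ⬝ᵥ y.q, L i ⬝ᵥ y.q = 0, L j ⬝ᵥ y.q = 0,
    fun c => if L i ⬝ᵥ y.q = 0 then c i else 0, fun c => if L j ⬝ᵥ y.q = 0 then c j else 0,
    fun c => fl (L 0) ^ (dd n c) * fl (L l) ^ (-(dd n c)), ?_, ?_⟩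
  · refine ⟨coordP hind, fun f => regP hind hlq hq f, fun c => ?_, ?_, ?_, ?_, ?_, ?_, ?_⟩
    · exact mul_ne_zero (zpow_ne_zero _ (hfl 0)) (zpow_ne_zero _ (hfl l))
    · intro c hc
      have h1 := pw_gg (by omega : 0 < n) hc hC hlq hsw'
      rw [hmm, neg_zero, zpow_zero, mul_one, sub_zero, if_neg hq, pow_zero, mul_one] at h1
      simp only [hgg] at h1
      obtain ⟨e, he, he0⟩ := k11_val_prod (L := L) (y := y) Finset.univ
        (fun m => if L m ⬝ᵥ y.q = 0 then (1 : Fn) else (fl (L m) / fl (L l)) ^ c m) (by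
          intro m _
          by_cases h : L m ⬝ᵥ y.q = 0
          · refine ⟨1, ?_, one_ne_zero⟩
            simp only [if_pos h]
            rw [← map_one (algebraMap ℂ Fn)]
            exact Val.const 1
          · simp only [if_neg h]
            exact k11_val_pow (Val.ratio hlq) (div_ne_zero h hlq) _)
      refine ⟨_, e, he, he0, ?_⟩
      rw [h1]
      have h2 : ∏ m, (if L m ⬝ᵥ y.q = 0 then (fl (L m) / fl (L l)) ^ c m else (1 : Fn)) =
          (fl (L i) / fl (L l)) ^ (if L i ⬝ᵥ y.q = 0 then c i else 0) *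
            (fl (L j) / fl (L l)) ^ (if L j ⬝ᵥ y.q = 0 then c j else 0) := by
        rw [Finset.prod_eq_mul i j hij]
        · congr 1
          · split_ifs <;> simp
          · split_ifs <;> simp
        · intro m _ hmm'
          rw [if_neg (hm m hmm'.1 hmm'.2)]
        · intro h; exact absurd (Finset.mem_univ _) h
        · intro h; exact absurd (Finset.mem_univ _) h
      rw [mul_assoc, ← h2, ← Finset.prod_mul_distrib]
      refine Finset.prod_congr rfl fun m _ => ?_
      split_ifs <;> simp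
    · intro c hc
      constructor
      · show (if L i ⬝ᵥ y.q = 0 then c i else 0) < n
        split_ifs
        · exact k11_lt hc i
        · omega
      · show (if L j ⬝ᵥ y.q = 0 then c j else 0) < n
        split_ifs
        · exact k11_lt hc j
        · omega
    · intro h c _
      exact if_neg h
    · intro h c _
      exact if_neg h
    · intro h
      obtain ⟨c, hc, h1, h2⟩ := k11_ex hn hil
      refine ⟨c, hc, ?_, ?_⟩
      · show (if L i ⬝ᵥ y.q = 0 then c i else 0) = 1
        rw [if_pos h, h1]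
      · show (if L j ⬝ᵥ y.q = 0 then c j else 0) = 0
        rw [h2 j hij.symm hjl, ite_self]
    · intro h
      obtain ⟨c, hc, h1, h2⟩ := k11_ex hn hjl
      refine ⟨c, hc, ?_, ?_⟩
      · show (if L i ⬝ᵥ y.q = 0 then c i else 0) = 0
        rw [h2 i hij hil, ite_self]
      · show (if L j ⬝ᵥ y.q = 0 then c j else 0) = 1
        rw [if_pos h, h1]
  · intro c hc D
    rw [fcond_iff c hC hlq hsq hsw' D, hmm]
    have hsc : fl (L 0) ^ (dd n c) / (fl (L 0) ^ (dd n c) * fl (L l) ^ (-(dd n c))) =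
        fl (L l) ^ (dd n c) := by
      rw [zpow_neg]
      have h1 : fl (L 0) ^ (dd n c) ≠ 0 := zpow_ne_zero _ (hfl 0)
      have h2 : fl (L l) ^ (dd n c) ≠ 0 := zpow_ne_zero _ (hfl l)
      field_simp
    have hsc2 : fl (L l) ^ (dd n c - 0) * fl sig ^ (0 : ℤ) = fl (L l) ^ (dd n c) := by
      rw [sub_zero, zpow_zero, mul_one]
    show _ ↔ LCond L y _ _ _ _ n _ _
      ((fl (L 0) ^ (dd n c) / (fl (L 0) ^ (dd n c) * fl (L l) ^ (-(dd n c)))) • D)
    rw [hsc, hsc2]
    refine Iff.trans ?_ (k11_main (L := L) (n := n) (y := y) hij hil hjl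
      (fun m => fl (L m) / fl (L l)) hG0 hGr hGl hu hm hlin c _ _ (fun h => if_pos h)
      (fun h => if_pos h) (fl (L l) ^ (dd n c) • D))
    refine forall_congr' fun m => forall_congr' fun m' => imp_congr_right fun _ => ?_
    rw [cij_gg hC hlq hsw', if_neg (hinS m), if_neg (hinS m'), sub_zero, zero_mul, add_zero, hgg,
      hgg, hee, pow_zero, mul_one]

end HKR
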