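import Pool.Agent.Lib.HKR.K10
/-!
HKR.K12 (chart at a multiple point).  q = y.q multiple.  Take i, j, l of sel_mult, lam := L l, sig := L j (sig(q) = 0, sig(w) ≠ 0).
s := fl (L j)/fl (L l) = uu, t := fl (L i)/fl (L j), a := 0, b := L i(w)/L j(w), bs := True, bt := (L i ⬝ w = 0),
al c := (Σ_{SS L q} c) % n, be c := if L i ⬝ w = 0 then c i else 0,
h c := fl (L 0)^(dd n c) * fl lam^(-(dd n c - mm)) * fl sig^(-mm).
LocData: coordB (lx := L j, ly := L i, lz := L l), regB; pow: pw_gg: ∏ gg m^(c m) * s^(al c), gg m = fl (L m)/fl (L j) for lines m through q: unit if m ≠ i (value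
L m(w)/L j(w) ≠ 0, Val.ratio_mult), gg i = t (unit if L i(w) ≠ 0); gg m = fl (L m)/fl (L l) for lines off q: unit (Val.ratio).
lt: clear.  exs: c := 1 at j, n - 1 at l, 0 elsewhere: Σ_S c = 1 (j ∈ S, l ∉ S, n ≥ 2), c i = 0.  ext: 1 at i, n - 1 at j:
Σ_S c = n, n % n = 0, c i = 1.
FCond ↔ LCond: fcond_iff with D'' := (fl lam^(dd-mm) fl sig^mm) • D; δ g := D'' g/g.
(→) pair (i,j) (both through q, gg j = 1, ee = 0): δ(t) t^(bl i) regular: if t is a unit: δ(t), D''t regular; if L i ⬝ w = 0: bl i = 1: D''t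
    regular, bl i = 0: D''t/t regular.  Pair (j,l): cij = δ(s) (cij_gg: gg j = 1, gg l = 1), gg's = 1, ee = bS: bS = 1 (al c + 1 = n): δ(s) s = D''s regular;
    bS = 0: D''s/s regular, so D''s.
(←) lines m through q: L m = α L j + β L i, gg m = α + β t, D''(gg m) = β D''t regular.  Lines off q: L m = α L j + β L i + γ L l:
    gg m = α s + β s t + γ, D''(gg m) regular.  δ(gg m) gg m^(bl m) is regular for all m (unit, or m = i and L i(w) = 0).
    δ(s) s^(bS) is regular.  cij = δ(gg m) - δ(gg m') + ([m∈S] - [m'∈S]) δ(s); if [m∈S] ≠ [m'∈S] then ee = bS; if both are in S or both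
    are not in S the last term is 0.  Multiply by gg m^bl gg m'^bl s^ee, all regular.
-/
open MvPolynomial
namespace HKR
variable {k : ℕ} {L : Fin k → Fin 3 → ℂ}

private theorem k12_fl_add (l l' : Fin 3 → ℂ) : fl (l + l') = fl l + fl l' := by
  unfold fl
  rw [← map_add]
  congr 1
  unfold lin
  rw [← Finset.sum_add_distrib]
  refine Finset.sum_congr rfl fun j _ => ?_
  rw [Pi.add_apply, C_add, add_mul]

private theorem k12_fl_smul (c : ℂ) (l : Fin 3 → ℂ) :
    fl (c • l) = algebraMap ℂ Fn c * fl l := by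
  unfold fl
  have h : lin (c • l) = algebraMap ℂ _ c * lin l := by
    unfold lin
    rw [Finset.mul_sum]
    refine Finset.sum_congr rfl fun j _ => ?_
    rw [Pi.smul_apply, smul_eq_mul, C_mul, MvPolynomial.algebraMap_eq, mul_assoc]
  rw [h, map_mul, AlgHom.commutes]

private theorem k12_reg_pow {y : Pt} {f : Fn} (h : Regular L y f) (m : ℕ) :
    Regular L y (f ^ m) := by
  induction m with
  | zero =>
    rw [pow_zero, ← map_one (algebraMap ℂ Fn)]
    exact Regular.const 1
  | succ m ih => rw [pow_succ]; exact ih.mul h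

private theorem k12_val_prod {y : Pt} {ι : Type} [DecidableEq ι] (T : Finset ι) (f : ι → Fn)
    (h : ∀ i ∈ T, ∃ e : ℂ, Val L y (f i) e ∧ e ≠ 0) : ∃ e : ℂ, Val L y (∏ i ∈ T, f i) e ∧ e ≠ 0 := by
  induction T using Finset.induction_on with
  | empty =>
    refine ⟨1, ?_, one_ne_zero⟩
    rw [Finset.prod_empty, ← map_one (algebraMap ℂ Fn)]
    exact Val.const 1
  | insert a T ha ih =>
    obtain ⟨e, he, he0⟩ := ih fun i hi => h i (Finset.mem_insert_of_mem hi)
    obtain ⟨e', he', he0'⟩ := h a (Finset.mem_insert_self _ _)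
    rw [Finset.prod_insert ha]
    exact ⟨_, he'.mul he, mul_ne_zero he0' he0⟩

private theorem k12_val_pow {y : Pt} {f : Fn} {e : ℂ} (h : Val L y f e) (h0 : e ≠ 0) (m : ℕ) :
    ∃ e : ℂ, Val L y (f ^ m) e ∧ e ≠ 0 := by
  induction m with
  | zero =>
    refine ⟨1, ?_, one_ne_zero⟩
    rw [pow_zero, ← map_one (algebraMap ℂ Fn)]
    exact Val.const 1
  | succ m ih =>
    obtain ⟨e', he', he0'⟩ := ih
    rw [pow_succ]
    exact ⟨_, he'.mul h, mul_ne_zero he0' h0⟩

private theorem k12_lt {n : ℕ} {c : Fin k → ℕ} (hc : c ∈ AA k n) (m : Fin k) : c m < n :=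
  Finset.mem_range.1 (Fintype.mem_piFinset.1 (Finset.mem_filter.1 hc).1 m)

private theorem k12_ex {n : ℕ} (hn : 2 ≤ n) {i l : Fin k} (hil : i ≠ l) :
    ∃ c ∈ AA k n, c i = 1 ∧ c l = n - 1 ∧ ∀ m, m ≠ i → m ≠ l → c m = 0 := by
  refine ⟨Pi.single i 1 + Pi.single l (n - 1), ?_, ?_, ?_, ?_⟩
  · refine Finset.mem_filter.2 ⟨Fintype.mem_piFinset.2 fun m => Finset.mem_range.2 ?_, ?_⟩
    · rw [Pi.add_apply]
      by_cases h1 : m = i
      · subst h1
        rw [Pi.single_eq_same, Pi.single_eq_of_ne hil]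
        omega
      · rw [Pi.single_eq_of_ne h1]
        by_cases h2 : m = l
        · subst h2
          rw [Pi.single_eq_same]
          omega
        · rw [Pi.single_eq_of_ne h2]
          omega
    · have h1 : ∑ m, (Pi.single i 1 + Pi.single l (n - 1) : Fin k → ℕ) m = n := by
        simp only [Pi.add_apply]
        rw [Finset.sum_add_distrib, Finset.sum_pi_single', Finset.sum_pi_single',
          if_pos (Finset.mem_univ _), if_pos (Finset.mem_univ _)]
        omega
      rw [h1]
  · rw [Pi.add_apply, Pi.single_eq_same, Pi.single_eq_of_ne hil, add_zero]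
  · rw [Pi.add_apply, Pi.single_eq_same, Pi.single_eq_of_ne hil.symm, zero_add]
  · intro m h1 h2
    rw [Pi.add_apply, Pi.single_eq_of_ne h1, Pi.single_eq_of_ne h2, add_zero]

private theorem k12_comb {u v w : Fin 3 → ℂ} (h : LinearIndependent ℂ ![u, v, w])
    (x : Fin 3 → ℂ) : ∃ α β γ : ℂ, x = α • u + β • v + γ • w := by
  have h1 : x ∈ Submodule.span ℂ (Set.range ![u, v, w]) := by
    rw [h.span_eq_top_of_card_eq_finrank (by simp)]
    trivial
  obtain ⟨c, hc⟩ := (Submodule.mem_span_range_iff_exists_fun ℂ).1 h1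
  refine ⟨c 0, c 1, c 2, ?_⟩
  rw [← hc, Fin.sum_univ_three]
  rfl

open Classical in
/-- the local computation -/
private theorem k12_main {n : ℕ} {y : Pt} {i j l : Fin k} (hij : i ≠ j)
    (hjl : j ≠ l) (G : Fin k → Fn) (s : Fn) (S : Fin k → Prop) (bt : Prop)
    (hG0 : ∀ m, G m ≠ 0) (hs0 : s ≠ 0) (hGr : ∀ m, Regular L y (G m)) (hsr : Regular L y s)
    (hj : G j = 1) (hl : G l = 1) (hSi : S i) (hSj : S j) (hSl : ¬ S l)
    (hu : ∀ m, (m = i → ¬ bt) → Regular L y (G m)⁻¹)
    (hlinS : ∀ m, S m → ∃ α β : ℂ, G m = algebraMap ℂ Fn α + algebraMap ℂ Fn β * G i)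
    (hlinN : ∀ m, ¬ S m → ∃ α β γ : ℂ, G m = algebraMap ℂ Fn α * s +
      algebraMap ℂ Fn β * (s * G i) + algebraMap ℂ Fn γ) (c : Fin k → ℕ) (al be eS : ℕ)
    (he : eS = if al + 1 = n then 1 else 0)
    (hbe : bt → be = c i)
    (E : Derivation ℂ Fn Fn) :
    (∀ m m', m ≠ m' → Regular L y ((E (G m) / G m - E (G m') / G m' +
      ((if S m then 1 else 0) - (if S m' then 1 else 0)) * (E s / s)) * G m ^ (bl n c m) *
      G m' ^ (bl n c m') * s ^ (if ¬ (S m ∧ S m') then eS else 0))) ↔
    LCond L y s (G i) True bt n al be E := by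
  have hbl0 : ∀ m, c m + 1 ≠ n → bl n c m = 0 := fun m h => by unfold bl; rw [if_neg h]
  have hbl1 : ∀ m, c m + 1 = n → bl n c m = 1 := fun m h => by unfold bl; rw [if_pos h]
  constructor
  · intro h
    have key1 : Regular L y (E (G i) / G i * G i ^ (bl n c i)) := by
      have h1 := h i j hij
      have e1 : (E (G i) / G i - E (G j) / G j +
          ((if S i then 1 else 0) - (if S j then 1 else 0)) * (E s / s)) * G i ^ (bl n c i) *
          G j ^ (bl n c j) * s ^ (if ¬ (S i ∧ S j) then eS else 0) =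
          E (G i) / G i * G i ^ (bl n c i) := by
        rw [hj, one_pow, E.map_one_eq_zero, zero_div, sub_zero, mul_one, if_pos hSi, if_pos hSj,
          sub_self, zero_mul, add_zero, if_neg (not_not.2 ⟨hSi, hSj⟩), pow_zero, mul_one]
      rw [e1] at h1
      exact h1
    have key2 : Regular L y (E s / s * s ^ eS) := by
      have h1 := h j l hjl
      have e1 : (E (G j) / G j - E (G l) / G l +
          ((if S j then 1 else 0) - (if S l then 1 else 0)) * (E s / s)) * G j ^ (bl n c j) *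
          G l ^ (bl n c l) * s ^ (if ¬ (S j ∧ S l) then eS else 0) =
          E s / s * s ^ eS := by
        rw [hj, hl, one_pow, one_pow, sub_self, zero_add, mul_one, mul_one, if_pos hSj,
          if_neg hSl, sub_zero, one_mul, if_pos (fun h => hSl h.2)]
      rw [e1] at h1
      exact h1
    refine ⟨?_, ?_, fun _ h1 => ?_, fun h1 h2 => ?_⟩
    · by_cases h1 : al + 1 = n
      · rw [he, if_pos h1, pow_one, div_mul_cancel₀ _ hs0] at key2
        exact key2
      · rw [he, if_neg h1, pow_zero, mul_one] at key2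
        have h2 := key2.mul hsr
        rw [div_mul_cancel₀ _ hs0] at h2
        exact h2
    · by_cases h1 : c i + 1 = n
      · rw [hbl1 i h1, pow_one, div_mul_cancel₀ _ (hG0 i)] at key1
        exact key1
      · rw [hbl0 i h1, pow_zero, mul_one] at key1
        have h2 := key1.mul (hGr i)
        rw [div_mul_cancel₀ _ (hG0 i)] at h2
        exact h2
    · rw [he, if_neg h1, pow_zero, mul_one] at key2
      exact key2
    · rw [hbe h1] at h2
      rwa [hbl0 i h2, pow_zero, mul_one] at key1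
  · rintro ⟨hs, ht, hs', ht'⟩
    have hE : ∀ m, Regular L y (E (G m)) := by
      intro m
      by_cases hS : S m
      · obtain ⟨α, β, h1⟩ := hlinS m hS
        have e1 : E (G m) = algebraMap ℂ Fn β * E (G i) := by
          rw [h1, map_add, E.map_algebraMap, zero_add, E.leibniz, E.map_algebraMap]
          simp only [smul_eq_mul, mul_zero, add_zero]
        rw [e1]
        exact (Regular.const β).mul ht
      · obtain ⟨α, β, γ, h1⟩ := hlinN m hS
        have e1 : E (G m) = algebraMap ℂ Fn α * E s +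
            algebraMap ℂ Fn β * (s * E (G i) + G i * E s) := by
          rw [h1, map_add, map_add, E.map_algebraMap, add_zero, E.leibniz, E.leibniz, E.leibniz,
            E.map_algebraMap, E.map_algebraMap]
          simp only [smul_eq_mul, mul_zero, add_zero]
        rw [e1]
        exact ((Regular.const α).mul hs).add
          ((Regular.const β).mul ((hsr.mul ht).add ((hGr i).mul hs)))
    have key : ∀ m, Regular L y (E (G m) / G m * G m ^ (bl n c m)) := by
      intro m
      by_cases hq : m = i ∧ bt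
      · obtain ⟨rfl, hbt⟩ := hq
        by_cases hc : c m + 1 = n
        · rw [hbl1 m hc, pow_one, div_mul_cancel₀ _ (hG0 m)]
          exact hE m
        · rw [hbl0 m hc, pow_zero, mul_one]
          refine ht' hbt ?_
          rw [hbe hbt]
          exact hc
      · rw [div_eq_mul_inv]
        exact ((hE m).mul (hu m (fun h1 h2 => hq ⟨h1, h2⟩))).mul (k12_reg_pow (hGr m) _)
    have keyS : Regular L y (E s / s * s ^ eS) := by
      by_cases h1 : al + 1 = n
      · rw [he, if_pos h1, pow_one, div_mul_cancel₀ _ hs0]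
        exact hs
      · rw [he, if_neg h1, pow_zero, mul_one]
        exact hs' trivial h1
    have hone : ∀ P : Prop, Regular L y (if P then (1 : Fn) else 0) := by
      intro P
      by_cases hP : P
      · rw [if_pos hP, ← map_one (algebraMap ℂ Fn)]
        exact Regular.const 1
      · rw [if_neg hP, ← map_zero (algebraMap ℂ Fn)]
        exact Regular.const 0
    intro m m' _
    set ex : ℕ := if ¬ (S m ∧ S m') then eS else 0 with hex
    have e1 : (E (G m) / G m - E (G m') / G m' +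
        ((if S m then 1 else 0) - (if S m' then 1 else 0)) * (E s / s)) * G m ^ (bl n c m) *
        G m' ^ (bl n c m') * s ^ ex =
        (E (G m) / G m * G m ^ (bl n c m)) * (G m' ^ (bl n c m') * s ^ ex) -
          (E (G m') / G m' * G m' ^ (bl n c m')) * (G m ^ (bl n c m) * s ^ ex) +
        (((if S m then 1 else 0) - (if S m' then 1 else 0)) * (E s / s * s ^ ex)) *
          (G m ^ (bl n c m) * G m' ^ (bl n c m')) := by ring
    rw [e1]
    refine Regular.add (Regular.sub ?_ ?_) ?_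
    · exact (key m).mul ((k12_reg_pow (hGr m') _).mul (k12_reg_pow hsr _))
    · exact (key m').mul ((k12_reg_pow (hGr m) _).mul (k12_reg_pow hsr _))
    · refine Regular.mul ?_ ((k12_reg_pow (hGr m) _).mul (k12_reg_pow (hGr m') _))
      by_cases hSS : S m ∧ S m'
      · rw [if_pos hSS.1, if_pos hSS.2, sub_self, zero_mul, ← map_zero (algebraMap ℂ Fn)]
        exact Regular.const 0
      · rw [hex, if_pos hSS]
        exact ((hone _).sub (hone _)).mul keyS

theorem exists_loc_mult [NeZero k] (hC : Config L) {n : ℕ} (hn : 2 ≤ n) {y : Pt}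
    (hq : Multiple L y.q) :
    ∃ (s t : Fn) (a b : ℂ) (bs bt : Prop) (al be : (Fin k → ℕ) → ℕ) (h : (Fin k → ℕ) → Fn),
      LocData L n y s t a b bs bt al be h ∧ ∀ c ∈ AA k n, ∀ D : Derivation ℂ Fn Fn,
        (FCond L n c y D ↔
          LCond L y s t bs bt n (al c) (be c) ((fl (L 0) ^ (dd n c) / h c) • D)) := by
  classical
  obtain ⟨i, j, l, hij, hiq, hjq, hjw, hlq, hind, hm⟩ := sel_mult hC hq
  have hinj := hind.injective
  have hil : i ≠ l := by
    rintro rfl
    exact hlq hiq
  have hjl : j ≠ l := by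
    rintro rfl
    exact hlq hjq
  have hLne : ∀ m, L m ≠ 0 := by
    intro m
    rcases eq_or_ne m i with rfl | hmi
    · exact (hC.ind m j hij).ne_zero 0
    · exact (hC.ind m i hmi).ne_zero 0
  have hfl : ∀ m, fl (L m) ≠ 0 := fun m => fl_ne_zero (hLne m)
  have hinS : ∀ m, inS L y m ↔ L m ⬝ᵥ y.q = 0 := fun m => ⟨fun h => h.2, fun h => ⟨hq, h⟩⟩
  have hmSS : ∀ m, m ∈ SS L y.q ↔ L m ⬝ᵥ y.q = 0 := by
    intro m
    unfold SS
    simp
  have hggS : ∀ m, L m ⬝ᵥ y.q = 0 → gg L y (L l) (L j) m = fl (L m) / fl (L j) := fun m h => by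
    unfold gg
    rw [if_pos ((hinS m).2 h)]
  have hggN : ∀ m, L m ⬝ᵥ y.q ≠ 0 → gg L y (L l) (L j) m = fl (L m) / fl (L l) := fun m h => by
    unfold gg
    rw [if_neg (fun h' => h ((hinS m).1 h'))]
  set G : Fin k → Fn := gg L y (L l) (L j) with hGdef
  set s : Fn := fl (L j) / fl (L l) with hs
  have hs0 : s ≠ 0 := div_ne_zero (hfl j) (hfl l)
  have hsr : Regular L y s := regular_iff_val.2 ⟨_, Val.ratio hlq⟩
  have hG0 : ∀ m, G m ≠ 0 := by
    intro m
    by_cases h : L m ⬝ᵥ y.q = 0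
    · rw [hggS m h]; exact div_ne_zero (hfl m) (hfl j)
    · rw [hggN m h]; exact div_ne_zero (hfl m) (hfl l)
  have hGr : ∀ m, Regular L y (G m) := by
    intro m
    by_cases h : L m ⬝ᵥ y.q = 0
    · rw [hggS m h]; exact regular_iff_val.2 ⟨_, Val.ratio_mult hq h hjq hjw⟩
    · rw [hggN m h]; exact regular_iff_val.2 ⟨_, Val.ratio hlq⟩
  have hGj : G j = 1 := by rw [hggS j hjq, div_self (hfl j)]
  have hGl : G l = 1 := by rw [hggN l hlq, div_self (hfl l)]
  have hGi : G i = fl (L i) / fl (L j) := hggS i hiq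
  have hval : ∀ m, (m = i → ¬ (L i ⬝ᵥ y.w = 0)) → ∃ e : ℂ, Val L y (G m) e ∧ e ≠ 0 := by
    intro m hmi
    by_cases h : L m ⬝ᵥ y.q = 0
    · rw [hggS m h]
      refine ⟨_, Val.ratio_mult hq h hjq hjw, div_ne_zero ?_ hjw⟩
      by_cases h' : m = i
      · rw [h']; exact hmi h'
      · exact hm m h h'
    · rw [hggN m h]
      exact ⟨_, Val.ratio hlq, div_ne_zero h hlq⟩
  have hu : ∀ m, (m = i → ¬ (L i ⬝ᵥ y.w = 0)) → Regular L y (G m)⁻¹ := by
    intro m hmi
    obtain ⟨e, he, he0⟩ := hval m hmi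
    exact regular_iff_val.2 ⟨_, he.inv he0⟩
  have hlinS : ∀ m, L m ⬝ᵥ y.q = 0 → ∃ α β : ℂ,
      G m = algebraMap ℂ Fn α + algebraMap ℂ Fn β * G i := by
    intro m hmq
    obtain ⟨α, β, γ, h1⟩ := k12_comb hind (L m)
    have hγ : γ = 0 := by
      have h2 := congrArg (fun v => v ⬝ᵥ y.q) h1
      simp only [add_dotProduct, smul_dotProduct, hjq, hiq, hmq, smul_eq_mul, mul_zero,
        zero_add] at h2
      rcases mul_eq_zero.1 h2.symm with h | h
      · exact h
      · exact absurd h hlq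
    refine ⟨α, β, ?_⟩
    rw [hggS m hmq, hGi, h1, hγ, zero_smul, add_zero, k12_fl_add, k12_fl_smul, k12_fl_smul]
    have := hfl j
    field_simp
  have hlinN : ∀ m, ¬ (L m ⬝ᵥ y.q = 0) → ∃ α β γ : ℂ, G m = algebraMap ℂ Fn α * s +
      algebraMap ℂ Fn β * (s * G i) + algebraMap ℂ Fn γ := by
    intro m hmq
    obtain ⟨α, β, γ, h1⟩ := k12_comb hind (L m)
    refine ⟨α, β, γ, ?_⟩
    rw [hggN m hmq, hGi, hs, h1, k12_fl_add, k12_fl_add, k12_fl_smul, k12_fl_smul, k12_fl_smul]
    have := hfl j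
    have := hfl l
    field_simp
  refine ⟨s, fl (L i) / fl (L j), 0, L i ⬝ᵥ y.w / L j ⬝ᵥ y.w, True, L i ⬝ᵥ y.w = 0,
    fun c => (∑ m ∈ SS L y.q, c m) % n, fun c => if L i ⬝ᵥ y.w = 0 then c i else 0,
    fun c => fl (L 0) ^ (dd n c) * fl (L l) ^ (-(dd n c - mm L n c y)) *
      fl (L j) ^ (-(mm L n c y)), ?_, ?_⟩
  · refine ⟨coordB hind, fun f => regB hind hjq hiq hq hjw f, fun c => ?_, ?_, ?_, ?_, ?_, ?_, ?_⟩
    · exact mul_ne_zero (mul_ne_zero (zpow_ne_zero _ (hfl 0)) (zpow_ne_zero _ (hfl l)))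
        (zpow_ne_zero _ (hfl j))
    · intro c hc
      have h1 := pw_gg (by omega : 0 < n) hc hC hlq hjw
      rw [if_pos hq] at h1
      obtain ⟨e, he, he0⟩ := k12_val_prod (L := L) (y := y) Finset.univ
        (fun m => if m = i ∧ L i ⬝ᵥ y.w = 0 then (1 : Fn) else G m ^ c m) (by
          intro m _
          by_cases h : m = i ∧ L i ⬝ᵥ y.w = 0
          · refine ⟨1, ?_, one_ne_zero⟩
            simp only [if_pos h]
            rw [← map_one (algebraMap ℂ Fn)]
            exact Val.const 1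
          · simp only [if_neg h]
            obtain ⟨e', he', he0'⟩ := hval m (fun h1 h2 => h ⟨h1, h2⟩)
            exact k12_val_pow he' he0' _)
      refine ⟨_, e, he, he0, ?_⟩
      rw [h1]
      have h2 : ∏ m, (if m = i ∧ L i ⬝ᵥ y.w = 0 then G m ^ c m else (1 : Fn)) =
          (fl (L i) / fl (L j)) ^ (if L i ⬝ᵥ y.w = 0 then c i else 0) := by
        rw [Finset.prod_eq_single i]
        · rw [← hGi]
          by_cases h : L i ⬝ᵥ y.w = 0
          · rw [if_pos ⟨rfl, h⟩, if_pos h]
          · rw [if_neg (fun h' => h h'.2), if_neg h, pow_zero]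
        · intro m _ hmi
          rw [if_neg (fun h' => hmi h'.1)]
        · intro h; exact absurd (Finset.mem_univ _) h
      have h3 : ∏ m, G m ^ c m = (∏ m, if m = i ∧ L i ⬝ᵥ y.w = 0 then (1 : Fn) else G m ^ c m) *
          (fl (L i) / fl (L j)) ^ (if L i ⬝ᵥ y.w = 0 then c i else 0) := by
        rw [← h2, ← Finset.prod_mul_distrib]
        refine Finset.prod_congr rfl fun m _ => ?_
        split_ifs <;> simp
      rw [← hGdef, h3]
      ring
    · intro c hc
      constructor
      · exact Nat.mod_lt _ (by omega)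
      · show (if L i ⬝ᵥ y.w = 0 then c i else 0) < n
        split_ifs
        · exact k12_lt hc i
        · omega
    · intro h
      exact absurd trivial h
    · intro h c _
      exact if_neg h
    · intro _
      obtain ⟨c, hc, h1, h2, h3⟩ := k12_ex hn hjl
      refine ⟨c, hc, ?_, ?_⟩
      · show (∑ m ∈ SS L y.q, c m) % n = 1
        rw [Finset.sum_eq_single_of_mem j ((hmSS j).2 hjq)]
        · rw [h1]
          exact Nat.mod_eq_of_lt (by omega)
        · intro m hm1 hm2
          refine h3 m hm2 ?_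
          rintro rfl
          exact hlq ((hmSS m).1 hm1)
      · show (if L i ⬝ᵥ y.w = 0 then c i else 0) = 0
        rw [h3 i hij hil, ite_self]
    · intro h
      obtain ⟨c, hc, h1, h2, h3⟩ := k12_ex hn hij
      refine ⟨c, hc, ?_, ?_⟩
      · show (∑ m ∈ SS L y.q, c m) % n = 0
        have h4 : ∑ m ∈ SS L y.q, c m = n := by
          have h5 : ∑ m ∈ ({i, j} : Finset (Fin k)), c m = ∑ m ∈ SS L y.q, c m := by
            refine Finset.sum_subset ?_ ?_
            · intro m hm1
              rw [Finset.mem_insert, Finset.mem_singleton] at hm1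
              rcases hm1 with rfl | rfl
              · exact (hmSS _).2 hiq
              · exact (hmSS _).2 hjq
            · intro m _ hm1
              rw [Finset.mem_insert, Finset.mem_singleton, not_or] at hm1
              exact h3 m hm1.1 hm1.2
          rw [← h5, Finset.sum_pair hij, h1, h2]
          omega
        rw [h4, Nat.mod_self]
      · show (if L i ⬝ᵥ y.w = 0 then c i else 0) = 1
        rw [if_pos h, h1]
  · intro c hc D
    rw [fcond_iff c hC hlq hjq hjw D]
    have hsc : fl (L 0) ^ (dd n c) / (fl (L 0) ^ (dd n c) *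
        fl (L l) ^ (-(dd n c - mm L n c y)) * fl (L j) ^ (-(mm L n c y))) =
        fl (L l) ^ (dd n c - mm L n c y) * fl (L j) ^ (mm L n c y) := by
      rw [zpow_neg, zpow_neg]
      have h1 : fl (L 0) ^ (dd n c) ≠ 0 := zpow_ne_zero _ (hfl 0)
      have h2 : fl (L l) ^ (dd n c - mm L n c y) ≠ 0 := zpow_ne_zero _ (hfl l)
      have h3 : fl (L j) ^ (mm L n c y) ≠ 0 := zpow_ne_zero _ (hfl j)
      field_simp
    show _ ↔ LCond L y _ _ _ _ n _ _
      ((fl (L 0) ^ (dd n c) / (fl (L 0) ^ (dd n c) *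
        fl (L l) ^ (-(dd n c - mm L n c y)) * fl (L j) ^ (-(mm L n c y)))) • D)
    rw [hsc, ← hGi]
    refine Iff.trans ?_ (k12_main (L := L) (n := n) (y := y) hij hjl G s
      (fun m => L m ⬝ᵥ y.q = 0) (L i ⬝ᵥ y.w = 0) hG0 hs0 hGr hsr hGj hGl hiq hjq hlq hu hlinS
      hlinN c ((∑ m ∈ SS L y.q, c m) % n) _ (bS n c (SS L y.q)) rfl (fun h => if_pos h)
      ((fl (L l) ^ (dd n c - mm L n c y) * fl (L j) ^ (mm L n c y)) • D))
    refine forall_congr' fun m => forall_congr' fun m' => imp_congr_right fun _ => ?_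
    rw [cij_gg hC hlq hjw]
    have hiS : ∀ m, (if inS L y m then (1 : Fn) else 0) =
        if L m ⬝ᵥ y.q = 0 then 1 else 0 := by
      intro m
      by_cases h : L m ⬝ᵥ y.q = 0
      · rw [if_pos h, if_pos ((hinS m).2 h)]
      · rw [if_neg h, if_neg (fun h' => h ((hinS m).1 h'))]
    have hee : ee L n c y m m' =
        if ¬ (L m ⬝ᵥ y.q = 0 ∧ L m' ⬝ᵥ y.q = 0) then bS n c (SS L y.q) else 0 := by
      unfold ee
      simp only [hq, true_and]
    rw [hiS, hiS, hee]

end HKR
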