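import Pool.Agent.Lib.HKR.K8
import Pool.Agent.Lib.HKR.K11
import Pool.Agent.Lib.HKR.K12
/-!
HKR.K13 (assembly of part K).
(1) eig_preserves: a ∈ AA, D on Fn, E the extension of fl (L 0)^(dd n a) • D to K: Preserves L y (zp z a • E) ↔ FCond L n a y D.
    PROOF.  LocData at y from K11 / K12; h := h a.  Let D'' := (fl (L 0)^dd / h) • D, E'' its extension; E = algebraMap h • E'' (ext_unique), so
    zp z a • E = (zp z a * algebraMap h) • E''.  preserves_to, preserves_of and the last clause of exists_loc.
(2) klevel.  Given D, decompose every D y (der_decomp, choice): components c y a.  For a ∈ AA put D_a y := fl (L 0)^(-dd n a) • c y a.  LC L (FCond L n a) D_a: for y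
    take T of LC; for y' where T is regular Preserves y' (D y' - D y); D y' - D y has the components c y' a - c y a, so by comp_preserves
    Preserves y' (zp z a • (extension of c y' a - c y a)), and by (1) FCond L n a y' (D_a y' - D_a y).  hF gives E_a, FCond y (E_a - D_a y) for all y.
    E := Σ_{a ∈ AA} zp z a • (extension of fl (L 0)^dd • E_a).  E - D y = Σ_a zp z a • (extension of fl (L 0)^dd • (E_a - D_a y)) (ext_unique: agree on Fn)
    and each term preserves (1); sums of preserving derivations preserve (Int.sum).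
-/
open MvPolynomial
namespace HKR
variable {k : ℕ} {L : Fin k → Fin 3 → ℂ} {n : ℕ} {K : Type} [Field K] [Algebra Fn K]
  [Algebra ℂ K] [IsScalarTower ℂ Fn K] {z : Fin k → K}

private theorem k13_ne [NeZero k] (hC : Config L) : fl (L 0) ≠ 0 := by
  apply fl_ne_zero
  intro h0
  by_cases h : ∃ j : Fin k, j ≠ 0
  · obtain ⟨j, hj⟩ := h
    have h1 := (hC.ind 0 j hj.symm).ne_zero 0
    exact h1 (by simpa using h0)
  · push Not at h
    have h1 := hC.nonconc (Pi.single 0 1) (fun j => by rw [h j, h0, zero_dotProduct])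
    have h2 := congrFun h1 0
    simp at h2

omit [Algebra Fn K] [IsScalarTower ℂ Fn K] in
private theorem k13_sum_apply {ι : Type} (T : Finset ι) (F : ι → Derivation ℂ K K) (x : K) :
    (∑ i ∈ T, F i) x = ∑ i ∈ T, F i x := by
  classical
  induction T using Finset.induction_on with
  | empty => simp
  | insert i T hi ih => rw [Finset.sum_insert hi, Finset.sum_insert hi, Derivation.add_apply, ih]

theorem eig_preserves [NeZero k] (hC : Config L) (hn : 2 ≤ n) (hz : Kum L n K z) {a : Fin k → ℕ}
    (ha : a ∈ AA k n) {y : Pt} {D : Derivation ℂ Fn Fn} {E : Derivation ℂ K K}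
    (hE : ∀ f, E (algebraMap Fn K f) = algebraMap Fn K (fl (L 0) ^ (dd n a) * D f)) :
    Preserves L y (zp z a • E) ↔ FCond L n a y D := by
  classical
  have hn' : 0 < n := by omega
  have := kum_fin hC hn' hz
  have hloc : ∃ (s t : Fn) (a₀ b₀ : ℂ) (bs bt : Prop) (al be : (Fin k → ℕ) → ℕ)
      (h : (Fin k → ℕ) → Fn), LocData L n y s t a₀ b₀ bs bt al be h ∧
      ∀ c ∈ AA k n, ∀ D : Derivation ℂ Fn Fn, (FCond L n c y D ↔
        LCond L y s t bs bt n (al c) (be c) ((fl (L 0) ^ (dd n c) / h c) • D)) := by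
    by_cases hq : Multiple L y.q
    · exact exists_loc_mult hC hn hq
    · exact exists_loc_non hC hn hq
  obtain ⟨s, t, a₀, b₀, bs, bt, al, be, h, hd, hF⟩ := hloc
  obtain ⟨E'', hE''⟩ := exists_ext (K := K) ((fl (L 0) ^ (dd n a) / h a) • D)
  have hh : h a ≠ 0 := hd.hne a
  have h1 : E = algebraMap Fn K (h a) • E'' := by
    apply ext_unique
    intro f
    rw [hE, Derivation.smul_apply, hE'', Derivation.smul_apply, smul_eq_mul, smul_eq_mul,
      ← map_mul]
    congr 1
    field_simp
  have h2 : zp z a • E = (zp z a * algebraMap Fn K (h a)) • E'' := by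
    rw [h1, smul_smul]
  rw [h2, hF a ha D]
  exact ⟨fun h3 => preserves_to hC hn hz hd ha hE'' h3, fun h3 => preserves_of hC hn hz hd ha hE'' h3⟩

theorem klevel [NeZero k] (hC : Config L) (hn : 2 ≤ n) (hz : Kum L n K z)
    (hF : ∀ a : Fin k → ℕ, (∀ i, a i < n) → n ∣ ∑ i, a i → ∀ D : Pt → Derivation ℂ Fn Fn,
      LC L (FCond L n a) D → Glob (FCond L n a) D) :
    ∀ D : Pt → Derivation ℂ K K, LC L (fun y D => Preserves L y D) D →
      Glob (fun y D => Preserves L y D) D := by
  classical
  intro D hLC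
  have hn' : 0 < n := by omega
  have := kum_fin hC hn' hz
  have hl0 := k13_ne hC
  choose c hc using fun y => der_decomp hC hn' hz (D y)
  have hcancel : ∀ (a : Fin k → ℕ) (x : Fn),
      fl (L 0) ^ (dd n a) * (fl (L 0) ^ (-(dd n a)) * x) = x := by
    intro a x
    rw [← mul_assoc, ← zpow_add₀ hl0, add_neg_cancel, zpow_zero, one_mul]
  have claim : ∀ a : Fin k → ℕ, ∃ Ea : Derivation ℂ Fn Fn, a ∈ AA k n → ∀ y,
      FCond L n a y (Ea - fl (L 0) ^ (-(dd n a)) • c y a) := by
    intro a
    by_cases ha : a ∈ AA k n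
    · have ha1 : ∀ i, a i < n := fun i =>
        Finset.mem_range.1 (Fintype.mem_piFinset.1 (Finset.mem_filter.1 ha).1 i)
      have ha2 : n ∣ ∑ i, a i := (Finset.mem_filter.1 ha).2
      obtain ⟨Ea, hEa⟩ := hF a ha1 ha2 (fun y => fl (L 0) ^ (-(dd n a)) • c y a) (by
        intro y
        obtain ⟨T, hT, hT'⟩ := hLC y
        refine ⟨T, hT, fun y' hy' => ?_⟩
        have hP := hT' y' hy'
        obtain ⟨E1, hE1⟩ := exists_ext (K := K) (c y' a - c y a)
        have hP2 : Preserves L y' (zp z a • E1) := by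
          refine comp_preserves hC hn hz (D := D y' - D y) (c := fun b => c y' b - c y b)
            ?_ hP ha hE1
          intro f
          rw [Derivation.sub_apply, hc, hc, ← Finset.sum_sub_distrib]
          refine Finset.sum_congr rfl fun b _ => ?_
          rw [Derivation.sub_apply, map_sub]
          ring
        refine (eig_preserves hC hn hz ha (E := E1) ?_).1 hP2
        intro f
        rw [hE1, Derivation.sub_apply, Derivation.sub_apply, Derivation.smul_apply,
          Derivation.smul_apply, smul_eq_mul, smul_eq_mul, mul_sub, hcancel, hcancel])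
      exact ⟨Ea, fun _ => hEa⟩
    · exact ⟨0, fun h => absurd h ha⟩
  choose Ea hEa using claim
  choose X hX using fun a => exists_ext (K := K) (fl (L 0) ^ (dd n a) • Ea a)
  refine ⟨∑ a ∈ AA k n, zp z a • X a, fun y => ?_⟩
  choose Z hZ using fun a => exists_ext (K := K)
    (fl (L 0) ^ (dd n a) • (Ea a - fl (L 0) ^ (-(dd n a)) • c y a))
  have h1 : (∑ a ∈ AA k n, zp z a • X a) - D y = ∑ a ∈ AA k n, zp z a • Z a := by
    apply ext_unique
    intro f
    rw [Derivation.sub_apply, k13_sum_apply, k13_sum_apply, hc, ← Finset.sum_sub_distrib]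
    refine Finset.sum_congr rfl fun a _ => ?_
    rw [Derivation.smul_apply, Derivation.smul_apply, hX, hZ, smul_eq_mul, smul_eq_mul,
      Derivation.smul_apply, Derivation.smul_apply, Derivation.sub_apply, Derivation.smul_apply,
      smul_eq_mul, smul_eq_mul, smul_eq_mul, mul_sub, hcancel, map_sub]
    ring
  show Preserves L y ((∑ a ∈ AA k n, zp z a • X a) - D y)
  rw [h1]
  intro x hx
  rw [k13_sum_apply]
  refine Int.sum _ _ fun a ha => ?_
  refine (eig_preserves hC hn hz ha (D := Ea a - fl (L 0) ^ (-(dd n a)) • c y a)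
    (E := Z a) ?_).2 (hEa a ha y) x hx
  intro f
  rw [hZ, Derivation.smul_apply, smul_eq_mul]

end HKR
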