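import Pool.Agent.Lib.HKR.R3
/-!
HKR.R4 (normal pairs).  α as in AlphaOK, β = bet α, d = dM, m = mM; c ∈ X, c ∉ B.  G y ∈ T(-M)_y, and for every pair
i ≠ j and every c' ∈ XX i j, cij (G y) i j is LC modulo VO {c'}.  Then VO {c} y (cij (G y) i j) for all i ≠ j, y.
FACTS (R5.lean: facts_of_alpha): β i ∈ [0,1), Σ β = dM, β(S) - mM S ∈ [0,1); c ∈ X: line i: β i = 0; pt S:
 Σ_S β = mM S.
PROOF.  Tangential pairs: `tangential` (c ∈ XX i j).  For c = pt S pairs with both lines off S: off_point.  So (cij_trans)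
it is enough to treat ONE normal pair (i,b) for c = line i, (a,l), a ∈ S, l ∉ S for c = pt S.  (If there is no
point on c: vo_off.)
 c = pt S, q0 ≠ 0 multiple with SS L q0 = S:
  (i) some i ∈ S has β i > 0: restrict (v2), y0 = (q0, direction of L i), c' = line i.
  (ii) all β i = 0 on S, some i ∈ S has α i = 1: c' := line i ∈ X; choose a ∈ S, a ≠ i, l ∉ S (exists, nonconc); (a,l) is
   tangential to c', so by `tangential` VO {c'} y (cij (G y) a l) for all y; at y0 = (q0, direction of L i), on c and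
   c': SectV (sectV_of_vo): restrict (v1).
  (iii) all α i = 0 on S: Σ_S α = 0 but c ∈ X says Σ_S α = F_S + 1 ≥ 1: contradiction.
 c = line i (α i = 1, β i = 0):
  (i) a multiple q ≠ 0 on the line with mM (SS L q) < Σ β (over SS L q): y0 = (q, direction of L i), c' = pt (SS L q), (v2);
      or a line j ≠ i meeting L i in a non-multiple point q with β j > 0: y0 = (q, any w), c' = line j, (v2).
  (ii) otherwise, a multiple q on the line with pt (SS L q) ∈ X: c' := it; choose b ∈ SS L q, b ≠ i: (i,b) is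
      tangential to c'; y0 = (q, direction of L i): (v1); or a line j meeting L i in a non-multiple point with
      α j = 1: c' = line j, b ≠ i, j: (i,b) tangential to c', y0 = (q, w) (v1).
  (iii) otherwise: for all multiple q on the line: Σ_q β = mM integer and pt (SS L q) ∉ X, so Σ_{SS q} α =
      Σ β + #{l ∈ SS q, α l = 1} is an integer in [F_q, F_q+1), so = F_q, and Σ_{SS q} a ≥ n F_q; for the other lines
      j meeting L i in non-multiple points: β j = 0, α j ≠ 1, so α j = 0, a j ≥ 0.  The lines ≠ i are partitioned by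
      their intersection point with L i (v multiple points q, v ≥ 2 by c2, each SS L q contains i):
      Σ_q Σ_{SS q} α + Σ_j α j = (v-1) + Σ α = (v-1) + D, D = (Σ a)/n; so Σ_q F_q = v - 1 + D; and
      Σ_q Σ_{SS q} a + Σ_j a j = (v-1) a i + Σ a = (v-1) a i + n D.  Hence (v-1) a i + n D ≥ n (v-1+D), a i ≥ n: contradiction.
-/
open MvPolynomial
namespace HKR
variable {k : ℕ} {L : Fin k → Fin 3 → ℂ}


open Classical in
private theorem r4_bet_sum (α : Fin k → ℚ) (S : Finset (Fin k)) :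
    ∑ i ∈ S, bet α i = ∑ i ∈ S, α i - ((S.filter (fun i => α i = 1)).card : ℚ) := by
  rw [Finset.card_filter]
  push_cast
  rw [← Finset.sum_sub_distrib]
  refine Finset.sum_congr rfl fun i _ => ?_
  unfold bet
  split_ifs with h
  · rw [h]; norm_num
  · rw [sub_zero]

theorem facts_of_alpha {n : ℕ} {a : Fin k → ℕ} {α : Fin k → ℚ} (h : AlphaOK n a α) :
    (∀ i, 0 ≤ bet α i) ∧ (∀ i, bet α i < 1) ∧ ∑ i, bet α i = dM n a α ∧
      (∀ S, (mM α S : ℚ) ≤ ∑ i ∈ S, bet α i) ∧
      (∀ i, InX n a α (Comp.line i) → bet α i = 0) ∧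
      (∀ S, InX n a α (Comp.pt S) → (mM α S : ℚ) = ∑ i ∈ S, bet α i) := by
  classical
  refine ⟨?_, ?_, ?_, ?_, ?_, ?_⟩
  · intro i
    unfold bet
    split_ifs
    · exact le_refl _
    · exact h.nonneg i
  · intro i
    unfold bet
    split_ifs with h1
    · exact one_pos
    · exact lt_of_le_of_ne (h.le_one i) h1
  · rw [r4_bet_sum, h.sum]
    unfold dM
    have hle : (((Finset.univ.filter (fun i => α i = 1)).card : ℕ) : ℚ) ≤
        (((∑ i, a i) / n : ℕ) : ℚ) := by
      rw [← h.sum, Finset.card_filter]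
      push_cast
      refine Finset.sum_le_sum fun i _ => ?_
      split_ifs with h1
      · rw [h1]
      · exact h.nonneg i
    have hle' : (Finset.univ.filter (fun i => α i = 1)).card ≤ (∑ i, a i) / n := by
      exact_mod_cast hle
    rw [Nat.cast_sub hle']
  · intro S
    exact Int.floor_le _
  · intro i hi
    unfold bet
    rw [if_pos (show α i = 1 from hi)]
  · intro S hS
    obtain ⟨F, hF⟩ : ∃ F : ℕ, F = (∑ i ∈ S, a i) / n := ⟨_, rfl⟩
    have hS' : ∑ i ∈ S, α i = (F : ℚ) + 1 := by rw [hF]; exact hS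
    have h1 : ∑ i ∈ S, bet α i = (((F : ℤ) + 1 -
        ((S.filter (fun i => α i = 1)).card : ℤ) : ℤ) : ℚ) := by
      rw [r4_bet_sum, hS']
      push_cast
      ring
    unfold mM
    rw [h1, Int.floor_intCast]

private theorem r4_exists_indep {l p : Fin 3 → ℂ} (hl : l ≠ 0) (hp : p ≠ 0) (h : l ⬝ᵥ p = 0) :
    ∃ μ : Fin 3 → ℂ, μ ⬝ᵥ p = 0 ∧ LinearIndependent ℂ ![l, μ] := by
  obtain ⟨j, hj⟩ := Function.ne_iff.1 hl
  refine ⟨crossProduct (Pi.single j 1) p, ?_, ?_⟩
  · rw [dotProduct_comm]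
    exact dot_cross_self _ _
  · apply crossProduct_ne_zero_iff_linearIndependent.1
    rw [cross_cross_eq_smul_sub_smul', h]
    intro h0
    have h1 : Pi.single j (1 : ℂ) ⬝ᵥ l = l j := by simp
    have h2 : (l j) • p = 0 := by
      have := h0
      simp only [zero_smul, h1, zero_sub, neg_eq_zero] at this
      exact this
    rcases smul_eq_zero.1 h2 with h3 | h3
    · exact hj h3
    · exact hp h3

/-- the point `q` with the direction of the line `l` -/
private theorem r4_pt {l q : Fin 3 → ℂ} (hl : l ≠ 0) (hq : q ≠ 0) (h : l ⬝ᵥ q = 0) :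
    ∃ y : Pt, y.q = q ∧ l ⬝ᵥ y.w = 0 := by
  obtain ⟨w, hw, hind⟩ := r4_exists_indep hq hl (by rw [dotProduct_comm]; exact h)
  exact ⟨⟨q, w, hind⟩, rfl, by rw [dotProduct_comm]; exact hw⟩

private theorem r4_ne (S : Finset (Fin k)) (i : Fin k) : Comp.pt S ≠ Comp.line i := by
  intro h
  cases h

private theorem r4_mem {q : Fin 3 → ℂ} {i : Fin k} : i ∈ SS L q ↔ L i ⬝ᵥ q = 0 := by
  classical
  unfold SS
  rw [Finset.mem_filter]
  exact ⟨fun h => h.2, fun h => ⟨Finset.mem_univ _, h⟩⟩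

private theorem r4_pt_ne (y : Pt) : y.q ≠ 0 := y.ind.ne_zero 0

/-- a point on two different lines is a multiple of the cross product -/
private theorem r4_on_two {a b q : Fin 3 → ℂ} (h : LinearIndependent ℂ ![a, b])
    (ha : a ⬝ᵥ q = 0) (hb : b ⬝ᵥ q = 0) : ∃ t : ℂ, q = t • crossProduct a b := by
  by_contra hc
  have h0 : crossProduct a b ≠ 0 := crossProduct_ne_zero_iff_linearIndependent.2 h
  have hi : LinearIndependent ℂ ![crossProduct a b, q] :=
    (LinearIndependent.pair_iff' h0).2 fun t ht => hc ⟨t, ht.symm⟩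
  apply crossProduct_ne_zero_iff_linearIndependent.2 hi
  rw [cross_cross_eq_smul_sub_smul, ha, hb]
  simp

private theorem r4_SS_smul {q : Fin 3 → ℂ} {t : ℂ} (ht : t ≠ 0) : SS L (t • q) = SS L q := by
  ext i
  rw [r4_mem, r4_mem, dotProduct_smul, smul_eq_zero]
  exact ⟨fun h => h.resolve_left ht, Or.inr⟩

/-- the lines through a point on the lines `i`, `j` are those through the cross product -/
private theorem r4_SS_cross (hC : Config L) {i j : Fin k} (hij : i ≠ j) {q : Fin 3 → ℂ}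
    (hq : q ≠ 0) (hi : L i ⬝ᵥ q = 0) (hj : L j ⬝ᵥ q = 0) :
    SS L (crossProduct (L i) (L j)) = SS L q := by
  obtain ⟨t, ht⟩ := r4_on_two (hC.ind i j hij) hi hj
  have ht0 : t ≠ 0 := by
    rintro rfl
    exact hq (by rw [ht, zero_smul])
  rw [ht, r4_SS_smul ht0]

private theorem r4_line_ne (hC : Config L) {i j : Fin k} (hij : i ≠ j) : L i ≠ 0 :=
  (hC.ind i j hij).ne_zero 0

private theorem r4_mult_of_SS {q q' : Fin 3 → ℂ} (h : SS L q = SS L q') (hm : Multiple L q) :
    Multiple L q' := by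
  obtain ⟨a, b, c, hab, hac, hbc, h1, h2, h3⟩ := hm
  refine ⟨a, b, c, hab, hac, hbc, ?_, ?_, ?_⟩
  · rw [← r4_mem, ← h, r4_mem]; exact h1
  · rw [← r4_mem, ← h, r4_mem]; exact h2
  · rw [← r4_mem, ← h, r4_mem]; exact h3

private theorem r4_other {q : Fin 3 → ℂ} (hm : Multiple L q) (i : Fin k) :
    ∃ j, j ≠ i ∧ L j ⬝ᵥ q = 0 := by
  obtain ⟨a, b, c, hab, hac, hbc, h1, h2, h3⟩ := hm
  by_cases ha : a = i
  · exact ⟨b, fun hb => hab (ha.trans hb.symm), h2⟩
  · exact ⟨a, ha, h1⟩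

private theorem r4_count (hk : 6 ≤ k) (hC : Config L) (hR : AffRigid L) {n : ℕ} {a : Fin k → ℕ}
    {α : Fin k → ℚ} (h : AlphaOK n a α) (i : Fin k) (hi : α i = 1)
    (h1 : ∀ q, q ≠ 0 → Multiple L q → L i ⬝ᵥ q = 0 →
      ¬ (mM α (SS L q) : ℚ) < ∑ l ∈ SS L q, bet α l)
    (h2 : ∀ q, q ≠ 0 → Multiple L q → L i ⬝ᵥ q = 0 → ¬ InX n a α (Comp.pt (SS L q)))
    (h3 : ∀ j, j ≠ i → ¬ Multiple L (crossProduct (L i) (L j)) → ¬ 0 < bet α j)
    (h4 : ∀ j, j ≠ i → ¬ Multiple L (crossProduct (L i) (L j)) → α j ≠ 1) : False := by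
  classical
  obtain ⟨f1, f2, f3, f4, f5, f6⟩ := facts_of_alpha h
  have hai : a i < n := h.lt i
  have hn0 : 0 < n := lt_of_le_of_lt (Nat.zero_le _) hai
  have hcr : ∀ j, j ≠ i → crossProduct (L i) (L j) ≠ 0 := fun j hj =>
    crossProduct_ne_zero_iff_linearIndependent.2 (hC.ind i j (Ne.symm hj))
  have hci : ∀ j, L i ⬝ᵥ crossProduct (L i) (L j) = 0 := fun j => dot_self_cross _ _
  have hcj : ∀ j, L j ⬝ᵥ crossProduct (L i) (L j) = 0 := fun j => dot_cross_self _ _
  obtain ⟨T, hT⟩ : ∃ T : Fin k → Finset (Fin k), ∀ j, T j = SS L (crossProduct (L i) (L j)) :=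
    ⟨_, fun _ => rfl⟩
  obtain ⟨g, hg⟩ : ∃ g : Fin k → ℚ, ∀ j, g j = (a j : ℚ) - n * α j := ⟨_, fun _ => rfl⟩
  obtain ⟨E, hE⟩ : ∃ E : Finset (Fin k), E = Finset.univ.erase i := ⟨_, rfl⟩
  have hEm : ∀ j, j ∈ E ↔ j ≠ i := fun j => by
    rw [hE, Finset.mem_erase]
    exact ⟨fun h => h.1, fun h => ⟨h, Finset.mem_univ _⟩⟩
  have hTmem : ∀ j, i ∈ T j ∧ j ∈ T j := fun j => by
    rw [hT, r4_mem, r4_mem]; exact ⟨hci j, hcj j⟩
  -- the fibres of T
  have hfib : ∀ j0, j0 ≠ i → E.filter (fun j => T j = T j0) = (T j0).erase i := by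
    intro j0 hj0
    ext j
    rw [Finset.mem_filter, Finset.mem_erase, hEm]
    constructor
    · rintro ⟨hji, hTj⟩
      exact ⟨hji, by rw [← hTj]; exact (hTmem j).2⟩
    · rintro ⟨hji, hj⟩
      refine ⟨hji, ?_⟩
      rw [hT j0, r4_mem] at hj
      rw [hT, hT]
      exact r4_SS_cross hC (Ne.symm hji) (hcr j0 hj0) (hci j0) hj
  -- multiple points
  have hmul : ∀ j0, j0 ≠ i → Multiple L (crossProduct (L i) (L j0)) →
      (n : ℚ) - a i ≤ ∑ j ∈ (T j0).erase i, g j := by
    intro j0 hj0 hm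
    have e1 : ∑ j ∈ (T j0).erase i, g j = ∑ j ∈ T j0, g j - g i := by
      rw [← Finset.add_sum_erase _ _ (hTmem j0).1]
      ring
    have e2 : ∑ j ∈ T j0, bet α j = (mM α (T j0) : ℚ) := by
      refine le_antisymm (not_lt.1 ?_) (f4 _)
      rw [hT]
      exact h1 _ (hcr j0 hj0) hm (hci j0)
    have e3 : ¬ InX n a α (Comp.pt (T j0)) := by
      rw [hT]
      exact h2 _ (hcr j0 hj0) hm (hci j0)
    have e4 := r4_bet_sum α (T j0)
    have e5 : ∑ j ∈ T j0, α j =
        ((mM α (T j0) + (((T j0).filter (fun i => α i = 1)).card : ℤ) : ℤ) : ℚ) := by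
      push_cast
      rw [← e2, e4]
      ring
    have e6 := h.low (T j0)
    have e7 := lt_of_le_of_ne (h.high (T j0)) e3
    have e12' := Nat.mul_div_le (∑ j ∈ T j0, a j) n
    generalize (∑ i ∈ T j0, a i) / n = F at e6 e7 e12'
    generalize mM α (T j0) + (((T j0).filter (fun i => α i = 1)).card : ℤ) = z at e5
    rw [e5] at e6 e7
    have e8 : (F : ℤ) ≤ z := by exact_mod_cast e6
    have e9 : z < (F : ℤ) + 1 := by exact_mod_cast e7
    have e10 : ∑ j ∈ T j0, α j = (F : ℚ) := by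
      rw [e5, le_antisymm (Int.lt_add_one_iff.1 e9) e8]
      exact Int.cast_natCast F
    have e11 : ∑ j ∈ T j0, g j = ((∑ j ∈ T j0, a j : ℕ) : ℚ) - n * (F : ℚ) := by
      rw [← e10, Finset.mul_sum]
      push_cast
      rw [← Finset.sum_sub_distrib]
      exact Finset.sum_congr rfl fun j _ => hg j
    have e12 : (n : ℚ) * (F : ℚ) ≤ ((∑ j ∈ T j0, a j : ℕ) : ℚ) := by
      exact_mod_cast e12'
    rw [e1, e11, hg i, hi]
    linarith
  -- all classes
  have hnn : ∀ S ∈ E.image T, 0 ≤ ∑ j ∈ E.filter (fun j => T j = S), g j := by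
    intro S hS
    obtain ⟨j0, hj0, rfl⟩ := Finset.mem_image.1 hS
    have hj0i : j0 ≠ i := (hEm j0).1 hj0
    rw [hfib j0 hj0i]
    by_cases hm : Multiple L (crossProduct (L i) (L j0))
    · have := hmul j0 hj0i hm
      have h5 : (a i : ℚ) < n := by exact_mod_cast hai
      linarith
    · refine Finset.sum_nonneg fun j hj => ?_
      obtain ⟨hji, hj⟩ := Finset.mem_erase.1 hj
      rw [hT, r4_mem] at hj
      have hSS := r4_SS_cross hC (Ne.symm hji) (hcr j0 hj0i) (hci j0) hj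
      have hm' : ¬ Multiple L (crossProduct (L i) (L j)) := fun hmj =>
        hm (r4_mult_of_SS hSS hmj)
      have b1 := h4 j hji hm'
      have b2 : bet α j = 0 := le_antisymm (not_lt.1 (h3 j hji hm')) (f1 j)
      have b3 : α j = 0 := by
        unfold bet at b2
        rwa [if_neg b1] at b2
      rw [hg, b3, mul_zero, sub_zero]
      exact Nat.cast_nonneg _
  -- two multiple points
  obtain ⟨p, p', hp, hp', hip, hip', hind⟩ := c2 hk hC hR i
  have hp0 : p ≠ 0 := hind.ne_zero 0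
  have hp0' : p' ≠ 0 := hind.ne_zero 1
  obtain ⟨j1, hj1, hj1p⟩ := r4_other hp i
  obtain ⟨j2, hj2, hj2p⟩ := r4_other hp' i
  have hT1 : T j1 = SS L p := by
    rw [hT]; exact r4_SS_cross hC (Ne.symm hj1) hp0 hip hj1p
  have hT2 : T j2 = SS L p' := by
    rw [hT]; exact r4_SS_cross hC (Ne.symm hj2) hp0' hip' hj2p
  have hne : T j1 ≠ T j2 := by
    intro he
    have hj1p' : L j1 ⬝ᵥ p' = 0 := by
      rw [← r4_mem, ← hT2, ← he]
      exact (hTmem j1).2
    obtain ⟨t, ht⟩ := r4_on_two (hC.ind i j1 (Ne.symm hj1)) hip hj1p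
    obtain ⟨t', ht'⟩ := r4_on_two (hC.ind i j1 (Ne.symm hj1)) hip' hj1p'
    have ht0 : t ≠ 0 := by
      rintro rfl
      exact hp0 (by rw [ht, zero_smul])
    refine (LinearIndependent.pair_iff' hp0).1 hind (t' / t) ?_
    rw [ht, ht', smul_smul, div_mul_cancel₀ _ ht0]
  have hM1 : Multiple L (crossProduct (L i) (L j1)) :=
    r4_mult_of_SS (by rw [← hT j1, hT1]) hp
  have hM2 : Multiple L (crossProduct (L i) (L j2)) :=
    r4_mult_of_SS (by rw [← hT j2, hT2]) hp'
  have s1 : ∑ S ∈ E.image T, ∑ j ∈ E.filter (fun j => T j = S), g j = ∑ j ∈ E, g j :=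
    Finset.sum_fiberwise_of_maps_to (fun j hj => Finset.mem_image_of_mem T hj) g
  have hsub : ({T j1, T j2} : Finset (Finset (Fin k))) ⊆ E.image T := by
    intro S hS
    rw [Finset.mem_insert, Finset.mem_singleton] at hS
    rcases hS with rfl | rfl
    · exact Finset.mem_image_of_mem T ((hEm _).2 hj1)
    · exact Finset.mem_image_of_mem T ((hEm _).2 hj2)
  have s2 := Finset.sum_le_sum_of_subset_of_nonneg hsub (fun S hS _ => hnn S hS)
  rw [Finset.sum_pair hne, hfib j1 hj1, hfib j2 hj2, s1] at s2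
  have s3 : ∑ j ∈ E, g j = (n : ℚ) - a i := by
    have t1 : ∑ j ∈ E, g j = ∑ j, g j - g i := by
      rw [hE, ← Finset.add_sum_erase _ _ (Finset.mem_univ i)]
      ring
    have t2 : ∑ j, g j = 0 := by
      have t3 : ∑ j, g j = ((∑ j, a j : ℕ) : ℚ) - n * ∑ j, α j := by
        rw [Finset.mul_sum]
        push_cast
        rw [← Finset.sum_sub_distrib]
        exact Finset.sum_congr rfl fun j _ => hg j
      rw [t3, h.sum]
      have t4 : n * ((∑ j, a j) / n) = ∑ j, a j := Nat.mul_div_cancel' h.dvd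
      have t5 : (n : ℚ) * (((∑ j, a j) / n : ℕ) : ℚ) = ((∑ j, a j : ℕ) : ℚ) := by
        exact_mod_cast t4
      rw [t5, sub_self]
    rw [t1, t2, hg, hi]
    ring
  have u1 := hmul j1 hj1 hM1
  have u2 := hmul j2 hj2 hM2
  have u3 : (a i : ℚ) < n := by exact_mod_cast hai
  linarith

theorem normal (hk : 6 ≤ k) (hC : Config L) (hR : AffRigid L) {n : ℕ} {a : Fin k → ℕ}
    {α : Fin k → ℚ} (h : AlphaOK n a α) (c : Comp k) (hX : InX n a α c) (hB : ¬ InB n a c)
    (G : Pt → Derivation ℂ Fn Fn) (hT : ∀ y, TCond L (dM n a α) (mM α) y (G y))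
    (hLC : ∀ i j, i ≠ j → ∀ c' ∈ XX n a α i j,
      LC L (VO L (dM n a α) (mM α) {c'}) (fun y => cij L (G y) i j)) :
    ∀ i j, i ≠ j → ∀ y, VO L (dM n a α) (mM α) {c} y (cij L (G y) i j) := by
  classical
  obtain ⟨f1, f2, f3, f4, f5, f6⟩ := facts_of_alpha h
  have hall : ∀ c' : Comp k, c' ∈ allC k := by
    intro c'
    unfold allC
    cases c' with
    | line i => exact Finset.mem_union_left _ (Finset.mem_image_of_mem _ (Finset.mem_univ _))
    | pt S => exact Finset.mem_union_right _ (Finset.mem_image_of_mem _ (Finset.mem_univ _))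
  have hlt : ∀ c', InX n a α c' → ∀ i, c' = Comp.line i → bet α i = 0 := by
    rintro c' hX' i rfl
    exact f5 i hX'
  have hpt : ∀ c', InX n a α c' → ∀ S, c' = Comp.pt S → (mM α S : ℚ) = ∑ i ∈ S, bet α i := by
    rintro c' hX' S rfl
    exact f6 S hX'
  have TG : ∀ c', InX n a α c' → ∀ i j, i ≠ j → Tang i j c' →
      ∀ y, VO L (dM n a α) (mM α) {c'} y (cij L (G y) i j) := by
    intro c' hX' i j hij ht
    refine tangential hk hC hR (bet α) f1 (dM n a α) f3 (mM α) f4 c' (hlt c' hX') (hpt c' hX') G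
      hT ht (hLC i j hij c' ?_)
    unfold XX
    exact Finset.mem_filter.2 ⟨hall c', hX', fun _ => ht⟩
  have RS : ∀ i j, i ≠ j → ∀ y0, OnC L y0 c →
      (SectV L (dM n a α) (mM α) y0 (cij L (G y0) i j) ∨ ∃ c', c' ≠ c ∧ OnC L y0 c' ∧
        (∀ i, c' = Comp.line i → 0 < bet α i) ∧
        (∀ S, c' = Comp.pt S → (mM α S : ℚ) < ∑ i ∈ S, bet α i)) →
      ∀ y, VO L (dM n a α) (mM α) {c} y (cij L (G y) i j) := by
    intro i j hij y0 hy0 hv
    refine restrict hk hC hR (bet α) f1 (dM n a α) f3 (mM α) f4 c (hlt c hX) (hpt c hX)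
      (fun y => cij L (G y) i j) (fun y => hT y i j hij) (hLC i j hij c ?_) y0 hy0 hv
    unfold XX
    exact Finset.mem_filter.2 ⟨hall c, hX, fun hb => absurd hb hB⟩
  have hneg : ∀ y i j, VO L (dM n a α) (mM α) {c} y (cij L (G y) i j) →
      VO L (dM n a α) (mM α) {c} y (cij L (G y) j i) := by
    intro y i j hv
    have e : cij L (G y) j i = -cij L (G y) i j := by
      have e1 := cij_trans hC (G y) i j i
      rw [cij_self hC] at e1
      linear_combination e1
    rw [e]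
    exact vo_neg hv
  have hzero : ∀ y i j l, VO L (dM n a α) (mM α) {c} y (cij L (G y) i j) →
      VO L (dM n a α) (mM α) {c} y (cij L (G y) l l) := by
    intro y i j l hv
    rw [cij_self hC]
    have := vo_add hv (vo_neg hv)
    rwa [add_neg_cancel] at this
  have hadd : ∀ y i j l, VO L (dM n a α) (mM α) {c} y (cij L (G y) i j) →
      VO L (dM n a α) (mM α) {c} y (cij L (G y) j l) →
      VO L (dM n a α) (mM α) {c} y (cij L (G y) i l) := by
    intro y i j l h1 h2
    rw [← cij_trans hC (G y) i j l]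
    exact vo_add h1 h2
  cases c with
  | line i0 =>
    have hi0 : α i0 = 1 := hX
    obtain ⟨b0, hb0, hV⟩ : ∃ b0, b0 ≠ i0 ∧
        ∀ y, VO L (dM n a α) (mM α) {Comp.line i0} y (cij L (G y) i0 b0) := by
      obtain ⟨z0, hz0⟩ : ∃ z0 : Fin k, z0 ≠ i0 := by
        haveI : Nontrivial (Fin k) := Fin.nontrivial_iff_two_le.2 (by omega)
        exact exists_ne i0
      have hL0 : L i0 ≠ 0 := r4_line_ne hC (Ne.symm hz0)
      have hcr : ∀ j, j ≠ i0 → crossProduct (L i0) (L j) ≠ 0 := fun j hj =>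
        crossProduct_ne_zero_iff_linearIndependent.2 (hC.ind i0 j (Ne.symm hj))
      have hci : ∀ j, L i0 ⬝ᵥ crossProduct (L i0) (L j) = 0 := fun j => dot_self_cross _ _
      have hcj : ∀ j, L j ⬝ᵥ crossProduct (L i0) (L j) = 0 := fun j => dot_cross_self _ _
      by_cases hA : ∃ q, q ≠ 0 ∧ Multiple L q ∧ L i0 ⬝ᵥ q = 0 ∧
          (mM α (SS L q) : ℚ) < ∑ l ∈ SS L q, bet α l
      · obtain ⟨q, hq0, hqm, hqi, hlt'⟩ := hA
        obtain ⟨y0, hy0, hyw⟩ := r4_pt hL0 hq0 hqi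
        refine ⟨z0, hz0, RS i0 z0 (Ne.symm hz0) y0 ⟨by rw [hy0]; exact hqi, fun _ => hyw⟩
          (Or.inr ⟨Comp.pt (SS L q), r4_ne _ _,
            ⟨by rw [hy0]; exact hqm, by rw [hy0]⟩, fun i hc => absurd hc (r4_ne _ _), ?_⟩)⟩
        intro S hS
        rw [← Comp.pt.inj hS]
        exact hlt'
      by_cases hB' : ∃ j, j ≠ i0 ∧ ¬ Multiple L (crossProduct (L i0) (L j)) ∧ 0 < bet α j
      · obtain ⟨j, hji, hjm, hjb⟩ := hB'
        obtain ⟨y0, hy0, hyw⟩ := r4_pt hL0 (hcr j hji) (hci j)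
        refine ⟨z0, hz0, RS i0 z0 (Ne.symm hz0) y0 ⟨by rw [hy0]; exact hci j, fun _ => hyw⟩
          (Or.inr ⟨Comp.line j, fun hc => hji (Comp.line.inj hc),
            ⟨by rw [hy0]; exact hcj j, fun hm => absurd (by rw [hy0] at hm; exact hm) hjm⟩, ?_,
            fun S hc => absurd hc.symm (r4_ne _ _)⟩)⟩
        intro i hi
        rw [← Comp.line.inj hi]
        exact hjb
      by_cases hC' : ∃ q, q ≠ 0 ∧ Multiple L q ∧ L i0 ⬝ᵥ q = 0 ∧ InX n a α (Comp.pt (SS L q))
      · obtain ⟨q, hq0, hqm, hqi, hqX⟩ := hC'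
        obtain ⟨y0, hy0, hyw⟩ := r4_pt hL0 hq0 hqi
        obtain ⟨b, hbi, hbq⟩ := r4_other hqm i0
        have hv := TG _ hqX i0 b (Ne.symm hbi) ⟨r4_mem.2 hqi, r4_mem.2 hbq⟩ y0
        exact ⟨b, hbi, RS i0 b (Ne.symm hbi) y0 ⟨by rw [hy0]; exact hqi, fun _ => hyw⟩
          (Or.inl (sectV_of_vo hC (show OnC L y0 (Comp.pt (SS L q)) from
            ⟨by rw [hy0]; exact hqm, by rw [hy0]⟩) hv))⟩
      by_cases hD' : ∃ j, j ≠ i0 ∧ ¬ Multiple L (crossProduct (L i0) (L j)) ∧ α j = 1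
      · obtain ⟨j, hji, hjm, hjb⟩ := hD'
        obtain ⟨y0, hy0, hyw⟩ := r4_pt hL0 (hcr j hji) (hci j)
        obtain ⟨b, hb⟩ : ∃ b, b ∉ ({i0, j} : Finset (Fin k)) := by
          by_contra hcon
          push Not at hcon
          have h1 : (Finset.univ : Finset (Fin k)) ⊆ {i0, j} := fun x _ => hcon x
          have h2 := Finset.card_le_card h1
          have h3 := Finset.card_le_two (a := i0) (b := j)
          rw [Finset.card_univ, Fintype.card_fin] at h2
          omega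
        rw [Finset.mem_insert, Finset.mem_singleton, not_or] at hb
        have hv := TG (Comp.line j) hjb i0 b (Ne.symm hb.1) ⟨Ne.symm hji, hb.2⟩ y0
        exact ⟨b, hb.1, RS i0 b (Ne.symm hb.1) y0 ⟨by rw [hy0]; exact hci j, fun _ => hyw⟩
          (Or.inl (sectV_of_vo hC (show OnC L y0 (Comp.line j) from
            ⟨by rw [hy0]; exact hcj j, fun hm => absurd (by rw [hy0] at hm; exact hm) hjm⟩) hv))⟩
      exfalso
      refine r4_count hk hC hR h i0 hi0 ?_ ?_ ?_ ?_
      · intro q h1 h2 h3 h4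
        exact hA ⟨q, h1, h2, h3, h4⟩
      · intro q h1 h2 h3 h4
        exact hC' ⟨q, h1, h2, h3, h4⟩
      · intro j h1 h2 h3
        exact hB' ⟨j, h1, h2, h3⟩
      · intro j h1 h2 h3
        exact hD' ⟨j, h1, h2, h3⟩
    have hb : ∀ b, b ≠ i0 → ∀ y, VO L (dM n a α) (mM α) {Comp.line i0} y (cij L (G y) i0 b) := by
      intro b hb y
      refine hadd y i0 b0 b (hV y) ?_
      by_cases hbb : b0 = b
      · rw [hbb]
        exact hzero y i0 b0 b (hV y)
      · exact TG _ hX b0 b hbb ⟨hb0, hb⟩ y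
    intro i j hij y
    by_cases hi : i = i0
    · subst hi
      exact hb j (Ne.symm hij) y
    · by_cases hj : j = i0
      · subst hj
        exact hneg y j i (hb i hi y)
      · exact TG _ hX i j hij ⟨hi, hj⟩ y
  | pt S =>
    by_cases hex : ∃ q0, q0 ≠ 0 ∧ Multiple L q0 ∧ SS L q0 = S
    · obtain ⟨q0, hq0, hqm, hqS⟩ := hex
      have hmem : ∀ i, i ∈ S ↔ L i ⬝ᵥ q0 = 0 := fun i => by rw [← hqS]; exact r4_mem
      obtain ⟨l0, hl0⟩ : ∃ l0, l0 ∉ S := by
        by_contra hcon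
        push Not at hcon
        exact hq0 (hC.nonconc q0 fun i => (hmem i).1 (hcon i))
      obtain ⟨a0, ha0, hV⟩ : ∃ a0, a0 ∈ S ∧
          ∀ y, VO L (dM n a α) (mM α) {Comp.pt S} y (cij L (G y) a0 l0) := by
        by_cases hA : ∃ i, i ∈ S ∧ 0 < bet α i
        · obtain ⟨i, hi, hbi⟩ := hA
          have hil : i ≠ l0 := fun hc => hl0 (hc ▸ hi)
          obtain ⟨y0, hy0, hyw⟩ := r4_pt (r4_line_ne hC hil) hq0 ((hmem i).1 hi)
          refine ⟨i, hi, RS i l0 hil y0 ⟨by rw [hy0]; exact hqm, by rw [hy0]; exact hqS⟩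
            (Or.inr ⟨Comp.line i, fun hc => absurd hc.symm (r4_ne _ _),
              ⟨by rw [hy0]; exact (hmem i).1 hi, fun _ => hyw⟩, ?_,
              fun S hc => absurd hc.symm (r4_ne _ _)⟩)⟩
          intro i' hi'
          rw [← Comp.line.inj hi']
          exact hbi
        by_cases hB' : ∃ i, i ∈ S ∧ α i = 1
        · obtain ⟨i, hi, hai⟩ := hB'
          have hil : i ≠ l0 := fun hc => hl0 (hc ▸ hi)
          obtain ⟨y0, hy0, hyw⟩ := r4_pt (r4_line_ne hC hil) hq0 ((hmem i).1 hi)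
          obtain ⟨b, hbi, hbq⟩ := r4_other hqm i
          have hbS : b ∈ S := (hmem b).2 hbq
          have hbl : b ≠ l0 := fun hc => hl0 (hc ▸ hbS)
          have hv := TG (Comp.line i) hai b l0 hbl ⟨hbi, Ne.symm hil⟩ y0
          exact ⟨b, hbS, RS b l0 hbl y0 ⟨by rw [hy0]; exact hqm, by rw [hy0]; exact hqS⟩
            (Or.inl (sectV_of_vo hC (show OnC L y0 (Comp.line i) from
              ⟨by rw [hy0]; exact (hmem i).1 hi, fun _ => hyw⟩) hv))⟩
        exfalso
        have h0 : ∑ i ∈ S, α i = 0 := by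
          refine Finset.sum_eq_zero fun i hi => ?_
          have b1 : α i ≠ 1 := fun hc => hB' ⟨i, hi, hc⟩
          have b2 : bet α i = 0 := le_antisymm (not_lt.1 fun hc => hA ⟨i, hi, hc⟩) (f1 i)
          unfold bet at b2
          rwa [if_neg b1] at b2
        have h1 : ∑ i ∈ S, α i = (((∑ i ∈ S, a i) / n : ℕ) : ℚ) + 1 := hX
        rw [h0] at h1
        have h2 : (0 : ℚ) ≤ (((∑ i ∈ S, a i) / n : ℕ) : ℚ) := Nat.cast_nonneg _
        linarith
      have hA : ∀ i, i ∈ S → ∀ y, VO L (dM n a α) (mM α) {Comp.pt S} y (cij L (G y) i l0) := by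
        intro i hi y
        refine hadd y i a0 l0 ?_ (hV y)
        by_cases hia : i = a0
        · rw [hia]
          exact hzero y a0 l0 a0 (hV y)
        · exact TG _ hX i a0 hia ⟨hi, ha0⟩ y
      have hAB : ∀ i j, i ∈ S → j ∉ S →
          ∀ y, VO L (dM n a α) (mM α) {Comp.pt S} y (cij L (G y) i j) := by
        intro i j hi hj y
        exact hadd y i l0 j (hA i hi y) (off_point hC (hT y) hl0 hj)
      intro i j hij y
      by_cases hi : i ∈ S
      · by_cases hj : j ∈ S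
        · exact TG _ hX i j hij ⟨hi, hj⟩ y
        · exact hAB i j hi hj y
      · by_cases hj : j ∈ S
        · exact hneg y j i (hAB j i hj hi y)
        · exact off_point hC (hT y) hi hj
    · intro i j hij y
      refine (vo_off hC ?_).2 (hT y i j hij)
      intro ho
      exact hex ⟨y.q, r4_pt_ne y, ho.1, ho.2⟩

end HKR
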