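import Pool.Agent.Lib.HKR.FDefs
import Pool.Agent.Lib.HKR.B2
/-!
HKR.T1 (derivations of Fn).
cij: with dl D i := D (fl (L i)) / fl (L i): cij L D i j = dl i - dl j (Leibniz; fl (L i) ≠ 0).
fl is ℂ-linear in the coefficient vector (lin is), fl_add, fl_smul.
exists_der: for independent forms a, b, c and g1, g2 ∈ Fn there is D with D(a/c)/(a/c) = g1 and
  D(b/c)/(b/c) = g2.  Derivations of Fn = Frac ℂ[x,y]: for u, v ∈ Fn there is D with D x = u, D y = v (extend
  the derivation of MvPolynomial (`MvPolynomial.mkDerivation`) with values in Fn to the localization); the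
  Jacobian of (a/c, b/c) with respect to (x,y) is nonzero (it is det(a,b,c)/c^3 up to sign), solve the
  linear system.  (Or: a/c, b/c generate Fn: Coord; extend from the polynomial ring in a/c, b/c.)
rel3/rel4: if a L i + b L j + c L l + e L s = 0 then
  a ℓi c_is + b ℓj c_js + c ℓl c_ls = 0   (D applied to the relation minus the relation times dl s).
-/

open MvPolynomial
namespace HKR
variable {k : ℕ} {L : Fin k → Fin 3 → ℂ}

theorem fl_add (a b : Fin 3 → ℂ) : fl (a + b) = fl a + fl b := by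
  unfold fl lin
  rw [← map_add, ← Finset.sum_add_distrib]
  congr 1
  refine Finset.sum_congr rfl fun j _ => ?_
  rw [Pi.add_apply, C_add]
  ring

theorem fl_smul (c : ℂ) (a : Fin 3 → ℂ) : fl (c • a) = algebraMap ℂ Fn c * fl a := by
  have h1 : lin (c • a) = C c * lin a := by
    unfold lin
    rw [Finset.mul_sum]
    refine Finset.sum_congr rfl fun j _ => ?_
    rw [Pi.smul_apply, smul_eq_mul, C_mul]
    ring
  unfold fl
  rw [h1, map_mul, algHom_C]

private theorem t1_fl_neg (a : Fin 3 → ℂ) : fl (-a) = -fl a := by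
  have h := fl_smul (-1) a
  rwa [neg_one_smul, map_neg, map_one, neg_one_mul] at h

theorem fl_inj {a b : Fin 3 → ℂ} (h : fl a = fl b) : a = b := by
  by_contra h1
  have h2 : a + -b ≠ 0 := by
    intro h3
    exact h1 (by rwa [← sub_eq_add_neg, sub_eq_zero] at h3)
  refine fl_ne_zero h2 ?_
  rw [fl_add, t1_fl_neg, h, add_neg_cancel]

theorem cij_sub (D D' : Derivation ℂ Fn Fn) (i j : Fin k) :
    cij L (D - D') i j = cij L D i j - cij L D' i j := by
  unfold cij
  rw [Derivation.sub_apply, sub_div]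

theorem cij_smul (g : Fn) (D : Derivation ℂ Fn Fn) (i j : Fin k) :
    cij L (g • D) i j = g * cij L D i j := by
  unfold cij
  rw [Derivation.smul_apply, smul_eq_mul, mul_div_assoc]

private theorem t1_self (D : Derivation ℂ Fn Fn) (i : Fin k) : cij L D i i = 0 := by
  unfold cij
  by_cases h : fl (L i) = 0
  · rw [h, div_zero, div_zero]
  · rw [div_self h, Derivation.map_one_eq_zero, zero_div]

theorem cij_self (hC : Config L) (D : Derivation ℂ Fn Fn) (i : Fin k) : cij L D i i = 0 :=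
  t1_self D i

private theorem t1_trans (D : Derivation ℂ Fn Fn) {i j l : Fin k} (hi : fl (L i) ≠ 0)
    (hj : fl (L j) ≠ 0) (hl : fl (L l) ≠ 0) :
    cij L D i j + cij L D j l = cij L D i l := by
  unfold cij
  have h1 : fl (L i) / fl (L l) = (fl (L i) / fl (L j)) * (fl (L j) / fl (L l)) := by
    field_simp
  rw [h1, Derivation.leibniz, smul_eq_mul, smul_eq_mul]
  have h2 : fl (L i) / fl (L j) ≠ 0 := div_ne_zero hi hj
  have h3 : fl (L j) / fl (L l) ≠ 0 := div_ne_zero hj hl
  field_simp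
  ring

theorem cij_trans (hC : Config L) (D : Derivation ℂ Fn Fn) (i j l : Fin k) :
    cij L D i j + cij L D j l = cij L D i l := by
  by_cases hij : i = j
  · subst hij
    rw [t1_self, zero_add]
  by_cases hjl : j = l
  · subst hjl
    rw [t1_self, add_zero]
  exact t1_trans D (fl_ne_zero ((hC.ind i j hij).ne_zero 0))
    (fl_ne_zero ((hC.ind i j hij).ne_zero 1)) (fl_ne_zero ((hC.ind j l hjl).ne_zero 1))

/-- a derivation of `Fn` with prescribed values on `x`, `y` -/
private theorem t1_der (w : Fin 2 → Fn) : ∃ D : Derivation ℂ Fn Fn,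
    ∀ i, D (algebraMap (MvPolynomial (Fin 2) ℂ) Fn (X i)) = w i := by
  set φ : MvPolynomial (Fin 2) ℂ →ₐ[ℂ] TrivSqZeroExt Fn Fn :=
    MvPolynomial.aeval (fun i => TrivSqZeroExt.inl (algebraMap (MvPolynomial (Fin 2) ℂ) Fn (X i)) +
      TrivSqZeroExt.inr (w i)) with hφ
  have hfst : ∀ p, (φ p).fst = algebraMap (MvPolynomial (Fin 2) ℂ) Fn p := by
    have h1 : (TrivSqZeroExt.fstHom ℂ Fn Fn).comp φ =
        IsScalarTower.toAlgHom ℂ (MvPolynomial (Fin 2) ℂ) Fn := by
      refine MvPolynomial.algHom_ext fun i => ?_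
      simp [hφ]
    intro p
    exact DFunLike.congr_fun h1 p
  have hunit : ∀ q : nonZeroDivisors (MvPolynomial (Fin 2) ℂ), IsUnit (φ q) := by
    intro q
    rw [TrivSqZeroExt.isUnit_iff_isUnit_fst, hfst]
    exact IsLocalization.map_units Fn q
  set ψ : Fn →ₐ[ℂ] TrivSqZeroExt Fn Fn :=
    IsLocalization.liftAlgHom (M := nonZeroDivisors (MvPolynomial (Fin 2) ℂ)) (f := φ) hunit with hψ
  have hψ1 : ∀ p, ψ (algebraMap (MvPolynomial (Fin 2) ℂ) Fn p) = φ p := by
    intro p
    rw [hψ, IsLocalization.coe_liftAlgHom]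
    exact IsLocalization.lift_eq _ _
  have hψ2 : ∀ f, (ψ f).fst = f := by
    intro f
    obtain ⟨p, q, hq, rfl⟩ := IsFractionRing.div_surjective (A := MvPolynomial (Fin 2) ℂ) f
    have hq1 : algebraMap (MvPolynomial (Fin 2) ℂ) Fn q ≠ 0 := by
      rw [Ne, FaithfulSMul.algebraMap_eq_zero_iff]
      exact nonZeroDivisors.ne_zero hq
    have h2 : ψ (algebraMap (MvPolynomial (Fin 2) ℂ) Fn p / algebraMap (MvPolynomial (Fin 2) ℂ) Fn q) *
        ψ (algebraMap (MvPolynomial (Fin 2) ℂ) Fn q) =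
        ψ (algebraMap (MvPolynomial (Fin 2) ℂ) Fn p) := by
      rw [← map_mul, div_mul_cancel₀ _ hq1]
    have h3 := congrArg TrivSqZeroExt.fst h2
    rw [TrivSqZeroExt.fst_mul, hψ1, hψ1, hfst, hfst] at h3
    rw [eq_div_iff hq1, h3]
  refine ⟨Derivation.mk' ((TrivSqZeroExt.sndHom Fn Fn).restrictScalars ℂ ∘ₗ ψ.toLinearMap) ?_, ?_⟩
  · intro a b
    change (ψ (a * b)).snd = a • (ψ b).snd + b • (ψ a).snd
    rw [map_mul, TrivSqZeroExt.snd_mul, hψ2, hψ2, op_smul_eq_smul]
  · intro i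
    change (ψ (algebraMap (MvPolynomial (Fin 2) ℂ) Fn (X i))).snd = w i
    rw [hψ1]
    simp [hφ]

/-- a derivation of `Fn` with prescribed values on a pair of coordinates -/
private theorem t1_coord {s t : Fn} (h : Coord s t) (u v : Fn) : ∃ D : Derivation ℂ Fn Fn,
    D s = u ∧ D t = v := by
  have hinj : Function.Injective (psi s t) := by
    rw [injective_iff_map_eq_zero]
    exact h.inj
  set σ : Fn →ₐ[ℂ] Fn := IsFractionRing.liftAlgHom (g := psi s t) hinj with hσ
  have hσ1 : ∀ p, σ (algebraMap (MvPolynomial (Fin 2) ℂ) Fn p) = psi s t p := by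
    intro p
    rw [hσ]
    exact IsFractionRing.lift_algebraMap hinj p
  have hsurj : Function.Surjective σ := by
    intro f
    obtain ⟨P, Q, hQ, hf⟩ := h.gen f
    have hQ1 : psi s t Q ≠ 0 := fun h0 => hQ (h.inj Q h0)
    refine ⟨algebraMap (MvPolynomial (Fin 2) ℂ) Fn P / algebraMap (MvPolynomial (Fin 2) ℂ) Fn Q, ?_⟩
    rw [map_div₀, hσ1, hσ1, ← hf, mul_div_cancel_right₀ _ hQ1]
  set σ' : Fn ≃ₐ[ℂ] Fn := AlgEquiv.ofBijective σ ⟨σ.injective, hsurj⟩ with hσ'
  have hσ'1 : ∀ f, σ' f = σ f := fun f => rfl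
  obtain ⟨D, hD⟩ := t1_der ![σ'.symm u, σ'.symm v]
  refine ⟨Derivation.mk' (σ'.toLinearMap ∘ₗ D.toLinearMap ∘ₗ σ'.symm.toLinearMap) ?_, ?_, ?_⟩
  · intro a b
    change σ' (D (σ'.symm (a * b))) = a • σ' (D (σ'.symm b)) + b • σ' (D (σ'.symm a))
    rw [map_mul, D.leibniz, smul_eq_mul, smul_eq_mul, map_add, map_mul, map_mul,
      σ'.apply_symm_apply, σ'.apply_symm_apply, smul_eq_mul, smul_eq_mul]
  · have h1 : σ'.symm s = algebraMap (MvPolynomial (Fin 2) ℂ) Fn (X 0) := by
      rw [AlgEquiv.symm_apply_eq, hσ'1, hσ1]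
      simp [psi]
    change σ' (D (σ'.symm s)) = u
    rw [h1, hD]
    simp
  · have h1 : σ'.symm t = algebraMap (MvPolynomial (Fin 2) ℂ) Fn (X 1) := by
      rw [AlgEquiv.symm_apply_eq, hσ'1, hσ1]
      simp [psi]
    change σ' (D (σ'.symm t)) = v
    rw [h1, hD]
    simp

theorem exists_der (hC : Config L) {i j l : Fin k} (h : det3 (L i) (L j) (L l) ≠ 0) (g1 g2 : Fn) :
    ∃ D : Derivation ℂ Fn Fn, cij L D i l = g1 ∧ cij L D j l = g2 := by
  have hli : LinearIndependent ℂ ![L i, L j, L l] := by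
    have h1 : IsUnit (Matrix.of ![L i, L j, L l]) := by
      rw [Matrix.isUnit_iff_isUnit_det]
      exact isUnit_iff_ne_zero.2 h
    rw [← Matrix.linearIndependent_rows_iff_isUnit] at h1
    exact h1
  have hi := fl_ne_zero (hli.ne_zero 0)
  have hj := fl_ne_zero (hli.ne_zero 1)
  have hl := fl_ne_zero (hli.ne_zero 2)
  simp only [Matrix.cons_val_zero, Matrix.cons_val_one, Matrix.cons_val] at hi hj hl
  obtain ⟨D, hD1, hD2⟩ := t1_coord (coordP hli) (g1 * (fl (L i) / fl (L l)))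
    (g2 * (fl (L j) / fl (L l)))
  refine ⟨D, ?_, ?_⟩
  · unfold cij
    rw [hD1, mul_div_cancel_right₀ _ (div_ne_zero hi hl)]
  · unfold cij
    rw [hD2, mul_div_cancel_right₀ _ (div_ne_zero hj hl)]

private theorem t1_fl_zero : fl 0 = 0 := by
  have h := fl_smul 0 0
  rwa [zero_smul, map_zero, zero_mul] at h

theorem cij_rel (hC : Config L) (D : Derivation ℂ Fn Fn) {i j l s : Fin k} {a b c e : ℂ}
    (h : a • L i + b • L j + c • L l + e • L s = 0) :
    algebraMap ℂ Fn a * fl (L i) * cij L D i s + algebraMap ℂ Fn b * fl (L j) * cij L D j s +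
      algebraMap ℂ Fn c * fl (L l) * cij L D l s = 0 := by
  by_cases hs : fl (L s) = 0
  · unfold cij
    rw [hs]
    simp
  have h1 := congrArg fl h
  rw [fl_add, fl_add, fl_add, fl_smul, fl_smul, fl_smul, fl_smul, t1_fl_zero] at h1
  have h2 : ∀ m : Fin k, fl (L m) * cij L D m s = fl (L s) * D (fl (L m) / fl (L s)) := by
    intro m
    unfold cij
    by_cases hm : fl (L m) = 0
    · rw [hm]
      simp
    · field_simp
  have h3 : D (algebraMap ℂ Fn a * (fl (L i) / fl (L s)) + algebraMap ℂ Fn b * (fl (L j) / fl (L s)) +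
      algebraMap ℂ Fn c * (fl (L l) / fl (L s)) + algebraMap ℂ Fn e) = 0 := by
    have h4 : algebraMap ℂ Fn a * (fl (L i) / fl (L s)) + algebraMap ℂ Fn b * (fl (L j) / fl (L s)) +
      algebraMap ℂ Fn c * (fl (L l) / fl (L s)) + algebraMap ℂ Fn e =
      (algebraMap ℂ Fn a * fl (L i) + algebraMap ℂ Fn b * fl (L j) + algebraMap ℂ Fn c * fl (L l) +
      algebraMap ℂ Fn e * fl (L s)) / fl (L s) := by
      field_simp
    rw [h4, h1, zero_div, map_zero]
  simp only [map_add, Derivation.leibniz, Derivation.map_algebraMap, smul_eq_mul, mul_zero,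
    add_zero] at h3
  rw [mul_assoc, mul_assoc, mul_assoc, h2, h2, h2]
  linear_combination fl (L s) * h3

end HKR
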