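import Pool.Agent.Lib.HKR.RDefs
import Pool.Agent.Lib.HKR.T1
/-!
HKR.R5 (bookkeeping).  FCond L n a y D ↔ for all i ≠ j: VO dM mM (XX i j) y (cij (Λ • D) i j), Λ = Lam L α.
PROOF.  The two Sect statements are the same:
 degree: dM + #{lines of XX i j} = dM + #{l : α l = 1} - bl i - bl j = (Σ a)/n - bl i - bl j  (a l + 1 = n implies α l = 1;
   line l is removed from X iff a l + 1 = n and l ∈ {i,j}; #{α l = 1} ≤ Σ α = (Σ a)/n);
 multiplicity at S: mM S + #{l ∈ S : α l = 1} - [i ∈ S] bl i - [j ∈ S] bl j - [pt S ∈ XX i j], and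
   mM S = floor(Σ_S α) - #{l ∈ S : α l = 1}, floor(Σ_S α) = F_S + [pt S ∈ X], [pt S ∈ X] - [pt S ∈ XX i j] =
   (if i ∈ S ∧ j ∈ S then 0 else bS n a S);
 function: cij (Λ • D) = Λ cij D, and Λ / ∏_{c ∈ XX i j} lc c = fl(L i)^(bl i) fl(L j)^(bl j).
-/
open MvPolynomial
namespace HKR
variable {k : ℕ} {L : Fin k → Fin 3 → ℂ}

open Classical in
private theorem R5_prod_XX {M : Type*} [CommMonoid M] (n : ℕ) (a : Fin k → ℕ) (α : Fin k → ℚ)
    (i j : Fin k) (φ : Comp k → M) :
    ∏ c ∈ XX n a α i j, φ c =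
      (∏ l ∈ Finset.univ.filter (fun l => α l = 1 ∧ (a l + 1 = n → i ≠ l ∧ j ≠ l)),
        φ (Comp.line l)) *
      ∏ S ∈ Finset.univ.filter (fun S : Finset (Fin k) => InX n a α (Comp.pt S) ∧
        (InB n a (Comp.pt S) → (i ∈ S ∧ j ∈ S))), φ (Comp.pt S) := by
  have h1 : XX n a α i j =
      (Finset.univ.filter (fun l => α l = 1 ∧ (a l + 1 = n → i ≠ l ∧ j ≠ l))).image Comp.line ∪
      (Finset.univ.filter (fun S : Finset (Fin k) => InX n a α (Comp.pt S) ∧
        (InB n a (Comp.pt S) → (i ∈ S ∧ j ∈ S)))).image Comp.pt := by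
    ext c
    unfold XX allC
    rw [Finset.mem_filter, Finset.mem_union, Finset.mem_union, Finset.mem_image,
      Finset.mem_image, Finset.mem_image, Finset.mem_image]
    constructor
    · rintro ⟨h, h2, h3⟩
      rcases h with ⟨l, -, rfl⟩ | ⟨S, -, rfl⟩
      · exact Or.inl ⟨l, Finset.mem_filter.2 ⟨Finset.mem_univ _, h2, h3⟩, rfl⟩
      · exact Or.inr ⟨S, Finset.mem_filter.2 ⟨Finset.mem_univ _, h2, h3⟩, rfl⟩
    · rintro (⟨l, hl, rfl⟩ | ⟨S, hS, rfl⟩)
      · obtain ⟨-, h2, h3⟩ := Finset.mem_filter.1 hl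
        exact ⟨Or.inl ⟨l, Finset.mem_univ _, rfl⟩, h2, h3⟩
      · obtain ⟨-, h2, h3⟩ := Finset.mem_filter.1 hS
        exact ⟨Or.inr ⟨S, Finset.mem_univ _, rfl⟩, h2, h3⟩
  rw [h1, Finset.prod_union, Finset.prod_image, Finset.prod_image]
  · intro S _ S' _ h
    exact Comp.pt.inj h
  · intro S _ S' _ h
    exact Comp.line.inj h
  · rw [Finset.disjoint_left]
    intro c h2 h3
    obtain ⟨l, -, rfl⟩ := Finset.mem_image.1 h2
    obtain ⟨S, -, h4⟩ := Finset.mem_image.1 h3
    cases h4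

open Classical in
private theorem R5_sum_XX {M : Type*} [AddCommMonoid M] (n : ℕ) (a : Fin k → ℕ) (α : Fin k → ℚ)
    (i j : Fin k) (φ : Comp k → M) :
    ∑ c ∈ XX n a α i j, φ c =
      (∑ l ∈ Finset.univ.filter (fun l => α l = 1 ∧ (a l + 1 = n → i ≠ l ∧ j ≠ l)),
        φ (Comp.line l)) +
      ∑ S ∈ Finset.univ.filter (fun S : Finset (Fin k) => InX n a α (Comp.pt S) ∧
        (InB n a (Comp.pt S) → (i ∈ S ∧ j ∈ S))), φ (Comp.pt S) := by
  have h := congrArg Multiplicative.toAdd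
    (R5_prod_XX (M := Multiplicative M) n a α i j (fun c => Multiplicative.ofAdd (φ c)))
  simpa only [toAdd_mul, toAdd_prod, toAdd_ofAdd] using h

open Classical in
private theorem R5_prod_W {M : Type*} [CommMonoid M] {n : ℕ} {a : Fin k → ℕ} {α : Fin k → ℚ}
    (h : AlphaOK n a α) {i j : Fin k} (hij : i ≠ j) (f : Fin k → M) :
    ∏ l ∈ Finset.univ.filter (fun l => α l = 1), f l =
      (∏ l ∈ Finset.univ.filter (fun l => α l = 1 ∧ (a l + 1 = n → i ≠ l ∧ j ≠ l)), f l) *
      ((if a i + 1 = n then f i else 1) * (if a j + 1 = n then f j else 1)) := by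
  have h1 : (Finset.univ.filter (fun l => α l = 1)) =
      (Finset.univ.filter (fun l => α l = 1 ∧ (a l + 1 = n → i ≠ l ∧ j ≠ l))) ∪
      ({i, j} : Finset (Fin k)).filter (fun l => a l + 1 = n) := by
    ext l
    rw [Finset.mem_union, Finset.mem_filter, Finset.mem_filter, Finset.mem_filter,
      Finset.mem_insert, Finset.mem_singleton]
    constructor
    · rintro ⟨-, h2⟩
      by_cases h3 : a l + 1 = n → i ≠ l ∧ j ≠ l
      · exact Or.inl ⟨Finset.mem_univ _, h2, h3⟩
      · right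
        push Not at h3
        obtain ⟨h4, h5⟩ := h3
        refine ⟨?_, h4⟩
        by_cases h6 : i = l
        · exact Or.inl h6.symm
        · exact Or.inr (h5 h6).symm
    · rintro (⟨-, h2, -⟩ | ⟨-, h2⟩)
      · exact ⟨Finset.mem_univ _, h2⟩
      · exact ⟨Finset.mem_univ _, h.line l h2⟩
  rw [h1, Finset.prod_union]
  · congr 1
    rw [Finset.prod_filter, Finset.prod_pair hij]
  · rw [Finset.disjoint_left]
    intro l h2 h3
    obtain ⟨-, -, h4⟩ := Finset.mem_filter.1 h2
    obtain ⟨h5, h6⟩ := Finset.mem_filter.1 h3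
    rw [Finset.mem_insert, Finset.mem_singleton] at h5
    obtain ⟨h7, h8⟩ := h4 h6
    rcases h5 with h5 | h5
    · exact h7 h5.symm
    · exact h8 h5.symm

open Classical in
private theorem R5_sum_W {M : Type*} [AddCommMonoid M] {n : ℕ} {a : Fin k → ℕ} {α : Fin k → ℚ}
    (h : AlphaOK n a α) {i j : Fin k} (hij : i ≠ j) (f : Fin k → M) :
    ∑ l ∈ Finset.univ.filter (fun l => α l = 1), f l =
      (∑ l ∈ Finset.univ.filter (fun l => α l = 1 ∧ (a l + 1 = n → i ≠ l ∧ j ≠ l)), f l) +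
      ((if a i + 1 = n then f i else 0) + (if a j + 1 = n then f j else 0)) := by
  have h' := congrArg Multiplicative.toAdd
    (R5_prod_W (M := Multiplicative M) h hij (fun c => Multiplicative.ofAdd (f c)))
  have e : ∀ (p : Prop) [Decidable p] (x : M),
      Multiplicative.toAdd (if p then Multiplicative.ofAdd x else 1) = if p then x else 0 := by
    intro p _ x
    split_ifs <;> simp
  simpa only [toAdd_mul, toAdd_prod, toAdd_ofAdd, e] using h'

open Classical in
private theorem R5_card {n : ℕ} {a : Fin k → ℕ} {α : Fin k → ℚ} (h : AlphaOK n a α) :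
    (Finset.univ.filter (fun l => α l = 1)).card ≤ (∑ l, a l) / n := by
  have h1 : ((Finset.univ.filter (fun l => α l = 1)).card : ℚ) ≤ ∑ l, α l := by
    calc ((Finset.univ.filter (fun l => α l = 1)).card : ℚ) =
        ∑ l ∈ Finset.univ.filter (fun l => α l = 1), (1 : ℚ) := by simp
      _ = ∑ l ∈ Finset.univ.filter (fun l => α l = 1), α l :=
        Finset.sum_congr rfl fun l hl => ((Finset.mem_filter.1 hl).2).symm
      _ ≤ ∑ l, α l := Finset.sum_le_sum_of_subset_of_nonneg (Finset.filter_subset _ _)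
        fun l _ _ => h.nonneg l
  rw [h.sum] at h1
  exact_mod_cast h1

open Classical in
private theorem R5_floor {n : ℕ} {a : Fin k → ℕ} {α : Fin k → ℚ} (h : AlphaOK n a α)
    (S : Finset (Fin k)) :
    mM α S = (((∑ l ∈ S, a l) / n : ℕ) : ℤ) +
      (if InX n a α (Comp.pt S) then 1 else 0) -
      ∑ l ∈ Finset.univ.filter (fun l => α l = 1), (if l ∈ S then (1 : ℤ) else 0) := by
  have h1 : ∑ l ∈ S, bet α l = ∑ l ∈ S, α l -
      ((∑ l ∈ Finset.univ.filter (fun l => α l = 1), (if l ∈ S then (1 : ℤ) else 0) : ℤ) : ℚ) := by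
    have h2 : ((∑ l ∈ Finset.univ.filter (fun l => α l = 1),
        (if l ∈ S then (1 : ℤ) else 0) : ℤ) : ℚ) = ∑ l ∈ S, (if α l = 1 then (1 : ℚ) else 0) := by
      push_cast
      rw [← Finset.sum_filter, ← Finset.sum_filter]
      congr 1
      ext l
      simp only [Finset.mem_filter, Finset.mem_univ, true_and]
      exact and_comm
    rw [h2, ← Finset.sum_sub_distrib]
    apply Finset.sum_congr rfl
    intro l _
    unfold bet
    split_ifs with h3
    · rw [h3, sub_self]
    · rw [sub_zero]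
  unfold mM
  rw [h1, Int.floor_sub_intCast]
  congr 1
  rw [Int.floor_eq_iff]
  have hlo := h.low S
  have hhi := h.high S
  by_cases h4 : InX n a α (Comp.pt S)
  · rw [if_pos h4]
    have h5 : ∑ l ∈ S, α l = (((∑ l ∈ S, a l) / n : ℕ) : ℚ) + 1 := h4
    generalize (∑ l ∈ S, a l) / n = N at h5 ⊢
    push_cast
    constructor
    · rw [h5]
    · rw [h5]; linarith
  · rw [if_neg h4]
    have h5 : ∑ l ∈ S, α l ≠ (((∑ l ∈ S, a l) / n : ℕ) : ℚ) + 1 := h4
    have h6 := lt_of_le_of_ne hhi h5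
    generalize (∑ l ∈ S, a l) / n = N at hlo h6 ⊢
    push_cast
    constructor
    · linarith
    · linarith

theorem fcond_iff_vo (hC : Config L) {n : ℕ} {a : Fin k → ℕ} {α : Fin k → ℚ} (h : AlphaOK n a α)
    (y : Pt) (D : Derivation ℂ Fn Fn) :
    FCond L n a y D ↔
      ∀ i j, i ≠ j → VO L (dM n a α) (mM α) (XX n a α i j) y (cij L (Lam L α • D) i j) := by
  classical
  unfold FCond VO
  refine forall_congr' fun i => forall_congr' fun j => forall_congr' fun hij => ?_
  have hfl : ∀ l, fl (L l) ≠ 0 := by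
    intro l
    by_cases hli : l = i
    · rw [hli]
      exact fl_ne_zero ((hC.ind i j hij).ne_zero 0)
    · exact fl_ne_zero ((hC.ind l i hli).ne_zero 0)
  have hd : (((∑ l, a l) / n : ℕ) : ℤ) - bl n a i - bl n a j =
      (dM n a α : ℤ) + ∑ c ∈ XX n a α i j, dc c := by
    have e1 := R5_sum_W h hij (fun _ => (1 : ℤ))
    rw [Finset.sum_const, nsmul_eq_mul, mul_one] at e1
    have e2 : ∑ c ∈ XX n a α i j, dc c = ∑ l ∈ Finset.univ.filter
        (fun l => α l = 1 ∧ (a l + 1 = n → i ≠ l ∧ j ≠ l)), (1 : ℤ) := by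
      rw [R5_sum_XX]
      simp only [dc, Finset.sum_const_zero, add_zero]
    have e3 := R5_card h
    unfold dM
    rw [e2, Nat.cast_sub e3, e1]
    unfold bl
    push_cast
    ring
  have hm : (fun S => (((∑ l ∈ S, a l) / n : ℕ) : ℤ) - (if i ∈ S then (bl n a i : ℤ) else 0)
        - (if j ∈ S then (bl n a j : ℤ) else 0)
        + (if i ∈ S ∧ j ∈ S then 0 else (bS n a S : ℤ))) =
      (fun S => mM α S + ∑ c ∈ XX n a α i j, mc c S) := by
    funext S
    rw [R5_floor h S, R5_sum_XX, R5_sum_W h hij (fun l => if l ∈ S then (1 : ℤ) else 0)]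
    have e1 : ∑ S' ∈ Finset.univ.filter (fun S : Finset (Fin k) => InX n a α (Comp.pt S) ∧
        (InB n a (Comp.pt S) → (i ∈ S ∧ j ∈ S))), mc (Comp.pt S') S =
        if (InX n a α (Comp.pt S) ∧ (InB n a (Comp.pt S) → (i ∈ S ∧ j ∈ S))) then -1 else 0 := by
      simp only [mc]
      rw [Finset.sum_ite_eq]
      simp only [Finset.mem_filter, Finset.mem_univ, true_and]
    rw [e1]
    simp only [mc]
    have e2 : InB n a (Comp.pt S) → InX n a α (Comp.pt S) := fun h2 => h.pt S h2
    have e3 : (bS n a S : ℤ) = if InB n a (Comp.pt S) then 1 else 0 := by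
      unfold bS InB
      split_ifs <;> simp
    rw [e3]
    unfold bl
    by_cases c1 : i ∈ S <;> by_cases c2 : j ∈ S <;> by_cases c3 : InB n a (Comp.pt S) <;>
      by_cases c4 : InX n a α (Comp.pt S) <;> by_cases c5 : a i + 1 = n <;>
      by_cases c6 : a j + 1 = n <;>
      first
      | exact absurd (e2 c3) c4
      | (simp only [c1, c2, c3, c4, c5, c6, if_true, if_false, and_self, and_true, true_and,
          and_false, false_and, implies_true, not_true, not_false_iff, forall_const,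
          IsEmpty.forall_iff, Nat.cast_one, Nat.cast_zero, Nat.cast_ofNat]; ring)
  have hf : cij L D i j * fl (L i) ^ (bl n a i) * fl (L j) ^ (bl n a j) =
      cij L (Lam L α • D) i j / ∏ c ∈ XX n a α i j, lc L c := by
    rw [cij_smul, R5_prod_XX]
    have e1 := R5_prod_W h hij (fun l => fl (L l))
    have e2 : ∏ S ∈ Finset.univ.filter (fun S : Finset (Fin k) => InX n a α (Comp.pt S) ∧
        (InB n a (Comp.pt S) → (i ∈ S ∧ j ∈ S))), lc L (Comp.pt S) = 1 := by
      apply Finset.prod_eq_one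
      intro S _
      rfl
    have e3 : ∏ l ∈ Finset.univ.filter (fun l => α l = 1 ∧ (a l + 1 = n → i ≠ l ∧ j ≠ l)),
        fl (L l) ≠ 0 := Finset.prod_ne_zero_iff.2 fun l _ => hfl l
    unfold Lam
    rw [e1, e2, mul_one]
    simp only [lc]
    rw [eq_div_iff e3]
    have e4 : ∀ l, fl (L l) ^ bl n a l = if a l + 1 = n then fl (L l) else 1 := by
      intro l
      unfold bl
      split_ifs
      · rw [pow_one]
      · rw [pow_zero]
    rw [e4, e4]
    ring
  rw [hd, hm, hf]

end HKR
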