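import Pool.Agent.Lib.HKR.T3
import Pool.Agent.Lib.HKR.C4
/-!
HKR.T4 (interior theorem, d ≥ 1): with the hypotheses of all_pairs, Glob (TCond L d m) D.
PROOF.  Choose lines i1, i2, s with det3 ≠ 0 (nonconc).  For every i write L i = a_i L i1 + b_i L i2 + c_i L s and
put w_i := ℓi u_is - a_i ℓ1 u_1s - b_i ℓ2 u_2s ∈ Fn.  By cij_rel the same expression with cij (D y) in place of u is
0, so w_i = -(ℓi (c_is - u_is) - ...) is a section of O(H-M): Sect (d-1) m (sect_lin times Sect d m).
 d ≥ 2: w_i = 0 by h0_neg.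
 d = 1: w_i = constant ω_i (h0_zero); ω_i1 = ω_i2 = ω_s = 0.  For a multiple q with m_q < 1 there is v with
   ω_i = L i ⬝ v for i through q: take two lines i, j through q and v with L i ⬝ v = ω_i, L j ⬝ v = ω_j; for a third l
   through q: a L i + b L j + c L l = 0, c ≠ 0, and a ω_i + b ω_j + c ω_l = 0, because
   a w_i + b w_j + c w_l = a ℓi u_is + b ℓj u_js + c ℓl u_ls (the coefficients a_i, b_i are linear) =
   a ℓi u_il + b ℓj u_jl + (a ℓi + b ℓj + c ℓl) u_ls = 0.
   Apply c4 with p := p0 if p0 is multiple, else with any multiple p (one exists by c2): hypothesis only for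
   q not ∥ p; if p0 is not multiple every multiple q is not ∥ p0, so m_q < 1.  So ω_i = L i ⬝ v for all i, and
   ω = 0 at three independent lines: v = 0, ω = 0.
 So w_i = 0 for all i.  exists_der: E with c_(i1)s(E) = u_1s, c_(i2)s(E) = u_2s.  By cij_rel for E and w_i = 0:
 ℓi c_is(E) = ℓi u_is, so c_is(E) = u_is for all i, c_ij(E) = u_ij.  So TCond (E - D y).
-/
open MvPolynomial
namespace HKR
variable {k : ℕ} {L : Fin k → Fin 3 → ℂ}

private lemma t4_par {u v : Fin 3 → ℂ} (hu : u ≠ 0) (h : ¬ LinearIndependent ℂ ![u, v]) :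
    ∃ t : ℂ, v = t • u := by
  by_contra hc
  exact h ((LinearIndependent.pair_iff' hu).2 fun a ha => hc ⟨a, ha.symm⟩)

private lemma t4_cross {u v : Fin 3 → ℂ} (h : LinearIndependent ℂ ![u, v]) :
    crossProduct u v ≠ 0 := crossProduct_ne_zero_iff_linearIndependent.2 h

/-- a form vanishing at `q` is a combination of two independent forms vanishing at `q` -/
private lemma t4_comb {a b l q : Fin 3 → ℂ} (hq : q ≠ 0) (h : LinearIndependent ℂ ![a, b])
    (ha : a ⬝ᵥ q = 0) (hb : b ⬝ᵥ q = 0) (hl : l ⬝ᵥ q = 0) :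
    ∃ x y : ℂ, l = x • a + y • b := by
  by_contra hc
  push Not at hc
  have hli : LinearIndependent ℂ ![a, b, l] := by
    rw [Fintype.linearIndependent_iff]
    intro g hg
    rw [Fin.sum_univ_three] at hg
    simp only [Matrix.cons_val] at hg
    by_cases h2 : g 2 = 0
    · rw [h2, zero_smul, add_zero] at hg
      obtain ⟨h0, h1⟩ := LinearIndependent.pair_iff.1 h _ _ hg
      intro i
      fin_cases i
      · exact h0
      · exact h1
      · exact h2
    · exfalso
      apply hc (-(g 2)⁻¹ * g 0) (-(g 2)⁻¹ * g 1)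
      have h3 : g 2 • l = -(g 0 • a + g 1 • b) := by
        rw [eq_neg_iff_add_eq_zero, ← hg]
        abel
      have h4 : l = (g 2)⁻¹ • (g 2 • l) := by rw [smul_smul, inv_mul_cancel₀ h2, one_smul]
      rw [h4, h3, smul_neg, smul_add, smul_smul, smul_smul, neg_mul, neg_mul, neg_smul,
        neg_smul]
      abel
  have h1 : IsUnit (Matrix.of ![a, b, l]) := Matrix.linearIndependent_rows_iff_isUnit.1 hli
  have h2 : (Matrix.of ![a, b, l]).det = 0 := by
    refine Matrix.exists_mulVec_eq_zero_iff.1 ⟨q, hq, ?_⟩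
    ext j
    fin_cases j
    · exact ha
    · exact hb
    · exact hl
  rw [Matrix.isUnit_iff_isUnit_det, h2] at h1
  exact not_isUnit_zero h1

/-- two independent forms take arbitrary values -/
private lemma t4_val {a b : Fin 3 → ℂ} (h : LinearIndependent ℂ ![a, b]) (α β : ℂ) :
    ∃ v : Fin 3 → ℂ, a ⬝ᵥ v = α ∧ b ⬝ᵥ v = β := by
  have hc := t4_cross h
  obtain ⟨j, hj⟩ := Function.ne_iff.1 hc
  -- the vectors `b × e_j` and `a × e_j`
  set e : Fin 3 → ℂ := Pi.single j 1 with he
  have hab : crossProduct a b ⬝ᵥ e = crossProduct a b j := by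
    rw [he]
    simp
  have h1 : a ⬝ᵥ crossProduct b e = crossProduct a b j := by
    rw [← hab, triple_product_permutation, triple_product_permutation, dotProduct_comm]
  have h2 : b ⬝ᵥ crossProduct b e = 0 := dot_self_cross _ _
  have h3 : b ⬝ᵥ crossProduct e a = crossProduct a b j := by
    rw [← h1, triple_product_permutation, triple_product_permutation]
  have h4 : a ⬝ᵥ crossProduct e a = 0 := dot_cross_self _ _
  have hj' : crossProduct a b j ≠ 0 := hj
  refine ⟨(α / crossProduct a b j) • crossProduct b e +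
    (β / crossProduct a b j) • crossProduct e a, ?_, ?_⟩
  · rw [dotProduct_add, dotProduct_smul, dotProduct_smul, h1, h4, smul_eq_mul, smul_eq_mul,
      mul_zero, add_zero, div_mul_cancel₀ _ hj']
  · rw [dotProduct_add, dotProduct_smul, dotProduct_smul, h2, h3, smul_eq_mul, smul_eq_mul,
      mul_zero, zero_add, div_mul_cancel₀ _ hj']

open Classical in
theorem interior (hk : 6 ≤ k) (hC : Config L) (hR : AffRigid L) {d : ℤ} (hd : 0 < d)
    {m : Finset (Fin k) → ℤ}
    (hcous : ∀ p : Fin 3 → ℂ, p ≠ 0 → Multiple L p → m (SS L p) < d → ∀ e : Pt → Fn,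
      LC L (Sect L (d + 1) (fun S => m S + if S = SS L p then 1 else 0)) e →
      Glob (Sect L (d + 1) (fun S => m S + if S = SS L p then 1 else 0)) e)
    {p0 : Fin 3 → ℂ} (hp0 : p0 ≠ 0)
    (hone : ∀ q, Multiple L q → LinearIndependent ℂ ![p0, q] → m (SS L q) < d)
    (D : Pt → Derivation ℂ Fn Fn) (hD : LC L (TCond L d m) D) : Glob (TCond L d m) D := by
  obtain ⟨u, hS, hadd, hrel⟩ := all_pairs hk hC hR hd hcous hp0 hone D hD
  have huu : ∀ i, u i i = 0 := by
    intro i
    have := hadd i i i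
    exact left_eq_add.1 this.symm
  -- three independent lines
  obtain ⟨i1, i2, hi12⟩ : ∃ i1 i2 : Fin k, i1 ≠ i2 := by
    have : Nontrivial (Fin k) := Fin.nontrivial_iff_two_le.2 (by omega)
    exact exists_pair_ne (Fin k)
  obtain ⟨s, hs⟩ : ∃ s, L s ⬝ᵥ crossProduct (L i1) (L i2) ≠ 0 := by
    by_contra hc
    push Not at hc
    exact t4_cross (hC.ind i1 i2 hi12) (hC.nonconc _ hc)
  have hdet : det3 (L i1) (L i2) (L s) ≠ 0 := by
    have h1 : det3 (L i1) (L i2) (L s) = L s ⬝ᵥ crossProduct (L i1) (L i2) := by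
      rw [triple_product_permutation]
      exact (triple_product_eq_det _ _ _).symm
    rw [h1]
    exact hs
  have hli : LinearIndependent ℂ ![L i1, L i2, L s] :=
    Matrix.linearIndependent_rows_iff_isUnit.2
      ((Matrix.isUnit_iff_isUnit_det _).2 (isUnit_iff_ne_zero.2 hdet))
  let B : Module.Basis (Fin 3) ℂ (Fin 3 → ℂ) :=
    basisOfLinearIndependentOfCardEqFinrank hli (by simp)
  have hB : ⇑B = ![L i1, L i2, L s] := coe_basisOfLinearIndependentOfCardEqFinrank _ _
  have hB0 : B 0 = L i1 := by rw [hB]; rfl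
  have hB1 : B 1 = L i2 := by rw [hB]; rfl
  have hB2 : B 2 = L s := by rw [hB]; rfl
  obtain ⟨φ1, φ2, φ3, hφ, ⟨e11, e12, e13⟩, ⟨e21, e22, e23⟩⟩ :
      ∃ φ1 φ2 φ3 : (Fin 3 → ℂ) →ₗ[ℂ] ℂ,
      (∀ l, l = φ1 l • L i1 + φ2 l • L i2 + φ3 l • L s) ∧
      (φ1 (L i1) = 1 ∧ φ1 (L i2) = 0 ∧ φ1 (L s) = 0) ∧
      (φ2 (L i1) = 0 ∧ φ2 (L i2) = 1 ∧ φ2 (L s) = 0) := by
    refine ⟨B.coord 0, B.coord 1, B.coord 2, ?_, ⟨?_, ?_, ?_⟩, ⟨?_, ?_, ?_⟩⟩
    · intro l
      have h1 := (B.sum_repr l).symm
      rw [Fin.sum_univ_three, hB0, hB1, hB2] at h1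
      exact h1
    · rw [← hB0]; simp [Module.Basis.coord_apply]
    · rw [← hB1]; simp [Module.Basis.coord_apply]
    · rw [← hB2]; simp [Module.Basis.coord_apply]
    · rw [← hB0]; simp [Module.Basis.coord_apply]
    · rw [← hB1]; simp [Module.Basis.coord_apply]
    · rw [← hB2]; simp [Module.Basis.coord_apply]
  have hrelD : ∀ (E : Derivation ℂ Fn Fn) (i : Fin k), fl (L i) * cij L E i s =
      algebraMap ℂ Fn (φ1 (L i)) * fl (L i1) * cij L E i1 s +
      algebraMap ℂ Fn (φ2 (L i)) * fl (L i2) * cij L E i2 s := by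
    intro E i
    have h1 : (1 : ℂ) • L i + (-φ1 (L i)) • L i1 + (-φ2 (L i)) • L i2 + (-φ3 (L i)) • L s = 0 := by
      conv_lhs => rw [hφ (L i)]
      simp only [map_add, map_smul, e11, e12, e13, e21, e22, e23, one_smul, neg_smul]
      have h3 : φ3 (φ1 (L i) • L i1 + φ2 (L i) • L i2 + φ3 (L i) • L s) = φ3 (L i) := by
        rw [← hφ (L i)]
      simp only [map_add, map_smul] at h3
      rw [h3]
      simp only [smul_eq_mul, mul_one, mul_zero, add_zero, zero_add]
      abel
    have h2 := cij_rel hC E (s := s) h1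
    rw [map_one, one_mul, map_neg, map_neg] at h2
    linear_combination h2
  set w : Fin k → Fn := fun i => fl (L i) * u i s -
    algebraMap ℂ Fn (φ1 (L i)) * fl (L i1) * u i1 s -
    algebraMap ℂ Fn (φ2 (L i)) * fl (L i2) * u i2 s with hw
  have hws : ∀ y i, Sect L (d - 1) m y (w i) := by
    intro y i
    have key : ∀ j, Sect L (d - 1) m y (fl (L j) * (cij L (D y) j s - u j s)) := by
      intro j
      have h1 := (sect_lin (y := y) (k := k) (L := L) (L j)).mul (hS y j s)
      have h2 : (-1 + d : ℤ) = d - 1 := by ring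
      simpa only [zero_add, h2] using h1
    have h1 := ((key i).sub ((key i1).smul (φ1 (L i)))).sub ((key i2).smul (φ2 (L i)))
    have h2 : w i = -(fl (L i) * (cij L (D y) i s - u i s) -
        algebraMap ℂ Fn (φ1 (L i)) * (fl (L i1) * (cij L (D y) i1 s - u i1 s)) -
        algebraMap ℂ Fn (φ2 (L i)) * (fl (L i2) * (cij L (D y) i2 s - u i2 s))) := by
      have h3 := hrelD (D y) i
      simp only [hw]
      linear_combination h3
    rw [h2]
    exact h1.neg
  have hw0 : ∀ i, w i = 0 := by
    by_cases hd1 : d = 1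
    · -- constants
      subst hd1
      have hex : ∀ i, ∃ c : ℂ, w i = algebraMap ℂ Fn c := by
        intro i
        refine h0_zero hC (m := m) fun y _ => ?_
        have := hws y i
        rwa [sub_self] at this
      choose ω hω using hex
      have hinj : Function.Injective (algebraMap ℂ Fn) := (algebraMap ℂ Fn).injective
      have hw1 : w i1 = 0 := by
        simp only [hw, e11, e21, map_one, map_zero]
        ring
      have hw2 : w i2 = 0 := by
        simp only [hw, e12, e22, map_one, map_zero]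
        ring
      have hw3 : w s = 0 := by
        simp only [hw, e13, e23, map_zero, huu]
        ring
      have hω1 : ω i1 = 0 := hinj (by rw [← hω, hw1, map_zero])
      have hω2 : ω i2 = 0 := hinj (by rw [← hω, hw2, map_zero])
      have hω3 : ω s = 0 := hinj (by rw [← hω, hw3, map_zero])
      have hloc : ∀ q : Fin 3 → ℂ, q ≠ 0 → Multiple L q → m (SS L q) < 1 →
          ∃ v : Fin 3 → ℂ, ∀ i, L i ⬝ᵥ q = 0 → ω i = L i ⬝ᵥ v := by
        intro q hq hqm hmq
        obtain ⟨a, b, c, hab, -, -, qa, qb, -⟩ := id hqm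
        obtain ⟨v, hva, hvb⟩ := t4_val (hC.ind a b hab) (ω a) (ω b)
        refine ⟨v, fun l ql => ?_⟩
        obtain ⟨x, y, hxy⟩ := t4_comb hq (hC.ind a b hab) qa qb ql
        have h1 : x • L a + y • L b + (-1 : ℂ) • L l = 0 := by
          rw [hxy, neg_smul, one_smul]
          abel
        have h2 := hrel q hq hqm hmq a b l qa qb ql x y (-1) h1
        have h3 : algebraMap ℂ Fn (ω l) = algebraMap ℂ Fn (x * ω a + y * ω b) := by
          rw [map_add, map_mul, map_mul, ← hω, ← hω, ← hω]
          have h4 : fl (L l) = algebraMap ℂ Fn x * fl (L a) + algebraMap ℂ Fn y * fl (L b) := by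
            rw [hxy, fl_add, fl_smul, fl_smul]
          have h5 : φ1 (L l) = x * φ1 (L a) + y * φ1 (L b) := by
            rw [hxy, map_add, map_smul, map_smul, smul_eq_mul, smul_eq_mul]
          have h6 : φ2 (L l) = x * φ2 (L a) + y * φ2 (L b) := by
            rw [hxy, map_add, map_smul, map_smul, smul_eq_mul, smul_eq_mul]
          have h7 := hadd a l s
          have h8 := hadd b l s
          simp only [hw]
          rw [h4, h5, h6, ← h7, ← h8, map_add, map_add, map_mul, map_mul, map_mul, map_mul]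
          linear_combination -h2
        rw [hinj h3, hxy, add_dotProduct, smul_dotProduct, smul_dotProduct, hva, hvb,
          smul_eq_mul, smul_eq_mul]
      obtain ⟨p, hp, hpm, hpq⟩ : ∃ p : Fin 3 → ℂ, p ≠ 0 ∧ Multiple L p ∧
          ∀ q, Multiple L q → LinearIndependent ℂ ![p, q] → m (SS L q) < 1 := by
        by_cases h : Multiple L p0
        · exact ⟨p0, hp0, h, hone⟩
        · obtain ⟨p, p', hpm, -, -, -, hpp⟩ := c2 hk hC hR i1
          refine ⟨p, hpp.ne_zero 0, hpm, fun q hq hpq => hone q hq ?_⟩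
          by_contra hn
          obtain ⟨t, ht⟩ := t4_par hp0 hn
          have hq0 : q ≠ 0 := hpq.ne_zero 1
          have ht0 : t ≠ 0 := by
            rintro rfl
            exact hq0 (by rw [ht, zero_smul])
          obtain ⟨x, y, z, h1, h2, h3, hx, hy, hz⟩ := hq
          have thr : ∀ i, L i ⬝ᵥ q = 0 → L i ⬝ᵥ p0 = 0 := by
            intro i hi
            rw [ht, dotProduct_smul, smul_eq_mul] at hi
            exact (mul_eq_zero.1 hi).resolve_left ht0
          exact h ⟨x, y, z, h1, h2, h3, thr x hx, thr y hy, thr z hz⟩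
      obtain ⟨v, hv⟩ := c4 hk hC hR hp hpm ω fun q hqm hpq' =>
        hloc q (hpq'.ne_zero 1) hqm (hpq q hqm hpq')
      have hv0 : v = 0 := by
        by_contra hne
        apply hdet
        unfold det3
        refine Matrix.exists_mulVec_eq_zero_iff.1 ⟨v, hne, ?_⟩
        ext j
        fin_cases j
        · exact (hv i1).symm.trans hω1
        · exact (hv i2).symm.trans hω2
        · exact (hv s).symm.trans hω3
      intro i
      rw [hω i, hv i, hv0, dotProduct_zero, map_zero]
    · intro i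
      exact h0_neg hC (D := d - 1) (by omega) (m := m) fun y _ => hws y i
  obtain ⟨E, hE1, hE2⟩ := exists_der hC hdet (u i1 s) (u i2 s)
  have hEs : ∀ i, cij L E i s = u i s := by
    intro i
    have h0 : fl (L i) ≠ 0 := by
      apply fl_ne_zero
      obtain ⟨j, hj⟩ : ∃ j : Fin k, i ≠ j := by
        have : Nontrivial (Fin k) := Fin.nontrivial_iff_two_le.2 (by omega)
        obtain ⟨j, hj⟩ := exists_ne i
        exact ⟨j, hj.symm⟩
      exact (hC.ind i j hj).ne_zero 0
    apply mul_left_cancel₀ h0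
    have h1 := hrelD E i
    rw [hE1, hE2] at h1
    have h2 := hw0 i
    simp only [hw] at h2
    linear_combination h1 - h2
  refine ⟨E, fun y i j _ => ?_⟩
  have h1 : cij L (E - D y) i j = -(cij L (D y) i j - u i j) := by
    rw [cij_sub]
    have h2 := cij_trans hC E i j s
    have h3 := hadd i j s
    rw [hEs i, hEs j] at h2
    linear_combination h2 - h3
  rw [h1]
  exact (hS y i j).neg

end HKR
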