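import Pool.Agent.Lib.HKR.S1
import Pool.Agent.Lib.HKR.T4
/-!
HKR.S2 (interior theorem for M = M(β), d ≥ 1).
PROOF.  `interior` with m S = ⌊Σ_S β⌋, hcous from cousin_Mp.  hone: if every multiple q has m_q < d take any p0 ≠ 0.
Otherwise let p0 be a multiple point ≠ 0 with m_{p0} ≥ d: Σ_{i ∋ p0} β i ≥ d = Σ β, so β i = 0 for i off p0.  A multiple
q not ∥ p0 shares at most one line i with p0, so Σ_{SS q} β ≤ β i < 1 (or = 0 < 1), m_q ≤ 0 < d.
-/
open MvPolynomial
namespace HKR
variable {k : ℕ} {L : Fin k → Fin 3 → ℂ}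

private lemma s2_par {u v : Fin 3 → ℂ} (hu : u ≠ 0) (h : ¬ LinearIndependent ℂ ![u, v]) :
    ∃ t : ℂ, v = t • u := by
  by_contra hc
  exact h ((LinearIndependent.pair_iff' hu).2 fun a ha => hc ⟨a, ha.symm⟩)

/-- a point on two independent lines is a multiple of the cross product -/
private lemma s2_on_two {a b q : Fin 3 → ℂ} (h : LinearIndependent ℂ ![a, b])
    (ha : a ⬝ᵥ q = 0) (hb : b ⬝ᵥ q = 0) : ∃ t : ℂ, q = t • crossProduct a b := by
  apply s2_par (crossProduct_ne_zero_iff_linearIndependent.2 h)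
  intro hi
  apply crossProduct_ne_zero_iff_linearIndependent.2 hi
  rw [cross_cross_eq_smul_sub_smul, ha, hb]
  simp

/-- two independent lines have only one common point -/
private lemma s2_one {a b p q : Fin 3 → ℂ} (h : LinearIndependent ℂ ![a, b])
    (hpq : LinearIndependent ℂ ![p, q])
    (ha : a ⬝ᵥ p = 0) (hb : b ⬝ᵥ p = 0) (ha' : a ⬝ᵥ q = 0) (hb' : b ⬝ᵥ q = 0) : False := by
  obtain ⟨t, ht⟩ := s2_on_two h ha hb
  obtain ⟨s, hs⟩ := s2_on_two h ha' hb'
  have h1 := (LinearIndependent.pair_iff.1 hpq) s (-t) (by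
    rw [ht, hs, smul_smul, smul_smul, ← add_smul]
    ring_nf
    simp)
  have h2 : q = 0 := by rw [hs, h1.1, zero_smul]
  exact (hpq.ne_zero 1) h2

theorem interior_beta (hk : 6 ≤ k) (hC : Config L) (hR : AffRigid L) (β : Fin k → ℚ)
    (h0 : ∀ i, 0 ≤ β i) (h1 : ∀ i, β i < 1) (d : ℕ) (hd : ∑ i, β i = d) (hd1 : 1 ≤ d)
    (D : Pt → Derivation ℂ Fn Fn)
    (hD : LC L (TCond L d (fun S => ⌊∑ i ∈ S, β i⌋)) D) :
    Glob (TCond L d (fun S => ⌊∑ i ∈ S, β i⌋)) D := by
  obtain ⟨p0, hp0, hone⟩ : ∃ p0 : Fin 3 → ℂ, p0 ≠ 0 ∧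
      ∀ q, Multiple L q → LinearIndependent ℂ ![p0, q] → ⌊∑ i ∈ SS L q, β i⌋ < (d : ℤ) := by
    by_cases hall : ∀ q : Fin 3 → ℂ, q ≠ 0 → Multiple L q → ⌊∑ i ∈ SS L q, β i⌋ < (d : ℤ)
    · refine ⟨fun _ => 1, fun h => one_ne_zero (congrFun h 0), fun q hq hind => ?_⟩
      exact hall q (hind.ne_zero 1) hq
    · push Not at hall
      obtain ⟨p0, hp0, -, hge⟩ := hall
      refine ⟨p0, hp0, fun q _ hind => ?_⟩
      have hge' : (d : ℚ) ≤ ∑ i ∈ SS L p0, β i := by
        have := (Int.le_floor.1 hge)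
        exact_mod_cast this
      -- the lines off `p0` have weight 0
      have hoff : ∀ i, i ∉ SS L p0 → β i = 0 := by
        have hsum : ∑ i ∈ Finset.univ \ SS L p0, β i = 0 := by
          have h2 := Finset.sum_sdiff (f := β) (Finset.subset_univ (SS L p0))
          have h3 : 0 ≤ ∑ i ∈ Finset.univ \ SS L p0, β i := Finset.sum_nonneg fun i _ => h0 i
          linarith
        intro i hi
        exact (Finset.sum_eq_zero_iff_of_nonneg fun i _ => h0 i).1 hsum i
          (Finset.mem_sdiff.2 ⟨Finset.mem_univ i, hi⟩)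
      have hlt : ∑ i ∈ SS L q, β i < 1 := by
        by_cases hex : ∃ i ∈ SS L q, i ∈ SS L p0
        · obtain ⟨i, hiq, hip⟩ := hex
          have : ∑ j ∈ SS L q, β j = β i := by
            refine Finset.sum_eq_single i ?_ (fun h => absurd hiq h)
            intro j hjq hji
            apply hoff
            intro hjp
            unfold SS at hiq hip hjq hjp
            rw [Finset.mem_filter] at hiq hip hjq hjp
            exact s2_one (hC.ind j i hji) hind hjp.2 hip.2 hjq.2 hiq.2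
          rw [this]
          exact h1 i
        · push Not at hex
          rw [Finset.sum_eq_zero fun i hi => hoff i (hex i hi)]
          exact one_pos
      have h2 : ⌊∑ i ∈ SS L q, β i⌋ < 1 := by
        rw [Int.floor_lt]
        exact_mod_cast hlt
      omega
  exact interior hk hC hR (d := (d : ℤ)) (by omega) (m := fun S => ⌊∑ i ∈ S, β i⌋)
    (fun p hp hpm hpd e he => cousin_Mp hk hC hR β h0 h1 d hd hp hpm hpd e he) hp0 hone D hD

end HKR
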