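import Pool.Agent.Lib.HKR.T5
import Pool.Agent.Lib.HKR.C2
/-!
HKR.T7 (degree 0 with vanishing on one line i0; AffRigid suffices).
HYPOTHESES.  D LC for TCond 0 0; for i, j ≠ i0 the functions cij (D y) i j are LC modulo O(-L_i0):
P y f := Sect 1 [i0 ∈ S] y (f / fl (L i0)).  Cousin theorems for (0;0) and (1;[i0 ∈ S]).
PROOF.  Choose i1, i2, s ≠ i0 with det3 ≠ 0 (c2_third: gives such; or c1).  For i ≠ i0: hcous1 applied to
cij (D y) i s / ℓ0 (ℓ0 := fl (L i0)) gives u_i with (cij (D y) i s - u_i)/ℓ0 ∈ Sect 1 [i0 ∈ S] for all y; u_s = 0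
(h0_neg).  In particular Regular (cij (D y) i s - u_i) (multiply by ℓ0: sect_line).  For i0: hcous0: u_i0 with
Regular (cij (D y) i0 s - u_i0).
w_i := ℓi u_i - a_i ℓ1 u_1 - b_i ℓ2 u_2.  For i ≠ i0, w_i/ℓ0 = -(ℓi (c_is - u_i)/ℓ0 - ...) is Sect 0 (..) at all
non-multiple y, so a constant t_i (h0_zero).  For i = i0: w_i0/ℓ0 = -(c_i0s - u_i0) + a ℓ1 (c_1s - u_1)/ℓ0 + ...:
again a section of O at non-multiple y: constant t; replace u_i0 by u_i0 - t: w_i0 = 0, t_i0 := 0.
So w_i = t_i ℓ0 for all i; lam i := t_i • L i0.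
AffRigid with w := lam: let det3 (L i) (L j) (L l) = 0, t ∈ ℂ.  Two indices equal: clear.  i0 among them, say
i = i0: det3 (L i0) (L j + t t_j L i0) (L l + t t_l L i0) = det3 (L i0) (L j) (L l) = 0.  Otherwise det3 is affine
in t (two rows proportional to L i0 give 0) with coefficient t_i det3(L i0,L j,L l) + ... = const *
(a t_i + b t_j + c t_l) (L i0)(q) where a L i + b L j + c L l = 0; if L i0(q) = 0 fine; else as in T6 (value at
y = (q,w) of (a t_i + b t_j + c t_l) ℓ0 = a w_i + b w_j + c w_l = -(a ℓi (c_il - u_il) + b ℓj (c_jl - u_jl))) it is 0.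
So lam i = c' i L i + L i g; zero_fin.
-/
open MvPolynomial
namespace HKR
variable {k : ℕ} {L : Fin k → Fin 3 → ℂ}

private lemma t7_exp (a b c n : Fin 3 → ℂ) (x y z : ℂ) :
    det3 (a + x • n) (b + y • n) (c + z • n) = det3 a b c + x * det3 n b c + y * det3 a n c +
      z * det3 a b n := by
  simp only [det3, Matrix.det_fin_three, Matrix.of_apply, Matrix.cons_val_zero,
    Matrix.cons_val_one, Matrix.cons_val, Pi.add_apply, Pi.smul_apply, smul_eq_mul]
  ring

private lemma t7_eq1 (a b : Fin 3 → ℂ) : det3 a a b = 0 := by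
  simp only [det3, Matrix.det_fin_three, Matrix.of_apply, Matrix.cons_val_zero,
    Matrix.cons_val_one, Matrix.cons_val]
  ring

private lemma t7_eq2 (a b : Fin 3 → ℂ) : det3 a b a = 0 := by
  simp only [det3, Matrix.det_fin_three, Matrix.of_apply, Matrix.cons_val_zero,
    Matrix.cons_val_one, Matrix.cons_val]
  ring

private lemma t7_eq3 (a b : Fin 3 → ℂ) : det3 b a a = 0 := by
  simp only [det3, Matrix.det_fin_three, Matrix.of_apply, Matrix.cons_val_zero,
    Matrix.cons_val_one, Matrix.cons_val]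
  ring

/-- the coefficients of a linear relation and the determinants with a fourth form -/
private lemma t7_rel {a b c : Fin 3 → ℂ} (n : Fin 3 → ℂ) {α β γ : ℂ}
    (h : α • a + β • b + γ • c = 0) :
    α * det3 a n c = β * det3 n b c ∧ α * det3 a b n = γ * det3 n b c := by
  have h0 := congrFun h 0
  have h1 := congrFun h 1
  have h2 := congrFun h 2
  simp only [Pi.add_apply, Pi.smul_apply, smul_eq_mul, Pi.zero_apply] at h0 h1 h2
  simp only [det3, Matrix.det_fin_three, Matrix.of_apply, Matrix.cons_val_zero,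
    Matrix.cons_val_one, Matrix.cons_val]
  constructor
  · linear_combination (n 1 * c 2 - n 2 * c 1) * h0 + (n 2 * c 0 - n 0 * c 2) * h1 +
      (n 0 * c 1 - n 1 * c 0) * h2
  · linear_combination (b 1 * n 2 - b 2 * n 1) * h0 + (b 2 * n 0 - b 0 * n 2) * h1 +
      (b 0 * n 1 - b 1 * n 0) * h2

private lemma t7_det_zero {a b c q : Fin 3 → ℂ} (hq : q ≠ 0) (ha : a ⬝ᵥ q = 0) (hb : b ⬝ᵥ q = 0)
    (hc : c ⬝ᵥ q = 0) : det3 a b c = 0 := by
  unfold det3
  refine Matrix.exists_mulVec_eq_zero_iff.1 ⟨q, hq, ?_⟩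
  ext j
  fin_cases j
  · exact ha
  · exact hb
  · exact hc

private lemma t7_point {a b c : Fin 3 → ℂ} (h : det3 a b c = 0) :
    ∃ q : Fin 3 → ℂ, q ≠ 0 ∧ a ⬝ᵥ q = 0 ∧ b ⬝ᵥ q = 0 ∧ c ⬝ᵥ q = 0 := by
  unfold det3 at h
  obtain ⟨q, hq, hM⟩ := Matrix.exists_mulVec_eq_zero_iff.2 h
  exact ⟨q, hq, congrFun hM 0, congrFun hM 1, congrFun hM 2⟩

private lemma t7_comb {a b c : Fin 3 → ℂ} (h : det3 a b c = 0) (hab : LinearIndependent ℂ ![a, b])
    (hbc : LinearIndependent ℂ ![b, c]) : ∃ α β γ : ℂ, α • a + β • b + γ • c = 0 ∧ α ≠ 0 := by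
  unfold det3 at h
  obtain ⟨v, hv, hM⟩ := Matrix.exists_vecMul_eq_zero_iff.2 h
  have hsum : v 0 • a + v 1 • b + v 2 • c = 0 := by
    ext i
    have h1 := congrFun hM i
    simp only [Matrix.vecMul, dotProduct, Fin.sum_univ_three, Matrix.of_apply, Pi.zero_apply,
      Matrix.cons_val] at h1
    simp only [Pi.add_apply, Pi.smul_apply, smul_eq_mul, Pi.zero_apply]
    exact h1
  refine ⟨v 0, v 1, v 2, hsum, fun h0 => ?_⟩
  rw [h0, zero_smul, zero_add] at hsum
  obtain ⟨h1, h2⟩ := LinearIndependent.pair_iff.1 hbc _ _ hsum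
  apply hv
  ext i
  fin_cases i
  · exact h0
  · exact h1
  · exact h2

private lemma t7_dir {q : Fin 3 → ℂ} (hq : q ≠ 0) : ∃ w : Fin 3 → ℂ, LinearIndependent ℂ ![q, w] := by
  by_contra hc
  push Not at hc
  have h1 : ∀ j : Fin 3, ∃ t : ℂ, t • q = Pi.single j (1 : ℂ) := by
    intro j
    by_contra h2
    push Not at h2
    exact hc (Pi.single j 1) ((LinearIndependent.pair_iff' hq).2 h2)
  obtain ⟨t, ht⟩ := h1 0
  obtain ⟨s, hs⟩ := h1 1
  have a0 := congrFun ht 0
  have a1 := congrFun ht 1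
  have b0 := congrFun hs 0
  have b1 := congrFun hs 1
  simp only [Pi.smul_apply, smul_eq_mul, Pi.single_apply, if_true] at a0 a1 b0 b1
  simp at a0 a1 b0 b1
  rcases a1 with h | h
  · rw [h] at a0; simp at a0
  · rw [h] at b1; simp at b1

open Classical in
/-- regular, from divisible by the line -/
private lemma t7_reg (i0 : Fin k) (h0 : fl (L i0) ≠ 0) {y : Pt} {X : Fn}
    (h : Sect L 1 (fun S => if i0 ∈ S then 1 else 0) y (X / fl (L i0))) : Regular L y X := by
  have h1 := h.mul (sect_line (L := L) (y := y) i0)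
  rw [div_mul_cancel₀ _ h0] at h1
  have h2 : Sect L 0 (fun _ => 0) y X := by
    have h3 := h1.congr_m (m' := fun _ => 0) (fun _ => by
      split_ifs <;> simp)
    simpa using h3
  exact sect_zero_iff.1 h2

private theorem Val.t7_mul_reg {y : Pt} {f g : Fn} (hf : Val L y f 0) (hg : Regular L y g) :
    Val L y (f * g) 0 := by
  obtain ⟨c, hc⟩ := regular_iff_val.1 hg
  have h := hf.mul hc
  rwa [zero_mul] at h

open Classical in
theorem zero_line (hk : 6 ≤ k) (hC : Config L) (hR : AffRigid L) (i0 : Fin k)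
    (hcous0 : ∀ e : Pt → Fn, LC L (Sect L 0 (fun _ => 0)) e → Glob (Sect L 0 (fun _ => 0)) e)
    (hcous1 : ∀ e : Pt → Fn, LC L (Sect L 1 (fun S => if i0 ∈ S then 1 else 0)) e →
      Glob (Sect L 1 (fun S => if i0 ∈ S then 1 else 0)) e)
    (D : Pt → Derivation ℂ Fn Fn) (hD : LC L (TCond L 0 (fun _ => 0)) D)
    (hD' : ∀ i j, i ≠ i0 → j ≠ i0 →
      LC L (fun y f => Sect L 1 (fun S => if i0 ∈ S then 1 else 0) y (f / fl (L i0)))
        (fun y => cij L (D y) i j)) :
    Glob (TCond L 0 (fun _ => 0)) D := by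
  have hne : ∀ i, L i ≠ 0 := by
    intro i
    obtain ⟨j, hj⟩ : ∃ j : Fin k, i ≠ j := by
      have : Nontrivial (Fin k) := Fin.nontrivial_iff_two_le.2 (by omega)
      obtain ⟨j, hj⟩ := exists_ne i
      exact ⟨j, hj.symm⟩
    exact (hC.ind i j hj).ne_zero 0
  have h0 : fl (L i0) ≠ 0 := fl_ne_zero (hne i0)
  -- the three lines
  obtain ⟨i1, i2, s, hi1, hi2, hs0, hdet⟩ : ∃ i1 i2 s : Fin k, i1 ≠ i0 ∧ i2 ≠ i0 ∧ s ≠ i0 ∧
      det3 (L i1) (L i2) (L s) ≠ 0 := by
    obtain ⟨i1, hi1⟩ : ∃ i1 : Fin k, i1 ≠ i0 := by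
      have : Nontrivial (Fin k) := Fin.nontrivial_iff_two_le.2 (by omega)
      exact exists_ne i0
    obtain ⟨s, hs⟩ : ∃ s : Fin k, s ∉ ({i0, i1} : Finset (Fin k)) := by
      by_contra hc
      push Not at hc
      have h1 : Fintype.card (Fin k) ≤ ({i0, i1} : Finset (Fin k)).card :=
        Finset.card_le_card (fun x _ => hc x)
      rw [Fintype.card_fin] at h1
      have h2 := Finset.card_le_two (a := i0) (b := i1)
      omega
    simp only [Finset.mem_insert, Finset.mem_singleton, not_or] at hs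
    obtain ⟨e, he, h3, h4⟩ := c2_third hk hC hR i1 i0 s hi1.symm hs.2
    refine ⟨i1, e, s, hi1, ?_, hs.1, h4⟩
    rintro rfl
    exact h3 (t7_eq3 _ _)
  have hli : LinearIndependent ℂ ![L i1, L i2, L s] :=
    Matrix.linearIndependent_rows_iff_isUnit.2
      ((Matrix.isUnit_iff_isUnit_det _).2 (isUnit_iff_ne_zero.2 hdet))
  let B : Module.Basis (Fin 3) ℂ (Fin 3 → ℂ) :=
    basisOfLinearIndependentOfCardEqFinrank hli (by simp)
  have hB : ⇑B = ![L i1, L i2, L s] := coe_basisOfLinearIndependentOfCardEqFinrank _ _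
  have hB0 : B 0 = L i1 := by rw [hB]; rfl
  have hB1 : B 1 = L i2 := by rw [hB]; rfl
  have hB2 : B 2 = L s := by rw [hB]; rfl
  obtain ⟨φ1, φ2, φ3, hφ⟩ : ∃ φ1 φ2 φ3 : (Fin 3 → ℂ) →ₗ[ℂ] ℂ,
      (∀ l, l = φ1 l • L i1 + φ2 l • L i2 + φ3 l • L s) := by
    refine ⟨B.coord 0, B.coord 1, B.coord 2, ?_⟩
    intro l
    have h1 := (B.sum_repr l).symm
    rw [Fin.sum_univ_three, hB0, hB1, hB2] at h1
    exact h1
  have hrelD : ∀ (E : Derivation ℂ Fn Fn) (i : Fin k), fl (L i) * cij L E i s =
      algebraMap ℂ Fn (φ1 (L i)) * fl (L i1) * cij L E i1 s +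
      algebraMap ℂ Fn (φ2 (L i)) * fl (L i2) * cij L E i2 s := by
    intro E i
    have h1 : (1 : ℂ) • L i + (-φ1 (L i)) • L i1 + (-φ2 (L i)) • L i2 + (-φ3 (L i)) • L s = 0 := by
      have h2 := hφ (L i)
      rw [neg_smul, neg_smul, neg_smul, one_smul]
      linear_combination (exp := 1) h2
    have h2 := cij_rel hC E (s := s) h1
    rw [map_one, one_mul, map_neg, map_neg] at h2
    linear_combination h2
  -- the functions u
  have hex1 : ∀ i, i ≠ i0 → ∃ u : Fn, (∀ y, Sect L 1 (fun S => if i0 ∈ S then 1 else 0) y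
      ((cij L (D y) i s - u) / fl (L i0))) ∧ (i = s → u = 0) := by
    intro i hi
    by_cases his : i = s
    · refine ⟨0, fun y => ?_, fun _ => rfl⟩
      rw [his, cij_self hC, sub_zero, zero_div]
      exact Sect.zero
    · obtain ⟨E, hE⟩ := hcous1 (fun y => cij L (D y) i s / fl (L i0)) (by
        intro y
        obtain ⟨T, hT, hT'⟩ := hD' i s hi hs0 y
        refine ⟨T, hT, fun y' hy' => ?_⟩
        have h1 : Sect L 1 (fun S => if i0 ∈ S then 1 else 0) y'
            ((cij L (D y') i s - cij L (D y) i s) / fl (L i0)) := hT' y' hy'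
        rw [sub_div] at h1
        exact h1)
      refine ⟨E * fl (L i0), fun y => ?_, fun h => absurd h his⟩
      rw [sub_div, mul_div_cancel_right₀ _ h0, ← neg_sub]
      exact (hE y).neg
  have hex0 : ∃ u : Fn, ∀ y, Regular L y (cij L (D y) i0 s - u) := by
    obtain ⟨E, hE⟩ := hcous0 (fun y => cij L (D y) i0 s) (by
      intro y
      obtain ⟨T, hT, hT'⟩ := hD y
      refine ⟨T, hT, fun y' hy' => ?_⟩
      have h1 := hT' y' hy' i0 s hs0.symm
      rw [cij_sub] at h1
      exact h1)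
    refine ⟨E, fun y => ?_⟩
    rw [← neg_sub]
    exact (sect_zero_iff.1 (hE y)).neg
  obtain ⟨u0, hu0⟩ := hex0
  choose! v hv hv' using hex1
  have hdivl : ∀ i, i ≠ i0 → ∀ y (j : Fin k),
      Sect L 0 (fun S => 0 + if i0 ∈ S then 1 else 0) y
        (fl (L j) * ((cij L (D y) i s - v i) / fl (L i0))) := by
    intro i hi y j
    have h1 := (sect_lin (y := y) (k := k) (L := L) (L j)).mul (hv i hi y)
    have h2 : (-1 + 1 : ℤ) = 0 := by ring
    rwa [h2] at h1
  have hconst : ∀ i, i ≠ i0 → ∃ t : ℂ, fl (L i) * v i -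
      algebraMap ℂ Fn (φ1 (L i)) * fl (L i1) * v i1 -
      algebraMap ℂ Fn (φ2 (L i)) * fl (L i2) * v i2 = algebraMap ℂ Fn t * fl (L i0) := by
    intro i hi
    obtain ⟨t, ht⟩ := h0_zero hC (m := fun S => 0 + if i0 ∈ S then 1 else 0)
      (f := (fl (L i) * v i - algebraMap ℂ Fn (φ1 (L i)) * fl (L i1) * v i1 -
        algebraMap ℂ Fn (φ2 (L i)) * fl (L i2) * v i2) / fl (L i0)) (fun y _ => by
      have h1 := ((hdivl i hi y i).sub ((hdivl i1 hi1 y i1).smul (φ1 (L i)))).sub
        ((hdivl i2 hi2 y i2).smul (φ2 (L i)))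
      have h2 := h1.neg
      refine cast (congrArg (Sect L 0 _ y) ?_) h2
      have h3 := hrelD (D y) i
      field_simp
      linear_combination -h3)
    exact ⟨t, by rw [← ht, div_mul_cancel₀ _ h0]⟩
  choose! t ht using hconst
  obtain ⟨t0, ht0⟩ : ∃ t : ℂ, fl (L i0) * u0 -
      algebraMap ℂ Fn (φ1 (L i0)) * fl (L i1) * v i1 -
      algebraMap ℂ Fn (φ2 (L i0)) * fl (L i2) * v i2 = algebraMap ℂ Fn t * fl (L i0) := by
    obtain ⟨t, ht⟩ := h0_zero hC (m := fun S => 0 + if i0 ∈ S then 1 else 0)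
      (f := (fl (L i0) * u0 - algebraMap ℂ Fn (φ1 (L i0)) * fl (L i1) * v i1 -
        algebraMap ℂ Fn (φ2 (L i0)) * fl (L i2) * v i2) / fl (L i0)) (fun y hy => by
      have h00 : Sect L 0 (fun S => 0 + if i0 ∈ S then 1 else 0) y (cij L (D y) i0 s - u0) :=
        (sect_zero_iff.2 (hu0 y)).congr_m (fun h => absurd h hy)
      have h1 := (h00.sub ((hdivl i1 hi1 y i1).smul (φ1 (L i0)))).sub
        ((hdivl i2 hi2 y i2).smul (φ2 (L i0)))
      have h2 := h1.neg
      refine cast (congrArg (Sect L 0 _ y) ?_) h2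
      have h3 := hrelD (D y) i0
      field_simp
      linear_combination -h3)
    exact ⟨t, by rw [← ht, div_mul_cancel₀ _ h0]⟩
  -- final functions
  let u : Fin k → Fn := fun i => if i = i0 then u0 - algebraMap ℂ Fn t0 else v i
  let tt : Fin k → ℂ := fun i => if i = i0 then 0 else t i
  have hu_i0 : u i0 = u0 - algebraMap ℂ Fn t0 := if_pos rfl
  have hu_ne : ∀ i, i ≠ i0 → u i = v i := fun i hi => if_neg hi
  have htt0 : tt i0 = 0 := if_pos rfl
  have htt : ∀ i, i ≠ i0 → tt i = t i := fun i hi => if_neg hi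
  have hus : u s = 0 := by rw [hu_ne s hs0]; exact hv' s hs0 rfl
  have hreg : ∀ y i, Regular L y (cij L (D y) i s - u i) := by
    intro y i
    by_cases hi : i = i0
    · rw [hi, hu_i0, ← sub_add]
      exact (hu0 y).add (Regular.const _)
    · rw [hu_ne i hi]
      exact t7_reg i0 h0 (hv i hi y)
  have hw : ∀ i, fl (L i) * u i - algebraMap ℂ Fn (φ1 (L i)) * fl (L i1) * u i1 -
      algebraMap ℂ Fn (φ2 (L i)) * fl (L i2) * u i2 = algebraMap ℂ Fn (tt i) * fl (L i0) := by
    intro i
    rw [hu_ne i1 hi1, hu_ne i2 hi2]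
    by_cases hi : i = i0
    · rw [hi, hu_i0, htt0, map_zero]
      linear_combination ht0
    · rw [hu_ne i hi, htt i hi]
      exact ht i hi
  -- the deformation is exact
  have hexact : ∀ i j l, det3 (L i) (L j) (L l) = 0 → ∀ x : ℂ,
      det3 (L i + x • (tt i • L i0)) (L j + x • (tt j • L i0)) (L l + x • (tt l • L i0)) = 0 := by
    intro i j l hijl x
    rw [smul_smul, smul_smul, smul_smul, t7_exp, hijl]
    by_cases hij : i = j
    · subst hij
      rw [t7_eq1]
      have h1 := t7_exp (L i) (L i) (L l) (L i0) (x * tt i) (x * tt i) 0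
      rw [t7_eq1, t7_eq1] at h1
      linear_combination -h1
    by_cases hil : i = l
    · subst hil
      rw [t7_eq2]
      have h1 := t7_exp (L i) (L j) (L i) (L i0) (x * tt i) 0 (x * tt i)
      rw [t7_eq2, t7_eq2] at h1
      linear_combination -h1
    by_cases hjl : j = l
    · subst hjl
      rw [t7_eq3]
      have h1 := t7_exp (L i) (L j) (L j) (L i0) 0 (x * tt j) (x * tt j)
      rw [t7_eq3, t7_eq3] at h1
      linear_combination -h1
    by_cases hi : i = i0
    · subst hi
      rw [htt0, t7_eq1, t7_eq2]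
      ring
    by_cases hj : j = i0
    · subst hj
      rw [htt0, t7_eq1, t7_eq3]
      ring
    by_cases hl : l = i0
    · subst hl
      rw [htt0, t7_eq2, t7_eq3]
      ring
    obtain ⟨α, β, γ, hrel, hα⟩ := t7_comb hijl (hC.ind i j hij) (hC.ind j l hjl)
    obtain ⟨r1, r2⟩ := t7_rel (L i0) hrel
    obtain ⟨q, hq, qi, qj, ql⟩ := t7_point hijl
    have hmain : (α * tt i + β * tt j + γ * tt l) * det3 (L i0) (L j) (L l) = 0 := by
      by_cases hq0 : L i0 ⬝ᵥ q = 0
      · rw [t7_det_zero hq hq0 qj ql, mul_zero]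
      · obtain ⟨w, hqw⟩ := t7_dir hq
        let y : Pt := ⟨q, w, hqw⟩
        have hφ1 : α * φ1 (L i) + β * φ1 (L j) + γ * φ1 (L l) = 0 := by
          have h1 := congrArg φ1 hrel
          simpa only [map_add, map_smul, smul_eq_mul, map_zero] using h1
        have hφ2 : α * φ2 (L i) + β * φ2 (L j) + γ * φ2 (L l) = 0 := by
          have h1 := congrArg φ2 hrel
          simpa only [map_add, map_smul, smul_eq_mul, map_zero] using h1
        have hfl : algebraMap ℂ Fn α * fl (L i) + algebraMap ℂ Fn β * fl (L j) +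
            algebraMap ℂ Fn γ * fl (L l) = 0 := by
          have h1 := congrArg fl hrel
          rw [fl_add, fl_add, fl_smul, fl_smul, fl_smul] at h1
          have h2 : fl (0 : Fin 3 → ℂ) = 0 := by
            have := fl_smul 0 0
            rwa [zero_smul, map_zero, zero_mul] at this
          rw [h1, h2]
        have hφ1' : algebraMap ℂ Fn α * algebraMap ℂ Fn (φ1 (L i)) +
            algebraMap ℂ Fn β * algebraMap ℂ Fn (φ1 (L j)) +
            algebraMap ℂ Fn γ * algebraMap ℂ Fn (φ1 (L l)) = 0 := by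
          rw [← map_mul, ← map_mul, ← map_mul, ← map_add, ← map_add, hφ1, map_zero]
        have hφ2' : algebraMap ℂ Fn α * algebraMap ℂ Fn (φ2 (L i)) +
            algebraMap ℂ Fn β * algebraMap ℂ Fn (φ2 (L j)) +
            algebraMap ℂ Fn γ * algebraMap ℂ Fn (φ2 (L l)) = 0 := by
          rw [← map_mul, ← map_mul, ← map_mul, ← map_add, ← map_add, hφ2, map_zero]
        have hDrel : algebraMap ℂ Fn α * fl (L i) * cij L (D y) i l +
            algebraMap ℂ Fn β * fl (L j) * cij L (D y) j l = 0 := by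
          have h1 := cij_rel hC (D y) (i := i) (j := j) (l := l) (s := l) (a := α) (b := β)
            (c := 0) (e := γ) (by rw [zero_smul, add_zero]; exact hrel)
          rw [map_zero] at h1
          linear_combination h1
        have hti := cij_trans hC (D y) i l s
        have htj := cij_trans hC (D y) j l s
        have hsum : algebraMap ℂ Fn (α * tt i + β * tt j + γ * tt l) * fl (L i0) =
            -(algebraMap ℂ Fn α * (fl (L i) *
                ((cij L (D y) i s - u i) - (cij L (D y) l s - u l))) +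
              algebraMap ℂ Fn β * (fl (L j) *
                ((cij L (D y) j s - u j) - (cij L (D y) l s - u l)))) := by
          have wi := hw i
          have wj := hw j
          have wl := hw l
          rw [map_add, map_add, map_mul, map_mul, map_mul]
          linear_combination -(algebraMap ℂ Fn α) * wi - algebraMap ℂ Fn β * wj -
            algebraMap ℂ Fn γ * wl - fl (L i1) * u i1 * hφ1' - fl (L i2) * u i2 * hφ2' +
            u l * hfl + hDrel - algebraMap ℂ Fn α * fl (L i) * hti -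
            algebraMap ℂ Fn β * fl (L j) * htj
        have hval : Val L y (algebraMap ℂ Fn (α * tt i + β * tt j + γ * tt l)) 0 := by
          have e1 : Val L y (fl (L i) / fl (L i0)) 0 := by
            have h1 := Val.ratio (L := L) (y := y) (l := L i) (l' := L i0) hq0
            have h2 : L i ⬝ᵥ y.q / L i0 ⬝ᵥ y.q = 0 := by
              rw [show L i ⬝ᵥ y.q = 0 from qi, zero_div]
            rwa [h2] at h1
          have e2 : Val L y (fl (L j) / fl (L i0)) 0 := by
            have h1 := Val.ratio (L := L) (y := y) (l := L j) (l' := L i0) hq0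
            have h2 : L j ⬝ᵥ y.q / L i0 ⬝ᵥ y.q = 0 := by
              rw [show L j ⬝ᵥ y.q = 0 from qj, zero_div]
            rwa [h2] at h1
          have g1 := e1.t7_mul_reg ((Regular.const (L := L) (y := y) (-α)).mul
            ((hreg y i).sub (hreg y l)))
          have g2 := e2.t7_mul_reg ((Regular.const (L := L) (y := y) (-β)).mul
            ((hreg y j).sub (hreg y l)))
          have g3 := g1.add g2
          rw [add_zero] at g3
          refine cast (congrArg (fun X => Val L y X 0) ?_) g3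
          rw [map_neg, map_neg]
          field_simp
          linear_combination -hsum
        have hz := (Val.const (L := L) (y := y) (α * tt i + β * tt j + γ * tt l)).unique hval
        rw [hz, zero_mul]
    apply mul_left_cancel₀ hα
    linear_combination x * hmain + x * tt j * r1 + x * tt l * r2
  obtain ⟨g, c', hg⟩ := hR (fun i => tt i • L i0) hexact
  refine zero_fin hC hdet D u hus hreg (fun i => φ1 (L i)) (fun i => φ2 (L i))
    (fun i => φ3 (L i)) (fun i => hφ (L i)) (fun i => tt i • L i0) (fun i => ?_) g c' hg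
  rw [fl_smul]
  exact hw i

end HKR
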