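import Pool.Agent.Lib.HKR.R0
import Pool.Agent.Lib.HKR.R4
import Pool.Agent.Lib.HKR.R5
import Pool.Agent.Lib.HKR.S2
import Pool.Agent.Lib.HKR.T7
/-!
HKR.R6 (the theorem at the level of the plane: FLevel L).
PROOF.  N from exists_alpha (and N ≥ 2).  n ≥ N, a ≠ 0: α with AlphaOK n a α.  Λ := Lam L α ≠ 0.  Let D be LC for FCond.
(1) By fcond_iff (and vo_sect) FCond y D implies TCond (dM) (mM) y (Λ • D): so Λ • D y is LC for TCond (LC of a sum/
    difference: Λ • (D y' - D y)).
(2) dM ≥ 1: interior_beta (β = bet α, facts_of_alpha; mM α S = ⌊Σ_S bet α⌋) gives E0 with TCond y (E0 - Λ • D y).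
    dM = 0: Σ bet α = 0 so bet α = 0, mM = 0, α i ∈ {0,1}; Σ α = (Σ a)/n ≥ 1 (a ≠ 0, n ∣ Σ a): some α i0 = 1.  zero_line
    for i0 with cousin_zero, cousin_line: for i, j ≠ i0 the component line i0 is in XX i j (Tang), so
    cij (Λ • D y) i j is LC for VO 0 0 {line i0} (vo_mono), which is the hypothesis hD'.  E0 as before.
(3) E := Λ⁻¹ • E0, G y := Λ • (E - D y) = E0 - Λ • D y.  TCond y (G y) for all y; for i ≠ j, c' ∈ XX i j:
    cij (G y) i j is LC modulo VO {c'} (fcond_iff, vo_mono; the constant part E0 cancels).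
(4) For i ≠ j and c ∈ XX i j: if c ∉ B: `normal`.  If c ∈ B then (i,j) is tangential: `tangential` (hc, hc' from
    facts_of_alpha).  So VO {c} y (cij (G y) i j) for all c ∈ XX i j; vo_inter: VO (XX i j); fcond_iff: FCond y (E - D y).
-/
open MvPolynomial
namespace HKR
variable {k : ℕ} {L : Fin k → Fin 3 → ℂ}

private theorem r6_tcond (hC : Config L) {n : ℕ} {a : Fin k → ℕ} {α : Fin k → ℚ}
    (h : AlphaOK n a α) {y : Pt} {D : Derivation ℂ Fn Fn} (hF : FCond L n a y D) :
    TCond L (dM n a α) (mM α) y (Lam L α • D) :=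
  fun i j hij => vo_sect hC ((fcond_iff_vo hC h y D).1 hF i j hij)

private theorem r6_lam (hk : 6 ≤ k) (hC : Config L) (α : Fin k → ℚ) : Lam L α ≠ 0 := by
  classical
  unfold Lam
  refine Finset.prod_ne_zero_iff.2 fun i _ => fl_ne_zero ?_
  have : Nontrivial (Fin k) := Fin.nontrivial_iff_two_le.2 (by omega)
  obtain ⟨j, hj⟩ := exists_ne i
  exact (hC.ind i j hj.symm).ne_zero 0

private theorem r6_allC (c : Comp k) : c ∈ allC k := by
  classical
  unfold allC
  cases c with
  | line i => exact Finset.mem_union_left _ (Finset.mem_image_of_mem _ (Finset.mem_univ _))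
  | pt S => exact Finset.mem_union_right _ (Finset.mem_image_of_mem _ (Finset.mem_univ _))

theorem flevel (hk : 6 ≤ k) (hC : Config L) (hR : AffRigid L) : FLevel L := by
  classical
  obtain ⟨N, hN⟩ := exists_alpha k
  refine ⟨max N 2, fun n hn a ha hdvd hane D hD => ?_⟩
  have hn2 : 2 ≤ n := le_trans (le_max_right N 2) hn
  obtain ⟨α, a1, a2, a3, a4, a5, a6⟩ := hN n (le_trans (le_max_left N 2) hn) a ha hdvd
  have h : AlphaOK n a α :=
    ⟨ha, hdvd, a1, a2, a3, fun S => (a4 S).1, fun S => (a4 S).2, a5, a6⟩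
  obtain ⟨f1, f2, f3, f4, f5, f6⟩ := facts_of_alpha h
  have hΛ : Lam L α ≠ 0 := r6_lam hk hC α
  -- (1)
  have hLC : LC L (TCond L (dM n a α) (mM α)) (fun y => Lam L α • D y) := by
    intro y
    obtain ⟨T, hT, hT'⟩ := hD y
    refine ⟨T, hT, fun y' hy' => ?_⟩
    have h1 := r6_tcond hC h (hT' y' hy')
    rwa [smul_sub] at h1
  -- (2)
  have hG : Glob (TCond L (dM n a α) (mM α)) (fun y => Lam L α • D y) := by
    by_cases hd : 1 ≤ dM n a α
    · exact interior_beta hk hC hR (bet α) f1 f2 _ f3 hd _ hLC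
    · have hd0 : dM n a α = 0 := by omega
      have hs0 : ∑ i, bet α i = 0 := by rw [f3, hd0]; simp
      have hb0 : ∀ i, bet α i = 0 := fun i =>
        (Finset.sum_eq_zero_iff_of_nonneg fun i _ => f1 i).1 hs0 i (Finset.mem_univ i)
      have hm0 : mM α = fun _ => 0 := by
        funext S
        unfold mM
        rw [Finset.sum_eq_zero fun i _ => hb0 i]
        simp
      obtain ⟨i0, hi0⟩ : ∃ i0, α i0 = 1 := by
        by_contra hno
        push Not at hno
        have hα : ∀ i, α i = 0 := by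
          intro i
          have h1 := hb0 i
          unfold bet at h1
          rwa [if_neg (hno i)] at h1
        have hs : (∑ i, a i) / n = 0 := by
          have h1 := h.sum
          rw [Finset.sum_eq_zero fun i _ => hα i] at h1
          exact_mod_cast h1.symm
        have hsum : ∑ i, a i = 0 := by
          obtain ⟨q, hq⟩ := hdvd
          rw [hq, Nat.mul_div_cancel_left q (by omega)] at hs
          rw [hq, hs, mul_zero]
        apply hane
        funext i
        exact (Finset.sum_eq_zero_iff.1 hsum) i (Finset.mem_univ i)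
      rw [hd0, hm0, Nat.cast_zero] at hLC ⊢
      refine zero_line hk hC hR i0 (cousin_zero hk hC hR) (cousin_line hk hC hR i0) _ hLC ?_
      intro i j hi hj y
      obtain ⟨T, hT, hT'⟩ := hD y
      refine ⟨T, hT, fun y' hy' => ?_⟩
      by_cases hij : i = j
      · subst hij
        show Sect L 1 _ y' ((cij L (Lam L α • D y') i i - cij L (Lam L α • D y) i i) / fl (L i0))
        rw [cij_self hC, cij_self hC, sub_zero, zero_div]
        exact Sect.zero
      · have h1 := (fcond_iff_vo hC h y' _).1 (hT' y' hy') i j hij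
        have hmem : Comp.line i0 ∈ XX n a α i j := by
          unfold XX
          exact Finset.mem_filter.2 ⟨r6_allC _, hi0, fun _ => ⟨hi, hj⟩⟩
        have h2 := vo_mono hC (Finset.singleton_subset_iff.2 hmem) h1
        unfold VO at h2
        rw [hd0, hm0, smul_sub, cij_sub] at h2
        simp only [Finset.sum_singleton, Finset.prod_singleton, Nat.cast_zero, zero_add, dc, mc,
          lc] at h2
        exact h2
  obtain ⟨E0, hE0⟩ := hG
  have hGT : ∀ y, TCond L (dM n a α) (mM α) y (E0 - Lam L α • D y) := hE0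
  have hGLC : ∀ i j, i ≠ j → ∀ c' ∈ XX n a α i j,
      LC L (VO L (dM n a α) (mM α) {c'}) (fun y => cij L (E0 - Lam L α • D y) i j) := by
    intro i j hij c' hc' y
    obtain ⟨T, hT, hT'⟩ := hD y
    refine ⟨T, hT, fun y' hy' => ?_⟩
    have h1 := (fcond_iff_vo hC h y' _).1 (hT' y' hy') i j hij
    have h2 := vo_neg (vo_mono hC (Finset.singleton_subset_iff.2 hc') h1)
    have e : cij L (E0 - Lam L α • D y') i j - cij L (E0 - Lam L α • D y) i j =
        - cij L (Lam L α • (D y' - D y)) i j := by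
      rw [smul_sub, cij_sub, cij_sub, cij_sub]
      ring
    show VO L _ _ {c'} y' (cij L (E0 - Lam L α • D y') i j - cij L (E0 - Lam L α • D y) i j)
    rw [e]
    exact h2
  have key : ∀ i j, i ≠ j → ∀ y, ∀ c ∈ XX n a α i j,
      VO L (dM n a α) (mM α) {c} y (cij L (E0 - Lam L α • D y) i j) := by
    intro i j hij y c hc
    have hc1 := hc
    unfold XX at hc1
    obtain ⟨-, hc2, hc3⟩ := Finset.mem_filter.1 hc1
    by_cases hB : InB n a c
    · refine tangential hk hC hR (bet α) f1 (dM n a α) f3 (mM α) f4 c ?_ ?_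
        (fun y => E0 - Lam L α • D y) hGT (hc3 hB) (hGLC i j hij c hc) y
      · rintro i rfl
        exact f5 i hc2
      · rintro S rfl
        exact f6 S hc2
    · exact normal hk hC hR h c hc2 hB (fun y => E0 - Lam L α • D y) hGT hGLC i j hij y
  refine ⟨(Lam L α)⁻¹ • E0, fun y => ?_⟩
  rw [fcond_iff_vo hC h]
  intro i j hij
  have e : Lam L α • ((Lam L α)⁻¹ • E0 - D y) = E0 - Lam L α • D y := by
    rw [smul_sub, smul_smul, mul_inv_cancel₀ hΛ, one_smul]
  rw [e]
  exact vo_inter hC (hGT y i j hij) (key i j hij y)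

end HKR
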