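import Pool.Agent.Lib.HKR.T5
/-!
HKR.T6 (degree 0, infinitesimally rigid).  InfRigid and the Cousin theorem for (0;0) imply FZero.
PROOF.  Choose i1, i2, s with det3 ≠ 0 and a, b, c.  cij (D y) i s is LC for Sect 0 0 (TCond): hcous0 gives u i,
with Regular (cij (D y) i s - u i), u s := 0.  w_i := ℓi u_i - a_i ℓ1 u_1 - b_i ℓ2 u_2 is a section of O(H) at all y
(cij_rel; sect_lin), so w_i = fl (lam i) (h0_one).
First-order condition: det3 (lam i) (L j) (L l) + ... = 0 when det3 (L i) (L j) (L l) = 0.  If two indices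
agree it is clear.  Distinct: q ≠ 0 common point, a L i + b L j + c L l = 0 with a, b, c ≠ 0; the sum of
dets is a nonzero multiple of (a lam i + b lam j + c lam l)(q) (e.g. L l = -(a/c) L i - (b/c) L j and
det3 (L i) (L j) x = const * x(q)).  And fl(a lam i + b lam j + c lam l) = a ℓi u_i + b ℓj u_j + c ℓl u_l =
a ℓi (u_i - c_is(D y)) + ... for every y; take y = (q,w):
divided by fl lam0, lam0(q) ≠ 0, this has value 0 at y (ℓi/lam0 has value 0, the other factor is
regular), and it also has value (a lam i + b lam j + c lam l)(q)/lam0(q) (Val.ratio, Val.unique).  So 0.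
InfRigid gives lam i = c' i L i + L i g; zero_fin.
-/
open MvPolynomial
namespace HKR
variable {k : ℕ} {L : Fin k → Fin 3 → ℂ}

private theorem t6_orth (l : Fin 3 → ℂ) : ∃ q : Fin 3 → ℂ, q ≠ 0 ∧ l ⬝ᵥ q = 0 := by
  by_cases h : l 0 = 0
  · refine ⟨![1, 0, 0], fun h0 => ?_, ?_⟩
    · have := congrFun h0 0
      simp at this
    · simp [dotProduct, Fin.sum_univ_three, h]
  · refine ⟨![-l 1, l 0, 0], fun h0 => ?_, ?_⟩
    · have := congrFun h0 1
      simp at this
      exact h this
    · simp [dotProduct, Fin.sum_univ_three]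
      ring

private theorem t6_det (a b c : Fin 3 → ℂ) : det3 a b c = c ⬝ᵥ crossProduct a b := by
  simp only [det3, Matrix.det_fin_three, Matrix.of_apply, Matrix.cons_val, cross_apply, dotProduct,
    Fin.sum_univ_three]
  ring

private theorem t6_three (hC : Config L) : ∃ i1 i2 s : Fin k, det3 (L i1) (L i2) (L s) ≠ 0 := by
  by_cases h : ∃ i j : Fin k, i ≠ j
  · obtain ⟨i, j, hij⟩ := h
    have hc : crossProduct (L i) (L j) ≠ 0 :=
      crossProduct_ne_zero_iff_linearIndependent.2 (hC.ind i j hij)
    have h1 : ∃ s, L s ⬝ᵥ crossProduct (L i) (L j) ≠ 0 := by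
      by_contra h2
      push Not at h2
      exact hc (hC.nonconc _ h2)
    obtain ⟨s, hs⟩ := h1
    exact ⟨i, j, s, by rw [t6_det]; exact hs⟩
  · exfalso
    push Not at h
    by_cases hk : Nonempty (Fin k)
    · obtain ⟨i0⟩ := hk
      obtain ⟨q, hq, hq'⟩ := t6_orth (L i0)
      refine hq (hC.nonconc q fun i => ?_)
      rw [h i i0]
      exact hq'
    · have := hC.nonconc ![1, 0, 0] fun i => (hk ⟨i⟩).elim
      have h1 := congrFun this 0
      simp at h1

private theorem t6_coef {x y z : Fin 3 → ℂ} (h : LinearIndependent ℂ ![x, y, z]) {a b c : ℂ}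
    (e : a • x + b • y + c • z = 0) : a = 0 ∧ b = 0 ∧ c = 0 := by
  rw [Fintype.linearIndependent_iff] at h
  have h1 := h ![a, b, c] (by simpa [Fin.sum_univ_three] using e)
  exact ⟨h1 0, h1 1, h1 2⟩

private theorem t6_span {x y z : Fin 3 → ℂ} (h : det3 x y z ≠ 0) (v : Fin 3 → ℂ) :
    ∃ a b c : ℂ, v = a • x + b • y + c • z := by
  set M : Matrix (Fin 3) (Fin 3) ℂ := Matrix.of ![x, y, z] with hM
  have hu : IsUnit M.det := isUnit_iff_ne_zero.2 h
  set w : Fin 3 → ℂ := Matrix.vecMul v M⁻¹ with hw
  have h1 : Matrix.vecMul w M = v := by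
    rw [hw, Matrix.vecMul_vecMul, Matrix.nonsing_inv_mul _ hu, Matrix.vecMul_one]
  refine ⟨w 0, w 1, w 2, ?_⟩
  rw [← h1]
  funext j
  simp [hM, Matrix.vecMul, dotProduct, Fin.sum_univ_three]

/-- a relation between three distinct concurrent lines -/
private theorem t6_rel (hC : Config L) {i j l : Fin k} (hij : i ≠ j)
    (hd : det3 (L i) (L j) (L l) = 0) :
    ∃ a b c : ℂ, c ≠ 0 ∧ a • L i + b • L j + c • L l = 0 := by
  have hdep : ¬ LinearIndependent ℂ ![L i, L j, L l] := by
    intro h
    have h1 := (Matrix.linearIndependent_rows_iff_isUnit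
      (A := Matrix.of ![L i, L j, L l])).1 h
    rw [Matrix.isUnit_iff_isUnit_det] at h1
    exact h1.ne_zero hd
  rw [Fintype.not_linearIndependent_iff] at hdep
  obtain ⟨g, hg, m, hm⟩ := hdep
  rw [Fin.sum_univ_three] at hg
  simp only [Matrix.cons_val_zero, Matrix.cons_val_one, Matrix.cons_val] at hg
  refine ⟨g 0, g 1, g 2, fun h2 => ?_, hg⟩
  rw [h2, zero_smul, add_zero] at hg
  have h3 := LinearIndependent.pair_iff.1 (hC.ind i j hij) _ _ hg
  apply hm
  fin_cases m
  · exact h3.1
  · exact h3.2
  · exact h2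

theorem fzero (hC : Config L) (hI : InfRigid L)
    (hcous0 : ∀ e : Pt → Fn, LC L (Sect L 0 (fun _ => 0)) e → Glob (Sect L 0 (fun _ => 0)) e) :
    FZero L := by
  classical
  intro D hD
  obtain ⟨i1, i2, s, hdet⟩ := t6_three hC
  choose a b c habc using fun i => t6_span hdet (L i)
  have hli : LinearIndependent ℂ ![L i1, L i2, L s] :=
    Matrix.linearIndependent_rows_of_det_ne_zero (A := Matrix.of ![L i1, L i2, L s]) hdet
  -- the functions `u i`
  have hu0 : ∀ i, ∃ u : Fn, ∀ y, Sect L 0 (fun _ => 0) y (u - cij L (D y) i s) := by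
    intro i
    by_cases his : i = s
    · refine ⟨0, fun y => ?_⟩
      rw [his, cij_self hC, sub_zero]
      exact Sect.zero
    · refine hcous0 (fun y => cij L (D y) i s) fun y => ?_
      obtain ⟨T, hT, hT'⟩ := hD y
      refine ⟨T, hT, fun y' hy' => ?_⟩
      have h := hT' y' hy' i s his
      rwa [cij_sub] at h
  choose u0 hu0 using hu0
  let u : Fin k → Fn := fun i => if i = s then 0 else u0 i
  have hus : u s = 0 := if_pos rfl
  have hu : ∀ y i, Regular L y (cij L (D y) i s - u i) := by
    intro y i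
    by_cases his : i = s
    · rw [his, hus, cij_self hC, sub_zero]
      have h := Regular.const (L := L) (y := y) 0
      simpa using h
    · have h1 : u i = u0 i := if_neg his
      have h2 := (sect_zero_iff.1 (hu0 i y)).neg
      rw [neg_sub] at h2
      rw [h1]
      exact h2
  have hrel : ∀ y i, fl (L i) * cij L (D y) i s - algebraMap ℂ Fn (a i) * fl (L i1) *
      cij L (D y) i1 s - algebraMap ℂ Fn (b i) * fl (L i2) * cij L (D y) i2 s = 0 := by
    intro y i
    have h1 := cij_rel hC (D y) (i := i) (j := i1) (l := i2) (s := s) (a := 1) (b := -a i)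
      (c := -b i) (e := -c i) (by
        rw [habc i]
        module)
    rw [map_one, map_neg, map_neg] at h1
    linear_combination h1
  -- the linear forms `lam i`
  have hlam0 : ∀ i, ∃ lam : Fin 3 → ℂ, fl (L i) * u i - algebraMap ℂ Fn (a i) * fl (L i1) * u i1 -
      algebraMap ℂ Fn (b i) * fl (L i2) * u i2 = fl lam := by
    intro i
    refine h0_one (m := fun _ => 0) hC fun y _ => ?_
    have h1 := (sect_lin (y := y) (L := L) (L i)).mul_reg (hu y i)
    have h2 := (((sect_lin (y := y) (L := L) (L i1)).mul_reg (hu y i1)).smul (a i))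
    have h3 := (((sect_lin (y := y) (L := L) (L i2)).mul_reg (hu y i2)).smul (b i))
    have h4 := ((h1.sub h2).sub h3).neg
    have e := hrel y i
    convert h4 using 1
    linear_combination e
  choose lam hlam using hlam0
  -- the first-order condition
  have hfirst : ∀ i j l, det3 (L i) (L j) (L l) = 0 →
      det3 (lam i) (L j) (L l) + det3 (L i) (lam j) (L l) + det3 (L i) (L j) (lam l) = 0 := by
    intro i j l hd
    by_cases hij : i = j
    · subst hij
      simp only [t6_det, cross_apply, dotProduct, Fin.sum_univ_three, Matrix.cons_val]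
      ring
    by_cases hil : i = l
    · subst hil
      simp only [t6_det, cross_apply, dotProduct, Fin.sum_univ_three, Matrix.cons_val]
      ring
    by_cases hjl : j = l
    · subst hjl
      simp only [t6_det, cross_apply, dotProduct, Fin.sum_univ_three, Matrix.cons_val]
      ring
    obtain ⟨α, β, γ, hγ, hr⟩ := t6_rel hC hij hd
    set q : Fin 3 → ℂ := crossProduct (L i) (L j) with hq
    have hq0 : q ≠ 0 := crossProduct_ne_zero_iff_linearIndependent.2 (hC.ind i j hij)
    have qi : L i ⬝ᵥ q = 0 := by rw [hq]; exact dot_self_cross _ _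
    have qj : L j ⬝ᵥ q = 0 := by rw [hq]; exact dot_cross_self _ _
    have ql : L l ⬝ᵥ q = 0 := by
      have h1 := congrArg (fun v => v ⬝ᵥ q) hr
      simp only [add_dotProduct, smul_dotProduct, zero_dotProduct, qi, qj, smul_eq_mul, mul_zero,
        zero_add] at h1
      exact (mul_eq_zero.1 h1).resolve_left hγ
    -- a point of the blow-up above `q`
    obtain ⟨w, hw⟩ : ∃ w : Fin 3 → ℂ, LinearIndependent ℂ ![q, w] := by
      obtain ⟨m, hm⟩ := Function.ne_iff.1 hq0
      refine ⟨Pi.single (m + 1) 1, ?_⟩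
      rw [LinearIndependent.pair_iff]
      intro s t hst
      have h1 := congrFun hst m
      have h2 : (Pi.single (m + 1) (1 : ℂ) : Fin 3 → ℂ) m = 0 := by
        rw [Pi.single_apply, if_neg]
        fin_cases m <;> decide
      simp only [Pi.add_apply, Pi.smul_apply, smul_eq_mul, h2, mul_zero, add_zero,
        Pi.zero_apply] at h1
      have hs0 : s = 0 := (mul_eq_zero.1 h1).resolve_right hm
      have h3 := congrFun hst (m + 1)
      rw [hs0] at h3
      simp only [zero_smul, Pi.add_apply, Pi.smul_apply, smul_eq_mul, Pi.single_eq_same, mul_one,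
        Pi.zero_apply, zero_add] at h3
      exact ⟨hs0, h3⟩
    let y : Pt := ⟨q, w, hw⟩
    obtain ⟨lam0, hlam0'⟩ : ∃ l0 : Fin 3 → ℂ, l0 ⬝ᵥ q ≠ 0 := by
      obtain ⟨l0, _, _, h1, _⟩ := exists_forms y
      exact ⟨l0, by rw [show l0 ⬝ᵥ q = 1 from h1]; exact one_ne_zero⟩
    have hl0 : fl lam0 ≠ 0 := by
      apply fl_ne_zero
      rintro rfl
      exact hlam0' (zero_dotProduct _)
    set mu : Fin 3 → ℂ := α • lam i + β • lam j + γ • lam l with hmu
    have hcoef : α * a i + β * a j + γ * a l = 0 ∧ α * b i + β * b j + γ * b l = 0 ∧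
        α * c i + β * c j + γ * c l = 0 := by
      refine t6_coef hli ?_
      rw [habc i, habc j, habc l] at hr
      rw [← hr]
      module
    have hmap : ∀ f : Fin k → ℂ, α * f i + β * f j + γ * f l = 0 →
        algebraMap ℂ Fn α * algebraMap ℂ Fn (f i) + algebraMap ℂ Fn β * algebraMap ℂ Fn (f j) +
        algebraMap ℂ Fn γ * algebraMap ℂ Fn (f l) = 0 := by
      intro f hf
      rw [← map_mul, ← map_mul, ← map_mul, ← map_add, ← map_add, hf, map_zero]
    have ha := hmap a hcoef.1
    have hb := hmap b hcoef.2.1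
    have e1 : fl mu = algebraMap ℂ Fn α * fl (L i) * u i + algebraMap ℂ Fn β * fl (L j) * u j +
        algebraMap ℂ Fn γ * fl (L l) * u l := by
      rw [hmu, fl_add, fl_add, fl_smul, fl_smul, fl_smul, ← hlam i, ← hlam j, ← hlam l]
      linear_combination (-fl (L i1) * u i1) * ha + (-fl (L i2) * u i2) * hb
    have e2 := cij_rel hC (D y) (i := i) (j := j) (l := l) (s := s) (a := α) (b := β) (c := γ)
      (e := 0) (by rw [zero_smul, add_zero]; exact hr)
    have hval : ∀ (t : ℂ) (m : Fin k), L m ⬝ᵥ q = 0 →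
        Val L y (algebraMap ℂ Fn t * (fl (L m) / fl lam0) * (cij L (D y) m s - u m)) 0 := by
      intro t m hm
      obtain ⟨c1, hc1⟩ := regular_iff_val.1 (hu y m)
      have h1 := ((Val.const (L := L) (y := y) t).mul (Val.ratio (L := L) (y := y) (l := L m)
        (l' := lam0) hlam0')).mul hc1
      rw [show L m ⬝ᵥ y.q = 0 from hm, zero_div, mul_zero, zero_mul] at h1
      exact h1
    have h5 := ((hval (-α) i qi).add (hval (-β) j qj)).add (hval (-γ) l ql)
    have h6 : fl mu / fl lam0 = algebraMap ℂ Fn (-α) * (fl (L i) / fl lam0) *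
        (cij L (D y) i s - u i) + algebraMap ℂ Fn (-β) * (fl (L j) / fl lam0) *
        (cij L (D y) j s - u j) + algebraMap ℂ Fn (-γ) * (fl (L l) / fl lam0) *
        (cij L (D y) l s - u l) := by
      rw [e1, map_neg, map_neg, map_neg]
      field_simp
      linear_combination e2
    rw [← h6, add_zero, add_zero] at h5
    have h7 := h5.unique (Val.ratio (L := L) (y := y) (l := mu) (l' := lam0) hlam0')
    have h8 : mu ⬝ᵥ q = 0 := by
      rcases div_eq_zero_iff.1 h7.symm with h | h
      · exact h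
      · exact (hlam0' h).elim
    -- the determinants
    have h9 : γ * (det3 (lam i) (L j) (L l) + det3 (L i) (lam j) (L l) + det3 (L i) (L j) (lam l)) =
        mu ⬝ᵥ q := by
      have r0 := congrFun hr 0
      have r1 := congrFun hr 1
      have r2 := congrFun hr 2
      simp only [Pi.add_apply, Pi.smul_apply, smul_eq_mul, Pi.zero_apply] at r0 r1 r2
      rw [hmu, hq]
      simp only [t6_det, cross_apply, dotProduct, Fin.sum_univ_three, Matrix.cons_val,
        Pi.add_apply, Pi.smul_apply, smul_eq_mul]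
      linear_combination (lam i 1 * L j 2 - lam i 2 * L j 1 + L i 1 * lam j 2 - L i 2 * lam j 1) * r0 +
        (lam i 2 * L j 0 - lam i 0 * L j 2 + L i 2 * lam j 0 - L i 0 * lam j 2) * r1 +
        (lam i 0 * L j 1 - lam i 1 * L j 0 + L i 0 * lam j 1 - L i 1 * lam j 0) * r2
    rw [h8] at h9
    exact (mul_eq_zero.1 h9).resolve_left hγ
  obtain ⟨g, c', hg⟩ := hI lam hfirst
  exact zero_fin hC hdet D u hus hu a b c habc lam hlam g c' hg

end HKR
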