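import Pool.Agent.Lib.HKR.CRig
import Pool.Agent.Lib.HKR.K13
import Pool.Agent.Lib.HKR.R6
import Pool.Agent.Lib.HKR.T6
/-!
HKR.FA (stage A: `H¹(S, Θ_S) = 0` for infinitesimally rigid configurations), by helper90.
-/
open MvPolynomial
namespace HKR

theorem fcond_char_zero {k : ℕ} {L : Fin k → Fin 3 → ℂ} {n : ℕ} (hn : 2 ≤ n) :
    FCond L n 0 = TCond L 0 (fun _ => 0) := by
  have h1 : ¬ (1 = n) := by omega
  funext y D
  simp only [FCond, TCond, bl, bS, Pi.zero_apply, Finset.sum_const_zero, Nat.zero_div, zero_add,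
    Nat.zero_mod, if_neg h1, Nat.cast_zero, sub_zero, pow_zero, mul_one, ite_self]

theorem klevel_all {k : ℕ} [NeZero k] {L : Fin k → Fin 3 → ℂ} (hC : Config L)
    {n : ℕ} (hn : 2 ≤ n) (hF : ∀ a : Fin k → ℕ, (∀ i, a i < n) → n ∣ ∑ i, a i → a ≠ 0 →
      ∀ D : Pt → Derivation ℂ Fn Fn, LC L (FCond L n a) D → Glob (FCond L n a) D)
    (h0 : FZero L) (K : Type) [Field K] [Algebra Fn K] [Algebra ℂ K] [IsScalarTower ℂ Fn K]
    {z : Fin k → K} (hz : Kum L n K z) :
    ∀ D : Pt → Derivation ℂ K K, LC L (fun y D => Preserves L y D) D →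
      Glob (fun y D => Preserves L y D) D := by
  refine klevel hC hn hz ?_
  intro a ha hd D hD
  by_cases h : a = 0
  · subst h
    rw [fcond_char_zero hn] at hD ⊢
    exact h0 D hD
  · exact hF a ha hd h D hD

theorem stageA : StageA := by
  intro k L hC hI
  have hk : 6 ≤ k + 6 := by omega
  have hR := affRigid_of_infRigid hI
  obtain ⟨N, hN⟩ := flevel hk hC hR
  refine ⟨max N 2, fun n hn K _ _ _ _ z hz => ?_⟩
  exact klevel_all hC (le_trans (le_max_right _ _) hn) (hN n (le_trans (le_max_left _ _) hn))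
    (fzero hC hI (cousin_zero hk hC hR)) K hz

end HKR
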