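import Pool.Agent.Lib.HKR.P3
/-!
HKR.P4 (one step of making a family equivariant).  G = K ≃ₐ[Fn] K finite.
HYPOTHESIS hKN (non-invariant vanishing): every LC family of derivations A y (mod Preserves) with
 Σ_σ σ∘(A y)∘σ⁻¹ = 0 for all y is Glob.
STATEMENT: DeformT L T φ and Cong m (conjA σ (φ y)) (φ y) for all σ, y (m ≥ 1) imply: there are E, F y with
 Preserves y' (F y) for all y' in U_y, and for φ' y := expA m E * φ y * expA m (-F y):
 Cong (m+1) (conjA σ (φ' y)) (φ' y).
PROOF.  exists_der_cong: conjA σ (φ y) ≡ φ y * expA m (c y σ) mod t^(m+1).  A y := |G|⁻¹ Σ_σ c y σ.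
(1) cocycle: c(στ) = c(σ) + σ c(τ) σ⁻¹ (conjugate the relation for τ by σ, exp_comm/exp_add/exp_unique;
    conjA σ (expA m D) = expA m (σ D σ⁻¹)).  Averaging over τ: A = c(σ) + σ A σ⁻¹ for all σ; averaging over σ:
    Σ_σ σ A σ⁻¹ = 0.
(2) LC: y' ∈ U_y: θ := (φ y')⁻¹ * φ y is Pres at y' (sameAt_iff), φ y = φ y' θ.  Then
    φ y' * conjA σ θ * ... : conjA σ (φ y) = conjA σ (φ y') * conjA σ θ, so modulo t^(m+1):
    φ y' θ exp(c y σ) ≡ φ y' exp(c y' σ) θ_σ, θ exp(c y σ) ≡ exp(c y' σ) θ_σ, θ ≡ θ_σ exp(c y' σ - c y σ) (commute):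
    both θ and θ_σ = conjA σ θ are Pres at y' (Int y' is stable under σ), so preserves_of_cong: c y' σ - c y σ
    preserves Int y'.  So A y' - A y does: LC with neighbourhoods T y.
(3) hKN: E with Preserves y (E - A y) for all y.  F y := E - A y.  For y' ∈ U_y: F y = (E - A y') + (A y' - A y)
    preserves Int y'.
(4) expA m E * φ y * expA m (-F y) ≡ φ y * expA m (E - F y) = φ y * expA m (A y); and
    conjA σ (φ y expA m (A y)) ≡ φ y exp(c y σ) exp(σ A σ⁻¹) ≡ φ y exp(c(σ) + σAσ⁻¹) = φ y exp(A y).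
-/
namespace HKR
variable {K : Type} [Field K] [Algebra ℂ K] [Algebra Fn K] [IsScalarTower ℂ Fn K]
variable {k : ℕ} {L : Fin k → Fin 3 → ℂ}
open PowerSeries

/-- conjugate of a derivation -/
noncomputable def conjD (σ : K ≃ₐ[Fn] K) (D : Derivation ℂ K K) : Derivation ℂ K K where
  toLinearMap := ((σ.toLinearMap.restrictScalars ℂ).comp D.toLinearMap).comp
    (σ.symm.toLinearMap.restrictScalars ℂ)
  map_one_eq_zero' := by simp
  leibniz' a b := by simp

theorem conjD_apply (σ : K ≃ₐ[Fn] K) (D : Derivation ℂ K K) (x : K) :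
    conjD σ D x = σ (D (σ.symm x)) := rfl

/-- non-invariant vanishing -/
def KN (L : Fin k → Fin 3 → ℂ) (K : Type) [Field K] [Algebra ℂ K] [Algebra Fn K]
    [IsScalarTower ℂ Fn K] [Fintype (K ≃ₐ[Fn] K)] : Prop :=
  ∀ A : Pt → Derivation ℂ K K, LC L (fun y D => Preserves L y D) A →
    (∀ y, ∑ σ : K ≃ₐ[Fn] K, conjD σ (A y) = 0) → Glob (fun y D => Preserves L y D) A

private theorem p4_conjD_add (σ : K ≃ₐ[Fn] K) (D D' : Derivation ℂ K K) :
    conjD σ (D + D') = conjD σ D + conjD σ D' := by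
  ext x
  rw [Derivation.add_apply, conjD_apply, conjD_apply, conjD_apply, Derivation.add_apply, map_add]

private theorem p4_conjD_smul (σ : K ≃ₐ[Fn] K) (c : ℂ) (D : Derivation ℂ K K) :
    conjD σ (c • D) = c • conjD σ D := by
  ext x
  rw [Derivation.smul_apply, conjD_apply, conjD_apply, Derivation.smul_apply]
  rw [Algebra.smul_def, Algebra.smul_def, map_mul]
  congr 1
  have h := σ.commutes (algebraMap ℂ Fn c)
  rw [← IsScalarTower.algebraMap_apply] at h
  exact h

private theorem p4_conjD_zero (σ : K ≃ₐ[Fn] K) : conjD σ (0 : Derivation ℂ K K) = 0 := by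
  ext x
  rw [conjD_apply, Derivation.zero_apply, Derivation.zero_apply, map_zero]

private theorem p4_conjD_sum {ι : Type*} (σ : K ≃ₐ[Fn] K) (T : Finset ι)
    (D : ι → Derivation ℂ K K) : conjD σ (∑ i ∈ T, D i) = ∑ i ∈ T, conjD σ (D i) := by
  classical
  induction T using Finset.induction_on with
  | empty => rw [Finset.sum_empty, Finset.sum_empty, p4_conjD_zero]
  | insert a T ha ih => rw [Finset.sum_insert ha, Finset.sum_insert ha, p4_conjD_add, ih]

private theorem p4_conjA_mul (σ : K ≃ₐ[Fn] K) (φ ψ : ArcAut K) :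
    conjA σ (φ * ψ) = conjA σ φ * conjA σ ψ := by
  apply ArcAut.ext'
  apply RingEquiv.ext
  intro f
  rw [ArcAut.mul_apply, conjA_apply, conjA_apply, conjA_apply, ArcAut.mul_apply]
  congr 2
  exact (mapE_symm (σ : K ≃+* K).symm _).symm

private theorem p4_conjA_one (σ : K ≃ₐ[Fn] K) : conjA σ (1 : ArcAut K) = 1 := by
  apply ArcAut.ext'
  apply RingEquiv.ext
  intro f
  rw [conjA_apply, ArcAut.one_apply, ArcAut.one_apply]
  exact mapE_symm _ _

private theorem p4_conjA_conjA (σ τ : K ≃ₐ[Fn] K) (φ : ArcAut K) :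
    conjA (σ * τ) φ = conjA σ (conjA τ φ) := by
  apply ArcAut.ext'
  apply RingEquiv.ext
  intro f
  rw [conjA_apply, conjA_apply, conjA_apply]
  ext n
  rw [coeff_mapE, coeff_mapE, coeff_mapE]
  show σ (τ _) = σ (τ _)
  congr 4

private theorem p4_coeff_conjA (σ : K ≃ₐ[Fn] K) (φ : ArcAut K) (x : K) (j : ℕ) :
    coeff j ((conjA σ φ).toEquiv (C x)) = σ (coeff j (φ.toEquiv (C (σ.symm x)))) := by
  rw [conjA_apply, coeff_mapE, mapE_C]
  rfl

private theorem p4_cong_conjA {m : ℕ} (σ : K ≃ₐ[Fn] K) {φ ψ : ArcAut K} (h : Cong m φ ψ) :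
    Cong m (conjA σ φ) (conjA σ ψ) := by
  intro x j hj
  rw [p4_coeff_conjA, p4_coeff_conjA, h _ j hj]

private theorem p4_iter (σ : K ≃ₐ[Fn] K) (D : Derivation ℂ K K) (r : ℕ) (x : K) :
    (conjD σ D)^[r] x = σ (D^[r] (σ.symm x)) := by
  induction r with
  | zero => exact (σ.apply_symm_apply x).symm
  | succ r ih =>
    rw [Function.iterate_succ_apply', Function.iterate_succ_apply', ih, conjD_apply,
      σ.symm_apply_apply]

private theorem p4_conjA_exp {m : ℕ} (hm : 1 ≤ m) (σ : K ≃ₐ[Fn] K) (D : Derivation ℂ K K) :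
    conjA σ (expA m D) = expA m (conjD σ D) := by
  apply arc_ext
  intro x
  ext n
  rw [p4_coeff_conjA, expA_spec hm, expA_spec hm]
  unfold expS
  rw [coeff_mk, coeff_mk]
  split_ifs with h
  · rw [map_mul, p4_iter]
    congr 1
    have h := σ.commutes (algebraMap ℂ Fn (1 / ((n / m).factorial : ℂ)))
    rw [← IsScalarTower.algebraMap_apply] at h
    exact h
  · exact map_zero _

private theorem p4_int_map {y : Pt} {x : K} (h : Int L y x) (σ : K ≃ₐ[Fn] K) : Int L y (σ x) := by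
  obtain ⟨p, hp, h1, h2⟩ := h
  refine ⟨p, hp, h1, ?_⟩
  have := Polynomial.aeval_algHom_apply (σ : K →ₐ[Fn] K) x p
  rw [h2, map_zero] at this
  exact this

private theorem p4_pres_conjA {y : Pt} {φ : ArcAut K} (h : Pres L y φ) (σ : K ≃ₐ[Fn] K) :
    Pres L y (conjA σ φ) := by
  rw [pres_iff] at h ⊢
  intro x hx n
  rw [p4_coeff_conjA]
  exact p4_int_map (h _ (p4_int_map hx σ.symm) n) σ

private theorem p4_pres_add {y : Pt} {D D' : Derivation ℂ K K} (h : Preserves L y D)
    (h' : Preserves L y D') : Preserves L y (D + D') := by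
  intro x hx
  rw [Derivation.add_apply]
  exact (h x hx).add (h' x hx)

private theorem p4_pres_smul {y : Pt} {D : Derivation ℂ K K} (h : Preserves L y D) (c : ℂ) :
    Preserves L y (c • D) := by
  intro x hx
  rw [Derivation.smul_apply, Algebra.smul_def]
  exact (Int.const c).mul (h x hx)

private theorem p4_pres_sum {ι : Type*} {y : Pt} (T : Finset ι) (D : ι → Derivation ℂ K K)
    (h : ∀ i ∈ T, Preserves L y (D i)) : Preserves L y (∑ i ∈ T, D i) := by
  classical
  induction T using Finset.induction_on with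
  | empty =>
    intro x _
    rw [Finset.sum_empty, Derivation.zero_apply, ← map_zero (algebraMap ℂ K)]
    exact Int.const 0
  | insert a T ha ih =>
    rw [Finset.sum_insert ha]
    exact p4_pres_add (h a (Finset.mem_insert_self _ _))
      (ih fun i hi => h i (Finset.mem_insert_of_mem hi))

theorem step_one [Fintype (K ≃ₐ[Fn] K)] (hKN : KN L K) {T : Pt → Finset Fn} {φ : Pt → ArcAut K}
    (hφ : DeformT L T φ) {m : ℕ} (hm : 1 ≤ m)
    (hc : ∀ y (σ : K ≃ₐ[Fn] K), Cong m (conjA σ (φ y)) (φ y)) :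
    ∃ (E : Derivation ℂ K K) (F : Pt → Derivation ℂ K K),
      (∀ y y', (∀ f ∈ T y, Regular L y' f) → Preserves L y' (F y)) ∧
      ∀ y (σ : K ≃ₐ[Fn] K), Cong (m + 1) (conjA σ (expA m E * φ y * expA m (-F y)))
        (expA m E * φ y * expA m (-F y)) := by
  choose c hcc using fun y σ => exists_der_cong hm (hc y σ)
  -- the cocycle relation
  have hco : ∀ y (σ τ : K ≃ₐ[Fn] K), c y (σ * τ) = c y σ + conjD σ (c y τ) := by
    intro y σ τ
    apply exp_unique hm (ψ := φ y)
    have h1 : Cong (m + 1) (conjA (σ * τ) (φ y)) (φ y * expA m (c y (σ * τ))) := hcc y (σ * τ)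
    have h2 : Cong (m + 1) (conjA (σ * τ) (φ y))
        (φ y * expA m (c y σ) * expA m (conjD σ (c y τ))) := by
      rw [p4_conjA_conjA]
      refine (p4_cong_conjA σ (hcc y τ)).trans ?_
      rw [p4_conjA_mul, p4_conjA_exp hm]
      exact (hcc y σ).mul (Cong.refl _ _)
    refine (h1.symm.trans h2).trans ?_
    rw [mul_assoc]
    exact (Cong.refl _ _).mul (exp_add hm _ _)
  set N : ℂ := (Fintype.card (K ≃ₐ[Fn] K) : ℂ) with hN
  have hN0 : N ≠ 0 := by
    rw [hN]
    exact_mod_cast Fintype.card_ne_zero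
  set A : Pt → Derivation ℂ K K := fun y => N⁻¹ • ∑ σ : K ≃ₐ[Fn] K, c y σ with hA
  have hsum : ∀ y, ∑ σ : K ≃ₐ[Fn] K, c y σ = N • A y := by
    intro y
    rw [hA]
    show _ = N • (N⁻¹ • ∑ σ : K ≃ₐ[Fn] K, c y σ)
    rw [smul_smul, mul_inv_cancel₀ hN0, one_smul]
  have hAc : ∀ y (σ : K ≃ₐ[Fn] K), c y σ + conjD σ (A y) = A y := by
    intro y σ
    have h1 : ∑ τ : K ≃ₐ[Fn] K, c y (σ * τ) = ∑ τ : K ≃ₐ[Fn] K, c y τ :=
      Equiv.sum_comp (Equiv.mulLeft σ) (c y)
    simp only [hco] at h1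
    rw [Finset.sum_add_distrib, Finset.sum_const, Finset.card_univ, ← p4_conjD_sum, hsum,
      p4_conjD_smul, ← Nat.cast_smul_eq_nsmul ℂ, ← smul_add] at h1
    have h2 := congrArg (fun D => N⁻¹ • D) h1
    simp only [smul_smul] at h2
    rwa [← hN, inv_mul_cancel₀ hN0, one_smul, one_smul] at h2
  have hA0 : ∀ y, ∑ σ : K ≃ₐ[Fn] K, conjD σ (A y) = 0 := by
    intro y
    have h1 : ∑ σ : K ≃ₐ[Fn] K, (c y σ + conjD σ (A y)) = N • A y := by
      simp only [hAc]
      rw [Finset.sum_const, Finset.card_univ, ← Nat.cast_smul_eq_nsmul ℂ]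
    rw [Finset.sum_add_distrib, hsum] at h1
    exact add_eq_left.1 h1
  -- local constancy
  have hloc : ∀ y y', (∀ f ∈ T y, Regular L y' f) → ∀ σ : K ≃ₐ[Fn] K,
      Preserves L y' (c y' σ - c y σ) := by
    intro y y' hy σ
    set θ := (φ y')⁻¹ * φ y with hθ
    have hθP : Pres L y' θ := by
      have h1 := (sameAt_iff.1 ((hφ y).2 y' hy)).inv
      rwa [mul_inv_rev, inv_inv] at h1
    have hφθ : φ y = φ y' * θ := by rw [hθ, mul_inv_cancel_left]
    have h1 : Cong (m + 1) (φ y' * (θ * expA m (c y σ)))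
        (φ y' * (conjA σ θ * expA m (c y' σ))) := by
      have e1 : Cong (m + 1) (conjA σ (φ y)) (φ y' * (θ * expA m (c y σ))) := by
        rw [← mul_assoc, ← hφθ]
        exact hcc y σ
      have e2 : Cong (m + 1) (conjA σ (φ y)) (φ y' * (conjA σ θ * expA m (c y' σ))) := by
        rw [hφθ, p4_conjA_mul]
        refine ((hcc y' σ).mul (Cong.refl _ _)).trans ?_
        rw [mul_assoc]
        exact (Cong.refl _ _).mul (exp_comm hm _ _)
      exact e1.symm.trans e2
    have h2 : Cong (m + 1) (θ * expA m (c y σ)) (conjA σ θ * expA m (c y' σ)) := by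
      have := (Cong.refl (m + 1) (φ y')⁻¹).mul h1
      rwa [inv_mul_cancel_left, inv_mul_cancel_left] at this
    have h3 : Cong (m + 1) (conjA σ θ * expA m (c y' σ))
        (conjA σ θ * (expA m (c y' σ - c y σ) * expA m (c y σ))) := by
      refine (Cong.refl _ _).mul ?_
      have := (exp_add hm (c y' σ - c y σ) (c y σ)).symm
      rwa [sub_add_cancel] at this
    have h4 : Cong (m + 1) θ (conjA σ θ * expA m (c y' σ - c y σ)) := by
      have := (h2.trans h3).mul (Cong.refl (m + 1) (expA m (c y σ))⁻¹)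
      rwa [mul_inv_cancel_right, ← mul_assoc, mul_inv_cancel_right] at this
    exact preserves_of_cong hm h4 hθP (p4_pres_conjA hθP σ)
  have hlocA : ∀ y y', (∀ f ∈ T y, Regular L y' f) → Preserves L y' (A y' - A y) := by
    intro y y' hy
    have e1 : A y' - A y = N⁻¹ • ∑ σ : K ≃ₐ[Fn] K, (c y' σ - c y σ) := by
      rw [Finset.sum_sub_distrib, smul_sub]
    rw [e1]
    exact p4_pres_smul (p4_pres_sum _ _ fun σ _ => hloc y y' hy σ) _
  obtain ⟨E, hE⟩ := hKN A (fun y => ⟨T y, (hφ y).1, fun y' hy => hlocA y y' hy⟩) hA0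
  refine ⟨E, fun y => E - A y, ?_, ?_⟩
  · intro y y' hy
    show Preserves L y' (E - A y)
    have e1 : E - A y = (E - A y') + (A y' - A y) := by abel
    rw [e1]
    exact p4_pres_add (hE y') (hlocA y y' hy)
  · intro y σ
    have h1 : Cong (m + 1) (expA m E * φ y * expA m (-(E - A y))) (φ y * expA m (A y)) := by
      refine ((exp_comm hm E (φ y)).mul (Cong.refl _ _)).trans ?_
      rw [mul_assoc]
      refine (Cong.refl _ _).mul ?_
      have := exp_add hm E (-(E - A y))
      rwa [show E + -(E - A y) = A y by abel] at this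
    have h2 : Cong (m + 1) (conjA σ (φ y * expA m (A y))) (φ y * expA m (A y)) := by
      rw [p4_conjA_mul, p4_conjA_exp hm]
      refine ((hcc y σ).mul (Cong.refl _ _)).trans ?_
      rw [mul_assoc]
      refine (Cong.refl _ _).mul ?_
      have := exp_add hm (c y σ) (conjD σ (A y))
      rwa [hAc] at this
    exact ((p4_cong_conjA σ h1).trans h2).trans h1.symm

end HKR
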