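import Pool.Agent.Lib.HKR.K13
import Pool.Agent.Lib.HKR.P4
/-!
HKR.G1 (KN from the F-level theorem for a ≠ 0).  Variant of `klevel` (K13) for derivations without invariant part.
PROOF.  A : LC family, Σ_σ conjD σ (A y) = 0.  Decompose A y (der_decomp): components c y a.  For f ∈ Fn: 0 = Σ_σ σ (A y (σ⁻¹ f)) =
Σ_σ σ (A y f) = Σ_a algebraMap (c y a f) Σ_σ σ(z^a).  For a ≠ 0 in AA: x := Σ_σ σ(z^a) is fixed by G, so x ∈ Fn (kum_galois), and by
kum_aut x = (constant) z^a; if x ≠ 0 then z^a ∈ Fn, contradicting kum_indep (coefficients at a and at 0, zp z 0 = 1).  So x = 0, and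
0 = |G| c y 0 f.  So c y 0 = 0 for all y.
Now repeat the proof of klevel (K13) with E_0 := 0 for a = 0: for a ≠ 0 use hF.
-/
open MvPolynomial
namespace HKR
variable {k : ℕ} {L : Fin k → Fin 3 → ℂ} {n : ℕ} {K : Type} [Field K] [Algebra Fn K]
  [Algebra ℂ K] [IsScalarTower ℂ Fn K] {z : Fin k → K}

private theorem g1_ne [NeZero k] (hC : Config L) : fl (L 0) ≠ 0 := by
  apply fl_ne_zero
  intro h0
  by_cases h : ∃ j : Fin k, j ≠ 0
  · obtain ⟨j, hj⟩ := h
    have h1 := (hC.ind 0 j hj.symm).ne_zero 0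
    exact h1 (by simpa using h0)
  · push Not at h
    have h1 := hC.nonconc (Pi.single 0 1) (fun j => by rw [h j, h0, zero_dotProduct])
    have h2 := congrFun h1 0
    simp at h2

omit [Algebra Fn K] [IsScalarTower ℂ Fn K] in
private theorem g1_sum_apply {ι : Type} (T : Finset ι) (F : ι → Derivation ℂ K K) (x : K) :
    (∑ i ∈ T, F i) x = ∑ i ∈ T, F i x := by
  classical
  induction T using Finset.induction_on with
  | empty => simp
  | insert i T hi ih => rw [Finset.sum_insert hi, Finset.sum_insert hi, Derivation.add_apply, ih]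

private theorem g1_zero_mem (k n : ℕ) (hn : 0 < n) : (0 : Fin k → ℕ) ∈ AA k n := by
  refine Finset.mem_filter.2 ⟨Fintype.mem_piFinset.2 fun i => Finset.mem_range.2 hn, ?_⟩
  simp

omit [Algebra Fn K] [Algebra ℂ K] [IsScalarTower ℂ Fn K] in
private theorem g1_zp_zero (z : Fin k → K) : zp z 0 = 1 := by
  simp [zp]

private theorem g1_avg [NeZero k] [Fintype (K ≃ₐ[Fn] K)] (hC : Config L) (hn : 0 < n)
    (hz : Kum L n K z) {a : Fin k → ℕ} (ha : a ∈ AA k n) (ha0 : a ≠ 0) :
    ∑ σ : K ≃ₐ[Fn] K, σ (zp z a) = 0 := by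
  classical
  have hfd := kum_fin hC hn hz
  have hgal := kum_galois hC hn hz
  have hx : ∀ τ : K ≃ₐ[Fn] K, τ (∑ σ : K ≃ₐ[Fn] K, σ (zp z a)) = ∑ σ : K ≃ₐ[Fn] K, σ (zp z a) := by
    intro τ
    rw [map_sum]
    exact Fintype.sum_equiv (Equiv.mulLeft τ) _ _ (fun σ => rfl)
  obtain ⟨f, hf⟩ : ∃ f : Fn, algebraMap Fn K f = ∑ σ : K ≃ₐ[Fn] K, σ (zp z a) :=
    (IsGalois.mem_range_algebraMap_iff_fixed (F := Fn) (E := K) _).2 hx
  choose χ hχ hχ' using fun σ : K ≃ₐ[Fn] K => kum_aut hC hn hz σ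
  have hxc : ∑ σ : K ≃ₐ[Fn] K, σ (zp z a) =
      algebraMap Fn K (algebraMap ℂ Fn (∑ σ : K ≃ₐ[Fn] K, ∏ i, χ σ i ^ a i)) * zp z a := by
    rw [← IsScalarTower.algebraMap_apply ℂ Fn K, map_sum, Finset.sum_mul]
    exact Finset.sum_congr rfl fun σ _ => hχ' σ a
  have hk := kum_indep hC hn hz (fun b => (if b = a then
      algebraMap ℂ Fn (∑ σ : K ≃ₐ[Fn] K, ∏ i, χ σ i ^ a i) else 0) + (if b = 0 then -f else 0)) (by
    simp only [map_add, add_mul, Finset.sum_add_distrib]
    rw [Finset.sum_eq_single a, Finset.sum_eq_single (0 : Fin k → ℕ)]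
    · rw [if_pos rfl, if_pos rfl, g1_zp_zero, map_neg, hf, ← hxc]
      ring
    · intro b _ hb
      rw [if_neg hb, map_zero, zero_mul]
    · intro h
      exact absurd (g1_zero_mem k n hn) h
    · intro b _ hb
      rw [if_neg hb, map_zero, zero_mul]
    · intro h
      exact absurd ha h) a ha
  simp only [if_true, if_neg ha0, add_zero] at hk
  rw [hxc, hk, map_zero, zero_mul]

private theorem g1_comp_zero [NeZero k] [Fintype (K ≃ₐ[Fn] K)] (hC : Config L) (hn : 0 < n)
    (hz : Kum L n K z) {D : Derivation ℂ K K} (hD : ∑ σ : K ≃ₐ[Fn] K, conjD σ D = 0)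
    {c : (Fin k → ℕ) → Derivation ℂ Fn Fn}
    (hc : ∀ f, D (algebraMap Fn K f) = ∑ a ∈ AA k n, algebraMap Fn K (c a f) * zp z a) :
    c 0 = 0 := by
  classical
  ext f
  have h1 : (∑ σ : K ≃ₐ[Fn] K, conjD σ D) (algebraMap Fn K f) = 0 := by rw [hD]; rfl
  rw [g1_sum_apply] at h1
  have h2 : ∀ σ : K ≃ₐ[Fn] K, conjD σ D (algebraMap Fn K f) =
      ∑ a ∈ AA k n, algebraMap Fn K (c a f) * σ (zp z a) := by
    intro σ
    rw [conjD_apply, AlgEquiv.commutes, hc, map_sum]
    refine Finset.sum_congr rfl fun a _ => ?_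
    rw [map_mul, AlgEquiv.commutes]
  simp only [h2] at h1
  rw [Finset.sum_comm] at h1
  rw [Finset.sum_eq_single (0 : Fin k → ℕ)] at h1
  · rw [← Finset.mul_sum] at h1
    simp only [g1_zp_zero, map_one, Finset.sum_const, Finset.card_univ, nsmul_eq_mul,
      mul_one] at h1
    rcases mul_eq_zero.1 h1 with h3 | h3
    · exact (map_eq_zero _).1 h3
    · exfalso
      have hch : CharZero K := charZero_of_injective_algebraMap (algebraMap ℂ K).injective
      exact Fintype.card_ne_zero (α := K ≃ₐ[Fn] K) (Nat.cast_eq_zero.1 h3)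
  · intro a ha ha0
    rw [← Finset.mul_sum, g1_avg hC hn hz ha ha0, mul_zero]
  · intro h
    exact absurd (g1_zero_mem k n hn) h

theorem kn_of_flevel [NeZero k] [Fintype (K ≃ₐ[Fn] K)] (hC : Config L) (hn : 2 ≤ n)
    (hz : Kum L n K z)
    (hF : ∀ a : Fin k → ℕ, (∀ i, a i < n) → n ∣ ∑ i, a i → a ≠ 0 →
      ∀ D : Pt → Derivation ℂ Fn Fn, LC L (FCond L n a) D → Glob (FCond L n a) D) :
    KN L K := by
  classical
  intro D hLC hav
  have hn' : 0 < n := by omega
  have := kum_fin hC hn' hz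
  have hl0 := g1_ne hC
  choose c hc using fun y => der_decomp hC hn' hz (D y)
  have hc0 : ∀ y, c y 0 = 0 := fun y => g1_comp_zero hC hn' hz (hav y) (hc y)
  have hcancel : ∀ (a : Fin k → ℕ) (x : Fn),
      fl (L 0) ^ (dd n a) * (fl (L 0) ^ (-(dd n a)) * x) = x := by
    intro a x
    rw [← mul_assoc, ← zpow_add₀ hl0, add_neg_cancel, zpow_zero, one_mul]
  have claim : ∀ a : Fin k → ℕ, ∃ Ea : Derivation ℂ Fn Fn, a ∈ AA k n → ∀ y,
      FCond L n a y (Ea - fl (L 0) ^ (-(dd n a)) • c y a) := by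
    intro a
    by_cases ha : a ∈ AA k n
    · by_cases ha0 : a = 0
      · subst ha0
        refine ⟨0, fun _ y => ?_⟩
        rw [hc0, smul_zero, sub_zero]
        refine (eig_preserves hC hn hz ha (E := 0) ?_).1 ?_
        · intro f
          simp
        · intro x _
          rw [smul_zero, Derivation.zero_apply]
          have h0 : Int L y (algebraMap ℂ K 0) := Int.const 0
          rwa [map_zero] at h0
      have ha1 : ∀ i, a i < n := fun i =>
        Finset.mem_range.1 (Fintype.mem_piFinset.1 (Finset.mem_filter.1 ha).1 i)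
      have ha2 : n ∣ ∑ i, a i := (Finset.mem_filter.1 ha).2
      obtain ⟨Ea, hEa⟩ := hF a ha1 ha2 ha0 (fun y => fl (L 0) ^ (-(dd n a)) • c y a) (by
        intro y
        obtain ⟨T, hT, hT'⟩ := hLC y
        refine ⟨T, hT, fun y' hy' => ?_⟩
        have hP := hT' y' hy'
        obtain ⟨E1, hE1⟩ := exists_ext (K := K) (c y' a - c y a)
        have hP2 : Preserves L y' (zp z a • E1) := by
          refine comp_preserves hC hn hz (D := D y' - D y) (c := fun b => c y' b - c y b)
            ?_ hP ha hE1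
          intro f
          rw [Derivation.sub_apply, hc, hc, ← Finset.sum_sub_distrib]
          refine Finset.sum_congr rfl fun b _ => ?_
          rw [Derivation.sub_apply, map_sub]
          ring
        refine (eig_preserves hC hn hz ha (E := E1) ?_).1 hP2
        intro f
        rw [hE1, Derivation.sub_apply, Derivation.sub_apply, Derivation.smul_apply,
          Derivation.smul_apply, smul_eq_mul, smul_eq_mul, mul_sub, hcancel, hcancel])
      exact ⟨Ea, fun _ => hEa⟩
    · exact ⟨0, fun h => absurd h ha⟩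
  choose Ea hEa using claim
  choose X hX using fun a => exists_ext (K := K) (fl (L 0) ^ (dd n a) • Ea a)
  refine ⟨∑ a ∈ AA k n, zp z a • X a, fun y => ?_⟩
  choose Z hZ using fun a => exists_ext (K := K)
    (fl (L 0) ^ (dd n a) • (Ea a - fl (L 0) ^ (-(dd n a)) • c y a))
  have h1 : (∑ a ∈ AA k n, zp z a • X a) - D y = ∑ a ∈ AA k n, zp z a • Z a := by
    apply ext_unique
    intro f
    rw [Derivation.sub_apply, g1_sum_apply, g1_sum_apply, hc, ← Finset.sum_sub_distrib]
    refine Finset.sum_congr rfl fun a _ => ?_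
    rw [Derivation.smul_apply, Derivation.smul_apply, hX, hZ, smul_eq_mul, smul_eq_mul,
      Derivation.smul_apply, Derivation.smul_apply, Derivation.sub_apply, Derivation.smul_apply,
      smul_eq_mul, smul_eq_mul, smul_eq_mul, mul_sub, hcancel, map_sub]
    ring
  show Preserves L y ((∑ a ∈ AA k n, zp z a • X a) - D y)
  rw [h1]
  intro x hx
  rw [g1_sum_apply]
  refine Int.sum _ _ fun a ha => ?_
  refine (eig_preserves hC hn hz ha (D := Ea a - fl (L 0) ^ (-(dd n a)) • c y a)
    (E := Z a) ?_).2 (hEa a ha y) x hx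
  intro f
  rw [hZ, Derivation.smul_apply, smul_eq_mul]

end HKR
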