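import Pool.Agent.Lib.HKR.BDefs

/-!
HKR, part F (vector fields on the plane, level of the function field of the plane).
Definitions, by helper90.
-/

open MvPolynomial

namespace HKR

/-- `c_ij(D) = D(ℓᵢ/ℓⱼ)/(ℓᵢ/ℓⱼ)` -/
noncomputable def cij {k : ℕ} (L : Fin k → Fin 3 → ℂ) (D : Derivation ℂ Fn Fn) (i j : Fin k) : Fn :=
  D (fl (L i) / fl (L j)) / (fl (L i) / fl (L j))

/-- `D` is a section of `T(-M)` at `y`, `M = (d; m)` -/
def TCond {k : ℕ} (L : Fin k → Fin 3 → ℂ) (d : ℤ) (m : Finset (Fin k) → ℤ) (y : Pt)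
    (D : Derivation ℂ Fn Fn) : Prop :=
  ∀ i j, i ≠ j → Sect L d m y (cij L D i j)

/-- 1 if the exponent `a i` is `n - 1` -/
def bl {k : ℕ} (n : ℕ) (a : Fin k → ℕ) (i : Fin k) : ℕ := if a i + 1 = n then 1 else 0

/-- 1 if the exponent along the exceptional curve of a point with lines `S` is `n - 1` -/
def bS {k : ℕ} (n : ℕ) (a : Fin k → ℕ) (S : Finset (Fin k)) : ℕ :=
  if (∑ i ∈ S, a i) % n + 1 = n then 1 else 0

/-- the sheaf `F_χ` at `y` (see section 1 of the paper): `c_ij(D) ∈ O(-L_χ + B_ij)_y` -/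
def FCond {k : ℕ} (L : Fin k → Fin 3 → ℂ) (n : ℕ) (a : Fin k → ℕ) (y : Pt)
    (D : Derivation ℂ Fn Fn) : Prop :=
  ∀ i j, i ≠ j →
    Sect L ((((∑ l, a l) / n : ℕ) : ℤ) - bl n a i - bl n a j)
      (fun S => (((∑ l ∈ S, a l) / n : ℕ) : ℤ) - (if i ∈ S then (bl n a i : ℤ) else 0)
        - (if j ∈ S then (bl n a j : ℤ) else 0)
        + (if i ∈ S ∧ j ∈ S then 0 else (bS n a S : ℤ)))
      y (cij L D i j * fl (L i) ^ (bl n a i) * fl (L j) ^ (bl n a j))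

/-- the theorem at the level of the plane, for all characters `a ≠ 0` -/
def FLevel {k : ℕ} (L : Fin k → Fin 3 → ℂ) : Prop :=
  ∃ N : ℕ, ∀ n ≥ N, ∀ a : Fin k → ℕ, (∀ i, a i < n) → n ∣ ∑ i, a i → a ≠ 0 →
    ∀ D : Pt → Derivation ℂ Fn Fn, LC L (FCond L n a) D → Glob (FCond L n a) D

/-- the trivial character: `H¹(Y, Θ(-log)) = 0` -/
def FZero {k : ℕ} (L : Fin k → Fin 3 → ℂ) : Prop :=
  ∀ D : Pt → Derivation ℂ Fn Fn, LC L (TCond L 0 (fun _ => 0)) D →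
    Glob (TCond L 0 (fun _ => 0)) D

end HKR
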