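import Pool.Agent.Lib.HKR.B3
import Pool.Agent.Lib.HKR.FDefs

/-!
HKR, part K (Kummer level: eigen-decomposition of the derivations of `K`).  Definitions, by helper26.
-/

open MvPolynomial

namespace HKR

/-- the exponent vectors (characters of the Galois group of `K/Fn`) -/
def AA (k n : ℕ) : Finset (Fin k → ℕ) :=
  (Fintype.piFinset fun _ => Finset.range n).filter (fun a => n ∣ ∑ i, a i)

/-- the eigenvector `z^a` -/
noncomputable def zp {k : ℕ} {K : Type} [Field K] (z : Fin k → K) (a : Fin k → ℕ) : K :=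
  ∏ i, z i ^ a i

/-- `(z^a)^n`, an element of `Fn` -/
noncomputable def pw {k : ℕ} [NeZero k] (L : Fin k → Fin 3 → ℂ) (a : Fin k → ℕ) : Fn :=
  ∏ i, (fl (L i) / fl (L 0)) ^ a i

/-- the local condition on a derivation `D` at `y`, with local coordinates `s`, `t` up to
constants: `D` preserves the local ring; if `s = 0` (resp. `t = 0`) is a branch curve and the
exponent `e` (resp. `f`) is not `n - 1`, `D` is tangent to it -/
def LCond {k : ℕ} (L : Fin k → Fin 3 → ℂ) (y : Pt) (s t : Fn) (bs bt : Prop) (n e f : ℕ)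
    (D : Derivation ℂ Fn Fn) : Prop :=
  Regular L y (D s) ∧ Regular L y (D t) ∧ (bs → e + 1 ≠ n → Regular L y (D s / s)) ∧
    (bt → f + 1 ≠ n → Regular L y (D t / t))

/-- normalised eigenvectors `z^c h_c` at `y`: their `n`-th powers are `unit * s^(al c) * t^(be c)`
with exponents in `[0, n - 1]`, `al c = 0` unless `s = 0` is a branch curve (`bs`), same for `t` -/
structure LocData {k : ℕ} [NeZero k] (L : Fin k → Fin 3 → ℂ) (n : ℕ) (y : Pt) (s t : Fn)
    (a b : ℂ) (bs bt : Prop) (al be : (Fin k → ℕ) → ℕ) (h : (Fin k → ℕ) → Fn) : Prop where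
  coord : Coord s t
  reg : ∀ f, Regular L y f ↔ RLoc s t a b f
  hne : ∀ c, h c ≠ 0
  pow : ∀ c ∈ AA k n, ∃ (ep : Fn) (e : ℂ), Val L y ep e ∧ e ≠ 0 ∧
    pw L c * h c ^ n = ep * s ^ al c * t ^ be c
  lt : ∀ c ∈ AA k n, al c < n ∧ be c < n
  nbs : ¬ bs → ∀ c ∈ AA k n, al c = 0
  nbt : ¬ bt → ∀ c ∈ AA k n, be c = 0
  exs : bs → ∃ c ∈ AA k n, al c = 1 ∧ be c = 0
  ext : bt → ∃ c ∈ AA k n, al c = 0 ∧ be c = 1

end HKR
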