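import Pool.Agent.Lib.HKR.MDefs
import Pool.Agent.Lib.HKR.KDefs

/-!
HKR, part G (from the plane to the surface for formal arcs).  Definitions, by helper26.
-/

open MvPolynomial

namespace HKR

/-- at `y` the coordinates `s`, `t` are ratios of lines and every ratio of lines is a unit times a
monomial in the branch coordinates -/
def LocM {k : ℕ} (L : Fin k → Fin 3 → ℂ) (y : Pt) (s t : Fn) (bs bt : Prop) : Prop :=
  (∃ i j, s = fl (L i) / fl (L j)) ∧ (∃ i j, t = fl (L i) / fl (L j)) ∧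
    ∀ i j, ∃ (ep : Fn) (e : ℂ) (p q : ℤ), Val L y ep e ∧ e ≠ 0 ∧
      fl (L i) / fl (L j) = ep * s ^ p * t ^ q ∧ (p ≠ 0 → bs) ∧ (q ≠ 0 → bt)

end HKR
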