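import Pool.Agent.Lib.HKR.K6
import Pool.Agent.Lib.HKR.P4
import Pool.Agent.Lib.HKR.GDefs
/-!
HKR.G2 (restriction to Fn and extension to K of arcs of automorphisms).
arc_unique: τ := ψ⁻¹ * φ fixes C (algebraMap x).  By induction Cong m τ 1 for all m ≥ 1 (cong_one_all): exists_der_cong: D with
Cong (m+1) τ (1 * expA m D); coeff_mul_exp: D x = coeff m (τ (C x)), = 0 on Fn (m ≥ 1); so D = 0 (ext_unique), expA m 0 = 1
(arc_ext, expA_spec).  eq_of_cong.
arc_restrict: K/Fn Galois.  For x ∈ Fn, from conjA σ φ = φ: σ (coeff j (φ (C (algebraMap x)))) = coeff j (φ (C (algebraMap x))) for all σ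
(conjA_apply, mapE_C, σ.symm fixes algebraMap x), so the coefficient is in Fn.  This gives a ring hom h : Fn → Fn[[t]]
(liftP injective) with constant coefficient x and h c = C c; exists_ofHom for Fn.  For f : PowerSeries Fn compare coefficients (coeff_app
for φ and η).
arc_extend: η ∈ ArcAut Fn.  By recursion (exists_der_cong): η_1 = 1, η_(m+1) = η_m * expA m D_m with Cong (m+1) η η_(m+1).  E_m := extension of D_m
to K (exists_ext), φ_1 = 1, φ_(m+1) = φ_m * expA m E_m; Cong m φ_(m+1) φ_m (exp_cong); exists_limit: φ.  expA m E_m (liftP f) = liftP (expA m D_m f) (on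
constants: expS; then coeff_app), so φ_m (liftP f) = liftP (η_m f), and in the limit φ (liftP f) = liftP (η f).
Equivariance: conjA σ φ and φ both satisfy this on C (algebraMap x) (σ fixes Fn), so they agree by arc_unique.
-/

namespace HKR
variable {K : Type} [Field K] [Algebra ℂ K] [Algebra Fn K] [IsScalarTower ℂ Fn K]
open PowerSeries

private theorem g2_exp_zero {m : ℕ} (hm : 1 ≤ m) :
    Cong (m + 1) (expA m (0 : Derivation ℂ K K)) 1 := by
  intro x j hj
  rcases Nat.lt_succ_iff_lt_or_eq.1 hj with h | h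
  · exact exp_cong hm 0 x j h
  · subst h
    rw [coeff_exp hm, ArcAut.one_apply, coeff_C, if_neg (by omega)]
    rfl

private theorem g2_coeff_liftP (f : PowerSeries Fn) (n : ℕ) :
    coeff n (liftP K f) = algebraMap Fn K (coeff n f) := by
  unfold liftP
  rw [PowerSeries.coeff_map]

private theorem g2_liftP_C (x : Fn) : liftP K (C x) = C (algebraMap Fn K x) := by
  unfold liftP
  rw [PowerSeries.map_C]

private theorem g2_liftP_inj {f g : PowerSeries Fn} (h : liftP K f = liftP K g) : f = g := by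
  ext n
  have h1 := congrArg (coeff n) h
  rw [g2_coeff_liftP, g2_coeff_liftP] at h1
  exact (algebraMap Fn K).injective h1

private theorem g2_ext {φ : ArcAut K} {η : ArcAut Fn}
    (h : ∀ x : Fn, φ.toEquiv (C (algebraMap Fn K x)) = liftP K (η.toEquiv (C x)))
    (f : PowerSeries Fn) : φ.toEquiv (liftP K f) = liftP K (η.toEquiv f) := by
  ext n
  rw [coeff_app, g2_coeff_liftP, coeff_app, map_sum]
  refine Finset.sum_congr rfl fun p _ => ?_
  rw [g2_coeff_liftP, h, g2_coeff_liftP]

private theorem g2_mapE_liftP (σ : K ≃ₐ[Fn] K) (f : PowerSeries Fn) :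
    mapE (σ : K ≃+* K) (liftP K f) = liftP K f := by
  ext n
  rw [coeff_mapE, g2_coeff_liftP]
  exact σ.commutes _

private theorem g2_mapE_symm_C (σ : K ≃ₐ[Fn] K) (x : Fn) :
    mapE (σ : K ≃+* K).symm (C (algebraMap Fn K x)) = C (algebraMap Fn K x) := by
  rw [mapE_C]
  congr 1
  exact σ.symm.commutes x

theorem arc_unique [FiniteDimensional Fn K] {φ ψ : ArcAut K}
    (h : ∀ x : Fn, φ.toEquiv (C (algebraMap Fn K x)) = ψ.toEquiv (C (algebraMap Fn K x))) :
    φ = ψ := by
  have hτ : ∀ x : Fn, (ψ⁻¹ * φ).toEquiv (C (algebraMap Fn K x)) = C (algebraMap Fn K x) := by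
    intro x
    rw [ArcAut.mul_apply, h, ← ArcAut.mul_apply, inv_mul_cancel, ArcAut.one_apply]
  have key : ∀ m, Cong m (ψ⁻¹ * φ) 1 := by
    intro m
    induction m with
    | zero => exact fun x j hj => absurd hj (Nat.not_lt_zero j)
    | succ m ih =>
      rcases Nat.eq_zero_or_pos m with h0 | hm
      · subst h0
        exact cong_one_all _ _
      · obtain ⟨D, hD⟩ := exists_der_cong hm ih
        have hD0 : D = 0 := by
          refine ext_unique fun x => ?_
          have h1 := hD (algebraMap Fn K x) m (Nat.lt_succ_self m)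
          rw [hτ, coeff_mul_exp hm, ArcAut.one_apply, coeff_C, if_neg (by omega), zero_add] at h1
          exact h1.symm
        rw [hD0, one_mul] at hD
        exact hD.trans (g2_exp_zero hm)
  have h1 := eq_of_cong key
  exact (inv_mul_eq_one.1 h1).symm

theorem arc_restrict [FiniteDimensional Fn K] [IsGalois Fn K] {φ : ArcAut K}
    (h : ∀ σ : K ≃ₐ[Fn] K, conjA σ φ = φ) :
    ∃ η : ArcAut Fn, ∀ f, φ.toEquiv (liftP K f) = liftP K (η.toEquiv f) := by
  have h1 : ∀ (x : Fn) (j : ℕ), ∃ c : Fn,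
      algebraMap Fn K c = coeff j (φ.toEquiv (C (algebraMap Fn K x))) := by
    intro x j
    have h2 : coeff j (φ.toEquiv (C (algebraMap Fn K x))) ∈ (⊥ : IntermediateField Fn K) := by
      rw [IsGalois.mem_bot_iff_fixed]
      intro σ
      have h3 : (conjA σ φ).toEquiv (C (algebraMap Fn K x)) =
          φ.toEquiv (C (algebraMap Fn K x)) := by rw [h σ]
      rw [conjA_apply, g2_mapE_symm_C] at h3
      have h4 := congrArg (coeff j) h3
      rw [coeff_mapE] at h4
      exact h4
    exact IntermediateField.mem_bot.1 h2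
  have h2 : ∀ x : Fn, ∃ u : PowerSeries Fn, liftP K u = φ.toEquiv (C (algebraMap Fn K x)) := by
    intro x
    choose c hc using h1 x
    refine ⟨PowerSeries.mk c, ?_⟩
    ext j
    rw [g2_coeff_liftP, coeff_mk, hc]
  choose g hg using h2
  have hlift_add : ∀ u v : PowerSeries Fn, liftP K (u + v) = liftP K u + liftP K v :=
    fun u v => map_add _ u v
  have hlift_mul : ∀ u v : PowerSeries Fn, liftP K (u * v) = liftP K u * liftP K v :=
    fun u v => map_mul _ u v
  have hlift_one : liftP K (1 : PowerSeries Fn) = 1 := map_one _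
  have hlift_zero : liftP K (0 : PowerSeries Fn) = 0 := map_zero _
  let H : Fn →+* PowerSeries Fn :=
    { toFun := g
      map_one' := g2_liftP_inj (K := K) (by
        rw [hg, hlift_one, map_one, map_one, map_one])
      map_zero' := g2_liftP_inj (K := K) (by
        rw [hg, hlift_zero, map_zero, map_zero, map_zero])
      map_add' := fun x y => g2_liftP_inj (K := K) (by
        rw [hlift_add, hg, hg, hg, map_add, map_add, map_add])
      map_mul' := fun x y => g2_liftP_inj (K := K) (by
        rw [hlift_mul, hg, hg, hg, map_mul, map_mul, map_mul]) }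
  have hH : ∀ x, H x = g x := fun _ => rfl
  obtain ⟨η, hη⟩ := exists_ofHom H (by
    intro x
    apply (algebraMap Fn K).injective
    rw [hH, ← coeff_zero_eq_constantCoeff_apply, ← g2_coeff_liftP, hg,
      coeff_zero_eq_constantCoeff_apply, φ.map_zero, constantCoeff_C]) (by
    intro c
    apply g2_liftP_inj (K := K)
    rw [hH, hg, g2_liftP_C, ← IsScalarTower.algebraMap_apply, φ.map_C])
  refine ⟨η, g2_ext fun x => ?_⟩
  rw [hη, hH, hg]

private theorem g2_expA {m : ℕ} (hm : 1 ≤ m) {D : Derivation ℂ Fn Fn} {E : Derivation ℂ K K}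
    (hE : ∀ f, E (algebraMap Fn K f) = algebraMap Fn K (D f)) (f : PowerSeries Fn) :
    (expA m E).toEquiv (liftP K f) = liftP K ((expA m D).toEquiv f) := by
  refine g2_ext (fun x => ?_) f
  rw [expA_spec hm, expA_spec hm]
  ext j
  rw [g2_coeff_liftP]
  unfold expS
  rw [coeff_mk, coeff_mk]
  have hit : ∀ n : ℕ, E^[n] (algebraMap Fn K x) = algebraMap Fn K (D^[n] x) := by
    intro n
    induction n with
    | zero => rfl
    | succ n ih => rw [Function.iterate_succ_apply', ih, hE, Function.iterate_succ_apply']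
  split_ifs
  · rw [hit, map_mul, ← IsScalarTower.algebraMap_apply]
  · rw [map_zero]

theorem arc_extend [FiniteDimensional Fn K] (η : ArcAut Fn) :
    ∃ φ : ArcAut K, (∀ f, φ.toEquiv (liftP K f) = liftP K (η.toEquiv f)) ∧
      ∀ σ : K ≃ₐ[Fn] K, conjA σ φ = φ := by
  let S : ℕ → Type := fun n => {p : ArcAut Fn × ArcAut K //
    Cong (n + 1) η p.1 ∧ ∀ f, p.2.toEquiv (liftP K f) = liftP K (p.1.toEquiv f)}
  have hstep : ∀ (n : ℕ) (p : S n), ∃ p' : S (n + 1), Cong (n + 1) p'.1.2 p.1.2 := by
    intro n p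
    obtain ⟨D, hD⟩ := exists_der_cong (Nat.succ_le_succ (Nat.zero_le n)) p.2.1
    obtain ⟨E, hE⟩ := exists_ext (K := K) D
    refine ⟨⟨(p.1.1 * expA (n + 1) D, p.1.2 * expA (n + 1) E), hD, fun f => ?_⟩, ?_⟩
    · show (p.1.2 * expA (n + 1) E).toEquiv (liftP K f) =
        liftP K ((p.1.1 * expA (n + 1) D).toEquiv f)
      rw [ArcAut.mul_apply, ArcAut.mul_apply, g2_expA (Nat.succ_le_succ (Nat.zero_le n)) hE,
        p.2.2]
    · have h1 := (Cong.refl (n + 1) p.1.2).mul
        (exp_cong (Nat.succ_le_succ (Nat.zero_le n)) E)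
      rw [mul_one] at h1
      exact h1
  choose F hF using hstep
  let u : (n : ℕ) → S n :=
    fun n => Nat.rec ⟨(1, 1), cong_one_all _ _, fun f => rfl⟩ (fun n p => F n p) n
  have hu : ∀ n, Cong (n + 1) (u (n + 1)).1.2 (u n).1.2 := fun n => hF n (u n)
  obtain ⟨ψ, hψ⟩ := exists_limit (fun n => (u n).1.2) fun n => (hu n).mono (Nat.le_succ n)
  have h1 : ∀ f, ψ.toEquiv (liftP K f) = liftP K (η.toEquiv f) := by
    refine g2_ext fun x => ?_
    ext j
    rw [hψ (j + 1) (algebraMap Fn K x) j (Nat.lt_succ_self j), ← g2_liftP_C, (u (j + 1)).2.2,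
      g2_coeff_liftP, g2_coeff_liftP, (u (j + 1)).2.1 x j (by omega)]
  refine ⟨ψ, h1, fun σ => ?_⟩
  refine arc_unique fun x => ?_
  rw [conjA_apply, g2_mapE_symm_C, ← g2_liftP_C, h1, g2_mapE_liftP]

end HKR
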