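import Pool.Agent.Lib.HKR.G5
/-!
HKR.G6 (local criterion, converse).  φ : ArcAut K equivariant, restricting to η : ArcAut Fn.  Assume LogA L y η.
reg_arc_of_logA: LocData + LocM at y; s, t are ratios of lines, so η (C s) = (η (C s) * C s⁻¹) * C s is RegS (s regular: psi X_0), same for t.  f regular: f psi Q = psi P,
Q(a,b) ≠ 0 (hd.reg).  η (C (psi P)) = P(η (C s), η (C t)) (η ring hom, C (algebraMap c) fixed) is RegS (induction on P); η (C (psi Q)) is RegS with constant
coefficient psi Q of value Q(a,b) ≠ 0 (psi Q and (psi Q)⁻¹ are regular, so its value is ≠ 0: Val.mul, Val.unique); RegS.inv.  η (C f) = η (C (psi P)) * (η (C (psi Q)))⁻¹.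
pres_of_logA: a ∈ AA, g = ep s^(al a) t^(be a): η (C g) * C g⁻¹ is RegS: ep: η (C ep) RegS and C ep⁻¹; s, t: LogA (ratios of lines).  W := V * η (C (h a)) * C (h a)⁻¹ (V from eig_arc)
satisfies W^n = η (C g) * C g⁻¹, constant coefficient 1: RegS.root: RegS W.  φ (C ζ_a) = C ζ_a * liftP W.
x integral: x = Σ_a algebraMap (f_a) * ζ_a, f_a regular (kum_span, int_eigen with T = AA, e = id, eig_int; as in K8).  φ (C x) = Σ_a liftP (η (C f_a) * W_a) * C ζ_a, coefficients
Σ_a algebraMap (regular) * ζ_a: integral (eig_int, Int.sum).  So φ maps Int y constants into IntS y: pres_iff.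
-/
open MvPolynomial
namespace HKR
variable {k : ℕ} [NeZero k] {L : Fin k → Fin 3 → ℂ} {n : ℕ} {K : Type} [Field K] [Algebra Fn K]
  [Algebra ℂ K] [IsScalarTower ℂ Fn K] {z : Fin k → K} {y : Pt}

private theorem g6_liftP_mul (f g : PowerSeries Fn) : liftP K (f * g) = liftP K f * liftP K g := by
  simp [liftP]

private theorem g6_liftP_C (f : Fn) :
    liftP K (PowerSeries.C f) = PowerSeries.C (algebraMap Fn K f) := by
  simp [liftP]

private theorem g6_coeff (m : ℕ) (f : PowerSeries Fn) :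
    PowerSeries.coeff m (liftP K f) = algebraMap Fn K (PowerSeries.coeff m f) := by
  simp [liftP]

omit [NeZero k] in
private theorem g6_C {f : Fn} (h : Regular L y f) : RegS L y (PowerSeries.C f) := RegS.C h

theorem reg_arc_of_logA (hC : Config L) {η : ArcAut Fn} (hL : LogA L y η) {f : Fn}
    (hf : Regular L y f) : RegS L y (η.toEquiv (PowerSeries.C f)) :=
  regS_of_logA hC hL (regS_C hf)

private theorem g6_sx {s t : Fn} (hc : Coord s t) : s ≠ 0 := by
  intro h0
  have h1 : psi s t (X 0) = 0 := by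
    rw [psi, MvPolynomial.aeval_X]; simpa using h0
  exact MvPolynomial.X_ne_zero (R := ℂ) (0 : Fin 2) (hc.inj _ h1)

private theorem g6_tx {s t : Fn} (hc : Coord s t) : t ≠ 0 := by
  intro h0
  have h1 : psi s t (X 1) = 0 := by
    rw [psi, MvPolynomial.aeval_X]; simpa using h0
  exact MvPolynomial.X_ne_zero (R := ℂ) (1 : Fin 2) (hc.inj _ h1)

/-- the quotient `η(g)/g` -/
private noncomputable def qq (η : ArcAut Fn) (g : Fn) : PowerSeries Fn :=
  η.toEquiv (PowerSeries.C g) * PowerSeries.C g⁻¹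

private theorem qq_mul (η : ArcAut Fn) (g g' : Fn) : qq η (g * g') = qq η g * qq η g' := by
  unfold qq
  rw [mul_inv, map_mul, map_mul, map_mul]
  ring

private theorem qq_pow (η : ArcAut Fn) (g : Fn) (m : ℕ) : qq η (g ^ m) = qq η g ^ m := by
  unfold qq
  rw [← inv_pow, map_pow, map_pow, map_pow, mul_pow]

/-- the local statement for one character -/
private theorem g6_one (hC : Config L) (hn : 2 ≤ n) (hz : Kum L n K z) {φ : ArcAut K}
    {η : ArcAut Fn} (hφ : ∀ σ : K ≃ₐ[Fn] K, conjA σ φ = φ)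
    (hη : ∀ f, φ.toEquiv (liftP K f) = liftP K (η.toEquiv f)) (hL : LogA L y η)
    {s t : Fn} {a b : ℂ} {bs bt : Prop} {al be : (Fin k → ℕ) → ℕ} {h : (Fin k → ℕ) → Fn}
    (hd : LocData L n y s t a b bs bt al be h) (hm : LocM L y s t bs bt)
    {c : Fin k → ℕ} (hc : c ∈ AA k n) :
    ∃ W : PowerSeries Fn, RegS L y W ∧
      φ.toEquiv (PowerSeries.C (zp z c * algebraMap Fn K (h c))) =
        PowerSeries.C (zp z c * algebraMap Fn K (h c)) * liftP K W := by
  obtain ⟨V, hV1, hV2, hV3⟩ := eig_arc hC (by omega) hz hφ hη c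
  have hh := hd.hne c
  have hpw : pw L c ≠ 0 := by
    intro h0
    have h1 := zp_pow hC (by omega) hz c
    rw [h0, map_zero] at h1
    exact kum_ne hC (by omega) hz c (pow_eq_zero_iff (by omega) |>.1 h1)
  have hqpw : qq η (pw L c) = V ^ n := by
    unfold qq
    rw [hV3]
    calc PowerSeries.C (pw L c) * V ^ n * PowerSeries.C (pw L c)⁻¹
        = PowerSeries.C (pw L c * (pw L c)⁻¹) * V ^ n := by rw [map_mul]; ring
      _ = V ^ n := by rw [mul_inv_cancel₀ hpw, map_one, one_mul]
  refine ⟨V * qq η (h c), ?_, ?_⟩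
  · apply RegS.root (n := n) (by omega)
    · have h1 : PowerSeries.constantCoeff (qq η (h c)) = 1 := by
        unfold qq
        rw [map_mul, η.map_zero, PowerSeries.constantCoeff_C, PowerSeries.constantCoeff_C,
          mul_inv_cancel₀ hh]
      rw [map_mul, hV1, h1, one_mul]
    · rw [mul_pow, ← hqpw, ← qq_pow, ← qq_mul]
      obtain ⟨ep, e, hv, he, hp⟩ := hd.pow c hc
      rw [hp, qq_mul, qq_mul, qq_pow, qq_pow]
      have h1 : RegS L y (qq η ep) := by
        unfold qq
        exact (reg_arc_of_logA hC hL (regular_iff_val.2 ⟨_, hv⟩)).mul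
          (RegS.C (regular_iff_val.2 ⟨_, hv.inv he⟩))
      obtain ⟨⟨i, j, hs⟩, ⟨i', j', ht⟩, -⟩ := hm
      have h2 : RegS L y (qq η s) := by
        unfold qq
        rw [hs, inv_div]
        exact hL i j
      have h3 : RegS L y (qq η t) := by
        unfold qq
        rw [ht, inv_div]
        exact hL i' j'
      exact (h1.mul (h2.pow _)).mul (h3.pow _)
  · rw [map_mul, map_mul, hV2, ← g6_liftP_C, hη, g6_liftP_mul]
    have h1 : liftP K (qq η (h c)) * PowerSeries.C (algebraMap Fn K (h c)) =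
        liftP K (η.toEquiv (PowerSeries.C (h c))) := by
      rw [← g6_liftP_C, ← g6_liftP_mul]
      congr 1
      unfold qq
      rw [mul_assoc, ← map_mul, inv_mul_cancel₀ hh, map_one, mul_one]
    rw [← h1, g6_liftP_C]
    ring

theorem pres_of_logA (hC : Config L) (hn : 2 ≤ n) (hz : Kum L n K z) {φ : ArcAut K}
    {η : ArcAut Fn} (hφ : ∀ σ : K ≃ₐ[Fn] K, conjA σ φ = φ)
    (hη : ∀ f, φ.toEquiv (liftP K f) = liftP K (η.toEquiv f)) (hL : LogA L y η) :
    Pres L y φ := by
  have hn' : 0 < n := by omega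
  obtain ⟨s, t, a, b, bs, bt, al, be, h, hd, hm⟩ := exists_locM hC hn y
  rw [pres_iff]
  intro x hx m
  obtain ⟨w, hw⟩ := kum_span hC hn' hz x
  have hterm := int_eigen hC hn' hz (AA k n) (fun c => c) w
    (fun i hi => (Finset.mem_filter.1 hi).2)
    (fun i hi j hj hm => by
      funext l
      have h1 := Finset.mem_range.1 (Fintype.mem_piFinset.1 (Finset.mem_filter.1 hi).1 l)
      have h2 := Finset.mem_range.1 (Fintype.mem_piFinset.1 (Finset.mem_filter.1 hj).1 l)
      have h3 := hm l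
      rwa [Nat.ModEq, Nat.mod_eq_of_lt h1, Nat.mod_eq_of_lt h2] at h3) (y := y)
    (by rw [← hw]; exact hx)
  rw [hw, map_sum, map_sum, map_sum]
  refine Int.sum _ _ fun c hc => ?_
  obtain ⟨W, hW1, hW2⟩ := g6_one hC hn hz hφ hη hL hd hm hc
  have h0 : algebraMap Fn K (h c) ≠ 0 := by
    rw [Ne, map_eq_zero]; exact hd.hne c
  have h1 : algebraMap Fn K (w c) * zp z c =
      algebraMap Fn K (w c / h c) * (zp z c * algebraMap Fn K (h c)) := by
    rw [map_div₀]
    field_simp
  have h2 : Regular L y (w c / h c) := by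
    rw [← eig_int hC hn' hz hd hc, ← h1]
    exact hterm c hc
  have h3 : Int L y (zp z c * algebraMap Fn K (h c)) := by
    have h4 := (eig_int (x := 1) hC hn' hz hd hc).2
      (by simpa using Regular.const (L := L) (y := y) (1 : ℂ))
    rwa [map_one, one_mul] at h4
  have h5 : φ.toEquiv (PowerSeries.C (algebraMap Fn K (w c) * zp z c)) =
      liftP K (η.toEquiv (PowerSeries.C (w c / h c)) * W) *
        PowerSeries.C (zp z c * algebraMap Fn K (h c)) := by
    rw [h1, map_mul, map_mul, ← g6_liftP_C, hη, hW2, g6_liftP_mul]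
    ring
  rw [h5, PowerSeries.coeff_mul_C, g6_coeff]
  exact (Int.of_regular (((reg_arc_of_logA hC hL h2).mul hW1) m)).mul h3

theorem pres_iff_logA (hC : Config L) (hn : 2 ≤ n) (hz : Kum L n K z) {φ : ArcAut K}
    {η : ArcAut Fn} (hφ : ∀ σ : K ≃ₐ[Fn] K, conjA σ φ = φ)
    (hη : ∀ f, φ.toEquiv (liftP K f) = liftP K (η.toEquiv f)) :
    Pres L y φ ↔ LogA L y η :=
  ⟨logA_of_pres hC hn hz hφ hη, pres_of_logA hC hn hz hφ hη⟩

end HKR
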