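import Pool.Agent.Lib.HKR.M4
import Pool.Agent.Lib.HKR.C5
/-!
HKR.M5 (equivariant deformations are trivial).
PROOF.  exists_arc: s, M, E.  FormalRigid: M i = c i • (L i g), c i units.  W_l := Σ_j g l j E_j ∈ Fn[[X]], W(a) := Σ_l a_l W_l for a ∈ ℂ³.
Then Σ_j M i j E_j = c i W(L i).  Constant terms: L i = c_i(0) L i g(0): eig_scalar: g(0) = λ (scalar), λ ≠ 0; so W(a) has
constant coefficient λ fl a/fl (L s).  The ring hom Fn → Fn[[X]], x ↦ W_1/W_0, y ↦ W_2/W_0 (W_0 invertible: nonzero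
constant coefficient; lift to the fraction field: the image of a nonzero polynomial has nonzero constant
coefficient) has constant coefficient the identity; exists_ofHom: η0 : ArcAut Fn with
η0(C(fl a/fl b)) = W(a)/W(b).
LogA y ((η y)⁻¹ * η0): (η y)⁻¹(W(L i)/W(L j)) ℓj/ℓi = [(η y)⁻¹(W(L i)) ℓs/ℓi] * [(η y)⁻¹(W(L j)) ℓs/ℓj]⁻¹; each bracket is
(c i)⁻¹ times the RegS series of exists_arc, with constant coefficient λ: regS_inv.
-/
open MvPolynomial
namespace HKR
variable {k : ℕ} {L : Fin k → Fin 3 → ℂ}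

private theorem m5_Lne (hk : 6 ≤ k) (hC : Config L) (i : Fin k) : L i ≠ 0 := by
  obtain ⟨j, hj⟩ : ∃ j : Fin k, j ≠ i := by
    haveI : Nontrivial (Fin k) := Fin.nontrivial_iff_two_le.2 (by omega)
    exact exists_ne i
  have h := (hC.ind i j hj.symm).ne_zero 0
  simpa using h

private theorem m5_fl (a : Fin 3 → ℂ) :
    fl a = algebraMap ℂ Fn (a 0) +
      algebraMap ℂ Fn (a 1) * algebraMap (MvPolynomial (Fin 2) ℂ) Fn (X 0) +
      algebraMap ℂ Fn (a 2) * algebraMap (MvPolynomial (Fin 2) ℂ) Fn (X 1) := by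
  unfold fl lin
  rw [Fin.sum_univ_three, map_add, map_add, map_mul, map_mul, map_mul, algHom_C, algHom_C, algHom_C]
  unfold aff
  rw [aeval_X, aeval_X, aeval_X]
  simp

private theorem m5_fl' (a : Fin 3 → ℂ) :
    fl a = algebraMap ℂ Fn (a 0) * fl (Pi.single 0 1) + algebraMap ℂ Fn (a 1) * fl (Pi.single 1 1) +
      algebraMap ℂ Fn (a 2) * fl (Pi.single 2 1) := by
  rw [m5_fl a, m5_fl (Pi.single 0 1), m5_fl (Pi.single 1 1), m5_fl (Pi.single 2 1)]
  simp

private theorem m5_cc_map {R S : Type*} [CommSemiring R] [CommSemiring S] (f : R →+* S)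
    (p : PowerSeries R) :
    PowerSeries.constantCoeff (PowerSeries.map f p) = f (PowerSeries.constantCoeff p) := by
  rw [← PowerSeries.coeff_zero_eq_constantCoeff_apply, PowerSeries.coeff_map,
    PowerSeries.coeff_zero_eq_constantCoeff_apply]

private noncomputable def m5W (g : Matrix (Fin 3) (Fin 3) (PowerSeries ℂ))
    (E : Fin 3 → PowerSeries Fn) (a : Fin 3 → ℂ) : PowerSeries Fn :=
  ∑ l, PowerSeries.C (algebraMap ℂ Fn (a l)) *
    ∑ j, PowerSeries.map (algebraMap ℂ Fn) (g l j) * E j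

private theorem m5W_arc {M : Fin 3 → PowerSeries ℂ} {c : PowerSeries ℂ} {v : Fin 3 → ℂ}
    (g : Matrix (Fin 3) (Fin 3) (PowerSeries ℂ)) (E : Fin 3 → PowerSeries Fn)
    (hM : M = c • Matrix.vecMul (fun j => PowerSeries.C (v j)) g) :
    ∑ j, PowerSeries.map (algebraMap ℂ Fn) (M j) * E j =
      PowerSeries.map (algebraMap ℂ Fn) c * m5W g E v := by
  have hj : ∀ j, M j = c * (PowerSeries.C (v 0) * g 0 j + PowerSeries.C (v 1) * g 1 j +
      PowerSeries.C (v 2) * g 2 j) := by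
    intro j
    rw [hM, Pi.smul_apply, smul_eq_mul, Matrix.vecMul, dotProduct, Fin.sum_univ_three]
  unfold m5W
  simp only [Fin.sum_univ_three, hj, map_mul, map_add, PowerSeries.map_C]
  ring

private theorem m5W_cc {g : Matrix (Fin 3) (Fin 3) (PowerSeries ℂ)} {E : Fin 3 → PowerSeries Fn}
    {r : Fn} (hE : ∀ j, PowerSeries.constantCoeff (E j) = fl (Pi.single j 1) / r) {x : ℂ}
    (hx : ∀ l : Fin 3 → ℂ, Matrix.vecMul l (fun i j => PowerSeries.constantCoeff (g i j)) = x • l)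
    (a : Fin 3 → ℂ) :
    PowerSeries.constantCoeff (m5W g E a) = algebraMap ℂ Fn x * (fl a / r) := by
  have h : ∀ j, algebraMap ℂ Fn (a 0) * algebraMap ℂ Fn (PowerSeries.constantCoeff (g 0 j)) +
      algebraMap ℂ Fn (a 1) * algebraMap ℂ Fn (PowerSeries.constantCoeff (g 1 j)) +
      algebraMap ℂ Fn (a 2) * algebraMap ℂ Fn (PowerSeries.constantCoeff (g 2 j)) =
      algebraMap ℂ Fn x * algebraMap ℂ Fn (a j) := by
    intro j
    have h1 := congrFun (hx a) j
    rw [Matrix.vecMul, dotProduct, Fin.sum_univ_three, Pi.smul_apply, smul_eq_mul] at h1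
    have h2 := congrArg (algebraMap ℂ Fn) h1
    simpa only [map_add, map_mul] using h2
  unfold m5W
  simp only [Fin.sum_univ_three, map_add, map_mul, PowerSeries.constantCoeff_C, m5_cc_map, hE]
  rw [m5_fl' a]
  linear_combination (fl (Pi.single 0 1) / r) * h 0 + (fl (Pi.single 1 1) / r) * h 1 +
    (fl (Pi.single 2 1) / r) * h 2

private theorem m5_hom (w1 w2 : PowerSeries Fn)
    (h1 : PowerSeries.constantCoeff w1 = algebraMap (MvPolynomial (Fin 2) ℂ) Fn (X 0))
    (h2 : PowerSeries.constantCoeff w2 = algebraMap (MvPolynomial (Fin 2) ℂ) Fn (X 1)) :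
    ∃ h : Fn →+* PowerSeries Fn, (∀ f, PowerSeries.constantCoeff (h f) = f) ∧
      (∀ c : ℂ, h (algebraMap ℂ Fn c) = PowerSeries.C (algebraMap ℂ Fn c)) ∧
      h (algebraMap (MvPolynomial (Fin 2) ℂ) Fn (X 0)) = w1 ∧
      h (algebraMap (MvPolynomial (Fin 2) ℂ) Fn (X 1)) = w2 := by
  let g : MvPolynomial (Fin 2) ℂ →+* PowerSeries Fn :=
    MvPolynomial.eval₂Hom ((PowerSeries.C).comp (algebraMap ℂ Fn)) ![w1, w2]
  have gC : ∀ c : ℂ, g (C c) = PowerSeries.C (algebraMap ℂ Fn c) := by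
    intro c
    simp [g]
  have g0 : g (X 0) = w1 := by simp [g]
  have g1 : g (X 1) = w2 := by simp [g]
  have hg : ((PowerSeries.constantCoeff).comp g) = algebraMap (MvPolynomial (Fin 2) ℂ) Fn := by
    apply MvPolynomial.ringHom_ext
    · intro r
      rw [RingHom.comp_apply, gC, PowerSeries.constantCoeff_C,
        IsScalarTower.algebraMap_apply ℂ (MvPolynomial (Fin 2) ℂ) Fn, MvPolynomial.algebraMap_eq]
    · intro i
      fin_cases i
      · change PowerSeries.constantCoeff (g (X 0)) = _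
        rw [g0, h1]
        rfl
      · change PowerSeries.constantCoeff (g (X 1)) = _
        rw [g1, h2]
        rfl
  have hu : ∀ y : nonZeroDivisors (MvPolynomial (Fin 2) ℂ), IsUnit (g y) := by
    intro y
    rw [PowerSeries.isUnit_iff_constantCoeff]
    have h3 : PowerSeries.constantCoeff (g y) =
        algebraMap (MvPolynomial (Fin 2) ℂ) Fn (y : MvPolynomial (Fin 2) ℂ) :=
      RingHom.congr_fun hg _
    rw [h3]
    exact IsLocalization.map_units Fn y
  have hl : ∀ p, (IsLocalization.lift hu : Fn →+* PowerSeries Fn)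
      (algebraMap (MvPolynomial (Fin 2) ℂ) Fn p) = g p := fun p => IsLocalization.lift_eq hu p
  refine ⟨IsLocalization.lift hu, ?_, ?_, ?_, ?_⟩
  · intro f
    have h4 : (PowerSeries.constantCoeff).comp (IsLocalization.lift hu : Fn →+* PowerSeries Fn) =
        RingHom.id Fn := by
      apply IsLocalization.ringHom_ext (nonZeroDivisors (MvPolynomial (Fin 2) ℂ))
      refine RingHom.ext fun p => ?_
      rw [RingHom.comp_apply, RingHom.comp_apply, hl, RingHom.comp_apply, RingHom.id_apply]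
      exact RingHom.congr_fun hg p
    exact RingHom.congr_fun h4 f
  · intro c
    rw [IsScalarTower.algebraMap_apply ℂ (MvPolynomial (Fin 2) ℂ) Fn, hl,
      MvPolynomial.algebraMap_eq, gC]
    rfl
  · rw [hl, g0]
  · rw [hl, g1]

private theorem m5_fix (φ : ArcAut Fn) (f : PowerSeries ℂ) :
    φ.toEquiv (PowerSeries.map (algebraMap ℂ Fn) f) = PowerSeries.map (algebraMap ℂ Fn) f := by
  ext n
  rw [coeff_app]
  rw [Finset.sum_eq_single ((0 : ℕ), n)]
  · rw [PowerSeries.coeff_map, φ.map_C]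
    simp
  · rintro ⟨i, j⟩ hij hne
    rw [Finset.HasAntidiagonal.mem_antidiagonal] at hij
    have hi : i ≠ 0 := by
      rintro rfl
      apply hne
      simp only [zero_add] at hij
      rw [hij]
    rw [PowerSeries.coeff_map, φ.map_C, PowerSeries.coeff_C, if_neg hi]
  · intro h
    exact absurd (Finset.HasAntidiagonal.mem_antidiagonal.2 (by simp)) h

theorem step_two (hk : 6 ≤ k) (hC : Config L) (hR : AffRigid L) (hF : FormalRigid L)
    (hcous0 : ∀ e : Pt → Fn, LC L (Sect L 0 (fun _ => 0)) e → Glob (Sect L 0 (fun _ => 0)) e)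
    {T : Pt → Finset Fn} {η : Pt → ArcAut Fn} (h : LogDef L T η) :
    ∃ η0 : ArcAut Fn, ∀ y, LogA L y ((η y)⁻¹ * η0) := by
  obtain ⟨s, M, E, hM0, hMdet, hE0, hReg⟩ := exists_arc hC hcous0 h
  obtain ⟨g, c, hc, hM⟩ := hF M hM0 hMdet
  have hs : fl (L s) ≠ 0 := fl_ne_zero (m5_Lne hk hC s)
  have hc0 : ∀ i, PowerSeries.constantCoeff (c i) ≠ 0 := fun i =>
    ((hc i).map (PowerSeries.constantCoeff (R := ℂ))).ne_zero
  have hv : ∀ i, PowerSeries.constantCoeff (c i) • Matrix.vecMul (L i)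
      (fun a b => PowerSeries.constantCoeff (g a b)) = L i := by
    intro i
    funext j
    have h1 := congrArg (PowerSeries.constantCoeff (R := ℂ)) (congrFun (hM i) j)
    rw [hM0 i j] at h1
    rw [h1, Pi.smul_apply, Pi.smul_apply, smul_eq_mul, smul_eq_mul, map_mul, Matrix.vecMul,
      Matrix.vecMul, dotProduct, dotProduct, map_sum]
    congr 1
    refine Finset.sum_congr rfl fun l _ => ?_
    rw [map_mul, PowerSeries.constantCoeff_C]
  obtain ⟨x, hx⟩ := eig_scalar hk hC hR (fun a b => PowerSeries.constantCoeff (g a b)) (fun i =>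
    ⟨(PowerSeries.constantCoeff (c i))⁻¹, by rw [eq_inv_smul_iff₀ (hc0 i)]; exact hv i⟩)
  have hx0 : x ≠ 0 := by
    rintro rfl
    have h1 := hv s
    rw [hx, zero_smul, smul_zero] at h1
    exact m5_Lne hk hC s h1.symm
  have hx0' : algebraMap ℂ Fn x ≠ 0 := by
    rw [Ne, map_eq_zero]
    exact hx0
  have hW := m5W_cc (r := fl (L s)) hE0 hx
  have hfl0 : fl (Pi.single 0 1) = 1 := by
    rw [m5_fl]
    simp
  have hW0 : PowerSeries.constantCoeff (m5W g E (Pi.single 0 1)) ≠ 0 := by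
    rw [hW, hfl0]
    exact mul_ne_zero hx0' (div_ne_zero one_ne_zero hs)
  have hinv := PowerSeries.mul_inv_cancel _ hW0
  have hcinv : algebraMap ℂ Fn x * (1 / fl (L s)) *
      PowerSeries.constantCoeff (m5W g E (Pi.single 0 1))⁻¹ = 1 := by
    have h1 := congrArg (PowerSeries.constantCoeff (R := Fn)) hinv
    rwa [map_mul, map_one, hW, hfl0] at h1
  obtain ⟨τ, hτ1, hτ2, hτ3, hτ4⟩ := m5_hom
    (m5W g E (Pi.single 1 1) * (m5W g E (Pi.single 0 1))⁻¹)
    (m5W g E (Pi.single 2 1) * (m5W g E (Pi.single 0 1))⁻¹)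
    (by
      rw [map_mul, hW]
      have e : fl (Pi.single 1 1) = algebraMap (MvPolynomial (Fin 2) ℂ) Fn (X 0) := by
        rw [m5_fl]
        simp
      rw [e]
      linear_combination (algebraMap (MvPolynomial (Fin 2) ℂ) Fn (X 0)) * hcinv)
    (by
      rw [map_mul, hW]
      have e : fl (Pi.single 2 1) = algebraMap (MvPolynomial (Fin 2) ℂ) Fn (X 1) := by
        rw [m5_fl]
        simp
      rw [e]
      linear_combination (algebraMap (MvPolynomial (Fin 2) ℂ) Fn (X 1)) * hcinv)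
  obtain ⟨η0, hη0⟩ := exists_ofHom τ hτ1 hτ2
  have hWlin : ∀ a : Fin 3 → ℂ, m5W g E a =
      PowerSeries.C (algebraMap ℂ Fn (a 0)) * m5W g E (Pi.single 0 1) +
      PowerSeries.C (algebraMap ℂ Fn (a 1)) * m5W g E (Pi.single 1 1) +
      PowerSeries.C (algebraMap ℂ Fn (a 2)) * m5W g E (Pi.single 2 1) := by
    intro a
    unfold m5W
    simp [Fin.sum_univ_three]
  have hτfl : ∀ a : Fin 3 → ℂ, τ (fl a) * m5W g E (Pi.single 0 1) = m5W g E a := by
    intro a
    rw [m5_fl a, map_add, map_add, map_mul, map_mul, hτ2, hτ2, hτ2, hτ3, hτ4, hWlin a]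
    linear_combination (PowerSeries.C (algebraMap ℂ Fn (a 1)) * m5W g E (Pi.single 1 1) +
      PowerSeries.C (algebraMap ℂ Fn (a 2)) * m5W g E (Pi.single 2 1)) * hinv
  refine ⟨η0, fun y i j => ?_⟩
  have hi : fl (L i) ≠ 0 := fl_ne_zero (m5_Lne hk hC i)
  have hj : fl (L j) ≠ 0 := fl_ne_zero (m5_Lne hk hC j)
  -- the brackets
  have hA : ∀ i, RegS L y (((η y)⁻¹).toEquiv (m5W g E (L i)) * PowerSeries.C (fl (L s) / fl (L i))) := by
    intro i
    have h1 := hReg i y
    rw [m5W_arc g E (hM i), map_mul, m5_fix, mul_assoc] at h1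
    obtain ⟨d, hd⟩ := (hc i).exists_left_inv
    have h2 := (regS_const (L := L) (y := y) d).mul h1
    rwa [← mul_assoc, ← map_mul, hd, map_one, one_mul] at h2
  have hA0 : ∀ i, PowerSeries.constantCoeff
      (((η y)⁻¹).toEquiv (m5W g E (L i)) * PowerSeries.C (fl (L s) / fl (L i))) =
      algebraMap ℂ Fn x := by
    intro i
    have hi : fl (L i) ≠ 0 := fl_ne_zero (m5_Lne hk hC i)
    rw [map_mul, ((η y)⁻¹).map_zero, hW, PowerSeries.constantCoeff_C]
    field_simp
  have hne : PowerSeries.constantCoeff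
      (((η y)⁻¹).toEquiv (m5W g E (L j)) * PowerSeries.C (fl (L s) / fl (L j))) ≠ 0 := by
    rw [hA0]
    exact hx0'
  have hB := PowerSeries.mul_inv_cancel _ hne
  have hBR := regS_inv (hA j) hB hx0 (by rw [hA0]; exact Val.const x)
  have hQ : τ (fl (L i) / fl (L j)) * m5W g E (L j) = m5W g E (L i) := by
    rw [← hτfl (L j), ← mul_assoc, ← map_mul, div_mul_cancel₀ _ hj, hτfl]
  have e1 : ((η y)⁻¹ * η0).toEquiv (PowerSeries.C (fl (L i) / fl (L j))) =
      ((η y)⁻¹).toEquiv (τ (fl (L i) / fl (L j))) := by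
    rw [ArcAut.mul_apply, hη0]
  rw [e1]
  have e2 : ((η y)⁻¹).toEquiv (τ (fl (L i) / fl (L j))) *
      ((η y)⁻¹).toEquiv (m5W g E (L j)) = ((η y)⁻¹).toEquiv (m5W g E (L i)) := by
    rw [← map_mul, hQ]
  have e3 : (PowerSeries.C (fl (L j) / fl (L i)) : PowerSeries Fn) *
      PowerSeries.C (fl (L s) / fl (L j)) = PowerSeries.C (fl (L s) / fl (L i)) := by
    rw [← map_mul]
    congr 1
    field_simp
  have e4 : ((η y)⁻¹).toEquiv (τ (fl (L i) / fl (L j))) * PowerSeries.C (fl (L j) / fl (L i)) =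
      (((η y)⁻¹).toEquiv (m5W g E (L i)) * PowerSeries.C (fl (L s) / fl (L i))) *
      (((η y)⁻¹).toEquiv (m5W g E (L j)) * PowerSeries.C (fl (L s) / fl (L j)))⁻¹ := by
    have e5 : ((η y)⁻¹).toEquiv (τ (fl (L i) / fl (L j))) * PowerSeries.C (fl (L j) / fl (L i)) *
        (((η y)⁻¹).toEquiv (m5W g E (L j)) * PowerSeries.C (fl (L s) / fl (L j))) =
        (((η y)⁻¹).toEquiv (m5W g E (L i)) * PowerSeries.C (fl (L s) / fl (L i))) := by
      rw [← e2, ← e3]
      ring
    rw [← e5, mul_assoc, hB, mul_one]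
  rw [e4]
  exact (hA i).mul hBR

end HKR
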