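import Pool.Agent.Lib.HKR.P4
/-!
HKR.P5 (equivariant form of a deformation).
STATEMENT: KN and DeformT L T φ imply: there are ψ and φ' y with conjA σ (φ' y) = φ' y, DeformT L T φ', and
SameAt y (φ' y) (ψ * φ y) for all y.
PROOF.  Build by recursion on m families φ_m y = Ψ_m * φ y * H_m y (Ψ_1 = H_1 = 1) with Cong m (conjA σ (φ_m y)) (φ_m y),
Pres y' (H_m y) for y' ∈ U_y, Cong m Ψ_(m+1) Ψ_m, Cong m (H_(m+1) y) (H_m y): step_one applied to φ_m (DeformT L T φ_m: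
SameAt y' (φ_m y') (φ_m y): H_m y, H_m y' are Pres at y', y' ∈ U_y and y' ∈ U_y'): Ψ_(m+1) := expA m E * Ψ_m,
H_(m+1) y := H_m y * expA m (-F y), pres_exp.  exists_limit: ψ, H y; φ' y := ψ * φ y * H y.  Cong m (φ' y) (φ_m y), so
Cong m (conjA σ (φ' y)) (φ' y) for all m: eq_of_cong.  pres_limit: H y is Pres at y' ∈ U_y.  DeformT and SameAt follow.
-/
namespace HKR
variable {K : Type} [Field K] [Algebra ℂ K] [Algebra Fn K] [IsScalarTower ℂ Fn K]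
variable {k : ℕ} {L : Fin k → Fin 3 → ℂ}

private theorem p5_conj {m : ℕ} {a b : ArcAut K} (h : Cong m a b) (σ : K ≃ₐ[Fn] K) :
    Cong m (conjA σ a) (conjA σ b) := by
  intro x j hj
  rw [conjA_apply, conjA_apply, coeff_mapE, coeff_mapE, mapE_C, h _ j hj]

private theorem p5_deform {T : Pt → Finset Fn} {φ : Pt → ArcAut K} (hφ : DeformT L T φ)
    (Ψ : ArcAut K) {H : Pt → ArcAut K}
    (hH : ∀ y y', (∀ f ∈ T y, Regular L y' f) → Pres L y' (H y)) :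
    DeformT L T (fun y => Ψ * φ y * H y) := by
  intro y
  refine ⟨(hφ y).1, fun y' hy' => ?_⟩
  have h1 : SameAt L y' (Ψ * φ y' * H y') (Ψ * φ y') :=
    SameAt.mul_right (hH y' y' (hφ y').1)
  have h2 : SameAt L y' (Ψ * φ y * H y) (Ψ * φ y) := SameAt.mul_right (hH y y' hy')
  have h3 : SameAt L y' (Ψ * φ y') (Ψ * φ y) := ((hφ y).2 y' hy').mul_left Ψ
  exact (h1.trans h3).trans h2.symm

private theorem p5_neg {y : Pt} {D : Derivation ℂ K K} (h : Preserves L y D) :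
    Preserves L y (-D) := by
  intro x hx
  rw [Derivation.neg_apply]
  exact (h x hx).neg

private theorem p5_step [Fintype (K ≃ₐ[Fn] K)] (hKN : KN L K) {T : Pt → Finset Fn}
    {φ : Pt → ArcAut K} (hφ : DeformT L T φ) (m : ℕ) (Ψ : ArcAut K) (H : Pt → ArcAut K)
    (h1 : ∀ y (σ : K ≃ₐ[Fn] K), Cong (m + 1) (conjA σ (Ψ * φ y * H y)) (Ψ * φ y * H y))
    (h2 : ∀ y y', (∀ f ∈ T y, Regular L y' f) → Pres L y' (H y)) :
    ∃ (Ψ' : ArcAut K) (H' : Pt → ArcAut K),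
      (∀ y (σ : K ≃ₐ[Fn] K), Cong (m + 1 + 1) (conjA σ (Ψ' * φ y * H' y)) (Ψ' * φ y * H' y)) ∧
      (∀ y y', (∀ f ∈ T y, Regular L y' f) → Pres L y' (H' y)) ∧
      Cong (m + 1) Ψ' Ψ ∧ ∀ y, Cong (m + 1) (H' y) (H y) := by
  have hm : 1 ≤ m + 1 := by omega
  obtain ⟨E, F, hF, hE⟩ := step_one hKN (p5_deform hφ Ψ h2) hm h1
  refine ⟨expA (m + 1) E * Ψ, fun y => H y * expA (m + 1) (-F y), fun y σ => ?_, fun y y' hy' => ?_,
    ?_, fun y => ?_⟩
  · have e : expA (m + 1) E * Ψ * φ y * (H y * expA (m + 1) (-F y)) =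
        expA (m + 1) E * (Ψ * φ y * H y) * expA (m + 1) (-F y) := by
      simp only [mul_assoc]
    rw [e]
    exact hE y σ
  · exact (h2 y y' hy').mul (pres_exp hm (p5_neg (hF y y' hy')))
  · have h := (exp_cong hm E).mul (Cong.refl (m + 1) Ψ)
    rwa [one_mul] at h
  · have h := (Cong.refl (m + 1) (H y)).mul (exp_cong hm (-F y))
    rwa [mul_one] at h

theorem equivariant_form [Fintype (K ≃ₐ[Fn] K)] (hKN : KN L K) {T : Pt → Finset Fn}
    {φ : Pt → ArcAut K} (hφ : DeformT L T φ) :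
    ∃ (ψ : ArcAut K) (φ' : Pt → ArcAut K), (∀ y (σ : K ≃ₐ[Fn] K), conjA σ (φ' y) = φ' y) ∧
      DeformT L T φ' ∧ ∀ y, SameAt L y (φ' y) (ψ * φ y) := by
  classical
  let St : ℕ → ArcAut K × (Pt → ArcAut K) → Prop := fun m p =>
    (∀ y (σ : K ≃ₐ[Fn] K), Cong (m + 1) (conjA σ (p.1 * φ y * p.2 y)) (p.1 * φ y * p.2 y)) ∧
    (∀ y y', (∀ f ∈ T y, Regular L y' f) → Pres L y' (p.2 y))
  have step : ∀ (m : ℕ) (p : ArcAut K × (Pt → ArcAut K)), St m p →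
      ∃ p' : ArcAut K × (Pt → ArcAut K), St (m + 1) p' ∧ Cong (m + 1) p'.1 p.1 ∧
        ∀ y, Cong (m + 1) (p'.2 y) (p.2 y) := by
    intro m p hp
    obtain ⟨Ψ', H', a, b, c, d⟩ := p5_step hKN hφ m p.1 p.2 hp.1 hp.2
    exact ⟨(Ψ', H'), ⟨a, b⟩, c, d⟩
  choose f hf using step
  have h0 : St 0 ((1 : ArcAut K), fun _ => (1 : ArcAut K)) :=
    ⟨fun y σ => cong_one_all _ _, fun y y' _ => Pres.one⟩
  let s' : (m : ℕ) → {p : ArcAut K × (Pt → ArcAut K) // St m p} := fun m =>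
    Nat.rec (motive := fun m => {p : ArcAut K × (Pt → ArcAut K) // St m p}) ⟨_, h0⟩
      (fun m q => ⟨f m q.1 q.2, (hf m q.1 q.2).1⟩) m
  have hs1 : ∀ m, Cong (m + 1) (s' (m + 1)).1.1 (s' m).1.1 := fun m => (hf m _ (s' m).2).2.1
  have hs2 : ∀ m y, Cong (m + 1) ((s' (m + 1)).1.2 y) ((s' m).1.2 y) :=
    fun m y => (hf m _ (s' m).2).2.2 y
  obtain ⟨ψ, hψ⟩ := exists_limit (fun m => (s' m).1.1) (fun m => (hs1 m).mono (Nat.le_succ m))
  have hH : ∀ y, ∃ χ : ArcAut K, ∀ m, Cong m χ ((s' m).1.2 y) := fun y =>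
    exists_limit (fun m => (s' m).1.2 y) (fun m => (hs2 m y).mono (Nat.le_succ m))
  choose H hH using hH
  have hP : ∀ y y', (∀ f ∈ T y, Regular L y' f) → Pres L y' (H y) := fun y y' hy' =>
    pres_limit (hH y) (fun m => (s' m).2.2 y y' hy')
  refine ⟨ψ, fun y => ψ * φ y * H y, fun y σ => ?_, p5_deform hφ ψ hP, fun y => ?_⟩
  · apply eq_of_cong
    intro m
    have c1 : Cong m (ψ * φ y * H y) ((s' m).1.1 * φ y * (s' m).1.2 y) :=
      ((hψ m).mul (Cong.refl m (φ y))).mul (hH y m)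
    have c2 := ((s' m).2.1 y σ).mono (Nat.le_succ m)
    exact ((p5_conj c1 σ).trans c2).trans c1.symm
  · exact SameAt.mul_right (hP y y (hφ y).1)

end HKR
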