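import Pool.Agent.Lib.HKR.R6
import Pool.Agent.Lib.HKR.G1
import Pool.Agent.Lib.HKR.G2
import Pool.Agent.Lib.HKR.G6
import Pool.Agent.Lib.HKR.P5
import Pool.Agent.Lib.HKR.M5
/-!
HKR.FB (stage B: rigidity of the surface), by helper90.
-/
open MvPolynomial
namespace HKR

section
variable {K : Type} [Field K] [Algebra ℂ K] [Algebra Fn K] [IsScalarTower ℂ Fn K]

theorem conjA_mul' (σ : K ≃ₐ[Fn] K) (φ ψ : ArcAut K) :
    conjA σ (φ * ψ) = conjA σ φ * conjA σ ψ := by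
  apply ArcAut.ext'
  apply RingEquiv.ext
  intro f
  rw [conjA_apply, ArcAut.mul_apply, ArcAut.mul_apply, conjA_apply, conjA_apply]
  congr 2
  have h := mapE_symm ((σ : K ≃+* K).symm) (ψ.toEquiv (mapE (σ : K ≃+* K).symm f))
  rw [RingEquiv.symm_symm] at h
  rw [h]

theorem conjA_one' (σ : K ≃ₐ[Fn] K) : conjA σ (1 : ArcAut K) = 1 := by
  apply ArcAut.ext'
  apply RingEquiv.ext
  intro f
  rw [conjA_apply, ArcAut.one_apply, ArcAut.one_apply, mapE_symm]

theorem conjA_inv' (σ : K ≃ₐ[Fn] K) (φ : ArcAut K) : conjA σ φ⁻¹ = (conjA σ φ)⁻¹ := by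
  rw [eq_inv_iff_mul_eq_one, ← conjA_mul', inv_mul_cancel, conjA_one']

theorem restrict_mul {φ ψ : ArcAut K} {η ζ : ArcAut Fn}
    (h : ∀ f, φ.toEquiv (liftP K f) = liftP K (η.toEquiv f))
    (h' : ∀ f, ψ.toEquiv (liftP K f) = liftP K (ζ.toEquiv f)) :
    ∀ f, (φ * ψ).toEquiv (liftP K f) = liftP K ((η * ζ).toEquiv f) := by
  intro f
  rw [ArcAut.mul_apply, h', h, ArcAut.mul_apply]

theorem restrict_inv {φ : ArcAut K} {η : ArcAut Fn}
    (h : ∀ f, φ.toEquiv (liftP K f) = liftP K (η.toEquiv f)) :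
    ∀ f, (φ⁻¹).toEquiv (liftP K f) = liftP K ((η⁻¹).toEquiv f) := by
  intro f
  rw [ArcAut.inv_apply, RingEquiv.symm_apply_eq, h, ← ArcAut.mul_apply, mul_inv_cancel,
    ArcAut.one_apply]

theorem SameAt.symm' {k : ℕ} {L : Fin k → Fin 3 → ℂ} {y : Pt} {φ ψ : ArcAut K}
    (h : SameAt L y φ ψ) : SameAt L y ψ φ := by
  unfold SameAt at h ⊢
  exact h.symm

theorem SameAt.trans' {k : ℕ} {L : Fin k → Fin 3 → ℂ} {y : Pt} {φ ψ χ : ArcAut K}
    (h : SameAt L y φ ψ) (h' : SameAt L y ψ χ) : SameAt L y φ χ := by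
  unfold SameAt at h h' ⊢
  exact h.trans h'

/-- the deformations of the surface are trivial as soon as the non-invariant part of `H¹` vanishes
and equivariant deformations are trivial -/
theorem arcRigid_of {k : ℕ} [NeZero k] {L : Fin k → Fin 3 → ℂ} (hC : Config L) {n : ℕ}
    (hn : 2 ≤ n) {z : Fin k → K} (hz : Kum L n K z)
    (hF : ∀ a : Fin k → ℕ, (∀ i, a i < n) → n ∣ ∑ i, a i → a ≠ 0 →
      ∀ D : Pt → Derivation ℂ Fn Fn, LC L (FCond L n a) D → Glob (FCond L n a) D)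
    (h2 : ∀ (T : Pt → Finset Fn) (η : Pt → ArcAut Fn), LogDef L T η →
      ∃ η0 : ArcAut Fn, ∀ y, LogA L y ((η y)⁻¹ * η0)) : ArcRigid L K := by
  classical
  intro φ hφ
  have hn0 : 0 < n := by omega
  haveI := kum_fin hC hn0 hz
  haveI := kum_galois hC hn0 hz
  have hKN : KN L K := kn_of_flevel hC hn hz hF
  choose T hT using hφ
  have hDT : DeformT L T φ := fun y => hT y
  obtain ⟨ψ, φ', he, hD', hs⟩ := equivariant_form hKN hDT
  choose η hη using fun y => arc_restrict (he y)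
  have heq : ∀ y y' (σ : K ≃ₐ[Fn] K), conjA σ ((φ' y)⁻¹ * φ' y') = (φ' y)⁻¹ * φ' y' := by
    intro y y' σ
    rw [conjA_mul', conjA_inv', he, he]
  have hLD : LogDef L T η := by
    intro y
    refine ⟨(hD' y).1, fun y' hy' => ?_⟩
    have h1 := (hD' y).2 y' hy'
    constructor
    · exact (pres_iff_logA hC hn hz (heq y' y) (restrict_mul (restrict_inv (hη y')) (hη y))).1
        (sameAt_iff.1 h1.symm')
    · exact (pres_iff_logA hC hn hz (heq y y') (restrict_mul (restrict_inv (hη y)) (hη y'))).1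
        (sameAt_iff.1 h1)
  obtain ⟨η0, hη0⟩ := h2 T η hLD
  obtain ⟨φ0, h3, h4⟩ := arc_extend (K := K) η0
  refine ⟨ψ⁻¹ * φ0, fun y => ?_⟩
  have h5 : SameAt L y φ0 (φ' y) := by
    rw [sameAt_iff]
    refine pres_of_logA hC hn hz ?_ (restrict_mul (restrict_inv (hη y)) h3) (hη0 y)
    intro σ
    rw [conjA_mul', conjA_inv', he, h4]
  have h6 : SameAt L y φ0 (ψ * φ y) := h5.trans' (hs y)
  have h7 := SameAt.mul_left ψ⁻¹ h6
  rw [inv_mul_cancel_left] at h7
  exact h7.symm'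

end

theorem stageB_formal {k : ℕ} [NeZero k] {L : Fin k → Fin 3 → ℂ} (hk : 6 ≤ k) (hC : Config L)
    (hR : AffRigid L) (hF : FormalRigid L) :
    ∃ N : ℕ, ∀ n ≥ N, ∀ (K : Type) [Field K] [Algebra Fn K] [Algebra ℂ K] [IsScalarTower ℂ Fn K]
      (z : Fin k → K), Kum L n K z → ArcRigid L K := by
  obtain ⟨N, hN⟩ := flevel hk hC hR
  refine ⟨max N 2, fun n hn K _ _ _ _ z hz => ?_⟩
  refine arcRigid_of hC (le_trans (le_max_right _ _) hn) hz
    (hN n (le_trans (le_max_left _ _) hn)) ?_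
  intro T η h
  exact step_two hk hC hR hF (cousin_zero hk hC hR) h

end HKR
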