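import Pool.Agent.Lib.HKR.ArcDefs

/-!
HKR.FR2: a rigid configuration of at least five lines contains four lines in general position.
By helper16.

PROOF. If four lines in general position do not exist then all lines but one are concurrent
(near pencil): take independent lines a, b, c; a further line passes through a vertex of the
triangle; lines through two different vertices together with two suitable sides are in general
position. A near pencil with at least five lines is not rigid: move one of the lines of the pencil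
in the pencil (cross ratio).
-/

set_option autoImplicit false

namespace HKR

open Matrix

theorem fr_det3 (a b c : Fin 3 → ℂ) : det3 a b c = a 0 * (b 1 * c 2 - b 2 * c 1) -
    a 1 * (b 0 * c 2 - b 2 * c 0) + a 2 * (b 0 * c 1 - b 1 * c 0) := by
  unfold det3
  rw [Matrix.det_fin_three]
  simp
  ring

theorem fr_cramer (a b c v : Fin 3 → ℂ) :
    det3 a b c • v = det3 v b c • a + det3 a v c • b + det3 a b v • c := by
  funext j
  simp only [Pi.smul_apply, Pi.add_apply, smul_eq_mul, fr_det3]
  fin_cases j <;> simp <;> ring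

theorem fr_near_det {k : ℕ} (L : Fin k → Fin 3 → ℂ) : ∃ ε : ℝ, 0 < ε ∧
    ∀ L' : Fin k → Fin 3 → ℂ, (∀ i j, ‖L' i j - L i j‖ < ε) → ∀ x y z,
      det3 (L x) (L y) (L z) ≠ 0 → det3 (L' x) (L' y) (L' z) ≠ 0 := by
  have h1 : ∀ᶠ L' in nhds L, ∀ x y z : Fin k,
      det3 (L x) (L y) (L z) ≠ 0 → det3 (L' x) (L' y) (L' z) ≠ 0 := by
    rw [Filter.eventually_all]
    intro x
    rw [Filter.eventually_all]
    intro y
    rw [Filter.eventually_all]
    intro z
    by_cases h : det3 (L x) (L y) (L z) = 0
    · exact Filter.Eventually.of_forall fun _ h' => absurd h h'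
    · have hc : Continuous fun L' : Fin k → Fin 3 → ℂ => det3 (L' x) (L' y) (L' z) := by
        simp only [fr_det3]
        fun_prop
      exact ((hc.continuousAt (x := L)).eventually_ne h).mono fun _ h' _ => h'
  obtain ⟨ε, hε, h2⟩ := Metric.eventually_nhds_iff.1 h1
  refine ⟨ε, hε, fun L' hL' => h2 ?_⟩
  rw [dist_pi_lt_iff hε]
  intro i
  rw [dist_pi_lt_iff hε]
  intro j
  rw [dist_eq_norm]
  exact hL' i j

/-- two lines of a configuration are not proportional -/
theorem fr_not_prop {k : ℕ} {L : Fin k → Fin 3 → ℂ} (hC : Config L) {i j : Fin k} (hij : i ≠ j)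
    (t : ℂ) : L i ≠ t • L j := by
  intro h
  have h1 := hC.ind i j hij
  rw [LinearIndependent.pair_iff] at h1
  have h2 := h1 1 (-t) (by rw [one_smul, h, neg_smul, add_neg_cancel])
  exact one_ne_zero h2.1

theorem fr_exists_ind {k : ℕ} {L : Fin k → Fin 3 → ℂ} (hk : 2 ≤ k) (hC : Config L) :
    ∃ a b c : Fin k, det3 (L a) (L b) (L c) ≠ 0 := by
  by_contra hcon
  push Not at hcon
  let a : Fin k := ⟨0, by omega⟩
  let b : Fin k := ⟨1, by omega⟩
  have hab : a ≠ b := by
    intro h
    have := congrArg Fin.val h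
    simp [a, b] at this
  let q : Fin 3 → ℂ := crossProduct (L a) (L b)
  have hq : ∀ i, L i ⬝ᵥ q = 0 := by
    intro i
    have h1 := hcon i a b
    rw [fr_det3] at h1
    rw [← h1]
    simp only [q, dotProduct, Fin.sum_univ_three, cross_apply]
    simp
    ring
  have h0 := hC.nonconc q hq
  have h1 := hC.ind a b hab
  exact (crossProduct_ne_zero_iff_linearIndependent.2 h1) h0

/-- the general position step -/
private theorem step {k : ℕ} {L : Fin k → Fin 3 → ℂ} (hC : Config L)
    (hno : ∀ a b c d : Fin k, det3 (L a) (L b) (L c) = 0 ∨ det3 (L a) (L b) (L d) = 0 ∨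
      det3 (L a) (L c) (L d) = 0 ∨ det3 (L b) (L c) (L d) = 0)
    (a b c i : Fin k) (hD : det3 (L a) (L b) (L c) ≠ 0) (hic : i ≠ c)
    (h1 : det3 (L a) (L b) (L i) ≠ 0) (h2 : det3 (L a) (L c) (L i) = 0) (j : Fin k) (hj : j ≠ b) :
    det3 (L a) (L c) (L j) = 0 := by
  by_contra h3
  -- coordinates
  have ei : L i = (det3 (L i) (L b) (L c) / det3 (L a) (L b) (L c)) • L a +
      (det3 (L a) (L b) (L i) / det3 (L a) (L b) (L c)) • L c := by
    have h4 := fr_cramer (L a) (L b) (L c) (L i)
    have h5 : det3 (L a) (L i) (L c) = 0 := by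
      rw [fr_det3] at h2 ⊢
      linear_combination -h2
    rw [h5, zero_smul, add_zero] at h4
    rw [div_eq_inv_mul, div_eq_inv_mul, mul_smul, mul_smul, ← smul_add, ← h4, smul_smul,
      inv_mul_cancel₀ hD, one_smul]
  set α := det3 (L i) (L b) (L c) / det3 (L a) (L b) (L c) with hα
  set γ := det3 (L a) (L b) (L i) / det3 (L a) (L b) (L c) with hγ
  have hγ0 : γ ≠ 0 := div_ne_zero h1 hD
  have hα0 : α ≠ 0 := by
    intro h
    rw [h, zero_smul, zero_add] at ei
    exact fr_not_prop hC hic γ ei
  have ej : L j = (det3 (L j) (L b) (L c) / det3 (L a) (L b) (L c)) • L a +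
      (det3 (L a) (L j) (L c) / det3 (L a) (L b) (L c)) • L b +
      (det3 (L a) (L b) (L j) / det3 (L a) (L b) (L c)) • L c := by
    have h4 := fr_cramer (L a) (L b) (L c) (L j)
    rw [div_eq_inv_mul, div_eq_inv_mul, div_eq_inv_mul, mul_smul, mul_smul, mul_smul, ← smul_add,
      ← smul_add, ← h4, smul_smul, inv_mul_cancel₀ hD, one_smul]
  set α' := det3 (L j) (L b) (L c) / det3 (L a) (L b) (L c) with hα'
  set β' := det3 (L a) (L j) (L c) / det3 (L a) (L b) (L c) with hβ'
  set γ' := det3 (L a) (L b) (L j) / det3 (L a) (L b) (L c) with hγ'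
  have hβ0 : β' ≠ 0 := by
    refine div_ne_zero ?_ hD
    intro h
    apply h3
    rw [fr_det3] at h ⊢
    linear_combination -h
  rcases hno a b c j with h | h | h | h
  · exact hD h
  · -- `j` passes through the vertex of `a` and `b`
    have hg : γ' = 0 := by rw [hγ', h, zero_div]
    rw [hg, zero_smul, add_zero] at ej
    have hα'0 : α' ≠ 0 := by
      intro h'
      rw [h', zero_smul, zero_add] at ej
      exact fr_not_prop hC hj β' ej
    rcases hno i j b c with g | g | g | g
    · have : det3 (L i) (L j) (L b) = γ * α' * det3 (L a) (L b) (L c) := by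
        rw [ei, ej]
        simp only [fr_det3, Pi.add_apply, Pi.smul_apply, smul_eq_mul]
        ring
      rw [this] at g
      exact (mul_ne_zero (mul_ne_zero hγ0 hα'0) hD) g
    · have : det3 (L i) (L j) (L c) = α * β' * det3 (L a) (L b) (L c) := by
        rw [ei, ej]
        simp only [fr_det3, Pi.add_apply, Pi.smul_apply, smul_eq_mul]
        ring
      rw [this] at g
      exact (mul_ne_zero (mul_ne_zero hα0 hβ0) hD) g
    · have : det3 (L i) (L b) (L c) = α * det3 (L a) (L b) (L c) := by
        rw [hα, div_mul_cancel₀ _ hD]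
      rw [this] at g
      exact (mul_ne_zero hα0 hD) g
    · have : det3 (L j) (L b) (L c) = α' * det3 (L a) (L b) (L c) := by
        rw [hα', div_mul_cancel₀ _ hD]
      rw [this] at g
      exact (mul_ne_zero hα'0 hD) g
  · exact h3 h
  · -- `j` passes through the vertex of `b` and `c`
    have ha : α' = 0 := by
      rw [hα']
      have : det3 (L j) (L b) (L c) = 0 := by
        rw [fr_det3] at h ⊢
        linear_combination h
      rw [this, zero_div]
    rw [ha, zero_smul, zero_add] at ej
    have hγ'0 : γ' ≠ 0 := by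
      intro h'
      rw [h', zero_smul, add_zero] at ej
      exact fr_not_prop hC hj β' ej
    rcases hno i j a b with g | g | g | g
    · have : det3 (L i) (L j) (L a) = - (γ * β' * det3 (L a) (L b) (L c)) := by
        rw [ei, ej]
        simp only [fr_det3, Pi.add_apply, Pi.smul_apply, smul_eq_mul]
        ring
      rw [this] at g
      exact (neg_ne_zero.2 (mul_ne_zero (mul_ne_zero hγ0 hβ0) hD)) g
    · have : det3 (L i) (L j) (L b) = - (α * γ' * det3 (L a) (L b) (L c)) := by
        rw [ei, ej]
        simp only [fr_det3, Pi.add_apply, Pi.smul_apply, smul_eq_mul]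
        ring
      rw [this] at g
      exact (neg_ne_zero.2 (mul_ne_zero (mul_ne_zero hα0 hγ'0) hD)) g
    · have : det3 (L i) (L a) (L b) = γ * det3 (L a) (L b) (L c) := by
        rw [ei]
        simp only [fr_det3, Pi.add_apply, Pi.smul_apply, smul_eq_mul]
        ring
      rw [this] at g
      exact (mul_ne_zero hγ0 hD) g
    · have : det3 (L j) (L a) (L b) = γ' * det3 (L a) (L b) (L c) := by
        rw [ej]
        simp only [fr_det3, Pi.add_apply, Pi.smul_apply, smul_eq_mul]
        ring
      rw [this] at g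
      exact (mul_ne_zero hγ'0 hD) g

/-- without four lines in general position all lines but one are concurrent -/
private theorem near_pencil {k : ℕ} {L : Fin k → Fin 3 → ℂ} (hk : 2 ≤ k) (hC : Config L)
    (hno : ∀ a b c d : Fin k, det3 (L a) (L b) (L c) = 0 ∨ det3 (L a) (L b) (L d) = 0 ∨
      det3 (L a) (L c) (L d) = 0 ∨ det3 (L b) (L c) (L d) = 0) :
    ∃ a b c : Fin k, det3 (L a) (L b) (L c) ≠ 0 ∧ ∀ i, i ≠ c → det3 (L a) (L b) (L i) = 0 := by
  obtain ⟨a, b, c, hD⟩ := fr_exists_ind hk hC
  by_cases h : ∀ i, i ≠ c → det3 (L a) (L b) (L i) = 0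
  · exact ⟨a, b, c, hD, h⟩
  push Not at h
  obtain ⟨i, hic, hi⟩ := h
  rcases hno a b c i with g | g | g | g
  · exact absurd g hD
  · exact absurd g hi
  · refine ⟨a, c, b, ?_, step hC hno a b c i hD hic hi g⟩
    intro h
    apply hD
    rw [fr_det3] at h ⊢
    linear_combination -h
  · have hD' : det3 (L b) (L a) (L c) ≠ 0 := by
      intro h
      apply hD
      rw [fr_det3] at h ⊢
      linear_combination -h
    have hi' : det3 (L b) (L a) (L i) ≠ 0 := by
      intro h
      apply hi
      rw [fr_det3] at h ⊢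
      linear_combination -h
    refine ⟨b, c, a, ?_, step hC hno b a c i hD' hic hi' g⟩
    intro h
    apply hD
    rw [fr_det3] at h ⊢
    linear_combination h

/-- rigid configurations of at least five lines contain a frame -/
theorem frame_of_near {k : ℕ} {L : Fin k → Fin 3 → ℂ} (hk : 5 ≤ k) (hC : Config L)
    (hN : NearRigid L) : ∃ a b c d : Fin k, det3 (L a) (L b) (L c) ≠ 0 ∧
      det3 (L a) (L b) (L d) ≠ 0 ∧ det3 (L a) (L c) (L d) ≠ 0 ∧ det3 (L b) (L c) (L d) ≠ 0 := by
  by_contra hcon
  have hno : ∀ a b c d : Fin k, det3 (L a) (L b) (L c) = 0 ∨ det3 (L a) (L b) (L d) = 0 ∨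
      det3 (L a) (L c) (L d) = 0 ∨ det3 (L b) (L c) (L d) = 0 := by
    intro a b c d
    by_contra h
    push Not at h
    exact hcon ⟨a, b, c, d, h⟩
  obtain ⟨a, b, c, hD, hpen⟩ := near_pencil (by omega) hC hno
  have hab : a ≠ b := by
    rintro rfl
    apply hD
    rw [fr_det3]
    ring
  have hac : a ≠ c := by
    rintro rfl
    apply hD
    rw [fr_det3]
    ring
  have hbc : b ≠ c := by
    rintro rfl
    apply hD
    rw [fr_det3]
    ring
  obtain ⟨i, hi⟩ : ∃ i, i ∉ ({a, b, c} : Finset (Fin k)) := by
    by_contra h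
    push Not at h
    have h1 : (Finset.univ : Finset (Fin k)) ⊆ {a, b, c} := fun x _ => h x
    have h2 := (Finset.card_le_card h1).trans Finset.card_le_three
    rw [Finset.card_univ, Fintype.card_fin] at h2
    omega
  obtain ⟨j, hj⟩ : ∃ j, j ∉ ({i, a, b, c} : Finset (Fin k)) := by
    by_contra h
    push Not at h
    have h1 : (Finset.univ : Finset (Fin k)) ⊆ {i, a, b, c} := fun x _ => h x
    have h2 := (Finset.card_le_card h1).trans Finset.card_le_four
    rw [Finset.card_univ, Fintype.card_fin] at h2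
    omega
  simp only [Finset.mem_insert, Finset.mem_singleton, not_or] at hi hj
  obtain ⟨hia, hib, hic⟩ := hi
  obtain ⟨hji, hja, hjb, hjc⟩ := hj
  have hco : ∀ x, x ≠ c → ∃ α β : ℂ, L x = α • L a + β • L b := by
    intro x hx
    refine ⟨det3 (L x) (L b) (L c) / det3 (L a) (L b) (L c),
      det3 (L a) (L x) (L c) / det3 (L a) (L b) (L c), ?_⟩
    have h4 := fr_cramer (L a) (L b) (L c) (L x)
    rw [hpen x hx, zero_smul, add_zero] at h4
    rw [div_eq_inv_mul, div_eq_inv_mul, mul_smul, mul_smul, ← smul_add, ← h4, smul_smul,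
      inv_mul_cancel₀ hD, one_smul]
  have hindab := hC.ind a b hab
  rw [LinearIndependent.pair_iff] at hindab
  -- lines of the pencil that meet on `c` are equal
  have hpair : ∀ y z, y ≠ c → z ≠ c → det3 (L c) (L y) (L z) = 0 → y = z := by
    intro y z hy hz h
    by_contra hyz
    obtain ⟨α, β, ey⟩ := hco y hy
    obtain ⟨α', β', ez⟩ := hco z hz
    have h1 : det3 (L c) (L y) (L z) = (α * β' - β * α') * det3 (L a) (L b) (L c) := by
      rw [ey, ez]
      simp only [fr_det3, Pi.add_apply, Pi.smul_apply, smul_eq_mul]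
      ring
    rw [h1] at h
    have h2 : α * β' - β * α' = 0 := (mul_eq_zero.1 h).resolve_right hD
    have h3 := hC.ind y z hyz
    rw [LinearIndependent.pair_iff] at h3
    have h4 := h3 α' (-α) (by
      funext m
      rw [ey, ez]
      simp only [Pi.add_apply, Pi.smul_apply, smul_eq_mul, Pi.zero_apply]
      linear_combination -(L b m) * h2)
    have h5 := h3 β' (-β) (by
      funext m
      rw [ey, ez]
      simp only [Pi.add_apply, Pi.smul_apply, smul_eq_mul, Pi.zero_apply]
      linear_combination (L a m) * h2)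
    have h6 := h3 1 0 (by
      rw [ey, neg_eq_zero.1 h4.2, neg_eq_zero.1 h5.2]
      simp)
    exact one_ne_zero h6.1
  -- the moved configuration
  obtain ⟨ε, hε, hmv⟩ := hN
  obtain ⟨ε', hε', hdet⟩ := fr_near_det L
  set B : ℝ := (∑ m, ‖L b m‖) + 1 with hB
  have hBpos : 0 < B := by
    have : 0 ≤ ∑ m, ‖L b m‖ := Finset.sum_nonneg fun _ _ => norm_nonneg _
    linarith
  have hmin : 0 < min ε ε' := lt_min hε hε'
  set s : ℝ := min ε ε' / (2 * B) with hs
  have hspos : 0 < s := by positivity
  have hsB : ∀ m, ‖(s : ℂ) * L b m‖ < min ε ε' := by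
    intro m
    rw [norm_mul, Complex.norm_real, Real.norm_of_nonneg hspos.le]
    have h1 : ‖L b m‖ ≤ B := by
      have : ‖L b m‖ ≤ ∑ m, ‖L b m‖ :=
        Finset.single_le_sum (f := fun m => ‖L b m‖) (fun _ _ => norm_nonneg _)
          (Finset.mem_univ m)
      linarith
    have h2 : s * ‖L b m‖ ≤ s * B := mul_le_mul_of_nonneg_left h1 hspos.le
    have h3 : s * B = min ε ε' / 2 := by
      rw [hs]
      field_simp
    linarith
  set L' : Fin k → Fin 3 → ℂ := Function.update L i (L i + (s : ℂ) • L b) with hL'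
  have hL'i : L' i = L i + (s : ℂ) • L b := by rw [hL', Function.update_self]
  have hL'x : ∀ x, x ≠ i → L' x = L x := fun x hx => by
    rw [hL', Function.update_of_ne hx]
  have hnear : ∀ x m, ‖L' x m - L x m‖ < min ε ε' := by
    intro x m
    by_cases hx : x = i
    · rw [hx, hL'i]
      simpa using hsB m
    · rw [hL'x x hx, sub_self, norm_zero]
      exact hmin
  have hco' : ∀ x, x ≠ c → ∃ α β : ℂ, L' x = α • L a + β • L b := by
    intro x hx
    by_cases hxi : x = i
    · obtain ⟨α, β, e⟩ := hco i hic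
      refine ⟨α, β + s, ?_⟩
      rw [hxi, hL'i, e, add_smul, add_assoc]
    · rw [hL'x x hxi]
      exact hco x hx
  have hinc : ∀ x y z, det3 (L' x) (L' y) (L' z) = 0 ↔ det3 (L x) (L y) (L z) = 0 := by
    intro x y z
    constructor
    · intro h
      by_contra h'
      exact hdet L' (fun x m => (hnear x m).trans_le (min_le_right _ _)) x y z h' h
    · intro h
      by_cases hx : x = c
      · subst hx
        by_cases hy : y = x
        · subst hy
          rw [fr_det3]
          ring
        by_cases hz : z = x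
        · subst hz
          rw [fr_det3]
          ring
        rw [hpair y z hy hz h, fr_det3]
        ring
      by_cases hy : y = c
      · subst hy
        by_cases hz : z = y
        · subst hz
          rw [fr_det3]
          ring
        have h' : det3 (L y) (L x) (L z) = 0 := by
          rw [fr_det3] at h ⊢
          linear_combination -h
        rw [hpair x z hx hz h', fr_det3]
        ring
      by_cases hz : z = c
      · subst hz
        have h' : det3 (L z) (L x) (L y) = 0 := by
          rw [fr_det3] at h ⊢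
          linear_combination h
        rw [hpair x y hx hy h', fr_det3]
        ring
      obtain ⟨α, β, e1⟩ := hco' x hx
      obtain ⟨α', β', e2⟩ := hco' y hy
      obtain ⟨α'', β'', e3⟩ := hco' z hz
      rw [e1, e2, e3]
      simp only [fr_det3, Pi.add_apply, Pi.smul_apply, smul_eq_mul]
      ring
  obtain ⟨g, e, -, he, hge⟩ := hmv L' (fun x m => (hnear x m).trans_le (min_le_left _ _)) hinc
  have hg : ∀ x, x ≠ i → Matrix.vecMul (L x) g = (e x)⁻¹ • L x := by
    intro x hx
    have h1 := hge x
    rw [hL'x x hx] at h1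
    rw [eq_inv_smul_iff₀ (he x)]
    exact h1.symm
  have hga := hg a (Ne.symm hia)
  have hgb := hg b (Ne.symm hib)
  have hgj := hg j hji
  obtain ⟨α, β, ej⟩ := hco j hjc
  have hα : α ≠ 0 := by
    intro h
    rw [h, zero_smul, zero_add] at ej
    exact fr_not_prop hC hjb β ej
  have hβ : β ≠ 0 := by
    intro h
    rw [h, zero_smul, add_zero] at ej
    exact fr_not_prop hC hja α ej
  rw [ej, Matrix.add_vecMul, Matrix.smul_vecMul, Matrix.smul_vecMul, hga, hgb] at hgj
  have h1 := hindab (α * ((e a)⁻¹ - (e j)⁻¹)) (β * ((e b)⁻¹ - (e j)⁻¹)) (by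
    have h2 := sub_eq_zero.2 hgj
    rw [← h2]
    funext m
    simp only [Pi.add_apply, Pi.smul_apply, Pi.sub_apply, smul_eq_mul]
    ring)
  have h3 : (e a)⁻¹ = (e j)⁻¹ := sub_eq_zero.1 ((mul_eq_zero.1 h1.1).resolve_left hα)
  have h4 : (e b)⁻¹ = (e j)⁻¹ := sub_eq_zero.1 ((mul_eq_zero.1 h1.2).resolve_left hβ)
  obtain ⟨α', β', ei⟩ := hco i hic
  have h5 := hge i
  have h6 : Matrix.vecMul (L i) g = (e j)⁻¹ • L i := by
    rw [ei, Matrix.add_vecMul, Matrix.smul_vecMul, Matrix.smul_vecMul, hga, hgb, h3, h4]
    funext m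
    simp only [Pi.add_apply, Pi.smul_apply, smul_eq_mul]
    ring
  rw [h6, hL'i] at h5
  have h7 := hC.ind i b hib
  rw [LinearIndependent.pair_iff] at h7
  have h8 := h7 (1 - e i * (e j)⁻¹) (s : ℂ) (by
    have h9 := sub_eq_zero.2 h5
    rw [← h9]
    funext m
    simp only [Pi.add_apply, Pi.smul_apply, Pi.sub_apply, smul_eq_mul]
    ring)
  exact hspos.ne' (by exact_mod_cast h8.2)

end HKR
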