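import Pool.Agent.Lib.HKR.FR1
import Pool.Agent.Lib.HKR.FR2

/-!
HKR.FR3: a rigid configuration of at least five lines is formally rigid, and a formally rigid
configuration is rigid for affine deformations.  By helper16.

PROOF. Let `M` be a formal arc of configurations with the incidences of `L`. Four lines of `L` are
in general position (FR2), and there is an invertible matrix `G` over the power series,
`G(0) = 1`, that maps the four lines of `L` to those of `M` up to units. Let `N_i` be `M_i G⁻¹`
scaled so that one coordinate is constant. Then `N` is an arc in the closed set `Z` of the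
configurations with all the incidences of `L`, with the four frame lines and one nonzero
coordinate of every line fixed. By rigidity `L` is an isolated point of `Z`, so `N` is constant
(FR1). The second statement: look at the coefficients of degree 0 and 1.
-/

set_option autoImplicit false

namespace HKR

open Matrix

/-- expansion of a determinant -/
private def dt {A : Type} [CommRing A] (a b c : Fin 3 → A) : A :=
  a 0 * (b 1 * c 2 - b 2 * c 1) - a 1 * (b 0 * c 2 - b 2 * c 0) + a 2 * (b 0 * c 1 - b 1 * c 0)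

private theorem dt_eq {A : Type} [CommRing A] (a b c : Fin 3 → A) :
    Matrix.det (Matrix.of ![a, b, c]) = dt a b c := by
  rw [Matrix.det_fin_three]
  simp [dt]
  ring

private theorem dt_det3 (a b c : Fin 3 → ℂ) : det3 a b c = dt a b c := dt_eq a b c

private theorem dt_map {A B : Type} [CommRing A] [CommRing B] (f : A →+* B) (a b c : Fin 3 → A) :
    f (dt a b c) = dt (fun j => f (a j)) (fun j => f (b j)) (fun j => f (c j)) := by
  simp [dt]

private theorem dt_vecMul {A : Type} [CommRing A] (a b c : Fin 3 → A)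
    (G : Matrix (Fin 3) (Fin 3) A) :
    dt (vecMul a G) (vecMul b G) (vecMul c G) = dt a b c * G.det := by
  rw [Matrix.det_fin_three]
  simp only [dt, vecMul, dotProduct, Fin.sum_univ_three]
  ring

private theorem dt_smul {A : Type} [CommRing A] (a b c : Fin 3 → A) (x y z : A) :
    dt (fun j => x * a j) (fun j => y * b j) (fun j => z * c j) = x * y * z * dt a b c := by
  simp only [dt]
  ring

private theorem cramer {A : Type} [CommRing A] (a b c v : Fin 3 → A) (j : Fin 3) :
    dt a b c * v j = dt v b c * a j + dt a v c * b j + dt a b v * c j := by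
  fin_cases j <;> simp [dt] <;> ring

private theorem exists_G {k : ℕ} {L : Fin k → Fin 3 → ℂ} {a b c d : Fin k}
    (h1 : det3 (L a) (L b) (L c) ≠ 0) (h2 : det3 (L a) (L b) (L d) ≠ 0)
    (h3 : det3 (L a) (L c) (L d) ≠ 0) (h4 : det3 (L b) (L c) (L d) ≠ 0)
    (M : Fin k → Fin 3 → PowerSeries ℂ)
    (h0 : ∀ i j, PowerSeries.constantCoeff (M i j) = L i j) :
    ∃ G : Matrix (Fin 3) (Fin 3) (PowerSeries ℂ), IsUnit G.det ∧
      (∀ i j, PowerSeries.constantCoeff (G i j) = (1 : Matrix (Fin 3) (Fin 3) ℂ) i j) ∧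
      ∀ e ∈ ({a, b, c, d} : Finset (Fin k)), ∃ u : PowerSeries ℂ, u ≠ 0 ∧
        vecMul (fun j => PowerSeries.C (L e j)) G = u • M e := by
  have hcc : ∀ x y z : Fin k, PowerSeries.constantCoeff (dt (M x) (M y) (M z)) =
      dt (L x) (L y) (L z) := by
    intro x y z
    rw [dt_map]
    simp only [h0]
  rw [dt_det3] at h1 h2 h3 h4
  have h2' : dt (L d) (L a) (L b) ≠ 0 := by
    intro h
    apply h2
    simp only [dt] at h ⊢
    linear_combination h
  have h3' : dt (L d) (L a) (L c) ≠ 0 := by
    intro h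
    apply h3
    simp only [dt] at h ⊢
    linear_combination h
  have h4' : dt (L d) (L b) (L c) ≠ 0 := by
    intro h
    apply h4
    simp only [dt] at h ⊢
    linear_combination h
  have h3'' : dt (L a) (L d) (L c) ≠ 0 := by
    intro h
    apply h3
    simp only [dt] at h ⊢
    linear_combination -h
  set δ := dt (M a) (M b) (M c) with hδ
  have hδ0 : PowerSeries.constantCoeff δ ≠ 0 := by
    rw [hδ, hcc]
    exact h1
  have hδi : δ * δ⁻¹ = 1 := PowerSeries.mul_inv_cancel δ hδ0
  set δ₀ := dt (L a) (L b) (L c) with hδ₀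
  -- the scalars
  set ua : PowerSeries ℂ := dt (M d) (M b) (M c) * δ⁻¹ *
    PowerSeries.C (δ₀ * (dt (L d) (L b) (L c))⁻¹) with hua
  set ub : PowerSeries ℂ := dt (M a) (M d) (M c) * δ⁻¹ *
    PowerSeries.C (δ₀ * (dt (L a) (L d) (L c))⁻¹) with hub
  set uc : PowerSeries ℂ := dt (M a) (M b) (M d) * δ⁻¹ *
    PowerSeries.C (δ₀ * (dt (L a) (L b) (L d))⁻¹) with huc
  have hccδ : PowerSeries.constantCoeff δ = δ₀ := by rw [hδ, hcc]
  have ha0 : PowerSeries.constantCoeff ua = 1 := by
    rw [hua, map_mul, map_mul, PowerSeries.constantCoeff_inv, hccδ, hcc,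
      PowerSeries.constantCoeff_C]
    field_simp
  have hb0 : PowerSeries.constantCoeff ub = 1 := by
    rw [hub, map_mul, map_mul, PowerSeries.constantCoeff_inv, hccδ, hcc,
      PowerSeries.constantCoeff_C]
    field_simp
  have hc0 : PowerSeries.constantCoeff uc = 1 := by
    rw [huc, map_mul, map_mul, PowerSeries.constantCoeff_inv, hccδ, hcc,
      PowerSeries.constantCoeff_C]
    field_simp
  have hne : ∀ u : PowerSeries ℂ, PowerSeries.constantCoeff u = 1 → u ≠ 0 := by
    rintro u hu rfl
    rw [map_zero] at hu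
    exact zero_ne_one hu
  -- the matrices
  set P : Matrix (Fin 3) (Fin 3) ℂ := Matrix.of ![L a, L b, L c] with hP
  have hPdet : IsUnit P.det := by
    rw [hP, dt_eq]
    exact isUnit_iff_ne_zero.2 h1
  set Q : Matrix (Fin 3) (Fin 3) (PowerSeries ℂ) := Matrix.of ![M a, M b, M c] with hQ
  set D : Matrix (Fin 3) (Fin 3) (PowerSeries ℂ) := Matrix.diagonal ![ua, ub, uc] with hD
  set G : Matrix (Fin 3) (Fin 3) (PowerSeries ℂ) :=
    (P⁻¹).map (PowerSeries.C : ℂ →+* PowerSeries ℂ) * (D * Q) with hG
  have hPG : P.map (PowerSeries.C : ℂ →+* PowerSeries ℂ) * G = D * Q := by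
    rw [hG, ← Matrix.mul_assoc, ← Matrix.map_mul, Matrix.mul_nonsing_inv _ hPdet, Matrix.map_one,
      Matrix.one_mul]
    · exact map_zero _
    · exact map_one _
  have hDQ : ∀ i j, (D * Q) i j = ![ua, ub, uc] i * Q i j := by
    intro i j
    rw [hD, Matrix.diagonal_mul]
  have hrow : ∀ i j, vecMul (fun m => PowerSeries.C (P i m)) G j = ![ua, ub, uc] i * Q i j := by
    intro i j
    rw [← hDQ, ← hPG, Matrix.mul_apply]
    rfl
  have hea : vecMul (fun j => PowerSeries.C (L a j)) G = ua • M a := by
    funext j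
    exact hrow 0 j
  have heb : vecMul (fun j => PowerSeries.C (L b j)) G = ub • M b := by
    funext j
    exact hrow 1 j
  have hec : vecMul (fun j => PowerSeries.C (L c j)) G = uc • M c := by
    funext j
    exact hrow 2 j
  have hG0 : G.map (PowerSeries.constantCoeff (R := ℂ)) = 1 := by
    have e1 : D.map (PowerSeries.constantCoeff (R := ℂ)) = 1 := by
      ext i j
      rw [Matrix.map_apply, hD]
      fin_cases i <;> fin_cases j <;> simp [Matrix.diagonal, ha0, hb0, hc0]
    have e2 : Q.map (PowerSeries.constantCoeff (R := ℂ)) = P := by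
      ext i j
      rw [Matrix.map_apply, hQ, hP]
      fin_cases i <;> simp [h0]
    have e3 : ((P⁻¹).map (PowerSeries.C : ℂ →+* PowerSeries ℂ)).map
        (PowerSeries.constantCoeff (R := ℂ)) = P⁻¹ := by
      ext i j
      simp
    rw [hG, Matrix.map_mul, Matrix.map_mul, e1, e2, e3, Matrix.one_mul,
      Matrix.nonsing_inv_mul _ hPdet]
  refine ⟨G, ?_, ?_, ?_⟩
  · rw [PowerSeries.isUnit_iff_constantCoeff, RingHom.map_det]
    have : (PowerSeries.constantCoeff (R := ℂ)).mapMatrix G = 1 := hG0
    rw [this, Matrix.det_one]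
    exact isUnit_one
  · intro i j
    rw [← hG0, Matrix.map_apply]
  · intro e he
    simp only [Finset.mem_insert, Finset.mem_singleton] at he
    rcases he with rfl | rfl | rfl | rfl
    · exact ⟨ua, hne _ ha0, hea⟩
    · exact ⟨ub, hne _ hb0, heb⟩
    · exact ⟨uc, hne _ hc0, hec⟩
    · refine ⟨1, one_ne_zero, ?_⟩
      have hLd : (fun j => (PowerSeries.C (L e j) : PowerSeries ℂ)) =
          PowerSeries.C (dt (L e) (L b) (L c) * δ₀⁻¹) • (fun j => PowerSeries.C (L a j)) +
          PowerSeries.C (dt (L a) (L e) (L c) * δ₀⁻¹) • (fun j => PowerSeries.C (L b j)) +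
          PowerSeries.C (dt (L a) (L b) (L e) * δ₀⁻¹) • (fun j => PowerSeries.C (L c j)) := by
        funext j
        have h5 := cramer (L a) (L b) (L c) (L e) j
        simp only [Pi.add_apply, Pi.smul_apply, smul_eq_mul, ← map_mul, ← map_add]
        congr 1
        rw [← hδ₀] at h5
        field_simp
        linear_combination h5
      rw [hLd, Matrix.add_vecMul, Matrix.add_vecMul, Matrix.smul_vecMul, Matrix.smul_vecMul,
        Matrix.smul_vecMul, hea, heb, hec]
      funext j
      have h5 := cramer (M a) (M b) (M c) (M e) j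
      rw [← hδ] at h5
      have h6 : M e j = δ⁻¹ * (dt (M e) (M b) (M c) * M a j + dt (M a) (M e) (M c) * M b j +
          dt (M a) (M b) (M e) * M c j) := by
        rw [← h5, ← mul_assoc, mul_comm δ⁻¹ δ, hδi, one_mul]
      have ka : (PowerSeries.C (dt (L e) (L b) (L c) * δ₀⁻¹) : PowerSeries ℂ) *
          PowerSeries.C (δ₀ * (dt (L e) (L b) (L c))⁻¹) = 1 := by
        rw [← map_mul]
        have : dt (L e) (L b) (L c) * δ₀⁻¹ * (δ₀ * (dt (L e) (L b) (L c))⁻¹) = 1 := by
          field_simp
        rw [this, map_one]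
      have kb : (PowerSeries.C (dt (L a) (L e) (L c) * δ₀⁻¹) : PowerSeries ℂ) *
          PowerSeries.C (δ₀ * (dt (L a) (L e) (L c))⁻¹) = 1 := by
        rw [← map_mul]
        have : dt (L a) (L e) (L c) * δ₀⁻¹ * (δ₀ * (dt (L a) (L e) (L c))⁻¹) = 1 := by
          field_simp
        rw [this, map_one]
      have kc : (PowerSeries.C (dt (L a) (L b) (L e) * δ₀⁻¹) : PowerSeries ℂ) *
          PowerSeries.C (δ₀ * (dt (L a) (L b) (L e))⁻¹) = 1 := by
        rw [← map_mul]
        have : dt (L a) (L b) (L e) * δ₀⁻¹ * (δ₀ * (dt (L a) (L b) (L e))⁻¹) = 1 := by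
          field_simp
        rw [this, map_one]
      simp only [Pi.add_apply, Pi.smul_apply, smul_eq_mul, one_mul]
      rw [h6, hua, hub, huc]
      linear_combination (dt (M e) (M b) (M c) * δ⁻¹ * M a j) * ka +
        (dt (M a) (M e) (M c) * δ⁻¹ * M b j) * kb + (dt (M a) (M b) (M e) * δ⁻¹ * M c j) * kc

/-- a matrix with four eigenvectors in general position is scalar -/
private theorem scalar_of_frame {a b c d : Fin 3 → ℂ} (h1 : dt a b c ≠ 0) (h2 : dt a b d ≠ 0)
    (h3 : dt a c d ≠ 0) (h4 : dt b c d ≠ 0) (g : Matrix (Fin 3) (Fin 3) ℂ) (x y z w : ℂ)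
    (ha : vecMul a g = x • a) (hb : vecMul b g = y • b) (hc : vecMul c g = z • c)
    (hd : vecMul d g = w • d) (v : Fin 3 → ℂ) : vecMul v g = w • v := by
  have hlin : ∀ v : Fin 3 → ℂ, dt a b c • v = dt v b c • a + dt a v c • b + dt a b v • c := by
    intro v
    funext j
    exact cramer a b c v j
  have hdd : dt a b c • (w • d) = dt d b c • (x • a) + dt a d c • (y • b) +
      dt a b d • (z • c) := by
    rw [← hd, ← ha, ← hb, ← hc, ← Matrix.smul_vecMul, ← Matrix.smul_vecMul, ← Matrix.smul_vecMul,
      ← Matrix.smul_vecMul, ← Matrix.add_vecMul, ← Matrix.add_vecMul, hlin d]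
  have hz : ∀ α β γ : ℂ, α • a + β • b + γ • c = 0 → α = 0 ∧ β = 0 ∧ γ = 0 := by
    intro α β γ h
    have e0 := congrFun h 0
    have e1 := congrFun h 1
    have e2 := congrFun h 2
    simp only [Pi.add_apply, Pi.smul_apply, smul_eq_mul, Pi.zero_apply] at e0 e1 e2
    refine ⟨?_, ?_, ?_⟩
    · refine (mul_eq_zero.1 (?_ : α * dt a b c = 0)).resolve_right h1
      simp only [dt]
      linear_combination (b 1 * c 2 - b 2 * c 1) * e0 - (b 0 * c 2 - b 2 * c 0) * e1 +
        (b 0 * c 1 - b 1 * c 0) * e2
    · refine (mul_eq_zero.1 (?_ : β * dt a b c = 0)).resolve_right h1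
      simp only [dt]
      linear_combination -(a 1 * c 2 - a 2 * c 1) * e0 + (a 0 * c 2 - a 2 * c 0) * e1 -
        (a 0 * c 1 - a 1 * c 0) * e2
    · refine (mul_eq_zero.1 (?_ : γ * dt a b c = 0)).resolve_right h1
      simp only [dt]
      linear_combination (a 1 * b 2 - a 2 * b 1) * e0 - (a 0 * b 2 - a 2 * b 0) * e1 +
        (a 0 * b 1 - a 1 * b 0) * e2
  have h5 := hz (dt d b c * (x - w)) (dt a d c * (y - w)) (dt a b d * (z - w)) (by
    have e := hlin d
    funext j
    have e' := congrFun e j
    have f' := congrFun hdd j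
    simp only [Pi.add_apply, Pi.smul_apply, smul_eq_mul, Pi.zero_apply] at e' f' ⊢
    linear_combination w * e' - f')
  have h4' : dt d b c ≠ 0 := by
    intro h
    apply h4
    simp only [dt] at h ⊢
    linear_combination h
  have h3' : dt a d c ≠ 0 := by
    intro h
    apply h3
    simp only [dt] at h ⊢
    linear_combination -h
  have hx : x = w := sub_eq_zero.1 ((mul_eq_zero.1 h5.1).resolve_left h4')
  have hy : y = w := sub_eq_zero.1 ((mul_eq_zero.1 h5.2.1).resolve_left h3')
  have hz' : z = w := sub_eq_zero.1 ((mul_eq_zero.1 h5.2.2).resolve_left h2)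
  have h6 : dt a b c • vecMul v g = dt a b c • (w • v) := by
    rw [← Matrix.smul_vecMul, hlin v, Matrix.add_vecMul, Matrix.add_vecMul, Matrix.smul_vecMul,
      Matrix.smul_vecMul, Matrix.smul_vecMul, ha, hb, hc, hx, hy, hz', smul_comm (dt a b c) w v,
      hlin v, smul_add, smul_add, smul_comm w, smul_comm w, smul_comm w]
  exact smul_right_injective _ h1 h6

/-- a rigid configuration of at least five lines is formally rigid -/
theorem formal_of_near {k : ℕ} {L : Fin k → Fin 3 → ℂ} (hk : 5 ≤ k) (hC : Config L)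
    (hN : NearRigid L) : FormalRigid L := by
  obtain ⟨a, b, c, d, h1, h2, h3, h4⟩ := frame_of_near hk hC hN
  intro M h0 hM
  obtain ⟨G, hG, hG0, hGu⟩ := exists_G h1 h2 h3 h4 M h0
  have hr : ∀ i, ∃ r, L i r ≠ 0 := by
    intro i
    by_contra hcon
    push Not at hcon
    obtain ⟨j, hj⟩ : ∃ j, j ≠ i := by
      have : Nontrivial (Fin k) := Fin.nontrivial_iff_two_le.2 (by omega)
      exact exists_ne i
    refine fr_not_prop hC (Ne.symm hj) 0 ?_
    funext m
    rw [hcon m]
    simp
  choose r hr using hr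
  -- the normalised arc
  set N0 : Fin k → Fin 3 → PowerSeries ℂ := fun i => vecMul (M i) G⁻¹ with hN0
  have hN0G : ∀ i, vecMul (N0 i) G = M i := by
    intro i
    rw [hN0]
    simp only
    rw [Matrix.vecMul_vecMul, Matrix.nonsing_inv_mul _ hG, Matrix.vecMul_one]
  have hN0c : ∀ i j, PowerSeries.constantCoeff (N0 i j) = L i j := by
    intro i j
    rw [← h0 i j, ← hN0G i]
    simp only [vecMul, dotProduct, map_sum, map_mul, hG0]
    rw [Finset.sum_eq_single j]
    · rw [Matrix.one_apply_eq, mul_one]
    · intro m _ hm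
      rw [Matrix.one_apply_ne hm, mul_zero]
    · intro h
      exact absurd (Finset.mem_univ j) h
  have hinv : ∀ i, N0 i (r i) * (N0 i (r i))⁻¹ = 1 := by
    intro i
    apply PowerSeries.mul_inv_cancel
    rw [hN0c]
    exact hr i
  have hN0ne : ∀ i, N0 i (r i) ≠ 0 := by
    intro i h
    have := hinv i
    rw [h, zero_mul] at this
    exact zero_ne_one this
  set ν : Fin k → PowerSeries ℂ := fun i => PowerSeries.C (L i (r i)) * (N0 i (r i))⁻¹ with hν
  have hν0 : ∀ i, PowerSeries.constantCoeff (ν i) = 1 := by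
    intro i
    rw [hν]
    simp only
    rw [map_mul, PowerSeries.constantCoeff_inv, hN0c, PowerSeries.constantCoeff_C]
    exact mul_inv_cancel₀ (hr i)
  have hνr : ∀ i, ν i * N0 i (r i) = PowerSeries.C (L i (r i)) := by
    intro i
    rw [hν]
    simp only
    rw [mul_assoc, mul_comm _ (N0 i (r i)), hinv, mul_one]
  have hframe : ∀ e ∈ ({a, b, c, d} : Finset (Fin k)), ∀ m,
      ν e * N0 e m = PowerSeries.C (L e m) := by
    intro e he m
    obtain ⟨u, hu, hue⟩ := hGu e he
    have hCe : ∀ m, PowerSeries.C (L e m) = u * N0 e m := by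
      intro m
      have h5 : vecMul (vecMul (fun j => PowerSeries.C (L e j)) G) G⁻¹ =
          (fun j => PowerSeries.C (L e j)) := by
        rw [Matrix.vecMul_vecMul, Matrix.mul_nonsing_inv _ hG, Matrix.vecMul_one]
      rw [hue, Matrix.smul_vecMul] at h5
      have h6 := congrFun h5 m
      rw [← h6]
      rfl
    have h7 : ν e = u := by
      have h8 : ν e * N0 e (r e) = u * N0 e (r e) := by rw [hνr, hCe]
      exact mul_right_cancel₀ (hN0ne e) h8
    rw [h7, hCe]
  -- the equations
  let PP : Set (MvPolynomial (Fin k × Fin 3) ℂ) :=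
    {f | (∃ i j l, det3 (L i) (L j) (L l) = 0 ∧
        f = dt (fun m => MvPolynomial.X (i, m)) (fun m => MvPolynomial.X (j, m))
          (fun m => MvPolynomial.X (l, m))) ∨
      (∃ i, f = MvPolynomial.X (i, r i) - MvPolynomial.C (L i (r i))) ∨
      (∃ e ∈ ({a, b, c, d} : Finset (Fin k)), ∃ m,
        f = MvPolynomial.X (e, m) - MvPolynomial.C (L e m))}
  have hconst := arc_const PP (fun q => L q.1 q.2) ?_ (fun q => ν q.1 * N0 q.1 q.2) ?_ ?_
  · refine ⟨G, fun i => (ν i)⁻¹, ?_, ?_⟩
    · intro i
      rw [PowerSeries.isUnit_iff_constantCoeff, PowerSeries.constantCoeff_inv, hν0, inv_one]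
      exact isUnit_one
    · intro i
      have hνi : (ν i)⁻¹ * ν i = 1 := by
        apply PowerSeries.inv_mul_cancel
        rw [hν0]
        exact one_ne_zero
      have h5 : (fun j => PowerSeries.C (L i j)) = ν i • N0 i := by
        funext j
        exact (hconst (i, j)).symm
      rw [h5, Matrix.smul_vecMul, hN0G, smul_smul, hνi, one_smul]
  · -- the point is isolated
    obtain ⟨ε, hε, hmv⟩ := hN
    obtain ⟨ε', hε', hdet⟩ := fr_near_det L
    refine ⟨min ε ε', lt_min hε hε', ?_⟩
    intro x hx hxP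
    set L' : Fin k → Fin 3 → ℂ := fun i j => x (i, j) with hL'
    have hzero : ∀ i j l, det3 (L i) (L j) (L l) = 0 → det3 (L' i) (L' j) (L' l) = 0 := by
      intro i j l h
      have h5 := hxP _ (Or.inl ⟨i, j, l, h, rfl⟩)
      rw [dt_map] at h5
      simp only [MvPolynomial.eval_X] at h5
      rw [dt_det3]
      exact h5
    have hfix : ∀ i, L' i (r i) = L i (r i) := by
      intro i
      have h5 := hxP _ (Or.inr (Or.inl ⟨i, rfl⟩))
      rw [map_sub, MvPolynomial.eval_X, MvPolynomial.eval_C] at h5
      exact sub_eq_zero.1 h5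
    have hfr : ∀ e ∈ ({a, b, c, d} : Finset (Fin k)), L' e = L e := by
      intro e he
      funext m
      have h5 := hxP _ (Or.inr (Or.inr ⟨e, he, m, rfl⟩))
      rw [map_sub, MvPolynomial.eval_X, MvPolynomial.eval_C] at h5
      exact sub_eq_zero.1 h5
    obtain ⟨g, s, -, hs, hgs⟩ := hmv L' (fun i j => (hx (i, j)).trans_le (min_le_left _ _)) (by
      intro i j l
      constructor
      · intro h
        by_contra h'
        exact hdet L' (fun i j => (hx (i, j)).trans_le (min_le_right _ _)) i j l h' h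
      · exact hzero i j l)
    have hge : ∀ e ∈ ({a, b, c, d} : Finset (Fin k)), vecMul (L e) g = (s e)⁻¹ • L e := by
      intro e he
      rw [eq_inv_smul_iff₀ (hs e), ← hgs e]
      exact hfr e he
    rw [dt_det3] at h1 h2 h3 h4
    have hsc := scalar_of_frame h1 h2 h3 h4 g _ _ _ _ (hge a (by simp)) (hge b (by simp))
      (hge c (by simp)) (hge d (by simp))
    funext q
    obtain ⟨i, j⟩ := q
    have h5 : ∀ m, L' i m = s i * (s d)⁻¹ * L i m := by
      intro m
      have h6 := congrFun (hgs i) m
      rw [hsc (L i)] at h6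
      rw [h6]
      simp only [Pi.smul_apply, smul_eq_mul]
      ring
    have h7 : s i * (s d)⁻¹ = 1 := by
      have h8 := h5 (r i)
      rw [hfix i] at h8
      have h9 : (s i * (s d)⁻¹ - 1) * L i (r i) = 0 := by linear_combination -h8
      exact sub_eq_zero.1 ((mul_eq_zero.1 h9).resolve_right (hr i))
    have h10 := h5 j
    rw [h7, one_mul] at h10
    exact h10
  · intro q
    rw [map_mul, hν0, one_mul, hN0c]
  · intro f hf
    rcases hf with ⟨i, j, l, h, rfl⟩ | ⟨i, rfl⟩ | ⟨e, he, m, rfl⟩
    · have h5 := dt_map ((MvPolynomial.aeval (fun q : Fin k × Fin 3 =>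
        ν q.1 * N0 q.1 q.2)) : MvPolynomial (Fin k × Fin 3) ℂ →ₐ[ℂ] PowerSeries ℂ).toRingHom
        (fun m => MvPolynomial.X (i, m)) (fun m => MvPolynomial.X (j, m))
          (fun m => MvPolynomial.X (l, m))
      refine h5.trans ?_
      simp only [AlgHom.toRingHom_eq_coe, RingHom.coe_coe, MvPolynomial.aeval_X]
      rw [dt_smul]
      have h6 : dt (N0 i) (N0 j) (N0 l) * G.det = 0 := by
        rw [← dt_vecMul, hN0G, hN0G, hN0G, ← dt_eq]
        exact hM i j l h
      have h7 : dt (N0 i) (N0 j) (N0 l) = 0 := (mul_eq_zero.1 h6).resolve_right hG.ne_zero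
      rw [h7, mul_zero]
    · rw [map_sub, MvPolynomial.aeval_X, MvPolynomial.aeval_C]
      simp only
      rw [hνr]
      exact sub_self _
    · rw [map_sub, MvPolynomial.aeval_X, MvPolynomial.aeval_C]
      simp only
      rw [hframe e he]
      exact sub_self _

/-- a formally rigid configuration is rigid for affine deformations -/
theorem aff_of_formal {k : ℕ} {L : Fin k → Fin 3 → ℂ} (hC : Config L) (hF : FormalRigid L) :
    AffRigid L := by
  intro w hw
  obtain ⟨g, c, hc, hg⟩ := hF (fun i j => PowerSeries.C (L i j) + PowerSeries.X *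
    PowerSeries.C (w i j)) (by
      intro i j
      simp) (by
      intro i j l h
      have h1 : dt (fun m => Polynomial.C (L i m) + Polynomial.X * Polynomial.C (w i m))
          (fun m => Polynomial.C (L j m) + Polynomial.X * Polynomial.C (w j m))
          (fun m => Polynomial.C (L l m) + Polynomial.X * Polynomial.C (w l m)) = 0 := by
        apply Polynomial.funext
        intro t
        have h2 := dt_map (Polynomial.evalRingHom t)
          (fun m => Polynomial.C (L i m) + Polynomial.X * Polynomial.C (w i m))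
          (fun m => Polynomial.C (L j m) + Polynomial.X * Polynomial.C (w j m))
          (fun m => Polynomial.C (L l m) + Polynomial.X * Polynomial.C (w l m))
        simp only [Polynomial.coe_evalRingHom, Polynomial.eval_add, Polynomial.eval_C,
          Polynomial.eval_mul, Polynomial.eval_X] at h2
        rw [h2, Polynomial.eval_zero, ← hw i j l h t, dt_det3]
        rfl
      have h3 := congrArg (Polynomial.coeToPowerSeries.ringHom (R := ℂ)) h1
      rw [dt_map, map_zero] at h3
      rw [dt_eq, ← h3]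
      simp only [map_add, map_mul, Polynomial.coeToPowerSeries.ringHom_apply, Polynomial.coe_C,
        Polynomial.coe_X])
  -- coefficients
  set g0 : Matrix (Fin 3) (Fin 3) ℂ := g.map (PowerSeries.coeff 0) with hg0
  set g1 : Matrix (Fin 3) (Fin 3) ℂ := g.map (PowerSeries.coeff 1) with hg1
  have hc0 : ∀ i, PowerSeries.coeff 0 (c i) ≠ 0 := by
    intro i
    have h := hc i
    rw [PowerSeries.isUnit_iff_constantCoeff] at h
    rw [PowerSeries.coeff_zero_eq_constantCoeff_apply]
    exact h.ne_zero
  have e0 : ∀ i, L i = PowerSeries.coeff 0 (c i) • vecMul (L i) g0 := by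
    intro i
    funext j
    have h := congrArg (PowerSeries.coeff 0) (congrFun (hg i) j)
    simp only [vecMul, dotProduct, Pi.smul_apply, smul_eq_mul, map_add, Fin.sum_univ_three,
      PowerSeries.coeff_zero_eq_constantCoeff_apply, map_mul, PowerSeries.constantCoeff_C,
      PowerSeries.constantCoeff_X, zero_mul, add_zero] at h
    rw [h]
    simp only [vecMul, dotProduct, Pi.smul_apply, smul_eq_mul, Fin.sum_univ_three, hg0,
      Matrix.map_apply, PowerSeries.coeff_zero_eq_constantCoeff_apply]
  have e1 : ∀ i, w i = PowerSeries.coeff 1 (c i) • vecMul (L i) g0 +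
      PowerSeries.coeff 0 (c i) • vecMul (L i) g1 := by
    intro i
    funext j
    have h := congrArg (PowerSeries.coeff 1) (congrFun (hg i) j)
    have h2 : ∀ x y : PowerSeries ℂ, PowerSeries.coeff 1 (x * y) =
        PowerSeries.coeff 0 x * PowerSeries.coeff 1 y +
        PowerSeries.coeff 1 x * PowerSeries.coeff 0 y := by
      intro x y
      rw [PowerSeries.coeff_mul, Finset.Nat.sum_antidiagonal_eq_sum_range_succ_mk]
      simp [Finset.sum_range_succ]
    have h3 : ∀ z : ℂ, PowerSeries.coeff 1 (PowerSeries.C z : PowerSeries ℂ) = 0 := by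
      intro z
      rw [PowerSeries.coeff_C]
      simp
    have h4 : ∀ z : ℂ, PowerSeries.coeff 0 (PowerSeries.C z : PowerSeries ℂ) = z := by
      intro z
      simp
    have h5 : ∀ x y : PowerSeries ℂ, PowerSeries.coeff 0 (x * y) =
        PowerSeries.coeff 0 x * PowerSeries.coeff 0 y := by
      intro x y
      rw [PowerSeries.coeff_zero_eq_constantCoeff_apply, map_mul,
        PowerSeries.coeff_zero_eq_constantCoeff_apply, PowerSeries.coeff_zero_eq_constantCoeff_apply]
    simp only [vecMul, dotProduct, Pi.smul_apply, smul_eq_mul, map_add, Fin.sum_univ_three,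
      h2, h3, h4, h5, PowerSeries.coeff_one_X, PowerSeries.coeff_zero_X] at h
    simp only [vecMul, dotProduct, Pi.smul_apply, Pi.add_apply, smul_eq_mul,
      Fin.sum_univ_three, hg0, hg1, Matrix.map_apply]
    linear_combination h
  have hdet : IsUnit g0.det := by
    rw [isUnit_iff_ne_zero]
    intro h
    obtain ⟨q, hq, hq0⟩ := Matrix.exists_mulVec_eq_zero_iff.2 h
    apply hq
    apply hC.nonconc
    intro i
    rw [e0 i, smul_dotProduct, ← Matrix.dotProduct_mulVec, hq0, dotProduct_zero, smul_zero]
  refine ⟨g0⁻¹ * g1, fun i => PowerSeries.coeff 1 (c i) * (PowerSeries.coeff 0 (c i))⁻¹, ?_⟩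
  intro i
  have h5 : vecMul (L i) g0⁻¹ = PowerSeries.coeff 0 (c i) • L i := by
    have h6 := congrArg (fun v => vecMul v g0⁻¹) (e0 i)
    simp only [Matrix.smul_vecMul, Matrix.vecMul_vecMul] at h6
    rw [Matrix.mul_nonsing_inv _ hdet, Matrix.vecMul_one] at h6
    exact h6
  have h7 : vecMul (L i) g0 = (PowerSeries.coeff 0 (c i))⁻¹ • L i := by
    rw [eq_inv_smul_iff₀ (hc0 i)]
    exact (e0 i).symm
  rw [← Matrix.vecMul_vecMul, h5, Matrix.smul_vecMul, e1 i, h7, smul_smul]

end HKR
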