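import Pool.Agent.Lib.HKR.FB
import Pool.Agent.Lib.HKR.FR3
/-!
HKR.FC (stage B: rigidity of the surface for rigid configurations of at least six lines), by helper90.
-/
namespace HKR

theorem rigid_six {k : ℕ} [NeZero k] {L : Fin k → Fin 3 → ℂ} (hk : 6 ≤ k) (hC : Config L)
    (hN : NearRigid L) :
    ∃ N : ℕ, ∀ n ≥ N, ∀ (K : Type) [Field K] [Algebra Fn K] [Algebra ℂ K] [IsScalarTower ℂ Fn K]
      (z : Fin k → K), Kum L n K z → ArcRigid L K := by
  have hF : FormalRigid L := formal_of_near (by omega) hC hN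
  exact stageB_formal hk hC (aff_of_formal hC hF) hF

theorem stageB : StageB := fun _ _ hC hN => rigid_six (by omega) hC hN

end HKR
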