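import Mathlib

/-!
HKR.FR1 (pure): an isolated complex zero of a system of polynomials has no nonconstant formal arc
with coefficients in the power series ring.  By helper16.
-/

set_option autoImplicit false

namespace HKR

open Filter Topology

/-- a small value at zero of a monic polynomial gives a small root -/
private theorem exists_small_root (q : Polynomial ℂ) (hq : q.Monic) (δ : ℝ)
    (hδ : 0 < δ) (h0 : ‖q.coeff 0‖ < δ ^ q.natDegree) : ∃ z : ℂ, q.eval z = 0 ∧ ‖z‖ < δ := by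
  by_contra hcon
  push Not at hcon
  have hs : q.Splits := IsAlgClosed.splits q
  have h1 : ∀ z ∈ q.roots, δ ≤ ‖z‖ := fun z hz => hcon z ((Polynomial.mem_roots hq.ne_zero).1 hz)
  have h2 : ∀ s : Multiset ℂ, (∀ z ∈ s, δ ≤ ‖z‖) → δ ^ Multiset.card s ≤ ‖s.prod‖ := by
    intro s
    induction s using Multiset.induction with
    | empty => intro _; simp
    | cons a s ih =>
      intro hs
      rw [Multiset.card_cons, Multiset.prod_cons, norm_mul, pow_succ, mul_comm]
      have ha := hs a (Multiset.mem_cons_self a s)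
      have hs' := ih fun z hz => hs z (Multiset.mem_cons_of_mem hz)
      exact mul_le_mul ha hs' (pow_nonneg hδ.le _) (norm_nonneg _)
  have h3 := h2 _ h1
  have h4 : q.coeff 0 = (-1) ^ q.natDegree * q.roots.prod := hs.coeff_zero_eq_prod_roots_of_monic hq
  have h5 : Multiset.card q.roots = q.natDegree := hs.natDegree_eq_card_roots.symm
  rw [h4, norm_mul, norm_pow, norm_neg, norm_one, one_pow, one_mul] at h0
  rw [h5] at h3
  linarith

/-- roots of a monic polynomial are bounded by the coefficients -/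
private theorem root_le (q : Polynomial ℂ) (hq : q.Monic) (z : ℂ) (hz : q.eval z = 0) :
    ‖z‖ ≤ 1 + ∑ j ∈ Finset.range q.natDegree, ‖q.coeff j‖ := by
  by_cases h1 : ‖z‖ ≤ 1
  · have : 0 ≤ ∑ j ∈ Finset.range q.natDegree, ‖q.coeff j‖ :=
      Finset.sum_nonneg fun _ _ => norm_nonneg _
    linarith
  · push Not at h1
    have hd : q.natDegree ≠ 0 := by
      intro h
      rw [hq.natDegree_eq_zero.1 h] at hz
      simp at hz
    obtain ⟨r, hr⟩ := Nat.exists_eq_succ_of_ne_zero hd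
    rw [Polynomial.eval_eq_sum_range, Finset.sum_range_succ, hq.coeff_natDegree, one_mul] at hz
    have h2 : z ^ q.natDegree = -∑ j ∈ Finset.range q.natDegree, q.coeff j * z ^ j := by
      rw [eq_neg_iff_add_eq_zero, add_comm]; exact hz
    have h3 : ‖z‖ ^ q.natDegree ≤ (∑ j ∈ Finset.range q.natDegree, ‖q.coeff j‖) * ‖z‖ ^ r := by
      rw [← norm_pow, h2, norm_neg, Finset.sum_mul]
      refine (norm_sum_le _ _).trans (Finset.sum_le_sum fun j hj => ?_)
      rw [norm_mul, norm_pow]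
      refine mul_le_mul_of_nonneg_left ?_ (norm_nonneg _)
      refine pow_le_pow_right₀ h1.le ?_
      have := Finset.mem_range.1 hj
      omega
    rw [hr, pow_succ, mul_comm] at h3
    have h4 : ‖z‖ ≤ ∑ j ∈ Finset.range q.natDegree, ‖q.coeff j‖ := by
      rw [hr]
      exact le_of_mul_le_mul_right h3 (pow_pos (by linarith) r)
    linarith

/-- lifting of a point of the base and a root of the minimal polynomial -/
private theorem exists_hom {d : ℕ} {A : Type} [CommRing A] [IsDomain A] [Algebra ℂ A]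
    [Algebra.FiniteType ℂ A] [Algebra (MvPolynomial (Fin d) ℂ) A]
    [IsScalarTower ℂ (MvPolynomial (Fin d) ℂ) A]
    [FaithfulSMul (MvPolynomial (Fin d) ℂ) A]
    [Algebra.IsIntegral (MvPolynomial (Fin d) ℂ) A] (a : A) (c : Fin d → ℂ) (ρ : ℂ)
    (h : ((minpoly (MvPolynomial (Fin d) ℂ) a).map (MvPolynomial.eval c)).eval ρ = 0) :
    ∃ χ : A →ₐ[ℂ] ℂ, (∀ f : MvPolynomial (Fin d) ℂ,
      χ (algebraMap _ A f) = MvPolynomial.eval c f) ∧ χ a = ρ := by
  have ha : IsIntegral (MvPolynomial (Fin d) ℂ) a := Algebra.IsIntegral.isIntegral a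
  let R := Algebra.adjoin (MvPolynomial (Fin d) ℂ) ({a} : Set A)
  have h' : (minpoly (MvPolynomial (Fin d) ℂ) a).eval₂ (MvPolynomial.eval c) ρ = 0 := by
    rw [← Polynomial.eval_map]; exact h
  let θ : R →+* ℂ := (AdjoinRoot.lift (MvPolynomial.eval c) ρ h').comp
    ((minpoly.equivAdjoin ha).symm : R ≃+* _).toRingHom
  have hθ1 : ∀ f : MvPolynomial (Fin d) ℂ, θ (algebraMap (MvPolynomial (Fin d) ℂ) R f) = MvPolynomial.eval c f := by
    intro f
    show AdjoinRoot.lift (MvPolynomial.eval c) ρ h' ((minpoly.equivAdjoin ha).symm (algebraMap (MvPolynomial (Fin d) ℂ) R f)) = _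
    rw [AlgEquiv.commutes]
    exact AdjoinRoot.lift_of h'
  have hθ2 : θ ⟨a, Algebra.subset_adjoin (Set.mem_singleton a)⟩ = ρ := by
    show AdjoinRoot.lift (MvPolynomial.eval c) ρ h' ((minpoly.equivAdjoin ha).symm ⟨a, _⟩) = _
    have : (minpoly.equivAdjoin ha).symm ⟨a, Algebra.subset_adjoin (Set.mem_singleton a)⟩ =
        AdjoinRoot.root _ := by
      rw [AlgEquiv.symm_apply_eq]
      refine Subtype.ext ?_
      rw [minpoly.coe_equivAdjoin]
      simp [AdjoinRoot.Minpoly.toAdjoin]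
    rw [this]
    exact AdjoinRoot.lift_root h'
  have hsurj : Function.Surjective θ := fun w =>
    ⟨algebraMap (MvPolynomial (Fin d) ℂ) R (MvPolynomial.C w), by rw [hθ1, MvPolynomial.eval_C]⟩
  have hmax : (RingHom.ker θ).IsMaximal := RingHom.ker_isMaximal_of_surjective θ hsurj
  have : Algebra.IsIntegral R A := Algebra.IsIntegral.tower_top (R := MvPolynomial (Fin d) ℂ)
  obtain ⟨Q, hQ, hQ'⟩ := Ideal.exists_ideal_over_maximal_of_isIntegral (S := A) (RingHom.ker θ) (by
    intro x hx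
    have : x = 0 := Subtype.ext hx
    rw [this]
    exact Ideal.zero_mem _)
  let _ := Ideal.Quotient.field Q
  have hfin : Module.Finite ℂ (A ⧸ Q) := finite_of_finite_type_of_isJacobsonRing ℂ (A ⧸ Q)
  have hbij : Function.Bijective (algebraMap ℂ (A ⧸ Q)) :=
    IsAlgClosed.algebraMap_bijective_of_isIntegral
  let e : ℂ ≃ₐ[ℂ] (A ⧸ Q) := AlgEquiv.ofBijective (Algebra.ofId ℂ (A ⧸ Q)) hbij
  have key : ∀ (r : R) (w : ℂ), θ r = w → e.symm (Ideal.Quotient.mk Q (r : A)) = w := by
    intro r w hr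
    rw [AlgEquiv.symm_apply_eq]
    show Ideal.Quotient.mk Q (r : A) = algebraMap ℂ (A ⧸ Q) w
    rw [IsScalarTower.algebraMap_apply ℂ A (A ⧸ Q)]
    refine Ideal.Quotient.eq.2 ?_
    have h1 : r - algebraMap (MvPolynomial (Fin d) ℂ) R (MvPolynomial.C w) ∈ RingHom.ker θ := by
      rw [RingHom.mem_ker, map_sub, hθ1, MvPolynomial.eval_C, hr, sub_self]
    rw [← hQ'] at h1
    have h2 : algebraMap R A (r - algebraMap (MvPolynomial (Fin d) ℂ) R (MvPolynomial.C w)) ∈ Q := h1
    have h3 : algebraMap R A (r - algebraMap (MvPolynomial (Fin d) ℂ) R (MvPolynomial.C w)) = (r : A) - algebraMap ℂ A w := by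
      rw [map_sub, ← IsScalarTower.algebraMap_apply, ← MvPolynomial.algebraMap_eq,
        ← IsScalarTower.algebraMap_apply]
      rfl
    rw [← h3]
    exact h2
  refine ⟨(e.symm : (A ⧸ Q) →ₐ[ℂ] ℂ).comp (Ideal.Quotient.mkₐ ℂ Q), fun f => ?_, ?_⟩
  · exact key (algebraMap (MvPolynomial (Fin d) ℂ) R f) _ (hθ1 f)
  · exact key ⟨a, Algebra.subset_adjoin (Set.mem_singleton a)⟩ _ hθ2

private theorem eval_map_hom {d : ℕ} {A : Type} [CommRing A] [Algebra ℂ A]
    [Algebra (MvPolynomial (Fin d) ℂ) A] (χ : A →ₐ[ℂ] ℂ) (c : Fin d → ℂ)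
    (h : ∀ f : MvPolynomial (Fin d) ℂ, χ (algebraMap _ A f) = MvPolynomial.eval c f) (a : A)
    (q : Polynomial (MvPolynomial (Fin d) ℂ)) :
    (q.map (MvPolynomial.eval c)).eval (χ a) = χ (Polynomial.aeval a q) := by
  rw [Polynomial.eval_map, Polynomial.aeval_def]
  have h1 := Polynomial.hom_eval₂ q (algebraMap (MvPolynomial (Fin d) ℂ) A) (χ : A →+* ℂ) a
  have h2 : (χ : A →+* ℂ).comp (algebraMap (MvPolynomial (Fin d) ℂ) A) = MvPolynomial.eval c :=
    RingHom.ext h
  rw [h2] at h1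
  exact h1.symm

/-- the core: a closed point isolated in the euclidean topology -/
private theorem core {σ : Type} [Fintype σ] {A : Type} [CommRing A] [IsDomain A]
    [Algebra ℂ A] [Algebra.FiniteType ℂ A] {d : ℕ} [Algebra (MvPolynomial (Fin (d + 1)) ℂ) A]
    [IsScalarTower ℂ (MvPolynomial (Fin (d + 1)) ℂ) A]
    [FaithfulSMul (MvPolynomial (Fin (d + 1)) ℂ) A]
    [Algebra.IsIntegral (MvPolynomial (Fin (d + 1)) ℂ) A]
    (m : σ → A) (χ₀ : A →ₐ[ℂ] ℂ) (ε : ℝ) (hε : 0 < ε)
    (hiso : ∀ χ : A →ₐ[ℂ] ℂ, (∀ i, ‖χ (m i) - χ₀ (m i)‖ < ε) → χ = χ₀) : False := by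
  classical
  let B := MvPolynomial (Fin (d + 1)) ℂ
  let b : Fin (d + 1) → ℂ := fun j => χ₀ (algebraMap B A (MvPolynomial.X j))
  have hb : ∀ f : B, χ₀ (algebraMap B A f) = MvPolynomial.eval b f := by
    intro f
    have h1 : (χ₀ : A →+* ℂ).comp (algebraMap B A) = MvPolynomial.eval b := by
      refine MvPolynomial.ringHom_ext (fun r => ?_) (fun j => ?_)
      · rw [MvPolynomial.eval_C]
        show χ₀ (algebraMap B A (MvPolynomial.C r)) = r
        rw [← MvPolynomial.algebraMap_eq, ← IsScalarTower.algebraMap_apply, AlgHom.commutes]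
        rfl
      · rw [MvPolynomial.eval_X]
        rfl
    exact DFunLike.congr_fun h1 f
  have hint : ∀ a : A, IsIntegral B a := fun a => Algebra.IsIntegral.isIntegral a
  let Q : σ → Polynomial B := fun i => minpoly B (m i)
  have hQ : ∀ i, (Q i).Monic := fun i => minpoly.monic (hint (m i))
  let p : σ → ℂ := fun i => χ₀ (m i)
  let F0 : Finset (σ → ℂ) :=
    Fintype.piFinset fun i => ((Q i).map (MvPolynomial.eval b)).roots.toFinset
  have : Finite {x : σ → ℂ // x ∈ F0 ∧ x ≠ p} :=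
    Finite.of_injective (fun x => (⟨x.1, x.2.1⟩ : F0)) fun x y hxy =>
      Subtype.ext (congrArg (fun z : F0 => (z : σ → ℂ)) hxy)
  obtain ⟨lam, hlam⟩ := Module.exists_dual_forall_apply_ne_zero (K := ℂ)
    (fun x : {x : σ → ℂ // x ∈ F0 ∧ x ≠ p} => x.1 - p) (fun x => sub_ne_zero.2 x.2.2)
  let a : A := ∑ i, (m i - algebraMap ℂ A (p i)) * 
    algebraMap ℂ A (lam fun j => if i = j then (1 : ℂ) else 0)
  have hχa : ∀ χ : A →ₐ[ℂ] ℂ, χ a = lam ((fun i => χ (m i)) - p) := by
    intro χ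
    rw [LinearMap.pi_apply_eq_sum_univ lam, map_sum]
    refine Finset.sum_congr rfl fun i _ => ?_
    rw [map_mul, map_sub, AlgHom.commutes, AlgHom.commutes, Algebra.algebraMap_self_apply,
      Algebra.algebraMap_self_apply, smul_eq_mul, Pi.sub_apply]
  let μ := minpoly B a
  have hμ : μ.Monic := minpoly.monic (hint a)
  have hμ0 : MvPolynomial.eval b (μ.coeff 0) = 0 := by
    have h1 := eval_map_hom χ₀ b hb a μ
    rw [minpoly.aeval, map_zero, hχa χ₀] at h1
    have h2 : lam ((fun i => χ₀ (m i)) - p) = 0 := by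
      have : (fun i => χ₀ (m i)) - p = 0 := sub_self _
      rw [this, map_zero]
    rw [h2, ← Polynomial.coeff_zero_eq_eval_zero, Polynomial.coeff_map] at h1
    exact h1
  let c : ℕ → Fin (d + 1) → ℂ := fun n j => b j + if j = 0 then 1 / ((n : ℂ) + 1) else 0
  have hc : Tendsto c atTop (𝓝 b) := by
    rw [tendsto_pi_nhds]
    intro j
    have h1 : Tendsto (fun n : ℕ => 1 / ((n : ℂ) + 1)) atTop (𝓝 0) :=
      tendsto_one_div_add_atTop_nhds_zero_nat
    by_cases hj : j = 0
    · have h2 : (fun n => c n j) = fun n : ℕ => b j + 1 / ((n : ℂ) + 1) := by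
        funext n
        show b j + (if j = 0 then 1 / ((n : ℂ) + 1) else 0) = _
        rw [if_pos hj]
      rw [h2]
      simpa using h1.const_add (b j)
    · have h2 : (fun n => c n j) = fun _ : ℕ => b j := by
        funext n
        show b j + (if j = 0 then 1 / ((n : ℂ) + 1) else 0) = _
        rw [if_neg hj, add_zero]
      rw [h2]
      exact tendsto_const_nhds
  have hev : ∀ f : B, Tendsto (fun n => MvPolynomial.eval (c n) f) atTop
      (𝓝 (MvPolynomial.eval b f)) := fun f =>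
    ((MvPolynomial.continuous_eval f).tendsto b).comp hc
  have hex : ∀ n : ℕ, ∃ (N : ℕ) (χ : A →ₐ[ℂ] ℂ), n ≤ N ∧
      (∀ f : B, χ (algebraMap B A f) = MvPolynomial.eval (c N) f) ∧ ‖χ a‖ < 1 / ((n : ℝ) + 1) := by
    intro n
    have hδ : (0 : ℝ) < 1 / ((n : ℝ) + 1) := by positivity
    have h1 := (hev (μ.coeff 0)).norm
    rw [hμ0, norm_zero] at h1
    have h2 : ∀ᶠ N in atTop, ‖MvPolynomial.eval (c N) (μ.coeff 0)‖ <
        (1 / ((n : ℝ) + 1)) ^ μ.natDegree := h1.eventually_lt_const (pow_pos hδ _)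
    obtain ⟨N, hN1, hN2⟩ := (h2.and (eventually_ge_atTop n)).exists
    have hm : (μ.map (MvPolynomial.eval (c N))).Monic := hμ.map _
    have hdeg : (μ.map (MvPolynomial.eval (c N))).natDegree = μ.natDegree := hμ.natDegree_map _
    obtain ⟨ρ, hρ1, hρ2⟩ := exists_small_root (μ.map (MvPolynomial.eval (c N))) hm _ hδ (by
      rw [hdeg, Polynomial.coeff_map]
      exact hN1)
    obtain ⟨χ, hχ1, hχ2⟩ := exists_hom a (c N) ρ hρ1
    exact ⟨N, χ, hN2, hχ1, by rw [hχ2]; exact hρ2⟩
  choose N χ hN hχ1 hχ2 using hex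
  have hNt : Tendsto N atTop atTop := tendsto_atTop_mono hN tendsto_id
  let x : ℕ → σ → ℂ := fun n i => χ n (m i)
  have hroot : ∀ n i, ((Q i).map (MvPolynomial.eval (c (N n)))).eval (x n i) = 0 := by
    intro n i
    have h1 := eval_map_hom (χ n) (c (N n)) (hχ1 n) (m i) (Q i)
    rw [minpoly.aeval, map_zero] at h1
    exact h1
  have hev' : ∀ f : B, Tendsto (fun n => MvPolynomial.eval (c (N n)) f) atTop
      (𝓝 (MvPolynomial.eval b f)) := fun f => (hev f).comp hNt
  have hbd : ∀ i, ∃ R : ℝ, ∀ n, x n i ∈ Metric.closedBall (0 : ℂ) R := by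
    intro i
    have h1 : Tendsto (fun n => 1 + ∑ j ∈ Finset.range (Q i).natDegree,
        ‖MvPolynomial.eval (c (N n)) ((Q i).coeff j)‖) atTop
        (𝓝 (1 + ∑ j ∈ Finset.range (Q i).natDegree, ‖MvPolynomial.eval b ((Q i).coeff j)‖)) :=
      (tendsto_finsetSum _ fun j _ => (hev' _).norm).const_add 1
    obtain ⟨R, hR⟩ := h1.bddAbove_range
    refine ⟨R, fun n => ?_⟩
    rw [mem_closedBall_zero_iff]
    have hm : ((Q i).map (MvPolynomial.eval (c (N n)))).Monic := (hQ i).map _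
    have h2 := root_le _ hm (x n i) (hroot n i)
    rw [(hQ i).natDegree_map] at h2
    refine h2.trans (le_trans (le_of_eq ?_) (hR ⟨n, rfl⟩))
    simp only [Polynomial.coeff_map]
  choose R hR using hbd
  have hcomp : IsCompact (Set.univ.pi fun i => Metric.closedBall (0 : ℂ) (R i)) :=
    isCompact_univ_pi fun i => isCompact_closedBall _ _
  obtain ⟨y, -, φ, hφ, hy⟩ := hcomp.tendsto_subseq (x := x)
    (fun n => Set.mem_univ_pi.2 fun i => hR i n)
  have hy' : ∀ i, Tendsto (fun n => x (φ n) i) atTop (𝓝 (y i)) := fun i =>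
    (tendsto_pi_nhds.1 hy) i
  have hyF : y ∈ F0 := by
    rw [Fintype.mem_piFinset]
    intro i
    have hm : ((Q i).map (MvPolynomial.eval b)).Monic := (hQ i).map _
    rw [Multiset.mem_toFinset, Polynomial.mem_roots hm.ne_zero, Polynomial.IsRoot.def]
    have h1 : Tendsto (fun n => ((Q i).map (MvPolynomial.eval (c (N (φ n))))).eval (x (φ n) i)) atTop
        (𝓝 (((Q i).map (MvPolynomial.eval b)).eval (y i))) := by
      simp only [Polynomial.eval_eq_sum_range, (hQ i).natDegree_map, Polynomial.coeff_map]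
      exact tendsto_finsetSum _ fun j _ =>
        ((hev' _).comp hφ.tendsto_atTop).mul ((hy' i).pow j)
    refine tendsto_nhds_unique h1 ?_
    simp only [hroot]
    exact tendsto_const_nhds
  have hlamy : lam (y - p) = 0 := by
    have hcont : Continuous lam := lam.continuous_of_finiteDimensional
    have h1 : Tendsto (fun n => lam (x (φ n) - p)) atTop (𝓝 (lam (y - p))) :=
      (hcont.tendsto _).comp (hy.sub_const p)
    refine tendsto_nhds_unique h1 ?_
    rw [tendsto_zero_iff_norm_tendsto_zero]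
    have h2 : Tendsto (fun n : ℕ => 1 / ((φ n : ℝ) + 1)) atTop (𝓝 0) :=
      tendsto_one_div_add_atTop_nhds_zero_nat.comp hφ.tendsto_atTop
    refine squeeze_zero (fun _ => norm_nonneg _) (fun n => ?_) h2
    have h3 := hχa (χ (φ n))
    have h4 : (fun i => (χ (φ n)) (m i)) - p = x (φ n) - p := rfl
    rw [← h4, ← h3]
    exact (hχ2 (φ n)).le
  have hyp : y = p := by
    by_contra hne
    exact hlam ⟨y, hyF, hne⟩ hlamy
  have hnear : ∀ᶠ n in atTop, ∀ i, ‖x (φ n) i - p i‖ < ε := by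
    rw [eventually_all]
    intro i
    have h1 : Tendsto (fun n => ‖x (φ n) i - p i‖) atTop (𝓝 ‖y i - p i‖) :=
      ((hy' i).sub_const _).norm
    rw [hyp, sub_self, norm_zero] at h1
    exact h1.eventually_lt_const hε
  obtain ⟨n, hn⟩ := hnear.exists
  have h1 := hiso (χ (φ n)) hn
  have h2 := hχ1 (φ n) (MvPolynomial.X 0)
  rw [h1, hb, MvPolynomial.eval_X, MvPolynomial.eval_X] at h2
  have h3 : c (N (φ n)) 0 = b 0 + 1 / (((N (φ n) : ℕ) : ℂ) + 1) := by
    show b 0 + (if (0 : Fin (d + 1)) = 0 then 1 / (((N (φ n) : ℕ) : ℂ) + 1) else 0) = _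
    rw [if_pos rfl]
  rw [h3] at h2
  have h4 : 1 / (((N (φ n) : ℕ) : ℂ) + 1) = 0 := by
    have := h2.symm
    rwa [add_eq_left] at this
  exact one_div_ne_zero (Nat.cast_add_one_ne_zero _) h4

/-- a domain generated by `m`, with a point isolated among the nearby points, is `ℂ` -/
private theorem const_of_isolated {σ : Type} [Fintype σ] {A : Type} [CommRing A] [IsDomain A]
    [Algebra ℂ A] [Algebra.FiniteType ℂ A] (m : σ → A) (χ₀ : A →ₐ[ℂ] ℂ) (ε : ℝ) (hε : 0 < ε)
    (hiso : ∀ χ : A →ₐ[ℂ] ℂ, (∀ i, ‖χ (m i) - χ₀ (m i)‖ < ε) → χ = χ₀) (a : A) :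
    a = algebraMap ℂ A (χ₀ a) := by
  obtain ⟨s, g, hg, hgi⟩ := exists_integral_inj_algHom_of_fg ℂ A
  rcases s with _ | d
  · have h1 : (algebraMap ℂ A).IsIntegral := by
      have h2 : algebraMap ℂ A = g.toRingHom.comp (algebraMap ℂ (MvPolynomial (Fin 0) ℂ)) :=
        (g.comp_algebraMap).symm
      rw [h2]
      refine RingHom.IsIntegral.trans _ _ (RingHom.isIntegral_of_surjective _ ?_) hgi
      intro f
      exact ⟨MvPolynomial.coeff 0 f, (MvPolynomial.eq_C_of_isEmpty f).symm⟩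
    have : Algebra.IsIntegral ℂ A := ⟨h1⟩
    obtain ⟨w, hw⟩ := (IsAlgClosed.algebraMap_bijective_of_isIntegral (k := ℂ) (K := A)).2 a
    rw [← hw, AlgHom.commutes]
    rfl
  · exfalso
    let _ : Algebra (MvPolynomial (Fin (d + 1)) ℂ) A := g.toRingHom.toAlgebra
    have : IsScalarTower ℂ (MvPolynomial (Fin (d + 1)) ℂ) A :=
      IsScalarTower.of_algebraMap_eq' (g.comp_algebraMap).symm
    have : FaithfulSMul (MvPolynomial (Fin (d + 1)) ℂ) A :=
      (faithfulSMul_iff_algebraMap_injective _ _).2 hg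
    have : Algebra.IsIntegral (MvPolynomial (Fin (d + 1)) ℂ) A := ⟨hgi⟩
    exact core (d := d) m χ₀ ε hε hiso

private theorem hom_aeval {σ : Type} {A : Type} [CommRing A] [Algebra ℂ A] (m : σ → A)
    (χ : A →ₐ[ℂ] ℂ) (f : MvPolynomial σ ℂ) :
    χ (MvPolynomial.aeval m f) = MvPolynomial.eval (fun i => χ (m i)) f := by
  have h1 : (χ : A →+* ℂ).comp (MvPolynomial.aeval m : MvPolynomial σ ℂ →ₐ[ℂ] A).toRingHom =
      MvPolynomial.eval fun i => χ (m i) := by
    refine MvPolynomial.ringHom_ext (fun r => ?_) (fun j => ?_)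
    · rw [MvPolynomial.eval_C]
      show χ (MvPolynomial.aeval m (MvPolynomial.C r)) = r
      rw [MvPolynomial.aeval_C, AlgHom.commutes]
      rfl
    · rw [MvPolynomial.eval_X]
      show χ (MvPolynomial.aeval m (MvPolynomial.X j)) = _
      rw [MvPolynomial.aeval_X]
  exact DFunLike.congr_fun h1 f

/-- an isolated complex zero `p` of a system of polynomials has no nonconstant formal arc -/
theorem arc_const {σ : Type} [Fintype σ] (P : Set (MvPolynomial σ ℂ)) (p : σ → ℂ)
    (hiso : ∃ ε : ℝ, 0 < ε ∧ ∀ x : σ → ℂ, (∀ i, ‖x i - p i‖ < ε) →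
      (∀ f ∈ P, MvPolynomial.eval x f = 0) → x = p)
    (M : σ → PowerSeries ℂ) (h0 : ∀ i, PowerSeries.constantCoeff (M i) = p i)
    (hM : ∀ f ∈ P, MvPolynomial.aeval M f = 0) : ∀ i, M i = PowerSeries.C (p i) := by
  classical
  obtain ⟨ε, hε, hiso⟩ := hiso
  let A := Algebra.adjoin ℂ (Set.range M)
  let m : σ → A := fun i => ⟨M i, Algebra.subset_adjoin ⟨i, rfl⟩⟩
  have hft : Algebra.FiniteType ℂ A := by
    refine (Subalgebra.fg_iff_finiteType A).1 ?_
    exact ⟨(Set.finite_range M).toFinset, by rw [Set.Finite.coe_toFinset]⟩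
  let cc : PowerSeries ℂ →ₐ[ℂ] ℂ :=
    { (PowerSeries.constantCoeff (R := ℂ)) with
      commutes' := fun r => by
        show PowerSeries.constantCoeff (algebraMap ℂ (PowerSeries ℂ) r) = _
        rw [← PowerSeries.C_eq_algebraMap, PowerSeries.constantCoeff_C]
        rfl }
  let χ₀ : A →ₐ[ℂ] ℂ := cc.comp A.val
  have hχ₀ : ∀ i, χ₀ (m i) = p i := h0
  have hval : ∀ (f : MvPolynomial σ ℂ), A.val (MvPolynomial.aeval m f) = MvPolynomial.aeval M f := by
    intro f
    have h1 : A.val.comp (MvPolynomial.aeval m) = MvPolynomial.aeval M := by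
      refine MvPolynomial.algHom_ext fun i => ?_
      rw [AlgHom.comp_apply, MvPolynomial.aeval_X, MvPolynomial.aeval_X]
      rfl
    exact DFunLike.congr_fun h1 f
  have hsurj : ∀ a : A, ∃ f : MvPolynomial σ ℂ, a = MvPolynomial.aeval m f := by
    intro a
    have h1 : (a : PowerSeries ℂ) ∈ (MvPolynomial.aeval M : MvPolynomial σ ℂ →ₐ[ℂ] _).range := by
      rw [← Algebra.adjoin_range_eq_range_aeval]
      exact a.2
    obtain ⟨f, hf⟩ := h1
    refine ⟨f, Subtype.ext ?_⟩
    have h2 := hval f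
    rw [show (a : PowerSeries ℂ) = MvPolynomial.aeval M f from hf.symm]
    exact h2.symm
  have key : ∀ χ : A →ₐ[ℂ] ℂ, (∀ i, ‖χ (m i) - χ₀ (m i)‖ < ε) → χ = χ₀ := by
    intro χ hχ
    have h1 : ∀ f : MvPolynomial σ ℂ, χ (MvPolynomial.aeval m f) =
        MvPolynomial.eval (fun i => χ (m i)) f := hom_aeval m χ
    have h2 : (fun i => χ (m i)) = p := by
      refine hiso _ (fun i => ?_) (fun f hf => ?_)
      · rw [← hχ₀ i]
        exact hχ i
      · rw [← h1 f]
        have h3 : MvPolynomial.aeval m f = 0 := by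
          refine Subtype.ext ?_
          have := hval f
          rw [hM f hf] at this
          exact this
        rw [h3, map_zero]
    refine AlgHom.ext fun a => ?_
    obtain ⟨f, rfl⟩ := hsurj a
    have h4 : ∀ f : MvPolynomial σ ℂ, χ₀ (MvPolynomial.aeval m f) =
        MvPolynomial.eval (fun i => χ₀ (m i)) f := hom_aeval m χ₀
    rw [h1, h4, h2]
    congr 2
    funext i
    exact (hχ₀ i).symm
  intro i
  have h5 := const_of_isolated m χ₀ ε hε key (m i)
  rw [hχ₀ i] at h5
  have h6 := congrArg (fun a : A => (a : PowerSeries ℂ)) h5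
  rw [PowerSeries.C_eq_algebraMap]
  exact h6

end HKR
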