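import Pool.Agent.Lib.HKR.K11
import Pool.Agent.Lib.HKR.K12
import Pool.Agent.Lib.HKR.GDefs
/-!
HKR.G3 (LocData together with the monomial form of the ratios of lines).  COPY the LocData parts of K11 (y.q not multiple) and K12 (y.q
multiple); in addition LocM:
not multiple: i, j, l of sel_non, s = fl (L i)/fl (L l), t = fl (L j)/fl (L l), bs = (L i ⬝ q = 0), bt = (L j ⬝ q = 0).  For every m: fl (L m)/fl (L l) =: gg m is a
unit for m ≠ i, j (Val.ratio), gg i = s, gg j = t, gg l = 1; if ¬ bs then s is a unit too (p = 0, ep = s), same for t.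
fl (L m)/fl (L m') = gg m / gg m'.
multiple: i, j, l of sel_mult, s = fl (L j)/fl (L l), t = fl (L i)/fl (L j), bs = True, bt = (L i ⬝ w = 0).  m through q: fl (L m)/fl (L j) is a unit for
m ≠ i (Val.ratio_mult) and t for m = i (a unit if ¬ bt); m off q: fl (L m)/fl (L l) is a unit (Val.ratio).  So fl (L m)/fl (L l) = unit * t^[m = i] * s^[m through q],
and fl (L m)/fl (L m') is the quotient of two such (zpow).
-/
open MvPolynomial
namespace HKR
variable {k : ℕ} {L : Fin k → Fin 3 → ℂ}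

private theorem k11_val_prod {y : Pt} {ι : Type} [DecidableEq ι] (T : Finset ι) (f : ι → Fn)
    (h : ∀ i ∈ T, ∃ e : ℂ, Val L y (f i) e ∧ e ≠ 0) : ∃ e : ℂ, Val L y (∏ i ∈ T, f i) e ∧ e ≠ 0 := by
  induction T using Finset.induction_on with
  | empty =>
    refine ⟨1, ?_, one_ne_zero⟩
    rw [Finset.prod_empty, ← map_one (algebraMap ℂ Fn)]
    exact Val.const 1
  | insert a T ha ih =>
    obtain ⟨e, he, he0⟩ := ih fun i hi => h i (Finset.mem_insert_of_mem hi)
    obtain ⟨e', he', he0'⟩ := h a (Finset.mem_insert_self _ _)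
    rw [Finset.prod_insert ha]
    exact ⟨_, he'.mul he, mul_ne_zero he0' he0⟩

private theorem k11_val_pow {y : Pt} {f : Fn} {e : ℂ} (h : Val L y f e) (h0 : e ≠ 0) (m : ℕ) :
    ∃ e : ℂ, Val L y (f ^ m) e ∧ e ≠ 0 := by
  induction m with
  | zero =>
    refine ⟨1, ?_, one_ne_zero⟩
    rw [pow_zero, ← map_one (algebraMap ℂ Fn)]
    exact Val.const 1
  | succ m ih =>
    obtain ⟨e', he', he0'⟩ := ih
    rw [pow_succ]
    exact ⟨_, he'.mul h, mul_ne_zero he0' h0⟩

private theorem k11_lt {n : ℕ} {c : Fin k → ℕ} (hc : c ∈ AA k n) (m : Fin k) : c m < n :=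
  Finset.mem_range.1 (Fintype.mem_piFinset.1 (Finset.mem_filter.1 hc).1 m)

private theorem k11_ex {n : ℕ} (hn : 2 ≤ n) {i l : Fin k} (hil : i ≠ l) :
    ∃ c ∈ AA k n, c i = 1 ∧ ∀ m, m ≠ i → m ≠ l → c m = 0 := by
  refine ⟨Pi.single i 1 + Pi.single l (n - 1), ?_, ?_, ?_⟩
  · refine Finset.mem_filter.2 ⟨Fintype.mem_piFinset.2 fun m => Finset.mem_range.2 ?_, ?_⟩
    · rw [Pi.add_apply]
      by_cases h1 : m = i
      · subst h1
        rw [Pi.single_eq_same, Pi.single_eq_of_ne hil]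
        omega
      · rw [Pi.single_eq_of_ne h1]
        by_cases h2 : m = l
        · subst h2
          rw [Pi.single_eq_same]
          omega
        · rw [Pi.single_eq_of_ne h2]
          omega
    · have h1 : ∑ m, (Pi.single i 1 + Pi.single l (n - 1) : Fin k → ℕ) m = n := by
        simp only [Pi.add_apply]
        rw [Finset.sum_add_distrib, Finset.sum_pi_single', Finset.sum_pi_single',
          if_pos (Finset.mem_univ _), if_pos (Finset.mem_univ _)]
        omega
      rw [h1]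
  · rw [Pi.add_apply, Pi.single_eq_same, Pi.single_eq_of_ne hil, add_zero]
  · intro m h1 h2
    rw [Pi.add_apply, Pi.single_eq_of_ne h1, Pi.single_eq_of_ne h2, add_zero]

private theorem k12_ex {n : ℕ} (hn : 2 ≤ n) {i l : Fin k} (hil : i ≠ l) :
    ∃ c ∈ AA k n, c i = 1 ∧ c l = n - 1 ∧ ∀ m, m ≠ i → m ≠ l → c m = 0 := by
  refine ⟨Pi.single i 1 + Pi.single l (n - 1), ?_, ?_, ?_, ?_⟩
  · refine Finset.mem_filter.2 ⟨Fintype.mem_piFinset.2 fun m => Finset.mem_range.2 ?_, ?_⟩
    · rw [Pi.add_apply]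
      by_cases h1 : m = i
      · subst h1
        rw [Pi.single_eq_same, Pi.single_eq_of_ne hil]
        omega
      · rw [Pi.single_eq_of_ne h1]
        by_cases h2 : m = l
        · subst h2
          rw [Pi.single_eq_same]
          omega
        · rw [Pi.single_eq_of_ne h2]
          omega
    · have h1 : ∑ m, (Pi.single i 1 + Pi.single l (n - 1) : Fin k → ℕ) m = n := by
        simp only [Pi.add_apply]
        rw [Finset.sum_add_distrib, Finset.sum_pi_single', Finset.sum_pi_single',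
          if_pos (Finset.mem_univ _), if_pos (Finset.mem_univ _)]
        omega
      rw [h1]
  · rw [Pi.add_apply, Pi.single_eq_same, Pi.single_eq_of_ne hil, add_zero]
  · rw [Pi.add_apply, Pi.single_eq_same, Pi.single_eq_of_ne hil.symm, zero_add]
  · intro m h1 h2
    rw [Pi.add_apply, Pi.single_eq_of_ne h1, Pi.single_eq_of_ne h2, add_zero]

private theorem g3_div {y : Pt} {s t X X' : Fn} {bs bt : Prop} (hs : s ≠ 0) (ht : t ≠ 0)
    (h : ∃ (ep : Fn) (e : ℂ) (p q : ℤ), Val L y ep e ∧ e ≠ 0 ∧ X = ep * s ^ p * t ^ q ∧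
      (p ≠ 0 → bs) ∧ (q ≠ 0 → bt))
    (h' : ∃ (ep : Fn) (e : ℂ) (p q : ℤ), Val L y ep e ∧ e ≠ 0 ∧ X' = ep * s ^ p * t ^ q ∧
      (p ≠ 0 → bs) ∧ (q ≠ 0 → bt)) :
    ∃ (ep : Fn) (e : ℂ) (p q : ℤ), Val L y ep e ∧ e ≠ 0 ∧ X / X' = ep * s ^ p * t ^ q ∧
      (p ≠ 0 → bs) ∧ (q ≠ 0 → bt) := by
  obtain ⟨ep, e, p, q, h1, h2, h3, h4, h5⟩ := h
  obtain ⟨ep', e', p', q', h1', h2', h3', h4', h5'⟩ := h'
  refine ⟨ep * ep'⁻¹, e * e'⁻¹, p - p', q - q', h1.mul (h1'.inv h2'), mul_ne_zero h2 (inv_ne_zero h2'),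
    ?_, fun h0 => ?_, fun h0 => ?_⟩
  · rw [h3, h3', zpow_sub₀ hs, zpow_sub₀ ht]
    have h6 := h1'.ne_zero h2'
    have h7 : s ^ p' ≠ 0 := zpow_ne_zero _ hs
    have h8 : t ^ q' ≠ 0 := zpow_ne_zero _ ht
    field_simp
  · by_cases hp : p = 0
    · refine h4' fun hp' => h0 ?_
      rw [hp, hp', sub_zero]
    · exact h4 hp
  · by_cases hq : q = 0
    · refine h5' fun hq' => h0 ?_
      rw [hq, hq', sub_zero]
    · exact h5 hq

private theorem g3_non [NeZero k] (hC : Config L) {n : ℕ} (hn : 2 ≤ n) {y : Pt}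
    (hq : ¬ Multiple L y.q) :
    ∃ (s t : Fn) (a b : ℂ) (bs bt : Prop) (al be : (Fin k → ℕ) → ℕ) (h : (Fin k → ℕ) → Fn),
      LocData L n y s t a b bs bt al be h ∧ LocM L y s t bs bt := by
  classical
  have hq0 : y.q ≠ 0 := y.ind.ne_zero 0
  obtain ⟨i, j, l, hind, hlq, hm⟩ := sel_non hC hq0 hq
  obtain ⟨-, sig, -, -, -, hsq, hsw, -⟩ := exists_forms y
  have hsw' : sig ⬝ᵥ y.w ≠ 0 := by rw [hsw]; exact one_ne_zero
  have hinj := hind.injective
  have hij : i ≠ j := by
    rintro rfl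
    exact absurd (hinj (a₁ := 0) (a₂ := 1) rfl) (by decide)
  have hil : i ≠ l := by
    rintro rfl
    exact absurd (hinj (a₁ := 0) (a₂ := 2) rfl) (by decide)
  have hjl : j ≠ l := by
    rintro rfl
    exact absurd (hinj (a₁ := 1) (a₂ := 2) rfl) (by decide)
  have hLne : ∀ m, L m ≠ 0 := by
    intro m
    rcases eq_or_ne m i with rfl | hmi
    · exact (hC.ind m j hij).ne_zero 0
    · exact (hC.ind m i hmi).ne_zero 0
  have hfl : ∀ m, fl (L m) ≠ 0 := fun m => fl_ne_zero (hLne m)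
  have hmm : ∀ c, mm L n c y = 0 := fun c => by unfold mm; rw [if_neg hq]
  have hee : ∀ c m m', ee L n c y m m' = 0 := fun c m m' => by
    unfold ee
    rw [if_neg fun h => hq h.1]
  have hinS : ∀ m, ¬ inS L y m := fun m h => hq h.1
  have hgg : ∀ m, gg L y (L l) sig m = fl (L m) / fl (L l) := fun m => by
    unfold gg
    rw [if_neg (hinS m)]
  have hG0 : ∀ m, fl (L m) / fl (L l) ≠ 0 := fun m => div_ne_zero (hfl m) (hfl l)
  have hGr : ∀ m, Regular L y (fl (L m) / fl (L l)) := fun m =>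
    regular_iff_val.2 ⟨_, Val.ratio hlq⟩
  have hGl : fl (L l) / fl (L l) = 1 := div_self (hfl l)
  have hu : ∀ m, L m ⬝ᵥ y.q ≠ 0 → Regular L y (fl (L m) / fl (L l))⁻¹ := fun m h =>
    regular_iff_val.2 ⟨_, (Val.ratio hlq).inv (div_ne_zero h hlq)⟩
  refine ⟨fl (L i) / fl (L l), fl (L j) / fl (L l), L i ⬝ᵥ y.q / L l ⬝ᵥ y.q,
    L j ⬝ᵥ y.q / L l ⬝ᵥ y.q, L i ⬝ᵥ y.q = 0, L j ⬝ᵥ y.q = 0,
    fun c => if L i ⬝ᵥ y.q = 0 then c i else 0, fun c => if L j ⬝ᵥ y.q = 0 then c j else 0,
    fun c => fl (L 0) ^ (dd n c) * fl (L l) ^ (-(dd n c)), ?_, ?_⟩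
  · refine ⟨coordP hind, fun f => regP hind hlq hq f, fun c => ?_, ?_, ?_, ?_, ?_, ?_, ?_⟩
    · exact mul_ne_zero (zpow_ne_zero _ (hfl 0)) (zpow_ne_zero _ (hfl l))
    · intro c hc
      have h1 := pw_gg (by omega : 0 < n) hc hC hlq hsw'
      rw [hmm, neg_zero, zpow_zero, mul_one, sub_zero, if_neg hq, pow_zero, mul_one] at h1
      simp only [hgg] at h1
      obtain ⟨e, he, he0⟩ := k11_val_prod (L := L) (y := y) Finset.univ
        (fun m => if L m ⬝ᵥ y.q = 0 then (1 : Fn) else (fl (L m) / fl (L l)) ^ c m) (by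
          intro m _
          by_cases h : L m ⬝ᵥ y.q = 0
          · refine ⟨1, ?_, one_ne_zero⟩
            simp only [if_pos h]
            rw [← map_one (algebraMap ℂ Fn)]
            exact Val.const 1
          · simp only [if_neg h]
            exact k11_val_pow (Val.ratio hlq) (div_ne_zero h hlq) _)
      refine ⟨_, e, he, he0, ?_⟩
      rw [h1]
      have h2 : ∏ m, (if L m ⬝ᵥ y.q = 0 then (fl (L m) / fl (L l)) ^ c m else (1 : Fn)) =
          (fl (L i) / fl (L l)) ^ (if L i ⬝ᵥ y.q = 0 then c i else 0) *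
            (fl (L j) / fl (L l)) ^ (if L j ⬝ᵥ y.q = 0 then c j else 0) := by
        rw [Finset.prod_eq_mul i j hij]
        · congr 1
          · split_ifs <;> simp
          · split_ifs <;> simp
        · intro m _ hmm'
          rw [if_neg (hm m hmm'.1 hmm'.2)]
        · intro h; exact absurd (Finset.mem_univ _) h
        · intro h; exact absurd (Finset.mem_univ _) h
      rw [mul_assoc, ← h2, ← Finset.prod_mul_distrib]
      refine Finset.prod_congr rfl fun m _ => ?_
      split_ifs <;> simp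
    · intro c hc
      constructor
      · show (if L i ⬝ᵥ y.q = 0 then c i else 0) < n
        split_ifs
        · exact k11_lt hc i
        · omega
      · show (if L j ⬝ᵥ y.q = 0 then c j else 0) < n
        split_ifs
        · exact k11_lt hc j
        · omega
    · intro h c _
      exact if_neg h
    · intro h c _
      exact if_neg h
    · intro h
      obtain ⟨c, hc, h1, h2⟩ := k11_ex hn hil
      refine ⟨c, hc, ?_, ?_⟩
      · show (if L i ⬝ᵥ y.q = 0 then c i else 0) = 1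
        rw [if_pos h, h1]
      · show (if L j ⬝ᵥ y.q = 0 then c j else 0) = 0
        rw [h2 j hij.symm hjl, ite_self]
    · intro h
      obtain ⟨c, hc, h1, h2⟩ := k11_ex hn hjl
      refine ⟨c, hc, ?_, ?_⟩
      · show (if L i ⬝ᵥ y.q = 0 then c i else 0) = 0
        rw [h2 i hij hil, ite_self]
      · show (if L j ⬝ᵥ y.q = 0 then c j else 0) = 1
        rw [if_pos h, h1]
  · have hex : ∀ m, ∃ (ep : Fn) (e : ℂ) (p q : ℤ), Val L y ep e ∧ e ≠ 0 ∧
        fl (L m) / fl (L l) = ep * (fl (L i) / fl (L l)) ^ p * (fl (L j) / fl (L l)) ^ q ∧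
        (p ≠ 0 → L i ⬝ᵥ y.q = 0) ∧ (q ≠ 0 → L j ⬝ᵥ y.q = 0) := by
      intro m
      by_cases h : L m ⬝ᵥ y.q = 0
      · by_cases hmi : m = i
        · subst hmi
          refine ⟨1, 1, 1, 0, ?_, one_ne_zero, ?_, fun _ => h, fun h0 => absurd rfl h0⟩
          · rw [← map_one (algebraMap ℂ Fn)]; exact Val.const 1
          · rw [zpow_one, zpow_zero, one_mul, mul_one]
        · by_cases hmj : m = j
          · subst hmj
            refine ⟨1, 1, 0, 1, ?_, one_ne_zero, ?_, fun h0 => absurd rfl h0, fun _ => h⟩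
            · rw [← map_one (algebraMap ℂ Fn)]; exact Val.const 1
            · rw [zpow_one, zpow_zero, one_mul, one_mul]
          · exact absurd h (hm m hmi hmj)
      · refine ⟨fl (L m) / fl (L l), _, 0, 0, Val.ratio hlq, div_ne_zero h hlq, ?_,
          fun h0 => absurd rfl h0, fun h0 => absurd rfl h0⟩
        rw [zpow_zero, zpow_zero, mul_one, mul_one]
    refine ⟨⟨i, l, rfl⟩, ⟨j, l, rfl⟩, fun m m' => ?_⟩
    have h1 := g3_div (hG0 i) (hG0 j) (hex m) (hex m')
    rwa [div_div_div_cancel_right₀ (hfl l)] at h1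

private theorem g3_mult [NeZero k] (hC : Config L) {n : ℕ} (hn : 2 ≤ n) {y : Pt}
    (hq : Multiple L y.q) :
    ∃ (s t : Fn) (a b : ℂ) (bs bt : Prop) (al be : (Fin k → ℕ) → ℕ) (h : (Fin k → ℕ) → Fn),
      LocData L n y s t a b bs bt al be h ∧ LocM L y s t bs bt := by
  classical
  obtain ⟨i, j, l, hij, hiq, hjq, hjw, hlq, hind, hm⟩ := sel_mult hC hq
  have hinj := hind.injective
  have hil : i ≠ l := by
    rintro rfl
    exact hlq hiq
  have hjl : j ≠ l := by
    rintro rfl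
    exact hlq hjq
  have hLne : ∀ m, L m ≠ 0 := by
    intro m
    rcases eq_or_ne m i with rfl | hmi
    · exact (hC.ind m j hij).ne_zero 0
    · exact (hC.ind m i hmi).ne_zero 0
  have hfl : ∀ m, fl (L m) ≠ 0 := fun m => fl_ne_zero (hLne m)
  have hinS : ∀ m, inS L y m ↔ L m ⬝ᵥ y.q = 0 := fun m => ⟨fun h => h.2, fun h => ⟨hq, h⟩⟩
  have hmSS : ∀ m, m ∈ SS L y.q ↔ L m ⬝ᵥ y.q = 0 := by
    intro m
    unfold SS
    simp
  have hggS : ∀ m, L m ⬝ᵥ y.q = 0 → gg L y (L l) (L j) m = fl (L m) / fl (L j) := fun m h => by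
    unfold gg
    rw [if_pos ((hinS m).2 h)]
  have hggN : ∀ m, L m ⬝ᵥ y.q ≠ 0 → gg L y (L l) (L j) m = fl (L m) / fl (L l) := fun m h => by
    unfold gg
    rw [if_neg (fun h' => h ((hinS m).1 h'))]
  set G : Fin k → Fn := gg L y (L l) (L j) with hGdef
  set s : Fn := fl (L j) / fl (L l) with hs
  have hs0 : s ≠ 0 := div_ne_zero (hfl j) (hfl l)
  have hsr : Regular L y s := regular_iff_val.2 ⟨_, Val.ratio hlq⟩
  have hG0 : ∀ m, G m ≠ 0 := by
    intro m
    by_cases h : L m ⬝ᵥ y.q = 0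
    · rw [hggS m h]; exact div_ne_zero (hfl m) (hfl j)
    · rw [hggN m h]; exact div_ne_zero (hfl m) (hfl l)
  have hGr : ∀ m, Regular L y (G m) := by
    intro m
    by_cases h : L m ⬝ᵥ y.q = 0
    · rw [hggS m h]; exact regular_iff_val.2 ⟨_, Val.ratio_mult hq h hjq hjw⟩
    · rw [hggN m h]; exact regular_iff_val.2 ⟨_, Val.ratio hlq⟩
  have hGj : G j = 1 := by rw [hggS j hjq, div_self (hfl j)]
  have hGl : G l = 1 := by rw [hggN l hlq, div_self (hfl l)]
  have hGi : G i = fl (L i) / fl (L j) := hggS i hiq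
  have hval : ∀ m, (m = i → ¬ (L i ⬝ᵥ y.w = 0)) → ∃ e : ℂ, Val L y (G m) e ∧ e ≠ 0 := by
    intro m hmi
    by_cases h : L m ⬝ᵥ y.q = 0
    · rw [hggS m h]
      refine ⟨_, Val.ratio_mult hq h hjq hjw, div_ne_zero ?_ hjw⟩
      by_cases h' : m = i
      · rw [h']; exact hmi h'
      · exact hm m h h'
    · rw [hggN m h]
      exact ⟨_, Val.ratio hlq, div_ne_zero h hlq⟩
  have hu : ∀ m, (m = i → ¬ (L i ⬝ᵥ y.w = 0)) → Regular L y (G m)⁻¹ := by
    intro m hmi
    obtain ⟨e, he, he0⟩ := hval m hmi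
    exact regular_iff_val.2 ⟨_, he.inv he0⟩
  refine ⟨s, fl (L i) / fl (L j), 0, L i ⬝ᵥ y.w / L j ⬝ᵥ y.w, True, L i ⬝ᵥ y.w = 0,
    fun c => (∑ m ∈ SS L y.q, c m) % n, fun c => if L i ⬝ᵥ y.w = 0 then c i else 0,
    fun c => fl (L 0) ^ (dd n c) * fl (L l) ^ (-(dd n c - mm L n c y)) *
      fl (L j) ^ (-(mm L n c y)), ?_, ?_⟩
  · refine ⟨coordB hind, fun f => regB hind hjq hiq hq hjw f, fun c => ?_, ?_, ?_, ?_, ?_, ?_, ?_⟩
    · exact mul_ne_zero (mul_ne_zero (zpow_ne_zero _ (hfl 0)) (zpow_ne_zero _ (hfl l)))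
        (zpow_ne_zero _ (hfl j))
    · intro c hc
      have h1 := pw_gg (by omega : 0 < n) hc hC hlq hjw
      rw [if_pos hq] at h1
      obtain ⟨e, he, he0⟩ := k11_val_prod (L := L) (y := y) Finset.univ
        (fun m => if m = i ∧ L i ⬝ᵥ y.w = 0 then (1 : Fn) else G m ^ c m) (by
          intro m _
          by_cases h : m = i ∧ L i ⬝ᵥ y.w = 0
          · refine ⟨1, ?_, one_ne_zero⟩
            simp only [if_pos h]
            rw [← map_one (algebraMap ℂ Fn)]
            exact Val.const 1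
          · simp only [if_neg h]
            obtain ⟨e', he', he0'⟩ := hval m (fun h1 h2 => h ⟨h1, h2⟩)
            exact k11_val_pow he' he0' _)
      refine ⟨_, e, he, he0, ?_⟩
      rw [h1]
      have h2 : ∏ m, (if m = i ∧ L i ⬝ᵥ y.w = 0 then G m ^ c m else (1 : Fn)) =
          (fl (L i) / fl (L j)) ^ (if L i ⬝ᵥ y.w = 0 then c i else 0) := by
        rw [Finset.prod_eq_single i]
        · rw [← hGi]
          by_cases h : L i ⬝ᵥ y.w = 0
          · rw [if_pos ⟨rfl, h⟩, if_pos h]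
          · rw [if_neg (fun h' => h h'.2), if_neg h, pow_zero]
        · intro m _ hmi
          rw [if_neg (fun h' => hmi h'.1)]
        · intro h; exact absurd (Finset.mem_univ _) h
      have h3 : ∏ m, G m ^ c m = (∏ m, if m = i ∧ L i ⬝ᵥ y.w = 0 then (1 : Fn) else G m ^ c m) *
          (fl (L i) / fl (L j)) ^ (if L i ⬝ᵥ y.w = 0 then c i else 0) := by
        rw [← h2, ← Finset.prod_mul_distrib]
        refine Finset.prod_congr rfl fun m _ => ?_
        split_ifs <;> simp
      rw [← hGdef, h3]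
      ring
    · intro c hc
      constructor
      · exact Nat.mod_lt _ (by omega)
      · show (if L i ⬝ᵥ y.w = 0 then c i else 0) < n
        split_ifs
        · exact k11_lt hc i
        · omega
    · intro h
      exact absurd trivial h
    · intro h c _
      exact if_neg h
    · intro _
      obtain ⟨c, hc, h1, h2, h3⟩ := k12_ex hn hjl
      refine ⟨c, hc, ?_, ?_⟩
      · show (∑ m ∈ SS L y.q, c m) % n = 1
        rw [Finset.sum_eq_single_of_mem j ((hmSS j).2 hjq)]
        · rw [h1]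
          exact Nat.mod_eq_of_lt (by omega)
        · intro m hm1 hm2
          refine h3 m hm2 ?_
          rintro rfl
          exact hlq ((hmSS m).1 hm1)
      · show (if L i ⬝ᵥ y.w = 0 then c i else 0) = 0
        rw [h3 i hij hil, ite_self]
    · intro h
      obtain ⟨c, hc, h1, h2, h3⟩ := k12_ex hn hij
      refine ⟨c, hc, ?_, ?_⟩
      · show (∑ m ∈ SS L y.q, c m) % n = 0
        have h4 : ∑ m ∈ SS L y.q, c m = n := by
          have h5 : ∑ m ∈ ({i, j} : Finset (Fin k)), c m = ∑ m ∈ SS L y.q, c m := by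
            refine Finset.sum_subset ?_ ?_
            · intro m hm1
              rw [Finset.mem_insert, Finset.mem_singleton] at hm1
              rcases hm1 with rfl | rfl
              · exact (hmSS _).2 hiq
              · exact (hmSS _).2 hjq
            · intro m _ hm1
              rw [Finset.mem_insert, Finset.mem_singleton, not_or] at hm1
              exact h3 m hm1.1 hm1.2
          rw [← h5, Finset.sum_pair hij, h1, h2]
          omega
        rw [h4, Nat.mod_self]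
      · show (if L i ⬝ᵥ y.w = 0 then c i else 0) = 1
        rw [if_pos h, h1]
  · have ht0 : fl (L i) / fl (L j) ≠ 0 := div_ne_zero (hfl i) (hfl j)
    have hex : ∀ m, ∃ (ep : Fn) (e : ℂ) (p q : ℤ), Val L y ep e ∧ e ≠ 0 ∧
        fl (L m) / fl (L l) = ep * s ^ p * (fl (L i) / fl (L j)) ^ q ∧
        (p ≠ 0 → True) ∧ (q ≠ 0 → L i ⬝ᵥ y.w = 0) := by
      intro m
      by_cases h : L m ⬝ᵥ y.q = 0
      · by_cases hmi : m = i ∧ L i ⬝ᵥ y.w = 0
        · obtain ⟨rfl, hw⟩ := hmi
          refine ⟨1, 1, 1, 1, ?_, one_ne_zero, ?_, fun _ => trivial, fun _ => hw⟩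
          · rw [← map_one (algebraMap ℂ Fn)]; exact Val.const 1
          · rw [zpow_one, zpow_one, one_mul, hs]
            have := hfl j
            have := hfl l
            field_simp
        · refine ⟨fl (L m) / fl (L j), _, 1, 0, Val.ratio_mult hq h hjq hjw, div_ne_zero ?_ hjw, ?_,
            fun _ => trivial, fun h0 => absurd rfl h0⟩
          · by_cases h' : m = i
            · rw [h']; exact fun h'' => hmi ⟨h', h''⟩
            · exact hm m h h'
          · rw [zpow_one, zpow_zero, mul_one, hs]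
            have := hfl j
            have := hfl l
            field_simp
      · refine ⟨fl (L m) / fl (L l), _, 0, 0, Val.ratio hlq, div_ne_zero h hlq, ?_,
          fun _ => trivial, fun h0 => absurd rfl h0⟩
        rw [zpow_zero, zpow_zero, mul_one, mul_one]
    refine ⟨⟨j, l, rfl⟩, ⟨i, j, rfl⟩, fun m m' => ?_⟩
    have h1 := g3_div hs0 ht0 (hex m) (hex m')
    rwa [div_div_div_cancel_right₀ (hfl l)] at h1

theorem exists_locM [NeZero k] (hC : Config L) {n : ℕ} (hn : 2 ≤ n) (y : Pt) :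
    ∃ (s t : Fn) (a b : ℂ) (bs bt : Prop) (al be : (Fin k → ℕ) → ℕ) (h : (Fin k → ℕ) → Fn),
      LocData L n y s t a b bs bt al be h ∧ LocM L y s t bs bt := by
  by_cases hq : Multiple L y.q
  · exact g3_mult hC hn hq
  · exact g3_non hC hn hq

end HKR
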