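import Pool.Agent.Lib.HKR.ArcOps
/-!
HKR.P1 (automorphisms of K[[t]]).
coeff_app: write f = C f_0 + ... + C f_n X^n + X^(n+1) g; φ(f) = Σ_j φ(C f_j) X^j + X^(n+1) φ(g).
ofHom: given a ring hom h : K → K[[t]] with constant coefficient of h x equal to x and h(c) = C c for c ∈ ℂ; the
  map Φ(f) := mk (n ↦ Σ_{i+j=n} coeff i (h (coeff j f))) is a ring hom K[[t]] → K[[t]] (limit of polynomial
  evaluation), sends X to X, preserves the constant coefficient; bijective: injective (lowest nonzero
  coefficient is kept), surjective (solve successively for the coefficients of the preimage).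
limit: coefficients of φ_m (C x) below m are stable; define h x := mk (n ↦ coeff n (φ_(n+1) (C x))), ring hom, ofHom.
-/
namespace HKR
variable {K : Type} [Field K] [Algebra ℂ K]
open PowerSeries

private theorem P1_range (F : ℕ → ℕ → K) (n : ℕ) :
    ∑ p ∈ Finset.HasAntidiagonal.antidiagonal n, F p.1 p.2 =
      ∑ k ∈ Finset.range (n + 1), F (n - k) k := by
  have h1 := Finset.Nat.sum_antidiagonal_eq_sum_range_succ (fun i j => F j i) n
  rw [← Finset.Nat.sum_antidiagonal_swap] at h1
  exact h1

theorem coeff_app (φ : ArcAut K) (f : PowerSeries K) (n : ℕ) :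
    coeff n (φ.toEquiv f) =
      ∑ p ∈ Finset.HasAntidiagonal.antidiagonal n, coeff p.1 (φ.toEquiv (C (coeff p.2 f))) := by
  rw [P1_range (fun i j => coeff i (φ.toEquiv (C (coeff j f))))]
  have h1 : (X : PowerSeries K) ^ (n + 1) ∣ f - ∑ j ∈ Finset.range (n + 1), C (coeff j f) * X ^ j := by
    rw [X_pow_dvd_iff]
    intro m hm
    rw [map_sub, map_sum]
    have h2 : ∑ j ∈ Finset.range (n + 1), coeff m (C (coeff j f) * X ^ j) = coeff m f := by
      rw [Finset.sum_eq_single m]
      · rw [coeff_C_mul, coeff_X_pow, if_pos rfl, mul_one]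
      · intro j _ hj
        rw [coeff_C_mul, coeff_X_pow, if_neg (fun h => hj h.symm), mul_zero]
      · intro h
        exact absurd (Finset.mem_range.2 hm) h
    rw [h2, sub_self]
  obtain ⟨g, hg⟩ := h1
  have h3 : f = ∑ j ∈ Finset.range (n + 1), C (coeff j f) * X ^ j + X ^ (n + 1) * g := by
    rw [← hg]; ring
  have h4 : φ.toEquiv f = ∑ j ∈ Finset.range (n + 1), φ.toEquiv (C (coeff j f)) * X ^ j +
      X ^ (n + 1) * φ.toEquiv g := by
    conv_lhs => rw [h3]
    rw [map_add, map_sum, map_mul, map_pow, φ.map_X]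
    congr 1
    refine Finset.sum_congr rfl fun j _ => ?_
    rw [map_mul, map_pow, φ.map_X]
  rw [h4, map_add, map_sum]
  have h5 : coeff n ((X : PowerSeries K) ^ (n + 1) * φ.toEquiv g) = 0 := by
    rw [coeff_X_pow_mul', if_neg (by omega)]
  rw [h5, add_zero]
  refine Finset.sum_congr rfl fun j hj => ?_
  rw [Finset.mem_range] at hj
  rw [coeff_mul_X_pow', if_pos (by omega)]

theorem arc_ext {φ ψ : ArcAut K} (h : ∀ x, φ.toEquiv (C x) = ψ.toEquiv (C x)) : φ = ψ := by
  refine ArcAut.ext' (RingEquiv.ext fun f => ?_)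
  ext n
  rw [coeff_app, coeff_app]
  refine Finset.sum_congr rfl fun p _ => ?_
  rw [h]

private noncomputable def P1F (h : K →+* PowerSeries K) (f : PowerSeries K) : PowerSeries K :=
  mk fun n => ∑ k ∈ Finset.range (n + 1), coeff (n - k) (h (coeff k f))

private theorem P1F_coeff (h : K →+* PowerSeries K) (f : PowerSeries K) (n : ℕ) :
    coeff n (P1F h f) = ∑ k ∈ Finset.range (n + 1), coeff (n - k) (h (coeff k f)) := by
  unfold P1F
  rw [coeff_mk]

private theorem P1F_trunc (h : K →+* PowerSeries K) (f : PowerSeries K) {n m : ℕ} (hm : m ≤ n) :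
    coeff m (P1F h f) = coeff m (Polynomial.eval₂ h X (trunc (n + 1) f)) := by
  rw [P1F_coeff, Polynomial.eval₂_eq_sum_range' h (n := n + 1)
    (natDegree_trunc_lt f n)]
  rw [map_sum]
  have h1 : ∀ k ∈ Finset.range (n + 1), coeff m (h ((trunc (n + 1) f).coeff k) * X ^ k) =
      if k ≤ m then coeff (m - k) (h (coeff k f)) else 0 := by
    intro k hk
    rw [Finset.mem_range] at hk
    rw [coeff_mul_X_pow', coeff_trunc, if_pos hk]
  rw [Finset.sum_congr rfl h1, ← Finset.sum_filter]
  refine Finset.sum_congr ?_ fun _ _ => rfl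
  ext k
  rw [Finset.mem_filter, Finset.mem_range, Finset.mem_range]
  omega

private theorem P1F_C (h : K →+* PowerSeries K) (x : K) : P1F h (C x) = h x := by
  ext n
  rw [P1F_coeff, Finset.sum_eq_single 0]
  · rw [coeff_zero_C, Nat.sub_zero]
  · intro k _ hk
    rw [coeff_C, if_neg hk, map_zero, map_zero]
  · intro h0
    exact absurd (Finset.mem_range.2 (Nat.succ_pos n)) h0

private theorem P1F_add (h : K →+* PowerSeries K) (f g : PowerSeries K) :
    P1F h (f + g) = P1F h f + P1F h g := by
  ext n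
  rw [map_add, P1F_coeff, P1F_coeff, P1F_coeff, ← Finset.sum_add_distrib]
  refine Finset.sum_congr rfl fun k _ => ?_
  rw [map_add, map_add, map_add]

private theorem P1F_mul (h : K →+* PowerSeries K) (f g : PowerSeries K) :
    P1F h (f * g) = P1F h f * P1F h g := by
  ext n
  have h1 : coeff n (P1F h f * P1F h g) =
      coeff n (Polynomial.eval₂ h X (trunc (n + 1) f) * Polynomial.eval₂ h X (trunc (n + 1) g)) := by
    rw [coeff_mul, coeff_mul]
    refine Finset.sum_congr rfl fun p hp => ?_
    rw [Finset.HasAntidiagonal.mem_antidiagonal] at hp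
    rw [P1F_trunc h f (n := n) (m := p.1) (by omega), P1F_trunc h g (n := n) (m := p.2) (by omega)]
  rw [h1, ← Polynomial.eval₂_mul, P1F_trunc h (f * g) (le_refl n)]
  have h2 : (Polynomial.X : Polynomial K) ^ (n + 1) ∣
      trunc (n + 1) (f * g) - trunc (n + 1) f * trunc (n + 1) g := by
    rw [Polynomial.X_pow_dvd_iff]
    intro d hd
    rw [Polynomial.coeff_sub, coeff_trunc, if_pos hd,
      coeff_mul_eq_coeff_trunc_mul_trunc f g hd, ← Polynomial.coe_mul, Polynomial.coeff_coe,
      sub_self]
  obtain ⟨r, hr⟩ := h2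
  have h3 : trunc (n + 1) (f * g) = trunc (n + 1) f * trunc (n + 1) g + Polynomial.X ^ (n + 1) * r := by
    rw [← hr]; ring
  rw [h3, Polynomial.eval₂_add, map_add, Polynomial.eval₂_mul h X (p := Polynomial.X ^ (n + 1)),
    Polynomial.eval₂_X_pow, coeff_X_pow_mul', if_neg (by omega), add_zero]

private noncomputable def P1H (h : K →+* PowerSeries K) : PowerSeries K →+* PowerSeries K where
  toFun := P1F h
  map_one' := by rw [← map_one (C (R := K)), P1F_C, map_one, map_one]
  map_zero' := by rw [← map_zero (C (R := K)), P1F_C, map_zero, map_zero]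
  map_add' := P1F_add h
  map_mul' := P1F_mul h

private theorem P1H_inj (h : K →+* PowerSeries K) (h0 : ∀ x, constantCoeff (h x) = x) :
    Function.Injective (P1H h) := by
  rw [injective_iff_map_eq_zero]
  intro f hf
  have key : ∀ n, coeff n f = 0 := by
    intro n
    induction n using Nat.strong_induction_on with
    | _ n ih =>
      have h1 : coeff n (P1F h f) = 0 := by
        have : P1F h f = 0 := hf
        rw [this, map_zero]
      rw [P1F_coeff, Finset.sum_range_succ, Finset.sum_eq_zero, zero_add, Nat.sub_self,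
        coeff_zero_eq_constantCoeff_apply, h0] at h1
      · exact h1
      · intro k hk
        rw [ih k (Finset.mem_range.1 hk), map_zero, map_zero]
  ext n
  rw [key, map_zero]

private noncomputable def P1solve (h : K →+* PowerSeries K) (g : PowerSeries K) : ℕ → K
  | n => coeff n g - ∑ i : Fin n, coeff (n - i) (h (P1solve h g i))
decreasing_by exact i.2

private theorem P1H_surj (h : K →+* PowerSeries K) (h0 : ∀ x, constantCoeff (h x) = x) :
    Function.Surjective (P1H h) := by
  intro g
  refine ⟨mk (P1solve h g), ?_⟩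
  show P1F h (mk (P1solve h g)) = g
  ext n
  rw [P1F_coeff, Finset.sum_range_succ, Nat.sub_self, coeff_zero_eq_constantCoeff_apply, h0,
    coeff_mk, P1solve, Finset.sum_range]
  simp only [coeff_mk]
  ring

theorem exists_ofHom (h : K →+* PowerSeries K) (h0 : ∀ x, constantCoeff (h x) = x)
    (hc : ∀ c : ℂ, h (algebraMap ℂ K c) = C (algebraMap ℂ K c)) :
    ∃ φ : ArcAut K, ∀ x, φ.toEquiv (C x) = h x := by
  refine ⟨⟨RingEquiv.ofBijective (P1H h) ⟨P1H_inj h h0, P1H_surj h h0⟩, ?_, ?_, ?_⟩, ?_⟩
  · show P1F h X = X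
    ext n
    rw [P1F_coeff]
    rcases Nat.eq_zero_or_pos n with rfl | hn
    · simp
    · rw [Finset.sum_eq_single 1]
      · rw [coeff_one_X, map_one, coeff_one, coeff_X]
        congr 1
        rw [eq_iff_iff]; omega
      · intro k _ hk
        rw [coeff_X, if_neg hk, map_zero, map_zero]
      · intro h1
        exact absurd (Finset.mem_range.2 (by omega)) h1
  · intro c
    show P1F h (C (algebraMap ℂ K c)) = C (algebraMap ℂ K c)
    rw [P1F_C, hc]
  · intro f
    show constantCoeff (P1F h f) = constantCoeff f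
    rw [← coeff_zero_eq_constantCoeff_apply, P1F_coeff, Finset.sum_range_one, Nat.sub_zero,
      coeff_zero_eq_constantCoeff_apply, h0, coeff_zero_eq_constantCoeff_apply]
  · intro x
    exact P1F_C h x

theorem Cong.refl (m : ℕ) (φ : ArcAut K) : Cong m φ φ := fun _ _ _ => rfl

theorem Cong.symm {m : ℕ} {φ ψ : ArcAut K} (h : Cong m φ ψ) : Cong m ψ φ :=
  fun x j hj => (h x j hj).symm

theorem Cong.trans {m : ℕ} {φ ψ χ : ArcAut K} (h : Cong m φ ψ) (h' : Cong m ψ χ) : Cong m φ χ :=
  fun x j hj => (h x j hj).trans (h' x j hj)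

theorem Cong.mono {m m' : ℕ} (hm : m' ≤ m) {φ ψ : ArcAut K} (h : Cong m φ ψ) : Cong m' φ ψ :=
  fun x j hj => h x j (lt_of_lt_of_le hj hm)

theorem cong_one_all (φ ψ : ArcAut K) : Cong 1 φ ψ := by
  intro x j hj
  obtain rfl : j = 0 := by omega
  rw [coeff_zero_eq_constantCoeff_apply, coeff_zero_eq_constantCoeff_apply, φ.map_zero,
    ψ.map_zero]

theorem cong_iff_all {m : ℕ} {φ ψ : ArcAut K} : Cong m φ ψ ↔
    ∀ (f : PowerSeries K), ∀ j < m, coeff j (φ.toEquiv f) = coeff j (ψ.toEquiv f) := by
  constructor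
  · intro h f j hj
    rw [coeff_app, coeff_app]
    refine Finset.sum_congr rfl fun p hp => ?_
    rw [Finset.HasAntidiagonal.mem_antidiagonal] at hp
    exact h _ _ (by omega)
  · intro h x j hj
    exact h _ j hj

theorem Cong.mul {m : ℕ} {φ ψ φ' ψ' : ArcAut K} (h : Cong m φ ψ) (h' : Cong m φ' ψ') :
    Cong m (φ * φ') (ψ * ψ') := by
  intro x j hj
  rw [ArcAut.mul_apply, ArcAut.mul_apply, coeff_app, coeff_app]
  refine Finset.sum_congr rfl fun p hp => ?_
  rw [Finset.HasAntidiagonal.mem_antidiagonal] at hp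
  rw [h' x p.2 (by omega)]
  exact h _ _ (by omega)

theorem Cong.inv {m : ℕ} {φ ψ : ArcAut K} (h : Cong m φ ψ) : Cong m φ⁻¹ ψ⁻¹ := by
  have h1 := ((Cong.refl m φ⁻¹).mul h).mul (Cong.refl m ψ⁻¹)
  rw [inv_mul_cancel, one_mul, mul_assoc, mul_inv_cancel, mul_one] at h1
  exact h1.symm

theorem eq_of_cong {φ ψ : ArcAut K} (h : ∀ m, Cong m φ ψ) : φ = ψ := by
  refine arc_ext fun x => ?_
  ext j
  exact h (j + 1) x j (Nat.lt_succ_self j)

theorem exists_limit (φ : ℕ → ArcAut K) (h : ∀ m, Cong m (φ (m + 1)) (φ m)) :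
    ∃ ψ : ArcAut K, ∀ m, Cong m ψ (φ m) := by
  have h1 : ∀ m d, Cong m (φ (m + d)) (φ m) := by
    intro m d
    induction d with
    | zero => exact Cong.refl m _
    | succ d ih => exact ((h (m + d)).mono (Nat.le_add_right m d)).trans ih
  have h2 : ∀ m m', m ≤ m' → Cong m (φ m') (φ m) := by
    intro m m' hm
    obtain ⟨d, rfl⟩ := Nat.exists_eq_add_of_le hm
    exact h1 m d
  let H : K →+* PowerSeries K :=
    { toFun := fun x => mk fun n => coeff n ((φ (n + 1)).toEquiv (C x))
      map_one' := by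
        ext n
        rw [coeff_mk, map_one, map_one]
      map_zero' := by
        ext n
        rw [coeff_mk, map_zero, map_zero]
      map_add' := by
        intro x y
        ext n
        rw [coeff_mk, map_add, map_add, map_add, map_add, coeff_mk, coeff_mk]
      map_mul' := by
        intro x y
        ext n
        rw [coeff_mk, map_mul, map_mul, coeff_mul, coeff_mul]
        refine Finset.sum_congr rfl fun p hp => ?_
        rw [Finset.HasAntidiagonal.mem_antidiagonal] at hp
        rw [coeff_mk, coeff_mk, h2 (p.1 + 1) (n + 1) (by omega) x p.1 (Nat.lt_succ_self _),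
          h2 (p.2 + 1) (n + 1) (by omega) y p.2 (Nat.lt_succ_self _)] }
  have hH : ∀ x n, coeff n (H x) = coeff n ((φ (n + 1)).toEquiv (C x)) := by
    intro x n
    show coeff n (mk fun n => coeff n ((φ (n + 1)).toEquiv (C x))) = _
    rw [coeff_mk]
  obtain ⟨ψ, hψ⟩ := exists_ofHom H (by
    intro x
    rw [← coeff_zero_eq_constantCoeff_apply, hH, coeff_zero_eq_constantCoeff_apply,
      (φ (0 + 1)).map_zero, constantCoeff_C]) (by
    intro c
    ext n
    rw [hH, (φ (n + 1)).map_C])
  refine ⟨ψ, fun m x j hj => ?_⟩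
  rw [hψ, hH]
  exact (h2 (j + 1) m (by omega) x j (Nat.lt_succ_self j)).symm

end HKR
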