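import Pool.Agent.Lib.HKR.MDefs
import Pool.Agent.Lib.HKR.P1
import Pool.Agent.Lib.HKR.B2
import Pool.Agent.Lib.HKR.D1
/-!
HKR.M1 (power series with regular coefficients).
regS ring facts: clear.  inv: f RegS with constant coefficient having a nonzero value at y: f⁻¹ RegS (recursion
  for the coefficients of the inverse; Val.inv).
regS_of_logA: LogA y η and RegS y f imply RegS y (η f).  By coeff_app enough for f = C g, g regular at y.
  Choose a line l with L l ⬝ q ≠ 0 (nonconc).  q not multiple: i, j with L i, L j, L l independent; regP: g = P(x,y)/Q(x,y),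
  x = ℓi/ℓl, y = ℓj/ℓl regular at y, Q nonzero at the point.  η(x) = (η(x)/x) x is RegS by LogA, same η(y); so
  η(P(x,y)) = P(η x, η y) is RegS and Q(η x, η y) has constant coefficient Q(x,y) with nonzero value: inv.
  q multiple: j through q with L j ⬝ w ≠ 0, i ≠ j through q: regB with lx = L j, ly = L i, lz = L l: s = ℓj/ℓl, t = ℓi/ℓj;
  the same argument (s, t are ratios of lines, regular at y).
onto: if RegS y f there is g RegS with η g = f (recursion as in P3.pres_iff): so η⁻¹ also preserves RegS.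
logA group: (η η')(r)/r = η(η'(r)/r) * η(r)/r;  η⁻¹(r)/r = η⁻¹((η(r)/r)⁻¹) (constant coefficient 1).
-/
open MvPolynomial
namespace HKR
variable {k : ℕ} {L : Fin k → Fin 3 → ℂ} {y : Pt}

private theorem m1_zero : Regular L y 0 := by
  have h := Regular.const (L := L) (y := y) 0
  rwa [map_zero] at h

private theorem m1_one : Regular L y 1 := by
  have h := Regular.const (L := L) (y := y) 1
  rwa [map_one] at h

private theorem m1_sum {ι : Type} (s : Finset ι) {f : ι → Fn} (h : ∀ i ∈ s, Regular L y (f i)) :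
    Regular L y (∑ i ∈ s, f i) := by
  classical
  induction s using Finset.induction_on with
  | empty =>
    rw [Finset.sum_empty]
    exact m1_zero
  | insert i s hi ih =>
    rw [Finset.sum_insert hi]
    exact (h i (Finset.mem_insert_self _ _)).add
      (ih fun j hj => h j (Finset.mem_insert_of_mem hj))

theorem RegS.add {f g : PowerSeries Fn} (hf : RegS L y f) (hg : RegS L y g) : RegS L y (f + g) := by
  intro m
  rw [map_add]
  exact (hf m).add (hg m)

theorem RegS.mul {f g : PowerSeries Fn} (hf : RegS L y f) (hg : RegS L y g) : RegS L y (f * g) := by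
  intro m
  rw [PowerSeries.coeff_mul]
  exact m1_sum _ fun p _ => (hf p.1).mul (hg p.2)

theorem RegS.neg {f : PowerSeries Fn} (hf : RegS L y f) : RegS L y (-f) := by
  intro m
  rw [map_neg]
  exact (hf m).neg

theorem regS_C {f : Fn} (hf : Regular L y f) : RegS L y (PowerSeries.C f) := by
  intro m
  rw [PowerSeries.coeff_C]
  split_ifs
  · exact hf
  · exact m1_zero

theorem regS_const (f : PowerSeries ℂ) : RegS L y (PowerSeries.map (algebraMap ℂ Fn) f) := by
  intro m
  rw [PowerSeries.coeff_map]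
  exact Regular.const _

theorem regS_inv {f g : PowerSeries Fn} (hf : RegS L y f) (hfg : f * g = 1) {c : ℂ} (hc : c ≠ 0)
    (hv : Val L y (PowerSeries.constantCoeff f) c) : RegS L y g := by
  intro n
  induction n using Nat.strong_induction_on with
  | _ n ih =>
    have h0 : PowerSeries.constantCoeff f ≠ 0 := hv.ne_zero hc
    have h1 : PowerSeries.coeff n (f * g) = PowerSeries.coeff n (1 : PowerSeries Fn) := by
      rw [hfg]
    rw [PowerSeries.coeff_mul,
      ← Finset.add_sum_erase _ _ (Finset.HasAntidiagonal.mem_antidiagonal.2 (zero_add n) :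
        ((0, n) : ℕ × ℕ) ∈ Finset.HasAntidiagonal.antidiagonal n)] at h1
    simp only at h1
    rw [PowerSeries.coeff_zero_eq_constantCoeff_apply] at h1
    have h2 : Regular L y (∑ p ∈ (Finset.HasAntidiagonal.antidiagonal n).erase (0, n),
        PowerSeries.coeff p.1 f * PowerSeries.coeff p.2 g) := by
      refine m1_sum _ fun p hp => (hf p.1).mul (ih p.2 ?_)
      obtain ⟨hne, hp⟩ := Finset.mem_erase.1 hp
      have hp2 := Finset.HasAntidiagonal.mem_antidiagonal.1 hp
      rcases Nat.lt_or_ge p.2 n with h4 | h4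
      · exact h4
      · exfalso
        apply hne
        apply Prod.ext
        · show p.1 = 0
          omega
        · show p.2 = n
          omega
    have h3 : Regular L y (PowerSeries.coeff n (1 : PowerSeries Fn)) := by
      rw [PowerSeries.coeff_one]
      split_ifs
      · exact m1_one
      · exact m1_zero
    have h4 : PowerSeries.coeff n g = (PowerSeries.constantCoeff f)⁻¹ *
        (PowerSeries.coeff n (1 : PowerSeries Fn) -
          ∑ p ∈ (Finset.HasAntidiagonal.antidiagonal n).erase (0, n),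
            PowerSeries.coeff p.1 f * PowerSeries.coeff p.2 g) := by
      rw [← h1, add_sub_cancel_right, inv_mul_cancel_left₀ h0]
    rw [h4]
    exact (regular_iff_val.2 ⟨_, hv.inv hc⟩).mul (h3.sub h2)

private theorem m1_psi_C (s t : Fn) (c : ℂ) : psi s t (C c) = algebraMap ℂ Fn c :=
  MvPolynomial.aeval_C _ _

private theorem m1_psi_X (s t : Fn) (i : Fin 2) : psi s t (X i) = (![s, t] : Fin 2 → Fn) i :=
  MvPolynomial.aeval_X _ _

private theorem m1_poly {η : ArcAut Fn} {s t : Fn}
    (hs : RegS L y (η.toEquiv (PowerSeries.C s))) (ht : RegS L y (η.toEquiv (PowerSeries.C t)))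
    (P : MvPolynomial (Fin 2) ℂ) : RegS L y (η.toEquiv (PowerSeries.C (psi s t P))) := by
  induction P using MvPolynomial.induction_on with
  | C c =>
    rw [m1_psi_C, η.map_C]
    exact regS_C (Regular.const c)
  | add P Q hP hQ =>
    rw [map_add, map_add, map_add]
    exact hP.add hQ
  | mul_X P i hP =>
    rw [map_mul, map_mul, map_mul]
    refine hP.mul ?_
    rw [m1_psi_X]
    fin_cases i
    · exact hs
    · exact ht

private theorem m1_val {s t : Fn} {a b : ℂ} (hs : Val L y s a) (ht : Val L y t b)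
    (Q : MvPolynomial (Fin 2) ℂ) : Val L y (psi s t Q) (eval ![a, b] Q) := by
  induction Q using MvPolynomial.induction_on with
  | C c =>
    rw [m1_psi_C, eval_C]
    exact Val.const c
  | add P Q hP hQ =>
    rw [map_add, map_add]
    exact hP.add hQ
  | mul_X P i hP =>
    rw [map_mul, map_mul, m1_psi_X, eval_X]
    refine hP.mul ?_
    fin_cases i
    · exact hs
    · exact ht

private theorem m1_key {η : ArcAut Fn} {s t g : Fn} {a b : ℂ}
    (hs : RegS L y (η.toEquiv (PowerSeries.C s))) (ht : RegS L y (η.toEquiv (PowerSeries.C t)))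
    (hs' : Val L y s a) (ht' : Val L y t b) (hg : RLoc s t a b g) :
    RegS L y (η.toEquiv (PowerSeries.C g)) := by
  obtain ⟨P, Q, hQ, h⟩ := hg
  have hv := m1_val hs' ht' Q
  have hne : psi s t Q ≠ 0 := hv.ne_zero hQ
  have h1 : RegS L y (η.toEquiv (PowerSeries.C (psi s t Q)⁻¹)) := by
    refine regS_inv (m1_poly hs ht Q) (c := eval ![a, b] Q) ?_ hQ ?_
    · rw [← map_mul, ← map_mul, mul_inv_cancel₀ hne, map_one, map_one]
    · rw [η.map_zero, PowerSeries.constantCoeff_C]
      exact hv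
  have h2 : g = psi s t P * (psi s t Q)⁻¹ := by
    rw [← h, mul_inv_cancel_right₀ hne]
  rw [h2, map_mul, map_mul]
  exact (m1_poly hs ht P).mul h1

private theorem m1_kernel (a b : Fin 3 → ℂ) :
    ∃ v : Fin 3 → ℂ, v ≠ 0 ∧ a ⬝ᵥ v = 0 ∧ b ⬝ᵥ v = 0 := by
  have h : (Matrix.of ![a, b, 0] : Matrix (Fin 3) (Fin 3) ℂ).det = 0 := by
    refine Matrix.det_eq_zero_of_row_eq_zero 2 (fun j => ?_)
    rfl
  obtain ⟨v, hv, hv'⟩ := Matrix.exists_mulVec_eq_zero_iff.2 h
  exact ⟨v, hv, congrFun hv' 0, congrFun hv' 1⟩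

private theorem m1_line (hC : Config L) {v : Fin 3 → ℂ} (hv : v ≠ 0) : ∃ j, L j ⬝ᵥ v ≠ 0 := by
  by_contra h
  push Not at h
  exact hv (hC.nonconc v h)

private theorem m1_fl (hC : Config L) (i : Fin k) : fl (L i) ≠ 0 := by
  obtain ⟨v, hv, hv1, -⟩ := m1_kernel (L i) (L i)
  obtain ⟨j, hj⟩ := m1_line hC hv
  have hij : i ≠ j := by
    rintro rfl
    exact hj hv1
  exact fl_ne_zero ((hC.ind i j hij).ne_zero 0)

private theorem m1_rr (hC : Config L) (i j : Fin k) :
    fl (L i) / fl (L j) * (fl (L j) / fl (L i)) = 1 := by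
  have h1 := m1_fl hC i
  have h2 := m1_fl hC j
  field_simp

private theorem m1_ratio (hC : Config L) {η : ArcAut Fn} (h : LogA L y η) {i j : Fin k}
    (hr : Regular L y (fl (L i) / fl (L j))) :
    RegS L y (η.toEquiv (PowerSeries.C (fl (L i) / fl (L j)))) := by
  have h1 := (h i j).mul (regS_C hr)
  rwa [mul_assoc, ← map_mul, m1_rr hC, map_one, mul_one] at h1

private theorem m1_ind {a b c u v w : Fin 3 → ℂ} (hau : a ⬝ᵥ u ≠ 0) (hbu : b ⬝ᵥ u = 0)
    (hcu : c ⬝ᵥ u = 0) (hbv : b ⬝ᵥ v ≠ 0) (hcv : c ⬝ᵥ v = 0) (hcw : c ⬝ᵥ w ≠ 0) :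
    LinearIndependent ℂ ![a, b, c] := by
  rw [Fintype.linearIndependent_iff]
  intro g hg
  rw [Fin.sum_univ_three] at hg
  simp only [Matrix.cons_val] at hg
  have key : ∀ x : Fin 3 → ℂ, g 0 * (a ⬝ᵥ x) + g 1 * (b ⬝ᵥ x) + g 2 * (c ⬝ᵥ x) = 0 := by
    intro x
    have h := congrArg (fun z => z ⬝ᵥ x) hg
    simpa only [add_dotProduct, smul_dotProduct, smul_eq_mul, zero_dotProduct] using h
  have h0 : g 0 = 0 := by
    have h := key u
    rw [hbu, hcu, mul_zero, mul_zero, add_zero, add_zero] at h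
    exact (mul_eq_zero.1 h).resolve_right hau
  have h1 : g 1 = 0 := by
    have h := key v
    rw [h0, hcv, zero_mul, mul_zero, zero_add, add_zero] at h
    exact (mul_eq_zero.1 h).resolve_right hbv
  have h2 : g 2 = 0 := by
    have h := key w
    rw [h0, h1, zero_mul, zero_mul, zero_add, zero_add] at h
    exact (mul_eq_zero.1 h).resolve_right hcw
  intro i
  fin_cases i
  · exact h0
  · exact h1
  · exact h2

private theorem m1_ind2 {a b c q : Fin 3 → ℂ} (h : LinearIndependent ℂ ![a, b])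
    (ha : a ⬝ᵥ q = 0) (hb : b ⬝ᵥ q = 0) (hc : c ⬝ᵥ q ≠ 0) : LinearIndependent ℂ ![a, b, c] := by
  rw [Fintype.linearIndependent_iff]
  intro g hg
  rw [Fin.sum_univ_three] at hg
  simp only [Matrix.cons_val] at hg
  have h2 : g 2 = 0 := by
    have h3 := congrArg (fun z => z ⬝ᵥ q) hg
    simp only [add_dotProduct, smul_dotProduct, smul_eq_mul, zero_dotProduct, ha, hb, mul_zero,
      zero_add] at h3
    exact (mul_eq_zero.1 h3).resolve_right hc
  rw [h2, zero_smul, add_zero] at hg
  obtain ⟨h0, h1⟩ := LinearIndependent.pair_iff.1 h _ _ hg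
  intro i
  fin_cases i
  · exact h0
  · exact h1
  · exact h2

private theorem m1_van {a b c v : Fin 3 → ℂ} (h : LinearIndependent ℂ ![a, b, c])
    (ha : a ⬝ᵥ v = 0) (hb : b ⬝ᵥ v = 0) (hc : c ⬝ᵥ v = 0) : v = 0 := by
  have h1 : IsUnit (Matrix.of ![a, b, c]) := by
    rw [← Matrix.linearIndependent_rows_iff_isUnit]
    exact h
  have h2 : (Matrix.of ![a, b, c]).mulVec v = 0 := by
    funext i
    fin_cases i
    · exact ha
    · exact hb
    · exact hc
  obtain ⟨u, hu⟩ := h1
  have h3 : ((u⁻¹ : (Matrix (Fin 3) (Fin 3) ℂ)ˣ) : Matrix (Fin 3) (Fin 3) ℂ).mulVec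
      ((Matrix.of ![a, b, c]).mulVec v) = v := by
    rw [Matrix.mulVec_mulVec, ← hu, Units.inv_mul, Matrix.one_mulVec]
  rw [← h3, h2, Matrix.mulVec_zero]

private theorem m1_dir (hC : Config L) {a b : Fin k} (hab : a ≠ b) (ha : L a ⬝ᵥ y.q = 0)
    (hb : L b ⬝ᵥ y.q = 0) {l : Fin k} (hl : L l ⬝ᵥ y.q ≠ 0) :
    L a ⬝ᵥ y.w ≠ 0 ∨ L b ⬝ᵥ y.w ≠ 0 := by
  by_contra h
  push Not at h
  obtain ⟨h1, h2⟩ := h
  have h3 := m1_van (v := (L l ⬝ᵥ y.w) • y.q + (-(L l ⬝ᵥ y.q)) • y.w)
    (m1_ind2 (hC.ind a b hab) ha hb hl)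
    (by rw [dotProduct_add, dotProduct_smul, dotProduct_smul, ha, h1, smul_zero, smul_zero,
      add_zero])
    (by rw [dotProduct_add, dotProduct_smul, dotProduct_smul, hb, h2, smul_zero, smul_zero,
      add_zero])
    (by rw [dotProduct_add, dotProduct_smul, dotProduct_smul, smul_eq_mul, smul_eq_mul]; ring)
  have h4 := (LinearIndependent.pair_iff.1 y.ind _ _ h3).2
  exact hl (neg_eq_zero.1 h4)

private theorem m1_mult (hC : Config L) {η : ArcAut Fn} (h : LogA L y η) {g : Fn}
    (hg : Regular L y g) {i j l : Fin k} (hij : j ≠ i) (hj : L j ⬝ᵥ y.q = 0)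
    (hi : L i ⬝ᵥ y.q = 0) (hl : L l ⬝ᵥ y.q ≠ 0) (hw : L j ⬝ᵥ y.w ≠ 0) (hq : Multiple L y.q) :
    RegS L y (η.toEquiv (PowerSeries.C g)) := by
  have hR := (regB (m1_ind2 (hC.ind j i hij) hj hi hl) hj hi hq hw g).1 hg
  have v1 : Val L y (fl (L j) / fl (L l)) 0 := by
    have h1 := Val.ratio (L := L) (l := L j) hl
    rwa [hj, zero_div] at h1
  have v2 := Val.ratio_mult hq hi hj hw
  exact m1_key (m1_ratio hC h (regular_iff_val.2 ⟨_, v1⟩))
    (m1_ratio hC h (regular_iff_val.2 ⟨_, v2⟩)) v1 v2 hR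

private theorem m1_reg (hC : Config L) {η : ArcAut Fn} (h : LogA L y η) {g : Fn}
    (hg : Regular L y g) : RegS L y (η.toEquiv (PowerSeries.C g)) := by
  have hq0 : y.q ≠ 0 := y.ind.ne_zero 0
  obtain ⟨l, hl⟩ := m1_line hC hq0
  by_cases hq : Multiple L y.q
  · obtain ⟨a, b, c, hab, -, -, ha, hb, -⟩ := id hq
    rcases m1_dir hC hab ha hb hl with hw | hw
    · exact m1_mult hC h hg hab ha hb hl hw hq
    · exact m1_mult hC h hg hab.symm hb ha hl hw hq
  · obtain ⟨v, hv, hv1, -⟩ := m1_kernel (L l) (L l)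
    obtain ⟨i, hi⟩ := m1_line hC hv
    obtain ⟨u, hu, hu1, hu2⟩ := m1_kernel (L l) (L i)
    obtain ⟨j, hj⟩ := m1_line hC hu
    have hR := (regP (m1_ind hj hu2 hu1 hi hv1 hl) hl hq g).1 hg
    have v1 := Val.ratio (L := L) (l := L j) hl
    have v2 := Val.ratio (L := L) (l := L i) hl
    exact m1_key (m1_ratio hC h (regular_iff_val.2 ⟨_, v1⟩))
      (m1_ratio hC h (regular_iff_val.2 ⟨_, v2⟩)) v1 v2 hR

theorem regS_of_logA (hC : Config L) {η : ArcAut Fn} (h : LogA L y η) {f : PowerSeries Fn}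
    (hf : RegS L y f) : RegS L y (η.toEquiv f) := by
  intro n
  rw [coeff_app]
  exact m1_sum _ fun p _ => m1_reg hC h (hf p.2) p.1

private theorem m1_back {η : ArcAut Fn}
    (h : ∀ x, Regular L y x → RegS L y (η.toEquiv (PowerSeries.C x)))
    {f : PowerSeries Fn} (hf : RegS L y (η.toEquiv f)) : RegS L y f := by
  intro n
  induction n using Nat.strong_induction_on with
  | _ n ih =>
    have h1 := coeff_app η f n
    rw [← Finset.add_sum_erase _ _ (Finset.HasAntidiagonal.mem_antidiagonal.2 (zero_add n) :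
      ((0, n) : ℕ × ℕ) ∈ Finset.HasAntidiagonal.antidiagonal n)] at h1
    have h2 : PowerSeries.coeff 0 (η.toEquiv (PowerSeries.C (PowerSeries.coeff n f))) =
        PowerSeries.coeff n f := by
      rw [PowerSeries.coeff_zero_eq_constantCoeff_apply, η.map_zero,
        PowerSeries.constantCoeff_C]
    simp only at h1
    rw [h2] at h1
    have h3 : Regular L y (∑ p ∈ (Finset.HasAntidiagonal.antidiagonal n).erase (0, n),
        PowerSeries.coeff p.1 (η.toEquiv (PowerSeries.C (PowerSeries.coeff p.2 f)))) := by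
      refine m1_sum _ fun p hp => h _ (ih p.2 ?_) p.1
      obtain ⟨hne, hp⟩ := Finset.mem_erase.1 hp
      have hp2 := Finset.HasAntidiagonal.mem_antidiagonal.1 hp
      rcases Nat.lt_or_ge p.2 n with h4 | h4
      · exact h4
      · exfalso
        apply hne
        apply Prod.ext
        · show p.1 = 0
          omega
        · show p.2 = n
          omega
    have h5 := (hf n).sub h3
    rwa [h1, add_sub_cancel_right] at h5

theorem regS_of_logA_inv (hC : Config L) {η : ArcAut Fn} (h : LogA L y η) {f : PowerSeries Fn}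
    (hf : RegS L y f) : RegS L y ((η⁻¹).toEquiv f) := by
  refine m1_back (η := η) (fun x hx => m1_reg hC h hx) ?_
  rw [ArcAut.inv_apply, RingEquiv.apply_symm_apply]
  exact hf

theorem LogA.one : LogA L y (1 : ArcAut Fn) := by
  intro i j
  rw [ArcAut.one_apply, ← map_mul]
  refine regS_C ?_
  by_cases h1 : fl (L i) = 0
  · rw [h1, zero_div, zero_mul]
    exact m1_zero
  · by_cases h2 : fl (L j) = 0
    · rw [h2, zero_div, mul_zero]
      exact m1_zero
    · have h3 : fl (L i) / fl (L j) * (fl (L j) / fl (L i)) = 1 := by field_simp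
      rw [h3]
      exact m1_one

theorem LogA.mul (hC : Config L) {η η' : ArcAut Fn} (h : LogA L y η) (h' : LogA L y η') :
    LogA L y (η * η') := by
  intro i j
  have h1 : η'.toEquiv (PowerSeries.C (fl (L i) / fl (L j))) =
      (η'.toEquiv (PowerSeries.C (fl (L i) / fl (L j))) * PowerSeries.C (fl (L j) / fl (L i))) *
        PowerSeries.C (fl (L i) / fl (L j)) := by
    rw [mul_assoc, ← map_mul, m1_rr hC, map_one, mul_one]
  rw [ArcAut.mul_apply, h1, map_mul η.toEquiv, mul_assoc]
  exact (regS_of_logA hC h (h' i j)).mul (h i j)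

theorem LogA.inv (hC : Config L) {η : ArcAut Fn} (h : LogA L y η) : LogA L y η⁻¹ := by
  intro i j
  have h1 := regS_of_logA_inv hC h (h j i)
  rw [map_mul, ArcAut.inv_apply, ArcAut.inv_apply, RingEquiv.symm_apply_apply, mul_comm] at h1
  rw [ArcAut.inv_apply]
  exact h1

end HKR
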