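import Pool.Agent.Lib.HKR.B1
import Pool.Agent.Lib.HKR.M1
import Pool.Agent.Lib.HKR.GDefs
/-!
HKR.G4 (power series with regular coefficients).  Coefficient of a product: finite sum over the antidiagonal (Regular.add, mul, const).
inv: constant coefficient of f has value e ≠ 0, so its inverse is regular (Val.inv); coefficients of f⁻¹ by recursion
(PowerSeries.coeff_inv).
root: W constant coefficient 1.  By strong induction coeff m W is regular: coeff m (W^n) = n coeff m W + (polynomial with integer coefficients in
coeff j W, 0 < j < m): write W = 1 + X^1 ... : e.g. let W = A + X^m B with A the truncation (polynomial, coefficients regular), then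
W^n = A^n + n A^(n-1) X^m B + X^(2m) (...), coefficient m (m ≥ 1): coeff m (A^n) + n B_0 as constant coefficient of A is 1.
RegS.add, RegS.mul, RegS.neg are in M1.
-/
open MvPolynomial
namespace HKR
variable {k : ℕ} {L : Fin k → Fin 3 → ℂ} {y : Pt}

private theorem g4_zero : Regular L y (0 : Fn) := by
  have h := Regular.const (L := L) (y := y) 0
  rwa [map_zero] at h

theorem RegS.C {f : Fn} (hf : Regular L y f) : RegS L y (PowerSeries.C f) := by
  intro m
  rw [PowerSeries.coeff_C]
  split_ifs
  · exact hf
  · exact g4_zero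

theorem RegS.one : RegS L y (1 : PowerSeries Fn) := by
  have h1 : Regular L y (1 : Fn) := by
    have h := Regular.const (L := L) (y := y) 1
    rwa [map_one] at h
  have h2 := RegS.C h1
  rwa [map_one] at h2

theorem RegS.pow {f : PowerSeries Fn} (hf : RegS L y f) (m : ℕ) : RegS L y (f ^ m) := by
  induction m with
  | zero => rw [pow_zero]; exact RegS.one
  | succ m ih => rw [pow_succ]; exact ih.mul hf

theorem RegS.inv {f : PowerSeries Fn} (hf : RegS L y f) {e : ℂ}
    (he : Val L y (PowerSeries.constantCoeff f) e) (he0 : e ≠ 0) : RegS L y f⁻¹ :=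
  regS_inv hf (PowerSeries.mul_inv_cancel f (he.ne_zero he0)) he0 he

private theorem g4_coeff (W : PowerSeries Fn) (n m : ℕ) (hm : m ≠ 0)
    (h1 : PowerSeries.constantCoeff W = 1) :
    PowerSeries.coeff m (W ^ n) =
      PowerSeries.coeff m (((PowerSeries.trunc m W : Polynomial Fn) : PowerSeries Fn) ^ n) +
        (n : Fn) * PowerSeries.coeff m W := by
  set A : PowerSeries Fn := ((PowerSeries.trunc m W : Polynomial Fn) : PowerSeries Fn) with hA
  have hAc : ∀ j, PowerSeries.coeff j A = if j < m then PowerSeries.coeff j W else 0 := by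
    intro j
    rw [hA, Polynomial.coeff_coe, PowerSeries.coeff_trunc]
  have hX : PowerSeries.X ^ m ∣ W - A := by
    rw [PowerSeries.X_pow_dvd_iff]
    intro j hj
    rw [map_sub, hAc, if_pos hj, sub_self]
  obtain ⟨B, hB⟩ := hX
  have hW : W = A + PowerSeries.X ^ m * B := by rw [← hB]; ring
  obtain ⟨K, hK⟩ := Polynomial.powAddExpansion A (PowerSeries.X ^ m * B) n
  have hA0 : PowerSeries.constantCoeff A = 1 := by
    rw [← PowerSeries.coeff_zero_eq_constantCoeff_apply, hAc, if_pos (Nat.pos_of_ne_zero hm),
      PowerSeries.coeff_zero_eq_constantCoeff_apply, h1]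
  have hBm : PowerSeries.coeff m W = PowerSeries.constantCoeff B := by
    rw [hW, map_add, hAc, if_neg (lt_irrefl m), zero_add]
    have := PowerSeries.coeff_X_pow_mul B m 0
    rw [zero_add] at this
    rw [this, PowerSeries.coeff_zero_eq_constantCoeff_apply]
  have e1 : PowerSeries.coeff m ((n : PowerSeries Fn) * A ^ (n - 1) * (PowerSeries.X ^ m * B)) =
      (n : Fn) * PowerSeries.constantCoeff B := by
    have e2 : (n : PowerSeries Fn) * A ^ (n - 1) * (PowerSeries.X ^ m * B) =
        PowerSeries.X ^ m * ((n : PowerSeries Fn) * A ^ (n - 1) * B) := by ring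
    have e3 := PowerSeries.coeff_X_pow_mul ((n : PowerSeries Fn) * A ^ (n - 1) * B) m 0
    rw [zero_add] at e3
    rw [e2, e3, PowerSeries.coeff_zero_eq_constantCoeff_apply, map_mul, map_mul, map_pow, hA0,
      one_pow, mul_one, map_natCast]
  have e4 : PowerSeries.coeff m (K * (PowerSeries.X ^ m * B) ^ 2) = 0 := by
    have e5 : PowerSeries.X ^ (m + 1) ∣ K * (PowerSeries.X ^ m * B) ^ 2 := by
      have e6 : K * (PowerSeries.X ^ m * B) ^ 2 =
          PowerSeries.X ^ (m + m) * (K * B ^ 2) := by ring
      rw [e6]
      exact (pow_dvd_pow _ (by omega)).mul_right _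
    exact (PowerSeries.X_pow_dvd_iff.1 e5) m (Nat.lt_succ_self m)
  have e7 : W ^ n = A ^ n + (n : PowerSeries Fn) * A ^ (n - 1) * (PowerSeries.X ^ m * B) +
      K * (PowerSeries.X ^ m * B) ^ 2 := by
    rw [← hK, ← hW]
  rw [e7, map_add, map_add, e1, e4, add_zero, hBm]

theorem RegS.root {W : PowerSeries Fn} {n : ℕ} (hn : 0 < n)
    (h1 : PowerSeries.constantCoeff W = 1) (h : RegS L y (W ^ n)) : RegS L y W := by
  intro m
  induction m using Nat.strong_induction_on with
  | _ m ih =>
    rcases Nat.eq_zero_or_pos m with rfl | hm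
    · rw [PowerSeries.coeff_zero_eq_constantCoeff_apply, h1]
      have h := Regular.const (L := L) (y := y) 1
      rwa [map_one] at h
    · have hA : RegS L y ((PowerSeries.trunc m W : Polynomial Fn) : PowerSeries Fn) := by
        intro j
        rw [Polynomial.coeff_coe, PowerSeries.coeff_trunc]
        split_ifs with hj
        · exact ih j hj
        · exact g4_zero
      have e1 := g4_coeff W n m hm.ne' h1
      have e2 : Regular L y ((n : Fn) * PowerSeries.coeff m W) := by
        have e3 : (n : Fn) * PowerSeries.coeff m W = PowerSeries.coeff m (W ^ n) -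
            PowerSeries.coeff m
              (((PowerSeries.trunc m W : Polynomial Fn) : PowerSeries Fn) ^ n) := by
          rw [e1]; ring
        rw [e3]
        exact (h m).sub (hA.pow n m)
      have hn0 : (n : Fn) ≠ 0 := Nat.cast_ne_zero.2 hn.ne'
      have e4 : Regular L y (algebraMap ℂ Fn ((n : ℂ)⁻¹) * ((n : Fn) * PowerSeries.coeff m W)) :=
        (Regular.const _).mul e2
      have e5 : algebraMap ℂ Fn ((n : ℂ)⁻¹) * ((n : Fn) * PowerSeries.coeff m W) =
          PowerSeries.coeff m W := by
        rw [map_inv₀, map_natCast, inv_mul_cancel_left₀ hn0]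
      rwa [e5] at e4

end HKR
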