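import Pool.Agent.Lib.HKR.KDefs
/-!
HKR.K1.  `Int L y x` is integrality over the subring of regular functions.
PROOF.  Let OO : Subring Fn with carrier {f | Regular L y f} (Regular.const / add / mul / neg, B1; 0 and 1
are constants).  K is an algebra over OO (`Algebra.ofSubring`, the algebra map is the composition).
`Int L y x ↔ IsIntegral OO x`: from p : OO[X] monic take p.map OO.subtype; conversely a monic p : Fn[X] with
all coefficients in OO is lifted (`Polynomial.lifts_iff_coeff_lifts`, `Polynomial.lifts_and_degree_eq_and_monic`,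
or `Polynomial.toSubring`, `Polynomial.monic_toSubring`).  Then IsIntegral.add, mul, ...
of_pow: the polynomial X^n - C g (n > 0), coefficients -g, 1, 0.
map: an automorphism over Fn: apply σ to the relation (`Polynomial.aeval_algHom_apply`).
-/
open MvPolynomial
namespace HKR
variable {k : ℕ} {L : Fin k → Fin 3 → ℂ} {y : Pt} {K : Type} [Field K] [Algebra Fn K]

/-- the subring of regular functions -/
private def k1OO {k : ℕ} (L : Fin k → Fin 3 → ℂ) (y : Pt) : Subring Fn where
  carrier := {f | Regular L y f}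
  mul_mem' := fun h h' => Regular.mul h h'
  one_mem' := by
    have h : Regular L y (algebraMap ℂ Fn 1) := Regular.const 1
    rwa [map_one] at h
  add_mem' := fun h h' => Regular.add h h'
  zero_mem' := by
    have h : Regular L y (algebraMap ℂ Fn 0) := Regular.const 0
    rwa [map_zero] at h
  neg_mem' := fun h => Regular.neg h

private theorem k1_iff {x : K} : Int L y x ↔ IsIntegral (k1OO L y) x := by
  constructor
  · rintro ⟨p, hp, hreg, hx⟩
    have hl : p ∈ Polynomial.lifts (k1OO L y).subtype := by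
      rw [Polynomial.lifts_iff_coeff_lifts]
      exact fun n => ⟨⟨p.coeff n, hreg n⟩, rfl⟩
    obtain ⟨q, hq, _, hm⟩ := Polynomial.lifts_and_natDegree_eq_and_monic hl hp
    refine ⟨q, hm, ?_⟩
    rw [← hq, Polynomial.aeval_def, Polynomial.eval₂_map] at hx
    exact hx
  · rintro ⟨q, hm, hx⟩
    refine ⟨q.map (k1OO L y).subtype, hm.map _, fun m => ?_, ?_⟩
    · rw [Polynomial.coeff_map]
      exact (q.coeff m).2
    · rw [Polynomial.aeval_def, Polynomial.eval₂_map]
      exact hx

theorem Int.add {x x' : K} (h : Int L y x) (h' : Int L y x') : Int L y (x + x') :=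
  k1_iff.2 ((k1_iff.1 h).add (k1_iff.1 h'))

theorem Int.mul {x x' : K} (h : Int L y x) (h' : Int L y x') : Int L y (x * x') :=
  k1_iff.2 ((k1_iff.1 h).mul (k1_iff.1 h'))

theorem Int.of_regular {f : Fn} (h : Regular L y f) : Int L y (algebraMap Fn K f) :=
  k1_iff.2 (isIntegral_algebraMap (R := k1OO L y) (A := K) (x := ⟨f, h⟩))

theorem Int.sum {ι : Type} (T : Finset ι) (x : ι → K) (h : ∀ i ∈ T, Int L y (x i)) :
    Int L y (∑ i ∈ T, x i) :=
  k1_iff.2 (IsIntegral.sum x fun i hi => k1_iff.1 (h i hi))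

theorem Int.neg {x : K} (h : Int L y x) : Int L y (-x) :=
  k1_iff.2 (k1_iff.1 h).neg

theorem Int.sub {x x' : K} (h : Int L y x) (h' : Int L y x') : Int L y (x - x') :=
  k1_iff.2 ((k1_iff.1 h).sub (k1_iff.1 h'))

theorem Int.pow {x : K} (h : Int L y x) (j : ℕ) : Int L y (x ^ j) :=
  k1_iff.2 ((k1_iff.1 h).pow j)

theorem Int.of_pow {x : K} {g : Fn} {n : ℕ} (hn : 0 < n) (hx : x ^ n = algebraMap Fn K g)
    (hg : Regular L y g) : Int L y x := by
  apply k1_iff.2
  apply IsIntegral.of_pow hn
  rw [hx]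
  exact k1_iff.1 (Int.of_regular hg)

theorem Int.map {x : K} (h : Int L y x) (σ : K →ₐ[Fn] K) : Int L y (σ x) := by
  obtain ⟨p, hp, hreg, hx⟩ := h
  refine ⟨p, hp, hreg, ?_⟩
  rw [Polynomial.aeval_algHom_apply, hx, map_zero]

theorem Int.const_mul {x : K} (h : Int L y x) (c : ℂ) :
    Int L y (algebraMap Fn K (algebraMap ℂ Fn c) * x) :=
  Int.mul (Int.of_regular (Regular.const c)) h

end HKR
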