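import Pool.Agent.Lib.HKR.P2
import Pool.Agent.Lib.HKR.K1
/-!
HKR.P3 (lattices O_{S,y}[[t]]).  Int y is closed under +, -, * (integral closure of the ring of Regular
functions in K) and multiplication by constants of ℂ; so IntS y is a subring of K[[t]].
pres_iff: if φ maps IntS y into itself it maps it onto itself: given g ∈ IntS solve φ f = g coefficientwise:
 coeff n (φ f) = f_n + (terms in f_0..f_(n-1), coefficients of φ(C f_j), integral).
 Conversely clear.  It is enough to test f = C x, Int y x (coeff_app).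
pres_exp: D preserves Int y: all D^r x are integral.
der_pres: Cong m φ ψ, both Pres: φ ≡ ψ (1 + t^m D): D x = coeff m(φ C x) - coeff m(ψ C x), integral for x integral.
pres_limit: Cong m ψ (φ m), all Pres (φ m): coefficients of ψ(C x).
-/
namespace HKR
variable {K : Type} [Field K] [Algebra ℂ K] [Algebra Fn K] [IsScalarTower ℂ Fn K]
variable {k : ℕ} {L : Fin k → Fin 3 → ℂ} {y : Pt}
open PowerSeries

omit [Algebra ℂ K] [IsScalarTower ℂ Fn K] in
private theorem p3_zero : Int L y (0 : K) := by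
  have h := Int.of_regular (K := K) (Regular.const (L := L) (y := y) 0)
  rwa [map_zero, map_zero] at h

theorem Int.const (c : ℂ) : Int L y (algebraMap ℂ K c) := by
  rw [IsScalarTower.algebraMap_apply ℂ Fn K]
  exact Int.of_regular (Regular.const c)

omit [Algebra ℂ K] [IsScalarTower ℂ Fn K] in
private theorem p3_sum {ι : Type} (s : Finset ι) {f : ι → K} (h : ∀ i ∈ s, Int L y (f i)) :
    Int L y (∑ i ∈ s, f i) :=
  Int.sum s f h

omit [Algebra ℂ K] [IsScalarTower ℂ Fn K] in
private theorem p3_C {x : K} (h : Int L y x) : IntS L y (C x) := by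
  intro n
  rw [coeff_C]
  split_ifs
  · exact h
  · exact p3_zero

omit [IsScalarTower ℂ Fn K] in
private theorem p3_map {φ : ArcAut K} (h : ∀ x, Int L y x → IntS L y (φ.toEquiv (C x)))
    {f : PowerSeries K} (hf : IntS L y f) : IntS L y (φ.toEquiv f) := by
  intro n
  rw [coeff_app]
  exact p3_sum _ fun p _ => h _ (hf p.2) p.1

private theorem p3_inv {φ : ArcAut K} (h : ∀ x, Int L y x → IntS L y (φ.toEquiv (C x)))
    {f : PowerSeries K} (hf : IntS L y (φ.toEquiv f)) : IntS L y f := by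
  intro n
  induction n using Nat.strong_induction_on with
  | _ n ih =>
    have h1 := coeff_app φ f n
    rw [← Finset.add_sum_erase _ _ (Finset.HasAntidiagonal.mem_antidiagonal.2 (zero_add n) :
      ((0, n) : ℕ × ℕ) ∈ Finset.HasAntidiagonal.antidiagonal n)] at h1
    have h2 : coeff 0 (φ.toEquiv (C (coeff n f))) = coeff n f := by
      rw [coeff_zero_eq_constantCoeff_apply, φ.map_zero, ← coeff_zero_eq_constantCoeff_apply,
        coeff_zero_C]
    simp only at h1
    rw [h2] at h1
    have h3 : Int L y (∑ p ∈ (Finset.HasAntidiagonal.antidiagonal n).erase (0, n),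
        coeff p.1 (φ.toEquiv (C (coeff p.2 f)))) := by
      refine p3_sum _ fun p hp => h _ (ih p.2 ?_) p.1
      obtain ⟨hne, hp⟩ := Finset.mem_erase.1 hp
      have hp2 := Finset.HasAntidiagonal.mem_antidiagonal.1 hp
      rcases Nat.lt_or_ge p.2 n with h4 | h4
      · exact h4
      · exfalso
        apply hne
        apply Prod.ext
        · show p.1 = 0
          omega
        · show p.2 = n
          omega
    have h4 : coeff n f = coeff n (φ.toEquiv f) + -(∑ p ∈
        (Finset.HasAntidiagonal.antidiagonal n).erase (0, n),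
        coeff p.1 (φ.toEquiv (C (coeff p.2 f)))) := by
      rw [h1]
      ring
    rw [h4]
    exact (hf n).add h3.neg

theorem pres_iff {φ : ArcAut K} : Pres L y φ ↔ ∀ x, Int L y x → IntS L y (φ.toEquiv (C x)) := by
  constructor
  · intro h x hx
    have h1 : φ.toEquiv (C x) ∈ φ.toEquiv '' {f | IntS L y f} := ⟨_, p3_C hx, rfl⟩
    rw [show φ.toEquiv '' {f | IntS L y f} = (1 : ArcAut K).toEquiv '' {f | IntS L y f} from h] at h1
    obtain ⟨f, hf, hf2⟩ := h1
    rw [← hf2]
    exact hf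
  · intro h
    show φ.toEquiv '' {f | IntS L y f} = (1 : ArcAut K).toEquiv '' {f | IntS L y f}
    ext g
    constructor
    · rintro ⟨f, hf, rfl⟩
      exact ⟨_, p3_map h hf, rfl⟩
    · rintro ⟨f, hf, rfl⟩
      refine ⟨φ.toEquiv.symm f, ?_, φ.toEquiv.apply_symm_apply f⟩
      apply p3_inv h
      rw [φ.toEquiv.apply_symm_apply f]
      exact hf

theorem pres_iff_all {φ : ArcAut K} :
    Pres L y φ ↔ ∀ f, IntS L y f → IntS L y (φ.toEquiv f) :=
  ⟨fun h _ hf => p3_map (pres_iff.1 h) hf, fun h => pres_iff.2 fun _ hx => h _ (p3_C hx)⟩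

theorem Pres.one : Pres L y (1 : ArcAut K) := rfl

theorem Pres.mul {φ ψ : ArcAut K} (h : Pres L y φ) (h' : Pres L y ψ) : Pres L y (φ * ψ) := by
  rw [pres_iff_all] at h h' ⊢
  intro f hf
  rw [ArcAut.mul_apply]
  exact h _ (h' _ hf)

theorem Pres.inv {φ : ArcAut K} (h : Pres L y φ) : Pres L y φ⁻¹ := by
  rw [pres_iff_all]
  intro f hf
  rw [ArcAut.inv_apply]
  apply p3_inv (pres_iff.1 h)
  rw [φ.toEquiv.apply_symm_apply f]
  exact hf

theorem sameAt_iff {φ ψ : ArcAut K} : SameAt L y φ ψ ↔ Pres L y (ψ⁻¹ * φ) := by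
  constructor
  · intro h
    rw [pres_iff_all]
    intro f hf
    have h1 : φ.toEquiv f ∈ φ.toEquiv '' {f | IntS L y f} := ⟨_, hf, rfl⟩
    rw [show φ.toEquiv '' {f | IntS L y f} = ψ.toEquiv '' {f | IntS L y f} from h] at h1
    obtain ⟨g, hg, hg2⟩ := h1
    rw [ArcAut.mul_apply, ← hg2, ArcAut.inv_apply, ψ.toEquiv.symm_apply_apply]
    exact hg
  · intro h
    show φ.toEquiv '' {f | IntS L y f} = ψ.toEquiv '' {f | IntS L y f}
    ext g
    constructor
    · rintro ⟨f, hf, rfl⟩
      refine ⟨_, (pres_iff_all.1 h) f hf, ?_⟩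
      rw [ArcAut.mul_apply, ArcAut.inv_apply, ψ.toEquiv.apply_symm_apply]
    · rintro ⟨f, hf, rfl⟩
      refine ⟨_, (pres_iff_all.1 h.inv) f hf, ?_⟩
      rw [mul_inv_rev, inv_inv, ArcAut.mul_apply, ArcAut.inv_apply, φ.toEquiv.apply_symm_apply]

theorem SameAt.mul_left {φ ψ : ArcAut K} (χ : ArcAut K) (h : SameAt L y φ ψ) :
    SameAt L y (χ * φ) (χ * ψ) := by
  rw [sameAt_iff] at h ⊢
  have h1 : (χ * ψ)⁻¹ * (χ * φ) = ψ⁻¹ * φ := by group
  rw [h1]
  exact h

theorem SameAt.mul_right {φ χ : ArcAut K} (h : Pres L y χ) : SameAt L y (φ * χ) φ := by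
  rw [sameAt_iff, inv_mul_cancel_left]
  exact h

theorem pres_exp {m : ℕ} (hm : 1 ≤ m) {D : Derivation ℂ K K} (h : Preserves L y D) :
    Pres L y (expA m D) := by
  rw [pres_iff]
  intro x hx n
  rw [expA_spec hm, expS, coeff_mk]
  split_ifs
  · refine (Int.const _).mul ?_
    have h1 : ∀ r : ℕ, Int L y (D^[r] x) := by
      intro r
      induction r with
      | zero => exact hx
      | succ r ih =>
        rw [Function.iterate_succ_apply']
        exact h _ ih
    exact h1 _
  · exact p3_zero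

theorem preserves_of_cong {m : ℕ} (hm : 1 ≤ m) {φ ψ : ArcAut K} {D : Derivation ℂ K K}
    (h : Cong (m + 1) φ (ψ * expA m D)) (hφ : Pres L y φ) (hψ : Pres L y ψ) : Preserves L y D := by
  intro x hx
  have h1 := h x m (Nat.lt_succ_self m)
  rw [coeff_mul_exp hm] at h1
  have h2 : D x = coeff m (φ.toEquiv (C x)) + -(coeff m (ψ.toEquiv (C x))) := by
    rw [h1]
    ring
  rw [h2]
  exact (pres_iff.1 hφ x hx m).add (pres_iff.1 hψ x hx m).neg

theorem pres_limit {ψ : ArcAut K} {φ : ℕ → ArcAut K} (h : ∀ m, Cong m ψ (φ m))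
    (hφ : ∀ m, Pres L y (φ m)) : Pres L y ψ := by
  rw [pres_iff]
  intro x hx n
  rw [h (n + 1) x n (Nat.lt_succ_self n)]
  exact pres_iff.1 (hφ (n + 1)) x hx n

end HKR
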