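import Pool.Agent.Lib.HKR.K8
import Pool.Agent.Lib.HKR.G3
import Pool.Agent.Lib.HKR.G4
import Pool.Agent.Lib.HKR.P3
/-!
HKR.G5 (local criterion for equivariant arcs).  φ : ArcAut K equivariant, restricting to η : ArcAut Fn.
eig_arc: a any exponent vector.  For σ ∈ G let σ z^a = c z^a (kum_aut, c ∈ ℂ).  From conjA σ φ = φ: mapE σ (φ (C x)) = φ (C (σ x)); x = z^a: mapE σ (φ (C z^a)) = C c * φ (C z^a).
So every coefficient of φ (C z^a) * C (z^a)⁻¹ is fixed by G, hence in Fn (kum_galois): φ (C z^a) = C z^a * liftP V, constant coefficient of V is 1.  n-th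
powers (zp_pow): liftP (η (C (pw L a))) = C (algebraMap (pw L a)) * liftP (V^n); liftP injective.
reg_arc_of_pres: f regular: C (algebraMap f) ∈ IntS, so liftP (η (C f)) = φ (C (algebraMap f)) ∈ IntS (pres_iff_all); regular_of_int coefficientwise.
logA_of_pres.  Take LocData + LocM at y (exists_locM).  For a ∈ AA: ζ := z^a * algebraMap (h a) is integral (eig_int, x = 1).  φ (C ζ) = C ζ * liftP W,
W := V * η (C (h a)) * C (h a)⁻¹, constant coefficient 1; φ (C ζ) ∈ IntS, so algebraMap (coeff m W) * ζ is integral, coeff m W regular (eig_int): RegS W.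
W^n = η (C g) * C g⁻¹, g = pw L a * h a^n = ep s^(al a) t^(be a) (LocData.pow).  So RegS (η (C g) * C g⁻¹), constant coefficient 1.
ep is a unit: η (C ep) RegS (reg_arc_of_pres), so η (C ep) * C ep⁻¹ is RegS with constant coefficient 1, inverse too (RegS.inv).  If bs: a from exs: g = ep s,
so η (C s) * C s⁻¹ is RegS (constant coefficient 1).  Same for t if bt.  A ratio of lines is ep s^p t^q with p ≠ 0 → bs, q ≠ 0 → bt: the quotient
η (C r) * C r⁻¹ is multiplicative in r, products and inverses of RegS series with constant coefficient 1 are such (zpow): LogA.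
-/
open MvPolynomial
namespace HKR
variable {k : ℕ} [NeZero k] {L : Fin k → Fin 3 → ℂ} {n : ℕ} {K : Type} [Field K] [Algebra Fn K]
  [Algebra ℂ K] [IsScalarTower ℂ Fn K] {z : Fin k → K} {y : Pt}

private theorem g5_coeff_lift (f : PowerSeries Fn) (m : ℕ) :
    PowerSeries.coeff m (liftP K f) = algebraMap Fn K (PowerSeries.coeff m f) := by
  rw [liftP, PowerSeries.coeff_map]

private theorem g5_lift_inj {f g : PowerSeries Fn} (h : liftP K f = liftP K g) : f = g := by
  ext m
  have h1 := congrArg (PowerSeries.coeff m) h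
  rw [g5_coeff_lift, g5_coeff_lift] at h1
  exact (algebraMap Fn K).injective h1

private theorem g5_lift_mul (f g : PowerSeries Fn) :
    liftP K (f * g) = liftP K f * liftP K g := by
  rw [liftP, liftP, liftP, map_mul]

private theorem g5_lift_pow (f : PowerSeries Fn) (m : ℕ) :
    liftP K (f ^ m) = liftP K f ^ m := by
  rw [liftP, liftP, map_pow]

private theorem g5_lift_C (f : Fn) :
    liftP K (PowerSeries.C f) = PowerSeries.C (algebraMap Fn K f) := by
  rw [liftP, PowerSeries.map_C]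

private theorem g5_equiv {φ : ArcAut K} (hφ : ∀ σ : K ≃ₐ[Fn] K, conjA σ φ = φ) (σ : K ≃ₐ[Fn] K)
    (x : K) : mapE (σ : K ≃+* K) (φ.toEquiv (PowerSeries.C x)) =
      φ.toEquiv (PowerSeries.C (σ x)) := by
  have h1 : (conjA σ φ).toEquiv (PowerSeries.C (σ x)) = φ.toEquiv (PowerSeries.C (σ x)) := by
    rw [hφ σ]
  rw [conjA_apply] at h1
  have h2 : mapE (σ : K ≃+* K).symm (PowerSeries.C (σ x)) = PowerSeries.C x := by
    rw [mapE_C]
    congr 1
    exact (σ : K ≃+* K).symm_apply_apply x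
  rw [h2] at h1
  exact h1

theorem eig_arc (hC : Config L) (hn : 0 < n) (hz : Kum L n K z) {φ : ArcAut K} {η : ArcAut Fn}
    (hφ : ∀ σ : K ≃ₐ[Fn] K, conjA σ φ = φ)
    (hη : ∀ f, φ.toEquiv (liftP K f) = liftP K (η.toEquiv f)) (a : Fin k → ℕ) :
    ∃ V : PowerSeries Fn, PowerSeries.constantCoeff V = 1 ∧
      φ.toEquiv (PowerSeries.C (zp z a)) = PowerSeries.C (zp z a) * liftP K V ∧
      η.toEquiv (PowerSeries.C (pw L a)) = PowerSeries.C (pw L a) * V ^ n := by
  have := kum_fin hC hn hz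
  have := kum_galois hC hn hz
  have hz0 : zp z a ≠ 0 := kum_ne hC hn hz a
  have hfix : ∀ m, ∃ v : Fn, algebraMap Fn K v =
      PowerSeries.coeff m (φ.toEquiv (PowerSeries.C (zp z a))) * (zp z a)⁻¹ := by
    intro m
    have h0 : ∀ σ : K ≃ₐ[Fn] K, σ (PowerSeries.coeff m (φ.toEquiv (PowerSeries.C (zp z a))) *
        (zp z a)⁻¹) = PowerSeries.coeff m (φ.toEquiv (PowerSeries.C (zp z a))) *
        (zp z a)⁻¹ := by
      intro σ
      obtain ⟨χ, hχ, hσ⟩ := kum_aut hC hn hz σ
      have h1 := g5_equiv hφ σ (zp z a)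
      rw [hσ a, map_mul PowerSeries.C, map_mul φ.toEquiv, φ.map_C] at h1
      have h2 := congrArg (PowerSeries.coeff m) h1
      rw [coeff_mapE, PowerSeries.coeff_C_mul] at h2
      have h3 : σ (PowerSeries.coeff m (φ.toEquiv (PowerSeries.C (zp z a)))) =
          algebraMap ℂ K (∏ i, χ i ^ a i) *
            PowerSeries.coeff m (φ.toEquiv (PowerSeries.C (zp z a))) := h2
      have hc0 : algebraMap ℂ K (∏ i, χ i ^ a i) ≠ 0 := by
        intro h
        have h4 := hσ a
        rw [h, zero_mul] at h4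
        exact hz0 ((map_eq_zero σ).1 h4)
      rw [map_mul, h3, map_inv₀, hσ a, mul_inv]
      field_simp
    have h5 := (IsGalois.mem_range_algebraMap_iff_fixed (F := Fn) (E := K) _).2 h0
    exact h5
  choose v hv using hfix
  have hP : PowerSeries.C (zp z a) * liftP K (PowerSeries.mk v) =
      φ.toEquiv (PowerSeries.C (zp z a)) := by
    ext m
    rw [PowerSeries.coeff_C_mul, g5_coeff_lift, PowerSeries.coeff_mk, hv m]
    field_simp
  refine ⟨PowerSeries.mk v, ?_, hP.symm, ?_⟩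
  · have h1 := hv 0
    rw [PowerSeries.coeff_zero_eq_constantCoeff_apply, φ.map_zero, PowerSeries.constantCoeff_C,
      mul_inv_cancel₀ hz0] at h1
    rw [← PowerSeries.coeff_zero_eq_constantCoeff_apply, PowerSeries.coeff_mk]
    exact (algebraMap Fn K).injective (by rw [h1, map_one])
  · apply g5_lift_inj (K := K)
    rw [← hη, g5_lift_C, ← zp_pow hC hn hz a, map_pow PowerSeries.C, map_pow φ.toEquiv, ← hP,
      g5_lift_mul, g5_lift_pow, g5_lift_C, mul_pow, ← map_pow PowerSeries.C, zp_pow hC hn hz a]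

theorem reg_arc_of_pres (hC : Config L) (hn : 2 ≤ n) (hz : Kum L n K z) {φ : ArcAut K}
    {η : ArcAut Fn} (hη : ∀ f, φ.toEquiv (liftP K f) = liftP K (η.toEquiv f))
    (hP : Pres L y φ) {f : Fn} (hf : Regular L y f) : RegS L y (η.toEquiv (PowerSeries.C f)) := by
  obtain ⟨s, t, a, b, bs, bt, al, be, h, hd, -⟩ := exists_locM hC hn y
  intro m
  have h1 := pres_iff.1 hP (algebraMap Fn K f) (Int.of_regular hf) m
  rw [← g5_lift_C, hη, g5_coeff_lift] at h1
  exact regular_of_int hd h1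

private theorem g5_one (η : ArcAut Fn) {r : Fn} (hr : r ≠ 0) :
    PowerSeries.constantCoeff (η.toEquiv (PowerSeries.C r) * PowerSeries.C r⁻¹) = 1 := by
  rw [map_mul, η.map_zero, PowerSeries.constantCoeff_C, PowerSeries.constantCoeff_C,
    mul_inv_cancel₀ hr]

omit [NeZero k] in
private theorem g5_val1 : Val L y (1 : Fn) 1 := by
  rw [← map_one (algebraMap ℂ Fn)]; exact Val.const 1

omit [NeZero k] in
private theorem g5_Qone (η : ArcAut Fn) :
    RegS L y (η.toEquiv (PowerSeries.C (1 : Fn)) * PowerSeries.C (1 : Fn)⁻¹) := by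
  rw [inv_one, map_one PowerSeries.C, map_one η.toEquiv, one_mul]
  exact RegS.one

omit [NeZero k] in
private theorem g5_Qmul {η : ArcAut Fn} {r r' : Fn}
    (h : RegS L y (η.toEquiv (PowerSeries.C r) * PowerSeries.C r⁻¹))
    (h' : RegS L y (η.toEquiv (PowerSeries.C r') * PowerSeries.C r'⁻¹)) :
    RegS L y (η.toEquiv (PowerSeries.C (r * r')) * PowerSeries.C (r * r')⁻¹) := by
  have h1 := h.mul h'
  have h2 : η.toEquiv (PowerSeries.C (r * r')) * PowerSeries.C (r * r')⁻¹ =
      η.toEquiv (PowerSeries.C r) * PowerSeries.C r⁻¹ *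
        (η.toEquiv (PowerSeries.C r') * PowerSeries.C r'⁻¹) := by
    rw [mul_inv, map_mul PowerSeries.C, map_mul PowerSeries.C, map_mul η.toEquiv]
    ring
  rw [h2]
  exact h1

omit [NeZero k] in
private theorem g5_Qinv {η : ArcAut Fn} {r : Fn} (hr : r ≠ 0)
    (h : RegS L y (η.toEquiv (PowerSeries.C r) * PowerSeries.C r⁻¹)) :
    RegS L y (η.toEquiv (PowerSeries.C r⁻¹) * PowerSeries.C (r⁻¹)⁻¹) := by
  refine regS_inv (c := 1) h ?_ one_ne_zero ?_
  · have h1 : η.toEquiv (PowerSeries.C r) * PowerSeries.C r⁻¹ *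
        (η.toEquiv (PowerSeries.C r⁻¹) * PowerSeries.C (r⁻¹)⁻¹) =
        η.toEquiv (PowerSeries.C r * PowerSeries.C r⁻¹) *
          (PowerSeries.C r⁻¹ * PowerSeries.C (r⁻¹)⁻¹) := by
      rw [map_mul η.toEquiv]; ring
    rw [h1, ← map_mul PowerSeries.C, ← map_mul PowerSeries.C, mul_inv_cancel₀ hr,
      mul_inv_cancel₀ (inv_ne_zero hr), map_one PowerSeries.C, map_one η.toEquiv, one_mul]
  · rw [g5_one η hr]
    exact g5_val1

omit [NeZero k] in
private theorem g5_Qpow {η : ArcAut Fn} {r : Fn}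
    (h : RegS L y (η.toEquiv (PowerSeries.C r) * PowerSeries.C r⁻¹)) (j : ℕ) :
    RegS L y (η.toEquiv (PowerSeries.C (r ^ j)) * PowerSeries.C (r ^ j)⁻¹) := by
  induction j with
  | zero => rw [pow_zero]; exact g5_Qone η
  | succ j ih => rw [pow_succ]; exact g5_Qmul ih h

omit [NeZero k] in
private theorem g5_Qzpow {η : ArcAut Fn} {r : Fn} (hr : r ≠ 0)
    (h : RegS L y (η.toEquiv (PowerSeries.C r) * PowerSeries.C r⁻¹)) (p : ℤ) :
    RegS L y (η.toEquiv (PowerSeries.C (r ^ p)) * PowerSeries.C (r ^ p)⁻¹) := by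
  obtain ⟨j, rfl | rfl⟩ := p.eq_nat_or_neg
  · rw [zpow_natCast]; exact g5_Qpow h j
  · rw [zpow_neg, zpow_natCast]; exact g5_Qinv (pow_ne_zero _ hr) (g5_Qpow h j)

theorem logA_of_pres (hC : Config L) (hn : 2 ≤ n) (hz : Kum L n K z) {φ : ArcAut K}
    {η : ArcAut Fn} (hφ : ∀ σ : K ≃ₐ[Fn] K, conjA σ φ = φ)
    (hη : ∀ f, φ.toEquiv (liftP K f) = liftP K (η.toEquiv f)) (hP : Pres L y φ) :
    LogA L y η := by
  have hn' : 0 < n := by omega
  obtain ⟨s, t, a, b, bs, bt, al, be, h, hd, ⟨i0, j0, hs⟩, ⟨i1, j1, ht⟩, hM⟩ :=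
    exists_locM hC hn y
  have hz0 : ∀ c, zp z c ≠ 0 := kum_ne hC hn' hz
  have hpw : ∀ c, pw L c ≠ 0 := by
    intro c h0
    have h1 := zp_pow hC hn' hz c
    rw [h0, map_zero] at h1
    exact hz0 c (pow_eq_zero_iff hn'.ne' |>.1 h1)
  have hQep : ∀ {ep : Fn} {e : ℂ}, Val L y ep e → e ≠ 0 →
      RegS L y (η.toEquiv (PowerSeries.C ep) * PowerSeries.C ep⁻¹) := by
    intro ep e he he0
    exact (reg_arc_of_pres hC hn hz hη hP (regular_iff_val.2 ⟨_, he⟩)).mul
      (RegS.C (regular_iff_val.2 ⟨_, he.inv he0⟩))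
  have hQg : ∀ c ∈ AA k n, RegS L y (η.toEquiv (PowerSeries.C (pw L c * h c ^ n)) *
      PowerSeries.C (pw L c * h c ^ n)⁻¹) := by
    intro c hc
    obtain ⟨V, hV1, hV2, hV3⟩ := eig_arc hC hn' hz hφ hη c
    have hh := hd.hne c
    set W : PowerSeries Fn := V * (η.toEquiv (PowerSeries.C (h c)) * PowerSeries.C (h c)⁻¹) with hW
    have hWreg : RegS L y W := by
      intro m
      rw [← eig_int hC hn' hz hd hc (K := K) (z := z)]
      have h1 : Int L y (zp z c * algebraMap Fn K (h c)) := by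
        have h2 := (eig_int (x := 1) hC hn' hz hd hc).2
          (by simpa using Regular.const (L := L) (y := y) (1 : ℂ))
        rwa [map_one, one_mul] at h2
      have h2 := pres_iff.1 hP _ h1 m
      have h3 : φ.toEquiv (PowerSeries.C (zp z c * algebraMap Fn K (h c))) =
          PowerSeries.C (zp z c * algebraMap Fn K (h c)) * liftP K W := by
        rw [map_mul PowerSeries.C, map_mul φ.toEquiv, hV2, ← g5_lift_C, hη, hW, g5_lift_mul,
          g5_lift_mul]
        have h4 : liftP K (PowerSeries.C (h c)) * liftP K (PowerSeries.C (h c)⁻¹) = 1 := by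
          rw [← g5_lift_mul, ← map_mul PowerSeries.C, mul_inv_cancel₀ hh, map_one, liftP, map_one]
        calc PowerSeries.C (zp z c) * liftP K V * liftP K (η.toEquiv (PowerSeries.C (h c)))
            = PowerSeries.C (zp z c) * liftP K V * liftP K (η.toEquiv (PowerSeries.C (h c))) *
                (liftP K (PowerSeries.C (h c)) * liftP K (PowerSeries.C (h c)⁻¹)) := by
              rw [h4, mul_one]
          _ = _ := by ring
      rw [h3, PowerSeries.coeff_C_mul, g5_coeff_lift, mul_comm] at h2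
      exact h2
    have hWn : W ^ n = η.toEquiv (PowerSeries.C (pw L c * h c ^ n)) *
        PowerSeries.C (pw L c * h c ^ n)⁻¹ := by
      have h5 : V ^ n = η.toEquiv (PowerSeries.C (pw L c)) * PowerSeries.C (pw L c)⁻¹ := by
        rw [hV3]
        have h6 : PowerSeries.C (pw L c) * PowerSeries.C (pw L c)⁻¹ = (1 : PowerSeries Fn) := by
          rw [← map_mul PowerSeries.C, mul_inv_cancel₀ (hpw c), map_one]
        calc V ^ n = (PowerSeries.C (pw L c) * PowerSeries.C (pw L c)⁻¹) * V ^ n := by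
              rw [h6, one_mul]
          _ = _ := by ring
      rw [hW, mul_pow, mul_pow, h5, mul_inv, map_mul PowerSeries.C, map_mul PowerSeries.C,
        map_mul η.toEquiv, ← map_pow η.toEquiv, ← map_pow PowerSeries.C, ← map_pow PowerSeries.C,
        inv_pow]
      ring
    rw [← hWn]
    exact hWreg.pow n
  have hs0 : s ≠ 0 := by
    intro h0
    have h1 : psi s t (X 0) = 0 := by
      rw [psi, MvPolynomial.aeval_X]; simpa using h0
    exact MvPolynomial.X_ne_zero (R := ℂ) (0 : Fin 2) (hd.coord.inj _ h1)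
  have ht0 : t ≠ 0 := by
    intro h0
    have h1 : psi s t (X 1) = 0 := by
      rw [psi, MvPolynomial.aeval_X]; simpa using h0
    exact MvPolynomial.X_ne_zero (R := ℂ) (1 : Fin 2) (hd.coord.inj _ h1)
  have hQs : bs → RegS L y (η.toEquiv (PowerSeries.C s) * PowerSeries.C s⁻¹) := by
    intro hb
    obtain ⟨c, hc, h1, h2⟩ := hd.exs hb
    obtain ⟨ep, e, he, he0, hg⟩ := hd.pow c hc
    have hep := he.ne_zero he0
    have h3 := g5_Qmul (hQg c hc) (g5_Qinv hep (hQep he he0))
    have h4 : pw L c * h c ^ n * ep⁻¹ = s := by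
      rw [hg, h1, h2, pow_one, pow_zero, mul_one]
      field_simp
    rwa [h4] at h3
  have hQt : bt → RegS L y (η.toEquiv (PowerSeries.C t) * PowerSeries.C t⁻¹) := by
    intro hb
    obtain ⟨c, hc, h1, h2⟩ := hd.ext hb
    obtain ⟨ep, e, he, he0, hg⟩ := hd.pow c hc
    have hep := he.ne_zero he0
    have h3 := g5_Qmul (hQg c hc) (g5_Qinv hep (hQep he he0))
    have h4 : pw L c * h c ^ n * ep⁻¹ = t := by
      rw [hg, h1, h2, pow_one, pow_zero, mul_one]
      field_simp
    rwa [h4] at h3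
  intro i j
  obtain ⟨ep, e, p, q, he, he0, hr, hp, hq⟩ := hM i j
  have h1 : RegS L y (η.toEquiv (PowerSeries.C (s ^ p)) * PowerSeries.C (s ^ p)⁻¹) := by
    by_cases h0 : p = 0
    · rw [h0, zpow_zero]; exact g5_Qone η
    · exact g5_Qzpow hs0 (hQs (hp h0)) p
  have h2 : RegS L y (η.toEquiv (PowerSeries.C (t ^ q)) * PowerSeries.C (t ^ q)⁻¹) := by
    by_cases h0 : q = 0
    · rw [h0, zpow_zero]; exact g5_Qone η
    · exact g5_Qzpow ht0 (hQt (hq h0)) q
  have h3 := g5_Qmul (g5_Qmul (hQep he he0) h1) h2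
  rw [← hr, inv_div] at h3
  exact h3

end HKR
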