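import Pool.Agent.Lib.HKR.K9
import Pool.Agent.Lib.HKR.B2
/-!
HKR.K10 (FCond in local terms).  At y fix forms lam, sig, lam(q) ≠ 0, sig(q) = 0, sig(w) ≠ 0.  dh L n c lam sig y := fl lam^(d - μ) fl sig^μ with
d = Σ c / n, μ = (Σ_{S} c)/n if q is multiple (S = SS L y.q), 0 otherwise.
gg i := fl (L i)/fl sig if q is multiple and on the line i, fl (L i)/fl lam otherwise; uu := fl sig/fl lam.
(1) fcond_iff: FCond L n c y D ↔ for all i ≠ j: Regular (cij L (dh • D) i j * gg i^(bl i) * gg j^(bl j) * uu^(e i j)), e i j = bS n c S if q is multiple and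
    not both i, j are in S, else 0.
    PROOF: sect_iff with lam, sig; muq of the function in FCond is μ - [i∈S] bl i - [j∈S] bl j + e i j (multiple), 0 (not multiple);
    cij is linear in D; collect powers of fl lam and fl sig (zpow, field_simp after splitting cases bl = 0, 1).
(2) cij_gg: cij L D i j = D (gg i)/gg i - D (gg j)/gg j + ([i∈S] - [j∈S]) D uu/uu, from fl (L i)/fl (L j) = gg i/gg j * uu^([i∈S]-[j∈S]).
(3) pw_gg: pw L c * hh c^n = ∏_m gg m^(c m) * uu^((Σ_S c) % n) (multiple), = ∏_m gg m^(c m) (not multiple), for c ∈ AA, where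
    hh c := fl (L 0)^d * fl lam^(-(d-μ)) * fl sig^(-μ).  (Σ c = n d, Σ_S c = n μ + (Σ_S c) % n.)
-/
open MvPolynomial
namespace HKR
variable {k : ℕ} {L : Fin k → Fin 3 → ℂ}

/-- `q` is a multiple point on the line `i` -/
def inS (L : Fin k → Fin 3 → ℂ) (y : Pt) (i : Fin k) : Prop := Multiple L y.q ∧ L i ⬝ᵥ y.q = 0

open Classical in
noncomputable def gg (L : Fin k → Fin 3 → ℂ) (y : Pt) (lam sig : Fin 3 → ℂ) (i : Fin k) : Fn :=
  if inS L y i then fl (L i) / fl sig else fl (L i) / fl lam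

noncomputable def dd (n : ℕ) (c : Fin k → ℕ) : ℤ := (((∑ l, c l) / n : ℕ) : ℤ)

open Classical in
noncomputable def mm (L : Fin k → Fin 3 → ℂ) (n : ℕ) (c : Fin k → ℕ) (y : Pt) : ℤ :=
  if Multiple L y.q then (((∑ l ∈ SS L y.q, c l) / n : ℕ) : ℤ) else 0

open Classical in
/-- the exponent of `uu` in the condition for the pair `i`, `j` -/
noncomputable def ee (L : Fin k → Fin 3 → ℂ) (n : ℕ) (c : Fin k → ℕ) (y : Pt) (i j : Fin k) : ℕ :=
  if Multiple L y.q ∧ ¬ (L i ⬝ᵥ y.q = 0 ∧ L j ⬝ᵥ y.q = 0) then bS n c (SS L y.q) else 0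

private lemma k10_L (hC : Config L) (i : Fin k) : L i ≠ 0 := by
  intro h
  have h1 : ∀ j, j = i := by
    intro j
    by_contra hj
    have := (hC.ind i j (Ne.symm hj)).ne_zero 0
    exact this h
  have h2 := hC.nonconc (Pi.single 0 1) (fun j => by rw [h1 j, h, zero_dotProduct])
  have h3 := congrFun h2 0
  simp at h3

private lemma k10_f (hC : Config L) (i : Fin k) : fl (L i) ≠ 0 := fl_ne_zero (k10_L hC i)

private lemma k10_form {l v : Fin 3 → ℂ} (h : l ⬝ᵥ v ≠ 0) : fl l ≠ 0 := by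
  apply fl_ne_zero
  rintro rfl
  exact h (zero_dotProduct v)

private lemma k10_smul (g : Fn) (D : Derivation ℂ Fn Fn) (i j : Fin k) :
    cij L (g • D) i j = g * cij L D i j := by
  unfold cij
  rw [Derivation.smul_apply, smul_eq_mul, mul_div_assoc]

private lemma k10_pow {f x : Fn} (b : ℕ) : (f / x) ^ b = f ^ b * x ^ (-(b : ℤ)) := by
  rw [div_pow, zpow_neg, zpow_natCast, div_eq_mul_inv]

open Classical in
theorem fcond_iff {y : Pt} {n : ℕ} (c : Fin k → ℕ) {lam sig : Fin 3 → ℂ} (hC : Config L)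
    (h1 : lam ⬝ᵥ y.q ≠ 0) (h2 : sig ⬝ᵥ y.q = 0) (h3 : sig ⬝ᵥ y.w ≠ 0)
    (D : Derivation ℂ Fn Fn) :
    FCond L n c y D ↔ ∀ i j, i ≠ j →
      Regular L y (cij L ((fl lam ^ (dd n c - mm L n c y) * fl sig ^ (mm L n c y)) • D) i j *
        gg L y lam sig i ^ (bl n c i) * gg L y lam sig j ^ (bl n c j) *
        (fl sig / fl lam) ^ (ee L n c y i j)) := by
  have ha : fl lam ≠ 0 := k10_form h1
  have hs : fl sig ≠ 0 := k10_form h3
  unfold FCond
  refine forall_congr' fun i => forall_congr' fun j => ?_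
  refine imp_congr_right fun hij => ?_
  rw [sect_iff h1 h2 h3]
  have key : ∀ i, ∃ α σ : ℤ, gg L y lam sig i ^ (bl n c i) =
      fl (L i) ^ (bl n c i) * (fl lam ^ α * fl sig ^ σ) ∧ α + σ = -(bl n c i : ℤ) ∧
      σ = if inS L y i then -(bl n c i : ℤ) else 0 := by
    intro i
    unfold gg
    by_cases hi : inS L y i
    · refine ⟨0, -(bl n c i : ℤ), ?_, by ring, by rw [if_pos hi]⟩
      rw [if_pos hi, k10_pow, zpow_zero, one_mul]
    · refine ⟨-(bl n c i : ℤ), 0, ?_, by ring, by rw [if_neg hi]⟩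
      rw [if_neg hi, k10_pow, zpow_zero, mul_one]
  obtain ⟨αi, σi, gi, si, si'⟩ := key i
  obtain ⟨αj, σj, gj, sj, sj'⟩ := key j
  have hmu : muq L (fun S => (((∑ l ∈ S, c l) / n : ℕ) : ℤ) -
      (if i ∈ S then (bl n c i : ℤ) else 0) - (if j ∈ S then (bl n c j : ℤ) else 0)
        + (if i ∈ S ∧ j ∈ S then 0 else (bS n c S : ℤ))) y =
      mm L n c y + σi + σj + (ee L n c y i j : ℤ) := by
    unfold muq mm ee
    rw [si', sj']
    by_cases hm : Multiple L y.q
    · have hS : ∀ l, l ∈ SS L y.q ↔ L l ⬝ᵥ y.q = 0 := by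
        intro l
        unfold SS
        simp
      have hI : ∀ l, inS L y l ↔ L l ⬝ᵥ y.q = 0 := fun l => ⟨fun h => h.2, fun h => ⟨hm, h⟩⟩
      simp only [if_pos hm, hS, hI, hm, true_and]
      by_cases hi : L i ⬝ᵥ y.q = 0 <;> by_cases hj : L j ⬝ᵥ y.q = 0 <;>
        simp [hi, hj] <;> ring
    · have hI : ∀ l, ¬ inS L y l := fun l h => hm h.1
      simp [hm, hI]
  rw [hmu, k10_smul, gi, gj, k10_pow]
  have hE1 : ((((∑ l, c l) / n : ℕ) : ℤ) - bl n c i - bl n c j) -
      (mm L n c y + σi + σj + (ee L n c y i j : ℤ)) =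
      (dd n c - mm L n c y) + αi + αj + (-(ee L n c y i j : ℤ)) := by
    unfold dd
    linarith
  rw [hE1, zpow_add₀ ha, zpow_add₀ ha, zpow_add₀ ha, zpow_add₀ hs, zpow_add₀ hs, zpow_add₀ hs,
    zpow_natCast (fl sig) (ee L n c y i j)]
  have hE2 : cij L D i j * fl (L i) ^ bl n c i * fl (L j) ^ bl n c j *
      (fl lam ^ (dd n c - mm L n c y) * fl lam ^ αi * fl lam ^ αj *
        fl lam ^ (-(ee L n c y i j : ℤ))) *
      (fl sig ^ mm L n c y * fl sig ^ σi * fl sig ^ σj * fl sig ^ ee L n c y i j) =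
      fl lam ^ (dd n c - mm L n c y) * fl sig ^ mm L n c y * cij L D i j *
        (fl (L i) ^ bl n c i * (fl lam ^ αi * fl sig ^ σi)) *
        (fl (L j) ^ bl n c j * (fl lam ^ αj * fl sig ^ σj)) *
        (fl sig ^ ee L n c y i j * fl lam ^ (-(ee L n c y i j : ℤ))) := by
    ring
  rw [hE2]

private lemma k10_dl (D : Derivation ℂ Fn Fn) {x z : Fn} (hx : x ≠ 0) (hz : z ≠ 0) :
    D (x / z) / (x / z) = D x / x - D z / z := by
  have h1 : x = x / z * z := by field_simp
  have h2 : D x = x / z * D z + z * D (x / z) := by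
    conv_lhs => rw [h1]
    rw [D.leibniz, smul_eq_mul, smul_eq_mul]
  rw [h2]
  field_simp
  ring

open Classical in
theorem cij_gg {y : Pt} {lam sig : Fin 3 → ℂ} (hC : Config L)
    (h1 : lam ⬝ᵥ y.q ≠ 0) (h3 : sig ⬝ᵥ y.w ≠ 0)
    (D : Derivation ℂ Fn Fn) (i j : Fin k) :
    cij L D i j = D (gg L y lam sig i) / gg L y lam sig i - D (gg L y lam sig j) / gg L y lam sig j +
      ((if inS L y i then 1 else 0) - (if inS L y j then 1 else 0)) *
        (D (fl sig / fl lam) / (fl sig / fl lam)) := by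
  have ha : fl lam ≠ 0 := k10_form h1
  have hs : fl sig ≠ 0 := k10_form h3
  have key : ∀ i, D (gg L y lam sig i) / gg L y lam sig i =
      D (fl (L i)) / fl (L i) - D (fl lam) / fl lam -
        (if inS L y i then 1 else 0) * (D (fl sig / fl lam) / (fl sig / fl lam)) := by
    intro i
    unfold gg
    by_cases hi : inS L y i
    · rw [if_pos hi, if_pos hi, k10_dl D (k10_f hC i) hs, k10_dl D hs ha]
      ring
    · rw [if_neg hi, if_neg hi, k10_dl D (k10_f hC i) ha]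
      ring
  unfold cij
  rw [k10_dl D (k10_f hC i) (k10_f hC j), key i, key j]
  ring

open Classical in
theorem pw_gg [NeZero k] {y : Pt} {n : ℕ} (hn : 0 < n) {c : Fin k → ℕ} (hc : c ∈ AA k n)
    {lam sig : Fin 3 → ℂ} (hC : Config L) (h1 : lam ⬝ᵥ y.q ≠ 0) (h3 : sig ⬝ᵥ y.w ≠ 0) :
    pw L c * (fl (L 0) ^ (dd n c) * fl lam ^ (-(dd n c - mm L n c y)) *
        fl sig ^ (-(mm L n c y))) ^ n =
      (∏ m, gg L y lam sig m ^ c m) *
        (fl sig / fl lam) ^ (if Multiple L y.q then (∑ l ∈ SS L y.q, c l) % n else 0) := by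
  have ha : fl lam ≠ 0 := k10_form h1
  have hs : fl sig ≠ 0 := k10_form h3
  have h0 : fl (L 0) ≠ 0 := k10_f hC 0
  have hdiv : n ∣ ∑ i, c i := by
    unfold AA at hc
    exact (Finset.mem_filter.1 hc).2
  obtain ⟨e, he⟩ := hdiv
  have hdd : dd n c = (e : ℤ) := by
    unfold dd
    rw [he, Nat.mul_div_cancel_left _ hn]
  have hpw : pw L c * fl (L 0) ^ (n * e) = ∏ m, fl (L m) ^ c m := by
    unfold pw
    simp only [div_pow]
    rw [Finset.prod_div_distrib, Finset.prod_pow_eq_pow_sum, he,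
      div_mul_cancel₀ _ (pow_ne_zero _ h0)]
  have hgg : ∏ m, gg L y lam sig m ^ c m = (∏ m, fl (L m) ^ c m) *
      (∏ m, (if inS L y m then fl sig else fl lam) ^ c m)⁻¹ := by
    rw [← div_eq_mul_inv, ← Finset.prod_div_distrib]
    refine Finset.prod_congr rfl fun m _ => ?_
    rw [← div_pow]
    unfold gg
    by_cases hm : inS L y m
    · rw [if_pos hm, if_pos hm]
    · rw [if_neg hm, if_neg hm]
  have hL : pw L c * (fl (L 0) ^ (dd n c) * fl lam ^ (-(dd n c - mm L n c y)) *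
        fl sig ^ (-(mm L n c y))) ^ n = (∏ m, fl (L m) ^ c m) *
        (fl lam ^ (-((n : ℤ) * (e - mm L n c y))) * fl sig ^ (-((n : ℤ) * mm L n c y))) := by
    rw [← hpw, hdd, mul_pow, mul_pow, zpow_natCast, ← pow_mul, ← zpow_natCast (fl lam ^ _) n,
      ← zpow_natCast (fl sig ^ _) n, ← zpow_mul, ← zpow_mul, mul_comm e n]
    have e1 : -((e : ℤ) - mm L n c y) * (n : ℤ) = -((n : ℤ) * (e - mm L n c y)) := by ring
    have e2 : -(mm L n c y) * (n : ℤ) = -((n : ℤ) * mm L n c y) := by ring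
    rw [e1, e2]
    ring
  rw [hL, hgg, mul_assoc]
  congr 1
  by_cases hm : Multiple L y.q
  · have hI : ∀ l, inS L y l ↔ l ∈ SS L y.q := by
      intro l
      unfold SS inS
      simp [hm]
    have hprod : ∏ m, (if inS L y m then fl sig else fl lam) ^ c m =
        fl sig ^ (∑ l ∈ SS L y.q, c l) * fl lam ^ (∑ l ∈ (SS L y.q)ᶜ, c l) := by
      rw [← Finset.prod_mul_prod_compl (SS L y.q), ← Finset.prod_pow_eq_pow_sum,
        ← Finset.prod_pow_eq_pow_sum]
      congr 1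
      · refine Finset.prod_congr rfl fun m hm' => ?_
        rw [if_pos ((hI m).2 hm')]
      · refine Finset.prod_congr rfl fun m hm' => ?_
        rw [if_neg (fun h => (Finset.mem_compl.1 hm') ((hI m).1 h))]
    have hsum : ∑ l ∈ SS L y.q, c l + ∑ l ∈ (SS L y.q)ᶜ, c l = n * e := by
      rw [Finset.sum_add_sum_compl, he]
    set A := ∑ l ∈ SS L y.q, c l with hA
    set B := ∑ l ∈ (SS L y.q)ᶜ, c l with hB
    have hmm : mm L n c y = ((A / n : ℕ) : ℤ) := by
      unfold mm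
      rw [if_pos hm]
    have hA' : (A : ℤ) = n * ((A / n : ℕ) : ℤ) + ((A % n : ℕ) : ℤ) := by
      exact_mod_cast (Nat.div_add_mod A n).symm
    have hB' : (A : ℤ) + B = n * e := by exact_mod_cast hsum
    rw [hprod, if_pos hm, hmm, mul_inv, div_pow, ← zpow_natCast (fl sig) A,
      ← zpow_natCast (fl lam) B, ← zpow_natCast (fl sig) (A % n),
      ← zpow_natCast (fl lam) (A % n), ← zpow_neg, ← zpow_neg, div_eq_mul_inv, ← zpow_neg]
    have e1 : -((n : ℤ) * (e - ((A / n : ℕ) : ℤ))) = -(B : ℤ) + -((A % n : ℕ) : ℤ) := by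
      rw [mul_sub, ← hB']
      linarith
    have e2 : -((n : ℤ) * ((A / n : ℕ) : ℤ)) = -(A : ℤ) + ((A % n : ℕ) : ℤ) := by
      linarith
    rw [e1, e2, zpow_add₀ ha, zpow_add₀ hs]
    ring
  · have hI : ∀ l, ¬ inS L y l := fun l h => hm h.1
    have hmm : mm L n c y = 0 := by
      unfold mm
      rw [if_neg hm]
    have hprod : ∏ m, (if inS L y m then fl sig else fl lam) ^ c m = fl lam ^ (n * e) := by
      rw [← he, ← Finset.prod_pow_eq_pow_sum]
      refine Finset.prod_congr rfl fun m _ => ?_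
      rw [if_neg (hI m)]
    rw [hprod, if_neg hm, hmm, pow_zero, mul_one, mul_zero, neg_zero, zpow_zero, mul_one,
      sub_zero, zpow_neg]
    congr 1

end HKR
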