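import Pool.Agent.Lib.HKR.KDefs
/-!
HKR.K14 (nonvacuity: the field K exists).
PROOF.  Ω := AlgebraicClosure Fn, z' i a root of X^n - C (fl (L i)/fl (L 0)) (IsAlgClosed.exists_pow_nat_eq), K := IntermediateField.adjoin Fn (Set.range z'),
z i := ⟨z' i, subset_adjoin⟩.  gen: adjoin of the z i inside K is ⊤ (`IntermediateField.adjoin_univ`-style: e.g. `IntermediateField.lift`, or
show every element of K is in it by `IntermediateField.adjoin_induction`).  Algebra ℂ K := restriction (Algebra.compHom or the instance).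
fl (L 0) ≠ 0 by Config (needs another line: nonconc excludes k = 1).
-/
open MvPolynomial
namespace HKR

private theorem k14_ne {k : ℕ} [NeZero k] {L : Fin k → Fin 3 → ℂ} (hC : Config L) : L 0 ≠ 0 := by
  intro h0
  by_cases hj : ∃ j : Fin k, j ≠ 0
  · obtain ⟨j, hj⟩ := hj
    have h := (hC.ind 0 j (Ne.symm hj)).ne_zero 0
    apply h
    simpa using h0
  · push Not at hj
    have h := hC.nonconc (fun _ => 1) (fun i => by
      rw [hj i, h0]
      exact zero_dotProduct _)
    exact one_ne_zero (congrFun h 0)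

theorem exists_kum {k : ℕ} [NeZero k] {L : Fin k → Fin 3 → ℂ} (hC : Config L) {n : ℕ}
    (hn : 0 < n) :
    ∃ (K : Type) (_ : Field K) (_ : Algebra Fn K) (_ : Algebra ℂ K) (_ : IsScalarTower ℂ Fn K)
      (z : Fin k → K), Kum L n K z := by
  have hne : fl (L 0) ≠ 0 := fl_ne_zero (k14_ne hC)
  have hz : ∀ i, ∃ x : AlgebraicClosure Fn,
      x ^ n = algebraMap Fn (AlgebraicClosure Fn) (fl (L i) / fl (L 0)) := fun i =>
    IsAlgClosed.exists_pow_nat_eq _ hn
  choose z' hz' using hz
  refine ⟨IntermediateField.adjoin Fn (Set.range z'), inferInstance, inferInstance,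
    ((algebraMap Fn (IntermediateField.adjoin Fn (Set.range z'))).comp
      (algebraMap ℂ Fn)).toAlgebra, ?_,
    fun i => ⟨z' i, IntermediateField.subset_adjoin Fn (Set.range z') ⟨i, rfl⟩⟩, ?_, ?_⟩
  · exact @IsScalarTower.of_algebraMap_eq ℂ Fn (IntermediateField.adjoin Fn (Set.range z'))
      _ _ _ _ _ (_) (fun _ => rfl)
  · intro i
    apply Subtype.ext
    show z' i ^ n * algebraMap Fn (AlgebraicClosure Fn) (fl (L 0)) =
      algebraMap Fn (AlgebraicClosure Fn) (fl (L i))
    rw [hz' i, ← map_mul, div_mul_cancel₀ _ hne]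
  · apply IntermediateField.lift_injective (IntermediateField.adjoin Fn (Set.range z'))
    rw [IntermediateField.lift_adjoin, IntermediateField.lift_top]
    congr 1
    rw [← Set.range_comp]
    rfl

end HKR
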