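import Pool.Agent.Lib.HKR.KDefs
/-!
HKR.K2.  The local ring RLoc s t a b of the plane is normal (elementary, in the UFD ℂ[X_0,X_1]).
rloc_pow: x = psi P / psi Q with P, Q coprime (Coord.gen, remove the gcd: `IsLocalization.exists_reduced_fraction`
style or choose Q of minimal total degree; if x = 0 trivial).  Hypothesis: x^n s^α t^β = psi P'/psi Q',
Q'(a,b) ≠ 0.  By injectivity of psi: P^n X_0^α X_1^β Q' = P' Q^n.  If Q(a,b) = 0 there is an irreducible π ∣ Q
with π(a,b) = 0 (Q ≠ 0; product of irreducibles).  π ∤ Q' (as Q'(a,b) ≠ 0), π ∤ P.  So π^n ∣ X_0^α X_1^β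
(π prime: use multiplicities, or `Prime.pow_dvd_of_dvd_mul_left/right`).  If π ∤ X_0, π ∤ X_1 contradiction
(n ≥ 1 as α < n).  X_0, X_1 are primes, not associated.  If π ~ X_0, then X_0^n ∣ X_0^α X_1^β, so n ≤ α:
contradiction; same for X_1.  So Q(a,b) ≠ 0.
rloc_int: x = psi P/psi Q coprime, p monic of degree m, coefficients psi P_j/psi Q_j, H := ∏ Q_j over
j ≤ m, H(a,b) ≠ 0.  Multiplying x^m + Σ c_j x^j = 0 by psi(H Q^m): H P^m = - Σ_j (H c_j) P^j Q^(m-j), divisible by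
Q.  An irreducible π ∣ Q divides H P^m, π ∤ P, so π ∣ H, π(a,b) ≠ 0.  So Q(a,b) ≠ 0.
-/
open MvPolynomial
namespace HKR
variable {s t : Fn}

/-- reduced fractions -/
private theorem k2_red (hc : Coord s t) (x : Fn) :
    ∃ P Q : MvPolynomial (Fin 2) ℂ, Q ≠ 0 ∧ IsRelPrime P Q ∧ x * psi s t Q = psi s t P := by
  obtain ⟨P, Q, hQ, hx⟩ := hc.gen x
  obtain ⟨Q', P', c, hrel, h1, h2⟩ := UniqueFactorizationMonoid.exists_reduced_factors Q hQ P
  have hc0 : c ≠ 0 := by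
    rintro rfl
    exact hQ (by rw [← h1, zero_mul])
  have hQ' : Q' ≠ 0 := by
    rintro rfl
    exact hQ (by rw [← h1, mul_zero])
  refine ⟨P', Q', hQ', hrel.symm, ?_⟩
  have hpc : psi s t c ≠ 0 := fun h => hc0 (hc.inj c h)
  apply mul_left_cancel₀ hpc
  rw [← h1, ← h2, map_mul, map_mul] at hx
  linear_combination hx

/-- a polynomial which vanishes at a point is divisible by a prime which vanishes there -/
private theorem k2_prime {Q : MvPolynomial (Fin 2) ℂ} (hQ : Q ≠ 0) {v : Fin 2 → ℂ}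
    (h : eval v Q = 0) : ∃ π : MvPolynomial (Fin 2) ℂ, Prime π ∧ π ∣ Q ∧ eval v π = 0 := by
  obtain ⟨f, hf, u, hu⟩ := UniqueFactorizationMonoid.exists_prime_factors Q hQ
  have h1 : eval v f.prod = 0 := by
    rw [← hu, map_mul] at h
    rcases mul_eq_zero.mp h with h2 | h2
    · exact h2
    · exfalso
      have hunit : IsUnit (eval v (u : MvPolynomial (Fin 2) ℂ)) := u.isUnit.map (eval v)
      exact hunit.ne_zero h2
  rw [map_multiset_prod, Multiset.prod_eq_zero_iff, Multiset.mem_map] at h1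
  obtain ⟨π, hπ, h0⟩ := h1
  refine ⟨π, hf π hπ, ?_, h0⟩
  rw [← hu]
  exact Dvd.dvd.mul_right (Multiset.dvd_prod hπ) _

private theorem k2_not_dvd {π R : MvPolynomial (Fin 2) ℂ} {v : Fin 2 → ℂ} (h0 : eval v π = 0)
    (hR : eval v R ≠ 0) : ¬ π ∣ R := by
  rintro ⟨S, rfl⟩
  exact hR (by rw [map_mul, h0, zero_mul])

private theorem k2_psi_X0 : psi s t (X 0) = s := by
  simp [psi]

private theorem k2_psi_X1 : psi s t (X 1) = t := by
  simp [psi]

private theorem k2_inj (hc : Coord s t) {P Q : MvPolynomial (Fin 2) ℂ}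
    (h : psi s t P = psi s t Q) : P = Q := by
  have h1 : psi s t (P - Q) = 0 := by rw [map_sub, h, sub_self]
  exact sub_eq_zero.mp (hc.inj _ h1)

/-- `π ∣ X i`, `π ^ n ∣ X i ^ α` gives `n ≤ α` -/
private theorem k2_le {π : MvPolynomial (Fin 2) ℂ} (hπ : Prime π) (i : Fin 2) {n α : ℕ}
    (hX : π ∣ X i) (h : π ^ n ∣ (X i : MvPolynomial (Fin 2) ℂ) ^ α) : n ≤ α := by
  have hXp : Prime (X i : MvPolynomial (Fin 2) ℂ) := MvPolynomial.X_prime
  have hass : Associated π (X i) := hπ.associated_of_dvd hXp hX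
  have h1 : (X i : MvPolynomial (Fin 2) ℂ) ^ n ∣ (X i : MvPolynomial (Fin 2) ℂ) ^ α :=
    (pow_dvd_pow_of_dvd hass.symm.dvd n).trans h
  exact (pow_dvd_pow_iff hXp.ne_zero hXp.not_unit).mp h1

theorem rloc_pow (hc : Coord s t) {a b : ℂ} {n α β : ℕ} (hα : α < n) (hβ : β < n) {x : Fn}
    (h : RLoc s t a b (x ^ n * s ^ α * t ^ β)) : RLoc s t a b x := by
  obtain ⟨P, Q, hQ, hrel, hx⟩ := k2_red hc x
  obtain ⟨P', Q', hQ', hx'⟩ := h
  refine ⟨P, Q, ?_, hx⟩
  intro h0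
  obtain ⟨π, hπ, hπQ, hπ0⟩ := k2_prime hQ h0
  have heq : P ^ n * X 0 ^ α * X 1 ^ β * Q' = P' * Q ^ n := by
    apply k2_inj hc
    simp only [map_mul, map_pow, k2_psi_X0, k2_psi_X1]
    rw [← hx, ← hx']
    ring
  have hπP : ¬ π ∣ P := fun h1 => hπ.not_unit (hrel h1 hπQ)
  have hπQ' : ¬ π ∣ Q' := k2_not_dvd hπ0 hQ'
  have h1 : π ^ n ∣ P ^ n * X 0 ^ α * X 1 ^ β * Q' := by
    rw [heq]
    exact Dvd.dvd.mul_left (pow_dvd_pow_of_dvd hπQ n) _
  have h2 : π ^ n ∣ P ^ n * X 0 ^ α * X 1 ^ β := hπ.pow_dvd_of_dvd_mul_right n hπQ' h1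
  rw [mul_assoc] at h2
  have h3 : π ^ n ∣ X 0 ^ α * X 1 ^ β :=
    hπ.pow_dvd_of_dvd_mul_left n (fun h4 => hπP (hπ.dvd_of_dvd_pow h4)) h2
  have hXX : ¬ (π ∣ X 0 ∧ π ∣ X 1) := by
    rintro ⟨h4, h5⟩
    have hX0 : Prime (X 0 : MvPolynomial (Fin 2) ℂ) := MvPolynomial.X_prime
    have hass : Associated π (X 0) := hπ.associated_of_dvd hX0 h4
    have h6 : (X 0 : MvPolynomial (Fin 2) ℂ) ∣ X 1 := hass.symm.dvd.trans h5
    rw [MvPolynomial.X_dvd_X] at h6
    exact absurd h6 (by decide)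
  by_cases hX1 : π ∣ X 1
  · have hX0 : ¬ π ∣ X 0 := fun h4 => hXX ⟨h4, hX1⟩
    have h4 : π ^ n ∣ X 1 ^ β :=
      hπ.pow_dvd_of_dvd_mul_left n (fun h5 => hX0 (hπ.dvd_of_dvd_pow h5)) h3
    have := k2_le hπ 1 hX1 h4
    omega
  · have h4 : π ^ n ∣ X 0 ^ α :=
      hπ.pow_dvd_of_dvd_mul_right n (fun h5 => hX1 (hπ.dvd_of_dvd_pow h5)) h3
    have hn : n ≠ 0 := by omega
    have h5 : π ∣ X 0 := hπ.dvd_of_dvd_pow ((dvd_pow_self π hn).trans h4)
    have := k2_le hπ 0 h5 h4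
    omega

theorem rloc_int (hc : Coord s t) {a b : ℂ} {x : Fn} (p : Polynomial Fn) (hp : p.Monic)
    (hco : ∀ m, RLoc s t a b (p.coeff m)) (h0 : p.eval x = 0) : RLoc s t a b x := by
  classical
  obtain ⟨P, Q, hQ, hrel, hx⟩ := k2_red hc x
  refine ⟨P, Q, ?_, hx⟩
  intro hev
  obtain ⟨π, hπ, hπQ, hπ0⟩ := k2_prime hQ hev
  choose A B hB hAB using hco
  set m := p.natDegree with hm
  set H : MvPolynomial (Fin 2) ℂ := ∏ j ∈ Finset.range m, B j with hH
  have hHev : eval ![a, b] H ≠ 0 := by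
    rw [hH, map_prod, Finset.prod_ne_zero_iff]
    intro j _
    exact hB j
  -- numerators over the common denominator
  have hR : ∀ j ∈ Finset.range m, ∃ R : MvPolynomial (Fin 2) ℂ,
      p.coeff j * psi s t H = psi s t R := by
    intro j hj
    refine ⟨A j * ∏ i ∈ (Finset.range m).erase j, B i, ?_⟩
    rw [hH, ← Finset.mul_prod_erase (Finset.range m) B hj, map_mul, map_mul, ← mul_assoc,
      hAB j]
  choose! R hR using hR
  have hsum : p.eval x = ∑ j ∈ Finset.range (m + 1), p.coeff j * x ^ j :=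
    Polynomial.eval_eq_sum_range x
  rw [Finset.sum_range_succ] at hsum
  have hlead : p.coeff m = 1 := hp
  rw [hlead, one_mul, h0] at hsum
  have heq : H * P ^ m + ∑ j ∈ Finset.range m, R j * (P ^ j * Q ^ (m - j)) = 0 := by
    apply hc.inj
    rw [map_add, map_sum]
    have h1 : psi s t (H * P ^ m) = psi s t H * psi s t Q ^ m * x ^ m := by
      rw [map_mul, map_pow, ← hx]
      ring
    have h2 : ∀ j ∈ Finset.range m, psi s t (R j * (P ^ j * Q ^ (m - j))) =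
        psi s t H * psi s t Q ^ m * (p.coeff j * x ^ j) := by
      intro j hj
      have hjm : j ≤ m := (Finset.mem_range.mp hj).le
      rw [map_mul, map_mul, map_pow, map_pow, ← hR j hj, ← hx]
      have h3 : psi s t Q ^ m = psi s t Q ^ j * psi s t Q ^ (m - j) := by
        rw [← pow_add]
        congr 1
        omega
      rw [h3]
      ring
    rw [h1, Finset.sum_congr rfl h2, ← Finset.mul_sum]
    linear_combination (-(psi s t H * psi s t Q ^ m)) * hsum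
  have hdvd : π ∣ H * P ^ m := by
    have h1 : π ∣ ∑ j ∈ Finset.range m, R j * (P ^ j * Q ^ (m - j)) := by
      apply Finset.dvd_sum
      intro j hj
      have hjm : m - j ≠ 0 := by
        have := Finset.mem_range.mp hj
        omega
      exact Dvd.dvd.mul_left (Dvd.dvd.mul_left (hπQ.trans (dvd_pow_self Q hjm)) _) _
    have h2 : H * P ^ m = -(∑ j ∈ Finset.range m, R j * (P ^ j * Q ^ (m - j))) :=
      eq_neg_of_add_eq_zero_left heq
    rw [h2]
    exact h1.neg_right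
  rcases hπ.dvd_or_dvd hdvd with h1 | h1
  · exact k2_not_dvd hπ0 hHev h1
  · exact hπ.not_unit (hrel (hπ.dvd_of_dvd_pow h1) hπQ)

end HKR
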