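import Pool.Agent.Lib.HKR.KDefs
/-!
HKR.K3.  (a) every element of Fn is a quotient of two forms of the same degree.
(b) The characters are distinct: if pw L a = f^n pw L b, with n ∣ Σ a, n ∣ Σ b, then a ≡ b mod n.
PROOF (a).  f = P/Q with P, Q polynomials in x, y (IsFractionRing.div_surjective); homogenise both to the
same degree e (A := Σ of monomials x_0^(e-i-j) x_1^i x_2^j): aff A = P.
(b)  f = aff A / aff B, A, B forms of degree e (A ≠ 0 since pw ≠ 0).  Clearing denominators (fl (L i) = aff (lin (L i))):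
  aff (B^n ∏ (lin (L i))^(a i) (lin (L 0))^(Σ b)) = aff (A^n ∏ (lin (L i))^(b i) (lin (L 0))^(Σ a)),
both forms of degree n e + Σ a + Σ b, so by aff_inj the forms are equal.  The lin (L i) are primes of
ℂ[x_0,x_1,x_2] (linear forms ≠ 0; irreducible by degree), pairwise not associated (Config.ind).  For i ≠ 0 compare the
multiplicities (emultiplicity / multiplicity / normalizedFactors count) of lin (L i): n v(B) + a i = n v(A) + b i
so a i ≡ b i mod n.  For i = 0: a 0 ≡ - Σ_{i≠0} a i ≡ - Σ_{i≠0} b i ≡ b 0 mod n.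
-/
open MvPolynomial
namespace HKR

/-! ### homogenisation -/

private noncomputable def k3_hom (e : ℕ) (P : MvPolynomial (Fin 2) ℂ) : MvPolynomial (Fin 3) ℂ :=
  ∑ d ∈ P.support, C (coeff d P) * (X 1 ^ d 0 * X 2 ^ d 1 * X 0 ^ (e - (d 0 + d 1)))

private theorem k3_deg {c : ℕ} {P : MvPolynomial (Fin 2) ℂ} (hP : P.totalDegree ≤ c) {d : Fin 2 →₀ ℕ}
    (hd : d ∈ P.support) : d 0 + d 1 ≤ c := by
  have h1 := le_totalDegree hd
  have h2 : (d.sum fun _ e => e) = d 0 + d 1 := by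
    rw [Finsupp.sum_fintype _ _ (fun _ => rfl), Fin.sum_univ_two]
  omega

private theorem k3_hom_hom {c : ℕ} {P : MvPolynomial (Fin 2) ℂ} (hP : P.totalDegree ≤ c) :
    (k3_hom c P).IsHomogeneous c := by
  unfold k3_hom
  refine IsHomogeneous.sum _ _ _ fun d hd => ?_
  have h1 := k3_deg hP hd
  have h2 := (isHomogeneous_C (Fin 3) (coeff d P)).mul
    ((((isHomogeneous_X ℂ (1 : Fin 3)).pow (d 0)).mul ((isHomogeneous_X ℂ (2 : Fin 3)).pow (d 1))).mul
      ((isHomogeneous_X ℂ (0 : Fin 3)).pow (c - (d 0 + d 1))))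
  have h3 : 0 + (1 * d 0 + 1 * d 1 + 1 * (c - (d 0 + d 1))) = c := by omega
  rwa [h3] at h2

private theorem k3_aff_X0 : aff (X 0) = 1 := by simp [aff]
private theorem k3_aff_X1 : aff (X 1) = algebraMap (MvPolynomial (Fin 2) ℂ) Fn (X 0) := by simp [aff]
private theorem k3_aff_X2 : aff (X 2) = algebraMap (MvPolynomial (Fin 2) ℂ) Fn (X 1) := by simp [aff]
private theorem k3_aff_C (c : ℂ) : aff (C c) = algebraMap ℂ Fn c := by simp [aff]

private theorem k3_hom_aff (c : ℕ) (P : MvPolynomial (Fin 2) ℂ) :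
    aff (k3_hom c P) = algebraMap (MvPolynomial (Fin 2) ℂ) Fn P := by
  unfold k3_hom
  conv_rhs => rw [MvPolynomial.as_sum P]
  rw [map_sum, map_sum]
  refine Finset.sum_congr rfl fun d _ => ?_
  rw [map_mul, map_mul, map_mul, map_pow, map_pow, map_pow, k3_aff_X0, k3_aff_X1, k3_aff_X2, k3_aff_C,
    one_pow, mul_one, monomial_eq, Finsupp.prod_fintype _ _ (fun _ => pow_zero _), Fin.prod_univ_two,
    map_mul, map_mul, map_pow, map_pow, ← MvPolynomial.algebraMap_eq,
    ← IsScalarTower.algebraMap_apply]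

theorem exists_forms_div (f : Fn) : ∃ (e : ℕ) (A B : MvPolynomial (Fin 3) ℂ),
    A.IsHomogeneous e ∧ B.IsHomogeneous e ∧ aff B ≠ 0 ∧ f * aff B = aff A := by
  obtain ⟨P, Q, hQ, hf⟩ := IsFractionRing.div_surjective (A := MvPolynomial (Fin 2) ℂ) f
  have hQ0 : algebraMap (MvPolynomial (Fin 2) ℂ) Fn Q ≠ 0 := by
    intro h0
    exact nonZeroDivisors.ne_zero hQ
      ((IsFractionRing.injective (MvPolynomial (Fin 2) ℂ) Fn) (h0.trans (map_zero _).symm))
  refine ⟨max P.totalDegree Q.totalDegree, k3_hom _ P, k3_hom _ Q, k3_hom_hom (le_max_left _ _),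
    k3_hom_hom (le_max_right _ _), ?_, ?_⟩
  · rw [k3_hom_aff]; exact hQ0
  · rw [k3_hom_aff, k3_hom_aff, ← hf, div_mul_cancel₀ _ hQ0]

/-! ### linear forms are primes -/

private theorem k3_lin_hom (l : Fin 3 → ℂ) : (lin l).IsHomogeneous 1 :=
  MvPolynomial.IsHomogeneous.sum _ _ _ fun _ _ => MvPolynomial.isHomogeneous_C_mul_X _ _

private theorem k3_lin_inj {l l' : Fin 3 → ℂ} (h : lin l = lin l') : l = l' := by
  funext j
  have h1 : ∀ l : Fin 3 → ℂ, MvPolynomial.eval (Pi.single j 1) (lin l) = l j := by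
    intro l
    simp [lin, Pi.single_apply]
  rw [← h1 l, ← h1 l', h]

private theorem k3_lin_ne {l : Fin 3 → ℂ} (hl : l ≠ 0) : lin l ≠ 0 := by
  intro h
  apply hl
  apply k3_lin_inj
  rw [h]; simp [lin]

private theorem k3_lin_smul (c : ℂ) (l : Fin 3 → ℂ) : lin (c • l) = C c * lin l := by
  simp only [lin, Pi.smul_apply, smul_eq_mul, map_mul, Finset.mul_sum, mul_assoc]

private theorem k3_lin_deg {l : Fin 3 → ℂ} (hl : l ≠ 0) : (lin l).totalDegree = 1 :=
  (k3_lin_hom l).totalDegree (k3_lin_ne hl)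

private theorem k3_lin_prime {l : Fin 3 → ℂ} (hl : l ≠ 0) : Prime (lin l) := by
  rw [← UniqueFactorizationMonoid.irreducible_iff_prime]
  have hun : ∀ p : MvPolynomial (Fin 3) ℂ, p ≠ 0 → p.totalDegree = 0 → IsUnit p := by
    intro p hp h0
    rw [totalDegree_eq_zero_iff_eq_C] at h0
    rw [h0]
    refine (isUnit_iff_ne_zero.2 ?_).map C
    intro hc
    rw [hc, map_zero] at h0
    exact hp h0
  constructor
  · intro hu
    have h1 := k3_lin_deg hl
    rw [MvPolynomial.isUnit_iff_totalDegree_of_isReduced] at hu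
    omega
  · intro a b hab
    have hne := k3_lin_ne hl
    rw [hab] at hne
    have ha := left_ne_zero_of_mul hne
    have hb := right_ne_zero_of_mul hne
    have h1 := totalDegree_mul_of_isDomain ha hb
    rw [← hab, k3_lin_deg hl] at h1
    rcases Nat.eq_zero_or_pos a.totalDegree with h2 | h2
    · exact Or.inl (hun a ha h2)
    · exact Or.inr (hun b hb (by omega))

private theorem k3_not_dvd {l l' : Fin 3 → ℂ} (h : LinearIndependent ℂ ![l, l']) :
    ¬ lin l ∣ lin l' := by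
  rintro ⟨c, hc⟩
  have hl : l ≠ 0 := by simpa using h.ne_zero 0
  have hl' : l' ≠ 0 := by simpa using h.ne_zero 1
  have hne := k3_lin_ne hl'
  rw [hc] at hne
  have h1 := totalDegree_mul_of_isDomain (left_ne_zero_of_mul hne) (right_ne_zero_of_mul hne)
  rw [← hc, k3_lin_deg hl, k3_lin_deg hl'] at h1
  have h2 : c.totalDegree = 0 := by omega
  rw [totalDegree_eq_zero_iff_eq_C] at h2
  rw [h2, mul_comm, ← k3_lin_smul] at hc
  have h3 := k3_lin_inj hc
  rw [LinearIndependent.pair_iff] at h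
  have h4 := h (coeff 0 c) (-1) (by rw [← h3]; simp)
  exact one_ne_zero (neg_eq_zero.1 h4.2)

private theorem k3_split {R : Type} [CommRing R] [IsDomain R] {p : R} (hp : Prime p) {m m' : ℕ}
    {u u' : R} (hu : ¬ p ∣ u) (hu' : ¬ p ∣ u') (h : p ^ m * u = p ^ m' * u') : m = m' := by
  rcases lt_trichotomy m m' with hlt | heq | hlt
  · exfalso
    obtain ⟨j, rfl⟩ := Nat.exists_eq_add_of_lt hlt
    apply hu
    have h1 : p ^ m * u = p ^ m * (p ^ (j + 1) * u') := by rw [h]; ring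
    have h2 := mul_left_cancel₀ (pow_ne_zero m hp.ne_zero) h1
    rw [h2, pow_succ]
    exact ⟨p ^ j * u', by ring⟩
  · exact heq
  · exfalso
    obtain ⟨j, rfl⟩ := Nat.exists_eq_add_of_lt hlt
    apply hu'
    have h1 : p ^ m' * u' = p ^ m' * (p ^ (j + 1) * u) := by rw [← h]; ring
    have h2 := mul_left_cancel₀ (pow_ne_zero m' hp.ne_zero) h1
    rw [h2, pow_succ]
    exact ⟨p ^ j * u, by ring⟩

private theorem k3_not_dvd_pow {R : Type} [CommRing R] [IsDomain R] {p : R} (hp : Prime p) {u : R}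
    (hu : ¬ p ∣ u) (m : ℕ) : ¬ p ∣ u ^ m := fun h => hu (hp.dvd_of_dvd_pow h)

private theorem k3_not_dvd_mul {R : Type} [CommRing R] [IsDomain R] {p : R} (hp : Prime p) {u v : R}
    (hu : ¬ p ∣ u) (hv : ¬ p ∣ v) : ¬ p ∣ u * v := fun h => (hp.dvd_or_dvd h).elim hu hv

private theorem k3_side {k : ℕ} [NeZero k] {L : Fin k → Fin 3 → ℂ} (hC : Config L) {n : ℕ}
    {B : MvPolynomial (Fin 3) ℂ} (hB : B ≠ 0) (hL : ∀ i, L i ≠ 0) (a : Fin k → ℕ) (s : ℕ)
    (i : Fin k) : ∃ (v : ℕ) (u : MvPolynomial (Fin 3) ℂ), ¬ lin (L i) ∣ u ∧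
      B ^ n * (∏ j, lin (L j) ^ a j) * lin (L 0) ^ s =
        lin (L i) ^ (n * v + a i + if i = 0 then s else 0) * u := by
  have hp := k3_lin_prime (hL i)
  obtain ⟨v, B', hB', hv⟩ : ∃ (v : ℕ) (B' : MvPolynomial (Fin 3) ℂ), B = lin (L i) ^ v * B' ∧
      ¬ lin (L i) ∣ B' := by
    obtain ⟨B', hB', hv⟩ :=
      (FiniteMultiplicity.of_prime_left hp hB).exists_eq_pow_mul_and_not_dvd
    exact ⟨_, B', hB', hv⟩
  have hprod : ¬ lin (L i) ∣ ∏ j ∈ Finset.univ.erase i, lin (L j) ^ a j := by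
    intro h
    obtain ⟨j, hj, hd⟩ := hp.exists_mem_finset_dvd h
    exact k3_not_dvd (hC.ind i j (Finset.ne_of_mem_erase hj).symm) (hp.dvd_of_dvd_pow hd)
  have hsplit : ∏ j, lin (L j) ^ a j = lin (L i) ^ a i * ∏ j ∈ Finset.univ.erase i, lin (L j) ^ a j :=
    (Finset.mul_prod_erase _ _ (Finset.mem_univ i)).symm
  by_cases h0 : i = 0
  · refine ⟨v, B' ^ n * ∏ j ∈ Finset.univ.erase i, lin (L j) ^ a j,
      k3_not_dvd_mul hp (k3_not_dvd_pow hp hv n) hprod, ?_⟩
    rw [if_pos h0, hsplit, hB', ← h0, mul_pow, ← pow_mul]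
    ring
  · refine ⟨v, B' ^ n * (∏ j ∈ Finset.univ.erase i, lin (L j) ^ a j) * lin (L 0) ^ s,
      k3_not_dvd_mul hp (k3_not_dvd_mul hp (k3_not_dvd_pow hp hv n) hprod)
        (k3_not_dvd_pow hp (k3_not_dvd (hC.ind i 0 h0)) s), ?_⟩
    rw [if_neg h0, hsplit, hB', mul_pow, ← pow_mul]
    ring

private theorem k3_ne {k : ℕ} {L : Fin k → Fin 3 → ℂ} (hC : Config L) (i : Fin k) : L i ≠ 0 := by
  intro h0
  have h1 : (fun _ => 1 : Fin 3 → ℂ) = 0 := by
    apply hC.nonconc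
    intro j
    by_cases hj : j = i
    · rw [hj, h0, zero_dotProduct]
    · have h2 := (hC.ind i j (Ne.symm hj)).ne_zero 0
      exact absurd h0 (by simpa using h2)
  have h2 := congrFun h1 0
  simp at h2

private theorem k3_pw {k : ℕ} [NeZero k] {L : Fin k → Fin 3 → ℂ} (hC : Config L) (a : Fin k → ℕ) :
    pw L a * fl (L 0) ^ (∑ i, a i) = aff (∏ i, lin (L i) ^ a i) := by
  have h0 := fl_ne_zero (k3_ne hC 0)
  unfold pw
  rw [← Finset.prod_pow_eq_pow_sum, ← Finset.prod_mul_distrib, map_prod]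
  refine Finset.prod_congr rfl fun i _ => ?_
  rw [map_pow, ← mul_pow, div_mul_cancel₀ _ h0]
  rfl

theorem pw_root {k : ℕ} [NeZero k] {L : Fin k → Fin 3 → ℂ} (hC : Config L) {n : ℕ} (hn : 0 < n)
    {a b : Fin k → ℕ} (ha : n ∣ ∑ i, a i) (hb : n ∣ ∑ i, b i) {f : Fn}
    (h : pw L a = f ^ n * pw L b) (i : Fin k) : a i ≡ b i [MOD n] := by
  have hL := k3_ne hC
  have h0 := fl_ne_zero (hL 0)
  obtain ⟨e, A, B, hA, hB, hB0, hf⟩ := exists_forms_div f
  have hBne : B ≠ 0 := by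
    rintro rfl
    exact hB0 (map_zero _)
  have haffa : aff (∏ i, lin (L i) ^ a i) ≠ 0 := by
    rw [map_prod, Finset.prod_ne_zero_iff]
    intro j _
    rw [map_pow]
    exact pow_ne_zero _ (fl_ne_zero (hL j))
  have hAne : A ≠ 0 := by
    rintro rfl
    rw [map_zero] at hf
    have hf0 : f = 0 := (mul_eq_zero.1 hf).resolve_right hB0
    rw [hf0, zero_pow hn.ne', zero_mul] at h
    have h1 := k3_pw hC a
    rw [h, zero_mul] at h1
    exact haffa h1.symm
  have hprodhom : ∀ c : Fin k → ℕ, (∏ j, lin (L j) ^ c j).IsHomogeneous (∑ j, c j) := by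
    intro c
    have h1 := IsHomogeneous.prod Finset.univ (fun j => lin (L j) ^ c j) (fun j => 1 * c j)
      (fun j _ => (k3_lin_hom (L j)).pow (c j))
    simpa using h1
  have hid : B ^ n * (∏ j, lin (L j) ^ a j) * lin (L 0) ^ (∑ j, b j) =
      A ^ n * (∏ j, lin (L j) ^ b j) * lin (L 0) ^ (∑ j, a j) := by
    rw [← sub_eq_zero]
    have e1 : e * n + (∑ j, b j) + 1 * (∑ j, a j) = e * n + (∑ j, a j) + 1 * (∑ j, b j) := by ring
    have hh1 := ((hB.pow n).mul (hprodhom a)).mul ((k3_lin_hom (L 0)).pow (∑ j, b j))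
    have hh2 := ((hA.pow n).mul (hprodhom b)).mul ((k3_lin_hom (L 0)).pow (∑ j, a j))
    rw [e1] at hh2
    refine aff_inj (hh1.sub hh2) ?_
    rw [map_sub, map_mul, map_mul, map_mul, map_mul, map_pow, map_pow, map_pow, map_pow,
      ← k3_pw hC a, ← k3_pw hC b, ← hf, h, sub_eq_zero]
    change aff B ^ n * _ * fl (L 0) ^ _ = _ * _ * fl (L 0) ^ _
    ring
  obtain ⟨v, u, hu, h1⟩ := k3_side (n := n) hC hBne hL a (∑ j, b j) i
  obtain ⟨v', u', hu', h2⟩ := k3_side (n := n) hC hAne hL b (∑ j, a j) i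
  have h3 := k3_split (k3_lin_prime (hL i)) hu hu' (by rw [← h1, ← h2, hid])
  obtain ⟨x, hx⟩ := ha
  obtain ⟨y, hy⟩ := hb
  rw [hx, hy] at h3
  rw [← Int.natCast_modEq_iff]
  have h4 : (a i : ℤ) - b i = n * (v' - v + if i = 0 then (x : ℤ) - y else 0) := by
    by_cases hi : i = 0
    · rw [if_pos hi, if_pos hi] at h3
      rw [if_pos hi]
      have h5 : ((n * v + a i + n * y : ℕ) : ℤ) = ((n * v' + b i + n * x : ℕ) : ℤ) := by
        exact_mod_cast h3
      push_cast at h5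
      linear_combination h5
    · rw [if_neg hi, if_neg hi] at h3
      rw [if_neg hi]
      have h5 : ((n * v + a i + 0 : ℕ) : ℤ) = ((n * v' + b i + 0 : ℕ) : ℤ) := by
        exact_mod_cast h3
      push_cast at h5
      linear_combination h5
  rw [Int.modEq_comm]
  exact (Int.modEq_iff_dvd).2 ⟨_, h4⟩

end HKR
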