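import Pool.Agent.Lib.HKR.K1
import Pool.Agent.Lib.HKR.K3
/-!
HKR.K4.  Galois theory of K/Fn (Kummer).
(1) kum_fin, kum_galois.  K = Fn(z_0,...,z_{k-1}) with z_i^n = fl (L i)/fl (L 0) =: f_i (fl (L 0) ≠ 0).  Each z_i is a root of
    X^n - f_i, so K/Fn is generated by finitely many algebraic elements: finite.  K is the splitting
    field of ∏ (X^n - f_i): its roots are the ζ z_i, ζ^n = 1, ζ in the image of ℂ (all n-th roots of unity of a
    field containing ℂ are in ℂ: X^n - 1 splits over ℂ).  So normal; separable (char 0): IsGalois.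
    (`IsSplittingField`, `IsGalois.of_separable_splitting_field` or `Normal.of_isSplittingField`.)
(2) kum_aut.  σ : K ≃ₐ[Fn] K.  (σ z_i)^n = z_i^n, z_i ≠ 0, so σ z_i = χ_i z_i with χ_i ∈ ℂ, χ_i^n = 1.
(3) kum_span.  The set of all sums Σ_{a ∈ AA} algebraMap (c a) * zp z a is closed under + and contains Fn (z_0^n = 1, z_0 ∈ ℂ:
    a = 0).  Closed under multiplication by z_i: z_i zp z a: let b = a + e_i - e_0 (mod n, in [0,n)):
    z_0 is a constant (z_0^n = 1), z_i^n = f_i, so z_i zp z a = (element of Fn) * zp z b.  So it is an Fn-subalgebra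
    containing the z_i; K is finite over Fn, so K = Fn[z_i] (Algebra.adjoin = IntermediateField.adjoin for
    algebraic elements: `IntermediateField.adjoin_toSubalgebra_of_isAlgebraic` or `Algebra.adjoin` of integral elements).
    General lemma (useful): for EVERY exponent vector e with n ∣ Σ e there are a ∈ AA, f ∈ Fn, f ≠ 0, with
    zp z e = algebraMap f * zp z a (reduce mod n).
-/
open MvPolynomial
namespace HKR
variable {k : ℕ} [NeZero k] {L : Fin k → Fin 3 → ℂ} {n : ℕ} {K : Type} [Field K] [Algebra Fn K]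
  [Algebra ℂ K] [IsScalarTower ℂ Fn K] {z : Fin k → K}

private theorem k4_Lne (hC : Config L) (i : Fin k) : L i ≠ 0 := by
  intro h0
  by_cases h : ∃ j, j ≠ i
  · obtain ⟨j, hj⟩ := h
    have h1 := (hC.ind i j hj.symm).ne_zero 0
    exact h1 (by simpa using h0)
  · push Not at h
    have h1 := hC.nonconc (Pi.single 0 1) (fun j => by rw [h j, h0, zero_dotProduct])
    have h2 := congrFun h1 0
    simp at h2

private theorem k4_fne (hC : Config L) (i : Fin k) : fl (L i) / fl (L 0) ≠ 0 :=
  div_ne_zero (fl_ne_zero (k4_Lne hC i)) (fl_ne_zero (k4_Lne hC 0))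

omit [Algebra ℂ K] [IsScalarTower ℂ Fn K] in
private theorem k4_pow (hC : Config L) (hz : Kum L n K z) (i : Fin k) :
    z i ^ n = algebraMap Fn K (fl (L i) / fl (L 0)) := by
  have h0 : algebraMap Fn K (fl (L 0)) ≠ 0 := by
    rw [Ne, map_eq_zero]
    exact fl_ne_zero (k4_Lne hC 0)
  rw [map_div₀, eq_div_iff h0]
  exact hz.pow i

omit [Algebra ℂ K] [IsScalarTower ℂ Fn K] in
private theorem k4_zne (hC : Config L) (hn : 0 < n) (hz : Kum L n K z) (i : Fin k) : z i ≠ 0 := by
  intro h
  have h1 := k4_pow hC hz i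
  rw [h, zero_pow hn.ne'] at h1
  have h2 := (map_eq_zero (algebraMap Fn K)).1 h1.symm
  exact k4_fne hC i h2

omit [Algebra ℂ K] [IsScalarTower ℂ Fn K] in
private theorem k4_int (hC : Config L) (hn : 0 < n) (hz : Kum L n K z) (i : Fin k) :
    IsIntegral Fn (z i) := by
  apply IsIntegral.of_pow hn
  rw [k4_pow hC hz i]
  exact isIntegral_algebraMap

private theorem k4_root (hn : 0 < n) :
    IsPrimitiveRoot (algebraMap ℂ K (Complex.exp (2 * Real.pi * Complex.I / n))) n :=
  (Complex.isPrimitiveRoot_exp n hn.ne').map_of_injective (algebraMap ℂ K).injective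

omit [Algebra Fn K] [IsScalarTower ℂ Fn K] in
private theorem k4_unity (hn : 0 < n) {x : K} (hx : x ^ n = 1) :
    ∃ c : ℂ, c ^ n = 1 ∧ x = algebraMap ℂ K c := by
  haveI : NeZero n := ⟨hn.ne'⟩
  have h := Complex.isPrimitiveRoot_exp n hn.ne'
  have h' := h.map_of_injective (algebraMap ℂ K).injective
  obtain ⟨j, -, hj⟩ := h'.eq_pow_of_pow_eq_one hx
  refine ⟨Complex.exp (2 * Real.pi * Complex.I / n) ^ j, ?_, ?_⟩
  · rw [← pow_mul, mul_comm j n, pow_mul, h.pow_eq_one, one_pow]
  · rw [map_pow, hj]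

private theorem k4_red (hC : Config L) (hn : 0 < n) (hz : Kum L n K z) (e : Fin k → ℕ)
    (he : n ∣ ∑ i, e i) : ∃ a ∈ AA k n, ∃ f : Fn, zp z e = algebraMap Fn K f * zp z a := by
  refine ⟨fun i => e i % n, ?_, ∏ i, (fl (L i) / fl (L 0)) ^ (e i / n), ?_⟩
  · unfold AA
    rw [Finset.mem_filter, Fintype.mem_piFinset]
    refine ⟨fun i => Finset.mem_range.2 (Nat.mod_lt _ hn), ?_⟩
    rw [Nat.dvd_iff_mod_eq_zero, ← Finset.sum_nat_mod, ← Nat.dvd_iff_mod_eq_zero]
    exact he
  · unfold zp
    rw [map_prod, ← Finset.prod_mul_distrib]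
    refine Finset.prod_congr rfl fun i _ => ?_
    rw [map_pow, ← k4_pow hC hz i, ← pow_mul, ← pow_add, Nat.div_add_mod]

omit [NeZero k] [Algebra Fn K] [Algebra ℂ K] [IsScalarTower ℂ Fn K] in
private theorem k4_zp_add (a b : Fin k → ℕ) : zp z a * zp z b = zp z (a + b) := by
  unfold zp
  rw [← Finset.prod_mul_distrib]
  refine Finset.prod_congr rfl fun i _ => ?_
  rw [← pow_add]
  rfl

private theorem k4_mem (hC : Config L) (hn : 0 < n) (hz : Kum L n K z) (e : Fin k → ℕ)
    (he : n ∣ ∑ i, e i) : zp z e ∈ Submodule.span Fn (zp z '' (AA k n : Set (Fin k → ℕ))) := by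
  obtain ⟨a, ha, f, h⟩ := k4_red hC hn hz e he
  rw [h, ← Algebra.smul_def]
  exact Submodule.smul_mem _ _ (Submodule.subset_span ⟨a, ha, rfl⟩)

private theorem k4_mul (hC : Config L) (hn : 0 < n) (hz : Kum L n K z) (x y : K)
    (hx : x ∈ Submodule.span Fn (zp z '' (AA k n : Set (Fin k → ℕ))))
    (hy : y ∈ Submodule.span Fn (zp z '' (AA k n : Set (Fin k → ℕ)))) :
    x * y ∈ Submodule.span Fn (zp z '' (AA k n : Set (Fin k → ℕ))) := by
  have h := Submodule.mul_mem_mul hx hy
  rw [Submodule.span_mul_span] at h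
  refine Submodule.span_le.2 ?_ h
  rintro _ ⟨_, ⟨a, ha, rfl⟩, _, ⟨b, hb, rfl⟩, rfl⟩
  have ha' := (Finset.mem_filter.1 (Finset.mem_coe.1 ha)).2
  have hb' := (Finset.mem_filter.1 (Finset.mem_coe.1 hb)).2
  have e1 : zp z a * zp z b = zp z (a + b) := k4_zp_add a b
  change zp z a * zp z b ∈ _
  rw [e1]
  apply k4_mem hC hn hz
  simp only [Pi.add_apply, Finset.sum_add_distrib]
  exact dvd_add ha' hb'

private theorem k4_z (hC : Config L) (hn : 0 < n) (hz : Kum L n K z) (i : Fin k) :
    z i ∈ Submodule.span Fn (zp z '' (AA k n : Set (Fin k → ℕ))) := by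
  have h0 : z 0 ^ n = 1 := by
    rw [k4_pow hC hz 0, div_self (fl_ne_zero (k4_Lne hC 0)), map_one]
  obtain ⟨c, hc, hc'⟩ := k4_unity hn h0
  have e1 : z i = algebraMap Fn K (algebraMap ℂ Fn c) *
      zp z (Pi.single i 1 + Pi.single 0 (n - 1)) := by
    have e2 : zp z (Pi.single i 1 + Pi.single 0 (n - 1)) = z i * z 0 ^ (n - 1) := by
      rw [← k4_zp_add]
      unfold zp
      congr 1
      · rw [Finset.prod_eq_single i]
        · rw [Pi.single_eq_same, pow_one]
        · intro j _ hj
          rw [Pi.single_eq_of_ne hj, pow_zero]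
        · intro h
          exact absurd (Finset.mem_univ i) h
      · rw [Finset.prod_eq_single 0]
        · rw [Pi.single_eq_same]
        · intro j _ hj
          rw [Pi.single_eq_of_ne hj, pow_zero]
        · intro h
          exact absurd (Finset.mem_univ (0 : Fin k)) h
    rw [e2, ← IsScalarTower.algebraMap_apply, ← hc']
    have e3 : z 0 * (z i * z 0 ^ (n - 1)) = z i * z 0 ^ (n - 1 + 1) := by ring
    rw [e3, Nat.sub_add_cancel hn, h0, mul_one]
  rw [e1, ← Algebra.smul_def]
  apply Submodule.smul_mem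
  apply k4_mem hC hn hz
  simp only [Pi.add_apply, Finset.sum_add_distrib, Finset.sum_pi_single', Finset.mem_univ,
    if_true]
  have e4 : 1 + (n - 1) = n := by omega
  rw [e4]

theorem kum_fin (hC : Config L) (hn : 0 < n) (hz : Kum L n K z) : FiniteDimensional Fn K := by
  have h := IntermediateField.finiteDimensional_adjoin (K := Fn) (S := Set.range z) (by
    rintro _ ⟨i, rfl⟩
    exact k4_int hC hn hz i)
  rw [hz.gen] at h
  exact IntermediateField.topEquiv.toLinearEquiv.finiteDimensional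

theorem kum_galois (hC : Config L) (hn : 0 < n) (hz : Kum L n K z) : IsGalois Fn K := by
  haveI := kum_fin hC hn hz
  haveI : CharZero Fn := by
    exact algebraRat.charZero Fn
  classical
  have hsp : Polynomial.IsSplittingField Fn K
      (∏ i, (Polynomial.X ^ n - Polynomial.C (fl (L i) / fl (L 0)))) := by
    rw [isSplittingField_iff_intermediateField]
    constructor
    · rw [Polynomial.map_prod]
      apply Polynomial.Splits.prod
      intro i _
      rw [Polynomial.map_sub, Polynomial.map_pow, Polynomial.map_X, Polynomial.map_C]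
      exact X_pow_sub_C_splits_of_isPrimitiveRoot (k4_root hn) (k4_pow hC hz i)
    · rw [eq_top_iff, ← hz.gen]
      apply IntermediateField.adjoin.mono
      rintro _ ⟨i, rfl⟩
      rw [Polynomial.mem_rootSet]
      constructor
      · apply Finset.prod_ne_zero_iff.2
        intro j _
        exact (Polynomial.monic_X_pow_sub_C _ hn.ne').ne_zero
      · rw [map_prod]
        apply Finset.prod_eq_zero (Finset.mem_univ i)
        rw [map_sub, map_pow, Polynomial.aeval_X, Polynomial.aeval_C, k4_pow hC hz i, sub_self]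
  haveI : Normal Fn K := Normal.of_isSplittingField (hFEp := hsp)
  exact ⟨⟩

theorem kum_ne (hC : Config L) (hn : 0 < n) (hz : Kum L n K z) (a : Fin k → ℕ) : zp z a ≠ 0 := by
  unfold zp
  exact Finset.prod_ne_zero_iff.2 fun i _ => pow_ne_zero _ (k4_zne hC hn hz i)

theorem zp_pow (hC : Config L) (hn : 0 < n) (hz : Kum L n K z) (a : Fin k → ℕ) :
    zp z a ^ n = algebraMap Fn K (pw L a) := by
  unfold zp pw
  rw [← Finset.prod_pow, map_prod]
  refine Finset.prod_congr rfl fun i _ => ?_
  rw [map_pow, ← k4_pow hC hz i, ← pow_mul, ← pow_mul, mul_comm]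

theorem kum_aut (hC : Config L) (hn : 0 < n) (hz : Kum L n K z) (σ : K ≃ₐ[Fn] K) :
    ∃ χ : Fin k → ℂ, (∀ i, χ i ^ n = 1) ∧
      ∀ a : Fin k → ℕ, σ (zp z a) = algebraMap ℂ K (∏ i, χ i ^ a i) * zp z a := by
  have h : ∀ i, ∃ c : ℂ, c ^ n = 1 ∧ σ (z i) = algebraMap ℂ K c * z i := by
    intro i
    have hz0 := k4_zne hC hn hz i
    have h1 : (σ (z i) / z i) ^ n = 1 := by
      rw [div_pow, ← map_pow, k4_pow hC hz i, σ.commutes, div_self]
      rw [Ne, map_eq_zero]
      exact k4_fne hC i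
    obtain ⟨c, hc, hc'⟩ := k4_unity hn h1
    exact ⟨c, hc, by rw [← hc', div_mul_cancel₀ _ hz0]⟩
  choose χ h1 h2 using h
  refine ⟨χ, h1, fun a => ?_⟩
  unfold zp
  rw [map_prod, map_prod, ← Finset.prod_mul_distrib]
  refine Finset.prod_congr rfl fun i _ => ?_
  rw [map_pow, map_pow, h2 i, mul_pow]

theorem kum_span (hC : Config L) (hn : 0 < n) (hz : Kum L n K z) (x : K) :
    ∃ c : (Fin k → ℕ) → Fn, x = ∑ a ∈ AA k n, algebraMap Fn K (c a) * zp z a := by
  have h1 : (1 : K) ∈ Submodule.span Fn (zp z '' (AA k n : Set (Fin k → ℕ))) := by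
    have h := k4_mem hC hn hz 0 (by simp)
    simpa [zp] using h
  have hx : x ∈ Submodule.span Fn (zp z '' (AA k n : Set (Fin k → ℕ))) := by
    have h2 : Algebra.adjoin Fn (Set.range z) ≤
        (Submodule.span Fn (zp z '' (AA k n : Set (Fin k → ℕ)))).toSubalgebra h1
          (fun x y hx hy => k4_mul hC hn hz x y hx hy) := by
      apply Algebra.adjoin_le
      rintro _ ⟨i, rfl⟩
      exact k4_z hC hn hz i
    have h3 : (IntermediateField.adjoin Fn (Set.range z)).toSubalgebra =
        Algebra.adjoin Fn (Set.range z) := by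
      apply IntermediateField.adjoin_toSubalgebra_of_isAlgebraic
      rintro _ ⟨i, rfl⟩
      exact (k4_int hC hn hz i).isAlgebraic
    apply h2
    rw [← h3, hz.gen]
    trivial
  classical
  obtain ⟨c, hc⟩ := (Submodule.mem_span_image_finset_iff_exists_fun' Fn).1 hx
  refine ⟨c, ?_⟩
  rw [← hc]
  refine Finset.sum_congr rfl fun a _ => ?_
  rw [Algebra.smul_def]

end HKR
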