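import Pool.Agent.Lib.HKR.K4
/-!
HKR.K5.  Projection to the eigenspaces.
int_eigen: T a finite index set, exponent vectors e i (i ∈ T) with n ∣ Σ e i, pairwise incongruent mod n.  If
x = Σ_{i ∈ T} f_i z^(e i) is integral over the local ring at y, so is each term.
PROOF.  G = K ≃ₐ[Fn] K, finite.  For σ ∈ G let χ(σ) be from kum_aut, ψ_i(σ) := ∏_m χ_m(σ)^(e i m) ∈ ℂ^×, so σ(z^(e i)) = ψ_i(σ) z^(e i);
ψ_i is determined by this equation (z^(e i) ≠ 0, kum_ne), hence a homomorphism G → ℂ^× with values n-th roots of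
unity.  For i ≠ j in T the homomorphism ψ_j/ψ_i is not trivial: otherwise z^(e j)/z^(e i) is fixed by G, so equal to
algebraMap f (IsGalois, kum_galois), and pw L (e j) = f^n pw L (e i) (zp_pow, injectivity), so e j ≡ e i by pw_root.
So Σ_σ ψ_i(σ)⁻¹ ψ_j(σ) = |G| δ_ij (`sum_hom_units_eq_zero`, or the usual trick: multiply by one value ≠ 1).
Hence |G|⁻¹ Σ_σ ψ_i(σ)⁻¹ σ(x) = f_i z^(e i).  The left side is integral: Int.map, Int.const_mul, Int.sum.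
kum_indep: if the sum is 0 the same formula gives f_i z^(e i) = 0.
-/
open MvPolynomial
namespace HKR
variable {k : ℕ} [NeZero k] {L : Fin k → Fin 3 → ℂ} {n : ℕ} {K : Type} [Field K] [Algebra Fn K]
  [Algebra ℂ K] [IsScalarTower ℂ Fn K] {z : Fin k → K}

private theorem k5_const (hC : Config L) (hn : 0 < n) (hz : Kum L n K z) (a : Fin k → ℕ)
    (σ : K ≃ₐ[Fn] K) : ∃ c : ℂ, c ≠ 0 ∧ σ (zp z a) = algebraMap ℂ K c * zp z a := by
  obtain ⟨χ, hχ, h⟩ := kum_aut hC hn hz σ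
  refine ⟨_, ?_, h a⟩
  refine Finset.prod_ne_zero_iff.2 fun m _ => pow_ne_zero _ ?_
  intro h0
  have := hχ m
  rw [h0, zero_pow hn.ne'] at this
  exact zero_ne_one this

omit [NeZero k] in
private theorem k5_fix (σ : K ≃ₐ[Fn] K) (c : ℂ) : σ (algebraMap ℂ K c) = algebraMap ℂ K c := by
  rw [IsScalarTower.algebraMap_apply ℂ Fn K, AlgEquiv.commutes]

/-- the multiplicative character `σ ↦ σ(v)/v` -/
private theorem k5_char {v : K} (hv : v ≠ 0)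
    (h : ∀ σ : K ≃ₐ[Fn] K, ∃ c : ℂ, σ v = algebraMap ℂ K c * v) :
    ∃ φ : (K ≃ₐ[Fn] K) →* K, ∀ σ : K ≃ₐ[Fn] K, σ v = φ σ * v := by
  refine ⟨⟨⟨fun σ => σ v / v, ?_⟩, ?_⟩, ?_⟩
  · show (1 : K ≃ₐ[Fn] K) v / v = 1
    rw [AlgEquiv.one_apply, div_self hv]
  · intro σ τ
    show (σ * τ) v / v = σ v / v * (τ v / v)
    obtain ⟨c, hc⟩ := h τ
    rw [AlgEquiv.mul_apply, hc, map_mul, k5_fix]
    field_simp
  · intro σ
    show σ v = σ v / v * v
    field_simp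

private theorem k5_orth (hC : Config L) (hn : 0 < n) (hz : Kum L n K z) [Fintype (K ≃ₐ[Fn] K)]
    {a b : Fin k → ℕ} (ha : n ∣ ∑ m, a m) (hb : n ∣ ∑ m, b m) (hab : ¬ ∀ m, b m ≡ a m [MOD n])
    (c d : (K ≃ₐ[Fn] K) → ℂ) (hc : ∀ σ, c σ ≠ 0 ∧ σ (zp z a) = algebraMap ℂ K (c σ) * zp z a)
    (hd : ∀ σ, σ (zp z b) = algebraMap ℂ K (d σ) * zp z b) :
    ∑ σ : K ≃ₐ[Fn] K, algebraMap ℂ K ((c σ)⁻¹ * d σ) = 0 := by
  have ha0 := kum_ne hC hn hz a
  have hb0 := kum_ne hC hn hz b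
  have hv : zp z b / zp z a ≠ 0 := div_ne_zero hb0 ha0
  have hσ : ∀ σ : K ≃ₐ[Fn] K, σ (zp z b / zp z a) =
      algebraMap ℂ K ((c σ)⁻¹ * d σ) * (zp z b / zp z a) := by
    intro σ
    have hc0 : algebraMap ℂ K (c σ) ≠ 0 := by
      rw [Ne, FaithfulSMul.algebraMap_eq_zero_iff]
      exact (hc σ).1
    rw [map_div₀, (hc σ).2, hd σ, map_mul, map_inv₀]
    field_simp
  obtain ⟨φ, hφ⟩ := k5_char hv fun σ => ⟨_, hσ σ⟩
  have h1 : ∀ σ : K ≃ₐ[Fn] K, algebraMap ℂ K ((c σ)⁻¹ * d σ) = φ σ := fun σ =>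
    mul_right_cancel₀ hv ((hσ σ).symm.trans (hφ σ))
  rw [Finset.sum_congr rfl fun σ _ => h1 σ]
  apply sum_hom_units_eq_zero
  intro hφ1
  apply hab
  have := kum_fin hC hn hz
  have := kum_galois hC hn hz
  have h2 : zp z b / zp z a ∈ Set.range (algebraMap Fn K) := by
    rw [IsGalois.mem_range_algebraMap_iff_fixed]
    intro σ
    rw [hφ σ, hφ1]
    simp
  obtain ⟨f, hf⟩ := h2
  apply pw_root hC hn hb ha (f := f)
  apply (algebraMap Fn K).injective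
  rw [map_mul, map_pow, ← zp_pow hC hn hz, ← zp_pow hC hn hz, hf, ← mul_pow, div_mul_cancel₀ _ ha0]

private theorem k5_proj (hC : Config L) (hn : 0 < n) (hz : Kum L n K z)
    {ι : Type} (T : Finset ι) (e : ι → Fin k → ℕ) (f : ι → Fn) (he : ∀ i ∈ T, n ∣ ∑ m, e i m)
    (hd : ∀ i ∈ T, ∀ j ∈ T, (∀ m, e i m ≡ e j m [MOD n]) → i = j) (i : ι) (hi : i ∈ T) :
    ∃ (S : Finset (K ≃ₐ[Fn] K)) (c : (K ≃ₐ[Fn] K) → ℂ), algebraMap Fn K (f i) * zp z (e i) =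
      ∑ σ ∈ S, algebraMap ℂ K (c σ) * σ (∑ j ∈ T, algebraMap Fn K (f j) * zp z (e j)) := by
  classical
  have := kum_fin hC hn hz
  have := kum_galois hC hn hz
  have : Fintype (K ≃ₐ[Fn] K) := Fintype.ofFinite _
  have hx : ∀ j : ι, ∃ c : (K ≃ₐ[Fn] K) → ℂ, ∀ σ : K ≃ₐ[Fn] K,
      c σ ≠ 0 ∧ σ (zp z (e j)) = algebraMap ℂ K (c σ) * zp z (e j) := fun j =>
    ⟨fun σ => (k5_const hC hn hz (e j) σ).choose, fun σ =>
      (k5_const hC hn hz (e j) σ).choose_spec⟩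
  choose χ hχ using hx
  have : CharZero K := charZero_of_injective_algebraMap (algebraMap ℂ K).injective
  have hG : ((Fintype.card (K ≃ₐ[Fn] K) : ℕ) : K) ≠ 0 := by
    rw [Nat.cast_ne_zero]
    exact Fintype.card_ne_zero
  refine ⟨Finset.univ, fun σ => ((Fintype.card (K ≃ₐ[Fn] K) : ℕ) : ℂ)⁻¹ * (χ i σ)⁻¹, ?_⟩
  have h1 : ∀ σ : K ≃ₐ[Fn] K,
      algebraMap ℂ K (((Fintype.card (K ≃ₐ[Fn] K) : ℕ) : ℂ)⁻¹ * (χ i σ)⁻¹) *
        σ (∑ j ∈ T, algebraMap Fn K (f j) * zp z (e j)) =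
      ∑ j ∈ T, ((Fintype.card (K ≃ₐ[Fn] K) : ℕ) : K)⁻¹ * (algebraMap Fn K (f j) * zp z (e j)) *
        algebraMap ℂ K ((χ i σ)⁻¹ * χ j σ) := by
    intro σ
    rw [map_sum, Finset.mul_sum]
    refine Finset.sum_congr rfl fun j _ => ?_
    rw [map_mul, map_mul, AlgEquiv.commutes, (hχ j σ).2, map_inv₀, map_natCast, map_mul]
    ring
  rw [Finset.sum_congr rfl fun σ _ => h1 σ, Finset.sum_comm, Finset.sum_eq_single_of_mem i hi]
  · rw [← Finset.mul_sum]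
    have h2 : ∀ σ : K ≃ₐ[Fn] K, algebraMap ℂ K ((χ i σ)⁻¹ * χ i σ) = 1 := by
      intro σ
      rw [inv_mul_cancel₀ (hχ i σ).1, map_one]
    rw [Finset.sum_congr rfl fun σ _ => h2 σ, Finset.sum_const, Finset.card_univ, nsmul_eq_mul,
      mul_one]
    field_simp
  · intro j hj hji
    rw [← Finset.mul_sum, k5_orth hC hn hz (he i hi) (he j hj) _ (χ i) (χ j) (hχ i)
      (fun σ => (hχ j σ).2), mul_zero]
    intro h
    exact hji (hd j hj i hi h)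

theorem int_eigen (hC : Config L) (hn : 0 < n) (hz : Kum L n K z) {y : Pt} {ι : Type}
    (T : Finset ι) (e : ι → Fin k → ℕ) (f : ι → Fn) (he : ∀ i ∈ T, n ∣ ∑ m, e i m)
    (hd : ∀ i ∈ T, ∀ j ∈ T, (∀ m, e i m ≡ e j m [MOD n]) → i = j)
    (h : Int L y (∑ i ∈ T, algebraMap Fn K (f i) * zp z (e i))) :
    ∀ i ∈ T, Int L y (algebraMap Fn K (f i) * zp z (e i)) := by
  intro i hi
  obtain ⟨S, c, hc⟩ := k5_proj hC hn hz T e f he hd i hi
  rw [hc]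
  refine Int.sum _ _ fun σ _ => ?_
  rw [IsScalarTower.algebraMap_apply ℂ Fn K]
  exact (h.map (σ : K →ₐ[Fn] K)).const_mul (c σ)

theorem kum_indep (hC : Config L) (hn : 0 < n) (hz : Kum L n K z) (c : (Fin k → ℕ) → Fn)
    (h : ∑ a ∈ AA k n, algebraMap Fn K (c a) * zp z a = 0) : ∀ a ∈ AA k n, c a = 0 := by
  intro a ha
  obtain ⟨S, c', hc⟩ := k5_proj hC hn hz (AA k n) (fun a => a) c
    (fun i hi => (Finset.mem_filter.1 hi).2) (by
      intro i hi j hj hij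
      have hi' := (Finset.mem_filter.1 hi).1
      have hj' := (Finset.mem_filter.1 hj).1
      rw [Fintype.mem_piFinset] at hi' hj'
      funext m
      exact Nat.ModEq.eq_of_lt_of_lt (hij m) (Finset.mem_range.1 (hi' m))
        (Finset.mem_range.1 (hj' m))) a ha
  rw [h] at hc
  simp only [map_zero, mul_zero, Finset.sum_const_zero] at hc
  rcases mul_eq_zero.1 hc with h1 | h1
  · exact (map_eq_zero (algebraMap Fn K)).1 h1
  · exact absurd h1 (kum_ne hC hn hz a)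

end HKR
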