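import Pool.Agent.Lib.HKR.K5
/-!
HKR.K6.  Derivations of K and of Fn.
exists_ext: mathlib: D restricted to ℤ makes Fn a `Differential` field; `differentialFiniteDimensional Fn K` (Mathlib/FieldTheory/
Differential/Basic.lean) extends it to K (kum_fin), with `deriv_algebraMap`.  It kills ℂ (E (algebraMap ℂ K c) = algebraMap (D c) = 0), so it
is ℂ-linear.
ext_unique: D := E - E' kills Fn; for x ∈ K with minimal polynomial p over Fn: 0 = D(p(x)) = p'(x) D x, p'(x) ≠ 0 (char 0,
p separable).
ext_root: n x^(n-1) E x = algebraMap (D g).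
der_decomp: for f ∈ Fn expand D (algebraMap f) = Σ_a (c_a f) z^a (kum_span); by kum_indep the coefficients
are unique, so c_a is additive, ℂ-linear and satisfies Leibniz (algebraMap f * z^a has coefficient f at a).
-/
open MvPolynomial
namespace HKR
variable {k : ℕ} [NeZero k] {L : Fin k → Fin 3 → ℂ} {n : ℕ} {K : Type} [Field K] [Algebra Fn K]
  [Algebra ℂ K] [IsScalarTower ℂ Fn K] {z : Fin k → K}

omit [NeZero k] in
theorem exists_ext_aux {F K : Type} [Field F] [CharZero F] [Field K] [Algebra F K]
    [FiniteDimensional F K] (D : F →+ F) (hD : ∀ a b, D (a * b) = a * D b + b * D a) :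
    ∃ E : K →+ K, (∀ a b, E (a * b) = a * E b + b * E a) ∧
      ∀ f, E (algebraMap F K f) = algebraMap F K (D f) := by
  let _ : Differential F := ⟨Derivation.mk' D.toIntLinearMap (fun a b => by
    simpa [smul_eq_mul] using hD a b)⟩
  let _ : Differential K := Differential.differentialFiniteDimensional F K
  have : DifferentialAlgebra F K := Differential.differentialAlgebraFiniteDimensional
  refine ⟨(Differential.deriv : Derivation ℤ K K).toLinearMap.toAddMonoidHom, fun a b => ?_,
    fun f => ?_⟩
  · exact (Differential.deriv : Derivation ℤ K K).leibniz a b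
  · exact DifferentialAlgebra.deriv_algebraMap f

theorem exists_ext [FiniteDimensional Fn K] (D : Derivation ℂ Fn Fn) :
    ∃ E : Derivation ℂ K K, ∀ f, E (algebraMap Fn K f) = algebraMap Fn K (D f) := by
  obtain ⟨E, hE, key⟩ := exists_ext_aux (F := Fn) (K := K) (D.toLinearMap.toAddMonoidHom)
    (fun a b => D.leibniz a b)
  have hc : ∀ c : ℂ, E (algebraMap ℂ K c) = 0 := by
    intro c
    rw [IsScalarTower.algebraMap_apply ℂ Fn K, key]
    have : (D.toLinearMap.toAddMonoidHom) (algebraMap ℂ Fn c) = 0 := D.map_algebraMap c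
    rw [this, map_zero]
  refine ⟨Derivation.mk'
    { toFun := fun x => E x
      map_add' := fun x y => map_add _ x y
      map_smul' := fun c x => ?_ } (fun a b => ?_), key⟩
  · simp only [RingHom.id_apply]
    rw [Algebra.smul_def, hE, hc, mul_zero, add_zero, Algebra.smul_def]
  · exact hE a b

omit [IsScalarTower ℂ Fn K] in
theorem ext_unique [FiniteDimensional Fn K] {E E' : Derivation ℂ K K}
    (h : ∀ f, E (algebraMap Fn K f) = E' (algebraMap Fn K f)) : E = E' := by
  let F : Derivation Fn K K := Derivation.mk'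
    { toFun := fun x => E x - E' x
      map_add' := fun x y => by simp only [map_add]; ring
      map_smul' := fun c x => by
        simp only [RingHom.id_apply, Algebra.smul_def, Derivation.leibniz, h,
          Algebra.algebraMap_self]
        ring }
    (fun a b => by
      simp only [LinearMap.coe_mk, AddHom.coe_mk, Derivation.leibniz, smul_eq_mul]
      ring)
  have hs : Subsingleton (Derivation Fn K K) := by
    have : Algebra.IsSeparable Fn K := inferInstance
    have : Algebra.FormallyUnramified Fn K := Algebra.FormallyUnramified.of_isSeparable Fn K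
    exact (KaehlerDifferential.linearMapEquivDerivation Fn K (M := K)).symm.toEquiv.subsingleton
  have hF : F = 0 := Subsingleton.elim _ _
  ext x
  have := DFunLike.congr_fun hF x
  have h2 : E x - E' x = 0 := this
  exact sub_eq_zero.mp h2

omit [IsScalarTower ℂ Fn K] in
theorem ext_root (hn : 0 < n) {D : Derivation ℂ Fn Fn} {E : Derivation ℂ K K}
    (hE : ∀ f, E (algebraMap Fn K f) = algebraMap Fn K (D f)) {x : K} {g : Fn} (hg : g ≠ 0)
    (hx : x ^ n = algebraMap Fn K g) : E x = algebraMap Fn K (D g / g / n) * x := by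
  have h1 : E (x ^ n) = algebraMap Fn K (D g) := by rw [hx, hE]
  rw [Derivation.leibniz_pow] at h1
  have hx0 : x ≠ 0 := by
    rintro rfl
    rw [zero_pow hn.ne'] at hx
    exact hg ((map_eq_zero (algebraMap Fn K)).mp hx.symm)
  have : CharZero K := charZero_of_injective_algebraMap (algebraMap ℂ K).injective
  have hn0 : (n : K) ≠ 0 := Nat.cast_ne_zero.mpr hn.ne'
  have hg0 : algebraMap Fn K g ≠ 0 := (map_ne_zero (algebraMap Fn K)).mpr hg
  rw [map_div₀, map_div₀, ← h1, map_natCast]
  simp only [smul_eq_mul, nsmul_eq_mul]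
  rw [← hx]
  have hxn : x ^ n = x ^ (n - 1) * x := by
    rw [← pow_succ]; congr 1; omega
  have hp : x ^ (n - 1) ≠ 0 := pow_ne_zero _ hx0
  rw [hxn]
  field_simp

theorem der_decomp (hC : Config L) (hn : 0 < n) (hz : Kum L n K z) (D : Derivation ℂ K K) :
    ∃ c : (Fin k → ℕ) → Derivation ℂ Fn Fn, ∀ f,
      D (algebraMap Fn K f) = ∑ a ∈ AA k n, algebraMap Fn K (c a f) * zp z a := by
  classical
  have uniq : ∀ u v : (Fin k → ℕ) → Fn,
      ∑ a ∈ AA k n, algebraMap Fn K (u a) * zp z a = ∑ a ∈ AA k n, algebraMap Fn K (v a) * zp z a →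
      ∀ a ∈ AA k n, u a = v a := by
    intro u v huv a ha
    have h0 : ∑ a ∈ AA k n, algebraMap Fn K (u a - v a) * zp z a = 0 := by
      simp only [map_sub, sub_mul, Finset.sum_sub_distrib]
      rw [huv, sub_self]
    exact sub_eq_zero.mp (kum_indep hC hn hz (fun a => u a - v a) h0 a ha)
  choose c hc using fun f : Fn => kum_span hC hn hz (D (algebraMap Fn K f))
  have hadd : ∀ a ∈ AA k n, ∀ f g, c (f + g) a = c f a + c g a := by
    intro a ha f g
    refine uniq (c (f + g)) (fun a => c f a + c g a) ?_ a ha
    rw [← hc, map_add, map_add, hc f, hc g, ← Finset.sum_add_distrib]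
    refine Finset.sum_congr rfl fun a _ => ?_
    rw [map_add, add_mul]
  have hsmul : ∀ a ∈ AA k n, ∀ (r : ℂ) f, c (r • f) a = r • c f a := by
    intro a ha r f
    refine uniq (c (r • f)) (fun a => r • c f a) ?_ a ha
    rw [← hc]
    have e : algebraMap Fn K (r • f) = r • algebraMap Fn K f := by
      rw [Algebra.algebraMap_eq_smul_one, Algebra.algebraMap_eq_smul_one, smul_assoc]
    rw [e, D.map_smul, hc f, Finset.smul_sum]
    refine Finset.sum_congr rfl fun a _ => ?_
    have e2 : algebraMap Fn K (r • c f a) = r • algebraMap Fn K (c f a) := by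
      rw [Algebra.algebraMap_eq_smul_one, Algebra.algebraMap_eq_smul_one, smul_assoc]
    rw [e2, smul_mul_assoc]
  have hmul : ∀ a ∈ AA k n, ∀ f g, c (f * g) a = f * c g a + g * c f a := by
    intro a ha f g
    refine uniq (c (f * g)) (fun a => f * c g a + g * c f a) ?_ a ha
    rw [← hc, map_mul, Derivation.leibniz, hc f, hc g, smul_eq_mul, smul_eq_mul, Finset.mul_sum,
      Finset.mul_sum, ← Finset.sum_add_distrib]
    refine Finset.sum_congr rfl fun a _ => ?_
    rw [map_add, map_mul, map_mul]
    ring
  refine ⟨fun a => if ha : a ∈ AA k n then Derivation.mk'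
    { toFun := fun f => c f a, map_add' := hadd a ha, map_smul' := fun r f => hsmul a ha r f }
    (fun f g => by simpa [smul_eq_mul] using hmul a ha f g) else 0, fun f => ?_⟩
  rw [hc f]
  refine Finset.sum_congr rfl fun a ha => ?_
  simp [ha]

end HKR
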