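import Pool.Agent.Lib.HKR.K2
import Pool.Agent.Lib.HKR.K6
/-!
HKR.K7 (local lemma: which z^c h_c * E preserve the integral closure).  hd : LocData; write ζ_c := zp z c * algebraMap (h c); then
ζ_c^n = algebraMap (ep_c s^(al c) t^(be c)) (zp_pow, LocData.pow), ζ_c ≠ 0.
(a) regular_of_int: Int (algebraMap f) → RLoc f by rloc_int (hd.reg; eval in Fn by injectivity of algebraMap).
(b) eig_int: c ∈ AA: Int (algebraMap x * ζ_c) ↔ Regular x.  (→) n-th power: Int (algebraMap (x^n ep s^al t^be)) so it is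
    regular, ep is a unit (Val.inv), so rloc_pow applies.  (←) x^n ep s^al t^be is regular, Int.of_pow
    (s, t are regular: psi X_0, psi X_1).
    Two factors: if al c + al c' < n, be c + be c' < n: Int (algebraMap x * (ζ_c * ζ_c')) → Regular x.
(c) reg_der: D s, D t regular → D f regular for every regular f: f psi Q = psi P; D (psi P) = psi(∂_0 P) D s + psi(∂_1 P) D t
    (a derivation of ℂ[X_0,X_1] is determined on X_0, X_1: `MvPolynomial.derivation_ext`/induction).
(d) preserves_to (→).  For f regular: Int (ζ_c E (algebraMap f)) = Int (algebraMap (D f) ζ_c), so D f regular.  If bs and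
    al c + 1 ≠ n: c' from exs; ζ_c' is integral (eig_int, x = 1); E ζ_c' = algebraMap (D g/g/n) ζ_c' with g = ep s^1 t^0 (ext_root), so
    D g / g = D ep/ep + D s/s, D ep/ep regular (unit); Int (algebraMap (D g/g/n) ζ_c ζ_c') so D g / g regular by (b) two
    factors (al c + 1 < n, be c + 0 < n).  So D s / s regular.  Same for t.
-/
open MvPolynomial
namespace HKR
variable {k : ℕ} [NeZero k] {L : Fin k → Fin 3 → ℂ} {n : ℕ} {K : Type} [Field K] [Algebra Fn K]
  [Algebra ℂ K] [IsScalarTower ℂ Fn K] {z : Fin k → K} {y : Pt} {s t : Fn} {a b : ℂ}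
  {bs bt : Prop} {al be : (Fin k → ℕ) → ℕ} {h : (Fin k → ℕ) → Fn}

omit [NeZero k] in
private theorem k7_pow {f : Fn} (h : Regular L y f) (j : ℕ) : Regular L y (f ^ j) := by
  induction j with
  | zero =>
    have h1 : Regular L y (algebraMap ℂ Fn 1) := Regular.const 1
    rwa [map_one, ← pow_zero f] at h1
  | succ j ih =>
    rw [pow_succ]
    exact ih.mul h

omit [NeZero k] in
private theorem k7_inv {f : Fn} {e : ℂ} (h : Val L y f e) (he : e ≠ 0) : Regular L y f⁻¹ :=
  regular_iff_val.2 ⟨_, h.inv he⟩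

omit [NeZero k] in
private theorem k7_val {f : Fn} {e : ℂ} (h : Val L y f e) : Regular L y f :=
  regular_iff_val.2 ⟨_, h⟩

private theorem k7_X0 : psi s t (X 0) = s := by simp [psi]

private theorem k7_X1 : psi s t (X 1) = t := by simp [psi]

private theorem k7_s (hd : LocData L n y s t a b bs bt al be h) : Regular L y s :=
  (hd.reg s).2 ⟨X 0, 1, by rw [map_one]; exact one_ne_zero, by rw [map_one, mul_one, k7_X0]⟩

private theorem k7_t (hd : LocData L n y s t a b bs bt al be h) : Regular L y t :=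
  (hd.reg t).2 ⟨X 1, 1, by rw [map_one]; exact one_ne_zero, by rw [map_one, mul_one, k7_X1]⟩

private theorem k7_s0 (hd : LocData L n y s t a b bs bt al be h) : s ≠ 0 := by
  intro h0
  exact MvPolynomial.X_ne_zero (R := ℂ) (0 : Fin 2) (hd.coord.inj (X 0) (by rw [k7_X0, h0]))

private theorem k7_t0 (hd : LocData L n y s t a b bs bt al be h) : t ≠ 0 := by
  intro h0
  exact MvPolynomial.X_ne_zero (R := ℂ) (1 : Fin 2) (hd.coord.inj (X 1) (by rw [k7_X1, h0]))

theorem regular_of_int (hd : LocData L n y s t a b bs bt al be h) {f : Fn}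
    (hf : Int L y (algebraMap Fn K f)) : Regular L y f := by
  obtain ⟨p, hp, hco, h0⟩ := hf
  rw [Polynomial.aeval_algebraMap_apply, map_eq_zero] at h0
  exact (hd.reg f).2 (rloc_int hd.coord p hp (fun m => (hd.reg _).1 (hco m)) h0)

private theorem k7_key (hn : 0 < n) (hd : LocData L n y s t a b bs bt al be h) {w : K} {ep : Fn}
    {e : ℂ} {α β : ℕ} (hep : Val L y ep e) (he : e ≠ 0) (hα : α < n) (hβ : β < n)
    (hw : w ^ n = algebraMap Fn K (ep * s ^ α * t ^ β)) {x : Fn} :
    Int L y (algebraMap Fn K x * w) ↔ Regular L y x := by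
  have hep0 : ep ≠ 0 := hep.ne_zero he
  have hpow : (algebraMap Fn K x * w) ^ n = algebraMap Fn K (x ^ n * (ep * s ^ α * t ^ β)) := by
    rw [mul_pow, hw, ← map_pow, ← map_mul]
  constructor
  · intro hx
    have h1 := hx.pow n
    rw [hpow] at h1
    have h2 := (regular_of_int hd h1).mul (k7_inv hep he)
    have h3 : x ^ n * (ep * s ^ α * t ^ β) * ep⁻¹ = x ^ n * s ^ α * t ^ β := by
      have h4 : x ^ n * (ep * s ^ α * t ^ β) * ep⁻¹ = x ^ n * s ^ α * t ^ β * (ep * ep⁻¹) := by ring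
      rw [h4, mul_inv_cancel₀ hep0, mul_one]
    rw [h3] at h2
    exact (hd.reg x).2 (rloc_pow hd.coord hα hβ ((hd.reg _).1 h2))
  · intro hx
    refine Int.of_pow hn hpow ((k7_pow hx n).mul ?_)
    exact ((k7_val hep).mul (k7_pow (k7_s hd) α)).mul (k7_pow (k7_t hd) β)

private theorem k7_zeta (hC : Config L) (hn : 0 < n) (hz : Kum L n K z) (c : Fin k → ℕ) {g : Fn}
    (hg : pw L c * h c ^ n = g) :
    (zp z c * algebraMap Fn K (h c)) ^ n = algebraMap Fn K g := by
  rw [mul_pow, zp_pow hC hn hz, ← map_pow, ← map_mul, hg]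

theorem eig_int (hC : Config L) (hn : 0 < n) (hz : Kum L n K z)
    (hd : LocData L n y s t a b bs bt al be h) {c : Fin k → ℕ} (hc : c ∈ AA k n) {x : Fn} :
    Int L y (algebraMap Fn K x * (zp z c * algebraMap Fn K (h c))) ↔ Regular L y x := by
  obtain ⟨ep, e, hep, he, hpow⟩ := hd.pow c hc
  exact k7_key hn hd hep he (hd.lt c hc).1 (hd.lt c hc).2 (k7_zeta hC hn hz c hpow)

theorem eig_int_two (hC : Config L) (hn : 0 < n) (hz : Kum L n K z)
    (hd : LocData L n y s t a b bs bt al be h) {c c' : Fin k → ℕ} (hc : c ∈ AA k n)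
    (hc' : c' ∈ AA k n) (h1 : al c + al c' < n) (h2 : be c + be c' < n) {x : Fn}
    (hx : Int L y (algebraMap Fn K x * ((zp z c * algebraMap Fn K (h c)) *
      (zp z c' * algebraMap Fn K (h c'))))) : Regular L y x := by
  obtain ⟨ep, e, hep, he, hpow⟩ := hd.pow c hc
  obtain ⟨ep', e', hep', he', hpow'⟩ := hd.pow c' hc'
  refine (k7_key hn hd (hep.mul hep') (mul_ne_zero he he') h1 h2 ?_).1 hx
  rw [mul_pow, k7_zeta hC hn hz c hpow, k7_zeta hC hn hz c' hpow', ← map_mul]
  congr 1
  rw [pow_add, pow_add]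
  ring

private theorem k7_chain (D : Derivation ℂ Fn Fn) (P : MvPolynomial (Fin 2) ℂ) :
    ∃ P0 P1 : MvPolynomial (Fin 2) ℂ, D (psi s t P) = psi s t P0 * D s + psi s t P1 * D t := by
  induction P using MvPolynomial.induction_on with
  | C c =>
    refine ⟨0, 0, ?_⟩
    have h1 : psi s t (C c) = algebraMap ℂ Fn c := by simp [psi]
    rw [h1, D.map_algebraMap]
    simp
  | add p q hp hq =>
    obtain ⟨p0, p1, hp⟩ := hp
    obtain ⟨q0, q1, hq⟩ := hq
    refine ⟨p0 + q0, p1 + q1, ?_⟩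
    rw [map_add, map_add, hp, hq, map_add, map_add]
    ring
  | mul_X p i hp =>
    obtain ⟨p0, p1, hp⟩ := hp
    rw [map_mul, D.leibniz, hp, smul_eq_mul, smul_eq_mul]
    fin_cases i
    · refine ⟨p0 * X 0 + p, p1 * X 0, ?_⟩
      simp only [Fin.zero_eta, map_add, map_mul, k7_X0]
      ring
    · refine ⟨p0 * X 1, p1 * X 1 + p, ?_⟩
      simp only [Fin.mk_one, map_add, map_mul, k7_X1]
      ring

private theorem k7_psi (hd : LocData L n y s t a b bs bt al be h) (P : MvPolynomial (Fin 2) ℂ) :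
    Regular L y (psi s t P) :=
  (hd.reg _).2 ⟨P, 1, by rw [map_one]; exact one_ne_zero, by rw [map_one, mul_one]⟩

theorem reg_der (hd : LocData L n y s t a b bs bt al be h) {D : Derivation ℂ Fn Fn}
    (hs : Regular L y (D s)) (ht : Regular L y (D t)) {f : Fn} (hf : Regular L y f) :
    Regular L y (D f) := by
  obtain ⟨P, Q, hQ, hfQ⟩ := (hd.reg f).1 hf
  obtain ⟨P0, P1, hP⟩ := k7_chain (s := s) (t := t) D P
  obtain ⟨Q0, Q1, hQ'⟩ := k7_chain (s := s) (t := t) D Q
  have hreg : ∀ R0 R1 : MvPolynomial (Fin 2) ℂ,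
      Regular L y (psi s t R0 * D s + psi s t R1 * D t) := fun R0 R1 =>
    ((k7_psi hd R0).mul hs).add ((k7_psi hd R1).mul ht)
  have h1 : D f * psi s t Q = D (psi s t P) - f * D (psi s t Q) := by
    rw [← hfQ, D.leibniz, smul_eq_mul, smul_eq_mul]
    ring
  have h2 : Regular L y (D f * psi s t Q) := by
    rw [h1, hP, hQ']
    exact (hreg _ _).sub (hf.mul (hreg _ _))
  obtain ⟨R, S, hS, hRS⟩ := (hd.reg _).1 h2
  refine (hd.reg _).2 ⟨R, Q * S, ?_, ?_⟩
  · rw [map_mul]
    exact mul_ne_zero hQ hS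
  · rw [map_mul, ← hRS]
    ring

/-- the logarithmic derivative of an eigenvector `ζ_c'` -/
private theorem k7_log (hC : Config L) (hn : 2 ≤ n) (hz : Kum L n K z)
    (hd : LocData L n y s t a b bs bt al be h) {c c' : Fin k → ℕ} (hc : c ∈ AA k n)
    (hc' : c' ∈ AA k n) (h1 : al c + al c' < n) (h2 : be c + be c' < n)
    {D : Derivation ℂ Fn Fn} {E : Derivation ℂ K K}
    (hE : ∀ f, E (algebraMap Fn K f) = algebraMap Fn K (D f))
    (hP : Preserves L y ((zp z c * algebraMap Fn K (h c)) • E)) {g : Fn} (hg0 : g ≠ 0)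
    (hg : pw L c' * h c' ^ n = g) : Regular L y (D g / g) := by
  have hn0 : 0 < n := by omega
  have hint : Int L y (zp z c' * algebraMap Fn K (h c')) := by
    have h3 := (eig_int hC hn0 hz hd hc' (x := 1)).2 (by
      have h4 : Regular L y (algebraMap ℂ Fn 1) := Regular.const 1
      rwa [map_one] at h4)
    rwa [map_one, one_mul] at h3
  have h3 := hP _ hint
  rw [Derivation.smul_apply, ext_root hn0 hE hg0 (k7_zeta hC hn0 hz c' hg), smul_eq_mul] at h3
  have h4 : zp z c * algebraMap Fn K (h c) *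
      (algebraMap Fn K (D g / g / n) * (zp z c' * algebraMap Fn K (h c'))) =
      algebraMap Fn K (D g / g / n) * ((zp z c * algebraMap Fn K (h c)) *
      (zp z c' * algebraMap Fn K (h c'))) := by ring
  rw [h4] at h3
  have h5 := eig_int_two hC hn0 hz hd hc hc' h1 h2 h3
  have h6 := h5.mul (Regular.const (n : ℂ))
  have h7 : D g / g / n * algebraMap ℂ Fn (n : ℂ) = D g / g := by
    rw [map_natCast]
    have : (n : Fn) ≠ 0 := by
      have : CharZero Fn := algebraRat.charZero Fn
      exact Nat.cast_ne_zero.2 hn0.ne'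
    field_simp
  rwa [h7] at h6

theorem preserves_to (hC : Config L) (hn : 2 ≤ n) (hz : Kum L n K z)
    (hd : LocData L n y s t a b bs bt al be h) {c : Fin k → ℕ} (hc : c ∈ AA k n)
    {D : Derivation ℂ Fn Fn} {E : Derivation ℂ K K}
    (hE : ∀ f, E (algebraMap Fn K f) = algebraMap Fn K (D f))
    (hP : Preserves L y ((zp z c * algebraMap Fn K (h c)) • E)) :
    LCond L y s t bs bt n (al c) (be c) D := by
  have hn0 : 0 < n := by omega
  have hreg : ∀ f, Regular L y f → Regular L y (D f) := by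
    intro f hf
    have h3 := hP _ (Int.of_regular (K := K) hf)
    rw [Derivation.smul_apply, hE, smul_eq_mul, mul_comm] at h3
    exact (eig_int hC hn0 hz hd hc).1 h3
  have hlt := hd.lt c hc
  have hlog : ∀ {u ep : Fn} {e : ℂ}, u ≠ 0 → Val L y ep e → e ≠ 0 →
      Regular L y (D (ep * u) / (ep * u)) → Regular L y (D u / u) := by
    intro u ep e hu hep he hr
    have hep0 : ep ≠ 0 := hep.ne_zero he
    have h3 : Regular L y (D ep * ep⁻¹) := (hreg ep (k7_val hep)).mul (k7_inv hep he)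
    have h4 : D u / u = D (ep * u) / (ep * u) - D ep * ep⁻¹ := by
      rw [D.leibniz, smul_eq_mul, smul_eq_mul]
      field_simp
      ring
    rw [h4]
    exact hr.sub h3
  refine ⟨hreg s (k7_s hd), hreg t (k7_t hd), fun hbs hne => ?_, fun hbt hne => ?_⟩
  · obtain ⟨c', hc', h1, h2⟩ := hd.exs hbs
    obtain ⟨ep, e, hep, he, hpow⟩ := hd.pow c' hc'
    rw [h1, h2, pow_one, pow_zero, mul_one] at hpow
    exact hlog (k7_s0 hd) hep he (k7_log hC hn hz hd hc hc' (by omega) (by omega) hE hP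
      (mul_ne_zero (hep.ne_zero he) (k7_s0 hd)) hpow)
  · obtain ⟨c', hc', h1, h2⟩ := hd.ext hbt
    obtain ⟨ep, e, hep, he, hpow⟩ := hd.pow c' hc'
    rw [h1, h2, pow_one, pow_zero, mul_one] at hpow
    exact hlog (k7_t0 hd) hep he (k7_log hC hn hz hd hc hc' (by omega) (by omega) hE hP
      (mul_ne_zero (hep.ne_zero he) (k7_t0 hd)) hpow)

end HKR
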