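import Pool.Agent.Lib.HKR.K7
/-!
HKR.K8 (local lemma, converse).  hd : LocData, ζ_c := zp z c * algebraMap (h c).
PROOF of preserves_of.  x integral.  x = Σ_{c'} (x_c') z^c' (kum_span) = Σ_{c'} algebraMap (f_c') ζ_c', f_c' := x_c'/h c'.  By int_eigen (T = AA, e = id; two
elements of AA congruent mod n are equal) each term is integral, so f_c' is regular (eig_int).  So it is enough:
ζ_c E (algebraMap f ζ_c') is integral for f regular.  It equals ζ_c ζ_c' algebraMap (D f + f (D g/g)/n), g = ep s^(al c') t^(be c')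
(Leibniz, ext_root), D g/g = D ep/ep + al c' D s/s + be c' D t/t.  D f, D ep/ep regular (reg_der; ep, ep⁻¹ regular), ζ_c, ζ_c' integral
(eig_int).  The term al c' D s/s ζ_c ζ_c': if al c' = 0 it is 0; else bs holds (nbs); if al c + 1 ≠ n then D s/s is
regular; if al c + 1 = n then (ζ_c ζ_c' algebraMap (1/s))^n = algebraMap (ep ep' s^(al c + al c' - n) t^(be c + be c')) with al c + al c' ≥ n, so
ζ_c ζ_c'/s is integral (Int.of_pow), times D s regular.  Same for t.
PROOF of comp_preserves.  D f = Σ_a (c a f) z^a on Fn.  Let E_a be the extension of c a (exists_ext).  D = Σ_a z^a • E_a by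
ext_unique.  Let x be integral, x = Σ_b algebraMap (x_b) z^b, each term integral (int_eigen).  It is enough: z^a E_a (x_b z^b) integral
for all a, b.  D (x_b z^b) is integral (hP) and = Σ_a z^a E_a(x_b z^b) = Σ_a algebraMap (r_a) z^(a+b), r_a ∈ Fn
(E_a z^b = algebraMap(..) z^b by ext_root, zp_pow).  int_eigen with T = AA, e a := a + b (pairwise incongruent): each term is integral.
-/
open MvPolynomial
namespace HKR
set_option linter.unusedSectionVars false
variable {k : ℕ} [NeZero k] {L : Fin k → Fin 3 → ℂ} {n : ℕ} {K : Type} [Field K] [Algebra Fn K]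
  [Algebra ℂ K] [IsScalarTower ℂ Fn K] {z : Fin k → K} {y : Pt} {s t : Fn} {a b : ℂ}
  {bs bt : Prop} {al be : (Fin k → ℕ) → ℕ} {h : (Fin k → ℕ) → Fn}

private theorem k8_aa_dvd {c : Fin k → ℕ} (hc : c ∈ AA k n) : n ∣ ∑ i, c i :=
  (Finset.mem_filter.1 hc).2

private theorem k8_aa_eq {c c' : Fin k → ℕ} (hc : c ∈ AA k n) (hc' : c' ∈ AA k n)
    (hm : ∀ m, c m ≡ c' m [MOD n]) : c = c' := by
  funext m
  have h1 := Finset.mem_range.1 (Fintype.mem_piFinset.1 (Finset.mem_filter.1 hc).1 m)
  have h2 := Finset.mem_range.1 (Fintype.mem_piFinset.1 (Finset.mem_filter.1 hc').1 m)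
  have h3 := hm m
  rwa [Nat.ModEq, Nat.mod_eq_of_lt h1, Nat.mod_eq_of_lt h2] at h3

private theorem k8_zp_add (z : Fin k → K) (c c' : Fin k → ℕ) :
    zp z (c + c') = zp z c * zp z c' := by
  simp only [zp, Pi.add_apply, pow_add, Finset.prod_mul_distrib]

private theorem k8_sx (hc : Coord s t) : s ≠ 0 := by
  intro h0
  have h1 : psi s t (X 0) = 0 := by
    rw [psi, MvPolynomial.aeval_X]; simpa using h0
  exact MvPolynomial.X_ne_zero (R := ℂ) (0 : Fin 2) (hc.inj _ h1)

private theorem k8_tx (hc : Coord s t) : t ≠ 0 := by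
  intro h0
  have h1 : psi s t (X 1) = 0 := by
    rw [psi, MvPolynomial.aeval_X]; simpa using h0
  exact MvPolynomial.X_ne_zero (R := ℂ) (1 : Fin 2) (hc.inj _ h1)

private theorem k8_rs (hd : LocData L n y s t a b bs bt al be h) : Regular L y s := by
  rw [hd.reg]
  refine ⟨X 0, 1, by simp, ?_⟩
  rw [map_one, mul_one, psi, MvPolynomial.aeval_X]; simp

private theorem k8_rt (hd : LocData L n y s t a b bs bt al be h) : Regular L y t := by
  rw [hd.reg]
  refine ⟨X 1, 1, by simp, ?_⟩
  rw [map_one, mul_one, psi, MvPolynomial.aeval_X]; simp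

private theorem k8_rpow {f : Fn} (hf : Regular L y f) (j : ℕ) : Regular L y (f ^ j) := by
  induction j with
  | zero => rw [pow_zero]; simpa using Regular.const (L := L) (y := y) (1 : ℂ)
  | succ j ih => rw [pow_succ]; exact ih.mul hf

private theorem k8_rnat (j : ℕ) : Regular L y (j : Fn) := by
  simpa using Regular.const (L := L) (y := y) (j : ℂ)

private theorem k8_rinv (j : ℕ) : Regular L y ((j : Fn)⁻¹) := by
  have := Regular.const (L := L) (y := y) ((j : ℂ)⁻¹)
  rwa [map_inv₀, map_natCast] at this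

private theorem k8_zeta_int (hC : Config L) (hn : 0 < n) (hz : Kum L n K z)
    (hd : LocData L n y s t a b bs bt al be h) {c : Fin k → ℕ} (hc : c ∈ AA k n) :
    Int L y (zp z c * algebraMap Fn K (h c)) := by
  have h1 := (eig_int (x := 1) hC hn hz hd hc).2
    (by simpa using Regular.const (L := L) (y := y) (1 : ℂ))
  rwa [map_one, one_mul] at h1

private theorem k8_dlog {D : Derivation ℂ Fn Fn} {x x' : Fn} (hx : x ≠ 0) (hx' : x' ≠ 0) :
    D (x * x') / (x * x') = D x / x + D x' / x' := by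
  rw [Derivation.leibniz, smul_eq_mul, smul_eq_mul]
  field_simp
  ring

private theorem k8_dlog_pow {D : Derivation ℂ Fn Fn} {x : Fn} (hx : x ≠ 0) (j : ℕ) :
    D (x ^ j) / (x ^ j) = j * (D x / x) := by
  induction j with
  | zero => simp
  | succ j ih =>
    rw [pow_succ, k8_dlog (pow_ne_zero _ hx) hx, ih]
    push_cast
    ring

/-- the term with `D s / s` -/
private theorem k8_term (hn : 0 < n) {ζ ζ' : K} {x g g' : Fn} (hx : x ≠ 0) {e e' : ℕ}
    (hp : ζ ^ n = algebraMap Fn K (g * x ^ e)) (hp' : ζ' ^ n = algebraMap Fn K (g' * x ^ e'))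
    (hg : Regular L y g) (hg' : Regular L y g') (hrx : Regular L y x)
    (hi : Int L y ζ) (hi' : Int L y ζ') {Dx : Fn} (hDx : Regular L y Dx)
    (hcase : e' ≠ 0 → e + 1 ≠ n → Regular L y (Dx / x)) :
    Int L y (algebraMap Fn K ((e' : Fn) * (Dx / x)) * (ζ * ζ')) := by
  rcases Nat.eq_zero_or_pos e' with h0 | h0
  · subst h0
    have : Int L y (algebraMap Fn K (0 : Fn)) := by
      apply Int.of_regular
      simpa using Regular.const (L := L) (y := y) (0 : ℂ)
    simpa using this
  · by_cases h1 : e + 1 = n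
    · have h2 : (algebraMap Fn K x⁻¹ * (ζ * ζ')) ^ n =
          algebraMap Fn K (g * g' * x ^ (e + e' - n)) := by
        rw [mul_pow, mul_pow, hp, hp', ← map_pow, ← map_mul, ← map_mul]
        congr 1
        have h3 : x ^ (e + e') = x ^ (e + e' - n) * x ^ n := by
          rw [← pow_add]; congr 1; omega
        calc x⁻¹ ^ n * (g * x ^ e * (g' * x ^ e'))
            = x⁻¹ ^ n * (g * g' * x ^ (e + e')) := by rw [pow_add]; ring
          _ = g * g' * x ^ (e + e' - n) * (x⁻¹ ^ n * x ^ n) := by rw [h3]; ring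
          _ = g * g' * x ^ (e + e' - n) := by
            rw [← mul_pow, inv_mul_cancel₀ hx, one_pow, mul_one]
      have h4 : Int L y (algebraMap Fn K x⁻¹ * (ζ * ζ')) :=
        Int.of_pow hn h2 ((hg.mul hg').mul (k8_rpow hrx _))
      have h5 : Int L y (algebraMap Fn K ((e' : Fn) * Dx)) :=
        Int.of_regular ((k8_rnat _).mul hDx)
      have h6 := h5.mul h4
      have h7 : algebraMap Fn K ((e' : Fn) * (Dx / x)) * (ζ * ζ') =
          algebraMap Fn K ((e' : Fn) * Dx) * (algebraMap Fn K x⁻¹ * (ζ * ζ')) := by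
        rw [div_eq_mul_inv]
        simp only [map_mul]
        ring
      rw [h7]; exact h6
    · have h2 := hcase (by omega) h1
      exact (Int.of_regular ((k8_rnat _).mul h2)).mul (hi.mul hi')

theorem preserves_of (hC : Config L) (hn : 2 ≤ n) (hz : Kum L n K z)
    (hd : LocData L n y s t a b bs bt al be h) {c : Fin k → ℕ} (hc : c ∈ AA k n)
    {D : Derivation ℂ Fn Fn} {E : Derivation ℂ K K}
    (hE : ∀ f, E (algebraMap Fn K f) = algebraMap Fn K (D f))
    (hL : LCond L y s t bs bt n (al c) (be c) D) :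
    Preserves L y ((zp z c * algebraMap Fn K (h c)) • E) := by
  have hn' : 0 < n := by omega
  obtain ⟨hL1, hL2, hL3, hL4⟩ := hL
  have hs0 := k8_sx hd.coord
  have ht0 := k8_tx hd.coord
  have hrs := k8_rs hd
  have hrt := k8_rt hd
  -- the key computation
  have key : ∀ c' ∈ AA k n, ∀ f, Regular L y f →
      Int L y (zp z c * algebraMap Fn K (h c) *
        E (algebraMap Fn K f * (zp z c' * algebraMap Fn K (h c')))) := by
    intro c' hc' f hf
    obtain ⟨ep, v, hv, hv0, hp⟩ := hd.pow c hc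
    obtain ⟨ep', v', hv', hv0', hp'⟩ := hd.pow c' hc'
    have hi := k8_zeta_int hC hn' hz hd hc
    have hi' := k8_zeta_int hC hn' hz hd hc'
    have hz1 : (zp z c * algebraMap Fn K (h c)) ^ n =
        algebraMap Fn K (ep * s ^ al c * t ^ be c) := by
      rw [mul_pow, zp_pow hC hn' hz, ← map_pow, ← map_mul, hp]
    have hz2 : (zp z c' * algebraMap Fn K (h c')) ^ n =
        algebraMap Fn K (ep' * s ^ al c' * t ^ be c') := by
      rw [mul_pow, zp_pow hC hn' hz, ← map_pow, ← map_mul, hp']
    set ζ := zp z c * algebraMap Fn K (h c) with hζ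
    set ζ' := zp z c' * algebraMap Fn K (h c') with hζ'
    have hep := regular_iff_val.2 ⟨_, hv⟩
    have hep' := regular_iff_val.2 ⟨_, hv'⟩
    have hep0' := hv'.ne_zero hv0'
    have hepi' := regular_iff_val.2 ⟨_, hv'.inv hv0'⟩
    have hg : ep' * s ^ al c' * t ^ be c' ≠ 0 :=
      mul_ne_zero (mul_ne_zero hep0' (pow_ne_zero _ hs0)) (pow_ne_zero _ ht0)
    have hEz := ext_root hn' hE hg hz2
    have hlog : D (ep' * s ^ al c' * t ^ be c') / (ep' * s ^ al c' * t ^ be c') =
        D ep' / ep' + al c' * (D s / s) + be c' * (D t / t) := by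
      rw [k8_dlog (mul_ne_zero hep0' (pow_ne_zero _ hs0)) (pow_ne_zero _ ht0),
        k8_dlog hep0' (pow_ne_zero _ hs0), k8_dlog_pow hs0, k8_dlog_pow ht0]
    rw [hlog] at hEz
    have hDf := reg_der hd hL1 hL2 hf
    have hDep := reg_der hd hL1 hL2 hep'
    -- the three terms
    have t1 : Int L y (algebraMap Fn K (D f + f * (D ep' * ep'⁻¹) * (n : Fn)⁻¹) * (ζ * ζ')) :=
      (Int.of_regular (hDf.add ((hf.mul (hDep.mul hepi')).mul (k8_rinv n)))).mul (hi.mul hi')
    have t2 : Int L y (algebraMap Fn K ((al c' : Fn) * (D s / s)) * (ζ * ζ')) := by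
      refine k8_term (g := ep * t ^ be c) (g' := ep' * t ^ be c') (e := al c) hn' hs0 ?_ ?_
        (hep.mul (k8_rpow hrt _)) (hep'.mul (k8_rpow hrt _)) hrs hi hi' hL1 ?_
      · rw [hz1]; congr 1; ring
      · rw [hz2]; congr 1; ring
      · intro h0 h1
        apply hL3 _ h1
        by_contra h2
        exact h0 (hd.nbs h2 c' hc')
    have t3 : Int L y (algebraMap Fn K ((be c' : Fn) * (D t / t)) * (ζ * ζ')) := by
      refine k8_term (g := ep * s ^ al c) (g' := ep' * s ^ al c') (e := be c) hn' ht0 ?_ ?_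
        (hep.mul (k8_rpow hrs _)) (hep'.mul (k8_rpow hrs _)) hrt hi hi' hL2 ?_
      · rw [hz1]
      · rw [hz2]
      · intro h0 h1
        apply hL4 _ h1
        by_contra h2
        exact h0 (hd.nbt h2 c' hc')
    have t4 : Int L y (algebraMap Fn K (f * (n : Fn)⁻¹)) := Int.of_regular (hf.mul (k8_rinv n))
    have t5 := t1.add (t4.mul (t2.add t3))
    have t6 : ζ * E (algebraMap Fn K f * ζ') =
        algebraMap Fn K (D f + f * (D ep' * ep'⁻¹) * (n : Fn)⁻¹) * (ζ * ζ') +
          algebraMap Fn K (f * (n : Fn)⁻¹) *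
            (algebraMap Fn K ((al c' : Fn) * (D s / s)) * (ζ * ζ') +
              algebraMap Fn K ((be c' : Fn) * (D t / t)) * (ζ * ζ')) := by
      rw [Derivation.leibniz, hEz, hE, smul_eq_mul, smul_eq_mul]
      simp only [map_add, map_mul, div_eq_mul_inv]
      ring
    rw [t6]; exact t5
  intro x hx
  obtain ⟨w, hw⟩ := kum_span hC hn' hz x
  have hterm := int_eigen hC hn' hz (AA k n) (fun c => c) w (fun i hi => k8_aa_dvd hi)
    (fun i hi j hj hm => k8_aa_eq hi hj hm) (y := y) (by rw [← hw]; exact hx)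
  have hE1 : ((zp z c * algebraMap Fn K (h c)) • E) x =
      ∑ c' ∈ AA k n, zp z c * algebraMap Fn K (h c) *
        E (algebraMap Fn K (w c' / h c') * (zp z c' * algebraMap Fn K (h c'))) := by
    rw [Derivation.smul_apply, smul_eq_mul, hw, map_sum, Finset.mul_sum]
    refine Finset.sum_congr rfl fun c' hc' => ?_
    congr 2
    have h0 : algebraMap Fn K (h c') ≠ 0 := by
      rw [Ne, map_eq_zero]; exact hd.hne c'
    rw [map_div₀]
    field_simp
  rw [hE1]
  refine Int.sum _ _ fun c' hc' => key c' hc' _ ?_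
  rw [← eig_int hC hn' hz hd hc']
  have h0 : algebraMap Fn K (h c') ≠ 0 := by
    rw [Ne, map_eq_zero]; exact hd.hne c'
  have h1 : algebraMap Fn K (w c' / h c') * (zp z c' * algebraMap Fn K (h c')) =
      algebraMap Fn K (w c') * zp z c' := by
    rw [map_div₀]
    field_simp
  rw [h1]
  exact hterm c' hc'

private theorem k8_sum_apply {ι : Type} (T : Finset ι) (F : ι → Derivation ℂ K K) (x : K) :
    (∑ i ∈ T, F i) x = ∑ i ∈ T, F i x := by
  classical
  induction T using Finset.induction_on with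
  | empty => simp
  | insert i T hi ih => rw [Finset.sum_insert hi, Finset.sum_insert hi, Derivation.add_apply, ih]

theorem comp_preserves (hC : Config L) (hn : 2 ≤ n) (hz : Kum L n K z)
    {D : Derivation ℂ K K} {c : (Fin k → ℕ) → Derivation ℂ Fn Fn}
    (hD : ∀ f, D (algebraMap Fn K f) = ∑ a ∈ AA k n, algebraMap Fn K (c a f) * zp z a)
    (hP : Preserves L y D) {a : Fin k → ℕ} (ha : a ∈ AA k n) {E : Derivation ℂ K K}
    (hE : ∀ f, E (algebraMap Fn K f) = algebraMap Fn K (c a f)) :
    Preserves L y (zp z a • E) := by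
  have hn' : 0 < n := by omega
  have := kum_fin hC hn' hz
  choose E' hE' using fun b => exists_ext (K := K) (c b)
  have hEa : E = E' a := ext_unique fun f => by rw [hE, hE']
  have hDs : D = ∑ b ∈ AA k n, zp z b • E' b := by
    apply ext_unique
    intro f
    rw [hD, k8_sum_apply]
    refine Finset.sum_congr rfl fun b _ => ?_
    rw [Derivation.smul_apply, smul_eq_mul, hE', mul_comm]
  intro x hx
  obtain ⟨w, hw⟩ := kum_span hC hn' hz x
  have hterm := int_eigen hC hn' hz (AA k n) (fun c => c) w (fun i hi => k8_aa_dvd hi)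
    (fun i hi j hj hm => k8_aa_eq hi hj hm) (y := y) (by rw [← hw]; exact hx)
  have hE1 : (zp z a • E) x = ∑ b ∈ AA k n, zp z a * E' a (algebraMap Fn K (w b) * zp z b) := by
    rw [Derivation.smul_apply, smul_eq_mul, hw, map_sum, Finset.mul_sum, hEa]
  rw [hE1]
  refine Int.sum _ _ fun b hb => ?_
  have hpw : pw L b ≠ 0 := by
    intro h0
    have h1 := zp_pow hC hn' hz b
    rw [h0, map_zero] at h1
    exact kum_ne hC hn' hz b (pow_eq_zero_iff (by omega) |>.1 h1)
  have hroot : ∀ a', E' a' (zp z b) = algebraMap Fn K (c a' (pw L b) / pw L b / n) * zp z b :=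
    fun a' => ext_root hn' (hE' a') hpw (zp_pow hC hn' hz b)
  have hval : ∀ a', zp z a' * E' a' (algebraMap Fn K (w b) * zp z b) =
      algebraMap Fn K (w b * (c a' (pw L b) / pw L b / n) + c a' (w b)) * zp z (a' + b) := by
    intro a'
    rw [Derivation.leibniz, hroot, hE', smul_eq_mul, smul_eq_mul, k8_zp_add, map_add, map_mul]
    ring
  have h2 := hP _ (hterm b hb)
  have h3 : D (algebraMap Fn K (w b) * zp z b) =
      ∑ a' ∈ AA k n, algebraMap Fn K (w b * (c a' (pw L b) / pw L b / n) + c a' (w b)) *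
        zp z (a' + b) := by
    rw [hDs, k8_sum_apply]
    refine Finset.sum_congr rfl fun a' _ => ?_
    rw [Derivation.smul_apply, smul_eq_mul, hval]
  rw [h3] at h2
  rw [hval]
  refine int_eigen hC hn' hz (AA k n) (fun a' => a' + b) _ (fun i hi => ?_) (fun i hi j hj hm => ?_)
    h2 a ha
  · have h4 : ∑ m, (i + b) m = ∑ m, i m + ∑ m, b m := by
      simp only [Pi.add_apply, Finset.sum_add_distrib]
    rw [h4]
    exact dvd_add (k8_aa_dvd hi) (k8_aa_dvd hb)
  · apply k8_aa_eq hi hj
    intro m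
    exact Nat.ModEq.add_right_cancel' (b m) (hm m)

end HKR
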