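import Pool.Agent.Lib.HKR.KDefs
/-!
HKR.K9 (choice of lines at a point; linear algebra in ℂ^3).
sel_non: q ≠ 0 not multiple, so at most two lines pass through q.  If two lines i ≠ j pass through q: take them, l a
line off q (nonconc).  If exactly one line i: j any other line, l a line not through a common point v ≠ 0 of
i, j (nonconc); L j ⬝ q ≠ 0, L l ⬝ q ≠ 0.  If none: three independent lines.  Independence: L i, L j independent,
and L l not vanishing at the common point v = crossProduct (L i) (L j) means ![L i, L j, L l] independent.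
sel_mult: q = y.q multiple, at least three lines through q.  At most one of them vanishes at w (two lines through
q and w are proportional, as q, w are independent): call it i if it exists, else i any line through q;
j another line through q (L j ⬝ w ≠ 0); l a line off q (nonconc).  L j, L i span the forms vanishing at q.
-/
open MvPolynomial
namespace HKR
variable {k : ℕ} {L : Fin k → Fin 3 → ℂ}

private theorem k9_ind3 {a b c q : Fin 3 → ℂ} (hab : LinearIndependent ℂ ![a, b])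
    (ha : a ⬝ᵥ q = 0) (hb : b ⬝ᵥ q = 0) (hc : c ⬝ᵥ q ≠ 0) : LinearIndependent ℂ ![a, b, c] := by
  rw [Fintype.linearIndependent_iff]
  intro g hg
  simp only [Fin.sum_univ_three, Matrix.cons_val_zero, Matrix.cons_val_one, Matrix.cons_val] at hg
  have h2 := congrArg (fun v => v ⬝ᵥ q) hg
  simp only [add_dotProduct, smul_dotProduct, ha, hb, smul_eq_mul, mul_zero, zero_add,
    zero_dotProduct] at h2
  have g2 : g 2 = 0 := by
    rcases mul_eq_zero.1 h2 with h | h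
    · exact h
    · exact absurd h hc
  rw [g2, zero_smul, add_zero] at hg
  obtain ⟨g0, g1⟩ := LinearIndependent.pair_iff.1 hab _ _ hg
  intro i
  fin_cases i
  · exact g0
  · exact g1
  · exact g2

private theorem k9_cross_ne {a b : Fin 3 → ℂ} (hab : LinearIndependent ℂ ![a, b]) :
    crossProduct a b ≠ 0 := crossProduct_ne_zero_iff_linearIndependent.2 hab

/-- a vector orthogonal to two independent vectors is a multiple of their cross product -/
private theorem k9_mul {a b x : Fin 3 → ℂ} (hab : LinearIndependent ℂ ![a, b])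
    (ha : a ⬝ᵥ x = 0) (hb : b ⬝ᵥ x = 0) : ∃ α : ℂ, α • crossProduct a b = x := by
  by_contra hcon
  push Not at hcon
  have h1 : LinearIndependent ℂ ![crossProduct a b, x] :=
    (LinearIndependent.pair_iff' (k9_cross_ne hab)).2 hcon
  apply crossProduct_ne_zero_iff_linearIndependent.2 h1
  rw [cross_cross_eq_smul_sub_smul]
  rw [ha, hb]
  simp

private theorem k9_two {a b q w : Fin 3 → ℂ} (hab : LinearIndependent ℂ ![a, b])
    (hqw : LinearIndependent ℂ ![q, w]) (haq : a ⬝ᵥ q = 0) (hbq : b ⬝ᵥ q = 0)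
    (haw : a ⬝ᵥ w = 0) (hbw : b ⬝ᵥ w = 0) : False := by
  obtain ⟨α, hα⟩ := k9_mul hab haq hbq
  obtain ⟨β, hβ⟩ := k9_mul hab haw hbw
  have h1 : β • q + (-α) • w = 0 := by
    rw [← hα, ← hβ, smul_smul, smul_smul, neg_mul, neg_smul, mul_comm, add_neg_cancel]
  obtain ⟨h2, h3⟩ := LinearIndependent.pair_iff.1 hqw _ _ h1
  have hw : w = 0 := by rw [← hβ, h2, zero_smul]
  have h4 : (0 : ℂ) • q + (1 : ℂ) • w = 0 := by rw [hw]; simp
  exact one_ne_zero (LinearIndependent.pair_iff.1 hqw _ _ h4).2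

private theorem k9_kernel (a : Fin 3 → ℂ) : ∃ v : Fin 3 → ℂ, v ≠ 0 ∧ a ⬝ᵥ v = 0 := by
  by_cases h : a 0 = 0 ∧ a 1 = 0
  · refine ⟨![1, 0, 0], ?_, ?_⟩
    · intro h0
      have := congrFun h0 0
      simp at this
    · simp [dotProduct, Fin.sum_univ_three, h.1]
  · refine ⟨![a 1, -a 0, 0], ?_, ?_⟩
    · intro h0
      have e0 := congrFun h0 0
      have e1 := congrFun h0 1
      simp at e0 e1
      exact h ⟨e1, e0⟩
    · simp [dotProduct, Fin.sum_univ_three]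
      ring

private theorem k9_off (hC : Config L) {q : Fin 3 → ℂ} (hq0 : q ≠ 0) : ∃ l, L l ⬝ᵥ q ≠ 0 := by
  by_contra hcon
  push Not at hcon
  exact hq0 (hC.nonconc q hcon)

theorem sel_non (hC : Config L) {q : Fin 3 → ℂ} (hq0 : q ≠ 0) (hq : ¬ Multiple L q) :
    ∃ i j l : Fin k, LinearIndependent ℂ ![L i, L j, L l] ∧ L l ⬝ᵥ q ≠ 0 ∧
      ∀ m, m ≠ i → m ≠ j → L m ⬝ᵥ q ≠ 0 := by
  by_cases hA : ∃ i j : Fin k, i ≠ j ∧ L i ⬝ᵥ q = 0 ∧ L j ⬝ᵥ q = 0
  · obtain ⟨i, j, hij, hi, hj⟩ := hA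
    obtain ⟨l, hl⟩ := k9_off hC hq0
    refine ⟨i, j, l, k9_ind3 (hC.ind i j hij) hi hj hl, hl, ?_⟩
    intro m hmi hmj hm
    exact hq ⟨i, j, m, hij, hmi.symm, hmj.symm, hi, hj, hm⟩
  · obtain ⟨i, hi⟩ : ∃ i : Fin k, ∀ m, m ≠ i → L m ⬝ᵥ q ≠ 0 := by
      by_cases hS : ∃ i : Fin k, L i ⬝ᵥ q = 0
      · obtain ⟨i, hi⟩ := hS
        exact ⟨i, fun m hm h => hA ⟨m, i, hm, h, hi⟩⟩
      · obtain ⟨i, _⟩ := k9_off hC hq0
        exact ⟨i, fun m _ h => hS ⟨m, h⟩⟩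
    obtain ⟨v, hv0, hv⟩ := k9_kernel (L i)
    obtain ⟨j, hj⟩ := k9_off hC hv0
    have hij : i ≠ j := by
      rintro rfl
      exact hj hv
    have hind := hC.ind i j hij
    obtain ⟨l, hl⟩ := k9_off hC (k9_cross_ne hind)
    have hli : l ≠ i := by
      rintro rfl
      exact hl (dot_self_cross _ _)
    exact ⟨i, j, l, k9_ind3 hind (dot_self_cross _ _) (dot_cross_self _ _) hl, hi l hli,
      fun m hm _ => hi m hm⟩

theorem sel_mult (hC : Config L) {y : Pt} (hq : Multiple L y.q) :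
    ∃ i j l : Fin k, i ≠ j ∧ L i ⬝ᵥ y.q = 0 ∧ L j ⬝ᵥ y.q = 0 ∧ L j ⬝ᵥ y.w ≠ 0 ∧ L l ⬝ᵥ y.q ≠ 0 ∧
      LinearIndependent ℂ ![L j, L i, L l] ∧ ∀ m, L m ⬝ᵥ y.q = 0 → m ≠ i → L m ⬝ᵥ y.w ≠ 0 := by
  have hq0 : y.q ≠ 0 := by
    intro h
    have h4 : (1 : ℂ) • y.q + (0 : ℂ) • y.w = 0 := by rw [h]; simp
    exact one_ne_zero (LinearIndependent.pair_iff.1 y.ind _ _ h4).1
  obtain ⟨l, hl⟩ := k9_off hC hq0
  obtain ⟨a, b, c, hab, hac, hbc, ha, hb, hc⟩ := hq
  obtain ⟨i, hi, hall⟩ : ∃ i : Fin k, L i ⬝ᵥ y.q = 0 ∧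
      ∀ m, L m ⬝ᵥ y.q = 0 → m ≠ i → L m ⬝ᵥ y.w ≠ 0 := by
    by_cases hS : ∃ i : Fin k, L i ⬝ᵥ y.q = 0 ∧ L i ⬝ᵥ y.w = 0
    · obtain ⟨i, hi, hiw⟩ := hS
      exact ⟨i, hi, fun m hm hmi hmw => k9_two (hC.ind m i hmi) y.ind hm hi hmw hiw⟩
    · exact ⟨a, ha, fun m hm _ hmw => hS ⟨m, hm, hmw⟩⟩
  obtain ⟨j, hj, hji⟩ : ∃ j : Fin k, L j ⬝ᵥ y.q = 0 ∧ j ≠ i := by
    by_cases h : a = i
    · exact ⟨b, hb, fun h' => hab (h.trans h'.symm)⟩
    · exact ⟨a, ha, h⟩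
  exact ⟨i, j, l, hji.symm, hi, hj, hall j hj hji, hl, k9_ind3 (hC.ind j i hji) hj hi hl, hall⟩

end HKR
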