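import Pool.Agent.Lib.HKR.M1
import Pool.Agent.Lib.HKR.B4
/-!
HKR.M2.  (a) mconst: V with RegS y ((η y)⁻¹ V) for all y is a constant power series.
PROOF.  constant coefficient v0 of V is regular at all y, so constant (h0_zero); V - v0 = X V1, and (η y)⁻¹(V - v0) =
X (η y)⁻¹(V1), so V1 has the same property; recursion gives v = Σ v_n X^n (define v_n by iterating the choice, or
prove by induction on n that coeff n V is constant: if coefficients below n are constants, subtract them).
(b) mult_cousin: for all i, j there is U, constant coefficient ℓi/ℓj, with RegS y ((η y)⁻¹(U) * C(ℓj/ℓi)) for all y.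
PROOF.  Build U_m, m ≥ 1, with U_(m+1) ≡ U_m mod X^m, constant coefficient r := ℓi/ℓj, and for all y the coefficients
below m of V_y := (η y)⁻¹(U_m) * C(r⁻¹) regular at y.  U_1 = C r.  Step: r_y := coeff m V_y.  For y' ∈ U_y put
θ := (η y')⁻¹ * η y, LogA at y'.  V_y' = (η y')⁻¹(U_m) r⁻¹ = θ((η y)⁻¹ U_m) r⁻¹ = θ(V_y) * (θ(C r) r⁻¹), the second factor W is
RegS y' with constant coefficient 1.  θ⁻¹ (and W⁻¹) preserve RegS y' (M1), so V_y = θ⁻¹(V_y' W⁻¹) has coefficients below m
regular at y' too (coefficients below m of θ⁻¹(g) only depend on those of g, coeff_app).  Then coeff m V_y' =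
coeff m θ(V_y) + (regular at y') = r_y + (regular at y').  So y ↦ r_y is LC for Sect 0 0 (Regular): hcous0: R with
R - r_y regular at y for all y.  U_(m+1) := U_m (1 - C R X^m): (η y)⁻¹(1 - C R X^m) ≡ 1 - R X^m mod X^(m+1), and constant
coefficient of V_y is 1, so the coefficient m becomes r_y - R.  Limit: U := mk (n ↦ coeff n U_(n+1)).
-/
open MvPolynomial
namespace HKR
variable {k : ℕ} {L : Fin k → Fin 3 → ℂ}

private theorem m2_dvd (φ : ArcAut Fn) {f g : PowerSeries Fn} {m : ℕ}
    (h : PowerSeries.X ^ m ∣ f - g) :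
    PowerSeries.X ^ m ∣ φ.toEquiv f - φ.toEquiv g := by
  obtain ⟨u, hu⟩ := h
  rw [← map_sub, hu, map_mul, map_pow, φ.map_X]
  exact Dvd.intro _ rfl

private theorem m2_coeff {f g : PowerSeries Fn} {m n : ℕ} (h : PowerSeries.X ^ m ∣ f - g)
    (hn : n < m) : PowerSeries.coeff n f = PowerSeries.coeff n g := by
  rw [PowerSeries.X_pow_dvd_iff] at h
  have h1 := h n hn
  rw [map_sub, sub_eq_zero] at h1
  exact h1

/-- splitting off the first `m` coefficients -/
private theorem m2_split (f : PowerSeries Fn) (m : ℕ) : ∃ a b : PowerSeries Fn,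
    f = a + PowerSeries.X ^ m * b ∧ (∀ n, n < m → PowerSeries.coeff n a = PowerSeries.coeff n f) ∧
      (∀ n, m ≤ n → PowerSeries.coeff n a = 0) ∧
      PowerSeries.constantCoeff b = PowerSeries.coeff m f := by
  set a : PowerSeries Fn := PowerSeries.mk fun n => if n < m then PowerSeries.coeff n f else 0
    with ha
  have h1 : PowerSeries.X ^ m ∣ f - a := by
    rw [PowerSeries.X_pow_dvd_iff]
    intro n hn
    rw [map_sub, ha, PowerSeries.coeff_mk, if_pos hn, sub_self]
  obtain ⟨b, hb⟩ := h1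
  have hf : f = a + PowerSeries.X ^ m * b := by rw [← hb]; ring
  have ha2 : ∀ n, m ≤ n → PowerSeries.coeff n a = 0 := by
    intro n hn
    rw [ha, PowerSeries.coeff_mk, if_neg (by omega)]
  refine ⟨a, b, hf, ?_, ha2, ?_⟩
  · intro n hn
    rw [ha, PowerSeries.coeff_mk, if_pos hn]
  · have h2 : PowerSeries.coeff m f = PowerSeries.coeff m (a + PowerSeries.X ^ m * b) := by
      rw [← hf]
    rw [h2, map_add, ha2 m le_rfl, zero_add, PowerSeries.coeff_X_pow_mul', if_pos le_rfl,
      Nat.sub_self, PowerSeries.coeff_zero_eq_constantCoeff_apply]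

theorem mconst (hC : Config L) {η : Pt → ArcAut Fn} {V : PowerSeries Fn}
    (hV : ∀ y, RegS L y (((η y)⁻¹).toEquiv V)) :
    ∃ v : PowerSeries ℂ, V = PowerSeries.map (algebraMap ℂ Fn) v := by
  have key : ∀ n, ∃ c : ℂ, PowerSeries.coeff n V = algebraMap ℂ Fn c := by
    intro n
    induction n using Nat.strong_induction_on with
    | _ n ih =>
      have hreg : ∀ y, Regular L y (PowerSeries.coeff n V) := by
        intro y
        obtain ⟨a, b, hab, h1, h2, h3⟩ := m2_split V n
        have ha : ((η y)⁻¹).toEquiv a = a := by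
          have h4 : a = ∑ j ∈ Finset.range n,
              PowerSeries.C (PowerSeries.coeff j a) * PowerSeries.X ^ j := by
            ext m
            rw [map_sum]
            by_cases hm : m < n
            · rw [Finset.sum_eq_single m]
              · rw [PowerSeries.coeff_C_mul, PowerSeries.coeff_X_pow, if_pos rfl, mul_one]
              · intro j _ hj
                rw [PowerSeries.coeff_C_mul, PowerSeries.coeff_X_pow, if_neg (Ne.symm hj),
                  mul_zero]
              · intro h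
                exact absurd (Finset.mem_range.2 hm) h
            · rw [h2 m (by omega)]
              refine (Finset.sum_eq_zero fun j hj => ?_).symm
              have hj' := Finset.mem_range.1 hj
              rw [PowerSeries.coeff_C_mul, PowerSeries.coeff_X_pow, if_neg (by omega), mul_zero]
          conv_lhs => rw [h4]
          conv_rhs => rw [h4]
          rw [map_sum]
          refine Finset.sum_congr rfl fun j hj => ?_
          have hj' := Finset.mem_range.1 hj
          obtain ⟨c, hc⟩ := ih j hj'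
          rw [h1 j hj', hc, map_mul, map_pow, ArcAut.map_X, ArcAut.map_C]
        have h5 := hV y n
        rw [hab, map_add, ha, map_mul, map_pow, ArcAut.map_X, map_add, h2 n le_rfl, zero_add,
          PowerSeries.coeff_X_pow_mul', if_pos le_rfl, Nat.sub_self,
          PowerSeries.coeff_zero_eq_constantCoeff_apply, ArcAut.map_zero, h3] at h5
        exact h5
      exact h0_zero hC (m := fun _ => 0) fun y _ => sect_zero_iff.2 (hreg y)
  choose v hv using key
  refine ⟨PowerSeries.mk v, ?_⟩
  ext n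
  rw [hv n, PowerSeries.coeff_map, PowerSeries.coeff_mk]

private theorem m2_regS_trunc {y : Pt} {f a : PowerSeries Fn} {m : ℕ}
    (hf : ∀ n, n < m → Regular L y (PowerSeries.coeff n f))
    (h1 : ∀ n, n < m → PowerSeries.coeff n a = PowerSeries.coeff n f)
    (h2 : ∀ n, m ≤ n → PowerSeries.coeff n a = 0) : RegS L y a := by
  intro n
  rcases Nat.lt_or_ge n m with h | h
  · rw [h1 n h]
    exact hf n h
  · rw [h2 n h]
    have h3 := Regular.const (L := L) (y := y) 0
    rwa [map_zero] at h3

private theorem m2_reg_one {y : Pt} : Regular L y (1 : Fn) := by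
  have h3 := Regular.const (L := L) (y := y) 1
  rwa [map_one] at h3

/-- the property of the approximations -/
private def m2P (L : Fin k → Fin 3 → ℂ) (η : Pt → ArcAut Fn) (r : Fn) (m : ℕ)
    (U : PowerSeries Fn) : Prop :=
  PowerSeries.constantCoeff U = r ∧
    ∀ y, ∀ n, n < m → Regular L y (PowerSeries.coeff n
      (((η y)⁻¹).toEquiv U * PowerSeries.C r⁻¹))

private theorem m2_step (hC : Config L)
    (hcous0 : ∀ e : Pt → Fn, LC L (Sect L 0 (fun _ => 0)) e → Glob (Sect L 0 (fun _ => 0)) e)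
    {T : Pt → Finset Fn} {η : Pt → ArcAut Fn} (h : LogDef L T η) {r : Fn} (hr : r ≠ 0)
    (hlog : ∀ y θ, LogA L y θ → RegS L y (θ.toEquiv (PowerSeries.C r) * PowerSeries.C r⁻¹))
    {m : ℕ} (hm : 1 ≤ m) {U : PowerSeries Fn} (hU : m2P L η r m U) :
    ∃ R : Fn, m2P L η r (m + 1) (U * (1 - PowerSeries.C R * PowerSeries.X ^ m)) := by
  obtain ⟨hU0, hU1⟩ := hU
  have hCC : (PowerSeries.C r : PowerSeries Fn) * PowerSeries.C r⁻¹ = 1 := by
    rw [← map_mul, mul_inv_cancel₀ hr, map_one]
  have hV0 : ∀ y, PowerSeries.constantCoeff (((η y)⁻¹).toEquiv U * PowerSeries.C r⁻¹) = 1 := by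
    intro y
    rw [map_mul, ArcAut.map_zero, hU0, PowerSeries.constantCoeff_C, mul_inv_cancel₀ hr]
  have hLC : LC L (Sect L 0 (fun _ => 0))
      (fun y => PowerSeries.coeff m (((η y)⁻¹).toEquiv U * PowerSeries.C r⁻¹)) := by
    intro y
    refine ⟨T y, (h y).1, fun y' hy' => ?_⟩
    rw [sect_zero_iff]
    obtain ⟨hθ, -⟩ := (h y).2 y' hy'
    set θ := (η y')⁻¹ * η y with hθdef
    set W := θ.toEquiv (PowerSeries.C r) * PowerSeries.C r⁻¹ with hW
    have hWr : RegS L y' W := hlog y' θ hθ
    have hW0 : PowerSeries.constantCoeff W = 1 := by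
      rw [hW, map_mul, ArcAut.map_zero, PowerSeries.constantCoeff_C, PowerSeries.constantCoeff_C,
        mul_inv_cancel₀ hr]
    have hWi : W * W⁻¹ = 1 := PowerSeries.mul_inv_cancel W (by rw [hW0]; exact one_ne_zero)
    have hWir : RegS L y' W⁻¹ := by
      refine regS_inv hWr hWi (c := 1) one_ne_zero ?_
      rw [hW0]
      have h3 := Val.const (L := L) (y := y') 1
      rwa [map_one] at h3
    set V := ((η y)⁻¹).toEquiv U * PowerSeries.C r⁻¹ with hV
    set V' := ((η y')⁻¹).toEquiv U * PowerSeries.C r⁻¹ with hV'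
    have hUV : ((η y)⁻¹).toEquiv U = V * PowerSeries.C r := by
      rw [hV, mul_assoc, mul_comm (PowerSeries.C r⁻¹), hCC, mul_one]
    have hrel : V' = θ.toEquiv V * W := by
      have h1 : ((η y')⁻¹).toEquiv U = θ.toEquiv (((η y)⁻¹).toEquiv U) := by
        rw [← ArcAut.mul_apply, hθdef, mul_assoc, mul_inv_cancel, mul_one]
      rw [hV', h1, hUV, map_mul, hW, mul_assoc]
    -- the first coefficients of `V` are regular at `y'`
    have hVreg : ∀ n, n < m → Regular L y' (PowerSeries.coeff n V) := by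
      obtain ⟨a, b, hab, h1, h2, -⟩ := m2_split V' m
      have ha : RegS L y' a := m2_regS_trunc (fun n hn => hU1 y' n hn) h1 h2
      have h3 : V = (θ⁻¹).toEquiv (V' * W⁻¹) := by
        rw [hrel, mul_assoc, hWi, mul_one, ← ArcAut.mul_apply, inv_mul_cancel, ArcAut.one_apply]
      have h4 : RegS L y' ((θ⁻¹).toEquiv (a * W⁻¹)) := regS_of_logA_inv hC hθ (ha.mul hWir)
      intro n hn
      have h5 : PowerSeries.X ^ m ∣ V - (θ⁻¹).toEquiv (a * W⁻¹) := by
        rw [h3]
        refine m2_dvd _ ?_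
        rw [hab]
        exact ⟨b * W⁻¹, by ring⟩
      rw [m2_coeff h5 hn]
      exact h4 n
    obtain ⟨a, b, hab, h1, h2, h3⟩ := m2_split V m
    have ha : RegS L y' a := m2_regS_trunc hVreg h1 h2
    have h4 : RegS L y' (θ.toEquiv a * W) := (regS_of_logA hC hθ ha).mul hWr
    have h5 : V' = θ.toEquiv a * W + PowerSeries.X ^ m * (θ.toEquiv b * W) := by
      rw [hrel]
      conv_lhs => rw [hab]
      rw [map_add, map_mul, map_pow, ArcAut.map_X]
      ring
    have h6 : PowerSeries.coeff m V' - PowerSeries.coeff m V =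
        PowerSeries.coeff m (θ.toEquiv a * W) := by
      rw [h5, map_add, PowerSeries.coeff_X_pow_mul', if_pos le_rfl, Nat.sub_self,
        PowerSeries.coeff_zero_eq_constantCoeff_apply, map_mul PowerSeries.constantCoeff,
        ArcAut.map_zero, h3, hW0, mul_one, add_sub_cancel_right]
    rw [h6]
    exact h4 m
  obtain ⟨R, hR⟩ := hcous0 _ hLC
  refine ⟨R, ?_, fun y n hn => ?_⟩
  · rw [map_mul, hU0, map_sub, map_one, map_mul, map_pow, PowerSeries.constantCoeff_X,
      zero_pow (by omega), mul_zero, sub_zero, mul_one]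
  · set V := ((η y)⁻¹).toEquiv U * PowerSeries.C r⁻¹ with hV
    have h1 : ((η y)⁻¹).toEquiv (U * (1 - PowerSeries.C R * PowerSeries.X ^ m)) *
        PowerSeries.C r⁻¹ =
        V - PowerSeries.X ^ m * (V * ((η y)⁻¹).toEquiv (PowerSeries.C R)) := by
      rw [map_mul, map_sub, map_one, map_mul, map_pow, ArcAut.map_X, hV]
      ring
    rw [h1, map_sub, PowerSeries.coeff_X_pow_mul']
    rcases Nat.lt_or_ge n m with h2 | h2
    · rw [if_neg (by omega), sub_zero]
      exact hU1 y n h2
    · obtain rfl : n = m := by omega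
      rw [if_pos le_rfl, Nat.sub_self, PowerSeries.coeff_zero_eq_constantCoeff_apply,
        map_mul PowerSeries.constantCoeff, hV0, one_mul, ArcAut.map_zero,
        PowerSeries.constantCoeff_C]
      have h3 := (sect_zero_iff.1 (hR y)).neg
      rwa [neg_sub] at h3

theorem mult_cousin (hC : Config L)
    (hcous0 : ∀ e : Pt → Fn, LC L (Sect L 0 (fun _ => 0)) e → Glob (Sect L 0 (fun _ => 0)) e)
    {T : Pt → Finset Fn} {η : Pt → ArcAut Fn} (h : LogDef L T η) (i j : Fin k) :
    ∃ U : PowerSeries Fn, PowerSeries.constantCoeff U = fl (L i) / fl (L j) ∧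
      ∀ y, RegS L y (((η y)⁻¹).toEquiv U * PowerSeries.C (fl (L j) / fl (L i))) := by
  have hL : ∀ i, L i ≠ 0 := by
    intro i h0
    by_cases h : ∃ j, j ≠ i
    · obtain ⟨j, hj⟩ := h
      exact (hC.ind i j hj.symm).ne_zero 0 h0
    · push Not at h
      have h1 := hC.nonconc (fun _ => 1) (fun j => by rw [h j, h0, zero_dotProduct])
      exact one_ne_zero (congrFun h1 0)
  set r : Fn := fl (L i) / fl (L j) with hr
  have hr0 : r ≠ 0 := div_ne_zero (fl_ne_zero (hL i)) (fl_ne_zero (hL j))
  have hri : fl (L j) / fl (L i) = r⁻¹ := by rw [hr, inv_div]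
  rw [hri]
  have hlog : ∀ y θ, LogA L y θ →
      RegS L y (θ.toEquiv (PowerSeries.C r) * PowerSeries.C r⁻¹) := by
    intro y θ hθ
    have h1 := hθ i j
    rw [hri] at h1
    exact h1
  -- the sequence
  have hstep : ∀ (n : ℕ) (U : {U : PowerSeries Fn // m2P L η r (n + 1) U}),
      ∃ U' : {U : PowerSeries Fn // m2P L η r (n + 1 + 1) U},
        PowerSeries.X ^ (n + 1) ∣ U'.1 - U.1 := by
    intro n U
    obtain ⟨R, hR⟩ := m2_step hC hcous0 h hr0 hlog (m := n + 1) (by omega) U.2
    refine ⟨⟨_, hR⟩, ?_⟩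
    exact ⟨-(U.1 * PowerSeries.C R), by ring⟩
  choose F hF using hstep
  have h0 : m2P L η r (0 + 1) (PowerSeries.C r) := by
    refine ⟨PowerSeries.constantCoeff_C r, fun y n hn => ?_⟩
    obtain rfl : n = 0 := by omega
    rw [PowerSeries.coeff_zero_eq_constantCoeff_apply, map_mul, ArcAut.map_zero,
      PowerSeries.constantCoeff_C, PowerSeries.constantCoeff_C, mul_inv_cancel₀ hr0]
    exact m2_reg_one
  let u : (n : ℕ) → {U : PowerSeries Fn // m2P L η r (n + 1) U} :=
    fun n => Nat.rec ⟨PowerSeries.C r, h0⟩ (fun n U => F n U) n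
  have hu : ∀ n, PowerSeries.X ^ (n + 1) ∣ (u (n + 1)).1 - (u n).1 := fun n => hF n (u n)
  have hu2 : ∀ n d, PowerSeries.X ^ (n + 1) ∣ (u (n + d)).1 - (u n).1 := by
    intro n d
    induction d with
    | zero =>
      change PowerSeries.X ^ (n + 1) ∣ (u n).1 - (u n).1
      rw [sub_self]; exact dvd_zero _
    | succ d ih =>
      have h1 : PowerSeries.X ^ (n + 1) ∣ (u (n + (d + 1))).1 - (u (n + d)).1 :=
        dvd_trans (pow_dvd_pow _ (by omega)) (hu (n + d))
      have h2 := dvd_add h1 ih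
      rwa [sub_add_sub_cancel] at h2
  set Ul : PowerSeries Fn := PowerSeries.mk fun n => PowerSeries.coeff n (u n).1 with hUl
  have hlim : ∀ n, PowerSeries.X ^ (n + 1) ∣ Ul - (u n).1 := by
    intro n
    rw [PowerSeries.X_pow_dvd_iff]
    intro m hm
    obtain ⟨d, rfl⟩ := Nat.exists_eq_add_of_le (Nat.lt_succ_iff.1 hm)
    rw [map_sub, hUl, PowerSeries.coeff_mk, m2_coeff (hu2 m d) (Nat.lt_succ_self m), sub_self]
  refine ⟨Ul, ?_, fun y n => ?_⟩
  · rw [← PowerSeries.coeff_zero_eq_constantCoeff_apply, m2_coeff (hlim 0) Nat.zero_lt_one,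
      PowerSeries.coeff_zero_eq_constantCoeff_apply]
    exact (u 0).2.1
  · have h1 : PowerSeries.X ^ (n + 1) ∣ ((η y)⁻¹).toEquiv Ul * PowerSeries.C r⁻¹ -
        ((η y)⁻¹).toEquiv (u n).1 * PowerSeries.C r⁻¹ := by
      rw [← sub_mul]
      exact (m2_dvd _ (hlim n)).mul_right _
    rw [m2_coeff h1 (Nat.lt_succ_self n)]
    exact (u n).2.2 y n (Nat.lt_succ_self n)

end HKR
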