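import Pool.Agent.Lib.HKR.M2
import Pool.Agent.Lib.HKR.T1
/-!
HKR.M3 (sections of the deformed O(H)).  s a reference line.  HSec R: for all y and all lines e not through y.q,
RegS y ((η y)⁻¹(R) * C(ℓs/ℓe)).
(0) if U is as in mult_cousin for (i,s) then HSec U ((η y)⁻¹(U) ℓs/ℓe = [(η y)⁻¹(U) ℓs/ℓi] (ℓi/ℓe)); constants are HSec
    (ℓs/ℓe regular); HSec is closed under +, multiplication by constant power series ((η y)⁻¹ fixes them), and
    HSec (X R) implies HSec R.
(a) msect: i1, i2, s independent, U1, U2 for (i1,s), (i2,s).  HSec R implies R = a U1 + b U2 + c, a, b, c constant power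
    series.  PROOF.  ρ := constant coefficient of R: ρ ℓs/ℓe is regular at y for e not through y.q, so ρ ℓs is
    Sect (-1) 0 at all y (non-multiple suffices; choose e by nonconc, sect_iff with lam = L e): h0_one: ρ ℓs = fl l,
    l = a0 L i1 + b0 L i2 + c0 L s.  R - a0 U1 - b0 U2 - c0 has constant coefficient 0 and is HSec, = X R1, HSec R1.
    Recursion: a = Σ a_n X^n etc.  (Construct sequences R_n, a_n, b_n, c_n; then R = (partial sums) + X^n R_n.)
(b) msect_q: i, j two lines through the multiple point q ≠ 0 (i ≠ j), Ui, Uj for (i,s), (j,s).  HSec R and: for every y with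
    y.q ∥ q (same lines: SS L y.q = SS L q and Multiple L y.q), every e not through q, all coefficients of
    (η y)⁻¹(R) * C(ℓs/ℓe) have value 0 at y.  Then R = a Ui + b Uj.  PROOF.  As (a): the linear form l has l(q) = 0 (value at
    y = (q,w) of ρ ℓs/ℓe = l(q)/(L e)(q)), so l = a0 L i + b0 L j.
-/
open MvPolynomial
namespace HKR
variable {k : ℕ} {L : Fin k → Fin 3 → ℂ}

/-- global section of the deformed `O(H)` -/
def HSec (L : Fin k → Fin 3 → ℂ) (η : Pt → ArcAut Fn) (s : Fin k) (R : PowerSeries Fn) : Prop :=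
  ∀ (y : Pt) (e : Fin k), L e ⬝ᵥ y.q ≠ 0 →
    RegS L y (((η y)⁻¹).toEquiv R * PowerSeries.C (fl (L s) / fl (L e)))

private theorem m3_const (φ : ArcAut Fn) (a : PowerSeries ℂ) :
    φ.toEquiv (PowerSeries.map (algebraMap ℂ Fn) a) = PowerSeries.map (algebraMap ℂ Fn) a := by
  ext n
  rw [coeff_app, Finset.sum_eq_single (0, n)]
  · rw [PowerSeries.coeff_map, φ.map_C, PowerSeries.coeff_zero_C]
  · rintro ⟨p, r⟩ hp hne
    rw [Finset.HasAntidiagonal.mem_antidiagonal] at hp
    rw [PowerSeries.coeff_map, φ.map_C, PowerSeries.coeff_C, if_neg]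
    rintro rfl
    apply hne
    rw [zero_add] at hp
    have hp' : r = n := hp
    rw [hp']
  · intro h
    exact absurd (Finset.HasAntidiagonal.mem_antidiagonal.2 (zero_add n)) h

private theorem m3_hadd {η : Pt → ArcAut Fn} {s : Fin k} {R R' : PowerSeries Fn}
    (h : HSec L η s R) (h' : HSec L η s R') : HSec L η s (R + R') := by
  intro y e he
  rw [map_add, add_mul]
  exact (h y e he).add (h' y e he)

private theorem m3_hneg {η : Pt → ArcAut Fn} {s : Fin k} {R : PowerSeries Fn}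
    (h : HSec L η s R) : HSec L η s (-R) := by
  intro y e he
  rw [map_neg, neg_mul]
  exact (h y e he).neg

private theorem m3_hmul {η : Pt → ArcAut Fn} {s : Fin k} {R : PowerSeries Fn} (a : PowerSeries ℂ)
    (h : HSec L η s R) : HSec L η s (PowerSeries.map (algebraMap ℂ Fn) a * R) := by
  intro y e he
  rw [map_mul, m3_const, mul_assoc]
  exact (regS_const a).mul (h y e he)

private theorem m3_hconst {η : Pt → ArcAut Fn} {s : Fin k} (a : PowerSeries ℂ) :
    HSec L η s (PowerSeries.map (algebraMap ℂ Fn) a) := by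
  intro y e he
  rw [m3_const]
  exact (regS_const a).mul (regS_C (regular_iff_val.2 ⟨_, Val.ratio he⟩))

private theorem m3_shift (φ : ArcAut Fn) (R : PowerSeries Fn) (c : Fn) (n : ℕ) :
    PowerSeries.coeff (n + 1) (φ.toEquiv (PowerSeries.X * R) * PowerSeries.C c) =
      PowerSeries.coeff n (φ.toEquiv R * PowerSeries.C c) := by
  rw [map_mul φ.toEquiv, φ.map_X, mul_assoc, PowerSeries.coeff_succ_X_mul]

private theorem m3_hX {η : Pt → ArcAut Fn} {s : Fin k} {R : PowerSeries Fn}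
    (h : HSec L η s (PowerSeries.X * R)) : HSec L η s R := by
  intro y e he n
  have h1 := h y e he (n + 1)
  rwa [m3_shift] at h1

private theorem m3_rec {P : PowerSeries Fn → Prop} {U1 U2 U3 : PowerSeries Fn}
    (step : ∀ R, P R → ∃ (a b c : ℂ) (R1 : PowerSeries Fn), P R1 ∧
      R = PowerSeries.C (algebraMap ℂ Fn a) * U1 + PowerSeries.C (algebraMap ℂ Fn b) * U2 +
        PowerSeries.C (algebraMap ℂ Fn c) * U3 + PowerSeries.X * R1)
    {R : PowerSeries Fn} (hR : P R) :
    ∃ a b c : PowerSeries ℂ, R = PowerSeries.map (algebraMap ℂ Fn) a * U1 +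
      PowerSeries.map (algebraMap ℂ Fn) b * U2 + PowerSeries.map (algebraMap ℂ Fn) c * U3 := by
  choose! fa fb fc fR hP hstep using step
  obtain ⟨S, hS⟩ : ∃ S : ℕ → PowerSeries Fn, S = fun n => fR^[n] R := ⟨_, rfl⟩
  have hS0 : S 0 = R := by rw [hS]; rfl
  have hS1 : ∀ n, S (n + 1) = fR (S n) := fun n => by
    rw [hS]
    exact Function.iterate_succ_apply' fR n R
  have hSP : ∀ n, P (S n) := by
    intro n
    induction n with
    | zero => rw [hS0]; exact hR
    | succ n ih => rw [hS1]; exact hP _ ih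
  obtain ⟨T, hT⟩ : ∃ T : (PowerSeries Fn → ℂ) → ℕ → PowerSeries ℂ,
      T = fun g n => PowerSeries.mk (fun m => g (S (n + m))) := ⟨_, rfl⟩
  have hT1 : ∀ g n, PowerSeries.map (algebraMap ℂ Fn) (T g n) =
      PowerSeries.C (algebraMap ℂ Fn (g (S n))) +
        PowerSeries.X * PowerSeries.map (algebraMap ℂ Fn) (T g (n + 1)) := by
    intro g n
    ext m
    rw [hT]
    cases m with
    | zero =>
      rw [PowerSeries.coeff_map, PowerSeries.coeff_mk, map_add, PowerSeries.coeff_zero_C,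
        PowerSeries.coeff_zero_X_mul, add_zero, add_zero]
    | succ m =>
      rw [PowerSeries.coeff_map, PowerSeries.coeff_mk, map_add, PowerSeries.coeff_C,
        if_neg (Nat.succ_ne_zero m), PowerSeries.coeff_succ_X_mul, PowerSeries.coeff_map,
        PowerSeries.coeff_mk, zero_add, add_right_comm n 1 m, add_assoc]
  obtain ⟨D, hD⟩ : ∃ D : ℕ → PowerSeries Fn, D = fun n =>
      S n - (PowerSeries.map (algebraMap ℂ Fn) (T fa n) * U1 +
        PowerSeries.map (algebraMap ℂ Fn) (T fb n) * U2 +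
        PowerSeries.map (algebraMap ℂ Fn) (T fc n) * U3) := ⟨_, rfl⟩
  have hD1 : ∀ n, D n = PowerSeries.X * D (n + 1) := by
    intro n
    have h1 := hstep (S n) (hSP n)
    rw [← hS1] at h1
    simp only [hD]
    rw [hT1 fa n, hT1 fb n, hT1 fc n]
    linear_combination h1
  have hD2 : ∀ n, D 0 = PowerSeries.X ^ n * D n := by
    intro n
    induction n with
    | zero => rw [pow_zero, one_mul]
    | succ n ih => rw [ih, hD1 n, pow_succ, mul_assoc]
  have hD0 : D 0 = 0 := by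
    ext n
    rw [hD2 (n + 1), PowerSeries.coeff_X_pow_mul', if_neg (by omega), map_zero]
  refine ⟨T fa 0, T fb 0, T fc 0, ?_⟩
  simp only [hD] at hD0
  rw [hS0] at hD0
  exact sub_eq_zero.1 hD0

private theorem m3_line (hC : Config L) (y : Pt) : ∃ e, L e ⬝ᵥ y.q ≠ 0 := by
  by_contra hcon
  push Not at hcon
  exact y.ind.ne_zero 0 (hC.nonconc y.q hcon)

private theorem m3_form (hC : Config L) {η : Pt → ArcAut Fn} {s : Fin k} {R : PowerSeries Fn}
    (hR : HSec L η s R) :
    ∃ l : Fin 3 → ℂ, PowerSeries.constantCoeff R * fl (L s) = fl l := by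
  refine h0_one hC (m := fun _ => 0) fun y _ => ?_
  obtain ⟨e, he⟩ := m3_line hC y
  obtain ⟨lam, sig, tau, _, _, h2, h3, _⟩ := exists_forms y
  rw [sect_iff he h2 (by rw [h3]; exact one_ne_zero)]
  have hm : muq L (fun _ => 0) y = 0 := by
    unfold muq
    split_ifs
    rfl
  rw [hm, sub_zero, zpow_zero, mul_one]
  have h := hR y e he 0
  have hcc : PowerSeries.coeff 0 (((η y)⁻¹).toEquiv R * PowerSeries.C (fl (L s) / fl (L e))) =
      PowerSeries.constantCoeff R * fl (L s) * (fl (L e)) ^ (-1 : ℤ) := by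
    rw [PowerSeries.coeff_zero_eq_constantCoeff_apply, map_mul, ((η y)⁻¹).map_zero,
      PowerSeries.constantCoeff_C, zpow_neg_one, div_eq_mul_inv, mul_assoc]
  rwa [hcc] at h

private theorem m3_ne (hC : Config L) (y : Pt) (i : Fin k) : fl (L i) ≠ 0 := by
  obtain ⟨e, he⟩ := m3_line hC y
  have he0 : L e ≠ 0 := by
    intro h
    rw [h, zero_dotProduct] at he
    exact he rfl
  by_cases h : i = e
  · rw [h]
    exact fl_ne_zero he0
  · exact fl_ne_zero ((hC.ind i e h).ne_zero 0)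

theorem hsec_of_mult (hC : Config L) {η : Pt → ArcAut Fn} {i s : Fin k} {U : PowerSeries Fn}
    (hU : ∀ y, RegS L y (((η y)⁻¹).toEquiv U * PowerSeries.C (fl (L s) / fl (L i)))) :
    HSec L η s U := by
  intro y e he
  have h1 : ((η y)⁻¹).toEquiv U * PowerSeries.C (fl (L s) / fl (L e)) =
      (((η y)⁻¹).toEquiv U * PowerSeries.C (fl (L s) / fl (L i))) *
        PowerSeries.C (fl (L i) / fl (L e)) := by
    rw [mul_assoc, ← map_mul, div_mul_div_cancel₀ (m3_ne hC y i)]
  rw [h1]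
  exact (hU y).mul (regS_C (regular_iff_val.2 ⟨_, Val.ratio he⟩))

private theorem m3_three {u v w : Fin 3 → ℂ} (h : det3 u v w ≠ 0) (l : Fin 3 → ℂ) :
    ∃ a b c : ℂ, l = a • u + b • v + c • w := by
  have hu : IsUnit (Matrix.det (Matrix.of ![u, v, w])) := isUnit_iff_ne_zero.2 h
  have h1 : Matrix.vecMul (Matrix.vecMul l (Matrix.of ![u, v, w])⁻¹) (Matrix.of ![u, v, w]) = l := by
    rw [Matrix.vecMul_vecMul, Matrix.nonsing_inv_mul _ hu, Matrix.vecMul_one]
  rw [Matrix.vecMul_eq_sum, Fin.sum_univ_three] at h1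
  exact ⟨_, _, _, h1.symm⟩

private theorem m3_two {u v q : Fin 3 → ℂ} (huv : LinearIndependent ℂ ![u, v]) (hq : q ≠ 0)
    (hu : u ⬝ᵥ q = 0) (hv : v ⬝ᵥ q = 0) {l : Fin 3 → ℂ} (hl : l ⬝ᵥ q = 0) :
    ∃ a b : ℂ, l = a • u + b • v := by
  by_cases hmem : l ∈ Submodule.span ℂ (Set.range ![u, v])
  · have h1 : Set.range ![u, v] = {u, v} := by
      simp [Matrix.range_cons, Matrix.range_empty, Set.pair_comm]
    rw [h1, Submodule.mem_span_pair] at hmem
    obtain ⟨a, b, hab⟩ := hmem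
    exact ⟨a, b, hab.symm⟩
  · exfalso
    have h1 : LinearIndependent ℂ ![l, u, v] := linearIndependent_finCons.2 ⟨huv, hmem⟩
    have h2 : IsUnit (Matrix.of ![l, u, v]) := by
      rw [← Matrix.linearIndependent_rows_iff_isUnit]
      exact h1
    have h3 : Matrix.mulVec (Matrix.of ![l, u, v]) q = 0 := by
      funext i
      fin_cases i
      · exact hl
      · exact hu
      · exact hv
    apply hq
    have h4 := congrArg (Matrix.mulVec (Matrix.of ![l, u, v])⁻¹) h3
    rwa [Matrix.mulVec_mulVec, Matrix.nonsing_inv_mul _ ((Matrix.isUnit_iff_isUnit_det _).1 h2),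
      Matrix.one_mulVec, Matrix.mulVec_zero] at h4

private theorem m3_C (a : ℂ) : (PowerSeries.C (algebraMap ℂ Fn a) : PowerSeries Fn) =
    PowerSeries.map (algebraMap ℂ Fn) (PowerSeries.C a) := by
  rw [PowerSeries.map_C]

theorem msect (hC : Config L) {η : Pt → ArcAut Fn} {i1 i2 s : Fin k}
    (hdet : det3 (L i1) (L i2) (L s) ≠ 0) {U1 U2 : PowerSeries Fn}
    (h10 : PowerSeries.constantCoeff U1 = fl (L i1) / fl (L s))
    (h20 : PowerSeries.constantCoeff U2 = fl (L i2) / fl (L s))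
    (h1 : HSec L η s U1) (h2 : HSec L η s U2) {R : PowerSeries Fn} (hR : HSec L η s R) :
    ∃ a b c : PowerSeries ℂ, R = PowerSeries.map (algebraMap ℂ Fn) a * U1 +
      PowerSeries.map (algebraMap ℂ Fn) b * U2 + PowerSeries.map (algebraMap ℂ Fn) c := by
  have hs0 : fl (L s) ≠ 0 := by
    refine fl_ne_zero ?_
    intro h0
    apply hdet
    unfold det3
    refine Matrix.det_eq_zero_of_row_eq_zero 2 fun j => ?_
    change L s j = 0
    rw [h0]
    rfl
  have key : ∃ a b c : PowerSeries ℂ, R = PowerSeries.map (algebraMap ℂ Fn) a * U1 +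
      PowerSeries.map (algebraMap ℂ Fn) b * U2 + PowerSeries.map (algebraMap ℂ Fn) c * 1 := by
    refine m3_rec (P := HSec L η s) (fun R hR => ?_) hR
    obtain ⟨l, hl⟩ := m3_form hC hR
    obtain ⟨a, b, c, habc⟩ := m3_three hdet l
    have hc0 : PowerSeries.constantCoeff R = algebraMap ℂ Fn a * (fl (L i1) / fl (L s)) +
        algebraMap ℂ Fn b * (fl (L i2) / fl (L s)) + algebraMap ℂ Fn c := by
      rw [habc, fl_add, fl_add, fl_smul, fl_smul, fl_smul] at hl
      field_simp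
      rw [hl]
      ring
    have hX : PowerSeries.X ∣ R - (PowerSeries.C (algebraMap ℂ Fn a) * U1 +
        PowerSeries.C (algebraMap ℂ Fn b) * U2 + PowerSeries.C (algebraMap ℂ Fn c) * 1) := by
      rw [PowerSeries.X_dvd_iff]
      simp only [map_sub, map_add, map_mul, PowerSeries.constantCoeff_C, mul_one]
      rw [h10, h20, hc0, sub_self]
    obtain ⟨R1, hR1⟩ := hX
    refine ⟨a, b, c, R1, m3_hX ?_, ?_⟩
    · rw [← hR1, sub_eq_add_neg]
      refine m3_hadd hR (m3_hneg (m3_hadd (m3_hadd ?_ ?_) ?_))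
      · rw [m3_C]; exact m3_hmul _ h1
      · rw [m3_C]; exact m3_hmul _ h2
      · rw [mul_one, m3_C]; exact m3_hconst _
    · rw [← hR1]
      ring
  obtain ⟨a, b, c, h⟩ := key
  exact ⟨a, b, c, by rw [mul_one] at h; exact h⟩

private theorem m3_pt {q : Fin 3 → ℂ} (hq : q ≠ 0) : ∃ y : Pt, y.q = q := by
  obtain ⟨w, hw⟩ := exists_linearIndependent_pair_of_one_lt_finrank (R := ℂ) (M := Fin 3 → ℂ)
    (by rw [Module.finrank_fin_fun]; norm_num) hq
  exact ⟨⟨q, w, hw⟩, rfl⟩

/-- all coefficients have value zero -/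
private def VS (L : Fin k → Fin 3 → ℂ) (η : Pt → ArcAut Fn) (q : Fin 3 → ℂ) (s : Fin k)
    (R : PowerSeries Fn) : Prop :=
  ∀ (y : Pt) (e : Fin k), Multiple L y.q → SS L y.q = SS L q → L e ⬝ᵥ y.q ≠ 0 →
    ∀ n, Val L y (PowerSeries.coeff n
      (((η y)⁻¹).toEquiv R * PowerSeries.C (fl (L s) / fl (L e)))) 0

private theorem m3_vadd {η : Pt → ArcAut Fn} {q : Fin 3 → ℂ} {s : Fin k} {R R' : PowerSeries Fn}
    (h : VS L η q s R) (h' : VS L η q s R') : VS L η q s (R + R') := by
  intro y e hm hS he n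
  rw [map_add, add_mul, map_add]
  have h1 := (h y e hm hS he n).add (h' y e hm hS he n)
  rwa [add_zero] at h1

private theorem m3_vmul {η : Pt → ArcAut Fn} {q : Fin 3 → ℂ} {s : Fin k} {R : PowerSeries Fn}
    (a : ℂ) (h : VS L η q s R) : VS L η q s (PowerSeries.C (algebraMap ℂ Fn a) * R) := by
  intro y e hm hS he n
  rw [map_mul ((η y)⁻¹).toEquiv, ((η y)⁻¹).map_C, mul_assoc, PowerSeries.coeff_C_mul]
  have h1 := (Val.const (L := L) (y := y) a).mul (h y e hm hS he n)
  rwa [mul_zero] at h1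

private theorem m3_vX {η : Pt → ArcAut Fn} {q : Fin 3 → ℂ} {s : Fin k} {R : PowerSeries Fn}
    (h : VS L η q s (PowerSeries.X * R)) : VS L η q s R := by
  intro y e hm hS he n
  have h1 := h y e hm hS he (n + 1)
  rwa [m3_shift] at h1

private theorem m3_vline (hC : Config L) {η : Pt → ArcAut Fn} {q : Fin 3 → ℂ} {i s : Fin k}
    (hi : L i ⬝ᵥ q = 0) {U : PowerSeries Fn}
    (hU : ∀ y, RegS L y (((η y)⁻¹).toEquiv U * PowerSeries.C (fl (L s) / fl (L i)))) :
    VS L η q s U := by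
  intro y e hm hS he n
  have h1 : ((η y)⁻¹).toEquiv U * PowerSeries.C (fl (L s) / fl (L e)) =
      PowerSeries.C (fl (L i) / fl (L e)) *
      (((η y)⁻¹).toEquiv U * PowerSeries.C (fl (L s) / fl (L i))) := by
    rw [mul_comm (PowerSeries.C (fl (L i) / fl (L e))), mul_assoc, ← map_mul,
      div_mul_div_cancel₀ (m3_ne hC y i)]
  have hiy : L i ⬝ᵥ y.q = 0 := by
    have h2 : i ∈ SS L q := by
      unfold SS
      exact Finset.mem_filter.2 ⟨Finset.mem_univ _, hi⟩
    rw [← hS] at h2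
    unfold SS at h2
    exact (Finset.mem_filter.1 h2).2
  rw [h1, PowerSeries.coeff_C_mul]
  obtain ⟨c, hc⟩ := regular_iff_val.1 (hU y n)
  have h3 := (Val.ratio (L := L) (l := L i) he).mul hc
  rwa [hiy, zero_div, zero_mul] at h3

theorem msect_q (hC : Config L) {η : Pt → ArcAut Fn} {q : Fin 3 → ℂ} (hq0 : q ≠ 0)
    (hq : Multiple L q) {i j s : Fin k} (hij : i ≠ j) (hi : L i ⬝ᵥ q = 0) (hj : L j ⬝ᵥ q = 0)
    {Ui Uj : PowerSeries Fn}
    (hi0 : PowerSeries.constantCoeff Ui = fl (L i) / fl (L s))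
    (hj0 : PowerSeries.constantCoeff Uj = fl (L j) / fl (L s))
    (hUi : ∀ y, RegS L y (((η y)⁻¹).toEquiv Ui * PowerSeries.C (fl (L s) / fl (L i))))
    (hUj : ∀ y, RegS L y (((η y)⁻¹).toEquiv Uj * PowerSeries.C (fl (L s) / fl (L j))))
    {R : PowerSeries Fn} (hR : HSec L η s R)
    (hR' : ∀ (y : Pt) (e : Fin k), Multiple L y.q → SS L y.q = SS L q → L e ⬝ᵥ y.q ≠ 0 →
      ∀ n, Val L y (PowerSeries.coeff n
        (((η y)⁻¹).toEquiv R * PowerSeries.C (fl (L s) / fl (L e)))) 0) :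
    ∃ a b : PowerSeries ℂ, R = PowerSeries.map (algebraMap ℂ Fn) a * Ui +
      PowerSeries.map (algebraMap ℂ Fn) b * Uj := by
  obtain ⟨y0, hy0⟩ := m3_pt hq0
  have hs0 : fl (L s) ≠ 0 := m3_ne hC y0 s
  have hHi : HSec L η s Ui := hsec_of_mult hC hUi
  have hHj : HSec L η s Uj := hsec_of_mult hC hUj
  have hVi : VS L η q s Ui := m3_vline hC hi hUi
  have hVj : VS L η q s Uj := m3_vline hC hj hUj
  have key : ∃ a b c : PowerSeries ℂ, R = PowerSeries.map (algebraMap ℂ Fn) a * Ui +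
      PowerSeries.map (algebraMap ℂ Fn) b * Uj + PowerSeries.map (algebraMap ℂ Fn) c * 0 := by
    refine m3_rec (P := fun R => HSec L η s R ∧ VS L η q s R) (fun R hR => ?_) ⟨hR, hR'⟩
    obtain ⟨l, hl⟩ := m3_form hC hR.1
    obtain ⟨e, he⟩ := m3_line hC y0
    have hlq : l ⬝ᵥ q = 0 := by
      have h1 := hR.2 y0 e (by rw [hy0]; exact hq) (by rw [hy0]) he 0
      have hcc : PowerSeries.coeff 0
          (((η y0)⁻¹).toEquiv R * PowerSeries.C (fl (L s) / fl (L e))) = fl l / fl (L e) := by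
        rw [PowerSeries.coeff_zero_eq_constantCoeff_apply, map_mul, ((η y0)⁻¹).map_zero,
          PowerSeries.constantCoeff_C, ← hl, mul_div_assoc]
      rw [hcc] at h1
      have h2 := Val.unique h1 (Val.ratio (L := L) (l := l) he)
      rw [eq_comm, div_eq_zero_iff] at h2
      rw [← hy0]
      exact h2.resolve_right he
    obtain ⟨a, b, hab⟩ := m3_two (hC.ind i j hij) hq0 hi hj hlq
    have hc0 : PowerSeries.constantCoeff R = algebraMap ℂ Fn a * (fl (L i) / fl (L s)) +
        algebraMap ℂ Fn b * (fl (L j) / fl (L s)) := by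
      rw [hab, fl_add, fl_smul, fl_smul] at hl
      field_simp
      rw [hl]
    have hX : PowerSeries.X ∣ R - (PowerSeries.C (algebraMap ℂ Fn a) * Ui +
        PowerSeries.C (algebraMap ℂ Fn b) * Uj) := by
      rw [PowerSeries.X_dvd_iff]
      simp only [map_sub, map_add, map_mul, PowerSeries.constantCoeff_C]
      rw [hi0, hj0, hc0, sub_self]
    obtain ⟨R1, hR1⟩ := hX
    refine ⟨a, b, 0, R1, ⟨m3_hX ?_, m3_vX ?_⟩, ?_⟩
    · rw [← hR1, sub_eq_add_neg]
      refine m3_hadd hR.1 (m3_hneg (m3_hadd ?_ ?_))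
      · rw [m3_C]; exact m3_hmul _ hHi
      · rw [m3_C]; exact m3_hmul _ hHj
    · have h1 : R - (PowerSeries.C (algebraMap ℂ Fn a) * Ui +
          PowerSeries.C (algebraMap ℂ Fn b) * Uj) = R + (PowerSeries.C (algebraMap ℂ Fn (-a)) * Ui +
          PowerSeries.C (algebraMap ℂ Fn (-b)) * Uj) := by
        rw [map_neg, map_neg, map_neg, map_neg]
        ring
      rw [← hR1, h1]
      exact m3_vadd hR.2 (m3_vadd (m3_vmul _ hVi) (m3_vmul _ hVj))
    · rw [← hR1]
      ring
  obtain ⟨a, b, c, h⟩ := key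
  exact ⟨a, b, by rw [mul_zero, add_zero] at h; exact h⟩

end HKR
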