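import Pool.Agent.Lib.HKR.M3
/-!
HKR.M4 (the arc of configurations of an equivariant deformation).
PROOF.  i1, i2, s with det3 ≠ 0 (nonconc).  U_i := mult_cousin for (i,s), i ≠ s; U_s := 1.  Write, for the standard
basis vectors e_j of ℂ³, e_j = α_j L i1 + β_j L i2 + γ_j L s, and E_j := α_j U_i1 + β_j U_i2 + γ_j: constant
coefficient fl e_j/fl (L s).  msect: U_i = a_i U_i1 + b_i U_i2 + c_i; M i := a_i L i1 + b_i L i2 + c_i L s (coefficients in
ℂ[[X]]), for i = i1, i2, s take the obvious (1,0,0), (0,1,0), (0,0,1).  Then Σ_j M i j E_j = U_i.  Constant coefficients: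
ℓi/ℓs = a_i(0) ℓ1/ℓs + b_i(0) ℓ2/ℓs + c_i(0), so M i (0) = L i (fl_inj).
Concurrency: i, j, l with det3 = 0.  Two equal: two equal rows.  Distinct: common point q ≠ 0, multiple.  msect_q with
R := U_l (hypothesis: (η y)⁻¹(U_l) ℓs/ℓe = [(η y)⁻¹(U_l) ℓs/ℓl] (ℓl/ℓe), and ℓl/ℓe has value 0 at y as L l ⬝ y.q = 0):
U_l = a U_i + b U_j with a, b ∈ ℂ[[X]].  So Σ_j (M l - a M i - b M j)_j E_j = 0; in terms of L i1, L i2, L s: A U_i1 + B U_i2 + C = 0 with
A, B, C ∈ ℂ[[X]]: if not all 0 divide by the highest power of X: the constant coefficients give a nontrivial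
relation between fl (L i1), fl (L i2), fl (L s): contradiction (fl_inj, independence).  So M l = a M i + b M j, det = 0.
-/
open MvPolynomial
namespace HKR
variable {k : ℕ} {L : Fin k → Fin 3 → ℂ}

private theorem m4_kernel (a : Fin 3 → ℂ) : ∃ v : Fin 3 → ℂ, v ≠ 0 ∧ a ⬝ᵥ v = 0 := by
  by_cases h : a 0 = 0 ∧ a 1 = 0
  · refine ⟨![1, 0, 0], ?_, ?_⟩
    · intro h0
      have := congrFun h0 0
      simp at this
    · simp [dotProduct, Fin.sum_univ_three, h.1]
  · refine ⟨![a 1, -a 0, 0], ?_, ?_⟩
    · intro h0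
      have e0 := congrFun h0 0
      have e1 := congrFun h0 1
      simp at e0 e1
      exact h ⟨e1, e0⟩
    · simp [dotProduct, Fin.sum_univ_three]
      ring

private theorem m4_off (hC : Config L) {q : Fin 3 → ℂ} (hq0 : q ≠ 0) : ∃ l, L l ⬝ᵥ q ≠ 0 := by
  by_contra hcon
  push Not at hcon
  exact hq0 (hC.nonconc q hcon)

private theorem m4_three (hC : Config L) : ∃ i1 i2 s : Fin k, det3 (L i1) (L i2) (L s) ≠ 0 := by
  have hq : (![1, 0, 0] : Fin 3 → ℂ) ≠ 0 := by
    intro h0
    have := congrFun h0 0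
    simp at this
  obtain ⟨i, -⟩ := m4_off hC hq
  obtain ⟨v, hv0, hv⟩ := m4_kernel (L i)
  obtain ⟨j, hj⟩ := m4_off hC hv0
  have hij : i ≠ j := by
    rintro rfl
    exact hj hv
  obtain ⟨l, hl⟩ := m4_off hC (crossProduct_ne_zero_iff_linearIndependent.2 (hC.ind i j hij))
  refine ⟨i, j, l, fun h => hl ?_⟩
  unfold det3 at h
  rw [Matrix.det_fin_three] at h
  simp only [Matrix.of_apply, Matrix.cons_val_zero, Matrix.cons_val_one, Matrix.cons_val] at h
  rw [cross_apply]
  simp only [dotProduct, Fin.sum_univ_three, Matrix.cons_val_zero, Matrix.cons_val_one,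
    Matrix.cons_val]
  linear_combination h

private theorem m4_coeff {A : PowerSeries ℂ} {U : PowerSeries Fn} {n : ℕ}
    (h : ∀ m < n, PowerSeries.coeff m A = 0) :
    PowerSeries.coeff n (PowerSeries.map (algebraMap ℂ Fn) A * U) =
      algebraMap ℂ Fn (PowerSeries.coeff n A) * PowerSeries.constantCoeff U := by
  rw [PowerSeries.coeff_mul, Finset.sum_eq_single (n, 0)]
  · rw [PowerSeries.coeff_map, PowerSeries.coeff_zero_eq_constantCoeff_apply]
  · intro p hp hne
    have h1 := Finset.HasAntidiagonal.mem_antidiagonal.1 hp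
    have h2 : p.1 < n := by
      rcases Nat.lt_or_ge p.1 n with h3 | h3
      · exact h3
      · exfalso
        apply hne
        ext
        · show p.1 = n
          omega
        · show p.2 = 0
          omega
    rw [PowerSeries.coeff_map, h _ h2, map_zero, zero_mul]
  · intro hn
    exact absurd (Finset.HasAntidiagonal.mem_antidiagonal.2 (add_zero n)) hn

private theorem m4_fl (x : Fin 3 → ℂ) (A : Matrix (Fin 3) (Fin 3) ℂ) :
    fl (Matrix.vecMul x A) = ∑ r, algebraMap ℂ Fn (x r) * fl (A r) := by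
  have h : Matrix.vecMul x A = x 0 • A 0 + x 1 • A 1 + x 2 • A 2 := by
    ext j
    simp only [Matrix.vecMul, dotProduct, Fin.sum_univ_three, Pi.add_apply, Pi.smul_apply,
      smul_eq_mul]
  rw [h, fl_add, fl_add, fl_smul, fl_smul, fl_smul, Fin.sum_univ_three]

private theorem m4_fl_zero : fl 0 = 0 := by
  have h := fl_smul 0 0
  rwa [map_zero, zero_mul, smul_zero] at h

/-- independence of the three series -/
private theorem m4_ind {A : Matrix (Fin 3) (Fin 3) ℂ} (hA : A.det ≠ 0) {ls : Fn} (hls : ls ≠ 0)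
    {U : Fin 3 → PowerSeries Fn} (hU : ∀ r, PowerSeries.constantCoeff (U r) = fl (A r) / ls)
    {n : Fin 3 → PowerSeries ℂ}
    (h : ∑ r, PowerSeries.map (algebraMap ℂ Fn) (n r) * U r = 0) : n = 0 := by
  have key : ∀ m : ℕ, ∀ r, PowerSeries.coeff m (n r) = 0 := by
    intro m
    induction m using Nat.strong_induction_on with
    | _ m ih =>
      have h1 := congrArg (PowerSeries.coeff m) h
      rw [map_sum, map_zero] at h1
      have h2 : ∀ r, PowerSeries.coeff m (PowerSeries.map (algebraMap ℂ Fn) (n r) * U r) =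
          algebraMap ℂ Fn (PowerSeries.coeff m (n r)) * fl (A r) * ls⁻¹ := by
        intro r
        rw [m4_coeff (fun i hi => ih i hi r), hU, div_eq_mul_inv, mul_assoc]
      rw [Finset.sum_congr rfl fun r _ => h2 r, ← Finset.sum_mul] at h1
      have h3 := (mul_eq_zero.1 h1).resolve_right (inv_ne_zero hls)
      rw [← m4_fl (fun r => PowerSeries.coeff m (n r)) A, ← m4_fl_zero] at h3
      have h4 := Matrix.eq_zero_of_vecMul_eq_zero hA (fl_inj h3)
      exact fun r => congrFun h4 r
  funext r
  ext m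
  rw [key m r]
  simp

theorem exists_arc (hC : Config L)
    (hcous0 : ∀ e : Pt → Fn, LC L (Sect L 0 (fun _ => 0)) e → Glob (Sect L 0 (fun _ => 0)) e)
    {T : Pt → Finset Fn} {η : Pt → ArcAut Fn} (h : LogDef L T η) :
    ∃ (s : Fin k) (M : Fin k → Fin 3 → PowerSeries ℂ) (E : Fin 3 → PowerSeries Fn),
      (∀ i j, PowerSeries.constantCoeff (M i j) = L i j) ∧
      (∀ i j l, det3 (L i) (L j) (L l) = 0 → Matrix.det (Matrix.of ![M i, M j, M l]) = 0) ∧
      (∀ j, PowerSeries.constantCoeff (E j) = fl (Pi.single j 1) / fl (L s)) ∧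
      ∀ i y, RegS L y (((η y)⁻¹).toEquiv
        (∑ j, PowerSeries.map (algebraMap ℂ Fn) (M i j) * E j) *
          PowerSeries.C (fl (L s) / fl (L i))) := by
  classical
  obtain ⟨i1, i2, s, hdet⟩ := m4_three hC
  have hne : ∀ i, L i ≠ 0 := by
    intro i h0
    by_cases his : i = s
    · apply hdet
      rw [← his, h0, det3, Matrix.det_fin_three]
      simp
    · have := (hC.ind i s his).ne_zero 0
      simp [h0] at this
  have hfl : ∀ i, fl (L i) ≠ 0 := fun i => fl_ne_zero (hne i)
  -- the series U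
  have hex : ∀ i : Fin k, ∃ U : PowerSeries Fn, (i = s → U = 1) ∧
      PowerSeries.constantCoeff U = fl (L i) / fl (L s) ∧
      ∀ y, RegS L y (((η y)⁻¹).toEquiv U * PowerSeries.C (fl (L s) / fl (L i))) := by
    intro i
    by_cases his : i = s
    · refine ⟨1, fun _ => rfl, ?_, fun y => ?_⟩
      · rw [map_one, his, div_self (hfl s)]
      · rw [map_one, one_mul, his, div_self (hfl s)]
        have h1 := regS_const (L := L) (y := y) 1
        rwa [map_one] at h1
    · obtain ⟨U, h1, h2⟩ := mult_cousin hC hcous0 h i s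
      exact ⟨U, fun h3 => absurd h3 his, h1, h2⟩
  choose U hUs hU0 hU using hex
  have hH : ∀ i, HSec L η s (U i) := fun i => hsec_of_mult hC (hU i)
  have hms := fun i => msect hC hdet (hU0 i1) (hU0 i2) (hH i1) (hH i2) (hH i)
  choose a b c habc using hms
  set A : Matrix (Fin 3) (Fin 3) ℂ := Matrix.of ![L i1, L i2, L s] with hA
  have hAdet : A.det ≠ 0 := hdet
  set V : Fin 3 → PowerSeries Fn := ![U i1, U i2, U s] with hV
  have hV0 : ∀ r, PowerSeries.constantCoeff (V r) = fl (A r) / fl (L s) := by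
    intro r
    fin_cases r
    · exact hU0 i1
    · exact hU0 i2
    · exact hU0 s
  set N : Fin k → Fin 3 → PowerSeries ℂ := fun i => ![a i, b i, c i] with hN
  have hNV : ∀ i, ∑ r, PowerSeries.map (algebraMap ℂ Fn) (N i r) * V r = U i := by
    intro i
    rw [Fin.sum_univ_three, habc i]
    simp only [hN, hV, Matrix.cons_val_zero, Matrix.cons_val_one, Matrix.cons_val]
    rw [hUs s rfl, mul_one]
  set M : Fin k → Fin 3 → PowerSeries ℂ := fun i =>
    Matrix.vecMul (N i) (A.map PowerSeries.C) with hM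
  set E : Fin 3 → PowerSeries Fn := Matrix.mulVec
    ((A⁻¹).map (fun x => PowerSeries.C (algebraMap ℂ Fn x))) V with hE
  have hunit : IsUnit A.det := isUnit_iff_ne_zero.2 hAdet
  -- the sum
  have hsum : ∀ i, ∑ j, PowerSeries.map (algebraMap ℂ Fn) (M i j) * E j = U i := by
    intro i
    rw [← hNV i]
    have h1 : (fun j => PowerSeries.map (algebraMap ℂ Fn) (M i j)) =
        Matrix.vecMul (fun r => PowerSeries.map (algebraMap ℂ Fn) (N i r))
          (A.map (fun x => PowerSeries.C (algebraMap ℂ Fn x))) := by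
      funext j
      simp only [hM, Matrix.vecMul, dotProduct, map_sum, map_mul, Matrix.map_apply,
        PowerSeries.map_C]
    have h2 : (A.map (fun x => (PowerSeries.C (algebraMap ℂ Fn x) : PowerSeries Fn))) *
        ((A⁻¹).map (fun x => PowerSeries.C (algebraMap ℂ Fn x))) = 1 := by
      have h3 := Matrix.map_mul (L := A) (M := A⁻¹)
        (f := (PowerSeries.C (R := Fn)).comp (algebraMap ℂ Fn))
      rw [Matrix.mul_nonsing_inv _ hunit] at h3
      have h4 : (1 : Matrix (Fin 3) (Fin 3) ℂ).map
          ((PowerSeries.C (R := Fn)).comp (algebraMap ℂ Fn)) = 1 :=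
        Matrix.map_one _ (map_zero _) (map_one _)
      rw [h4] at h3
      exact h3.symm
    calc ∑ j, PowerSeries.map (algebraMap ℂ Fn) (M i j) * E j
        = (fun j => PowerSeries.map (algebraMap ℂ Fn) (M i j)) ⬝ᵥ E := rfl
      _ = (fun r => PowerSeries.map (algebraMap ℂ Fn) (N i r)) ⬝ᵥ V := by
        rw [h1, ← Matrix.dotProduct_mulVec, hE, Matrix.mulVec_mulVec, h2, Matrix.one_mulVec]
      _ = ∑ r, PowerSeries.map (algebraMap ℂ Fn) (N i r) * V r := rfl
  refine ⟨s, M, E, ?_, ?_, ?_, ?_⟩
  · -- constant coefficients of M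
    have h1 : ∀ i, Matrix.vecMul (fun r => PowerSeries.constantCoeff (N i r)) A = L i := by
      intro i
      apply fl_inj
      rw [m4_fl]
      have h2 := congrArg PowerSeries.constantCoeff (hNV i)
      rw [map_sum, hU0 i] at h2
      have h3 : ∀ r, PowerSeries.constantCoeff
          (PowerSeries.map (algebraMap ℂ Fn) (N i r) * V r) =
          algebraMap ℂ Fn (PowerSeries.constantCoeff (N i r)) * fl (A r) * (fl (L s))⁻¹ := by
        intro r
        rw [map_mul, hV0, div_eq_mul_inv, ← mul_assoc]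
        rfl
      rw [Finset.sum_congr rfl fun r _ => h3 r, ← Finset.sum_mul, div_eq_mul_inv] at h2
      exact mul_right_cancel₀ (inv_ne_zero (hfl s)) h2
    intro i j
    have h2 := congrFun (h1 i) j
    rw [← h2]
    simp only [hM, Matrix.vecMul, dotProduct, map_sum, map_mul, Matrix.map_apply,
      PowerSeries.constantCoeff_C]
  · -- concurrences
    intro i j l h3
    by_cases hij : i = j
    · exact Matrix.det_zero_of_row_eq (i := 0) (j := 1) (by decide) (congrArg M hij)
    by_cases hil : i = l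
    · exact Matrix.det_zero_of_row_eq (i := 0) (j := 2) (by decide) (congrArg M hil)
    by_cases hjl : j = l
    · exact Matrix.det_zero_of_row_eq (i := 1) (j := 2) (by decide) (congrArg M hjl)
    obtain ⟨q, hq0, hq⟩ := Matrix.exists_mulVec_eq_zero_iff.2 h3
    have hqi : L i ⬝ᵥ q = 0 := congrFun hq 0
    have hqj : L j ⬝ᵥ q = 0 := congrFun hq 1
    have hql : L l ⬝ᵥ q = 0 := congrFun hq 2
    have hmult : Multiple L q := ⟨i, j, l, hij, hil, hjl, hqi, hqj, hql⟩
    obtain ⟨f, g, hfg⟩ := msect_q hC hq0 hmult hij hqi hqj (hU0 i) (hU0 j) (hU i) (hU j) (hH l) (by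
      intro y e hym hSS hey n
      have hly : L l ⬝ᵥ y.q = 0 := by
        have h5 : l ∈ SS L q := by
          unfold SS
          exact Finset.mem_filter.2 ⟨Finset.mem_univ _, hql⟩
        rw [← hSS] at h5
        unfold SS at h5
        exact (Finset.mem_filter.1 h5).2
      have h5 : ((η y)⁻¹).toEquiv (U l) * PowerSeries.C (fl (L s) / fl (L e)) =
          (((η y)⁻¹).toEquiv (U l) * PowerSeries.C (fl (L s) / fl (L l))) *
            PowerSeries.C (fl (L l) / fl (L e)) := by
        rw [mul_assoc, ← map_mul]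
        congr 2
        have h6 := hfl l
        have h7 := hfl e
        field_simp
      rw [h5, PowerSeries.coeff_mul_C]
      obtain ⟨v, hv⟩ := regular_iff_val.1 (hU l y n)
      have h6 := Val.ratio (L := L) (l := L l) hey
      rw [hly, zero_div] at h6
      have h7 := hv.mul h6
      rwa [mul_zero] at h7)
    have hn : (fun r => N l r - f * N i r - g * N j r) = 0 := by
      refine m4_ind hAdet (hfl s) hV0 ?_
      have h5 : ∀ r, PowerSeries.map (algebraMap ℂ Fn) (N l r - f * N i r - g * N j r) * V r =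
          PowerSeries.map (algebraMap ℂ Fn) (N l r) * V r -
            PowerSeries.map (algebraMap ℂ Fn) f *
              (PowerSeries.map (algebraMap ℂ Fn) (N i r) * V r) -
            PowerSeries.map (algebraMap ℂ Fn) g *
              (PowerSeries.map (algebraMap ℂ Fn) (N j r) * V r) := by
        intro r
        rw [map_sub, map_sub, map_mul, map_mul]
        ring
      rw [Finset.sum_congr rfl fun r _ => h5 r, Finset.sum_sub_distrib, Finset.sum_sub_distrib,
        ← Finset.mul_sum, ← Finset.mul_sum, hNV, hNV, hNV, hfg]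
      ring
    have hMl : ∀ j', M l j' = f * M i j' + g * M j j' := by
      intro j'
      have h5 : ∀ r, N l r = f * N i r + g * N j r := by
        intro r
        have h6 := congrFun hn r
        have h7 : N l r - f * N i r - g * N j r = 0 := h6
        linear_combination h7
      simp only [hM, Matrix.vecMul, dotProduct]
      rw [Finset.mul_sum, Finset.mul_sum, ← Finset.sum_add_distrib]
      refine Finset.sum_congr rfl fun r _ => ?_
      rw [h5 r]
      ring
    rw [Matrix.det_fin_three]
    simp only [Matrix.of_apply, Matrix.cons_val_zero, Matrix.cons_val_one, Matrix.cons_val]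
    rw [hMl 0, hMl 1, hMl 2]
    ring
  · -- constant coefficients of E
    intro j
    have h1 : PowerSeries.constantCoeff (E j) =
        (∑ r, algebraMap ℂ Fn (A⁻¹ j r) * fl (A r)) * (fl (L s))⁻¹ := by
      simp only [hE, Matrix.mulVec, dotProduct, map_sum, map_mul, Matrix.map_apply,
        PowerSeries.constantCoeff_C]
      rw [Finset.sum_mul]
      refine Finset.sum_congr rfl fun r _ => ?_
      rw [hV0, div_eq_mul_inv, mul_assoc]
    rw [h1, ← m4_fl (A⁻¹ j) A, div_eq_mul_inv]
    congr 2
    have h2 := Matrix.nonsing_inv_mul A hunit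
    have h3 := congrFun h2 j
    have h4 : Matrix.vecMul (A⁻¹ j) A = (1 : Matrix (Fin 3) (Fin 3) ℂ) j := h3
    rw [h4]
    funext l
    rw [Matrix.one_apply, Pi.single_apply]
    by_cases hjl : j = l
    · rw [if_pos hjl, if_pos hjl.symm]
    · rw [if_neg hjl, if_neg (Ne.symm hjl)]
  · intro i y
    rw [hsum i]
    exact hU i y

end HKR
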