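import Pool.Agent.Lib.HKR.ArcOps

/-!
HKR, stage B, step 2 (equivariant deformations).  Definitions, by helper90.
-/

open MvPolynomial

namespace HKR

/-- power series over `Fn` as power series over `K` -/
noncomputable def liftP (K : Type) [Field K] [Algebra Fn K] (f : PowerSeries Fn) : PowerSeries K :=
  PowerSeries.map (algebraMap Fn K) f

/-- power series with regular coefficients -/
def RegS {k : ℕ} (L : Fin k → Fin 3 → ℂ) (y : Pt) (f : PowerSeries Fn) : Prop :=
  ∀ m, Regular L y (PowerSeries.coeff m f)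

/-- `η` preserves the local ring of `Y` at `y` and all the lines: the ratios
`η(ℓᵢ/ℓⱼ)/(ℓᵢ/ℓⱼ)` are power series with regular coefficients -/
def LogA {k : ℕ} (L : Fin k → Fin 3 → ℂ) (y : Pt) (η : ArcAut Fn) : Prop :=
  ∀ i j, RegS L y (η.toEquiv (PowerSeries.C (fl (L i) / fl (L j))) *
    PowerSeries.C (fl (L j) / fl (L i)))

/-- families of automorphisms of `Fn[[t]]`, locally the same up to `LogA` -/
def LogDef {k : ℕ} (L : Fin k → Fin 3 → ℂ) (T : Pt → Finset Fn) (η : Pt → ArcAut Fn) : Prop :=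
  ∀ y, (∀ f ∈ T y, Regular L y f) ∧ ∀ y', (∀ f ∈ T y, Regular L y' f) →
    LogA L y' ((η y')⁻¹ * η y) ∧ LogA L y' ((η y)⁻¹ * η y')

end HKR
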