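import Pool.Agent.Lib.HKR.T1
import Pool.Agent.Lib.HKR.B4
/-!
HKR.N1 (small configurations, part 1; helper88).  p, q two points on the line c of the configuration, exactly
three lines a, b, c through p, all other lines through q (k = 4: three concurrent lines and a
fourth; k = 5: two triple points on a common line).  Then the character (1, 1, n-2) on (a, b, c) has a class
that is not trivial: a vector field δ in the direction of the pencil of p, put on one fibre (the line mu through
p), 0 elsewhere.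
-/
open MvPolynomial
namespace HKR
variable {k : ℕ} {L : Fin k → Fin 3 → ℂ}

/-- `y` lies on the strict transform of the line `mu` through `p` -/
def Fib (mu p : Fin 3 → ℂ) (y : Pt) : Prop :=
  mu ⬝ᵥ y.q = 0 ∧ ∀ c : ℂ, y.q = c • p → mu ⬝ᵥ y.w = 0

private theorem n1_par {u v p q : Fin 3 → ℂ} (h : LinearIndependent ℂ ![u, v]) (hp : p ≠ 0)
    (h1 : u ⬝ᵥ p = 0) (h2 : v ⬝ᵥ p = 0) (h3 : u ⬝ᵥ q = 0) (h4 : v ⬝ᵥ q = 0) :
    ∃ c : ℂ, q = c • p := by
  have hc : crossProduct u v ≠ 0 := crossProduct_ne_zero_iff_linearIndependent.2 h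
  obtain ⟨j, hj⟩ := Function.ne_iff.1 hc
  have key : ∀ x : Fin 3 → ℂ, u ⬝ᵥ x = 0 → v ⬝ᵥ x = 0 →
      ∀ i, x i * (crossProduct u v) j = x j * (crossProduct u v) i := by
    intro x hx hy i
    have h0 : crossProduct x (crossProduct u v) = 0 := by
      rw [cross_cross_eq_smul_sub_smul', hx, dotProduct_comm x v, hy, zero_smul, zero_smul,
        sub_zero]
    generalize crossProduct u v = c at h0 ⊢
    rw [cross_apply] at h0
    have e0 := congrFun h0 0
    have e1 := congrFun h0 1
    have e2 := congrFun h0 2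
    simp only [Matrix.cons_val_zero, Matrix.cons_val_one, Matrix.cons_val, Pi.zero_apply] at e0 e1 e2
    fin_cases i <;> fin_cases j <;> simp only [Fin.zero_eta, Fin.mk_one, Fin.reduceFinMk] <;>
      first
      | rfl
      | linear_combination e0
      | linear_combination e1
      | linear_combination e2
      | linear_combination -e0
      | linear_combination -e1
      | linear_combination -e2
  have kp := key p h1 h2
  have kq := key q h3 h4
  simp only [Pi.zero_apply] at hj
  have hpj : p j ≠ 0 := by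
    intro h0
    apply hp
    funext i
    have := kp i
    rw [h0, zero_mul] at this
    exact (mul_eq_zero.1 this).resolve_right hj
  refine ⟨q j / p j, ?_⟩
  funext i
  have a := kp i
  have b := kq i
  rw [Pi.smul_apply, smul_eq_mul]
  have c : q i * p j = q j * p i := by
    have : (q i * p j - q j * p i) * (crossProduct u v) j = 0 := by
      linear_combination p j * b - q j * a
    exact sub_eq_zero.1 ((mul_eq_zero.1 this).resolve_right hj)
  field_simp
  linear_combination c

private theorem n1_q (y : Pt) : y.q ≠ 0 := by simpa using y.ind.ne_zero 0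

private theorem n1_mult {p : Fin 3 → ℂ} {y : Pt} (hp : Multiple L p) {c : ℂ} (h : y.q = c • p) :
    Multiple L y.q := by
  obtain ⟨a, b, d, h1, h2, h3, h4, h5, h6⟩ := hp
  refine ⟨a, b, d, h1, h2, h3, ?_, ?_, ?_⟩ <;> rw [h, dotProduct_smul]
  · rw [h4, smul_zero]
  · rw [h5, smul_zero]
  · rw [h6, smul_zero]

private theorem n1_cne {p : Fin 3 → ℂ} {y : Pt} {c : ℂ} (h : y.q = c • p) : c ≠ 0 := by
  rintro rfl
  exact n1_q y (by rw [h, zero_smul])

private theorem n1_SS {p : Fin 3 → ℂ} {y : Pt} {c : ℂ} (h : y.q = c • p) :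
    SS L y.q = SS L p := by
  have hc := n1_cne h
  unfold SS
  congr 1
  funext i
  rw [h, dotProduct_smul, smul_eq_mul, mul_eq_zero]
  simp [hc]

/-- off the fibre of `v` the ratio `u / v` is regular -/
private theorem n1_reg {p u v : Fin 3 → ℂ} (hp : Multiple L p)
    (hu : u ⬝ᵥ p = 0) {y : Pt} (h : ¬ Fib v p y) :
    Regular L y (fl u / fl v) := by
  by_cases hv : v ⬝ᵥ y.q = 0
  · unfold Fib at h
    push Not at h
    obtain ⟨c, hc, hw⟩ := h hv
    refine regular_iff_val.2 ⟨_, Val.ratio_mult (n1_mult hp hc) ?_ hv hw⟩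
    rw [hc, dotProduct_smul, hu, smul_zero]
  · exact regular_iff_val.2 ⟨_, Val.ratio hv⟩

/-- two different fibres are disjoint -/
private theorem n1_disj {p u v : Fin 3 → ℂ} (hp : p ≠ 0) (hu : u ⬝ᵥ p = 0) (hv : v ⬝ᵥ p = 0)
    (huv : LinearIndependent ℂ ![u, v]) {y : Pt} (h1 : Fib u p y) (h2 : Fib v p y) : False := by
  obtain ⟨c, hc⟩ := n1_par huv hp hu hv h1.1 h2.1
  have hw1 := h1.2 c hc
  have hw2 := h2.2 c hc
  obtain ⟨c', hc'⟩ := n1_par huv hp hu hv hw1 hw2
  have hi := LinearIndependent.pair_iff.1 y.ind c' (-c) (by rw [hc, hc']; module)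
  exact n1_cne hc (by simpa using hi.2)

/-- on the fibre of `v` the ratio `v / u` has value 0 -/
private theorem n1_val {p u v : Fin 3 → ℂ} (hp0 : p ≠ 0) (hp : Multiple L p)
    (hu : u ⬝ᵥ p = 0) (hv : v ⬝ᵥ p = 0)
    (huv : LinearIndependent ℂ ![u, v]) {y : Pt} (h : Fib v p y) :
    Val L y (fl v / fl u) 0 := by
  by_cases h0 : u ⬝ᵥ y.q = 0
  · have hn : ¬ Fib u p y := fun h' => n1_disj hp0 hu hv huv h' h
    unfold Fib at hn
    push Not at hn
    obtain ⟨c, hc, hw⟩ := hn h0
    have hm := n1_mult hp hc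
    have := Val.ratio_mult (L := L) (l := v) (l' := u) hm h.1 h0 hw
    rwa [h.2 c hc, zero_div] at this
  · have := Val.ratio (L := L) (l := v) h0
    rwa [h.1, zero_div] at this

open Classical in
/-- the class `E_p`, as a function of the set of lines -/
private noncomputable def MM (L : Fin k → Fin 3 → ℂ) (p : Fin 3 → ℂ) : Finset (Fin k) → ℤ :=
  fun S => if S = SS L p then 1 else 0

private theorem n1_inv {p v : Fin 3 → ℂ} {y : Pt} (hp : Multiple L p) (h : ¬ Fib v p y) :
    Sect L 1 (MM L p) y (fl v)⁻¹ := by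
  by_cases hv : v ⬝ᵥ y.q = 0
  · unfold Fib at h
    push Not at h
    obtain ⟨c, hc, hw⟩ := h hv
    have := sect_inv_mult (n1_mult hp hc) hv hw
    refine this.congr_m fun _ => ?_
    unfold MM
    rw [n1_SS hc]
  · refine (sect_inv hv).mono fun _ => ?_
    unfold MM
    split_ifs <;> simp

/-- the character `(1, 1, n - 2)` on the lines `a, b, c` -/
def chN (k n : ℕ) (a b c : Fin k) : Fin k → ℕ :=
  fun i => if i = a then 1 else if i = b then 1 else if i = c then n - 2 else 0

private theorem n1_alpha {n : ℕ} {a b c : Fin k} (hab : a ≠ b) (hac : a ≠ c) (hbc : b ≠ c)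
    (i : Fin k) : chN k n a b c i =
      (if i = a then 1 else 0) + (if i = b then 1 else 0) + (if i = c then n - 2 else 0) := by
  unfold chN
  by_cases h1 : i = a
  · subst h1; simp [hab, hac]
  · by_cases h2 : i = b
    · subst h2; simp [hbc, Ne.symm hab]
    · simp [h1, h2]

private theorem n1_sum {n : ℕ} {a b c : Fin k} (hab : a ≠ b) (hac : a ≠ c) (hbc : b ≠ c)
    (S : Finset (Fin k)) : ∑ i ∈ S, chN k n a b c i =
      (if a ∈ S then 1 else 0) + (if b ∈ S then 1 else 0) + (if c ∈ S then n - 2 else 0) := by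
  rw [Finset.sum_congr rfl fun i _ => n1_alpha hab hac hbc i, Finset.sum_add_distrib,
    Finset.sum_add_distrib, Finset.sum_ite_eq', Finset.sum_ite_eq', Finset.sum_ite_eq']

private theorem n1_bl {n : ℕ} (hn : 3 ≤ n) {a b c : Fin k} (i : Fin k) :
    bl n (chN k n a b c) i = 0 := by
  unfold bl chN
  rw [if_neg]
  split_ifs <;> omega

private theorem n1_SSmem {q : Fin 3 → ℂ} {i : Fin k} : i ∈ SS L q ↔ L i ⬝ᵥ q = 0 := by
  unfold SS
  simp

private theorem n1_mS (hC : Config L) {n : ℕ} (hn : 3 ≤ n) {a b c : Fin k} (hab : a ≠ b)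
    (hac : a ≠ c) (hbc : b ≠ c) {p : Fin 3 → ℂ} (hp0 : p ≠ 0) (ha : L a ⬝ᵥ p = 0)
    (hb : L b ⬝ᵥ p = 0) (hc : L c ⬝ᵥ p = 0) (y : Pt) :
    ((∑ l ∈ SS L y.q, chN k n a b c l) / n : ℕ) = MM L p (SS L y.q) ∧
      bS n (chN k n a b c) (SS L y.q) = 0 := by
  classical
  have hpar : ∀ i j : Fin k, i ≠ j → L i ⬝ᵥ p = 0 → L j ⬝ᵥ p = 0 → i ∈ SS L y.q → j ∈ SS L y.q →
      SS L y.q = SS L p := by
    intro i j hij h1 h2 h3 h4
    obtain ⟨x, hx⟩ := n1_par (hC.ind i j hij) hp0 h1 h2 (n1_SSmem.1 h3) (n1_SSmem.1 h4)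
    exact n1_SS hx
  have hs := n1_sum (n := n) hab hac hbc (SS L y.q)
  unfold bS MM
  by_cases hS : SS L y.q = SS L p
  · have h1 : a ∈ SS L y.q := by rw [hS]; exact n1_SSmem.2 ha
    have h2 : b ∈ SS L y.q := by rw [hS]; exact n1_SSmem.2 hb
    have h3 : c ∈ SS L y.q := by rw [hS]; exact n1_SSmem.2 hc
    rw [if_pos h1, if_pos h2, if_pos h3, show 1 + 1 + (n - 2) = n by omega] at hs
    rw [hs, if_pos hS, Nat.mod_self, Nat.div_self (by omega)]
    refine ⟨by simp, if_neg (by omega)⟩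
  · have hab' : ¬ (a ∈ SS L y.q ∧ b ∈ SS L y.q) := fun h => hS (hpar a b hab ha hb h.1 h.2)
    have hac' : ¬ (a ∈ SS L y.q ∧ c ∈ SS L y.q) := fun h => hS (hpar a c hac ha hc h.1 h.2)
    have hbc' : ¬ (b ∈ SS L y.q ∧ c ∈ SS L y.q) := fun h => hS (hpar b c hbc hb hc h.1 h.2)
    have hlt : ∑ l ∈ SS L y.q, chN k n a b c l + 1 < n := by
      rw [hs]
      by_cases h1 : a ∈ SS L y.q
      · have h2 : b ∉ SS L y.q := fun h => hab' ⟨h1, h⟩
        have h3 : c ∉ SS L y.q := fun h => hac' ⟨h1, h⟩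
        simp only [h1, h2, h3, if_true, if_false]; omega
      · by_cases h2 : b ∈ SS L y.q
        · have h3 : c ∉ SS L y.q := fun h => hbc' ⟨h2, h⟩
          simp only [h1, h2, h3, if_true, if_false]; omega
        · by_cases h3 : c ∈ SS L y.q
          · simp only [h1, h2, h3, if_true, if_false]; omega
          · simp only [h1, h2, h3, if_false]; omega
    rw [if_neg hS, Nat.div_eq_of_lt (by omega), Nat.mod_eq_of_lt (by omega)]
    exact ⟨by simp, if_neg (by omega)⟩

private theorem n1_fcond (hC : Config L) {n : ℕ} (hn : 3 ≤ n) {a b c : Fin k} (hab : a ≠ b)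
    (hac : a ≠ c) (hbc : b ≠ c) {p : Fin 3 → ℂ} (hp0 : p ≠ 0) (ha : L a ⬝ᵥ p = 0)
    (hb : L b ⬝ᵥ p = 0) (hc : L c ⬝ᵥ p = 0) (y : Pt) (D : Derivation ℂ Fn Fn) :
    FCond L n (chN k n a b c) y D ↔ ∀ i j, i ≠ j → Sect L 1 (MM L p) y (cij L D i j) := by
  have hsum : ∑ l, chN k n a b c l = n := by
    rw [n1_sum hab hac hbc]
    simp only [Finset.mem_univ, if_true]
    omega
  obtain ⟨h1, h2⟩ := n1_mS hC hn hab hac hbc hp0 ha hb hc y
  unfold FCond
  refine forall_congr' fun i => forall_congr' fun j => imp_congr_right fun _ => ?_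
  rw [n1_bl hn, n1_bl hn, pow_zero, pow_zero, mul_one, mul_one, hsum, Nat.div_self (by omega)]
  simp only [Nat.cast_zero, Nat.cast_one, sub_zero, ite_self]
  constructor
  · intro h
    refine h.congr_m fun _ => ?_
    rw [h1, h2]
    simp
  · intro h
    refine h.congr_m fun _ => ?_
    rw [h1, h2]
    simp


/-- a cocycle with two charts: `v` on `F`, zero elsewhere; locally constant modulo `P`, not global -/
structure TwoChart {k : ℕ} (L : Fin k → Fin 3 → ℂ) {V : Type} [AddCommGroup V] (P : Pt → V → Prop)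
    (F : Pt → Prop) (v : V) : Prop where
  near : ∀ y, F y → ∃ T : Finset Fn, (∀ f ∈ T, Regular L y f) ∧
    ∀ y', (∀ f ∈ T, Regular L y' f) → ¬ F y' → P y' v
  away : ∀ y, ¬ F y → ∃ T : Finset Fn, (∀ f ∈ T, Regular L y f) ∧
    ∀ y', (∀ f ∈ T, Regular L y' f) → ¬ F y'
  nontriv : ∀ E : V, ¬ ((∀ y, ¬ F y → P y E) ∧ (∀ y, F y → P y (E - v)))

private theorem n1_span {q : Fin 3 → ℂ} (hq : q ≠ 0) {a b r : Fin 3 → ℂ} (ha : a ⬝ᵥ q = 0)
    (hb : b ⬝ᵥ q = 0) (hr : r ⬝ᵥ q = 0) (hab : LinearIndependent ℂ ![a, b]) :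
    ∃ x y : ℂ, r = x • a + y • b := by
  have hdet : (Matrix.of ![a, b, r]).det = 0 := by
    rw [← Matrix.exists_mulVec_eq_zero_iff]
    refine ⟨q, hq, ?_⟩
    ext i
    fin_cases i
    · exact ha
    · exact hb
    · exact hr
  rw [← Matrix.exists_vecMul_eq_zero_iff] at hdet
  obtain ⟨v, hv, hv0⟩ := hdet
  have hsum : v 0 • a + v 1 • b + v 2 • r = 0 := by
    ext i
    have h1 := congrFun hv0 i
    simp only [Matrix.vecMul, dotProduct, Fin.sum_univ_three, Matrix.of_apply, Pi.zero_apply,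
      Matrix.cons_val] at h1
    simp only [Pi.add_apply, Pi.smul_apply, smul_eq_mul, Pi.zero_apply]
    exact h1
  have h2 : v 2 ≠ 0 := by
    intro h2
    rw [h2, zero_smul, add_zero] at hsum
    obtain ⟨h0, h1⟩ := (LinearIndependent.pair_iff.mp hab) _ _ hsum
    apply hv
    ext i
    fin_cases i
    · exact h0
    · exact h1
    · exact h2
  refine ⟨-(v 0) / v 2, -(v 1) / v 2, ?_⟩
  ext i
  have h3 := congrFun hsum i
  simp only [Pi.add_apply, Pi.smul_apply, smul_eq_mul, Pi.zero_apply] at h3 ⊢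
  field_simp
  linear_combination h3

private theorem n1_fl {l v : Fin 3 → ℂ} (h : LinearIndependent ℂ ![l, v]) : fl l ≠ 0 := by
  refine fl_ne_zero ?_
  simpa using h.ne_zero 0

private theorem n1_am {x : ℂ} (h : x ≠ 0) : algebraMap ℂ Fn x ≠ 0 := by
  rw [Ne, map_eq_zero_iff _ (algebraMap ℂ Fn).injective]
  exact h

/-- if `v / u` is regular then `y` is not on the fibre of `u` -/
private theorem n1_notfib {p u v : Fin 3 → ℂ} (hp0 : p ≠ 0) (hp : Multiple L p)
    (hu : u ⬝ᵥ p = 0) (hv : v ⬝ᵥ p = 0)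
    (huv : LinearIndependent ℂ ![u, v]) {y : Pt} (h : Regular L y (fl v / fl u)) :
    ¬ Fib u p y := by
  intro hF
  have h1 := n1_val (L := L) hp0 hp hv hu (LinearIndependent.pair_symm_iff.1 huv) hF
  obtain ⟨c, hc⟩ := regular_iff_val.1 h
  have h2 := h1.mul hc
  have e1 := n1_fl huv
  have e2 := n1_fl (LinearIndependent.pair_symm_iff.1 huv)
  rw [show fl u / fl v * (fl v / fl u) = 1 by field_simp, zero_mul] at h2
  have h3 := Val.const (L := L) (y := y) 1
  rw [map_one] at h3
  exact zero_ne_one (h2.unique h3)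


/-- the vector field in the direction of the pencil -/
private theorem n1_delta (hC : Config L) {a b c d : Fin k} (hab : a ≠ b)
    (hac : a ≠ c) (hbc : b ≠ c) {p q : Fin 3 → ℂ} (hp0 : p ≠ 0) (ha : L a ⬝ᵥ p = 0)
    (hb : L b ⬝ᵥ p = 0) (hc : L c ⬝ᵥ p = 0) (hS : ∀ i, L i ⬝ᵥ p = 0 → i = a ∨ i = b ∨ i = c)
    (hq0 : q ≠ 0) (hcq : L c ⬝ᵥ q = 0) (hdp : L d ⬝ᵥ p ≠ 0)
    (hoff : ∀ i, L i ⬝ᵥ p ≠ 0 → L i ⬝ᵥ q = 0) {x y : ℂ} (hx : x ≠ 0) (hy : y ≠ 0)
    (hrel : L c = x • L a + y • L b) (g : Fn) :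
    ∃ δ : Derivation ℂ Fn Fn, cij L δ a c = algebraMap ℂ Fn y * fl (L b) * g ∧
      cij L δ b c = -(algebraMap ℂ Fn x * fl (L a) * g) ∧ ∀ i, i ≠ a → i ≠ b → cij L δ i c = 0 := by
  have hdc : d ≠ c := by rintro rfl; exact hdp hc
  have hdet : det3 (L a) (L d) (L c) ≠ 0 := by
    intro h0
    unfold det3 at h0
    rw [← Matrix.exists_mulVec_eq_zero_iff] at h0
    obtain ⟨v, hv, hv0⟩ := h0
    have e0 : L a ⬝ᵥ v = 0 := congrFun hv0 0
    have e1 : L d ⬝ᵥ v = 0 := congrFun hv0 1
    have e2 : L c ⬝ᵥ v = 0 := congrFun hv0 2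
    obtain ⟨t, ht⟩ := n1_par (hC.ind a c hac) hp0 ha hc e0 e2
    rw [ht, dotProduct_smul, smul_eq_mul, mul_eq_zero] at e1
    rcases e1 with e1 | e1
    · exact hv (by rw [ht, e1, zero_smul])
    · exact hdp e1
  obtain ⟨δ, h1, h2⟩ := exists_der hC hdet (algebraMap ℂ Fn y * fl (L b) * g) 0
  refine ⟨δ, h1, ?_, ?_⟩
  · have h3 := cij_rel hC δ (i := a) (j := b) (l := c) (s := c) (a := x) (b := y) (c := -1)
      (e := 0) (by rw [hrel]; module)
    rw [cij_self hC, mul_zero, add_zero, h1] at h3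
    have e1 := n1_am hy
    have e2 := n1_fl (hC.ind b c hbc)
    have h4 : algebraMap ℂ Fn y * fl (L b) * (cij L δ b c + algebraMap ℂ Fn x * fl (L a) * g) = 0 := by
      linear_combination h3
    have h5 := (mul_eq_zero.1 h4).resolve_left (mul_ne_zero e1 e2)
    linear_combination h5
  · intro i hia hib
    by_cases hic : i = c
    · rw [hic, cij_self hC]
    by_cases hip : L i ⬝ᵥ p = 0
    · rcases hS i hip with h | h | h
      · exact absurd h hia
      · exact absurd h hib
      · exact absurd h hic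
    · obtain ⟨u, w, huw⟩ := n1_span hq0 hcq (hoff d hdp) (hoff i hip)
        (hC.ind c d (Ne.symm hdc))
      have h3 := cij_rel hC δ (i := i) (j := c) (l := d) (s := c) (a := -1) (b := u) (c := w)
        (e := 0) (by rw [huw]; module)
      rw [cij_self hC, mul_zero, h2, mul_zero, add_zero, add_zero] at h3
      have e1 := n1_fl (hC.ind i c hic)
      have e2 : algebraMap ℂ Fn (-1) ≠ 0 := n1_am (by norm_num)
      exact (mul_eq_zero.1 h3).resolve_left (mul_ne_zero e2 e1)

/-- the coordinate of a vector field in the direction of the pencil -/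
private theorem n1_hsect (hC : Config L) {a b c : Fin k} (hab : a ≠ b)
    (hac : a ≠ c) (hbc : b ≠ c) {p : Fin 3 → ℂ} (hp0 : p ≠ 0) (ha : L a ⬝ᵥ p = 0)
    (hb : L b ⬝ᵥ p = 0) (hc : L c ⬝ᵥ p = 0) {x y : ℂ} (hx : x ≠ 0) (hy : y ≠ 0)
    (hrel : L c = x • L a + y • L b) {z : Pt} {D : Derivation ℂ Fn Fn}
    (h : ∀ i j, i ≠ j → Sect L 1 (MM L p) z (cij L D i j)) :
    Sect L 2 (fun S => MM L p S + MM L p S) z (cij L D a c / (algebraMap ℂ Fn y * fl (L b))) := by
  have hm : Multiple L p := ⟨a, b, c, hab, hac, hbc, ha, hb, hc⟩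
  have ea := n1_fl (hC.ind a b hab)
  have eb := n1_fl (hC.ind b c hbc)
  have ey := n1_am hy
  have ex := n1_am hx
  by_cases hF : Fib (L b) p z
  · have hnF : ¬ Fib (L a) p z := fun h' => n1_disj hp0 ha hb (hC.ind a b hab) h' hF
    have h3 := cij_rel hC D (i := a) (j := b) (l := c) (s := c) (a := x) (b := y) (c := -1)
      (e := 0) (by rw [hrel]; module)
    rw [cij_self hC, mul_zero, add_zero] at h3
    have h4 : cij L D a c / (algebraMap ℂ Fn y * fl (L b)) =
        algebraMap ℂ Fn (-x⁻¹) * (cij L D b c * (fl (L a))⁻¹) := by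
      rw [map_neg, map_inv₀]
      field_simp
      linear_combination h3
    rw [h4]
    refine Sect.smul ?_ _
    have := (h b c hbc).mul (n1_inv hm hnF)
    exact this
  · have h4 : cij L D a c / (algebraMap ℂ Fn y * fl (L b)) =
        algebraMap ℂ Fn (y⁻¹) * (cij L D a c * (fl (L b))⁻¹) := by
      rw [map_inv₀]
      field_simp
    rw [h4]
    refine Sect.smul ?_ _
    exact (h a c hac).mul (n1_inv hm hF)

/-- MODULE N1 -/
theorem neg_pencil (hC : Config L) {n : ℕ} (hn : 3 ≤ n) {a b c d : Fin k} (hab : a ≠ b)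
    (hac : a ≠ c) (hbc : b ≠ c) {p q : Fin 3 → ℂ} (hp0 : p ≠ 0) (ha : L a ⬝ᵥ p = 0)
    (hb : L b ⬝ᵥ p = 0) (hc : L c ⬝ᵥ p = 0) (hS : ∀ i, L i ⬝ᵥ p = 0 → i = a ∨ i = b ∨ i = c)
    (hq0 : q ≠ 0) (hcq : L c ⬝ᵥ q = 0) (hdp : L d ⬝ᵥ p ≠ 0)
    (hoff : ∀ i, L i ⬝ᵥ p ≠ 0 → L i ⬝ᵥ q = 0) :
    ∃ (mu : Fin 3 → ℂ) (δ : Derivation ℂ Fn Fn),
      TwoChart L (FCond L n (chN k n a b c)) (Fib mu p) δ := by
  have hm : Multiple L p := ⟨a, b, c, hab, hac, hbc, ha, hb, hc⟩
  obtain ⟨x, y, hrel⟩ := n1_span hp0 ha hb hc (hC.ind a b hab)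
  have hx : x ≠ 0 := by
    rintro rfl
    have := LinearIndependent.pair_iff.1 (hC.ind b c hbc) y (-1) (by rw [hrel]; module)
    norm_num at this
  have hy : y ≠ 0 := by
    rintro rfl
    have := LinearIndependent.pair_iff.1 (hC.ind a c hac) x (-1) (by rw [hrel]; module)
    norm_num at this
  have iab := LinearIndependent.pair_iff.1 (hC.ind a b hab)
  set mu : Fin 3 → ℂ := x • L a + (2 * y) • L b with hmu
  have hmp : mu ⬝ᵥ p = 0 := by
    rw [hmu, add_dotProduct, smul_dotProduct, smul_dotProduct, ha, hb, smul_zero, smul_zero,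
      add_zero]
  have hma : LinearIndependent ℂ ![mu, L a] := by
    rw [LinearIndependent.pair_iff]
    intro s t hst
    have := iab (s * x + t) (s * (2 * y)) (by rw [← hst, hmu]; module)
    have hs : s = 0 := by
      have h2 := this.2
      have : (2 * y) ≠ 0 := mul_ne_zero two_ne_zero hy
      exact (mul_eq_zero.1 h2).resolve_right this
    refine ⟨hs, ?_⟩
    simpa [hs] using this.1
  have hmc : LinearIndependent ℂ ![mu, L c] := by
    rw [LinearIndependent.pair_iff]
    intro s t hst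
    have := iab (s * x + t * x) (s * (2 * y) + t * y) (by rw [← hst, hmu, hrel]; module)
    have h1 : s + t = 0 := by
      have : (s + t) * x = 0 := by linear_combination this.1
      exact (mul_eq_zero.1 this).resolve_right hx
    have h2 : 2 * s + t = 0 := by
      have : (2 * s + t) * y = 0 := by linear_combination this.2
      exact (mul_eq_zero.1 this).resolve_right hy
    exact ⟨by linear_combination h2 - h1, by linear_combination 2 * h1 - h2⟩
  have emu := n1_fl hma
  have ea := n1_fl (hC.ind a b hab)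
  have eb := n1_fl (hC.ind b c hbc)
  have ey := n1_am hy
  obtain ⟨δ, d1, d2, d3⟩ := n1_delta hC hab hac hbc hp0 ha hb hc hS hq0 hcq hdp hoff hx hy hrel
    ((fl mu)⁻¹ * (fl (L a))⁻¹)
  have hfc := fun y D => n1_fcond hC hn hab hac hbc hp0 ha hb hc y D
  refine ⟨mu, δ, ⟨?_, ?_, ?_⟩⟩
  · intro z hz
    refine ⟨{fl mu / fl (L a)}, ?_, ?_⟩
    · intro f hf
      rw [Finset.mem_singleton.1 hf]
      exact regular_iff_val.2 ⟨_, n1_val hp0 hm ha hmp (LinearIndependent.pair_symm_iff.1 hma) hz⟩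
    · intro z' hz' hF
      have hFa : ¬ Fib (L a) p z' := n1_notfib hp0 hm ha hmp
        (LinearIndependent.pair_symm_iff.1 hma) (hz' _ (Finset.mem_singleton_self _))
      rw [hfc]
      have hic : ∀ i, Sect L 1 (MM L p) z' (cij L δ i c) := by
        intro i
        by_cases hia : i = a
        · rw [hia, d1]
          have h1 := ((n1_inv hm hF).mul_reg (n1_reg (u := L b) hm hb hFa)).smul y
          convert h1 using 1
          field_simp
        · by_cases hib : i = b
          · rw [hib, d2]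
            have h1 := (n1_inv hm hF).smul (-x)
            convert h1 using 1
            rw [map_neg]
            field_simp
          · rw [d3 i hia hib]
            exact Sect.zero
      intro i j _
      rw [show cij L δ i j = cij L δ i c - cij L δ j c by rw [← cij_trans hC δ i j c]; ring]
      exact (hic i).sub (hic j)
  · intro z hz
    refine ⟨{fl (L a) / fl mu}, ?_, ?_⟩
    · intro f hf
      rw [Finset.mem_singleton.1 hf]
      exact n1_reg hm ha hz
    · intro z' hz'
      exact n1_notfib hp0 hm hmp ha hma (hz' _ (Finset.mem_singleton_self _))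
  · rintro E ⟨hE1, hE2⟩
    set h : Derivation ℂ Fn Fn → Fn := fun D => cij L D a c / (algebraMap ℂ Fn y * fl (L b))
    have hδ : h δ = (fl mu)⁻¹ * (fl (L a))⁻¹ := by
      simp only [h]
      rw [d1]
      field_simp
    have hsub : h (E - δ) = h E - h δ := by
      simp only [h]
      rw [cij_sub]
      ring
    have hall : ∀ z, Sect L 1 (MM L p) z (fl mu * h E) := by
      intro z
      have hmult := sect_through (y := z) hm hp0 hC hmp
      by_cases hz : Fib mu p z
      · have h1 := n1_hsect hC hab hac hbc hp0 ha hb hc hx hy hrel ((hfc z _).1 (hE2 z hz))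
        have h2 := hmult.mul h1
        have hFa : ¬ Fib (L a) p z := fun h' => n1_disj hp0 ha hmp
          (LinearIndependent.pair_symm_iff.1 hma) h' hz
        have h3 := n1_inv (v := L a) hm hFa
        have h4 : fl mu * h E = fl mu * h (E - δ) + (fl (L a))⁻¹ := by
          rw [hsub, hδ]
          field_simp
          ring
        rw [h4]
        refine Sect.add ?_ h3
        refine Sect.congr_m (h2 : Sect L (-1 + 2) _ z _) fun _ => ?_
        unfold MM
        split_ifs <;> norm_num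
      · have h1 := n1_hsect hC hab hac hbc hp0 ha hb hc hx hy hrel ((hfc z _).1 (hE1 z hz))
        have h2 := hmult.mul h1
        refine Sect.congr_m (h2 : Sect L (-1 + 2) _ z _) fun _ => ?_
        unfold MM
        split_ifs <;> norm_num
    have hE0 : h E = 0 := by
      have := h0_neg hC one_pos (fun z _ => hall z)
      exact (mul_eq_zero.1 this).resolve_left emu
    -- the point of the fibre over `p`
    have hcr : crossProduct (L a) mu ≠ 0 :=
      crossProduct_ne_zero_iff_linearIndependent.2 (LinearIndependent.pair_symm_iff.1 hma)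
    obtain ⟨j, hj⟩ := Function.ne_iff.1 hcr
    set w : Fin 3 → ℂ := crossProduct mu (Pi.single j 1) with hw
    have hmw : mu ⬝ᵥ w = 0 := by rw [hw]; exact dot_self_cross _ _
    have haw : L a ⬝ᵥ w ≠ 0 := by
      rw [hw, triple_product_permutation, triple_product_permutation, single_dotProduct, one_mul]
      exact hj
    have hind : LinearIndependent ℂ ![p, w] := by
      rw [LinearIndependent.pair_iff]
      intro s t hst
      have h1 : L a ⬝ᵥ (s • p + t • w) = 0 := by rw [hst, dotProduct_zero]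
      rw [dotProduct_add, dotProduct_smul, dotProduct_smul, ha, smul_zero, zero_add, smul_eq_mul,
        mul_eq_zero] at h1
      have ht := h1.resolve_right haw
      refine ⟨?_, ht⟩
      rw [ht, zero_smul, add_zero, smul_eq_zero] at hst
      exact hst.resolve_right hp0
    set z0 : Pt := ⟨p, w, hind⟩
    have hF0 : Fib mu p z0 := ⟨hmp, fun _ _ => hmw⟩
    have h1 := n1_hsect hC hab hac hbc hp0 ha hb hc hx hy hrel ((hfc z0 _).1 (hE2 z0 hF0))
    have h2 : Sect L 2 (fun S => MM L p S + MM L p S) z0 (h (E - δ)) := h1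
    rw [hsub, hE0, hδ] at h2
    have hlam : ∃ lam : Fin 3 → ℂ, lam ⬝ᵥ p ≠ 0 := ⟨L d, hdp⟩
    obtain ⟨lam, hlam⟩ := hlam
    rw [sect_iff (lam := lam) (sig := L a) (y := z0) hlam ha haw] at h2
    have hmuq : muq L (fun S => MM L p S + MM L p S) z0 = 2 := by
      unfold muq
      rw [if_pos (show Multiple L z0.q from hm)]
      unfold MM
      show (if SS L p = SS L p then (1 : ℤ) else 0) + (if SS L p = SS L p then (1 : ℤ) else 0) = 2
      rw [if_pos rfl]
      norm_num
    rw [hmuq, sub_self, zpow_zero, mul_one] at h2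
    have h3 : Regular L z0 (fl (L a) / fl mu) := by
      have := h2.neg
      convert this using 1
      rw [show ((2 : ℤ)) = ((2 : ℕ) : ℤ) by norm_num, zpow_natCast]
      field_simp
      ring
    exact n1_notfib hp0 hm hmp ha hma h3 hF0

end HKR
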