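import Pool.Agent.Lib.HKR.P3
/-!
HKR.N10 (vanishing of H¹ implies that all arcs are trivial; helper88).  Model: P5 (same recursion).
PROOF.  φ with Deform: choose T y, DeformT L T φ (U_y = {y' : T y regular at y'}).  Recursion on m: Ψ, H y with
 (i) Cong (m+1) (Ψ * φ y * H y) 1 for all y; (ii) Pres y' (H y) for y' ∈ U_y.  m = 0: Ψ = 1, H = 1 (cong_one_all).
 STEP.  φ_m y := Ψ * φ y * H y; DeformT L T φ_m (as p5_deform in P5).  exists_der_cong: Cong (m+2) (φ_m y) (1 * expA (m+1) (A y)).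
 For y' ∈ U_y: sameAt_iff: θ := (φ_m y)⁻¹ * φ_m y' is Pres at y' and θ ≡ (expA (m+1) (A y))⁻¹ * expA (m+1) (A y') ≡ expA (m+1) (A y' - A y) mod t^(m+2) (exp_add, Cong.mul, Cong.inv),
 so preserves_of_cong (ψ := 1, Pres.one): Preserves y' (A y' - A y).  h1: E with Preserves y (E - A y) for all y.  For y' ∈ U_y:
 Preserves y' (E - A y) (sum of E - A y' and A y' - A y; Int.add).  Ψ' := expA (m+1) (-E) * Ψ, H' y := H y * expA (m+1) (E - A y):
 Ψ' * φ y * H' y = expA (-E) * φ_m y * expA (E - A y) ≡ expA (-E + A y + (E - A y)) = expA 0 ≡ 1 (mod t^(m+2); exp_add twice; expA m 0 ≡ 1: coefficients by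
 expA_spec, or exp_add 0 0 and cancel).  Cong (m+1) Ψ' Ψ, Cong (m+1) (H' y) (H y) (exp_cong).
 LIMIT: exists_limit: ψ, H y; Cong m (ψ * φ y * H y) 1 for all m: = 1 (eq_of_cong); pres_limit: Pres y (H y).  φ y = ψ⁻¹ * (H y)⁻¹:
 SameAt y (φ y) ψ⁻¹ (SameAt.mul_right, Pres.inv).
-/
namespace HKR
variable {K : Type} [Field K] [Algebra ℂ K] [Algebra Fn K] [IsScalarTower ℂ Fn K]
variable {k : ℕ} {L : Fin k → Fin 3 → ℂ}
open PowerSeries

omit [Algebra Fn K] [IsScalarTower ℂ Fn K] in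
private theorem n10_zero {m : ℕ} (hm : 1 ≤ m) : Cong (m + 1) (expA m (0 : Derivation ℂ K K)) 1 := by
  have h := exp_add hm (0 : Derivation ℂ K K) 0
  rw [add_zero] at h
  have h2 := h.mul (Cong.refl (m + 1) (expA m (0 : Derivation ℂ K K))⁻¹)
  rwa [mul_inv_cancel_right, mul_inv_cancel] at h2

omit [Algebra Fn K] [IsScalarTower ℂ Fn K] in
private theorem n10_inv {m : ℕ} (hm : 1 ≤ m) (D : Derivation ℂ K K) :
    Cong (m + 1) (expA m D)⁻¹ (expA m (-D)) := by
  have h := exp_add hm D (-D)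
  rw [add_neg_cancel] at h
  have h2 := (Cong.refl (m + 1) (expA m D)⁻¹).mul (h.trans (n10_zero hm))
  rw [inv_mul_cancel_left, mul_one] at h2
  exact h2.symm

private theorem n10_deform {T : Pt → Finset Fn} {φ : Pt → ArcAut K} (hφ : DeformT L T φ)
    (Ψ : ArcAut K) {H : Pt → ArcAut K}
    (hH : ∀ y y', (∀ f ∈ T y, Regular L y' f) → Pres L y' (H y)) :
    DeformT L T (fun y => Ψ * φ y * H y) := by
  intro y
  refine ⟨(hφ y).1, fun y' hy' => ?_⟩
  have h1 : SameAt L y' (Ψ * φ y' * H y') (Ψ * φ y') :=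
    SameAt.mul_right (hH y' y' (hφ y').1)
  have h2 : SameAt L y' (Ψ * φ y * H y) (Ψ * φ y) := SameAt.mul_right (hH y y' hy')
  have h3 : SameAt L y' (Ψ * φ y') (Ψ * φ y) := ((hφ y).2 y' hy').mul_left Ψ
  exact (h1.trans h3).trans h2.symm

omit [IsScalarTower ℂ Fn K] in
private theorem n10_add {y : Pt} {D D' : Derivation ℂ K K} (h : Preserves L y D)
    (h' : Preserves L y D') : Preserves L y (D + D') := by
  intro x hx
  rw [Derivation.add_apply]
  exact (h x hx).add (h' x hx)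

private theorem n10_step (h1 : ∀ D : Pt → Derivation ℂ K K, LC L (fun y D => Preserves L y D) D →
    Glob (fun y D => Preserves L y D) D) {T : Pt → Finset Fn}
    {φ : Pt → ArcAut K} (hφ : DeformT L T φ) (m : ℕ) (Ψ : ArcAut K) (H : Pt → ArcAut K)
    (g1 : ∀ y, Cong (m + 1) (Ψ * φ y * H y) 1)
    (g2 : ∀ y y', (∀ f ∈ T y, Regular L y' f) → Pres L y' (H y)) :
    ∃ (Ψ' : ArcAut K) (H' : Pt → ArcAut K),
      (∀ y, Cong (m + 1 + 1) (Ψ' * φ y * H' y) 1) ∧
      (∀ y y', (∀ f ∈ T y, Regular L y' f) → Pres L y' (H' y)) ∧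
      Cong (m + 1) Ψ' Ψ ∧ ∀ y, Cong (m + 1) (H' y) (H y) := by
  have hm : 1 ≤ m + 1 := by omega
  have hex : ∀ y, ∃ D : Derivation ℂ K K,
      Cong (m + 1 + 1) (Ψ * φ y * H y) (1 * expA (m + 1) D) := fun y => exists_der_cong hm (g1 y)
  choose A hA using hex
  have hA' : ∀ y, Cong (m + 1 + 1) (Ψ * φ y * H y) (expA (m + 1) (A y)) := fun y => by
    have h := hA y
    rwa [one_mul] at h
  have hdf := n10_deform hφ Ψ g2
  have hdiff : ∀ y y', (∀ f ∈ T y, Regular L y' f) → Preserves L y' (A y' - A y) := by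
    intro y y' hy'
    have hs := (hdf y).2 y' hy'
    rw [sameAt_iff] at hs
    have hc : Cong (m + 1 + 1) ((Ψ * φ y * H y)⁻¹ * (Ψ * φ y' * H y'))
        (1 * expA (m + 1) (A y' - A y)) := by
      have c1 := (hA' y).inv.mul (hA' y')
      have c2 := (n10_inv hm (A y)).mul (Cong.refl (m + 1 + 1) (expA (m + 1) (A y')))
      have c3 := exp_add hm (-(A y)) (A y')
      have e : -(A y) + A y' = A y' - A y := by abel
      rw [e] at c3
      rw [one_mul]
      exact (c1.trans c2).trans c3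
    exact preserves_of_cong hm hc hs Pres.one
  obtain ⟨E, hE⟩ := h1 A (fun y => ⟨T y, (hφ y).1, fun y' hy' => hdiff y y' hy'⟩)
  refine ⟨expA (m + 1) (-E) * Ψ, fun y => H y * expA (m + 1) (E - A y), fun y => ?_,
    fun y y' hy' => ?_, ?_, fun y => ?_⟩
  · have e : expA (m + 1) (-E) * Ψ * φ y * (H y * expA (m + 1) (E - A y)) =
        expA (m + 1) (-E) * (Ψ * φ y * H y) * expA (m + 1) (E - A y) := by
      simp only [mul_assoc]
    rw [e]
    have c1 := ((Cong.refl (m + 1 + 1) (expA (m + 1) (-E))).mul (hA' y)).mul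
      (Cong.refl (m + 1 + 1) (expA (m + 1) (E - A y)))
    have c2 := (exp_add hm (-E) (A y)).mul (Cong.refl (m + 1 + 1) (expA (m + 1) (E - A y)))
    have c3 := exp_add hm (-E + A y) (E - A y)
    have e2 : -E + A y + (E - A y) = 0 := by abel
    rw [e2] at c3
    exact ((c1.trans c2).trans c3).trans (n10_zero hm)
  · refine (g2 y y' hy').mul (pres_exp hm ?_)
    have e : E - A y = (E - A y') + (A y' - A y) := by abel
    rw [e]
    exact n10_add (hE y') (hdiff y y' hy')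
  · have h := (exp_cong hm (-E)).mul (Cong.refl (m + 1) Ψ)
    rwa [one_mul] at h
  · have h := (Cong.refl (m + 1) (H y)).mul (exp_cong hm (E - A y))
    rwa [mul_one] at h

theorem arc_of_h1 (h1 : ∀ D : Pt → Derivation ℂ K K, LC L (fun y D => Preserves L y D) D →
    Glob (fun y D => Preserves L y D) D) : ArcRigid L K := by
  classical
  intro φ hφ0
  choose T hT using hφ0
  have hφ : DeformT L T φ := hT
  let St : ℕ → ArcAut K × (Pt → ArcAut K) → Prop := fun m p =>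
    (∀ y, Cong (m + 1) (p.1 * φ y * p.2 y) 1) ∧
    (∀ y y', (∀ f ∈ T y, Regular L y' f) → Pres L y' (p.2 y))
  have step : ∀ (m : ℕ) (p : ArcAut K × (Pt → ArcAut K)), St m p →
      ∃ p' : ArcAut K × (Pt → ArcAut K), St (m + 1) p' ∧ Cong (m + 1) p'.1 p.1 ∧
        ∀ y, Cong (m + 1) (p'.2 y) (p.2 y) := by
    intro m p hp
    obtain ⟨Ψ', H', a, b, c, d⟩ := n10_step h1 hφ m p.1 p.2 hp.1 hp.2
    exact ⟨(Ψ', H'), ⟨a, b⟩, c, d⟩
  choose f hf using step
  have h0 : St 0 ((1 : ArcAut K), fun _ => (1 : ArcAut K)) :=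
    ⟨fun y => cong_one_all _ _, fun y y' _ => Pres.one⟩
  let s' : (m : ℕ) → {p : ArcAut K × (Pt → ArcAut K) // St m p} := fun m =>
    Nat.rec (motive := fun m => {p : ArcAut K × (Pt → ArcAut K) // St m p}) ⟨_, h0⟩
      (fun m q => ⟨f m q.1 q.2, (hf m q.1 q.2).1⟩) m
  have hs1 : ∀ m, Cong (m + 1) (s' (m + 1)).1.1 (s' m).1.1 := fun m => (hf m _ (s' m).2).2.1
  have hs2 : ∀ m y, Cong (m + 1) ((s' (m + 1)).1.2 y) ((s' m).1.2 y) :=
    fun m y => (hf m _ (s' m).2).2.2 y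
  obtain ⟨ψ, hψ⟩ := exists_limit (fun m => (s' m).1.1) (fun m => (hs1 m).mono (Nat.le_succ m))
  have hH : ∀ y, ∃ χ : ArcAut K, ∀ m, Cong m χ ((s' m).1.2 y) := fun y =>
    exists_limit (fun m => (s' m).1.2 y) (fun m => (hs2 m y).mono (Nat.le_succ m))
  choose H hH using hH
  have hP : ∀ y y', (∀ f ∈ T y, Regular L y' f) → Pres L y' (H y) := fun y y' hy' =>
    pres_limit (hH y) (fun m => (s' m).2.2 y y' hy')
  refine ⟨ψ⁻¹, fun y => ?_⟩
  have hone : ψ * φ y * H y = 1 := by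
    apply eq_of_cong
    intro m
    have c1 : Cong m (ψ * φ y * H y) ((s' m).1.1 * φ y * (s' m).1.2 y) :=
      ((hψ m).mul (Cong.refl m (φ y))).mul (hH y m)
    exact c1.trans (((s' m).2.1 y).mono (Nat.le_succ m))
  have he : φ y = ψ⁻¹ * (H y)⁻¹ := by
    have h2 : φ y = ψ⁻¹ * (ψ * φ y * H y) * (H y)⁻¹ := by group
    rw [h2, hone, mul_one]
  rw [he]
  exact SameAt.mul_right (hP y y (hφ y).1).inv

end HKR
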