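import Pool.Agent.Lib.HKR.P3
/-!
HKR.N3 (small configurations: from a nontrivial class with commuting values to a nontrivial arc; helper88).
exp_add_of_comm: A, B commuting derivations of K: expA 1 (A + B) = expA 1 A * expA 1 B.  PROOF.  arc_ext; coefficient n at C x:
 left (expA_spec): (A+B)^n x / n!; right: coeff_app (first expA 1 B, then expA 1 A): Σ_{i+j=n} A^i (B^j x / j!) / i! (A is ℂ-linear).
 Binomial formula for the commuting endomorphisms A, B (Module.End ℂ K: Commute.add_pow, Derivation.toLinearMap, iterate =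
 Module.End.pow_apply); 1 ∣ j always, j / 1 = j.
not_arc: φ y := expA 1 (D y).  Deform: T of LC at y; for y': Preserves y' (D y' - D y), D y' = D y + (D y' - D y), these commute (hc),
 so φ y' = φ y * expA 1 (D y' - D y), pres_exp, SameAt.mul_right.  Suppose ArcRigid: ψ with SameAt y (φ y) ψ for all y.
 exists_der_cong (m = 1, cong_one_all): Cong 2 ψ (1 * expA 1 E).  For y: sameAt_iff: Pres y (ψ⁻¹ * expA 1 (D y)); inverse:
 θ := (expA 1 (D y))⁻¹ * ψ is Pres.  θ ≡ (expA 1 (D y))⁻¹ * expA 1 E ≡ expA 1 (E - D y) mod t² (exp_add: expA 1 (D y) * expA 1 (E - D y)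
 ≡ expA 1 E; Cong.mul, Cong.inv), so preserves_of_cong (ψ := 1): Preserves y (E - D y) for all y: Glob, contradiction.
-/
namespace HKR
variable {K : Type} [Field K] [Algebra ℂ K] [Algebra Fn K] [IsScalarTower ℂ Fn K]
variable {k : ℕ} {L : Fin k → Fin 3 → ℂ}
open PowerSeries

omit [Algebra Fn K] [IsScalarTower ℂ Fn K] in
private theorem n3_iter (A : Derivation ℂ K K) (n : ℕ) (x : K) :
    A^[n] x = (((A : K →ₗ[ℂ] K) : Module.End ℂ K) ^ n) x := by
  rw [Module.End.pow_apply]
  rfl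

omit [Algebra Fn K] [IsScalarTower ℂ Fn K] in
private theorem n3_iter_smul (A : Derivation ℂ K K) (n : ℕ) (c : ℂ) (x : K) :
    A^[n] (algebraMap ℂ K c * x) = algebraMap ℂ K c * A^[n] x := by
  rw [n3_iter, n3_iter, ← Algebra.smul_def, map_smul, Algebra.smul_def]

omit [Algebra Fn K] [IsScalarTower ℂ Fn K] in
private theorem n3_coeffS (D : Derivation ℂ K K) (x : K) (j : ℕ) :
    coeff j (expS 1 D x) = algebraMap ℂ K (1 / (j.factorial : ℂ)) * D^[j] x := by
  rw [expS, coeff_mk, if_pos (one_dvd j), Nat.div_one]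

omit [Algebra Fn K] [IsScalarTower ℂ Fn K] in
theorem exp_add_of_comm {A B : Derivation ℂ K K} (h : ∀ x, A (B x) = B (A x)) :
    expA 1 (A + B) = expA 1 A * expA 1 B := by
  refine arc_ext fun x => ?_
  ext n
  rw [expA_spec le_rfl, ArcAut.mul_apply, expA_spec le_rfl, coeff_app, n3_coeffS]
  have hcomm : Commute ((A : K →ₗ[ℂ] K) : Module.End ℂ K) ((B : K →ₗ[ℂ] K) : Module.End ℂ K) :=
    LinearMap.ext fun x => h x
  have h1 : (A + B)^[n] x = ∑ p ∈ Finset.HasAntidiagonal.antidiagonal n,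
      (n.choose p.1 : K) * A^[p.1] (B^[p.2] x) := by
    rw [n3_iter]
    have h2 : (((A + B : Derivation ℂ K K) : K →ₗ[ℂ] K) : Module.End ℂ K) =
        ((A : K →ₗ[ℂ] K) : Module.End ℂ K) + ((B : K →ₗ[ℂ] K) : Module.End ℂ K) := rfl
    rw [h2, hcomm.add_pow', LinearMap.sum_apply]
    refine Finset.sum_congr rfl fun p _ => ?_
    rw [LinearMap.smul_apply, Module.End.mul_apply, ← n3_iter B, ← n3_iter A, nsmul_eq_mul]
  rw [h1, Finset.mul_sum]
  refine Finset.sum_congr rfl fun p hp => ?_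
  rw [Finset.HasAntidiagonal.mem_antidiagonal] at hp
  rw [expA_spec le_rfl, n3_coeffS, n3_coeffS, n3_iter_smul, ← mul_assoc, ← mul_assoc]
  congr 1
  have h3 : ((n.choose p.1 : ℕ) : K) = algebraMap ℂ K (n.choose p.1 : ℂ) := by
    rw [map_natCast]
  rw [h3, ← map_mul, ← map_mul]
  congr 1
  have h4 := Nat.choose_mul_factorial_mul_factorial (show p.1 ≤ n by omega)
  rw [show n - p.1 = p.2 by omega] at h4
  have h5 : ((n.choose p.1 : ℕ) : ℂ) * (p.1.factorial : ℂ) * (p.2.factorial : ℂ) =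
      (n.factorial : ℂ) := by exact_mod_cast h4
  have a1 : (p.1.factorial : ℂ) ≠ 0 := Nat.cast_ne_zero.2 (Nat.factorial_ne_zero _)
  have a2 : (p.2.factorial : ℂ) ≠ 0 := Nat.cast_ne_zero.2 (Nat.factorial_ne_zero _)
  have a3 : (n.factorial : ℂ) ≠ 0 := Nat.cast_ne_zero.2 (Nat.factorial_ne_zero _)
  field_simp
  linear_combination h5

theorem not_arc {D : Pt → Derivation ℂ K K} (h : LC L (fun y D => Preserves L y D) D)
    (hc : ∀ y y' x, D y (D y' x) = D y' (D y x))
    (hg : ¬ Glob (fun y D => Preserves L y D) D) : ¬ ArcRigid L K := by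
  intro hR
  have hdef : Deform L (fun y => expA 1 (D y)) := by
    intro y
    obtain ⟨T, hT1, hT2⟩ := h y
    refine ⟨T, hT1, fun y' hy' => ?_⟩
    have h1 : Preserves L y' (D y' - D y) := hT2 y' hy'
    have h2 : expA 1 (D y') = expA 1 (D y) * expA 1 (D y' - D y) := by
      rw [← exp_add_of_comm]
      · congr 1
        abel
      · intro x
        rw [Derivation.sub_apply, Derivation.sub_apply, map_sub, hc]
    show SameAt L y' (expA 1 (D y')) (expA 1 (D y))
    rw [h2]
    exact SameAt.mul_right (pres_exp le_rfl h1)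
  obtain ⟨ψ, hψ⟩ := hR _ hdef
  obtain ⟨E, hE⟩ := exists_der_cong (m := 1) le_rfl (cong_one_all ψ 1)
  rw [one_mul] at hE
  refine hg ⟨E, fun y => ?_⟩
  have h1 : Pres L y ((expA 1 (D y))⁻¹ * ψ) := by
    have h2 := (sameAt_iff.1 (hψ y)).inv
    have h3 : (ψ⁻¹ * expA 1 (D y))⁻¹ = (expA 1 (D y))⁻¹ * ψ := by group
    rw [h3] at h2
    exact h2
  have h2 : Cong (1 + 1) ((expA 1 (D y))⁻¹ * ψ) (1 * expA 1 (E - D y)) := by
    have h3 := exp_add (m := 1) le_rfl (D y) (E - D y)
    have h4 : D y + (E - D y) = E := by abel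
    rw [h4] at h3
    have h5 := (Cong.refl (1 + 1) (expA 1 (D y))⁻¹).mul (hE.trans h3.symm)
    rw [inv_mul_cancel_left] at h5
    rw [one_mul]
    exact h5
  exact preserves_of_cong le_rfl h2 h1 Pres.one

end HKR
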