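import Pool.Agent.Lib.HKR.NDefs
import Pool.Agent.Lib.HKR.T1
import Pool.Agent.Lib.HKR.B4
/-!
HKR.N4 (four lines in general position, level of the plane; helper88).  c_i ≠ 0, Σ c_i L_i = 0, n ≥ 4, character chF n = (2, n-2, 0, 0):
 sum n, d = 1, bl n (chF n) i = 0 for all i.  No multiple points (y.q ≠ 0; three lines independent), so FCond L n (chF n) y D ↔
 ∀ i ≠ j, Sect L 1 (fun _ => 0) y (cij L D i j) (Sect.congr_m; the factors fl ^ 0 = 1).  Write l_i = fl (L i), g = gw, h = (fl g)⁻¹.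
 Note Σ_i c_i l_i = 0; Σ c_i l_i (eu i) = -1 + 1 = 0; Σ c_i l_i (ew i) = ((n-2) c_0 l_0 - 2 c_1 l_1) h - 1 = 0.
exists_der_four: from exists_der (i, j, l) = (1, 2, 0): D with cij 1 0 = e 1 - e 0, cij 2 0 = e 2 - e 0; cij 3 0 from cij_rel and the
 relation (c_3 l_3 (e_3 - e_0) = -c_1 l_1 (e_1 - e_0) - c_2 l_2 (e_2 - e_0)); cij i j = cij i 0 - cij j 0 (cij_trans, cij_self).
four_F.  du, dw from exists_der_four (fl g ≠ 0: L 0, L 1 independent, (n-2) c_0 ≠ 0).
 Facts (sect_inv: (fl l)⁻¹ is Sect 1 where l(y.q) ≠ 0; Sect.smul, add, neg, sub):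
 (A) l_2(y), l_3(y) ≠ 0: FCond y du (and -du).  (B) l_2(y), g(y) ≠ 0: FCond y dw (and -dw).
 (C) l_3(y), g(y) ≠ 0: FCond y (dw - du) (ew - eu = ((n-2) h, -2 h, 0, -(c_3 l_3)⁻¹)).
 (N) neighbourhoods: for a form l with l(y.q) ≠ 0 and any s with s(y.q) ≠ 0 ... : to get T with: T regular at y' → l(y'.q) ≠ 0: take lam_j basis:
   T = {fl x / fl l : x ∈ the three coordinate forms}: all three regular at y (Val.ratio); if all three are regular at y'
   and l(y'.q) = 0, choose x with x(y'.q) ≠ 0: fl l / fl x is regular with value 0 (Val.ratio), the product is 1, with value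
   0 (Val.mul, Val.unique, Val.const): contradiction.  (There may be such a lemma in N1: n1_... ; copy it.)
 LC: y with l_2(y) ≠ 0: T with l_2(y') ≠ 0: difference 0.  y with l_2(y) = 0, l_3(y) ≠ 0: T with l_3(y') ≠ 0: either the same
 value (difference 0) or l_2(y') ≠ 0: 0 - du: (A).  y with l_2(y) = l_3(y) = 0: g(y) ≠ 0 (c_0 L_0(y) + c_1 L_1(y) = 0, so g(y) = n c_0 L_0(y);
 L_0(y) ≠ 0 as L_0, L_2, L_3 are independent); T with g(y') ≠ 0: y' with l_2(y') ≠ 0: -dw: (B); l_2(y') = 0 ≠ l_3(y'): du - dw: (C); both 0: same value.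
 Not Glob: E with FCond y (E - fam3 y) for all y; f_ij := cij L E i j, cij_sub.
  f_01: cij du 0 1 = 0 and cij dw 0 1 = n h is Sect 1 at y with l_2(y) = l_3(y) = 0: so f_01 is Sect 1 at all y: h0_neg: f_01 = 0.
  f_03: cij du 0 3 = -(c_3 l_3)⁻¹ is Sect 1 where l_3 ≠ 0, cij dw 0 3 = (n-2) h is Sect 1 at the last point: f_03 = 0.
  cij_rel (s = 0): c_1 l_1 f_10 + c_2 l_2 f_20 + c_3 l_3 f_30 = 0, so f_20 = 0, f_02 = 0 (cij_trans, cij_self for the signs).
  At a point y with l_2(y) = 0, l_3(y) ≠ 0 (exists: L_2, L_3 independent; a Pt needs also a direction w): f_02 - cij du 0 2 = -(c_2 l_2)⁻¹ is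
  Sect 1 at y: by sect_iff with lam(y.q) ≠ 0, (l_2)⁻¹ fl lam is regular at y; fl (L 2) / fl lam is regular with value 0: product 1: contradiction.
-/
open MvPolynomial
namespace HKR
variable {L : Fin 4 → Fin 3 → ℂ} {c : Fin 4 → ℂ} {n : ℕ}

private theorem n4_am {x : ℂ} (h : x ≠ 0) : algebraMap ℂ Fn x ≠ 0 := by
  rw [Ne, map_eq_zero_iff _ (algebraMap ℂ Fn).injective]
  exact h

private theorem n4_q (y : Pt) : y.q ≠ 0 := by simpa using y.ind.ne_zero 0

private theorem n4_flne {l q : Fin 3 → ℂ} (h : l ⬝ᵥ q ≠ 0) : fl l ≠ 0 := by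
  apply fl_ne_zero
  rintro rfl
  exact h (zero_dotProduct _)

/-- no three of the lines are concurrent -/
private theorem n4_three
    (hg : ∀ i j l, i ≠ j → i ≠ l → j ≠ l → det3 (L i) (L j) (L l) ≠ 0) {i j l : Fin 4}
    (h1 : i ≠ j) (h2 : i ≠ l) (h3 : j ≠ l) {q : Fin 3 → ℂ} (hq : q ≠ 0) (a : L i ⬝ᵥ q = 0)
    (b : L j ⬝ᵥ q = 0) : L l ⬝ᵥ q ≠ 0 := by
  intro h
  refine hg i j l h1 h2 h3 ?_
  unfold det3
  rw [← Matrix.exists_mulVec_eq_zero_iff]
  refine ⟨q, hq, ?_⟩
  ext t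
  fin_cases t
  · exact a
  · exact b
  · exact h

private theorem n4_nm
    (hg : ∀ i j l, i ≠ j → i ≠ l → j ≠ l → det3 (L i) (L j) (L l) ≠ 0) (y : Pt) :
    ¬ Multiple L y.q := by
  rintro ⟨a, b, d, h1, h2, h3, h4, h5, h6⟩
  exact n4_three hg h1 h2 h3 (n4_q y) h4 h5 h6

/-- neighbourhoods -/
private theorem n4_nbhd {l : Fin 3 → ℂ} {y : Pt} (h : l ⬝ᵥ y.q ≠ 0) :
    ∃ T : Finset Fn, (∀ f ∈ T, Regular L y f) ∧
      ∀ y' : Pt, (∀ f ∈ T, Regular L y' f) → l ⬝ᵥ y'.q ≠ 0 := by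
  classical
  refine ⟨Finset.univ.image fun j : Fin 3 => fl (Pi.single j 1) / fl l, ?_, ?_⟩
  · intro f hf
    obtain ⟨j, -, rfl⟩ := Finset.mem_image.1 hf
    exact regular_iff_val.2 ⟨_, Val.ratio h⟩
  · intro y' hy' h0
    obtain ⟨j, hj⟩ := Function.ne_iff.1 (n4_q y')
    have hx : (Pi.single j 1 : Fin 3 → ℂ) ⬝ᵥ y'.q ≠ 0 := by
      rw [single_dotProduct, one_mul]
      exact hj
    obtain ⟨c, hc⟩ := regular_iff_val.1
      (hy' _ (Finset.mem_image_of_mem (fun j : Fin 3 => fl (Pi.single j 1) / fl l)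
        (Finset.mem_univ j)))
    have h1 := Val.ratio (L := L) (l := l) hx
    rw [h0, zero_div] at h1
    have h2 := h1.mul hc
    have e1 := n4_flne hx
    have e2 := n4_flne h
    rw [show fl l / fl (Pi.single j 1) * (fl (Pi.single j 1) / fl l) = 1 by field_simp,
      zero_mul] at h2
    have h3 := Val.const (L := L) (y := y') 1
    rw [map_one] at h3
    exact zero_ne_one (h2.unique h3)

private theorem n4_fcond
    (hg : ∀ i j l, i ≠ j → i ≠ l → j ≠ l → det3 (L i) (L j) (L l) ≠ 0) (hn : 4 ≤ n) (y : Pt)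
    (D : Derivation ℂ Fn Fn) :
    FCond L n (chF n) y D ↔ ∀ i j, i ≠ j → Sect L 1 (fun _ => 0) y (cij L D i j) := by
  have hsum : ∑ l, chF n l = n := by
    rw [Fin.sum_univ_four]
    simp [chF]
    omega
  have hbl : ∀ i, bl n (chF n) i = 0 := by
    intro i
    unfold bl
    rw [if_neg]
    fin_cases i <;> simp [chF] <;> omega
  have hnm := n4_nm hg y
  unfold FCond
  refine forall_congr' fun i => forall_congr' fun j => imp_congr_right fun _ => ?_
  rw [hbl, hbl, pow_zero, pow_zero, mul_one, mul_one, hsum, Nat.div_self (by omega)]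
  simp only [Nat.cast_zero, Nat.cast_one, sub_zero]
  exact ⟨fun h => h.congr_m fun hm => absurd hm hnm, fun h => h.congr_m fun hm => absurd hm hnm⟩

private theorem n4_fc
    (hg : ∀ i j l, i ≠ j → i ≠ l → j ≠ l → det3 (L i) (L j) (L l) ≠ 0) (hn : 4 ≤ n) {y : Pt}
    {D : Derivation ℂ Fn Fn} {e : Fin 4 → Fn} (h1 : ∀ i j, cij L D i j = e i - e j)
    (h2 : ∀ i, Sect L 1 (fun _ => 0) y (e i)) : FCond L n (chF n) y D := by
  rw [n4_fcond hg hn]
  intro i j _
  rw [h1]
  exact (h2 i).sub (h2 j)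

private theorem n4_zero (i j : Fin 4) : cij L (0 : Derivation ℂ Fn Fn) i j = 0 := by
  unfold cij
  rw [Derivation.zero_apply, zero_div]

private theorem n4_rel (hr : ∑ i, c i • L i = 0) :
    algebraMap ℂ Fn (c 0) * fl (L 0) + algebraMap ℂ Fn (c 1) * fl (L 1) +
      algebraMap ℂ Fn (c 2) * fl (L 2) + algebraMap ℂ Fn (c 3) * fl (L 3) = 0 := by
  rw [Fin.sum_univ_four] at hr
  have h := congrArg fl hr
  rw [fl_add, fl_add, fl_add, fl_smul, fl_smul, fl_smul, fl_smul] at h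
  rw [h]
  have h0 := fl_smul 0 0
  rwa [zero_smul, map_zero, zero_mul] at h0

theorem exists_der_four (hC : Config L)
    (hg : ∀ i j l, i ≠ j → i ≠ l → j ≠ l → det3 (L i) (L j) (L l) ≠ 0) (hc : ∀ i, c i ≠ 0)
    (hr : ∑ i, c i • L i = 0) (e : Fin 4 → Fn)
    (he : ∑ i, algebraMap ℂ Fn (c i) * fl (L i) * e i = 0) :
    ∃ D : Derivation ℂ Fn Fn, ∀ i j, cij L D i j = e i - e j := by
  obtain ⟨D, h1, h2⟩ := exists_der hC (hg 1 2 0 (by decide) (by decide) (by decide))
    (e 1 - e 0) (e 2 - e 0)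
  have hR := n4_rel hr
  have h3 := cij_rel hC D (i := 1) (j := 2) (l := 3) (s := 0) (a := c 1) (b := c 2) (c := c 3)
    (e := c 0) (by
      rw [Fin.sum_univ_four] at hr
      rw [← hr]
      abel)
  rw [h1, h2] at h3
  rw [Fin.sum_univ_four] at he
  have e3 : algebraMap ℂ Fn (c 3) * fl (L 3) ≠ 0 :=
    mul_ne_zero (n4_am (hc 3)) (fl_ne_zero ((hC.ind 3 0 (by decide)).ne_zero 0))
  have h4 : cij L D 3 0 = e 3 - e 0 := by
    have h5 : algebraMap ℂ Fn (c 3) * fl (L 3) * (cij L D 3 0 - (e 3 - e 0)) = 0 := by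
      linear_combination h3 - he + e 0 * hR
    exact sub_eq_zero.1 ((mul_eq_zero.1 h5).resolve_left e3)
  have h0 : cij L D 0 0 = e 0 - e 0 := by rw [cij_self hC, sub_self]
  have key : ∀ i, cij L D i 0 = e i - e 0 := by
    intro i
    fin_cases i
    · exact h0
    · exact h1
    · exact h2
    · exact h4
  refine ⟨D, fun i j => ?_⟩
  have a1 := cij_trans hC D i 0 j
  have a2 := cij_trans hC D j 0 j
  rw [cij_self hC D j] at a2
  rw [← a1]
  linear_combination key i - key j + a2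

private theorem n4_gw (hC : Config L) (hc : ∀ i, c i ≠ 0) (hn : 4 ≤ n) : fl (gw L c n) ≠ 0 := by
  apply fl_ne_zero
  intro h
  have h1 := LinearIndependent.pair_iff.1 (hC.ind 0 1 (by decide)) (((n - 2 : ℕ) : ℂ) * c 0)
    (-(2 * c 1)) (by rw [← h, gw]; module)
  have h2 : ((n - 2 : ℕ) : ℂ) ≠ 0 := by
    rw [Nat.cast_ne_zero]
    omega
  exact mul_ne_zero h2 (hc 0) h1.1

/-- a point on the line 2 off the line 3 -/
private theorem n4_pt (hC : Config L)
    (hg : ∀ i j l, i ≠ j → i ≠ l → j ≠ l → det3 (L i) (L j) (L l) ≠ 0) :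
    ∃ y : Pt, L 2 ⬝ᵥ y.q = 0 ∧ L 3 ⬝ᵥ y.q ≠ 0 := by
  have hq : crossProduct (L 2) (L 0) ≠ 0 :=
    crossProduct_ne_zero_iff_linearIndependent.2 (hC.ind 2 0 (by decide))
  have h2 : L 2 ⬝ᵥ crossProduct (L 2) (L 0) = 0 := dot_self_cross _ _
  have h0 : L 0 ⬝ᵥ crossProduct (L 2) (L 0) = 0 := dot_cross_self _ _
  have h3 : L 3 ⬝ᵥ crossProduct (L 2) (L 0) ≠ 0 :=
    n4_three hg (i := 2) (j := 0) (by decide) (by decide) (by decide) hq h2 h0
  generalize crossProduct (L 2) (L 0) = q at hq h2 h3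
  obtain ⟨j, hj⟩ := Function.ne_iff.1 hq
  obtain ⟨i, hi⟩ := exists_ne j
  refine ⟨⟨q, Pi.single i 1, ?_⟩, h2, h3⟩
  rw [LinearIndependent.pair_iff]
  intro s t hst
  have h1 := congrFun hst j
  simp only [Pi.add_apply, Pi.smul_apply, smul_eq_mul, Pi.zero_apply,
    Pi.single_eq_of_ne hi.symm, mul_zero, add_zero] at h1 hj
  have hs : s = 0 := (mul_eq_zero.1 h1).resolve_right hj
  refine ⟨hs, ?_⟩
  have h2 := congrFun hst i
  simpa [hs] using h2

theorem four_F (hC : Config L)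
    (hg : ∀ i j l, i ≠ j → i ≠ l → j ≠ l → det3 (L i) (L j) (L l) ≠ 0) (hc : ∀ i, c i ≠ 0)
    (hr : ∑ i, c i • L i = 0) (hn : 4 ≤ n) :
    ∃ du dw : Derivation ℂ Fn Fn, (∀ i j, cij L du i j = eu L c i - eu L c j) ∧
      (∀ i j, cij L dw i j = ew L c n i - ew L c n j) ∧
      LC L (FCond L n (chF n)) (fam3 L du dw) ∧ ¬ Glob (FCond L n (chF n)) (fam3 L du dw) := by
  have hl : ∀ i, fl (L i) ≠ 0 := fun i => by
    obtain ⟨j, hj⟩ := exists_ne i
    exact fl_ne_zero ((hC.ind i j hj.symm).ne_zero 0)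
  have hcl : ∀ i, algebraMap ℂ Fn (c i) * fl (L i) ≠ 0 := fun i => mul_ne_zero (n4_am (hc i)) (hl i)
  have hgw := n4_gw (L := L) hC hc hn
  have hgw2 : fl (gw L c n) = algebraMap ℂ Fn ((n - 2 : ℕ) : ℂ) * algebraMap ℂ Fn (c 0) * fl (L 0) -
      algebraMap ℂ Fn 2 * algebraMap ℂ Fn (c 1) * fl (L 1) := by
    have h1 : gw L c n = (((n - 2 : ℕ) : ℂ) * c 0) • L 0 + (-(2 * c 1)) • L 1 := by
      unfold gw
      module
    rw [h1, fl_add, fl_smul, fl_smul, map_mul, map_neg, map_mul]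
    ring
  have eu0 : eu L c 0 = 0 := rfl
  have eu1 : eu L c 1 = 0 := rfl
  have eu2 : eu L c 2 = -(fl (c 2 • L 2))⁻¹ := rfl
  have eu3 : eu L c 3 = (fl (c 3 • L 3))⁻¹ := rfl
  have ew0 : ew L c n 0 = algebraMap ℂ Fn ((n - 2 : ℕ) : ℂ) * (fl (gw L c n))⁻¹ := rfl
  have ew1 : ew L c n 1 = -(algebraMap ℂ Fn 2 * (fl (gw L c n))⁻¹) := rfl
  have ew2 : ew L c n 2 = -(fl (c 2 • L 2))⁻¹ := rfl
  have ew3 : ew L c n 3 = 0 := rfl
  obtain ⟨du, hdu⟩ := exists_der_four hC hg hc hr (eu L c) (by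
    rw [Fin.sum_univ_four, eu0, eu1, eu2, eu3, fl_smul, fl_smul]
    rw [mul_neg, mul_inv_cancel₀ (hcl 2), mul_inv_cancel₀ (hcl 3)]
    ring)
  obtain ⟨dw, hdw⟩ := exists_der_four hC hg hc hr (ew L c n) (by
    rw [Fin.sum_univ_four, ew0, ew1, ew2, ew3, fl_smul]
    have a := hcl 2
    have h1 : algebraMap ℂ Fn (c 2) * fl (L 2) * -(algebraMap ℂ Fn (c 2) * fl (L 2))⁻¹ = -1 := by
      rw [mul_neg, mul_inv_cancel₀ a]
    have h2 : ∀ x : Fn, algebraMap ℂ Fn (c 0) * fl (L 0) *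
          (algebraMap ℂ Fn ((n - 2 : ℕ) : ℂ) * x) +
        algebraMap ℂ Fn (c 1) * fl (L 1) * -(algebraMap ℂ Fn 2 * x) =
        fl (gw L c n) * x := fun x => by
      rw [hgw2]
      ring
    rw [h1, h2, mul_inv_cancel₀ hgw]
    ring)
  -- local conditions of the coefficients
  have s0 : ∀ y : Pt, Sect L 1 (fun _ => 0) y 0 := fun y => Sect.zero
  have sl : ∀ (y : Pt) (i : Fin 4), L i ⬝ᵥ y.q ≠ 0 → Sect L 1 (fun _ => 0) y (fl (c i • L i))⁻¹ :=
    fun y i hi => sect_inv (by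
      rw [smul_dotProduct, smul_eq_mul]
      exact mul_ne_zero (hc i) hi)
  have sg : ∀ (y : Pt) (a : ℂ), gw L c n ⬝ᵥ y.q ≠ 0 →
      Sect L 1 (fun _ => 0) y (algebraMap ℂ Fn a * (fl (gw L c n))⁻¹) :=
    fun y a h => (sect_inv h).smul a
  have hgy : ∀ y : Pt, L 2 ⬝ᵥ y.q = 0 → L 3 ⬝ᵥ y.q = 0 → gw L c n ⬝ᵥ y.q ≠ 0 := by
    intro y h2 h3
    have h0 : L 0 ⬝ᵥ y.q ≠ 0 :=
      n4_three hg (i := 2) (j := 3) (by decide) (by decide) (by decide) (n4_q y) h2 h3
    have h4 := congrArg (fun v : Fin 3 → ℂ => v ⬝ᵥ y.q) hr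
    rw [Fin.sum_univ_four] at h4
    simp only [add_dotProduct, smul_dotProduct, smul_eq_mul, h2, h3, mul_zero, add_zero,
      zero_dotProduct] at h4
    have h5 : gw L c n ⬝ᵥ y.q = n * c 0 * (L 0 ⬝ᵥ y.q) := by
      unfold gw
      rw [sub_dotProduct, smul_dotProduct, smul_dotProduct, smul_eq_mul, smul_eq_mul,
        Nat.cast_sub (by omega)]
      push_cast
      linear_combination (-2) * h4
    rw [h5]
    refine mul_ne_zero (mul_ne_zero ?_ (hc 0)) h0
    rw [Nat.cast_ne_zero]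
    omega
  have f1 : ∀ y : Pt, L 2 ⬝ᵥ y.q ≠ 0 → fam3 L du dw y = 0 := fun y h => by
    unfold fam3
    rw [if_pos h]
  have f2 : ∀ y : Pt, L 2 ⬝ᵥ y.q = 0 → L 3 ⬝ᵥ y.q ≠ 0 → fam3 L du dw y = du := fun y h h' => by
    unfold fam3
    rw [if_neg (not_not.2 h), if_pos h']
  have f3 : ∀ y : Pt, L 2 ⬝ᵥ y.q = 0 → L 3 ⬝ᵥ y.q = 0 → fam3 L du dw y = dw := fun y h h' => by
    unfold fam3
    rw [if_neg (not_not.2 h), if_neg (not_not.2 h')]
  have fz : ∀ (y : Pt) (D : Derivation ℂ Fn Fn), FCond L n (chF n) y (D - D) := fun y D => by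
    refine n4_fc hg hn (e := fun _ => 0) (fun i j => ?_) (fun _ => s0 y)
    rw [sub_self, n4_zero, sub_zero]
  refine ⟨du, dw, hdu, hdw, ?_, ?_⟩
  · intro y
    by_cases h2 : L 2 ⬝ᵥ y.q = 0
    · by_cases h3 : L 3 ⬝ᵥ y.q = 0
      · obtain ⟨T, hT, hT'⟩ := n4_nbhd (L := L) (hgy y h2 h3)
        refine ⟨T, hT, fun y' hy' => ?_⟩
        have hgy' := hT' y' hy'
        rw [f3 y h2 h3]
        by_cases h2' : L 2 ⬝ᵥ y'.q = 0
        · by_cases h3' : L 3 ⬝ᵥ y'.q = 0
          · rw [f3 y' h2' h3']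
            exact fz y' dw
          · rw [f2 y' h2' h3']
            refine n4_fc hg hn (e := fun i => eu L c i - ew L c n i) (fun i j => ?_) (fun i => ?_)
            · rw [cij_sub, hdu, hdw]
              ring
            · fin_cases i
              · change Sect L 1 (fun _ => 0) y' (eu L c 0 - ew L c n 0)
                rw [eu0, ew0]
                exact (s0 y').sub (sg y' _ hgy')
              · change Sect L 1 (fun _ => 0) y' (eu L c 1 - ew L c n 1)
                rw [eu1, ew1]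
                exact (s0 y').sub (sg y' _ hgy').neg
              · change Sect L 1 (fun _ => 0) y' (eu L c 2 - ew L c n 2)
                rw [eu2, ew2, sub_self]
                exact s0 y'
              · change Sect L 1 (fun _ => 0) y' (eu L c 3 - ew L c n 3)
                rw [eu3, ew3]
                exact (sl y' 3 h3').sub (s0 y')
        · rw [f1 y' h2']
          refine n4_fc hg hn (e := fun i => -ew L c n i) (fun i j => ?_) (fun i => ?_)
          · rw [cij_sub, n4_zero, hdw]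
            ring
          · fin_cases i
            · exact (sg y' _ hgy').neg
            · exact (sg y' _ hgy').neg.neg
            · exact (sl y' 2 h2').neg.neg
            · exact (s0 y').neg
      · obtain ⟨T, hT, hT'⟩ := n4_nbhd (L := L) h3
        refine ⟨T, hT, fun y' hy' => ?_⟩
        have h3' := hT' y' hy'
        rw [f2 y h2 h3]
        by_cases h2' : L 2 ⬝ᵥ y'.q = 0
        · rw [f2 y' h2' h3']
          exact fz y' du
        · rw [f1 y' h2']
          refine n4_fc hg hn (e := fun i => -eu L c i) (fun i j => ?_) (fun i => ?_)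
          · rw [cij_sub, n4_zero, hdu]
            ring
          · fin_cases i
            · exact (s0 y').neg
            · exact (s0 y').neg
            · exact (sl y' 2 h2').neg.neg
            · exact (sl y' 3 h3').neg
    · obtain ⟨T, hT, hT'⟩ := n4_nbhd (L := L) h2
      refine ⟨T, hT, fun y' hy' => ?_⟩
      rw [f1 y h2, f1 y' (hT' y' hy')]
      exact fz y' 0
  · rintro ⟨E, hE⟩
    have hE' : ∀ (y : Pt) (i j : Fin 4), i ≠ j →
        Sect L 1 (fun _ => 0) y (cij L E i j - cij L (fam3 L du dw y) i j) := by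
      intro y i j hij
      have := (n4_fcond hg hn y _).1 (hE y) i j hij
      rwa [cij_sub] at this
    have z01 : cij L E 0 1 = 0 := by
      refine h0_neg (L := L) hC (D := 1) one_pos (m := fun _ => 0) fun y _ => ?_
      have h := hE' y 0 1 (by decide)
      by_cases h2 : L 2 ⬝ᵥ y.q = 0
      · by_cases h3 : L 3 ⬝ᵥ y.q = 0
        · rw [f3 y h2 h3, hdw, ew0, ew1] at h
          have h' := h.add ((sg y ((n - 2 : ℕ) : ℂ) (hgy y h2 h3)).add (sg y 2 (hgy y h2 h3)))
          convert h' using 1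
          ring
        · rw [f2 y h2 h3, hdu, eu0, eu1, sub_zero, sub_zero] at h
          exact h
      · rw [f1 y h2, n4_zero, sub_zero] at h
        exact h
    have z03 : cij L E 0 3 = 0 := by
      refine h0_neg (L := L) hC (D := 1) one_pos (m := fun _ => 0) fun y _ => ?_
      have h := hE' y 0 3 (by decide)
      by_cases h2 : L 2 ⬝ᵥ y.q = 0
      · by_cases h3 : L 3 ⬝ᵥ y.q = 0
        · rw [f3 y h2 h3, hdw, ew0, ew3] at h
          have h' := h.add (sg y ((n - 2 : ℕ) : ℂ) (hgy y h2 h3))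
          convert h' using 1
          ring
        · rw [f2 y h2 h3, hdu, eu0, eu3] at h
          have h' := h.sub (sl y 3 h3)
          convert h' using 1
          ring
      · rw [f1 y h2, n4_zero, sub_zero] at h
        exact h
    have opp : ∀ i j, cij L E i j = -cij L E j i := by
      intro i j
      have := cij_trans hC E i j i
      rw [cij_self hC] at this
      linear_combination this
    have z20 : cij L E 2 0 = 0 := by
      have h3 := cij_rel hC E (i := 1) (j := 2) (l := 3) (s := 0) (a := c 1) (b := c 2) (c := c 3)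
        (e := c 0) (by
          rw [Fin.sum_univ_four] at hr
          rw [← hr]
          abel)
      rw [opp 1 0, z01, opp 3 0, z03, neg_zero, mul_zero, mul_zero, zero_add, add_zero] at h3
      exact (mul_eq_zero.1 h3).resolve_left (hcl 2)
    have z02 : cij L E 0 2 = 0 := by rw [opp, z20, neg_zero]
    obtain ⟨y, h2, h3⟩ := n4_pt hC hg
    have h := hE' y 0 2 (by decide)
    rw [f2 y h2 h3, hdu, z02, eu0, eu2] at h
    obtain ⟨lam, sig, h4, h5, h6, h7⟩ := h
    have hmu : muq L (fun _ => 0) y = 0 := by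
      unfold muq
      rw [if_neg (n4_nm hg y)]
    rw [hmu, sub_zero, zpow_zero, zpow_one, mul_one] at h7
    obtain ⟨x, hx⟩ := regular_iff_val.1 h7
    have h8 := Val.ratio (L := L) (l := c 2 • L 2) h4
    rw [smul_dotProduct, h2, smul_zero, zero_div] at h8
    have h9 := hx.mul h8
    have e1 := n4_flne h4
    have e2 : fl (c 2 • L 2) ≠ 0 := by
      rw [fl_smul]
      exact hcl 2
    have e3 : (0 - (0 - -(fl (c 2 • L 2))⁻¹)) * fl lam * (fl (c 2 • L 2) / fl lam) = -1 := by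
      generalize fl (c 2 • L 2) = F at e2
      generalize fl lam = M at e1
      have e4 : (0 : Fn) - (0 - -F⁻¹) = -F⁻¹ := by ring
      rw [e4]
      field_simp
    rw [e3, mul_zero] at h9
    have h10 := Val.const (L := L) (y := y) (-1)
    rw [map_neg, map_one] at h10
    have h11 := h9.unique h10
    norm_num at h11

end HKR
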