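import Pool.Agent.Lib.HKR.NDefs
import Pool.Agent.Lib.HKR.K10
import Pool.Agent.Lib.HKR.K6
import Pool.Agent.Lib.HKR.T1
import Pool.Agent.Lib.HKR.B2
/-!
HKR.N5 (four lines in general position: the two vector fields commute on K; helper88).
 a = chF n = (2, n-2, 0, 0), dd n a = 1 (sum a = n).  Write r_ij = l_i / l_j ∈ Fn (l_i = fl (L i)), M = zp z a ∈ K, everything in Fn is
 mapped to K.  V_u = M • Eu, V_w = M • Ew.  μ_i := M l_0 / l_i, μ_h := M l_0 / fl g (g = gw).
 ε_i(u) := M l_0 eu_i, ε_i(w) := M l_0 ew_i (elements of K): ε(u) = (0, 0, -μ_2/c_2, μ_3/c_3), ε(w) = ((n-2) μ_h, -2 μ_h, -μ_2/c_2, 0).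
 (1) V(r_ij) = (ε_i - ε_j) r_ij for V = V_u, V_w (Eu (r_ij) = l_0 du (r_ij), cij du i j = eu_i - eu_j; r_ij ≠ 0).
 (2) V(M)/M = (1/n) Σ_i a_i (ε_i - ε_0): ext_root with x = M = zp z a, g' = pw L a = Π r_i0^(a_i) = r_10^(n-2) (a = (2,n-2,0,0), r_00 = 1;
   zp_pow: M^n = pw L a).  So V(M) = M ((n-2)/n) (ε_1 - ε_0); as 2 ε_0 + (n-2) ε_1 = 0 for u and w, this is V(M) = -M ε_0:
   ((n-2)(ε_1 - ε_0) = -2 ε_0 - (n-2) ε_0 = -n ε_0).
 (3) V(μ_i) = V(M r_0i) = μ_i (-ε_0 + ε_0 - ε_i) = -μ_i ε_i.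
 (4) V_u(μ_h) = 0: μ_h = M / ((n-2) c_0 - 2 c_1 r_10) and V_u(M) = 0, V_u(r_10) = 0.
 (5) V_u(ε_i(w)) = V_w(ε_i(u)): i = 0, 1: both 0; i = 2: both -μ_2²/c_2²  (V_u(-μ_2/c_2) = μ_2 ε_2(u)/c_2 = -μ_2²/c_2², same for w); i = 3: 0 and
   V_w(μ_3)/c_3 = -μ_3 ε_3(w)/c_3 = 0.
 (6) So [V_u, V_w](r_ij) = (V_u(ε_i(w) - ε_j(w)) - V_w(ε_i(u) - ε_j(u))) r_ij + (products cancel) = 0.  The bracket ⁅V_u, V_w⁆ is a derivation of K
   (Derivation.commutator_apply) vanishing at s = r_10 and t = r_20; Coord s t (coordP: L 1, L 2, L 0 independent, hg): f psi s t Q = psi s t P for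
   every f ∈ Fn, so it vanishes on Fn (induction for psi s t P: algebraMap of a polynomial in s, t), hence on K (ext_unique with 0).
-/
open MvPolynomial
namespace HKR
variable {L : Fin 4 → Fin 3 → ℂ} {c : Fin 4 → ℂ} {n : ℕ} {K : Type} [Field K] [Algebra Fn K]
  [Algebra ℂ K] [IsScalarTower ℂ Fn K] {z : Fin 4 → K}

private theorem n5_lin {a b e : Fin 3 → ℂ} (h : det3 a b e ≠ 0) :
    LinearIndependent ℂ ![a, b, e] := by
  have h1 : IsUnit (Matrix.of ![a, b, e]) := by
    rw [Matrix.isUnit_iff_isUnit_det]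
    exact isUnit_iff_ne_zero.2 h
  exact Matrix.linearIndependent_rows_iff_isUnit.2 h1

/-- a derivation vanishing at the coordinates vanishes -/
private theorem n5_ext (B : Derivation ℂ K K) {s t : Fn} (hc : Coord s t)
    (hs : B (algebraMap Fn K s) = 0) (ht : B (algebraMap Fn K t) = 0) (f : Fn) :
    B (algebraMap Fn K f) = 0 := by
  have h1 : ∀ P : MvPolynomial (Fin 2) ℂ, B (algebraMap Fn K (psi s t P)) = 0 := by
    intro P
    induction P using MvPolynomial.induction_on with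
    | C r =>
      unfold psi
      rw [MvPolynomial.aeval_C, ← IsScalarTower.algebraMap_apply ℂ Fn K]
      exact B.map_algebraMap r
    | add p q hp hq => rw [map_add, map_add, map_add, hp, hq, add_zero]
    | mul_X p i hp =>
      rw [map_mul, map_mul, Derivation.leibniz, hp, smul_zero, add_zero]
      have h2 : B (algebraMap Fn K (psi s t (X i))) = 0 := by
        unfold psi
        rw [MvPolynomial.aeval_X]
        fin_cases i
        · exact hs
        · exact ht
      rw [h2, smul_zero]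
  obtain ⟨P, Q, hQ, hf⟩ := hc.gen f
  have h2 : psi s t Q ≠ 0 := fun h => hQ (hc.inj Q h)
  have h3 := congrArg (fun x => B (algebraMap Fn K x)) hf
  simp only [map_mul, Derivation.leibniz, h1, smul_eq_mul, mul_zero, zero_add] at h3
  rcases mul_eq_zero.1 h3 with h4 | h4
  · exact absurd ((map_eq_zero _).1 h4) h2
  · exact h4

omit [Algebra Fn K] [IsScalarTower ℂ Fn K] in
private theorem n5_mu {V : Derivation ℂ K K} {M : K} {l ε : Fin 4 → K}
    (hR : ∀ i j, V (l i / l j) = (ε i - ε j) * (l i / l j)) (hM : V M = -(M * ε 0)) (i : Fin 4) :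
    V (M * (l 0 / l i)) = -(M * (l 0 / l i) * ε i) := by
  rw [Derivation.leibniz, hR, hM, smul_eq_mul, smul_eq_mul]
  ring

omit [Algebra Fn K] [IsScalarTower ℂ Fn K] in
private theorem n5_comm {U V : Derivation ℂ K K} {l εu εw : Fin 4 → K}
    (hU : ∀ i j, U (l i / l j) = (εu i - εu j) * (l i / l j))
    (hV : ∀ i j, V (l i / l j) = (εw i - εw j) * (l i / l j))
    (he : ∀ i, U (εw i) = V (εu i)) (i j : Fin 4) :
    U (V (l i / l j)) = V (U (l i / l j)) := by
  rw [hU, hV, Derivation.leibniz, Derivation.leibniz, hU, hV, map_sub, map_sub, he, he]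
  simp only [smul_eq_mul]
  ring

/-- the derivation of an eigenvector -/
private theorem n5_V (hC : Config L) (hn : 4 ≤ n) (hz : Kum L n K z) {D : Derivation ℂ Fn Fn}
    {e : Fin 4 → Fn} (hD : ∀ i j, cij L D i j = e i - e j)
    (he : ((n - 2 : ℕ) : Fn) * e 1 = -(2 * e 0)) {E : Derivation ℂ K K}
    (hE : ∀ f, E (algebraMap Fn K f) = algebraMap Fn K (fl (L 0) ^ (dd n (chF n)) * D f)) :
    (∀ i j, (zp z (chF n) • E) (algebraMap Fn K (fl (L i)) / algebraMap Fn K (fl (L j))) =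
      (zp z (chF n) * algebraMap Fn K (fl (L 0)) * algebraMap Fn K (e i) -
        zp z (chF n) * algebraMap Fn K (fl (L 0)) * algebraMap Fn K (e j)) *
        (algebraMap Fn K (fl (L i)) / algebraMap Fn K (fl (L j)))) ∧
    (zp z (chF n) • E) (zp z (chF n)) =
      -(zp z (chF n) * (zp z (chF n) * algebraMap Fn K (fl (L 0)) * algebraMap Fn K (e 0))) := by
  have hfl : ∀ i, fl (L i) ≠ 0 := fun i => fl_ne_zero (by
    have h1 : ∃ j : Fin 4, i ≠ j := ⟨i + 1, by fin_cases i <;> decide⟩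
    obtain ⟨j, hj⟩ := h1
    exact (hC.ind i j hj).ne_zero 0)
  have hd : dd n (chF n) = 1 := by
    unfold dd chF
    simp only [Fin.sum_univ_four, Matrix.cons_val_zero, Matrix.cons_val_one, Matrix.cons_val]
    have : 2 + (n - 2) + 0 + 0 = n := by omega
    rw [this, Nat.div_self (by omega)]
    rfl
  have hE' : ∀ f, E (algebraMap Fn K f) = algebraMap Fn K ((fl (L 0) • D) f) := by
    intro f
    rw [hE, hd, zpow_one]
    rfl
  have hDr : ∀ i j, D (fl (L i) / fl (L j)) = (e i - e j) * (fl (L i) / fl (L j)) := by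
    intro i j
    rw [← hD i j]
    unfold cij
    rw [div_mul_cancel₀ _ (div_ne_zero (hfl i) (hfl j))]
  constructor
  · intro i j
    rw [← map_div₀, Derivation.smul_apply, hE', Derivation.smul_apply, hDr]
    simp only [smul_eq_mul, map_mul, map_sub]
    ring
  · have hp : pw L (chF n) = (fl (L 1) / fl (L 0)) ^ (n - 2) := by
      unfold pw chF
      simp only [Fin.prod_univ_four, Matrix.cons_val_zero, Matrix.cons_val_one, Matrix.cons_val]
      rw [div_self (hfl 0)]
      simp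
    have h1 := ext_root (n := n) (by omega) hE' (x := zp z (chF n)) (g := (fl (L 1) / fl (L 0)) ^ (n - 2))
      (pow_ne_zero _ (div_ne_zero (hfl 1) (hfl 0))) (by
        rw [zp_pow hC (by omega) hz, hp])
    have hn0 : (n : Fn) ≠ 0 := by
      have : CharZero Fn := algebraRat.charZero Fn
      exact Nat.cast_ne_zero.mpr (by omega)
    have h2 : (fl (L 0) • D) ((fl (L 1) / fl (L 0)) ^ (n - 2)) / (fl (L 1) / fl (L 0)) ^ (n - 2) / n =
        -(fl (L 0) * e 0) := by
      have hr0 : fl (L 1) / fl (L 0) ≠ 0 := div_ne_zero (hfl 1) (hfl 0)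
      have hpp : (fl (L 1) / fl (L 0)) ^ (n - 2) =
          (fl (L 1) / fl (L 0)) ^ (n - 2 - 1) * (fl (L 1) / fl (L 0)) := by
        rw [← pow_succ]; congr 1; omega
      have hnn : (n : Fn) = ((n - 2 : ℕ) : Fn) + 2 := by
        have : n = (n - 2) + 2 := by omega
        conv_lhs => rw [this]
        push_cast
        rfl
      rw [Derivation.smul_apply, Derivation.leibniz_pow, hDr, smul_eq_mul, nsmul_eq_mul, smul_eq_mul,
        div_div, div_eq_iff (mul_ne_zero (pow_ne_zero _ hr0) hn0)]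
      generalize fl (L 1) / fl (L 0) = r at *
      rw [hpp, hnn]
      linear_combination (fl (L 0) * r ^ (n - 2 - 1) * r) * he
    rw [Derivation.smul_apply, h1, h2, smul_eq_mul, map_neg, map_mul]
    ring

theorem four_comm (hC : Config L)
    (hg : ∀ i j l, i ≠ j → i ≠ l → j ≠ l → det3 (L i) (L j) (L l) ≠ 0) (hc : ∀ i, c i ≠ 0)
    (hr : ∑ i, c i • L i = 0) (hn : 4 ≤ n) (hz : Kum L n K z) {du dw : Derivation ℂ Fn Fn}
    (hu : ∀ i j, cij L du i j = eu L c i - eu L c j)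
    (hw : ∀ i j, cij L dw i j = ew L c n i - ew L c n j) {Eu Ew : Derivation ℂ K K}
    (hEu : ∀ f, Eu (algebraMap Fn K f) =
      algebraMap Fn K (fl (L 0) ^ (dd n (chF n)) * du f))
    (hEw : ∀ f, Ew (algebraMap Fn K f) =
      algebraMap Fn K (fl (L 0) ^ (dd n (chF n)) * dw f)) (x : K) :
    (zp z (chF n) • Eu) ((zp z (chF n) • Ew) x) = (zp z (chF n) • Ew) ((zp z (chF n) • Eu) x) := by
  have hfl : ∀ i, fl (L i) ≠ 0 := fun i => fl_ne_zero (by
    have h1 : ∃ j : Fin 4, i ≠ j := ⟨i + 1, by fin_cases i <;> decide⟩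
    obtain ⟨j, hj⟩ := h1
    exact (hC.ind i j hj).ne_zero 0)
  have : CharZero K := charZero_of_injective_algebraMap (algebraMap ℂ K).injective
  have := kum_fin hC (by omega) hz
  have hn2 : ((n - 2 : ℕ) : ℂ) ≠ 0 := Nat.cast_ne_zero.mpr (by omega)
  have hgw : gw L c n ≠ 0 := by
    intro h
    have h1 := LinearIndependent.pair_iff.1 (hC.ind 0 1 (by decide)) (((n - 2 : ℕ) : ℂ) * c 0)
      (-(2 * c 1)) (by rw [neg_smul, ← sub_eq_add_neg]; exact h)
    exact mul_ne_zero hn2 (hc 0) h1.1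
  have hflg : fl (gw L c n) ≠ 0 := fl_ne_zero hgw
  set M := zp z (chF n) with hMdef
  have hM0 : M ≠ 0 := kum_ne hC (by omega) hz _
  obtain ⟨hU, hUM⟩ := n5_V hC hn hz hu (by
    unfold eu
    simp) hEu
  obtain ⟨hV, hVM⟩ := n5_V hC hn hz hw (by
    unfold ew
    simp only [Matrix.cons_val_zero, Matrix.cons_val_one, Matrix.cons_val]
    rw [map_natCast, map_ofNat]
    ring) hEw
  rw [← hMdef] at hU hUM hV hVM
  set U := M • Eu with hUdef
  set V := M • Ew with hVdef
  set l : Fin 4 → K := fun i => algebraMap Fn K (fl (L i)) with hl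
  set εu : Fin 4 → K := fun i => M * l 0 * algebraMap Fn K (eu L c i) with hεu
  set εw : Fin 4 → K := fun i => M * l 0 * algebraMap Fn K (ew L c n i) with hεw
  have hU' : ∀ i j, U (l i / l j) = (εu i - εu j) * (l i / l j) := hU
  have hV' : ∀ i j, V (l i / l j) = (εw i - εw j) * (l i / l j) := hV
  have hUM' : U M = -(M * εu 0) := hUM
  have hVM' : V M = -(M * εw 0) := hVM
  have hl0 : ∀ i, l i ≠ 0 := fun i => (map_ne_zero (algebraMap Fn K)).mpr (hfl i)
  have muU := n5_mu hU' hUM'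
  have muV := n5_mu hV' hVM'
  set κ : Fin 4 → K := fun i => algebraMap ℂ K (c i) with hκ
  have hκ0 : ∀ i, κ i ≠ 0 := fun i => (map_ne_zero (algebraMap ℂ K)).mpr (hc i)
  have hfc : ∀ i, algebraMap Fn K (fl (c i • L i)) = κ i * l i := by
    intro i
    rw [fl_smul, map_mul, ← IsScalarTower.algebraMap_apply ℂ Fn K]
  have eu0 : εu 0 = 0 := by simp [hεu, eu]
  have eu1 : εu 1 = 0 := by simp [hεu, eu]
  have eu2 : εu 2 = -((M * (l 0 / l 2)) * (κ 2)⁻¹) := by
    simp only [hεu, eu, Matrix.cons_val]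
    rw [map_neg, map_inv₀, hfc, mul_inv]
    ring
  have eu3 : εu 3 = (M * (l 0 / l 3)) * (κ 3)⁻¹ := by
    simp only [hεu, eu, Matrix.cons_val]
    rw [map_inv₀, hfc, mul_inv]
    ring
  have ew2 : εw 2 = -((M * (l 0 / l 2)) * (κ 2)⁻¹) := by
    simp only [hεw, ew, Matrix.cons_val]
    rw [map_neg, map_inv₀, hfc, mul_inv]
    ring
  have ew3 : εw 3 = 0 := by simp [hεw, ew]
  have Uc : ∀ r : ℂ, U (algebraMap ℂ K r) = 0 := fun r => U.map_algebraMap r
  have Vc : ∀ r : ℂ, V (algebraMap ℂ K r) = 0 := fun r => V.map_algebraMap r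
  have hκi : ∀ i, (κ i)⁻¹ = algebraMap ℂ K (c i)⁻¹ := fun i => (map_inv₀ _ _).symm
  have Uk : ∀ i, U (κ i)⁻¹ = 0 := fun i => by rw [hκi, Uc]
  have Vk : ∀ i, V (κ i)⁻¹ = 0 := fun i => by rw [hκi, Vc]
  -- the form `gw`
  have hmh : U (M * l 0 / algebraMap Fn K (fl (gw L c n))) = 0 := by
    have hg1 : algebraMap Fn K (fl (gw L c n)) =
        algebraMap ℂ K (((n - 2 : ℕ) : ℂ) * c 0) * l 0 + algebraMap ℂ K (-(2 * c 1)) * l 1 := by
      unfold gw
      rw [sub_eq_add_neg, ← neg_smul, fl_add, fl_smul, fl_smul, map_add,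
        map_mul (algebraMap Fn K), map_mul (algebraMap Fn K),
        ← IsScalarTower.algebraMap_apply ℂ Fn K, ← IsScalarTower.algebraMap_apply ℂ Fn K]
    have hg0 : algebraMap Fn K (fl (gw L c n)) ≠ 0 := (map_ne_zero (algebraMap Fn K)).mpr hflg
    set G := algebraMap Fn K (fl (gw L c n)) with hG
    have h1 : (M * l 0 / G) * (G / l 0) = M := by
      have := hl0 0
      field_simp
    have h2 : G / l 0 = algebraMap ℂ K (((n - 2 : ℕ) : ℂ) * c 0) + algebraMap ℂ K (-(2 * c 1)) * (l 1 / l 0) := by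
      have := hl0 0
      rw [hg1]
      field_simp
    have h3 : U (G / l 0) = 0 := by
      rw [h2, map_add, Uc, Derivation.leibniz, Uc, hU', eu0, eu1]
      simp
    have h4 := congrArg U h1
    rw [Derivation.leibniz, h3, smul_zero, zero_add, hUM', eu0, mul_zero, neg_zero,
      smul_eq_mul] at h4
    rcases mul_eq_zero.1 h4 with h5 | h5
    · exact absurd h5 (div_ne_zero hg0 (hl0 0))
    · exact h5
  have he : ∀ i, U (εw i) = V (εu i) := by
    intro i
    fin_cases i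
    · show U (εw 0) = V (εu 0)
      have h1 : εw 0 = algebraMap ℂ K ((n - 2 : ℕ) : ℂ) * (M * l 0 / algebraMap Fn K (fl (gw L c n))) := by
        simp only [hεw, ew, Matrix.cons_val_zero]
        rw [map_mul, map_inv₀, ← IsScalarTower.algebraMap_apply ℂ Fn K]
        ring
      rw [eu0, map_zero, h1, Derivation.leibniz, hmh, Uc, smul_zero, smul_zero, add_zero]
    · show U (εw 1) = V (εu 1)
      have h1 : εw 1 = algebraMap ℂ K (-2) * (M * l 0 / algebraMap Fn K (fl (gw L c n))) := by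
        simp only [hεw, ew, Matrix.cons_val_one, Matrix.cons_val_zero]
        rw [map_neg, map_mul, map_inv₀, ← IsScalarTower.algebraMap_apply ℂ Fn K, map_neg]
        ring
      rw [eu1, map_zero, h1, Derivation.leibniz, hmh, Uc, smul_zero, smul_zero, add_zero]
    · show U (εw 2) = V (εu 2)
      rw [eu2, ew2, map_neg, map_neg, U.leibniz (M * (l 0 / l 2)) (κ 2)⁻¹,
        V.leibniz (M * (l 0 / l 2)) (κ 2)⁻¹, Uk, Vk, muU, muV, eu2, ew2]
    · show U (εw 3) = V (εu 3)
      rw [eu3, ew3, map_zero, Derivation.leibniz, Vk, muV, ew3]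
      simp
  have hcomm := n5_comm hU' hV' he
  have hB : ⁅U, V⁆ = (0 : Derivation ℂ K K) := by
    apply ext_unique
    intro f
    rw [Derivation.zero_apply]
    have hco : Coord (fl (L 1) / fl (L 0)) (fl (L 2) / fl (L 0)) :=
      coordP (n5_lin (hg 1 2 0 (by decide) (by decide) (by decide)))
    refine n5_ext ⁅U, V⁆ hco ?_ ?_ f
    · rw [Derivation.commutator_apply, map_div₀]
      exact sub_eq_zero.2 (hcomm 1 0)
    · rw [Derivation.commutator_apply, map_div₀]
      exact sub_eq_zero.2 (hcomm 2 0)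
  have h := DFunLike.congr_fun hB x
  rw [Derivation.commutator_apply, Derivation.zero_apply] at h
  exact sub_eq_zero.1 h

end HKR
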