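import Pool.Agent.Lib.HKR.N6
/-!
HKR.N7 (classification of 4 and 5 lines; helper88).  Two: lines a, b, c through p, all other lines through q ∈ c, at least one line d off p.
TOOLS.  det3 a b c = 0 iff there is q ≠ 0 with a q = b q = c q = 0 (Matrix.exists_mulVec_eq_zero_iff; see c1det, c1det' in C1).  For i ≠ j the
 point p = crossProduct (L i) (L j) ≠ 0 is on both lines (hC.ind), and every x with L i ⬝ x = L j ⬝ x = 0 is a multiple of p; so if
 det3 (L i) (L j) (L l) = 0 then L l ⬝ p = 0.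
class_four.  If some i, j, l distinct have det3 = 0: p ≠ 0 on the three, the fourth line d is not through p (hC.nonconc).
 q := crossProduct (L l) (L d) ≠ 0.  a := i, b := j, c := l.
class_four_rel.  The four vectors of ℂ³ are dependent (finrank): c ≠ 0 with Σ c_i L_i = 0 (e.g. the explicit relation: c_i = ± det3 of the other three,
 Cramer; Matrix.det_fin_three; ring), and c_i = ± det3 ≠ 0.
class_five.  Case 1: no i, j, l distinct with det3 = 0: near_cross with e = 4, w = L 0, (a,b,c,d) = (0,1,2,3): hz: det3 (L 4) (L j) (L l) = 0 with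
 j, l ≠ 4 forces j = l, then det3 w (L j) (L j) = 0; the conclusion contradicts the four nonzero determinants.
 Case 2: det3 (L a) (L b) (L c) = 0 for distinct a, b, c; d, e the two other indices (every index is one of the five).  p ≠ 0 on a, b, c.
  2a: L d ⬝ p = 0: L e ⬝ p ≠ 0 (nonconc).  Move the line a by w = L b: near_cross with moving line a, cross ratio on the line e of b, c, d:
   (e,w,a,b,c,d) := (a, L b, b, c, d, e): hz: det3 (L a) (L j) (L l) = 0, j, l ≠ a: if j = l trivial; otherwise j, l ≠ e (else the two others through p meet the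
   line e at p), so all pass through p: det3 (L b) (L j) (L l) = 0.  Conclusion: det3 e b c * det3 e b d * det3 e c d * det3 e a b = 0, all nonzero
   (two different lines through p and a line not through p).  Contradiction.  2a': L e ⬝ p = 0: same with d, e exchanged.
  2b: d, e not through p, and det3 (L d) (L e) (L x) = 0 for some x ∈ {a, b, c}: rename so that x = c.  q := crossProduct (L d) (L e).  Done.
  2c: d, e not through p and det3 (L d) (L e) (L x) ≠ 0 for all x ∈ {a, b, c}: near_cross with e, w = L a, (a,b,c,d): hz: j, l ≠ e, j ≠ l: det3 (L e) (L j) (L l) ≠ 0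
   for all such (one of j, l is d: hypothesis; both in {a,b,c}: e not through p), so j = l.  Conclusion
   det3 d a b * det3 d a c * det3 d b c * det3 d e a = 0: all nonzero.  Contradiction.
 (The statements are symmetric in the indices: prove one lemma for given distinct a b c d e covering Fin 5 and apply it with permutations; the five indices:
 Finset.card / `fin_cases` + `omega`, or decide.)
-/
open MvPolynomial
namespace HKR

/-- exactly three lines `a, b, c` pass through `p`, all others through `q` on the line `c` -/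
def Two {k : ℕ} (L : Fin k → Fin 3 → ℂ) : Prop :=
  ∃ (a b c d : Fin k) (p q : Fin 3 → ℂ), a ≠ b ∧ a ≠ c ∧ b ≠ c ∧ p ≠ 0 ∧ L a ⬝ᵥ p = 0 ∧
    L b ⬝ᵥ p = 0 ∧ L c ⬝ᵥ p = 0 ∧ (∀ i, L i ⬝ᵥ p = 0 → i = a ∨ i = b ∨ i = c) ∧ q ≠ 0 ∧
    L c ⬝ᵥ q = 0 ∧ L d ⬝ᵥ p ≠ 0 ∧ ∀ i, L i ⬝ᵥ p ≠ 0 → L i ⬝ᵥ q = 0

private theorem n7det {a b c q : Fin 3 → ℂ} (hq : q ≠ 0) (ha : a ⬝ᵥ q = 0) (hb : b ⬝ᵥ q = 0)
    (hc : c ⬝ᵥ q = 0) : det3 a b c = 0 := by
  unfold det3
  rw [← Matrix.exists_mulVec_eq_zero_iff]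
  refine ⟨q, hq, ?_⟩
  funext i
  fin_cases i
  · exact ha
  · exact hb
  · exact hc

private theorem n7pt {a b c : Fin 3 → ℂ} (h : det3 a b c = 0) :
    ∃ q : Fin 3 → ℂ, q ≠ 0 ∧ a ⬝ᵥ q = 0 ∧ b ⬝ᵥ q = 0 ∧ c ⬝ᵥ q = 0 := by
  unfold det3 at h
  rw [← Matrix.exists_mulVec_eq_zero_iff] at h
  obtain ⟨q, hq, hm⟩ := h
  exact ⟨q, hq, congrFun hm 0, congrFun hm 1, congrFun hm 2⟩

private theorem n7eq (a b : Fin 3 → ℂ) : det3 a b b = 0 := by
  simp only [det3, Matrix.det_fin_three, Matrix.of_apply, Matrix.cons_val_zero,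
    Matrix.cons_val_one, Matrix.cons_val]
  ring

/-- the common point of two lines -/
private theorem n7two (a b : Fin 3 → ℂ) : ∃ q : Fin 3 → ℂ, q ≠ 0 ∧ a ⬝ᵥ q = 0 ∧ b ⬝ᵥ q = 0 := by
  obtain ⟨q, h1, h2, h3, -⟩ := n7pt (n7eq a b)
  exact ⟨q, h1, h2, h3⟩

private theorem n7par {u v p q : Fin 3 → ℂ} (h : LinearIndependent ℂ ![u, v]) (hp : p ≠ 0)
    (h1 : u ⬝ᵥ p = 0) (h2 : v ⬝ᵥ p = 0) (h3 : u ⬝ᵥ q = 0) (h4 : v ⬝ᵥ q = 0) :
    ∃ c : ℂ, q = c • p := by
  have hc : crossProduct u v ≠ 0 := crossProduct_ne_zero_iff_linearIndependent.2 h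
  obtain ⟨j, hj⟩ := Function.ne_iff.1 hc
  have key : ∀ x : Fin 3 → ℂ, u ⬝ᵥ x = 0 → v ⬝ᵥ x = 0 →
      ∀ i, x i * (crossProduct u v) j = x j * (crossProduct u v) i := by
    intro x hx hy i
    have h0 : crossProduct x (crossProduct u v) = 0 := by
      rw [cross_cross_eq_smul_sub_smul', hx, dotProduct_comm x v, hy, zero_smul, zero_smul,
        sub_zero]
    generalize crossProduct u v = c at h0 ⊢
    rw [cross_apply] at h0
    have e0 := congrFun h0 0
    have e1 := congrFun h0 1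
    have e2 := congrFun h0 2
    simp only [Matrix.cons_val_zero, Matrix.cons_val_one, Matrix.cons_val, Pi.zero_apply] at e0 e1 e2
    fin_cases i <;> fin_cases j <;> simp only [Fin.zero_eta, Fin.mk_one, Fin.reduceFinMk] <;>
      first
      | rfl
      | linear_combination e0
      | linear_combination e1
      | linear_combination e2
      | linear_combination -e0
      | linear_combination -e1
      | linear_combination -e2
  have kp := key p h1 h2
  have kq := key q h3 h4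
  simp only [Pi.zero_apply] at hj
  have hpj : p j ≠ 0 := by
    intro h0
    apply hp
    funext i
    have := kp i
    rw [h0, zero_mul] at this
    exact (mul_eq_zero.1 this).resolve_right hj
  refine ⟨q j / p j, ?_⟩
  funext i
  have a := kp i
  have b := kq i
  rw [Pi.smul_apply, smul_eq_mul]
  have c : q i * p j = q j * p i := by
    have : (q i * p j - q j * p i) * (crossProduct u v) j = 0 := by
      linear_combination p j * b - q j * a
    exact sub_eq_zero.1 ((mul_eq_zero.1 this).resolve_right hj)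
  field_simp
  linear_combination c

/-- a line concurrent with two lines through `p` passes through `p` -/
private theorem n7conc {k : ℕ} {L : Fin k → Fin 3 → ℂ} (hC : Config L) {p : Fin 3 → ℂ}
    {i j e : Fin k} (hij : i ≠ j) (hi : L i ⬝ᵥ p = 0) (hj : L j ⬝ᵥ p = 0)
    {r : Fin 3 → ℂ} (hr : r ≠ 0) (hir : L i ⬝ᵥ r = 0) (hjr : L j ⬝ᵥ r = 0)
    (her : L e ⬝ᵥ r = 0) : L e ⬝ᵥ p = 0 := by
  obtain ⟨c, rfl⟩ := n7par (hC.ind i j hij) hr hir hjr hi hj
  rw [dotProduct_smul, her, smul_zero]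

private theorem n7nd {k : ℕ} {L : Fin k → Fin 3 → ℂ} (hC : Config L) {p : Fin 3 → ℂ}
    {i j e : Fin k} (hij : i ≠ j) (hi : L i ⬝ᵥ p = 0) (hj : L j ⬝ᵥ p = 0)
    (he : L e ⬝ᵥ p ≠ 0) : det3 (L e) (L i) (L j) ≠ 0 := by
  intro h0
  obtain ⟨r, hr, h1, h2, h3⟩ := n7pt h0
  exact he (n7conc hC hij hi hj hr h2 h3 h1)

private theorem n7nd' {k : ℕ} {L : Fin k → Fin 3 → ℂ} (hC : Config L) {p : Fin 3 → ℂ}
    {i j e : Fin k} (hij : i ≠ j) (hi : L i ⬝ᵥ p = 0) (hj : L j ⬝ᵥ p = 0)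
    (he : L e ⬝ᵥ p ≠ 0) : det3 (L i) (L e) (L j) ≠ 0 := by
  intro h0
  obtain ⟨r, hr, h1, h2, h3⟩ := n7pt h0
  exact he (n7conc hC hij hi hj hr h1 h3 h2)

private theorem n7nd'' {k : ℕ} {L : Fin k → Fin 3 → ℂ} (hC : Config L) {p : Fin 3 → ℂ}
    {i j e : Fin k} (hij : i ≠ j) (hi : L i ⬝ᵥ p = 0) (hj : L j ⬝ᵥ p = 0)
    (he : L e ⬝ᵥ p ≠ 0) : det3 (L i) (L j) (L e) ≠ 0 := by
  intro h0
  obtain ⟨r, hr, h1, h2, h3⟩ := n7pt h0
  exact he (n7conc hC hij hi hj hr h1 h2 h3)

private theorem n7four : ∀ i j l : Fin 4, i ≠ j → i ≠ l → j ≠ l →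
    ∃ d, ∀ m, m = i ∨ m = j ∨ m = l ∨ m = d := by
  decide

theorem class_four {L : Fin 4 → Fin 3 → ℂ} (hC : Config L) :
    Two L ∨ ∀ i j l, i ≠ j → i ≠ l → j ≠ l → det3 (L i) (L j) (L l) ≠ 0 := by
  by_cases h : ∀ i j l, i ≠ j → i ≠ l → j ≠ l → det3 (L i) (L j) (L l) ≠ 0
  · exact Or.inr h
  left
  push Not at h
  obtain ⟨i, j, l, hij, hil, hjl, h0⟩ := h
  obtain ⟨p, hp, hi, hj, hl⟩ := n7pt h0
  obtain ⟨d, hd⟩ := n7four i j l hij hil hjl
  obtain ⟨q, hq, hlq, hdq⟩ := n7two (L l) (L d)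
  have hdp : L d ⬝ᵥ p ≠ 0 := by
    intro h1
    apply hp
    apply hC.nonconc
    intro m
    rcases hd m with rfl | rfl | rfl | rfl <;> assumption
  refine ⟨i, j, l, d, p, q, hij, hil, hjl, hp, hi, hj, hl, ?_, hq, hlq, hdp, ?_⟩
  · intro m hm
    rcases hd m with h1 | h1 | h1 | h1
    · exact Or.inl h1
    · exact Or.inr (Or.inl h1)
    · exact Or.inr (Or.inr h1)
    · subst h1
      exact absurd hm hdp
  · intro m hm
    rcases hd m with rfl | rfl | rfl | rfl
    · exact absurd hi hm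
    · exact absurd hj hm
    · exact absurd hl hm
    · exact hdq

theorem class_four_rel {L : Fin 4 → Fin 3 → ℂ}
    (hg : ∀ i j l, i ≠ j → i ≠ l → j ≠ l → det3 (L i) (L j) (L l) ≠ 0) :
    ∃ c : Fin 4 → ℂ, (∀ i, c i ≠ 0) ∧ ∑ i, c i • L i = 0 := by
  refine ⟨![det3 (L 1) (L 2) (L 3), -det3 (L 0) (L 2) (L 3), det3 (L 0) (L 1) (L 3),
    -det3 (L 0) (L 1) (L 2)], ?_, ?_⟩
  · intro i
    fin_cases i
    · exact hg 1 2 3 (by decide) (by decide) (by decide)
    · exact neg_ne_zero.2 (hg 0 2 3 (by decide) (by decide) (by decide))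
    · exact hg 0 1 3 (by decide) (by decide) (by decide)
    · exact neg_ne_zero.2 (hg 0 1 2 (by decide) (by decide) (by decide))
  · funext j
    rw [Fin.sum_univ_four]
    simp only [Matrix.cons_val_zero, Matrix.cons_val_one, Matrix.cons_val, Pi.add_apply,
      Pi.smul_apply, smul_eq_mul, Pi.zero_apply, det3, Matrix.det_fin_three, Matrix.of_apply]
    fin_cases j <;> simp only [Fin.zero_eta, Fin.mk_one, Fin.reduceFinMk] <;> ring

/-- four concurrent lines and a fifth line are not rigid -/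
private theorem n7conc4 {L : Fin 5 → Fin 3 → ℂ} (hC : Config L) (hR : NearRigid L)
    {a b c d e : Fin 5} (hab : a ≠ b) (hac : a ≠ c) (had : a ≠ d) (hbc : b ≠ c) (hbd : b ≠ d)
    (hcd : c ≠ d) (hae : a ≠ e) (hcov : ∀ m, m = a ∨ m = b ∨ m = c ∨ m = d ∨ m = e)
    {p : Fin 3 → ℂ} (hp : p ≠ 0) (ha : L a ⬝ᵥ p = 0) (hb : L b ⬝ᵥ p = 0) (hc : L c ⬝ᵥ p = 0)
    (hd : L d ⬝ᵥ p = 0) (he : L e ⬝ᵥ p ≠ 0) : False := by
  have hall : ∀ m, m ≠ e → L m ⬝ᵥ p = 0 := by
    intro m hm
    rcases hcov m with rfl | rfl | rfl | rfl | rfl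
    · exact ha
    · exact hb
    · exact hc
    · exact hd
    · exact absurd rfl hm
  have h := near_cross hR (e := a) (w := L b) (by
    intro j l hja hla h0
    by_cases hjl : j = l
    · subst hjl
      exact n7eq _ _
    by_cases hje : j = e
    · subst hje
      have hlp := hall l (Ne.symm hjl)
      exact absurd h0 (n7nd' hC (Ne.symm hla) ha hlp he)
    by_cases hle : l = e
    · subst hle
      have hjp := hall j hjl
      exact absurd h0 (n7nd'' hC (Ne.symm hja) ha hjp he)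
    exact n7det hp hb (hall j hje) (hall l hle)) (a := b) (b := c) (c := d) (d := e)
    (Ne.symm hab) (Ne.symm hac) (Ne.symm had) (Ne.symm hae)
  have h1 := n7nd hC hbc hb hc he
  have h2 := n7nd hC hbd hb hd he
  have h3 := n7nd hC hcd hc hd he
  have h4 := n7nd hC hab ha hb he
  exact mul_ne_zero (mul_ne_zero (mul_ne_zero h1 h2) h3) h4 h

private theorem n7core {L : Fin 5 → Fin 3 → ℂ} (hC : Config L) (hR : NearRigid L)
    {a b c d e : Fin 5} (hab : a ≠ b) (hac : a ≠ c) (had : a ≠ d) (hae : a ≠ e) (hbc : b ≠ c)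
    (hbd : b ≠ d) (hbe : b ≠ e) (hcd : c ≠ d) (hce : c ≠ e) (hde : d ≠ e)
    (hcov : ∀ m, m = a ∨ m = b ∨ m = c ∨ m = d ∨ m = e)
    {p : Fin 3 → ℂ} (hp : p ≠ 0) (ha : L a ⬝ᵥ p = 0) (hb : L b ⬝ᵥ p = 0) (hc : L c ⬝ᵥ p = 0) :
    Two L := by
  have hnc : ¬ (L d ⬝ᵥ p = 0 ∧ L e ⬝ᵥ p = 0) := by
    rintro ⟨h1, h2⟩
    apply hp
    apply hC.nonconc
    intro m
    rcases hcov m with rfl | rfl | rfl | rfl | rfl <;> assumption
  by_cases hd : L d ⬝ᵥ p = 0
  · have he : L e ⬝ᵥ p ≠ 0 := fun h => hnc ⟨hd, h⟩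
    exact (n7conc4 hC hR hab hac had hbc hbd hcd hae hcov hp ha hb hc hd he).elim
  by_cases he : L e ⬝ᵥ p = 0
  · exact (n7conc4 hC hR hab hac hae hbc hbe hce had (fun m => by
      rcases hcov m with h | h | h | h | h
      · exact Or.inl h
      · exact Or.inr (Or.inl h)
      · exact Or.inr (Or.inr (Or.inl h))
      · exact Or.inr (Or.inr (Or.inr (Or.inr h)))
      · exact Or.inr (Or.inr (Or.inr (Or.inl h)))) hp ha hb hc he hd).elim
  obtain ⟨q, hq, hdq, heq⟩ := n7two (L d) (L e)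
  have hone : ∀ m, L m ⬝ᵥ p = 0 → m = a ∨ m = b ∨ m = c := by
    intro m hm
    rcases hcov m with h | h | h | h | h
    · exact Or.inl h
    · exact Or.inr (Or.inl h)
    · exact Or.inr (Or.inr h)
    · subst h
      exact absurd hm hd
    · subst h
      exact absurd hm he
  have htwo : ∀ m, L m ⬝ᵥ p ≠ 0 → L m ⬝ᵥ q = 0 := by
    intro m hm
    rcases hcov m with rfl | rfl | rfl | rfl | rfl
    · exact absurd ha hm
    · exact absurd hb hm
    · exact absurd hc hm
    · exact hdq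
    · exact heq
  by_cases hcq : L c ⬝ᵥ q = 0
  · exact ⟨a, b, c, d, p, q, hab, hac, hbc, hp, ha, hb, hc, hone, hq, hcq, hd, htwo⟩
  by_cases hbq : L b ⬝ᵥ q = 0
  · refine ⟨a, c, b, d, p, q, hac, hab, Ne.symm hbc, hp, ha, hc, hb, ?_, hq, hbq, hd, htwo⟩
    intro m hm
    rcases hone m hm with h | h | h
    · exact Or.inl h
    · exact Or.inr (Or.inr h)
    · exact Or.inr (Or.inl h)
  by_cases haq : L a ⬝ᵥ q = 0
  · refine ⟨b, c, a, d, p, q, hbc, Ne.symm hab, Ne.symm hac, hp, hb, hc, ha, ?_, hq, haq, hd,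
      htwo⟩
    intro m hm
    rcases hone m hm with h | h | h
    · exact Or.inr (Or.inr h)
    · exact Or.inl h
    · exact Or.inr (Or.inl h)
  exfalso
  have hnq : ∀ m, m ≠ d → m ≠ e → L m ⬝ᵥ q ≠ 0 := by
    intro m hmd hme
    rcases hcov m with rfl | rfl | rfl | rfl | rfl
    · exact haq
    · exact hbq
    · exact hcq
    · exact absurd rfl hmd
    · exact absurd rfl hme
  have hyp : ∀ m, m ≠ d → m ≠ e → L m ⬝ᵥ p = 0 := by
    intro m hmd hme
    rcases hcov m with rfl | rfl | rfl | rfl | rfl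
    · exact ha
    · exact hb
    · exact hc
    · exact absurd rfl hmd
    · exact absurd rfl hme
  have h := near_cross hR (e := e) (w := L a) (by
    intro j l hje hle h0
    by_cases hjl : j = l
    · subst hjl
      exact n7eq _ _
    by_cases hjd : j = d
    · subst hjd
      exact absurd h0 (n7nd'' hC (Ne.symm hde) heq hdq (hnq l (Ne.symm hjl) hle))
    by_cases hld : l = d
    · subst hld
      exact absurd h0 (n7nd' hC (Ne.symm hde) heq hdq (hnq j hjl hje))
    exact absurd h0 (n7nd hC hjl (hyp j hjd hje) (hyp l hld hle) he)) (a := a) (b := b) (c := c)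
    (d := d) hae hbe hce hde
  have h1 := n7nd hC hab ha hb hd
  have h2 := n7nd hC hac ha hc hd
  have h3 := n7nd hC hbc hb hc hd
  have h4 := n7nd'' hC hde hdq heq haq
  exact mul_ne_zero (mul_ne_zero (mul_ne_zero h1 h2) h3) h4 h

private theorem n7five : ∀ i j l : Fin 5, i ≠ j → i ≠ l → j ≠ l →
    ∃ d e, i ≠ d ∧ i ≠ e ∧ j ≠ d ∧ j ≠ e ∧ l ≠ d ∧ l ≠ e ∧ d ≠ e ∧
      ∀ m, m = i ∨ m = j ∨ m = l ∨ m = d ∨ m = e := by
  decide

theorem class_five {L : Fin 5 → Fin 3 → ℂ} (hC : Config L) (hR : NearRigid L) : Two L := by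
  by_cases h : ∀ i j l, i ≠ j → i ≠ l → j ≠ l → det3 (L i) (L j) (L l) ≠ 0
  · exfalso
    have h1 := near_cross hR (e := 4) (w := L 0) (by
      intro j l hj hl h0
      by_cases hjl : j = l
      · subst hjl
        exact n7eq _ _
      exact absurd h0 (h 4 j l (Ne.symm hj) (Ne.symm hl) hjl)) (a := 0) (b := 1) (c := 2)
      (d := 3) (by decide) (by decide) (by decide) (by decide)
    exact mul_ne_zero (mul_ne_zero (mul_ne_zero
      (h 3 0 1 (by decide) (by decide) (by decide))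
      (h 3 0 2 (by decide) (by decide) (by decide)))
      (h 3 1 2 (by decide) (by decide) (by decide)))
      (h 3 4 0 (by decide) (by decide) (by decide)) h1
  push Not at h
  obtain ⟨i, j, l, hij, hil, hjl, h0⟩ := h
  obtain ⟨p, hp, hi, hj, hl⟩ := n7pt h0
  obtain ⟨d, e, h1, h2, h3, h4, h5, h6, h7, hcov⟩ := n7five i j l hij hil hjl
  exact n7core hC hR hij hil h1 h2 hjl h3 h4 h5 h6 h7 hcov hp hi hj hl

end HKR
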