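import Pool.Agent.Lib.HKR.N8
import Pool.Agent.Lib.HKR.T1
/-!
HKR.N9 (three lines: all characters; helper88).  n ≥ 4, a i < n, n ∣ Σ a.
PROOF.  Some l has bl n a l = 0: otherwise all a i = n - 1, n ∣ 3 (n - 1), n ∣ 3, n ≤ 3.  Let i, j be the two others (i ≠ j, every index is i, j or l);
 d = (Σ a)/n, bi = bl n a i, bj = bl n a j.  If bi = 1 then a i = n - 1 > 0, so Σ a ≥ n and d ≥ 1; so d - bi = D1, d - bj = D2 are natural numbers.
 No y.q is multiple (three independent lines), so the m in FCond is irrelevant (Sect.congr_m).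
 (1) FCond L n a y D ↔ Sect L D1 0 y (cij D i l * fl (L i)^bi) ∧ Sect L D2 0 y (cij D j l * fl (L j)^bj).
   →: the conditions (i,l), (j,l) with fl (L l)^0 = 1.  ←: (i,j): cij D i j = cij D i l - cij D j l (cij_trans, cij_self: cij l j = - cij j l), times l_i^bi l_j^bj:
   (cij i l l_i^bi) l_j^bj - (cij j l l_j^bj) l_i^bi, with fl (L j)^bj of class Sect (-bj) (sect_lin, Sect.pow or cases bj = 0, 1; Sect.mul); the transposed pairs
   by cij j i = - cij i j.  (i,l), (l,i), (j,l), (l,j) are clear.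
 (2) D LC: e1 y := cij (D y) i l * fl (L i)^bi is LC for Sect L D1 0 (cij_sub), same e2: cousin_three: E1, E2.
 (3) exists_der (i, j, l) (det3 ≠ 0 by Config): E with cij E i l = E1 / fl (L i)^bi, cij E j l = E2 / fl (L j)^bj (fl ≠ 0).  (1) ←: FCond y (E - D y).
-/
open MvPolynomial
namespace HKR

/-- three independent lines have no multiple point -/
private theorem n9_nomult {L : Fin 3 → Fin 3 → ℂ} (hC : Config L) (y : Pt) :
    ¬ Multiple L y.q := by
  rintro ⟨a, b, c, hab, hac, hbc, h1, h2, h3⟩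
  have hall : ∀ x : Fin 3, L x ⬝ᵥ y.q = 0 := by
    intro x
    have hx : x = a ∨ x = b ∨ x = c := by
      clear h1 h2 h3
      revert a b c x
      decide
    rcases hx with rfl | rfl | rfl <;> assumption
  exact y.ind.ne_zero 0 (hC.nonconc _ hall)

private theorem n9_congr {L : Fin 3 → Fin 3 → ℂ} (hC : Config L) {D D' : ℤ}
    {m m' : Finset (Fin 3) → ℤ} {y : Pt} {f f' : Fn} (h : Sect L D m y f) (hD : D = D')
    (hf : f = f') : Sect L D' m' y f' := by
  subst hD hf
  exact h.congr_m fun hm => absurd hm (n9_nomult hC y)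

private theorem n9_det {L : Fin 3 → Fin 3 → ℂ} (hC : Config L) {i j l : Fin 3}
    (hall : ∀ x : Fin 3, x = i ∨ x = j ∨ x = l) : det3 (L i) (L j) (L l) ≠ 0 := by
  intro h
  unfold det3 at h
  rw [← Matrix.exists_mulVec_eq_zero_iff] at h
  obtain ⟨v, hv, hv0⟩ := h
  apply hv
  apply hC.nonconc
  intro x
  rcases hall x with rfl | rfl | rfl
  · exact congrFun hv0 0
  · exact congrFun hv0 1
  · exact congrFun hv0 2

private theorem n9_swap {L : Fin 3 → Fin 3 → ℂ} (hC : Config L) (D : Derivation ℂ Fn Fn)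
    (p q : Fin 3) : cij L D q p = -cij L D p q := by
  have h := cij_trans hC D p q p
  rw [cij_self hC] at h
  linear_combination h

/-- the conditions at `y` in terms of two sections -/
private theorem n9_iff {L : Fin 3 → Fin 3 → ℂ} (hC : Config L) {n : ℕ} {a : Fin 3 → ℕ}
    {i j l : Fin 3} (hil : i ≠ l) (hjl : j ≠ l)
    (hall : ∀ x : Fin 3, x = i ∨ x = j ∨ x = l) (hl : bl n a l = 0) {D1 D2 : ℤ}
    (hD1 : (((∑ l, a l) / n : ℕ) : ℤ) - bl n a i = D1)
    (hD2 : (((∑ l, a l) / n : ℕ) : ℤ) - bl n a j = D2) (y : Pt) (D : Derivation ℂ Fn Fn) :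
    FCond L n a y D ↔
      Sect L D1 (fun _ => 0) y (cij L D i l * fl (L i) ^ (bl n a i)) ∧
      Sect L D2 (fun _ => 0) y (cij L D j l * fl (L j) ^ (bl n a j)) := by
  constructor
  · intro h
    constructor
    · refine n9_congr hC (h i l hil) ?_ ?_
      · rw [hl, ← hD1]; push_cast; ring
      · rw [hl, pow_zero, mul_one]
    · refine n9_congr hC (h j l hjl) ?_ ?_
      · rw [hl, ← hD2]; push_cast; ring
      · rw [hl, pow_zero, mul_one]
  · rintro ⟨h1, h2⟩
    have key : ∀ p q : Fin 3,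
        Sect L ((((∑ l, a l) / n : ℕ) : ℤ) - bl n a p - bl n a q) (fun _ => 0) y
          (cij L D p q * fl (L p) ^ (bl n a p) * fl (L q) ^ (bl n a q)) →
        Sect L ((((∑ l, a l) / n : ℕ) : ℤ) - bl n a q - bl n a p) (fun _ => 0) y
          (cij L D q p * fl (L q) ^ (bl n a q) * fl (L p) ^ (bl n a p)) := by
      intro p q h
      refine n9_congr hC h.neg (by ring) ?_
      rw [n9_swap hC D p q]
      ring
    have pil : Sect L ((((∑ l, a l) / n : ℕ) : ℤ) - bl n a i - bl n a l) (fun _ => 0) y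
          (cij L D i l * fl (L i) ^ (bl n a i) * fl (L l) ^ (bl n a l)) := by
      refine n9_congr hC h1 ?_ ?_
      · rw [hl, ← hD1]; push_cast; ring
      · rw [hl, pow_zero, mul_one]
    have pjl : Sect L ((((∑ l, a l) / n : ℕ) : ℤ) - bl n a j - bl n a l) (fun _ => 0) y
          (cij L D j l * fl (L j) ^ (bl n a j) * fl (L l) ^ (bl n a l)) := by
      refine n9_congr hC h2 ?_ ?_
      · rw [hl, ← hD2]; push_cast; ring
      · rw [hl, pow_zero, mul_one]
    have pij : Sect L ((((∑ l, a l) / n : ℕ) : ℤ) - bl n a i - bl n a j) (fun _ => 0) y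
          (cij L D i j * fl (L i) ^ (bl n a i) * fl (L j) ^ (bl n a j)) := by
      have e1 := h1.mul ((sect_lin (L := L) (y := y) (L j)).pow (bl n a j))
      have e2 := h2.mul ((sect_lin (L := L) (y := y) (L i)).pow (bl n a i))
      have e1' : Sect L ((((∑ l, a l) / n : ℕ) : ℤ) - bl n a i - bl n a j) (fun _ => 0) y
          (cij L D i l * fl (L i) ^ (bl n a i) * fl (L j) ^ (bl n a j)) :=
        n9_congr hC e1 (by rw [← hD1]; ring) rfl
      have e2' : Sect L ((((∑ l, a l) / n : ℕ) : ℤ) - bl n a i - bl n a j) (fun _ => 0) y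
          (cij L D j l * fl (L j) ^ (bl n a j) * fl (L i) ^ (bl n a i)) :=
        n9_congr hC e2 (by rw [← hD2]; ring) rfl
      refine n9_congr hC (e1'.sub e2') rfl ?_
      have h3 := cij_trans hC D i j l
      rw [← h3]
      ring
    intro p q hpq
    have fin : Sect L ((((∑ l, a l) / n : ℕ) : ℤ) - bl n a p - bl n a q) (fun _ => 0) y
          (cij L D p q * fl (L p) ^ (bl n a p) * fl (L q) ^ (bl n a q)) := by
      rcases hall p with rfl | rfl | rfl <;> rcases hall q with rfl | rfl | rfl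
      · exact absurd rfl hpq
      · exact pij
      · exact pil
      · exact key _ _ pij
      · exact absurd rfl hpq
      · exact pjl
      · exact key _ _ pil
      · exact key _ _ pjl
      · exact absurd rfl hpq
    exact n9_congr hC fin rfl rfl

private theorem n9_pick (P : Fin 3 → Prop) (h : ∃ l, P l) : ∃ i j l : Fin 3,
    i ≠ l ∧ j ≠ l ∧ (∀ x : Fin 3, x = i ∨ x = j ∨ x = l) ∧ P l := by
  obtain ⟨l, hl⟩ := h
  fin_cases l
  · exact ⟨1, 2, 0, by decide, by decide, by decide, hl⟩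
  · exact ⟨0, 2, 1, by decide, by decide, by decide, hl⟩
  · exact ⟨0, 1, 2, by decide, by decide, by decide, hl⟩

theorem flevel_three {L : Fin 3 → Fin 3 → ℂ} (hC : Config L) {n : ℕ} (hn : 4 ≤ n)
    (a : Fin 3 → ℕ) (ha : ∀ i, a i < n) (hs : n ∣ ∑ i, a i) (D : Pt → Derivation ℂ Fn Fn)
    (hD : LC L (FCond L n a) D) : Glob (FCond L n a) D := by
  have hex : ∃ l, bl n a l = 0 := by
    by_contra hcon
    push Not at hcon
    have h1 : ∀ l, a l + 1 = n := by
      intro l
      by_contra h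
      exact hcon l (if_neg h)
    rw [Fin.sum_univ_three] at hs
    have h2 : n ∣ 3 := by
      have e : a 0 + a 1 + a 2 + 3 = 3 * n := by
        have := h1 0
        have := h1 1
        have := h1 2
        omega
      have e2 : n ∣ a 0 + a 1 + a 2 + 3 := by rw [e]; exact Dvd.intro_left 3 rfl
      exact (Nat.dvd_add_right hs).1 e2
    have := Nat.le_of_dvd (by norm_num) h2
    omega
  obtain ⟨i, j, l, hil, hjl, hall, hl⟩ := n9_pick _ hex
  have hd : ∀ p, bl n a p ≤ (∑ l, a l) / n := by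
    intro p
    unfold bl
    split_ifs with h
    · rw [Nat.le_div_iff_mul_le (by omega), one_mul]
      refine Nat.le_of_dvd ?_ hs
      have h1 : a p ≤ ∑ i, a i := Finset.single_le_sum (fun _ _ => Nat.zero_le _)
        (Finset.mem_univ p)
      omega
    · exact Nat.zero_le _
  obtain ⟨D1, hD1⟩ : ∃ D1 : ℕ, (((∑ l, a l) / n : ℕ) : ℤ) - bl n a i = (D1 : ℤ) :=
    ⟨(∑ l, a l) / n - bl n a i, by rw [Nat.cast_sub (hd i)]⟩
  obtain ⟨D2, hD2⟩ : ∃ D2 : ℕ, (((∑ l, a l) / n : ℕ) : ℤ) - bl n a j = (D2 : ℤ) :=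
    ⟨(∑ l, a l) / n - bl n a j, by rw [Nat.cast_sub (hd j)]⟩
  have hiff := n9_iff hC (a := a) (n := n) hil hjl hall hl hD1 hD2
  have hdet := n9_det hC hall
  have hfi : fl (L i) ≠ 0 := fl_ne_zero ((hC.ind i l hil).ne_zero 0)
  have hfj : fl (L j) ≠ 0 := fl_ne_zero ((hC.ind j l hjl).ne_zero 0)
  obtain ⟨E1, hE1⟩ : Glob (Sect L D1 (fun _ => 0))
      (fun y => cij L (D y) i l * fl (L i) ^ (bl n a i)) := by
    apply cousin_three hC
    intro y
    obtain ⟨T, hT, hT2⟩ := hD y
    refine ⟨T, hT, fun y' hy' => ?_⟩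
    have h := ((hiff y' _).1 (hT2 y' hy')).1
    rw [cij_sub, sub_mul] at h
    exact h
  obtain ⟨E2, hE2⟩ : Glob (Sect L D2 (fun _ => 0))
      (fun y => cij L (D y) j l * fl (L j) ^ (bl n a j)) := by
    apply cousin_three hC
    intro y
    obtain ⟨T, hT, hT2⟩ := hD y
    refine ⟨T, hT, fun y' hy' => ?_⟩
    have h := ((hiff y' _).1 (hT2 y' hy')).2
    rw [cij_sub, sub_mul] at h
    exact h
  obtain ⟨E, hEi, hEj⟩ := exists_der hC hdet (E1 / fl (L i) ^ (bl n a i))
    (E2 / fl (L j) ^ (bl n a j))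
  refine ⟨E, fun y => (hiff y _).2 ⟨?_, ?_⟩⟩
  · rw [cij_sub, sub_mul, hEi, div_mul_cancel₀ _ (pow_ne_zero _ hfi)]
    exact hE1 y
  · rw [cij_sub, sub_mul, hEj, div_mul_cancel₀ _ (pow_ne_zero _ hfj)]
    exact hE2 y

end HKR
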