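import Pool.Agent.Lib.HKR.N2
import Pool.Agent.Lib.HKR.N3
import Pool.Agent.Lib.HKR.N4
import Pool.Agent.Lib.HKR.N5
import Pool.Agent.Lib.HKR.N7
import Pool.Agent.Lib.HKR.N9
import Pool.Agent.Lib.HKR.N10
import Pool.Agent.Lib.HKR.K14
/-!
HKR.N11 (assembly: stage C for k = 3, 4, 5; helper88).
not_arc_two: n ≥ 3, Two L: neg_pencil gives mu, δ with TwoChart; two_lc (fcond_zero, fcond_neg): D := fam2 (Fib mu p) δ is LC, not Glob.  Ed an extension of
 fl(L 0)^dd • δ (exists_ext; kum_fin), E y := fam2 (Fib mu p) Ed y extends fl(L 0)^dd • D y.  lc_K, chN_mem.  not_arc with D' y = zp z a • E y: each value is 0 or the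
 same derivation, so they commute.
not_arc_four: n ≥ 4, general position: class_four_rel, four_F, extensions Eu, Ew; E y := fam3 L Eu Ew y; lc_K (chF n ∈ AA: sum n, entries < n);
 commutation: values 0, V_u, V_w: four_comm.
stageC_small.  k = 3: right side true; N := 4: arc_of_h1, klevel, flevel_three.  k = 4, 5: right side false; given N take n := max N 4 and K, z from exists_kum:
 not ArcRigid by class_four (Two or general position), class_five.  (interval_cases k after moving L; the NeZero instances are propositions.)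
-/
open MvPolynomial
namespace HKR
variable {k : ℕ} {L : Fin k → Fin 3 → ℂ} {n : ℕ} {K : Type} [Field K] [Algebra Fn K]
  [Algebra ℂ K] [IsScalarTower ℂ Fn K] {z : Fin k → K}

omit [Algebra Fn K] [IsScalarTower ℂ Fn K] in
private theorem n11_zero_left (c : K) (E : Derivation ℂ K K) (x : K) :
    (c • (0 : Derivation ℂ K K)) ((c • E) x) = (c • E) ((c • (0 : Derivation ℂ K K)) x) := by
  rw [smul_zero, Derivation.zero_apply, Derivation.zero_apply, map_zero]

theorem not_arc_two [NeZero k] (hC : Config L) (h : Two L) (hn : 3 ≤ n) (hz : Kum L n K z) :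
    ¬ ArcRigid L K := by
  obtain ⟨a, b, c, d, p, q, hab, hac, hbc, hp0, ha, hb, hc, hS, hq0, hcq, hdp, hoff⟩ := h
  obtain ⟨mu, δ, hT⟩ := neg_pencil hC hn hab hac hbc hp0 ha hb hc hS hq0 hcq hdp hoff
  obtain ⟨hLC, hG⟩ := two_lc hT (fun y => fcond_zero _ y) (fun y w h => fcond_neg h)
  have := kum_fin hC (by omega) hz
  obtain ⟨Ed, hEd⟩ := exists_ext (K := K) (fl (L 0) ^ dd n (chN k n a b c) • δ)
  have hE : ∀ y f, fam2 (Fib mu p) Ed y (algebraMap Fn K f) =
      algebraMap Fn K (fl (L 0) ^ (dd n (chN k n a b c)) * fam2 (Fib mu p) δ y f) := by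
    intro y f
    unfold fam2
    by_cases hy : Fib mu p y
    · rw [if_pos hy, if_pos hy, hEd, Derivation.smul_apply, smul_eq_mul]
    · rw [if_neg hy, if_neg hy, Derivation.zero_apply, Derivation.zero_apply, mul_zero, map_zero]
  obtain ⟨hLC', hG'⟩ := lc_K hC (by omega) hz (chN_mem hn hab hac hbc) hLC hG hE
  refine not_arc hLC' (fun y y' x => ?_) hG'
  show (zp z (chN k n a b c) • fam2 (Fib mu p) Ed y) ((zp z (chN k n a b c) •
    fam2 (Fib mu p) Ed y') x) = (zp z (chN k n a b c) • fam2 (Fib mu p) Ed y')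
      ((zp z (chN k n a b c) • fam2 (Fib mu p) Ed y) x)
  unfold fam2
  by_cases hy : Fib mu p y
  · by_cases hy' : Fib mu p y'
    · rw [if_pos hy, if_pos hy']
    · rw [if_pos hy, if_neg hy']
      exact (n11_zero_left _ _ _).symm
  · rw [if_neg hy]
    exact n11_zero_left _ _ _

private theorem n11_chF (hn : 4 ≤ n) : chF n ∈ AA 4 n := by
  unfold AA
  rw [Finset.mem_filter, Fintype.mem_piFinset]
  constructor
  · intro i
    rw [Finset.mem_range]
    fin_cases i
    · show 2 < n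
      omega
    · show n - 2 < n
      omega
    · show 0 < n
      omega
    · show 0 < n
      omega
  · rw [Fin.sum_univ_four]
    show n ∣ 2 + (n - 2) + 0 + 0
    have : 2 + (n - 2) + 0 + 0 = n := by omega
    rw [this]

theorem not_arc_four {L : Fin 4 → Fin 3 → ℂ} {z : Fin 4 → K} (hC : Config L)
    (hg : ∀ i j l, i ≠ j → i ≠ l → j ≠ l → det3 (L i) (L j) (L l) ≠ 0) (hn : 4 ≤ n)
    (hz : Kum L n K z) : ¬ ArcRigid L K := by
  obtain ⟨c, hc, hr⟩ := class_four_rel hg
  obtain ⟨du, dw, hu, hw, hLC, hG⟩ := four_F hC hg hc hr hn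
  have := kum_fin hC (by omega) hz
  obtain ⟨Eu, hEu⟩ := exists_ext (K := K) (fl (L 0) ^ dd n (chF n) • du)
  obtain ⟨Ew, hEw⟩ := exists_ext (K := K) (fl (L 0) ^ dd n (chF n) • dw)
  have hEu' : ∀ f, Eu (algebraMap Fn K f) =
      algebraMap Fn K (fl (L 0) ^ (dd n (chF n)) * du f) := by
    intro f
    rw [hEu, Derivation.smul_apply, smul_eq_mul]
  have hEw' : ∀ f, Ew (algebraMap Fn K f) =
      algebraMap Fn K (fl (L 0) ^ (dd n (chF n)) * dw f) := by
    intro f
    rw [hEw, Derivation.smul_apply, smul_eq_mul]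
  have hE : ∀ y f, fam3 L Eu Ew y (algebraMap Fn K f) =
      algebraMap Fn K (fl (L 0) ^ (dd n (chF n)) * fam3 L du dw y f) := by
    intro y f
    unfold fam3
    by_cases h2 : L 2 ⬝ᵥ y.q ≠ 0
    · rw [if_pos h2, if_pos h2, Derivation.zero_apply, Derivation.zero_apply, mul_zero, map_zero]
    · by_cases h3 : L 3 ⬝ᵥ y.q ≠ 0
      · rw [if_neg h2, if_pos h3, if_neg h2, if_pos h3, hEu']
      · rw [if_neg h2, if_neg h3, if_neg h2, if_neg h3, hEw']
  obtain ⟨hLC', hG'⟩ := lc_K hC (by omega) hz (n11_chF hn) hLC hG hE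
  have hcomm := four_comm hC hg hc hr hn hz hu hw hEu' hEw'
  have hval : ∀ y, fam3 L Eu Ew y = 0 ∨ fam3 L Eu Ew y = Eu ∨ fam3 L Eu Ew y = Ew := by
    intro y
    unfold fam3
    by_cases h2 : L 2 ⬝ᵥ y.q ≠ 0
    · exact Or.inl (if_pos h2)
    · rw [if_neg h2]
      by_cases h3 : L 3 ⬝ᵥ y.q ≠ 0
      · exact Or.inr (Or.inl (if_pos h3))
      · exact Or.inr (Or.inr (if_neg h3))
  refine not_arc hLC' (fun y y' x => ?_) hG'
  show (zp z (chF n) • fam3 L Eu Ew y) ((zp z (chF n) • fam3 L Eu Ew y') x) =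
    (zp z (chF n) • fam3 L Eu Ew y') ((zp z (chF n) • fam3 L Eu Ew y) x)
  rcases hval y with h | h | h <;> rcases hval y' with h' | h' | h' <;> rw [h, h']
  · exact n11_zero_left _ _ _
  · exact n11_zero_left _ _ _
  · exact (n11_zero_left _ _ _).symm
  · exact hcomm x
  · exact (n11_zero_left _ _ _).symm
  · exact (hcomm x).symm

theorem stageC_small (k : ℕ) [NeZero k] (L : Fin k → Fin 3 → ℂ) (hk : 3 ≤ k) (hk' : k ≤ 5)
    (hC : Config L) (hR : NearRigid L) :
    ((∃ N : ℕ, ∀ n ≥ N, ∀ (K : Type) [Field K] [Algebra Fn K] [Algebra ℂ K]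
      [IsScalarTower ℂ Fn K] (z : Fin k → K), Kum L n K z → ArcRigid L K) ↔ k ≠ 4 ∧ k ≠ 5) := by
  have h345 : k = 3 ∨ k = 4 ∨ k = 5 := by omega
  rcases h345 with rfl | rfl | rfl
  · refine ⟨fun _ => ⟨by norm_num, by norm_num⟩, fun _ => ⟨4, ?_⟩⟩
    intro n hn K _ _ _ _ z hz
    exact arc_of_h1 (klevel hC (by omega) hz
      (fun a ha hs D hD => flevel_three hC hn a ha hs D hD))
  · refine ⟨?_, fun h => absurd rfl h.1⟩
    rintro ⟨N, hN⟩
    exfalso
    obtain ⟨K, _, _, _, _, z, hz⟩ := exists_kum hC (n := max N 4) (by omega)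
    have h := hN (max N 4) (le_max_left _ _) K z hz
    rcases class_four hC with h2 | hg
    · exact not_arc_two hC h2 (by omega) hz h
    · exact not_arc_four hC hg (by omega) hz h
  · refine ⟨?_, fun h => absurd rfl h.2⟩
    rintro ⟨N, hN⟩
    exfalso
    obtain ⟨K, _, _, _, _, z, hz⟩ := exists_kum hC (n := max N 4) (by omega)
    have h := hN (max N 4) (le_max_left _ _) K z hz
    exact not_arc_two hC (class_five hC hR) (by omega) hz h

end HKR
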