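import Pool.Agent.Lib.HKR.K13
import Pool.Agent.Lib.HKR.N1
/-!
HKR.N2 (small configurations: from the plane to K; helper88).
fcond_zero, fcond_neg, fcond: cij L 0 = 0, cij L (-D) = -cij L D, Sect.zero / Sect.neg.
two_lc.  LC: y with F y: T from h.near; for y' with T regular: if F y', fam2 y' - fam2 y = v - v = 0: h0; if not,
 0 - v = -v: hneg.  y with not F y: T from h.away; then not F y' : 0 - 0.  Not Glob: h.nontriv E (fam2 is 0 or v, E - 0).
lc_K.  LC: same T; for y': E y' - E y is an extension of fl(L 0)^dd • (D y' - D y) (Derivation.sub_apply), and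
 zp z a • E y' - zp z a • E y = zp z a • (E y' - E y): eig_preserves.
 Not Glob: let X be a derivation of K with Preserves y (X - zp z a • E y) for all y.  der_decomp: X f = Σ_b c b f z^b (f ∈ Fn).
 (X - zp z a • E y) (f) = Σ_b c' b f z^b with c' b = c b for b ≠ a and c' a = c a - fl(L 0)^dd • D y (Function.update or if;
 Finset.sum over AA with a ∈ AA).  comp_preserves for a: with X' an extension (exists_ext) of c a - fl(L 0)^dd • D y:
 Preserves y (zp z a • X').  c a - fl(L 0)^dd • D y = fl(L 0)^dd • (fl(L 0)^(-dd) • c a - D y) (fl (L 0) ≠ 0, see k13_ne in K13),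
 so eig_preserves: FCond L n a y (fl(L 0)^(-dd) • c a - D y) for all y: Glob (FCond L n a) D, contradiction.
 (Same computations as in klevel of K13.)
chN_mem: values 1, 1, n - 2, 0 are < n, the sum is n.
-/
open MvPolynomial
namespace HKR
variable {k : ℕ} {L : Fin k → Fin 3 → ℂ} {n : ℕ} {K : Type} [Field K] [Algebra Fn K]
  [Algebra ℂ K] [IsScalarTower ℂ Fn K] {z : Fin k → K}

open Classical in
/-- the family with value `v` on `F` and `0` elsewhere -/
noncomputable def fam2 {V : Type} [AddCommGroup V] (F : Pt → Prop) (v : V) (y : Pt) : V :=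
  if F y then v else 0

theorem fcond_zero (a : Fin k → ℕ) (y : Pt) : FCond L n a y 0 := by
  intro i j _
  have h : cij L (0 : Derivation ℂ Fn Fn) i j = 0 := by
    unfold cij
    rw [Derivation.zero_apply, zero_div]
  rw [h, zero_mul, zero_mul]
  exact Sect.zero

theorem fcond_neg {a : Fin k → ℕ} {y : Pt} {D : Derivation ℂ Fn Fn} (h : FCond L n a y D) :
    FCond L n a y (-D) := by
  intro i j hij
  have h1 : cij L (-D) i j = -cij L D i j := by
    unfold cij
    rw [Derivation.neg_apply]
    ring
  rw [h1, neg_mul, neg_mul]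
  exact (h i j hij).neg

theorem two_lc {V : Type} [AddCommGroup V] {P : Pt → V → Prop} {F : Pt → Prop} {v : V}
    (h : TwoChart L P F v) (h0 : ∀ y, P y 0) (hneg : ∀ y w, P y w → P y (-w)) :
    LC L P (fam2 F v) ∧ ¬ Glob P (fam2 F v) := by
  constructor
  · intro y
    by_cases hF : F y
    · obtain ⟨T, hT, hT'⟩ := h.near y hF
      refine ⟨T, hT, fun y' hy' => ?_⟩
      unfold fam2
      by_cases hF' : F y'
      · rw [if_pos hF, if_pos hF', sub_self]
        exact h0 y'
      · rw [if_pos hF, if_neg hF', zero_sub]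
        exact hneg _ _ (hT' y' hy' hF')
    · obtain ⟨T, hT, hT'⟩ := h.away y hF
      refine ⟨T, hT, fun y' hy' => ?_⟩
      unfold fam2
      rw [if_neg hF, if_neg (hT' y' hy'), sub_zero]
      exact h0 y'
  · rintro ⟨E, hE⟩
    refine h.nontriv E ⟨fun y hy => ?_, fun y hy => ?_⟩
    · have h1 := hE y
      unfold fam2 at h1
      rwa [if_neg hy, sub_zero] at h1
    · have h1 := hE y
      unfold fam2 at h1
      rwa [if_pos hy] at h1

private theorem n2_ne [NeZero k] (hC : Config L) : fl (L 0) ≠ 0 := by
  apply fl_ne_zero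
  intro h0
  by_cases h : ∃ j : Fin k, j ≠ 0
  · obtain ⟨j, hj⟩ := h
    have h1 := (hC.ind 0 j hj.symm).ne_zero 0
    exact h1 (by simpa using h0)
  · push Not at h
    have h1 := hC.nonconc (Pi.single 0 1) (fun j => by rw [h j, h0, zero_dotProduct])
    have h2 := congrFun h1 0
    simp at h2

theorem lc_K [NeZero k] (hC : Config L) (hn : 2 ≤ n) (hz : Kum L n K z) {a : Fin k → ℕ}
    (ha : a ∈ AA k n) {D : Pt → Derivation ℂ Fn Fn} (h : LC L (FCond L n a) D)
    (hg : ¬ Glob (FCond L n a) D) {E : Pt → Derivation ℂ K K}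
    (hE : ∀ y f, E y (algebraMap Fn K f) = algebraMap Fn K (fl (L 0) ^ (dd n a) * D y f)) :
    LC L (fun y D => Preserves L y D) (fun y => zp z a • E y) ∧
      ¬ Glob (fun y D => Preserves L y D) (fun y => zp z a • E y) := by
  classical
  have hn' : 0 < n := by omega
  have := kum_fin hC hn' hz
  constructor
  · intro y
    obtain ⟨T, hT, hT'⟩ := h y
    refine ⟨T, hT, fun y' hy' => ?_⟩
    show Preserves L y' (zp z a • E y' - zp z a • E y)
    rw [← smul_sub]
    refine (eig_preserves hC hn hz ha (D := D y' - D y) (E := E y' - E y) ?_).2 (hT' y' hy')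
    intro f
    rw [Derivation.sub_apply, hE, hE, Derivation.sub_apply, mul_sub, map_sub]
  · rintro ⟨X, hX⟩
    obtain ⟨c, hc⟩ := der_decomp hC hn' hz X
    have hl0 := n2_ne hC
    have hcancel : ∀ x : Fn, fl (L 0) ^ (dd n a) * (fl (L 0) ^ (-(dd n a)) * x) = x := by
      intro x
      rw [← mul_assoc, ← zpow_add₀ hl0, add_neg_cancel, zpow_zero, one_mul]
    refine hg ⟨fl (L 0) ^ (-(dd n a)) • c a, fun y => ?_⟩
    obtain ⟨X', hX'⟩ := exists_ext (K := K) (c a - fl (L 0) ^ (dd n a) • D y)
    refine (eig_preserves hC hn hz ha (E := X') ?_).1 ?_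
    · intro f
      rw [hX', Derivation.sub_apply, Derivation.sub_apply, Derivation.smul_apply,
        Derivation.smul_apply, smul_eq_mul, smul_eq_mul, mul_sub, hcancel]
    · refine comp_preserves hC hn hz (D := X - zp z a • E y)
        (c := fun b => if b = a then c a - fl (L 0) ^ (dd n a) • D y else c b) ?_ (hX y) ha ?_
      · intro f
        rw [Derivation.sub_apply, Derivation.smul_apply, hc, hE, smul_eq_mul]
        have h1 : ∀ b ∈ AA k n, algebraMap Fn K ((if b = a then c a - fl (L 0) ^ (dd n a) • D y
            else c b) f) * zp z b = algebraMap Fn K (c b f) * zp z b -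
            (if b = a then zp z a * algebraMap Fn K (fl (L 0) ^ (dd n a) * D y f) else 0) := by
          intro b _
          by_cases hb : b = a
          · subst hb
            rw [if_pos rfl, if_pos rfl, Derivation.sub_apply, Derivation.smul_apply, smul_eq_mul,
              map_sub]
            ring
          · rw [if_neg hb, if_neg hb, sub_zero]
        rw [Finset.sum_congr rfl h1, Finset.sum_sub_distrib, Finset.sum_ite_eq', if_pos ha]
      · intro f
        simp only [if_true]
        exact hX' f

theorem chN_mem {n : ℕ} (hn : 3 ≤ n) {a b c : Fin k} (hab : a ≠ b) (hac : a ≠ c) (hbc : b ≠ c) :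
    chN k n a b c ∈ AA k n := by
  have hal : ∀ i : Fin k, chN k n a b c i =
      (if i = a then 1 else 0) + (if i = b then 1 else 0) + (if i = c then n - 2 else 0) := by
    intro i
    unfold chN
    by_cases h1 : i = a
    · subst h1; simp [hab, hac]
    · by_cases h2 : i = b
      · subst h2; simp [hbc, Ne.symm hab]
      · simp [h1, h2]
  refine Finset.mem_filter.2 ⟨Fintype.mem_piFinset.2 fun i => Finset.mem_range.2 ?_, ?_⟩
  · unfold chN
    split_ifs <;> omega
  · rw [Finset.sum_congr rfl fun i _ => hal i, Finset.sum_add_distrib, Finset.sum_add_distrib,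
      Finset.sum_ite_eq', Finset.sum_ite_eq', Finset.sum_ite_eq']
    simp only [Finset.mem_univ, if_true]
    rw [show 1 + 1 + (n - 2) = n by omega]

end HKR
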