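import Pool.Agent.Lib.HKR.ArcDefs
/-!
HKR.N6 (a line that can be moved: NearRigid fails; helper88).
STATEMENT: if L e + t w keeps all concurrences, then for lines a, b, c, d ≠ e the product below is 0 (otherwise the cross ratio of a, b, c, e on d
 changes).
PROOF.  ε from NearRigid.  Choose t ≠ 0 with ‖t w j‖ < ε for all j and det3 (L e) (L j) (L l) + t det3 w (L j) (L l) ≠ 0 for all j, l with
 det3 (L e) (L j) (L l) ≠ 0: each condition holds for all t near 0 (continuity; Filter.eventually_all), and there are t ≠ 0 near 0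
 (nhdsWithin ≠ is NeBot).  L' := Function.update L e (L e + t • w).  Incidences: for i j l: if two of the indices agree both determinants are
 0 (equal rows, Matrix.det_zero_of_row_eq, or expand det3: Matrix.det_fin_three and ring); if none is e nothing changes; if exactly one is e (three positions,
 up to sign the same determinant, expand by Matrix.det_fin_three): det3 (L e + t w) (L j) (L l) = det3 (L e) (L j) (L l) + t det3 w (L j) (L l): if the first is 0 so is the
 second (hz); if not, the choice of t.  NearRigid: g, c' with L' i = c' i • vecMul (L i) g; so det3 (L' i) (L' j) (L' l) = c'_i c'_j c'_l det g det3 (L i) (L j) (L l)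
 (Matrix.of ![..] = diagonal * of ![..] * g, or expand).  Write X = det3 d a b, Y = det3 d a c, Z = det3 d c e, W = det3 d b e, Z' = Z + t det3 d c w,
 W' = W + t det3 d b w, κ = (c'_d)² c'_a c'_b c'_c c'_e (det g)²: X Z' = κ' X Z etc.: primed product X Z' · Y W = κ X Z Y W = X Z · Y W'
 [ (X' Z')(Y W) with X' = X = κ1 X ..., all four cross products have the same factor ], so X Y t (det3 d c w * W - det3 d b w * Z) = 0.
 Identity (Matrix.det_fin_three; ring): det3 d c w * det3 d b e - det3 d b w * det3 d c e = ± det3 d b c * det3 d e w.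
-/
namespace HKR

private theorem N6_d3 (a b c : Fin 3 → ℂ) : det3 a b c =
    a 0 * b 1 * c 2 - a 0 * b 2 * c 1 - a 1 * b 0 * c 2 + a 1 * b 2 * c 0 + a 2 * b 0 * c 1 -
      a 2 * b 1 * c 0 := by
  unfold det3
  rw [Matrix.det_fin_three]
  simp [Matrix.of_apply]

private theorem N6_swap12 (a b c : Fin 3 → ℂ) : det3 b a c = -det3 a b c := by
  rw [N6_d3, N6_d3]
  ring

private theorem N6_rot (a b c : Fin 3 → ℂ) : det3 b c a = det3 a b c := by
  rw [N6_d3, N6_d3]
  ring

private theorem N6_lin (a w b c : Fin 3 → ℂ) (t : ℂ) :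
    det3 (a + t • w) b c = det3 a b c + t * det3 w b c := by
  rw [N6_d3, N6_d3, N6_d3]
  simp only [Pi.add_apply, Pi.smul_apply, smul_eq_mul]
  ring

private theorem N6_lin3 (a w b c : Fin 3 → ℂ) (t : ℂ) :
    det3 b c (a + t • w) = det3 b c a + t * det3 b c w := by
  rw [N6_d3, N6_d3, N6_d3]
  simp only [Pi.add_apply, Pi.smul_apply, smul_eq_mul]
  ring

private theorem N6_same12 (a c : Fin 3 → ℂ) : det3 a a c = 0 := by
  rw [N6_d3]
  ring

private theorem N6_same13 (a c : Fin 3 → ℂ) : det3 a c a = 0 := by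
  rw [N6_d3]
  ring

private theorem N6_same23 (a c : Fin 3 → ℂ) : det3 c a a = 0 := by
  rw [N6_d3]
  ring

private theorem N6_mul (a b c : Fin 3 → ℂ) (α β γ : ℂ) (g : Matrix (Fin 3) (Fin 3) ℂ) :
    det3 (α • Matrix.vecMul a g) (β • Matrix.vecMul b g) (γ • Matrix.vecMul c g) =
      α * β * γ * g.det * det3 a b c := by
  have h1 : (Matrix.of ![α • Matrix.vecMul a g, β • Matrix.vecMul b g, γ • Matrix.vecMul c g] :
      Matrix (Fin 3) (Fin 3) ℂ) = Matrix.diagonal ![α, β, γ] * (Matrix.of ![a, b, c] * g) := by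
    ext i j
    rw [Matrix.diagonal_mul, Matrix.mul_apply]
    fin_cases i
    · simp [Matrix.vecMul, dotProduct]
    · simp [Matrix.vecMul, dotProduct]
    · simp [Matrix.vecMul, dotProduct]
  unfold det3
  rw [h1, Matrix.det_mul, Matrix.det_mul, Matrix.det_diagonal, Fin.prod_univ_three]
  simp only [Matrix.cons_val_zero, Matrix.cons_val_one, Matrix.cons_val]
  ring

private theorem N6_t {k : ℕ} (L : Fin k → Fin 3 → ℂ) (e : Fin k) (w : Fin 3 → ℂ) {ε : ℝ}
    (hε : 0 < ε) : ∃ t : ℂ, t ≠ 0 ∧ (∀ j, ‖t * w j‖ < ε) ∧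
      ∀ j l, det3 (L e) (L j) (L l) ≠ 0 →
        det3 (L e) (L j) (L l) + t * det3 w (L j) (L l) ≠ 0 := by
  have h1 : ∀ᶠ t : ℂ in nhds 0, ∀ j, ‖t * w j‖ < ε := by
    rw [Filter.eventually_all]
    intro j
    have hc : Continuous fun t : ℂ => ‖t * w j‖ := by fun_prop
    have h := hc.tendsto 0
    rw [zero_mul, norm_zero] at h
    exact h.eventually (gt_mem_nhds hε)
  have h2 : ∀ᶠ t : ℂ in nhds 0, ∀ j l, det3 (L e) (L j) (L l) ≠ 0 →
        det3 (L e) (L j) (L l) + t * det3 w (L j) (L l) ≠ 0 := by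
    rw [Filter.eventually_all]
    intro j
    rw [Filter.eventually_all]
    intro l
    by_cases h : det3 (L e) (L j) (L l) = 0
    · exact Filter.Eventually.of_forall fun t h' => absurd h h'
    · have hc : Continuous fun t : ℂ => det3 (L e) (L j) (L l) + t * det3 w (L j) (L l) := by
        fun_prop
      have h3 := hc.tendsto 0
      rw [zero_mul, add_zero] at h3
      have h4 := h3.eventually_ne h
      exact h4.mono fun t ht _ => ht
  have h3 : ∀ᶠ t : ℂ in nhdsWithin 0 {0}ᶜ, t ≠ 0 := by
    exact Filter.eventually_mem_set.2 self_mem_nhdsWithin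
  obtain ⟨t, ht⟩ := ((h1.and h2).filter_mono nhdsWithin_le_nhds |>.and h3).exists
  exact ⟨t, ht.2, ht.1.1, ht.1.2⟩

theorem near_cross {k : ℕ} {L : Fin k → Fin 3 → ℂ} (hR : NearRigid L) {e : Fin k}
    {w : Fin 3 → ℂ} (hz : ∀ j l, j ≠ e → l ≠ e → det3 (L e) (L j) (L l) = 0 →
      det3 w (L j) (L l) = 0) {a b c d : Fin k} (ha : a ≠ e) (hb : b ≠ e) (hc : c ≠ e)
    (hd : d ≠ e) :
    det3 (L d) (L a) (L b) * det3 (L d) (L a) (L c) * det3 (L d) (L b) (L c) *
      det3 (L d) (L e) w = 0 := by
  obtain ⟨ε, hε, hR⟩ := hR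
  obtain ⟨t, ht0, htw, htd⟩ := N6_t L e w hε
  set L' : Fin k → Fin 3 → ℂ := Function.update L e (L e + t • w) with hL'
  have hLe : L' e = L e + t • w := Function.update_self _ _ _
  have hLn : ∀ i, i ≠ e → L' i = L i := fun i hi => Function.update_of_ne hi _ _
  have hnear : ∀ i j, ‖L' i j - L i j‖ < ε := by
    intro i j
    by_cases hi : i = e
    · rw [hi, hLe, Pi.add_apply, Pi.smul_apply, smul_eq_mul, add_sub_cancel_left]
      exact htw j
    · rw [hLn i hi, sub_self, norm_zero]
      exact hε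
  -- the determinant with one moved line
  have hone : ∀ j l, j ≠ e → l ≠ e →
      (det3 (L e + t • w) (L j) (L l) = 0 ↔ det3 (L e) (L j) (L l) = 0) := by
    intro j l hj hl
    rw [N6_lin]
    constructor
    · intro h
      by_contra h'
      exact htd j l h' h
    · intro h
      rw [h, hz j l hj hl h, mul_zero, add_zero]
  have hinc : ∀ i j l, det3 (L' i) (L' j) (L' l) = 0 ↔ det3 (L i) (L j) (L l) = 0 := by
    intro i j l
    by_cases hij : i = j
    · rw [hij, N6_same12, N6_same12]
    by_cases hil : i = l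
    · rw [hil, N6_same13, N6_same13]
    by_cases hjl : j = l
    · rw [hjl, N6_same23, N6_same23]
    by_cases hi : i = e
    · have hj : j ≠ e := fun h => hij (hi.trans h.symm)
      have hl : l ≠ e := fun h => hil (hi.trans h.symm)
      rw [hi, hLe, hLn j hj, hLn l hl]
      exact hone j l hj hl
    by_cases hj : j = e
    · have hl : l ≠ e := fun h => hjl (hj.trans h.symm)
      rw [hj, hLe, hLn i hi, hLn l hl, ← N6_rot (L i) (L e + t • w) (L l),
        ← N6_rot (L i) (L e) (L l)]
      exact hone l i hl hi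
    by_cases hl : l = e
    · rw [hl, hLe, hLn i hi, hLn j hj, N6_rot (L e + t • w) (L i) (L j), N6_rot (L e) (L i) (L j)]
      exact hone i j hi hj
    · rw [hLn i hi, hLn j hj, hLn l hl]
  obtain ⟨g, c', hg, hc', hall⟩ := hR L' hnear hinc
  have hdet : ∀ i j l, det3 (L' i) (L' j) (L' l) =
      c' i * c' j * c' l * g.det * det3 (L i) (L j) (L l) := by
    intro i j l
    rw [hall i, hall j, hall l, N6_mul]
  have hX := hdet d a b
  have hY := hdet d a c
  have hZ := hdet d c e
  have hW := hdet d b e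
  rw [hLn d hd, hLn a ha, hLn b hb] at hX
  rw [hLn d hd, hLn a ha, hLn c hc] at hY
  rw [hLn d hd, hLn c hc, hLe, N6_lin3] at hZ
  rw [hLn d hd, hLn b hb, hLe, N6_lin3] at hW
  have hplu : det3 (L d) (L c) w * det3 (L d) (L b) (L e) -
      det3 (L d) (L b) w * det3 (L d) (L c) (L e) =
      det3 (L d) (L b) (L c) * det3 (L d) (L e) w := by
    rw [N6_d3, N6_d3, N6_d3, N6_d3, N6_d3, N6_d3]
    ring
  have key : t * (det3 (L d) (L a) (L b) * det3 (L d) (L a) (L c) *
      (det3 (L d) (L b) (L c) * det3 (L d) (L e) w)) = 0 := by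
    rw [← hplu]
    generalize det3 (L d) (L a) (L b) = X at *
    generalize det3 (L d) (L a) (L c) = Y at *
    generalize det3 (L d) (L c) (L e) = Z at *
    generalize det3 (L d) (L b) (L e) = W at *
    generalize det3 (L d) (L c) w = p at *
    generalize det3 (L d) (L b) w = q at *
    generalize g.det = D at *
    have h1 : X * (Z + t * p) = c' d * c' a * c' b * D * X * (c' d * c' c * c' e * D * Z) := by
      rw [← hX, hZ]
    have h2 : Y * (W + t * q) = c' d * c' a * c' c * D * Y * (c' d * c' b * c' e * D * W) := by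
      rw [← hY, hW]
    linear_combination (Y * W) * h1 - (X * Z) * h2
  rcases mul_eq_zero.1 key with h | h
  · exact absurd h ht0
  · rw [← mul_assoc] at h
    exact h

end HKR
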