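import Pool.Agent.Lib.HKR.D10
import Pool.Agent.Lib.HKR.D3
/-!
HKR.N8 (Cousin theorem for three lines, i.e. for the plane; helper88).  L : Fin 3 → _, Config: the lines are independent, so no y.q (≠ 0) is multiple and
 m is irrelevant (muq = 0).
PROOF.  Auxiliary configuration L' := ![L 0, L 1, L 0 + L 1, L 2] : Fin 4 → _.  Config L' (pairwise independent; nonconc from hC).  For q ≠ 0:
 Multiple L' q ↔ L 0 ⬝ q = 0 ∧ L 1 ⬝ q = 0 (three of the four indices; a triple containing 3 and two of 0,1,2 gives L 0 q = L 1 q = L 2 q = 0).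
 Such q ≠ 0 exists (crossProduct (L 0) (L 1)).
 (1) Regular L y f → Regular L' y f (in Regular L only r = 0 is possible since Multiple L y.q is false); Regular L' y f → Regular L y f when y.q is not multiple for L'.
 (2) Sect L D m y f ↔ Regular L y (f * fl lam ^ D) with lam(y.q) ≠ 0 (sect_iff, exists_forms, muq = 0); Sect L' D 0 y f ↔ Regular L' y (f * fl lam ^ D) (m = 0).
   So e is LC for Sect L' D 0 (same T).
 (3) `cousin` for L' (exists_ctx hC' gives Ctx L' lx ly lz Q): m = 0, hS with h = 0 ((0 - 1).toNat = 0, pI ^ 0 = ⊤): e0 with Sect L' D 0 y (e0 - e y) for all y.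
 (4) y not multiple for L': Sect L D m y (e0 - e y) by (1), (2).
 (5) y multiple for L': L 0 ⬝ y.q = L 1 ⬝ y.q = 0, L 2 ⬝ y.q ≠ 0.  s = fl (L 0)/fl (L 2), t = fl (L 1)/fl (L 2) (coordP), regP for L: Regular L y' g ↔ RLoc s t (a, b) g, all y' with
   L 2 ⬝ y'.q ≠ 0.  T from LC of e at y; rloc_open: H with H(0,0) ≠ 0, T regular at all points of D(H).  hartogs with a0 = b0 = 0 and
   f = (e0 - e y) * fl (L 2) ^ D: at (a,b) ≠ (0,0), H(a,b) ≠ 0, take a point y' with L 0 ⬝ y'.q = a, L 1 ⬝ y'.q = b, L 2 ⬝ y'.q = 1 (L independent; see D2, D4 for the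
   construction of points): e0 - e y' is Sect L at y' by (4), e y' - e y is Sect L at y' (T regular), sum: e0 - e y.  So RLoc at (0,0), Regular, Sect.
-/
open MvPolynomial
namespace HKR

private theorem n8_q_ne (y : Pt) : y.q ≠ 0 := by
  have := y.ind.ne_zero 0
  simpa using this

private theorem n8_ind {L : Fin 3 → Fin 3 → ℂ} (hC : Config L) :
    LinearIndependent ℂ ![L 0, L 1, L 2] := by
  have h1 : (Matrix.of ![L 0, L 1, L 2]).det ≠ 0 := by
    intro h
    obtain ⟨v, hv, hv'⟩ := Matrix.exists_mulVec_eq_zero_iff.2 h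
    apply hv
    apply hC.nonconc
    intro i
    fin_cases i
    · exact congrFun hv' 0
    · exact congrFun hv' 1
    · exact congrFun hv' 2
  have h2 : IsUnit (Matrix.of ![L 0, L 1, L 2]) := by
    rw [Matrix.isUnit_iff_isUnit_det]
    exact isUnit_iff_ne_zero.2 h1
  exact Matrix.linearIndependent_rows_iff_isUnit.2 h2

private theorem n8_zero {L : Fin 3 → Fin 3 → ℂ} (hC : Config L) {x y z : ℂ}
    (h : x • L 0 + y • L 1 + z • L 2 = 0) : x = 0 ∧ y = 0 ∧ z = 0 := by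
  have h0 := Fintype.linearIndependent_iff.1 (n8_ind hC)
  have h1 := h0 ![x, y, z] (by simpa [Fin.sum_univ_three] using h)
  exact ⟨h1 0, h1 1, h1 2⟩

private def n8L (L : Fin 3 → Fin 3 → ℂ) : Fin 4 → Fin 3 → ℂ := ![L 0, L 1, L 0 + L 1, L 2]

private theorem n8_comb (L : Fin 3 → Fin 3 → ℂ) (i : Fin 4) : n8L L i =
    (![1, 0, 1, 0] : Fin 4 → ℂ) i • L 0 + (![0, 1, 1, 0] : Fin 4 → ℂ) i • L 1 +
      (![0, 0, 0, 1] : Fin 4 → ℂ) i • L 2 := by
  fin_cases i <;> simp [n8L]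

private theorem n8_cfg {L : Fin 3 → Fin 3 → ℂ} (hC : Config L) : Config (n8L L) := by
  constructor
  · intro i j hij
    rw [LinearIndependent.pair_iff]
    intro s t hst
    rw [n8_comb, n8_comb] at hst
    have h := n8_zero hC (x := s * (![1, 0, 1, 0] : Fin 4 → ℂ) i + t * (![1, 0, 1, 0] : Fin 4 → ℂ) j)
      (y := s * (![0, 1, 1, 0] : Fin 4 → ℂ) i + t * (![0, 1, 1, 0] : Fin 4 → ℂ) j)
      (z := s * (![0, 0, 0, 1] : Fin 4 → ℂ) i + t * (![0, 0, 0, 1] : Fin 4 → ℂ) j) (by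
        rw [← hst]; module)
    obtain ⟨h1, h2, h3⟩ := h
    fin_cases i <;> fin_cases j <;> simp at hij h1 h2 h3 ⊢ <;>
      first
        | exact ⟨h1, h2⟩
        | exact ⟨h2, h1⟩
        | exact ⟨h1, h3⟩
        | exact ⟨h3, h1⟩
        | exact ⟨h2, h3⟩
        | exact ⟨h3, h2⟩
        | (rw [h2, add_zero] at h1; exact ⟨h1, h2⟩)
        | (rw [h2, zero_add] at h1; exact ⟨h2, h1⟩)
        | (rw [h1, add_zero] at h2; exact ⟨h2, h1⟩)
        | (rw [h1, zero_add] at h2; exact ⟨h1, h2⟩)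
  · intro q hq
    apply hC.nonconc
    intro i
    fin_cases i
    · exact hq 0
    · exact hq 1
    · exact hq 3

private theorem n8_mul {L : Fin 3 → Fin 3 → ℂ} {q : Fin 3 → ℂ} :
    Multiple (n8L L) q ↔ L 0 ⬝ᵥ q = 0 ∧ L 1 ⬝ᵥ q = 0 := by
  constructor
  · rintro ⟨a, b, c, hab, hac, hbc, ha, hb, hc⟩
    have key : ∀ i j : Fin 4, i ≠ j → i ≠ 3 → j ≠ 3 → n8L L i ⬝ᵥ q = 0 → n8L L j ⬝ᵥ q = 0 →
        L 0 ⬝ᵥ q = 0 ∧ L 1 ⬝ᵥ q = 0 := by
      intro i j hij hi hj h1 h2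
      fin_cases i <;> fin_cases j <;> simp [n8L, add_dotProduct] at hij hi hj h1 h2 ⊢ <;>
        first
          | exact ⟨h1, h2⟩
          | exact ⟨h2, h1⟩
          | (rw [h1, zero_add] at h2; exact ⟨h1, h2⟩)
          | (rw [h1, add_zero] at h2; exact ⟨h2, h1⟩)
          | (rw [h2, zero_add] at h1; exact ⟨h2, h1⟩)
          | (rw [h2, add_zero] at h1; exact ⟨h1, h2⟩)
    by_cases h1 : a = 3
    · subst h1
      exact key b c hbc (Ne.symm hab) (Ne.symm hac) hb hc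
    · by_cases h2 : b = 3
      · subst h2
        exact key a c hac h1 (Ne.symm hbc) ha hc
      · exact key a b hab h1 h2 ha hb
  · rintro ⟨h0, h1⟩
    refine ⟨0, 1, 2, by decide, by decide, by decide, h0, h1, ?_⟩
    show (L 0 + L 1) ⬝ᵥ q = 0
    rw [add_dotProduct, h0, h1, add_zero]

private theorem n8_nm {L : Fin 3 → Fin 3 → ℂ} (hC : Config L) (y : Pt) : ¬ Multiple L y.q := by
  rintro ⟨a, b, c, hab, hac, hbc, ha, hb, hc⟩
  apply n8_q_ne y
  apply hC.nonconc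
  intro i
  have h : ∀ a b c i : Fin 3, a ≠ b → a ≠ c → b ≠ c → i = a ∨ i = b ∨ i = c := by decide
  rcases h a b c i hab hac hbc with h | h | h
  · rw [h]; exact ha
  · rw [h]; exact hb
  · rw [h]; exact hc

private theorem n8_reg {k k' : ℕ} {L : Fin k → Fin 3 → ℂ} {L' : Fin k' → Fin 3 → ℂ} {y : Pt}
    (h : ¬ Multiple L y.q) {f : Fn} (hf : Regular L y f) : Regular L' y f := by
  obtain ⟨e, r, A, B, hA, hB, hr, h1, h2, h3, h4⟩ := hf
  obtain rfl : r = 0 := hr.resolve_right h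
  exact ⟨e, 0, A, B, hA, hB, Or.inl rfl, h1, h2, h3, h4⟩

private theorem n8_sect {k : ℕ} {L : Fin k → Fin 3 → ℂ} {D : ℤ} {m : Finset (Fin k) → ℤ} {y : Pt}
    {f : Fn} {lam : Fin 3 → ℂ} (hz : lam ⬝ᵥ y.q ≠ 0) (h0 : muq L m y = 0) :
    Sect L D m y f ↔ Regular L y (f * fl lam ^ D) := by
  obtain ⟨_, sig, _, _, _, h3, h4, _, _, _⟩ := exists_forms y
  rw [sect_iff hz h3 (by rw [h4]; exact one_ne_zero)]
  rw [h0, sub_zero, zpow_zero, mul_one]

private theorem n8_mu {L : Fin 3 → Fin 3 → ℂ} (hC : Config L) (m : Finset (Fin 3) → ℤ) (y : Pt) :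
    muq L m y = 0 := by
  unfold muq
  rw [if_neg (n8_nm hC y)]

private theorem n8_mu' {k : ℕ} {L : Fin k → Fin 3 → ℂ} (y : Pt) :
    muq L (fun _ => 0) y = 0 := by
  unfold muq
  split_ifs <;> rfl

private theorem n8_pt {L : Fin 3 → Fin 3 → ℂ} (hC : Config L) (a b : ℂ) :
    ∃ y : Pt, L 0 ⬝ᵥ y.q = a ∧ L 1 ⬝ᵥ y.q = b ∧ L 2 ⬝ᵥ y.q = 1 := by
  have h2 : IsUnit (Matrix.of ![L 0, L 1, L 2]) :=
    Matrix.linearIndependent_rows_iff_isUnit.1 (n8_ind hC)
  have h3 : (Matrix.of ![L 0, L 1, L 2]).mulVec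
      ((Matrix.of ![L 0, L 1, L 2])⁻¹.mulVec ![a, b, 1]) = ![a, b, 1] := by
    rw [Matrix.mulVec_mulVec, Matrix.mul_nonsing_inv _ ((Matrix.isUnit_iff_isUnit_det _).1 h2),
      Matrix.one_mulVec]
  set q := (Matrix.of ![L 0, L 1, L 2])⁻¹.mulVec ![a, b, 1] with hqd
  have e0 : L 0 ⬝ᵥ q = a := congrFun h3 0
  have e1 : L 1 ⬝ᵥ q = b := congrFun h3 1
  have e2 : L 2 ⬝ᵥ q = 1 := congrFun h3 2
  have hq : q ≠ 0 := by
    intro h
    rw [h, dotProduct_zero] at e2
    exact zero_ne_one e2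
  have hr : 1 < Module.finrank ℂ (Fin 3 → ℂ) := by simp
  obtain ⟨w, hw⟩ := exists_linearIndependent_pair_of_one_lt_finrank hr hq
  exact ⟨⟨q, w, hw⟩, e0, e1, e2⟩

theorem cousin_three {L : Fin 3 → Fin 3 → ℂ} (hC : Config L) (D : ℕ) (m : Finset (Fin 3) → ℤ)
    (e : Pt → Fn) (he : LC L (Sect L D m) e) : Glob (Sect L D m) e := by
  have hC' := n8_cfg hC
  have hind := n8_ind hC
  obtain ⟨lx, ly, lz, Q, hX, -⟩ := exists_ctx hC' ⟨crossProduct (L 0) (L 1),
    crossProduct_ne_zero_iff_linearIndependent.mpr (hC.ind 0 1 (by decide)),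
    n8_mul.2 ⟨dot_self_cross _ _, dot_cross_self _ _⟩⟩
  -- (1), (2)
  have hSS : ∀ (y : Pt) (f : Fn), Sect L D m y f → Sect (n8L L) D (fun _ => 0) y f := by
    intro y f hf
    obtain ⟨lam, _, _, h1, _, _, _, _, _, _⟩ := exists_forms y
    have hl : lam ⬝ᵥ y.q ≠ 0 := by rw [h1]; exact one_ne_zero
    rw [n8_sect hl (n8_mu hC m y)] at hf
    rw [n8_sect hl (n8_mu' y)]
    exact n8_reg (n8_nm hC y) hf
  have hSS' : ∀ (y : Pt) (f : Fn), ¬ Multiple (n8L L) y.q →
      Sect (n8L L) D (fun _ => 0) y f → Sect L D m y f := by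
    intro y f hm hf
    obtain ⟨lam, _, _, h1, _, _, _, _, _, _⟩ := exists_forms y
    have hl : lam ⬝ᵥ y.q ≠ 0 := by rw [h1]; exact one_ne_zero
    rw [n8_sect hl (n8_mu' y)] at hf
    rw [n8_sect hl (n8_mu hC m y)]
    exact n8_reg hm hf
  have hreg : ∀ (y : Pt) (f : Fn), ¬ Multiple (n8L L) y.q → Regular (n8L L) y f → Regular L y f :=
    fun y f hm hf => n8_reg hm hf
  have h2ne : ∀ y : Pt, Multiple (n8L L) y.q → L 2 ⬝ᵥ y.q ≠ 0 := by
    intro y hm h2
    obtain ⟨h0, h1⟩ := n8_mul.1 hm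
    apply n8_q_ne y
    apply hC.nonconc
    intro i
    fin_cases i
    · exact h0
    · exact h1
    · exact h2
  have hzero : ∀ y : Pt, Multiple (n8L L) y.q → ∀ f, Regular L y f ↔
      RLoc (fl (L 0) / fl (L 2)) (fl (L 1) / fl (L 2)) 0 0 f := by
    intro y hm f
    obtain ⟨h0, h1⟩ := n8_mul.1 hm
    rw [regP hind (h2ne y hm) (n8_nm hC y), h0, h1, zero_div]
  -- `e` is locally constant for the auxiliary configuration
  have he' : LC (n8L L) (Sect (n8L L) D (fun _ => 0)) e := by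
    classical
    intro y
    obtain ⟨T, hT, hT'⟩ := he y
    by_cases hm : Multiple (n8L L) y.q
    · refine ⟨T, fun f hf => n8_reg (n8_nm hC y) (hT f hf), fun y' hy' => hSS _ _ (hT' y' ?_)⟩
      intro f hf
      by_cases hm' : Multiple (n8L L) y'.q
      · rw [hzero y' hm', ← hzero y hm]
        exact hT f hf
      · exact hreg y' f hm' (hy' f hf)
    · obtain ⟨i, hi, hi'⟩ : ∃ i : Fin 3, L i ⬝ᵥ y.q ≠ 0 ∧ ∀ y' : Pt, Multiple (n8L L) y'.q →
          L i ⬝ᵥ y'.q = 0 := by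
        by_cases h0 : L 0 ⬝ᵥ y.q = 0
        · refine ⟨1, fun h1 => hm (n8_mul.2 ⟨h0, h1⟩), fun y' hy' => (n8_mul.1 hy').2⟩
        · exact ⟨0, h0, fun y' hy' => (n8_mul.1 hy').1⟩
      refine ⟨insert (fl (L 2) / fl (L i)) T, ?_, ?_⟩
      · intro f hf
        rcases Finset.mem_insert.1 hf with rfl | hf
        · exact regular_iff_val.2 ⟨_, Val.ratio hi⟩
        · exact n8_reg (n8_nm hC y) (hT f hf)
      · intro y' hy'
        have hm' : ¬ Multiple (n8L L) y'.q := by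
          intro hm'
          obtain ⟨c, hc⟩ := regular_iff_val.1 (hy' _ (Finset.mem_insert_self _ _))
          have h1 := (Val.ratio (L := n8L L) (l := L i) (h2ne y' hm')).mul hc
          have hne : ∀ j : Fin 3, fl (L j) ≠ 0 := fun j => fl_ne_zero (by
            have h1 : ∃ j' : Fin 3, j ≠ j' := ⟨j + 1, by fin_cases j <;> decide⟩
            obtain ⟨j', hj'⟩ := h1
            exact (hC.ind j j' hj').ne_zero 0)
          rw [hi' y' hm', zero_div, zero_mul, div_mul_div_cancel₀ (hne 2), div_self (hne i)] at h1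
          have h2 := Val.const (L := n8L L) (y := y') 1
          rw [map_one] at h2
          exact one_ne_zero (h2.unique h1)
        refine hSS _ _ (hT' y' fun f hf => hreg y' f hm' (hy' f (Finset.mem_insert_of_mem hf)))
  obtain ⟨e0, he0⟩ := cousin hX (D := D) (m := fun _ => 0) (fun _ => le_refl 0) (fun f => by
    refine ⟨0, Or.inl rfl, fun q _ => ?_⟩
    have : ((0 : ℤ) - 1).toNat = 0 := by decide
    rw [this, pow_zero, Ideal.one_eq_top]
    exact Submodule.mem_top) e he'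
  refine ⟨e0, fun y => ?_⟩
  by_cases hm : Multiple (n8L L) y.q
  · obtain ⟨T, hT, hT'⟩ := he y
    rw [n8_sect (h2ne y hm) (n8_mu hC m y), hzero y hm]
    obtain ⟨H, hH, hH'⟩ := rloc_open (s := fl (L 0) / fl (L 2)) (t := fl (L 1) / fl (L 2))
      (a := 0) (b := 0) T (fun f hf => (hzero y hm f).1 (hT f hf))
    refine hartogs (coordP hind) H hH _ ?_
    intro a b hab hne
    obtain ⟨y', y1, y2, y3⟩ := n8_pt hC a b
    have z1 : L 2 ⬝ᵥ y'.q ≠ 0 := by rw [y3]; exact one_ne_zero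
    have hrl : ∀ f, Regular L y' f ↔
        RLoc (fl (L 0) / fl (L 2)) (fl (L 1) / fl (L 2)) a b f := by
      intro f
      rw [regP hind z1 (n8_nm hC y'), y1, y2, y3, div_one, div_one]
    have hm' : ¬ Multiple (n8L L) y'.q := by
      intro hm'
      obtain ⟨h0, h1⟩ := n8_mul.1 hm'
      rw [y1] at h0
      rw [y2] at h1
      rcases hne with h | h
      · exact h h0
      · exact h h1
    have h1 := hSS' y' _ hm' (he0 y')
    have h2 := hT' y' fun f hf => (hrl f).2 (hH' a b hab f hf)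
    have h3 := h1.add h2
    rw [sub_add_sub_cancel, n8_sect z1 (n8_mu hC m y'), hrl] at h3
    exact h3
  · exact hSS' y _ hm (he0 y)

end HKR
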