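import Pool.Agent.Lib.HKR.Defs
/-!
HKR, small configurations: definitions for four lines in general position, helper88.
-/
open MvPolynomial
namespace HKR

/-- the logarithmic coefficients of the first vector field: `∂₃/c₃ - ∂₂/c₂` -/
noncomputable def eu (L : Fin 4 → Fin 3 → ℂ) (c : Fin 4 → ℂ) : Fin 4 → Fn :=
  ![0, 0, -(fl (c 2 • L 2))⁻¹, (fl (c 3 • L 3))⁻¹]

/-- the linear form `(n - 2) c₀ ℓ₀ - 2 c₁ ℓ₁` -/
noncomputable def gw (L : Fin 4 → Fin 3 → ℂ) (c : Fin 4 → ℂ) (n : ℕ) : Fin 3 → ℂ :=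
  (((n - 2 : ℕ) : ℂ) * c 0) • L 0 - (2 * c 1) • L 1

/-- the logarithmic coefficients of the second vector field -/
noncomputable def ew (L : Fin 4 → Fin 3 → ℂ) (c : Fin 4 → ℂ) (n : ℕ) : Fin 4 → Fn :=
  ![algebraMap ℂ Fn ((n - 2 : ℕ) : ℂ) * (fl (gw L c n))⁻¹, -(algebraMap ℂ Fn 2 * (fl (gw L c n))⁻¹),
    -(fl (c 2 • L 2))⁻¹, 0]

/-- the character `(2, n - 2, 0, 0)` -/
def chF (n : ℕ) : Fin 4 → ℕ := ![2, n - 2, 0, 0]

open Classical in
/-- the family with value `0` off the line 2, `u` on the line 2 off the line 3, `w` at the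
intersection of the lines 2 and 3 -/
noncomputable def fam3 {V : Type} [AddCommGroup V] (L : Fin 4 → Fin 3 → ℂ) (u w : V) (y : Pt) : V :=
  if L 2 ⬝ᵥ y.q ≠ 0 then 0 else if L 3 ⬝ᵥ y.q ≠ 0 then u else w

end HKR
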