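import Pool.Agent.Lib.HKR.P1
/-!
HKR.P2 (exponentials).  expA_spec: x ↦ expS m D x is a ring hom for m ≥ 1 (Leibniz formula for D^r, as for
exponentials; coefficient comparison) with constant coefficient x; exists_ofHom.
exists_der: φ ≡ ψ mod t^m, m ≥ 1: D x := coeff m (φ(C x)) - coeff m (ψ(C x)) is a ℂ-derivation of K (compare
coefficient m of φ(C(xy)) and ψ(C(xy)); coefficients below m agree and constant coefficients are x, y); and
coeff m ((ψ * expA m D)(C x)) = coeff m (ψ(C x)) + D x.
commutation modulo t^(m+1) since everything is the identity modulo t.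
-/
namespace HKR
variable {K : Type} [Field K] [Algebra ℂ K]
open PowerSeries

private theorem p2_coeff0 (φ : ArcAut K) (x : K) : coeff 0 (φ.toEquiv (C x)) = x := by
  rw [PowerSeries.coeff_zero_eq_constantCoeff_apply, φ.map_zero, PowerSeries.constantCoeff_C]

private theorem p2_char : (CharZero K) := charZero_of_injective_algebraMap (algebraMap ℂ K).injective

private theorem p2_coeffS (m : ℕ) (D : Derivation ℂ K K) (x : K) (j : ℕ) :
    coeff j (expS m D x) = if m ∣ j then
      algebraMap ℂ K (1 / ((j / m).factorial : ℂ)) * (D^[j / m]) x else 0 := by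
  rw [expS, PowerSeries.coeff_mk]

private theorem p2_iter_add (D : Derivation ℂ K K) (n : ℕ) (x y : K) :
    (D^[n]) (x + y) = (D^[n]) x + (D^[n]) y := by
  induction n generalizing x y with
  | zero => rfl
  | succ n ih =>
    rw [Function.iterate_succ_apply, Function.iterate_succ_apply, Function.iterate_succ_apply,
      map_add, ih]

private theorem p2_iter_zero (D : Derivation ℂ K K) (n : ℕ) : (D^[n]) 0 = 0 := by
  induction n with
  | zero => rfl
  | succ n ih => rw [Function.iterate_succ_apply, map_zero, ih]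

private theorem p2_add (m : ℕ) (D : Derivation ℂ K K) (x y : K) :
    expS m D (x + y) = expS m D x + expS m D y := by
  ext j
  rw [map_add, p2_coeffS, p2_coeffS, p2_coeffS]
  split_ifs with h
  · rw [p2_iter_add, mul_add]
  · rw [add_zero]

private theorem p2_killed (m : ℕ) (hm : 1 ≤ m) (D : Derivation ℂ K K) (x : K) (hx : D x = 0) :
    expS m D x = C x := by
  ext j
  rw [p2_coeffS, PowerSeries.coeff_C]
  by_cases hj : j = 0
  · subst hj
    simp
  · rw [if_neg hj]
    split_ifs with h
    · obtain ⟨q, rfl⟩ := h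
      have hq : q ≠ 0 := by rintro rfl; exact hj (by simp)
      obtain ⟨q', rfl⟩ := Nat.exists_eq_succ_of_ne_zero hq
      rw [Nat.mul_div_cancel_left _ (by omega), Function.iterate_succ_apply, hx, p2_iter_zero,
        mul_zero]
    · rfl

/-- the recursion for the coefficients -/
private theorem p2_rec (m : ℕ) (hm : 1 ≤ m) (D : Derivation ℂ K K) (x : K) (n : ℕ) :
    (n : K) * coeff n (expS m D x) = coeff n ((m : PowerSeries K) * (X ^ m * expS m D (D x))) := by
  have hch : CharZero K := p2_char
  have h0 : (m : PowerSeries K) = C (m : K) := by simp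
  rw [h0, PowerSeries.coeff_C_mul, PowerSeries.coeff_X_pow_mul', p2_coeffS]
  by_cases hd : m ∣ n
  · obtain ⟨q, rfl⟩ := hd
    rw [if_pos (Dvd.intro _ rfl)]
    rcases Nat.eq_zero_or_pos q with rfl | hq
    · rw [if_neg (by omega)]
      simp
    · obtain ⟨q', rfl⟩ := Nat.exists_eq_succ_of_ne_zero hq.ne'
      rw [if_pos (Nat.le_mul_of_pos_right m hq), p2_coeffS]
      have e1 : m * (q' + 1) - m = m * q' := by
        rw [mul_add, mul_one, Nat.add_sub_cancel]
      rw [Nat.succ_eq_add_one, e1, if_pos (Dvd.intro _ rfl),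
        Nat.mul_div_cancel_left _ (by omega), Nat.mul_div_cancel_left _ (by omega),
        Function.iterate_succ_apply]
      have e2 : (((m * (q' + 1) : ℕ) : K)) * algebraMap ℂ K (1 / ((q' + 1).factorial : ℂ)) =
          (m : K) * algebraMap ℂ K (1 / (q'.factorial : ℂ)) := by
        have e3 : ((m * (q' + 1) : ℕ) : K) = algebraMap ℂ K ((m * (q' + 1) : ℕ) : ℂ) := by
          rw [map_natCast]
        have e4 : (m : K) = algebraMap ℂ K (m : ℂ) := by rw [map_natCast]
        rw [e3, e4, ← map_mul, ← map_mul]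
        congr 1
        rw [Nat.factorial_succ]
        have h1 : ((q' : ℂ) + 1) ≠ 0 := by exact_mod_cast Nat.succ_ne_zero q'
        have h2 : ((q'.factorial : ℕ) : ℂ) ≠ 0 := by exact_mod_cast Nat.factorial_ne_zero q'
        push_cast
        field_simp
      linear_combination ((D^[q']) (D x)) * e2
  · rw [if_neg hd, mul_zero]
    split_ifs with h
    · rw [p2_coeffS, if_neg, mul_zero]
      intro h1
      apply hd
      rw [← Nat.sub_add_cancel h]
      exact dvd_add h1 (dvd_refl m)
    · rw [mul_zero]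

private theorem p2_theta (f : PowerSeries K) (n : ℕ) :
    (n : K) * coeff n f = coeff n (X * PowerSeries.derivative K f) := by
  rcases n with _ | n
  · simp
  · rw [PowerSeries.coeff_succ_X_mul, PowerSeries.coeff_derivative]
    push_cast
    ring

private theorem p2_const (m : ℕ) (D : Derivation ℂ K K) (x : K) :
    coeff 0 (expS m D x) = x := by
  rw [p2_coeffS]
  simp

private theorem p2_mul (m : ℕ) (hm : 1 ≤ m) (D : Derivation ℂ K K) (n : ℕ) : ∀ (x y : K),
    coeff n (expS m D (x * y)) = coeff n (expS m D x * expS m D y) := by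
  have hch : CharZero K := p2_char
  induction n using Nat.strong_induction_on with
  | _ n ih =>
  intro x y
  rcases Nat.eq_zero_or_pos n with rfl | hn
  · rw [PowerSeries.coeff_zero_eq_constantCoeff_apply (expS m D x * expS m D y), map_mul,
      ← PowerSeries.coeff_zero_eq_constantCoeff_apply,
      ← PowerSeries.coeff_zero_eq_constantCoeff_apply, p2_const, p2_const, p2_const]
  have hn0 : (n : K) ≠ 0 := by exact_mod_cast hn.ne'
  apply mul_left_cancel₀ hn0
  rw [p2_rec m hm, p2_theta]
  have hθ : ∀ z, X * PowerSeries.derivative K (expS m D z) =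
      (m : PowerSeries K) * (X ^ m * expS m D (D z)) := by
    intro z
    ext j
    rw [← p2_theta, p2_rec m hm]
  have e1 : X * PowerSeries.derivative K (expS m D x * expS m D y) =
      (m : PowerSeries K) * (X ^ m * (expS m D x * expS m D (D y))) +
      (m : PowerSeries K) * (X ^ m * (expS m D (D x) * expS m D y)) := by
    rw [Derivation.leibniz, smul_eq_mul, smul_eq_mul]
    have h1 := hθ x
    have h2 := hθ y
    linear_combination (expS m D x) * h2 + (expS m D y) * h1
  rw [e1, map_add]
  have h0 : (m : PowerSeries K) = C (m : K) := by simp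
  rw [h0, PowerSeries.coeff_C_mul, PowerSeries.coeff_C_mul, PowerSeries.coeff_C_mul,
    PowerSeries.coeff_X_pow_mul', PowerSeries.coeff_X_pow_mul', PowerSeries.coeff_X_pow_mul']
  split_ifs with h
  · rw [Derivation.leibniz, p2_add, map_add, smul_eq_mul, smul_eq_mul, ih _ (by omega),
      ih _ (by omega), mul_comm (expS m D y)]
    ring
  · ring

private noncomputable def p2_hom (m : ℕ) (hm : 1 ≤ m) (D : Derivation ℂ K K) :
    K →+* PowerSeries K where
  toFun x := expS m D x
  map_one' := by
    rw [p2_killed m hm D 1 (by simp)]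
    simp
  map_zero' := by
    rw [p2_killed m hm D 0 (by simp)]
    simp
  map_add' x y := p2_add m D x y
  map_mul' x y := by
    ext n
    exact p2_mul m hm D n x y

theorem expA_spec {m : ℕ} (hm : 1 ≤ m) (D : Derivation ℂ K K) (x : K) :
    (expA m D).toEquiv (C x) = expS m D x := by
  have h : ∃ φ : ArcAut K, ∀ x, φ.toEquiv (PowerSeries.C x) = expS m D x := by
    obtain ⟨φ, hφ⟩ := exists_ofHom (p2_hom m hm D) (by
      intro x
      have := p2_const m D x
      rw [PowerSeries.coeff_zero_eq_constantCoeff_apply] at this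
      exact this) (by
      intro c
      exact p2_killed m hm D _ (by simp))
    exact ⟨φ, hφ⟩
  rw [expA, dif_pos h]
  exact h.choose_spec x

theorem exp_cong {m : ℕ} (hm : 1 ≤ m) (D : Derivation ℂ K K) : Cong m (expA m D) 1 := by
  intro x j hj
  rw [expA_spec hm, p2_coeffS, ArcAut.one_apply, PowerSeries.coeff_C]
  by_cases h0 : j = 0
  · subst h0
    simp
  · rw [if_neg h0, if_neg]
    intro h1
    exact absurd (Nat.le_of_dvd (Nat.pos_of_ne_zero h0) h1) (by omega)

theorem coeff_exp {m : ℕ} (hm : 1 ≤ m) (D : Derivation ℂ K K) (x : K) :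
    coeff m ((expA m D).toEquiv (C x)) = D x := by
  rw [expA_spec hm, p2_coeffS, if_pos (dvd_refl m), Nat.div_self (by omega)]
  simp

private theorem p2_dvd {m : ℕ} {u : PowerSeries K} (h : ∀ j < m, coeff j u = 0)
    (g : PowerSeries K) : coeff m (u * g) = coeff m u * coeff 0 g := by
  obtain ⟨w, rfl⟩ := PowerSeries.X_pow_dvd_iff.2 h
  rw [mul_assoc, PowerSeries.coeff_X_pow_mul', PowerSeries.coeff_X_pow_mul', if_pos le_rfl,
    if_pos le_rfl, Nat.sub_self, PowerSeries.coeff_zero_eq_constantCoeff_apply,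
    map_mul, ← PowerSeries.coeff_zero_eq_constantCoeff_apply,
    ← PowerSeries.coeff_zero_eq_constantCoeff_apply]

/-- coefficient `m` of `ψ f` for `f ≡ C x` modulo `t^m` -/
private theorem p2_app (ψ : ArcAut K) {m : ℕ} (hm : 1 ≤ m) (f : PowerSeries K) (x : K)
    (h : ∀ j < m, coeff j f = coeff j (C x)) :
    coeff m (ψ.toEquiv f) = coeff m (ψ.toEquiv (C x)) + coeff m f := by
  obtain ⟨w, hw⟩ := PowerSeries.X_pow_dvd_iff (n := m) (φ := f - C x) |>.2 (by
    intro j hj
    rw [map_sub, h j hj, sub_self])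
  have h1 : f = C x + X ^ m * w := by rw [← hw]; ring
  have h2 : coeff m f = coeff 0 w := by
    rw [h1, map_add, PowerSeries.coeff_C, if_neg (by omega), zero_add,
      PowerSeries.coeff_X_pow_mul', if_pos le_rfl, Nat.sub_self]
  rw [h2, h1, map_add, map_mul, map_pow, ψ.map_X, map_add, PowerSeries.coeff_X_pow_mul',
    if_pos le_rfl, Nat.sub_self, PowerSeries.coeff_zero_eq_constantCoeff_apply, ψ.map_zero,
    ← PowerSeries.coeff_zero_eq_constantCoeff_apply]

private theorem p2_cme {m : ℕ} (hm : 1 ≤ m) (ψ : ArcAut K) (D : Derivation ℂ K K) (x : K) :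
    coeff m ((ψ * expA m D).toEquiv (C x)) = coeff m (ψ.toEquiv (C x)) + D x := by
  rw [ArcAut.mul_apply, p2_app ψ hm _ x (exp_cong hm D x), coeff_exp hm]

theorem exists_der_cong {m : ℕ} (hm : 1 ≤ m) {φ ψ : ArcAut K} (h : Cong m φ ψ) :
    ∃ D : Derivation ℂ K K, Cong (m + 1) φ (ψ * expA m D) := by
  have hlin : ∀ (χ : ArcAut K) (c : ℂ) (x : K), χ.toEquiv (C (c • x)) =
      C (algebraMap ℂ K c) * χ.toEquiv (C x) := by
    intro χ c x
    rw [Algebra.smul_def, map_mul, map_mul, χ.map_C]
  let D0 : K →ₗ[ℂ] K :=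
    { toFun := fun x => coeff m (φ.toEquiv (C x)) - coeff m (ψ.toEquiv (C x))
      map_add' := by
        intro x y
        simp only [map_add]
        ring
      map_smul' := by
        intro c x
        rw [hlin, hlin, PowerSeries.coeff_C_mul, PowerSeries.coeff_C_mul, RingHom.id_apply,
          Algebra.smul_def]
        ring }
  let D : Derivation ℂ K K := Derivation.mk' D0 (by
    intro x y
    show coeff m (φ.toEquiv (C (x * y))) - coeff m (ψ.toEquiv (C (x * y))) =
      x • (coeff m (φ.toEquiv (C y)) - coeff m (ψ.toEquiv (C y))) +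
      y • (coeff m (φ.toEquiv (C x)) - coeff m (ψ.toEquiv (C x)))
    have e1 : φ.toEquiv (C (x * y)) - ψ.toEquiv (C (x * y)) =
        (φ.toEquiv (C x) - ψ.toEquiv (C x)) * φ.toEquiv (C y) +
        (φ.toEquiv (C y) - ψ.toEquiv (C y)) * ψ.toEquiv (C x) := by
      rw [map_mul, map_mul, map_mul]; ring
    have e2 := congrArg (coeff m) e1
    rw [map_add, p2_dvd (by intro j hj; rw [map_sub, h x j hj, sub_self]),
      p2_dvd (by intro j hj; rw [map_sub, h y j hj, sub_self]), map_sub, map_sub, map_sub,
      p2_coeff0, p2_coeff0] at e2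
    rw [e2, smul_eq_mul, smul_eq_mul]
    ring)
  have hD : ∀ x, D x = coeff m (φ.toEquiv (C x)) - coeff m (ψ.toEquiv (C x)) := fun x => rfl
  refine ⟨D, ?_⟩
  intro x j hj
  rcases Nat.lt_succ_iff_lt_or_eq.1 hj with hj' | rfl
  · have h1 : Cong m (ψ * expA m D) (ψ * 1) := (Cong.refl m ψ).mul (exp_cong hm D)
    rw [h1 x j hj', mul_one]
    exact h x j hj'
  · rw [p2_cme hm, hD]
    ring

theorem exp_unique {m : ℕ} (hm : 1 ≤ m) {ψ : ArcAut K} {D D' : Derivation ℂ K K}
    (h : Cong (m + 1) (ψ * expA m D) (ψ * expA m D')) : D = D' := by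
  ext x
  have h1 := h x m (Nat.lt_succ_self m)
  rw [p2_cme hm, p2_cme hm] at h1
  exact add_left_cancel h1

theorem exp_add {m : ℕ} (hm : 1 ≤ m) (D D' : Derivation ℂ K K) :
    Cong (m + 1) (expA m D * expA m D') (expA m (D + D')) := by
  intro x j hj
  rcases Nat.lt_succ_iff_lt_or_eq.1 hj with hj' | rfl
  · have h1 : Cong m (expA m D * expA m D') (1 * 1) := (exp_cong hm D).mul (exp_cong hm D')
    rw [mul_one] at h1
    exact (h1.trans (exp_cong hm (D + D')).symm) x j hj'
  · rw [p2_cme hm, coeff_exp hm, coeff_exp hm]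
    rfl

theorem exp_comm {m : ℕ} (hm : 1 ≤ m) (D : Derivation ℂ K K) (φ : ArcAut K) :
    Cong (m + 1) (expA m D * φ) (φ * expA m D) := by
  intro x j hj
  have h1 : Cong m (expA m D * φ) (1 * φ) := (exp_cong hm D).mul (Cong.refl m φ)
  have h2 : Cong m (φ * expA m D) (φ * 1) := (Cong.refl m φ).mul (exp_cong hm D)
  rw [one_mul] at h1
  rw [mul_one] at h2
  rcases Nat.lt_succ_iff_lt_or_eq.1 hj with hj' | rfl
  · exact (h1.trans h2.symm) x j hj'
  · rw [p2_cme hm, ArcAut.mul_apply, coeff_app]
    rw [Finset.sum_eq_add_of_mem (0, j) (j, 0) (by simp) (by simp)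
      (by intro h; have := congrArg Prod.fst h; simp at this; omega)]
    · rw [p2_coeff0, p2_coeff0, coeff_exp hm]
    · rintro ⟨a, b⟩ hab hne
      rw [Finset.HasAntidiagonal.mem_antidiagonal] at hab
      obtain ⟨hne1, hne2⟩ := hne
      have ha0 : a ≠ 0 := by
        rintro rfl
        apply hne1
        simp at hab
        rw [hab]
      have haj : a < j := by
        rcases Nat.lt_or_ge a j with h | h
        · exact h
        · exfalso
          apply hne2
          have h3 : a = j := by omega
          have h4 : b = 0 := by omega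
          rw [h3, h4]
      show coeff a ((expA j D).toEquiv (C (coeff b (φ.toEquiv (C x))))) = 0
      rw [exp_cong hm D _ a haj, ArcAut.one_apply, PowerSeries.coeff_C, if_neg ha0]

theorem coeff_mul_exp {m : ℕ} (hm : 1 ≤ m) (ψ : ArcAut K) (D : Derivation ℂ K K) (x : K) :
    coeff m ((ψ * expA m D).toEquiv (C x)) = coeff m (ψ.toEquiv (C x)) + D x :=
  p2_cme hm ψ D x

end HKR
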