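import Mathlib
/-!
HKR.R0 (limits of characters).
(a) lin_rat: a finite system of linear equalities and non-strict inequalities with integer coefficients
that has a real solution has a rational solution.
  PROOF.  Let x be a real solution.  W := the ℚ-span of 1, x_1, ..., x_k in ℝ; choose a ℚ-basis w_0 = 1, w_1, ..., w_r of
  W and write x_i = Σ_j c_ij w_j, c_ij ∈ ℚ.  For rational w'_1,..,w'_r close to w_1,..,w_r put x'_i := c_i0 + Σ c_ij w'_j.
  A constraint that is an equality at x is a ℚ-linear relation, so its w_j-coefficients vanish and it is an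
  equality at x'; strict ones stay strict by continuity.  (Finitely many constraints, indexed by Fin M.)
(b) exists_alpha: there is N such that for all n ≥ N and a : Fin k → ℕ, a i < n, n ∣ Σ a i, there is α : Fin k → ℚ
with 0 ≤ α ≤ 1, Σ α i = (Σ a i)/n, and for all S, with F = (Σ_{i∈S} a i)/n (floor):  F ≤ Σ_S α ≤ F + 1; if a i + 1 = n then
α i = 1; if (Σ_S a) % n + 1 = n then Σ_S α = F + 1.
  PROOF.  Otherwise there are infinitely many bad (n,a).  The data d = (Σ a)/n ≤ k, F_S ≤ k, and the truth values of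
  a i + 1 = n, (Σ_S a) % n + 1 = n take finitely many values, so some data occur for bad (n,a) with n arbitrarily
  large; by compactness of [0,1]^k a subsequence of a/n converges to a real α, which satisfies all conditions
  for these data (F_S ≤ Σ_S a/n < F_S + 1; a i/n = 1 - 1/n → 1; Σ_S a/n = F_S + 1 - 1/n → F_S + 1).  By (a) there is a
  rational α for these data: contradiction.
-/
namespace HKR

open Filter Topology in
private lemma R0_func {ι : Type} [Finite ι] (y : ι → ℝ) (hy : ∀ r, 0 < y r) :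
    ∃ φ : ℝ →ₗ[ℚ] ℚ, ∀ r, 0 < φ (y r) := by
  classical
  obtain ⟨W, hW⟩ : ∃ W : Submodule ℚ ℝ, W = Submodule.span ℚ (Set.range y) := ⟨_, rfl⟩
  have hfd : FiniteDimensional ℚ W := by
    rw [hW]
    exact FiniteDimensional.span_of_finite ℚ (Set.finite_range y)
  have hmem : ∀ r, y r ∈ W := fun r => by
    rw [hW]
    exact Submodule.subset_span ⟨r, rfl⟩
  obtain ⟨B, _⟩ : ∃ B : Module.Basis (Fin (Module.finrank ℚ W)) ℚ W, True :=
    ⟨Module.finBasis ℚ W, trivial⟩
  have happ : ∀ (n : ℕ) (j : Fin (Module.finrank ℚ W)),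
      ∃ q : ℚ, |(q : ℝ) - ((B j : W) : ℝ)| ≤ 1 / ((n : ℝ) + 1) := by
    intro n j
    have hp : (0 : ℝ) < 1 / ((n : ℝ) + 1) := by positivity
    obtain ⟨q, h1, h2⟩ := exists_rat_btwn (sub_lt_self ((B j : W) : ℝ) hp)
    refine ⟨q, ?_⟩
    rw [abs_le]
    constructor <;> linarith
  choose q hq using happ
  have hlim : ∀ j, Tendsto (fun n => (q n j : ℝ)) atTop (𝓝 ((B j : W) : ℝ)) := by
    intro j
    rw [tendsto_iff_norm_sub_tendsto_zero]
    exact squeeze_zero (fun n => norm_nonneg _) (fun n => by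
      rw [Real.norm_eq_abs]; exact hq n j) tendsto_one_div_add_atTop_nhds_zero_nat
  have hsum : ∀ r, ∑ j, ((B.repr ⟨y r, hmem r⟩ j : ℚ) : ℝ) * ((B j : W) : ℝ) = y r := by
    intro r
    have h1 := congrArg W.subtype (B.sum_repr ⟨y r, hmem r⟩)
    simp only [map_sum, map_smul, Submodule.subtype_apply, Rat.smul_def] at h1
    exact h1
  have hφ : ∀ r, Tendsto (fun n => ∑ j, ((B.repr ⟨y r, hmem r⟩ j : ℚ) : ℝ) * (q n j : ℝ)) atTop
      (𝓝 (y r)) := by
    intro r
    have h1 : Tendsto (fun n => ∑ j, ((B.repr ⟨y r, hmem r⟩ j : ℚ) : ℝ) * (q n j : ℝ)) atTop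
      (𝓝 (∑ j, ((B.repr ⟨y r, hmem r⟩ j : ℚ) : ℝ) * ((B j : W) : ℝ))) :=
      tendsto_finsetSum _ fun j _ => (hlim j).const_mul _
    rwa [hsum r] at h1
  have hev : ∀ᶠ n in atTop, ∀ r, 0 < ∑ j, ((B.repr ⟨y r, hmem r⟩ j : ℚ) : ℝ) * (q n j : ℝ) := by
    rw [eventually_all]
    intro r
    exact (hφ r).eventually (lt_mem_nhds (hy r))
  obtain ⟨n, hn⟩ := hev.exists
  obtain ⟨g, hg⟩ := LinearMap.exists_extend (B.constr ℚ (q n))
  refine ⟨g, fun r => ?_⟩
  have h1 : g (y r) = (B.constr ℚ (q n)) ⟨y r, hmem r⟩ := LinearMap.congr_fun hg ⟨y r, hmem r⟩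
  rw [h1, Module.Basis.constr_apply_fintype]
  have h2 := hn r
  simp only [Module.Basis.equivFun_apply, smul_eq_mul]
  exact_mod_cast h2

private lemma R0_lin {R : Type} [Finite R] {k : ℕ} (A : R → Fin k → ℤ) (b : R → ℤ) (eq : R → Prop)
    (x : Fin k → ℝ) (hx : ∀ r, (b r : ℝ) ≤ ∑ i, A r i * x i)
    (hx' : ∀ r, eq r → (b r : ℝ) = ∑ i, A r i * x i) :
    ∃ x' : Fin k → ℚ, (∀ r, (b r : ℚ) ≤ ∑ i, A r i * x' i) ∧
      (∀ r, eq r → (b r : ℚ) = ∑ i, A r i * x' i) := by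
  classical
  obtain ⟨φ, hφ⟩ := R0_func
    (fun o : Option {r : R // (b r : ℝ) < ∑ i, A r i * x i} =>
      o.elim (1 : ℝ) (fun r => ∑ i, A r.1 i * x i - (b r.1 : ℝ))) (by
    rintro (_ | r)
    · exact one_pos
    · exact sub_pos.2 r.2)
  have h1 : 0 < φ 1 := hφ none
  have hlin : ∀ r, φ (∑ i, A r i * x i - (b r : ℝ)) = ∑ i, A r i * φ (x i) - b r * φ 1 := by
    intro r
    rw [map_sub, map_sum]
    congr 1
    · refine Finset.sum_congr rfl fun i _ => ?_
      have h2 : ((A r i : ℤ) : ℝ) * x i = (A r i : ℤ) • x i := by rw [zsmul_eq_mul]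
      rw [h2, map_zsmul, zsmul_eq_mul]
    · have h2 : ((b r : ℤ) : ℝ) = (b r : ℤ) • (1 : ℝ) := by rw [zsmul_eq_mul, mul_one]
      rw [h2, map_zsmul, zsmul_eq_mul]
  have hdiv : ∀ r, ∑ i, (A r i : ℚ) * (φ (x i) / φ 1) = (∑ i, (A r i : ℚ) * φ (x i)) / φ 1 := by
    intro r
    rw [Finset.sum_div]
    exact Finset.sum_congr rfl fun i _ => by rw [mul_div_assoc]
  have heq : ∀ r, (b r : ℝ) = ∑ i, A r i * x i →
      (b r : ℚ) = ∑ i, (A r i : ℚ) * (φ (x i) / φ 1) := by
    intro r hr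
    have h2 := hlin r
    rw [← hr, sub_self, map_zero] at h2
    rw [hdiv, eq_div_iff h1.ne']
    linarith
  refine ⟨fun i => φ (x i) / φ 1, fun r => ?_, fun r hr => heq r (hx' r hr)⟩
  rcases (hx r).lt_or_eq with h | h
  · have h2 : 0 < φ (∑ i, A r i * x i - (b r : ℝ)) := hφ (some ⟨r, h⟩)
    rw [hlin r] at h2
    rw [hdiv, le_div_iff₀ h1]
    linarith
  · exact (heq r h).le

theorem lin_rat {k M : ℕ} (A : Fin M → Fin k → ℤ) (b : Fin M → ℤ) (eq : Fin M → Prop)
    (x : Fin k → ℝ) (hx : ∀ r, (b r : ℝ) ≤ ∑ i, A r i * x i)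
    (hx' : ∀ r, eq r → (b r : ℝ) = ∑ i, A r i * x i) :
    ∃ x' : Fin k → ℚ, (∀ r, (b r : ℚ) ≤ ∑ i, A r i * x' i) ∧
      (∀ r, eq r → (b r : ℚ) = ∑ i, A r i * x' i) := by
  exact R0_lin A b eq x hx hx'

open Filter Topology in
private lemma R0_limit {k : ℕ} (n : ℕ → ℕ) (a : ℕ → Fin k → ℕ) (hn : ∀ m, m + 1 ≤ n m)
    (ha : ∀ m i, a m i < n m) (hd : ∀ m, n m ∣ ∑ i, a m i) :
    ∃ m, ∃ α : Fin k → ℚ, (∀ i, 0 ≤ α i) ∧ (∀ i, α i ≤ 1) ∧
      ∑ i, α i = ((∑ i, a m i) / n m : ℕ) ∧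
      (∀ S : Finset (Fin k), (((∑ i ∈ S, a m i) / n m : ℕ) : ℚ) ≤ ∑ i ∈ S, α i ∧
        ∑ i ∈ S, α i ≤ (((∑ i ∈ S, a m i) / n m : ℕ) : ℚ) + 1) ∧
      (∀ i, a m i + 1 = n m → α i = 1) ∧
      (∀ S : Finset (Fin k), (∑ i ∈ S, a m i) % n m + 1 = n m →
        ∑ i ∈ S, α i = (((∑ i ∈ S, a m i) / n m : ℕ) : ℚ) + 1) := by
  classical
  have hn0 : ∀ m, 0 < n m := fun m => lt_of_lt_of_le (Nat.succ_pos m) (hn m)
  -- the floors are at most k
  have hF : ∀ m (S : Finset (Fin k)), (∑ i ∈ S, a m i) / n m < k + 1 := by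
    intro m S
    rw [Nat.div_lt_iff_lt_mul (hn0 m)]
    calc ∑ i ∈ S, a m i ≤ ∑ i ∈ S, n m := Finset.sum_le_sum fun i _ => (ha m i).le
      _ = S.card * n m := by rw [Finset.sum_const, smul_eq_mul]
      _ ≤ k * n m := Nat.mul_le_mul_right _ (by
          simpa using Finset.card_le_univ S)
      _ < (k + 1) * n m := by
          rw [Nat.add_mul, one_mul]
          exact Nat.lt_add_of_pos_right (hn0 m)
  -- data
  obtain ⟨D, hD⟩ : ∃ D : ℕ → (Finset (Fin k) → Fin (k + 1)) × (Finset (Fin k) → Bool),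
      D = fun m => (fun S => ⟨(∑ i ∈ S, a m i) / n m, hF m S⟩,
        fun S => decide ((∑ i ∈ S, a m i) % n m + 1 = n m)) := ⟨_, rfl⟩
  obtain ⟨U, hU⟩ : ∃ U : Ultrafilter ℕ, (U : Filter ℕ) ≤ atTop :=
    ⟨Filter.hyperfilter ℕ, by
      rw [← Nat.cofinite_eq_atTop]
      exact Filter.hyperfilter_le_cofinite⟩
  obtain ⟨D0, hD0⟩ := (U.map D).eq_pure_of_finite
  have hev : ∀ᶠ m in (U : Filter ℕ), D m = D0 := by
    have h1 : {D0} ∈ U.map D := by
      rw [hD0]
      exact Ultrafilter.mem_pure.2 rfl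
    exact h1
  -- the limit
  obtain ⟨x, _, hx⟩ := (isCompact_univ_pi (fun _ : Fin k => isCompact_Icc (a := (0 : ℝ)) (b := 1))).ultrafilter_le_nhds
    (U.map (fun m i => (a m i : ℝ) / n m)) (by
      rw [le_principal_iff, Ultrafilter.coe_map]
      refine Filter.mem_map.2 (Filter.univ_mem' fun m i _ => ?_)
      exact ⟨div_nonneg (Nat.cast_nonneg _) (Nat.cast_nonneg _),
        div_le_one_of_le₀ (by exact_mod_cast (ha m i).le) (Nat.cast_nonneg _)⟩)
  have hlimi : ∀ i, Tendsto (fun m => (a m i : ℝ) / n m) U (𝓝 (x i)) := by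
    have h1 : Tendsto (fun m i => (a m i : ℝ) / n m) U (𝓝 x) := hx
    exact tendsto_pi_nhds.1 h1
  have hlimS : ∀ S : Finset (Fin k), Tendsto (fun m => ((∑ i ∈ S, a m i : ℕ) : ℝ) / n m) U
      (𝓝 (∑ i ∈ S, x i)) := by
    intro S
    have h1 : Tendsto (fun m => ∑ i ∈ S, (a m i : ℝ) / n m) U (𝓝 (∑ i ∈ S, x i)) :=
      tendsto_finsetSum _ fun i _ => hlimi i
    refine h1.congr fun m => ?_
    rw [Nat.cast_sum, Finset.sum_div]
  have hinv : Tendsto (fun m => (1 : ℝ) / n m) U (𝓝 0) := by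
    have h1 : Tendsto (fun m => (1 : ℝ) / n m) atTop (𝓝 0) := by
      refine squeeze_zero (fun m => by positivity) (fun m => ?_)
        tendsto_one_div_add_atTop_nhds_zero_nat
      refine one_div_le_one_div_of_le (by positivity) ?_
      exact_mod_cast hn m
    exact h1.mono_left hU
  have hfl : ∀ m (S : Finset (Fin k)), D m = D0 →
      ((∑ i ∈ S, a m i) / n m : ℕ) = (D0.1 S : ℕ) := by
    intro m S h
    rw [← h, hD]
  have hfg : ∀ m (S : Finset (Fin k)), D m = D0 →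
      ((∑ i ∈ S, a m i) % n m + 1 = n m ↔ D0.2 S = true) := by
    intro m S h
    rw [← h, hD]
    simp
  have hlow : ∀ S : Finset (Fin k), ((D0.1 S : ℕ) : ℝ) ≤ ∑ i ∈ S, x i := by
    intro S
    refine ge_of_tendsto (hlimS S) ?_
    filter_upwards [hev] with m hm
    rw [← hfl m S hm, le_div_iff₀ (by exact_mod_cast hn0 m)]
    exact_mod_cast Nat.div_mul_le_self _ _
  have hupp : ∀ S : Finset (Fin k), ∑ i ∈ S, x i ≤ ((D0.1 S : ℕ) : ℝ) + 1 := by
    intro S
    refine le_of_tendsto (hlimS S) ?_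
    filter_upwards [hev] with m hm
    rw [← hfl m S hm, div_le_iff₀ (by exact_mod_cast hn0 m)]
    have h1 := (Nat.lt_mul_div_succ (∑ i ∈ S, a m i) (hn0 m)).le
    rw [mul_comm] at h1
    exact_mod_cast h1
  have htop : ∀ S : Finset (Fin k), D0.2 S = true → ∑ i ∈ S, x i = ((D0.1 S : ℕ) : ℝ) + 1 := by
    intro S hS
    have h1 : Tendsto (fun m => ((D0.1 S : ℕ) : ℝ) + 1 - 1 / n m) U
        (𝓝 (((D0.1 S : ℕ) : ℝ) + 1 - 0)) := tendsto_const_nhds.sub hinv
    rw [sub_zero] at h1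
    refine tendsto_nhds_unique_of_eventuallyEq (hlimS S) h1 ?_
    filter_upwards [hev] with m hm
    have h2 := (hfg m S hm).2 hS
    have h3 := Nat.div_add_mod (∑ i ∈ S, a m i) (n m)
    rw [hfl m S hm] at h3
    have h4 : (n m : ℝ) * ((D0.1 S : ℕ) : ℝ) + (((∑ i ∈ S, a m i) % n m : ℕ) : ℝ) =
        ((∑ i ∈ S, a m i : ℕ) : ℝ) := by exact_mod_cast h3
    have h5 : (((∑ i ∈ S, a m i) % n m : ℕ) : ℝ) + 1 = n m := by exact_mod_cast h2
    have h6 : (0 : ℝ) < n m := by exact_mod_cast hn0 m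
    field_simp
    linarith
  have huniv : ((D0.1 Finset.univ : ℕ) : ℝ) = ∑ i ∈ (Finset.univ : Finset (Fin k)), x i := by
    refine tendsto_nhds_unique_of_eventuallyEq tendsto_const_nhds (hlimS Finset.univ) ?_
    filter_upwards [hev] with m hm
    rw [← hfl m Finset.univ hm]
    have h6 : (n m : ℝ) ≠ 0 := by exact_mod_cast (hn0 m).ne'
    rw [eq_div_iff h6]
    exact_mod_cast Nat.div_mul_cancel (hd m)
  -- the rational solution
  have hind : ∀ (S : Finset (Fin k)) (y : Fin k → ℝ),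
      ∑ i, (((if i ∈ S then 1 else 0 : ℤ) : ℤ) : ℝ) * y i = ∑ i ∈ S, y i := by
    intro S y
    simp
  have hindq : ∀ (S : Finset (Fin k)) (y : Fin k → ℚ),
      ∑ i, (((if i ∈ S then 1 else 0 : ℤ) : ℤ) : ℚ) * y i = ∑ i ∈ S, y i := by
    intro S y
    simp
  obtain ⟨α, h1, h2⟩ := R0_lin
    (R := Finset (Fin k) × Bool)
    (fun r i => if r.2 then (if i ∈ r.1 then 1 else 0) else -(if i ∈ r.1 then 1 else 0))
    (fun r => if r.2 then ((D0.1 r.1 : ℕ) : ℤ) else -(((D0.1 r.1 : ℕ) : ℤ) + 1))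
    (fun r => if r.2 then r.1 = Finset.univ else D0.2 r.1 = true) x
    (by
      rintro ⟨S, _ | _⟩
      · simp only [Bool.false_eq_true, if_false]
        have h := hupp S
        have h' := hind S x
        push_cast at h' ⊢
        simp only [neg_mul, Finset.sum_neg_distrib]
        rw [h']
        linarith
      · simp only [if_true]
        have h := hlow S
        have h' := hind S x
        push_cast at h' ⊢
        rw [h']
        exact h)
    (by
      rintro ⟨S, _ | _⟩ hS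
      · simp only [Bool.false_eq_true, if_false] at hS ⊢
        have h := htop S hS
        have h' := hind S x
        push_cast at h' ⊢
        simp only [neg_mul, Finset.sum_neg_distrib]
        rw [h']
        linarith
      · simp only [if_true] at hS ⊢
        have h' := hind S x
        push_cast at h' ⊢
        rw [h', hS]
        exact huniv)
  obtain ⟨m, hm⟩ := hev.exists
  have hL : ∀ S : Finset (Fin k), ((D0.1 S : ℕ) : ℚ) ≤ ∑ i ∈ S, α i := by
    intro S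
    have h := h1 (S, true)
    have h' := hindq S α
    simp only [if_true] at h
    push_cast at h h'
    rwa [h'] at h
  have hR : ∀ S : Finset (Fin k), ∑ i ∈ S, α i ≤ ((D0.1 S : ℕ) : ℚ) + 1 := by
    intro S
    have h := h1 (S, false)
    have h' := hindq S α
    simp only [Bool.false_eq_true, if_false] at h
    push_cast at h h'
    simp only [neg_mul, Finset.sum_neg_distrib] at h
    rw [h'] at h
    linarith
  have hT : ∀ S : Finset (Fin k), D0.2 S = true → ∑ i ∈ S, α i = ((D0.1 S : ℕ) : ℚ) + 1 := by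
    intro S hS
    have h := h2 (S, false) (by simpa using hS)
    have h' := hindq S α
    simp only [Bool.false_eq_true, if_false] at h
    push_cast at h h'
    simp only [neg_mul, Finset.sum_neg_distrib] at h
    rw [h'] at h
    linarith
  have hV : ((D0.1 Finset.univ : ℕ) : ℚ) = ∑ i, α i := by
    have h := h2 (Finset.univ, true) (by simp)
    have h' := hindq Finset.univ α
    simp only [if_true] at h
    push_cast at h h'
    rwa [h'] at h
  have hone : ∀ i, (D0.1 {i} : ℕ) = 0 := by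
    intro i
    rw [← hfl m {i} hm, Finset.sum_singleton]
    exact Nat.div_eq_of_lt (ha m i)
  refine ⟨m, α, fun i => ?_, fun i => ?_, ?_, fun S => ⟨?_, ?_⟩, fun i hi => ?_, fun S hS => ?_⟩
  · have h := hL {i}
    rw [hone i, Finset.sum_singleton] at h
    simpa using h
  · have h := hR {i}
    rw [hone i, Finset.sum_singleton] at h
    simpa using h
  · rw [hfl m Finset.univ hm]
    exact hV.symm
  · rw [hfl m S hm]
    exact hL S
  · rw [hfl m S hm]
    exact hR S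
  · have h := hT {i} ((hfg m {i} hm).1 (by
      rw [Finset.sum_singleton, Nat.mod_eq_of_lt (ha m i)]
      exact hi))
    rw [hone i, Finset.sum_singleton] at h
    simpa using h
  · rw [hfl m S hm]
    exact hT S ((hfg m S hm).1 hS)

theorem exists_alpha (k : ℕ) : ∃ N : ℕ, ∀ n ≥ N, ∀ a : Fin k → ℕ, (∀ i, a i < n) → n ∣ ∑ i, a i →
    ∃ α : Fin k → ℚ, (∀ i, 0 ≤ α i) ∧ (∀ i, α i ≤ 1) ∧ ∑ i, α i = ((∑ i, a i) / n : ℕ) ∧
      (∀ S : Finset (Fin k), (((∑ i ∈ S, a i) / n : ℕ) : ℚ) ≤ ∑ i ∈ S, α i ∧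
        ∑ i ∈ S, α i ≤ (((∑ i ∈ S, a i) / n : ℕ) : ℚ) + 1) ∧
      (∀ i, a i + 1 = n → α i = 1) ∧
      (∀ S : Finset (Fin k), (∑ i ∈ S, a i) % n + 1 = n →
        ∑ i ∈ S, α i = (((∑ i ∈ S, a i) / n : ℕ) : ℚ) + 1) := by
  by_contra hcon
  push Not at hcon
  choose n hn a ha hd hbad using fun N : ℕ => hcon (N + 1)
  obtain ⟨m, α, h1, h2, h3, h4, h5, h6⟩ := R0_limit n a hn ha hd
  obtain ⟨S, hS, hS'⟩ := hbad m α h1 h2 h3 h4 h5
  exact hS' (h6 S hS)

end HKR
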