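import Pool.Agent.Lib.HKR.A12
import Pool.Agent.Lib.HKR.D3
import Pool.Agent.Lib.HKR.D10
import Pool.Agent.Lib.HKR.C2
/-!
HKR.S1 (Cousin theorems that are used).
(a) cousin_zero: (0;0): exists_ctx (a multiple point exists by c2); the hypothesis of `cousin` holds with h = 0, as
    pI ^ 0 = ⊤.
(b) cousin_line: (1;[i ∈ S]): m - 1 ≤ 0, same.
(c) cousin_Mp: β : Fin k → ℚ, 0 ≤ β i < 1, Σ β = d, m S = ⌊Σ_S β⌋; p ≠ 0 multiple, m (SS L p) < d:
    (d+1; m + [S = SS L p]).
    PROOF.  exists_ctx: lx, ly, lz, Q, no L i ∥ lz.  Write L i = l_i 0 • lz + l_i 1 • lx + l_i 2 • ly; l_i 1, l_i 2 not both 0;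
    the l_i are pairwise independent.  q ∈ Q ↦ P_q = (lx q, ly q) ∈ Fin 2 → ℂ injective (lz q = 1); On P_q l_i ↔
    L i ⬝ q = 0.  Q' := image; m' P_q := m (SS L q).  p = c p1 with p1 ∈ Q (SS L p = SS L p1).  surj_C for P_{p1} gives
    Surj Q' μ (d+1); translate (fatI = ⨅, S = SS L p only for q = p1: two lines determine the point).
    The exponents: (m (SS L q) + [SS L q = SS L p] - 1).toNat = m' (q = p1) or m' - 1.
-/
open MvPolynomial
namespace HKR
variable {k : ℕ} {L : Fin k → Fin 3 → ℂ}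

private theorem s1_cross_par {u v : Fin 3 → ℂ} (hu : u ≠ 0) (h : ¬ LinearIndependent ℂ ![u, v]) :
    ∃ t : ℂ, v = t • u := by
  by_contra hc
  exact h ((LinearIndependent.pair_iff' hu).2 fun a ha => hc ⟨a, ha.symm⟩)

/-- a point on two independent lines is a multiple of the cross product -/
private theorem s1_on_two {a b q : Fin 3 → ℂ} (h : LinearIndependent ℂ ![a, b])
    (ha : a ⬝ᵥ q = 0) (hb : b ⬝ᵥ q = 0) : ∃ t : ℂ, q = t • crossProduct a b := by
  apply s1_cross_par (crossProduct_ne_zero_iff_linearIndependent.2 h)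
  intro hi
  apply crossProduct_ne_zero_iff_linearIndependent.2 hi
  rw [cross_cross_eq_smul_sub_smul, ha, hb]
  simp

private theorem s1_mult (hk : 6 ≤ k) (hC : Config L) (hR : AffRigid L) :
    ∃ q, q ≠ 0 ∧ Multiple L q := by
  obtain ⟨p, p', h1, -, -, -, h2⟩ := c2 hk hC hR ⟨0, by omega⟩
  exact ⟨p, h2.ne_zero 0, h1⟩

private theorem s1_coord {lx ly lz : Fin 3 → ℂ} (h : LinearIndependent ℂ ![lx, ly, lz])
    (v : Fin 3 → ℂ) : ∃ c : Fin 3 → ℂ, v = c 0 • lz + c 1 • lx + c 2 • ly := by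
  have h1 : Submodule.span ℂ (Set.range ![lx, ly, lz]) = ⊤ :=
    h.span_eq_top_of_card_eq_finrank' (by simp)
  have h2 : v ∈ Submodule.span ℂ (Set.range ![lx, ly, lz]) := by
    rw [h1]
    exact Submodule.mem_top
  rw [Submodule.mem_span_range_iff_exists_fun] at h2
  obtain ⟨c, hc⟩ := h2
  refine ⟨![c 2, c 0, c 1], ?_⟩
  rw [← hc, Fin.sum_univ_three]
  simp only [Matrix.cons_val_zero, Matrix.cons_val_one, Matrix.cons_val]
  abel

theorem cousin_zero (hk : 6 ≤ k) (hC : Config L) (hR : AffRigid L) (e : Pt → Fn)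
    (he : LC L (Sect L 0 (fun _ => 0)) e) : Glob (Sect L 0 (fun _ => 0)) e := by
  obtain ⟨lx, ly, lz, Q, hX, -⟩ := exists_ctx hC (s1_mult hk hC hR)
  have h := cousin hX (D := 0) (m := fun _ => 0) (fun _ => le_rfl)
    (fun f => ⟨0, Or.inl rfl, fun q _ => by simp⟩) e (by simpa using he)
  simpa using h

open Classical in
theorem cousin_line (hk : 6 ≤ k) (hC : Config L) (hR : AffRigid L) (i0 : Fin k) (e : Pt → Fn)
    (he : LC L (Sect L 1 (fun S => if i0 ∈ S then 1 else 0)) e) :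
    Glob (Sect L 1 (fun S => if i0 ∈ S then 1 else 0)) e := by
  obtain ⟨lx, ly, lz, Q, hX, -⟩ := exists_ctx hC (s1_mult hk hC hR)
  have h := cousin hX (D := 1) (m := fun S => if i0 ∈ S then 1 else 0)
    (fun S => by
      show (0 : ℤ) ≤ if i0 ∈ S then 1 else 0
      split_ifs <;> norm_num)
    (fun f => ⟨0, Or.inl rfl, fun q _ => by
      have h0 : ((if i0 ∈ SS L q then (1 : ℤ) else 0) - 1).toNat = 0 := by
        split_ifs <;> simp
      rw [h0, pow_zero, Ideal.one_eq_top]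
      exact Submodule.mem_top⟩) e (by simpa using he)
  simpa using h

open Classical in
theorem cousin_Mp (hk : 6 ≤ k) (hC : Config L) (hR : AffRigid L) (β : Fin k → ℚ)
    (h0 : ∀ i, 0 ≤ β i) (h1 : ∀ i, β i < 1) (d : ℕ) (hd : ∑ i, β i = d)
    {p : Fin 3 → ℂ} (hp0 : p ≠ 0) (hp : Multiple L p) (hpd : ⌊∑ i ∈ SS L p, β i⌋ < d)
    (e : Pt → Fn)
    (he : LC L (Sect L ((d : ℤ) + 1)
      (fun S => ⌊∑ i ∈ S, β i⌋ + if S = SS L p then 1 else 0)) e) :
    Glob (Sect L ((d : ℤ) + 1) (fun S => ⌊∑ i ∈ S, β i⌋ + if S = SS L p then 1 else 0)) e := by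
  obtain ⟨lx, ly, lz, Q, hX, hz⟩ := exists_ctx hC ⟨p, hp0, hp⟩
  choose l hl using fun i => s1_coord hX.ind (L i)
  have hfl : ∀ S : Finset (Fin k), (0 : ℤ) ≤ ⌊∑ i ∈ S, β i⌋ := fun S =>
    Int.floor_nonneg.2 (Finset.sum_nonneg fun i _ => h0 i)
  -- the lines in affine coordinates
  have hl12 : ∀ i, l i 1 ≠ 0 ∨ l i 2 ≠ 0 := by
    intro i
    by_contra hcon
    push Not at hcon
    have h2 := hl i
    rw [hcon.1, hcon.2, zero_smul, zero_smul, add_zero, add_zero] at h2
    have h3 := LinearIndependent.pair_iff.1 (hz i) 1 (-(l i 0)) (by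
      rw [one_smul, neg_smul, ← h2, add_neg_cancel])
    exact one_ne_zero h3.1
  have hlind : ∀ i j, i ≠ j → LinearIndependent ℂ ![l i, l j] := by
    intro i j hij
    rw [LinearIndependent.pair_iff]
    intro s t hst
    refine LinearIndependent.pair_iff.1 (hC.ind i j hij) s t ?_
    have a0 := congrFun hst 0
    have a1 := congrFun hst 1
    have a2 := congrFun hst 2
    simp only [Pi.add_apply, Pi.smul_apply, smul_eq_mul, Pi.zero_apply] at a0 a1 a2
    rw [hl i, hl j]
    have e1 : s • (l i 0 • lz + l i 1 • lx + l i 2 • ly) +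
        t • (l j 0 • lz + l j 1 • lx + l j 2 • ly) =
        (s * l i 0 + t * l j 0) • lz + (s * l i 1 + t * l j 1) • lx +
        (s * l i 2 + t * l j 2) • ly := by module
    rw [e1, a0, a1, a2]
    simp
  -- the points
  set φ : (Fin 3 → ℂ) → (Fin 2 → ℂ) := fun q => ![lx ⬝ᵥ q, ly ⬝ᵥ q] with hφ
  have hSS : ∀ q ∈ Q, SS L q = Finset.univ.filter (fun i => On (φ q) (l i)) := by
    intro q hq
    have hq1 := ((hX.memQ q).1 hq).2
    unfold SS
    refine Finset.filter_congr fun i _ => ?_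
    have e1 : L i ⬝ᵥ q = l i 0 + l i 1 * φ q 0 + l i 2 * φ q 1 := by
      conv_lhs => rw [hl i]
      rw [add_dotProduct, add_dotProduct, smul_dotProduct, smul_dotProduct, smul_dotProduct, hq1]
      simp [hφ]
    rw [e1]
    exact Iff.rfl
  set m' : (Fin 2 → ℂ) → ℕ := fun P =>
    (⌊∑ i ∈ Finset.univ.filter (fun i => On P (l i)), β i⌋).toNat with hm'
  -- the point p
  have hpz : lz ⬝ᵥ p ≠ 0 := hX.nz p hp0 hp
  set p1 : Fin 3 → ℂ := (lz ⬝ᵥ p)⁻¹ • p with hp1
  have hLp1 : ∀ i, L i ⬝ᵥ p1 = 0 ↔ L i ⬝ᵥ p = 0 := by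
    intro i
    rw [hp1, dotProduct_smul, smul_eq_mul]
    constructor
    · intro h
      exact (mul_eq_zero.1 h).resolve_left (inv_ne_zero hpz)
    · intro h
      rw [h, mul_zero]
  have hp1Q : p1 ∈ Q := by
    refine (hX.memQ p1).2 ⟨?_, ?_⟩
    · obtain ⟨a, b, c, x1, x2, x3, x4, x5, x6⟩ := hp
      exact ⟨a, b, c, x1, x2, x3, (hLp1 a).2 x4, (hLp1 b).2 x5, (hLp1 c).2 x6⟩
    · rw [hp1, dotProduct_smul, smul_eq_mul, inv_mul_cancel₀ hpz]
  have hSSp1 : SS L p1 = SS L p := by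
    unfold SS
    exact Finset.filter_congr fun i _ => hLp1 i
  have hm'q : ∀ q ∈ Q, (m' (φ q) : ℤ) = ⌊∑ i ∈ SS L q, β i⌋ := by
    intro q hq
    rw [hSS q hq]
    exact Int.toNat_of_nonneg (hfl _)
  have hsurj := surj_C l hl12 hlind β h0 h1 d hd (Q.image φ) m'
    (fun P _ => Int.toNat_of_nonneg (hfl _)) (φ p1) (Finset.mem_image_of_mem φ hp1Q) (by
      have h2 := hm'q p1 hp1Q
      rw [hSSp1] at h2
      have h3 : (m' (φ p1) : ℤ) < d := by
        rw [h2]
        exact hpd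
      exact_mod_cast h3)
  have h := cousin hX (D := d + 1)
    (m := fun S => ⌊∑ i ∈ S, β i⌋ + if S = SS L p then 1 else 0)
    (fun S => by
      show (0 : ℤ) ≤ ⌊∑ i ∈ S, β i⌋ + if S = SS L p then 1 else 0
      have := hfl S
      split_ifs <;> omega)
    (fun f => by
      obtain ⟨h, hdeg, hmem⟩ := hsurj f
      refine ⟨h, hdeg, fun q hq => ?_⟩
      have h2 : f - h ∈ pI (φ q) ^ (if φ q = φ p1 then m' (φ q) else m' (φ q) - 1) := by
        unfold fatI at hmem
        rw [Submodule.mem_iInf] at hmem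
        have h3 := hmem (φ q)
        rw [Submodule.mem_iInf] at h3
        exact h3 (Finset.mem_image_of_mem φ hq)
      refine Ideal.pow_le_pow_right ?_ h2
      have h4 := hm'q q hq
      show ((⌊∑ i ∈ SS L q, β i⌋ + if SS L q = SS L p then 1 else 0) - 1).toNat ≤ _
      rw [← h4]
      by_cases hs : SS L q = SS L p
      · have hqp : q = p1 := by
          obtain ⟨a, b, c, x1, -, -, x4, x5, -⟩ := ((hX.memQ q).1 hq).1
          have ma : a ∈ SS L q := by
            unfold SS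
            exact Finset.mem_filter.2 ⟨Finset.mem_univ _, x4⟩
          have mb : b ∈ SS L q := by
            unfold SS
            exact Finset.mem_filter.2 ⟨Finset.mem_univ _, x5⟩
          rw [hs, ← hSSp1] at ma mb
          unfold SS at ma mb
          obtain ⟨t, ht⟩ := s1_on_two (hC.ind a b x1) x4 x5
          obtain ⟨t1, ht1⟩ := s1_on_two (hC.ind a b x1) (Finset.mem_filter.1 ma).2
            (Finset.mem_filter.1 mb).2
          have z := ((hX.memQ q).1 hq).2
          have z1 := ((hX.memQ p1).1 hp1Q).2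
          rw [ht, dotProduct_smul, smul_eq_mul] at z
          rw [ht1, dotProduct_smul, smul_eq_mul] at z1
          have hc : lz ⬝ᵥ crossProduct (L a) (L b) ≠ 0 := by
            intro h0
            rw [h0, mul_zero] at z
            exact zero_ne_one z
          have : t = t1 := mul_right_cancel₀ hc (z.trans z1.symm)
          rw [ht, ht1, this]
        rw [if_pos hs, if_pos (by rw [hqp])]
        omega
      · rw [if_neg hs]
        split_ifs <;> omega) e (by
      have e1 : (((d + 1 : ℕ)) : ℤ) = (d : ℤ) + 1 := by push_cast; ring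
      rw [e1]
      exact he)
  have e1 : (((d + 1 : ℕ)) : ℤ) = (d : ℤ) + 1 := by push_cast; ring
  rw [e1] at h
  exact h

end HKR
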