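import Pool.Agent.Lib.HKR.V1
import Pool.Agent.Lib.HKR.S1
/-!
HKR.R1 (regular functions locally constant modulo the ideal of one component c are constant on c).
f y regular at y for all y, LC modulo VO 0 0 {c}.  Then there is κ ∈ ℂ with VO 0 0 {c} y (f y - κ) for all y.
PROOF.  c = line i: cousin_line applied to f y / fl (L i): there is e with (e - f y / ℓ)... that is F := e ℓ with
VO {c} (F - f y) for all y; so F is regular everywhere (vo_sect), constant κ (h0_zero).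
c = pt S: if no multiple point q ≠ 0 has SS L q = S then VO {c} is Sect (vo_off) and κ = 0.  Let q0 be such a point.
exists_ctx, normalise q0 ∈ Q (lz q0 = 1), lx' = lx - lx(q0) lz, ly' = ly - ly(q0) lz; G1 := ∏_{q ∈ Q, lx q ≠ lx q0}
(T - (lx q - lx q0)), G2 similarly.  The family f is LC for Sect 0 m with m S' = -[S' = S] (this is VO 0 0 {pt S}).
chart_blow (twice) gives e1, e2.  e1 - f y is a section of Sect 0 m at the points of chart 1, so e1 is regular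
there; e2 likewise; at the common points (0,b), b ≠ 0, e1 - e2 is in Sect 0 m: (e1 - e2)/X is RLoc.  const_E: κ.
Then e1 - κ, e2 - κ are in Sect 0 m at the points over q0, so f y - κ is, for y.q ∥ q0; for other y VO {c} is
regularity (vo_off).
-/
open MvPolynomial
namespace HKR
variable {k : ℕ} {L : Fin k → Fin 3 → ℂ}

private theorem r1_exists {a b c : Fin 3 → ℂ} (h : LinearIndependent ℂ ![a, b, c]) (x y z : ℂ) :
    ∃ v : Fin 3 → ℂ, a ⬝ᵥ v = x ∧ b ⬝ᵥ v = y ∧ c ⬝ᵥ v = z := by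
  have h1 : IsUnit (Matrix.of ![a, b, c]) := by
    rw [← Matrix.linearIndependent_rows_iff_isUnit]
    exact h
  have hdet : IsUnit (Matrix.of ![a, b, c]).det := (Matrix.isUnit_iff_isUnit_det _).1 h1
  have h2 : (Matrix.of ![a, b, c]).mulVec ((Matrix.of ![a, b, c])⁻¹.mulVec ![x, y, z]) =
      ![x, y, z] := by
    rw [Matrix.mulVec_mulVec, Matrix.mul_nonsing_inv _ hdet, Matrix.one_mulVec]
  refine ⟨(Matrix.of ![a, b, c])⁻¹.mulVec ![x, y, z], ?_, ?_, ?_⟩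
  · exact congrFun h2 0
  · exact congrFun h2 1
  · exact congrFun h2 2

private theorem r1_zero {a b c v : Fin 3 → ℂ} (h : LinearIndependent ℂ ![a, b, c])
    (ha : a ⬝ᵥ v = 0) (hb : b ⬝ᵥ v = 0) (hc : c ⬝ᵥ v = 0) : v = 0 := by
  have h1 : IsUnit (Matrix.of ![a, b, c]) := by
    rw [← Matrix.linearIndependent_rows_iff_isUnit]
    exact h
  obtain ⟨u, hu⟩ := h1
  have h2 : (Matrix.of ![a, b, c]).mulVec v = 0 := by
    funext i
    fin_cases i
    · exact ha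
    · exact hb
    · exact hc
  have h3 : ((u⁻¹ : (Matrix (Fin 3) (Fin 3) ℂ)ˣ) : Matrix (Fin 3) (Fin 3) ℂ).mulVec
      ((Matrix.of ![a, b, c]).mulVec v) = v := by
    rw [← hu, Matrix.mulVec_mulVec, Units.inv_mul, Matrix.one_mulVec]
  rw [← h3, h2, Matrix.mulVec_zero]

private theorem r1_ind3 {a b c q : Fin 3 → ℂ} (hab : LinearIndependent ℂ ![a, b])
    (ha : a ⬝ᵥ q = 0) (hb : b ⬝ᵥ q = 0) (hc : c ⬝ᵥ q ≠ 0) :
    LinearIndependent ℂ ![a, b, c] := by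
  rw [Fintype.linearIndependent_iff]
  intro g hg
  rw [Fin.sum_univ_three] at hg
  simp only [Matrix.cons_val_zero, Matrix.cons_val_one, Matrix.cons_val] at hg
  have h1 := congrArg (fun v => v ⬝ᵥ q) hg
  simp only [add_dotProduct, smul_dotProduct, ha, hb, zero_dotProduct, smul_eq_mul, mul_zero,
    zero_add] at h1
  have h2 : g 2 = 0 := (mul_eq_zero.1 h1).resolve_right hc
  rw [h2, zero_smul, add_zero] at hg
  rw [Fintype.linearIndependent_iff] at hab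
  have h3 := hab ![g 0, g 1] (by rw [Fin.sum_univ_two]; exact hg)
  intro i
  fin_cases i
  · exact h3 0
  · exact h3 1
  · exact h2

private theorem r1_perm {lx ly lz : Fin 3 → ℂ} (h : LinearIndependent ℂ ![lx, ly, lz]) :
    LinearIndependent ℂ ![ly, lx, lz] := by
  have h1 := h.comp ![1, 0, 2] (by decide)
  convert h1 using 1
  funext i
  fin_cases i <;> rfl

private theorem r1_mult_smul {q : Fin 3 → ℂ} (h : Multiple L q) (c : ℂ) : Multiple L (c • q) := by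
  obtain ⟨a, b, d, hab, hac, hbc, h1, h2, h3⟩ := h
  refine ⟨a, b, d, hab, hac, hbc, ?_, ?_, ?_⟩
  · rw [dotProduct_smul, h1, smul_zero]
  · rw [dotProduct_smul, h2, smul_zero]
  · rw [dotProduct_smul, h3, smul_zero]

private theorem r1_mem_SS {q : Fin 3 → ℂ} {i : Fin k} : i ∈ SS L q ↔ L i ⬝ᵥ q = 0 := by
  unfold SS
  rw [Finset.mem_filter]
  exact ⟨fun h => h.2, fun h => ⟨Finset.mem_univ _, h⟩⟩

private theorem r1_SS_smul (q : Fin 3 → ℂ) {c : ℂ} (hc : c ≠ 0) : SS L (c • q) = SS L q := by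
  ext i
  rw [r1_mem_SS, r1_mem_SS, dotProduct_smul, smul_eq_zero]
  exact or_iff_right hc

/-- points with the same lines are proportional -/
private theorem r1_par (hC : Config L) {q0 q : Fin 3 → ℂ} {lz : Fin 3 → ℂ} (hz : lz ⬝ᵥ q0 ≠ 0)
    (hq : q ≠ 0) (hm : Multiple L q0) (hS : SS L q = SS L q0) :
    ∃ c : ℂ, c ≠ 0 ∧ q = c • q0 := by
  obtain ⟨a, b, d, hab, -, -, ha, hb, -⟩ := hm
  have ha' : L a ⬝ᵥ q = 0 := by rw [← r1_mem_SS, hS, r1_mem_SS]; exact ha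
  have hb' : L b ⬝ᵥ q = 0 := by rw [← r1_mem_SS, hS, r1_mem_SS]; exact hb
  have hi := r1_ind3 (hC.ind a b hab) ha hb hz
  have h1 : q - (lz ⬝ᵥ q / lz ⬝ᵥ q0) • q0 = 0 := by
    refine r1_zero hi ?_ ?_ ?_
    · rw [dotProduct_sub, dotProduct_smul, ha, ha', smul_zero, sub_zero]
    · rw [dotProduct_sub, dotProduct_smul, hb, hb', smul_zero, sub_zero]
    · rw [dotProduct_sub, dotProduct_smul, smul_eq_mul, div_mul_cancel₀ _ hz, sub_self]
  have h2 : q = (lz ⬝ᵥ q / lz ⬝ᵥ q0) • q0 := sub_eq_zero.1 h1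
  refine ⟨_, ?_, h2⟩
  intro h0
  rw [h0, zero_smul] at h2
  exact hq h2

open Classical in
/-- the multiplicity function of the exceptional curve -/
private noncomputable def r1_m (S : Finset (Fin k)) : Finset (Fin k) → ℤ :=
  fun S' => if S' = S then -1 else 0

private theorem r1_reg {y : Pt} {S : Finset (Fin k)} {g : Fn} (h : Sect L 0 (r1_m S) y g) :
    Regular L y g := by
  rw [← sect_zero_iff]
  refine h.mono fun _ => ?_
  unfold r1_m
  split_ifs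
  · norm_num
  · exact le_rfl

private theorem r1_pt {lx ly lz : Fin 3 → ℂ} (hi : LinearIndependent ℂ ![lx, ly, lz]) (a b : ℂ) :
    ∃ y : Pt, lx ⬝ᵥ y.q = a ∧ ly ⬝ᵥ y.q = a * b ∧ lz ⬝ᵥ y.q = 1 ∧ lx ⬝ᵥ y.w = 1 ∧
      ly ⬝ᵥ y.w = b ∧ lz ⬝ᵥ y.w = 0 := by
  obtain ⟨q, q1, q2, q3⟩ := r1_exists hi a (a * b) 1
  obtain ⟨w, w1, w2, w3⟩ := r1_exists hi 1 b 0
  refine ⟨⟨q, w, ?_⟩, q1, q2, q3, w1, w2, w3⟩
  rw [LinearIndependent.pair_iff]
  intro s t hst
  have h3 := congrArg (fun v => lz ⬝ᵥ v) hst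
  simp only [dotProduct_add, dotProduct_smul, q3, w3, smul_eq_mul, mul_one, mul_zero, add_zero,
    dotProduct_zero] at h3
  have h1 := congrArg (fun v => lx ⬝ᵥ v) hst
  simp only [dotProduct_add, dotProduct_smul, q1, w1, smul_eq_mul, mul_one, h3, zero_mul,
    zero_add, dotProduct_zero] at h1
  exact ⟨h3, h1⟩

/-- one chart -/
private theorem r1_half {lx ly lz : Fin 3 → ℂ} (hi : LinearIndependent ℂ ![lx, ly, lz])
    (hC : Config L) {q0 : Fin 3 → ℂ} (h0 : q0 ≠ 0) (hq0 : Multiple L q0) (hx : lx ⬝ᵥ q0 = 0)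
    (hy : ly ⬝ᵥ q0 = 0) (Q : Finset (Fin 3 → ℂ))
    (hQ : ∀ q, Multiple L q → lz ⬝ᵥ q = 1 → q ∈ Q) (f : Pt → Fn)
    (hf : ∀ y, Regular L y (f y)) (hLC : LC L (Sect L 0 (r1_m (SS L q0))) f) :
    ∃ (G : Polynomial ℂ) (e1 : Fn), G.eval 0 ≠ 0 ∧
      (∀ a b, G.eval a ≠ 0 → RLoc (fl lx / fl lz) (fl ly / fl lx) a b e1) ∧
      (∀ y : Pt, lx ⬝ᵥ y.q = 0 → ly ⬝ᵥ y.q = 0 → lx ⬝ᵥ y.w ≠ 0 →
        Sect L 0 (r1_m (SS L q0)) y (e1 - f y)) := by
  classical
  have hz0 : lz ⬝ᵥ q0 ≠ 0 := fun h => h0 (r1_zero hi hx hy h)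
  set G : Polynomial ℂ := ∏ q ∈ Q.filter (fun q => lx ⬝ᵥ q ≠ 0),
    (Polynomial.X - Polynomial.C (lx ⬝ᵥ q)) with hG
  have hG0 : G.eval 0 ≠ 0 := by
    rw [hG, Polynomial.eval_prod, Finset.prod_ne_zero_iff]
    intro q hq
    have h1 := (Finset.mem_filter.1 hq).2
    rw [Polynomial.eval_sub, Polynomial.eval_X, Polynomial.eval_C, zero_sub]
    exact neg_ne_zero.2 h1
  have hGm : ∀ y : Pt, lz ⬝ᵥ y.q ≠ 0 → lx ⬝ᵥ y.q ≠ 0 → G.eval (lx ⬝ᵥ y.q / lz ⬝ᵥ y.q) ≠ 0 →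
      ¬ Multiple L y.q := by
    intro y hz hxq he hm
    have h1 := r1_mult_smul hm (lz ⬝ᵥ y.q)⁻¹
    have h2 : lz ⬝ᵥ ((lz ⬝ᵥ y.q)⁻¹ • y.q) = 1 := by
      rw [dotProduct_smul, smul_eq_mul, inv_mul_cancel₀ hz]
    have h3 := hQ _ h1 h2
    have h4 : lx ⬝ᵥ ((lz ⬝ᵥ y.q)⁻¹ • y.q) = lx ⬝ᵥ y.q / lz ⬝ᵥ y.q := by
      rw [dotProduct_smul, smul_eq_mul, div_eq_mul_inv, mul_comm]
    refine he ?_
    rw [hG, Polynomial.eval_prod]
    refine Finset.prod_eq_zero (Finset.mem_filter.2 ⟨h3, ?_⟩) ?_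
    · rw [h4]
      exact div_ne_zero hxq hz
    · rw [Polynomial.eval_sub, Polynomial.eval_X, Polynomial.eval_C, h4, sub_self]
  obtain ⟨e1, h1, h2⟩ := chart_blow hi hC h0 hq0 hx hy G hG0 hGm f hLC
  refine ⟨G, e1, hG0, fun a b hab => ?_, h2⟩
  obtain ⟨y, y1, y2, y3, y4, y5, y6⟩ := r1_pt hi a b
  by_cases ha : a = 0
  · subst ha
    rw [zero_mul] at y2
    have hq : y.q = (lz ⬝ᵥ q0)⁻¹ • q0 := by
      rw [← sub_eq_zero]
      refine r1_zero hi ?_ ?_ ?_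
      · rw [dotProduct_sub, dotProduct_smul, hx, y1, smul_zero, sub_zero]
      · rw [dotProduct_sub, dotProduct_smul, hy, y2, smul_zero, sub_zero]
      · rw [dotProduct_sub, dotProduct_smul, smul_eq_mul, inv_mul_cancel₀ hz0, y3, sub_self]
    have hm : Multiple L y.q := by
      rw [hq]
      exact r1_mult_smul hq0 _
    have hw : lx ⬝ᵥ y.w ≠ 0 := by rw [y4]; exact one_ne_zero
    have h3 := (r1_reg (h2 y y1 y2 hw)).add (hf y)
    rw [sub_add_cancel, regB hi y1 y2 hm hw, y4, y5, div_one] at h3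
    exact h3
  · have hz : lz ⬝ᵥ y.q ≠ 0 := by rw [y3]; exact one_ne_zero
    have hxq : lx ⬝ᵥ y.q ≠ 0 := by rw [y1]; exact ha
    have he : G.eval (lx ⬝ᵥ y.q / lz ⬝ᵥ y.q) ≠ 0 := by rw [y1, y3, div_one]; exact hab
    have hm := hGm y hz hxq he
    have h3 := (r1_reg (h1 y hz hxq he)).add (hf y)
    rw [sub_add_cancel, regB' hi hz hxq hm, y1, y2, y3, div_one, mul_div_cancel_left₀ _ ha] at h3
    exact h3

private theorem r1_muq {y : Pt} {S : Finset (Fin k)} (hm : Multiple L y.q) (hS : SS L y.q = S) :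
    muq L (r1_m S) y = -1 := by
  unfold muq r1_m
  rw [if_pos hm, if_pos hS]

private theorem r1_sect {y : Pt} {S : Finset (Fin k)} {lz lx : Fin 3 → ℂ} (hm : Multiple L y.q)
    (hS : SS L y.q = S) (hz : lz ⬝ᵥ y.q ≠ 0) (hx : lx ⬝ᵥ y.q = 0) (hw : lx ⬝ᵥ y.w ≠ 0) (g : Fn) :
    Sect L 0 (r1_m S) y g ↔ Regular L y (g / (fl lx / fl lz)) := by
  rw [sect_iff hz hx hw, r1_muq hm hS]
  have e : g * fl lz ^ ((0 : ℤ) - -1) * fl lx ^ (-1 : ℤ) = g / (fl lx / fl lz) := by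
    rw [zpow_neg_one, zero_sub, neg_neg, zpow_one, div_div_eq_mul_div, div_eq_mul_inv]
  rw [e]

private theorem r1_VO_pt {y : Pt} {S : Finset (Fin k)} {g : Fn} :
    VO L 0 (fun _ => 0) {Comp.pt S} y g ↔ Sect L 0 (r1_m S) y g := by
  unfold VO
  rw [Finset.sum_singleton, Finset.prod_singleton]
  have e1 : lc L (Comp.pt S) = 1 := rfl
  have e2 : (0 : ℤ) + dc (Comp.pt S : Comp k) = 0 := rfl
  rw [e1, e2, div_one]
  constructor
  · intro h
    refine h.congr_m fun _ => ?_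
    rw [Finset.sum_singleton, zero_add]
    simp only [r1_m, mc]
  · intro h
    refine h.congr_m fun _ => ?_
    rw [Finset.sum_singleton, zero_add]
    simp only [r1_m, mc]

private theorem r1_VO_line {y : Pt} {i : Fin k} {g : Fn} :
    VO L 0 (fun _ => 0) {Comp.line i} y g ↔
      Sect L 1 (fun S => if i ∈ S then 1 else 0) y (g / fl (L i)) := by
  unfold VO
  rw [Finset.sum_singleton, Finset.prod_singleton]
  have e1 : lc L (Comp.line i) = fl (L i) := rfl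
  have e2 : (0 : ℤ) + dc (Comp.line i : Comp k) = 1 := rfl
  rw [e1, e2]
  constructor
  · intro h
    refine h.congr_m fun _ => ?_
    rw [Finset.sum_singleton, zero_add]
    simp only [mc]
  · intro h
    refine h.congr_m fun _ => ?_
    rw [Finset.sum_singleton, zero_add]
    simp only [mc]

private theorem r1_line (hk : 6 ≤ k) (hC : Config L) (hR : AffRigid L) (i : Fin k) (f : Pt → Fn)
    (hf : ∀ y, Regular L y (f y)) (hLC : LC L (VO L 0 (fun _ => 0) {Comp.line i}) f) :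
    ∃ κ : ℂ, ∀ y, VO L 0 (fun _ => 0) {Comp.line i} y (f y - algebraMap ℂ Fn κ) := by
  have hl : L i ≠ 0 := by
    intro h0
    have hj : ∃ j : Fin k, j ≠ i := by
      have hcard : 1 < Fintype.card (Fin k) := by rw [Fintype.card_fin]; omega
      have : Nontrivial (Fin k) := Fintype.one_lt_card_iff_nontrivial.1 hcard
      exact exists_ne i
    obtain ⟨j, hj⟩ := hj
    have h1 := (hC.ind i j hj.symm).ne_zero 0
    exact h1 h0
  have hfl : fl (L i) ≠ 0 := fl_ne_zero hl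
  obtain ⟨E, hE⟩ := cousin_line hk hC hR i (fun y => f y / fl (L i)) (by
    intro y
    obtain ⟨T, hT, hT'⟩ := hLC y
    refine ⟨T, hT, fun y' hy' => ?_⟩
    have h1 := r1_VO_line.1 (hT' y' hy')
    rw [sub_div] at h1
    exact h1)
  have h1 : ∀ y, VO L 0 (fun _ => 0) {Comp.line i} y (E * fl (L i) - f y) := by
    intro y
    rw [r1_VO_line]
    have h2 := hE y
    have e : (E * fl (L i) - f y) / fl (L i) = E - f y / fl (L i) := by
      rw [sub_div, mul_div_cancel_right₀ _ hfl]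
    rw [e]
    exact h2
  obtain ⟨κ, hκ⟩ := h0_zero (m := fun _ => 0) (f := E * fl (L i)) hC (fun y _ => by
    have h2 := vo_sect hC (h1 y)
    have h3 := h2.add (sect_zero_iff.2 (hf y))
    rw [sub_add_cancel] at h3
    exact h3)
  refine ⟨κ, fun y => ?_⟩
  have h2 := vo_neg (h1 y)
  rw [neg_sub, hκ] at h2
  exact h2

private theorem r1_ind_shift {lx ly lz : Fin 3 → ℂ} (h : LinearIndependent ℂ ![lx, ly, lz])
    (a b : ℂ) : LinearIndependent ℂ ![lx - a • lz, ly - b • lz, lz] := by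
  rw [Fintype.linearIndependent_iff] at h ⊢
  intro g hg
  rw [Fin.sum_univ_three] at hg
  simp only [Matrix.cons_val_zero, Matrix.cons_val_one, Matrix.cons_val] at hg
  have h1 := h ![g 0, g 1, g 2 - g 0 * a - g 1 * b] (by
    rw [Fin.sum_univ_three]
    simp only [Matrix.cons_val_zero, Matrix.cons_val_one, Matrix.cons_val]
    rw [← hg]
    module)
  have e0 : g 0 = 0 := h1 0
  have e1 : g 1 = 0 := h1 1
  have e2 : g 2 - g 0 * a - g 1 * b = 0 := h1 2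
  rw [e0, e1, zero_mul, zero_mul, sub_zero, sub_zero] at e2
  intro i
  fin_cases i
  · exact e0
  · exact e1
  · exact e2

private theorem r1_point (hC : Config L) {q0 : Fin 3 → ℂ} (h0 : q0 ≠ 0) (hq0 : Multiple L q0)
    (f : Pt → Fn) (hf : ∀ y, Regular L y (f y)) (hLC : LC L (Sect L 0 (r1_m (SS L q0))) f) :
    ∃ κ : ℂ, ∀ y : Pt, Multiple L y.q → SS L y.q = SS L q0 →
      Sect L 0 (r1_m (SS L q0)) y (f y - algebraMap ℂ Fn κ) := by
  obtain ⟨lx0, ly0, lz, Q, hX, -⟩ := exists_ctx hC ⟨q0, h0, hq0⟩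
  have hz0 : lz ⬝ᵥ q0 ≠ 0 := hX.nz q0 h0 hq0
  obtain ⟨lx, hlx⟩ : ∃ lx, lx = lx0 - (lx0 ⬝ᵥ q0 / lz ⬝ᵥ q0) • lz := ⟨_, rfl⟩
  obtain ⟨ly, hly⟩ : ∃ ly, ly = ly0 - (ly0 ⬝ᵥ q0 / lz ⬝ᵥ q0) • lz := ⟨_, rfl⟩
  have hi : LinearIndependent ℂ ![lx, ly, lz] := by
    rw [hlx, hly]
    exact r1_ind_shift hX.ind _ _
  have hx : lx ⬝ᵥ q0 = 0 := by
    rw [hlx, sub_dotProduct, smul_dotProduct, smul_eq_mul, div_mul_cancel₀ _ hz0, sub_self]
  have hy : ly ⬝ᵥ q0 = 0 := by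
    rw [hly, sub_dotProduct, smul_dotProduct, smul_eq_mul, div_mul_cancel₀ _ hz0, sub_self]
  have hi' := r1_perm hi
  have hQ : ∀ q, Multiple L q → lz ⬝ᵥ q = 1 → q ∈ Q := fun q h1 h2 => (hX.memQ q).2 ⟨h1, h2⟩
  obtain ⟨G1, e1, hG1, h1, h1'⟩ := r1_half hi hC h0 hq0 hx hy Q hQ f hf hLC
  obtain ⟨G2, e2, hG2, h2, h2'⟩ := r1_half hi' hC h0 hq0 hy hx Q hQ f hf hLC
  have key : ∀ y : Pt, Multiple L y.q → SS L y.q = SS L q0 →
      lx ⬝ᵥ y.q = 0 ∧ ly ⬝ᵥ y.q = 0 ∧ lz ⬝ᵥ y.q ≠ 0 := by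
    intro y hm hS
    have hq : y.q ≠ 0 := by
      have h := y.ind.ne_zero 0
      simpa using h
    obtain ⟨c, hc, hcq⟩ := r1_par hC hz0 hq hq0 hS
    rw [hcq, dotProduct_smul, dotProduct_smul, dotProduct_smul, hx, hy, smul_zero]
    exact ⟨rfl, rfl, smul_ne_zero hc hz0⟩
  obtain ⟨κ, k1, k2⟩ := const_E hi hG1 hG2 h1 h2 (by
    intro b hb
    obtain ⟨y, y1, y2, y3, y4, y5, y6⟩ := r1_pt hi 0 b
    rw [zero_mul] at y2
    have hq : y.q = (lz ⬝ᵥ q0)⁻¹ • q0 := by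
      rw [← sub_eq_zero]
      refine r1_zero hi ?_ ?_ ?_
      · rw [dotProduct_sub, dotProduct_smul, hx, y1, smul_zero, sub_zero]
      · rw [dotProduct_sub, dotProduct_smul, hy, y2, smul_zero, sub_zero]
      · rw [dotProduct_sub, dotProduct_smul, smul_eq_mul, inv_mul_cancel₀ hz0, y3, sub_self]
    have hm : Multiple L y.q := by
      rw [hq]
      exact r1_mult_smul hq0 _
    have hS : SS L y.q = SS L q0 := by
      rw [hq]
      exact r1_SS_smul q0 (inv_ne_zero hz0)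
    have hw : lx ⬝ᵥ y.w ≠ 0 := by rw [y4]; exact one_ne_zero
    have hw' : ly ⬝ᵥ y.w ≠ 0 := by rw [y5]; exact hb
    have hz : lz ⬝ᵥ y.q ≠ 0 := by rw [y3]; exact one_ne_zero
    have h3 := (h1' y y1 y2 hw).sub (h2' y y2 y1 hw')
    rw [sub_sub_sub_cancel_right, r1_sect hm hS hz y1 hw, regB hi y1 y2 hm hw, y4, y5,
      div_one] at h3
    exact h3)
  refine ⟨κ, fun y hm hS => ?_⟩
  obtain ⟨y1, y2, y3⟩ := key y hm hS
  by_cases hw : lx ⬝ᵥ y.w = 0
  · have hw' : ly ⬝ᵥ y.w ≠ 0 := by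
      intro hw'
      have h3 : y.w - (lz ⬝ᵥ y.w / lz ⬝ᵥ y.q) • y.q = 0 := by
        refine r1_zero hi ?_ ?_ ?_
        · rw [dotProduct_sub, dotProduct_smul, hw, y1, smul_zero, sub_zero]
        · rw [dotProduct_sub, dotProduct_smul, hw', y2, smul_zero, sub_zero]
        · rw [dotProduct_sub, dotProduct_smul, smul_eq_mul, div_mul_cancel₀ _ y3, sub_self]
      have h4 := (LinearIndependent.pair_iff.1 y.ind) (-(lz ⬝ᵥ y.w / lz ⬝ᵥ y.q)) 1 (by
        rw [neg_smul, one_smul, neg_add_eq_sub]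
        exact h3)
      exact one_ne_zero h4.2
    have h3 := (regB hi' y2 y1 hm hw' _).2 (k2 (lx ⬝ᵥ y.w / ly ⬝ᵥ y.w))
    rw [← r1_sect hm hS y3 y2 hw'] at h3
    have h4 := h3.sub (h2' y y2 y1 hw')
    rw [sub_sub_sub_cancel_left] at h4
    exact h4
  · have h3 := (regB hi y1 y2 hm hw _).2 (k1 (ly ⬝ᵥ y.w / lx ⬝ᵥ y.w))
    rw [← r1_sect hm hS y3 y1 hw] at h3
    have h4 := h3.sub (h1' y y1 y2 hw)
    rw [sub_sub_sub_cancel_left] at h4
    exact h4

theorem const_on (hk : 6 ≤ k) (hC : Config L) (hR : AffRigid L) (c : Comp k) (f : Pt → Fn)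
    (hf : ∀ y, Regular L y (f y)) (hLC : LC L (VO L 0 (fun _ => 0) {c}) f) :
    ∃ κ : ℂ, ∀ y, VO L 0 (fun _ => 0) {c} y (f y - algebraMap ℂ Fn κ) := by
  cases c with
  | line i => exact r1_line hk hC hR i f hf hLC
  | pt S =>
    by_cases hex : ∃ y0 : Pt, Multiple L y0.q ∧ SS L y0.q = S
    · obtain ⟨y0, hm0, hS0⟩ := hex
      have hq0 : y0.q ≠ 0 := by
        have h := y0.ind.ne_zero 0
        simpa using h
      have hLC' : LC L (Sect L 0 (r1_m (SS L y0.q))) f := by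
        intro y
        obtain ⟨T, hT, hT'⟩ := hLC y
        refine ⟨T, hT, fun y' hy' => ?_⟩
        have h1 := hT' y' hy'
        rw [r1_VO_pt, ← hS0] at h1
        exact h1
      obtain ⟨κ, hκ⟩ := r1_point hC hq0 hm0 f hf hLC'
      refine ⟨κ, fun y => ?_⟩
      by_cases hy : OnC L y (Comp.pt S)
      · rw [r1_VO_pt, ← hS0]
        exact hκ y hy.1 (hy.2.trans hS0.symm)
      · rw [vo_off hC hy, sect_zero_iff]
        exact (hf y).sub (Regular.const κ)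
    · refine ⟨0, fun y => ?_⟩
      have hy : ¬ OnC L y (Comp.pt S) := fun h => hex ⟨y, h.1, h.2⟩
      rw [vo_off hC hy, sect_zero_iff, map_zero, sub_zero]
      exact hf y

end HKR
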