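import Pool.Agent.Lib.HKR.R1
/-!
HKR.R2 (restriction lemma).  M = (d;m); β : Fin k → ℚ, β ≥ 0, Σ β = d, m S ≤ Σ_S β for all S; the component c:
β i = 0 if c = line i, Σ_S β = m S if c = pt S.  f y ∈ O(-M)_y for all y, LC modulo O(-M-c).  y0 on c with
 (v1) SectV d m y0 (f y0), or (v2) another component c' ≠ c through y0, c' = line i with β i > 0 or c' = pt S with
 m S < Σ_S β.  Then VO d m {c} y (f y) for all y.
PROOF.  j ≥ 1 with j β i =: b_i ∈ ℕ for all i.  h := ∏ fl (L i)^(b_i): Sect (-j d) (-j m) at all y (the product of the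
sect_line: Sect (-Σ b) (-Σ_{i∈S} b_i), and Σ_{i∈S} b_i = j Σ_S β ≥ j m S: mono).  g y := h (f y)^j is regular at y, and LC
modulo VO 0 0 {c} (f^j - f'^j = (f - f') Σ f^a f'^b).  const_on: κ, VO 0 0 {c} y (g y - κ).
κ = 0: Val at y0: g y0 - κ has value 0 at y0 (sectV_of_vo), and g y0 has value 0: (v1) sectV_mul; (v2) h is a section
of O(jM) vanishing on c': if c' = line i, h = fl(L i) * rest (b_i ≥ 1); if c' = pt S: multiplicity strictly
larger: Sect (-jd) (-jm - [S]) ... so VO (-jd) (-jm) {c'} y0 h, sectV_of_vo.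
So VO 0 0 {c} y (h (f y)^j) for all y.  vo_of_pow with H = h: need ¬ VO (-jd) (-jm) {c} y h at y ∈ c (y ∉ c: nothing to
prove, vo_off): c = line i: b_i = 0: h/(fl L i) times the generator is (unit or) ∏_{l ≠ i} (local equations) / (local
equation of line i): not regular since the line i is a prime not dividing the other factors.  c = pt S: h has
multiplicity exactly j m S at q.
-/
open MvPolynomial
namespace HKR
variable {k : ℕ} {L : Fin k → Fin 3 → ℂ}

/-! ### auxiliary lemmas -/

private theorem r2_sect_congr {d d' : ℤ} {m m' : Finset (Fin k) → ℤ} {y : Pt} {f : Fn}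
    (hd : d = d') (hm : ∀ S, m S = m' S) (h : Sect L d m y f) : Sect L d' m' y f := by
  have e : m = m' := funext hm
  rw [← hd, ← e]
  exact h

private theorem r2_vo_congr {d d' : ℤ} {m m' : Finset (Fin k) → ℤ} {Y : Finset (Comp k)} {y : Pt}
    {f : Fn} (hd : d = d') (hm : ∀ S, m S = m' S) (h : VO L d m Y y f) : VO L d' m' Y y f := by
  have e : m = m' := funext hm
  rw [← hd, ← e]
  exact h

private theorem r2_vo_mono {d : ℤ} {m m' : Finset (Fin k) → ℤ} {Y : Finset (Comp k)} {y : Pt}
    {f : Fn} (hm : Multiple L y.q → m (SS L y.q) ≤ m' (SS L y.q)) (h : VO L d m Y y f) :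
    VO L d m' Y y f := by
  unfold VO at h ⊢
  exact h.mono fun hq => by
    have := hm hq
    show m (SS L y.q) + _ ≤ m' (SS L y.q) + _
    linarith

private theorem r2_val_one {y : Pt} : Val L y (1 : Fn) 1 := by
  have h := Val.const (L := L) (y := y) 1
  simpa using h

private theorem r2_reg_one {y : Pt} : Regular L y (1 : Fn) := regular_iff_val.2 ⟨1, r2_val_one⟩

private theorem r2_sect_one {y : Pt} : Sect L 0 (fun _ => 0) y (1 : Fn) :=
  sect_zero_iff.2 r2_reg_one

private theorem r2_not_vo_one (hC : Config L) {c : Comp k} {y : Pt} (hy : OnC L y c) :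
    ¬ VO L 0 (fun _ => 0) {c} y (1 : Fn) := by
  intro h
  have h1 := sectV_zero_iff.1 (sectV_of_vo hC hy h)
  exact zero_ne_one (h1.unique r2_val_one)

private theorem r2_L_ne (hC : Config L) (i : Fin k) : L i ≠ 0 := by
  intro h0
  by_cases h : ∃ j, j ≠ i
  · obtain ⟨j, hj⟩ := h
    have h1 := (hC.ind i j hj.symm).ne_zero 0
    exact h1 h0
  · push Not at h
    have h1 := hC.nonconc (fun _ => 1) (fun j => by rw [h j, h0, zero_dotProduct])
    have h2 := congrFun h1 0
    exact one_ne_zero h2

/-- a line is not divisible by another component -/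
private theorem r2_not_vo_line (hC : Config L) {c : Comp k} {y : Pt} (hy : OnC L y c) {l : Fin k}
    (hl : Comp.line l ≠ c) :
    ¬ VO L (-1) (fun S => if l ∈ S then -1 else 0) {c} y (fl (L l)) := by
  intro h
  have hL := fl_ne_zero (r2_L_ne hC l)
  have h1 : VO L (-1) (fun S => if l ∈ S then -1 else 0) {Comp.line l} y (fl (L l)) := by
    unfold VO
    simp only [Finset.sum_singleton, Finset.prod_singleton]
    change Sect L (-1 + 1) (fun S => (if l ∈ S then (-1 : ℤ) else 0) + (if l ∈ S then 1 else 0)) y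
      (fl (L l) / fl (L l))
    rw [div_self hL]
    refine r2_sect_congr (by norm_num) (fun S => ?_) r2_sect_one
    split_ifs <;> norm_num
  have h2 : VO L (-1) (fun S => if l ∈ S then -1 else 0) {c, Comp.line l} y (fl (L l)) := by
    refine vo_inter hC (sect_line l) ?_
    intro c' hc'
    rw [Finset.mem_insert, Finset.mem_singleton] at hc'
    rcases hc' with rfl | rfl
    · exact h
    · exact h1
  apply r2_not_vo_one hC hy
  unfold VO at h2 ⊢
  simp only [Finset.sum_pair hl.symm, Finset.prod_pair hl.symm, Finset.sum_singleton,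
    Finset.prod_singleton] at h2 ⊢
  have e1 : fl (L l) / (lc L c * lc L (Comp.line l)) = 1 / lc L c := by
    change fl (L l) / (lc L c * fl (L l)) = 1 / lc L c
    rw [mul_comm, ← div_div, div_self hL]
  rw [e1] at h2
  refine r2_sect_congr ?_ (fun S => ?_) h2
  · change -1 + (dc c + 1) = 0 + dc c
    ring
  · change (if l ∈ S then (-1 : ℤ) else 0) + (mc c S + (if l ∈ S then 1 else 0)) = 0 + mc c S
    split_ifs <;> ring

private theorem r2_line_pow (i : Fin k) (n : ℕ) (y : Pt) :
    Sect L (-(n : ℤ)) (fun S => if i ∈ S then -(n : ℤ) else 0) y (fl (L i) ^ n) := by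
  refine r2_sect_congr (by ring) (fun S => ?_) ((sect_line (L := L) (y := y) i).pow n)
  split_ifs <;> ring

private theorem r2_not_vo_line_pow (hC : Config L) {c : Comp k} {y : Pt} (hy : OnC L y c)
    {l : Fin k} (n : ℕ) (hl : Comp.line l = c → n = 0) :
    ¬ VO L (-(n : ℤ)) (fun S => if l ∈ S then -(n : ℤ) else 0) {c} y (fl (L l) ^ n) := by
  intro h
  rcases Nat.eq_zero_or_pos n with h0 | h0
  · subst h0
    apply r2_not_vo_one hC hy
    rw [pow_zero] at h
    refine r2_vo_congr (by norm_num) (fun S => ?_) h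
    split_ifs <;> norm_num
  · refine r2_not_vo_line hC hy (fun e => by have := hl e; omega) ?_
    refine vo_of_pow hC (d' := 0) (m' := fun _ => 0) (H := 1) (j := n) h0 (sect_line l) r2_sect_one
      (r2_not_vo_one hC hy) ?_
    rw [one_mul]
    refine r2_vo_congr (by ring) (fun S => ?_) h
    split_ifs <;> ring

private theorem r2_sect_T (b : Fin k → ℕ) (y : Pt) (T : Finset (Fin k)) :
    Sect L (∑ l ∈ T, -(b l : ℤ)) (fun S => ∑ l ∈ T, if l ∈ S then -(b l : ℤ) else 0) y
      (∏ l ∈ T, fl (L l) ^ b l) := by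
  classical
  induction T using Finset.induction_on with
  | empty =>
    simp only [Finset.sum_empty, Finset.prod_empty]
    exact r2_sect_one
  | insert l T hl ih =>
    rw [Finset.prod_insert hl]
    refine r2_sect_congr ?_ (fun S => ?_) ((r2_line_pow l (b l) y).mul ih)
    · rw [Finset.sum_insert hl]
    · rw [Finset.sum_insert hl]

private theorem r2_not_vo_T (hC : Config L) (b : Fin k → ℕ) {c : Comp k}
    (hc : ∀ i, c = Comp.line i → b i = 0) {y : Pt} (hy : OnC L y c) (T : Finset (Fin k)) :
    ¬ VO L (∑ l ∈ T, -(b l : ℤ)) (fun S => ∑ l ∈ T, if l ∈ S then -(b l : ℤ) else 0) {c} y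
      (∏ l ∈ T, fl (L l) ^ b l) := by
  classical
  induction T using Finset.induction_on with
  | empty =>
    simp only [Finset.sum_empty, Finset.prod_empty]
    exact r2_not_vo_one hC hy
  | insert l T hl ih =>
    intro h
    apply ih
    refine vo_of_pow hC (d' := -(b l : ℤ)) (m' := fun S => if l ∈ S then -(b l : ℤ) else 0)
      (H := fl (L l) ^ b l) (j := 1) le_rfl (r2_sect_T b y T) (r2_line_pow l (b l) y)
      (r2_not_vo_line_pow hC hy (b l) fun e => hc l e.symm) ?_
    rw [Finset.prod_insert hl] at h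
    rw [pow_one]
    refine r2_vo_congr ?_ (fun S => ?_) h
    · rw [Finset.sum_insert hl]
      push_cast
      ring
    · rw [Finset.sum_insert hl]
      push_cast
      ring

private theorem r2_sum_mem (b : Fin k → ℕ) (S : Finset (Fin k)) :
    ∑ l, (if l ∈ S then -(b l : ℤ) else 0) = -∑ l ∈ S, (b l : ℤ) := by
  rw [Finset.sum_ite_mem, Finset.univ_inter, Finset.sum_neg_distrib]

theorem sect_prod (b : Fin k → ℕ) {m : Finset (Fin k) → ℤ}
    (hm : ∀ S, m S ≤ ∑ i ∈ S, (b i : ℤ)) (y : Pt) :
    Sect L (-∑ i, (b i : ℤ)) (fun S => -m S) y (∏ i, fl (L i) ^ b i) := by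
  have h := r2_sect_T (L := L) b y Finset.univ
  rw [Finset.sum_neg_distrib] at h
  refine h.mono fun _ => ?_
  rw [r2_sum_mem]
  exact neg_le_neg (hm _)

/-- `sig/lam` is a local section of `O(-E)` -/
private theorem r2_sig {y : Pt} {lam sig : Fin 3 → ℂ} (h1 : lam ⬝ᵥ y.q ≠ 0)
    (h2 : sig ⬝ᵥ y.q = 0) (h3 : sig ⬝ᵥ y.w ≠ 0) (hq : Multiple L y.q) (a : ℕ)
    {m : Finset (Fin k) → ℤ} (hm : m (SS L y.q) = -(a : ℤ)) :
    Sect L 0 m y ((fl sig / fl lam) ^ a) := by
  have e1 : fl lam ≠ 0 := fl_ne_zero (by rintro rfl; exact h1 (zero_dotProduct _))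
  have e3 : fl sig ≠ 0 := fl_ne_zero (by rintro rfl; exact h3 (zero_dotProduct _))
  rw [sect_iff h1 h2 h3]
  have hmu : muq L m y = -(a : ℤ) := by
    unfold muq
    rw [if_pos hq, hm]
  rw [hmu]
  have e : (fl sig / fl lam) ^ a * fl lam ^ ((0 : ℤ) - -(a : ℤ)) * fl sig ^ (-(a : ℤ)) = 1 := by
    rw [zero_sub, neg_neg, zpow_natCast, zpow_neg, zpow_natCast, div_pow]
    have p1 := pow_ne_zero a e1
    have p3 := pow_ne_zero a e3
    field_simp
  rw [e]
  exact r2_reg_one

/-- the exceptional curve is not divisible by a line -/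
private theorem r2_not_vo_sig (hC : Config L) {y : Pt} {lam sig : Fin 3 → ℂ}
    (h1 : lam ⬝ᵥ y.q ≠ 0) (h2 : sig ⬝ᵥ y.q = 0) (h3 : sig ⬝ᵥ y.w ≠ 0) (hq : Multiple L y.q)
    {i : Fin k} (hy : OnC L y (Comp.line i)) (a : ℕ) :
    ¬ VO L 0 (fun _ => 0) {Comp.line i} y ((fl sig / fl lam) ^ a) := by
  intro h
  rcases Nat.eq_zero_or_pos a with h0 | h0
  · subst h0
    rw [pow_zero] at h
    exact r2_not_vo_one hC hy h
  have e1 : fl lam ≠ 0 := fl_ne_zero (by rintro rfl; exact h1 (zero_dotProduct _))
  have e3 : fl sig ≠ 0 := fl_ne_zero (by rintro rfl; exact h3 (zero_dotProduct _))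
  have eL := fl_ne_zero (r2_L_ne hC i)
  have hs1 : Sect L 0 (fun S => if S = SS L y.q then -1 else 0) y (fl sig / fl lam) := by
    have := r2_sig (L := L) h1 h2 h3 hq 1 (m := fun S => if S = SS L y.q then -1 else 0)
      (by rw [if_pos rfl]; norm_num)
    rwa [pow_one] at this
  have hs0 : Sect L 0 (fun _ => 0) y (fl sig / fl lam) := by
    refine hs1.mono fun _ => ?_
    rw [if_pos rfl]
    norm_num
  have h4 : VO L 0 (fun _ => 0) {Comp.line i} y (fl sig / fl lam) := by
    refine vo_of_pow hC (d' := 0) (m' := fun _ => 0) (H := 1) (j := a) h0 hs0 r2_sect_one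
      (r2_not_vo_one hC hy) ?_
    rw [one_mul]
    refine r2_vo_congr (by ring) (fun S => by ring) h
  have h5 : VO L 0 (fun _ => 0) {Comp.pt (SS L y.q)} y (fl sig / fl lam) := by
    unfold VO
    simp only [Finset.sum_singleton, Finset.prod_singleton]
    change Sect L (0 + 0) (fun S => 0 + (if S = SS L y.q then -1 else 0)) y
      (fl sig / fl lam / 1)
    rw [div_one]
    refine r2_sect_congr (by ring) (fun S => by ring) hs1
  have hne : Comp.line i ≠ Comp.pt (SS L y.q) := by
    intro e
    cases e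
  have h6 : VO L 0 (fun _ => 0) {Comp.line i, Comp.pt (SS L y.q)} y (fl sig / fl lam) := by
    refine vo_inter hC hs0 ?_
    intro c' hc'
    rw [Finset.mem_insert, Finset.mem_singleton] at hc'
    rcases hc' with rfl | rfl
    · exact h4
    · exact h5
  unfold VO at h6
  rw [Finset.sum_pair hne, Finset.prod_pair hne, sect_iff h1 h2 h3] at h6
  have hmem : i ∈ SS L y.q := by
    unfold SS
    rw [Finset.mem_filter]
    exact ⟨Finset.mem_univ _, hy.1⟩
  have hmu : muq L (fun S => (0 : ℤ) + ∑ c ∈ {Comp.line i, Comp.pt (SS L y.q)}, mc c S) y = 0 := by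
    unfold muq
    rw [if_pos hq]
    show (0 : ℤ) + ∑ c ∈ {Comp.line i, Comp.pt (SS L y.q)}, mc c (SS L y.q) = 0
    rw [Finset.sum_pair hne]
    change (0 : ℤ) + ((if i ∈ SS L y.q then 1 else 0) +
      (if SS L y.q = SS L y.q then -1 else 0)) = 0
    rw [if_pos hmem, if_pos rfl]
    norm_num
  rw [hmu] at h6
  have e : fl sig / fl lam / (lc L (Comp.line i) * lc L (Comp.pt (SS L y.q))) *
      fl lam ^ ((0 : ℤ) + (dc (Comp.line i) + dc (Comp.pt (SS L y.q))) - 0) * fl sig ^ (0 : ℤ) =
      fl sig / fl (L i) := by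
    change fl sig / fl lam / (fl (L i) * 1) * fl lam ^ ((0 : ℤ) + (1 + 0) - 0) *
      fl sig ^ (0 : ℤ) = fl sig / fl (L i)
    rw [zpow_zero, mul_one, mul_one]
    have : (0 : ℤ) + (1 + 0) - 0 = 1 := by norm_num
    rw [this, zpow_one]
    field_simp
  rw [e] at h6
  obtain ⟨u, hu⟩ := regular_iff_val.1 h6
  have h7 := Val.ratio_mult (L := L) hq hy.1 h2 h3
  rw [hy.2 hq, zero_div] at h7
  have h8 := hu.mul h7
  have e9 : fl sig / fl (L i) * (fl (L i) / fl sig) = 1 := by field_simp
  rw [e9, mul_zero] at h8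
  exact zero_ne_one (h8.unique r2_val_one)

/-- `h = ∏ ℓᵢ^bᵢ` does not vanish identically along `c` -/
theorem not_vo_prod (hC : Config L) (b : Fin k → ℕ) (c : Comp k)
    (hc : ∀ i, c = Comp.line i → b i = 0) {y : Pt} (hy : OnC L y c)
    {m : Finset (Fin k) → ℤ} (hm' : ∀ S, c = Comp.pt S → m S = ∑ i ∈ S, (b i : ℤ)) :
    ¬ VO L (-∑ i, (b i : ℤ)) (fun S => -m S) {c} y (∏ i, fl (L i) ^ b i) := by
  intro h
  have hex := r2_not_vo_T (L := L) hC b hc hy Finset.univ
  apply hex
  -- comparison of the multiplicities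
  by_cases hle : Multiple L y.q → -m (SS L y.q) ≤
      ∑ l, (if l ∈ SS L y.q then -(b l : ℤ) else 0)
  · refine r2_vo_congr (Finset.sum_neg_distrib _).symm (fun _ => rfl) (r2_vo_mono hle h)
  · push Not at hle
    obtain ⟨hq, hlt⟩ := hle
    cases c with
    | pt S =>
      exfalso
      have h1 := hm' S rfl
      rw [hy.2] at hlt
      rw [r2_sum_mem, h1] at hlt
      exact lt_irrefl _ hlt
    | line i =>
      obtain ⟨lam, sig, tau, h1, h2, h3, h4, h5, h6, h7⟩ := exists_forms y
      have hl : lam ⬝ᵥ y.q ≠ 0 := by rw [h1]; exact one_ne_zero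
      have hs : sig ⬝ᵥ y.w ≠ 0 := by rw [h4]; exact one_ne_zero
      obtain ⟨a, ha⟩ : ∃ a : ℕ, -m (SS L y.q) =
          (∑ l, (if l ∈ SS L y.q then -(b l : ℤ) else 0)) + a := by
        obtain ⟨a, ha⟩ := Int.eq_ofNat_of_zero_le (sub_nonneg.2 hlt.le)
        exact ⟨a, by rw [← ha]; ring⟩
      have hg : Sect L 0 (fun S => if S = SS L y.q then -(a : ℤ) else 0) y
          ((fl sig / fl lam) ^ a) :=
        r2_sig (L := L) hl h3 hs hq a (by rw [if_pos rfl])
      have hg0 : Sect L 0 (fun _ => 0) y ((fl sig / fl lam) ^ a) := by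
        refine hg.mono fun _ => ?_
        rw [if_pos rfl]
        have : (0 : ℤ) ≤ a := Int.natCast_nonneg a
        linarith
      refine vo_of_pow hC (d' := 0) (m' := fun _ => 0) (H := (fl sig / fl lam) ^ a) (j := 1) le_rfl
        (r2_sect_T b y Finset.univ) hg0 (r2_not_vo_sig hC hl h3 hs hq hy a) ?_
      have h8 := vo_mul h hg
      rw [pow_one, mul_comm ((fl sig / fl lam) ^ a)]
      have h9 := r2_vo_mono (m' := fun S => (0 : ℤ) + (1 : ℕ) * ∑ l, (if l ∈ S then -(b l : ℤ) else 0))
        (fun _ => by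
          show -m (SS L y.q) + (if SS L y.q = SS L y.q then -(a : ℤ) else 0) ≤ _
          rw [if_pos rfl, ha]
          push_cast
          linarith) h8
      refine r2_vo_congr ?_ (fun _ => rfl) h9
      rw [Finset.sum_neg_distrib]
      push_cast
      ring

private theorem r2_exists_den (β : Fin k → ℚ) (h0 : ∀ i, 0 ≤ β i) :
    ∃ (j : ℕ) (b : Fin k → ℕ), 1 ≤ j ∧ ∀ i, (b i : ℚ) = j * β i := by
  classical
  refine ⟨∏ i, (β i).den, fun i => (β i).num.toNat * ∏ l ∈ Finset.univ.erase i, (β l).den,
    Finset.prod_pos fun i _ => (β i).den_pos, fun i => ?_⟩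
  have h1 : ((β i).num.toNat : ℚ) = (β i).num := by
    have : ((β i).num.toNat : ℤ) = (β i).num := Int.toNat_of_nonneg (Rat.num_nonneg.2 (h0 i))
    exact_mod_cast this
  have h2 : (∏ l, (β l).den : ℕ) = (β i).den * ∏ l ∈ Finset.univ.erase i, (β l).den :=
    (Finset.mul_prod_erase Finset.univ (fun l => (β l).den) (Finset.mem_univ i)).symm
  rw [h2]
  push_cast
  rw [h1]
  have h3 : ((β i).den : ℚ) * β i = (β i).num := by
    rw [mul_comm]
    exact_mod_cast Rat.mul_den_eq_num (β i)
  rw [mul_comm ((β i).den : ℚ), mul_assoc, h3]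
  ring

/-- differences of powers -/
private theorem r2_pow_sub {D : ℤ} {m : Finset (Fin k) → ℤ} {c : Comp k} {y : Pt} {f f' : Fn}
    (hf : Sect L D m y f) (hf' : Sect L D m y f') (h : VO L D m {c} y (f - f')) (j : ℕ) :
    VO L (j * D) (fun S => j * m S) {c} y (f ^ j - f' ^ j) := by
  induction j with
  | zero =>
    rw [pow_zero, pow_zero, sub_self]
    unfold VO
    rw [zero_div]
    exact Sect.zero
  | succ j ih =>
    have e : f ^ (j + 1) - f' ^ (j + 1) = (f - f') * f ^ j + (f ^ j - f' ^ j) * f' := by ring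
    rw [e]
    refine vo_add ?_ ?_
    · refine r2_vo_congr ?_ (fun S => ?_) (vo_mul h (hf.pow j))
      · push_cast; ring
      · push_cast; ring
    · refine r2_vo_congr ?_ (fun S => ?_) (vo_mul ih hf')
      · push_cast; ring
      · push_cast; ring

theorem restrict (hk : 6 ≤ k) (hC : Config L) (hR : AffRigid L) (β : Fin k → ℚ)
    (h0 : ∀ i, 0 ≤ β i) (d : ℕ) (hd : ∑ i, β i = d) (m : Finset (Fin k) → ℤ)
    (hm : ∀ S, (m S : ℚ) ≤ ∑ i ∈ S, β i) (c : Comp k) (hc : ∀ i, c = Comp.line i → β i = 0)
    (hc' : ∀ S, c = Comp.pt S → (m S : ℚ) = ∑ i ∈ S, β i) (f : Pt → Fn)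
    (hf : ∀ y, Sect L d m y (f y)) (hLC : LC L (VO L d m {c}) f) (y0 : Pt) (hy0 : OnC L y0 c)
    (hv : SectV L d m y0 (f y0) ∨ ∃ c', c' ≠ c ∧ OnC L y0 c' ∧
      (∀ i, c' = Comp.line i → 0 < β i) ∧ (∀ S, c' = Comp.pt S → (m S : ℚ) < ∑ i ∈ S, β i)) :
    ∀ y, VO L d m {c} y (f y) := by
  classical
  obtain ⟨j, b, hj, hb⟩ := r2_exists_den β h0
  have hjQ : (0 : ℚ) < j := by exact_mod_cast hj
  have hbS : ∀ S : Finset (Fin k), ((∑ i ∈ S, (b i : ℤ) : ℤ) : ℚ) = j * ∑ i ∈ S, β i := by
    intro S
    push_cast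
    rw [Finset.mul_sum]
    exact Finset.sum_congr rfl fun i _ => hb i
  have hbd : (∑ i, (b i : ℤ)) = j * d := by
    have h1 := hbS Finset.univ
    rw [hd] at h1
    exact_mod_cast h1
  have hbm : ∀ S, (j : ℤ) * m S ≤ ∑ i ∈ S, (b i : ℤ) := by
    intro S
    have h1 : (((j : ℤ) * m S : ℤ) : ℚ) ≤ ((∑ i ∈ S, (b i : ℤ) : ℤ) : ℚ) := by
      rw [hbS]
      push_cast
      exact mul_le_mul_of_nonneg_left (hm S) hjQ.le
    exact_mod_cast h1
  set h : Fn := ∏ i, fl (L i) ^ b i with hh
  have hhS : ∀ y, Sect L (-((j : ℤ) * d)) (fun S => -((j : ℤ) * m S)) y h := by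
    intro y
    have h1 := sect_prod (L := L) b hbm y
    rwa [hbd] at h1
  -- the regular functions `g`
  have hgR : ∀ y, Regular L y (h * f y ^ j) := by
    intro y
    rw [← sect_zero_iff]
    refine r2_sect_congr ?_ (fun S => ?_) ((hhS y).mul ((hf y).pow j))
    · ring
    · ring
  have hgLC : LC L (VO L 0 (fun _ => 0) {c}) (fun y => h * f y ^ j) := by
    intro y
    obtain ⟨T, hT1, hT2⟩ := hLC y
    refine ⟨T, hT1, fun y' hy' => ?_⟩
    have h1 := hT2 y' hy'
    have h2 : Sect L d m y' (f y) := by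
      have h3 := (hf y').sub (vo_sect hC h1)
      rwa [sub_sub_cancel] at h3
    have h3 := r2_pow_sub (hf y') h2 h1 j
    have h4 := vo_mul h3 (hhS y')
    have e : h * f y' ^ j - h * f y ^ j = (f y' ^ j - f y ^ j) * h := by ring
    rw [e]
    refine r2_vo_congr ?_ (fun S => ?_) h4
    · ring
    · ring
  obtain ⟨κ, hκ⟩ := const_on hk hC hR c (fun y => h * f y ^ j) hgR hgLC
  -- `κ = 0`
  have hval : Val L y0 (h * f y0 ^ j) 0 := by
    rw [← sectV_zero_iff]
    rcases hv with hv | ⟨c', hne, hon, hl, hp⟩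
    · obtain ⟨j', rfl⟩ : ∃ j', j = j' + 1 := ⟨j - 1, by omega⟩
      have h1 := sectV_mul hv ((hhS y0).mul ((hf y0).pow j'))
      have e : f y0 * (h * f y0 ^ j') = h * f y0 ^ (j' + 1) := by ring
      rw [e] at h1
      have e1 : (d : ℤ) + (-(((j' + 1 : ℕ) : ℤ) * d) + j' * d) = 0 := by push_cast; ring
      have e2 : (fun S => m S + (-(((j' + 1 : ℕ) : ℤ) * m S) + j' * m S)) =
          fun _ : Finset (Fin k) => (0 : ℤ) := by
        funext S; push_cast; ring
      rw [e1, e2] at h1
      exact h1
    · have h1 : VO L (-((j : ℤ) * d)) (fun S => -((j : ℤ) * m S)) {c'} y0 h := by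
        cases c' with
        | line i =>
          have hbi : 1 ≤ b i := by
            have h2 : (0 : ℚ) < b i := by
              rw [hb i]
              exact mul_pos hjQ (hl i rfl)
            exact_mod_cast h2
          set b' : Fin k → ℕ := fun l => if l = i then b l - 1 else b l with hb'
          have hsum : ∀ S : Finset (Fin k), ∑ l ∈ S, (b' l : ℤ) =
              ∑ l ∈ S, (b l : ℤ) - (if i ∈ S then 1 else 0) := by
            intro S
            have e1 : ∀ l, (b' l : ℤ) = b l - (if l = i then 1 else 0) := by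
              intro l
              by_cases hli : l = i
              · subst hli
                simp only [hb', if_true]
                push_cast [hbi]
                ring
              · simp only [hb', if_neg hli]
                ring
            rw [Finset.sum_congr rfl fun l _ => e1 l, Finset.sum_sub_distrib,
              Finset.sum_ite_eq']
          have h2 := sect_prod (L := L) (m := fun S => (j : ℤ) * m S - (if i ∈ S then 1 else 0)) b'
            (fun S => by
              rw [hsum]
              have := hbm S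
              linarith) y0
          have hprod : ∏ l, fl (L l) ^ b' l = h / fl (L i) := by
            have hL := fl_ne_zero (r2_L_ne hC i)
            rw [eq_div_iff hL, hh, ← Finset.mul_prod_erase Finset.univ (fun l => fl (L l) ^ b' l)
              (Finset.mem_univ i), ← Finset.mul_prod_erase Finset.univ (fun l => fl (L l) ^ b l)
              (Finset.mem_univ i)]
            have e1 : ∏ l ∈ Finset.univ.erase i, fl (L l) ^ b' l =
                ∏ l ∈ Finset.univ.erase i, fl (L l) ^ b l := by
              refine Finset.prod_congr rfl fun l hl' => ?_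
              have : l ≠ i := Finset.ne_of_mem_erase hl'
              simp only [hb', if_neg this]
            rw [e1]
            have e2 : fl (L i) ^ b i = fl (L i) ^ b' i * fl (L i) := by
              rw [← pow_succ]
              congr 1
              simp only [hb', if_true]
              omega
            rw [e2]
            ring
          rw [hprod, hsum Finset.univ, if_pos (Finset.mem_univ i), hbd] at h2
          unfold VO
          simp only [Finset.sum_singleton, Finset.prod_singleton]
          change Sect L (-((j : ℤ) * d) + 1)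
            (fun S => -((j : ℤ) * m S) + (if i ∈ S then 1 else 0)) y0 (h / fl (L i))
          refine r2_sect_congr (by ring) (fun S => by ring) h2
        | pt S0 =>
          have hlt : (j : ℤ) * m S0 < ∑ i ∈ S0, (b i : ℤ) := by
            have h2 : (((j : ℤ) * m S0 : ℤ) : ℚ) < ((∑ i ∈ S0, (b i : ℤ) : ℤ) : ℚ) := by
              rw [hbS]
              push_cast
              exact mul_lt_mul_of_pos_left (hp S0 rfl) hjQ
            exact_mod_cast h2
          have h2 := sect_prod (L := L) (m := fun S => (j : ℤ) * m S + (if S = S0 then 1 else 0)) b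
            (fun S => by
              split_ifs with hS
              · subst hS
                omega
              · have := hbm S
                linarith) y0
          rw [hbd] at h2
          unfold VO
          simp only [Finset.sum_singleton, Finset.prod_singleton]
          change Sect L (-((j : ℤ) * d) + 0)
            (fun S => -((j : ℤ) * m S) + (if S = S0 then -1 else 0)) y0 (h / 1)
          rw [div_one]
          refine r2_sect_congr (by ring) (fun S => ?_) h2
          split_ifs <;> ring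
      have h2 := sectV_mul (sectV_of_vo hC hon h1) ((hf y0).pow j)
      have e1 : -((j : ℤ) * d) + j * d = 0 := by ring
      have e2 : (fun S => -((j : ℤ) * m S) + j * m S) = fun _ : Finset (Fin k) => (0 : ℤ) := by
        funext S; ring
      rw [e1, e2] at h2
      exact h2
  have hκ0 : κ = 0 := by
    have h1 := sectV_zero_iff.1 (sectV_of_vo hC hy0 (hκ y0))
    have h2 := (Val.const (L := L) (y := y0) κ).add h1
    rw [add_sub_cancel, add_zero] at h2
    exact h2.unique hval
  -- conclusion
  intro y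
  by_cases hy : OnC L y c
  · refine vo_of_pow hC hj (hf y) (hhS y) ?_ ?_
    · have h1 := not_vo_prod hC b c (fun i hi => by
        have h2 : (b i : ℚ) = 0 := by rw [hb i, hc i hi, mul_zero]
        exact_mod_cast h2) hy (m := fun S => (j : ℤ) * m S) (fun S hS => by
          have h2 : (((j : ℤ) * m S : ℤ) : ℚ) = ((∑ i ∈ S, (b i : ℤ) : ℤ) : ℚ) := by
            rw [hbS, ← hc' S hS]
            push_cast
            rfl
          exact_mod_cast h2)
      rwa [hbd] at h1
    · have h1 := hκ y
      rw [hκ0, map_zero, sub_zero] at h1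
      refine r2_vo_congr (by ring) (fun S => by ring) h1
  · exact (vo_off hC hy).2 (hf y)

end HKR
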