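import Pool.Agent.Lib.HKR.RDefs
import Pool.Agent.Lib.HKR.R2
import Pool.Agent.Lib.HKR.T1
/-!
HKR.R3 (tangential pairs vanish).  Notation of `restrict`.  G y ∈ T(-M)_y for all y; (a,b) tangential to c;
cij (G y) a b LC modulo O(-M-c).  Then VO {c} y (cij (G y) a b) for all y.
PROOF.  a = b: cij = 0.  If no point is on c (c = pt S, no multiple point q ≠ 0 with SS L q = S): vo_off.
restrict with (v1) at the following y0.
 c = line i (a, b ≠ i): c2_third gives e ≠ i with det3 (L i)(L e)(L a) ≠ 0 ≠ det3 (L i)(L e)(L b).  q0 ≠ 0 := common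
 point of L i, L e; y0 := (q0, w) with L i ⬝ w = 0, w independent of q0: OnC.  L a ⬝ q0 ≠ 0.  L a = x L i + x' L e + x'' L b
 (L i, L e, L b independent), so by cij_rel (s = b):  ℓa c_ab = x ℓi c_ib + x' ℓe c_eb.  ℓi/ℓa and ℓe/ℓa have value 0 at y0
 (Val.ratio), c_ib, c_eb ∈ O(-M): so c_ab is SectV at y0.
 c = pt S: a, b ∈ S, q0 with SS L q0 = S multiple: a third line e ∈ S; y0 := (q0, w), L e ⬝ w = 0.  L a ⬝ w ≠ 0.
 L a = x L e + x' L b, so ℓa c_ab = x ℓe c_eb, and ℓe/ℓa has value 0 at y0 (Val.ratio_mult).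
-/
open MvPolynomial
namespace HKR
variable {k : ℕ} {L : Fin k → Fin 3 → ℂ}

private theorem r3_det (a b c : Fin 3 → ℂ) : det3 a b c = a ⬝ᵥ crossProduct b c :=
  (triple_product_eq_det a b c).symm

private theorem r3_det1 (a b c : Fin 3 → ℂ) : c ⬝ᵥ crossProduct a b = det3 a b c := by
  rw [r3_det, triple_product_permutation, triple_product_permutation]

private theorem r3_det2 (a b c : Fin 3 → ℂ) : b ⬝ᵥ crossProduct a c = -det3 a b c := by
  rw [r3_det]
  simp only [cross_apply, dotProduct, Fin.sum_univ_three, Matrix.cons_val_zero,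
    Matrix.cons_val_one, Matrix.cons_val]
  ring

/-- Cramer's rule -/
private theorem r3_cramer (x y z v : Fin 3 → ℂ) :
    det3 x y z • v + (-det3 v y z) • x + (-det3 x v z) • y + (-det3 x y v) • z = 0 := by
  funext j
  simp only [det3, Matrix.det_fin_three, Pi.add_apply, Pi.smul_apply, smul_eq_mul, Pi.zero_apply,
    Matrix.of_apply, Matrix.cons_val', Matrix.cons_val_zero, Matrix.cons_val_one,
    Matrix.cons_val]
  fin_cases j <;> simp <;> ring

private theorem r3_fl {l q : Fin 3 → ℂ} (h : l ⬝ᵥ q ≠ 0) : fl l ≠ 0 :=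
  fl_ne_zero (fun h0 => h (by rw [h0, zero_dotProduct]))

private theorem r3_vo_zero {d : ℤ} {m : Finset (Fin k) → ℤ} {Y : Finset (Comp k)} {y : Pt} :
    VO L d m Y y 0 := by
  unfold VO
  rw [zero_div]
  exact Sect.zero

/-- the relation solved for `c_ab` -/
private theorem r3_rel (hC : Config L) (G : Derivation ℂ Fn Fn) {a b i e : Fin k} {α x x' x'' : ℂ}
    (hrel : α • L a + x • L i + x' • L e + x'' • L b = 0) (hα : α ≠ 0) (ha : fl (L a) ≠ 0) :
    cij L G a b = algebraMap ℂ Fn (-x / α) * (fl (L i) / fl (L a)) * cij L G i b +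
      algebraMap ℂ Fn (-x' / α) * (fl (L e) / fl (L a)) * cij L G e b := by
  have h1 := cij_rel hC G hrel
  have hα' : algebraMap ℂ Fn α ≠ 0 := fun h =>
    hα ((algebraMap ℂ Fn).injective (by rw [h, map_zero]))
  rw [map_div₀, map_div₀, map_neg, map_neg]
  field_simp
  linear_combination h1

private theorem r3_sect (hC : Config L) {d : ℤ} {m : Finset (Fin k) → ℤ}
    {G : Derivation ℂ Fn Fn} {y : Pt} (hT : TCond L d m y G) (i b : Fin k) :
    Sect L d m y (cij L G i b) := by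
  by_cases h : i = b
  · subst h
    rw [cij_self hC]
    exact Sect.zero
  · exact hT i b h

/-- a ratio of value zero times a section -/
private theorem r3_sectV {d : ℤ} {m : Finset (Fin k) → ℤ} {y : Pt} {f g : Fn} (x : ℂ)
    (hf : Val L y f 0) (hg : Sect L d m y g) : SectV L d m y (algebraMap ℂ Fn x * f * g) := by
  have h1 : Val L y (algebraMap ℂ Fn x * f) 0 := by
    have h := Val.mul (Val.const (L := L) (y := y) x) hf
    rwa [mul_zero] at h
  have h2 := sectV_mul (sectV_zero_iff.2 h1) hg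
  have e1 : (0 : ℤ) + d = d := zero_add d
  have e2 : (fun S => (0 : ℤ) + m S) = m := funext fun S => zero_add (m S)
  rw [e1] at h2
  exact e2 ▸ h2

private theorem r3_point {q w l : Fin 3 → ℂ} (h1 : l ⬝ᵥ q ≠ 0) (h2 : l ⬝ᵥ w = 0)
    (h3 : w ≠ 0) : LinearIndependent ℂ ![q, w] := by
  rw [LinearIndependent.pair_iff]
  intro s t hst
  have h4 : l ⬝ᵥ (s • q + t • w) = 0 := by rw [hst, dotProduct_zero]
  rw [dotProduct_add, dotProduct_smul, dotProduct_smul, h2, smul_zero, add_zero, smul_eq_mul] at h4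
  have hs : s = 0 := (mul_eq_zero.1 h4).resolve_right h1
  refine ⟨hs, ?_⟩
  rw [hs, zero_smul, zero_add] at hst
  exact (smul_eq_zero.1 hst).resolve_right h3

private theorem r3_det_ne {x y z q : Fin 3 → ℂ} (hxy : LinearIndependent ℂ ![x, y])
    (hx : x ⬝ᵥ q = 0) (hy : y ⬝ᵥ q = 0) (hz : z ⬝ᵥ q ≠ 0) : det3 x y z ≠ 0 := by
  intro h
  obtain ⟨c, hc, hc0⟩ := Matrix.exists_vecMul_eq_zero_iff.2 h
  have h1 : c 0 • x + c 1 • y + c 2 • z = 0 := by
    rw [← hc0]
    funext j
    simp [Matrix.vecMul, dotProduct, Fin.sum_univ_three]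
  have h2 := congrArg (fun v => v ⬝ᵥ q) h1
  simp only [add_dotProduct, smul_dotProduct, zero_dotProduct, hx, hy, smul_eq_mul,
    mul_zero, zero_add] at h2
  have h3 : c 2 = 0 := (mul_eq_zero.1 h2).resolve_right hz
  rw [h3, zero_smul, add_zero] at h1
  rw [LinearIndependent.pair_iff] at hxy
  obtain ⟨h4, h5⟩ := hxy _ _ h1
  apply hc
  funext j
  fin_cases j
  · exact h4
  · exact h5
  · exact h3

/-- the ratio of a line through the point by one off the point vanishes along `E_q` -/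
private theorem r3_vo_ratio {y : Pt} {i a : Fin k}
    (hi : L i ⬝ᵥ y.q = 0) (ha : L a ⬝ᵥ y.q ≠ 0) :
    VO L 0 (fun _ => 0) {Comp.pt (SS L y.q)} y (fl (L i) / fl (L a)) := by
  have h1 := (sect_line (L := L) (y := y) i).mul (sect_inv (L := L) ha)
  have hmem : i ∈ SS L y.q := by
    rw [SS]
    simpa using hi
  unfold VO
  rw [Finset.sum_singleton, Finset.prod_singleton]
  show Sect L (0 + 0) _ y (fl (L i) / fl (L a) / 1)
  rw [div_one, add_zero, div_eq_mul_inv]
  have h2 : Sect L 0 (fun S => (if i ∈ S then -1 else 0) + 0) y (fl (L i) * (fl (L a))⁻¹) := h1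
  refine h2.congr_m (fun _ => ?_)
  rw [Finset.sum_singleton]
  simp [mc, hmem]

private theorem r3_vo_mul {d : ℤ} {m : Finset (Fin k) → ℤ} {Y : Finset (Comp k)} {y : Pt}
    {f g : Fn} (x : ℂ) (hf : VO L 0 (fun _ => 0) Y y f) (hg : Sect L d m y g) :
    VO L d m Y y (algebraMap ℂ Fn x * f * g) := by
  have h2 := vo_mul hf (hg.smul x)
  have e1 : (0 : ℤ) + d = d := zero_add d
  have e2 : (fun S => (0 : ℤ) + m S) = m := funext fun S => zero_add (m S)
  rw [e1] at h2
  rw [show algebraMap ℂ Fn x * f * g = f * (algebraMap ℂ Fn x * g) by ring]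
  exact e2 ▸ h2

theorem tangential (hk : 6 ≤ k) (hC : Config L) (hR : AffRigid L) (β : Fin k → ℚ)
    (h0 : ∀ i, 0 ≤ β i) (d : ℕ) (hd : ∑ i, β i = d) (m : Finset (Fin k) → ℤ)
    (hm : ∀ S, (m S : ℚ) ≤ ∑ i ∈ S, β i) (c : Comp k) (hc : ∀ i, c = Comp.line i → β i = 0)
    (hc' : ∀ S, c = Comp.pt S → (m S : ℚ) = ∑ i ∈ S, β i) (G : Pt → Derivation ℂ Fn Fn)
    (hT : ∀ y, TCond L d m y (G y)) {a b : Fin k} (hab : Tang a b c)
    (hLC : LC L (VO L d m {c}) (fun y => cij L (G y) a b)) :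
    ∀ y, VO L d m {c} y (cij L (G y) a b) := by
  by_cases hne : a = b
  · subst hne
    intro y
    rw [cij_self hC]
    exact r3_vo_zero
  have hf : ∀ y, Sect L d m y (cij L (G y) a b) := fun y => hT y a b hne
  rcases c with i | S
  · -- a line
    obtain ⟨hai, hbi⟩ : a ≠ i ∧ b ≠ i := hab
    obtain ⟨e, hei, hd1, hd2⟩ := c2_third hk hC hR i a b hai hbi
    have hq : L a ⬝ᵥ crossProduct (L i) (L e) ≠ 0 := by
      rw [r3_det1]
      exact hd1
    have hw : crossProduct (L i) (L a) ≠ 0 := by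
      intro h
      apply hd1
      rw [← neg_neg (det3 (L i) (L e) (L a)), ← r3_det2, h, dotProduct_zero, neg_zero]
    have haw : L a ⬝ᵥ crossProduct (L i) (L a) = 0 := dot_cross_self _ _
    have hiq : L i ⬝ᵥ crossProduct (L i) (L e) = 0 := dot_self_cross _ _
    have hiw : L i ⬝ᵥ crossProduct (L i) (L a) = 0 := dot_self_cross _ _
    have heq : L e ⬝ᵥ crossProduct (L i) (L e) = 0 := dot_cross_self _ _
    let y0 : Pt := ⟨crossProduct (L i) (L e), crossProduct (L i) (L a),
      r3_point hq haw hw⟩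
    refine restrict hk hC hR β h0 d hd m hm _ hc hc' _ hf hLC y0 ⟨hiq, fun _ => hiw⟩ (Or.inl ?_)
    have hrel := r3_cramer (L i) (L e) (L b) (L a)
    show SectV L d m y0 (cij L (G y0) a b)
    rw [r3_rel hC (G y0) hrel hd2 (r3_fl hq)]
    have v1 : Val L y0 (fl (L i) / fl (L a)) 0 := by
      have h := Val.ratio (L := L) (y := y0) (l := L i) (l' := L a) hq
      rwa [show L i ⬝ᵥ y0.q = 0 from hiq, zero_div] at h
    have v2 : Val L y0 (fl (L e) / fl (L a)) 0 := by
      have h := Val.ratio (L := L) (y := y0) (l := L e) (l' := L a) hq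
      rwa [show L e ⬝ᵥ y0.q = 0 from heq, zero_div] at h
    exact sectV_add (r3_sectV _ v1 (r3_sect hC (hT y0) i b))
      (r3_sectV _ v2 (r3_sect hC (hT y0) e b))
  · -- an exceptional curve
    obtain ⟨haS, hbS⟩ : a ∈ S ∧ b ∈ S := hab
    by_cases hon : ∃ y1, OnC L y1 (Comp.pt S)
    · obtain ⟨y1, hy1, hS⟩ := hon
      have hmem : ∀ j, j ∈ S ↔ L j ⬝ᵥ y1.q = 0 := by
        intro j
        rw [← hS, SS]
        simp
      have haq := (hmem a).1 haS
      have hbq := (hmem b).1 hbS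
      have hq0 : y1.q ≠ 0 := by
        have h := y1.ind.ne_zero 0
        simpa using h
      obtain ⟨e, heq, hea, heb⟩ : ∃ e, L e ⬝ᵥ y1.q = 0 ∧ e ≠ a ∧ e ≠ b := by
        obtain ⟨u, v, t, huv, hut, hvt, hu, hv, ht⟩ := hy1
        by_cases h1 : u ≠ a ∧ u ≠ b
        · exact ⟨u, hu, h1⟩
        by_cases h2 : v ≠ a ∧ v ≠ b
        · exact ⟨v, hv, h2⟩
        refine ⟨t, ht, ?_, ?_⟩
        · rintro rfl
          apply h2
          refine ⟨hvt, ?_⟩
          rintro rfl
          exact h1 ⟨hut, huv⟩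
        · rintro rfl
          apply h2
          refine ⟨?_, hvt⟩
          rintro rfl
          exact h1 ⟨huv, hut⟩
      obtain ⟨j, hj⟩ : ∃ j, L j ⬝ᵥ y1.q ≠ 0 := by
        by_contra hcon
        push Not at hcon
        exact hq0 (hC.nonconc _ hcon)
      have hdet : ∀ u v : Fin k, u ≠ v → L u ⬝ᵥ y1.q = 0 → L v ⬝ᵥ y1.q = 0 →
          det3 (L u) (L v) (L j) ≠ 0 := fun u v huv hu hv =>
        r3_det_ne (hC.ind u v huv) hu hv hj
      have haw : L a ⬝ᵥ crossProduct (L e) (L j) ≠ 0 := by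
        rw [← r3_det]
        exact hdet a e (Ne.symm hea) haq heq
      have hw : crossProduct (L e) (L j) ≠ 0 := by
        intro h
        exact haw (by rw [h, dotProduct_zero])
      have hew : L e ⬝ᵥ crossProduct (L e) (L j) = 0 := dot_self_cross _ _
      have hjw : L j ⬝ᵥ crossProduct (L e) (L j) = 0 := dot_cross_self _ _
      let y0 : Pt := ⟨y1.q, crossProduct (L e) (L j), r3_point hj hjw hw⟩
      refine restrict hk hC hR β h0 d hd m hm _ hc hc' _ hf hLC y0 ⟨hy1, hS⟩ (Or.inl ?_)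
      have hcr := r3_cramer (L e) (L b) (L j) (L a)
      have hz : det3 (L e) (L b) (L a) = 0 := by
        have h1 := congrArg (fun v => v ⬝ᵥ y1.q) hcr
        simp only [add_dotProduct, smul_dotProduct, zero_dotProduct, heq, haq, hbq, smul_eq_mul,
          mul_zero, zero_add] at h1
        exact neg_eq_zero.1 ((mul_eq_zero.1 h1).resolve_right hj)
      have hrel : det3 (L e) (L b) (L j) • L a + (-det3 (L a) (L b) (L j)) • L e +
          (0 : ℂ) • L e + (-det3 (L e) (L a) (L j)) • L b = 0 := by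
        rw [hz, neg_zero, zero_smul, add_zero] at hcr
        rw [zero_smul, add_zero]
        exact hcr
      show SectV L d m y0 (cij L (G y0) a b)
      rw [r3_rel hC (G y0) hrel (hdet e b heb heq hbq) (r3_fl haw)]
      have v1 : Val L y0 (fl (L e) / fl (L a)) 0 := by
        have h := Val.ratio_mult (L := L) (y := y0) (l := L e) (l' := L a) hy1 heq haq haw
        rwa [show L e ⬝ᵥ y0.w = 0 from hew, zero_div] at h
      exact sectV_add (r3_sectV _ v1 (r3_sect hC (hT y0) e b))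
        (r3_sectV _ v1 (r3_sect hC (hT y0) e b))
    · push Not at hon
      intro y
      exact (vo_off hC (hon y)).2 (hf y)

/-- two lines off the point `q`: `c_ab` vanishes along `E_q` automatically -/
theorem off_point (hC : Config L) {d : ℤ} {m : Finset (Fin k) → ℤ} {G : Derivation ℂ Fn Fn} {y : Pt}
    (hT : TCond L d m y G) {S : Finset (Fin k)} {a b : Fin k} (ha : a ∉ S) (hb : b ∉ S) :
    VO L d m {Comp.pt S} y (cij L G a b) := by
  by_cases hon : OnC L y (Comp.pt S)
  · obtain ⟨hm, hS⟩ : Multiple L y.q ∧ SS L y.q = S := hon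
    have hmem : ∀ j, j ∈ S ↔ L j ⬝ᵥ y.q = 0 := by
      intro j
      rw [← hS, SS]
      simp
    obtain ⟨u, v, t, huv, hut, hvt, hu, hv, ht⟩ := id hm
    have haq : L a ⬝ᵥ y.q ≠ 0 := fun h => ha ((hmem a).2 h)
    have hbq : L b ⬝ᵥ y.q ≠ 0 := fun h => hb ((hmem b).2 h)
    have hrel := r3_cramer (L u) (L v) (L b) (L a)
    rw [r3_rel hC G hrel (r3_det_ne (hC.ind u v huv) hu hv hbq) (r3_fl haq)]
    have v1 := r3_vo_ratio hu haq
    have v2 := r3_vo_ratio hv haq
    rw [hS] at v1 v2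
    exact vo_add (r3_vo_mul _ v1 (r3_sect hC hT u b)) (r3_vo_mul _ v2 (r3_sect hC hT v b))
  · exact (vo_off hC hon).2 (r3_sect hC hT a b)

end HKR
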