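import Pool.Agent.Lib.HKR.VDefs

/-!
HKR, part R (boundary).  Definitions, by helper90.
-/

open MvPolynomial

namespace HKR

/-- a rational limit weight for the character `a` modulo `n` -/
structure AlphaOK {k : ℕ} (n : ℕ) (a : Fin k → ℕ) (α : Fin k → ℚ) : Prop where
  lt : ∀ i, a i < n
  dvd : n ∣ ∑ i, a i
  nonneg : ∀ i, 0 ≤ α i
  le_one : ∀ i, α i ≤ 1
  sum : ∑ i, α i = ((∑ i, a i) / n : ℕ)
  low : ∀ S : Finset (Fin k), (((∑ i ∈ S, a i) / n : ℕ) : ℚ) ≤ ∑ i ∈ S, α i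
  high : ∀ S : Finset (Fin k), ∑ i ∈ S, α i ≤ (((∑ i ∈ S, a i) / n : ℕ) : ℚ) + 1
  line : ∀ i, a i + 1 = n → α i = 1
  pt : ∀ S : Finset (Fin k), (∑ i ∈ S, a i) % n + 1 = n →
    ∑ i ∈ S, α i = (((∑ i ∈ S, a i) / n : ℕ) : ℚ) + 1

/-- the component has limit exponent 1 -/
def InX {k : ℕ} (n : ℕ) (a : Fin k → ℕ) (α : Fin k → ℚ) : Comp k → Prop
  | Comp.line i => α i = 1
  | Comp.pt S => ∑ i ∈ S, α i = (((∑ i ∈ S, a i) / n : ℕ) : ℚ) + 1

/-- the component has exponent `n - 1` -/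
def InB {k : ℕ} (n : ℕ) (a : Fin k → ℕ) : Comp k → Prop
  | Comp.line i => a i + 1 = n
  | Comp.pt S => (∑ i ∈ S, a i) % n + 1 = n

/-- the pair `(i,j)` is tangential to the component -/
def Tang {k : ℕ} (i j : Fin k) : Comp k → Prop
  | Comp.line l => i ≠ l ∧ j ≠ l
  | Comp.pt S => i ∈ S ∧ j ∈ S

open Classical in
/-- the set of all components -/
noncomputable def allC (k : ℕ) : Finset (Comp k) :=
  Finset.univ.image Comp.line ∪ Finset.univ.image Comp.pt

open Classical in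
/-- the components of `X` along which `c_ij` must vanish -/
noncomputable def XX {k : ℕ} (n : ℕ) (a : Fin k → ℕ) (α : Fin k → ℚ) (i j : Fin k) :
    Finset (Comp k) :=
  (allC k).filter (fun c => InX n a α c ∧ (InB n a c → Tang i j c))

/-- the weights of `M` -/
noncomputable def bet {k : ℕ} (α : Fin k → ℚ) (i : Fin k) : ℚ := if α i = 1 then 0 else α i

open Classical in
/-- the degree of `M` -/
noncomputable def dM {k : ℕ} (n : ℕ) (a : Fin k → ℕ) (α : Fin k → ℚ) : ℕ :=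
  (∑ i, a i) / n - (Finset.univ.filter (fun i => α i = 1)).card

/-- the multiplicities of `M` -/
noncomputable def mM {k : ℕ} (α : Fin k → ℚ) (S : Finset (Fin k)) : ℤ := ⌊∑ i ∈ S, bet α i⌋

open Classical in
/-- the product of the lines of `X` -/
noncomputable def Lam {k : ℕ} (L : Fin k → Fin 3 → ℂ) (α : Fin k → ℚ) : Fn :=
  ∏ i ∈ Finset.univ.filter (fun i => α i = 1), fl (L i)

end HKR
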