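import Pool.Agent.Lib.HKR.T1
import Pool.Agent.Lib.HKR.B3
/-!
HKR.T2 (pencil).  p multiple, i, j, l distinct lines through p, a L i + b L j + c L l = 0 (a, b, c ≠ 0).  For a
derivation D put ε(D) := cij D i l / (b ℓj).  By cij_rel (s = l): a ℓi c_il + b ℓj c_jl = 0, so
  c_il = b ℓj ε, c_jl = -a ℓi ε, c_ij = c_il - c_jl = (a ℓi + b ℓj) ε = -c ℓl ε.
(1) TCond L d m y D implies Sect (d+1) (m + [S = SS L p]) y (ε(D)):  if y.q is not proportional to p: at most
  one of ℓi, ℓj, ℓl vanishes at y.q; take one that does not, e.g. ℓl: ε = -c_ij/(c ℓl), sect_inv (and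
  congr_m: m + [S = SS L p] and m + 0 agree at S = SS L y.q ≠ SS L p when y.q is multiple).  If y.q ∥ p: at
  most one vanishes in the direction y.w; take one that does not, sect_inv_mult.
(2) So ε(D y) is LC for Sect (d+1) (m + [..]) (ε is additive); hcous gives ε0.
(3) Multiply by ℓj etc. (sect_through): Sect d m y (c_il(D y) - b ℓj ε0) and the other two.
-/
open MvPolynomial
namespace HKR
variable {k : ℕ} {L : Fin k → Fin 3 → ℂ}

private theorem par {u v p q : Fin 3 → ℂ} (h : LinearIndependent ℂ ![u, v]) (hp : p ≠ 0)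
    (h1 : u ⬝ᵥ p = 0) (h2 : v ⬝ᵥ p = 0) (h3 : u ⬝ᵥ q = 0) (h4 : v ⬝ᵥ q = 0) :
    ∃ c : ℂ, q = c • p := by
  have hc : crossProduct u v ≠ 0 := crossProduct_ne_zero_iff_linearIndependent.2 h
  obtain ⟨j, hj⟩ := Function.ne_iff.1 hc
  have key : ∀ x : Fin 3 → ℂ, u ⬝ᵥ x = 0 → v ⬝ᵥ x = 0 →
      ∀ i, x i * (crossProduct u v) j = x j * (crossProduct u v) i := by
    intro x hx hy i
    have h0 : crossProduct x (crossProduct u v) = 0 := by
      rw [cross_cross_eq_smul_sub_smul', hx, dotProduct_comm x v, hy, zero_smul, zero_smul,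
        sub_zero]
    generalize crossProduct u v = c at h0 ⊢
    rw [cross_apply] at h0
    have e0 := congrFun h0 0
    have e1 := congrFun h0 1
    have e2 := congrFun h0 2
    simp only [Matrix.cons_val_zero, Matrix.cons_val_one, Matrix.cons_val, Pi.zero_apply] at e0 e1 e2
    fin_cases i <;> fin_cases j <;> simp only [Fin.zero_eta, Fin.mk_one, Fin.reduceFinMk] <;>
      first
      | rfl
      | linear_combination e0
      | linear_combination e1
      | linear_combination e2
      | linear_combination -e0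
      | linear_combination -e1
      | linear_combination -e2
  have kp := key p h1 h2
  have kq := key q h3 h4
  simp only [Pi.zero_apply] at hj
  have hpj : p j ≠ 0 := by
    intro h0
    apply hp
    funext i
    have := kp i
    rw [h0, zero_mul] at this
    exact (mul_eq_zero.1 this).resolve_right hj
  refine ⟨q j / p j, ?_⟩
  funext i
  have a := kp i
  have b := kq i
  rw [Pi.smul_apply, smul_eq_mul]
  have c : q i * p j = q j * p i := by
    have : (q i * p j - q j * p i) * (crossProduct u v) j = 0 := by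
      linear_combination p j * b - q j * a
    exact sub_eq_zero.1 ((mul_eq_zero.1 this).resolve_right hj)
  field_simp
  linear_combination c

private theorem li_ne (hC : Config L) {i j : Fin k} (hij : i ≠ j) : L i ≠ 0 := by
  have h := (hC.ind i j hij).ne_zero 0
  simpa using h

private noncomputable def eps (L : Fin k → Fin 3 → ℂ) (i j l : Fin k) (b : ℂ)
    (D : Derivation ℂ Fn Fn) : Fn :=
  cij L D i l / (algebraMap ℂ Fn b * fl (L j))

private theorem am_ne {b : ℂ} (hb : b ≠ 0) : algebraMap ℂ Fn b ≠ 0 := by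
  rw [Ne, map_eq_zero_iff _ (algebraMap ℂ Fn).injective]
  exact hb

private theorem am_inv (b : ℂ) : algebraMap ℂ Fn b⁻¹ = (algebraMap ℂ Fn b)⁻¹ :=
  map_inv₀ (algebraMap ℂ Fn) b

private theorem fl_rel {i j l : Fin k} {a b c : ℂ} (hrel : a • L i + b • L j + c • L l = 0) :
    algebraMap ℂ Fn a * fl (L i) + algebraMap ℂ Fn b * fl (L j) +
      algebraMap ℂ Fn c * fl (L l) = 0 := by
  have h : fl (a • L i + b • L j + c • L l) = fl ((0 : ℂ) • L i) := by
    rw [hrel, zero_smul]
  rw [fl_add, fl_add, fl_smul, fl_smul, fl_smul, fl_smul, map_zero, zero_mul] at h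
  exact h

private theorem eps_rel (hC : Config L) {i j l : Fin k} (hjl : j ≠ l)
    (D : Derivation ℂ Fn Fn) {a b c : ℂ} (hrel : a • L i + b • L j + c • L l = 0)
    (hb : b ≠ 0) :
    cij L D i l = algebraMap ℂ Fn b * fl (L j) * eps L i j l b D ∧
    cij L D j l = -(algebraMap ℂ Fn a * fl (L i) * eps L i j l b D) ∧
    cij L D i j = -(algebraMap ℂ Fn c * fl (L l) * eps L i j l b D) := by
  have hfj : fl (L j) ≠ 0 := fl_ne_zero (li_ne hC hjl)
  have hβ := am_ne hb
  have e1 : cij L D i l = algebraMap ℂ Fn b * fl (L j) * eps L i j l b D := by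
    unfold eps
    field_simp
  have e0 := cij_rel hC D (s := l) (e := 0) (i := i) (j := j) (l := l) (a := a) (b := b) (c := c)
    (by rw [zero_smul, add_zero, hrel])
  rw [cij_self hC, mul_zero, add_zero] at e0
  have e2 : cij L D j l = -(algebraMap ℂ Fn a * fl (L i) * eps L i j l b D) := by
    have h : algebraMap ℂ Fn b * fl (L j) *
        (cij L D j l + algebraMap ℂ Fn a * fl (L i) * eps L i j l b D) = 0 := by
      linear_combination e0 - algebraMap ℂ Fn a * fl (L i) * e1
    have h' := (mul_eq_zero.1 h).resolve_left (mul_ne_zero hβ hfj)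
    exact eq_neg_of_add_eq_zero_left h'
  refine ⟨e1, e2, ?_⟩
  have e3 := cij_trans hC D i j l
  have e4 := fl_rel hrel
  linear_combination e3 + e1 - e2 + eps L i j l b D * e4

open Classical in
private theorem eps_sect (hC : Config L) {d : ℤ} {m : Finset (Fin k) → ℤ} {p : Fin 3 → ℂ}
    (hp0 : p ≠ 0) {i j l : Fin k} (hij : i ≠ j) (hil : i ≠ l) (hjl : j ≠ l) (hi : L i ⬝ᵥ p = 0)
    (hj : L j ⬝ᵥ p = 0) (hl : L l ⬝ᵥ p = 0) {a b c : ℂ}
    (hrel : a • L i + b • L j + c • L l = 0) (hb : b ≠ 0) (hc : c ≠ 0)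
    {y : Pt} {D : Derivation ℂ Fn Fn} (hD : TCond L d m y D) :
    Sect L (d + 1) (fun S => m S + if S = SS L p then 1 else 0) y (eps L i j l b D) := by
  obtain ⟨e1, e2, e3⟩ := eps_rel hC (i := i) (j := j) (l := l) hjl D hrel hb
  have hfj : fl (L j) ≠ 0 := fl_ne_zero (li_ne hC hjl)
  have hfl : fl (L l) ≠ 0 := fl_ne_zero (li_ne hC hjl.symm)
  have hβ := am_ne hb
  have hγ := am_ne hc
  have r1 : algebraMap ℂ Fn b⁻¹ * (cij L D i l * (fl (L j))⁻¹) = eps L i j l b D := by
    rw [e1, am_inv]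
    field_simp
  have r2 : algebraMap ℂ Fn (-c⁻¹) * (cij L D i j * (fl (L l))⁻¹) = eps L i j l b D := by
    rw [e3, map_neg, am_inv]
    field_simp
  by_cases hq : ∃ t : ℂ, y.q = t • p
  · obtain ⟨t, ht⟩ := hq
    have hq0 : y.q ≠ 0 := by
      have h := y.ind.ne_zero 0
      simpa using h
    have ht0 : t ≠ 0 := by
      rintro rfl
      rw [zero_smul] at ht
      exact hq0 ht
    have hi' : L i ⬝ᵥ y.q = 0 := by rw [ht, dotProduct_smul, hi, smul_zero]
    have hj' : L j ⬝ᵥ y.q = 0 := by rw [ht, dotProduct_smul, hj, smul_zero]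
    have hl' : L l ⬝ᵥ y.q = 0 := by rw [ht, dotProduct_smul, hl, smul_zero]
    have hm : Multiple L y.q := ⟨i, j, l, hij, hil, hjl, hi', hj', hl'⟩
    have hSS : SS L y.q = SS L p := by
      ext x
      unfold SS
      rw [Finset.mem_filter, Finset.mem_filter, ht, dotProduct_smul, smul_eq_mul, mul_eq_zero]
      constructor
      · rintro ⟨h1, h2⟩
        exact ⟨h1, h2.resolve_left ht0⟩
      · rintro ⟨h1, h2⟩
        exact ⟨h1, Or.inr h2⟩
    by_cases hw : L l ⬝ᵥ y.w = 0
    · have hw' : L j ⬝ᵥ y.w ≠ 0 := by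
        intro hw'
        obtain ⟨s, hs⟩ := par (hC.ind j l hjl) hq0 hj' hl' hw' hw
        have := LinearIndependent.pair_iff.1 y.ind s (-1) (by rw [hs]; simp)
        exact one_ne_zero (neg_eq_zero.1 this.2)
      rw [← r1]
      refine Sect.smul ?_ _
      have h := (hD i l hil).mul (sect_inv_mult hm hj' hw')
      rw [hSS] at h
      exact h
    · rw [← r2]
      refine Sect.smul ?_ _
      have h := (hD i j hij).mul (sect_inv_mult hm hl' hw)
      rw [hSS] at h
      exact h
  · have mono : ∀ {f : Fn}, Sect L (d + 1) (fun S => m S + 0) y f →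
        Sect L (d + 1) (fun S => m S + if S = SS L p then 1 else 0) y f := by
      intro f hf
      refine hf.mono fun _ => ?_
      show m (SS L y.q) + 0 ≤ m (SS L y.q) + if SS L y.q = SS L p then 1 else 0
      split_ifs <;> omega
    by_cases hq' : L l ⬝ᵥ y.q = 0
    · have hq'' : L j ⬝ᵥ y.q ≠ 0 := by
        intro hq''
        exact hq (par (hC.ind j l hjl) hp0 hj hl hq'' hq')
      rw [← r1]
      refine Sect.smul ?_ _
      exact mono ((hD i l hil).mul (sect_inv hq''))
    · rw [← r2]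
      refine Sect.smul ?_ _
      exact mono ((hD i j hij).mul (sect_inv hq'))

open Classical in
theorem pencil (hC : Config L) {d : ℤ} {m : Finset (Fin k) → ℤ} {p : Fin 3 → ℂ} (hp0 : p ≠ 0)
    {i j l : Fin k} (hij : i ≠ j) (hil : i ≠ l) (hjl : j ≠ l) (hi : L i ⬝ᵥ p = 0)
    (hj : L j ⬝ᵥ p = 0) (hl : L l ⬝ᵥ p = 0)
    (hcous : ∀ e : Pt → Fn, LC L (Sect L (d + 1) (fun S => m S + if S = SS L p then 1 else 0)) e →
      Glob (Sect L (d + 1) (fun S => m S + if S = SS L p then 1 else 0)) e)
    (D : Pt → Derivation ℂ Fn Fn) (hD : LC L (TCond L d m) D)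
    {a b c : ℂ} (hrel : a • L i + b • L j + c • L l = 0) (ha : a ≠ 0) (hb : b ≠ 0) (hc : c ≠ 0) :
    ∃ ε : Fn, ∀ y : Pt,
      Sect L d m y (cij L (D y) i l - algebraMap ℂ Fn b * fl (L j) * ε) ∧
      Sect L d m y (cij L (D y) j l + algebraMap ℂ Fn a * fl (L i) * ε) ∧
      Sect L d m y (cij L (D y) i j + algebraMap ℂ Fn c * fl (L l) * ε) := by
  classical
  have hLC : LC L (Sect L (d + 1) (fun S => m S + if S = SS L p then 1 else 0))
      (fun y => eps L i j l b (D y)) := by
    intro y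
    obtain ⟨T, hT, hT'⟩ := hD y
    refine ⟨T, hT, fun y' hy' => ?_⟩
    have h := eps_sect hC hp0 hij hil hjl hi hj hl hrel hb hc (hT' y' hy')
    have e : eps L i j l b (D y' - D y) = eps L i j l b (D y') - eps L i j l b (D y) := by
      unfold eps
      rw [cij_sub, sub_div]
    rw [e] at h
    exact h
  obtain ⟨E, hE⟩ := hcous _ hLC
  refine ⟨E, fun y => ?_⟩
  obtain ⟨e1, e2, e3⟩ := eps_rel hC (i := i) (j := j) (l := l) hjl (D y) hrel hb
  have hmp : Multiple L p := ⟨i, j, l, hij, hil, hjl, hi, hj, hl⟩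
  have key : ∀ {v : Fin 3 → ℂ}, v ⬝ᵥ p = 0 →
      Sect L d m y ((eps L i j l b (D y) - E) * fl v) := by
    intro v hv
    have h1 := (hE y).neg
    rw [neg_sub] at h1
    have h2 := h1.mul (sect_through (y := y) hmp hp0 hC hv)
    rw [show d + 1 + -1 = d by ring] at h2
    refine h2.congr_m fun _ => ?_
    show m (SS L y.q) + (if SS L y.q = SS L p then 1 else 0) +
      (if SS L y.q = SS L p then -1 else 0) = m (SS L y.q)
    split_ifs <;> omega
  refine ⟨?_, ?_, ?_⟩
  · have h := (key hj).smul b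
    rw [e1]
    convert h using 1
    ring
  · have h := ((key hi).smul a).neg
    rw [e2]
    convert h using 1
    ring
  · have h := ((key hl).smul c).neg
    rw [e3]
    convert h using 1
    ring

end HKR
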