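import Pool.Agent.Lib.HKR.T2
import Pool.Agent.Lib.HKR.B4
import Pool.Agent.Lib.HKR.C3
/-!
HKR.T3 (all pairs).  d ≥ 1.  hcous: the Cousin theorem for (d+1; m + [S = SS p]) for every multiple p with
m_p < d.  hone: p0 ≠ 0 such that every multiple q not proportional to p0 has m_q < d.
CONCLUSION.  There is u : Fin k → Fin k → Fn with Sect d m y (cij (D y) i j - u i j) for all y, i, j; u is
additive (u i j + u j l = u i l), u i i = 0; and for a multiple q with m_q < d, lines i, j, l through q and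
a L i + b L j + c L l = 0:  a ℓi u_il + b ℓj u_jl = 0.
PROOF.  Relation i ~ j: there is u with Sect d m y (cij (D y) i j - u) for all y.  It is reflexive,
symmetric, transitive (cij_trans).  If i ≠ j pass through a multiple q ≠ 0 with m_q < d, take l a third line
through q and pencil: i ~ j.  If ~ had an equivalence class S ≠ everything, c3 (p := p0) gives i ∈ S, j ∉ S
through a multiple q not ∥ p0: i ~ j, contradiction.  Uniqueness of u: difference of two is a section of
O(-M) everywhere, d > 0: h0_neg.  So additive, u i i = 0.  The relation: for distinct i, j, l with a,b,c ≠ 0 from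
pencil and uniqueness (u_il = b ℓj ε, u_jl = -a ℓi ε); degenerate cases: if i, j, l are distinct and one of
a, b, c is 0 then all are 0 (pairwise independent); if i = j: (a+b) L i + c L l = 0, so a + b = 0 (i ≠ l) fine;
if i = l: then u_il = 0 and b = 0 or j = l.
-/
open MvPolynomial
namespace HKR
variable {k : ℕ} {L : Fin k → Fin 3 → ℂ}

private theorem t3_rel {q a b r : Fin 3 → ℂ} (hq : q ≠ 0) (ha : a ⬝ᵥ q = 0)
    (hb : b ⬝ᵥ q = 0) (hr : r ⬝ᵥ q = 0) (hab : LinearIndependent ℂ ![a, b])
    (har : LinearIndependent ℂ ![a, r]) (hbr : LinearIndependent ℂ ![b, r]) :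
    ∃ x y z : ℂ, x • a + y • b + z • r = 0 ∧ x ≠ 0 ∧ y ≠ 0 ∧ z ≠ 0 := by
  have hdet : (Matrix.of ![a, b, r]).det = 0 := by
    rw [← Matrix.exists_mulVec_eq_zero_iff]
    refine ⟨q, hq, ?_⟩
    ext i
    fin_cases i
    · exact ha
    · exact hb
    · exact hr
  rw [← Matrix.exists_vecMul_eq_zero_iff] at hdet
  obtain ⟨v, hv, hv0⟩ := hdet
  have hsum : v 0 • a + v 1 • b + v 2 • r = 0 := by
    ext i
    have h1 := congrFun hv0 i
    simp only [Matrix.vecMul, dotProduct, Fin.sum_univ_three, Matrix.of_apply, Pi.zero_apply,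
      Matrix.cons_val] at h1
    simpa using h1
  rw [LinearIndependent.pair_iff] at hab har hbr
  have hne : ¬ (v 0 = 0 ∧ v 1 = 0 ∧ v 2 = 0) := by
    rintro ⟨h0, h1, h2⟩
    apply hv
    funext i
    fin_cases i
    · exact h0
    · exact h1
    · exact h2
  refine ⟨v 0, v 1, v 2, hsum, ?_, ?_, ?_⟩
  · intro h0
    rw [h0, zero_smul, zero_add] at hsum
    obtain ⟨h1, h2⟩ := hbr _ _ hsum
    exact hne ⟨h0, h1, h2⟩
  · intro h0
    rw [h0, zero_smul, add_zero] at hsum
    obtain ⟨h1, h2⟩ := har _ _ hsum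
    exact hne ⟨h1, h0, h2⟩
  · intro h0
    rw [h0, zero_smul, add_zero] at hsum
    obtain ⟨h1, h2⟩ := hab _ _ hsum
    exact hne ⟨h1, h2, h0⟩

private theorem t3_third {q : Fin 3 → ℂ} (h : Multiple L q) (i j : Fin k) :
    ∃ l, i ≠ l ∧ j ≠ l ∧ L l ⬝ᵥ q = 0 := by
  obtain ⟨a, b, c, hab, hac, hbc, ha, hb, hc⟩ := h
  by_cases h1 : i ≠ a ∧ j ≠ a
  · exact ⟨a, h1.1, h1.2, ha⟩
  by_cases h2 : i ≠ b ∧ j ≠ b
  · exact ⟨b, h2.1, h2.2, hb⟩
  by_cases h3 : i ≠ c ∧ j ≠ c
  · exact ⟨c, h3.1, h3.2, hc⟩
  exfalso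
  by_cases e1 : i = a <;> by_cases e2 : i = b <;> by_cases e3 : i = c <;>
    by_cases e4 : j = a <;> by_cases e5 : j = b <;> by_cases e6 : j = c <;>
    simp_all

private theorem t3_symm (hC : Config L) (D : Derivation ℂ Fn Fn) (i j : Fin k) :
    cij L D j i = -cij L D i j := by
  have h := cij_trans hC D i j i
  rw [cij_self hC] at h
  linear_combination h

open Classical in
theorem all_pairs (hk : 6 ≤ k) (hC : Config L) (hR : AffRigid L) {d : ℤ} (hd : 0 < d)
    {m : Finset (Fin k) → ℤ}
    (hcous : ∀ p : Fin 3 → ℂ, p ≠ 0 → Multiple L p → m (SS L p) < d → ∀ e : Pt → Fn,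
      LC L (Sect L (d + 1) (fun S => m S + if S = SS L p then 1 else 0)) e →
      Glob (Sect L (d + 1) (fun S => m S + if S = SS L p then 1 else 0)) e)
    {p0 : Fin 3 → ℂ} (hp0 : p0 ≠ 0)
    (hone : ∀ q, Multiple L q → LinearIndependent ℂ ![p0, q] → m (SS L q) < d)
    (D : Pt → Derivation ℂ Fn Fn) (hD : LC L (TCond L d m) D) :
    ∃ u : Fin k → Fin k → Fn, (∀ y i j, Sect L d m y (cij L (D y) i j - u i j)) ∧
      (∀ i j l, u i j + u j l = u i l) ∧
      (∀ q : Fin 3 → ℂ, q ≠ 0 → Multiple L q → m (SS L q) < d → ∀ i j l, L i ⬝ᵥ q = 0 →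
        L j ⬝ᵥ q = 0 → L l ⬝ᵥ q = 0 → ∀ a b c : ℂ, a • L i + b • L j + c • L l = 0 →
        algebraMap ℂ Fn a * fl (L i) * u i l + algebraMap ℂ Fn b * fl (L j) * u j l = 0) := by
  have hind : ∀ i j : Fin k, i ≠ j → ∀ s t : ℂ, s • L i + t • L j = 0 → s = 0 ∧ t = 0 :=
    fun i j hij => LinearIndependent.pair_iff.1 (hC.ind i j hij)
  have huniq : ∀ (i j : Fin k) (v w : Fn), (∀ y, Sect L d m y (cij L (D y) i j - v)) →
      (∀ y, Sect L d m y (cij L (D y) i j - w)) → v = w := by
    intro i j v w hv hw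
    have h : w - v = 0 := by
      apply h0_neg hC hd (m := m)
      intro y _
      have h := (hv y).sub (hw y)
      have e : cij L (D y) i j - v - (cij L (D y) i j - w) = w - v := by ring
      rwa [e] at h
    exact (sub_eq_zero.1 h).symm
  have hpair : ∀ (q : Fin 3 → ℂ), q ≠ 0 → Multiple L q → m (SS L q) < d → ∀ i j, i ≠ j →
      L i ⬝ᵥ q = 0 → L j ⬝ᵥ q = 0 → ∃ u : Fn, ∀ y, Sect L d m y (cij L (D y) i j - u) := by
    intro q hq hm hlt i j hij hi hj
    obtain ⟨l, hil, hjl, hl⟩ := t3_third hm i j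
    obtain ⟨a, b, c, hrel, ha, hb, hc⟩ := t3_rel hq hi hj hl (hC.ind i j hij) (hC.ind i l hil)
      (hC.ind j l hjl)
    obtain ⟨ε, hε⟩ := pencil hC hq hij hil hjl hi hj hl (hcous q hq hm hlt) D hD hrel ha hb hc
    refine ⟨-(algebraMap ℂ Fn c * fl (L l) * ε), fun y => ?_⟩
    rw [sub_neg_eq_add]
    exact (hε y).2.2
  have hk0 : 0 < k := by omega
  set i0 : Fin k := ⟨0, hk0⟩
  have hR0 : ∀ j, ∃ u : Fn, ∀ y, Sect L d m y (cij L (D y) i0 j - u) := by
    by_contra hcon
    push Not at hcon
    obtain ⟨j0, hj0⟩ := hcon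
    obtain ⟨i, hi, j, hj, q, hm, hiq, hjq, hpq⟩ := c3 hk hC hR hp0
      {j | ∃ u : Fn, ∀ y, Sect L d m y (cij L (D y) i0 j - u)}
      ⟨i0, 0, fun y => by rw [cij_self hC, sub_zero]; exact Sect.zero⟩
      ⟨j0, by
        rintro ⟨u, hu⟩
        obtain ⟨y, hy⟩ := hj0 u
        exact hy (hu y)⟩
    have hq : q ≠ 0 := by simpa using hpq.ne_zero 1
    obtain ⟨u, hu⟩ := hi
    have hij : i ≠ j := by
      rintro rfl
      exact hj ⟨u, hu⟩
    obtain ⟨v, hv⟩ := hpair q hq hm (hone q hm hpq) i j hij hiq hjq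
    apply hj
    refine ⟨u + v, fun y => ?_⟩
    have h := (hu y).add (hv y)
    have e : cij L (D y) i0 i - u + (cij L (D y) i j - v) = cij L (D y) i0 j - (u + v) := by
      rw [← cij_trans hC (D y) i0 i j]
      ring
    rwa [e] at h
  choose u0 hu0 using hR0
  have hu : ∀ y i j, Sect L d m y (cij L (D y) i j - (u0 j - u0 i)) := by
    intro y i j
    have h := (hu0 j y).sub (hu0 i y)
    have e : cij L (D y) i0 j - u0 j - (cij L (D y) i0 i - u0 i) =
        cij L (D y) i j - (u0 j - u0 i) := by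
      rw [← cij_trans hC (D y) i0 i j]
      ring
    rwa [e] at h
  refine ⟨fun i j => u0 j - u0 i, hu, fun i j l => by ring, ?_⟩
  intro q hq hm hlt i j l hi hj hl a b c hrel
  simp only
  by_cases hil : i = l
  · subst hil
    by_cases hij : j = i
    · subst hij
      ring
    · have h : (a + c) • L i + b • L j = 0 := by rw [← hrel]; module
      have hb := (hind i j (Ne.symm hij) _ _ h).2
      rw [hb, map_zero]
      ring
  · by_cases hjl : j = l
    · subst hjl
      have h : a • L i + (b + c) • L j = 0 := by rw [← hrel]; module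
      have ha := (hind i j hil _ _ h).1
      rw [ha, map_zero]
      ring
    · by_cases hij : i = j
      · subst hij
        have h : (a + b) • L i + c • L l = 0 := by rw [← hrel]; module
        have hab := (hind i l hil _ _ h).1
        have e : algebraMap ℂ Fn a + algebraMap ℂ Fn b = 0 := by rw [← map_add, hab, map_zero]
        linear_combination fl (L i) * (u0 l - u0 i) * e
      · by_cases ha : a = 0
        · have h : b • L j + c • L l = 0 := by rw [← hrel, ha]; module
          have hb := (hind j l hjl _ _ h).1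
          rw [ha, hb, map_zero]
          ring
        · have hb : b ≠ 0 := by
            intro hb
            have h : a • L i + c • L l = 0 := by rw [← hrel, hb]; module
            exact ha (hind i l hil _ _ h).1
          have hc : c ≠ 0 := by
            intro hc
            have h : a • L i + b • L j = 0 := by rw [← hrel, hc]; module
            exact ha (hind i j hij _ _ h).1
          obtain ⟨ε, hε⟩ := pencil hC hq hij hil hjl hi hj hl (hcous q hq hm hlt) D hD hrel ha
            hb hc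
          have e1 := huniq i l _ _ (fun y => hu y i l) (fun y => (hε y).1)
          have e2 := huniq j l (u0 l - u0 j) (-(algebraMap ℂ Fn a * fl (L i) * ε))
            (fun y => hu y j l) (fun y => by rw [sub_neg_eq_add]; exact (hε y).2.1)
          rw [e1, e2]
          ring

end HKR
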