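import Pool.Agent.Lib.HKR.T1
import Pool.Agent.Lib.HKR.B4
/-!
HKR.T5 (end of the degree 0 case).  i1, i2, s with det3 ≠ 0; u : Fin k → Fn with u s = 0 and
Regular L y (cij (D y) i s - u i) for all y, i.  L i = a_i L i1 + b_i L i2 + c_i L s; suppose
 ℓi u_i - a_i ℓ1 u_1 - b_i ℓ2 u_2 = fl (lam i)   with   lam i = c' i • L i + L i g   for all i.
Then Glob (TCond L 0 0) D.
PROOF.  u'_i := u_i - (c' i - c' s).  For i = i1, i2, s: lam i = 0 (by fl_inj, as a,b are (1,0),(0,1),(0,0) and
u_s = 0), so L i g = -c' i L i for these three, hence L i g = -a_i c'1 L i1 - b_i c'2 L i2 - c_i c's L s, and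
ℓi u'_i - a_i ℓ1 u'_1 - b_i ℓ2 u'_2 = fl of [c'_i L i - a_i c'1 L i1 - b_i c'2 L i2 - c_i c's L s] - (c'_i - c's) L i +
a_i (c'1 - c's) L i1 + b_i (c'2 - c's) L i2 = c's (L i - a_i L i1 - b_i L i2 - c_i L s) = 0.
exists_der: E with cij E i1 s = u'_1, cij E i2 s = u'_2; cij_rel: cij E i s = u'_i for all i.  Then
cij (E - D y) i j = (u'_i - c_is(D y)) - (u'_j - c_js(D y)) regular (constants are regular).
-/
open MvPolynomial
namespace HKR
variable {k : ℕ} {L : Fin k → Fin 3 → ℂ}

private theorem t5_coef {x y z : Fin 3 → ℂ} (h : LinearIndependent ℂ ![x, y, z]) {a b c : ℂ}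
    (e : a • x + b • y + c • z = 0) : a = 0 ∧ b = 0 ∧ c = 0 := by
  rw [Fintype.linearIndependent_iff] at h
  have h1 := h ![a, b, c] (by simpa [Fin.sum_univ_three] using e)
  exact ⟨h1 0, h1 1, h1 2⟩

theorem zero_fin (hC : Config L) {i1 i2 s : Fin k} (hdet : det3 (L i1) (L i2) (L s) ≠ 0)
    (D : Pt → Derivation ℂ Fn Fn) (u : Fin k → Fn) (hs : u s = 0)
    (hu : ∀ y i, Regular L y (cij L (D y) i s - u i)) (a b c : Fin k → ℂ)
    (habc : ∀ i, L i = a i • L i1 + b i • L i2 + c i • L s) (lam : Fin k → Fin 3 → ℂ)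
    (hlam : ∀ i, fl (L i) * u i - algebraMap ℂ Fn (a i) * fl (L i1) * u i1 -
      algebraMap ℂ Fn (b i) * fl (L i2) * u i2 = fl (lam i))
    (g : Matrix (Fin 3) (Fin 3) ℂ) (c' : Fin k → ℂ)
    (hg : ∀ i, lam i = c' i • L i + Matrix.vecMul (L i) g) :
    Glob (TCond L 0 (fun _ => 0)) D := by
  have hli : LinearIndependent ℂ ![L i1, L i2, L s] :=
    Matrix.linearIndependent_rows_of_det_ne_zero (A := Matrix.of ![L i1, L i2, L s]) hdet
  have e1 : a i1 - 1 = 0 ∧ b i1 = 0 ∧ c i1 = 0 := by
    refine t5_coef hli ?_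
    have h := habc i1
    rw [sub_smul, one_smul]
    linear_combination (exp := 1) -h
  have e2 : a i2 = 0 ∧ b i2 - 1 = 0 ∧ c i2 = 0 := by
    refine t5_coef hli ?_
    have h := habc i2
    rw [sub_smul, one_smul]
    linear_combination (exp := 1) -h
  have e3 : a s = 0 ∧ b s = 0 ∧ c s - 1 = 0 := by
    refine t5_coef hli ?_
    have h := habc s
    rw [sub_smul, one_smul]
    linear_combination (exp := 1) -h
  have hfl0 : fl (0 : Fin 3 → ℂ) = 0 := by
    have := fl_smul 0 0
    rwa [zero_smul, map_zero, zero_mul] at this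
  have l1 : lam i1 = 0 := by
    refine fl_inj ?_
    rw [hfl0, ← hlam i1, sub_eq_zero.1 e1.1, e1.2.1, map_one, map_zero]
    ring
  have l2 : lam i2 = 0 := by
    refine fl_inj ?_
    rw [hfl0, ← hlam i2, e2.1, sub_eq_zero.1 e2.2.1, map_one, map_zero]
    ring
  have l3 : lam s = 0 := by
    refine fl_inj ?_
    rw [hfl0, ← hlam s, e3.1, e3.2.1, hs, map_zero]
    ring
  have g1 : Matrix.vecMul (L i1) g = -(c' i1 • L i1) := by
    have h := hg i1
    rw [l1] at h
    exact (neg_eq_of_add_eq_zero_right h.symm).symm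
  have g2 : Matrix.vecMul (L i2) g = -(c' i2 • L i2) := by
    have h := hg i2
    rw [l2] at h
    exact (neg_eq_of_add_eq_zero_right h.symm).symm
  have g3 : Matrix.vecMul (L s) g = -(c' s • L s) := by
    have h := hg s
    rw [l3] at h
    exact (neg_eq_of_add_eq_zero_right h.symm).symm
  have key : ∀ i, fl (lam i) = algebraMap ℂ Fn (c' i) * fl (L i) -
      algebraMap ℂ Fn (a i * c' i1) * fl (L i1) - algebraMap ℂ Fn (b i * c' i2) * fl (L i2) -
      algebraMap ℂ Fn (c i * c' s) * fl (L s) := by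
    intro i
    have h1 : lam i = c' i • L i + (-(a i * c' i1)) • L i1 + (-(b i * c' i2)) • L i2 +
        (-(c i * c' s)) • L s := by
      have h2 : Matrix.vecMul (L i) g = a i • Matrix.vecMul (L i1) g +
          b i • Matrix.vecMul (L i2) g + c i • Matrix.vecMul (L s) g := by
        conv_lhs => rw [habc i]
        simp only [Matrix.add_vecMul, Matrix.smul_vecMul]
      rw [hg i, h2, g1, g2, g3]
      module
    rw [h1]
    simp only [fl_add, fl_smul, map_neg]
    ring
  have flL : ∀ i, fl (L i) = algebraMap ℂ Fn (a i) * fl (L i1) + algebraMap ℂ Fn (b i) * fl (L i2) +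
      algebraMap ℂ Fn (c i) * fl (L s) := by
    intro i
    conv_lhs => rw [habc i]
    simp only [fl_add, fl_smul]
  let u' : Fin k → Fn := fun i => u i - algebraMap ℂ Fn (c' i - c' s)
  have hu' : ∀ i, fl (L i) * u' i - algebraMap ℂ Fn (a i) * fl (L i1) * u' i1 -
      algebraMap ℂ Fn (b i) * fl (L i2) * u' i2 = 0 := by
    intro i
    have h1 := hlam i
    rw [key i] at h1
    have h2 := flL i
    simp only [map_mul] at h1
    simp only [u', map_sub]
    linear_combination h1 + algebraMap ℂ Fn (c' s) * h2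
  have hne : ∀ i, L i ≠ 0 := by
    intro i
    by_cases h : i = i1
    · rw [h]
      exact hli.ne_zero 0
    · exact (hC.ind i i1 h).ne_zero 0
  obtain ⟨E, hE1, hE2⟩ := exists_der hC hdet (u' i1) (u' i2)
  have hE : ∀ i, cij L E i s = u' i := by
    intro i
    have h1 := cij_rel hC E (i := i) (j := i1) (l := i2) (s := s) (a := 1) (b := -a i)
      (c := -b i) (e := -c i) (by
        rw [habc i]
        module)
    rw [hE1, hE2, map_one, map_neg, map_neg] at h1
    have h2 := hu' i
    have h3 : fl (L i) * (cij L E i s - u' i) = 0 := by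
      linear_combination h1 - h2
    exact sub_eq_zero.1 ((mul_eq_zero.1 h3).resolve_left (fl_ne_zero (hne i)))
  refine ⟨E, fun y i j _ => sect_zero_iff.2 ?_⟩
  have t : ∀ F : Derivation ℂ Fn Fn, cij L F i j = cij L F i s - cij L F j s := by
    intro F
    linear_combination cij_trans hC F i j s
  have h2 : cij L (E - D y) i j = (-(cij L (D y) i s - u i) + (cij L (D y) j s - u j)) -
      algebraMap ℂ Fn (c' i - c' j) := by
    rw [cij_sub, t, t, hE, hE]
    simp only [u', map_sub]
    ring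
  rw [h2]
  exact ((hu y i).neg.add (hu y j)).sub (Regular.const _)

end HKR
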