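import Pool.Agent.Lib.HKR.VDefs
import Pool.Agent.Lib.HKR.B2
import Pool.Agent.Lib.HKR.B3
import Pool.Agent.Lib.HKR.D1
/-!
HKR.V1 (components, local facts at one point y).
The factor (lc c)⁻¹ with class (dc c; mc c) is, at y, a unit times the inverse of the local equation of c:
 - y not on c: unit.  (line i, L i (y.q) ≠ 0: sect_inv; y.q multiple, L i(q) = 0, L i(w) ≠ 0: sect_inv_mult; pt S with
   S ≠ SS L y.q or y.q not multiple: mc = 0.)
 - y on line i: (fl (L i))⁻¹ times gen of (1;[i ∈ S]) is lam/fl (L i) (q not multiple) or sig/fl (L i) (q multiple).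
 - y.q multiple with lines S: for c = pt S the generator changes by (sig/lam)^(-1): equation sig/lam of E_q.
For ANY admissible pair lam, sig put g := lam^(d-μ) sig^μ.  Local equation e_c: 1 if y ∉ c; fl (L i)/lam or
fl (L i)/sig; sig/lam.  Then VO L d m Y y f ↔ Regular L y (f g / ∏_{c ∈ Y, y ∈ c} e_c).
vo_inter: components through y: at most two: if q is not multiple: lines through q, at most 2 of them;
  if q is multiple: pt (SS L q), and at most one line with direction w.  Their local equations are,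
  in a chart RLoc s t 0 0 (B2: regP with lx = L i, ly = L j (or any completing form), lz; regB with ly = L i), the
  coordinates s and t (distinct ones for distinct components).  If F, F/s, F/t are in RLoc s t 0 0 then
  F/(st) is: F = s A1 = t A2 with A's in the UFD-localisation; elementary: F = P/Q (Q(0,0) ≠ 0), s ∣ P and t ∣ P
  in ℂ[s,t] (from P Q1 = s P1 Q with Q1(0,0) ≠ 0, s prime, s ∤ Q1), s and t coprime, so st ∣ P.
vo_mono: Y' ⊆ Y: multiply by local equations.
vo_vanish: y ∈ c, VO {c} y f implies SectV (value 0): the local equation has value 0.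
sectV_mul etc.: SectV is stable under addition and multiplication by sections.
vo_of_pow: y arbitrary; H with Sect (-d') (-m') y H, c such that H is not divisible by c (not VO .. {c}),
  if VO {c} (H f^j) then VO {c} f (c is prime: s ∣ H' F^j, s ∤ H' implies s ∣ F in ℂ[s,t]_(0,0); if y ∉ c there is
  nothing to prove).
-/
open MvPolynomial
namespace HKR
variable {k : ℕ} {L : Fin k → Fin 3 → ℂ} {y : Pt}

/-! ### polynomial part -/

private theorem v1_comp2 {A B : Type} [CommRing A] [Algebra ℂ A] [CommRing B] [Algebra ℂ B]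
    (φ : A →ₐ[ℂ] B) (a b : A) (P : MvPolynomial (Fin 2) ℂ) :
    φ (aeval ![a, b] P) = aeval ![φ a, φ b] P := by
  rw [comp_aeval_apply]
  congr 2
  funext i
  fin_cases i <;> rfl

private noncomputable def v1_sw (P : MvPolynomial (Fin 2) ℂ) : MvPolynomial (Fin 2) ℂ :=
  aeval ![X 1, X 0] P

private theorem v1_aeval_sw {A : Type} [CommRing A] [Algebra ℂ A] (a b : A)
    (P : MvPolynomial (Fin 2) ℂ) :
    (aeval ![a, b] (v1_sw P) : A) = aeval ![b, a] P := by
  have h := v1_comp2 (MvPolynomial.aeval ![a, b] : MvPolynomial (Fin 2) ℂ →ₐ[ℂ] A) (X 1) (X 0) P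
  rw [aeval_X, aeval_X] at h
  exact h

private theorem v1_sw_sw (P : MvPolynomial (Fin 2) ℂ) : v1_sw (v1_sw P) = P := by
  have h := v1_aeval_sw (X 1 : MvPolynomial (Fin 2) ℂ) (X 0) P
  have h8 : (![X 0, X 1] : Fin 2 → MvPolynomial (Fin 2) ℂ) = X := by
    funext i; fin_cases i <;> rfl
  rw [h8, aeval_X_left_apply] at h
  exact h

private theorem v1_rloc_swap {s t : Fn} {a b : ℂ} {f : Fn} (h : RLoc s t a b f) :
    RLoc t s b a f := by
  obtain ⟨P, Q, hQ, hf⟩ := h
  refine ⟨v1_sw P, v1_sw Q, ?_, ?_⟩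
  · intro h0
    change (aeval _ (v1_sw Q) : ℂ) = 0 at h0
    rw [v1_aeval_sw] at h0
    exact hQ h0
  · unfold psi at hf ⊢
    rw [v1_aeval_sw, v1_aeval_sw]
    exact hf

private theorem v1_coord_swap {s t : Fn} (h : Coord s t) : Coord t s := by
  constructor
  · intro P hP
    have h1 : psi s t (v1_sw P) = 0 := by
      unfold psi at hP ⊢
      rw [v1_aeval_sw]
      exact hP
    have h2 := h.inj _ h1
    rw [← v1_sw_sw P, h2]
    exact map_zero _
  · intro f
    obtain ⟨P, Q, hQ, hf⟩ := h.gen f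
    refine ⟨v1_sw P, v1_sw Q, ?_, ?_⟩
    · intro h0
      refine hQ ?_
      rw [← v1_sw_sw Q, h0]
      exact map_zero _
    · unfold psi at hf ⊢
      rw [v1_aeval_sw, v1_aeval_sw]
      exact hf

private theorem v1_psi0 (s t : Fn) : psi s t (X 0) = s := by
  unfold psi; rw [aeval_X]; rfl

private theorem v1_psi1 (s t : Fn) : psi s t (X 1) = t := by
  unfold psi; rw [aeval_X]; rfl

private theorem v1_s_ne {s t : Fn} (h : Coord s t) : s ≠ 0 := by
  intro h0
  have h1 := h.inj (X 0) (by rw [v1_psi0]; exact h0)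
  exact X_ne_zero _ h1

private theorem v1_inj {s t : Fn} (h : Coord s t) {P Q : MvPolynomial (Fin 2) ℂ}
    (hPQ : psi s t P = psi s t Q) : P = Q := by
  have h1 := h.inj (P - Q) (by rw [map_sub, hPQ, sub_self])
  exact sub_eq_zero.1 h1

private theorem v1_rprime {s t : Fn} (hc : Coord s t) {A B : Fn} (hA : RLoc s t 0 0 A)
    (hB : RLoc s t 0 0 B) (h : RLoc s t 0 0 (A * B * s⁻¹)) :
    RLoc s t 0 0 (A * s⁻¹) ∨ RLoc s t 0 0 (B * s⁻¹) := by
  obtain ⟨PA, QA, hQA, hA⟩ := hA
  obtain ⟨PB, QB, hQB, hB⟩ := hB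
  obtain ⟨P, Q, hQ, h⟩ := h
  have hs := v1_s_ne hc
  have h1 : PA * PB * Q = X 0 * (P * QA * QB) := by
    refine v1_inj hc ?_
    simp only [map_mul, v1_psi0, ← hA, ← hB, ← h]
    field_simp
  have hp : Prime (X 0 : MvPolynomial (Fin 2) ℂ) := X_prime
  have hnQ : ¬ (X 0 : MvPolynomial (Fin 2) ℂ) ∣ Q := by
    rintro ⟨u, hu⟩
    refine hQ ?_
    rw [hu, map_mul, eval_X]
    simp
  have h2 : (X 0 : MvPolynomial (Fin 2) ℂ) ∣ PA * PB :=
    (hp.dvd_or_dvd (Dvd.intro _ h1.symm)).resolve_right hnQ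
  rcases hp.dvd_or_dvd h2 with ⟨u, hu⟩ | ⟨u, hu⟩
  · left
    refine ⟨u, QA, hQA, ?_⟩
    rw [hu, map_mul, v1_psi0] at hA
    rw [mul_right_comm, hA]
    field_simp
  · right
    refine ⟨u, QB, hQB, ?_⟩
    rw [hu, map_mul, v1_psi0] at hB
    rw [mul_right_comm, hB]
    field_simp

private theorem v1_not_st {s t : Fn} (hc : Coord s t) : ¬ RLoc s t 0 0 (s * t⁻¹) := by
  rintro ⟨P, Q, hQ, h⟩
  have ht := v1_s_ne (v1_coord_swap hc)
  have h1 : X 0 * Q = X 1 * P := by
    refine v1_inj hc ?_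
    simp only [map_mul, v1_psi0, v1_psi1, ← h]
    field_simp
  have hp : Prime (X 1 : MvPolynomial (Fin 2) ℂ) := X_prime
  rcases hp.dvd_or_dvd (Dvd.intro _ h1.symm) with ⟨u, hu⟩ | ⟨u, hu⟩
  · have h2 := congrArg (MvPolynomial.eval ![(1 : ℂ), 0]) hu
    rw [map_mul, eval_X, eval_X] at h2
    simp at h2
  · refine hQ ?_
    rw [hu, map_mul, eval_X]
    simp

/-! ### charts -/

private structure V1Chart (L : Fin k → Fin 3 → ℂ) (y : Pt) (s t : Fn) : Prop where
  coord : Coord s t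
  reg : ∀ f, Regular L y f ↔ RLoc s t 0 0 f

private theorem V1Chart.swap {s t : Fn} (h : V1Chart L y s t) : V1Chart L y t s :=
  ⟨v1_coord_swap h.coord, fun f => (h.reg f).trans ⟨v1_rloc_swap, v1_rloc_swap⟩⟩

private theorem V1Chart.prime {s t : Fn} (h : V1Chart L y s t) {A B : Fn} (hA : Regular L y A)
    (hB : Regular L y B) (hAB : Regular L y (A * B * s⁻¹)) :
    Regular L y (A * s⁻¹) ∨ Regular L y (B * s⁻¹) := by
  rw [h.reg] at hA hB hAB ⊢
  rw [h.reg]
  exact v1_rprime h.coord hA hB hAB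

private theorem V1Chart.cop {s t : Fn} (h : V1Chart L y s t) {F : Fn}
    (h1 : Regular L y (F * s⁻¹)) (h2 : Regular L y (F * t⁻¹)) :
    Regular L y (F * (s⁻¹ * t⁻¹)) := by
  have hs := v1_s_ne h.coord
  have hsr : Regular L y s := by
    rw [h.reg]
    refine ⟨X 0, 1, ?_, ?_⟩
    · rw [map_one]; exact one_ne_zero
    · rw [map_one, v1_psi0, mul_one]
  have h3 : Regular L y (F * s⁻¹ * s * t⁻¹) := by
    rw [inv_mul_cancel_right₀ hs]; exact h2
  rcases h.swap.prime h1 hsr h3 with h4 | h4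
  · rw [← mul_assoc]; exact h4
  · rw [h.reg] at h4
    exact absurd h4 (v1_not_st h.coord)

/-! ### linear algebra -/

private theorem v1_q_ne (y : Pt) : y.q ≠ 0 := by
  have h := y.ind.ne_zero 0
  simpa using h

private theorem v1_w_ne (y : Pt) : y.w ≠ 0 := by
  have h := y.ind.ne_zero 1
  simpa using h

private theorem v1_ne_of_dot {l v : Fin 3 → ℂ} (h : l ⬝ᵥ v ≠ 0) : l ≠ 0 := by
  rintro rfl
  exact h (zero_dotProduct v)

private theorem v1_fl_ne {l v : Fin 3 → ℂ} (h : l ⬝ᵥ v ≠ 0) : fl l ≠ 0 :=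
  fl_ne_zero (v1_ne_of_dot h)

private theorem v1_ind3 {a b c q : Fin 3 → ℂ} (hab : LinearIndependent ℂ ![a, b])
    (ha : a ⬝ᵥ q = 0) (hb : b ⬝ᵥ q = 0) (hc : c ⬝ᵥ q ≠ 0) :
    LinearIndependent ℂ ![a, b, c] := by
  rw [Fintype.linearIndependent_iff]
  intro g hg
  rw [Fin.sum_univ_three] at hg
  simp only [Matrix.cons_val_zero, Matrix.cons_val_one, Matrix.cons_val] at hg
  have h1 := congrArg (fun v => v ⬝ᵥ q) hg
  simp only [add_dotProduct, smul_dotProduct, ha, hb, zero_dotProduct, smul_eq_mul, mul_zero,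
    zero_add] at h1
  have h2 : g 2 = 0 := (mul_eq_zero.1 h1).resolve_right hc
  rw [h2, zero_smul, add_zero] at hg
  rw [Fintype.linearIndependent_iff] at hab
  have h3 := hab ![g 0, g 1] (by rw [Fin.sum_univ_two]; exact hg)
  intro i
  fin_cases i
  · exact h3 0
  · exact h3 1
  · exact h2

private theorem v1_zero_of_ind {a b c v : Fin 3 → ℂ} (h : LinearIndependent ℂ ![a, b, c])
    (ha : a ⬝ᵥ v = 0) (hb : b ⬝ᵥ v = 0) (hc : c ⬝ᵥ v = 0) : v = 0 := by
  have h1 : IsUnit (Matrix.of ![a, b, c]) := by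
    rw [← Matrix.linearIndependent_rows_iff_isUnit]
    exact h
  obtain ⟨u, hu⟩ := h1
  have h2 : (Matrix.of ![a, b, c]).mulVec v = 0 := by
    funext i
    fin_cases i
    · exact ha
    · exact hb
    · exact hc
  have h3 : ((u⁻¹ : (Matrix (Fin 3) (Fin 3) ℂ)ˣ) : Matrix (Fin 3) (Fin 3) ℂ).mulVec
      ((Matrix.of ![a, b, c]).mulVec v) = v := by
    rw [← hu, Matrix.mulVec_mulVec, Units.inv_mul, Matrix.one_mulVec]
  rw [← h3, h2, Matrix.mulVec_zero]

private theorem v1_L_ne (hC : Config L) (i : Fin k) : L i ≠ 0 := by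
  intro h0
  by_cases h : ∃ j, j ≠ i
  · obtain ⟨j, hj⟩ := h
    have h1 := (hC.ind i j hj.symm).ne_zero 0
    exact h1 h0
  · push Not at h
    have h1 := hC.nonconc (fun _ => 1) (fun j => by rw [h j, h0, zero_dotProduct])
    have h2 := congrFun h1 0
    exact one_ne_zero h2

/-- the frame of linear forms -/
private structure V1Fr (y : Pt) (lam sig tau : Fin 3 → ℂ) : Prop where
  lq : lam ⬝ᵥ y.q = 1
  lw : lam ⬝ᵥ y.w = 0
  sq : sig ⬝ᵥ y.q = 0
  sw : sig ⬝ᵥ y.w = 1
  tq : tau ⬝ᵥ y.q = 0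
  tw : tau ⬝ᵥ y.w = 0
  ind : LinearIndependent ℂ ![lam, sig, tau]

private theorem v1_exists_fr (y : Pt) : ∃ lam sig tau, V1Fr y lam sig tau := by
  obtain ⟨lam, sig, tau, h1, h2, h3, h4, h5, h6, h7⟩ := exists_forms y
  exact ⟨lam, sig, tau, ⟨h1, h2, h3, h4, h5, h6, h7⟩⟩

variable {lam sig tau : Fin 3 → ℂ}

private theorem V1Fr.lne (h : V1Fr y lam sig tau) : lam ⬝ᵥ y.q ≠ 0 := by
  rw [h.lq]; exact one_ne_zero

private theorem V1Fr.sne (h : V1Fr y lam sig tau) : sig ⬝ᵥ y.w ≠ 0 := by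
  rw [h.sw]; exact one_ne_zero

private theorem V1Fr.fl1 (h : V1Fr y lam sig tau) : fl lam ≠ 0 := v1_fl_ne h.lne

private theorem V1Fr.fl2 (h : V1Fr y lam sig tau) : fl sig ≠ 0 := v1_fl_ne h.sne

private theorem V1Fr.tne (h : V1Fr y lam sig tau) : tau ≠ 0 := h.ind.ne_zero 2

/-- the chart at a point that is not multiple -/
private theorem v1_chartP (h : V1Fr y lam sig tau) (hq : ¬ Multiple L y.q) {lx ly : Fin 3 → ℂ}
    (hx : lx ⬝ᵥ y.q = 0) (hy : ly ⬝ᵥ y.q = 0) (hi : LinearIndependent ℂ ![lx, ly]) :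
    V1Chart L y (fl lx / fl lam) (fl ly / fl lam) := by
  have h3 := v1_ind3 hi hx hy h.lne
  refine ⟨coordP h3, fun f => ?_⟩
  rw [regP h3 h.lne hq, hx, hy, zero_div]

/-- the chart at a multiple point -/
private theorem v1_chartB (h : V1Fr y lam sig tau) (hq : Multiple L y.q) {ly : Fin 3 → ℂ}
    (hy : ly ⬝ᵥ y.q = 0) (hw : ly ⬝ᵥ y.w = 0) (h0 : ly ≠ 0) :
    V1Chart L y (fl sig / fl lam) (fl ly / fl sig) := by
  have h2 : LinearIndependent ℂ ![sig, ly] := by
    rw [LinearIndependent.pair_iff]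
    intro a b hab
    have h1 := congrArg (fun v => v ⬝ᵥ y.w) hab
    simp only [add_dotProduct, smul_dotProduct, h.sw, hw, zero_dotProduct, smul_eq_mul, mul_zero,
      add_zero, mul_one] at h1
    rw [h1, zero_smul, zero_add] at hab
    exact ⟨h1, (smul_eq_zero.1 hab).resolve_right h0⟩
  have h3 := v1_ind3 h2 h.sq hy h.lne
  refine ⟨coordB h3, fun f => ?_⟩
  rw [regB h3 h.sq hy hq h.sne, hw, zero_div]

/-! ### values -/

private theorem v1_val_one : Val L y (1 : Fn) 1 := by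
  have h := Val.const (L := L) (y := y) 1
  simpa using h

private theorem v1_val_pow {u : Fn} {c : ℂ} (h : Val L y u c) (n : ℕ) :
    Val L y (u ^ n) (c ^ n) := by
  induction n with
  | zero => simpa using v1_val_one
  | succ n ih => rw [pow_succ, pow_succ]; exact ih.mul h

private theorem v1_val_reg {u : Fn} {c : ℂ} (h : Val L y u c) : Regular L y u :=
  regular_iff_val.2 ⟨c, h⟩

private theorem v1_val_zpow {u : Fn} {c : ℂ} (h : Val L y u c) (hc : c ≠ 0) (n : ℤ) :
    Val L y (u ^ n) (c ^ n) := by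
  rcases n with n | n
  · simpa using v1_val_pow h n
  · have h1 := (v1_val_pow h (n + 1)).inv (pow_ne_zero _ hc)
    rw [zpow_negSucc, zpow_negSucc]
    exact h1

private theorem v1_reg_pow {u : Fn} (h : Regular L y u) (n : ℕ) : Regular L y (u ^ n) := by
  obtain ⟨c, hc⟩ := regular_iff_val.1 h
  exact v1_val_reg (v1_val_pow hc n)

/-! ### local factors -/

private theorem v1_muq_add (m m' : Finset (Fin k) → ℤ) :
    muq L (fun S => m S + m' S) y = muq L m y + muq L m' y := by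
  unfold muq
  split_ifs <;> simp

private theorem v1_muq_zero : muq L (fun _ => 0) y = 0 := by
  unfold muq
  split_ifs <;> rfl

/-- the local factor of a component -/
private noncomputable def v1_e (L : Fin k → Fin 3 → ℂ) (y : Pt) (lam sig : Fin 3 → ℂ)
    (c : Comp k) : Fn :=
  (lc L c)⁻¹ * fl lam ^ (dc c - muq L (mc c) y) * fl sig ^ (muq L (mc c) y)

private noncomputable def v1_F (L : Fin k → Fin 3 → ℂ) (y : Pt) (lam sig : Fin 3 → ℂ)
    (d : ℤ) (m : Finset (Fin k) → ℤ) (f : Fn) : Fn :=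
  f * fl lam ^ (d - muq L m y) * fl sig ^ (muq L m y)

private theorem v1_e_prod (h1 : fl lam ≠ 0) (h2 : fl sig ≠ 0) (Y : Finset (Comp k)) :
    (∏ c ∈ Y, lc L c)⁻¹ * fl lam ^ (∑ c ∈ Y, dc c - muq L (fun S => ∑ c ∈ Y, mc c S) y) *
      fl sig ^ (muq L (fun S => ∑ c ∈ Y, mc c S) y) = ∏ c ∈ Y, v1_e L y lam sig c := by
  induction Y using Finset.induction_on with
  | empty =>
    simp only [Finset.prod_empty, Finset.sum_empty]
    rw [v1_muq_zero]
    simp
  | insert c Y hc ih =>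
    rw [Finset.prod_insert hc, Finset.prod_insert hc, ← ih]
    have e1 : muq L (fun S => ∑ c ∈ insert c Y, mc c S) y =
        muq L (mc c) y + muq L (fun S => ∑ c ∈ Y, mc c S) y := by
      rw [← v1_muq_add]
      congr 1
      funext S
      rw [Finset.sum_insert hc]
    rw [e1, Finset.sum_insert hc, mul_inv]
    unfold v1_e
    have e2 : dc c + ∑ c ∈ Y, dc c - (muq L (mc c) y + muq L (fun S => ∑ c ∈ Y, mc c S) y) =
        (dc c - muq L (mc c) y) + (∑ c ∈ Y, dc c - muq L (fun S => ∑ c ∈ Y, mc c S) y) := by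
      ring
    rw [e2, zpow_add₀ h1, zpow_add₀ h2]
    ring

private theorem v1_sect_iff (h : V1Fr y lam sig tau) {d : ℤ} {m : Finset (Fin k) → ℤ} {f : Fn} :
    Sect L d m y f ↔ Regular L y (v1_F L y lam sig d m f) :=
  sect_iff h.lne h.sq h.sne

private theorem v1_vo_iff (h : V1Fr y lam sig tau) {d : ℤ} {m : Finset (Fin k) → ℤ} {f : Fn}
    {Y : Finset (Comp k)} :
    VO L d m Y y f ↔
      Regular L y (v1_F L y lam sig d m f * ∏ c ∈ Y, v1_e L y lam sig c) := by
  unfold VO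
  rw [sect_iff h.lne h.sq h.sne, ← v1_e_prod h.fl1 h.fl2, v1_muq_add]
  unfold v1_F
  have e2 : d + ∑ c ∈ Y, dc c - (muq L m y + muq L (fun S => ∑ c ∈ Y, mc c S) y) =
      (d - muq L m y) + (∑ c ∈ Y, dc c - muq L (fun S => ∑ c ∈ Y, mc c S) y) := by
    ring
  rw [e2, zpow_add₀ h.fl1, zpow_add₀ h.fl2, div_eq_mul_inv]
  have e3 : ∀ a b c d e f g : Fn, a * b * (c * d) * (e * f) = a * c * e * (b * d * f) := by
    intro a b c d e f g
    ring
  rw [e3 _ _ _ _ _ _ 0]

private theorem v1_vo_iff1 (h : V1Fr y lam sig tau) {d : ℤ} {m : Finset (Fin k) → ℤ} {f : Fn}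
    {c : Comp k} :
    VO L d m {c} y f ↔ Regular L y (v1_F L y lam sig d m f * v1_e L y lam sig c) := by
  rw [v1_vo_iff h, Finset.prod_singleton]

private theorem v1_mem_SS {q : Fin 3 → ℂ} {i : Fin k} : i ∈ SS L q ↔ L i ⬝ᵥ q = 0 := by
  unfold SS
  rw [Finset.mem_filter]
  exact ⟨fun h => h.2, fun h => ⟨Finset.mem_univ _, h⟩⟩

private theorem v1_e_line_P (hq : ¬ Multiple L y.q) (i : Fin k) :
    v1_e L y lam sig (Comp.line i) = (fl (L i) / fl lam)⁻¹ := by
  have hm : muq L (mc (Comp.line i)) y = 0 := by unfold muq; rw [if_neg hq]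
  unfold v1_e
  rw [hm]
  change (fl (L i))⁻¹ * fl lam ^ ((1 : ℤ) - 0) * fl sig ^ (0 : ℤ) = _
  rw [sub_zero, zpow_one, zpow_zero, mul_one, inv_div, div_eq_mul_inv, mul_comm]

private theorem v1_e_line_Boff (hq : Multiple L y.q) {i : Fin k} (hi : L i ⬝ᵥ y.q ≠ 0) :
    v1_e L y lam sig (Comp.line i) = (fl (L i) / fl lam)⁻¹ := by
  have hm : muq L (mc (Comp.line i)) y = 0 := by
    unfold muq
    rw [if_pos hq]
    exact if_neg fun h => hi (v1_mem_SS.1 h)
  unfold v1_e
  rw [hm]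
  change (fl (L i))⁻¹ * fl lam ^ ((1 : ℤ) - 0) * fl sig ^ (0 : ℤ) = _
  rw [sub_zero, zpow_one, zpow_zero, mul_one, inv_div, div_eq_mul_inv, mul_comm]

private theorem v1_e_line_B (hq : Multiple L y.q) {i : Fin k} (hi : L i ⬝ᵥ y.q = 0) :
    v1_e L y lam sig (Comp.line i) = (fl (L i) / fl sig)⁻¹ := by
  have hm : muq L (mc (Comp.line i)) y = 1 := by
    unfold muq
    rw [if_pos hq]
    exact if_pos (v1_mem_SS.2 hi)
  unfold v1_e
  rw [hm]
  change (fl (L i))⁻¹ * fl lam ^ ((1 : ℤ) - 1) * fl sig ^ (1 : ℤ) = _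
  rw [sub_self, zpow_one, zpow_zero, mul_one, inv_div, div_eq_mul_inv, mul_comm]

private theorem v1_e_pt_off {S : Finset (Fin k)} (h : ¬ OnC L y (Comp.pt S)) :
    v1_e L y lam sig (Comp.pt S) = 1 := by
  have hm : muq L (mc (Comp.pt S)) y = 0 := by
    unfold muq
    split_ifs with hq
    · exact if_neg fun h1 => h ⟨hq, h1⟩
    · rfl
  unfold v1_e
  rw [hm]
  change (1 : Fn)⁻¹ * fl lam ^ ((0 : ℤ) - 0) * fl sig ^ (0 : ℤ) = _
  rw [sub_zero, zpow_zero, zpow_zero, inv_one, mul_one, mul_one]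

private theorem v1_e_pt {S : Finset (Fin k)} (h : OnC L y (Comp.pt S)) :
    v1_e L y lam sig (Comp.pt S) = (fl sig / fl lam)⁻¹ := by
  have hm : muq L (mc (Comp.pt S)) y = -1 := by
    unfold muq
    rw [if_pos h.1]
    exact if_pos h.2
  unfold v1_e
  rw [hm]
  change (1 : Fn)⁻¹ * fl lam ^ ((0 : ℤ) - -1) * fl sig ^ (-1 : ℤ) = _
  rw [sub_neg_eq_add, zero_add, zpow_one, zpow_neg_one, inv_one, one_mul, inv_div,
    div_eq_mul_inv]

private theorem v1_val_ratio' (h : V1Fr y lam sig tau) {l : Fin 3 → ℂ} (hl : l ⬝ᵥ y.q ≠ 0) :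
    ∃ u : ℂ, u ≠ 0 ∧ Val L y (fl l / fl lam)⁻¹ u := by
  refine ⟨_, inv_ne_zero (div_ne_zero hl h.lne), (Val.ratio (L := L) (l := l) h.lne).inv
    (div_ne_zero hl h.lne)⟩

/-- off the component the factor is a unit -/
private theorem v1_e_off (h : V1Fr y lam sig tau) {c : Comp k} (hc : ¬ OnC L y c) :
    ∃ u : ℂ, u ≠ 0 ∧ Val L y (v1_e L y lam sig c) u := by
  cases c with
  | line i =>
    by_cases hi : L i ⬝ᵥ y.q = 0
    · have hq : Multiple L y.q := by
        by_contra hq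
        exact hc ⟨hi, fun h => absurd h hq⟩
      have hw : L i ⬝ᵥ y.w ≠ 0 := fun h => hc ⟨hi, fun _ => h⟩
      rw [v1_e_line_B hq hi]
      exact ⟨_, inv_ne_zero (div_ne_zero hw h.sne),
        (Val.ratio_mult (L := L) hq hi h.sq h.sne).inv (div_ne_zero hw h.sne)⟩
    · by_cases hq : Multiple L y.q
      · rw [v1_e_line_Boff hq hi]
        exact v1_val_ratio' h hi
      · rw [v1_e_line_P hq]
        exact v1_val_ratio' h hi
  | pt S =>
    rw [v1_e_pt_off hc]
    exact ⟨1, one_ne_zero, v1_val_one⟩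

/-- on the component the inverse of the factor vanishes -/
private theorem v1_e_on (hC : Config L) (h : V1Fr y lam sig tau) {c : Comp k} (hc : OnC L y c) :
    v1_e L y lam sig c ≠ 0 ∧ Val L y (v1_e L y lam sig c)⁻¹ 0 := by
  cases c with
  | line i =>
    obtain ⟨hi, hw⟩ := hc
    have hL := fl_ne_zero (v1_L_ne hC i)
    by_cases hq : Multiple L y.q
    · rw [v1_e_line_B hq hi, inv_inv]
      refine ⟨inv_ne_zero (div_ne_zero hL h.fl2), ?_⟩
      have h1 := Val.ratio_mult (L := L) hq hi h.sq h.sne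
      rwa [hw hq, zero_div] at h1
    · rw [v1_e_line_P hq, inv_inv]
      refine ⟨inv_ne_zero (div_ne_zero hL h.fl1), ?_⟩
      have h1 := Val.ratio (L := L) (l := L i) h.lne
      rwa [hi, zero_div] at h1
  | pt S =>
    rw [v1_e_pt hc, inv_inv]
    refine ⟨inv_ne_zero (div_ne_zero h.fl2 h.fl1), ?_⟩
    have h1 := Val.ratio (L := L) (l := sig) h.lne
    rwa [h.sq, zero_div] at h1

private theorem v1_e_inv_reg (hC : Config L) (h : V1Fr y lam sig tau) (c : Comp k) :
    v1_e L y lam sig c ≠ 0 ∧ Regular L y (v1_e L y lam sig c)⁻¹ := by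
  by_cases hc : OnC L y c
  · obtain ⟨h1, h2⟩ := v1_e_on hC h hc
    exact ⟨h1, v1_val_reg h2⟩
  · obtain ⟨u, hu, h1⟩ := v1_e_off h hc
    exact ⟨h1.ne_zero hu, v1_val_reg (h1.inv hu)⟩

/-- two lines of the configuration have no common point of the blow-up over a multiple point -/
private theorem v1_two_lines (hC : Config L) (h : V1Fr y lam sig tau) {i j : Fin k} (hij : i ≠ j)
    (hi : L i ⬝ᵥ y.q = 0) (hj : L j ⬝ᵥ y.q = 0) (hi' : L i ⬝ᵥ y.w = 0) (hj' : L j ⬝ᵥ y.w = 0) :
    False := by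
  have h3 := v1_ind3 (hC.ind i j hij) hi hj h.lne
  exact v1_w_ne y (v1_zero_of_ind h3 hi' hj' h.lw)

/-- chart adapted to two components -/
private theorem v1_chart2 (hC : Config L) (h : V1Fr y lam sig tau) {c c' : Comp k}
    (hc : OnC L y c) (hc' : OnC L y c') (hne : c ≠ c') :
    ∃ s t, V1Chart L y s t ∧ v1_e L y lam sig c = s⁻¹ ∧ v1_e L y lam sig c' = t⁻¹ := by
  cases c with
  | line i =>
    obtain ⟨hi, hw⟩ := hc
    cases c' with
    | line j =>
      obtain ⟨hj, hw'⟩ := hc'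
      have hij : i ≠ j := fun h => hne (by rw [h])
      have hq : ¬ Multiple L y.q := fun hq => v1_two_lines hC h hij hi hj (hw hq) (hw' hq)
      exact ⟨_, _, v1_chartP h hq hi hj (hC.ind i j hij), v1_e_line_P hq i, v1_e_line_P hq j⟩
    | pt S =>
      exact ⟨_, _, (v1_chartB h hc'.1 hi (hw hc'.1) (v1_L_ne hC i)).swap, v1_e_line_B hc'.1 hi,
        v1_e_pt hc'⟩
  | pt S =>
    cases c' with
    | line j =>
      obtain ⟨hj, hw'⟩ := hc'
      exact ⟨_, _, v1_chartB h hc.1 hj (hw' hc.1) (v1_L_ne hC j), v1_e_pt hc,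
        v1_e_line_B hc.1 hj⟩
    | pt S' =>
      exact absurd (by rw [← hc.2, ← hc'.2]) hne

/-- chart adapted to one component -/
private theorem v1_chart1 (hC : Config L) (h : V1Fr y lam sig tau) {c : Comp k}
    (hc : OnC L y c) : ∃ s t, V1Chart L y s t ∧ v1_e L y lam sig c = s⁻¹ := by
  cases c with
  | line i =>
    obtain ⟨hi, hw⟩ := hc
    by_cases hq : Multiple L y.q
    · exact ⟨_, _, (v1_chartB h hq hi (hw hq) (v1_L_ne hC i)).swap, v1_e_line_B hq hi⟩
    · obtain ⟨ly, hly, hli⟩ : ∃ ly : Fin 3 → ℂ, ly ⬝ᵥ y.q = 0 ∧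
          LinearIndependent ℂ ![L i, ly] := by
        by_contra hcon
        push Not at hcon
        have h1 := hcon sig h.sq
        have h2 := hcon tau h.tq
        rw [LinearIndependent.pair_iff' (v1_L_ne hC i)] at h1 h2
        push Not at h1 h2
        obtain ⟨a, ha⟩ := h1
        obtain ⟨b, hb⟩ := h2
        have e1 := h.sw
        have e2 := h.tw
        rw [← ha, smul_dotProduct, smul_eq_mul] at e1
        rw [← hb, smul_dotProduct, smul_eq_mul] at e2
        have e3 : L i ⬝ᵥ y.w ≠ 0 := by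
          intro e3
          rw [e3, mul_zero] at e1
          exact zero_ne_one e1
        have e4 : b = 0 := (mul_eq_zero.1 e2).resolve_right e3
        refine h.tne ?_
        rw [← hb, e4, zero_smul]
      exact ⟨_, _, v1_chartP h hq hi hly hli, v1_e_line_P hq i⟩
  | pt S =>
    exact ⟨_, _, v1_chartB h hc.1 h.tq h.tw h.tne, v1_e_pt hc⟩

/-- at most two components through a point -/
private theorem v1_no3 (hC : Config L) (h : V1Fr y lam sig tau) {a b c : Comp k}
    (ha : OnC L y a) (hb : OnC L y b) (hc : OnC L y c) (hab : a ≠ b) (hac : a ≠ c)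
    (hbc : b ≠ c) : False := by
  by_cases hq : Multiple L y.q
  · -- two of them are lines or two are points
    have hl : ∀ i j, OnC L y (Comp.line i) → OnC L y (Comp.line j) → i ≠ j → False :=
      fun i j hi hj hij => v1_two_lines hC h hij hi.1 hj.1 (hi.2 hq) (hj.2 hq)
    have hp : ∀ S S', OnC L y (Comp.pt S) → OnC L y (Comp.pt S') → S ≠ S' → False :=
      fun S S' hS hS' hne => hne (by rw [← hS.2, ← hS'.2])
    cases a with
    | line i =>
      cases b with
      | line j => exact hl i j ha hb fun h => hab (by rw [h])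
      | pt S =>
        cases c with
        | line l => exact hl i l ha hc fun h => hac (by rw [h])
        | pt S' => exact hp S S' hb hc fun h => hbc (by rw [h])
    | pt S =>
      cases b with
      | line j =>
        cases c with
        | line l => exact hl j l hb hc fun h => hbc (by rw [h])
        | pt S' => exact hp S S' ha hc fun h => hac (by rw [h])
      | pt S' => exact hp S S' ha hb fun h => hab (by rw [h])
  · cases a with
    | pt S => exact hq ha.1
    | line i =>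
      cases b with
      | pt S => exact hq hb.1
      | line j =>
        cases c with
        | pt S => exact hq hc.1
        | line l =>
          exact hq ⟨i, j, l, fun h => hab (by rw [h]), fun h => hac (by rw [h]),
            fun h => hbc (by rw [h]), ha.1, hb.1, hc.1⟩

/-! ### the statements -/

theorem vo_empty {d : ℤ} {m : Finset (Fin k) → ℤ} {f : Fn} : VO L d m ∅ y f ↔ Sect L d m y f := by
  unfold VO
  simp only [Finset.sum_empty, Finset.prod_empty, add_zero, div_one]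

theorem vo_off {d : ℤ} {m : Finset (Fin k) → ℤ} {f : Fn} (hC : Config L) {c : Comp k}
    (h : ¬ OnC L y c) : VO L d m {c} y f ↔ Sect L d m y f := by
  obtain ⟨lam, sig, tau, hF⟩ := v1_exists_fr y
  obtain ⟨u, hu, h1⟩ := v1_e_off hF h
  rw [v1_vo_iff1 hF, v1_sect_iff hF]
  constructor
  · intro h2
    have h3 := h2.mul (v1_val_reg (h1.inv hu))
    rwa [mul_inv_cancel_right₀ (h1.ne_zero hu)] at h3
  · intro h2
    exact h2.mul (v1_val_reg h1)

theorem vo_mono {d : ℤ} {m : Finset (Fin k) → ℤ} {f : Fn} (hC : Config L) {Y Y' : Finset (Comp k)}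
    (hY : Y' ⊆ Y) (h : VO L d m Y y f) : VO L d m Y' y f := by
  obtain ⟨lam, sig, tau, hF⟩ := v1_exists_fr y
  rw [v1_vo_iff hF] at h ⊢
  rw [← Finset.prod_sdiff hY] at h
  have h1 : ∀ Z : Finset (Comp k), ∏ c ∈ Z, v1_e L y lam sig c ≠ 0 ∧
      Regular L y (∏ c ∈ Z, v1_e L y lam sig c)⁻¹ := by
    intro Z
    induction Z using Finset.induction_on with
    | empty =>
      rw [Finset.prod_empty, inv_one]
      exact ⟨one_ne_zero, v1_val_reg v1_val_one⟩
    | insert c Z hc ih =>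
      rw [Finset.prod_insert hc, mul_inv]
      obtain ⟨h1, h2⟩ := v1_e_inv_reg hC hF c
      exact ⟨mul_ne_zero h1 ih.1, h2.mul ih.2⟩
  obtain ⟨h2, h3⟩ := h1 (Y \ Y')
  have h4 := h.mul h3
  have e3 : ∀ a b c : Fn, b ≠ 0 → a * (b * c) * b⁻¹ = a * c := by
    intro a b c hb
    field_simp
  rwa [e3 _ _ _ h2] at h4

theorem vo_sect {d : ℤ} {m : Finset (Fin k) → ℤ} {f : Fn} (hC : Config L) {Y : Finset (Comp k)}
    (h : VO L d m Y y f) : Sect L d m y f :=
  vo_empty.1 (vo_mono hC (Finset.empty_subset Y) h)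

theorem vo_add {d : ℤ} {m : Finset (Fin k) → ℤ} {f f' : Fn} {Y : Finset (Comp k)}
    (h : VO L d m Y y f) (h' : VO L d m Y y f') : VO L d m Y y (f + f') := by
  unfold VO at h h' ⊢
  rw [add_div]
  exact h.add h'

theorem vo_neg {d : ℤ} {m : Finset (Fin k) → ℤ} {f : Fn} {Y : Finset (Comp k)}
    (h : VO L d m Y y f) : VO L d m Y y (-f) := by
  unfold VO at h ⊢
  rw [div_eq_mul_inv, neg_mul, ← div_eq_mul_inv]
  exact h.neg

theorem vo_mul {d d' : ℤ} {m m' : Finset (Fin k) → ℤ} {f f' : Fn} {Y : Finset (Comp k)}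
    (h : VO L d m Y y f) (h' : Sect L d' m' y f') :
    VO L (d + d') (fun S => m S + m' S) Y y (f * f') := by
  unfold VO at h ⊢
  have h1 := h.mul h'
  rw [div_mul_eq_mul_div, add_right_comm] at h1
  refine h1.congr_m fun _ => ?_
  exact add_right_comm _ _ _

open Classical in
/-- sections vanishing along each of the components `Y` vanish along `Y` -/
theorem vo_inter (hC : Config L) {d : ℤ} {m : Finset (Fin k) → ℤ} {f : Fn} {Y : Finset (Comp k)}
    (h0 : Sect L d m y f) (h : ∀ c ∈ Y, VO L d m {c} y f) : VO L d m Y y f := by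
  obtain ⟨lam, sig, tau, hF⟩ := v1_exists_fr y
  rw [v1_sect_iff hF] at h0
  rw [v1_vo_iff hF]
  have h' : ∀ c ∈ Y, Regular L y (v1_F L y lam sig d m f * v1_e L y lam sig c) :=
    fun c hc => (v1_vo_iff1 hF).1 (h c hc)
  clear h
  generalize v1_F L y lam sig d m f = F at h0 h'
  rw [← Finset.prod_filter_mul_prod_filter_not Y (fun c => OnC L y c), ← mul_assoc]
  refine Regular.mul ?_ ?_
  · set T := Y.filter (fun c => OnC L y c) with hT
    have hT1 : ∀ c ∈ T, c ∈ Y ∧ OnC L y c := fun c hc => Finset.mem_filter.1 hc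
    rcases Nat.lt_or_ge 2 T.card with h3 | h3
    · obtain ⟨a, ha, b, hb, c, hc, hab, hac, hbc⟩ := Finset.two_lt_card.1 h3
      exact (v1_no3 hC hF (hT1 a ha).2 (hT1 b hb).2 (hT1 c hc).2 hab hac hbc).elim
    · have h4 : T.card = 0 ∨ T.card = 1 ∨ T.card = 2 := by omega
      rcases h4 with h4 | h4 | h4
      · rw [Finset.card_eq_zero] at h4
        rw [h4, Finset.prod_empty, mul_one]
        exact h0
      · obtain ⟨a, ha⟩ := Finset.card_eq_one.1 h4
        rw [ha, Finset.prod_singleton]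
        exact h' a (hT1 a (by rw [ha]; exact Finset.mem_singleton_self _)).1
      · obtain ⟨a, b, hab, hT2⟩ := Finset.card_eq_two.1 h4
        have ha := hT1 a (by rw [hT2]; simp)
        have hb := hT1 b (by rw [hT2]; simp)
        rw [hT2, Finset.prod_pair hab]
        obtain ⟨s, t, hst, hs, ht⟩ := v1_chart2 hC hF ha.2 hb.2 hab
        have h5 := h' a ha.1
        have h6 := h' b hb.1
        rw [hs] at h5 ⊢
        rw [ht] at h6 ⊢
        exact hst.cop h5 h6
  · have h7 : ∀ Z : Finset (Comp k), (∀ c ∈ Z, ¬ OnC L y c) →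
        Regular L y (∏ c ∈ Z, v1_e L y lam sig c) := by
      intro Z
      induction Z using Finset.induction_on with
      | empty =>
        intro _
        rw [Finset.prod_empty]
        exact v1_val_reg v1_val_one
      | insert c Z hc ih =>
        intro hZ
        rw [Finset.prod_insert hc]
        obtain ⟨u, hu, h1⟩ := v1_e_off hF (hZ c (Finset.mem_insert_self _ _))
        exact (v1_val_reg h1).mul (ih fun c' hc' => hZ c' (Finset.mem_insert_of_mem hc'))
    exact h7 _ fun c hc => (Finset.mem_filter.1 hc).2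

theorem sectV_sect {d : ℤ} {m : Finset (Fin k) → ℤ} {f : Fn} (h : SectV L d m y f) :
    Sect L d m y f := by
  obtain ⟨lam, sig, h1, h2, h3, h4⟩ := h
  exact ⟨lam, sig, h1, h2, h3, v1_val_reg h4⟩

private theorem v1_sectV_iff {D : ℤ} {m : Finset (Fin k) → ℤ} {f : Fn} {lam sig : Fin 3 → ℂ}
    (h1 : lam ⬝ᵥ y.q ≠ 0) (h2 : sig ⬝ᵥ y.q = 0) (h3 : sig ⬝ᵥ y.w ≠ 0) :
    SectV L D m y f ↔ Val L y (f * fl lam ^ (D - muq L m y) * fl sig ^ (muq L m y)) 0 := by
  constructor
  · rintro ⟨lam1, sig1, h1', h2', h3', h⟩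
    have e1 := v1_fl_ne h1
    have e1' := v1_fl_ne h1'
    have e3 := v1_fl_ne h3
    have e3' := v1_fl_ne h3'
    have hl := v1_val_zpow (Val.ratio (L := L) (l := lam) h1') (div_ne_zero h1 h1')
      (D - muq L m y)
    obtain ⟨c, hs⟩ : ∃ c, Val L y ((fl sig / fl sig1) ^ (muq L m y)) c := by
      by_cases hm : Multiple L y.q
      · exact ⟨_, v1_val_zpow (Val.ratio_mult (L := L) hm h2 h2' h3') (div_ne_zero h3 h3') _⟩
      · have h0 : muq L m y = 0 := by
          unfold muq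
          rw [if_neg hm]
        rw [h0, zpow_zero]
        exact ⟨1, v1_val_one⟩
    have h5 := (h.mul hl).mul hs
    have h6 : f * fl lam1 ^ (D - muq L m y) * fl sig1 ^ (muq L m y) *
        (fl lam / fl lam1) ^ (D - muq L m y) * (fl sig / fl sig1) ^ (muq L m y) =
        f * fl lam ^ (D - muq L m y) * fl sig ^ (muq L m y) := by
      rw [div_zpow, div_zpow]
      have a1 : fl lam1 ^ (D - muq L m y) ≠ 0 := zpow_ne_zero _ e1'
      have a3 : fl sig1 ^ (muq L m y) ≠ 0 := zpow_ne_zero _ e3'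
      field_simp
    rw [h6, zero_mul, zero_mul] at h5
    exact h5
  · intro h
    exact ⟨lam, sig, h1, h2, h3, h⟩

theorem sectV_of_vo {d : ℤ} {m : Finset (Fin k) → ℤ} {f : Fn} (hC : Config L) {c : Comp k}
    (hc : OnC L y c) (h : VO L d m {c} y f) : SectV L d m y f := by
  obtain ⟨lam, sig, tau, hF⟩ := v1_exists_fr y
  rw [v1_vo_iff1 hF] at h
  rw [v1_sectV_iff hF.lne hF.sq hF.sne]
  obtain ⟨h1, h2⟩ := v1_e_on hC hF hc
  obtain ⟨u, hu⟩ := regular_iff_val.1 h
  have h3 := hu.mul h2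
  rw [mul_inv_cancel_right₀ h1, mul_zero] at h3
  exact h3

theorem sectV_add {d : ℤ} {m : Finset (Fin k) → ℤ} {f f' : Fn} (h : SectV L d m y f)
    (h' : SectV L d m y f') : SectV L d m y (f + f') := by
  obtain ⟨lam, sig, h1, h2, h3, h4⟩ := h
  rw [v1_sectV_iff h1 h2 h3] at h' ⊢
  rw [add_mul, add_mul]
  have h5 := h4.add h'
  rwa [add_zero] at h5

theorem sectV_mul {d d' : ℤ} {m m' : Finset (Fin k) → ℤ} {f f' : Fn} (h : SectV L d m y f)
    (h' : Sect L d' m' y f') : SectV L (d + d') (fun S => m S + m' S) y (f * f') := by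
  obtain ⟨lam, sig, h1, h2, h3, h4⟩ := h
  rw [sect_iff h1 h2 h3] at h'
  rw [v1_sectV_iff h1 h2 h3]
  obtain ⟨u, hu⟩ := regular_iff_val.1 h'
  have h5 := h4.mul hu
  rw [zero_mul] at h5
  have e1 := v1_fl_ne h1
  have e3 := v1_fl_ne h3
  rw [v1_muq_add]
  have e2 : d + d' - (muq L m y + muq L m' y) = (d - muq L m y) + (d' - muq L m' y) := by ring
  rw [e2, zpow_add₀ e1, zpow_add₀ e3]
  have e4 : ∀ a b c d e f : Fn, a * b * (c * d) * (e * f) = a * c * e * (b * d * f) := by
    intro a b c d e f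
    ring
  rw [e4]
  exact h5

theorem sectV_zero_iff {f : Fn} : SectV L 0 (fun _ => 0) y f ↔ Val L y f 0 := by
  obtain ⟨lam, sig, tau, hF⟩ := v1_exists_fr y
  rw [v1_sectV_iff hF.lne hF.sq hF.sne, v1_muq_zero, sub_zero, zpow_zero, zpow_zero, mul_one,
    mul_one]

/-- primality of a component -/
theorem vo_of_pow (hC : Config L) {d d' : ℤ} {m m' : Finset (Fin k) → ℤ} {f H : Fn} {c : Comp k}
    {j : ℕ} (hj : 1 ≤ j) (hf : Sect L d m y f) (hH : Sect L d' m' y H)
    (hH' : ¬ VO L d' m' {c} y H)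
    (h : VO L (d' + j * d) (fun S => m' S + j * m S) {c} y (H * f ^ j)) :
    VO L d m {c} y f := by
  obtain ⟨lam, sig, tau, hF⟩ := v1_exists_fr y
  by_cases hc : OnC L y c
  swap
  · exact absurd ((vo_off hC hc).2 hH) hH'
  rw [v1_sect_iff hF] at hf hH
  rw [v1_vo_iff1 hF] at h hH' ⊢
  obtain ⟨s, t, hst, hs⟩ := v1_chart1 hC hF hc
  have e0 : v1_F L y lam sig (d' + j * d) (fun S => m' S + j * m S) (H * f ^ j) =
      v1_F L y lam sig d' m' H * v1_F L y lam sig d m f ^ j := by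
    unfold v1_F
    have e1 : muq L (fun S => (j : ℤ) * m S) y = j * muq L m y := by
      unfold muq
      split_ifs <;> simp
    rw [v1_muq_add, e1]
    have e2 : d' + j * d - (muq L m' y + j * muq L m y) =
        (d' - muq L m' y) + (d - muq L m y) * j := by ring
    rw [e2, zpow_add₀ hF.fl1, zpow_add₀ hF.fl2, mul_comm (j : ℤ) (muq L m y), zpow_mul, zpow_mul,
      zpow_natCast, zpow_natCast, mul_pow, mul_pow]
    ring
  rw [e0] at h
  rw [hs] at h hH' ⊢
  generalize v1_F L y lam sig d m f = F at *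
  generalize v1_F L y lam sig d' m' H = G at *
  have h1 : Regular L y (F ^ j * s⁻¹) :=
    (hst.prime hH (v1_reg_pow hf j) h).resolve_left hH'
  clear h e0
  induction j with
  | zero => omega
  | succ j ih =>
    rcases Nat.eq_zero_or_pos j with h0 | h0
    · subst h0
      rwa [zero_add, pow_one] at h1
    · rw [pow_succ] at h1
      rcases hst.prime (v1_reg_pow hf j) hf h1 with h2 | h2
      · exact ih h0 h2
      · exact h2

end HKR
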