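import Pool.Agent.Lib.HKR.FDefs

/-!
HKR, part V (vanishing along components).  Definitions, by helper90.
A component is a line or the exceptional curve of the multiple point with set of lines `S`.
-/

open MvPolynomial

namespace HKR

/-- components of the boundary divisor -/
inductive Comp (k : ℕ) where
  | line (i : Fin k) : Comp k
  | pt (S : Finset (Fin k)) : Comp k
  deriving DecidableEq

/-- degree of the class of a component -/
def dc {k : ℕ} : Comp k → ℤ
  | Comp.line _ => 1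
  | Comp.pt _ => 0

/-- multiplicity function of the class of a component: `L_i = (1; [i ∈ S])`, `E_S = (0; -[S])` -/
def mc {k : ℕ} : Comp k → Finset (Fin k) → ℤ
  | Comp.line i => fun S => if i ∈ S then 1 else 0
  | Comp.pt S' => fun S => if S = S' then -1 else 0

/-- equation of a component -/
noncomputable def lc {k : ℕ} (L : Fin k → Fin 3 → ℂ) : Comp k → Fn
  | Comp.line i => fl (L i)
  | Comp.pt _ => 1

/-- `f ∈ O(-M-Y)_y`, `M = (d;m)`, `Y` a set of components: sections of `O(-M)` vanishing along `Y` -/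
def VO {k : ℕ} (L : Fin k → Fin 3 → ℂ) (d : ℤ) (m : Finset (Fin k) → ℤ) (Y : Finset (Comp k))
    (y : Pt) (f : Fn) : Prop :=
  Sect L (d + ∑ c ∈ Y, dc c) (fun S => m S + ∑ c ∈ Y, mc c S) y (f / ∏ c ∈ Y, lc L c)

/-- the point `y` lies on the component -/
def OnC {k : ℕ} (L : Fin k → Fin 3 → ℂ) (y : Pt) : Comp k → Prop
  | Comp.line i => L i ⬝ᵥ y.q = 0 ∧ (Multiple L y.q → L i ⬝ᵥ y.w = 0)
  | Comp.pt S => Multiple L y.q ∧ SS L y.q = S

/-- `f` is a section of `O(-M)` at `y` vanishing at the point `y` -/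
def SectV {k : ℕ} (L : Fin k → Fin 3 → ℂ) (D : ℤ) (m : Finset (Fin k) → ℤ) (y : Pt) (f : Fn) :
    Prop :=
  ∃ lam sig : Fin 3 → ℂ, lam ⬝ᵥ y.q ≠ 0 ∧ sig ⬝ᵥ y.q = 0 ∧ sig ⬝ᵥ y.w ≠ 0 ∧
    Val L y (f * fl lam ^ (D - muq L m y) * fl sig ^ (muq L m y)) 0

end HKR
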